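import Mathlib

/-!
# Tools for Vaught's conjecture, part 1: perfect sets, structures

Merged file (to shorten the import chain): contents, unchanged, of
`Pool.Agent.Helper6.Mycielski`, `Pool.Agent.Helper6.PerfectTools`, `Pool.Agent.Helper6.StructTools`, `Pool.Agent.Helper5.Multi`.
-/

/-! ### formerly `Pool.Agent.Helper6.Mycielski` -/

section

/-!
# Mycielski's theorem for meagre relations, and two perfect set tools
-/

set_option autoImplicit false

namespace Pool.Agent.Helper6

open Set Filter Topology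

/-- Shrinking one pair. -/
theorem shrink_pair {X : Type*} [TopologicalSpace X] {W : Set (X × X)} (hWo : IsOpen W)
    (hWd : Dense W) {A B : Set X} (hA : IsOpen A) (hB : IsOpen B) (hAn : A.Nonempty)
    (hBn : B.Nonempty) :
    ∃ A' B' : Set X, IsOpen A' ∧ IsOpen B' ∧ A'.Nonempty ∧ B'.Nonempty ∧ A' ⊆ A ∧ B' ⊆ B ∧
      A' ×ˢ B' ⊆ W := by
  obtain ⟨p, hp, hpW⟩ := hWd.inter_open_nonempty (A ×ˢ B) (hA.prod hB) (hAn.prod hBn)
  obtain ⟨u, v, hu, hv, hpu, hpv, huv⟩ := isOpen_prod_iff.mp hWo p.1 p.2 hpW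
  refine ⟨A ∩ u, B ∩ v, hA.inter hu, hB.inter hv, ⟨p.1, hp.1, hpu⟩, ⟨p.2, hp.2, hpv⟩,
    inter_subset_left, inter_subset_left, ?_⟩
  exact (prod_mono inter_subset_right inter_subset_right).trans huv

/-- Shrinking a finite family so that all pairs of distinct members land in `W`. -/
theorem shrink_family {X : Type*} [TopologicalSpace X] {W : Set (X × X)} (hWo : IsOpen W)
    (hWd : Dense W) {ι : Type*} [Finite ι] (U : ι → Set X) (hU : ∀ i, IsOpen (U i))
    (hUn : ∀ i, (U i).Nonempty) :
    ∃ V : ι → Set X, (∀ i, IsOpen (V i)) ∧ (∀ i, (V i).Nonempty) ∧ (∀ i, V i ⊆ U i) ∧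
      ∀ i j, i ≠ j → V i ×ˢ V j ⊆ W := by
  classical
  cases nonempty_fintype ι
  suffices H : ∀ P : Finset (ι × ι), ∃ V : ι → Set X, (∀ i, IsOpen (V i)) ∧
      (∀ i, (V i).Nonempty) ∧ (∀ i, V i ⊆ U i) ∧
      ∀ p ∈ P, p.1 ≠ p.2 → V p.1 ×ˢ V p.2 ⊆ W by
    obtain ⟨V, h1, h2, h3, h4⟩ := H Finset.univ
    exact ⟨V, h1, h2, h3, fun i j hij => h4 (i, j) (Finset.mem_univ _) hij⟩
  intro P
  induction P using Finset.induction_on with
  | empty => exact ⟨U, hU, hUn, fun i => Subset.rfl, by simp⟩
  | insert p P hp ih =>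
    obtain ⟨V, h1, h2, h3, h4⟩ := ih
    by_cases hpp : p.1 = p.2
    · refine ⟨V, h1, h2, h3, ?_⟩
      intro q hq hqne
      rcases Finset.mem_insert.mp hq with rfl | hq
      · exact absurd hpp hqne
      · exact h4 q hq hqne
    · obtain ⟨A, B, hA, hB, hAn, hBn, hAs, hBs, hAB⟩ :=
        shrink_pair hWo hWd (h1 p.1) (h1 p.2) (h2 p.1) (h2 p.2)
      let V' : ι → Set X := fun i => if i = p.1 then A else if i = p.2 then B else V i
      have hV1 : V' p.1 = A := by simp [V']
      have hV2 : V' p.2 = B := by simp [V', Ne.symm hpp]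
      have hsub : ∀ i, V' i ⊆ V i := by
        intro i
        by_cases hi : i = p.1
        · subst hi; rw [hV1]; exact hAs
        · by_cases hi2 : i = p.2
          · subst hi2; rw [hV2]; exact hBs
          · simp [V', hi, hi2]
      refine ⟨V', ?_, ?_, fun i => (hsub i).trans (h3 i), ?_⟩
      · intro i
        by_cases hi : i = p.1
        · subst hi; rw [hV1]; exact hA
        · by_cases hi2 : i = p.2
          · subst hi2; rw [hV2]; exact hB
          · simpa [V', hi, hi2] using h1 i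
      · intro i
        by_cases hi : i = p.1
        · subst hi; rw [hV1]; exact hAn
        · by_cases hi2 : i = p.2
          · subst hi2; rw [hV2]; exact hBn
          · simpa [V', hi, hi2] using h2 i
      · intro q hq hqne
        rcases Finset.mem_insert.mp hq with rfl | hq
        · rw [hV1, hV2]; exact hAB
        · exact (prod_mono (hsub _) (hsub _)).trans (h4 q hq hqne)

/-- Shrinking an open set to a small open set whose closure is still inside. -/
theorem shrink_small {X : Type*} [MetricSpace X] {U : Set X} (hU : IsOpen U) (hUn : U.Nonempty)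
    {ε : ENNReal} (hε : 0 < ε) :
    ∃ V : Set X, IsOpen V ∧ V.Nonempty ∧ closure V ⊆ U ∧ Metric.ediam V ≤ ε := by
  obtain ⟨x, hx⟩ := hUn
  obtain ⟨δ', hδ', hδU'⟩ := EMetric.mem_nhds_iff.mp (hU.mem_nhds hx)
  obtain ⟨δ, hδ, hδt, hδU⟩ : ∃ δ : ENNReal, 0 < δ ∧ δ ≠ ⊤ ∧ Metric.eball x δ ⊆ U :=
    ⟨min δ' 1, lt_min hδ' one_pos, ne_top_of_le_ne_top ENNReal.one_ne_top (min_le_right _ _),
      (Metric.eball_subset_eball (min_le_left _ _)).trans hδU'⟩
  have hr : 0 < min (δ / 2) (ε / 2) := by
    apply lt_min <;> [exact ENNReal.half_pos hδ.ne'; exact ENNReal.half_pos hε.ne']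
  refine ⟨Metric.eball x (min (δ / 2) (ε / 2)), Metric.isOpen_eball,
    ⟨x, Metric.mem_eball_self hr⟩, ?_, ?_⟩
  · intro y hy
    apply hδU
    have h1 : y ∈ Metric.closedEBall x (min (δ / 2) (ε / 2)) :=
      closure_minimal Metric.eball_subset_closedEBall Metric.isClosed_closedEBall hy
    rw [Metric.mem_closedEBall] at h1
    rw [Metric.mem_eball]
    exact lt_of_le_of_lt (h1.trans (min_le_left _ _)) (ENNReal.half_lt_self hδ.ne' hδt)
  · refine (Metric.ediam_eball_le).trans ?_
    calc 2 * min (δ / 2) (ε / 2) ≤ 2 * (ε / 2) := by gcongr; exact min_le_right _ _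
      _ = ε := by rw [ENNReal.mul_div_cancel (by norm_num) (by norm_num)]

open PiNat CantorScheme in
/-- Mycielski's theorem, for the complement of a countable intersection of dense open sets. -/
theorem mycielski_aux {X : Type*} [MetricSpace X] [CompleteSpace X] [Nonempty X]
    (W : ℕ → Set (X × X)) (hWo : ∀ n, IsOpen (W n)) (hWd : ∀ n, Dense (W n))
    (hWa : Antitone W) :
    ∃ g : (ℕ → Bool) → X, Continuous g ∧ ∀ x y, x ≠ y → ∀ n, (g x, g y) ∈ W n := by
  classical
  obtain ⟨u, -, upos', hu⟩ := exists_seq_strictAnti_tendsto' (zero_lt_one' ENNReal)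
  have upos := fun n => (upos' n).1
  -- stages
  let Stage := { F : List Bool → Set X // ∀ l, IsOpen (F l) ∧ (F l).Nonempty }
  have step : ∀ (n : ℕ) (F : Stage), ∃ G : Stage,
      (∀ a l, l.length = n → closure (G.1 (a :: l)) ⊆ F.1 l) ∧
      (∀ l, l.length = n + 1 → Metric.ediam (G.1 l) ≤ u n) ∧
      (∀ l l', l.length = n + 1 → l'.length = n + 1 → l ≠ l' → G.1 l ×ˢ G.1 l' ⊆ W n) := by
    intro n F
    let ι := { l : List Bool // l.length = n + 1 }
    have : Finite ι := (List.finite_length_eq Bool (n + 1)).to_subtype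
    obtain ⟨V, h1, h2, h3, h4⟩ := shrink_family (hWo n) (hWd n)
      (fun i : ι => F.1 i.1.tail) (fun i => (F.2 _).1) (fun i => (F.2 _).2)
    choose V' k1 k2 k3 k4 using fun i : ι => shrink_small (h1 i) (h2 i) (upos n)
    let G : List Bool → Set X := fun l => if h : l.length = n + 1 then V' ⟨l, h⟩ else univ
    have hG : ∀ l (h : l.length = n + 1), G l = V' ⟨l, h⟩ := fun l h => by simp [G, h]
    refine ⟨⟨G, fun l => ?_⟩, ?_, ?_, ?_⟩
    · by_cases h : l.length = n + 1
      · rw [hG l h]; exact ⟨k1 _, k2 _⟩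
      · simp [G, h]
    · intro a l hl
      have h : (a :: l).length = n + 1 := by simp [hl]
      show closure (G (a :: l)) ⊆ _
      rw [hG _ h]
      exact (k3 _).trans (h3 ⟨a :: l, h⟩)
    · intro l h
      show Metric.ediam (G l) ≤ _
      rw [hG _ h]
      exact k4 _
    · intro l l' h h' hne
      show G l ×ˢ G l' ⊆ _
      rw [hG _ h, hG _ h']
      refine (Set.prod_mono ?_ ?_).trans (h4 ⟨l, h⟩ ⟨l', h'⟩ (fun hh => hne (congrArg Subtype.val hh)))
      · exact subset_closure.trans (k3 _)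
      · exact subset_closure.trans (k3 _)
  choose next hn1 hn2 hn3 using step
  let S : ℕ → Stage := fun n => Nat.rec ⟨fun _ => univ, fun _ => ⟨isOpen_univ, univ_nonempty⟩⟩
    (fun n F => next n F) n
  have hS : ∀ n, S (n + 1) = next n (S n) := fun n => rfl
  let D : List Bool → Set X := fun l => (S l.length).1 l
  have hD : ∀ a l, closure (D (a :: l)) ⊆ D l := by
    intro a l
    show closure ((S (a :: l).length).1 (a :: l)) ⊆ (S l.length).1 l
    have : (a :: l).length = l.length + 1 := rfl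
    rw [this, hS]
    exact hn1 _ _ a l rfl
  have hanti : ClosureAntitone D := fun l a => hD a l
  have hdiam : VanishingDiam D := by
    intro x
    apply tendsto_of_tendsto_of_tendsto_of_le_of_le' (h := fun n => u (n - 1))
      tendsto_const_nhds ?_ (Eventually.of_forall fun n => zero_le) ?_
    · exact hu.comp (tendsto_sub_atTop_nat 1)
    · rw [eventually_atTop]
      refine ⟨1, fun m hm => ?_⟩
      obtain ⟨k, rfl⟩ := Nat.exists_eq_succ_of_ne_zero (by omega : m ≠ 0)
      show Metric.ediam ((S (res x (k + 1)).length).1 (res x (k + 1))) ≤ _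
      rw [res_length, hS]
      simpa using hn2 k (S k) (res x (k + 1)) (res_length _ _)
  have hnonempty : ∀ l, (D l).Nonempty := fun l => ((S l.length).2 l).2
  have hdom : ∀ {x : ℕ → Bool}, x ∈ (inducedMap D).1 := fun {x} => by
    rw [hanti.map_of_vanishingDiam hdiam hnonempty]
    apply mem_univ
  refine ⟨fun x => (inducedMap D).2 ⟨x, hdom⟩, ?_, ?_⟩
  · apply hdiam.map_continuous.comp
    fun_prop
  · intro x y hxy n
    obtain ⟨m, hm⟩ : ∃ m, x m ≠ y m := by
      by_contra hcon; push Not at hcon; exact hxy (funext hcon)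
    set k := max m n with hk
    have hne : res x (k + 1) ≠ res y (k + 1) := by
      intro h
      rw [res_eq_res] at h
      exact hm (h (by omega))
    have hx := map_mem (A := D) ⟨x, hdom⟩ (k + 1)
    have hy := map_mem (A := D) ⟨y, hdom⟩ (k + 1)
    have e1 : D (res x (k + 1)) = (S (k + 1)).1 (res x (k + 1)) := by
      show (S (res x (k + 1)).length).1 _ = _
      rw [res_length]
    have e2 : D (res y (k + 1)) = (S (k + 1)).1 (res y (k + 1)) := by
      show (S (res y (k + 1)).length).1 _ = _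
      rw [res_length]
    rw [e1, hS] at hx
    rw [e2, hS] at hy
    have := hn3 k (S k) _ _ (res_length x (k + 1)) (res_length y (k + 1)) hne
      (Set.mk_mem_prod hx hy)
    exact hWa (le_max_right m n) this

/-- **Mycielski's theorem**: a meagre relation on a nonempty Polish space is avoided by a
continuous image of Cantor space. -/
theorem mycielski {X : Type*} [TopologicalSpace X] [PolishSpace X] [Nonempty X]
    {E : Set (X × X)} (hE : IsMeagre E) :
    ∃ g : (ℕ → Bool) → X, Continuous g ∧ ∀ x y, x ≠ y → (g x, g y) ∉ E := by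
  let := TopologicalSpace.upgradeIsCompletelyMetrizable X
  rw [IsMeagre, mem_residual] at hE
  obtain ⟨t, ht, htG, htd⟩ := hE
  obtain ⟨f, hfo, hf⟩ := isGδ_iff_eq_iInter_nat.mp htG
  let W : ℕ → Set (X × X) := fun n => ⋂ k ≤ n, f k
  have hWsub : ∀ n, t ⊆ W n := by
    intro n
    rw [hf]
    exact subset_iInter fun k => subset_iInter fun _ => iInter_subset _ k
  obtain ⟨g, hg, hgW⟩ := mycielski_aux W
    (fun n => (Set.finite_le_nat n).isOpen_biInter fun k _ => hfo k)
    (fun n => htd.mono (hWsub n))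
    (fun m n hmn => biInter_subset_biInter_left fun k hk => le_trans hk hmn)
  refine ⟨g, hg, fun x y hxy hmem => ?_⟩
  have : (g x, g y) ∈ t := by
    rw [hf, mem_iInter]
    intro k
    have := hgW x y hxy k
    exact mem_iInter₂.mp this k le_rfl
  exact ht this hmem

end Pool.Agent.Helper6

end

/-! ### formerly `Pool.Agent.Helper6.PerfectTools` -/

section

/-!
# Two perfect set tools

* `exists_cantor_of_decode`: countable-to-one Borel decoding gives perfectly many classes.
* `exists_cantor_of_uncountable_image`: a Borel map with uncountable image on a Borel set is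
  injective on a copy of Cantor space.
-/

set_option autoImplicit false

namespace Pool.Agent.Helper6

open Set Filter Topology

theorem isNowhereDense_of_forall {X : Type*} [TopologicalSpace X] {K : Set X}
    (h : ∀ O : Set X, IsOpen O → O.Nonempty → ∃ O' ⊆ O, IsOpen O' ∧ O'.Nonempty ∧ Disjoint O' K) :
    IsNowhereDense K := by
  by_contra hcon
  obtain ⟨O', hO', ho, hn, hd⟩ := h (interior (closure K)) isOpen_interior
    (nonempty_iff_ne_empty.mpr hcon)
  have h2 : Disjoint O' (closure K) := hd.closure_right ho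
  obtain ⟨x, hx⟩ := hn
  exact (disjoint_left.mp h2 hx) (interior_subset (hO' hx))

instance polishSpace_cantor : PolishSpace (ℕ → Bool) :=
  { toSecondCountableTopology := inferInstance
    toIsCompletelyMetrizableSpace := inferInstance }

/-- The relation `x = F y`, where `F` is a Borel map given by its digit sets, is meagre. -/
theorem isMeagre_graph (D : ℕ → Set (ℕ → Bool)) (hD : ∀ n, MeasurableSet (D n)) :
    IsMeagre {p : (ℕ → Bool) × (ℕ → Bool) | ∀ n, (p.1 n = true ↔ p.2 ∈ D n)} := by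
  choose U hUo hUD using fun n => (hD n).residualEq_isOpen
  -- the residual set of good points
  have hres : {y : ℕ → Bool | ∀ n, (y ∈ D n ↔ y ∈ U n)} ∈ residual (ℕ → Bool) := by
    have := eventually_countable_forall.mpr (fun n => (eventuallyEq_set.mp (hUD n)))
    exact this
  have hbad : IsMeagre {p : (ℕ → Bool) × (ℕ → Bool) | ¬ ∀ n, (p.2 ∈ D n ↔ p.2 ∈ U n)} := by
    have h1 : IsMeagre {y : ℕ → Bool | ¬ ∀ n, (y ∈ D n ↔ y ∈ U n)} := by
      rw [IsMeagre]
      convert hres using 1
      ext y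
      simp
    exact h1.preimage_of_isOpenMap continuous_snd isOpenMap_snd
  refine IsMeagre.mono (s := {p : (ℕ → Bool) × (ℕ → Bool) | ¬ ∀ n, (p.2 ∈ D n ↔ p.2 ∈ U n)} ∪
    {p : (ℕ → Bool) × (ℕ → Bool) | ∀ n, (p.1 n = true ↔ p.2 ∈ U n)}) ?_ (hbad.union ?_)
  · intro p hp
    by_cases h : ∀ n, (p.2 ∈ D n ↔ p.2 ∈ U n)
    · right
      intro n
      rw [← h n]
      exact hp n
    · left; exact h
  · apply IsNowhereDense.isMeagre
    apply isNowhereDense_of_forall
    intro O hO hOn
    obtain ⟨p, hp⟩ := hOn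
    obtain ⟨A, B, hA, hB, hpA, hpB, hAB⟩ := isOpen_prod_iff.mp hO p.1 p.2 hp
    -- a coordinate not restricted by `A`
    obtain ⟨n, hn⟩ : ∃ n, PiNat.cylinder p.1 n ⊆ A := by
      obtain ⟨v, ⟨x, m, rfl⟩, hx1, hx2⟩ :=
        (PiNat.isTopologicalBasis_cylinders (fun _ : ℕ => Bool)).mem_nhds_iff.mp (hA.mem_nhds hpA)
      exact ⟨m, by rwa [PiNat.mem_cylinder_iff_eq.mp hx1]⟩
    have hset : ∀ b : Bool, IsOpen {x : ℕ → Bool | x n = b} := fun b =>
      (isOpen_discrete ({b} : Set Bool)).preimage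
        (continuous_apply (A := fun _ : ℕ => Bool) n)
    have hupd : ∀ b : Bool, Function.update p.1 n b ∈ A ∩ {x : ℕ → Bool | x n = b} := by
      intro b
      refine ⟨hn ?_, by simp⟩
      intro i hi
      simp [Function.update_of_ne (ne_of_lt hi)]
    by_cases hBU : (B ∩ U n).Nonempty
    · refine ⟨(A ∩ {x | x n = false}) ×ˢ (B ∩ U n), ?_, ?_, ?_, ?_⟩
      · exact (Set.prod_mono inter_subset_left inter_subset_left).trans hAB
      · exact (hA.inter (hset _)).prod (hB.inter (hUo n))
      · exact Set.Nonempty.prod ⟨_, hupd false⟩ hBU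
      · rw [disjoint_left]
        rintro ⟨x, y⟩ ⟨⟨_, hx⟩, ⟨_, hy⟩⟩ hK
        have h1 : x n = true := (hK n).mpr hy
        have h2 : x n = false := hx
        rw [h2] at h1
        exact absurd h1 (by simp)
    · refine ⟨(A ∩ {x | x n = true}) ×ˢ B, ?_, ?_, ?_, ?_⟩
      · exact (Set.prod_mono inter_subset_left Subset.rfl).trans hAB
      · exact (hA.inter (hset _)).prod hB
      · exact Set.Nonempty.prod ⟨_, hupd true⟩ ⟨_, hpB⟩
      · rw [disjoint_left]
        rintro ⟨x, y⟩ ⟨⟨_, hx⟩, hy⟩ hK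
        exact hBU ⟨y, hy, (hK n).mp hx⟩

/-- **Tool P.**  If a relation `E` on Cantor space is such that `E x y` implies that `x` is one of
countably many Borel functions of `y`, then there is a continuous map from Cantor space to itself
with pairwise `E`-unrelated values. -/
theorem exists_cantor_of_decode {ι : Type*} [Countable ι] (D : ι → ℕ → Set (ℕ → Bool))
    (hD : ∀ i n, MeasurableSet (D i n)) (E : (ℕ → Bool) → (ℕ → Bool) → Prop)
    (hE : ∀ x y, E x y → ∃ i, ∀ n, (x n = true ↔ y ∈ D i n)) :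
    ∃ g : (ℕ → Bool) → (ℕ → Bool), Continuous g ∧ ∀ x y, x ≠ y → ¬ E (g x) (g y) := by
  have hm : IsMeagre (⋃ i, {p : (ℕ → Bool) × (ℕ → Bool) | ∀ n, (p.1 n = true ↔ p.2 ∈ D i n)}) :=
    isMeagre_iUnion fun i => isMeagre_graph (D i) (hD i)
  obtain ⟨g, hg, hgE⟩ := mycielski hm
  refine ⟨g, hg, fun x y hxy hxyE => hgE x y hxy ?_⟩
  obtain ⟨i, hi⟩ := hE _ _ hxyE
  exact mem_iUnion.mpr ⟨i, hi⟩

/-- Tool Q for continuous maps on Polish spaces. -/
theorem exists_cantor_of_continuous {X Y : Type*} [TopologicalSpace X] [PolishSpace X]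
    [TopologicalSpace Y] [T2Space Y] {f : X → Y} (hf : Continuous f)
    (h : ¬ (range f).Countable) :
    ∃ g : (ℕ → Bool) → X, Continuous g ∧ ∀ x y, x ≠ y → f (g x) ≠ f (g y) := by
  classical
  obtain ⟨b, hbc, -, hb⟩ := TopologicalSpace.exists_countable_basis X
  let O : Set X := ⋃ U ∈ {U ∈ b | (f '' U).Countable}, U
  have hO : IsOpen O := isOpen_biUnion fun U hU => hb.isOpen hU.1
  have hfO : (f '' O).Countable := by
    rw [image_iUnion₂]
    exact (hbc.mono (sep_subset _ _)).biUnion fun U hU => hU.2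
  let C : Set X := Oᶜ
  have hC : IsClosed C := hO.isClosed_compl
  have hlarge : ∀ V : Set X, IsOpen V → (V ∩ C).Nonempty → ¬ (f '' (V ∩ C)).Countable := by
    rintro V hV ⟨x, hxV, hxC⟩ hcount
    obtain ⟨U, hU, hxU, hUV⟩ := hb.mem_nhds_iff.mp (hV.mem_nhds hxV)
    apply hxC
    refine mem_iUnion₂.mpr ⟨U, ⟨hU, ?_⟩, hxU⟩
    have : f '' U ⊆ f '' O ∪ f '' (V ∩ C) := by
      rintro _ ⟨z, hz, rfl⟩
      by_cases hzO : z ∈ O
      · exact Or.inl ⟨z, hzO, rfl⟩
      · exact Or.inr ⟨z, ⟨hUV hz, hzO⟩, rfl⟩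
    exact (hfO.union hcount).mono this
  have hCne : C.Nonempty := by
    by_contra hcon
    rw [not_nonempty_iff_eq_empty] at hcon
    have : O = univ := by
      rw [← compl_compl O]; change Cᶜ = univ; rw [hcon, compl_empty]
    rw [this, image_univ] at hfO
    exact h hfO
  have : PolishSpace C := hC.polishSpace
  have : Nonempty C := hCne.to_subtype
  let E : Set (C × C) := {p | f p.1 = f p.2}
  have hEc : IsClosed E := isClosed_eq (hf.comp (continuous_subtype_val.comp continuous_fst))
    (hf.comp (continuous_subtype_val.comp continuous_snd))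
  have hE : IsMeagre E := by
    apply IsNowhereDense.isMeagre
    apply isNowhereDense_of_forall
    intro Q hQ ⟨p, hp⟩
    refine ⟨Q ∩ Eᶜ, inter_subset_left, hQ.inter hEc.isOpen_compl, ?_,
      disjoint_left.mpr fun z hz => hz.2⟩
    obtain ⟨A, B, hA, hB, hpA, hpB, hAB⟩ := isOpen_prod_iff.mp hQ p.1 p.2 hp
    obtain ⟨B', hB', rfl⟩ := isOpen_induced_iff.mp hB
    have h1 := hlarge B' hB' ⟨p.2, hpB, p.2.2⟩
    have h2 : ∃ y ∈ f '' (B' ∩ C), y ≠ f p.1 := by
      by_contra hcon
      push Not at hcon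
      exact h1 ((countable_singleton (f p.1)).mono hcon)
    obtain ⟨_, ⟨z, ⟨hzB, hzC⟩, rfl⟩, hz⟩ := h2
    exact ⟨(p.1, ⟨z, hzC⟩), hAB ⟨hpA, hzB⟩, fun hEq => hz hEq.symm⟩
  obtain ⟨g, hg, hgE⟩ := mycielski hE
  exact ⟨fun x => (g x : X), continuous_subtype_val.comp hg, fun x y hxy hfe => hgE x y hxy hfe⟩

/-- **Tool Q.**  A Borel map with uncountable image on a Borel set is injective on a copy of the
Cantor space. -/
theorem exists_cantor_of_uncountable_image {X Y : Type*} [t : TopologicalSpace X] [PolishSpace X]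
    [MeasurableSpace X] [BorelSpace X] [TopologicalSpace Y] [T2Space Y]
    [SecondCountableTopology Y] [MeasurableSpace Y] [OpensMeasurableSpace Y] {f : X → Y}
    (hf : Measurable f) {B : Set X} (hB : MeasurableSet B) (h : ¬ (f '' B).Countable) :
    ∃ g : (ℕ → Bool) → X, Continuous g ∧ (∀ x, g x ∈ B) ∧
      ∀ x y, x ≠ y → f (g x) ≠ f (g y) := by
  have hcl := hB.isClopenable
  have hco := hf.exists_continuous
  have hle := fun m => PolishSpace.exists_polishSpace_forall_le (α := X) (ι := Bool) m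
  obtain ⟨t₁, ht₁, hft, hP₁⟩ := hco
  obtain ⟨t₂, ht₂, hP₂, hBc, hBo⟩ := hcl
  obtain ⟨t₃, ht₃, ht₃le, hP₃⟩ := hle
    (fun b : Bool => if b then t₁ else t₂) (by intro b; cases b <;> simp [ht₁, ht₂])
    (by intro b; cases b <;> simp [hP₁, hP₂])
  have h31 : t₃ ≤ t₁ := by simpa using ht₃ true
  have h32 : t₃ ≤ t₂ := by simpa using ht₃ false
  have hBclosed : @IsClosed X t₃ B := hBc.mono h32
  have hcont : @Continuous B Y (@instTopologicalSpaceSubtype X _ t₃) _ (fun x : B => f x) := by
    have h1 : @Continuous X Y t₃ _ f := continuous_le_dom h31 hft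
    exact @Continuous.comp _ _ _ (@instTopologicalSpaceSubtype X _ t₃) t₃ _ _ _ h1
      (@continuous_subtype_val _ t₃ _)
  have hPB : @PolishSpace B (@instTopologicalSpaceSubtype X _ t₃) :=
    @IsClosed.polishSpace X t₃ hP₃ B hBclosed
  have hr : ¬ (range (fun x : B => f x)).Countable := by
    rwa [show range (fun x : B => f x) = f '' B by ext; simp]
  obtain ⟨g, hg, hgf⟩ := @exists_cantor_of_continuous B Y (@instTopologicalSpaceSubtype X _ t₃)
    hPB _ _ _ hcont hr
  refine ⟨fun x => g x, ?_, fun x => (g x).2, hgf⟩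
  have h3 : @Continuous (ℕ → Bool) X _ t₃ (fun x => (g x : X)) :=
    @Continuous.comp _ _ _ _ (@instTopologicalSpaceSubtype X _ t₃) t₃ _ _
      (@continuous_subtype_val _ t₃ _) hg
  exact continuous_le_rng ht₃le h3

end Pool.Agent.Helper6

end

/-! ### formerly `Pool.Agent.Helper6.StructTools` -/

section

/-!
# Spaces of countable relational structures and dichotomy tools
-/

set_option autoImplicit false

namespace Pool.Agent.Helper6

open Set Filter Topology

/-- A nonempty open subset of the Cantor space has two points. -/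
theorem exists_ne_of_isOpen_cantor {A : Set (ℕ → Bool)} (hA : IsOpen A) {p : ℕ → Bool}
    (hp : p ∈ A) : ∃ q ∈ A, q ≠ p := by
  obtain ⟨n, hn⟩ : ∃ n, PiNat.cylinder p n ⊆ A := by
    obtain ⟨v, ⟨x, m, rfl⟩, hx1, hx2⟩ :=
      (PiNat.isTopologicalBasis_cylinders (fun _ : ℕ => Bool)).mem_nhds_iff.mp (hA.mem_nhds hp)
    exact ⟨m, by rwa [PiNat.mem_cylinder_iff_eq.mp hx1]⟩
  refine ⟨Function.update p n (!p n), hn ?_, ?_⟩
  · intro i hi
    simp [Function.update_of_ne (ne_of_lt hi)]
  · intro h
    have := congrFun h n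
    simp at this

/-- Tool Q with control of countably many Borel maps. -/
theorem exists_cantor_continuous_all {X Y J : Type*} [t : TopologicalSpace X] [PolishSpace X]
    [MeasurableSpace X] [BorelSpace X] [TopologicalSpace Y] [T2Space Y]
    [SecondCountableTopology Y] [MeasurableSpace Y] [OpensMeasurableSpace Y] [Countable J]
    {Z : J → X → Y} (hZ : ∀ j, Measurable (Z j)) {B : Set X} (hB : MeasurableSet B) (j : J)
    (h : ¬ (Z j '' B).Countable) :
    ∃ g : (ℕ → Bool) → X, Continuous g ∧ (∀ x, g x ∈ B) ∧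
      (∀ x y, x ≠ y → Z j (g x) ≠ Z j (g y)) ∧ ∀ k, Continuous fun x => Z k (g x) := by
  have hcl := hB.isClopenable
  have hZ' : Measurable (fun (x : X) (k : J) => Z k x) := measurable_pi_iff.mpr hZ
  have hco := hZ'.exists_continuous
  have hle := fun m => PolishSpace.exists_polishSpace_forall_le (α := X) (ι := Bool) m
  obtain ⟨t₁, ht₁, hft, hP₁⟩ := hco
  obtain ⟨t₂, ht₂, hP₂, hBc, hBo⟩ := hcl
  obtain ⟨t₃, ht₃, ht₃le, hP₃⟩ := hle
    (fun b : Bool => if b then t₁ else t₂) (by intro b; cases b <;> simp [ht₁, ht₂])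
    (by intro b; cases b <;> simp [hP₁, hP₂])
  have h31 : t₃ ≤ t₁ := by simpa using ht₃ true
  have h32 : t₃ ≤ t₂ := by simpa using ht₃ false
  have hBclosed : @IsClosed X t₃ B := hBc.mono h32
  have hcontZ : ∀ k, @Continuous X Y t₃ _ (Z k) := by
    intro k
    have h1 : @Continuous X (J → Y) t₃ _ (fun (x : X) (k : J) => Z k x) :=
      continuous_le_dom h31 hft
    exact @Continuous.comp X (J → Y) Y t₃ _ _ _ _ (continuous_apply k) h1
  have hcont : @Continuous B Y (@instTopologicalSpaceSubtype X _ t₃) _ (fun x : B => Z j x) :=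
    @Continuous.comp _ _ _ (@instTopologicalSpaceSubtype X _ t₃) t₃ _ _ _ (hcontZ j)
      (@continuous_subtype_val _ t₃ _)
  have hPB : @PolishSpace B (@instTopologicalSpaceSubtype X _ t₃) :=
    @IsClosed.polishSpace X t₃ hP₃ B hBclosed
  have hr : ¬ (range (fun x : B => Z j x)).Countable := by
    rwa [show range (fun x : B => Z j x) = Z j '' B by ext; simp]
  obtain ⟨g, hg, hgf⟩ := @exists_cantor_of_continuous B Y (@instTopologicalSpaceSubtype X _ t₃)
    hPB _ _ _ hcont hr
  have h3 : @Continuous (ℕ → Bool) X _ t₃ (fun x => (g x : X)) :=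
    @Continuous.comp _ _ _ _ (@instTopologicalSpaceSubtype X _ t₃) t₃ _ _
      (@continuous_subtype_val _ t₃ _) hg
  refine ⟨fun x => g x, ?_, fun x => (g x).2, hgf, fun k => ?_⟩
  · exact continuous_le_rng ht₃le h3
  · exact @Continuous.comp _ _ _ _ t₃ _ _ _ (hcontZ k) h3

/-- The abstract form of Tool R: a relation refined by countably many Borel invariants. -/
theorem exists_cantor_of_reals {X Y J : Type*} [t : TopologicalSpace X] [PolishSpace X]
    [MeasurableSpace X] [BorelSpace X] [TopologicalSpace Y] [T2Space Y]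
    [SecondCountableTopology Y] [MeasurableSpace Y] [OpensMeasurableSpace Y] [Countable J]
    {Z : J → X → Y} (hZ : ∀ j, Measurable (Z j)) {B : J → Set X}
    (hB : ∀ j, MeasurableSet (B j)) (E : X → X → Prop)
    (hE : ∀ j k, ∀ x ∈ B j, ∀ y ∈ B k, E x y → ∃ k', Z j x = Z k' y)
    (h : ¬ (⋃ j, Z j '' B j).Countable) :
    ∃ j, ∃ g : (ℕ → Bool) → X, Continuous g ∧ (∀ x, g x ∈ B j) ∧
      ∀ x y, x ≠ y → ¬ E (g x) (g y) := by
  have h1 : ∃ j, ¬ (Z j '' B j).Countable := by
    by_contra hcon
    push Not at hcon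
    exact h (countable_iUnion hcon)
  obtain ⟨j, hj⟩ := h1
  obtain ⟨g, hg, hgB, hgi, hgc⟩ := exists_cantor_continuous_all hZ (hB j) j hj
  have hm : IsMeagre (⋃ k, {p : (ℕ → Bool) × (ℕ → Bool) | Z j (g p.1) = Z k (g p.2)}) := by
    refine isMeagre_iUnion fun k => IsNowhereDense.isMeagre (isNowhereDense_of_forall ?_)
    intro O hO ⟨p, hp⟩
    have hcl : IsClosed {p : (ℕ → Bool) × (ℕ → Bool) | Z j (g p.1) = Z k (g p.2)} :=
      isClosed_eq ((hgc j).comp continuous_fst) ((hgc k).comp continuous_snd)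
    refine ⟨O ∩ {p : (ℕ → Bool) × (ℕ → Bool) | Z j (g p.1) = Z k (g p.2)}ᶜ, inter_subset_left,
      hO.inter hcl.isOpen_compl, ?_, disjoint_left.mpr fun z hz => hz.2⟩
    obtain ⟨A, C, hA, hC, hpA, hpC, hAC⟩ := isOpen_prod_iff.mp hO p.1 p.2 hp
    obtain ⟨q, hqA, hqp⟩ := exists_ne_of_isOpen_cantor hA hpA
    by_cases hcase : Z j (g p.1) = Z k (g p.2)
    · refine ⟨(q, p.2), hAC ⟨hqA, hpC⟩, fun hEq => ?_⟩
      have : Z j (g q) = Z k (g p.2) := hEq
      exact hgi q p.1 hqp (this.trans hcase.symm)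
    · exact ⟨p, hp, hcase⟩
  obtain ⟨φ, hφ, hφE⟩ := mycielski hm
  refine ⟨j, fun x => g (φ x), hg.comp hφ, fun x => hgB _, fun x y hxy hxyE => hφE x y hxy ?_⟩
  obtain ⟨k', hk'⟩ := hE j j _ (hgB _) _ (hgB _) hxyE
  exact mem_iUnion.mpr ⟨k', hk'⟩

namespace Str

variable {L : FirstOrder.Language.{0, 0}} {M N P β : Type}

/-- Isomorphism of relational structures, as a bijection preserving all relations. -/
def RelIso (S : L.Structure M) (S' : L.Structure N) (e : M ≃ N) : Prop :=
  ∀ (n : ℕ) (R : L.Relations n) (v : Fin n → M), S.RelMap R v ↔ S'.RelMap R (e ∘ v)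

theorem RelIso.refl (S : L.Structure M) : RelIso S S (Equiv.refl M) := fun _ _ _ => Iff.rfl

theorem RelIso.symm {S : L.Structure M} {S' : L.Structure N} {e : M ≃ N} (h : RelIso S S' e) :
    RelIso S' S e.symm := by
  intro n R v
  rw [h n R]
  have : e ∘ (e.symm ∘ v) = v := by ext k; simp
  rw [this]

theorem RelIso.trans {S : L.Structure M} {S' : L.Structure N} {S'' : L.Structure P} {e : M ≃ N}
    {e' : N ≃ P} (h : RelIso S S' e) (h' : RelIso S' S'' e') : RelIso S S'' (e.trans e') := by
  intro n R v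
  rw [h n R v, h' n R]
  rfl

/-- Isomorphism of relational structures. -/
def Iso (S : L.Structure M) (S' : L.Structure N) : Prop := ∃ e : M ≃ N, RelIso S S' e

theorem Iso.refl (S : L.Structure M) : Iso S S := ⟨_, RelIso.refl S⟩

theorem Iso.symm {S : L.Structure M} {S' : L.Structure N} (h : Iso S S') : Iso S' S := by
  obtain ⟨e, he⟩ := h
  exact ⟨_, he.symm⟩

theorem Iso.trans {S : L.Structure M} {S' : L.Structure N} {S'' : L.Structure P} (h : Iso S S')
    (h' : Iso S' S'') : Iso S S'' := by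
  obtain ⟨e, he⟩ := h
  obtain ⟨e', he'⟩ := h'
  exact ⟨_, he.trans he'⟩

/-- There is a perfect set of pairwise nonisomorphic elements of `K`. -/
def PerfK (K : Set (L.Structure ℕ)) : Prop :=
  ∃ f : (ℕ → Bool) → L.Structure ℕ,
    (∀ x, f x ∈ K) ∧ (∀ x y, Iso (f x) (f y) → x = y) ∧
    (∀ (n : ℕ) (R : L.Relations n) (a : Fin n → ℕ), IsClopen {x | (f x).RelMap R a})

/-- The elements of `K` fall into countably many isomorphism classes. -/
def CtblK (K : Set (L.Structure ℕ)) : Prop :=
  ∃ g : ℕ → L.Structure ℕ, ∀ S ∈ K, ∃ n, Iso S (g n)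

/-- Codes of structures on `ℕ`. -/
abbrev Code (L : FirstOrder.Language.{0, 0}) : Type :=
  ((n : ℕ) × (L.Relations n × (Fin n → ℕ))) → Bool

/-- The structure with a given code. -/
@[instance_reducible]
def toStr [∀ n, IsEmpty (L.Functions n)] (c : Code L) : L.Structure ℕ :=
  { funMap := fun f _ => isEmptyElim f
    RelMap := fun {n} R v => c ⟨n, (R, v)⟩ = true }

/-- The code of a structure. -/
noncomputable def ofStr (S : L.Structure ℕ) : Code L :=
  open Classical in fun p => decide (S.RelMap p.2.1 p.2.2)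

theorem relMap_toStr [∀ n, IsEmpty (L.Functions n)] (c : Code L) {n : ℕ} (R : L.Relations n)
    (v : Fin n → ℕ) : (toStr c).RelMap R v ↔ c ⟨n, (R, v)⟩ = true := Iff.rfl

theorem toStr_ofStr [∀ n, IsEmpty (L.Functions n)] (S : L.Structure ℕ) : toStr (ofStr S) = S := by
  apply FirstOrder.Language.Structure.ext
  · funext n f
    exact isEmptyElim f
  · funext n R v
    apply propext
    change (ofStr S ⟨n, (R, v)⟩ = true) ↔ _
    simp [ofStr]

theorem isClopen_relMap [∀ n, IsEmpty (L.Functions n)] {n : ℕ} (R : L.Relations n)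
    (v : Fin n → ℕ) : IsClopen {c : Code L | (toStr c).RelMap R v} := by
  have : {c : Code L | (toStr c).RelMap R v} =
      (fun c : Code L => c ⟨n, (R, v)⟩) ⁻¹' {true} := by
    ext c
    exact Iff.rfl
  rw [this]
  exact (isClopen_discrete _).preimage (continuous_apply _)

instance polishSpace_code [∀ n, Countable (L.Relations n)] : PolishSpace (Code L) :=
  { toSecondCountableTopology := inferInstance
    toIsCompletelyMetrizableSpace := inferInstance }

theorem measurableSet_relMap [∀ n, IsEmpty (L.Functions n)] [∀ n, Countable (L.Relations n)]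
    {n : ℕ} (R : L.Relations n) (v : Fin n → ℕ) :
    MeasurableSet {c : Code L | (toStr c).RelMap R v} :=
  (isClopen_relMap R v).2.measurableSet

/-- **Tool R.** -/
theorem perfK_of_reals [∀ n, IsEmpty (L.Functions n)] [∀ n, Countable (L.Relations n)]
    {K : Set (L.Structure ℕ)} {J : Type*} [Countable J] {B : J → Set (Code L)}
    (hB : ∀ j, MeasurableSet (B j)) (hBK : ∀ j, ∀ c ∈ B j, toStr c ∈ K)
    {Y : Type*} [TopologicalSpace Y] [T2Space Y] [SecondCountableTopology Y] [MeasurableSpace Y]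
    [OpensMeasurableSpace Y] {Z : J → Code L → Y} (hZ : ∀ j, Measurable (Z j))
    (hinv : ∀ j k, ∀ c ∈ B j, ∀ d ∈ B k, Iso (toStr c) (toStr d) → ∃ k', Z j c = Z k' d)
    (hunc : ¬ (⋃ j, Z j '' B j).Countable) : PerfK K := by
  obtain ⟨j, g, hg, hgB, hgE⟩ := exists_cantor_of_reals hZ hB
    (fun c d => Iso (toStr c) (toStr d)) hinv hunc
  refine ⟨fun x => toStr (g x), fun x => hBK j _ (hgB x), fun x y hxy => ?_, fun n R a => ?_⟩
  · by_contra hne
    exact hgE x y hne hxy
  · exact (isClopen_relMap R a).preimage hg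

/-- The dichotomy when the isomorphism types are classified by countably many Borel maps. -/
theorem dichotomy_of_reals [∀ n, IsEmpty (L.Functions n)] [∀ n, Countable (L.Relations n)]
    {K : Set (L.Structure ℕ)} {J : Type*} [Countable J] {B : J → Set (Code L)}
    (hB : ∀ j, MeasurableSet (B j)) (hBK : ∀ j, ∀ c ∈ B j, toStr c ∈ K)
    (hcov : ∀ c, toStr c ∈ K → ∃ j, c ∈ B j)
    {Y : Type*} [TopologicalSpace Y] [T2Space Y] [SecondCountableTopology Y] [MeasurableSpace Y]
    [OpensMeasurableSpace Y] {Z : J → Code L → Y} (hZ : ∀ j, Measurable (Z j))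
    (hinv : ∀ j k, ∀ c ∈ B j, ∀ d ∈ B k, Iso (toStr c) (toStr d) → ∃ k', Z j c = Z k' d)
    (hcls : ∀ j k, ∀ c ∈ B j, ∀ d ∈ B k, Z j c = Z k d → Iso (toStr c) (toStr d)) :
    CtblK K ∨ PerfK K := by
  by_cases hc : (⋃ j, Z j '' B j).Countable
  · left
    rcases (⋃ j, Z j '' B j).eq_empty_or_nonempty with he | hne
    · refine ⟨fun _ => toStr fun _ => false, fun S hS => ?_⟩
      exfalso
      rw [← toStr_ofStr S] at hS
      obtain ⟨j, hj⟩ := hcov _ hS
      have : Z j (ofStr S) ∈ (⋃ j, Z j '' B j) := mem_iUnion.mpr ⟨j, _, hj, rfl⟩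
      rw [he] at this
      exact this
    · obtain ⟨f, hf⟩ := hc.exists_eq_range hne
      have h1 : ∀ n, ∃ j, ∃ c ∈ B j, Z j c = f n := by
        intro n
        have : f n ∈ (⋃ j, Z j '' B j) := by rw [hf]; exact mem_range_self n
        obtain ⟨j, c, hcB, hcZ⟩ := mem_iUnion.mp this
        exact ⟨j, c, hcB, hcZ⟩
      choose jj cc hcc hcf using h1
      refine ⟨fun n => toStr (cc n), fun S hS => ?_⟩
      rw [← toStr_ofStr S] at hS ⊢
      obtain ⟨j, hj⟩ := hcov _ hS
      have h2 : Z j (ofStr S) ∈ (⋃ j, Z j '' B j) := mem_iUnion.mpr ⟨j, _, hj, rfl⟩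
      rw [hf] at h2
      obtain ⟨n, hn⟩ := h2
      exact ⟨n, hcls j (jj n) _ hj _ (hcc n) (by rw [hcf n, hn])⟩
  · exact Or.inr (perfK_of_reals hB hBK hZ hinv hc)

theorem perfK_of_family [∀ n, IsEmpty (L.Functions n)] [Countable β] [Infinite β]
    {K : Set (L.Structure ℕ)} (N : (ℕ → Bool) → L.Structure β)
    (hmod : ∀ x, ∀ S : L.Structure ℕ, Iso (N x) S → S ∈ K)
    (hcl : ∀ (n : ℕ) (R : L.Relations n) (w : Fin n → β), IsClopen {x | (N x).RelMap R w})
    (hinj : ∀ x y, Iso (N x) (N y) → x = y) : PerfK K := by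
  obtain ⟨i⟩ := nonempty_denumerable β
  let e : β ≃ ℕ := Denumerable.eqv β
  let f : (ℕ → Bool) → L.Structure ℕ := fun x =>
    { funMap := fun f _ => isEmptyElim f
      RelMap := fun {n} R v => (N x).RelMap R (e.symm ∘ v) }
  have hf : ∀ x, RelIso (N x) (f x) e := by
    intro x n R v
    show _ ↔ (N x).RelMap R (e.symm ∘ (e ∘ v))
    have : e.symm ∘ (e ∘ v) = v := by ext k; simp
    rw [this]
  refine ⟨f, fun x => hmod x _ ⟨e, hf x⟩, fun x y hxy => ?_, fun n R a => hcl n R _⟩
  exact hinj x y ((Iso.trans ⟨e, hf x⟩ hxy).trans (Iso.symm ⟨e, hf y⟩))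

theorem perfK_of_decode [∀ n, IsEmpty (L.Functions n)] [Countable β] [Infinite β]
    {K : Set (L.Structure ℕ)} (N : (ℕ → Bool) → L.Structure β)
    (hmod : ∀ x, ∀ S : L.Structure ℕ, Iso (N x) S → S ∈ K)
    (hcl : ∀ (n : ℕ) (R : L.Relations n) (w : Fin n → β), IsClopen {x | (N x).RelMap R w})
    {ι : Type} [Countable ι] (D : ι → ℕ → Set (ℕ → Bool)) (hD : ∀ i n, MeasurableSet (D i n))
    (hE : ∀ x y, Iso (N x) (N y) → ∃ i, ∀ n, (x n = true ↔ y ∈ D i n)) :
    PerfK K := by
  obtain ⟨g, hg, hgE⟩ := exists_cantor_of_decode D hD (fun x y => Iso (N x) (N y)) hE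
  refine perfK_of_family (fun x => N (g x)) (fun x => hmod _)
    (fun n R w => (hcl n R w).preimage hg) fun x y h => ?_
  by_contra hne
  exact hgE x y hne h

/-- Mathlib isomorphisms of relational structures. -/
theorem nonempty_equiv_iff [∀ n, IsEmpty (L.Functions n)] (S S' : L.Structure ℕ) :
    Nonempty (@FirstOrder.Language.Equiv L ℕ ℕ S S') ↔ Iso S S' := by
  constructor
  · rintro ⟨e⟩
    exact ⟨@FirstOrder.Language.Equiv.toEquiv L ℕ ℕ S S' e, fun n R v =>
      (@FirstOrder.Language.Equiv.map_rel' L ℕ ℕ S S' e n R v).symm⟩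
  · rintro ⟨e, he⟩
    exact ⟨@FirstOrder.Language.Equiv.mk L ℕ ℕ S S' e (fun f => isEmptyElim f)
      fun R v => (he _ R v).symm⟩

theorem countable_relations (h : Countable L.Symbols) (n : ℕ) : Countable (L.Relations n) := by
  have : Function.Injective (fun R : L.Relations n =>
      (Sum.inr ⟨n, R⟩ : L.Symbols)) := by
    intro R R' hR
    simpa using hR
  exact this.countable

end Str

end Pool.Agent.Helper6

end

/-! ### formerly `Pool.Agent.Helper5.Multi` -/

section

/-!
# The multiplicity dichotomy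

An abstract form of the following argument.  Suppose every structure of a class is put together
from pieces, that adding pieces does not lead out of the class, that the multiplicities of the
pieces determine the structure and that isomorphisms respect the pieces.  Then the class has
countably many or perfectly many members.
-/

set_option autoImplicit false

namespace Pool.Agent.Helper5.Multi

open Set Pool.Agent.Helper6.Str

variable {L : FirstOrder.Language.{0, 0}}

/-! ### Varying subsets of a countable structure -/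

section embed

open Classical in
theorem isClopen_count {X : Type*} [TopologicalSpace X] {A : X → Set ℕ}
    (hA : ∀ p, IsClopen {x | p ∈ A x}) (m : ℕ) :
    ∀ n, IsClopen {x | Nat.count (· ∈ A x) m = n} := by
  induction m with
  | zero =>
    intro n
    simp only [Nat.count_zero]
    by_cases h : 0 = n
    · simp only [h]; exact isClopen_univ
    · simp only [h]; exact isClopen_empty
  | succ m ih =>
    intro n
    have : {x | Nat.count (· ∈ A x) (m + 1) = n} =
        ({x | m ∈ A x} ∩ {x | Nat.count (· ∈ A x) m + 1 = n}) ∪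
        ({x | m ∈ A x}ᶜ ∩ {x | Nat.count (· ∈ A x) m = n}) := by
      ext x
      simp only [Nat.count_succ, mem_ofPred_eq, mem_union, mem_inter_iff, mem_compl_iff]
      by_cases h : m ∈ A x <;> simp [h]
    rw [this]
    refine ((hA m).inter ?_).union ((hA m).compl.inter (ih n))
    cases n with
    | zero => simp only [Nat.add_eq_zero_iff, one_ne_zero, and_false]; exact isClopen_empty
    | succ n => simpa only [Nat.add_right_cancel_iff] using ih n

open Classical in
theorem isOpen_nth {A : (ℕ → Bool) → Set ℕ} (hA : ∀ p, IsClopen {x | p ∈ A x})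
    (hinf : ∀ x, (A x).Infinite) (n m : ℕ) : IsOpen {x | Nat.nth (· ∈ A x) n = m} := by
  have : {x | Nat.nth (· ∈ A x) n = m} =
      {x | m ∈ A x} ∩ {x | Nat.count (· ∈ A x) m = n} := by
    ext x
    simp only [mem_ofPred_eq, mem_inter_iff]
    have hi : (Set.ofPred (· ∈ A x)).Infinite := hinf x
    constructor
    · rintro rfl
      exact ⟨Nat.nth_mem_of_infinite hi n, Nat.count_nth_of_infinite hi n⟩
    · rintro ⟨h1, rfl⟩
      exact Nat.nth_count h1
  rw [this]
  exact ((hA m).inter (isClopen_count hA m n)).isOpen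

theorem perfK_of_embed [∀ n, IsEmpty (L.Functions n)] {K : Set (L.Structure ℕ)} {γ : Type}
    [Countable γ] {β : (ℕ → Bool) → Type} (U : L.Structure γ) (N : ∀ x, L.Structure (β x))
    (J : ∀ x, β x → γ) (hJ : ∀ x, Function.Injective (J x))
    (hemb : ∀ x (n : ℕ) (R : L.Relations n) (v : Fin n → β x),
      (N x).RelMap R v ↔ U.RelMap R (J x ∘ v))
    (hinf : ∀ x, Infinite (β x)) (hclop : ∀ p, IsClopen {x | p ∈ range (J x)})
    (hmod : ∀ x, ∀ S : L.Structure ℕ, Iso (N x) S → S ∈ K)
    (hinj : ∀ x y, Iso (N x) (N y) → x = y) : PerfK K := by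
  classical
  have : Infinite γ := Infinite.of_injective (J fun _ => false) (hJ _)
  obtain ⟨i⟩ := nonempty_denumerable γ
  let e : γ ≃ ℕ := Denumerable.eqv γ
  let A : (ℕ → Bool) → Set ℕ := fun x => {m | e.symm m ∈ range (J x)}
  have hAclop : ∀ p, IsClopen {x | p ∈ A x} := fun p => hclop (e.symm p)
  have hAinf : ∀ x, (A x).Infinite := by
    intro x
    have h1 : (range fun b => e (J x b)).Infinite :=
      Set.infinite_range_of_injective (e.injective.comp (hJ x))
    refine h1.mono ?_
    rintro _ ⟨b, rfl⟩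
    exact ⟨b, by simp⟩
  let d : (ℕ → Bool) → ℕ → ℕ := fun x => Nat.nth (· ∈ A x)
  have hdmem : ∀ x n, e.symm (d x n) ∈ range (J x) := fun x n =>
    Nat.nth_mem_of_infinite (hAinf x) n
  choose f hf using hdmem
  have hfinj : ∀ x, Function.Injective (f x) := by
    intro x n m hnm
    have h1 : e.symm (d x n) = e.symm (d x m) := by rw [← hf, ← hf, hnm]
    exact (Nat.nth_injective (hAinf x)) (e.symm.injective h1)
  have hfsurj : ∀ x, Function.Surjective (f x) := by
    intro x b
    have hb : e (J x b) ∈ A x := ⟨b, by simp⟩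
    refine ⟨Nat.count (· ∈ A x) (e (J x b)), ?_⟩
    apply hJ x
    rw [hf]
    show e.symm (Nat.nth (· ∈ A x) (Nat.count (· ∈ A x) (e (J x b)))) = _
    rw [Nat.nth_count hb]
    simp
  let E : ∀ x, ℕ ≃ β x := fun x => Equiv.ofBijective (f x) ⟨hfinj x, hfsurj x⟩
  have hE : ∀ x n, J x (E x n) = e.symm (d x n) := fun x n => hf x n
  let N' : (ℕ → Bool) → L.Structure ℕ := fun x =>
    { funMap := fun f _ => isEmptyElim f
      RelMap := fun {n} R v => U.RelMap R (fun i => e.symm (d x (v i))) }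
  have hiso : ∀ x, Iso (N' x) (N x) := by
    intro x
    refine ⟨E x, fun n R v => ?_⟩
    rw [hemb]
    show U.RelMap R (fun i => e.symm (d x (v i))) ↔ _
    have : (fun i => e.symm (d x (v i))) = J x ∘ (⇑(E x) ∘ v) := by
      funext i
      exact (hE x (v i)).symm
    rw [this]
  refine ⟨N', fun x => hmod x _ (hiso x).symm, fun x y hxy => ?_, fun n R v => ?_⟩
  · exact hinj x y ((hiso x).symm.trans (hxy.trans (hiso y)))
  · have hop : ∀ w : Fin n → ℕ, IsOpen {x | ∀ i, d x (v i) = w i} := by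
      intro w
      have : {x | ∀ i, d x (v i) = w i} = ⋂ i, {x | d x (v i) = w i} := by
        ext x; simp
      rw [this]
      exact isOpen_iInter_of_finite fun i => isOpen_nth hAclop hAinf _ _
    have hgen : ∀ C : Set (Fin n → ℕ), IsOpen {x | (fun i => d x (v i)) ∈ C} := by
      intro C
      have : {x | (fun i => d x (v i)) ∈ C} = ⋃ w ∈ C, {x | ∀ i, d x (v i) = w i} := by
        ext x
        simp only [mem_ofPred_eq, mem_iUnion]
        constructor
        · intro h
          exact ⟨_, h, fun _ => rfl⟩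
        · rintro ⟨w, hw, h⟩
          rwa [funext h]
      rw [this]
      exact isOpen_biUnion fun w _ => hop w
    constructor
    · rw [← isOpen_compl_iff]
      exact hgen {w | U.RelMap R (fun i => e.symm (w i))}ᶜ
    · exact hgen {w | U.RelMap R (fun i => e.symm (w i))}

end embed

/-! ### Counting lemmas -/

theorem nonempty_equiv_of_encard {α β : Type*} {A : Set α} {B : Set β} (hA : A.Countable)
    (hB : B.Countable) (h : A.encard = B.encard) : Nonempty (A ≃ B) := by
  rcases A.finite_or_infinite with hf | hi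
  · have hfB : B.Finite := by
      rw [← Set.encard_lt_top_iff, ← h]
      exact hf.encard_lt_top
    have := hf.to_subtype
    have := hfB.to_subtype
    rw [← Finite.card_eq]
    have h1 : A.ncard = B.ncard := by
      simp only [Set.ncard, h]
    exact h1
  · have hiB : B.Infinite := by
      rw [← Set.encard_eq_top_iff, ← h, hi.encard_eq]
    have := hi.to_subtype
    have := hiB.to_subtype
    have := hA.to_subtype
    have := hB.to_subtype
    exact nonempty_equiv_of_countable

theorem exists_equiv_of_fibres {I I' Q : Type*} [Countable I] [Countable I'] (c : I → Q)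
    (c' : I' → Q) (h : ∀ q, {i | c i = q}.encard = {i | c' i = q}.encard) :
    ∃ τ : I ≃ I', ∀ i, c' (τ i) = c i := by
  have h1 : ∀ q, Nonempty ({i // c i = q} ≃ {i // c' i = q}) := fun q =>
    nonempty_equiv_of_encard (Set.to_countable _) (Set.to_countable _) (h q)
  refine ⟨(Equiv.sigmaFiberEquiv c).symm.trans ((Equiv.sigmaCongrRight fun q => (h1 q).some).trans
    (Equiv.sigmaFiberEquiv c')), fun i => ?_⟩
  simp only [Equiv.trans_apply]
  exact ((h1 (c i)).some ⟨i, rfl⟩).2

theorem encard_lt_nat (m : ℕ∞) : {n : ℕ | (n : ℕ∞) < m}.encard = m := by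
  induction m using ENat.recTopCoe with
  | top =>
    have : {n : ℕ | (n : ℕ∞) < ⊤} = univ := by
      ext n; simp
    rw [this, Set.encard_univ]
    simp
  | coe k =>
    have : {n : ℕ | (n : ℕ∞) < (k : ℕ∞)} = (Finset.range k : Set ℕ) := by
      ext n; simp
    rw [this, Set.encard_coe_eq_coe_finsetCard, Finset.card_range]

/-! ### The frame -/

/-- positions: a common part and the elements of the pieces -/
abbrev Pos {Piece : Type} (F : Type) (el : Piece → Set ℕ) {I : Type} (P : I → Piece) : Type :=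
  F ⊕ {p : I × ℕ // p.2 ∈ el (P p.1)}

/-- inclusion of positions -/
def posMap {Piece : Type} {F : Type} {el : Piece → Set ℕ} {I I' : Type} {P : I → Piece}
    {P' : I' → Piece} (j : I → I') (hj : ∀ i, P' (j i) = P i) : Pos F el P → Pos F el P'
  | .inl f => .inl f
  | .inr p => .inr ⟨(j p.1.1, p.1.2), by rw [hj]; exact p.2⟩

theorem posMap_injective {Piece : Type} {F : Type} {el : Piece → Set ℕ} {I I' : Type}
    {P : I → Piece} {P' : I' → Piece} (j : I → I') (hj : ∀ i, P' (j i) = P i)
    (hinj : Function.Injective j) : Function.Injective (posMap (F := F) (el := el) j hj) := by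
  rintro (f | p) (f' | p') h
  · simpa [posMap] using h
  · simp [posMap] at h
  · simp [posMap] at h
  · simp only [posMap, Sum.inr.injEq, Subtype.mk.injEq, Prod.mk.injEq] at h
    congr 1
    exact Subtype.ext (Prod.ext (hinj h.1) h.2)

/-- The data of a decomposition of the structures of a class into pieces. -/
structure PreFrame (K : Set (L.Structure ℕ)) where
  Piece : Type
  r : Setoid Piece
  F : Type
  ctF : Countable F
  el : Piece → Set ℕ
  asm : ∀ {I : Type} (P : I → Piece), L.Structure (Pos F el P)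
  Md : ∀ {I : Type}, (I → Piece) → Prop
  md_congr : ∀ {I I' : Type} [Countable I] [Countable I'] {P : I → Piece} {P' : I' → Piece}
    (τ : I ≃ I'), (∀ i, r (P i) (P' (τ i))) → Md P → Md P'
  congr : ∀ {I I' : Type} [Countable I] [Countable I'] {P : I → Piece} {P' : I' → Piece}
    (τ : I ≃ I'), (∀ i, r (P i) (P' (τ i))) → Md P → Iso (asm P) (asm P')
  inf : ∀ {I : Type} [Countable I] {P : I → Piece}, Md P → Infinite (Pos F el P)
  emb : ∀ {I I' : Type} [Countable I] [Countable I'] {P : I → Piece} {P' : I' → Piece} (j : I → I')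
    (hj : ∀ i, P' (j i) = P i), Function.Injective j → Infinite (Pos F el P) →
    ∀ (n : ℕ) (R : L.Relations n) (v : Fin n → Pos F el P),
      (asm P).RelMap R v ↔ (asm P').RelMap R (posMap j hj ∘ v)
  mem : ∀ {I : Type} [Countable I] {P : I → Piece}, Md P → ∀ S : L.Structure ℕ,
    Iso (asm P) S → S ∈ K
  rep : ∀ S ∈ K, ∃ (I : Type) (_ : Countable I) (P : I → Piece), Md P ∧ Iso (asm P) S

/-- A decomposition such that adding pieces does not lead out of the class. -/
structure Frame (K : Set (L.Structure ℕ)) extends PreFrame K where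
  mono : ∀ {I I' : Type} [Countable I] [Countable I'] {P : I → Piece} {P' : I' → Piece}
    (j : I → I'), Function.Injective j → (∀ i, P' (j i) = P i) → Md P → Md P'
  dec : ∀ {I I' : Type} [Countable I] [Countable I'] {P : I → Piece} {P' : I' → Piece},
    Md P → Md P' → Iso (asm P) (asm P') →
    ∃ τ : I ≃ I', ∀ i j, r (P i) (P j) ↔ r (P' (τ i)) (P' (τ j))

namespace PreFrame

variable {K : Set (L.Structure ℕ)} (fr : PreFrame K)

/-- the multiplicity of a class of pieces in a family -/
noncomputable def mult {I : Type} (P : I → fr.Piece) (q : Quotient fr.r) : ℕ∞ :=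
  {i | Quotient.mk fr.r (P i) = q}.encard

/-- the index type of the family with given multiplicities -/
abbrev Idx (m : Quotient fr.r → ℕ∞) : Type := {p : Quotient fr.r × ℕ // (p.2 : ℕ∞) < m p.1}

/-- the family with given multiplicities -/
noncomputable def can (m : Quotient fr.r → ℕ∞) : fr.Idx m → fr.Piece := fun p =>
  Quotient.out p.1.1

theorem mk_can (m : Quotient fr.r → ℕ∞) (p : fr.Idx m) :
    Quotient.mk fr.r (fr.can m p) = p.1.1 := Quotient.out_eq _

theorem mult_can (m : Quotient fr.r → ℕ∞) : fr.mult (fr.can m) = m := by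
  funext q
  unfold mult
  simp only [mk_can]
  rw [← encard_lt_nat (m q)]
  have h1 : {i : fr.Idx m | i.1.1 = q} =
      range (fun n : {n : ℕ | (n : ℕ∞) < m q} => (⟨(q, n), n.2⟩ : fr.Idx m)) := by
    ext ⟨⟨q', n⟩, hn⟩
    simp only [mem_ofPred_eq, mem_range, Subtype.mk.injEq, Prod.mk.injEq]
    constructor
    · rintro rfl
      exact ⟨⟨n, hn⟩, rfl, rfl⟩
    · rintro ⟨n', h, -⟩
      exact h.symm
  rw [h1, ← Set.image_univ, Function.Injective.encard_image, Set.encard_univ,
    ENat.card_coe_set_eq]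
  intro n n' h
  simp only [Subtype.mk.injEq, Prod.mk.injEq, true_and] at h
  exact Subtype.ext h

theorem countable_idx {m : Quotient fr.r → ℕ∞} (hm : {q | m q ≠ 0}.Countable) :
    Countable (fr.Idx m) := by
  have h1 : {p : Quotient fr.r × ℕ | (p.2 : ℕ∞) < m p.1} ⊆ {q | m q ≠ 0} ×ˢ univ := by
    rintro ⟨q, n⟩ h
    refine ⟨?_, mem_univ _⟩
    intro h0
    simp only [mem_ofPred_eq] at h
    rw [h0] at h
    exact absurd h (by simp)
  exact ((hm.prod (Set.to_countable univ)).mono h1).to_subtype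

theorem countable_support {I : Type} [Countable I] (P : I → fr.Piece) :
    {q | fr.mult P q ≠ 0}.Countable := by
  refine (Set.countable_range fun i => Quotient.mk fr.r (P i)).mono ?_
  intro q hq
  simp only [mem_ofPred_eq, mult, ne_eq, Set.encard_eq_zero] at hq
  obtain ⟨i, hi⟩ := nonempty_iff_ne_empty.mpr hq
  exact ⟨i, hi⟩

/-- Families with the same multiplicities match. -/
theorem exists_equiv_of_mult {I I' : Type} [Countable I] [Countable I'] {P : I → fr.Piece}
    {P' : I' → fr.Piece} (h : fr.mult P = fr.mult P') :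
    ∃ τ : I ≃ I', ∀ i, fr.r (P i) (P' (τ i)) := by
  obtain ⟨τ, hτ⟩ := exists_equiv_of_fibres (fun i => Quotient.mk fr.r (P i))
    (fun i => Quotient.mk fr.r (P' i)) (fun q => congrFun h q)
  exact ⟨τ, fun i => Quotient.exact (hτ i).symm⟩

theorem mult_of_equiv {I I' : Type} {P : I → fr.Piece} {P' : I' → fr.Piece} (τ : I ≃ I')
    (h : ∀ i j, fr.r (P i) (P j) ↔ fr.r (P' (τ i)) (P' (τ j))) (i : I) :
    fr.mult P (Quotient.mk fr.r (P i)) = fr.mult P' (Quotient.mk fr.r (P' (τ i))) := by
  unfold mult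
  have h1 : {j | Quotient.mk fr.r (P' j) = Quotient.mk fr.r (P' (τ i))} =
      τ '' {j | Quotient.mk fr.r (P j) = Quotient.mk fr.r (P i)} := by
    ext j
    constructor
    · intro hj
      refine ⟨τ.symm j, ?_, by simp⟩
      apply Quotient.sound
      show fr.r (P (τ.symm j)) (P i)
      rw [h, Equiv.apply_symm_apply]
      exact Quotient.exact hj
    · rintro ⟨k, hk, rfl⟩
      apply Quotient.sound
      show fr.r (P' (τ k)) (P' (τ i))
      rw [← h]
      exact Quotient.exact hk
  rw [h1, τ.injective.encard_image]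

end PreFrame

namespace Frame

variable {K : Set (L.Structure ℕ)} (fr : Frame K)

/-- The countable case. -/
theorem ctblK_of_finite [∀ n, IsEmpty (L.Functions n)]
    (h : ∀ (I : Type) [Countable I] (P : I → fr.Piece), fr.Md P →
      {q | fr.mult P q ≠ ⊤}.Finite) : CtblK K := by
  classical
  by_cases hne : ∃ (I : Type) (_ : Countable I) (P : I → fr.Piece), fr.Md P
  · obtain ⟨I₀, hI₀, P₀, hP₀⟩ := hne
    have hQ : Countable (Quotient fr.r) := by
      rw [← Set.countable_univ_iff]
      have h1 : (univ : Set (Quotient fr.r)) ⊆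
          {q | fr.mult P₀ q ≠ ⊤} ∪ {q | fr.mult P₀ q ≠ 0} := by
        intro q _
        by_cases hq : fr.mult P₀ q = ⊤
        · right
          simp only [mem_ofPred_eq, hq]
          exact ENat.top_ne_zero
        · left; exact hq
      exact ((h I₀ P₀ hP₀).countable.union (fr.countable_support P₀)).mono h1
    let 𝓜 : Set (Quotient fr.r → ℕ∞) :=
      {m | ∃ (I : Type) (_ : Countable I) (P : I → fr.Piece), fr.Md P ∧ m = fr.mult P}
    have h𝓜 : 𝓜.Countable := by
      let ext : (Σ s : Finset (Quotient fr.r), s → ℕ∞) → Quotient fr.r → ℕ∞ := fun a q =>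
        if hq : q ∈ a.1 then a.2 ⟨q, hq⟩ else ⊤
      have hE : Countable ℕ∞ := inferInstanceAs (Countable (WithTop ℕ))
      refine (Set.countable_range ext).mono ?_
      rintro m ⟨I, hI, P, hP, rfl⟩
      refine ⟨⟨(h I P hP).toFinset, fun q => fr.mult P q⟩, ?_⟩
      funext q
      simp only [ext]
      split
      · rfl
      · rename_i hq
        simp only [Set.Finite.mem_toFinset, mem_ofPred_eq, not_not] at hq
        exact hq.symm
    have h𝓜ne : 𝓜.Nonempty := ⟨_, I₀, hI₀, P₀, hP₀, rfl⟩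
    obtain ⟨f, hf⟩ := h𝓜.exists_eq_range h𝓜ne
    have h2 : ∀ n, ∃ S : L.Structure ℕ, ∃ (I : Type) (_ : Countable I) (P : I → fr.Piece),
        fr.Md P ∧ f n = fr.mult P ∧ Iso (fr.asm P) S := by
      intro n
      have : f n ∈ 𝓜 := by rw [hf]; exact mem_range_self n
      obtain ⟨I, hI, P, hP, hm⟩ := this
      have hinf := fr.inf hP
      have hcF := fr.ctF
      obtain ⟨i⟩ := nonempty_denumerable (Pos fr.F fr.el P)
      let e : Pos fr.F fr.el P ≃ ℕ := Denumerable.eqv _
      refine ⟨{ funMap := fun f _ => isEmptyElim f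
                RelMap := fun {n} R v => (fr.asm P).RelMap R (e.symm ∘ v) },
        I, hI, P, hP, hm, e, fun n R v => ?_⟩
      show _ ↔ (fr.asm P).RelMap R (e.symm ∘ (e ∘ v))
      have : e.symm ∘ (e ∘ v) = v := by ext k; simp
      rw [this]
    choose g I hI P hP hm hiso using h2
    refine ⟨g, fun S hS => ?_⟩
    obtain ⟨I', hI', P', hP', hiso'⟩ := fr.rep S hS
    have h3 : fr.mult P' ∈ 𝓜 := ⟨I', hI', P', hP', rfl⟩
    rw [hf] at h3
    obtain ⟨n, hn⟩ := h3
    refine ⟨n, ?_⟩
    rw [hm n] at hn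
    have := hI n
    obtain ⟨τ, hτ⟩ := fr.exists_equiv_of_mult hn
    exact hiso'.symm.trans ((fr.congr τ hτ (hP n)).symm.trans (hiso n))
  · refine ⟨fun _ => toStr fun _ => false, fun S hS => ?_⟩
    obtain ⟨I, hI, P, hP, -⟩ := fr.rep S hS
    exact absurd ⟨I, hI, P, hP⟩ hne

/-! ### The perfect case -/

section perfect

variable (m₀ : Quotient fr.r → ℕ∞) (D : ℕ → Quotient fr.r)

/-- the lower multiplicity of the `i`-th coding class -/
noncomputable def sz (i : ℕ) : ℕ := ∑ j ∈ Finset.range (i + 1), ((m₀ (D j)).toNat + 2)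

theorem sz_succ (i : ℕ) : fr.sz m₀ D (i + 1) = fr.sz m₀ D i + ((m₀ (D (i + 1))).toNat + 2) := by
  simp [sz, Finset.sum_range_succ]

theorem sz_lt {i j : ℕ} (h : i < j) : fr.sz m₀ D i + 2 ≤ fr.sz m₀ D j := by
  induction h with
  | refl => rw [sz_succ]; omega
  | step _ ih => rw [sz_succ]; omega

theorem two_le_sz (i : ℕ) : 2 ≤ fr.sz m₀ D i := by
  cases i with
  | zero => simp [sz]
  | succ i => rw [sz_succ]; omega

theorem le_sz (i : ℕ) : (m₀ (D i)).toNat ≤ fr.sz m₀ D i := by
  cases i with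
  | zero => simp [sz]
  | succ i => rw [sz_succ]; omega

/-- the digit of a bit -/
def dg (b : Bool) : ℕ := if b then 1 else 0

theorem sz_eq {i j : ℕ} {b c : Bool} (h : fr.sz m₀ D i + dg b = fr.sz m₀ D j + dg c) :
    i = j ∧ b = c := by
  have hb : dg b ≤ 1 := by unfold dg; split <;> omega
  have hc : dg c ≤ 1 := by unfold dg; split <;> omega
  rcases lt_trichotomy i j with h1 | h1 | h1
  · have := fr.sz_lt m₀ D h1
    omega
  · subst h1
    refine ⟨rfl, ?_⟩
    cases b <;> cases c <;> simp [dg] at h ⊢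
  · have := fr.sz_lt m₀ D h1
    omega

open Classical in
/-- the coding multiplicities -/
noncomputable def cm (x : ℕ → Bool) (q : Quotient fr.r) : ℕ∞ :=
  if h : ∃ i, D i = q then ((fr.sz m₀ D h.choose + dg (x h.choose) : ℕ) : ℕ∞)
  else if m₀ q = 0 then 0 else ⊤

variable {m₀ D}

theorem cm_D (hD : Function.Injective D) (x : ℕ → Bool) (i : ℕ) :
    fr.cm m₀ D x (D i) = ((fr.sz m₀ D i + dg (x i) : ℕ) : ℕ∞) := by
  have h : ∃ j, D j = D i := ⟨i, rfl⟩
  unfold cm
  rw [dif_pos h, hD h.choose_spec]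

theorem cm_not {x : ℕ → Bool} {q : Quotient fr.r} (h : ¬ ∃ i, D i = q) :
    fr.cm m₀ D x q = if m₀ q = 0 then 0 else ⊤ := by
  classical
  unfold cm
  rw [dif_neg h]

theorem le_cm (hD : Function.Injective D) (hfin : ∀ i, m₀ (D i) ≠ ⊤) (x : ℕ → Bool)
    (q : Quotient fr.r) : m₀ q ≤ fr.cm m₀ D x q := by
  by_cases h : ∃ i, D i = q
  · obtain ⟨i, rfl⟩ := h
    rw [fr.cm_D hD, ← ENat.natCast_toNat (hfin i)]
    have := fr.le_sz m₀ D i
    exact_mod_cast (by omega : (m₀ (D i)).toNat ≤ fr.sz m₀ D i + dg (x i))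
  · rw [fr.cm_not h]
    split
    · rename_i h0; rw [h0]
    · exact le_top

theorem cm_le_top (hD : Function.Injective D) (x : ℕ → Bool) (q : Quotient fr.r) :
    fr.cm m₀ D x q ≤ fr.cm m₀ D (fun _ => true) q := by
  by_cases h : ∃ i, D i = q
  · obtain ⟨i, rfl⟩ := h
    rw [fr.cm_D hD, fr.cm_D hD]
    have : dg (x i) ≤ dg true := by cases x i <;> simp [dg]
    exact_mod_cast (by omega : fr.sz m₀ D i + dg (x i) ≤ fr.sz m₀ D i + dg true)
  · rw [fr.cm_not h, fr.cm_not h]

theorem cm_support (hm : {q | m₀ q ≠ 0}.Countable) (x : ℕ → Bool) :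
    {q | fr.cm m₀ D x q ≠ 0}.Countable := by
  refine ((Set.countable_range D).union hm).mono ?_
  intro q hq
  by_cases h : ∃ i, D i = q
  · left; exact h
  · right
    simp only [mem_ofPred_eq] at hq ⊢
    rw [fr.cm_not h] at hq
    intro h0
    rw [if_pos h0] at hq
    exact hq rfl

theorem cm_injective (hD : Function.Injective D) {x y : ℕ → Bool}
    (h : ∀ q, fr.cm m₀ D x q ≠ 0 → ∃ q', fr.cm m₀ D x q = fr.cm m₀ D y q') (i : ℕ) :
    x i = y i := by
  have h0 : fr.cm m₀ D x (D i) ≠ 0 := by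
    rw [fr.cm_D hD]
    have := fr.two_le_sz m₀ D i
    exact_mod_cast (by omega : fr.sz m₀ D i + dg (x i) ≠ 0)
  obtain ⟨q', hq'⟩ := h (D i) h0
  by_cases h1 : ∃ j, D j = q'
  · obtain ⟨j, rfl⟩ := h1
    rw [fr.cm_D hD, fr.cm_D hD] at hq'
    have h2 : fr.sz m₀ D i + dg (x i) = fr.sz m₀ D j + dg (y j) := by exact_mod_cast hq'
    obtain ⟨rfl, h3⟩ := fr.sz_eq m₀ D h2
    exact h3
  · rw [fr.cm_not h1] at hq'
    split at hq'
    · exact absurd hq' h0
    · rw [fr.cm_D hD] at hq'
      exact absurd hq' (ENat.natCast_ne_top _)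

end perfect

theorem perfK_of_infinite [∀ n, IsEmpty (L.Functions n)] {I : Type} [Countable I]
    {P : I → fr.Piece} (hP : fr.Md P) (h : {q | fr.mult P q ≠ ⊤}.Infinite) : PerfK K := by
  classical
  let D : ℕ → Quotient fr.r := fun n => Set.Infinite.natEmbedding _ h n
  have hD : Function.Injective D :=
    Subtype.val_injective.comp (Set.Infinite.natEmbedding _ h).injective
  have hfin : ∀ i, fr.mult P (D i) ≠ ⊤ := fun i => (Set.Infinite.natEmbedding _ h i).2
  have hsup := fr.countable_support P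
  let m : (ℕ → Bool) → Quotient fr.r → ℕ∞ := fr.cm (fr.mult P) D
  have hcI : ∀ x, Countable (fr.Idx (m x)) := fun x => fr.countable_idx (fr.cm_support hsup x)
  have hc0 : Countable (fr.Idx (fr.mult P)) := fr.countable_idx hsup
  have hM0 : fr.Md (fr.can (fr.mult P)) := by
    obtain ⟨τ, hτ⟩ := fr.exists_equiv_of_mult (P := P) (P' := fr.can (fr.mult P))
      (fr.mult_can _).symm
    exact fr.md_congr τ hτ hP
  have hM : ∀ x, fr.Md (fr.can (m x)) := by
    intro x
    refine fr.mono (fun p : fr.Idx (fr.mult P) => (⟨p.1, lt_of_lt_of_le p.2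
      (fr.le_cm hD hfin x p.1.1)⟩ : fr.Idx (m x))) ?_ (fun i => rfl) hM0
    intro p p' hpp
    exact Subtype.ext (Subtype.mk.inj hpp)
  have hcF := fr.ctF
  let jj : ∀ x, fr.Idx (m x) → fr.Idx (m fun _ => true) := fun x p =>
    ⟨p.1, lt_of_lt_of_le p.2 (fr.cm_le_top hD x p.1.1)⟩
  have hjj : ∀ x, Function.Injective (jj x) := by
    intro x p p' hpp
    exact Subtype.ext (Subtype.mk.inj hpp)
  have hjp : ∀ x i, fr.can (m fun _ => true) (jj x i) = fr.can (m x) i := fun x i => rfl
  refine perfK_of_embed (γ := Pos fr.F fr.el (fr.can (m fun _ => true)))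
    (β := fun x => Pos fr.F fr.el (fr.can (m x))) (fr.asm _) (fun x => fr.asm _)
    (fun x => posMap (jj x) (hjp x)) (fun x => posMap_injective _ _ (hjj x))
    (fun x n R v => fr.emb (jj x) (hjp x) (hjj x) (fr.inf (hM x)) n R v) (fun x => fr.inf (hM x)) ?_
    (fun x S hS => fr.mem (hM x) S hS) ?_
  · rintro (f | ⟨⟨⟨⟨q, n⟩, hn⟩, b⟩, hb⟩)
    · have : {x | (Sum.inl f : Pos fr.F fr.el (fr.can (m fun _ => true))) ∈
          range (posMap (F := fr.F) (el := fr.el) (jj x) (hjp x))} = univ := by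
        ext x
        simp only [mem_ofPred_eq, mem_univ, iff_true]
        exact ⟨.inl f, rfl⟩
      rw [this]
      exact isClopen_univ
    · have : {x | (Sum.inr ⟨(⟨(q, n), hn⟩, b), hb⟩ :
          Pos fr.F fr.el (fr.can (m fun _ => true))) ∈
          range (posMap (F := fr.F) (el := fr.el) (jj x) (hjp x))} =
          {x | (n : ℕ∞) < m x q} := by
        ext x
        simp only [mem_ofPred_eq, mem_range]
        constructor
        · rintro ⟨f | ⟨⟨⟨⟨q', n'⟩, hn'⟩, b'⟩, hb'⟩, hp⟩
          · simp [posMap] at hp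
          · simp only [posMap, jj, Sum.inr.injEq, Subtype.mk.injEq, Prod.mk.injEq] at hp
            obtain ⟨⟨rfl, rfl⟩, rfl⟩ := hp
            exact hn'
        · intro hx
          exact ⟨.inr ⟨(⟨(q, n), hx⟩, b), hb⟩, rfl⟩
      rw [this]
      by_cases hq : ∃ i, D i = q
      · obtain ⟨i, rfl⟩ := hq
        have h2 : {x | (n : ℕ∞) < m x (D i)} = (fun x : ℕ → Bool => x i) ⁻¹'
            {b | n < fr.sz (fr.mult P) D i + dg b} := by
          ext x
          simp only [mem_ofPred_eq, mem_preimage, m]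
          rw [fr.cm_D hD]
          exact Nat.cast_lt
        rw [h2]
        exact (isClopen_discrete _).preimage (continuous_apply i)
      · have h2 : {x | (n : ℕ∞) < m x q} =
            {_x | (n : ℕ∞) < if fr.mult P q = 0 then 0 else ⊤} := by
          ext x
          simp only [mem_ofPred_eq, m]
          rw [fr.cm_not hq]
        rw [h2]
        by_cases h3 : (n : ℕ∞) < if fr.mult P q = 0 then 0 else ⊤
        · simp only [h3]; exact isClopen_univ
        · simp only [h3]; exact isClopen_empty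
  · intro x y hxy
    obtain ⟨τ, hτ⟩ := fr.dec (hM x) (hM y) hxy
    funext i
    refine fr.cm_injective (m₀ := fr.mult P) hD ?_ i
    intro q hq
    have hq' : ((0 : ℕ) : ℕ∞) < m x q := by
      rw [Nat.cast_zero]
      exact pos_iff_ne_zero.mpr hq
    have h1 := fr.mult_of_equiv τ hτ ⟨(q, 0), hq'⟩
    rw [fr.mk_can, fr.mult_can, fr.mult_can] at h1
    exact ⟨_, h1⟩

include fr in
/-- **The multiplicity dichotomy.** -/
theorem dichotomy [∀ n, IsEmpty (L.Functions n)] : CtblK K ∨ PerfK K := by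
  by_cases h : ∀ (I : Type) [Countable I] (P : I → fr.Piece), fr.Md P →
      {q | fr.mult P q ≠ ⊤}.Finite
  · exact Or.inl (fr.ctblK_of_finite h)
  · right
    push Not at h
    obtain ⟨I, hI, P, hP, hinf⟩ := h
    exact fr.perfK_of_infinite hP hinf

end Frame

end Pool.Agent.Helper5.Multi

end
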