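import Mathlib

/-!
# Definitions used in the statements about Vaught's conjecture: formulas of `L_{omega_1, omega}`,
Gaifman graphs, subdivisions, binary types
-/

set_option autoImplicit false
set_option linter.unusedSectionVars false
set_option linter.unusedVariables false

namespace Pool.Agent.Helper5.DU

open Set

variable {L : FirstOrder.Language.{0, 0}} {M N P : Type}

/-- Formulas of `L_{omega_1, omega}` with `n` free variables. -/
inductive FmI (L : FirstOrder.Language.{0, 0}) : ℕ → Type
  | eq {n : ℕ} (i j : Fin n) : FmI L n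
  | rel {n k : ℕ} (R : L.Relations k) (w : Fin k → Fin n) : FmI L n
  | neg {n : ℕ} (φ : FmI L n) : FmI L n
  | conj {n : ℕ} (φ : ℕ → FmI L n) : FmI L n
  | ex {n : ℕ} (φ : FmI L (n + 1)) : FmI L n

/-- satisfaction -/
def Sat (S : L.Structure M) : {n : ℕ} → FmI L n → (Fin n → M) → Prop
  | _, .eq i j, v => v i = v j
  | _, .rel R w, v => S.RelMap R (fun i => v (w i))
  | _, .neg φ, v => ¬ Sat S φ v
  | _, .conj φ, v => ∀ k, Sat S (φ k) v
  | _, .ex φ, v => ∃ a, Sat S φ (Fin.snoc v a)

end Pool.Agent.Helper5.DU

namespace Pool.Agent.Helper79.VC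

open Set

variable {L : FirstOrder.Language.{0, 0}} {M N P : Type}

/-- The Gaifman graph of a structure: two distinct elements are adjacent when they occur together
in a tuple of some relation of the structure. -/
def gaif (S : L.Structure M) : SimpleGraph M where
  Adj x y := x ≠ y ∧ ∃ (n : ℕ) (R : L.Relations n) (v : Fin n → M),
    S.RelMap R v ∧ x ∈ range v ∧ y ∈ range v
  symm := ⟨fun _ _ ⟨h, n, R, v, h1, h2, h3⟩ => ⟨h.symm, n, R, v, h1, h3, h2⟩⟩
  loopless := ⟨fun _ h => h.1 rfl⟩

/-- `x` and `y` are joined by a walk all of whose vertices lie outside `Q` (or `x = y`). -/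
def Conn {V : Type} (G : SimpleGraph V) (Q : Set V) (x y : V) : Prop :=
  Relation.ReflTransGen (fun a b => G.Adj a b ∧ a ∉ Q ∧ b ∉ Q) x y

/-- the component of `x` after the removal of `Q` -/
def cpt {V : Type} (G : SimpleGraph V) (Q : Set V) (x : V) : Set V := {y | Conn G Q x y}

/-- `G` contains a subdivision of the infinite complete graph: branch vertices `b i`, and for
`i < j` a path from `b i` to `b j` with inner vertices `P i j`, where no inner vertex is a branch
vertex and different paths have no inner vertex in common. -/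
def HasTK {V : Type} (G : SimpleGraph V) : Prop :=
  ∃ (b : ℕ → V) (P : ℕ → ℕ → List V), Function.Injective b ∧
    (∀ i j, i < j → (b i :: (P i j ++ [b j])).Nodup ∧
      List.IsChain G.Adj (b i :: (P i j ++ [b j]))) ∧
    (∀ i j k, i < j → b k ∉ P i j) ∧
    (∀ i j i' j', i < j → i' < j' → (i, j) ≠ (i', j') → List.Disjoint (P i j) (P i' j'))

end Pool.Agent.Helper79.VC

namespace Pool.Agent.Helper97.LO

open Set

variable {L : FirstOrder.Language.{0, 0}} {M N P : Type}

/-- the binary relations between `x` and `y` -/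
def bt (S : L.Structure M) (x y : M) : Set (L.Relations 2) × Set (L.Relations 2) :=
  ({R | S.RelMap R ![x, y]}, {R | S.RelMap R ![y, x]})

/-- the graph on `P` of the pairs which do not have the symmetric type `b` -/
def gr (S : L.Structure M) (P : Set M) (b : Set (L.Relations 2)) : SimpleGraph M where
  Adj x y := x ≠ y ∧ x ∈ P ∧ y ∈ P ∧ bt S x y ≠ (b, b)
  symm := ⟨fun x y h => ⟨h.1.symm, h.2.2.1, h.2.1, fun h' => h.2.2.2 (by
    have h1 := congrArg Prod.fst h'
    have h2 := congrArg Prod.snd h'
    exact Prod.ext h2 h1)⟩⟩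
  loopless := ⟨fun x h => h.1 rfl⟩

end Pool.Agent.Helper97.LO
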