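import Pool.Agent.VB.A
import Pool.Agent.VB.Defs

/-!
# Tools for Vaught's conjecture, part 2: back and forth, types of scattered classes, the large model

Merged file (to shorten the import chain): contents, unchanged, of
`Pool.Agent.Helper5.DU.BF`, `Pool.Agent.Helper5.DU.Classes`, `Pool.Agent.Helper79.VC.Ord`, `Pool.Agent.Helper79.VC.BF`, `Pool.Agent.Helper79.VC.Piece`, `Pool.Agent.Helper79.VC.Count`, `Pool.Agent.Helper79.VC.Branch`, `Pool.Agent.Helper79.VC.Types`, `Pool.Agent.Helper79.VC.Ext`, `Pool.Agent.Helper79.VC.Book`, `Pool.Agent.Helper79.VC.Omega`, `Pool.Agent.Helper79.VC.Model`, `Pool.Agent.Helper79.VC.Scott`, `Pool.Agent.Helper79.VC.HM`.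
-/

/-! ### formerly `Pool.Agent.Helper5.DU.BF` -/

section

/-!
# Back-and-forth relations
-/

set_option autoImplicit false
set_option linter.unusedSectionVars false

namespace Pool.Agent.Helper5.DU

open Set Pool.Agent.Helper6.Str

variable {L : FirstOrder.Language.{0, 0}} {M N P : Type}

/-- countable well-founded ranks -/
inductive Rk : Type
  | zero : Rk
  | succ (r : Rk) : Rk
  | sup (f : ℕ → Rk) : Rk

/-- the pairs in `Γ` form a partial isomorphism -/
def AtEq (S : L.Structure M) (S' : L.Structure N) (Γ : Set (M × N)) : Prop :=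
  (∀ p ∈ Γ, ∀ q ∈ Γ, p.1 = q.1 ↔ p.2 = q.2) ∧
    ∀ (n : ℕ) (R : L.Relations n) (v : Fin n → M × N), (∀ i, v i ∈ Γ) →
      (S.RelMap R (fun i => (v i).1) ↔ S'.RelMap R (fun i => (v i).2))

/-- back-and-forth equivalence of given rank -/
def BF (S : L.Structure M) (S' : L.Structure N) : Rk → Set (M × N) → Prop
  | .zero, Γ => AtEq S S' Γ
  | .succ r, Γ => BF S S' r Γ ∧ (∀ a, ∃ b, BF S S' r (insert (a, b) Γ)) ∧
      (∀ b, ∃ a, BF S S' r (insert (a, b) Γ))
  | .sup f, Γ => ∀ n, BF S S' (f n) Γ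

theorem AtEq.anti {S : L.Structure M} {S' : L.Structure N} {Γ Γ' : Set (M × N)} (h : Γ ⊆ Γ')
    (h' : AtEq S S' Γ') : AtEq S S' Γ :=
  ⟨fun p hp q hq => h'.1 p (h hp) q (h hq), fun n R v hv => h'.2 n R v fun i => h (hv i)⟩

theorem BF.anti {S : L.Structure M} {S' : L.Structure N} (r : Rk) :
    ∀ {Γ Γ' : Set (M × N)}, Γ ⊆ Γ' → BF S S' r Γ' → BF S S' r Γ := by
  induction r with
  | zero => intro Γ Γ' h h'; exact AtEq.anti h h'
  | succ r ih =>
    intro Γ Γ' h h'
    refine ⟨ih h h'.1, fun a => ?_, fun b => ?_⟩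
    · obtain ⟨b, hb⟩ := h'.2.1 a
      exact ⟨b, ih (insert_subset_insert h) hb⟩
    · obtain ⟨a, ha⟩ := h'.2.2 b
      exact ⟨a, ih (insert_subset_insert h) ha⟩
  | sup f ih => intro Γ Γ' h h' n; exact ih n h (h' n)

theorem BF.atEq {S : L.Structure M} {S' : L.Structure N} (r : Rk) :
    ∀ {Γ : Set (M × N)}, BF S S' r Γ → AtEq S S' Γ := by
  induction r with
  | zero => intro Γ h; exact h
  | succ r ih => intro Γ h; exact ih h.1
  | sup f ih => intro Γ h; exact ih 0 (h 0)

theorem BF.of_relIso {S : L.Structure M} {S' : L.Structure N} {e : M ≃ N} (he : RelIso S S' e)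
    (r : Rk) : ∀ {Γ : Set (M × N)}, (∀ p ∈ Γ, p.2 = e p.1) → BF S S' r Γ := by
  induction r with
  | zero =>
    intro Γ h
    refine ⟨fun p hp q hq => ?_, fun n R v hv => ?_⟩
    · rw [h p hp, h q hq]
      exact e.injective.eq_iff.symm
    · rw [he n R]
      have : (⇑e ∘ fun i => (v i).1) = fun i => (v i).2 := by
        funext i
        exact (h _ (hv i)).symm
      rw [this]
  | succ r ih =>
    intro Γ h
    refine ⟨ih h, fun a => ⟨e a, ih ?_⟩, fun b => ⟨e.symm b, ih ?_⟩⟩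
    · rintro p (rfl | hp)
      · rfl
      · exact h p hp
    · rintro p (rfl | hp)
      · simp
      · exact h p hp
  | sup f ih => intro Γ h n; exact ih n h

theorem BF.of_iso {S : L.Structure M} {S' : L.Structure N} (h : Iso S S') (r : Rk) :
    BF S S' r ∅ := by
  obtain ⟨e, he⟩ := h
  exact BF.of_relIso he r (fun p hp => absurd hp (notMem_empty p))

theorem BF.refl (S : L.Structure M) (r : Rk) : BF S S r ∅ := BF.of_iso (Iso.refl S) r

/-- composition of sets of pairs -/
def cmp (Γ : Set (M × N)) (Δ : Set (N × P)) : Set (M × P) :=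
  {p | ∃ b, (p.1, b) ∈ Γ ∧ (b, p.2) ∈ Δ}

theorem BF.trans {S : L.Structure M} {S' : L.Structure N} {S'' : L.Structure P} (r : Rk) :
    ∀ {Γ : Set (M × N)} {Δ : Set (N × P)}, BF S S' r Γ → BF S' S'' r Δ →
      BF S S'' r (cmp Γ Δ) := by
  induction r with
  | zero =>
    intro Γ Δ h1 h2
    refine ⟨?_, fun n R v hv => ?_⟩
    · rintro p ⟨b, hb1, hb2⟩ q ⟨c, hc1, hc2⟩
      rw [h1.1 _ hb1 _ hc1]
      exact h2.1 _ hb2 _ hc2
    · choose b hb1 hb2 using hv
      rw [h1.2 n R (fun i => ((v i).1, b i)) hb1]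
      exact h2.2 n R (fun i => (b i, (v i).2)) hb2
  | succ r ih =>
    intro Γ Δ h1 h2
    refine ⟨ih h1.1 h2.1, fun a => ?_, fun c => ?_⟩
    · obtain ⟨b, hb⟩ := h1.2.1 a
      obtain ⟨c, hc⟩ := h2.2.1 b
      refine ⟨c, BF.anti r ?_ (ih hb hc)⟩
      rintro p (rfl | ⟨d, hd1, hd2⟩)
      · exact ⟨b, mem_insert _ _, mem_insert _ _⟩
      · exact ⟨d, mem_insert_of_mem _ hd1, mem_insert_of_mem _ hd2⟩
    · obtain ⟨b, hb⟩ := h2.2.2 c
      obtain ⟨a, ha⟩ := h1.2.2 b
      refine ⟨a, BF.anti r ?_ (ih ha hb)⟩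
      rintro p (rfl | ⟨d, hd1, hd2⟩)
      · exact ⟨b, mem_insert _ _, mem_insert _ _⟩
      · exact ⟨d, mem_insert_of_mem _ hd1, mem_insert_of_mem _ hd2⟩
  | sup f ih => intro Γ Δ h1 h2 n; exact ih n (h1 n) (h2 n)

theorem BF.symm {S : L.Structure M} {S' : L.Structure N} (r : Rk) :
    ∀ {Γ : Set (M × N)}, BF S S' r Γ → BF S' S r (Prod.swap ⁻¹' Γ) := by
  induction r with
  | zero =>
    intro Γ h
    refine ⟨fun p hp q hq => (h.1 _ hp _ hq).symm, fun n R v hv => ?_⟩
    exact (h.2 n R (fun i => (v i).swap) hv).symm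
  | succ r ih =>
    intro Γ h
    refine ⟨ih h.1, fun b => ?_, fun a => ?_⟩
    · obtain ⟨a, ha⟩ := h.2.2 b
      refine ⟨a, BF.anti r ?_ (ih ha)⟩
      rintro p (rfl | hp)
      · exact mem_insert _ _
      · exact mem_insert_of_mem _ hp
    · obtain ⟨b, hb⟩ := h.2.1 a
      refine ⟨b, BF.anti r ?_ (ih hb)⟩
      rintro p (rfl | hp)
      · exact mem_insert _ _
      · exact mem_insert_of_mem _ hp
  | sup f ih => intro Γ h n; exact ih n (h n)

theorem BF.trans' {S : L.Structure M} {S' : L.Structure N} {S'' : L.Structure P} {r : Rk}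
    (h : BF S S' r ∅) (h' : BF S' S'' r ∅) : BF S S'' r ∅ :=
  BF.anti r (empty_subset _) (BF.trans r h h')

theorem BF.symm' {S : L.Structure M} {S' : L.Structure N} {r : Rk} (h : BF S S' r ∅) :
    BF S' S r ∅ := BF.anti r (empty_subset _) (BF.symm r h)

/-! ### Formulas of the infinitary logic -/

/-- quantifier rank -/
def rk : {n : ℕ} → FmI L n → Rk
  | _, .eq _ _ => .zero
  | _, .rel _ _ => .zero
  | _, .neg φ => rk φ
  | _, .conj φ => .sup fun k => rk (φ k)
  | _, .ex φ => .succ (rk φ)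

theorem range_snoc {n : ℕ} (v : Fin n → M) (v' : Fin n → N) (a : M) (b : N) :
    range (fun i => ((Fin.snoc v a : Fin (n + 1) → M) i, (Fin.snoc v' b : Fin (n + 1) → N) i)) =
      insert (a, b) (range fun i => (v i, v' i)) := by
  ext p
  constructor
  · rintro ⟨i, rfl⟩
    refine Fin.lastCases ?_ (fun i => ?_) i
    · simp
    · refine Or.inr ⟨i, ?_⟩
      simp
  · rintro (rfl | ⟨i, rfl⟩)
    · exact ⟨Fin.last n, by simp⟩
    · exact ⟨Fin.castSucc i, by simp⟩

theorem sat_of_BF {S : L.Structure M} {S' : L.Structure N} {n : ℕ} (φ : FmI L n) :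
    ∀ (v : Fin n → M) (v' : Fin n → N), BF S S' (rk φ) (range fun i => (v i, v' i)) →
      (Sat S φ v ↔ Sat S' φ v') := by
  induction φ with
  | eq i j =>
    intro v v' h
    exact h.1 _ (mem_range_self i) _ (mem_range_self j)
  | rel R w =>
    intro v v' h
    exact h.2 _ R (fun i => (v (w i), v' (w i))) (fun i => mem_range_self (w i))
  | neg φ ih =>
    intro v v' h
    exact not_congr (ih v v' h)
  | conj φ ih =>
    intro v v' h
    exact forall_congr' fun k => ih k v v' (h k)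
  | ex φ ih =>
    intro v v' h
    constructor
    · rintro ⟨a, ha⟩
      obtain ⟨b, hb⟩ := h.2.1 a
      rw [← range_snoc] at hb
      exact ⟨b, (ih _ _ hb).mp ha⟩
    · rintro ⟨b, hb⟩
      obtain ⟨a, ha⟩ := h.2.2 b
      rw [← range_snoc] at ha
      exact ⟨a, (ih _ _ ha).mpr hb⟩

/-! ### Translation of first-order formulas -/

section fo

variable [∀ n, IsEmpty (L.Functions n)]

/-- the variable of a term of a relational language -/
def tv {n : ℕ} : L.Term (Empty ⊕ Fin n) → Fin n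
  | .var (.inr i) => i
  | .func f _ => isEmptyElim f

/-- translation of first-order formulas -/
def toI : {n : ℕ} → L.BoundedFormula Empty n → FmI L n
  | _, .falsum => .ex (.neg (.eq (Fin.last _) (Fin.last _)))
  | _, .equal t₁ t₂ => .eq (tv t₁) (tv t₂)
  | _, .rel R ts => .rel R fun i => tv (ts i)
  | _, .imp φ ψ => .neg (.conj fun k => if k = 0 then toI φ else .neg (toI ψ))
  | _, .all φ => .neg (.ex (.neg (toI φ)))

theorem realize_tv {n : ℕ} (S : L.Structure M) (t : L.Term (Empty ⊕ Fin n)) (v : Fin n → M) :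
    @FirstOrder.Language.Term.realize L M S _ (Sum.elim default v) t = v (tv t) := by
  match t with
  | .var (.inr i) => rfl
  | .func f _ => exact isEmptyElim f

theorem sat_toI {n : ℕ} (S : L.Structure M) (φ : L.BoundedFormula Empty n) :
    ∀ v : Fin n → M, Sat S (toI φ) v ↔
      @FirstOrder.Language.BoundedFormula.Realize L M S Empty n φ default v := by
  induction φ with
  | falsum =>
    intro v
    simp only [toI, Sat]
    constructor
    · rintro ⟨a, ha⟩
      exact ha trivial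
    · intro h
      exact False.elim h
  | equal t₁ t₂ =>
    intro v
    simp only [toI, Sat]
    rw [← realize_tv S t₁ v, ← realize_tv S t₂ v]
    rfl
  | rel R ts =>
    intro v
    simp only [toI, Sat]
    simp only [← realize_tv S]
    rfl
  | imp φ ψ ih1 ih2 =>
    intro v
    simp only [toI, Sat]
    constructor
    · intro h h1
      by_contra h2
      apply h
      intro k
      split
      · exact (ih1 v).mpr h1
      · intro h3
        exact h2 ((ih2 v).mp h3)
    · intro h h1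
      have h2 := h1 0
      have h3 := h1 1
      simp only [if_true] at h2
      simp only [one_ne_zero, if_false] at h3
      exact h3 ((ih2 v).mpr (h ((ih1 v).mp h2)))
  | all φ ih =>
    intro v
    simp only [toI, Sat]
    push Not
    exact forall_congr' fun a => ih _

end fo

end Pool.Agent.Helper5.DU

end

/-! ### formerly `Pool.Agent.Helper5.DU.Classes` -/

section

/-!
# Counting back-and-forth classes
-/

set_option autoImplicit false
set_option linter.unusedSectionVars false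

namespace Pool.Agent.Helper5.DU

open Set Pool.Agent.Helper6.Str

variable {L : FirstOrder.Language.{0, 0}} [∀ n, IsEmpty (L.Functions n)]
  [∀ n, Countable (L.Relations n)]

theorem measurableSet_sat {n : ℕ} (φ : FmI L n) :
    ∀ v : Fin n → ℕ, MeasurableSet {c : Code L | Sat (toStr c) φ v} := by
  induction φ with
  | eq i j => intro v; exact MeasurableSet.const _
  | rel R w => intro v; exact measurableSet_relMap R _
  | neg φ ih => intro v; exact (ih v).compl
  | conj φ ih =>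
    intro v
    have : {c : Code L | Sat (toStr c) (FmI.conj φ) v} =
        ⋂ k, {c : Code L | Sat (toStr c) (φ k) v} := by
      ext c
      simp only [Sat, mem_ofPred_eq, mem_iInter]
    rw [this]
    exact MeasurableSet.iInter fun k => ih k v
  | ex φ ih =>
    intro v
    have : {c : Code L | Sat (toStr c) (FmI.ex φ) v} =
        ⋃ a : ℕ, {c : Code L | Sat (toStr c) φ (Fin.snoc v a)} := by
      ext c
      simp only [Sat, mem_ofPred_eq, mem_iUnion]
    rw [this]
    exact MeasurableSet.iUnion fun a => ih _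

theorem measurableSet_BF (S₀ : L.Structure ℕ) (r : Rk) :
    ∀ Γ : Set (ℕ × ℕ), MeasurableSet {c : Code L | BF (toStr c) S₀ r Γ} := by
  induction r with
  | zero =>
    intro Γ
    have : {c : Code L | BF (toStr c) S₀ Rk.zero Γ} =
        {_c : Code L | ∀ p ∈ Γ, ∀ q ∈ Γ, p.1 = q.1 ↔ p.2 = q.2} ∩
        ⋂ (n : ℕ), ⋂ (R : L.Relations n), ⋂ (v : Fin n → ℕ × ℕ),
          {c : Code L | (∀ i, v i ∈ Γ) → ((toStr c).RelMap R (fun i => (v i).1) ↔
            S₀.RelMap R (fun i => (v i).2))} := by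
      ext c
      simp only [BF, AtEq, mem_ofPred_eq, mem_inter_iff, mem_iInter]
    rw [this]
    refine (MeasurableSet.const _).inter (MeasurableSet.iInter fun n => MeasurableSet.iInter fun R =>
      MeasurableSet.iInter fun v => ?_)
    by_cases h1 : ∀ i, v i ∈ Γ
    · by_cases h2 : S₀.RelMap R (fun i => (v i).2)
      · simp only [h1, h2, iff_true, implies_true, true_implies]
        exact measurableSet_relMap R _
      · simp only [h1, h2, iff_false, implies_true, true_implies]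
        exact (measurableSet_relMap R _).compl
    · simp only [h1, false_implies]
      exact MeasurableSet.const True
  | succ r ih =>
    intro Γ
    have : {c : Code L | BF (toStr c) S₀ (Rk.succ r) Γ} =
        {c : Code L | BF (toStr c) S₀ r Γ} ∩
        ((⋂ a : ℕ, ⋃ b : ℕ, {c : Code L | BF (toStr c) S₀ r (insert (a, b) Γ)}) ∩
        (⋂ b : ℕ, ⋃ a : ℕ, {c : Code L | BF (toStr c) S₀ r (insert (a, b) Γ)})) := by
      ext c
      simp only [BF, mem_ofPred_eq, mem_inter_iff, mem_iInter, mem_iUnion]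
    rw [this]
    exact (ih Γ).inter ((MeasurableSet.iInter fun a => MeasurableSet.iUnion fun b => ih _).inter
      (MeasurableSet.iInter fun b => MeasurableSet.iUnion fun a => ih _))
  | sup f ih =>
    intro Γ
    have : {c : Code L | BF (toStr c) S₀ (Rk.sup f) Γ} =
        ⋂ n, {c : Code L | BF (toStr c) S₀ (f n) Γ} := by
      ext c
      simp only [BF, mem_ofPred_eq, mem_iInter]
    rw [this]
    exact MeasurableSet.iInter fun n => ih n Γ

/-- the pairs of entries -/
abbrev pr {M N : Type} {n : ℕ} (v : Fin n → M) (v' : Fin n → N) : Set (M × N) :=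
  range fun i => (v i, v' i)

/-- Countably many invariant Borel properties take countably many values. -/
theorem ctbl_of_props {K : Set (L.Structure ℕ)} (hK : MeasurableSet {c : Code L | toStr c ∈ K})
    (hP : ¬ PerfK K) {n : ℕ} {ι : Type} [Countable ι]
    (A : ι → L.Structure ℕ → (Fin n → ℕ) → Prop)
    (hA : ∀ k v, MeasurableSet {c : Code L | A k (toStr c) v})
    (hinv : ∀ k (S S' : L.Structure ℕ) (e : ℕ ≃ ℕ) (v : Fin n → ℕ), RelIso S S' e → A k S v →
      A k S' (e ∘ v)) :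
    ∃ ρ : ℕ → L.Structure ℕ × (Fin n → ℕ), ∀ S ∈ K, ∀ v, ∃ m, (ρ m).1 ∈ K ∧ ∀ k,
      (A k S v ↔ A k (ρ m).1 (ρ m).2) := by
  classical
  let z : L.Structure ℕ → (Fin n → ℕ) → ι → Bool := fun S v k => decide (A k S v)
  have hzmeas : ∀ v, Measurable fun c : Code L => z (toStr c) v := by
    intro v
    rw [measurable_pi_iff]
    intro k
    refine measurable_to_bool ?_
    have : (fun c : Code L => z (toStr c) v k) ⁻¹' {true} = {c : Code L | A k (toStr c) v} := by
      ext c
      simp only [z, mem_preimage, mem_singleton_iff, decide_eq_true_eq, mem_ofPred_eq]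
    rw [this]
    exact hA k v
  have hc : {y : ι → Bool | ∃ S ∈ K, ∃ v, z S v = y}.Countable := by
    by_contra hcon
    apply hP
    refine perfK_of_reals (J := Fin n → ℕ) (B := fun _ => {c : Code L | toStr c ∈ K})
      (fun _ => hK) (fun _ c hc => hc) (Z := fun v c => z (toStr c) v) hzmeas ?_ ?_
    · rintro v _ c _ d _ ⟨e, he⟩
      refine ⟨e ∘ v, ?_⟩
      funext k
      rw [Bool.eq_iff_iff]
      simp only [z, decide_eq_true_eq]
      constructor
      · exact hinv k _ _ e v he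
      · intro h
        have := hinv k _ _ e.symm _ he.symm h
        have h2 : e.symm ∘ (e ∘ v) = v := by ext i; simp
        rwa [h2] at this
    · intro hcc
      apply hcon
      refine hcc.mono ?_
      rintro y ⟨S, hS, v, rfl⟩
      rw [mem_iUnion]
      refine ⟨v, ofStr S, ?_, ?_⟩
      · show toStr (ofStr S) ∈ K
        rwa [toStr_ofStr]
      · show z (toStr (ofStr S)) v = _
        rw [toStr_ofStr]
  rcases K.eq_empty_or_nonempty with rfl | ⟨S₁, hS₁⟩
  · exact ⟨fun _ => (toStr fun _ => false, fun _ => 0), fun S hS => absurd hS (notMem_empty S)⟩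
  · obtain ⟨f, hf⟩ := hc.exists_eq_range ⟨_, S₁, hS₁, fun _ => 0, rfl⟩
    have h1 : ∀ m, ∃ S : L.Structure ℕ, ∃ v, S ∈ K ∧ z S v = f m := by
      intro m
      have : f m ∈ {y : ι → Bool | ∃ S ∈ K, ∃ v, z S v = y} := by
        rw [hf]; exact mem_range_self m
      obtain ⟨S, hS, v, h⟩ := this
      exact ⟨S, v, hS, h⟩
    choose S v hSK hSv using h1
    refine ⟨fun m => (S m, v m), fun S' hS' v' => ?_⟩
    have : z S' v' ∈ {y : ι → Bool | ∃ S ∈ K, ∃ v, z S v = y} := ⟨S', hS', v', rfl⟩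
    rw [hf] at this
    obtain ⟨m, hm⟩ := this
    refine ⟨m, hSK m, fun k => ?_⟩
    have h3 : z S' v' = z (S m) (v m) := by rw [hSv, hm]
    have h4 := congrFun h3 k
    simp only [z, decide_eq_decide] at h4
    exact h4

theorem BF_iso {S S' T : L.Structure ℕ} {e : ℕ ≃ ℕ} (he : RelIso S S' e) {r : Rk} {n : ℕ}
    {v w : Fin n → ℕ} (h : BF S T r (pr v w)) : BF S' T r (pr (e ∘ v) w) := by
  have h1 : BF S' S r (range fun i => (e (v i), v i)) := by
    refine BF.of_relIso he.symm r ?_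
    rintro _ ⟨i, rfl⟩
    simp
  refine BF.anti r ?_ (BF.trans r h1 h)
  rintro _ ⟨i, rfl⟩
  exact ⟨v i, mem_range_self i, mem_range_self i⟩

theorem BF_comb {S S' T : L.Structure ℕ} {r : Rk} {n : ℕ} {v v' w : Fin n → ℕ}
    (h : BF S T r (pr v w)) (h' : BF S' T r (pr v' w)) : BF S S' r (pr v v') := by
  refine BF.anti r ?_ (BF.trans r h (BF.symm r h'))
  rintro _ ⟨i, rfl⟩
  exact ⟨w i, mem_range_self i, mem_range_self i⟩

/-- There are countably many classes of each rank, unless there are perfectly many models. -/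
theorem ctbl_classes {K : Set (L.Structure ℕ)} (hK : MeasurableSet {c : Code L | toStr c ∈ K})
    (hP : ¬ PerfK K) (r : Rk) : ∀ n : ℕ, ∃ ρ : ℕ → L.Structure ℕ × (Fin n → ℕ),
      ∀ S ∈ K, ∀ v, ∃ m, BF S (ρ m).1 r (pr v (ρ m).2) := by
  induction r with
  | zero =>
    intro n
    have hctF : Countable ((k : ℕ) × (L.Relations k × (Fin k → Fin n))) := inferInstance
    obtain ⟨ρ, hρ⟩ := ctbl_of_props hK hP (n := n)
      (ι := (Fin n × Fin n) ⊕ ((k : ℕ) × (L.Relations k × (Fin k → Fin n))))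
      (fun k S v => match k with
        | .inl p => v p.1 = v p.2
        | .inr q => S.RelMap q.2.1 (fun i => v (q.2.2 i)))
      (by
        rintro (p | q) v
        · exact MeasurableSet.const _
        · exact measurableSet_relMap _ _)
      (by
        rintro (p | q) S S' e v he h
        · exact congrArg e h
        · exact (he _ q.2.1 _).mp h)
    refine ⟨ρ, fun S hS v => ?_⟩
    obtain ⟨m, -, hm⟩ := hρ S hS v
    refine ⟨m, ?_, fun k R u hu => ?_⟩
    · rintro _ ⟨i, rfl⟩ _ ⟨j, rfl⟩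
      exact hm (.inl (i, j))
    · choose w hw using hu
      have h1 := hm (.inr ⟨k, (R, w)⟩)
      simp only at h1
      have e1 : (fun i => (u i).1) = fun i => v (w i) := by
        funext i; rw [← hw i]
      have e2 : (fun i => (u i).2) = fun i => (ρ m).2 (w i) := by
        funext i; rw [← hw i]
      rw [e1, e2]
      exact h1
  | succ r ih =>
    intro n
    obtain ⟨ρ, hρ⟩ := ih (n + 1)
    obtain ⟨ρ', hρ'⟩ := ih n
    obtain ⟨σ, hσ⟩ := ctbl_of_props hK hP (n := n) (ι := ℕ ⊕ ℕ)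
      (fun k S v => match k with
        | .inl k => ∃ a, BF S (ρ k).1 r (pr (Fin.snoc v a : Fin (n + 1) → ℕ) (ρ k).2)
        | .inr k => BF S (ρ' k).1 r (pr v (ρ' k).2))
      (by
        rintro (k | k) v
        · have : {c : Code L | ∃ a, BF (toStr c) (ρ k).1 r
              (pr (Fin.snoc v a : Fin (n + 1) → ℕ) (ρ k).2)} =
              ⋃ a, {c : Code L | BF (toStr c) (ρ k).1 r
                (pr (Fin.snoc v a : Fin (n + 1) → ℕ) (ρ k).2)} := by
            ext c; simp only [mem_ofPred_eq, mem_iUnion]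
          show MeasurableSet {c : Code L | ∃ a, BF (toStr c) (ρ k).1 r
              (pr (Fin.snoc v a : Fin (n + 1) → ℕ) (ρ k).2)}
          rw [this]
          exact MeasurableSet.iUnion fun a => measurableSet_BF _ _ _
        · exact measurableSet_BF _ _ _)
      (by
        rintro (k | k) S S' e v he h
        · obtain ⟨a, ha⟩ := h
          refine ⟨e a, ?_⟩
          have := BF_iso he ha
          have h2 : e ∘ (Fin.snoc v a : Fin (n + 1) → ℕ) = Fin.snoc (e ∘ v) (e a) := by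
            funext i
            refine Fin.lastCases ?_ (fun i => ?_) i
            · simp
            · simp
          rwa [h2] at this
        · exact BF_iso he h)
    refine ⟨σ, fun S hS v => ?_⟩
    obtain ⟨m, hmK, hm⟩ := hσ S hS v
    refine ⟨m, ?_, fun a => ?_, fun b => ?_⟩
    · obtain ⟨k, hk⟩ := hρ' S hS v
      exact BF_comb hk ((hm (.inr k)).mp hk)
    · obtain ⟨k, hk⟩ := hρ S hS (Fin.snoc v a)
      obtain ⟨b, hb⟩ := (hm (.inl k)).mp ⟨a, hk⟩
      refine ⟨b, ?_⟩
      rw [← range_snoc]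
      exact BF_comb hk hb
    · obtain ⟨k, hk⟩ := hρ (σ m).1 hmK (Fin.snoc (σ m).2 b)
      obtain ⟨a, ha⟩ := (hm (.inl k)).mpr ⟨b, hk⟩
      refine ⟨a, ?_⟩
      rw [← range_snoc]
      exact BF_comb ha hk
  | sup f ih =>
    intro n
    choose ρ hρ using fun l => ih l n
    obtain ⟨σ, hσ⟩ := ctbl_of_props hK hP (n := n) (ι := ℕ × ℕ)
      (fun k S v => BF S (ρ k.1 k.2).1 (f k.1) (pr v (ρ k.1 k.2).2))
      (fun k v => measurableSet_BF _ _ _) (fun k S S' e v he h => BF_iso he h)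
    refine ⟨σ, fun S hS v => ?_⟩
    obtain ⟨m, hmK, hm⟩ := hσ S hS v
    refine ⟨m, fun l => ?_⟩
    obtain ⟨k, hk⟩ := hρ l S hS v
    exact BF_comb hk ((hm (l, k)).mp hk)

/-- The class of structures equivalent to a given one. -/
def KB (r : Rk) (S₀ : L.Structure ℕ) : Set (L.Structure ℕ) := {S | BF S S₀ r ∅}

theorem cover_classes {K : Set (L.Structure ℕ)} (hK : MeasurableSet {c : Code L | toStr c ∈ K})
    (hP : ¬ PerfK K) (r : Rk) : ∃ C : Set (L.Structure ℕ), C.Countable ∧ C ⊆ K ∧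
      ∀ S ∈ K, ∃ S₀ ∈ C, S ∈ KB r S₀ := by
  classical
  obtain ⟨ρ, hρ⟩ := ctbl_classes hK hP r 0
  have hpr : ∀ m (v : Fin 0 → ℕ), pr v (ρ m).2 = ∅ := by
    intro m v
    exact Set.range_eq_empty _
  have hch : ∀ m, ∃ S₀ : L.Structure ℕ, (∃ S ∈ K, BF S (ρ m).1 r ∅) →
      S₀ ∈ K ∧ BF S₀ (ρ m).1 r ∅ := by
    intro m
    by_cases h : ∃ S ∈ K, BF S (ρ m).1 r ∅
    · obtain ⟨S, hS, hS'⟩ := h
      exact ⟨S, fun _ => ⟨hS, hS'⟩⟩
    · exact ⟨toStr fun _ => false, fun h' => absurd h' h⟩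
  choose T hT using hch
  refine ⟨range T ∩ K, (Set.countable_range T).mono inter_subset_left, inter_subset_right,
    fun S hS => ?_⟩
  obtain ⟨m, hm⟩ := hρ S hS (fun i => i.elim0)
  rw [hpr] at hm
  obtain ⟨h1, h2⟩ := hT m ⟨S, hS, hm⟩
  exact ⟨T m, ⟨mem_range_self m, h1⟩, BF.trans' hm h2.symm'⟩

end Pool.Agent.Helper5.DU

end

/-! ### formerly `Pool.Agent.Helper79.VC.Ord` -/

section

/-!
# Countable ordinals
-/

set_option autoImplicit false

namespace Pool.Agent.Helper79.VC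

open Set Cardinal

/-- the first uncountable ordinal -/
noncomputable abbrev om1 : Ordinal.{0} := Ordinal.omega 1

theorem lt_om1_iff {γ : Ordinal.{0}} : γ < om1 ↔ γ.card ≤ ℵ₀ := by
  rw [om1, ← Cardinal.ord_aleph, Cardinal.lt_ord, ← Cardinal.succ_aleph0, Order.lt_succ_iff]

theorem add_lt_om1 {a b : Ordinal.{0}} (ha : a < om1) (hb : b < om1) : a + b < om1 := by
  rw [lt_om1_iff] at ha hb ⊢
  rw [Ordinal.card_add]
  exact (add_le_add ha hb).trans (by simp)

theorem one_lt_om1 : (1 : Ordinal.{0}) < om1 := by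
  rw [lt_om1_iff]; simp

theorem omega_lt_om1 : Ordinal.omega0.{0} < om1 := Ordinal.omega0_lt_omega_one

theorem natCast_lt_om1 (n : ℕ) : (n : Ordinal.{0}) < om1 := by
  rw [lt_om1_iff]; simp

theorem add_one_lt_om1 {a : Ordinal.{0}} (ha : a < om1) : a + 1 < om1 := add_lt_om1 ha one_lt_om1

theorem iSup_lt_om1 {ι : Type*} [Countable ι] {f : ι → Ordinal.{0}} (h : ∀ i, f i < om1) :
    ⨆ i, f i < om1 := by
  exact Ordinal.iSup_lt_omega_one h

/-- Countably many countable ordinals have a countable upper bound. -/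
theorem exists_bound {ι : Type*} [Countable ι] {f : ι → Ordinal.{0}} (h : ∀ i, f i < om1) :
    ∃ γ < om1, ∀ i, f i ≤ γ := by
  obtain ⟨e, he⟩ := exists_injective_nat ι
  classical
  let g : ℕ → Ordinal.{0} := fun n => if h : ∃ i, e i = n then f h.choose else 0
  have hg : ∀ n, g n < om1 := by
    intro n
    simp only [g]
    split_ifs with h1
    · exact h _
    · exact (Ordinal.omega_pos 1)
  refine ⟨⨆ n, g n, iSup_lt_om1 hg, fun i => ?_⟩
  have h1 : g (e i) = f i := by
    have h2 : ∃ j, e j = e i := ⟨i, rfl⟩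
    simp only [g, dif_pos h2]
    rw [he h2.choose_spec]
  rw [← h1]
  exact Ordinal.le_iSup g (e i)

theorem countable_Iio {γ : Ordinal.{0}} (h : γ < om1) : (Iio γ).Countable := by
  rw [lt_om1_iff] at h
  rw [← Cardinal.le_aleph0_iff_set_countable, Cardinal.mk_Iio_ordinal]
  exact Cardinal.lift_le_aleph0.mpr h

theorem countable_Iic {γ : Ordinal.{0}} (h : γ < om1) : (Iic γ).Countable := by
  refine (countable_Iio (add_one_lt_om1 h)).mono ?_
  intro x hx
  exact mem_Iio.mpr (Order.lt_add_one_iff.mpr (mem_Iic.mp hx))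

/-- a well-ordered set of type omega one -/
abbrev Om : Type := om1.ToType

/-- the ordinal of an element -/
noncomputable def od (w : Om) : Ordinal.{0} := (Ordinal.ToType.mk.symm w).1

theorem od_lt (w : Om) : od w < om1 := (Ordinal.ToType.mk.symm w).2

theorem od_surj {γ : Ordinal.{0}} (h : γ < om1) : ∃ w : Om, od w = γ :=
  ⟨Ordinal.ToType.mk ⟨γ, h⟩, by simp [od]⟩

theorem od_lt_od {w w' : Om} : od w < od w' ↔ w < w' := by
  unfold od
  rw [Subtype.coe_lt_coe]
  exact (Ordinal.ToType.mk.symm).lt_iff_lt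

theorem od_injective : Function.Injective od := by
  intro w w' h
  by_contra hne
  rcases lt_or_gt_of_ne hne with h1 | h1
  · exact (od_lt_od.mpr h1).ne h
  · exact (od_lt_od.mpr h1).ne' h

theorem countable_od_lt {γ : Ordinal.{0}} (h : γ < om1) : {w : Om | od w < γ}.Countable := by
  have h1 : (od ⁻¹' (Iio γ)).Countable := (countable_Iio h).preimage od_injective
  exact h1

theorem countable_Iio_om (w : Om) : (Iio w).Countable := by
  refine (countable_od_lt (od_lt w)).mono ?_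
  intro x hx
  exact od_lt_od.mpr hx

theorem not_countable_om : ¬ (univ : Set Om).Countable := by
  rw [← Cardinal.le_aleph0_iff_set_countable, Cardinal.mk_univ, Cardinal.mk_toType]
  intro h
  exact lt_irrefl _ (lt_om1_iff.mpr h)

end Pool.Agent.Helper79.VC

end

/-! ### formerly `Pool.Agent.Helper79.VC.BF` -/

section

/-!
# Back-and-forth relations indexed by ordinals, relativised to subsets
-/

set_option autoImplicit false
set_option linter.unusedSectionVars false
set_option linter.unusedVariables false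

namespace Pool.Agent.Helper79.VC

open Set Pool.Agent.Helper5.DU Pool.Agent.Helper6.Str

variable {L : FirstOrder.Language.{0, 0}} {M N P : Type}

/-- Back-and-forth relation of level `γ` between `S` and `S'`, where the moves are restricted to
the sets `U` and `V`; `p` is the set of pairs matched so far. -/
def BFR (S : L.Structure M) (S' : L.Structure N) (U : Set M) (V : Set N) (γ : Ordinal.{0})
    (p : Set (M × N)) : Prop :=
  AtEq S S' p ∧ ∀ β, (h : β < γ) →
    (∀ x ∈ U, ∃ y ∈ V, BFR S S' U V β (insert (x, y) p)) ∧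
    (∀ y ∈ V, ∃ x ∈ U, BFR S S' U V β (insert (x, y) p))
termination_by γ
decreasing_by all_goals exact h

variable {S : L.Structure M} {S' : L.Structure N} {S'' : L.Structure P}
  {U : Set M} {V : Set N} {W : Set P}

theorem BFR.def {γ : Ordinal.{0}} {p : Set (M × N)} :
    BFR S S' U V γ p ↔ AtEq S S' p ∧ ∀ β < γ,
      (∀ x ∈ U, ∃ y ∈ V, BFR S S' U V β (insert (x, y) p)) ∧
      (∀ y ∈ V, ∃ x ∈ U, BFR S S' U V β (insert (x, y) p)) := by
  rw [BFR]

theorem BFR.atEq {γ : Ordinal.{0}} {p : Set (M × N)} (h : BFR S S' U V γ p) : AtEq S S' p :=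
  (BFR.def.mp h).1

theorem BFR.forth {γ β : Ordinal.{0}} {p : Set (M × N)} (h : BFR S S' U V γ p) (hβ : β < γ)
    {x : M} (hx : x ∈ U) : ∃ y ∈ V, BFR S S' U V β (insert (x, y) p) :=
  ((BFR.def.mp h).2 β hβ).1 x hx

theorem BFR.back {γ β : Ordinal.{0}} {p : Set (M × N)} (h : BFR S S' U V γ p) (hβ : β < γ)
    {y : N} (hy : y ∈ V) : ∃ x ∈ U, BFR S S' U V β (insert (x, y) p) :=
  ((BFR.def.mp h).2 β hβ).2 y hy

theorem BFR.anti {γ : Ordinal.{0}} : ∀ {p q : Set (M × N)}, p ⊆ q → BFR S S' U V γ q →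
    BFR S S' U V γ p := by
  induction γ using WellFoundedLT.induction with
  | _ γ ih =>
    intro p q hpq h
    rw [BFR.def] at h ⊢
    refine ⟨AtEq.anti hpq h.1, fun β hβ => ⟨fun x hx => ?_, fun y hy => ?_⟩⟩
    · obtain ⟨y, hy, h1⟩ := (h.2 β hβ).1 x hx
      exact ⟨y, hy, ih β hβ (insert_subset_insert hpq) h1⟩
    · obtain ⟨x, hx, h1⟩ := (h.2 β hβ).2 y hy
      exact ⟨x, hx, ih β hβ (insert_subset_insert hpq) h1⟩

theorem BFR.mono {γ β : Ordinal.{0}} (hβ : β ≤ γ) {p : Set (M × N)} (h : BFR S S' U V γ p) :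
    BFR S S' U V β p := by
  rw [BFR.def] at h ⊢
  exact ⟨h.1, fun α hα => h.2 α (hα.trans_le hβ)⟩

theorem BFR.swap {γ : Ordinal.{0}} : ∀ {p : Set (M × N)}, BFR S S' U V γ p →
    BFR S' S V U γ (Prod.swap ⁻¹' p) := by
  induction γ using WellFoundedLT.induction with
  | _ γ ih =>
    intro p h
    rw [BFR.def] at h ⊢
    refine ⟨⟨fun a ha b hb => (h.1.1 _ ha _ hb).symm, fun n R v hv =>
      (h.1.2 n R (fun i => (v i).swap) hv).symm⟩, fun β hβ => ⟨fun y hy => ?_, fun x hx => ?_⟩⟩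
    · obtain ⟨x, hx, h1⟩ := (h.2 β hβ).2 y hy
      refine ⟨x, hx, BFR.anti ?_ (ih β hβ h1)⟩
      rintro a (rfl | ha)
      · exact mem_insert _ _
      · exact mem_insert_of_mem _ ha
    · obtain ⟨y, hy, h1⟩ := (h.2 β hβ).1 x hx
      refine ⟨y, hy, BFR.anti ?_ (ih β hβ h1)⟩
      rintro a (rfl | ha)
      · exact mem_insert _ _
      · exact mem_insert_of_mem _ ha

theorem BFR.comp {γ : Ordinal.{0}} : ∀ {p : Set (M × N)} {q : Set (N × P)},
    BFR S S' U V γ p → BFR S' S'' V W γ q → BFR S S'' U W γ (cmp p q) := by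
  induction γ using WellFoundedLT.induction with
  | _ γ ih =>
    intro p q h1 h2
    rw [BFR.def] at h1 h2 ⊢
    refine ⟨⟨?_, fun n R v hv => ?_⟩, fun β hβ => ⟨fun x hx => ?_, fun z hz => ?_⟩⟩
    · rintro a ⟨b, hb1, hb2⟩ a' ⟨c, hc1, hc2⟩
      rw [h1.1.1 _ hb1 _ hc1]
      exact h2.1.1 _ hb2 _ hc2
    · choose b hb1 hb2 using hv
      rw [h1.1.2 n R (fun i => ((v i).1, b i)) hb1]
      exact h2.1.2 n R (fun i => (b i, (v i).2)) hb2
    · obtain ⟨y, hy, h3⟩ := (h1.2 β hβ).1 x hx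
      obtain ⟨z, hz, h4⟩ := (h2.2 β hβ).1 y hy
      refine ⟨z, hz, BFR.anti ?_ (ih β hβ h3 h4)⟩
      rintro a (rfl | ⟨d, hd1, hd2⟩)
      · exact ⟨y, mem_insert _ _, mem_insert _ _⟩
      · exact ⟨d, mem_insert_of_mem _ hd1, mem_insert_of_mem _ hd2⟩
    · obtain ⟨y, hy, h4⟩ := (h2.2 β hβ).2 z hz
      obtain ⟨x, hx, h3⟩ := (h1.2 β hβ).2 y hy
      refine ⟨x, hx, BFR.anti ?_ (ih β hβ h3 h4)⟩
      rintro a (rfl | ⟨d, hd1, hd2⟩)
      · exact ⟨y, mem_insert _ _, mem_insert _ _⟩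
      · exact ⟨d, mem_insert_of_mem _ hd1, mem_insert_of_mem _ hd2⟩

/-- A map preserving the relations on `U`, injective on `U`, with image `V`. -/
theorem BFR.of_map (f : M → N) (hinj : InjOn f U) (hV : V = f '' U)
    (hR : ∀ (n : ℕ) (R : L.Relations n) (v : Fin n → M), (∀ i, v i ∈ U) →
      (S.RelMap R v ↔ S'.RelMap R (fun i => f (v i)))) (γ : Ordinal.{0}) :
    ∀ {p : Set (M × N)}, (∀ a ∈ p, a.1 ∈ U ∧ a.2 = f a.1) → BFR S S' U V γ p := by
  subst hV
  induction γ using WellFoundedLT.induction with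
  | _ γ ih =>
    intro p hp
    rw [BFR.def]
    refine ⟨⟨fun a ha b hb => ?_, fun n R v hv => ?_⟩, fun β hβ => ⟨fun x hx => ?_, ?_⟩⟩
    · rw [(hp a ha).2, (hp b hb).2]
      exact (hinj.eq_iff (hp a ha).1 (hp b hb).1).symm
    · rw [hR n R _ fun i => (hp _ (hv i)).1]
      have : (fun i => f (v i).1) = fun i => (v i).2 := by
        funext i
        exact (hp _ (hv i)).2.symm
      rw [this]
    · refine ⟨f x, mem_image_of_mem f hx, ih β hβ ?_⟩
      rintro a (rfl | ha)
      · exact ⟨hx, rfl⟩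
      · exact hp a ha
    · rintro _ ⟨x, hx, rfl⟩
      refine ⟨x, hx, ih β hβ ?_⟩
      rintro a (rfl | ha)
      · exact ⟨hx, rfl⟩
      · exact hp a ha

theorem BFR.refl (S : L.Structure M) (U : Set M) (γ : Ordinal.{0}) {p : Set (M × M)}
    (hp : ∀ a ∈ p, a.1 ∈ U ∧ a.2 = a.1) : BFR S S U U γ p :=
  BFR.of_map id (injOn_id _) (image_id _).symm (fun _ _ _ _ => Iff.rfl) γ hp

theorem BFR.of_relIso {e : M ≃ N} (he : RelIso S S' e) (γ : Ordinal.{0}) {p : Set (M × N)}
    (hp : ∀ a ∈ p, a.2 = e a.1) : BFR S S' univ univ γ p :=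
  BFR.of_map e e.injective.injOn (by rw [image_univ, e.surjective.range_eq])
    (fun n R v _ => he n R v) γ fun a ha => ⟨mem_univ _, hp a ha⟩

/-- composition, with the set of pairs given -/
theorem BFR.trans {γ : Ordinal.{0}} {p : Set (M × N)} {q : Set (N × P)} {r : Set (M × P)}
    (h1 : BFR S S' U V γ p) (h2 : BFR S' S'' V W γ q)
    (hr : ∀ a ∈ r, ∃ b, (a.1, b) ∈ p ∧ (b, a.2) ∈ q) : BFR S S'' U W γ r :=
  BFR.anti (fun a ha => hr a ha) (h1.comp h2)

theorem BFR.symm {γ : Ordinal.{0}} {p : Set (M × N)} {q : Set (N × M)}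
    (h : BFR S S' U V γ p) (hq : ∀ a ∈ q, (a.2, a.1) ∈ p) : BFR S' S V U γ q :=
  BFR.anti (fun a ha => hq a ha) h.swap

/-- several moves at once -/
theorem BFR.forth_many {γ : Ordinal.{0}} : ∀ (n : ℕ) {p : Set (M × N)},
    BFR S S' U V (γ + n) p → ∀ x : Fin n → M, (∀ i, x i ∈ U) →
    ∃ y : Fin n → N, (∀ i, y i ∈ V) ∧ BFR S S' U V γ (p ∪ range fun i => (x i, y i)) := by
  intro n
  induction n with
  | zero =>
    intro p h x _
    refine ⟨fun i => i.elim0, fun i => i.elim0, BFR.anti ?_ (h.mono (by simp))⟩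
    rintro a (ha | ⟨i, _⟩)
    · exact ha
    · exact i.elim0
  | succ n ih =>
    intro p h x hx
    have hlt : γ + (n : Ordinal.{0}) < γ + ((n + 1 : ℕ) : Ordinal.{0}) := by
      have : (n : Ordinal.{0}) < ((n + 1 : ℕ) : Ordinal.{0}) := by exact_mod_cast Nat.lt_succ_self n
      exact add_lt_add_right this γ
    obtain ⟨y0, hy0, h1⟩ := h.forth hlt (hx 0)
    obtain ⟨y, hy, h2⟩ := ih h1 (fun i => x i.succ) (fun i => hx _)
    refine ⟨Fin.cons y0 y, fun i => ?_, BFR.anti ?_ h2⟩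
    · refine Fin.cases ?_ (fun i => ?_) i
      · exact hy0
      · exact hy i
    · rintro a (ha | ⟨i, rfl⟩)
      · exact Or.inl (mem_insert_of_mem _ ha)
      · refine Fin.cases ?_ (fun i => ?_) i
        · exact Or.inl (mem_insert _ _)
        · exact Or.inr ⟨i, rfl⟩

/-! ### comparison with the ranks of the earlier files -/

/-- the ordinal of a rank -/
noncomputable def ordOf : Rk → Ordinal.{0}
  | .zero => 0
  | .succ r => ordOf r + 1
  | .sup f => ⨆ n, ordOf (f n)

theorem BFR.bf (r : Rk) : ∀ {p : Set (M × N)}, BFR S S' univ univ (ordOf r) p → BF S S' r p := by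
  induction r with
  | zero => intro p h; exact h.atEq
  | succ r ih =>
    intro p h
    have hlt : ordOf r < ordOf (.succ r) := by
      show ordOf r < ordOf r + 1
      exact Order.lt_add_one_iff.mpr le_rfl
    refine ⟨ih (h.mono hlt.le), fun a => ?_, fun b => ?_⟩
    · obtain ⟨b, -, hb⟩ := h.forth hlt (mem_univ a)
      exact ⟨b, ih hb⟩
    · obtain ⟨a, -, ha⟩ := h.back hlt (mem_univ b)
      exact ⟨a, ih ha⟩
  | sup f ih =>
    intro p h n
    exact ih n (h.mono (Ordinal.le_iSup (fun n => ordOf (f n)) n))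

theorem ordOf_lt (r : Rk) : ordOf r < om1 := by
  induction r with
  | zero => exact Ordinal.omega_pos 1
  | succ r ih => exact add_one_lt_om1 ih
  | sup f ih => exact iSup_lt_om1 ih

end Pool.Agent.Helper79.VC

end

/-! ### formerly `Pool.Agent.Helper79.VC.Piece` -/

section

/-!
# Gaifman graphs, components, pieces: definitions
-/

set_option autoImplicit false
set_option linter.unusedSectionVars false
set_option linter.unusedVariables false

namespace Pool.Agent.Helper79.VC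

open Set Pool.Agent.Helper5.DU Pool.Agent.Helper6.Str

variable {L : FirstOrder.Language.{0, 0}} {M N P : Type}

/-- `C` is a component after the removal of `Q` -/
def IsCpt {V : Type} (G : SimpleGraph V) (Q : Set V) (C : Set V) : Prop :=
  ∃ x, x ∉ Q ∧ C = cpt G Q x

/-- equivalence of level `γ` of the pieces `(S, s, C)` and `(S', s', C')` -/
def PE {n : ℕ} (S : L.Structure M) (s : Fin n → M) (C : Set M) (S' : L.Structure N)
    (s' : Fin n → N) (C' : Set N) (γ : Ordinal.{0}) : Prop :=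
  BFR S S' (C ∪ range s) (C' ∪ range s') γ (range fun i => (s i, s' i))

/-- `D` is tame over `Q`: countably many elements realise all the types of one element. -/
def Tame (S : L.Structure M) (Q D : Set M) : Prop :=
  ∃ B : Set M, B ⊆ D ∪ Q ∧ B.Countable ∧ ∀ c ∈ D ∪ Q, ∃ d ∈ B, ∀ γ < om1,
    BFR S S (D ∪ Q) (D ∪ Q) γ (insert (c, d) ((fun a => (a, a)) '' Q))

/-- every countable level of `S` is that of a member of `K` -/
def Lev (K : Set (L.Structure ℕ)) (S : L.Structure M) : Prop :=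
  ∀ γ < om1, ∃ S' ∈ K, BFR S S' univ univ γ ∅

/-- no countable set realises all the types over its finite subsets -/
def NoCtblType (S : L.Structure M) : Prop :=
  ¬ ∃ A : Set M, A.Countable ∧ ∀ F : Finset M, (F : Set M) ⊆ A → ∀ c : M, ∃ d ∈ A, ∀ γ < om1,
    BFR S S univ univ γ (insert (c, d) ((fun a => (a, a)) '' (F : Set M)))

/-- closure of `K` under the equivalence of level `δ` -/
def ClosedLev (K : Set (L.Structure ℕ)) (δ : Ordinal.{0}) : Prop :=
  ∀ S ∈ K, ∀ S' : L.Structure ℕ, BFR S S' univ univ δ ∅ → S' ∈ K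

end Pool.Agent.Helper79.VC

end

/-! ### formerly `Pool.Agent.Helper79.VC.Count` -/

section

/-!
# Countably many back-and-forth classes of every countable level
-/

set_option autoImplicit false
set_option linter.unusedSectionVars false
set_option linter.unusedVariables false

namespace Pool.Agent.Helper79.VC

open Set Pool.Agent.Helper5.DU Pool.Agent.Helper6.Str

variable {L : FirstOrder.Language.{0, 0}} [∀ n, IsEmpty (L.Functions n)]
  [∀ n, Countable (L.Relations n)]

theorem measurableSet_atEq (S₀ : L.Structure ℕ) (Γ : Set (ℕ × ℕ)) :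
    MeasurableSet {c : Code L | AtEq (toStr c) S₀ Γ} := measurableSet_BF S₀ .zero Γ

theorem measurableSet_BFR (S₀ : L.Structure ℕ) {γ : Ordinal.{0}} (hγ : γ < om1) :
    ∀ Γ : Set (ℕ × ℕ), MeasurableSet {c : Code L | BFR (toStr c) S₀ univ univ γ Γ} := by
  induction γ using WellFoundedLT.induction with
  | _ γ ih =>
    intro Γ
    have hc : Countable (Iio γ) := (countable_Iio hγ).to_subtype
    have : {c : Code L | BFR (toStr c) S₀ univ univ γ Γ} =
        {c : Code L | AtEq (toStr c) S₀ Γ} ∩ ⋂ β : Iio γ,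
        ((⋂ a : ℕ, ⋃ b : ℕ, {c : Code L | BFR (toStr c) S₀ univ univ β.1 (insert (a, b) Γ)}) ∩
        (⋂ b : ℕ, ⋃ a : ℕ, {c : Code L | BFR (toStr c) S₀ univ univ β.1 (insert (a, b) Γ)})) := by
      ext c
      simp only [mem_ofPred_eq, mem_inter_iff, mem_iInter, mem_iUnion]
      rw [BFR.def]
      simp only [mem_univ, true_and, forall_true_left, Subtype.forall, mem_Iio]
    rw [this]
    refine (measurableSet_atEq S₀ Γ).inter (MeasurableSet.iInter fun β => ?_)
    have h1 := ih β.1 β.2 (lt_trans β.2 hγ)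
    exact (MeasurableSet.iInter fun a => MeasurableSet.iUnion fun b => h1 _).inter
      (MeasurableSet.iInter fun b => MeasurableSet.iUnion fun a => h1 _)

theorem BFR_iso {S S' T : L.Structure ℕ} {e : ℕ ≃ ℕ} (he : RelIso S S' e) {γ : Ordinal.{0}}
    {n : ℕ} {v w : Fin n → ℕ} (h : BFR S T univ univ γ (pr v w)) :
    BFR S' T univ univ γ (pr (e ∘ v) w) := by
  have h1 : BFR S' S univ univ γ (range fun i => (e (v i), v i)) := by
    refine BFR.of_relIso he.symm γ ?_
    rintro _ ⟨i, rfl⟩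
    simp
  refine BFR.trans h1 h ?_
  rintro _ ⟨i, rfl⟩
  exact ⟨v i, mem_range_self i, mem_range_self i⟩

/-- The class `K` has countably many back-and-forth classes of every countable level. -/
def Scat (K : Set (L.Structure ℕ)) : Prop :=
  ∀ γ < om1, ∀ n : ℕ, ∃ ρ : ℕ → L.Structure ℕ × (Fin n → ℕ), ∀ S ∈ K, ∀ v : Fin n → ℕ,
    ∃ m, (ρ m).1 ∈ K ∧ BFR S (ρ m).1 univ univ γ (pr v (ρ m).2)

theorem scat_of_not_perf {K : Set (L.Structure ℕ)}
    (hK : MeasurableSet {c : Code L | toStr c ∈ K}) (hP : ¬ PerfK K) : Scat K := by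
  intro γ hγ
  induction γ using WellFoundedLT.induction with
  | _ γ ih =>
    intro n
    have hch : ∀ β, ∃ ρ : ℕ → L.Structure ℕ × (Fin (n + 1) → ℕ), β < γ → ∀ S ∈ K,
        ∀ v : Fin (n + 1) → ℕ, ∃ m, (ρ m).1 ∈ K ∧ BFR S (ρ m).1 univ univ β (pr v (ρ m).2) := by
      intro β
      by_cases hβ : β < γ
      · obtain ⟨ρ, hρ⟩ := ih β hβ (hβ.trans hγ) (n + 1)
        exact ⟨ρ, fun _ => hρ⟩
      · exact ⟨fun _ => (toStr fun _ => false, fun _ => 0), fun h => absurd h hβ⟩
    choose ρ hρ using hch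
    obtain ⟨e, he⟩ : ∃ e : ℕ → Ordinal.{0}, ∀ β < γ, ∃ k, e k = β := by
      rcases (Iio γ).eq_empty_or_nonempty with h0 | h0
      · exact ⟨fun _ => 0, fun β hβ => absurd (mem_Iio.mpr hβ) (by rw [h0]; exact notMem_empty β)⟩
      · obtain ⟨e, he⟩ := (countable_Iio hγ).exists_eq_range h0
        refine ⟨e, fun β hβ => ?_⟩
        have : β ∈ range e := he ▸ mem_Iio.mpr hβ
        exact this
    have hctF : Countable ((k : ℕ) × (L.Relations k × (Fin k → Fin n))) := inferInstance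
    obtain ⟨σ, hσ⟩ := ctbl_of_props hK hP (n := n)
      (ι := ((Fin n × Fin n) ⊕ ((k : ℕ) × (L.Relations k × (Fin k → Fin n)))) ⊕ (ℕ × ℕ))
      (fun k S v => match k with
        | .inl (.inl p) => v p.1 = v p.2
        | .inl (.inr q) => S.RelMap q.2.1 (fun i => v (q.2.2 i))
        | .inr p => e p.1 < γ ∧ ∃ a, BFR S (ρ (e p.1) p.2).1 univ univ (e p.1)
            (pr (Fin.snoc v a : Fin (n + 1) → ℕ) (ρ (e p.1) p.2).2))
      (by
        rintro ((p | q) | p) v
        · exact MeasurableSet.const _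
        · exact measurableSet_relMap _ _
        · show MeasurableSet {c : Code L | e p.1 < γ ∧ ∃ a, BFR (toStr c) (ρ (e p.1) p.2).1 univ
              univ (e p.1) (pr (Fin.snoc v a : Fin (n + 1) → ℕ) (ρ (e p.1) p.2).2)}
          by_cases h : e p.1 < γ
          · have : {c : Code L | e p.1 < γ ∧ ∃ a, BFR (toStr c) (ρ (e p.1) p.2).1 univ
                univ (e p.1) (pr (Fin.snoc v a : Fin (n + 1) → ℕ) (ρ (e p.1) p.2).2)} =
                ⋃ a, {c : Code L | BFR (toStr c) (ρ (e p.1) p.2).1 univ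
                univ (e p.1) (pr (Fin.snoc v a : Fin (n + 1) → ℕ) (ρ (e p.1) p.2).2)} := by
              ext c; simp only [h, true_and, mem_ofPred_eq, mem_iUnion]
            rw [this]
            exact MeasurableSet.iUnion fun a => measurableSet_BFR _ (h.trans hγ) _
          · simp only [h, false_and]
            exact MeasurableSet.const _)
      (by
        rintro ((p | q) | p) S S' f v hf h
        · exact congrArg f h
        · exact (hf _ q.2.1 _).mp h
        · obtain ⟨h0, a, ha⟩ := h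
          refine ⟨h0, f a, ?_⟩
          have := BFR_iso hf ha
          have h2 : f ∘ (Fin.snoc v a : Fin (n + 1) → ℕ) = Fin.snoc (f ∘ v) (f a) := by
            funext i
            refine Fin.lastCases ?_ (fun i => ?_) i
            · simp
            · simp
          rwa [h2] at this)
    refine ⟨σ, fun S hS v => ?_⟩
    obtain ⟨m, hmK, hm⟩ := hσ S hS v
    refine ⟨m, hmK, ?_⟩
    rw [BFR.def]
    refine ⟨⟨?_, fun k R u hu => ?_⟩, fun β hβ => ⟨fun a _ => ?_, fun b _ => ?_⟩⟩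
    · rintro _ ⟨i, rfl⟩ _ ⟨j, rfl⟩
      exact hm (.inl (.inl (i, j)))
    · choose w hw using hu
      have h1 := hm (.inl (.inr ⟨k, (R, w)⟩))
      simp only at h1
      have e1 : (fun i => (u i).1) = fun i => v (w i) := by
        funext i; rw [← hw i]
      have e2 : (fun i => (u i).2) = fun i => (σ m).2 (w i) := by
        funext i; rw [← hw i]
      rw [e1, e2]
      exact h1
    · obtain ⟨l, rfl⟩ := he β hβ
      obtain ⟨k, hkK, hk⟩ := hρ (e l) hβ S hS (Fin.snoc v a)
      obtain ⟨-, b, hb⟩ := (hm (.inr (l, k))).mp ⟨hβ, a, hk⟩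
      refine ⟨b, mem_univ _, ?_⟩
      rw [← range_snoc]
      refine BFR.trans hk (hb.symm (q := pr (ρ (e l) k).2 (Fin.snoc (σ m).2 b)) ?_) ?_
      · rintro _ ⟨i, rfl⟩
        exact ⟨i, rfl⟩
      · rintro _ ⟨i, rfl⟩
        exact ⟨_, ⟨i, rfl⟩, ⟨i, rfl⟩⟩
    · obtain ⟨l, rfl⟩ := he β hβ
      obtain ⟨k, hkK, hk⟩ := hρ (e l) hβ (σ m).1 hmK (Fin.snoc (σ m).2 b)
      obtain ⟨-, a, ha⟩ := (hm (.inr (l, k))).mpr ⟨hβ, b, hk⟩
      refine ⟨a, mem_univ _, ?_⟩
      rw [← range_snoc]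
      refine BFR.trans ha (hk.symm (q := pr (ρ (e l) k).2 (Fin.snoc (σ m).2 b)) ?_) ?_
      · rintro _ ⟨i, rfl⟩
        exact ⟨i, rfl⟩
      · rintro _ ⟨i, rfl⟩
        exact ⟨_, ⟨i, rfl⟩, ⟨i, rfl⟩⟩

end Pool.Agent.Helper79.VC

end

/-! ### formerly `Pool.Agent.Helper79.VC.Branch` -/

section

/-!
# The branch lemma

For a decreasing family of Borel equivalence relations with countably many classes, indexed by
the countable ordinals, every uncountable family of points has an uncountable subfamily which is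
concentrated in one class at each level.
-/

set_option autoImplicit false
set_option linter.unusedVariables false
set_option linter.unusedSectionVars false

namespace Pool.Agent.Helper79.VC

open Set Filter Topology

/-- pigeonhole principle for uncountable sets -/
theorem exists_large_fiber {Λ : Type*} {κ : Type*} [Countable κ] {V : Set Λ} (hV : ¬ V.Countable)
    (f : Λ → κ) : ∃ k, ¬ {α ∈ V | f α = k}.Countable := by
  by_contra hcon
  push Not at hcon
  apply hV
  have : V ⊆ ⋃ k, {α ∈ V | f α = k} := fun α hα => mem_iUnion.mpr ⟨f α, hα, rfl⟩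
  exact (countable_iUnion hcon).mono this

theorem not_countable_diff {Λ : Type*} {V A : Set Λ} (hV : ¬ V.Countable) (hA : A.Countable) :
    ¬ (V \ A).Countable := by
  intro h
  apply hV
  refine (h.union hA).mono ?_
  intro x hx
  by_cases h1 : x ∈ A
  · exact Or.inr h1
  · exact Or.inl ⟨hx, h1⟩

theorem nonempty_of_large {Λ : Type*} {V : Set Λ} (hV : ¬ V.Countable) : V.Nonempty := by
  by_contra h
  rw [not_nonempty_iff_eq_empty] at h
  exact hV (h ▸ countable_empty)

section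

variable {Λ X : Type} [TopologicalSpace X] [T2Space X]

/-- a node of the fusion tree -/
structure Nd (Λ X : Type) where
  V : Set Λ
  g : ℕ → (ℕ → ℕ) → X
  z : ℕ → ℕ → ℕ

/-- the invariant of a node of depth `n` -/
def Inv (x : Λ → X) (U : Set Λ) (n : ℕ) (nd : Nd Λ X) : Prop :=
  nd.V ⊆ U ∧ ¬ nd.V.Countable ∧ ∀ i < n, Continuous (nd.g i) ∧
    ∀ α ∈ nd.V, ∃ w : ℕ → ℕ, (∀ j < n, w j = nd.z i j) ∧ nd.g i w = x α

theorem nd_step {x : Λ → X} {U : Set Λ} {n : ℕ} {nd : Nd Λ X} (h : Inv x U n nd)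
    {V' : Set Λ} (hV' : V' ⊆ nd.V) (hl : ¬ V'.Countable) {t : Set X}
    (ht : MeasureTheory.AnalyticSet t) (hx : ∀ α ∈ V', x α ∈ t) :
    ∃ nd' : Nd Λ X, Inv x U (n + 1) nd' ∧ nd'.V ⊆ nd.V ∧ (∀ i < n, nd'.g i = nd.g i) ∧
      (∀ i < n, ∀ j < n, nd'.z i j = nd.z i j) ∧ ∀ w, nd'.g n w ∈ t := by
  classical
  obtain ⟨α₁, hα₁⟩ := nonempty_of_large hl
  rw [MeasureTheory.AnalyticSet] at ht
  rcases ht with ht | ⟨f, hf, hft⟩
  · rw [ht] at hx
    exact absurd (hx α₁ hα₁) (notMem_empty _)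
  have hw : ∀ α : Λ, ∃ w : ℕ → ℕ → ℕ, α ∈ V' →
      (∀ i < n, (∀ j < n, w i j = nd.z i j) ∧ nd.g i (w i) = x α) ∧ f (w n) = x α := by
    intro α
    by_cases hα : α ∈ V'
    · have h1 : ∀ i, ∃ w : ℕ → ℕ, i < n → (∀ j < n, w j = nd.z i j) ∧ nd.g i w = x α := by
        intro i
        by_cases hi : i < n
        · obtain ⟨w, hw⟩ := (h.2.2 i hi).2 α (hV' hα)
          exact ⟨w, fun _ => hw⟩
        · exact ⟨fun _ => 0, fun h => absurd h hi⟩
      choose w hw using h1
      obtain ⟨u, hu⟩ : ∃ u, f u = x α := by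
        have := hx α hα
        rw [← hft] at this
        exact this
      refine ⟨fun i => if i = n then u else w i, fun _ => ⟨fun i hi => ?_, ?_⟩⟩
      · simp only [hi.ne, if_false]
        exact hw i hi
      · simp only [if_true]
        exact hu
    · exact ⟨fun _ _ => 0, fun h => absurd h hα⟩
  choose w hw using hw
  obtain ⟨k, hk⟩ := exists_large_fiber hl
    (fun α => (fun (i : Fin (n + 1)) (j : Fin (n + 1)) => w α i j))
  obtain ⟨α₀, hα₀, hα₀k⟩ := nonempty_of_large hk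
  refine ⟨⟨{α ∈ V' | (fun (i : Fin (n + 1)) (j : Fin (n + 1)) => w α i j) = k},
    fun i => if i = n then f else nd.g i, w α₀⟩, ⟨?_, hk, ?_⟩, ?_, ?_, ?_, ?_⟩
  · exact fun α hα => h.1 (hV' hα.1)
  · intro i hi
    refine ⟨?_, ?_⟩
    · by_cases hin : i = n
      · simp only [hin, if_true]; exact hf
      · simp only [hin, if_false]
        exact (h.2.2 i (by omega)).1
    · rintro α ⟨hα, hαk⟩
      refine ⟨w α i, fun j hj => ?_, ?_⟩
      · have h1 := congrFun (congrFun (hαk.trans hα₀k.symm) ⟨i, hi⟩) ⟨j, hj⟩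
        exact h1
      · by_cases hin : i = n
        · simp only [hin, if_true]
          exact (hw α hα).2
        · simp only [hin, if_false]
          exact ((hw α hα).1 i (by omega)).2
  · exact fun α hα => hV' hα.1
  · intro i hi
    simp only [hi.ne, if_false]
  · intro i hi j hj
    exact ((hw α₀ hα₀).1 i hi).1 j hj
  · intro u
    simp only [if_true]
    rw [← hft]
    exact mem_range_self u

/-- the initial segments of a branch, reversed -/
def pre (f : ℕ → Bool) : ℕ → List Bool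
  | 0 => []
  | n + 1 => f n :: pre f n

theorem pre_length (f : ℕ → Bool) (n : ℕ) : (pre f n).length = n := by
  induction n with
  | zero => rfl
  | succ n ih => simp [pre, ih]

theorem pre_congr {f f' : ℕ → Bool} {n : ℕ} (h : ∀ i < n, f i = f' i) : pre f n = pre f' n := by
  induction n with
  | zero => rfl
  | succ n ih =>
    simp only [pre]
    rw [ih fun i hi => h i (by omega), h n (by omega)]

/-- **The branch lemma.** -/
theorem branch_abstract {K : Set X} (E : Ordinal.{0} → X → X → Prop)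
    (hsymm : ∀ γ x y, E γ x y → E γ y x) (htrans : ∀ γ x y z, E γ x y → E γ y z → E γ x z)
    (hanti : ∀ β γ x y, β ≤ γ → E γ x y → E β x y)
    (han : ∀ γ < om1, ∀ y, MeasureTheory.AnalyticSet {x | x ∈ K ∧ E γ x y})
    (hct : ∀ γ < om1, ∃ r : ℕ → X, ∀ x ∈ K, ∃ m, E γ x (r m))
    (x : Λ → X) (hx : ∀ α, x α ∈ K) (U : Set Λ) (hU : ¬ U.Countable) :
    ∃ V ⊆ U, ¬ V.Countable ∧ ∀ γ < om1, ∃ y, {α ∈ V | ¬ E γ (x α) y}.Countable := by
  classical
  by_contra hcon
  push Not at hcon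
  -- splitting
  have hsplit : ∀ V ⊆ U, ¬ V.Countable → ∃ γ < om1, ∃ r : Bool → X, ¬ E γ (r false) (r true) ∧
      ∀ b, ¬ {α ∈ V | E γ (x α) (r b)}.Countable := by
    intro V hVU hV
    obtain ⟨γ, hγ, h1⟩ := hcon V hVU hV
    obtain ⟨r, hr⟩ := hct γ hγ
    choose m hm using fun α => hr (x α) (hx α)
    obtain ⟨k, hk⟩ := exists_large_fiber hV m
    have hk' : ¬ {α ∈ V | E γ (x α) (r k)}.Countable := by
      intro h
      apply hk
      refine h.mono ?_
      rintro α ⟨hα, rfl⟩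
      exact ⟨hα, hm α⟩
    have h2 := h1 (r k)
    obtain ⟨l, hl⟩ := exists_large_fiber h2 m
    have hl' : ¬ {α ∈ V | E γ (x α) (r l)}.Countable := by
      intro h
      apply hl
      refine h.mono ?_
      rintro α ⟨hα, rfl⟩
      exact ⟨hα.1, hm α⟩
    obtain ⟨α, ⟨hα1, hα2⟩, hα3⟩ := nonempty_of_large hl
    refine ⟨γ, hγ, fun b => if b then r l else r k, ?_, ?_⟩
    · simp only [Bool.false_eq_true, if_false, if_true]
      intro h
      apply hα2
      have h3 := hm α
      rw [hα3] at h3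
      exact htrans _ _ _ _ h3 (hsymm _ _ _ h)
    · rintro (_ | _)
      · simpa using hk'
      · simpa using hl'
  -- the children of a node
  have hch : ∀ (n : ℕ) (nd : Nd Λ X), ∃ (γ : Ordinal.{0}) (r : Bool → X) (c : Bool → Nd Λ X),
      Inv x U n nd → γ < om1 ∧ ¬ E γ (r false) (r true) ∧ ∀ b, Inv x U (n + 1) (c b) ∧
        (c b).V ⊆ nd.V ∧ (∀ i < n, (c b).g i = nd.g i) ∧
        (∀ i < n, ∀ j < n, (c b).z i j = nd.z i j) ∧
        ∀ w, (c b).g n w ∈ K ∧ E γ ((c b).g n w) (r b) := by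
    intro n nd
    by_cases h : Inv x U n nd
    · obtain ⟨γ, hγ, r, hr, hb⟩ := hsplit nd.V h.1 h.2.1
      have h1 : ∀ b, ∃ c : Nd Λ X, Inv x U (n + 1) c ∧ c.V ⊆ nd.V ∧ (∀ i < n, c.g i = nd.g i) ∧
          (∀ i < n, ∀ j < n, c.z i j = nd.z i j) ∧
          ∀ w, c.g n w ∈ {y | y ∈ K ∧ E γ y (r b)} := by
        intro b
        exact nd_step h (V' := {α ∈ nd.V | E γ (x α) (r b)}) (fun α hα => hα.1) (hb b)
          (han γ hγ (r b)) (fun α hα => ⟨hx α, hα.2⟩)
      choose c hc using h1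
      exact ⟨γ, r, c, fun _ => ⟨hγ, hr, hc⟩⟩
    · exact ⟨0, fun _ => x (nonempty_of_large hU).some, fun _ => nd, fun h' => absurd h' h⟩
  choose lev r ch hch using hch
  let root : Nd Λ X := ⟨U, fun _ _ => x (nonempty_of_large hU).some, fun _ _ => 0⟩
  let NL : List Bool → Nd Λ X := fun l =>
    l.rec root (fun b l nd => ch l.length nd b)
  have hNLc : ∀ b l, NL (b :: l) = ch l.length (NL l) b := fun b l => rfl
  have hroot : Inv x U 0 root := ⟨Subset.rfl, hU, fun i hi => absurd hi (Nat.not_lt_zero i)⟩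
  have hNL : ∀ l : List Bool, Inv x U l.length (NL l) := by
    intro l
    induction l with
    | nil => exact hroot
    | cons b l ih =>
      rw [hNLc]
      exact ((hch l.length (NL l) ih).2.2 b).1
  -- the bound of the levels
  obtain ⟨γs, hγs, hbd⟩ := exists_bound (f := fun l : List Bool => lev l.length (NL l))
    (fun l => (hch l.length (NL l) (hNL l)).1)
  -- the nodes along a branch
  let N : (ℕ → Bool) → ℕ → Nd Λ X := fun f n => NL (pre f n)
  have hN : ∀ f n, Inv x U n (N f n) := by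
    intro f n
    have := hNL (pre f n)
    rwa [pre_length] at this
  have hNs : ∀ f n, N f (n + 1) = ch n (N f n) (f n) := by
    intro f n
    show NL (f n :: pre f n) = _
    rw [hNLc, pre_length]
  have hNp := fun f n => (hch n (N f n) (hN f n)).2.2 (f n)
  have hg : ∀ f i n, i < n → (N f n).g i = (N f (i + 1)).g i := by
    intro f i n hin
    induction n with
    | zero => omega
    | succ n ih =>
      rcases Nat.lt_succ_iff_lt_or_eq.mp hin with h | h
      · rw [hNs, (hNp f n).2.2.1 i h, ih h]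
      · rw [h]
  have hz : ∀ f i j n, i < n → j < n → (N f n).z i j = (N f (max i j + 1)).z i j := by
    intro f i j n hin hjn
    induction n with
    | zero => omega
    | succ n ih =>
      by_cases h : i < n ∧ j < n
      · rw [hNs, (hNp f n).2.2.2.1 i h.1 j h.2, ih h.1 h.2]
      · have : n = max i j := by omega
        rw [this]
  let G : (ℕ → Bool) → ℕ → (ℕ → ℕ) → X := fun f i => (N f (i + 1)).g i
  let Z : (ℕ → Bool) → ℕ → ℕ → ℕ := fun f i j => (N f (max i j + 1)).z i j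
  have hGc : ∀ f i, Continuous (G f i) := fun f i => ((hN f (i + 1)).2.2 i (Nat.lt_succ_self i)).1
  -- the points of the family along the branch
  choose α hα using fun f n => nonempty_of_large (hN f n).2.1
  have hlim : ∀ f i, Tendsto (fun n => x (α f n)) atTop (𝓝 (G f i (Z f i))) := by
    intro f i
    have h1 : ∀ n, ∃ w : ℕ → ℕ, i < n → (∀ j < n, w j = Z f i j) ∧ G f i w = x (α f n) := by
      intro n
      by_cases hi : i < n
      · obtain ⟨w, hw1, hw2⟩ := ((hN f n).2.2 i hi).2 _ (hα f n)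
        refine ⟨w, fun _ => ⟨fun j hj => ?_, ?_⟩⟩
        · rw [hw1 j hj, hz f i j n hi hj]
        · rw [← hw2, hg f i n hi]
      · exact ⟨fun _ => 0, fun h => absurd h hi⟩
    choose w hw using h1
    have h2 : Tendsto w atTop (𝓝 (Z f i)) := by
      rw [tendsto_pi_nhds]
      intro j
      refine tendsto_const_nhds.congr' ?_
      filter_upwards [eventually_gt_atTop (max i j)] with n hn
      exact ((hw n (by omega)).1 j (by omega)).symm
    have h3 := ((hGc f i).tendsto (Z f i)).comp h2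
    refine h3.congr' ?_
    filter_upwards [eventually_gt_atTop i] with n hn
    exact (hw n hn).2
  have hGK : ∀ f i w, G f i w ∈ K ∧ E (lev i (N f i)) (G f i w) (r i (N f i) (f i)) := by
    intro f i w
    have := (hNp f i).2.2.2.2 w
    rw [← hNs] at this
    exact this
  let Y : (ℕ → Bool) → X := fun f => G f 0 (Z f 0)
  have hY : ∀ f i, Y f = G f i (Z f i) := fun f i => tendsto_nhds_unique (hlim f 0) (hlim f i)
  -- the contradiction
  obtain ⟨rs, hrs⟩ := hct γs hγs
  choose m hm using fun f => hrs (Y f) ((hY f 0) ▸ (hGK f 0 _).1)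
  have hinj : Function.Injective m := by
    intro f f' hff
    by_contra hne
    have hex : ∃ i, f i ≠ f' i := by
      by_contra h
      push Not at h
      exact hne (funext h)
    let i₀ := Nat.find hex
    have h1 : f i₀ ≠ f' i₀ := Nat.find_spec hex
    have h2 : ∀ j < i₀, f j = f' j := by
      intro j hj
      by_contra h
      exact Nat.find_min hex hj h
    have h3 : N f i₀ = N f' i₀ := by
      show NL (pre f i₀) = NL (pre f' i₀)
      rw [pre_congr h2]
    have h4 : E γs (Y f) (Y f') := by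
      refine htrans _ _ _ _ (hm f) ?_
      rw [hff]
      exact hsymm _ _ _ (hm f')
    have hlev : lev i₀ (N f i₀) ≤ γs := by
      have := hbd (pre f i₀)
      rwa [pre_length] at this
    have h5 := hanti _ _ _ _ hlev h4
    have h6 := (hGK f i₀ (Z f i₀)).2
    have h7 := (hGK f' i₀ (Z f' i₀)).2
    rw [← hY] at h6 h7
    rw [← h3] at h7
    have h8 : E (lev i₀ (N f i₀)) (r i₀ (N f i₀) (f i₀)) (r i₀ (N f i₀) (f' i₀)) :=
      htrans _ _ _ _ (hsymm _ _ _ h6) (htrans _ _ _ _ h5 h7)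
    have h9 := (hch i₀ (N f i₀) (hN f i₀)).2.1
    rcases hb : f i₀ with _ | _ <;> rcases hb' : f' i₀ with _ | _
    · exact h1 (hb.trans hb'.symm)
    · rw [hb, hb'] at h8; exact h9 h8
    · rw [hb, hb'] at h8; exact h9 (hsymm _ _ _ h8)
    · exact h1 (hb.trans hb'.symm)
  refine Function.cantor_injective (fun s : Set ℕ => m (fun n => decide (n ∈ s))) ?_
  intro s s' hs
  ext n
  have := congrFun (hinj hs) n
  simpa using this

end

end Pool.Agent.Helper79.VC

end

/-! ### formerly `Pool.Agent.Helper79.VC.Types` -/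

section

/-!
# Full types over finite sets: extension and amalgamation
-/

set_option autoImplicit false
set_option linter.unusedSectionVars false
set_option linter.unusedVariables false

namespace Pool.Agent.Helper79.VC

open Set Pool.Agent.Helper5.DU Pool.Agent.Helper6.Str

variable {L : FirstOrder.Language.{0, 0}} {Ω : Type}

/-- a structure on the natural numbers together with an assignment of the variables `Ω` -/
abbrev PM (L : FirstOrder.Language.{0, 0}) (Ω : Type) : Type := L.Structure ℕ × (Ω → ℕ)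

/-- the pairs of values on `F` -/
def prs (F : Set Ω) (x y : PM L Ω) : Set (ℕ × ℕ) := (fun a => (x.2 a, y.2 a)) '' F

/-- equality of the types of level `γ` over `F` -/
def EqT (F : Set Ω) (γ : Ordinal.{0}) (x y : PM L Ω) : Prop :=
  BFR x.1 y.1 univ univ γ (prs F x y)

theorem EqT.refl (F : Set Ω) (γ : Ordinal.{0}) (x : PM L Ω) : EqT F γ x x := by
  refine BFR.refl _ _ _ ?_
  rintro _ ⟨a, _, rfl⟩
  exact ⟨mem_univ _, rfl⟩

theorem EqT.symm {F : Set Ω} {γ : Ordinal.{0}} {x y : PM L Ω} (h : EqT F γ x y) :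
    EqT F γ y x := by
  refine BFR.symm h ?_
  rintro _ ⟨a, ha, rfl⟩
  exact ⟨a, ha, rfl⟩

theorem EqT.trans {F : Set Ω} {γ : Ordinal.{0}} {x y z : PM L Ω} (h : EqT F γ x y)
    (h' : EqT F γ y z) : EqT F γ x z := by
  refine BFR.trans h h' ?_
  rintro _ ⟨a, ha, rfl⟩
  exact ⟨y.2 a, ⟨a, ha, rfl⟩, ⟨a, ha, rfl⟩⟩

theorem EqT.mono {F F' : Set Ω} (hF : F ⊆ F') {γ β : Ordinal.{0}} (hβ : β ≤ γ) {x y : PM L Ω}
    (h : EqT F' γ x y) : EqT F β x y :=
  BFR.anti (image_mono hF) (BFR.mono hβ h)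

/-- the assignments agree on `F` -/
theorem EqT.of_eqOn {F : Set Ω} {γ : Ordinal.{0}} {x y : PM L Ω} (h1 : x.1 = y.1)
    (h2 : ∀ a ∈ F, x.2 a = y.2 a) : EqT F γ x y := by
  unfold EqT
  rw [h1]
  refine BFR.refl _ _ _ ?_
  rintro _ ⟨a, ha, rfl⟩
  exact ⟨mem_univ _, (h2 a ha).symm⟩

variable [∀ n, IsEmpty (L.Functions n)] [∀ n, Countable (L.Relations n)]

/-- finite sets of variables have countably many classes -/
theorem scat_EqT {K : Set (L.Structure ℕ)} (hS : Scat K) (F : Finset Ω) {γ : Ordinal.{0}}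
    (hγ : γ < om1) : ∃ r : ℕ → PM L Ω, ∀ x : PM L Ω, x.1 ∈ K → ∃ m, (r m).1 ∈ K ∧
      EqT (F : Set Ω) γ x (r m) := by
  classical
  obtain ⟨ρ, hρ⟩ := hS γ hγ F.card
  let e := F.equivFin
  refine ⟨fun m => ((ρ m).1, fun a => if h : a ∈ F then (ρ m).2 (e ⟨a, h⟩) else 0),
    fun x hx => ?_⟩
  obtain ⟨m, hm, h⟩ := hρ x.1 hx (fun i => x.2 (e.symm i))
  refine ⟨m, hm, BFR.anti ?_ h⟩
  rintro _ ⟨a, ha, rfl⟩
  have ha' : a ∈ F := ha
  refine ⟨e ⟨a, ha'⟩, ?_⟩
  simp [ha']

/-- The branch lemma for structures with assignments. -/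
theorem branch_types {K : Set (L.Structure ℕ)}
    (hK : MeasurableSet {c : Code L | toStr c ∈ K}) (hS : Scat K) (F : Finset Ω) {Λ : Type}
    (x : Λ → PM L Ω) (hx : ∀ α, (x α).1 ∈ K) (U : Set Λ) (hU : ¬ U.Countable) :
    ∃ V ⊆ U, ¬ V.Countable ∧ ∀ γ < om1, ∃ y : PM L Ω, y.1 ∈ K ∧
      {α ∈ V | ¬ EqT (F : Set Ω) γ (x α) y}.Countable := by
  classical
  obtain ⟨t, ht⟩ := exists_large_fiber hU (fun α => (fun a : F => (x α).2 a))
  set V₀ := {α ∈ U | (fun a : F => (x α).2 a) = t} with hV₀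
  let h₀ : Ω → ℕ := fun a => if h : a ∈ F then t ⟨a, h⟩ else 0
  have hval : ∀ α ∈ V₀, ∀ a ∈ F, (x α).2 a = h₀ a := by
    intro α hα a ha
    have := congrFun hα.2 ⟨a, ha⟩
    simp only at this
    rw [this]
    simp [h₀, ha]
  let E : Ordinal.{0} → Code L → Code L → Prop := fun γ c d =>
    EqT (F : Set Ω) γ (toStr c, h₀) (toStr d, h₀)
  have hE : ∀ α ∈ V₀, ∀ γ (d : Code L), E γ (ofStr (x α).1) d ↔
      EqT (F : Set Ω) γ (x α) (toStr d, h₀) := by
    intro α hα γ d
    have h1 : EqT (F : Set Ω) γ (toStr (ofStr (x α).1), h₀) (x α) :=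
      EqT.of_eqOn (toStr_ofStr _) fun a ha => (hval α hα a ha).symm
    exact ⟨fun h => h1.symm.trans h, fun h => h1.trans h⟩
  obtain ⟨V, hV, hVc, hVb⟩ := branch_abstract (X := Code L) (K := {c : Code L | toStr c ∈ K}) E
    (fun γ c d h => EqT.symm h) (fun γ c d e h h' => EqT.trans h h')
    (fun β γ c d hβ h => EqT.mono Subset.rfl hβ h)
    (by
      intro γ hγ d
      have h1 := measurableSet_BFR (toStr d) hγ (prs (L := L) (F : Set Ω) (toStr d, h₀) (toStr d, h₀))
      have : {c : Code L | c ∈ {c : Code L | toStr c ∈ K} ∧ E γ c d} =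
          {c : Code L | toStr c ∈ K} ∩ {c : Code L | BFR (toStr c) (toStr d) univ univ γ
            (prs (L := L) (F : Set Ω) (toStr d, h₀) (toStr d, h₀))} := rfl
      rw [this]
      exact (hK.inter h1).analyticSet)
    (by
      intro γ hγ
      obtain ⟨r, hr⟩ := scat_EqT hS F hγ
      have hch : ∀ m, ∃ c : Code L, (∃ c' : Code L, toStr c' ∈ K ∧
          EqT (F : Set Ω) γ (toStr c', h₀) (r m)) →
          toStr c ∈ K ∧ EqT (F : Set Ω) γ (toStr c, h₀) (r m) := by
        intro m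
        by_cases h : ∃ c' : Code L, toStr c' ∈ K ∧ EqT (F : Set Ω) γ (toStr c', h₀) (r m)
        · obtain ⟨c, hc⟩ := h
          exact ⟨c, fun _ => hc⟩
        · exact ⟨fun _ => false, fun h' => absurd h' h⟩
      choose c hc using hch
      refine ⟨c, fun d hd => ?_⟩
      obtain ⟨m, -, hm⟩ := hr (toStr d, h₀) hd
      exact ⟨m, hm.trans (hc m ⟨d, hd, hm⟩).2.symm⟩)
    (fun α => ofStr (x α).1) (fun α => by
      show toStr (ofStr (x α).1) ∈ K
      rw [toStr_ofStr]; exact hx α) V₀ ht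
  refine ⟨V, fun α hα => (hV hα).1, hVc, fun γ hγ => ?_⟩
  obtain ⟨d, hd⟩ := hVb γ hγ
  obtain ⟨α₀, hα₀, hα₀'⟩ := nonempty_of_large (not_countable_diff hVc hd)
  refine ⟨x α₀, hx α₀, hd.mono ?_⟩
  rintro α ⟨hα, h⟩
  refine ⟨hα, fun h' => h ?_⟩
  have h2 : E γ (ofStr (x α₀).1) d := by
    by_contra h3
    exact hα₀' ⟨hα₀, h3⟩
  exact ((hE α (hV hα) γ d).mp h').trans ((hE α₀ (hV hα₀) γ d).mp h2).symm

/-! ### full types -/

/-- `C` is a class of level `γ` over `F` -/
def IsCls (K : Set (L.Structure ℕ)) (F : Set Ω) (γ : Ordinal.{0}) (C : Set (PM L Ω)) : Prop :=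
  ∃ x ∈ C, x.1 ∈ K ∧ ∀ y, y ∈ C ↔ y.1 ∈ K ∧ EqT F γ y x

section cls

variable {K : Set (L.Structure ℕ)} {F F' : Set Ω} {γ β : Ordinal.{0}} {C C' : Set (PM L Ω)}

theorem IsCls.nonempty (h : IsCls K F γ C) : ∃ x ∈ C, x.1 ∈ K := by
  obtain ⟨x, hx, hxK, _⟩ := h
  exact ⟨x, hx, hxK⟩

theorem IsCls.memK (h : IsCls K F γ C) {x : PM L Ω} (hx : x ∈ C) : x.1 ∈ K := by
  obtain ⟨z, _, _, h⟩ := h
  exact ((h x).mp hx).1

theorem IsCls.eqT (h : IsCls K F γ C) {x y : PM L Ω} (hx : x ∈ C) (hy : y ∈ C) :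
    EqT F γ x y := by
  obtain ⟨z, _, _, h⟩ := h
  exact ((h x).mp hx).2.trans ((h y).mp hy).2.symm

theorem IsCls.mem (h : IsCls K F γ C) {x y : PM L Ω} (hx : x ∈ C) (hy : y.1 ∈ K)
    (hyx : EqT F γ y x) : y ∈ C := by
  obtain ⟨z, _, _, h⟩ := h
  exact (h y).mpr ⟨hy, hyx.trans ((h x).mp hx).2⟩

/-- a class meeting a coarser class is contained in it -/
theorem IsCls.subset (h : IsCls K F γ C) (h' : IsCls K F' β C') (hF : F' ⊆ F) (hβ : β ≤ γ)
    {x : PM L Ω} (hx : x ∈ C) (hx' : x ∈ C') : C ⊆ C' := by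
  intro y hy
  exact h'.mem hx' (h.memK hy) ((h.eqT hy hx).mono hF hβ)

theorem IsCls.eq (h : IsCls K F γ C) (h' : IsCls K F γ C') {x : PM L Ω} (hx : x ∈ C)
    (hx' : x ∈ C') : C = C' :=
  (h.subset h' Subset.rfl le_rfl hx hx').antisymm (h'.subset h Subset.rfl le_rfl hx' hx)

theorem isCls_of {x : PM L Ω} (hx : x.1 ∈ K) :
    IsCls K F γ {y | y.1 ∈ K ∧ EqT F γ y x} :=
  ⟨x, ⟨hx, EqT.refl _ _ _⟩, hx, fun y => Iff.rfl⟩

end cls

/-- full types over `G` -/
structure IsFT (K : Set (L.Structure ℕ)) (G : Set Ω) (b : Ordinal.{0} → Set (PM L Ω)) : Prop where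
  cls : ∀ γ < om1, IsCls K G γ (b γ)
  anti : ∀ β γ, β ≤ γ → γ < om1 → b γ ⊆ b β

theorem exists_ft {K : Set (L.Structure ℕ)}
    (hK : MeasurableSet {c : Code L | toStr c ∈ K}) (hS : Scat K) (G : Finset Ω) {Λ : Type}
    (x : Λ → PM L Ω) (hx : ∀ α, (x α).1 ∈ K) (U : Set Λ) (hU : ¬ U.Countable) :
    ∃ V ⊆ U, ¬ V.Countable ∧ ∃ b, IsFT K (G : Set Ω) b ∧ ∀ γ < om1,
      {α ∈ V | x α ∉ b γ}.Countable := by
  obtain ⟨V, hV, hVc, hVb⟩ := branch_types hK hS G x hx U hU
  have key : ∀ γ < om1, ∃ α₀ ∈ V, {α ∈ V | ¬ EqT (G : Set Ω) γ (x α) (x α₀)}.Countable := by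
    intro γ hγ
    obtain ⟨y, hy, hd⟩ := hVb γ hγ
    obtain ⟨α₀, hα₀, hα₀'⟩ := nonempty_of_large (not_countable_diff hVc hd)
    refine ⟨α₀, hα₀, hd.mono ?_⟩
    rintro α ⟨hα, h⟩
    refine ⟨hα, fun h' => h (h'.trans (EqT.symm ?_))⟩
    by_contra h3
    exact hα₀' ⟨hα₀, h3⟩
  let b : Ordinal.{0} → Set (PM L Ω) := fun γ =>
    {z | z.1 ∈ K ∧ {α ∈ V | ¬ EqT (G : Set Ω) γ (x α) z}.Countable}
  have hb : ∀ γ z w, z ∈ b γ → w ∈ b γ → EqT (G : Set Ω) γ z w := by
    intro γ z w hz hw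
    obtain ⟨α, hα, hα'⟩ := nonempty_of_large (not_countable_diff hVc (hz.2.union hw.2))
    have h1 : EqT (G : Set Ω) γ (x α) z := by
      by_contra h3
      exact hα' (Or.inl ⟨hα, h3⟩)
    have h2 : EqT (G : Set Ω) γ (x α) w := by
      by_contra h3
      exact hα' (Or.inr ⟨hα, h3⟩)
    exact h1.symm.trans h2
  refine ⟨V, hV, hVc, b, ⟨fun γ hγ => ?_, fun β γ hβ hγ z hz => ?_⟩, fun γ hγ => ?_⟩
  · obtain ⟨α₀, hα₀, h⟩ := key γ hγ
    have hmem : x α₀ ∈ b γ := ⟨hx α₀, h⟩
    refine ⟨x α₀, hmem, hx α₀, fun y => ⟨fun hy => ⟨hy.1, hb γ _ _ hy hmem⟩, fun hy => ?_⟩⟩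
    refine ⟨hy.1, h.mono ?_⟩
    rintro α ⟨hα, h1⟩
    exact ⟨hα, fun h2 => h1 (h2.trans hy.2.symm)⟩
  · refine ⟨hz.1, hz.2.mono ?_⟩
    rintro α ⟨hα, h1⟩
    exact ⟨hα, fun h2 => h1 (h2.mono Subset.rfl hβ)⟩
  · obtain ⟨α₀, hα₀, h⟩ := key γ hγ
    refine h.mono ?_
    rintro α ⟨hα, h1⟩
    refine ⟨hα, fun h2 => h1 ⟨hx α, ?_⟩⟩
    refine h.mono ?_
    rintro α' ⟨hα', h3⟩
    exact ⟨hα', fun h4 => h3 (h4.trans h2.symm)⟩

/-- an element of an uncountable set of indices beyond a given level and outside a countable set -/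
theorem exists_beyond {V : Set Om} (hV : ¬ V.Countable) {γ : Ordinal.{0}} (hγ : γ < om1)
    {A : Set Om} (hA : A.Countable) : ∃ w ∈ V, γ ≤ od w ∧ w ∉ A := by
  obtain ⟨w, hw, hw'⟩ := nonempty_of_large (not_countable_diff hV ((countable_od_lt hγ).union hA))
  refine ⟨w, hw, ?_, fun h => hw' (Or.inr h)⟩
  by_contra h
  exact hw' (Or.inl (not_le.mp h))

variable [DecidableEq Ω]

/-- **Amalgamation.** -/
theorem amalg {K : Set (L.Structure ℕ)}
    (hK : MeasurableSet {c : Code L | toStr c ∈ K}) (hS : Scat K) (F : Finset Ω) {c a : Ω}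
    (hca : c ≠ a) (hcF : c ∉ F) {b d : Ordinal.{0} → Set (PM L Ω)}
    (hb : IsFT K (insert c F : Finset Ω) b) (hd : IsFT K (insert a F : Finset Ω) d)
    (hC : ∀ γ < om1, ∃ C, IsCls K (F : Set Ω) γ C ∧ b γ ⊆ C ∧ d γ ⊆ C) :
    ∃ b', IsFT K (insert c (insert a F) : Finset Ω) b' ∧
      ∀ γ < om1, b' γ ⊆ b γ ∧ b' γ ⊆ d γ := by
  by_cases haF : a ∈ F
  · rw [Finset.insert_eq_of_mem haF] at hd ⊢
    refine ⟨b, hb, fun γ hγ => ⟨Subset.rfl, ?_⟩⟩
    obtain ⟨C, hC1, hC2, hC3⟩ := hC γ hγ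
    obtain ⟨x, hx, _⟩ := (hd.cls γ hγ).nonempty
    have : d γ = C := (hd.cls γ hγ).eq hC1 hx (hC3 hx)
    rw [this]
    exact hC2
  · have hy : ∀ w : Om, ∃ y : PM L Ω, y ∈ b (od w) ∧ y ∈ d (od w) := by
      intro w
      have hw1 : od w + 1 < om1 := add_one_lt_om1 (od_lt w)
      have hlt : od w < od w + 1 := Order.lt_add_one_iff.mpr le_rfl
      obtain ⟨C, hC1, hC2, hC3⟩ := hC _ hw1
      obtain ⟨u, hu, huK⟩ := (hb.cls _ hw1).nonempty
      obtain ⟨v, hv, hvK⟩ := (hd.cls _ hw1).nonempty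
      have h1 : EqT (F : Set Ω) (od w + 1) u v := hC1.eqT (hC2 hu) (hC3 hv)
      obtain ⟨s, -, hs⟩ := BFR.back h1 hlt (mem_univ (v.2 a))
      have hyK : ((u.1, Function.update u.2 a s) : PM L Ω).1 ∈ K := huK
      refine ⟨(u.1, Function.update u.2 a s), ?_, ?_⟩
      · refine (hb.cls _ (od_lt w)).mem (hb.anti _ _ hlt.le hw1 hu) hyK (EqT.of_eqOn rfl ?_)
        intro e he
        have : e ≠ a := by
          rintro rfl
          rcases Finset.mem_insert.mp he with h | h
          · exact hca h.symm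
          · exact haF h
        simp [this]
      · refine (hd.cls _ (od_lt w)).mem (hd.anti _ _ hlt.le hw1 hv) hyK ?_
        refine BFR.anti ?_ hs
        rintro _ ⟨e, he, rfl⟩
        rcases Finset.mem_insert.mp he with rfl | h
        · left
          simp
        · right
          have : e ≠ a := by
            rintro rfl
            exact haF h
          refine ⟨e, h, ?_⟩
          simp [this]
    choose y hyb hyd using hy
    obtain ⟨V, -, hVc, b', hb', hbV⟩ := exists_ft hK hS (insert c (insert a F)) y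
      (fun w => (hb.cls _ (od_lt w)).memK (hyb w)) univ not_countable_om
    refine ⟨b', hb', fun γ hγ => ?_⟩
    obtain ⟨w, hwV, hwγ, hw⟩ := exists_beyond hVc hγ (hbV γ hγ)
    have hyw : y w ∈ b' γ := by
      by_contra h
      exact hw ⟨hwV, h⟩
    constructor
    · refine (hb'.cls γ hγ).subset (hb.cls γ hγ) ?_ le_rfl hyw (hb.anti _ _ hwγ (od_lt w) (hyb w))
      intro e he
      have : e ∈ insert c F := he
      rcases Finset.mem_insert.mp this with rfl | h
      · exact Finset.mem_insert_self _ _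
      · exact Finset.mem_insert_of_mem (Finset.mem_insert_of_mem h)
    · refine (hb'.cls γ hγ).subset (hd.cls γ hγ) ?_ le_rfl hyw (hd.anti _ _ hwγ (od_lt w) (hyd w))
      intro e he
      exact Finset.mem_insert_of_mem he

/-- **Realisation of a given type by a new variable.** -/
theorem ext_one {K : Set (L.Structure ℕ)}
    (hK : MeasurableSet {c : Code L | toStr c ∈ K}) (hS : Scat K) (F : Finset Ω) {c : Ω}
    (hcF : c ∉ F) {b₀ : Ordinal.{0} → Set (PM L Ω)} (hb₀ : IsFT K (F : Set Ω) b₀)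
    {β : Ordinal.{0}} (hβ : β < om1) {x : PM L Ω} (hx : x ∈ b₀ (β + 1)) (m : ℕ) :
    ∃ b, IsFT K (insert c F : Finset Ω) b ∧ (∀ γ < om1, b γ ⊆ b₀ γ) ∧
      ((x.1, Function.update x.2 c m) : PM L Ω) ∈ b β := by
  have hxK : x.1 ∈ K := (hb₀.cls _ (add_one_lt_om1 hβ)).memK hx
  have hne : ∀ e ∈ F, e ≠ c := fun e he h => hcF (h ▸ he)
  have hy : ∀ w : Om, ∃ y : PM L Ω, y ∈ b₀ (od w) ∧
      EqT (insert c F : Finset Ω) β y (x.1, Function.update x.2 c m) := by
    intro w
    let α := max (od w) β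
    have hα : α < om1 := max_lt (od_lt w) hβ
    have hα1 : α + 1 < om1 := add_one_lt_om1 hα
    obtain ⟨u, hu, huK⟩ := (hb₀.cls _ hα1).nonempty
    have hlt : β < β + 1 := Order.lt_add_one_iff.mpr le_rfl
    have hle : β + 1 ≤ α + 1 := by gcongr; exact le_max_right _ _
    have h1 : EqT (F : Set Ω) (β + 1) u x :=
      (hb₀.cls _ (add_one_lt_om1 hβ)).eqT (hb₀.anti _ _ hle hα1 hu) hx
    obtain ⟨s, -, hs⟩ := BFR.back h1 hlt (mem_univ m)
    refine ⟨(u.1, Function.update u.2 c s), ?_, ?_⟩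
    · have h2 : od w ≤ α + 1 := (le_max_left _ _).trans (Order.lt_add_one_iff.mpr le_rfl).le
      refine (hb₀.cls _ (od_lt w)).mem (hb₀.anti _ _ h2 hα1 hu) huK (EqT.of_eqOn rfl ?_)
      intro e he
      simp [hne e he]
    · refine BFR.anti ?_ hs
      rintro _ ⟨e, he, rfl⟩
      rcases Finset.mem_insert.mp he with rfl | h
      · left
        simp
      · right
        refine ⟨e, h, ?_⟩
        simp [hne e h]
  choose y hy1 hy2 using hy
  obtain ⟨V, -, hVc, b, hb, hbV⟩ := exists_ft hK hS (insert c F) y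
    (fun w => (hb₀.cls _ (od_lt w)).memK (hy1 w)) univ not_countable_om
  refine ⟨b, hb, fun γ hγ => ?_, ?_⟩
  · obtain ⟨w, hwV, hwγ, hw⟩ := exists_beyond hVc hγ (hbV γ hγ)
    have hyw : y w ∈ b γ := by
      by_contra h
      exact hw ⟨hwV, h⟩
    refine (hb.cls γ hγ).subset (hb₀.cls γ hγ) ?_ le_rfl hyw
      (hb₀.anti _ _ hwγ (od_lt w) (hy1 w))
    intro e he
    exact Finset.mem_insert_of_mem he
  · obtain ⟨w, hwV, -, hw⟩ := exists_beyond hVc hβ (hbV β hβ)
    have hyw : y w ∈ b β := by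
      by_contra h
      exact hw ⟨hwV, h⟩
    exact (hb.cls β hβ).mem hyw hxK (hy2 w).symm

end Pool.Agent.Helper79.VC

end

/-! ### formerly `Pool.Agent.Helper79.VC.Ext` -/

section

/-!
# Extending coherent assignments of types by one variable
-/

set_option autoImplicit false
set_option linter.unusedSectionVars false
set_option linter.unusedVariables false

namespace Pool.Agent.Helper79.VC

open Set Pool.Agent.Helper5.DU Pool.Agent.Helper6.Str

variable {L : FirstOrder.Language.{0, 0}} {Ω : Type}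

/-- a coherent assignment of types to the finite subsets of `A` -/
structure IsAsg (K : Set (L.Structure ℕ)) (A : Set Ω) (T : Finset Ω → Ordinal.{0} → Set (PM L Ω)) :
    Prop where
  cls : ∀ F : Finset Ω, (F : Set Ω) ⊆ A → ∀ γ < om1, IsCls K (F : Set Ω) γ (T F γ)
  anti : ∀ F F' : Finset Ω, F ⊆ F' → (F' : Set Ω) ⊆ A → ∀ β γ, β ≤ γ → γ < om1 →
    T F' γ ⊆ T F β

theorem IsAsg.ft {K : Set (L.Structure ℕ)} {A : Set Ω}
    {T : Finset Ω → Ordinal.{0} → Set (PM L Ω)} (h : IsAsg K A T) {F : Finset Ω}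
    (hF : (F : Set Ω) ⊆ A) : IsFT K (F : Set Ω) (T F) :=
  ⟨h.cls F hF, fun β γ hβ hγ => h.anti F F (Finset.Subset.refl F) hF β γ hβ hγ⟩

variable [∀ n, IsEmpty (L.Functions n)] [∀ n, Countable (L.Relations n)] [DecidableEq Ω]

theorem extend_asg {K : Set (L.Structure ℕ)}
    (hK : MeasurableSet {c : Code L | toStr c ∈ K}) (hS : Scat K) {A : Set Ω} (hA : A.Countable)
    {T : Finset Ω → Ordinal.{0} → Set (PM L Ω)} (hT : IsAsg K A T) {c : Ω} (hc : c ∉ A)
    {F₀ : Finset Ω} (hF₀ : (F₀ : Set Ω) ⊆ A) {b₀ : Ordinal.{0} → Set (PM L Ω)}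
    (hb₀ : IsFT K (insert c F₀ : Finset Ω) b₀) (hbT : ∀ γ < om1, b₀ γ ⊆ T F₀ γ) :
    ∃ T' : Finset Ω → Ordinal.{0} → Set (PM L Ω), IsAsg K (insert c A) T' ∧
      (∀ F : Finset Ω, (F : Set Ω) ⊆ A → ∀ γ < om1, T' F γ = T F γ) ∧
      ∀ γ < om1, T' (insert c F₀) γ = b₀ γ := by
  obtain ⟨a, ha⟩ : ∃ a : ℕ → Ω, ∀ e ∈ A, ∃ k, a k = e := by
    rcases A.eq_empty_or_nonempty with h | h
    · exact ⟨fun _ => c, fun e he => absurd he (by rw [h]; exact notMem_empty e)⟩
    · obtain ⟨a, ha⟩ := hA.exists_eq_range h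
      refine ⟨a, fun e he => ?_⟩
      have : e ∈ range a := ha ▸ he
      exact this
  let P : Finset Ω × (Ordinal.{0} → Set (PM L Ω)) → Prop := fun q =>
    (q.1 : Set Ω) ⊆ A ∧ IsFT K (insert c q.1 : Finset Ω) q.2 ∧ ∀ γ < om1, q.2 γ ⊆ T q.1 γ
  have hstep : ∀ (k : ℕ) (q : {q // P q}), ∃ q' : {q // P q}, q.1.1 ⊆ q'.1.1 ∧
      (a k ∈ A → a k ∈ q'.1.1) ∧ ∀ γ < om1, q'.1.2 γ ⊆ q.1.2 γ := by
    rintro k ⟨⟨F, b⟩, hF, hb, hbF⟩
    by_cases hk : a k ∈ A
    · have hca : c ≠ a k := fun h => hc (h ▸ hk)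
      have hcF : c ∉ F := fun h => hc (hF h)
      have hins : ((insert (a k) F : Finset Ω) : Set Ω) ⊆ A := by
        intro e he
        rcases Finset.mem_insert.mp (Finset.mem_coe.mp he) with rfl | h
        · exact hk
        · exact hF h
      obtain ⟨b', hb', hb'2⟩ := amalg hK hS F hca hcF hb (hT.ft hins) (fun γ hγ =>
        ⟨T F γ, hT.cls F hF γ hγ, hbF γ hγ,
          hT.anti F _ (Finset.subset_insert _ _) hins γ γ le_rfl hγ⟩)
      exact ⟨⟨(insert (a k) F, b'), hins, hb', fun γ hγ => (hb'2 γ hγ).2⟩,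
        Finset.subset_insert _ _, fun _ => Finset.mem_insert_self _ _,
        fun γ hγ => (hb'2 γ hγ).1⟩
    · exact ⟨⟨(F, b), hF, hb, hbF⟩, Finset.Subset.refl _, fun h => absurd h hk,
        fun γ hγ => Subset.rfl⟩
  choose nx hnx1 hnx2 hnx3 using hstep
  let s : ℕ → {q // P q} := fun n => n.rec ⟨(F₀, b₀), hF₀, hb₀, hbT⟩ (fun k q => nx k q)
  have hs : ∀ n, s (n + 1) = nx n (s n) := fun n => rfl
  have hmonoF : ∀ n m, n ≤ m → (s n).1.1 ⊆ (s m).1.1 := by
    intro n m hnm
    induction m, hnm using Nat.le_induction with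
    | base => exact Finset.Subset.refl _
    | succ m _ ih => rw [hs]; exact ih.trans (hnx1 m (s m))
  have hmonob : ∀ n m, n ≤ m → ∀ γ < om1, (s m).1.2 γ ⊆ (s n).1.2 γ := by
    intro n m hnm
    induction m, hnm using Nat.le_induction with
    | base => exact fun γ hγ => Subset.rfl
    | succ m _ ih =>
      intro γ hγ
      rw [hs]
      exact (hnx3 m (s m) γ hγ).trans (ih γ hγ)
  have hcov : ∀ G : Finset Ω, (G : Set Ω) ⊆ insert c A → ∃ k, G ⊆ insert c (s k).1.1 := by
    intro G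
    induction G using Finset.induction_on with
    | empty => exact fun _ => ⟨0, Finset.empty_subset _⟩
    | insert e G he ih =>
      intro hG
      obtain ⟨k, hk⟩ := ih fun x hx => hG (Finset.mem_coe.mpr (Finset.mem_insert_of_mem hx))
      rcases hG (Finset.mem_coe.mpr (Finset.mem_insert_self e G)) with h | h
      · refine ⟨k, ?_⟩
        intro x hx
        rcases Finset.mem_insert.mp hx with rfl | hx
        · rw [h]; exact Finset.mem_insert_self _ _
        · exact hk hx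
      · obtain ⟨j, rfl⟩ := ha e h
        refine ⟨max k (j + 1), ?_⟩
        intro x hx
        rcases Finset.mem_insert.mp hx with rfl | hx
        · refine Finset.mem_insert_of_mem (hmonoF _ _ (le_max_right _ _) ?_)
          rw [hs]
          exact hnx2 j (s j) h
        · rcases Finset.mem_insert.mp (hk hx) with rfl | h'
          · exact Finset.mem_insert_self _ _
          · exact Finset.mem_insert_of_mem (hmonoF _ _ (le_max_left _ _) h')
  let T' : Finset Ω → Ordinal.{0} → Set (PM L Ω) := fun G γ =>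
    {z | z.1 ∈ K ∧ ∃ k, G ⊆ insert c (s k).1.1 ∧ ∃ x ∈ (s k).1.2 γ, EqT (G : Set Ω) γ z x}
  have key : ∀ (G : Finset Ω) (γ : Ordinal.{0}), γ < om1 → ∀ k, G ⊆ insert c (s k).1.1 →
      ∀ x ∈ (s k).1.2 γ, ∀ z, z ∈ T' G γ ↔ z.1 ∈ K ∧ EqT (G : Set Ω) γ z x := by
    intro G γ hγ k hk x hx z
    constructor
    · rintro ⟨hz, k', hk', x', hx', hzx'⟩
      refine ⟨hz, hzx'.trans ?_⟩
      obtain ⟨y, hy, _⟩ := ((s (max k k')).2.2.1.cls γ hγ).nonempty
      have h1 := hmonob k _ (le_max_left _ _) γ hγ hy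
      have h2 := hmonob k' _ (le_max_right _ _) γ hγ hy
      have h3 := ((s k).2.2.1.cls γ hγ).eqT h1 hx
      have h4 := ((s k').2.2.1.cls γ hγ).eqT h2 hx'
      have hG1 : (G : Set Ω) ⊆ (insert c (s k).1.1 : Finset Ω) := fun e he => hk he
      have hG2 : (G : Set Ω) ⊆ (insert c (s k').1.1 : Finset Ω) := fun e he => hk' he
      exact (h4.mono hG2 le_rfl).symm.trans (h3.mono hG1 le_rfl)
    · rintro ⟨hz, h⟩
      exact ⟨hz, k, hk, x, hx, h⟩
  refine ⟨T', ⟨fun G hG γ hγ => ?_, fun G G' hGG hG' β γ hβ hγ z hz => ?_⟩, fun F hF γ hγ => ?_,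
    fun γ hγ => ?_⟩
  · obtain ⟨k, hk⟩ := hcov G hG
    obtain ⟨x, hx, hxK⟩ := ((s k).2.2.1.cls γ hγ).nonempty
    exact ⟨x, (key G γ hγ k hk x hx x).mpr ⟨hxK, EqT.refl _ _ _⟩, hxK, key G γ hγ k hk x hx⟩
  · obtain ⟨hzK, k, hk, x, hx, hzx⟩ := hz
    refine ⟨hzK, k, hGG.trans hk, x, (s k).2.2.1.anti β γ hβ hγ hx, hzx.mono ?_ hβ⟩
    exact fun e he => hGG he
  · obtain ⟨k, hk⟩ := hcov F (hF.trans (subset_insert _ _))
    obtain ⟨x, hx, hxK⟩ := ((s k).2.2.1.cls γ hγ).nonempty
    have hFk : F ⊆ (s k).1.1 := by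
      intro e he
      rcases Finset.mem_insert.mp (hk he) with rfl | h
      · exact absurd (hF he) hc
      · exact h
    have hxT : x ∈ T F γ :=
      hT.anti F _ hFk (s k).2.1 γ γ le_rfl hγ ((s k).2.2.2 γ hγ hx)
    have h1 : IsCls K (F : Set Ω) γ (T' F γ) :=
      ⟨x, (key F γ hγ k hk x hx x).mpr ⟨hxK, EqT.refl _ _ _⟩, hxK, key F γ hγ k hk x hx⟩
    exact h1.eq (hT.cls F hF γ hγ) ((key F γ hγ k hk x hx x).mpr ⟨hxK, EqT.refl _ _ _⟩) hxT
  · obtain ⟨x, hx, hxK⟩ := (hb₀.cls γ hγ).nonempty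
    have hk : insert c F₀ ⊆ insert c (s 0).1.1 := Finset.Subset.refl _
    have hx' : x ∈ (s 0).1.2 γ := hx
    have h1 : IsCls K ((insert c F₀ : Finset Ω) : Set Ω) γ (T' (insert c F₀) γ) :=
      ⟨x, (key _ γ hγ 0 hk x hx' x).mpr ⟨hxK, EqT.refl _ _ _⟩, hxK, key _ γ hγ 0 hk x hx'⟩
    exact h1.eq (hb₀.cls γ hγ) ((key _ γ hγ 0 hk x hx' x).mpr ⟨hxK, EqT.refl _ _ _⟩) hx

/-! ### pairs -/

/-- equality of the types of an assignment together with an element -/
def EqP (F : Set Ω) (β : Ordinal.{0}) (x : PM L Ω) (m : ℕ) (y : PM L Ω) (l : ℕ) : Prop :=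
  BFR x.1 y.1 univ univ β (insert (m, l) (prs F x y))

theorem eqP_iff {F : Finset Ω} {c : Ω} (hc : c ∉ F) {β : Ordinal.{0}} {x y : PM L Ω} {m l : ℕ} :
    EqP (F : Set Ω) β x m y l ↔ EqT ((insert c F : Finset Ω) : Set Ω) β
      (x.1, Function.update x.2 c m) (y.1, Function.update y.2 c l) := by
  have : insert (m, l) (prs (F : Set Ω) x y) = prs ((insert c F : Finset Ω) : Set Ω)
      ((x.1, Function.update x.2 c m) : PM L Ω) (y.1, Function.update y.2 c l) := by
    have hne : ∀ e ∈ F, e ≠ c := fun e he h => hc (h ▸ he)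
    ext p
    constructor
    · rintro (rfl | ⟨e, he, rfl⟩)
      · exact ⟨c, Finset.mem_coe.mpr (Finset.mem_insert_self _ _), by simp⟩
      · have he' : e ∈ F := he
        exact ⟨e, Finset.mem_coe.mpr (Finset.mem_insert_of_mem he'), by simp [hne e he']⟩
    · rintro ⟨e, he, rfl⟩
      rcases Finset.mem_insert.mp (Finset.mem_coe.mp he) with rfl | h
      · left; simp
      · right; exact ⟨e, h, by simp [hne e h]⟩
  unfold EqP EqT
  rw [this]

theorem EqP.trans {F : Set Ω} {β : Ordinal.{0}} {x y z : PM L Ω} {m l k : ℕ}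
    (h : EqP F β x m y l) (h' : EqP F β y l z k) : EqP F β x m z k := by
  refine BFR.trans h h' ?_
  rintro _ (rfl | ⟨a, ha, rfl⟩)
  · exact ⟨l, mem_insert _ _, mem_insert _ _⟩
  · exact ⟨y.2 a, mem_insert_of_mem _ ⟨a, ha, rfl⟩, mem_insert_of_mem _ ⟨a, ha, rfl⟩⟩

theorem EqP.symm {F : Set Ω} {β : Ordinal.{0}} {x y : PM L Ω} {m l : ℕ}
    (h : EqP F β x m y l) : EqP F β y l x m := by
  refine BFR.symm h ?_
  rintro _ (rfl | ⟨a, ha, rfl⟩)
  · exact mem_insert _ _
  · exact mem_insert_of_mem _ ⟨a, ha, rfl⟩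

theorem scat_EqP {K : Set (L.Structure ℕ)} (hS : Scat K) (F : Finset Ω) {γ : Ordinal.{0}}
    (hγ : γ < om1) : ∃ r : ℕ → PM L Ω × ℕ, ∀ (x : PM L Ω) (m : ℕ), x.1 ∈ K → ∃ k,
      EqP (F : Set Ω) γ x m (r k).1 (r k).2 := by
  obtain ⟨ρ, hρ⟩ := hS γ hγ (F.card + 1)
  let e := F.equivFin
  refine ⟨fun k => (((ρ k).1, fun a => if h : a ∈ F then (ρ k).2 (e ⟨a, h⟩).castSucc else 0),
    (ρ k).2 (Fin.last _)), fun x m hx => ?_⟩
  obtain ⟨k, hk, h⟩ := hρ x.1 hx (Fin.snoc (fun i => x.2 (e.symm i)) m)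
  refine ⟨k, BFR.anti ?_ h⟩
  rintro _ (rfl | ⟨a, ha, rfl⟩)
  · exact ⟨Fin.last _, by simp⟩
  · have ha' : a ∈ F := ha
    refine ⟨(e ⟨a, ha'⟩).castSucc, ?_⟩
    simp [ha']

end Pool.Agent.Helper79.VC

end

/-! ### formerly `Pool.Agent.Helper79.VC.Book` -/

section

/-!
# Bookkeeping on the first uncountable ordinal
-/

set_option autoImplicit false
set_option linter.unusedSectionVars false
set_option linter.unusedVariables false

namespace Pool.Agent.Helper79.VC

open Set Cardinal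

theorem infinite_om : Infinite Om := by
  by_contra h
  rw [not_infinite_iff_finite] at h
  exact not_countable_om (Set.toFinite _).countable

theorem mk_om : #Om = ℵ₁ := by
  rw [Cardinal.mk_toType, Ordinal.card_omega]

theorem mk_task : #(Om × (Finset Om × Om × ℕ)) = #Om := by
  have := infinite_om
  simp only [Cardinal.mk_prod, Cardinal.mk_finset_of_infinite, Cardinal.lift_id, mk_om,
    Cardinal.mk_nat]
  have h1 : ℵ₀ ≤ (ℵ₁ : Cardinal.{0}) := Cardinal.aleph0_le_aleph 1
  rw [Cardinal.mul_aleph0_eq h1, Cardinal.mul_eq_self h1, Cardinal.mul_eq_self h1]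

theorem exists_book : ∃ g : Om → Finset Om × Om × ℕ, ∀ t (A : Set Om), A.Countable →
    ∃ c ∉ A, g c = t := by
  obtain ⟨e⟩ := Cardinal.eq.mp mk_task
  refine ⟨fun c => (e.symm c).2, fun t A hA => ?_⟩
  by_contra hcon
  push Not at hcon
  have h1 : (range fun w : Om => e (w, t)).Countable := by
    refine hA.mono ?_
    rintro _ ⟨w, rfl⟩
    by_contra h
    exact hcon _ h (by simp)
  have h2 : Function.Injective fun w : Om => e (w, t) := by
    intro a b hab
    have := e.injective hab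
    exact (Prod.mk.inj this).1
  have h3 : (univ : Set Om).Countable := by
    have := h1.preimage h2
    rwa [Set.preimage_range] at this
  exact not_countable_om h3

end Pool.Agent.Helper79.VC

end

/-! ### formerly `Pool.Agent.Helper79.VC.Omega` -/

section

/-!
# The recursion of length omega one
-/

set_option autoImplicit false
set_option linter.unusedSectionVars false
set_option linter.unusedVariables false

namespace Pool.Agent.Helper79.VC

open Set Pool.Agent.Helper5.DU Pool.Agent.Helper6.Str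

variable {L : FirstOrder.Language.{0, 0}}

/-- an assignment of types to finite sets of variables -/
abbrev TA (L : FirstOrder.Language.{0, 0}) : Type 1 :=
  Finset Om → Ordinal.{0} → Set (PM L Om)

/-- the requirement met at stage `c` -/
def Req (g : Om → Finset Om × Om × ℕ) (r : Finset Om → Om → ℕ → PM L Om × ℕ) (T : TA L)
    (c : Om) : Prop :=
  (∀ e ∈ (g c).1, e < c) →
  (∃ x ∈ T (g c).1 (od (g c).2.1 + 1), ∃ m : ℕ,
    EqP ((g c).1 : Set Om) (od (g c).2.1) x m (r (g c).1 (g c).2.1 (g c).2.2).1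
      (r (g c).1 (g c).2.1 (g c).2.2).2) →
  ∃ x ∈ T (g c).1 (od (g c).2.1 + 1), ∃ m : ℕ,
    EqP ((g c).1 : Set Om) (od (g c).2.1) x m (r (g c).1 (g c).2.1 (g c).2.2).1
      (r (g c).1 (g c).2.1 (g c).2.2).2 ∧
    (x.1, Function.update x.2 c m) ∈ T (insert c (g c).1) (od (g c).2.1)

/-- the invariant of the recursion -/
structure Good (K : Set (L.Structure ℕ)) (g : Om → Finset Om × Om × ℕ)
    (r : Finset Om → Om → ℕ → PM L Om × ℕ) (b : Ordinal.{0} → Set (PM L Om)) (A : Set Om)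
    (T : TA L) : Prop where
  low : IsLowerSet A
  asg : IsAsg K A T
  zero : ∀ γ < om1, T ∅ γ = b γ
  req : ∀ c ∈ A, Req g r T c

theorem Req.congr {g : Om → Finset Om × Om × ℕ} {r : Finset Om → Om → ℕ → PM L Om × ℕ}
    {T T' : TA L} {c : Om}
    (h : ∀ F : Finset Om, (∀ e ∈ F, e ≤ c) → ∀ γ < om1, T' F γ = T F γ)
    (hT : Req g r T c) : Req g r T' c := by
  intro hF
  have h1 : T' (g c).1 (od (g c).2.1 + 1) = T (g c).1 (od (g c).2.1 + 1) :=
    h _ (fun e he => (hF e he).le) _ (add_one_lt_om1 (od_lt _))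
  have h2 : T' (insert c (g c).1) (od (g c).2.1) = T (insert c (g c).1) (od (g c).2.1) := by
    refine h _ (fun e he => ?_) _ (od_lt _)
    rcases Finset.mem_insert.mp he with rfl | he
    · exact le_rfl
    · exact (hF e he).le
  rw [h1, h2]
  exact hT hF

variable [∀ n, IsEmpty (L.Functions n)] [∀ n, Countable (L.Relations n)]

theorem good_step {K : Set (L.Structure ℕ)} (hK : MeasurableSet {c : Code L | toStr c ∈ K})
    (hS : Scat K) {g : Om → Finset Om × Om × ℕ} {r : Finset Om → Om → ℕ → PM L Om × ℕ}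
    {b : Ordinal.{0} → Set (PM L Om)} {A : Set Om} {T : TA L} (h : Good K g r b A T)
    (hA : A ≠ univ) : ∃ (A' : Set Om) (T' : TA L), Good K g r b A' T' ∧ A ⊆ A' ∧ ¬ A' ⊆ A ∧
      ∀ F : Finset Om, (F : Set Om) ⊆ A → ∀ γ < om1, T' F γ = T F γ := by
  obtain ⟨c₁, hc₁⟩ := (ne_univ_iff_exists_notMem A).mp hA
  obtain ⟨c, hc, hmin⟩ := WellFounded.has_min (wellFounded_lt (α := Om)) (Aᶜ) ⟨c₁, hc₁⟩
  have hAc : A = Iio c := by
    ext e
    constructor
    · intro he
      by_contra h1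
      exact hc (h.low (not_lt.mp h1) he)
    · intro he
      by_contra h1
      exact hmin e h1 he
  have hAcount : A.Countable := by rw [hAc]; exact countable_Iio_om c
  have key : ∃ T' : TA L, IsAsg K (insert c A) T' ∧
      (∀ F : Finset Om, (F : Set Om) ⊆ A → ∀ γ < om1, T' F γ = T F γ) ∧ Req g r T' c := by
    by_cases hcase : (∀ e ∈ (g c).1, e < c) ∧
        ∃ x ∈ T (g c).1 (od (g c).2.1 + 1), ∃ m : ℕ,
          EqP ((g c).1 : Set Om) (od (g c).2.1) x m (r (g c).1 (g c).2.1 (g c).2.2).1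
            (r (g c).1 (g c).2.1 (g c).2.2).2
    · obtain ⟨hF, x, hx, m, hm⟩ := hcase
      have hFA : ((g c).1 : Set Om) ⊆ A := by
        rw [hAc]
        exact fun e he => hF e he
      have hcF : c ∉ (g c).1 := fun h1 => hc (hFA h1)
      obtain ⟨b₀, hb₀, hb₀T, hxb⟩ := ext_one hK hS (g c).1 hcF (h.asg.ft hFA) (od_lt (g c).2.1)
        hx m
      obtain ⟨T', hT', hTT', hT'b⟩ := extend_asg hK hS hAcount h.asg hc hFA hb₀ hb₀T
      refine ⟨T', hT', hTT', fun _ _ => ⟨x, ?_, m, hm, ?_⟩⟩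
      · rw [hTT' _ hFA _ (add_one_lt_om1 (od_lt _))]
        exact hx
      · rw [hT'b _ (od_lt _)]
        exact hxb
    · have hE : ((∅ : Finset Om) : Set Om) ⊆ A := by simp
      have h0 : (0 : Ordinal.{0}) < om1 := Ordinal.omega_pos 1
      obtain ⟨x, hx, hxK⟩ := (h.asg.cls ∅ hE _ (add_one_lt_om1 h0)).nonempty
      obtain ⟨b₀, hb₀, hb₀T, -⟩ := ext_one hK hS ∅ (Finset.notMem_empty c) (h.asg.ft hE) h0
        hx 0
      obtain ⟨T', hT', hTT', hT'b⟩ := extend_asg hK hS hAcount h.asg hc hE hb₀ hb₀T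
      refine ⟨T', hT', hTT', fun hF hex => absurd ⟨hF, ?_⟩ hcase⟩
      have hFA : ((g c).1 : Set Om) ⊆ A := by
        rw [hAc]
        exact fun e he => hF e he
      rw [hTT' _ hFA _ (add_one_lt_om1 (od_lt _))] at hex
      exact hex
  obtain ⟨T', hT', hTT', hreq⟩ := key
  refine ⟨insert c A, T', ⟨?_, hT', fun γ hγ => ?_, fun c' hc' => ?_⟩, subset_insert _ _,
    fun h1 => hc (h1 (mem_insert _ _)), hTT'⟩
  · have : insert c A = Iic c := by
      rw [hAc]
      exact Iio_insert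
    rw [this]
    exact isLowerSet_Iic c
  · rw [hTT' ∅ (by simp) γ hγ]
    exact h.zero γ hγ
  · rcases hc' with rfl | hc'
    · exact hreq
    · refine (h.req c' hc').congr fun F hF γ hγ => hTT' F ?_ γ hγ
      exact fun e he => h.low (hF e he) hc'

theorem exists_good {K : Set (L.Structure ℕ)} (hK : MeasurableSet {c : Code L | toStr c ∈ K})
    (hS : Scat K) (g : Om → Finset Om × Om × ℕ) (r : Finset Om → Om → ℕ → PM L Om × ℕ)
    {b : Ordinal.{0} → Set (PM L Om)} (hb : IsFT K (∅ : Set Om) b) :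
    ∃ T : TA L, Good K g r b univ T := by
  let α := {q : Set Om × TA L // Good K g r b q.1 q.2}
  let R : α → α → Prop := fun q q' => q.1.1 ⊆ q'.1.1 ∧
    ∀ F : Finset Om, (F : Set Om) ⊆ q.1.1 → ∀ γ < om1, q'.1.2 F γ = q.1.2 F γ
  have hinit : Good K g r b ∅ (fun _ => b) := by
    refine ⟨isLowerSet_empty, ⟨fun F hF γ hγ => ?_, fun F F' hFF hF' β γ hβ hγ => ?_⟩,
      fun γ hγ => rfl, fun c hc => absurd hc (notMem_empty c)⟩
    · have : (F : Set Om) = ∅ := subset_empty_iff.mp hF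
      rw [this]
      exact hb.cls γ hγ
    · exact hb.anti β γ hβ hγ
  have hchain : ∀ c : Set α, IsChain R c → ∃ ub, ∀ a ∈ c, R a ub := by
    intro c hc
    rcases c.eq_empty_or_nonempty with hem | ⟨q₀, hq₀⟩
    · exact ⟨⟨(∅, fun _ => b), hinit⟩, fun a ha => absurd ha (by rw [hem]; exact notMem_empty a)⟩
    let A : Set Om := ⋃ q ∈ c, q.1.1
    let T : TA L := fun F γ => {z | ∃ q ∈ c, (F : Set Om) ⊆ q.1.1 ∧ z ∈ q.1.2 F γ}
    have hdir : ∀ q ∈ c, ∀ q' ∈ c, R q q' ∨ R q' q := by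
      intro q hq q' hq'
      by_cases h : q = q'
      · subst h
        exact Or.inl ⟨Subset.rfl, fun _ _ _ _ => rfl⟩
      · exact hc hq hq' h
    have hT : ∀ q ∈ c, ∀ F : Finset Om, (F : Set Om) ⊆ q.1.1 → ∀ γ < om1, T F γ = q.1.2 F γ := by
      intro q hq F hF γ hγ
      ext z
      constructor
      · rintro ⟨q', hq', hF', hz⟩
        rcases hdir q hq q' hq' with h | h
        · rwa [h.2 F hF γ hγ] at hz
        · rwa [← h.2 F hF' γ hγ] at hz
      · intro hz
        exact ⟨q, hq, hF, hz⟩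
    have hfin : ∀ F : Finset Om, (F : Set Om) ⊆ A → ∃ q ∈ c, (F : Set Om) ⊆ q.1.1 := by
      intro F
      induction F using Finset.induction_on with
      | empty => exact fun _ => ⟨q₀, hq₀, by simp⟩
      | insert e F he ih =>
        intro hF
        obtain ⟨q, hq, hFq⟩ := ih fun x hx => hF (Finset.mem_coe.mpr (Finset.mem_insert_of_mem hx))
        have : e ∈ A := hF (Finset.mem_coe.mpr (Finset.mem_insert_self e F))
        obtain ⟨q', hq', heq'⟩ := mem_iUnion₂.mp this
        rcases hdir q hq q' hq' with h | h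
        · refine ⟨q', hq', ?_⟩
          intro x hx
          rcases Finset.mem_insert.mp (Finset.mem_coe.mp hx) with rfl | hx
          · exact heq'
          · exact h.1 (hFq hx)
        · refine ⟨q, hq, ?_⟩
          intro x hx
          rcases Finset.mem_insert.mp (Finset.mem_coe.mp hx) with rfl | hx
          · exact h.1 heq'
          · exact hFq hx
    refine ⟨⟨(A, T), ?_, ⟨fun F hF γ hγ => ?_, fun F F' hFF hF' β γ hβ hγ => ?_⟩,
      fun γ hγ => ?_, fun e he => ?_⟩, fun a ha => ⟨?_, fun F hF γ hγ => hT a ha F hF γ hγ⟩⟩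
    · intro x y hxy hx
      obtain ⟨q, hq, hxq⟩ := mem_iUnion₂.mp hx
      exact mem_iUnion₂.mpr ⟨q, hq, q.2.low hxy hxq⟩
    · obtain ⟨q, hq, hFq⟩ := hfin F hF
      show IsCls K (F : Set Om) γ (T F γ)
      rw [hT q hq F hFq γ hγ]
      exact q.2.asg.cls F hFq γ hγ
    · obtain ⟨q, hq, hFq⟩ := hfin F' hF'
      have hFq' : (F : Set Om) ⊆ q.1.1 := fun x hx => hFq (hFF hx)
      show T F' γ ⊆ T F β
      rw [hT q hq F' hFq γ hγ, hT q hq F hFq' β (hβ.trans_lt hγ)]
      exact q.2.asg.anti F F' hFF hFq β γ hβ hγ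
    · show T ∅ γ = b γ
      rw [hT q₀ hq₀ ∅ (by simp) γ hγ]
      exact q₀.2.zero γ hγ
    · obtain ⟨q, hq, heq⟩ := mem_iUnion₂.mp he
      refine (q.2.req e heq).congr fun F hF γ hγ => hT q hq F ?_ γ hγ
      exact fun x hx => q.2.low (hF x hx) heq
    · exact fun x hx => mem_iUnion₂.mpr ⟨a, ha, hx⟩
  obtain ⟨⟨⟨A, T⟩, hq⟩, hmax⟩ := exists_maximal_of_chains_bounded hchain
    (fun {a b c} h1 h2 => ⟨h1.1.trans h2.1, fun F hF γ hγ =>
      (h2.2 F (hF.trans h1.1) γ hγ).trans (h1.2 F hF γ hγ)⟩)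
  by_cases hA : A = univ
  · subst hA
    exact ⟨T, hq⟩
  · obtain ⟨A', T', hq', hAA', hnot, hTT'⟩ := good_step hK hS hq hA
    exact absurd (hmax ⟨(A', T'), hq'⟩ ⟨hAA', hTT'⟩).1 hnot

end Pool.Agent.Helper79.VC

end

/-! ### formerly `Pool.Agent.Helper79.VC.Model` -/

section

/-!
# The structure given by a complete assignment of types
-/

set_option autoImplicit false
set_option linter.unusedSectionVars false
set_option linter.unusedVariables false

namespace Pool.Agent.Helper79.VC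

open Set Pool.Agent.Helper5.DU Pool.Agent.Helper6.Str

variable {L : FirstOrder.Language.{0, 0}}

/-- forced equality of two variables -/
def Eqv (T : TA L) (a b : Om) : Prop := ∃ x ∈ T {a, b} 0, x.2 a = x.2 b

/-- variables not equal to an earlier one -/
def Om0 (T : TA L) : Set Om := {c | ∀ a < c, ¬ Eqv T a c}

variable [∀ n, IsEmpty (L.Functions n)] [∀ n, Countable (L.Relations n)]

/-- the structure on the variables -/
def SOm (T : TA L) : L.Structure Om where
  funMap f := isEmptyElim f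
  RelMap {n} R v := ∃ x ∈ T (Finset.univ.image v) 0, x.1.RelMap R (fun i => x.2 (v i))

section

variable {K : Set (L.Structure ℕ)} {g : Om → Finset Om × Om × ℕ}
  {r : Finset Om → Om → ℕ → PM L Om × ℕ} {b : Ordinal.{0} → Set (PM L Om)} {T : TA L}

theorem zero_lt_om1 : (0 : Ordinal.{0}) < om1 := Ordinal.omega_pos 1

theorem Good.down (h : Good K g r b univ T) {F F' : Finset Om} (hF : F ⊆ F')
    {β γ : Ordinal.{0}} (hβ : β ≤ γ) (hγ : γ < om1) {x : PM L Om} (hx : x ∈ T F' γ) :
    x ∈ T F β :=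
  h.asg.anti F F' hF (subset_univ _) β γ hβ hγ hx

theorem Good.isCls (h : Good K g r b univ T) (F : Finset Om) {γ : Ordinal.{0}} (hγ : γ < om1) :
    IsCls K (F : Set Om) γ (T F γ) :=
  h.asg.cls F (subset_univ _) γ hγ

theorem eqv_iff (h : Good K g r b univ T) {F : Finset Om} {a c : Om} (ha : a ∈ F) (hc : c ∈ F)
    {γ : Ordinal.{0}} (hγ : γ < om1) {x : PM L Om} (hx : x ∈ T F γ) :
    Eqv T a c ↔ x.2 a = x.2 c := by
  have hsub : ({a, c} : Finset Om) ⊆ F := by
    intro e he
    rcases Finset.mem_insert.mp he with rfl | he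
    · exact ha
    · rw [Finset.mem_singleton] at he
      rwa [he]
  have hx0 : x ∈ T {a, c} 0 := h.down hsub (zero_le) hγ hx
  constructor
  · rintro ⟨y, hy, hya⟩
    have h1 : EqT (({a, c} : Finset Om) : Set Om) 0 y x := (h.isCls _ zero_lt_om1).eqT hy hx0
    exact (h1.atEq.1 (y.2 a, x.2 a) ⟨a, by simp, rfl⟩ (y.2 c, x.2 c) ⟨c, by simp, rfl⟩).mp hya
  · intro h1
    exact ⟨x, hx0, h1⟩

theorem rel_iff (h : Good K g r b univ T) {F : Finset Om} {n : ℕ} (R : L.Relations n)
    {v : Fin n → Om} (hv : ∀ i, v i ∈ F) {γ : Ordinal.{0}} (hγ : γ < om1) {x : PM L Om}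
    (hx : x ∈ T F γ) : (SOm T).RelMap R v ↔ x.1.RelMap R (fun i => x.2 (v i)) := by
  have hsub : Finset.univ.image v ⊆ F := by
    intro e he
    obtain ⟨i, -, rfl⟩ := Finset.mem_image.mp he
    exact hv i
  have hx0 : x ∈ T (Finset.univ.image v) 0 := h.down hsub (zero_le) hγ hx
  constructor
  · rintro ⟨y, hy, hyR⟩
    have h1 : EqT ((Finset.univ.image v : Finset Om) : Set Om) 0 y x :=
      (h.isCls _ zero_lt_om1).eqT hy hx0
    exact (h1.atEq.2 n R (fun i => (y.2 (v i), x.2 (v i)))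
      (fun i => ⟨v i, by simp, rfl⟩)).mp hyR
  · intro h1
    exact ⟨x, hx0, h1⟩

theorem exists_mem (h : Good K g r b univ T) (F : Finset Om) {γ : Ordinal.{0}} (hγ : γ < om1) :
    ∃ x ∈ T F γ, x.1 ∈ K := (h.isCls F hγ).nonempty

/-- every variable is equal to one in `Om0` -/
theorem exists_rep (h : Good K g r b univ T) (c : Om) : ∃ d ∈ Om0 T, Eqv T d c := by
  have hne : {d | Eqv T d c}.Nonempty := by
    obtain ⟨x, hx, -⟩ := exists_mem h {c, c} zero_lt_om1
    exact ⟨c, x, hx, rfl⟩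
  obtain ⟨d, hd, hmin⟩ := WellFounded.has_min (wellFounded_lt (α := Om)) _ hne
  refine ⟨d, fun a had hEq => hmin a ?_ had, hd⟩
  obtain ⟨x, hx, -⟩ := exists_mem h {a, d, c} zero_lt_om1
  have h1 : x.2 a = x.2 d := (eqv_iff h (by simp) (by simp) zero_lt_om1 hx).mp hEq
  have h2 : x.2 d = x.2 c := (eqv_iff h (by simp) (by simp) zero_lt_om1 hx).mp hd
  exact (eqv_iff h (by simp) (by simp) zero_lt_om1 hx).mpr (h1.trans h2)

theorem loc (h : Good K g r b univ T)
    (hg : ∀ t (A : Set Om), A.Countable → ∃ c ∉ A, g c = t)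
    (hr : ∀ (F : Finset Om) (β : Om) (x : PM L Om) (m : ℕ), x.1 ∈ K → ∃ k,
      EqP (F : Set Om) (od β) x m (r F β k).1 (r F β k).2) (γ : Ordinal.{0}) :
    γ < om1 → ∀ F : Finset Om, (F : Set Om) ⊆ Om0 T → ∀ x ∈ T F γ,
      BFR (SOm T) x.1 (Om0 T) univ γ ((fun a => (a, x.2 a)) '' (F : Set Om)) := by
  induction γ using WellFoundedLT.induction with
  | _ γ ih =>
    intro hγ F hF x hx
    rw [BFR.def]
    refine ⟨⟨?_, fun n R v hv => ?_⟩, fun β hβ => ⟨fun c hc => ?_, fun m _ => ?_⟩⟩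
    · rintro _ ⟨a, ha, rfl⟩ _ ⟨c, hc, rfl⟩
      constructor
      · rintro (h1 : a = c)
        show x.2 a = x.2 c
        rw [h1]
      · intro h1
        have h2 : Eqv T a c := (eqv_iff h ha hc hγ hx).mpr h1
        by_contra h3
        rcases lt_or_gt_of_ne h3 with h4 | h4
        · exact hF hc a h4 h2
        · refine hF ha c h4 ?_
          exact (eqv_iff h hc ha hγ hx).mpr h1.symm
    · choose u hu1 hu2 using hv
      have h1 : (fun i => (v i).1) = u := by
        funext i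
        rw [← hu2 i]
      have h2 : (fun i => (v i).2) = fun i => x.2 (u i) := by
        funext i
        rw [← hu2 i]
      rw [h1, h2]
      exact rel_iff h R hu1 hγ hx
    · by_cases hcF : c ∈ F
      · refine ⟨x.2 c, mem_univ _, BFR.anti ?_ (ih β hβ (hβ.trans hγ) F hF x
          (h.down (Finset.Subset.refl F) hβ.le hγ hx))⟩
        rintro _ (rfl | ha)
        · exact ⟨c, hcF, rfl⟩
        · exact ha
      · obtain ⟨z, hz, hzK⟩ := exists_mem h (insert c F) hγ
        have hzF : z ∈ T F γ := h.down (Finset.subset_insert _ _) le_rfl hγ hz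
        have h1 : EqT (F : Set Om) γ z x := (h.isCls F hγ).eqT hzF hx
        obtain ⟨y, -, hy⟩ := BFR.forth h1 hβ (mem_univ (z.2 c))
        have hβ' := hβ.trans hγ
        have hxK : x.1 ∈ K := (h.isCls F hγ).memK hx
        have hu : ((x.1, Function.update x.2 c y) : PM L Om) ∈ T (insert c F) β := by
          refine (h.isCls (insert c F) hβ').mem
            (h.down (Finset.Subset.refl _) hβ.le hγ hz) hxK (EqT.symm ?_)
          refine BFR.anti ?_ hy
          rintro _ ⟨e, he, rfl⟩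
          rcases Finset.mem_insert.mp (Finset.mem_coe.mp he) with rfl | he'
          · left; simp
          · right
            refine ⟨e, he', ?_⟩
            have : e ≠ c := fun h5 => hcF (h5 ▸ he')
            simp [this]
        refine ⟨y, mem_univ _, BFR.anti ?_ (ih β hβ hβ' (insert c F) ?_
          (x.1, Function.update x.2 c y) hu)⟩
        · rintro _ (rfl | ⟨a, ha, rfl⟩)
          · exact ⟨c, by simp, by simp⟩
          · have : a ≠ c := fun h5 => hcF (h5 ▸ ha)
            exact ⟨a, by simp [Finset.mem_coe.mp ha], by simp [this]⟩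
        · intro e he
          rcases Finset.mem_insert.mp (Finset.mem_coe.mp he) with rfl | he'
          · exact hc
          · exact hF he'
    · have hβ' : β < om1 := hβ.trans hγ
      obtain ⟨β₀, rfl⟩ := od_surj hβ'
      have hle : od β₀ + 1 ≤ γ := Order.add_one_le_iff.mpr hβ
      have hβ1 : od β₀ + 1 < om1 := add_one_lt_om1 hβ'
      have hxK : x.1 ∈ K := (h.isCls F hγ).memK hx
      have hxβ : x ∈ T F (od β₀ + 1) := h.down (Finset.Subset.refl _) hle hγ hx
      obtain ⟨k, hk⟩ := hr F β₀ x m hxK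
      obtain ⟨c, hc, hgc⟩ := hg (F, β₀, k) (⋃ e ∈ F, Iic e)
        (F.countable_toSet.biUnion fun e _ => (countable_Iio_om e).insert e |>.mono (by
          intro z hz
          rcases eq_or_lt_of_le (mem_Iic.mp hz) with h1 | h1
          · exact Or.inl h1
          · exact Or.inr h1))
      have hcF : ∀ e ∈ F, e < c := by
        intro e he
        by_contra h1
        exact hc (mem_iUnion₂.mpr ⟨e, he, not_lt.mp h1⟩)
      have hcF' : c ∉ F := fun h1 => lt_irrefl _ (hcF c h1)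
      have hreq := h.req c (mem_univ c)
      unfold Req at hreq
      rw [hgc] at hreq
      obtain ⟨x', hx', m', hm', hu'⟩ := hreq hcF ⟨x, hxβ, m, hk⟩
      have h1 : EqP (F : Set Om) (od β₀) x m x' m' := hk.trans hm'.symm
      rw [eqP_iff hcF'] at h1
      have hu : ((x.1, Function.update x.2 c m) : PM L Om) ∈ T (insert c F) (od β₀) :=
        (h.isCls (insert c F) hβ').mem hu' hxK h1
      obtain ⟨d, hd, hdc⟩ := exists_rep h c
      obtain ⟨z, hz, hzK⟩ := exists_mem h (insert d (insert c F)) hβ'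
      have hzu : EqT ((insert c F : Finset Om) : Set Om) (od β₀) z
          (x.1, Function.update x.2 c m) :=
        (h.isCls (insert c F) hβ').eqT (h.down (Finset.subset_insert _ _) le_rfl hβ' hz) hu
      have hzdc : z.2 d = z.2 c := (eqv_iff h (by simp) (by simp) hβ' hz).mp hdc
      let v : PM L Om := (x.1, Function.update (Function.update x.2 c m) d m)
      have hv : v ∈ T (insert d (insert c F)) (od β₀) := by
        refine (h.isCls _ hβ').mem hz hxK (EqT.symm (BFR.anti ?_ hzu))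
        rintro _ ⟨e, he, rfl⟩
        by_cases hed : e = d
        · subst hed
          refine ⟨c, by simp, ?_⟩
          simp [v, hzdc]
        · rcases Finset.mem_insert.mp (Finset.mem_coe.mp he) with h5 | he'
          · exact absurd h5 hed
          · refine ⟨e, he', ?_⟩
            simp [v, hed]
      have hdF : ((insert d F : Finset Om) : Set Om) ⊆ Om0 T := by
        intro e he
        rcases Finset.mem_insert.mp (Finset.mem_coe.mp he) with rfl | he'
        · exact hd
        · exact hF he'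
      have hsub : (insert d F : Finset Om) ⊆ insert d (insert c F) := by
        intro e he
        rcases Finset.mem_insert.mp he with rfl | he'
        · simp
        · simp [he']
      refine ⟨d, hd, BFR.anti ?_ (ih (od β₀) hβ hβ' (insert d F) hdF v
        (h.down hsub le_rfl hβ' hv))⟩
      rintro _ (rfl | ⟨a, ha, rfl⟩)
      · exact ⟨d, by simp, by simp [v]⟩
      · refine ⟨a, by simp [Finset.mem_coe.mp ha], ?_⟩
        have hac : a ≠ c := fun h5 => hcF' (h5 ▸ ha)
        by_cases had : a = d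
        · subst had
          have h6 := (hzu.atEq.1 (z.2 a, (Function.update x.2 c m) a)
            ⟨a, by simp [Finset.mem_coe.mp ha], rfl⟩
            (z.2 c, (Function.update x.2 c m) c) ⟨c, by simp, rfl⟩).mp hzdc
          simp only [Function.update_self] at h6
          rw [Function.update_of_ne hac] at h6
          simp [v, h6]
        · simp [v, had, hac]

end

end Pool.Agent.Helper79.VC

end

/-! ### formerly `Pool.Agent.Helper79.VC.Scott` -/

section

/-!
# Scott levels of countable structures; countable closed subsets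
-/

set_option autoImplicit false
set_option linter.unusedSectionVars false
set_option linter.unusedVariables false

namespace Pool.Agent.Helper79.VC

open Set Pool.Agent.Helper5.DU Pool.Agent.Helper6.Str

variable {L : FirstOrder.Language.{0, 0}} {M N P : Type}

theorem BFR.back_many {S : L.Structure M} {S' : L.Structure N} {U : Set M} {V : Set N}
    {γ : Ordinal.{0}} (n : ℕ) {p : Set (M × N)}
    (h : BFR S S' U V (γ + n) p) (y : Fin n → N) (hy : ∀ i, y i ∈ V) :
    ∃ x : Fin n → M, (∀ i, x i ∈ U) ∧ BFR S S' U V γ (p ∪ range fun i => (x i, y i)) := by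
  obtain ⟨x, hx, h1⟩ := BFR.forth_many n h.swap y hy
  refine ⟨x, hx, h1.symm ?_⟩
  rintro a (ha | ⟨i, rfl⟩)
  · exact Or.inl ha
  · exact Or.inr ⟨i, rfl⟩

/-- a back-and-forth system gives an isomorphism -/
theorem iso_of_system {S S' : L.Structure ℕ} (J : Set (ℕ × ℕ) → Prop)
    (hJ : ∀ p, J p → AtEq S S' p)
    (h1 : ∀ p : Set (ℕ × ℕ), p.Finite → J p → ∀ x, ∃ y, J (insert (x, y) p))
    (h2 : ∀ p : Set (ℕ × ℕ), p.Finite → J p → ∀ y, ∃ x, J (insert (x, y) p)) (h0 : J ∅) :
    Iso S S' := by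
  have hstep : ∀ (k : ℕ) (q : {q : Set (ℕ × ℕ) // q.Finite ∧ J q}),
      ∃ q' : {q : Set (ℕ × ℕ) // q.Finite ∧ J q}, q.1 ⊆ q'.1 ∧ (∃ y, (k, y) ∈ q'.1) ∧
        ∃ x, (x, k) ∈ q'.1 := by
    rintro k ⟨q, hq, hqJ⟩
    obtain ⟨y, hy⟩ := h1 q hq hqJ k
    obtain ⟨x, hx⟩ := h2 _ (hq.insert _) hy k
    exact ⟨⟨_, (hq.insert _).insert _, hx⟩, (subset_insert _ _).trans (subset_insert _ _),
      ⟨y, mem_insert_of_mem _ (mem_insert _ _)⟩, ⟨x, mem_insert _ _⟩⟩
  choose nx hnx1 hnx2 hnx3 using hstep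
  let s : ℕ → {q : Set (ℕ × ℕ) // q.Finite ∧ J q} := fun n =>
    n.rec ⟨∅, finite_empty, h0⟩ (fun k q => nx k q)
  have hs : ∀ n, s (n + 1) = nx n (s n) := fun n => rfl
  have hmono : ∀ n m, n ≤ m → (s n).1 ⊆ (s m).1 := by
    intro n m hnm
    induction m, hnm using Nat.le_induction with
    | base => exact Subset.rfl
    | succ m _ ih => rw [hs]; exact ih.trans (hnx1 m (s m))
  have hf : ∀ x : ℕ, ∃ y, (x, y) ∈ (s (x + 1)).1 := by
    intro x
    rw [hs]
    exact hnx2 x (s x)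
  choose f hf using hf
  have hat : ∀ n, AtEq S S' (s n).1 := fun n => hJ _ (s n).2.2
  have hinj : Function.Injective f := by
    intro a b hab
    have ha := hmono _ (max (a + 1) (b + 1)) (le_max_left _ _) (hf a)
    have hb := hmono _ (max (a + 1) (b + 1)) (le_max_right _ _) (hf b)
    exact ((hat _).1 _ ha _ hb).mpr hab
  have hsurj : Function.Surjective f := by
    intro y
    have h3 := hnx3 y (s y)
    rw [← hs] at h3
    obtain ⟨x, hx⟩ := h3
    refine ⟨x, ?_⟩
    have ha := hmono _ (max (x + 1) (y + 1)) (le_max_left _ _) (hf x)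
    have hb := hmono _ (max (x + 1) (y + 1)) (le_max_right _ _) hx
    exact ((hat _).1 _ ha _ hb).mp rfl
  refine ⟨Equiv.ofBijective f ⟨hinj, hsurj⟩, fun n R v => ?_⟩
  let m := Finset.univ.sup fun i => v i + 1
  have hm : ∀ i, (v i, f (v i)) ∈ (s m).1 := fun i =>
    hmono _ m (Finset.le_sup (f := fun i => v i + 1) (Finset.mem_univ i)) (hf (v i))
  exact (hat m).2 n R (fun i => (v i, f (v i))) hm

theorem scott (S : L.Structure ℕ) :
    ∃ γ < om1, ∀ S' : L.Structure ℕ, BFR S S' univ univ γ ∅ → Iso S S' := by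
  classical
  have hch : ∀ p : Finset (ℕ × ℕ), ∃ γ < om1, BFR S S univ univ γ (p : Set (ℕ × ℕ)) →
      ∀ β < om1, BFR S S univ univ β (p : Set (ℕ × ℕ)) := by
    intro p
    by_cases h : ∀ β < om1, BFR S S univ univ β (p : Set (ℕ × ℕ))
    · exact ⟨0, Ordinal.omega_pos 1, fun _ => h⟩
    · push Not at h
      obtain ⟨γ, hγ, hγ'⟩ := h
      exact ⟨γ, hγ, fun h' => absurd h' hγ'⟩
  choose G hG hG' using hch
  obtain ⟨α, hα, hGα⟩ := exists_bound hG
  have hstab : ∀ p : Set (ℕ × ℕ), p.Finite → BFR S S univ univ α p → ∀ β < om1,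
      BFR S S univ univ β p := by
    intro p hp h
    have := hG' hp.toFinset
    rw [hp.coe_toFinset] at this
    exact this (h.mono (hGα _))
  refine ⟨α + 1 + Ordinal.omega0, add_lt_om1 (add_one_lt_om1 hα) omega_lt_om1,
    fun S' hS' => ?_⟩
  have key : ∀ p : Set (ℕ × ℕ), p.Finite → BFR S S' univ univ α p →
      BFR S S' univ univ (α + 1) p := by
    intro p hp h
    let e := hp.toFinset.equivFin
    let a : Fin hp.toFinset.card → ℕ := fun i => (e.symm i).1.1
    let b : Fin hp.toFinset.card → ℕ := fun i => (e.symm i).1.2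
    have hpe : ∀ z ∈ p, ∃ i, a i = z.1 ∧ b i = z.2 := by
      intro z hz
      have hz' : z ∈ hp.toFinset := hp.mem_toFinset.mpr hz
      exact ⟨e ⟨z, hz'⟩, by simp [a], by simp [b]⟩
    have hpe' : ∀ i, (a i, b i) ∈ p := by
      intro i
      have := (e.symm i).2
      rw [hp.mem_toFinset] at this
      exact this
    have h1 : BFR S S' univ univ (α + 1 + ((hp.toFinset.card : ℕ) : Ordinal.{0})) ∅ := by
      refine hS'.mono ?_
      gcongr
      exact (Ordinal.natCast_lt_omega0 _).le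
    obtain ⟨a', -, h2⟩ := BFR.back_many _ h1 b fun _ => mem_univ _
    have hlt : α ≤ α + 1 := (Order.lt_add_one_iff.mpr le_rfl).le
    have h3 : BFR S S univ univ α (range fun i => (a i, a' i)) := by
      have h4 : BFR S' S univ univ α (range fun i => (b i, a' i)) := by
        refine (h2.mono hlt).symm ?_
        rintro _ ⟨i, rfl⟩
        exact Or.inr ⟨i, rfl⟩
      refine h.trans h4 ?_
      rintro _ ⟨i, rfl⟩
      exact ⟨b i, hpe' i, ⟨i, rfl⟩⟩
    have h5 := hstab _ (finite_range _) h3 (α + 1) (add_one_lt_om1 hα)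
    refine h5.trans h2 ?_
    intro z hz
    obtain ⟨i, hi1, hi2⟩ := hpe z hz
    exact ⟨a' i, ⟨i, by rw [← hi1]⟩, Or.inr ⟨i, by rw [← hi2]⟩⟩
  have hlt : α < α + 1 := Order.lt_add_one_iff.mpr le_rfl
  refine iso_of_system (fun p => BFR S S' univ univ α p) (fun p h => h.atEq)
    (fun p hp h x => ?_) (fun p hp h y => ?_) (hS'.mono ?_)
  · obtain ⟨y, -, hy⟩ := (key p hp h).forth hlt (mem_univ x)
    exact ⟨y, hy⟩
  · obtain ⟨x, -, hx⟩ := (key p hp h).back hlt (mem_univ y)
    exact ⟨x, hx⟩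
  · exact hlt.le.trans le_self_add

/-! ### closed subsets -/

theorem closed_rel {S : L.Structure M} {A : Set M} {γ₀ : Ordinal.{0}}
    (hA : ∀ F : Finset M, (F : Set M) ⊆ A → ∀ c : M, ∃ d ∈ A,
      BFR S S univ univ γ₀ (insert (c, d) ((fun a => (a, a)) '' (F : Set M))))
    {S' : L.Structure N} (γ : Ordinal.{0}) : γ ≤ γ₀ → ∀ p : Set (N × M), p.Finite →
      (∀ a ∈ p, a.2 ∈ A) → BFR S' S univ univ γ p → BFR S' S univ A γ p := by
  induction γ using WellFoundedLT.induction with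
  | _ γ ih =>
    intro hγ p hp hpA h
    rw [BFR.def]
    refine ⟨h.atEq, fun β hβ => ⟨fun c _ => ?_, fun y hy => ?_⟩⟩
    · obtain ⟨y, -, hy⟩ := h.forth hβ (mem_univ c)
      have hfin : (Prod.snd '' p).Finite := hp.image _
      obtain ⟨d, hd, hd'⟩ := hA hfin.toFinset (by
        rw [hfin.coe_toFinset]
        rintro _ ⟨a, ha, rfl⟩
        exact hpA a ha) y
      refine ⟨d, hd, ih β hβ (hβ.le.trans hγ) _ (hp.insert _) ?_ ?_⟩
      · rintro a (rfl | ha)
        · exact hd
        · exact hpA a ha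
      · refine hy.trans (hd'.mono (hβ.le.trans hγ)) ?_
        rintro a (rfl | ha)
        · exact ⟨y, mem_insert _ _, mem_insert _ _⟩
        · refine ⟨a.2, mem_insert_of_mem _ ha, mem_insert_of_mem _ ⟨a.2, ?_, rfl⟩⟩
          rw [hfin.coe_toFinset]
          exact mem_image_of_mem _ ha
    · obtain ⟨x, -, hx⟩ := h.back hβ (mem_univ y)
      refine ⟨x, mem_univ x, ih β hβ (hβ.le.trans hγ) _ (hp.insert _) ?_ hx⟩
      rintro a (rfl | ha)
      · exact hy
      · exact hpA a ha

variable [∀ n, IsEmpty (L.Functions n)]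

/-- pulling a structure back along a map -/
def pl (S : L.Structure M) (f : N → M) : L.Structure N where
  funMap g := isEmptyElim g
  RelMap R v := S.RelMap R (fun i => f (v i))

theorem BFR_pl {S : L.Structure M} {f : N → M} (hf : Function.Injective f) (γ : Ordinal.{0})
    {p : Set (N × M)} (hp : ∀ a ∈ p, a.2 = f a.1) : BFR (pl S f) S univ (range f) γ p :=
  BFR.of_map f hf.injOn image_univ.symm (fun n R v _ => Iff.rfl) γ
    fun a ha => ⟨mem_univ _, hp a ha⟩

theorem BFR_pl' {S : L.Structure M} {S' : L.Structure P} {f : N → M} (hf : Function.Injective f)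
    {U : Set P} {γ : Ordinal.{0}} {p : Set (P × M)} (h : BFR S' S U (range f) γ p)
    {q : Set (P × N)} (hq : ∀ a ∈ q, (a.1, f a.2) ∈ p) : BFR S' (pl S f) U univ γ q := by
  have h1 : BFR S (pl S f) (range f) univ γ {a | a.1 = f a.2} :=
    (BFR_pl (S := S) hf γ (p := {a | a.2 = f a.1}) (fun a ha => ha)).symm (fun a ha => ha)
  exact h.trans h1 fun a ha => ⟨f a.2, hq a ha, rfl⟩

end Pool.Agent.Helper79.VC

end

/-! ### formerly `Pool.Agent.Helper79.VC.HM` -/

section

/-!
# The large model of a minimal type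
-/

set_option autoImplicit false
set_option linter.unusedSectionVars false
set_option linter.unusedVariables false

namespace Pool.Agent.Helper79.VC

open Set Pool.Agent.Helper5.DU Pool.Agent.Helper6.Str

variable {L : FirstOrder.Language.{0, 0}} {M : Type}

theorem infinite_of_lev {K : Set (L.Structure ℕ)} {S : L.Structure M} (h : Lev K S) :
    Infinite M := by
  by_contra hcon
  rw [not_infinite_iff_finite] at hcon
  have := Fintype.ofFinite M
  obtain ⟨S', -, hS'⟩ := h _ (natCast_lt_om1 (Fintype.card M + 1))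
  have h1 : BFR S S' univ univ (0 + ((Fintype.card M + 1 : ℕ) : Ordinal.{0})) ∅ :=
    hS'.mono (by simp)
  obtain ⟨x, -, hx⟩ := BFR.back_many _ h1 (fun i : Fin (Fintype.card M + 1) => (i : ℕ))
    fun _ => mem_univ _
  have hinj : Function.Injective x := by
    intro i j hij
    have := (hx.atEq.1 (x i, (i : ℕ)) (Or.inr ⟨i, rfl⟩) (x j, (j : ℕ)) (Or.inr ⟨j, rfl⟩)).mp hij
    exact Fin.ext this
  have := Fintype.card_le_of_injective x hinj
  simp at this

/-- a countable set closed at level `γ` is infinite, and so is the image of an injection -/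
theorem exists_enum [Infinite M] {S : L.Structure M} {A : Set M} (hA : A.Countable)
    (h : ∀ F : Finset M, (F : Set M) ⊆ A → ∀ c : M, ∃ d ∈ A,
      BFR S S univ univ 0 (insert (c, d) ((fun a => (a, a)) '' (F : Set M)))) :
    ∃ f : ℕ → M, Function.Injective f ∧ range f = A := by
  have hinf : A.Infinite := by
    intro hfin
    have : A = univ := by
      refine eq_univ_of_forall fun c => ?_
      obtain ⟨d, hd, hd'⟩ := h hfin.toFinset (by rw [hfin.coe_toFinset]) c
      have h1 : (d, d) ∈ (fun a => (a, a)) '' (hfin.toFinset : Set M) :=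
        ⟨d, by rw [hfin.coe_toFinset]; exact hd, rfl⟩
      have h2 := (hd'.atEq.1 (c, d) (mem_insert _ _) (d, d) (mem_insert_of_mem _ h1)).mpr rfl
      have h3 : c = d := h2
      rw [h3]
      exact hd
    rw [this] at hfin
    exact infinite_univ hfin
  have := hA.to_subtype
  have := hinf.to_subtype
  obtain ⟨e⟩ := nonempty_equiv_of_countable (α := ℕ) (β := A)
  refine ⟨fun n => (e n : M), fun i j hij => e.injective (Subtype.ext hij), ?_⟩
  ext c
  constructor
  · rintro ⟨n, rfl⟩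
    exact (e n).2
  · intro hc
    exact ⟨e.symm ⟨c, hc⟩, by simp⟩

variable [∀ n, IsEmpty (L.Functions n)] [∀ n, Countable (L.Relations n)]

/-- iso classes of members of `K` -/
def isoSetoid (K : Set (L.Structure ℕ)) : Setoid {S : L.Structure ℕ // S ∈ K} where
  r S S' := Iso S.1 S'.1
  iseqv := ⟨fun S => Iso.refl S.1, fun h => h.symm, fun h h' => h.trans h'⟩

theorem exists_model {K : Set (L.Structure ℕ)} (hK : MeasurableSet {c : Code L | toStr c ∈ K})
    (hS : Scat K) {δ : Ordinal.{0}} (hδ : δ < om1) (hcl : ClosedLev K δ) (hC : ¬ CtblK K) :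
    ∃ (M : Type) (S : L.Structure M), Lev K S ∧ NoCtblType S := by
  classical
  let Λ := Quotient (isoSetoid K)
  have hΛ : ¬ (univ : Set Λ).Countable := by
    intro hcon
    rw [countable_univ_iff] at hcon
    apply hC
    rcases isEmpty_or_nonempty Λ with hE | hE
    · exact ⟨fun _ => toStr fun _ => false, fun S hSK => (hE.false (Quotient.mk _ ⟨S, hSK⟩)).elim⟩
    · obtain ⟨e, he⟩ := exists_surjective_nat Λ
      refine ⟨fun n => (e n).out.1, fun S hSK => ?_⟩
      obtain ⟨n, hn⟩ := he (Quotient.mk _ ⟨S, hSK⟩)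
      refine ⟨n, ?_⟩
      have h1 : Quotient.mk (isoSetoid K) (e n).out = Quotient.mk (isoSetoid K) ⟨S, hSK⟩ := by
        rw [Quotient.out_eq, hn]
      exact (Quotient.exact h1).symm
  let x : Λ → PM L Om := fun q => (q.out.1, fun _ => 0)
  have hx : ∀ q, (x q).1 ∈ K := fun q => q.out.2
  obtain ⟨V, -, hV, b, hb, hbV⟩ := exists_ft hK hS (∅ : Finset Om) x hx univ hΛ
  rw [Finset.coe_empty] at hb
  obtain ⟨g, hg⟩ := exists_book
  have hr : ∀ (F : Finset Om) (β : Om), ∃ r : ℕ → PM L Om × ℕ, ∀ (y : PM L Om) (m : ℕ),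
      y.1 ∈ K → ∃ k, EqP (F : Set Om) (od β) y m (r k).1 (r k).2 := fun F β =>
    scat_EqP hS F (od_lt β)
  choose r hr using hr
  obtain ⟨T, hT⟩ := exists_good hK hS g r hb
  have hval : Function.Injective (Subtype.val : Om0 T → Om) := Subtype.val_injective
  have hrange : range (Subtype.val : Om0 T → Om) = Om0 T := Subtype.range_val
  let SM : L.Structure (Om0 T) := pl (SOm T) Subtype.val
  have hloc : ∀ γ < om1, ∀ z ∈ T ∅ γ, BFR SM z.1 univ univ γ ∅ := by
    intro γ hγ z hz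
    have h1 := loc hT hg hr γ hγ ∅ (by simp) z hz
    have h2 : BFR SM (SOm T) univ (Om0 T) γ (∅ : Set (Om0 T × Om)) := by
      have := BFR_pl (S := SOm T) hval γ (p := ∅) (fun a ha => absurd ha (notMem_empty a))
      rwa [hrange] at this
    exact h2.trans h1 fun a ha => absurd ha (notMem_empty a)
  have hlev : Lev K SM := by
    intro γ hγ
    obtain ⟨z, hz, hzK⟩ := exists_mem hT ∅ hγ
    exact ⟨z.1, hzK, hloc γ hγ z hz⟩
  refine ⟨Om0 T, SM, hlev, ?_⟩
  rintro ⟨A, hA, hcA⟩
  have hinfM := infinite_of_lev hlev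
  have hlevel : ∀ γ < om1, ∀ F : Finset (Om0 T), (F : Set (Om0 T)) ⊆ A → ∀ c : Om0 T, ∃ d ∈ A,
      BFR SM SM univ univ γ (insert (c, d) ((fun a => (a, a)) '' (F : Set (Om0 T)))) := by
    intro γ hγ F hF c
    obtain ⟨d, hd, hd'⟩ := hcA F hF c
    exact ⟨d, hd, hd' γ hγ⟩
  obtain ⟨f, hf, hfA⟩ := exists_enum hA (hlevel 0 zero_lt_om1)
  have hSA : ∀ γ < om1, BFR SM (pl SM f) univ univ γ ∅ := by
    intro γ hγ
    have h1 : BFR SM SM univ A γ ∅ := closed_rel (hlevel γ hγ) γ le_rfl ∅ finite_empty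
      (fun a ha => absurd ha (notMem_empty a))
      (BFR.refl SM univ γ fun a ha => absurd ha (notMem_empty a))
    rw [← hfA] at h1
    exact BFR_pl' hf h1 fun a ha => absurd ha (notMem_empty a)
  obtain ⟨γ, hγ, hsc⟩ := scott (pl SM f)
  have hiso : ∀ q ∈ V, x q ∈ b γ → Iso (pl SM f) (x q).1 := by
    intro q hq hqb
    have h1 : x q ∈ T ∅ γ := by
      rw [hT.zero γ hγ]
      exact hqb
    have h2 := hloc γ hγ _ h1
    have h3 : BFR (pl SM f) SM univ univ γ ∅ := (hSA γ hγ).symm fun a ha =>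
      absurd ha (notMem_empty a)
    exact hsc _ (h3.trans h2 fun a ha => absurd ha (notMem_empty a))
  have hlarge := not_countable_diff hV (hbV γ hγ)
  have h4 : ∃ q ∈ V \ {α ∈ V | x α ∉ b γ}, ∃ q' ∈ V \ {α ∈ V | x α ∉ b γ}, q ≠ q' := by
    by_contra hcon
    push Not at hcon
    apply hlarge
    exact (Set.Subsingleton.countable fun q hq q' hq' => hcon q hq q' hq')
  obtain ⟨q, hq, q', hq', hne⟩ := h4
  apply hne
  have hqb : x q ∈ b γ := by
    by_contra h
    exact hq.2 ⟨hq.1, h⟩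
  have hqb' : x q' ∈ b γ := by
    by_contra h
    exact hq'.2 ⟨hq'.1, h⟩
  have h5 : Iso (x q).1 (x q').1 := (hiso q hq.1 hqb).symm.trans (hiso q' hq'.1 hqb')
  have h6 : Quotient.mk (isoSetoid K) q.out = Quotient.mk (isoSetoid K) q'.out :=
    Quotient.sound h5
  rwa [Quotient.out_eq, Quotient.out_eq] at h6

end Pool.Agent.Helper79.VC

end
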