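import Pool.Agent.VB.G

/-!
# Tools for Vaught's conjecture, part 8: linear parts, decoding

Merged file (to shorten the import chain): contents, unchanged, of
`Pool.Agent.VLin.TTa`, `Pool.Agent.VLin.TTb`, `Pool.Agent.VLin.DC`, `Pool.Agent.VLin.PSa`, `Pool.Agent.VLin.PSb`, `Pool.Agent.VLin.DF`, `Pool.Agent.VLin.D0`.
-/

/-! ### formerly `Pool.Agent.VLin.TTa` -/

section

/-!
# VLIN, module TTa: the ideal TT
-/

set_option autoImplicit false
set_option linter.unusedSectionVars false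
set_option linter.unusedVariables false

namespace Pool.Agent.Helper97.LO

open Set Pool.Agent.Helper5 Pool.Agent.Helper5.DU Pool.Agent.Helper6.Str
  Pool.Agent.Helper79.VC Pool.Agent.Helper97.VC Pool.Agent.Helper97.MD Pool.Agent.Helper6.VC

variable {L : FirstOrder.Language.{0, 0}} {M N P : Type} {A Γ : Type}

section TTa

variable {S : L.Structure M}

theorem TT.mono {X Y : Set M} (h : TT S Y) (hXY : X ⊆ Y) : TT S X := by
  intro F
  obtain ⟨κ, hκ⟩ := h F
  exact ⟨κ, fun c hc c' hc' => hκ c (hXY hc) c' (hXY hc')⟩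

theorem TT.iUnion {ι : Type} [Countable ι] {X : ι → Set M} (h : ∀ i, TT S (X i)) :
    TT S (⋃ i, X i) := by
  classical
  intro F
  obtain ⟨enc, henc⟩ := exists_injective_nat ι
  choose κ hκ using fun i => h i F
  have hi : ∀ c : M, ∃ n : ℕ, c ∈ ⋃ i, X i → ∃ i, c ∈ X i ∧ enc i = n := by
    intro c
    by_cases hc : c ∈ ⋃ i, X i
    · obtain ⟨i, hi⟩ := mem_iUnion.1 hc
      exact ⟨enc i, fun _ => ⟨i, hi, rfl⟩⟩
    · exact ⟨0, fun h => absurd h hc⟩
  choose n hn using hi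
  have hj : ∀ c : M, ∃ k : ℕ, ∀ i, c ∈ X i → enc i = n c → κ i c = k := by
    intro c
    by_cases hc : ∃ i, c ∈ X i ∧ enc i = n c
    · obtain ⟨i, hi1, hi2⟩ := hc
      refine ⟨κ i c, fun j hj1 hj2 => ?_⟩
      rw [henc (hj2.trans hi2.symm)]
    · exact ⟨0, fun i h1 h2 => absurd ⟨i, h1, h2⟩ hc⟩
  choose k hk using hj
  refine ⟨fun c => Nat.pair (n c) (k c), fun c hc c' hc' hcc => ?_⟩
  have h1 := congrArg Nat.unpair hcc
  simp only [Nat.unpair_pair] at h1
  have e1 : n c = n c' := congrArg Prod.fst h1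
  have e2 : k c = k c' := congrArg Prod.snd h1
  obtain ⟨i, hi1, hi2⟩ := hn c hc
  obtain ⟨j, hj1, hj2⟩ := hn c' hc'
  have e3 : i = j := henc (by rw [hi2, hj2, e1])
  subst e3
  refine hκ i c hi1 c' hj1 ?_
  rw [hk c i hi1 hi2, hk c' i hj1 hj2, e2]

theorem TT.union {X Y : Set M} (h : TT S X) (h' : TT S Y) : TT S (X ∪ Y) := by
  have : TT S (⋃ b : Bool, if b = true then X else Y) := by
    refine TT.iUnion fun b => ?_
    cases b
    · simpa using h'
    · simpa using h
  refine this.mono ?_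
  rintro x (hx | hx)
  · exact mem_iUnion.2 ⟨true, by simpa using hx⟩
  · exact mem_iUnion.2 ⟨false, by simpa using hx⟩

theorem TT.biUnion {ι : Type} {I : Set ι} (hI : I.Countable) {X : ι → Set M}
    (h : ∀ i ∈ I, TT S (X i)) : TT S (⋃ i ∈ I, X i) := by
  have := hI.to_subtype
  have h1 : TT S (⋃ i : I, X i.1) := TT.iUnion fun i => h i.1 i.2
  refine h1.mono fun x hx => ?_
  rw [mem_iUnion₂] at hx
  obtain ⟨i, hi, hx⟩ := hx
  exact mem_iUnion.2 ⟨⟨i, hi⟩, hx⟩

theorem TT.of_countable {X : Set M} (h : X.Countable) : TT S X := by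
  classical
  intro F
  obtain ⟨f, hf⟩ := countable_iff_exists_injOn.1 h
  refine ⟨f, fun c hc c' hc' hcc γ hγ => BFR.refl S univ γ ?_⟩
  have e : c = c' := hf hc hc' hcc
  subst e
  rintro a (rfl | ⟨x, hx, rfl⟩)
  · exact ⟨mem_univ _, rfl⟩
  · exact ⟨mem_univ _, rfl⟩

theorem tt_univ_iff : TT S univ ↔ TameX S univ := by
  constructor
  · intro h
    exact tameX_of_inf fun F _ => h F
  · intro h F
    exact h.types F (subset_univ _)

/-- definable sets in the ideal are tame -/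
theorem TT.tameX {X : Set M} (h : TT S X) (hX : Dfb S X) : TameX S X := by
  classical
  obtain ⟨F₀, η, hη, hX⟩ := hX
  refine tameX_of_inf fun F hF => ?_
  obtain ⟨κ, hκ⟩ := h (F₀ ∪ F)
  refine ⟨κ, fun c hc c' hc' hcc γ hγ => ?_⟩
  have h1 := hκ c hc c' hc' hcc (η + γ) (add_lt_om1 hη hγ)
  have h2 := BFR.restr (subset_univ X) (subset_univ X) η γ
    (p := insert (c, c') (dg ((F₀ ∪ F : Finset M) : Set M)))
    (fun x _ y _ hxy => hX x y (BFR.anti (insert_subset_insert ?_) hxy)) h1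
  · refine BFR.anti (insert_subset_insert (image_mono ?_)) h2
    rw [Finset.coe_union]
    exact subset_union_right
  · refine (image_mono ?_).trans (subset_insert _ _)
    rw [Finset.coe_union]
    exact subset_union_left

theorem infinite_of_not_tt {X : Set M} (h : ¬ TT S X) : Infinite X := by
  by_contra hX
  rw [not_infinite_iff_finite] at hX
  exact h (TT.of_countable (toFinite X).countable)

end TTa

end Pool.Agent.Helper97.LO

end

/-! ### formerly `Pool.Agent.VLin.TTb` -/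

section

/-!
# VLIN, module TTb: extension by the identity, pieces and expansions
-/

set_option autoImplicit false
set_option linter.unusedSectionVars false
set_option linter.unusedVariables false

namespace Pool.Agent.Helper97.LO

open Set Pool.Agent.Helper5 Pool.Agent.Helper5.DU Pool.Agent.Helper6.Str
  Pool.Agent.Helper79.VC Pool.Agent.Helper97.VC Pool.Agent.Helper97.MD Pool.Agent.Helper6.VC

variable {L : FirstOrder.Language.{0, 0}} {M N P : Type} {A Γ : Type}

section TTb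

/-- the pairs of a piece as pairs of the structure -/
private abbrev ttb_im {X : Set M} (p : Set (X × X)) : Set (M × M) :=
  (fun a : X × X => (a.1.1, a.2.1)) '' p

private theorem ttb_im_insert {X : Set M} (p : Set (X × X)) (x y : X) :
    ttb_im (insert (x, y) p) = insert (x.1, y.1) (ttb_im p) := by
  unfold ttb_im
  rw [image_insert_eq]

/-- equivalences of a piece with an expansion extend by the identity -/
private theorem ttb_lift {L' : FirstOrder.Language.{0, 0}} {S : L.Structure M} {X : Set M}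
    {S' : L'.Structure X}
    (H : ∀ p : Set (X × X), AtEq S' S' p → AtEq S S (ttb_im p ∪ dg Xᶜ)) (γ : Ordinal.{0}) :
    ∀ {p : Set (X × X)}, BFR S' S' univ univ γ p →
      BFR S S univ univ γ (ttb_im p ∪ dg Xᶜ) := by
  induction γ using WellFoundedLT.induction with
  | _ γ ih =>
    intro p h
    rw [BFR.def]
    refine ⟨H p h.atEq, fun β hβ => ⟨fun x _ => ?_, fun y _ => ?_⟩⟩
    · by_cases hx : x ∈ X
      · obtain ⟨y, -, hy⟩ := h.forth hβ (mem_univ (⟨x, hx⟩ : X))
        refine ⟨y.1, mem_univ _, ?_⟩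
        have h1 := ih β hβ hy
        rw [ttb_im_insert, insert_union] at h1
        exact h1
      · refine ⟨x, mem_univ _, ?_⟩
        rw [insert_eq_of_mem (show (x, x) ∈ ttb_im p ∪ dg Xᶜ from Or.inr ⟨x, hx, rfl⟩)]
        exact ih β hβ (h.mono hβ.le)
    · by_cases hy : y ∈ X
      · obtain ⟨x, -, hx⟩ := h.back hβ (mem_univ (⟨y, hy⟩ : X))
        refine ⟨x.1, mem_univ _, ?_⟩
        have h1 := ih β hβ hx
        rw [ttb_im_insert, insert_union] at h1
        exact h1
      · refine ⟨y, mem_univ _, ?_⟩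
        rw [insert_eq_of_mem (show (y, y) ∈ ttb_im p ∪ dg Xᶜ from Or.inr ⟨y, hy, rfl⟩)]
        exact ih β hβ (h.mono hβ.le)

/-- equivalences of the structure restrict to a definable piece with an expansion -/
private theorem ttb_lower {L' : FirstOrder.Language.{0, 0}} {S : L.Structure M} {X : Set M}
    {S' : L'.Structure X} (F : Finset M) {η : Ordinal.{0}}
    (hX : ∀ c c', BFR S S univ univ η (insert (c, c') (dg (F : Set M))) → (c ∈ X ↔ c' ∈ X))
    (H : ∀ p : Set (X × X), BFR S S univ univ η (ttb_im p ∪ dg (F : Set M)) → AtEq S' S' p)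
    (γ : Ordinal.{0}) : ∀ {p : Set (X × X)},
      BFR S S univ univ (η + γ) (ttb_im p ∪ dg (F : Set M)) → BFR S' S' univ univ γ p := by
  induction γ using WellFoundedLT.induction with
  | _ γ ih =>
    intro p h
    rw [BFR.def]
    refine ⟨H p (h.mono le_self_add), fun β hβ => ⟨fun x _ => ?_, fun y _ => ?_⟩⟩
    · obtain ⟨y, -, hy⟩ := h.forth (add_lt_add_right hβ η) (mem_univ x.1)
      have hyX : y ∈ X := by
        refine (hX x.1 y (BFR.anti ?_ (hy.mono le_self_add))).1 x.2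
        exact insert_subset_insert subset_union_right
      refine ⟨⟨y, hyX⟩, mem_univ _, ih β hβ ?_⟩
      rw [ttb_im_insert, insert_union]
      exact hy
    · obtain ⟨x, -, hx⟩ := h.back (add_lt_add_right hβ η) (mem_univ y.1)
      have hxX : x ∈ X := by
        refine (hX x y.1 (BFR.anti ?_ (hx.mono le_self_add))).2 y.2
        exact insert_subset_insert subset_union_right
      refine ⟨⟨x, hxX⟩, mem_univ _, ih β hβ ?_⟩
      rw [ttb_im_insert, insert_union]
      exact hx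

/-- the ideals of a structure and of a definable piece with an expansion -/
private theorem ttb_iff {L' : FirstOrder.Language.{0, 0}} {S : L.Structure M} {X : Set M}
    {S' : L'.Structure X} (F : Finset M) {η : Ordinal.{0}} (hη : η < om1)
    (hX : ∀ c c', BFR S S univ univ η (insert (c, c') (dg (F : Set M))) → (c ∈ X ↔ c' ∈ X))
    (H : ∀ p : Set (X × X), BFR S S univ univ η (ttb_im p ∪ dg (F : Set M)) → AtEq S' S' p)
    (H' : ∀ p : Set (X × X), AtEq S' S' p → AtEq S S (ttb_im p ∪ dg Xᶜ)) (Y : Set X) :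
    TT S' Y ↔ TT S (Subtype.val '' Y) := by
  classical
  constructor
  · intro h G
    obtain ⟨κ, hκ⟩ := h (G.subtype (· ∈ X))
    refine ⟨fun c => if hc : c ∈ X then κ ⟨c, hc⟩ else 0, ?_⟩
    rintro _ ⟨c, hc, rfl⟩ _ ⟨c', hc', rfl⟩ hcc γ hγ
    have hcc' : κ c = κ c' := by simpa using hcc
    have h1 := ttb_lift H' γ (hκ c hc c' hc' hcc' γ hγ)
    refine BFR.anti ?_ h1
    rintro z (rfl | ⟨x, hx, rfl⟩)
    · exact Or.inl ⟨(c, c'), Or.inl rfl, rfl⟩
    · by_cases hxX : x ∈ X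
      · refine Or.inl ⟨(⟨x, hxX⟩, ⟨x, hxX⟩), Or.inr ⟨⟨x, hxX⟩, ?_, rfl⟩, rfl⟩
        simpa using hx
      · exact Or.inr ⟨x, hxX, rfl⟩
  · intro h G
    obtain ⟨κ, hκ⟩ := h (F ∪ G.image Subtype.val)
    refine ⟨fun c => κ c.1, fun c hc c' hc' hcc γ hγ => ?_⟩
    refine ttb_lower F hX H γ (BFR.anti ?_ (hκ c.1 ⟨c, hc, rfl⟩ c'.1 ⟨c', hc', rfl⟩ hcc
      (η + γ) (add_lt_om1 hη hγ)))
    rintro z (⟨a, rfl | ⟨x, hx, rfl⟩, rfl⟩ | ⟨x, hx, rfl⟩)
    · exact Or.inl rfl
    · refine Or.inr ⟨x.1, ?_, rfl⟩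
      rw [Finset.coe_union]
      refine Or.inr ?_
      rw [Finset.coe_image]
      exact ⟨x, hx, rfl⟩
    · refine Or.inr ⟨x, ?_, rfl⟩
      rw [Finset.coe_union]
      exact Or.inl hx

/-- definable sets of a definable piece with an expansion -/
private theorem ttb_dfb {L' : FirstOrder.Language.{0, 0}} {S : L.Structure M} {X : Set M}
    {S' : L'.Structure X} (F : Finset M) {η : Ordinal.{0}} (hη : η < om1)
    (hX : ∀ c c', BFR S S univ univ η (insert (c, c') (dg (F : Set M))) → (c ∈ X ↔ c' ∈ X))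
    (H : ∀ p : Set (X × X), BFR S S univ univ η (ttb_im p ∪ dg (F : Set M)) → AtEq S' S' p)
    {Y : Set X} (hY : Dfb S' Y) : Dfb S (Subtype.val '' Y) := by
  classical
  obtain ⟨G, ζ, hζ, hY⟩ := hY
  refine ⟨F ∪ G.image Subtype.val, η + ζ, add_lt_om1 hη hζ, fun c c' h => ?_⟩
  have hsub : insert (c, c') (dg (F : Set M)) ⊆
      insert (c, c') (dg ((F ∪ G.image Subtype.val : Finset M) : Set M)) := by
    refine insert_subset_insert (image_mono ?_)
    rw [Finset.coe_union]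
    exact subset_union_left
  have hXX := hX c c' ((BFR.anti hsub h).mono le_self_add)
  have key : ∀ (hc : c ∈ X) (hc' : c' ∈ X), (⟨c, hc⟩ : X) ∈ Y ↔ (⟨c', hc'⟩ : X) ∈ Y := by
    intro hc hc'
    refine hY _ _ (ttb_lower F hX H ζ (BFR.anti ?_ h))
    rintro z (⟨a, rfl | ⟨x, hx, rfl⟩, rfl⟩ | ⟨x, hx, rfl⟩)
    · exact Or.inl rfl
    · refine Or.inr ⟨x.1, ?_, rfl⟩
      rw [Finset.coe_union]
      refine Or.inr ?_
      rw [Finset.coe_image]
      exact ⟨x, hx, rfl⟩
    · refine Or.inr ⟨x, ?_, rfl⟩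
      rw [Finset.coe_union]
      exact Or.inl hx
  constructor
  · rintro ⟨x, hx, rfl⟩
    exact ⟨⟨c', hXX.1 x.2⟩, (key x.2 (hXX.1 x.2)).1 hx, rfl⟩
  · rintro ⟨x, hx, rfl⟩
    exact ⟨⟨c, hXX.2 x.2⟩, (key (hXX.2 x.2) x.2).2 hx, rfl⟩

/-- the atomic facts of a piece and those of the structure, with the identity outside -/
private theorem ttb_atEq (hL : Ar2 L) {S : L.Structure M} {X : Set M} {p : Set (X × X)}
    {Q : Set M} (hQ : ∀ g ∈ Q, g ∉ X) (h : AtEq S S (ttb_im p))
    (hout : ∀ a ∈ p, ∀ g, g ∉ X → AtEq S S {(g, g), (a.1.1, a.2.1)}) :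
    AtEq S S (ttb_im p ∪ dg Q) := by
  refine atEq_of_pairs hL fun a ha b hb => ?_
  rcases ha with ⟨a, ha, rfl⟩ | ⟨g, hg, rfl⟩ <;> rcases hb with ⟨b, hb, rfl⟩ | ⟨g', hg', rfl⟩
  · refine AtEq.anti ?_ h
    rintro d (rfl | rfl)
    · exact ⟨a, ha, rfl⟩
    · exact ⟨b, hb, rfl⟩
  · refine AtEq.anti ?_ (hout a ha g' (hQ g' hg'))
    rintro d (rfl | rfl)
    · exact Or.inr rfl
    · exact Or.inl rfl
  · refine AtEq.anti ?_ (hout b hb g (hQ g hg))
    rintro d (rfl | rfl)
    · exact Or.inl rfl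
    · exact Or.inr rfl
  · refine TR.atEq_refl S ?_
    rintro d (rfl | rfl) <;> rfl

variable [∀ n, IsEmpty (L.Functions n)] {S : L.Structure M}

/-- **Extension by the identity.** -/
theorem Auto.ext (hL : Ar2 L) {X : Set M} (hX : Auto S X) {γ : Ordinal.{0}} {p : Set (M × M)}
    (hp : ∀ a ∈ p, a.1 ∈ X ∧ a.2 ∈ X) {G : Set M} (hG : ∀ g ∈ G, g ∉ X)
    (h : BFR S S X X γ p) : BFR S S univ univ γ (p ∪ dg G) := by
  classical
  let π : M → Option M := fun x => if x ∈ X then none else some x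
  have hin : ∀ x ∈ X, π x = none := fun x hx => if_pos hx
  have hout : ∀ x, x ∉ X → π x = some x := fun x hx => if_neg hx
  refine BFR.comp_index π π ?_ γ ?_ ?_
  · intro q hq hat
    have hcases : ∀ a ∈ q, (a.1 ∈ X ∧ a.2 ∈ X) ∨ (a.1 ∉ X ∧ a.2 = a.1) := by
      intro a ha
      have h1 := (hq a ha).2.2
      by_cases h2 : a.1 ∈ X
      · left
        refine ⟨h2, ?_⟩
        by_contra h3
        rw [hin _ h2, hout _ h3] at h1
        cases h1
      · right
        refine ⟨h2, ?_⟩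
        rw [hout _ h2] at h1
        by_cases h3 : a.2 ∈ X
        · rw [hin _ h3] at h1
          cases h1
        · rw [hout _ h3] at h1
          exact (Option.some.inj h1).symm
    refine atEq_of_pairs hL fun a ha b hb => ?_
    rcases hcases a ha with ha' | ha' <;> rcases hcases b hb with hb' | hb'
    · refine AtEq.anti ?_ (hat none)
      rintro d (rfl | rfl)
      · exact ⟨ha, hin _ ha'.1⟩
      · exact ⟨hb, hin _ hb'.1⟩
    · have h1 : AtEq S S {(a.1, a.2)} := by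
        refine AtEq.anti ?_ (hat none)
        rintro d rfl
        exact ⟨ha, hin _ ha'.1⟩
      refine AtEq.anti ?_ (hX b.1 hb'.1 a.1 ha'.1 a.2 ha'.2 h1)
      rintro d (rfl | rfl)
      · exact Or.inr rfl
      · exact Or.inl (Prod.ext rfl hb'.2)
    · have h1 : AtEq S S {(b.1, b.2)} := by
        refine AtEq.anti ?_ (hat none)
        rintro d rfl
        exact ⟨hb, hin _ hb'.1⟩
      refine AtEq.anti ?_ (hX a.1 ha'.1 b.1 hb'.1 b.2 hb'.2 h1)
      rintro d (rfl | rfl)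
      · exact Or.inl (Prod.ext rfl ha'.2)
      · exact Or.inr rfl
    · refine TR.atEq_refl S ?_
      rintro d (rfl | rfl)
      · exact ha'.2
      · exact hb'.2
  · rintro a (ha | ⟨g, hg, rfl⟩)
    · exact ⟨mem_univ _, mem_univ _, by rw [hin _ (hp a ha).1, hin _ (hp a ha).2]⟩
    · exact ⟨mem_univ _, mem_univ _, rfl⟩
  · intro i
    cases i with
    | none =>
      have e : {a : M | a ∈ univ ∧ π a = none} = X := by
        ext x
        constructor
        · rintro ⟨-, hx⟩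
          by_contra h3
          rw [hout _ h3] at hx
          cases hx
        · exact fun hx => ⟨mem_univ _, hin _ hx⟩
      rw [e]
      refine BFR.anti ?_ h
      rintro a ⟨ha | ⟨g, hg, rfl⟩, hai⟩
      · exact ha
      · rw [hout _ (hG g hg)] at hai
        cases hai
    | some x =>
      refine BFR.refl S _ γ ?_
      rintro a ⟨ha | ⟨g, hg, rfl⟩, hai⟩
      · rw [hin _ (hp a ha).1] at hai
        cases hai
      · exact ⟨⟨mem_univ _, hai⟩, rfl⟩

theorem Auto.tt (hL : Ar2 L) {X : Set M} (hX : Auto S X) (h : TameX S X) : TT S X := by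
  classical
  intro F
  obtain ⟨κ, hκ⟩ := h.types (F.filter (· ∈ X)) (by
    intro x hx
    simpa using (Finset.mem_filter.1 (Finset.mem_coe.1 hx)).2)
  refine ⟨κ, fun c hc c' hc' hcc γ hγ => ?_⟩
  have h1 := hX.ext hL (p := insert (c, c') (dg ((F.filter (· ∈ X) : Finset M) : Set M)))
    (G := {g | g ∉ X}) (by
      rintro a (rfl | ⟨x, hx, rfl⟩)
      · exact ⟨hc, hc'⟩
      · have := (Finset.mem_filter.1 (Finset.mem_coe.1 hx)).2
        exact ⟨this, this⟩) (fun g hg => hg) (hκ c hc c' hc' hcc γ hγ)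
  refine BFR.anti ?_ h1
  rintro z (rfl | ⟨x, hx, rfl⟩)
  · exact Or.inl (Or.inl rfl)
  · by_cases hxX : x ∈ X
    · exact Or.inl (Or.inr ⟨x, Finset.mem_coe.2 (Finset.mem_filter.2 ⟨hx, hxX⟩), rfl⟩)
    · exact Or.inr ⟨x, hxX, rfl⟩

private theorem ttb_exS_lower {C : Type} (X : Set M)
    (dat : M → C) (rel : M → M → Prop) (F : Finset M) {η : Ordinal.{0}}
    (hdat : ∀ z ∈ X, ∀ z' ∈ X, BFR S S univ univ η (insert (z, z') (dg (F : Set M))) →
      dat z = dat z')
    (hrel : ∀ z ∈ X, ∀ w ∈ X, ∀ z' ∈ X, ∀ w' ∈ X,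
      BFR S S univ univ η (insert (z, z') (insert (w, w') (dg (F : Set M)))) →
      (rel z w ↔ rel z' w')) (p : Set (X × X))
    (h : BFR S S univ univ η (ttb_im p ∪ dg (F : Set M))) :
    AtEq (exS (pl S (Subtype.val : X → M)) (fun z => dat z.1) fun z w => rel z.1 w.1)
      (exS (pl S (Subtype.val : X → M)) (fun z => dat z.1) fun z w => rel z.1 w.1) p := by
  have h1 : AtEq S S ((fun a : X × X => (a.1.1, a.2.1)) '' p) :=
    AtEq.anti subset_union_left h.atEq
  rw [atEq_exS]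
  refine ⟨(Exp.atEq_pl' Subtype.val_injective).mpr h1, fun a ha => ?_, fun a ha b hb => ?_⟩
  · refine hdat _ a.1.2 _ a.2.2 (BFR.anti ?_ h)
    rintro c (rfl | hc)
    · exact Or.inl ⟨a, ha, rfl⟩
    · exact Or.inr hc
  · refine hrel _ a.1.2 _ b.1.2 _ a.2.2 _ b.2.2 (BFR.anti ?_ h)
    rintro c (rfl | rfl | hc)
    · exact Or.inl ⟨a, ha, rfl⟩
    · exact Or.inl ⟨b, hb, rfl⟩
    · exact Or.inr hc

/-- **The ideal in a definable piece with an expansion.** -/
theorem tt_piece {C : Type} [Countable C] (hL : Ar2 L) (X : Set M)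
    (dat : M → C) (rel : M → M → Prop) (F : Finset M) {η : Ordinal.{0}}
    (hη : η < om1)
    (hX : ∀ c c', BFR S S univ univ η (insert (c, c') (dg (F : Set M))) → (c ∈ X ↔ c' ∈ X))
    (hdat : ∀ z ∈ X, ∀ z' ∈ X, BFR S S univ univ η (insert (z, z') (dg (F : Set M))) →
      dat z = dat z')
    (hrel : ∀ z ∈ X, ∀ w ∈ X, ∀ z' ∈ X, ∀ w' ∈ X,
      BFR S S univ univ η (insert (z, z') (insert (w, w') (dg (F : Set M)))) →
      (rel z w ↔ rel z' w'))
    (hout : ∀ g, g ∉ X → ∀ z ∈ X, ∀ z' ∈ X, dat z = dat z' → AtEq S S {(z, z')} →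
      AtEq S S {(g, g), (z, z')}) (Y : Set X) :
    TT (exS (pl S (Subtype.val : X → M)) (fun z => dat z.1) fun z w => rel z.1 w.1) Y ↔
      TT S (Subtype.val '' Y) := by
  refine ttb_iff F hη hX (ttb_exS_lower X dat rel F hdat hrel) (fun p h => ?_) Y
  obtain ⟨h1, h2, h3⟩ := atEq_exS.mp h
  rw [Exp.atEq_pl' Subtype.val_injective] at h1
  refine ttb_atEq hL (fun g hg => hg) h1 fun a ha g hg => ?_
  refine hout g hg _ a.1.2 _ a.2.2 (h2 a ha) (AtEq.anti ?_ h1)
  rintro d rfl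
  exact ⟨a, ha, rfl⟩

theorem tt_pl (hL : Ar2 L) {X : Set M} (hX : Dfb S X) (hA : Auto S X) (Y : Set X) :
    TT (pl S (Subtype.val : X → M)) Y ↔ TT S (Subtype.val '' Y) := by
  obtain ⟨F, η, hη, hX⟩ := hX
  refine ttb_iff F hη hX (fun p h => ?_) (fun p h => ?_) Y
  · exact (Exp.atEq_pl' Subtype.val_injective).mpr (AtEq.anti subset_union_left h.atEq)
  · rw [Exp.atEq_pl' Subtype.val_injective] at h
    refine ttb_atEq hL (fun g hg => hg) h fun a ha g hg => ?_
    refine hA g hg _ a.1.2 _ a.2.2 (AtEq.anti ?_ h)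
    rintro d rfl
    exact ⟨a, ha, rfl⟩

/-- definable subsets of definable pieces are definable -/
theorem dfb_of_pl {X : Set M} (hX : Dfb S X) {Y : Set X}
    (hY : Dfb (pl S (Subtype.val : X → M)) Y) : Dfb S (Subtype.val '' Y) := by
  obtain ⟨F, η, hη, hX⟩ := hX
  refine ttb_dfb F hη hX (fun p h => ?_) hY
  exact (Exp.atEq_pl' Subtype.val_injective).mpr (AtEq.anti subset_union_left h.atEq)

/-- the same with an expansion -/
theorem dfb_of_piece {C : Type} [Countable C] (X : Set M)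
    (dat : M → C) (rel : M → M → Prop) (F : Finset M) {η : Ordinal.{0}}
    (hη : η < om1)
    (hX : ∀ c c', BFR S S univ univ η (insert (c, c') (dg (F : Set M))) → (c ∈ X ↔ c' ∈ X))
    (hdat : ∀ z ∈ X, ∀ z' ∈ X, BFR S S univ univ η (insert (z, z') (dg (F : Set M))) →
      dat z = dat z')
    (hrel : ∀ z ∈ X, ∀ w ∈ X, ∀ z' ∈ X, ∀ w' ∈ X,
      BFR S S univ univ η (insert (z, z') (insert (w, w') (dg (F : Set M)))) →
      (rel z w ↔ rel z' w')) {Y : Set X}
    (hY : Dfb (exS (pl S (Subtype.val : X → M)) (fun z => dat z.1) fun z w => rel z.1 w.1) Y) :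
    Dfb S (Subtype.val '' Y) :=
  ttb_dfb F hη hX (ttb_exS_lower X dat rel F hdat hrel) hY

/-- definable pieces of large structures are large structures -/
theorem VSt.pl' [∀ n, Countable (L.Relations n)] {K : Set (L.Structure ℕ)} {δ : Ordinal.{0}}
    (hL : Ar2 L) (hS : VSt K δ S) {X : Set M} [Infinite X] (hX : Dfb S X) (hA : Auto S X) :
    ∃ (K' : Set (L.Structure ℕ)) (δ' : Ordinal.{0}),
      VSt K' δ' (pl S (Subtype.val : X → M)) := by
  obtain ⟨F, η, hη, hX⟩ := hX
  refine hS.interp (S' := pl S (Subtype.val : X → M)) (e := Subtype.val)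
    Subtype.val_injective F hη ?_ ?_ ?_
  · intro c c' h
    rw [Subtype.range_val]
    exact hX c c' h
  · intro p hp h
    exact (Exp.atEq_pl' Subtype.val_injective).mpr (AtEq.anti subset_union_left h.atEq)
  · intro p hp h Q hQ
    rw [Exp.atEq_pl' Subtype.val_injective] at h
    have hQX : ∀ g ∈ Q, g ∉ X := by
      intro g hg
      have := hQ g hg
      rwa [Subtype.range_val] at this
    refine ttb_atEq hL hQX h fun a ha g hg => ?_
    refine hA g hg _ a.1.2 _ a.2.2 (AtEq.anti ?_ h)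
    rintro d rfl
    exact ⟨a, ha, rfl⟩

end TTb

end Pool.Agent.Helper97.LO

end

/-! ### formerly `Pool.Agent.VLin.DC` -/

section

/-!
# VLIN, module DC: calculus of definable sets and relations
-/

set_option autoImplicit false
set_option linter.unusedSectionVars false
set_option linter.unusedVariables false

namespace Pool.Agent.Helper97.LO

open Set Pool.Agent.Helper5 Pool.Agent.Helper5.DU Pool.Agent.Helper6.Str
  Pool.Agent.Helper79.VC Pool.Agent.Helper97.VC Pool.Agent.Helper97.MD Pool.Agent.Helper6.VC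

variable {L : FirstOrder.Language.{0, 0}} {M N P : Type} {A Γ : Type}

section DC

variable {S : L.Structure M} {X Y : Set M} {R R' : M → M → Prop}

private theorem dc_dg_mono {F G : Finset M} (h : F ⊆ G) :
    dg (F : Set M) ⊆ dg (G : Set M) := image_mono (Finset.coe_subset.2 h)

private theorem dc_zero_lt : (0 : Ordinal.{0}) < om1 := Ordinal.omega_pos 1

theorem dfb_univ : Dfb S (univ : Set M) :=
  ⟨∅, 0, dc_zero_lt, fun _ _ _ => ⟨fun _ => mem_univ _, fun _ => mem_univ _⟩⟩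

theorem Dfb.compl (h : Dfb S X) : Dfb S Xᶜ := by
  obtain ⟨F, η, hη, h⟩ := h
  exact ⟨F, η, hη, fun c c' hc => not_congr (h c c' hc)⟩

theorem Dfb.inter (h : Dfb S X) (h' : Dfb S Y) : Dfb S (X ∩ Y) := by
  classical
  obtain ⟨F, η, hη, h⟩ := h
  obtain ⟨F', η', hη', h'⟩ := h'
  refine ⟨F ∪ F', max η η', max_lt hη hη', fun c c' hc => and_congr (h c c' ?_) (h' c c' ?_)⟩
  · exact (BFR.anti (insert_subset_insert (dc_dg_mono Finset.subset_union_left)) hc).mono
      (le_max_left _ _)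
  · exact (BFR.anti (insert_subset_insert (dc_dg_mono Finset.subset_union_right)) hc).mono
      (le_max_right _ _)

theorem Dfb.union (h : Dfb S X) (h' : Dfb S Y) : Dfb S (X ∪ Y) := by
  have := (h.compl.inter h'.compl).compl
  rwa [compl_inter, compl_compl, compl_compl] at this

theorem Dfb.diff (h : Dfb S X) (h' : Dfb S Y) : Dfb S (X \ Y) := by
  rw [sdiff_eq]
  exact h.inter h'.compl

theorem dfb_of_finite (h : X.Finite) : Dfb S X := by
  refine ⟨h.toFinset, 0, dc_zero_lt, fun c c' hc => ?_⟩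
  have h1 := hc.atEq.1
  rw [h.coe_toFinset] at h1
  constructor
  · intro hcX
    have := (h1 (c, c') (mem_insert _ _) (c, c) (mem_insert_of_mem _ ⟨c, hcX, rfl⟩)).1 rfl
    have h2 : c' = c := this
    rw [h2]
    exact hcX
  · intro hcX
    have := (h1 (c, c') (mem_insert _ _) (c', c') (mem_insert_of_mem _ ⟨c', hcX, rfl⟩)).2 rfl
    have h2 : c = c' := this
    rw [h2]
    exact hcX

theorem Dfb.left (h : Dfb S X) : Dfb2 S fun x _ => x ∈ X := by
  obtain ⟨F, η, hη, h⟩ := h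
  exact ⟨F, η, hη, fun x y x' y' hc =>
    h x x' (BFR.anti (insert_subset_insert (subset_insert _ _)) hc)⟩

theorem Dfb.right (h : Dfb S X) : Dfb2 S fun _ y => y ∈ X := by
  obtain ⟨F, η, hη, h⟩ := h
  exact ⟨F, η, hη, fun x y x' y' hc => h y y' (BFR.anti (subset_insert _ _) hc)⟩

theorem Dfb2.swap (h : Dfb2 S R) : Dfb2 S fun x y => R y x := by
  obtain ⟨F, η, hη, h⟩ := h
  refine ⟨F, η, hη, fun x y x' y' hc => h y x y' x' ?_⟩
  rw [insert_comm]
  exact hc

theorem Dfb2.not (h : Dfb2 S R) : Dfb2 S fun x y => ¬ R x y := by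
  obtain ⟨F, η, hη, h⟩ := h
  exact ⟨F, η, hη, fun x y x' y' hc => not_congr (h x y x' y' hc)⟩

theorem Dfb2.and (h : Dfb2 S R) (h' : Dfb2 S R') : Dfb2 S fun x y => R x y ∧ R' x y := by
  classical
  obtain ⟨F, η, hη, h⟩ := h
  obtain ⟨F', η', hη', h'⟩ := h'
  refine ⟨F ∪ F', max η η', max_lt hη hη', fun x y x' y' hc =>
    and_congr (h x y x' y' ?_) (h' x y x' y' ?_)⟩
  · exact (BFR.anti (insert_subset_insert (insert_subset_insert
      (dc_dg_mono Finset.subset_union_left))) hc).mono (le_max_left _ _)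
  · exact (BFR.anti (insert_subset_insert (insert_subset_insert
      (dc_dg_mono Finset.subset_union_right))) hc).mono (le_max_right _ _)

theorem Dfb2.or (h : Dfb2 S R) (h' : Dfb2 S R') : Dfb2 S fun x y => R x y ∨ R' x y := by
  obtain ⟨F, η, hη, h1⟩ := (h.not.and h'.not).not
  refine ⟨F, η, hη, fun x y x' y' hc => ?_⟩
  have := h1 x y x' y' hc
  tauto

theorem Dfb2.comp (h : Dfb2 S R) (h' : Dfb2 S R') : Dfb2 S fun x y => ∃ w, R x w ∧ R' w y := by
  classical
  obtain ⟨F, η, hη, h⟩ := h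
  obtain ⟨F', η', hη', h'⟩ := h'
  refine ⟨F ∪ F', max η η' + 1, add_one_lt_om1 (max_lt hη hη'), fun x y x' y' hc => ?_⟩
  have key : ∀ w w', BFR S S univ univ (max η η') (insert (w, w') (insert (x, x')
      (insert (y, y') (dg ((F ∪ F' : Finset M) : Set M))))) →
      (R x w ↔ R x' w') ∧ (R' w y ↔ R' w' y') := by
    intro w w' hw
    refine ⟨h x w x' w' ?_, h' w y w' y' ?_⟩
    · refine (BFR.anti ?_ hw).mono (le_max_left _ _)
      rintro z (rfl | rfl | hz)
      · exact Or.inr (Or.inl rfl)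
      · exact Or.inl rfl
      · exact Or.inr (Or.inr (Or.inr (dc_dg_mono Finset.subset_union_left hz)))
    · refine (BFR.anti ?_ hw).mono (le_max_right _ _)
      rintro z (rfl | rfl | hz)
      · exact Or.inl rfl
      · exact Or.inr (Or.inr (Or.inl rfl))
      · exact Or.inr (Or.inr (Or.inr (dc_dg_mono Finset.subset_union_right hz)))
  constructor
  · rintro ⟨w, h1, h2⟩
    obtain ⟨w', -, hw⟩ := hc.forth (lt_add_one_self _) (mem_univ w)
    obtain ⟨k1, k2⟩ := key w w' hw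
    exact ⟨w', k1.1 h1, k2.1 h2⟩
  · rintro ⟨w', h1, h2⟩
    obtain ⟨w, -, hw⟩ := hc.back (lt_add_one_self _) (mem_univ w')
    obtain ⟨k1, k2⟩ := key w w' hw
    exact ⟨w, k1.2 h1, k2.2 h2⟩

theorem Dfb2.fiber (h : Dfb2 S R) (x : M) : Dfb S {y | R x y} := by
  classical
  obtain ⟨F, η, hη, h⟩ := h
  refine ⟨insert x F, η, hη, fun y y' hc => h x y x y' (BFR.anti ?_ hc)⟩
  rintro z (rfl | rfl | hz)
  · exact Or.inr ⟨x, by simp, rfl⟩
  · exact Or.inl rfl
  · exact Or.inr (dc_dg_mono (Finset.subset_insert _ _) hz)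

theorem Dfb2.ex (h : Dfb2 S R) : Dfb S {y | ∃ x, R x y} := by
  obtain ⟨F, η, hη, h⟩ := h
  refine ⟨F, η + 1, add_one_lt_om1 hη, fun y y' hc => ⟨?_, ?_⟩⟩
  · rintro ⟨x, hx⟩
    obtain ⟨x', -, hw⟩ := hc.forth (lt_add_one_self _) (mem_univ x)
    exact ⟨x', (h x y x' y' hw).1 hx⟩
  · rintro ⟨x', hx⟩
    obtain ⟨x, -, hw⟩ := hc.back (lt_add_one_self _) (mem_univ x')
    exact ⟨x, (h x y x' y' hw).2 hx⟩

theorem Dfb2.all (h : Dfb2 S R) : Dfb S {y | ∀ x, R x y} := by
  have := h.not.ex.compl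
  have he : {y | ∃ x, ¬ R x y}ᶜ = {y | ∀ x, R x y} := by
    ext y
    simp
  rwa [he] at this

theorem Dfb2.eq : Dfb2 S fun x y => x = y := by
  refine ⟨∅, 0, dc_zero_lt, fun x y x' y' hc => ?_⟩
  exact hc.atEq.1 (x, x') (mem_insert _ _) (y, y') (mem_insert_of_mem _ (mem_insert _ _))

theorem DfbC.dfb {C : Type} {dat : M → C} (h : DfbC S dat) (s : Set C) :
    Dfb S {x | dat x ∈ s} := by
  obtain ⟨F, η, hη, h⟩ := h
  refine ⟨F, η, hη, fun c c' hc => ?_⟩
  show dat c ∈ s ↔ dat c' ∈ s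
  rw [h c c' hc]

theorem DfbC.of_dfb {C : Type} [Finite C] {dat : M → C} (h : ∀ a, Dfb S {x | dat x = a}) :
    DfbC S dat := by
  classical
  have := Fintype.ofFinite C
  choose F η hη h using h
  obtain ⟨B, hB, hle⟩ := exists_bound hη
  refine ⟨Finset.univ.biUnion F, B, hB, fun c c' hc => ?_⟩
  have h1 := (h (dat c) c c' ((BFR.anti (insert_subset_insert (dc_dg_mono
    (Finset.subset_biUnion_of_mem F (Finset.mem_univ _)))) hc).mono (hle _))).1 rfl
  exact h1.symm

theorem DfbC.prod {C D : Type} {dat : M → C} {dat' : M → D} (h : DfbC S dat)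
    (h' : DfbC S dat') : DfbC S fun x => (dat x, dat' x) := by
  classical
  obtain ⟨F, η, hη, h⟩ := h
  obtain ⟨F', η', hη', h'⟩ := h'
  refine ⟨F ∪ F', max η η', max_lt hη hη', fun c c' hc => Prod.ext (h c c' ?_) (h' c c' ?_)⟩
  · exact (BFR.anti (insert_subset_insert (dc_dg_mono Finset.subset_union_left)) hc).mono
      (le_max_left _ _)
  · exact (BFR.anti (insert_subset_insert (dc_dg_mono Finset.subset_union_right)) hc).mono
      (le_max_right _ _)

theorem DfbC.of_atEq {C : Type} {dat : M → C}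
    (h : ∀ x x', AtEq S S {(x, x')} → dat x = dat x') : DfbC S dat :=
  ⟨∅, 0, dc_zero_lt, fun c c' hc => h c c' (AtEq.anti (singleton_subset_iff.2 (mem_insert _ _))
    hc.atEq)⟩

theorem Dfb2.of_atEq {R : M → M → Prop}
    (h : ∀ x y x' y', AtEq S S {(x, x'), (y, y')} → (R x y ↔ R x' y')) : Dfb2 S R := by
  refine ⟨∅, 0, dc_zero_lt, fun x y x' y' hc => h x y x' y' (AtEq.anti ?_ hc.atEq)⟩
  rintro z (rfl | rfl)
  · exact Or.inl rfl
  · exact Or.inr (Or.inl rfl)

end DC

end Pool.Agent.Helper97.LO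

end

/-! ### formerly `Pool.Agent.VLin.PSa` -/

section

/-!
# VLIN, module PSa: closures
-/

set_option autoImplicit false
set_option linter.unusedSectionVars false
set_option linter.unusedVariables false

namespace Pool.Agent.Helper97.LO

open Set Pool.Agent.Helper5 Pool.Agent.Helper5.DU Pool.Agent.Helper6.Str
  Pool.Agent.Helper79.VC Pool.Agent.Helper97.VC Pool.Agent.Helper97.MD Pool.Agent.Helper6.VC

variable {L : FirstOrder.Language.{0, 0}} {M N P : Type} {A Γ : Type}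

namespace PS

section

variable {τ : M → M → A} {c : M → Γ} {m : Γ → Γ → A} {rv : A → A} {a b : Γ}

theorem mem_cl_self (x : M) : x ∈ Cl τ c m x := Relation.ReflTransGen.refl

theorem cl_subset_cl {x y : M} (h : y ∈ Cl τ c m x) : Cl τ c m y ⊆ Cl τ c m x :=
  fun _ hz => Relation.ReflTransGen.trans h hz

theorem cld_cl (x : M) : Cld τ c m (Cl τ c m x) :=
  fun _ hy _ hz => Relation.ReflTransGen.tail hy hz

theorem Cld.cl_subset {X : Set M} (h : Cld τ c m X) {x : M} (hx : x ∈ X) : Cl τ c m x ⊆ X := by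
  intro y hy
  have hy' : Relation.ReflTransGen (Arr τ c m) x y := hy
  induction hy' with
  | refl => exact hx
  | tail h1 h2 ih => exact h _ (ih h1) _ h2

theorem cld_iUnion {ι : Sort*} {X : ι → Set M} (h : ∀ i, Cld τ c m (X i)) :
    Cld τ c m (⋃ i, X i) := by
  intro x hx y hy
  obtain ⟨i, hi⟩ := mem_iUnion.mp hx
  exact mem_iUnion.mpr ⟨i, h i x hi y hy⟩

theorem cld_iInter {ι : Sort*} {X : ι → Set M} (h : ∀ i, Cld τ c m (X i)) :
    Cld τ c m (⋂ i, X i) := by
  intro x hx y hy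
  exact mem_iInter.mpr fun i => h i x (mem_iInter.mp hx i) y hy

theorem Cld.union {X Y : Set M} (h : Cld τ c m X) (h' : Cld τ c m Y) : Cld τ c m (X ∪ Y) := by
  intro x hx y hy
  rcases hx with hx | hx
  · exact Or.inl (h x hx y hy)
  · exact Or.inr (h' x hx y hy)

theorem Cld.inter {X Y : Set M} (h : Cld τ c m X) (h' : Cld τ c m Y) : Cld τ c m (X ∩ Y) := by
  intro x hx y hy
  exact ⟨h x hx.1 y hy, h' x hx.2 y hy⟩

theorem Cld.tau {X : Set M} (h : Cld τ c m X) {x y : M} (hx : x ∈ X) (hy : y ∉ X) :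
    τ x y = m (c x) (c y) := by
  by_contra hne
  have hxy : x ≠ y := fun e => hy (e ▸ hx)
  exact hy (h x hx y ⟨hxy, hne⟩)

theorem cld_subset {X : Set M} (Y : Set M) : Cld τ c m {z | Cl τ c m z ⊆ Y} := by
  intro x hx y hy
  exact (cl_subset_cl (Relation.ReflTransGen.single hy)).trans hx

/-- the part of the closure of `x` strictly below `x` -/
theorem cld_below (x : M) : Cld τ c m {y | y ∈ Cl τ c m x ∧ x ∉ Cl τ c m y} := by
  intro y hy z hz
  exact ⟨Relation.ReflTransGen.tail hy.1 hz,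
    fun h => hy.2 (cl_subset_cl (Relation.ReflTransGen.single hz) h)⟩

theorem scc_eq (x : M) : Scc τ c m x = Cl τ c m x \ {y | y ∈ Cl τ c m x ∧ x ∉ Cl τ c m y} := by
  ext y
  constructor
  · rintro ⟨h1, h2⟩
    exact ⟨h1, fun h => h.2 h2⟩
  · rintro ⟨h1, h2⟩
    refine ⟨h1, ?_⟩
    by_contra h3
    exact h2 ⟨h1, h3⟩

theorem scc_self (x : M) : x ∈ Scc τ c m x := ⟨mem_cl_self x, mem_cl_self x⟩

theorem scc_symm {x y : M} (h : y ∈ Scc τ c m x) : x ∈ Scc τ c m y := ⟨h.2, h.1⟩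

theorem scc_trans {x y z : M} (h : y ∈ Scc τ c m x) (h' : z ∈ Scc τ c m y) :
    z ∈ Scc τ c m x := ⟨cl_subset_cl h.1 h'.1, cl_subset_cl h'.2 h.2⟩

theorem not_arr_tau {x y : M} (hxy : x ≠ y) (h : ¬ Arr τ c m x y) : τ x y = m (c x) (c y) := by
  by_contra hne
  exact h ⟨hxy, hne⟩

/-- (P0) -/
theorem comparable (hrv : ∀ x y, τ y x = rv (τ x y)) {x y : M}
    (h : m (c x) (c y) ≠ rv (m (c y) (c x))) : y ∈ Cl τ c m x ∨ x ∈ Cl τ c m y := by
  by_contra hcon
  push Not at hcon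
  obtain ⟨h1, h2⟩ := hcon
  have hxy : x ≠ y := by
    rintro rfl
    exact h1 (mem_cl_self _)
  have e1 : τ x y = m (c x) (c y) :=
    not_arr_tau hxy fun ha => h1 (Relation.ReflTransGen.single ha)
  have e2 : τ y x = m (c y) (c x) :=
    not_arr_tau hxy.symm fun ha => h2 (Relation.ReflTransGen.single ha)
  apply h
  rw [← e1, ← e2]
  exact hrv y x

theorem tau_of_sym (hrv : ∀ x y, τ y x = rv (τ x y)) {x y : M} (hxy : y ∉ Scc τ c m x)
    (h : m (c x) (c y) = rv (m (c y) (c x))) : τ x y = m (c x) (c y) := by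
  have hne : x ≠ y := by
    rintro rfl
    exact hxy (scc_self _)
  by_cases ha : Arr τ c m x y
  · have h1 : y ∈ Cl τ c m x := Relation.ReflTransGen.single ha
    have e2 : τ y x = m (c y) (c x) :=
      not_arr_tau hne.symm fun ha' => hxy ⟨h1, Relation.ReflTransGen.single ha'⟩
    rw [h, ← e2]
    exact hrv y x
  · exact not_arr_tau hne ha

/-- differences of closed sets -/
theorem tau_out {Y Z : Set M} (hY : Cld τ c m Y) (hZ : Cld τ c m Z)
    (hrv : ∀ x y, τ y x = rv (τ x y)) {x x' g : M} (hx : x ∈ Y \ Z) (hx' : x' ∈ Y \ Z)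
    (hg : g ∉ Y \ Z) (hc : c x = c x') : τ x g = τ x' g := by
  by_cases h : g ∈ Y
  · have hgZ : g ∈ Z := by
      by_contra h2
      exact hg ⟨h, h2⟩
    rw [hrv g x, hrv g x', hZ.tau hgZ hx.2, hZ.tau hgZ hx'.2, hc]
  · rw [hY.tau hx.1 h, hY.tau hx'.1 h, hc]

theorem cl_sub_iff {Y Z : Set M} (hY : Cld τ c m Y) (hZ : Cld τ c m Z) (x y : (Y \ Z : Set M)) :
    y ∈ Cl (fun u v : (Y \ Z : Set M) => τ u.1 v.1) (fun u => c u.1) m x ↔
      y.1 ∈ Cl τ c m x.1 := by
  constructor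
  · intro h
    have h' : Relation.ReflTransGen
      (Arr (fun u v : (Y \ Z : Set M) => τ u.1 v.1) (fun u => c u.1) m) x y := h
    refine Relation.ReflTransGen.lift Subtype.val ?_ _ _ h'
    rintro u v ⟨h1, h2⟩
    exact ⟨fun e => h1 (Subtype.ext e), h2⟩
  · intro h
    have key : ∀ u : M, Relation.ReflTransGen (Arr τ c m) u y.1 → ∀ hu : u ∈ Y \ Z,
        Relation.ReflTransGen
          (Arr (fun u v : (Y \ Z : Set M) => τ u.1 v.1) (fun u => c u.1) m) ⟨u, hu⟩ y := by
      intro u hu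
      induction hu using Relation.ReflTransGen.head_induction_on with
      | refl =>
        intro hu
        exact Relation.ReflTransGen.refl
      | head h1 h2 ih =>
        rename_i u v
        intro hu
        have hv : v ∈ Y \ Z := by
          refine ⟨hY _ hu.1 _ h1, fun hvZ => y.2.2 ?_⟩
          exact hZ.cl_subset hvZ h2
        exact Relation.ReflTransGen.head
          ⟨fun e => h1.1 (congrArg Subtype.val e), h1.2⟩ (ih hv)
    exact key x.1 h x.2

theorem cl_sub {Y Z : Set M} (hY : Cld τ c m Y) (hZ : Cld τ c m Z) (x : (Y \ Z : Set M)) :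
    Subtype.val '' Cl (fun u v : (Y \ Z : Set M) => τ u.1 v.1) (fun u => c u.1) m x =
      Cl τ c m x.1 ∩ (Y \ Z) := by
  ext y
  constructor
  · rintro ⟨y, hy, rfl⟩
    exact ⟨(cl_sub_iff hY hZ x y).mp hy, y.2⟩
  · rintro ⟨h1, h2⟩
    exact ⟨⟨y, h2⟩, (cl_sub_iff hY hZ x ⟨y, h2⟩).mpr h1, rfl⟩

theorem scc_sub_iff {Y Z : Set M} (hY : Cld τ c m Y) (hZ : Cld τ c m Z)
    (x y : (Y \ Z : Set M)) :
    y ∈ Scc (fun u v : (Y \ Z : Set M) => τ u.1 v.1) (fun u => c u.1) m x ↔
      y.1 ∈ Scc τ c m x.1 :=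
  and_congr (cl_sub_iff hY hZ x y) (cl_sub_iff hY hZ y x)

theorem scc_sub {Y Z : Set M} (hY : Cld τ c m Y) (hZ : Cld τ c m Z) (x : (Y \ Z : Set M)) :
    Subtype.val '' Scc (fun u v : (Y \ Z : Set M) => τ u.1 v.1) (fun u => c u.1) m x =
      Scc τ c m x.1 ∩ (Y \ Z) := by
  ext y
  constructor
  · rintro ⟨y, hy, rfl⟩
    exact ⟨(scc_sub_iff hY hZ x y).mp hy, y.2⟩
  · rintro ⟨h1, h2⟩
    exact ⟨⟨y, h2⟩, (scc_sub_iff hY hZ x ⟨y, h2⟩).mpr h1, rfl⟩

theorem bad_sub {Y Z : Set M} (hY : Cld τ c m Y) (hZ : Cld τ c m Z) :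
    Bad (fun u v : (Y \ Z : Set M) => τ u.1 v.1) (fun u => c u.1) m rv ⊆ Bad τ c m rv := by
  rintro p ⟨h1, x, y, hx, hy, hxy⟩
  exact ⟨h1, x.1, y.1, hx, hy, fun h => hxy ((scc_sub_iff hY hZ x y).mpr h)⟩

/-- no bad pairs -/
theorem tau_of_bad_empty (hrv : ∀ x y, τ y x = rv (τ x y)) (h : Bad τ c m rv = ∅) {x y : M}
    (hxy : y ∉ Scc τ c m x) : τ x y = m (c x) (c y) := by
  apply tau_of_sym hrv hxy
  by_contra hne
  have : (c x, c y) ∈ Bad τ c m rv := ⟨hne, x, y, rfl, rfl, hxy⟩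
  rw [h] at this
  exact this

theorem cl_eq_scc_of_bad_empty (hrv : ∀ x y, τ y x = rv (τ x y)) (h : Bad τ c m rv = ∅)
    (x : M) : Cl τ c m x = Scc τ c m x := by
  apply Subset.antisymm _ fun y hy => hy.1
  apply Cld.cl_subset _ (scc_self x)
  intro y hy z hz
  refine scc_trans hy ?_
  by_contra hne
  exact hz.2 (tau_of_bad_empty hrv h hne)

theorem image_cl_subtype (X : Set M) (x : X) :
    Subtype.val '' Cl (fun u v : X => τ u.1 v.1) (fun u => c u.1) m x = ClX τ c m X x.1 := by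
  ext y
  constructor
  · rintro ⟨y, hy, rfl⟩
    have h' : Relation.ReflTransGen
      (Arr (fun u v : X => τ u.1 v.1) (fun u => c u.1) m) x y := hy
    refine Relation.ReflTransGen.lift Subtype.val ?_ _ _ h'
    rintro u v ⟨h1, h2⟩
    exact ⟨u.2, v.2, fun e => h1 (Subtype.ext e), h2⟩
  · intro hy
    have h' : Relation.ReflTransGen (fun u v => u ∈ X ∧ v ∈ X ∧ Arr τ c m u v) x.1 y := hy
    induction h' with
    | refl => exact ⟨x, mem_cl_self x, rfl⟩
    | tail h1 h2 ih =>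
      rename_i u v
      obtain ⟨w, hw1, rfl⟩ := ih h1
      refine ⟨⟨v, h2.2.1⟩, ?_, rfl⟩
      refine Relation.ReflTransGen.tail hw1 ⟨?_, h2.2.2.2⟩
      intro e
      apply h2.2.2.1
      rw [e]

theorem clX_subset {X : Set M} {x : M} (hx : x ∈ X) : ClX τ c m X x ⊆ X := by
  intro y hy
  have h' : Relation.ReflTransGen (fun u v => u ∈ X ∧ v ∈ X ∧ Arr τ c m u v) x y := hy
  induction h' with
  | refl => exact hx
  | tail h1 h2 ih => exact h2.2.1

/-- a set which is closed in `X` -/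
theorem clX_subset_of_closed {X Y : Set M} (h : ∀ x ∈ X ∩ Y, ∀ y ∈ X, y ∉ Y →
    τ x y = m (c x) (c y)) {x : M} (hx : x ∈ X ∩ Y) : ClX τ c m X x ⊆ Y := by
  intro y hy
  have h' : Relation.ReflTransGen (fun u v => u ∈ X ∧ v ∈ X ∧ Arr τ c m u v) x y := hy
  induction h' with
  | refl => exact hx.2
  | tail h1 h2 ih =>
    rename_i u v
    by_contra hv
    exact h2.2.2.2 (h u ⟨h2.1, ih h1⟩ v h2.2.1 hv)

end

end PS

end Pool.Agent.Helper97.LO

end

/-! ### formerly `Pool.Agent.VLin.PSb` -/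

section

/-!
# VLIN, module PSb: the preorder given by an asymmetric pair
-/

set_option autoImplicit false
set_option linter.unusedSectionVars false
set_option linter.unusedVariables false

namespace Pool.Agent.Helper97.LO

open Set Pool.Agent.Helper5 Pool.Agent.Helper5.DU Pool.Agent.Helper6.Str
  Pool.Agent.Helper79.VC Pool.Agent.Helper97.VC Pool.Agent.Helper97.MD Pool.Agent.Helper6.VC

variable {L : FirstOrder.Language.{0, 0}} {M N P : Type} {A Γ : Type}

namespace PS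

section

variable {τ : M → M → A} {c : M → Γ} {m : Γ → Γ → A} {rv : A → A} {a b : Γ}

theorem opp_symm {u w : M} (h : Opp c a b u w) : Opp c a b w u :=
  h.elim (fun h => Or.inr ⟨h.2, h.1⟩) fun h => Or.inl ⟨h.2, h.1⟩

theorem opp_cmp (hrv : ∀ x y, τ y x = rv (τ x y)) (hab : m a b ≠ rv (m b a)) {x y : M}
    (h : Opp c a b x y) : y ∈ Cl τ c m x ∨ x ∈ Cl τ c m y := by
  rcases h with ⟨hx, hy⟩ | ⟨hx, hy⟩
  · apply comparable hrv
    rw [hx, hy]
    exact hab
  · apply Or.symm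
    apply comparable hrv
    rw [hx, hy]
    exact hab

theorem cld_eu (u : M) : Cld τ c m (Eu τ c m a b u) := by
  rintro z ⟨w, h1, h2, h3, h4⟩ y hy
  exact ⟨w, h1, h2, h3, cld_cl w z h4 y hy⟩

theorem eu_subset (u : M) : Eu τ c m a b u ⊆ Cl τ c m u := by
  rintro z ⟨w, h1, h2, h3, h4⟩
  exact cl_subset_cl h2 h4

theorem not_mem_eu (u : M) : u ∉ Eu τ c m a b u := by
  rintro ⟨w, h1, h2, h3, h4⟩
  exact h3 h4

theorem eu_nested (hrv : ∀ x y, τ y x = rv (τ x y)) (hab : m a b ≠ rv (m b a)) (u u' : M) :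
    Eu τ c m a b u ⊆ Eu τ c m a b u' ∨ Eu τ c m a b u' ⊆ Eu τ c m a b u := by
  rw [or_iff_not_imp_left]
  intro hn
  rw [Set.not_subset] at hn
  obtain ⟨z, ⟨w, h1, h2, h3, h4⟩, hz⟩ := hn
  rintro z' ⟨w', k1, k2, k3, k4⟩
  refine ⟨w, h1, h2, h3, ?_⟩
  have case1 : Opp c a b u' w → z' ∈ Cl τ c m w := by
    intro ho
    have hu' : u' ∈ Cl τ c m w := by
      by_contra hcon
      rcases opp_cmp hrv hab ho with h | h
      · exact hz ⟨w, ho, h, hcon, h4⟩
      · exact hcon h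
    exact cl_subset_cl hu' (cl_subset_cl k2 k4)
  have case2 : Opp c a b w w' → z' ∈ Cl τ c m w := by
    intro ho
    rcases opp_cmp hrv hab ho with h | h
    · exact cl_subset_cl h k4
    · exact absurd ⟨w', k1, k2, k3, cl_subset_cl h h4⟩ hz
  rcases h1 with ⟨e1, e2⟩ | ⟨e1, e2⟩ <;> rcases k1 with ⟨f1, f2⟩ | ⟨f1, f2⟩
  · exact case1 (Or.inl ⟨f1, e2⟩)
  · exact case2 (Or.inr ⟨e2, f2⟩)
  · exact case2 (Or.inl ⟨e2, f2⟩)
  · exact case1 (Or.inr ⟨f1, e2⟩)

theorem ple_refl (x : M) : Ple τ c m a b x x := fun _ h => h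

theorem ple_trans {x y z : M} (h : Ple τ c m a b x y) (h' : Ple τ c m a b y z) :
    Ple τ c m a b x z := fun u hu => h u (h' u hu)

theorem ple_total (hrv : ∀ x y, τ y x = rv (τ x y)) (hab : m a b ≠ rv (m b a)) (x y : M) : Ple τ c m a b x y ∨ Ple τ c m a b y x := by
  by_contra hcon
  rw [not_or] at hcon
  obtain ⟨h1, h2⟩ := hcon
  unfold Ple at h1 h2
  push Not at h1 h2
  obtain ⟨u, hu1, hu2⟩ := h1
  obtain ⟨u', hu1', hu2'⟩ := h2
  rcases eu_nested hrv hab u u' with h | h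
  · exact hu2' (h hu1)
  · exact hu2 (h hu1')

theorem cld_ple (x : M) : Cld τ c m {z | Ple τ c m a b z x} := by
  intro z hz y hy u hu
  exact cld_eu u z (hz u hu) y hy

theorem plt_iff {x z : M} : Plt τ c m a b z x ↔ ∃ u, z ∈ Eu τ c m a b u ∧ x ∉ Eu τ c m a b u := by
  unfold Plt Ple
  push Not
  rfl

theorem cld_plt (x : M) : Cld τ c m {z | Plt τ c m a b z x} := by
  intro z hz y hy
  obtain ⟨u, h1, h2⟩ := plt_iff.mp hz
  exact plt_iff.mpr ⟨u, cld_eu u z h1 y hy, h2⟩

theorem tau_of_plt {x y : M} (h : Plt τ c m a b x y) : τ x y = m (c x) (c y) := by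
  obtain ⟨u, h1, h2⟩ := plt_iff.mp h
  exact (cld_eu u).tau h1 h2

theorem fib_eq (hrv : ∀ x y, τ y x = rv (τ x y)) (hab : m a b ≠ rv (m b a)) (x : M) :
    Fib τ c m a b x = {z | Ple τ c m a b z x} \ {z | Plt τ c m a b z x} := by
  ext z
  constructor
  · rintro ⟨h1, h2⟩
    exact ⟨h1, fun h => h h2⟩
  · rintro ⟨h1, h2⟩
    exact ⟨h1, not_not.mp h2⟩

theorem scc_subset_fib (x : M) : Scc τ c m x ⊆ Fib τ c m a b x := by
  rintro y ⟨h1, h2⟩
  exact ⟨fun u hu => (cld_eu u).cl_subset hu h1, fun u hu => (cld_eu u).cl_subset hu h2⟩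

/-- (P3) -/
theorem scc_of_fib (hrv : ∀ x y, τ y x = rv (τ x y)) (hab : m a b ≠ rv (m b a)) {x y z : M} (hx : c x = a) (hy : c y = b)
    (hxz : x ∈ Fib τ c m a b z) (hyz : y ∈ Fib τ c m a b z) : y ∈ Scc τ c m x := by
  have hxy : Ple τ c m a b x y := ple_trans hxz.1 hyz.2
  have hyx : Ple τ c m a b y x := ple_trans hyz.1 hxz.2
  have ho : Opp c a b x y := Or.inl ⟨hx, hy⟩
  rcases opp_cmp hrv hab ho with h | h
  · refine ⟨h, ?_⟩
    by_contra hcon
    exact not_mem_eu x (hxy x ⟨y, ho, h, hcon, mem_cl_self y⟩)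
  · refine ⟨?_, h⟩
    by_contra hcon
    exact not_mem_eu y (hyx y ⟨x, opp_symm ho, h, hcon, mem_cl_self x⟩)

/-- (P4) -/
theorem plt_subset_cl (hrv : ∀ x y, τ y x = rv (τ x y)) (hab : m a b ≠ rv (m b a)) {u : M} (hu : c u = a ∨ c u = b) :
    {z | Plt τ c m a b z u} ⊆ Cl τ c m u := by
  intro z hz
  obtain ⟨u', ⟨w, h1, h2, h3, h4⟩, hu'⟩ := plt_iff.mp hz
  have huw : u ∉ Cl τ c m w := fun h => hu' ⟨w, h1, h2, h3, h⟩
  have case1 : Opp c a b u w → z ∈ Cl τ c m u := by
    intro ho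
    rcases opp_cmp hrv hab ho with h | h
    · exact cl_subset_cl h h4
    · exact absurd h huw
  have case2 : Opp c a b u u' → z ∈ Cl τ c m u := by
    intro ho
    have hc : u' ∈ Cl τ c m u := by
      by_contra hcon
      rcases opp_cmp hrv hab ho with h | h
      · exact hcon h
      · exact hu' ⟨u, opp_symm ho, h, hcon, mem_cl_self u⟩
    exact cl_subset_cl hc (cl_subset_cl h2 h4)
  rcases hu with hu | hu <;> rcases h1 with ⟨e1, e2⟩ | ⟨e1, e2⟩
  · exact case1 (Or.inl ⟨hu, e2⟩)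
  · exact case2 (Or.inl ⟨hu, e1⟩)
  · exact case2 (Or.inr ⟨hu, e1⟩)
  · exact case1 (Or.inr ⟨hu, e2⟩)

/-- the fibres have fewer bad pairs -/
theorem bad_fib (hrv : ∀ x y, τ y x = rv (τ x y)) (hab : m a b ≠ rv (m b a)) (z : M) (Y Z : Set M) (hY : Cld τ c m Y) (hZ : Cld τ c m Z)
    (hYZ : Y \ Z ⊆ Fib τ c m a b z) :
    (a, b) ∉ Bad (fun u v : (Y \ Z : Set M) => τ u.1 v.1) (fun u => c u.1) m rv := by
  rintro ⟨h1, x, y, hx, hy, hxy⟩
  exact hxy ((scc_sub_iff hY hZ x y).mpr (scc_of_fib hrv hab hx hy (hYZ x.2) (hYZ y.2)))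

end

end PS

end Pool.Agent.Helper97.LO

end

/-! ### formerly `Pool.Agent.VLin.DF` -/

section

/-!
# VLIN, module DF: definability of the closures
-/

set_option autoImplicit false
set_option linter.unusedSectionVars false
set_option linter.unusedVariables false

namespace Pool.Agent.Helper97.LO

open Set Pool.Agent.Helper5 Pool.Agent.Helper5.DU Pool.Agent.Helper6.Str
  Pool.Agent.Helper79.VC Pool.Agent.Helper97.VC Pool.Agent.Helper97.MD Pool.Agent.Helper6.VC

variable {L : FirstOrder.Language.{0, 0}} {M N P : Type} {A Γ : Type}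

section DF

variable [∀ n, IsEmpty (L.Functions n)] {S : L.Structure M} {τ : M → M → A} {rv : A → A}
  {c : M → Γ} {m : Γ → Γ → A}

theorem df_nat_lt (κ : Ordinal.{0}) (n : ℕ) : κ + (n : Ordinal.{0}) < κ + ((n + 1 : ℕ) : Ordinal.{0}) := by
  have : (n : Ordinal.{0}) < ((n + 1 : ℕ) : Ordinal.{0}) := by exact_mod_cast Nat.lt_succ_self n
  exact add_lt_add_right this κ

/-- paths are transferred, one direction -/
theorem df_rtg {S : L.Structure M} {T : L.Structure N} {R : M → M → Prop} {R' : N → N → Prop}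
    {q : Set (M × N)} {κ : Ordinal.{0}}
    (hR : ∀ x y x' y', BFR S T univ univ κ (insert (x, x') (insert (y, y') q)) → R x y → R' x' y')
    {y : M} {x : M} (hxy : Relation.ReflTransGen R x y) :
    ∃ n : ℕ, ∀ x' y', BFR S T univ univ (κ + n) (insert (x, x') (insert (y, y') q)) →
      Relation.ReflTransGen R' x' y' := by
  induction hxy using Relation.ReflTransGen.head_induction_on with
  | refl =>
    refine ⟨0, fun x' y' h => ?_⟩
    have h1 := h.atEq.1 (y, x') (mem_insert _ _) (y, y') (mem_insert_of_mem _ (mem_insert _ _))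
    have h2 : x' = y' := h1.1 rfl
    rw [h2]
  | head hac hcy ih =>
    rename_i a x1
    obtain ⟨n, hn⟩ := ih
    refine ⟨n + 1, fun x' y' h => ?_⟩
    obtain ⟨x1', -, h1⟩ := h.forth (df_nat_lt κ n) (mem_univ x1)
    have h2 : R' x' x1' := by
      refine hR a x1 x' x1' ((BFR.anti ?_ h1).mono le_self_add) hac
      rintro w (rfl | rfl | hw)
      · exact mem_insert_of_mem _ (mem_insert _ _)
      · exact mem_insert _ _
      · exact mem_insert_of_mem _ (mem_insert_of_mem _ (mem_insert_of_mem _ hw))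
    have h3 : Relation.ReflTransGen R' x1' y' := by
      refine hn x1' y' (BFR.anti ?_ h1)
      rintro w (rfl | rfl | hw)
      · exact mem_insert _ _
      · exact mem_insert_of_mem _ (mem_insert_of_mem _ (mem_insert _ _))
      · exact mem_insert_of_mem _ (mem_insert_of_mem _ (mem_insert_of_mem _ hw))
    exact Relation.ReflTransGen.head h2 h3

theorem df_rtg_omega {S : L.Structure M} {T : L.Structure N} {R : M → M → Prop}
    {R' : N → N → Prop} {q : Set (M × N)} {κ : Ordinal.{0}}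
    (hR : ∀ x y x' y', BFR S T univ univ κ (insert (x, x') (insert (y, y') q)) →
      (R x y ↔ R' x' y')) {x y : M} {x' y' : N}
    (h : BFR S T univ univ (κ + Ordinal.omega0) (insert (x, x') (insert (y, y') q))) :
    Relation.ReflTransGen R x y ↔ Relation.ReflTransGen R' x' y' := by
  constructor
  · intro hxy
    obtain ⟨n, hn⟩ := df_rtg (fun x y x' y' h => (hR x y x' y' h).1) hxy
    exact hn x' y' (h.mono (add_le_add_right (Ordinal.natCast_lt_omega0 n).le κ))
  · intro hxy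
    have hR' : ∀ x' y' x y, BFR T S univ univ κ (insert (x', x) (insert (y', y)
        (Prod.swap ⁻¹' q))) → R' x' y' → R x y := by
      intro x' y' x y h'
      refine (hR x y x' y' (h'.symm ?_)).2
      rintro w (rfl | rfl | hw)
      · exact mem_insert _ _
      · exact mem_insert_of_mem _ (mem_insert _ _)
      · exact mem_insert_of_mem _ (mem_insert_of_mem _ hw)
    obtain ⟨n, hn⟩ := df_rtg hR' hxy
    refine hn x y ((h.symm ?_).mono (add_le_add_right (Ordinal.natCast_lt_omega0 n).le κ))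
    rintro w (rfl | rfl | hw)
    · exact mem_insert _ _
    · exact mem_insert_of_mem _ (mem_insert _ _)
    · exact mem_insert_of_mem _ (mem_insert_of_mem _ hw)

/-- closures are respected at level `ω`, also for two structures -/
theorem cl_congr {T : L.Structure N} {τ' : N → N → A} {c' : N → Γ}
    (hτ : ∀ x y x' y', AtEq S T {(x, x'), (y, y')} → τ x y = τ' x' y')
    {q : Set (M × N)} {κ : Ordinal.{0}}
    (hc : ∀ x x', BFR S T univ univ κ (insert (x, x') q) → c x = c' x') {x y : M} {x' y' : N}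
    (h : BFR S T univ univ (κ + Ordinal.omega0) (insert (x, x') (insert (y, y') q))) :
    y ∈ PS.Cl τ c m x ↔ y' ∈ PS.Cl τ' c' m x' := by
  refine df_rtg_omega (R := PS.Arr τ c m) (R' := PS.Arr τ' c' m) ?_ h
  intro x y x' y' h'
  have e1 : τ x y = τ' x' y' := by
    refine hτ x y x' y' (h'.atEq.anti ?_)
    rintro w (rfl | rfl)
    · exact mem_insert _ _
    · exact mem_insert_of_mem _ (mem_insert _ _)
  have e2 : c x = c' x' := by
    refine hc x x' (BFR.anti ?_ h')
    rintro w (rfl | hw)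
    · exact mem_insert _ _
    · exact mem_insert_of_mem _ (mem_insert_of_mem _ hw)
  have e3 : c y = c' y' := by
    refine hc y y' (BFR.anti ?_ h')
    exact subset_insert _ _
  have e4 : x = y ↔ x' = y' :=
    h'.atEq.1 (x, x') (mem_insert _ _) (y, y') (mem_insert_of_mem _ (mem_insert _ _))
  unfold PS.Arr
  rw [e1, e2, e3, ne_eq, ne_eq, e4]

theorem dfb2_cl (hτ : Lbl S τ rv) (hc : DfbC S c) : Dfb2 S fun x y => y ∈ PS.Cl τ c m x := by
  obtain ⟨F, η, hη, hF⟩ := hc
  refine ⟨F, η + Ordinal.omega0, add_lt_om1 hη omega_lt_om1, fun x y x' y' h => ?_⟩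
  exact cl_congr (fun x y x' y' h' => hτ.inv x y x' y' h') (fun x x' h' => hF x x' h') h

theorem df_opp (hc : DfbC S c) (a b : Γ) : Dfb2 S fun u w => PS.Opp c a b u w := by
  have ha : Dfb S {x | c x ∈ ({a} : Set Γ)} := hc.dfb {a}
  have hb : Dfb S {x | c x ∈ ({b} : Set Γ)} := hc.dfb {b}
  exact (ha.left.and hb.right).or (hb.left.and ha.right)

theorem df_eu (hτ : Lbl S τ rv) (hc : DfbC S c) (a b : Γ) :
    Dfb2 S fun u z => z ∈ PS.Eu τ c m a b u := by
  have hcl : Dfb2 S fun x y => y ∈ PS.Cl τ c m x := dfb2_cl hτ hc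
  have h1 : Dfb2 S fun u w => PS.Opp c a b u w ∧ (w ∈ PS.Cl τ c m u ∧ ¬ u ∈ PS.Cl τ c m w) :=
    (df_opp hc a b).and (hcl.and hcl.swap.not)
  obtain ⟨F, η, hη, hF⟩ := h1.comp hcl
  refine ⟨F, η, hη, fun x y x' y' h => ?_⟩
  have h2 := hF x y x' y' h
  simp only [and_assoc] at h2
  exact h2

theorem dfb2_ple (hτ : Lbl S τ rv) (hc : DfbC S c) (a b : Γ) :
    Dfb2 S fun x y => PS.Ple τ c m a b x y := by
  have h1 : Dfb2 S fun u z => z ∈ PS.Eu τ c m a b u := df_eu hτ hc a b
  have h2 : Dfb2 S fun x y => ∃ u, y ∈ PS.Eu τ c m a b u ∧ ¬ x ∈ PS.Eu τ c m a b u := by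
    obtain ⟨F, η, hη, hF⟩ := (h1.swap.comp h1.not).swap
    exact ⟨F, η, hη, hF⟩
  obtain ⟨F, η, hη, hF⟩ := h2.not
  refine ⟨F, η, hη, fun x y x' y' h => ?_⟩
  have h3 := hF x y x' y' h
  unfold PS.Ple
  simp only [not_exists, not_and, not_not] at h3
  exact h3

theorem dfb2_clX (hτ : Lbl S τ rv) (hc : DfbC S c) {X : Set M} (hX : Dfb S X) :
    Dfb2 S fun x y => y ∈ PS.ClX τ c m X x := by
  have h1 : Dfb2 S fun u v => u ∈ X ∧ v ∈ X ∧ PS.Arr τ c m u v := by
    refine hX.left.and (hX.right.and ?_)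
    obtain ⟨F, η, hη, hF⟩ := hc
    refine ⟨F, η, hη, fun x y x' y' h' => ?_⟩
    have e1 : τ x y = τ x' y' := by
      refine hτ.inv x y x' y' (h'.atEq.anti ?_)
      rintro w (rfl | rfl)
      · exact mem_insert _ _
      · exact mem_insert_of_mem _ (mem_insert _ _)
    have e2 : c x = c x' := by
      refine hF x x' (BFR.anti ?_ h')
      rintro w (rfl | hw)
      · exact mem_insert _ _
      · exact mem_insert_of_mem _ (mem_insert_of_mem _ hw)
    have e3 : c y = c y' := by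
      refine hF y y' (BFR.anti ?_ h')
      exact subset_insert _ _
    have e4 : x = y ↔ x' = y' :=
      h'.atEq.1 (x, x') (mem_insert _ _) (y, y') (mem_insert_of_mem _ (mem_insert _ _))
    unfold PS.Arr
    rw [e1, e2, e3, ne_eq, ne_eq, e4]
  obtain ⟨F, η, hη, hF⟩ := h1
  refine ⟨F, η + Ordinal.omega0, add_lt_om1 hη omega_lt_om1, fun x y x' y' h => ?_⟩
  exact df_rtg_omega hF h

theorem df_single (S : L.Structure M) (g : M) : AtEq S S {(g, g)} := by
  refine ⟨?_, fun n R v hv => ?_⟩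
  · rintro _ rfl _ rfl
    simp
  · have e : (fun i => (v i).1) = fun i => (v i).2 := by
      funext i
      rw [show v i = (g, g) from hv i]
    rw [e]

/-- differences of closed sets are autonomous -/
theorem auto_diff (hL : Ar2 L) (hτ : Lbl S τ rv) (hc : ∀ x x', AtEq S S {(x, x')} → c x = c x')
    {Y Z : Set M} (hY : PS.Cld τ c m Y) (hZ : PS.Cld τ c m Z) : Auto S (Y \ Z) := by
  intro g hg z hz z' hz' h
  have h1 : τ z g = τ z' g := PS.tau_out hY hZ hτ.rev hz hz' hg (hc z z' h)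
  refine hτ.det g z g z' ?_ ?_ (df_single S g) h ?_
  · rintro rfl; exact hg hz
  · rintro rfl; exact hg hz'
  · rw [hτ.rev z g, hτ.rev z' g, h1]

/-- pieces -/
theorem lbl_pl (hτ : Lbl S τ rv) (X : Set M) :
    Lbl (pl S (Subtype.val : X → M)) (fun u v : X => τ u.1 v.1) rv where
  rev x y := hτ.rev x.1 y.1
  inv x y x' y' h := by
    rw [Exp.atEq_pl' Subtype.val_injective, image_pair] at h
    exact hτ.inv _ _ _ _ h
  det x y x' y' h1 h2 h3 h4 h5 := by
    rw [Exp.atEq_pl' Subtype.val_injective, image_singleton] at h3 h4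
    rw [Exp.atEq_pl' Subtype.val_injective, image_pair]
    exact hτ.det _ _ _ _ (fun h => h1 (Subtype.ext h)) (fun h => h2 (Subtype.ext h)) h3 h4 h5

theorem lbl_exS {C : Type} (hτ : Lbl S τ rv) (dat : M → C) :
    Lbl (exS S dat fun _ _ => False) τ rv where
  rev := hτ.rev
  inv x y x' y' h := hτ.inv _ _ _ _ (atEq_exS.1 h).1
  det x y x' y' h1 h2 h3 h4 h5 := by
    rw [atEq_exS] at h3 h4 ⊢
    refine ⟨hτ.det _ _ _ _ h1 h2 h3.1 h4.1 h5, ?_, fun _ _ _ _ => Iff.rfl⟩
    rintro a (rfl | rfl)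
    · exact h3.2.1 _ rfl
    · exact h4.2.1 _ rfl

theorem lbl_bt (hL : Ar2 L) (S : L.Structure M) : Lbl S (bt S) Prod.swap where
  rev x y := rfl
  inv x y x' y' h := by
    have h1 : ∀ R : L.Relations 2, S.RelMap R ![x, y] ↔ S.RelMap R ![x', y'] := by
      intro R
      have := h.2 2 R ![(x, x'), (y, y')] (by
        intro i
        fin_cases i
        · exact mem_insert _ _
        · exact mem_insert_of_mem _ rfl)
      have e1 : (fun i => (![(x, x'), (y, y')] i).1) = ![x, y] := by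
        funext i; fin_cases i <;> rfl
      have e2 : (fun i => (![(x, x'), (y, y')] i).2) = ![x', y'] := by
        funext i; fin_cases i <;> rfl
      rwa [e1, e2] at this
    have h2 : ∀ R : L.Relations 2, S.RelMap R ![y, x] ↔ S.RelMap R ![y', x'] := by
      intro R
      have := h.2 2 R ![(y, y'), (x, x')] (by
        intro i
        fin_cases i
        · exact mem_insert_of_mem _ rfl
        · exact mem_insert _ _)
      have e1 : (fun i => (![(y, y'), (x, x')] i).1) = ![y, x] := by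
        funext i; fin_cases i <;> rfl
      have e2 : (fun i => (![(y, y'), (x, x')] i).2) = ![y', x'] := by
        funext i; fin_cases i <;> rfl
      rwa [e1, e2] at this
    refine Prod.ext ?_ ?_
    · ext R; exact h1 R
    · ext R; exact h2 R
  det x y x' y' h1 h2 h3 h4 h5 :=
    atEq_pair hL (a := (x, x')) (b := (y, y')) h3 h4
      ⟨fun h => absurd h h1, fun h => absurd h h2⟩ h5

/-- transfer of a labelling to an equivalent structure -/
theorem Lbl.transfer (hτ : Lbl S τ rv) {T : L.Structure N}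
    (h : BFR T S univ univ Ordinal.omega0 ∅) : ∃ τ' : N → N → A, Lbl T τ' rv ∧
      ∀ x y x' y', AtEq T S {(x, x'), (y, y')} → τ' x y = τ x' y' := by
  have hex : ∀ x y : N, ∃ z : M × M, AtEq T S {(x, z.1), (y, z.2)} := by
    intro x y
    have h2 : (1 : Ordinal.{0}) < Ordinal.omega0 := Ordinal.one_lt_omega0
    obtain ⟨x', -, h1⟩ := h.forth h2 (mem_univ x)
    obtain ⟨y', -, h3⟩ := h1.forth (zero_lt_one (α := Ordinal.{0})) (mem_univ y)
    refine ⟨(x', y'), h3.atEq.anti ?_⟩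
    rintro w (rfl | rfl)
    · exact mem_insert_of_mem _ (mem_insert _ _)
    · exact mem_insert _ _
  choose z hz using hex
  have key : ∀ x y x' y', AtEq T S {(x, x'), (y, y')} → τ (z x y).1 (z x y).2 = τ x' y' := by
    intro x y x' y' h1
    refine hτ.inv _ _ _ _ ?_
    refine atEq_trans (atEq_symm (hz x y) (q := {((z x y).1, x), ((z x y).2, y)}) ?_) h1 ?_
    · rintro w (rfl | rfl)
      · exact mem_insert _ _
      · exact mem_insert_of_mem _ rfl
    · rintro w (rfl | rfl)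
      · exact ⟨x, mem_insert _ _, mem_insert _ _⟩
      · exact ⟨y, mem_insert_of_mem _ rfl, mem_insert_of_mem _ rfl⟩
  refine ⟨fun x y => τ (z x y).1 (z x y).2, ⟨?_, ?_, ?_⟩, key⟩
  · intro x y
    rw [← hτ.rev]
    exact key y x _ _ ((hz x y).anti (by
      rintro w (rfl | rfl)
      · exact mem_insert_of_mem _ rfl
      · exact mem_insert _ _))
  · intro x y x' y' h1
    refine key x y _ _ (atEq_trans h1 (hz x' y') ?_)
    rintro w (rfl | rfl)
    · exact ⟨x', mem_insert _ _, mem_insert _ _⟩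
    · exact ⟨y', mem_insert_of_mem _ rfl, mem_insert_of_mem _ rfl⟩
  · intro x y x' y' h1 h2 h3 h4 h5
    have n1 : (z x y).1 ≠ (z x y).2 := by
      intro he
      exact h1 (((hz x y).1 _ (mem_insert _ _) _ (mem_insert_of_mem _ rfl)).2 he)
    have n2 : (z x' y').1 ≠ (z x' y').2 := by
      intro he
      exact h2 (((hz x' y').1 _ (mem_insert _ _) _ (mem_insert_of_mem _ rfl)).2 he)
    have k3 : AtEq S S {((z x y).1, (z x' y').1)} := by
      refine atEq_trans (atEq_symm (hz x y) (q := {((z x y).1, x)}) ?_)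
        (atEq_trans h3 (hz x' y') (r := {(x, (z x' y').1)}) ?_) ?_
      · rintro w rfl
        exact mem_insert _ _
      · rintro w rfl
        exact ⟨x', rfl, mem_insert _ _⟩
      · rintro w rfl
        exact ⟨x, rfl, rfl⟩
    have k4 : AtEq S S {((z x y).2, (z x' y').2)} := by
      refine atEq_trans (atEq_symm (hz x y) (q := {((z x y).2, y)}) ?_)
        (atEq_trans h4 (hz x' y') (r := {(y, (z x' y').2)}) ?_) ?_
      · rintro w rfl
        exact mem_insert_of_mem _ rfl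
      · rintro w rfl
        exact ⟨y', rfl, mem_insert_of_mem _ rfl⟩
      · rintro w rfl
        exact ⟨y, rfl, rfl⟩
    have k5 := hτ.det _ _ _ _ n1 n2 k3 k4 h5
    refine atEq_trans (hz x y) (atEq_trans k5 (atEq_symm (hz x' y')
      (q := {((z x' y').1, x'), ((z x' y').2, y')}) ?_)
      (r := {((z x y).1, x'), ((z x y).2, y')}) ?_) ?_
    · rintro w (rfl | rfl)
      · exact mem_insert _ _
      · exact mem_insert_of_mem _ rfl
    · rintro w (rfl | rfl)
      · exact ⟨(z x' y').1, mem_insert _ _, mem_insert _ _⟩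
      · exact ⟨(z x' y').2, mem_insert_of_mem _ rfl, mem_insert_of_mem _ rfl⟩
    · rintro w (rfl | rfl)
      · exact ⟨(z x y).1, mem_insert _ _, mem_insert _ _⟩
      · exact ⟨(z x y).2, mem_insert_of_mem _ rfl, mem_insert_of_mem _ rfl⟩

end DF

end Pool.Agent.Helper97.LO

end

/-! ### formerly `Pool.Agent.VLin.D0` -/

section

/-!
# VLIN, module D0: the union of the tame closures is definable if it is in the ideal
-/

set_option autoImplicit false
set_option linter.unusedSectionVars false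
set_option linter.unusedVariables false

namespace Pool.Agent.Helper97.LO

open Set Pool.Agent.Helper5 Pool.Agent.Helper5.DU Pool.Agent.Helper6.Str
  Pool.Agent.Helper79.VC Pool.Agent.Helper97.VC Pool.Agent.Helper97.MD Pool.Agent.Helper6.VC

variable {L : FirstOrder.Language.{0, 0}} {M N P : Type} {A Γ : Type}

section VS

variable [∀ n, IsEmpty (L.Functions n)] [∀ n, Countable (L.Relations n)]
  {K : Set (L.Structure ℕ)} {δ : Ordinal.{0}} {S : L.Structure M} {τ : M → M → A} {rv : A → A}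
  {c : M → Γ} {m : Γ → Γ → A}

/-- a definable piece with a Scott level is tame -/
theorem VSt.tame_of_SL (hS : VSt K δ S) {X : Set M} (hX : Dfb S X) {α : Ordinal.{0}}
    (hα : α < om1) (h : SL S X α) : TameX S X := by
  obtain ⟨F, η, hη, H⟩ := hX
  exact SL.tame (hS.small_sub F hη H) hα h

/-- restriction of the equivalence to the closures of two elements -/
theorem d0_restr (hτ : Lbl S τ rv) (hc : ∀ x x', AtEq S S {(x, x')} → c x = c x')
    {x x' : M} {γ : Ordinal.{0}}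
    (h : BFR S S univ univ (Ordinal.omega0 + γ) {(x, x')}) :
    BFR S S (PS.Cl τ c m x) (PS.Cl τ c m x') γ ∅ := by
  refine BFR.anti (empty_subset _) (BFR.restr (subset_univ _) (subset_univ _) Ordinal.omega0 γ
    (fun y _ y' _ hy => ?_) h)
  refine cl_congr (q := ∅) (κ := 0) hτ.inv (fun z z' hz => hc z z' ?_) ?_
  · have h1 := hz.atEq
    rwa [insert_empty_eq] at h1
  · rw [zero_add]
    refine BFR.anti ?_ hy
    rintro a (rfl | rfl | ha)
    · exact Or.inr rfl
    · exact Or.inl rfl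
    · exact absurd ha (notMem_empty a)

theorem d0_dfb_cl (hτ : Lbl S τ rv) (hc : ∀ x x', AtEq S S {(x, x')} → c x = c x') (x : M) :
    Dfb S (PS.Cl τ c m x) :=
  (dfb2_cl (m := m) hτ (DfbC.of_atEq hc)).fiber x

theorem d0_cld_empty : PS.Cld τ c m (∅ : Set M) := fun x hx => absurd hx (notMem_empty x)

theorem d0_auto_cl (hL : Ar2 L) (hτ : Lbl S τ rv)
    (hc : ∀ x x', AtEq S S {(x, x')} → c x = c x') (x : M) : Auto S (PS.Cl τ c m x) := by
  have h := auto_diff (m := m) hL hτ hc (PS.cld_cl x) (d0_cld_empty (τ := τ) (c := c) (m := m))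
  rwa [sdiff_empty] at h

theorem d0 (hL : Ar2 L) (hS : VSt K δ S) (hτ : Lbl S τ rv)
    (hc : ∀ x x', AtEq S S {(x, x')} → c x = c x')
    (h : TT S {x | TT S (PS.Cl τ c m x)}) : ∃ α < om1, {x | TT S (PS.Cl τ c m x)} =
      {x | SL S (PS.Cl τ c m x) α} := by
  classical
  obtain ⟨κ, hκ⟩ := h ∅
  have hlev : ∀ x, TT S (PS.Cl τ c m x) → ∃ α < om1, SL S (PS.Cl τ c m x) α := fun x hx =>
    (hx.tameX (d0_dfb_cl hτ hc x)).exists_SL
  have hch : ∀ n : ℕ, ∃ α < om1, ∀ x, TT S (PS.Cl τ c m x) → κ x = n →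
      SL S (PS.Cl τ c m x) α := by
    intro n
    by_cases hn : ∃ x, TT S (PS.Cl τ c m x) ∧ κ x = n
    · obtain ⟨x0, hx0, hκ0⟩ := hn
      obtain ⟨α, hα, hSL⟩ := hlev x0 hx0
      refine ⟨α, hα, fun x hx hκx => hSL.congr hα ?_⟩
      have h1 := hκ x0 hx0 x hx (hκ0.trans hκx.symm) (Ordinal.omega0 + (α + Ordinal.omega0))
        (add_lt_om1 omega_lt_om1 (add_lt_om1 hα omega_lt_om1))
      refine d0_restr hτ hc (BFR.anti ?_ h1)
      rintro a rfl
      exact mem_insert _ _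
    · exact ⟨0, Ordinal.omega_pos 1, fun x hx hκx => absurd ⟨x, hx, hκx⟩ hn⟩
  choose f hf1 hf2 using hch
  obtain ⟨α, hα, hfα⟩ := exists_bound hf1
  refine ⟨α, hα, ?_⟩
  ext x
  constructor
  · intro hx
    exact (hf2 (κ x) x hx rfl).mono (hfα _)
  · intro hx
    exact (d0_auto_cl hL hτ hc x).tt hL (hS.tame_of_SL (d0_dfb_cl hτ hc x) hα hx)

theorem dfb_d0 (hL : Ar2 L) (hS : VSt K δ S) (hτ : Lbl S τ rv)
    (hc : ∀ x x', AtEq S S {(x, x')} → c x = c x')
    (h : TT S {x | TT S (PS.Cl τ c m x)}) : Dfb S {x | TT S (PS.Cl τ c m x)} := by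
  obtain ⟨α, hα, e⟩ := d0 hL hS hτ hc h
  rw [e]
  refine ⟨∅, Ordinal.omega0 + (α + Ordinal.omega0),
    add_lt_om1 omega_lt_om1 (add_lt_om1 hα omega_lt_om1), fun x x' hxx => ?_⟩
  have h1 : BFR S S univ univ (Ordinal.omega0 + (α + Ordinal.omega0)) {(x, x')} := by
    refine BFR.anti ?_ hxx
    rintro a rfl
    exact mem_insert _ _
  have h2 : BFR S S (PS.Cl τ c m x) (PS.Cl τ c m x') (α + Ordinal.omega0) ∅ :=
    d0_restr hτ hc h1
  have h3 : BFR S S (PS.Cl τ c m x') (PS.Cl τ c m x) (α + Ordinal.omega0) ∅ :=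
    h2.symm fun a ha => absurd ha (notMem_empty a)
  exact ⟨fun h4 => SL.congr hα h4 h2, fun h4 => SL.congr hα h4 h3⟩

/-- restriction of the equivalence to two intervals -/
theorem d0_restr_Icc [Preorder M] {r : L.Relations 2} {o : Bool} (hO : OSt r o S)
    {x y y' : M} {γ : Ordinal.{0}}
    (h : BFR S S univ univ γ {(y, y'), (x, x)}) :
    BFR S S (Icc x y) (Icc x y') γ ∅ := by
  refine BFR.anti (empty_subset _) (BFR.restr₀ (subset_univ _) (subset_univ _) ?_ h)
  intro c _ c' _ hcc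
  have e1 := NBA.le_at hO hcc (a := (x, x)) (b := (c, c')) (Or.inr (Or.inr rfl)) (Or.inl rfl)
  have e2 := NBA.le_at hO hcc (a := (c, c')) (b := (y, y')) (Or.inl rfl) (Or.inr (Or.inl rfl))
  exact and_congr e1 e2

/-- the same for intervals of an ordered sum -/
theorem dfb_nb [Preorder M] {r : L.Relations 2} {o : Bool} (hL : Ar2 L) (hS : VSt K δ S)
    (hO : OSt r o S) (x : M) : Dfb S {y | x ≤ y ∧ TameX S (Icc x y)} ∧
      TT S {y | x ≤ y ∧ TameX S (Icc x y)} := by
  classical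
  have hA : Auto S {y | x ≤ y ∧ TameX S (Icc x y)} := by
    intro g hg z hz z' hz' hzz
    by_cases hxg : x ≤ g
    · have hlt : ∀ w, w ∈ {y | x ≤ y ∧ TameX S (Icc x y)} → w < g := by
        intro w hw
        rw [← NBA.not_le hO]
        intro hgw
        exact hg (NBA.DD_init hO hw hxg hgw)
      have h1 := hO.cross z g z' g (hlt z hz) (hlt z' hz') hzz (BFR.refl S univ 0 (by rintro a rfl; exact ⟨mem_univ _, rfl⟩)).atEq
      rwa [pair_comm] at h1
    · have h0 : g < x := (NBA.not_le hO).mp hxg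
      exact hO.cross g z g z' (h0.trans_le hz.1) (h0.trans_le hz'.1) (BFR.refl S univ 0 (by rintro a rfl; exact ⟨mem_univ _, rfl⟩)).atEq hzz
  have hTT : TT S {y | x ≤ y ∧ TameX S (Icc x y)} := hA.tt hL (nb hL hS hO x)
  refine ⟨?_, hTT⟩
  obtain ⟨κ, hκ⟩ := hTT {x}
  have hch : ∀ n : ℕ, ∃ α < om1, ∀ y, x ≤ y → TameX S (Icc x y) → κ y = n →
      SL S (Icc x y) α := by
    intro n
    by_cases hn : ∃ y, x ≤ y ∧ TameX S (Icc x y) ∧ κ y = n
    · obtain ⟨y0, hy0, hy0', hκ0⟩ := hn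
      obtain ⟨α, hα, hSL⟩ := hy0'.exists_SL
      refine ⟨α, hα, fun y hy hy' hκy => hSL.congr hα ?_⟩
      have h1 := hκ y0 ⟨hy0, hy0'⟩ y ⟨hy, hy'⟩ (hκ0.trans hκy.symm) (α + Ordinal.omega0)
        (add_lt_om1 hα omega_lt_om1)
      refine d0_restr_Icc hO (BFR.anti ?_ h1)
      rintro a (rfl | rfl)
      · exact mem_insert _ _
      · exact Or.inr ⟨x, by simp, rfl⟩
    · exact ⟨0, Ordinal.omega_pos 1, fun y hy hy' hκy => absurd ⟨y, hy, hy', hκy⟩ hn⟩
  choose f hf1 hf2 using hch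
  obtain ⟨α, hα, hfα⟩ := exists_bound hf1
  have e : {y | x ≤ y ∧ TameX S (Icc x y)} = {y | x ≤ y ∧ SL S (Icc x y) α} := by
    ext y
    constructor
    · rintro ⟨hy, hy'⟩
      exact ⟨hy, (hf2 (κ y) y hy hy' rfl).mono (hfα _)⟩
    · rintro ⟨hy, hy'⟩
      exact ⟨hy, SL.tame (NBA.Icc_small hS hO x y) hα hy'⟩
  rw [e]
  refine ⟨{x}, α + Ordinal.omega0, add_lt_om1 hα omega_lt_om1, fun y y' hyy => ?_⟩
  have h1 : BFR S S univ univ (α + Ordinal.omega0) {(y, y'), (x, x)} := by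
    refine BFR.anti ?_ hyy
    rintro a (rfl | rfl)
    · exact mem_insert _ _
    · exact Or.inr ⟨x, by simp, rfl⟩
  have h2 := d0_restr_Icc hO h1
  have h3 : BFR S S (Icc x y') (Icc x y) (α + Ordinal.omega0) ∅ :=
    h2.symm fun a ha => absurd ha (notMem_empty a)
  have h4 : x ≤ y ↔ x ≤ y' :=
    NBA.le_at hO h1.atEq (a := (x, x)) (b := (y, y')) (Or.inr rfl) (Or.inl rfl)
  exact and_congr h4 ⟨fun h5 => SL.congr hα h5 h2, fun h5 => SL.congr hα h5 h3⟩

end VS

end Pool.Agent.Helper97.LO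

end
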