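import Pool.Agent.Helper60.VCM.C2a
import Pool.Agent.Helper22.VCM.C2b

/-!
# Tools for Vaught's conjecture, part 6: neighbourhoods, orders

Merged file (to shorten the import chain): contents, unchanged, of
`Pool.Agent.Helper5.VCM.Ord`, `Pool.Agent.Helper5.VCM.NBLex`, `Pool.Agent.Helper5.VCM.NBAbs`, `Pool.Agent.Helper5.VCM.NBPair`, `Pool.Agent.Helper5.VCM.NBDec`.
-/

/-! ### formerly `Pool.Agent.Helper5.VCM.Ord` -/

section

/-!
# Ordered sums: composition, intervals, Scott levels of intervals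
-/

set_option autoImplicit false
set_option linter.unusedSectionVars false
set_option linter.unusedVariables false

namespace Pool.Agent.Helper97.LO

open Set Pool.Agent.Helper5.DU Pool.Agent.Helper6.Str Pool.Agent.Helper79.VC
  Pool.Agent.Helper97.VC Pool.Agent.Helper97.MD

variable {L : FirstOrder.Language.{0, 0}} {M N P : Type}

section

variable [Preorder M] [Preorder N] {r : L.Relations 2} {o : Bool} {S : L.Structure M}
  {T : L.Structure N}

theorem OSt.le_congr (hS : OSt r o S) (hT : OSt r o T) {p : Set (M × N)} (h : AtEq S T p)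
    {a b : M × N} (ha : a ∈ p) (hb : b ∈ p) : a.1 ≤ b.1 ↔ a.2 ≤ b.2 := by
  rw [hS.le_iff, hT.le_iff]
  have key : ∀ a ∈ p, ∀ b ∈ p, S.RelMap r ![a.1, b.1] ↔ T.RelMap r ![a.2, b.2] := by
    intro a ha b hb
    have h1 := h.2 2 r ![a, b] (by
      intro i
      fin_cases i
      · exact ha
      · exact hb)
    have e1 : (fun i => ((![a, b] : Fin 2 → M × N) i).1) = ![a.1, b.1] := by
      funext i
      fin_cases i <;> rfl
    have e2 : (fun i => ((![a, b] : Fin 2 → M × N) i).2) = ![a.2, b.2] := by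
      funext i
      fin_cases i <;> rfl
    rw [e1, e2] at h1
    exact h1
  cases o
  · simpa using key b hb a ha
  · simpa using key a ha b hb

theorem OSt.lt_congr (hS : OSt r o S) (hT : OSt r o T) {p : Set (M × N)} (h : AtEq S T p)
    {a b : M × N} (ha : a ∈ p) (hb : b ∈ p) : a.1 < b.1 ↔ a.2 < b.2 := by
  rw [lt_iff_le_not_ge, lt_iff_le_not_ge, hS.le_congr hT h ha hb, hS.le_congr hT h hb ha]

theorem OSt.lt_of_not_le (hS : OSt r o S) {a b : M} (h : ¬ a ≤ b) : b < a := by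
  rcases hS.total a b with h1 | h1
  · exact absurd h1 h
  · exact lt_iff_le_not_ge.2 ⟨h1, h⟩

theorem OSt.not_le (hS : OSt r o S) {a b : M} : ¬ a ≤ b ↔ b < a :=
  ⟨hS.lt_of_not_le, fun h h' => (lt_irrefl _ (h.trans_le h'))⟩

theorem OSt.not_lt (hS : OSt r o S) {a b : M} : ¬ a < b ↔ b ≤ a := by
  rw [← hS.not_le, not_not]

/-! ### intervals are respected -/

theorem OSt.ioi (hS : OSt r o S) (hT : OSt r o T) {X : Set M} {Y : Set N} {u : M} {u' : N}
    {γ : Ordinal.{0}} {p : Set (M × N)} (hu : (u, u') ∈ p) (h : BFR S T X Y γ p) :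
    BFR S T (X ∩ Ioi u) (Y ∩ Ioi u') γ p :=
  BFR.restr₀ inter_subset_left inter_subset_left (fun x hx y hy h' => by
    have := hS.lt_congr hT h' (a := (u, u')) (b := (x, y)) (mem_insert_of_mem _ hu)
      (mem_insert _ _)
    exact ⟨fun hh => ⟨hy, this.1 hh.2⟩, fun hh => ⟨hx, this.2 hh.2⟩⟩) h

theorem OSt.ici (hS : OSt r o S) (hT : OSt r o T) {X : Set M} {Y : Set N} {u : M} {u' : N}
    {γ : Ordinal.{0}} {p : Set (M × N)} (hu : (u, u') ∈ p) (h : BFR S T X Y γ p) :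
    BFR S T (X ∩ Ici u) (Y ∩ Ici u') γ p :=
  BFR.restr₀ inter_subset_left inter_subset_left (fun x hx y hy h' => by
    have := hS.le_congr hT h' (a := (u, u')) (b := (x, y)) (mem_insert_of_mem _ hu)
      (mem_insert _ _)
    exact ⟨fun hh => ⟨hy, this.1 hh.2⟩, fun hh => ⟨hx, this.2 hh.2⟩⟩) h

theorem OSt.iio (hS : OSt r o S) (hT : OSt r o T) {X : Set M} {Y : Set N} {u : M} {u' : N}
    {γ : Ordinal.{0}} {p : Set (M × N)} (hu : (u, u') ∈ p) (h : BFR S T X Y γ p) :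
    BFR S T (X ∩ Iio u) (Y ∩ Iio u') γ p :=
  BFR.restr₀ inter_subset_left inter_subset_left (fun x hx y hy h' => by
    have := hS.lt_congr hT h' (b := (u, u')) (a := (x, y)) (mem_insert _ _)
      (mem_insert_of_mem _ hu)
    exact ⟨fun hh => ⟨hy, this.1 hh.2⟩, fun hh => ⟨hx, this.2 hh.2⟩⟩) h

theorem OSt.iic (hS : OSt r o S) (hT : OSt r o T) {X : Set M} {Y : Set N} {u : M} {u' : N}
    {γ : Ordinal.{0}} {p : Set (M × N)} (hu : (u, u') ∈ p) (h : BFR S T X Y γ p) :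
    BFR S T (X ∩ Iic u) (Y ∩ Iic u') γ p :=
  BFR.restr₀ inter_subset_left inter_subset_left (fun x hx y hy h' => by
    have := hS.le_congr hT h' (b := (u, u')) (a := (x, y)) (mem_insert _ _)
      (mem_insert_of_mem _ hu)
    exact ⟨fun hh => ⟨hy, this.1 hh.2⟩, fun hh => ⟨hx, this.2 hh.2⟩⟩) h

theorem OSt.icc (hS : OSt r o S) (hT : OSt r o T) {X : Set M} {Y : Set N} {u v : M} {u' v' : N}
    {γ : Ordinal.{0}} {p : Set (M × N)} (hu : (u, u') ∈ p) (hv : (v, v') ∈ p)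
    (h : BFR S T X Y γ p) : BFR S T (X ∩ Icc u v) (Y ∩ Icc u' v') γ p := by
  have h1 := hS.iic hT hv (hS.ici hT hu h)
  rwa [inter_assoc, inter_assoc] at h1

theorem OSt.ioc (hS : OSt r o S) (hT : OSt r o T) {X : Set M} {Y : Set N} {u v : M} {u' v' : N}
    {γ : Ordinal.{0}} {p : Set (M × N)} (hu : (u, u') ∈ p) (hv : (v, v') ∈ p)
    (h : BFR S T X Y γ p) : BFR S T (X ∩ Ioc u v) (Y ∩ Ioc u' v') γ p := by
  have h1 := hS.iic hT hv (hS.ioi hT hu h)
  rwa [inter_assoc, inter_assoc] at h1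

end

section

variable [Preorder N] {r : L.Relations 2} {o : Bool} {T : L.Structure N}

/-! ### composition -/

/-- **Composition along a linear order.** -/
theorem OSt.comp (hL : Ar2 L) (hT : OSt r o T) {I : Type} [LinearOrder I] (π π' : N → I)
    {U V : Set N} (hU : ∀ a ∈ U, ∀ b ∈ U, π a < π b → a < b)
    (hV : ∀ a ∈ V, ∀ b ∈ V, π' a < π' b → a < b) {γ : Ordinal.{0}} {p : Set (N × N)}
    (hp : ∀ a ∈ p, a.1 ∈ U ∧ a.2 ∈ V ∧ π a.1 = π' a.2)
    (h : ∀ i, BFR T T {a ∈ U | π a = i} {b ∈ V | π' b = i} γ {a ∈ p | π a.1 = i}) :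
    BFR T T U V γ p := by
  refine BFR.comp_index π π' ?_ γ hp h
  intro q hq hAt
  refine atEq_of_pairs hL fun a ha b hb => ?_
  have hlt : ∀ a ∈ q, ∀ b ∈ q, π a.1 < π b.1 → AtEq T T {a, b} := by
    intro a ha b hb hab
    obtain ⟨ha1, ha2, ha3⟩ := hq a ha
    obtain ⟨hb1, hb2, hb3⟩ := hq b hb
    refine hT.cross a.1 b.1 a.2 b.2 (hU _ ha1 _ hb1 hab)
      (hV _ ha2 _ hb2 (by rwa [← ha3, ← hb3])) ?_ ?_
    · refine AtEq.anti ?_ (hAt (π a.1))
      rintro _ rfl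
      exact ⟨ha, rfl⟩
    · refine AtEq.anti ?_ (hAt (π b.1))
      rintro _ rfl
      exact ⟨hb, rfl⟩
  rcases lt_trichotomy (π a.1) (π b.1) with h1 | h1 | h1
  · exact hlt a ha b hb h1
  · refine AtEq.anti ?_ (hAt (π a.1))
    rintro _ (rfl | rfl)
    · exact ⟨ha, rfl⟩
    · exact ⟨hb, h1.symm⟩
  · rw [pair_comm]
    exact hlt b hb a ha h1

/-- **Binary composition.** -/
theorem OSt.comp2 (hL : Ar2 L) (hT : OSt r o T) {U₁ U₂ V₁ V₂ : Set N}
    (hU : ∀ a ∈ U₁, ∀ b ∈ U₂, a < b) (hV : ∀ a ∈ V₁, ∀ b ∈ V₂, a < b) {γ : Ordinal.{0}}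
    {p₁ p₂ : Set (N × N)} (hp₁ : ∀ a ∈ p₁, a.1 ∈ U₁ ∧ a.2 ∈ V₁)
    (hp₂ : ∀ a ∈ p₂, a.1 ∈ U₂ ∧ a.2 ∈ V₂) (h₁ : BFR T T U₁ V₁ γ p₁) (h₂ : BFR T T U₂ V₂ γ p₂) :
    BFR T T (U₁ ∪ U₂) (V₁ ∪ V₂) γ (p₁ ∪ p₂) := by
  classical
  have hUd : ∀ a ∈ U₁, a ∉ U₂ := fun a h1 h2 => lt_irrefl _ (hU a h1 a h2)
  have hVd : ∀ a ∈ V₁, a ∉ V₂ := fun a h1 h2 => lt_irrefl _ (hV a h1 a h2)
  have hb : ∀ i : Bool, i = false ∨ i = true := by decide
  refine hT.comp hL (fun a => decide (a ∈ U₂)) (fun a => decide (a ∈ V₂)) ?_ ?_ ?_ ?_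
  · intro a ha b hb hab
    by_cases h1 : a ∈ U₂
    · by_cases h2 : b ∈ U₂
      · simp [h1, h2] at hab
      · simp [h1, h2] at hab
        exact absurd hab (by decide)
    · by_cases h2 : b ∈ U₂
      · exact hU a (ha.resolve_right h1) b h2
      · simp [h1, h2] at hab
  · intro a ha b hb hab
    by_cases h1 : a ∈ V₂
    · by_cases h2 : b ∈ V₂
      · simp [h1, h2] at hab
      · simp [h1, h2] at hab
        exact absurd hab (by decide)
    · by_cases h2 : b ∈ V₂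
      · exact hV a (ha.resolve_right h1) b h2
      · simp [h1, h2] at hab
  · rintro a (ha | ha)
    · obtain ⟨h1, h2⟩ := hp₁ a ha
      refine ⟨Or.inl h1, Or.inl h2, ?_⟩
      simp [hUd _ h1, hVd _ h2]
    · obtain ⟨h1, h2⟩ := hp₂ a ha
      refine ⟨Or.inr h1, Or.inr h2, ?_⟩
      simp [h1, h2]
  · intro i
    rcases hb i with rfl | rfl
    · have e1 : {a ∈ U₁ ∪ U₂ | decide (a ∈ U₂) = false} = U₁ := by
        ext a
        constructor
        · rintro ⟨h1 | h1, h2⟩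
          · exact h1
          · exact absurd h1 (of_decide_eq_false h2)
        · intro h1
          exact ⟨Or.inl h1, decide_eq_false (hUd a h1)⟩
      have e2 : {a ∈ V₁ ∪ V₂ | decide (a ∈ V₂) = false} = V₁ := by
        ext a
        constructor
        · rintro ⟨h1 | h1, h2⟩
          · exact h1
          · exact absurd h1 (of_decide_eq_false h2)
        · intro h1
          exact ⟨Or.inl h1, decide_eq_false (hVd a h1)⟩
      rw [e1, e2]
      refine BFR.anti ?_ h₁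
      rintro a ⟨h1 | h1, h2⟩
      · exact h1
      · exact absurd (hp₂ a h1).1 (of_decide_eq_false h2)
    · have e1 : {a ∈ U₁ ∪ U₂ | decide (a ∈ U₂) = true} = U₂ := by
        ext a
        constructor
        · rintro ⟨h1 | h1, h2⟩
          · exact of_decide_eq_true h2
          · exact h1
        · intro h1
          exact ⟨Or.inr h1, decide_eq_true h1⟩
      have e2 : {a ∈ V₁ ∪ V₂ | decide (a ∈ V₂) = true} = V₂ := by
        ext a
        constructor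
        · rintro ⟨h1 | h1, h2⟩
          · exact of_decide_eq_true h2
          · exact h1
        · intro h1
          exact ⟨Or.inr h1, decide_eq_true h1⟩
      rw [e1, e2]
      refine BFR.anti ?_ h₂
      rintro a ⟨h1 | h1, h2⟩
      · exact absurd (of_decide_eq_true h2) (hUd _ (hp₁ a h1).1)
      · exact h1

/-- composition for the empty position -/
theorem OSt.comp2_empty (hL : Ar2 L) (hT : OSt r o T) {U₁ U₂ V₁ V₂ : Set N}
    (hU : ∀ a ∈ U₁, ∀ b ∈ U₂, a < b) (hV : ∀ a ∈ V₁, ∀ b ∈ V₂, a < b) {γ : Ordinal.{0}}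
    (h₁ : BFR T T U₁ V₁ γ ∅) (h₂ : BFR T T U₂ V₂ γ ∅) :
    BFR T T (U₁ ∪ U₂) (V₁ ∪ V₂) γ ∅ := by
  have := hT.comp2 hL hU hV (p₁ := ∅) (p₂ := ∅) (fun a ha => absurd ha (notMem_empty a))
    (fun a ha => absurd ha (notMem_empty a)) h₁ h₂
  rwa [union_empty] at this

/-! ### Scott levels of intervals -/

/-- replacing an element by an equivalent one at the bottom -/
theorem OSt.bot_congr (hT : OSt r o T) {X Y : Set N} {u u' : N} (hu : u ∈ X) (hu' : u' ∈ Y)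
    {p : Set (N × N)} (hup : (u, u') ∈ p) (h : BFR T T X Y 1 p) :
    (∀ y ∈ X, u ≤ y) ↔ ∀ y ∈ Y, u' ≤ y := by
  constructor
  · intro hh y hy
    obtain ⟨x, hx, hxy⟩ := h.back (β := 0) zero_lt_one hy
    exact (hT.le_congr hT hxy.atEq (a := (u, u')) (b := (x, y)) (mem_insert_of_mem _ hup)
      (mem_insert _ _)).1 (hh x hx)
  · intro hh x hx
    obtain ⟨y, hy, hxy⟩ := h.forth (β := 0) zero_lt_one hx
    exact (hT.le_congr hT hxy.atEq (a := (u, u')) (b := (x, y)) (mem_insert_of_mem _ hup)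
      (mem_insert _ _)).2 (hh y hy)

theorem OSt.top_congr (hT : OSt r o T) {X Y : Set N} {u u' : N} (hu : u ∈ X) (hu' : u' ∈ Y)
    {p : Set (N × N)} (hup : (u, u') ∈ p) (h : BFR T T X Y 1 p) :
    (∀ y ∈ X, y ≤ u) ↔ ∀ y ∈ Y, y ≤ u' := by
  constructor
  · intro hh y hy
    obtain ⟨x, hx, hxy⟩ := h.back (β := 0) zero_lt_one hy
    exact (hT.le_congr hT hxy.atEq (b := (u, u')) (a := (x, y)) (mem_insert _ _)
      (mem_insert_of_mem _ hup)).1 (hh x hx)
  · intro hh x hx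
    obtain ⟨y, hy, hxy⟩ := h.forth (β := 0) zero_lt_one hx
    exact (hT.le_congr hT hxy.atEq (b := (u, u')) (a := (x, y)) (mem_insert _ _)
      (mem_insert_of_mem _ hup)).2 (hh y hy)

/-- **Inheritance.** -/
theorem OSt.sl_icc (hL : Ar2 L) (hT : OSt r o T) {X : Set N} {α : Ordinal.{0}}
    (h : SL T X α) {u v : N} (hu : u ∈ X) (hv : v ∈ X) :
    SL T (X ∩ Icc u v) (α + Ordinal.omega0) := by
  intro p hp hpX hb γ hγ
  by_cases huv : u ≤ v
  swap
  · have he : X ∩ Icc u v = ∅ := by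
      ext a
      constructor
      · rintro ⟨_, h1, h2⟩
        exact absurd (h1.trans h2) huv
      · intro ha
        exact absurd ha (notMem_empty a)
    rw [he] at hb ⊢
    rw [BFR.def]
    exact ⟨hb.atEq, fun β _ => ⟨fun x hx => absurd hx (notMem_empty x),
      fun x hx => absurd hx (notMem_empty x)⟩⟩
  -- two moves
  have h1 : BFR T T (X ∩ Icc u v) (X ∩ Icc u v) (α + 1 + ((2 : ℕ) : Ordinal.{0})) p := by
    refine hb.mono ?_
    rw [add_assoc]
    gcongr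
    have : (1 : Ordinal.{0}) + ((2 : ℕ) : Ordinal.{0}) = ((1 + 2 : ℕ) : Ordinal.{0}) := by
      rw [Nat.cast_add, Nat.cast_one]
    rw [this]
    exact (Ordinal.natCast_lt_omega0 _).le
  have huX : u ∈ X ∩ Icc u v := ⟨hu, le_refl u, huv⟩
  have hvX : v ∈ X ∩ Icc u v := ⟨hv, huv, le_refl v⟩
  obtain ⟨y, hy, h2⟩ := BFR.forth_many 2 h1 ![u, v] (by
    intro i
    fin_cases i
    · exact huX
    · exact hvX)
  set u' := y 0
  set v' := y 1
  have hu' : u' ∈ X ∩ Icc u v := hy 0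
  have hv' : v' ∈ X ∩ Icc u v := hy 1
  have h3 : BFR T T (X ∩ Icc u v) (X ∩ Icc u v) (α + 1) (insert (u, u') (insert (v, v') p)) := by
    refine BFR.anti ?_ h2
    rintro a (rfl | rfl | ha)
    · exact Or.inr ⟨0, rfl⟩
    · exact Or.inr ⟨1, rfl⟩
    · exact Or.inl ha
  have huu : u' ≤ u := by
    have := (hT.bot_congr huX hu' (mem_insert _ _) (h3.mono le_add_self)).1
      (fun a ha => ha.2.1)
    exact this u huX
  have hvv : v ≤ v' := by
    have := (hT.top_congr hvX hv' (mem_insert_of_mem _ (mem_insert _ _))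
      (h3.mono le_add_self)).1 (fun a ha => ha.2.2)
    exact this v hvX
  -- extension by the identity
  have h4 : BFR T T (X ∩ Icc u v) (X ∩ Icc u v) α (insert (u, u') (insert (v, v') p)) :=
    h3.mono le_self_add
  have hpp : ∀ a ∈ (insert (u, u') (insert (v, v') p) : Set (N × N)),
      a.1 ∈ X ∩ Icc u v ∧ a.2 ∈ X ∩ Icc u v := by
    rintro a (rfl | rfl | ha)
    · exact ⟨huX, hu'⟩
    · exact ⟨hvX, hv'⟩
    · exact hpX a ha
  have h5 : BFR T T (X ∩ Iio u ∪ X ∩ Icc u v) (X ∩ Iio u ∪ X ∩ Icc u v) α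
      (∅ ∪ insert (u, u') (insert (v, v') p)) :=
    hT.comp2 hL (fun a ha b hb => lt_of_lt_of_le ha.2 hb.2.1)
      (fun a ha b hb => lt_of_lt_of_le ha.2 hb.2.1) (fun a ha => absurd ha (notMem_empty a)) hpp
      (BFR.refl T _ α fun a ha => absurd ha (notMem_empty a)) h4
  have hlow : ∀ a ∈ X ∩ Iio u ∪ X ∩ Icc u v, a ≤ v := by
    rintro a (ha | ha)
    · exact (le_of_lt ha.2).trans huv
    · exact ha.2.2
  have h6 : BFR T T ((X ∩ Iio u ∪ X ∩ Icc u v) ∪ X ∩ Ioi v)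
      ((X ∩ Iio u ∪ X ∩ Icc u v) ∪ X ∩ Ioi v) α
      ((∅ ∪ insert (u, u') (insert (v, v') p)) ∪ ∅) :=
    hT.comp2 hL (fun a ha b hb => lt_of_le_of_lt (hlow a ha) hb.2)
      (fun a ha b hb => lt_of_le_of_lt (hlow a ha) hb.2) (by
        rintro a (ha | ha)
        · exact absurd ha (notMem_empty a)
        · exact ⟨Or.inr (hpp a ha).1, Or.inr (hpp a ha).2⟩)
      (fun a ha => absurd ha (notMem_empty a)) h5
      (BFR.refl T _ α fun a ha => absurd ha (notMem_empty a))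
  have hX : (X ∩ Iio u ∪ X ∩ Icc u v) ∪ X ∩ Ioi v = X := by
    ext a
    constructor
    · rintro ((ha | ha) | ha)
      · exact ha.1
      · exact ha.1
      · exact ha.1
    · intro ha
      by_cases h1 : u ≤ a
      · by_cases h2 : a ≤ v
        · exact Or.inl (Or.inr ⟨ha, h1, h2⟩)
        · exact Or.inr ⟨ha, hT.lt_of_not_le h2⟩
      · exact Or.inl (Or.inl ⟨ha, hT.lt_of_not_le h1⟩)
  rw [hX, empty_union, union_empty] at h6
  have h7 := h _ ((hp.insert _).insert _) (fun a ha => ⟨(hpp a ha).1.1, (hpp a ha).2.1⟩) h6 γ hγ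
  have h8 := hT.icc hT (mem_insert _ _) (mem_insert_of_mem _ (mem_insert _ _)) h7
  have h9 : X ∩ Icc u' v' = X ∩ Icc u v := by
    ext a
    constructor
    · rintro ⟨ha, h1, h2⟩
      exact ⟨ha, hu'.2.1.trans h1, h2.trans hv'.2.2⟩
    · rintro ⟨ha, h1, h2⟩
      exact ⟨ha, huu.trans h1, h2.trans hvv⟩
  rw [h9] at h8
  exact BFR.anti (fun a ha => mem_insert_of_mem _ (mem_insert_of_mem _ ha)) h8

/-- **Concatenation.** -/
theorem OSt.sl_concat (hL : Ar2 L) (hT : OSt r o T) {X : Set N} {α : Ordinal.{0}}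
    (hα : α < om1) {x u v : N} (hu : u ∈ X) (hxu : x ≤ u) (huv : u ≤ v)
    (h₁ : SL T (X ∩ Icc x u) α) (h₂ : SL T (X ∩ Icc u v) α) :
    SL T (X ∩ Icc x v) (α + Ordinal.omega0 + 1) := by
  intro p hp hpX hb γ hγ
  obtain ⟨u', hu', h1⟩ := hb.forth (lt_add_one_self _) (x := u) ⟨hu, hxu, huv⟩
  have hup : (u, u') ∈ (insert (u, u') p : Set (N × N)) := mem_insert _ _
  -- the lower part
  have hlow : BFR T T (X ∩ Icc x u) (X ∩ Icc x u') (α + Ordinal.omega0) (insert (u, u') p) := by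
    have := hT.iic hT hup h1
    have e1 : X ∩ Icc x v ∩ Iic u = X ∩ Icc x u := by
      ext a
      constructor
      · rintro ⟨⟨h1, h2, h3⟩, h4⟩
        exact ⟨h1, h2, h4⟩
      · rintro ⟨h1, h2, h3⟩
        exact ⟨⟨h1, h2, h3.trans huv⟩, h3⟩
    have e2 : X ∩ Icc x v ∩ Iic u' = X ∩ Icc x u' := by
      ext a
      constructor
      · rintro ⟨⟨h1, h2, h3⟩, h4⟩
        exact ⟨h1, h2, h4⟩
      · rintro ⟨h1, h2, h3⟩
        exact ⟨⟨h1, h2, le_trans h3 hu'.2.2⟩, h3⟩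
    rwa [e1, e2] at this
  have hupp : BFR T T (X ∩ Icc u v) (X ∩ Icc u' v) (α + Ordinal.omega0) (insert (u, u') p) := by
    have := hT.ici hT hup h1
    have e1 : X ∩ Icc x v ∩ Ici u = X ∩ Icc u v := by
      ext a
      constructor
      · rintro ⟨⟨h1, h2, h3⟩, h4⟩
        exact ⟨h1, h4, h3⟩
      · rintro ⟨h1, h2, h3⟩
        exact ⟨⟨h1, hxu.trans h2, h3⟩, h2⟩
    have e2 : X ∩ Icc x v ∩ Ici u' = X ∩ Icc u' v := by
      ext a
      constructor
      · rintro ⟨⟨h1, h2, h3⟩, h4⟩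
        exact ⟨h1, h4, h3⟩
      · rintro ⟨h1, h2, h3⟩
        exact ⟨⟨h1, le_trans hu'.2.1 h2, h3⟩, h2⟩
    rwa [e1, e2] at this
  -- the parts of the position
  have hle : ∀ a ∈ p, (a.1 ≤ u ↔ a.2 ≤ u') := fun a ha =>
    hT.le_congr hT h1.atEq (a := a) (b := (u, u')) (mem_insert_of_mem _ ha) hup
  have hlt : ∀ a ∈ p, (u < a.1 ↔ u' < a.2) := fun a ha =>
    hT.lt_congr hT h1.atEq (b := a) (a := (u, u')) hup (mem_insert_of_mem _ ha)
  have hA : BFR T T (X ∩ Icc x u) (X ∩ Icc x u') γ (insert (u, u') {a ∈ p | a.1 ≤ u}) := by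
    refine h₁.det' hα ((hp.subset (sep_subset _ _)).insert _) ?_
      (BFR.anti (insert_subset_insert (sep_subset _ _)) hlow) γ
    rintro a (rfl | ⟨ha, ha'⟩)
    · exact ⟨⟨hu, hxu, le_refl u⟩, hu'.1, hu'.2.1, le_refl u'⟩
    · exact ⟨⟨(hpX a ha).1.1, (hpX a ha).1.2.1, ha'⟩,
        (hpX a ha).2.1, (hpX a ha).2.2.1, (hle a ha).1 ha'⟩
  have hB : BFR T T (X ∩ Icc u v) (X ∩ Icc u' v) γ (insert (u, u') {a ∈ p | u < a.1}) := by
    refine h₂.det' hα ((hp.subset (sep_subset _ _)).insert _) ?_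
      (BFR.anti (insert_subset_insert (sep_subset _ _)) hupp) γ
    rintro a (rfl | ⟨ha, ha'⟩)
    · exact ⟨⟨hu, le_refl u, huv⟩, hu'.1, le_refl u', hu'.2.2⟩
    · exact ⟨⟨(hpX a ha).1.1, le_of_lt ha', (hpX a ha).1.2.2⟩,
        (hpX a ha).2.1, le_of_lt ((hlt a ha).1 ha'), (hpX a ha).2.2.2⟩
  have hB' : BFR T T (X ∩ Ioc u v) (X ∩ Ioc u' v) γ (insert (u, u') {a ∈ p | u < a.1}) := by
    have := hT.ioi hT (mem_insert _ _) hB
    have e : ∀ w : N, X ∩ Icc w v ∩ Ioi w = X ∩ Ioc w v := by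
      intro w
      ext a
      constructor
      · rintro ⟨⟨h1, h2, h3⟩, h4⟩
        exact ⟨h1, h4, h3⟩
      · rintro ⟨h1, h2, h3⟩
        exact ⟨⟨h1, le_of_lt h2, h3⟩, h2⟩
    rwa [e u, e u'] at this
  have hC := hT.comp2 hL (U₁ := X ∩ Icc x u) (U₂ := X ∩ Ioc u v) (V₁ := X ∩ Icc x u')
    (V₂ := X ∩ Ioc u' v) (γ := γ) (p₁ := {a ∈ p | a.1 ≤ u}) (p₂ := {a ∈ p | u < a.1})
    (fun a ha b hb => lt_of_le_of_lt ha.2.2 hb.2.1)
    (fun a ha b hb => lt_of_le_of_lt ha.2.2 hb.2.1)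
    (by
      rintro a ⟨ha, ha'⟩
      exact ⟨⟨(hpX a ha).1.1, (hpX a ha).1.2.1, ha'⟩,
        (hpX a ha).2.1, (hpX a ha).2.2.1, (hle a ha).1 ha'⟩)
    (by
      rintro a ⟨ha, ha'⟩
      exact ⟨⟨(hpX a ha).1.1, ha', (hpX a ha).1.2.2⟩,
        (hpX a ha).2.1, (hlt a ha).1 ha', (hpX a ha).2.2.2⟩)
    (BFR.anti (subset_insert _ _) hA) (BFR.anti (subset_insert _ _) hB')
  have e3 : X ∩ Icc x u ∪ X ∩ Ioc u v = X ∩ Icc x v := by
    ext a
    constructor
    · rintro (⟨h1, h2, h3⟩ | ⟨h1, h2, h3⟩)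
      · exact ⟨h1, h2, h3.trans huv⟩
      · exact ⟨h1, hxu.trans (le_of_lt h2), h3⟩
    · rintro ⟨h1, h2, h3⟩
      by_cases h4 : a ≤ u
      · exact Or.inl ⟨h1, h2, h4⟩
      · exact Or.inr ⟨h1, hT.lt_of_not_le h4, h3⟩
  have e4 : X ∩ Icc x u' ∪ X ∩ Ioc u' v = X ∩ Icc x v := by
    ext a
    constructor
    · rintro (⟨h1, h2, h3⟩ | ⟨h1, h2, h3⟩)
      · exact ⟨h1, h2, le_trans h3 hu'.2.2⟩
      · exact ⟨h1, le_trans hu'.2.1 (le_of_lt h2), h3⟩
    · rintro ⟨h1, h2, h3⟩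
      by_cases h4 : a ≤ u'
      · exact Or.inl ⟨h1, h2, h4⟩
      · exact Or.inr ⟨h1, hT.lt_of_not_le h4, h3⟩
  rw [e3, e4] at hC
  refine BFR.anti ?_ hC
  intro a ha
  by_cases h4 : a.1 ≤ u
  · exact Or.inl ⟨ha, h4⟩
  · exact Or.inr ⟨ha, hT.lt_of_not_le h4⟩

/-! ### cells -/

/-- the index of the cell -/
noncomputable def cellIx (c : ℕ → N) (a : N) : ℕ := sInf {n | a ≤ c (n + 1)}

theorem OSt.cellIx_iff (hT : OSt r o T) {c : ℕ → N} (hc : ∀ n, c n < c (n + 1)) {a : N}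
    (h0 : c 0 < a) (h1 : ∃ n, a ≤ c n) (i : ℕ) :
    cellIx c a = i ↔ c i < a ∧ a ≤ c (i + 1) := by
  have hmono : ∀ m n, m ≤ n → c m ≤ c n := by
    intro m n hmn
    induction n, hmn using Nat.le_induction with
    | base => exact le_refl _
    | succ n _ ih => exact ih.trans (le_of_lt (hc n))
  have hne : {n | a ≤ c (n + 1)}.Nonempty := by
    obtain ⟨n, hn⟩ := h1
    exact ⟨n, hn.trans (le_of_lt (hc n))⟩
  constructor
  · rintro rfl
    refine ⟨?_, Nat.sInf_mem hne⟩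
    by_cases hz : cellIx c a = 0
    · rw [hz]
      exact h0
    · obtain ⟨k, hk⟩ := Nat.exists_eq_succ_of_ne_zero hz
      have h2 : k ∉ {n | a ≤ c (n + 1)} := Nat.notMem_of_lt_sInf (by
        have : sInf {n | a ≤ c (n + 1)} = k.succ := hk
        rw [this]
        exact Nat.lt_succ_self k)
      rw [hk]
      exact hT.lt_of_not_le h2
  · rintro ⟨h2, h3⟩
    refine le_antisymm (Nat.sInf_le h3) ?_
    by_contra hlt
    have h4 : a ≤ c (cellIx c a + 1) := Nat.sInf_mem hne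
    have h5 := h4.trans (hmono _ _ (Nat.succ_le_of_lt (Nat.lt_of_not_le hlt)))
    exact lt_irrefl _ (h2.trans_le h5)

/-- **Cells.** -/
theorem OSt.cells (hL : Ar2 L) (hT : OSt r o T) {X Y : Set N} {c : ℕ → N}
    (hc : ∀ n, c n < c (n + 1)) (hX : ∀ a ∈ X, c 0 < a ∧ ∃ n, a ≤ c n)
    (hY : ∀ a ∈ Y, c 0 < a ∧ ∃ n, a ≤ c n) {γ : Ordinal.{0}}
    (h : ∀ n, BFR T T (X ∩ Ioc (c n) (c (n + 1))) (Y ∩ Ioc (c n) (c (n + 1))) γ ∅) :
    BFR T T X Y γ ∅ := by
  have hmono : ∀ m n, m ≤ n → c m ≤ c n := by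
    intro m n hmn
    induction n, hmn using Nat.le_induction with
    | base => exact le_refl _
    | succ n _ ih => exact ih.trans (le_of_lt (hc n))
  have key : ∀ Z : Set N, (∀ a ∈ Z, c 0 < a ∧ ∃ n, a ≤ c n) →
      (∀ a ∈ Z, ∀ b ∈ Z, cellIx c a < cellIx c b → a < b) ∧
      ∀ i, {a ∈ Z | cellIx c a = i} = Z ∩ Ioc (c i) (c (i + 1)) := by
    intro Z hZ
    refine ⟨fun a ha b hb hab => ?_, fun i => ?_⟩
    · have h1 := ((hT.cellIx_iff hc (hZ a ha).1 (hZ a ha).2 _).1 rfl).2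
      have h2 := ((hT.cellIx_iff hc (hZ b hb).1 (hZ b hb).2 _).1 rfl).1
      exact lt_of_le_of_lt (h1.trans (hmono _ _ hab)) h2
    · ext a
      constructor
      · rintro ⟨h1, h2⟩
        exact ⟨h1, (hT.cellIx_iff hc (hZ a h1).1 (hZ a h1).2 i).1 h2⟩
      · rintro ⟨h1, h2⟩
        exact ⟨h1, (hT.cellIx_iff hc (hZ a h1).1 (hZ a h1).2 i).2 h2⟩
  refine hT.comp hL (cellIx c) (cellIx c) (key X hX).1 (key Y hY).1
    (fun a ha => absurd ha (notMem_empty a)) fun i => ?_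
  rw [(key X hX).2 i, (key Y hY).2 i]
  refine BFR.anti ?_ (h i)
  rintro a ⟨ha, -⟩
  exact absurd ha (notMem_empty a)

/-- a strictly increasing cofinal sequence in a countable set without last element -/
theorem OSt.exists_cofinal (hT : OSt r o T) {A : Set N} (hA : A.Countable) {z : N} (hz : z ∈ A)
    (hlast : ∀ a ∈ A, ∃ b ∈ A, a < b) : ∃ c : ℕ → N, c 0 = z ∧ (∀ n, c n ∈ A) ∧
      (∀ n, c n < c (n + 1)) ∧ ∀ a ∈ A, ∃ n, a ≤ c n := by
  obtain ⟨e, he⟩ := hA.exists_eq_range ⟨z, hz⟩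
  have hstep : ∀ (n : ℕ) (a : A), ∃ b : A, a.1 < b.1 ∧ e n ≤ b.1 := by
    rintro n ⟨a, ha⟩
    have hen : e n ∈ A := by
      rw [he]
      exact mem_range_self n
    rcases hT.total a (e n) with h1 | h1
    · obtain ⟨b, hb, hab⟩ := hlast _ hen
      exact ⟨⟨b, hb⟩, lt_of_le_of_lt h1 hab, le_of_lt hab⟩
    · obtain ⟨b, hb, hab⟩ := hlast _ ha
      exact ⟨⟨b, hb⟩, hab, h1.trans (le_of_lt hab)⟩
  choose g hg1 hg2 using hstep
  let c : ℕ → A := fun n => n.rec ⟨z, hz⟩ fun k a => g k a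
  refine ⟨fun n => (c n).1, rfl, fun n => (c n).2, fun n => hg1 n (c n), fun a ha => ?_⟩
  rw [he] at ha
  obtain ⟨n, rfl⟩ := ha
  exact ⟨n + 1, hg2 n (c n)⟩

end

/-! ### the reversed order -/

/-- the reversed preorder -/
abbrev dualPre (N : Type) [Preorder N] : Preorder N where
  le a b := b ≤ a
  lt a b := b < a
  le_refl a := le_refl a
  le_trans a b c h1 h2 := le_trans h2 h1
  lt_iff_le_not_ge a b := lt_iff_le_not_ge

theorem OSt.dual [Preorder N] {r : L.Relations 2} {o : Bool} {T : L.Structure N}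
    (hT : OSt r o T) : @OSt L N (dualPre N) r (!o) T := by
  refine @OSt.mk L N (dualPre N) r (!o) T ?_ ?_ ?_
  · intro a b
    exact (hT.total a b).symm
  · intro a b
    have := hT.le_iff b a
    change b ≤ a ↔ _
    rw [this]
    cases o <;> rfl
  · intro a b a' b' h1 h2 h3 h4
    have := hT.cross b a b' a' h1 h2 h4 h3
    rwa [pair_comm]

end Pool.Agent.Helper97.LO

end

/-! ### formerly `Pool.Agent.Helper5.VCM.NBLex` -/

section

/-!
# Lexicographic copies of an ordered sum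
-/

set_option autoImplicit false
set_option linter.unusedSectionVars false
set_option linter.unusedVariables false

namespace Pool.Agent.Helper97.LO

open Set Pool.Agent.Helper5.DU Pool.Agent.Helper6.Str Pool.Agent.Helper79.VC
  Pool.Agent.Helper97.VC Pool.Agent.Helper97.MD

variable {L : FirstOrder.Language.{0, 0}} {M N P : Type}

theorem bfr_zero_iffNB {S : L.Structure M} {S' : L.Structure N} {U : Set M} {V : Set N}
    {p : Set (M × N)} : BFR S S' U V 0 p ↔ AtEq S S' p := by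
  rw [BFR.def]
  exact ⟨fun h => h.1, fun h => ⟨h, fun β hβ => absurd hβ (not_lt_zero)⟩⟩

/-- equality of the types of single elements -/
def At1 (S : L.Structure M) (a b : M) : Prop := AtEq S S {(a, b)}

theorem At1.refl (S : L.Structure M) (a : M) : At1 S a a := by
  rw [At1, ← bfr_zero_iffNB (U := univ) (V := univ)]
  exact BFR.refl S _ 0 (by
    rintro x rfl
    exact ⟨mem_univ _, rfl⟩)

theorem At1.symm {S : L.Structure M} {a b : M} (h : At1 S a b) : At1 S b a := by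
  rw [At1, ← bfr_zero_iffNB (U := univ) (V := univ)] at h ⊢
  exact h.symm (by
    rintro x rfl
    rfl)

theorem At1.trans {S : L.Structure M} {a b c : M} (h : At1 S a b) (h' : At1 S b c) :
    At1 S a c := by
  rw [At1, ← bfr_zero_iffNB (U := univ) (V := univ)] at h h' ⊢
  exact h.trans h' (by
    rintro x rfl
    exact ⟨b, rfl, rfl⟩)

/-- pairs of an index and an element -/
@[ext] structure LX (I M : Type) where
  i : I
  a : M

variable {I : Type} [LinearOrder I]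

instance [Preorder M] : Preorder (LX I M) where
  le x y := x.i < y.i ∨ (x.i = y.i ∧ x.a ≤ y.a)
  lt x y := x.i < y.i ∨ (x.i = y.i ∧ x.a < y.a)
  le_refl x := Or.inr ⟨rfl, le_refl _⟩
  le_trans x y z := by
    rintro (h1 | ⟨h1, h2⟩) (h3 | ⟨h3, h4⟩)
    · exact Or.inl (h1.trans h3)
    · exact Or.inl (h3 ▸ h1)
    · exact Or.inl (h1 ▸ h3)
    · exact Or.inr ⟨h1.trans h3, h2.trans h4⟩
  lt_iff_le_not_ge x y := by
    constructor
    · rintro (h1 | ⟨h1, h2⟩)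
      · refine ⟨Or.inl h1, ?_⟩
        rintro (h3 | ⟨h3, _⟩)
        · exact lt_asymm h1 h3
        · exact absurd h3 h1.ne'
      · refine ⟨Or.inr ⟨h1, le_of_lt h2⟩, ?_⟩
        rintro (h3 | ⟨_, h3⟩)
        · exact absurd h1 h3.ne'
        · exact lt_irrefl _ (h2.trans_le h3)
    · rintro ⟨h1 | ⟨h1, h2⟩, h3⟩
      · exact Or.inl h1
      · refine Or.inr ⟨h1, lt_iff_le_not_ge.2 ⟨h2, fun h4 => h3 (Or.inr ⟨h1.symm, h4⟩)⟩⟩

theorem LX.le_def [Preorder M] {x y : LX I M} :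
    x ≤ y ↔ x.i < y.i ∨ (x.i = y.i ∧ x.a ≤ y.a) := Iff.rfl

theorem LX.lt_def [Preorder M] {x y : LX I M} :
    x < y ↔ x.i < y.i ∨ (x.i = y.i ∧ x.a < y.a) := Iff.rfl

variable [∀ n, IsEmpty (L.Functions n)] [Preorder M]

/-- the relations of the lexicographic structure -/
def lexRel (S : L.Structure M) (r : L.Relations 2) (o : Bool) (I : Type) [LinearOrder I] :
    (n : ℕ) → L.Relations n → (Fin n → LX I M) → Prop
  | 2, R, v => (R = r ∧ (if o then v 0 ≤ v 1 else v 1 ≤ v 0)) ∨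
      (R ≠ r ∧ (((v 0).i = (v 1).i ∧ S.RelMap R ![(v 0).a, (v 1).a]) ∨
        ∃ a' b', At1 S (v 0).a a' ∧ At1 S (v 1).a b' ∧
          ((v 0 < v 1 ∧ a' < b') ∨ (v 1 < v 0 ∧ b' < a')) ∧ S.RelMap R ![a', b']))
  | n, R, v => S.RelMap R (fun k => (v k).a)

/-- the lexicographic structure -/
def LexS (S : L.Structure M) (r : L.Relations 2) (o : Bool) (I : Type) [LinearOrder I] :
    L.Structure (LX I M) where
  funMap f := isEmptyElim f
  RelMap := fun {n} R v => lexRel S r o I n R v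

variable {r : L.Relations 2} {o : Bool} {S : L.Structure M}

theorem lexS_r (w w' : LX I M) :
    (LexS S r o I).RelMap r ![w, w'] ↔ (if o then w ≤ w' else w' ≤ w) := by
  change lexRel S r o I 2 r ![w, w'] ↔ _
  simp [lexRel]

theorem cross_iff (hO : OSt r o S) {a b a' b' : M} (hab : a < b) (hab' : a' < b')
    (ha : At1 S a a') (hb : At1 S b b') (R : L.Relations 2) :
    (S.RelMap R ![a, b] ↔ S.RelMap R ![a', b']) ∧
      (S.RelMap R ![b, a] ↔ S.RelMap R ![b', a']) := by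
  have h := hO.cross a b a' b' hab hab' ha hb
  constructor
  · have h1 := h.2 2 R ![(a, a'), (b, b')] (by
      intro i
      fin_cases i <;> simp)
    have e1 : (fun i => ((![(a, a'), (b, b')] : Fin 2 → M × M) i).1) = ![a, b] := by
      funext i
      fin_cases i <;> rfl
    have e2 : (fun i => ((![(a, a'), (b, b')] : Fin 2 → M × M) i).2) = ![a', b'] := by
      funext i
      fin_cases i <;> rfl
    rwa [e1, e2] at h1
  · have h1 := h.2 2 R ![(b, b'), (a, a')] (by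
      intro i
      fin_cases i <;> simp)
    have e1 : (fun i => ((![(b, b'), (a, a')] : Fin 2 → M × M) i).1) = ![b, a] := by
      funext i
      fin_cases i <;> rfl
    have e2 : (fun i => ((![(b, b'), (a, a')] : Fin 2 → M × M) i).2) = ![b', a'] := by
      funext i
      fin_cases i <;> rfl
    rwa [e1, e2] at h1

/-- binary relations inside a slice -/
theorem lexS_same (hO : OSt r o S) (R : L.Relations 2) (i : I) (a b : M) :
    (LexS S r o I).RelMap R ![⟨i, a⟩, ⟨i, b⟩] ↔ S.RelMap R ![a, b] := by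
  by_cases hR : R = r
  · subst hR
    rw [lexS_r]
    have h1 : ∀ c d : M, ((⟨i, c⟩ : LX I M) ≤ ⟨i, d⟩) ↔ c ≤ d := by
      intro c d
      rw [LX.le_def]
      simp
    rw [h1, h1]
    have h2 := hO.le_iff a b
    have h3 := hO.le_iff b a
    cases o
    · simpa using h3
    · simpa using h2
  · change lexRel S r o I 2 R ![⟨i, a⟩, ⟨i, b⟩] ↔ _
    have h0 : lexRel S r o I 2 R ![⟨i, a⟩, ⟨i, b⟩] ↔ (S.RelMap R ![a, b] ∨
        ∃ a' b', At1 S a a' ∧ At1 S b b' ∧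
          ((a < b ∧ a' < b') ∨ (b < a ∧ b' < a')) ∧ S.RelMap R ![a', b']) := by
      simp [lexRel, hR, LX.lt_def]
    rw [h0]
    constructor
    · rintro (h1 | ⟨a', b', h1, h2, ⟨h3, h4⟩ | ⟨h3, h4⟩, h5⟩)
      · exact h1
      · exact (cross_iff hO h3 h4 h1 h2 R).1.2 h5
      · exact (cross_iff hO h3 h4 h2 h1 R).2.2 h5
    · exact Or.inl

theorem lexS_lt (hO : OSt r o S) (R : L.Relations 2) (hR : R ≠ r) {w w' : LX I M} (h : w < w') :
    ((LexS S r o I).RelMap R ![w, w'] ↔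
      ∃ a' b', At1 S w.a a' ∧ At1 S w'.a b' ∧ a' < b' ∧ S.RelMap R ![a', b']) ∧
    ((LexS S r o I).RelMap R ![w', w] ↔
      ∃ a' b', At1 S w.a a' ∧ At1 S w'.a b' ∧ a' < b' ∧ S.RelMap R ![b', a']) := by
  have hn : ¬ w' < w := lt_asymm h
  have hlt : w.i = w'.i → w.a < w'.a := by
    intro hi
    rcases h with h | h
    · exact absurd hi h.ne
    · exact h.2
  constructor
  · change lexRel S r o I 2 R ![w, w'] ↔ _
    have h0 : lexRel S r o I 2 R ![w, w'] ↔ ((w.i = w'.i ∧ S.RelMap R ![w.a, w'.a]) ∨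
        ∃ a' b', At1 S w.a a' ∧ At1 S w'.a b' ∧ a' < b' ∧ S.RelMap R ![a', b']) := by
      simp [lexRel, hR, h, hn]
    rw [h0]
    constructor
    · rintro (⟨h1, h2⟩ | h1)
      · exact ⟨w.a, w'.a, At1.refl S _, At1.refl S _, hlt h1, h2⟩
      · exact h1
    · exact Or.inr
  · change lexRel S r o I 2 R ![w', w] ↔ _
    have h0 : lexRel S r o I 2 R ![w', w] ↔ ((w'.i = w.i ∧ S.RelMap R ![w'.a, w.a]) ∨
        ∃ a' b', At1 S w'.a a' ∧ At1 S w.a b' ∧ b' < a' ∧ S.RelMap R ![a', b']) := by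
      simp [lexRel, hR, h, hn]
    rw [h0]
    constructor
    · rintro (⟨h1, h2⟩ | ⟨a', b', h1, h2, h3, h4⟩)
      · exact ⟨w.a, w'.a, At1.refl S _, At1.refl S _, hlt h1.symm, h2⟩
      · exact ⟨b', a', h2, h1, h3, h4⟩
    · rintro ⟨a', b', h2, h1, h3, h4⟩
      exact Or.inr ⟨b', a', h1, h2, h3, h4⟩

/-- relations inside a slice -/
theorem lexS_slice (hO : OSt r o S) {n : ℕ} (R : L.Relations n) (i : I) (v : Fin n → M) :
    (LexS S r o I).RelMap R (fun k => (⟨i, v k⟩ : LX I M)) ↔ S.RelMap R v := by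
  by_cases hn : n = 2
  · subst hn
    have h1 := lexS_same (I := I) hO R i (v 0) (v 1)
    have e1 : (fun k => (⟨i, v k⟩ : LX I M)) = ![⟨i, v 0⟩, ⟨i, v 1⟩] := by
      funext k
      fin_cases k <;> rfl
    have e2 : v = ![v 0, v 1] := by
      funext k
      fin_cases k <;> rfl
    rw [e1, h1, ← e2]
  · change lexRel S r o I n R _ ↔ _
    unfold lexRel
    split
    · exact absurd rfl hn
    · exact Iff.rfl

/-- single elements of the lexicographic structure -/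
theorem lexS_one (hO : OSt r o S) {n : ℕ} (R : L.Relations n) (w : LX I M) :
    (LexS S r o I).RelMap R (fun _ => w) ↔ S.RelMap R (fun _ => w.a) :=
  lexS_slice hO R w.i (fun _ => w.a)

theorem at1_lexS (hO : OSt r o S) {w w' : LX I M} :
    At1 (LexS S r o I) w w' ↔ At1 S w.a w'.a := by
  constructor
  · intro h
    refine ⟨?_, fun n R v hv => ?_⟩
    · rintro x rfl y rfl
      exact Iff.rfl.trans (by simp)
    · have h1 := h.2 n R (fun _ => (w, w')) (fun _ => rfl)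
      have e1 : (fun i => (v i).1) = fun _ => w.a := by
        funext i
        rw [hv i]
      have e2 : (fun i => (v i).2) = fun _ => w'.a := by
        funext i
        rw [hv i]
      rw [e1, e2, ← lexS_one (r := r) (o := o) hO R w, ← lexS_one (r := r) (o := o) hO R w']
      exact h1
  · intro h
    refine ⟨?_, fun n R v hv => ?_⟩
    · rintro x rfl y rfl
      exact Iff.rfl.trans (by simp)
    · have h1 := h.2 n R (fun _ => (w.a, w'.a)) (fun _ => rfl)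
      have e1 : (fun i => (v i).1) = fun _ => w := by
        funext i
        rw [hv i]
      have e2 : (fun i => (v i).2) = fun _ => w' := by
        funext i
        rw [hv i]
      rw [e1, e2, lexS_one hO R w, lexS_one hO R w']
      exact h1

/-- **The lexicographic structure is an ordered sum.** -/
theorem OSt.lexS (hL : Ar2 L) (hO : OSt r o S) : OSt r o (LexS S r o I) := by
  refine ⟨fun w w' => ?_, fun w w' => ?_, fun u v u' v' h h' h1 h2 => ?_⟩
  · rcases lt_trichotomy w.i w'.i with h | h | h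
    · exact Or.inl (Or.inl h)
    · rcases hO.total w.a w'.a with h1 | h1
      · exact Or.inl (Or.inr ⟨h, h1⟩)
      · exact Or.inr (Or.inr ⟨h.symm, h1⟩)
    · exact Or.inr (Or.inl h)
  · rw [lexS_r, lexS_r]
    cases o <;> simp
  · refine atEq_pair hL h1 h2 ?_ ?_
    · exact ⟨fun h3 => absurd (h3 : u = v) (ne_of_lt h),
        fun h3 => absurd (h3 : u' = v') (ne_of_lt h')⟩
    · have h1' : At1 S u.a u'.a := (at1_lexS hO).1 h1
      have h2' : At1 S v.a v'.a := (at1_lexS hO).1 h2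
      have hn : ¬ v ≤ u := fun h3 => lt_irrefl _ (h.trans_le h3)
      have hn' : ¬ v' ≤ u' := fun h3 => lt_irrefl _ (h'.trans_le h3)
      refine Prod.ext ?_ ?_
      · ext R
        change (LexS S r o I).RelMap R ![u, v] ↔ (LexS S r o I).RelMap R ![u', v']
        by_cases hR : R = r
        · subst hR
          rw [lexS_r, lexS_r]
          simp [le_of_lt h, le_of_lt h', hn, hn']
        · rw [(lexS_lt hO R hR h).1, (lexS_lt hO R hR h').1]
          constructor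
          · rintro ⟨a', b', h3, h4, h5, h6⟩
            exact ⟨a', b', h1'.symm.trans h3, h2'.symm.trans h4, h5, h6⟩
          · rintro ⟨a', b', h3, h4, h5, h6⟩
            exact ⟨a', b', h1'.trans h3, h2'.trans h4, h5, h6⟩
      · ext R
        change (LexS S r o I).RelMap R ![v, u] ↔ (LexS S r o I).RelMap R ![v', u']
        by_cases hR : R = r
        · subst hR
          rw [lexS_r, lexS_r]
          simp [le_of_lt h, le_of_lt h', hn, hn']
        · rw [(lexS_lt hO R hR h).2, (lexS_lt hO R hR h').2]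
          constructor
          · rintro ⟨a', b', h3, h4, h5, h6⟩
            exact ⟨a', b', h1'.symm.trans h3, h2'.symm.trans h4, h5, h6⟩
          · rintro ⟨a', b', h3, h4, h5, h6⟩
            exact ⟨a', b', h1'.trans h3, h2'.trans h4, h5, h6⟩

/-! ### slices -/

/-- the copy of `X` with index `i` -/
def slc (i : I) (X : Set M) : Set (LX I M) := {w | w.i = i ∧ w.a ∈ X}

theorem slc_inter (i : I) (X Y : Set M) : slc i (X ∩ Y) = slc i X ∩ slc i Y := by
  ext w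
  constructor
  · rintro ⟨h1, h2, h3⟩
    exact ⟨⟨h1, h2⟩, h1, h3⟩
  · rintro ⟨⟨h1, h2⟩, _, h3⟩
    exact ⟨h1, h2, h3⟩

theorem slc_union (i : I) (X Y : Set M) : slc i (X ∪ Y) = slc i X ∪ slc i Y := by
  ext w
  constructor
  · rintro ⟨h1, h2 | h2⟩
    · exact Or.inl ⟨h1, h2⟩
    · exact Or.inr ⟨h1, h2⟩
  · rintro (⟨h1, h2⟩ | ⟨h1, h2⟩)
    · exact ⟨h1, Or.inl h2⟩
    · exact ⟨h1, Or.inr h2⟩

theorem bfr_slc (hO : OSt r o S) (i : I) (X : Set M) (γ : Ordinal.{0}) {p : Set (M × LX I M)}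
    (hp : ∀ a ∈ p, a.1 ∈ X ∧ a.2 = ⟨i, a.1⟩) : BFR S (LexS S r o I) X (slc i X) γ p := by
  refine BFR.of_map (fun a => (⟨i, a⟩ : LX I M)) ?_ ?_ ?_ γ hp
  · intro a _ b _ hab
    exact congrArg LX.a hab
  · ext w
    constructor
    · rintro ⟨rfl, h2⟩
      exact ⟨w.a, h2, rfl⟩
    · rintro ⟨a, ha, rfl⟩
      exact ⟨rfl, ha⟩
  · intro n R v _
    exact (lexS_slice hO R i v).symm

/-- equivalences between pieces of `S` pass to slices -/
theorem slc_congr (hO : OSt r o S) (i j : I) {X Y : Set M} {γ : Ordinal.{0}} {p : Set (M × M)}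
    (h : BFR S S X Y γ p) {q : Set (LX I M × LX I M)}
    (hq : ∀ a ∈ q, a.1.i = i ∧ a.2.i = j ∧ a.1.a ∈ X ∧ a.2.a ∈ Y ∧ (a.1.a, a.2.a) ∈ p) :
    BFR (LexS S r o I) (LexS S r o I) (slc i X) (slc j Y) γ q := by
  have h1 : BFR S (LexS S r o I) Y (slc j Y) γ {a | a.1 ∈ Y ∧ a.2 = ⟨j, a.1⟩} :=
    bfr_slc hO j Y γ fun a ha => ha
  have h2 : BFR (LexS S r o I) S (slc i X) X γ {a | a.2 ∈ X ∧ a.1 = ⟨i, a.2⟩} :=
    (bfr_slc hO i X γ (p := {a | a.1 ∈ X ∧ a.2 = ⟨i, a.1⟩}) fun a ha => ha).symm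
      fun a ha => ha
  have h3 : BFR (LexS S r o I) S (slc i X) Y γ {a | a.1.i = i ∧ a.1.a ∈ X ∧ (a.1.a, a.2) ∈ p} :=
    h2.trans h (by
      rintro ⟨⟨i', a⟩, b⟩ ⟨rfl, ha2, ha3⟩
      exact ⟨a, ⟨ha2, rfl⟩, ha3⟩)
  refine h3.trans h1 ?_
  rintro ⟨⟨i', a⟩, ⟨j', b⟩⟩ ha
  obtain ⟨rfl, rfl, h6, h7, h8⟩ := hq _ ha
  exact ⟨b, ⟨rfl, h6, h8⟩, ⟨h7, rfl⟩⟩

end Pool.Agent.Helper97.LO

end

/-! ### formerly `Pool.Agent.Helper5.VCM.NBAbs` -/

section

/-!
# Absorption of blocks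
-/

set_option autoImplicit false
set_option linter.unusedSectionVars false
set_option linter.unusedVariables false

namespace Pool.Agent.Helper97.LO

open Set Pool.Agent.Helper5.DU Pool.Agent.Helper6.Str Pool.Agent.Helper79.VC
  Pool.Agent.Helper97.VC Pool.Agent.Helper97.MD

variable {L : FirstOrder.Language.{0, 0}} {M : Type}
variable {I : Type} [LinearOrder I] [∀ n, IsEmpty (L.Functions n)] [Preorder M]
  {r : L.Relations 2} {o : Bool} {S : L.Structure M}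

/-- the elements of `B` in `D` above all elements of `A` in `D` -/
def upA (A D B : Set M) : Set M := {e | e ∈ B ∩ D ∧ ∀ a ∈ A ∩ D, a < e}

/-- the union of the blocks with indices in `J` -/
def Blk (A D : Set M) (B : I → Set M) (J : Set I) : Set (LX I M) :=
  {w | w.i ∈ J ∧ w.a ∈ upA A D (B w.i)}

theorem Clo.bfr_ioi (hO : OSt r o S) {D A : Set M} {γ : Ordinal.{0}} (h : Clo S D γ A) {z : M}
    (hz : z ∈ A ∩ D) : BFR S S (D ∩ Ioi z) (A ∩ D ∩ Ioi z) γ {(z, z)} := by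
  have h1 := h.bfr (finite_singleton z) (singleton_subset_iff.2 hz)
  have h2 := hO.ioi hO (u := z) (u' := z) (p := dg {z}) ⟨z, rfl, rfl⟩ h1
  refine BFR.anti ?_ h2
  rintro _ rfl
  exact ⟨z, rfl, rfl⟩

theorem Clo.bfr_ioc (hO : OSt r o S) {D A : Set M} {γ : Ordinal.{0}} (h : Clo S D γ A) {z e : M}
    (hz : z ∈ A ∩ D) (he : e ∈ A ∩ D) :
    BFR S S (D ∩ Ioc z e) (A ∩ D ∩ Ioc z e) γ {(z, z), (e, e)} := by
  have h1 := h.bfr (F := {z, e}) ((finite_singleton e).insert z) (by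
    rintro _ (rfl | rfl)
    · exact hz
    · exact he)
  have h2 := hO.ioc hO (u := z) (u' := z) (v := e) (v' := e) (p := dg {z, e})
    ⟨z, Or.inl rfl, rfl⟩ ⟨e, Or.inr rfl, rfl⟩ h1
  refine BFR.anti ?_ h2
  rintro _ (rfl | rfl)
  · exact ⟨z, Or.inl rfl, rfl⟩
  · exact ⟨e, Or.inr rfl, rfl⟩

/-- **Absorption.** -/
theorem absorb (hL : Ar2 L) (hO : OSt r o S) {D A : Set M} {B : I → Set M} {g₀ : Ordinal.{0}}
    (hlast : ∀ y ∈ D, ∃ z ∈ D, y < z) (hAc : A.Countable) (hA : Clo S D g₀ A)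
    (hB : ∀ i, Clo S D g₀ (B i)) (hAB : ∀ i, A ⊆ B i) (g : Ordinal.{0}) : g ≤ g₀ →
    ∀ (J : Set I) (i₀ : I), (∀ j ∈ J, i₀ < j) → ∀ z ∈ D,
      BFR (LexS S r o I) (LexS S r o I) (slc i₀ (D ∩ Ioi z) ∪ Blk A D B J)
        (slc i₀ (D ∩ Ioi z)) g ∅ := by
  induction g using WellFoundedLT.induction with
  | _ g ih =>
  intro hg J i₀ hJ z hz
  have hT : OSt r o (LexS S r o I) := OSt.lexS hL hO
  -- splitting at an element of the large part
  have hsplit : ∀ β < g, ∀ c ∈ D, z < c →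
      BFR (LexS S r o I) (LexS S r o I) (slc i₀ (D ∩ Ioi z) ∪ Blk A D B J)
        (slc i₀ (D ∩ Ioi z)) β {(⟨i₀, c⟩, ⟨i₀, c⟩)} := by
    intro β hβ c hc hzc
    have h1 := hT.comp2 hL (U₁ := slc i₀ (D ∩ Ioc z c)) (V₁ := slc i₀ (D ∩ Ioc z c))
      (U₂ := slc i₀ (D ∩ Ioi c) ∪ Blk A D B J) (V₂ := slc i₀ (D ∩ Ioi c)) (γ := β)
      (p₁ := {(⟨i₀, c⟩, ⟨i₀, c⟩)}) (p₂ := ∅) ?_ ?_ ?_ (fun a ha => absurd ha (notMem_empty a))
      (BFR.refl _ _ β ?_) (ih β hβ (hβ.le.trans hg) J i₀ hJ c hc)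
    · have e1 : slc i₀ (D ∩ Ioc z c) ∪ slc i₀ (D ∩ Ioi c) = slc i₀ (D ∩ Ioi z) := by
        rw [← slc_union]
        congr 1
        ext a
        constructor
        · rintro (⟨h1, h2, h3⟩ | ⟨h1, h2⟩)
          · exact ⟨h1, h2⟩
          · exact ⟨h1, lt_trans hzc h2⟩
        · rintro ⟨h1, h2⟩
          by_cases h3 : a ≤ c
          · exact Or.inl ⟨h1, h2, h3⟩
          · exact Or.inr ⟨h1, hO.lt_of_not_le h3⟩
      rw [← union_assoc, e1, union_empty] at h1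
      exact h1
    · rintro a ⟨ha1, ha2, ha3, ha4⟩ b (⟨hb1, hb2, hb3⟩ | ⟨hb1, hb2⟩)
      · exact Or.inr ⟨ha1.trans hb1.symm, lt_of_le_of_lt ha4 hb3⟩
      · exact Or.inl (by rw [ha1]; exact hJ _ hb1)
    · rintro a ⟨ha1, ha2, ha3, ha4⟩ b ⟨hb1, hb2, hb3⟩
      exact Or.inr ⟨ha1.trans hb1.symm, lt_of_le_of_lt ha4 hb3⟩
    · rintro a rfl
      exact ⟨⟨rfl, hc, hzc, le_refl c⟩, rfl, hc, hzc, le_refl c⟩
    · rintro a rfl
      exact ⟨⟨rfl, hc, hzc, le_refl c⟩, rfl⟩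
  rw [BFR.def]
  refine ⟨AtEq.anti (empty_subset _) (BFR.refl (LexS S r o I) ∅ 0
    (p := ∅) fun a ha => absurd ha (notMem_empty a)).atEq, fun β hβ => ⟨?_, ?_⟩⟩
  · rintro ⟨l, e⟩ (⟨hx1, hx2, hx3⟩ | ⟨hx1, ⟨hx2, hx2'⟩, hx3⟩)
    · -- an element of the large part
      have hx1' : l = i₀ := hx1
      subst hx1'
      refine ⟨⟨l, e⟩, ⟨rfl, hx2, hx3⟩, ?_⟩
      have := hsplit β hβ e hx2 hx3
      rwa [← insert_empty_eq] at this
    · -- an element of a block
      have hlJ : l ∈ J := hx1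
      have heB : e ∈ B l := hx2
      have heD : e ∈ D := hx2'
      have heA : ∀ a ∈ A ∩ D, a < e := hx3
      have hil : i₀ < l := hJ l hlJ
      have hβ1 : β + 1 ≤ g₀ := (Order.add_one_le_of_lt hβ).trans hg
      obtain ⟨z', hz', h1⟩ := (hA.mono hβ1) ∅ (by simp) z hz
      have h2 : BFR S S (D ∩ Ioi z) (D ∩ Ioi z') (β + 1) {(z, z')} := by
        refine BFR.anti ?_ (hO.ioi hO (mem_insert _ _) h1)
        rintro _ rfl
        exact mem_insert _ _
      have hze : z' < e := heA z' hz'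
      have h3 : BFR S S (D ∩ Ioi z') (D ∩ Ioi z) (β + 1) {(z', z)} := h2.symm (by
        rintro _ rfl
        rfl)
      obtain ⟨y, hy, h4⟩ := h3.forth (lt_add_one_self β) (x := e) ⟨heD, hze⟩
      refine ⟨⟨i₀, y⟩, ⟨rfl, hy⟩, ?_⟩
      have hβg : β ≤ g₀ := hβ.le.trans hg
      -- first step
      have c1 : BFR (LexS S r o I) (LexS S r o I) (slc i₀ (D ∩ Ioi z) ∪ Blk A D B J)
          (slc i₀ (D ∩ Ioi z') ∪ Blk A D B J) β {(⟨l, e⟩, ⟨l, e⟩)} := by
        have := hT.comp2 hL (U₁ := slc i₀ (D ∩ Ioi z)) (V₁ := slc i₀ (D ∩ Ioi z'))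
          (U₂ := Blk A D B J) (V₂ := Blk A D B J) (γ := β) (p₁ := ∅)
          (p₂ := {(⟨l, e⟩, ⟨l, e⟩)}) ?_ ?_ (fun a ha => absurd ha (notMem_empty a)) ?_
          (slc_congr hO i₀ i₀ (h2.mono (lt_add_one_self β).le)
            fun a ha => absurd ha (notMem_empty a)) (BFR.refl _ _ β ?_)
        · rwa [empty_union] at this
        · rintro a ⟨ha1, ha2⟩ b ⟨hb1, hb2⟩
          exact Or.inl (by rw [ha1]; exact hJ _ hb1)
        · rintro a ⟨ha1, ha2⟩ b ⟨hb1, hb2⟩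
          exact Or.inl (by rw [ha1]; exact hJ _ hb1)
        · rintro a rfl
          exact ⟨⟨hlJ, ⟨heB, heD⟩, heA⟩, hlJ, ⟨heB, heD⟩, heA⟩
        · rintro a rfl
          exact ⟨⟨hlJ, ⟨heB, heD⟩, heA⟩, rfl⟩
      -- third step
      have c3 : BFR (LexS S r o I) (LexS S r o I) (slc i₀ (D ∩ Ioi z'))
          (slc i₀ (D ∩ Ioi z)) β {(⟨i₀, e⟩, ⟨i₀, y⟩)} := by
        refine slc_congr hO i₀ i₀ h4 ?_
        rintro a rfl
        exact ⟨rfl, rfl, ⟨heD, hze⟩, hy, mem_insert _ _⟩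
      -- the upper part
      have cup : BFR (LexS S r o I) (LexS S r o I)
          (slc l (B l ∩ D ∩ Ioi e) ∪ Blk A D B (J ∩ Ioi l)) (slc i₀ (D ∩ Ioi e)) β ∅ := by
        have u1 : BFR S S (B l ∩ D ∩ Ioi e) (D ∩ Ioi e) β ∅ :=
          (((hB l).mono hβg).bfr_ioi hO (z := e) ⟨heB, heD⟩).symm
            fun a ha => absurd ha (notMem_empty a)
        have u2 := hT.comp2_empty hL (U₁ := slc l (B l ∩ D ∩ Ioi e)) (V₁ := slc l (D ∩ Ioi e))
          (U₂ := Blk A D B (J ∩ Ioi l)) (V₂ := Blk A D B (J ∩ Ioi l)) (γ := β) ?_ ?_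
          (slc_congr hO l l u1 fun a ha => absurd ha (notMem_empty a))
          (BFR.refl _ _ β fun a ha => absurd ha (notMem_empty a))
        · have u3 := ih β hβ hβg (J ∩ Ioi l) l (fun j hj => hj.2) e heD
          have u4 : BFR (LexS S r o I) (LexS S r o I) (slc l (D ∩ Ioi e))
              (slc i₀ (D ∩ Ioi e)) β ∅ :=
            slc_congr hO l i₀ (BFR.refl S (D ∩ Ioi e) β (p := ∅)
              fun a ha => absurd ha (notMem_empty a)) fun a ha => absurd ha (notMem_empty a)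
          exact (u2.trans u3 fun a ha => absurd ha (notMem_empty a)).trans u4
            fun a ha => absurd ha (notMem_empty a)
        · rintro a ⟨ha1, ha2⟩ b ⟨⟨hb0, hb1⟩, hb2⟩
          exact Or.inl (by rw [ha1]; exact hb1)
        · rintro a ⟨ha1, ha2⟩ b ⟨⟨hb0, hb1⟩, hb2⟩
          exact Or.inl (by rw [ha1]; exact hb1)
      -- the lower part
      have clow : BFR (LexS S r o I) (LexS S r o I)
          ((slc i₀ (D ∩ Ioi z') ∪ Blk A D B (J ∩ Iio l)) ∪ slc l (upA A D (B l) ∩ Iic e))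
          (slc i₀ (D ∩ Ioc z' e)) β {(⟨l, e⟩, ⟨i₀, e⟩)} := by
        -- `low`
        set low : Set M := {y | y ∈ B l ∩ D ∧ z' < y ∧ ∃ a ∈ A ∩ D, y ≤ a} with hlow
        have l1 := ih β hβ hβg (J ∩ Iio l) i₀ (fun j hj => hJ j hj.1) z' hz'.2
        have l2 : BFR S S (D ∩ Ioi z') (A ∩ D ∩ Ioi z') β ∅ :=
          BFR.anti (empty_subset _) ((hA.mono hβg).bfr_ioi hO hz')
        have hAlast : ∀ a ∈ A ∩ D, ∃ b ∈ A ∩ D, a < b := by
          intro a ha
          obtain ⟨y, hy, hay⟩ := hlast a ha.2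
          obtain ⟨b, hb, h5⟩ := hA {a} (by simpa using ha) y hy
          refine ⟨b, hb, ?_⟩
          have h6 := hO.lt_congr hO h5.atEq (a := (a, a)) (b := (y, b))
            (mem_insert_of_mem _ ⟨a, by simp, rfl⟩) (mem_insert _ _)
          exact h6.1 hay
        obtain ⟨c, hc0, hcA, hcs, hcof⟩ := hO.exists_cofinal
          (hAc.mono inter_subset_left) hz' hAlast
        have l3 : BFR S S (A ∩ D ∩ Ioi z') low β ∅ := by
          refine hO.cells hL hcs ?_ ?_ fun n => ?_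
          · rintro a ⟨ha1, ha2⟩
            rw [hc0]
            exact ⟨ha2, hcof a ha1⟩
          · rintro a ⟨ha1, ha2, b, hb, hab⟩
            rw [hc0]
            obtain ⟨n, hn⟩ := hcof b hb
            exact ⟨ha2, n, hab.trans hn⟩
          · have hmono : ∀ m n, m ≤ n → c m ≤ c n := by
              intro m n hmn
              induction n, hmn using Nat.le_induction with
              | base => exact le_refl _
              | succ n _ ih => exact ih.trans (le_of_lt (hcs n))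
            have h0n : z' ≤ c n := by
              rw [← hc0]
              exact hmono 0 n (Nat.zero_le n)
            have e1 : A ∩ D ∩ Ioi z' ∩ Ioc (c n) (c (n + 1)) =
                A ∩ D ∩ Ioc (c n) (c (n + 1)) := by
              ext a
              constructor
              · rintro ⟨⟨h5, h6⟩, h7⟩
                exact ⟨h5, h7⟩
              · rintro ⟨h5, h7⟩
                exact ⟨⟨h5, lt_of_le_of_lt h0n h7.1⟩, h7⟩
            have e2 : low ∩ Ioc (c n) (c (n + 1)) = B l ∩ D ∩ Ioc (c n) (c (n + 1)) := by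
              ext a
              constructor
              · rintro ⟨⟨h5, h6⟩, h7⟩
                exact ⟨h5, h7⟩
              · rintro ⟨h5, h7⟩
                exact ⟨⟨h5, lt_of_le_of_lt h0n h7.1, c (n + 1), hcA _, h7.2⟩, h7⟩
            rw [e1, e2]
            have h8 := (hA.mono hβg).bfr_ioc hO (hcA n) (hcA (n + 1))
            have h9 := ((hB l).mono hβg).bfr_ioc hO (z := c n) (e := c (n + 1))
              ⟨hAB l (hcA n).1, (hcA n).2⟩ ⟨hAB l (hcA (n + 1)).1, (hcA (n + 1)).2⟩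
            exact (h8.symm (q := ∅) fun a ha => absurd ha (notMem_empty a)).trans h9
              fun a ha => absurd ha (notMem_empty a)
        have l4 : BFR (LexS S r o I) (LexS S r o I)
            (slc i₀ (D ∩ Ioi z') ∪ Blk A D B (J ∩ Iio l)) (slc i₀ low) β ∅ :=
          l1.trans (slc_congr hO i₀ i₀ (l2.trans l3 (r := ∅)
            fun a ha => absurd ha (notMem_empty a)) (q := ∅)
            fun a ha => absurd ha (notMem_empty a)) fun a ha => absurd ha (notMem_empty a)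
        have l5 : BFR (LexS S r o I) (LexS S r o I) (slc l (upA A D (B l) ∩ Iic e))
            (slc i₀ (upA A D (B l) ∩ Iic e)) β {(⟨l, e⟩, ⟨i₀, e⟩)} := by
          refine slc_congr hO l i₀ (BFR.refl S (upA A D (B l) ∩ Iic e) β (p := {(e, e)}) ?_) ?_
          · rintro a rfl
            exact ⟨⟨⟨⟨heB, heD⟩, heA⟩, le_refl e⟩, rfl⟩
          · rintro a rfl
            exact ⟨rfl, rfl, ⟨⟨⟨heB, heD⟩, heA⟩, le_refl e⟩, ⟨⟨⟨heB, heD⟩, heA⟩, le_refl e⟩, rfl⟩
        have l6 := hT.comp2 hL (p₁ := ∅) (p₂ := {(⟨l, e⟩, ⟨i₀, e⟩)}) ?_ ?_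
          (fun a ha => absurd ha (notMem_empty a)) ?_ l4 l5
        · have e3 : slc i₀ low ∪ slc i₀ (upA A D (B l) ∩ Iic e) =
              slc i₀ (B l ∩ D ∩ Ioc z' e) := by
            rw [← slc_union]
            congr 1
            ext a
            constructor
            · rintro (⟨h5, h6, b, hb, hab⟩ | ⟨⟨h5, h6⟩, h7⟩)
              · exact ⟨h5, h6, hab.trans (le_of_lt (heA b hb))⟩
              · exact ⟨h5, h6 z' hz', h7⟩
            · rintro ⟨h5, h6, h7⟩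
              by_cases h8 : ∃ b ∈ A ∩ D, a ≤ b
              · exact Or.inl ⟨h5, h6, h8⟩
              · refine Or.inr ⟨⟨h5, fun b hb => ?_⟩, h7⟩
                exact hO.lt_of_not_le fun h9 => h8 ⟨b, hb, h9⟩
          rw [e3, empty_union] at l6
          have l7 : BFR (LexS S r o I) (LexS S r o I) (slc i₀ (B l ∩ D ∩ Ioc z' e))
              (slc i₀ (D ∩ Ioc z' e)) β {(⟨i₀, e⟩, ⟨i₀, e⟩)} := by
            refine slc_congr hO i₀ i₀ (p := {(e, e)}) ?_ ?_
            · refine (((hB l).mono hβg).bfr_ioc hO (z := z') (e := e)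
                ⟨hAB l hz'.1, hz'.2⟩ ⟨heB, heD⟩).symm ?_
              rintro a rfl
              exact Or.inr rfl
            · rintro a rfl
              exact ⟨rfl, rfl, ⟨⟨heB, heD⟩, hze, le_refl e⟩, ⟨heD, hze, le_refl e⟩, rfl⟩
          refine l6.trans l7 ?_
          rintro a rfl
          exact ⟨⟨i₀, e⟩, rfl, rfl⟩
        · rintro a (⟨ha1, ha2⟩ | ⟨⟨ha0, ha1⟩, ha2⟩) b ⟨hb1, hb2⟩
          · exact Or.inl (by rw [ha1, hb1]; exact hil)
          · exact Or.inl (by rw [hb1]; exact ha1)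
        · rintro a ⟨ha1, ha2, ha3, b', hb', hab'⟩ b ⟨hb1, ⟨hb2, hb3⟩, hb4⟩
          exact Or.inr ⟨ha1.trans hb1.symm, lt_of_le_of_lt hab' (hb3 b' hb')⟩
        · rintro a rfl
          exact ⟨⟨rfl, ⟨⟨heB, heD⟩, heA⟩, le_refl e⟩, rfl, ⟨⟨heB, heD⟩, heA⟩, le_refl e⟩
      -- second step
      have c2 : BFR (LexS S r o I) (LexS S r o I) (slc i₀ (D ∩ Ioi z') ∪ Blk A D B J)
          (slc i₀ (D ∩ Ioi z')) β {(⟨l, e⟩, ⟨i₀, e⟩)} := by
        have h5 := hT.comp2 hL (p₁ := {(⟨l, e⟩, ⟨i₀, e⟩)}) (p₂ := ∅) ?_ ?_ ?_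
          (fun a ha => absurd ha (notMem_empty a)) clow cup
        · rw [union_empty] at h5
          have e4 : ((slc i₀ (D ∩ Ioi z') ∪ Blk A D B (J ∩ Iio l)) ∪
              slc l (upA A D (B l) ∩ Iic e)) ∪ (slc l (B l ∩ D ∩ Ioi e) ∪
              Blk A D B (J ∩ Ioi l)) = slc i₀ (D ∩ Ioi z') ∪ Blk A D B J := by
            ext w
            constructor
            · rintro (((h6 | ⟨⟨h6, h7⟩, h8⟩) | ⟨h6, h7, h8⟩) | (⟨h6, h7, h8⟩ | ⟨⟨h6, h7⟩, h8⟩))
              · exact Or.inl h6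
              · exact Or.inr ⟨h6, h8⟩
              · refine Or.inr ⟨by rw [h6]; exact hlJ, ?_⟩
                rw [h6]
                exact h7
              · refine Or.inr ⟨by rw [h6]; exact hlJ, ?_⟩
                rw [h6]
                exact ⟨h7, fun a ha => lt_trans (heA a ha) h8⟩
              · exact Or.inr ⟨h6, h8⟩
            · rintro (h6 | ⟨h6, h7⟩)
              · exact Or.inl (Or.inl (Or.inl h6))
              · rcases lt_trichotomy w.i l with h8 | h8 | h8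
                · exact Or.inl (Or.inl (Or.inr ⟨⟨h6, h8⟩, h7⟩))
                · by_cases h9 : w.a ≤ e
                  · refine Or.inl (Or.inr ⟨h8, ?_, h9⟩)
                    rw [← h8]
                    exact h7
                  · refine Or.inr (Or.inl ⟨h8, ?_, hO.lt_of_not_le h9⟩)
                    rw [← h8]
                    exact h7.1
                · exact Or.inr (Or.inr ⟨⟨h6, h8⟩, h7⟩)
          have e5 : slc i₀ (D ∩ Ioc z' e) ∪ slc i₀ (D ∩ Ioi e) = slc i₀ (D ∩ Ioi z') := by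
            rw [← slc_union]
            congr 1
            ext a
            constructor
            · rintro (⟨h1, h2, h3⟩ | ⟨h1, h2⟩)
              · exact ⟨h1, h2⟩
              · exact ⟨h1, lt_trans hze h2⟩
            · rintro ⟨h1, h2⟩
              by_cases h3 : a ≤ e
              · exact Or.inl ⟨h1, h2, h3⟩
              · exact Or.inr ⟨h1, hO.lt_of_not_le h3⟩
          rw [e4, e5] at h5
          exact h5
        · rintro a ((⟨ha1, ha2⟩ | ⟨⟨ha0, ha1⟩, ha2⟩) | ⟨ha1, ha2, ha3⟩) b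
            (⟨hb1, hb2, hb3⟩ | ⟨⟨hb0, hb1⟩, hb2⟩)
          · exact Or.inl (by rw [ha1, hb1]; exact hil)
          · exact Or.inl (by rw [ha1]; exact hil.trans hb1)
          · exact Or.inl (by rw [hb1]; exact ha1)
          · exact Or.inl (lt_trans (ha1 : a.i < l) hb1)
          · exact Or.inr ⟨ha1.trans hb1.symm, lt_of_le_of_lt ha3 hb3⟩
          · exact Or.inl (by rw [ha1]; exact hb1)
        · rintro a ⟨ha1, ha2, ha3, ha4⟩ b ⟨hb1, hb2, hb3⟩
          exact Or.inr ⟨ha1.trans hb1.symm, lt_of_le_of_lt ha4 hb3⟩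
        · rintro a rfl
          exact ⟨Or.inr ⟨rfl, ⟨⟨heB, heD⟩, heA⟩, le_refl e⟩, rfl, heD, hze, le_refl e⟩
      rw [insert_empty_eq]
      refine (c1.trans c2 (r := {(⟨l, e⟩, ⟨i₀, e⟩)}) ?_).trans c3 ?_
      · rintro a rfl
        exact ⟨⟨l, e⟩, rfl, rfl⟩
      · rintro a rfl
        exact ⟨⟨i₀, e⟩, rfl, rfl⟩
  · rintro ⟨l, e⟩ ⟨hx1, hx2, hx3⟩
    have hx1' : l = i₀ := hx1
    subst hx1'
    refine ⟨⟨l, e⟩, Or.inl ⟨rfl, hx2, hx3⟩, ?_⟩
    have := hsplit β hβ e hx2 hx3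
    rwa [← insert_empty_eq] at this

end Pool.Agent.Helper97.LO

end

/-! ### formerly `Pool.Agent.Helper5.VCM.NBPair` -/

section

/-!
# Closed pairs, ranks of intervals
-/

set_option autoImplicit false
set_option linter.unusedSectionVars false
set_option linter.unusedVariables false

namespace Pool.Agent.Helper97.LO

open Set Pool.Agent.Helper5.DU Pool.Agent.Helper6.Str Pool.Agent.Helper79.VC
  Pool.Agent.Helper97.VC Pool.Agent.Helper97.MD

variable {L : FirstOrder.Language.{0, 0}} {M : Type}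

/-! ### dense colourings of the rationals -/

/-- there is a colouring of the rationals by countably many colours, each of them dense -/
theorem exists_dense_colouring : ∃ ty : ℚ → Option ℕ, ∀ a b : ℚ, a < b → ∀ c : Option ℕ,
    ∃ q, a < q ∧ q < b ∧ ty q = c := by
  classical
  let Tr : Type := {t : ℚ × ℚ × Option ℕ // t.1 < t.2.1}
  have hTr : Nonempty Tr := ⟨⟨(0, 1, none), zero_lt_one⟩⟩
  obtain ⟨t, ht⟩ := exists_surjective_nat Tr
  have hpick : ∀ (n : ℕ) (s : Finset ℚ), ∃ q, (t n).1.1 < q ∧ q < (t n).1.2.1 ∧ q ∉ s := by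
    intro n s
    have hinf : (Ioo (t n).1.1 (t n).1.2.1).Infinite := Ioo_infinite (t n).2
    obtain ⟨q, hq, hqs⟩ := hinf.exists_notMem_finset s
    exact ⟨q, hq.1, hq.2, hqs⟩
  choose pick hp1 hp2 hp3 using hpick
  let s : ℕ → Finset ℚ := fun n => n.rec ∅ fun k s => insert (pick k s) s
  have hs : ∀ n, s (n + 1) = insert (pick n (s n)) (s n) := fun n => rfl
  have hmono : ∀ m n, m ≤ n → s m ⊆ s n := by
    intro m n hmn
    induction n, hmn using Nat.le_induction with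
    | base => exact Finset.Subset.refl _
    | succ n _ ih => exact ih.trans (by rw [hs]; exact Finset.subset_insert _ _)
  let q : ℕ → ℚ := fun n => pick n (s n)
  have hq1 : ∀ n, q n ∈ s (n + 1) := fun n => by rw [hs]; exact Finset.mem_insert_self _ _
  have hq2 : ∀ n, q n ∉ s n := fun n => hp3 n (s n)
  have hlt : ∀ m n, m < n → q m ≠ q n := by
    intro m n hmn h
    apply hq2 n
    rw [← h]
    exact hmono (m + 1) n hmn (hq1 m)
  have hinj : Function.Injective q := by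
    intro m n h
    by_contra hne
    rcases lt_or_gt_of_ne hne with h1 | h1
    · exact hlt m n h1 h
    · exact hlt n m h1 h.symm
  refine ⟨fun x => if h : ∃ n, q n = x then (t h.choose).1.2.2 else none, ?_⟩
  intro a b hab c
  obtain ⟨n, hn⟩ := ht ⟨(a, b, c), hab⟩
  have h1 := hp1 n (s n)
  have h2 := hp2 n (s n)
  refine ⟨q n, ?_, ?_, ?_⟩
  · have : (t n).1.1 = a := by rw [hn]
    rw [← this]
    exact h1
  · have : (t n).1.2.1 = b := by rw [hn]
    rw [← this]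
    exact h2
  · have h3 : ∃ m, q m = q n := ⟨n, rfl⟩
    have h4 : h3.choose = n := hinj h3.choose_spec
    simp only [dif_pos h3, h4]
    rw [hn]

variable [Preorder M]

/-- closed pairs for the nested intervals -/
structure NBP (δ : Ordinal.{0}) (S : L.Structure M) (D : Set M) (x : M) (B : Set M)
    (lam : Ordinal.{0}) : Prop where
  cnt : B.Countable
  mem : x ∈ B
  lt : lam < om1
  dlt : δ < lam
  add : ∀ a < lam, ∀ b < lam, a + b < lam
  om : Ordinal.omega0 < lam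
  clo : ∀ γ < lam, Clo S univ γ B
  cloD : ∀ γ < lam, Clo S D γ B
  rk : ∀ u ∈ B ∩ D, ∀ v ∈ B ∩ D, ∃ ρ < lam, SL S (Icc u v) ρ
  unb : ∀ γ < lam, ∃ z ∈ B ∩ D, ¬ SL S (Icc x z) γ

theorem exists_nbp {δ : Ordinal.{0}} {S : L.Structure M} {D : Set M} {x : M}
    (hδ : δ < om1) (h1 : Small S univ) (h2 : Small S D)
    (htame : ∀ u ∈ D, ∀ v ∈ D, TameX S (Icc u v))
    (hunb : ∀ γ < om1, ∃ z ∈ D, ¬ SL S (Icc x z) γ) {B₀ : Set M} (hB₀ : B₀.Countable)
    {μ : Ordinal.{0}} (hμ : μ < om1) :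
    ∃ (B : Set M) (lam : Ordinal.{0}), B₀ ⊆ B ∧ μ < lam ∧ NBP δ S D x B lam := by
  classical
  obtain ⟨f, hf1, hf2, hf3⟩ := h1.exists_wit
  obtain ⟨g, hg1, hg2, hg3⟩ := h2.exists_wit
  have hz : ∀ γ : Ordinal.{0}, ∃ z, γ < om1 → z ∈ D ∧ ¬ SL S (Icc x z) γ := by
    intro γ
    by_cases hγ : γ < om1
    · obtain ⟨z, hz1, hz2⟩ := hunb γ hγ
      exact ⟨z, fun _ => ⟨hz1, hz2⟩⟩
    · exact ⟨x, fun h => absurd h hγ⟩
  choose z hz using hz
  have hr : ∀ u v : M, ∃ ρ < om1, u ∈ D → v ∈ D → SL S (Icc u v) ρ := by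
    intro u v
    by_cases h : u ∈ D ∧ v ∈ D
    · obtain ⟨ρ, hρ, h'⟩ := (htame u h.1 v h.2).exists_SL
      exact ⟨ρ, hρ, fun _ _ => h'⟩
    · exact ⟨0, Ordinal.omega_pos 1, fun a b => absurd ⟨a, b⟩ h⟩
  choose ρ hρ1 hρ2 using hr
  obtain ⟨B, lam, hB1, hB2, hB3, hB4, hB5, hB6⟩ := exists_pair
    (fun F γ => f F γ ∪ g F γ ∪ {z γ})
    (fun F γ _ => ((hf1 F γ).union (hg1 F γ)).union (countable_singleton _))
    (fun F _ => F.sup fun u => F.sup fun v => ρ u v)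
    (by
      intro F γ _
      rw [Finset.sup_lt_iff (Ordinal.omega_pos 1)]
      intro u _
      rw [Finset.sup_lt_iff (Ordinal.omega_pos 1)]
      intro v _
      exact hρ1 u v) (hB₀.union (countable_singleton x))
    (max_lt (max_lt hδ omega_lt_om1) hμ)
  refine ⟨B, lam, subset_union_left.trans hB2, lt_of_le_of_lt (le_max_right _ _) hB3,
    hB1, hB2 (Or.inr rfl), hB4, ?_, hB5, ?_, ?_, ?_, ?_, ?_⟩
  · exact lt_of_le_of_lt ((le_max_left _ _).trans (le_max_left _ _)) hB3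
  · exact lt_of_le_of_lt ((le_max_right _ _).trans (le_max_left _ _)) hB3
  · intro γ hγ
    refine hf3 B γ (hγ.trans hB4) fun F hF => ?_
    exact (subset_union_left.trans subset_union_left).trans
      (hB6 F (hF.trans inter_subset_left) γ hγ).1
  · intro γ hγ
    refine hg3 B γ (hγ.trans hB4) fun F hF => ?_
    exact (subset_union_right.trans subset_union_left).trans
      (hB6 F (hF.trans inter_subset_left) γ hγ).1
  · intro u hu v hv
    have h5 := (hB6 {u, v} (by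
      intro a ha
      simp at ha
      rcases ha with rfl | rfl
      · exact hu.1
      · exact hv.1) 0 ((zero_le).trans_lt hB3)).2
    refine ⟨ρ u v, lt_of_le_of_lt ?_ h5, hρ2 u v hu.2 hv.2⟩
    have hum : u ∈ ({u, v} : Finset M) := Finset.mem_insert_self _ _
    have hvm : v ∈ ({u, v} : Finset M) := Finset.mem_insert_of_mem (Finset.mem_singleton_self v)
    have h6 : ρ u v ≤ ({u, v} : Finset M).sup fun w => ρ u w :=
      Finset.le_sup (f := fun w => ρ u w) hvm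
    exact h6.trans (Finset.le_sup (f := fun w' => ({u, v} : Finset M).sup fun w => ρ w' w) hum)
  · intro γ hγ
    have h5 := (hB6 ∅ (by simp) γ hγ).1
    obtain ⟨h6, h7⟩ := hz γ (hγ.trans hB4)
    exact ⟨z γ, ⟨h5 (Or.inr rfl), h6⟩, h7⟩

variable {r : L.Relations 2} {o : Bool} {S : L.Structure M} {δ : Ordinal.{0}} {D : Set M} {x : M}

/-- intervals in `B` and in `M` -/
theorem NBP.icc (hO : OSt r o S) {B : Set M} {lam : Ordinal.{0}} (h : NBP δ S D x B lam)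
    {γ : Ordinal.{0}} (hγ : γ < lam) {u v : M} (hu : u ∈ B) (hv : v ∈ B) :
    BFR S S (Icc u v) (B ∩ Icc u v) γ ∅ := by
  have h1 := (h.clo γ hγ).bfr (F := {u, v}) ((finite_singleton v).insert u) (by
    rintro _ (rfl | rfl)
    · exact ⟨hu, mem_univ _⟩
    · exact ⟨hv, mem_univ _⟩)
  have h2 := hO.icc hO (u := u) (u' := u) (v := v) (v' := v) (p := dg {u, v})
    ⟨u, Or.inl rfl, rfl⟩ ⟨v, Or.inr rfl, rfl⟩ h1
  rw [univ_inter, inter_univ] at h2
  exact BFR.anti (empty_subset _) h2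

theorem NBP.lt_omega {B : Set M} {lam : Ordinal.{0}} (h : NBP δ S D x B lam)
    {γ : Ordinal.{0}} (hγ : γ < lam) : γ + Ordinal.omega0 < lam := h.add γ hγ _ h.om

theorem NBP.sl_iff (hO : OSt r o S) {B : Set M} {lam : Ordinal.{0}} (h : NBP δ S D x B lam)
    {γ : Ordinal.{0}} (hγ : γ < lam) {u v : M} (hu : u ∈ B) (hv : v ∈ B) :
    SL S (Icc u v) γ ↔ SL S (B ∩ Icc u v) γ := by
  have h1 := h.icc hO (h.lt_omega hγ) hu hv
  constructor
  · intro h2
    exact h2.congr (hγ.trans h.lt) h1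
  · intro h2
    exact h2.congr (hγ.trans h.lt) (h1.symm fun a ha => absurd ha (notMem_empty a))

/-- ranks of the blocks are unbounded -/
theorem NBP.up (hL : Ar2 L) (hO : OSt r o S) (hge : ∀ y ∈ D, x ≤ y) (hx : x ∈ D)
    {B : Set M} {lam : Ordinal.{0}} (h : NBP δ S D x B lam) {A : Set M} (hAB : A ⊆ B)
    {e : M} (he : e ∈ upA A D B) {γ : Ordinal.{0}} (hγ : γ < lam) :
    ∃ e' ∈ upA A D B, e ≤ e' ∧ ¬ SL S (B ∩ Icc e e') γ := by
  obtain ⟨ρ, hρ, hρ'⟩ := h.rk x ⟨h.mem, hx⟩ e he.1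
  set κ := max ρ γ with hκ
  have hκl : κ < lam := max_lt hρ hγ
  have h1 : κ + Ordinal.omega0 + 1 < lam :=
    h.add _ (h.lt_omega hκl) _ (lt_trans Ordinal.one_lt_omega0 h.om)
  obtain ⟨z, hz, hz'⟩ := h.unb _ h1
  have hez : e ≤ z := by
    by_contra hn
    have hze : z < e := hO.lt_of_not_le hn
    apply hz'
    have h2 := hO.sl_icc hL hρ' (u := x) (v := z) ⟨le_refl x, hge e he.1.2⟩
      ⟨hge z hz.2, le_of_lt hze⟩
    have e1 : Icc x e ∩ Icc x z = Icc x z := by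
      ext a
      constructor
      · exact fun h => h.2
      · exact fun h => ⟨⟨h.1, h.2.trans (le_of_lt hze)⟩, h⟩
    rw [e1] at h2
    refine h2.mono ?_
    refine le_trans ?_ le_self_add
    gcongr
    exact le_max_left _ _
  refine ⟨z, ⟨hz, fun a ha => lt_of_lt_of_le (he.2 a ha) hez⟩, hez, fun h3 => hz' ?_⟩
  have h4 : SL S (Icc e z) γ := (h.sl_iff hO hγ he.1.1 hz.1).2 h3
  have h5 := hO.sl_concat hL (X := univ) (α := κ) (hκl.trans h.lt) (x := x) (u := e) (v := z)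
    (mem_univ _) (hge e he.1.2) hez (by
      rw [univ_inter]
      exact hρ'.mono (le_max_left _ _)) (by
      rw [univ_inter]
      exact h4.mono (le_max_right _ _))
  rwa [univ_inter] at h5

/-- blocks are nonempty -/
theorem NBP.up_nonempty (hL : Ar2 L) (hO : OSt r o S) (hge : ∀ y ∈ D, x ≤ y) (hx : x ∈ D)
    {A B : Set M} {la lam : Ordinal.{0}} (hA : NBP δ S D x A la) (h : NBP δ S D x B lam)
    (hl : la < lam) : ∃ e, e ∈ upA A D B := by
  obtain ⟨z, hz, hz'⟩ := h.unb _ hl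
  refine ⟨z, hz, fun a ha => ?_⟩
  by_contra hn
  have hza : z ≤ a := hO.not_lt.1 hn
  obtain ⟨ρ, hρ, hρ'⟩ := hA.rk x ⟨hA.mem, hx⟩ a ha
  apply hz'
  have h2 := hO.sl_icc hL hρ' (u := x) (v := z) ⟨le_refl x, hge a ha.2⟩ ⟨hge z hz.2, hza⟩
  have e1 : Icc x a ∩ Icc x z = Icc x z := by
    ext a
    constructor
    · exact fun h => h.2
    · exact fun h => ⟨⟨h.1, h.2.trans hza⟩, h⟩
  rw [e1] at h2
  exact h2.mono (hA.lt_omega hρ).le

end Pool.Agent.Helper97.LO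

end

/-! ### formerly `Pool.Agent.Helper5.VCM.NBDec` -/

section

/-!
# Nested intervals of unbounded ranks: coding and decoding
-/

set_option autoImplicit false
set_option linter.unusedSectionVars false
set_option linter.unusedVariables false

namespace Pool.Agent.Helper97.LO

open Set Pool.Agent.Helper5.DU Pool.Agent.Helper6.Str Pool.Agent.Helper79.VC
  Pool.Agent.Helper97.VC Pool.Agent.Helper97.MD

variable {L : FirstOrder.Language.{0, 0}} {M : Type} [∀ n, IsEmpty (L.Functions n)] [Preorder M]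

/-- data for the coding -/
structure NBD (L : FirstOrder.Language.{0, 0}) [∀ n, IsEmpty (L.Functions n)] (M : Type)
    [Preorder M] where
  S : L.Structure M
  r : L.Relations 2
  o : Bool
  hL : Ar2 L
  hO : OSt r o S
  δ : Ordinal.{0}
  D : Set M
  x : M
  hx : x ∈ D
  hge : ∀ y ∈ D, x ≤ y
  hini : ∀ y ∈ D, ∀ y', x ≤ y' → y' ≤ y → y' ∈ D
  hlast : ∀ y ∈ D, ∃ z ∈ D, y < z
  A : Set M
  la : Ordinal.{0}
  hA : NBP δ S D x A la
  kA : Ordinal.{0}
  hkA : kA < om1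
  slA : ∀ u ∈ A, ∀ v ∈ A, SL S (A ∩ Icc u v) kA
  BB : Option ℕ → Set M
  ll : Option ℕ → Ordinal.{0}
  hB : ∀ c, NBP δ S D x (BB c) (ll c)
  hAB : ∀ c, A ⊆ BB c
  hal : ∀ c, la < ll c
  hkl : ∀ c, kA < ll c
  hinj : ∀ m n, ll (some m) = ll (some n) → m = n
  hll : ∀ n, ll (some n) < ll none
  ty : ℚ → Option ℕ
  hty : ∀ a b : ℚ, a < b → ∀ c, ∃ q, a < q ∧ q < b ∧ ty q = c

namespace NBD

variable (d : NBD L M)

/-- the lexicographic structure -/
noncomputable abbrev T : L.Structure (LX ℚ M) := LexS d.S d.r d.o ℚ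

theorem hT : OSt d.r d.o d.T := OSt.lexS d.hL d.hO

/-- elements above `D` -/
def Hi : Set M := {a | ∀ e ∈ d.D, e < a}

/-- elements not above `D` -/
def Low : Set M := {a | ∃ e ∈ d.D, a ≤ e}

theorem hi_or_low (a : M) : a ∈ d.Low ∨ a ∈ d.Hi := by
  by_cases h : a ∈ d.Low
  · exact Or.inl h
  · refine Or.inr fun e he => d.hO.lt_of_not_le fun h' => h ⟨e, he, h'⟩

theorem low_not_hi {a : M} (h : a ∈ d.Low) (h' : a ∈ d.Hi) : False := by
  obtain ⟨e, he, hae⟩ := h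
  exact lt_irrefl _ ((h' e he).trans_le hae)

/-- the indices of the blocks -/
def J (f : ℕ → Bool) : Set ℚ := {q | 0 < q ∧ q < 1 ∧ ∀ n, d.ty q = some n → f n = true}

/-- the coding structure -/
def X (f : ℕ → Bool) : Set (LX ℚ M) :=
  (slc 0 (d.A ∩ d.Low) ∪ Blk d.A d.D (fun q => d.BB (d.ty q)) (d.J f)) ∪ slc 1 (d.A ∩ d.Hi)

/-- the sets containing the slices -/
noncomputable def Z (i : ℚ) : Set M := by
  classical
  exact if i = 0 ∨ i = 1 then d.A else d.BB (d.ty i)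

theorem Z_zero : d.Z 0 = d.A := by
  simp [Z]

theorem Z_one : d.Z 1 = d.A := by
  simp [Z]

theorem Z_J {f : ℕ → Bool} {i : ℚ} (h : i ∈ d.J f) : d.Z i = d.BB (d.ty i) := by
  simp [Z, h.1.ne', h.2.1.ne]

theorem mem_X_cases {f : ℕ → Bool} {w : LX ℚ M} (h : w ∈ d.X f) :
    (w.i = 0 ∧ w.a ∈ d.A ∧ w.a ∈ d.Low) ∨ (w.i ∈ d.J f ∧ w.a ∈ upA d.A d.D (d.BB (d.ty w.i))) ∨
      (w.i = 1 ∧ w.a ∈ d.A ∧ w.a ∈ d.Hi) := by
  rcases h with (⟨h1, h2, h3⟩ | ⟨h1, h2⟩) | ⟨h1, h2, h3⟩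
  · exact Or.inl ⟨h1, h2, h3⟩
  · exact Or.inr (Or.inl ⟨h1, h2⟩)
  · exact Or.inr (Or.inr ⟨h1, h2, h3⟩)

theorem X_countable (f : ℕ → Bool) : (d.X f).Countable := by
  have h1 : ∀ (i : ℚ) (Y : Set M), Y.Countable → (slc i Y).Countable := by
    intro i Y hY
    refine (hY.image fun a => (⟨i, a⟩ : LX ℚ M)).mono ?_
    rintro ⟨j, a⟩ ⟨h1, h2⟩
    exact ⟨a, h2, by rw [← (h1 : j = i)]⟩
  refine ((h1 0 _ (d.hA.cnt.mono inter_subset_left)).union ?_).union
    (h1 1 _ (d.hA.cnt.mono inter_subset_left))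
  have h2 : (⋃ q : ℚ, slc q (d.BB (d.ty q))).Countable :=
    countable_iUnion fun q => h1 q _ (d.hB _).cnt
  refine h2.mono ?_
  rintro w ⟨h3, h4⟩
  exact mem_iUnion.2 ⟨w.i, rfl, h4.1.1⟩

/-- intervals inside a slice -/
theorem icc_same {f : ℕ → Bool} {w w' : LX ℚ M} (hw : w ∈ d.X f) (hw' : w' ∈ d.X f)
    (h : w.i = w'.i) : d.X f ∩ Icc w w' = slc w.i (d.Z w.i ∩ Icc w.a w'.a) := by
  ext ⟨i, a⟩
  constructor
  · rintro ⟨h1, h2, h3⟩
    have hi1 : w.i ≤ i := by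
      rcases h2 with h2 | h2
      · exact h2.le
      · exact h2.1.le
    have hi2 : i ≤ w'.i := by
      rcases h3 with h3 | h3
      · exact h3.le
      · exact h3.1.le
    have hi : i = w.i := le_antisymm (hi2.trans h.ge) hi1
    subst hi
    have ha1 : w.a ≤ a := by
      rcases h2 with h2 | h2
      · exact absurd h2 (lt_irrefl _)
      · exact h2.2
    have ha2 : a ≤ w'.a := by
      rcases h3 with h3 | h3
      · exact absurd (h3 : w.i < w'.i) (by rw [h]; exact lt_irrefl _)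
      · exact h3.2
    refine ⟨rfl, ?_, ha1, ha2⟩
    rcases d.mem_X_cases h1 with ⟨h4, h5, h6⟩ | ⟨h4, h5⟩ | ⟨h4, h5, h6⟩
    · have h4' : w.i = 0 := h4
      change a ∈ d.Z w.i
      rw [h4', Z_zero]
      exact h5
    · change a ∈ d.Z w.i
      rw [d.Z_J h4]
      exact h5.1.1
    · have h4' : w.i = 1 := h4
      change a ∈ d.Z w.i
      rw [h4', Z_one]
      exact h5
  · rintro ⟨h1, h2, h3, h4⟩
    have h1' : i = w.i := h1
    subst h1'
    refine ⟨?_, Or.inr ⟨rfl, h3⟩, Or.inr ⟨h, h4⟩⟩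
    have h2' : a ∈ d.Z w.i := h2
    have h3' : w.a ≤ a := h3
    have h4' : a ≤ w'.a := h4
    rcases d.mem_X_cases hw with ⟨h5, h6, h7⟩ | ⟨h5, h6⟩ | ⟨h5, h6, h7⟩
    · rw [h5, Z_zero] at h2'
      refine Or.inl (Or.inl ⟨h5, h2', ?_⟩)
      rcases d.mem_X_cases hw' with ⟨h8, h9, h10⟩ | ⟨h8, h9⟩ | ⟨h8, h9, h10⟩
      · obtain ⟨e, he, hae⟩ := h10
        exact ⟨e, he, h4'.trans hae⟩
      · rw [← h, h5] at h8
        exact absurd h8.1 (lt_irrefl _)
      · rw [← h, h5] at h8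
        exact absurd h8 (by norm_num)
    · rw [d.Z_J h5] at h2'
      refine Or.inl (Or.inr ⟨h5, ⟨h2', ?_⟩, fun b hb => lt_of_lt_of_le (h6.2 b hb) h3'⟩)
      rcases d.mem_X_cases hw' with ⟨h8, h9, h10⟩ | ⟨h8, h9⟩ | ⟨h8, h9, h10⟩
      · rw [← h] at h8
        exact absurd h8 h5.1.ne'
      · exact d.hini _ h9.1.2 _ ((d.hge _ h6.1.2).trans h3') h4'
      · rw [← h] at h8
        exact absurd h8 h5.2.1.ne
    · rw [h5, Z_one] at h2'
      exact Or.inr ⟨h5, h2', fun e he => lt_of_lt_of_le (h7 e he) h3'⟩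

/-- Scott levels of slices -/
theorem sl_slc {i : ℚ} {Y : Set M} {ρ : Ordinal.{0}} (hρ : ρ < om1) :
    SL d.T (slc i Y) ρ ↔ SL d.S Y ρ := by
  have h1 : BFR d.S d.T Y (slc i Y) (ρ + Ordinal.omega0) ∅ :=
    bfr_slc d.hO i Y _ fun a ha => absurd ha (notMem_empty a)
  constructor
  · intro h
    exact h.congr hρ (h1.symm fun a ha => absurd ha (notMem_empty a))
  · intro h
    exact h.congr hρ h1

/-- blocks with index in `(0, 1)` contain intervals of large rank -/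
theorem block_unb {f : ℕ → Bool} {q : ℚ} (hq : q ∈ d.J f) {e : M}
    (he : e ∈ upA d.A d.D (d.BB (d.ty q))) {γ : Ordinal.{0}} (hγ : γ < d.ll (d.ty q)) :
    ∃ e', (⟨q, e'⟩ : LX ℚ M) ∈ d.X f ∧ (⟨q, e⟩ : LX ℚ M) ≤ ⟨q, e'⟩ ∧
      ¬ SL d.T (d.X f ∩ Icc ⟨q, e⟩ ⟨q, e'⟩) γ := by
  obtain ⟨e', he', h1, h2⟩ := (d.hB (d.ty q)).up d.hL d.hO d.hge d.hx (d.hAB _) he hγ
  have hm : (⟨q, e⟩ : LX ℚ M) ∈ d.X f := Or.inl (Or.inr ⟨hq, he⟩)
  have hm' : (⟨q, e'⟩ : LX ℚ M) ∈ d.X f := Or.inl (Or.inr ⟨hq, he'⟩)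
  refine ⟨e', hm', Or.inr ⟨rfl, h1⟩, ?_⟩
  rw [d.icc_same hm hm' rfl, d.sl_slc (hγ.trans (d.hB _).lt)]
  change ¬ SL d.S (d.Z q ∩ Icc e e') γ
  rw [d.Z_J hq]
  exact h2

theorem block_nonempty (c : Option ℕ) : ∃ e, e ∈ upA d.A d.D (d.BB c) :=
  NBP.up_nonempty d.hL d.hO d.hge d.hx d.hA (d.hB c) (d.hal c)

/-- intervals crossing the border of a slice have large rank -/
theorem icc_cross {f : ℕ → Bool} {w w' : LX ℚ M} (hw : w ∈ d.X f) (hw' : w' ∈ d.X f)
    (h : w.i < w'.i) : ¬ ∃ α < d.ll none, SL d.T (d.X f ∩ Icc w w') α := by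
  rintro ⟨α, hα, hsl⟩
  obtain ⟨q, hq1, hq2, hq3⟩ := d.hty _ _ h none
  have h0 : 0 ≤ w.i := by
    rcases d.mem_X_cases hw with ⟨h5, h6, h7⟩ | ⟨h5, h6⟩ | ⟨h5, h6, h7⟩
    · exact h5.ge
    · exact h5.1.le
    · rw [h5]
      exact zero_le_one
  have h1 : w'.i ≤ 1 := by
    rcases d.mem_X_cases hw' with ⟨h5, h6, h7⟩ | ⟨h5, h6⟩ | ⟨h5, h6, h7⟩
    · rw [h5]
      exact zero_le_one
    · exact h5.2.1.le
    · exact h5.le
  have hqJ : q ∈ d.J f := ⟨lt_of_le_of_lt h0 hq1, lt_of_lt_of_le hq2 h1, by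
    intro n hn
    rw [hq3] at hn
    exact absurd hn (by simp)⟩
  obtain ⟨e, he⟩ := d.block_nonempty (d.ty q)
  have hα' : α + Ordinal.omega0 < d.ll (d.ty q) := by
    rw [hq3]
    exact (d.hB none).lt_omega hα
  obtain ⟨e', h2, h3, h4⟩ := d.block_unb hqJ he hα'
  apply h4
  have hm : (⟨q, e⟩ : LX ℚ M) ∈ d.X f := Or.inl (Or.inr ⟨hqJ, he⟩)
  have h5 := d.hT.sl_icc d.hL hsl (u := ⟨q, e⟩) (v := ⟨q, e'⟩)
    ⟨hm, Or.inl hq1, Or.inl hq2⟩ ⟨h2, Or.inl hq1, Or.inl hq2⟩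
  have e1 : d.X f ∩ Icc w w' ∩ Icc ⟨q, e⟩ ⟨q, e'⟩ = d.X f ∩ Icc ⟨q, e⟩ ⟨q, e'⟩ := by
    ext a
    constructor
    · rintro ⟨⟨h6, _⟩, h7⟩
      exact ⟨h6, h7⟩
    · rintro ⟨h6, h7⟩
      have h8 : w < (⟨q, e⟩ : LX ℚ M) := Or.inl hq1
      have h9 : (⟨q, e'⟩ : LX ℚ M) < w' := Or.inl hq2
      exact ⟨⟨h6, (le_of_lt h8).trans h7.1, h7.2.trans (le_of_lt h9)⟩, h7⟩
  rwa [e1] at h5

/-- ranks inside a slice -/
theorem icc_rank {f : ℕ → Bool} {w w' : LX ℚ M} (hw : w ∈ d.X f) (hw' : w' ∈ d.X f)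
    (h : w.i = w'.i) :
    ((w.i = 0 ∨ w.i = 1) ∧ SL d.T (d.X f ∩ Icc w w') d.kA) ∨
      (w.i ∈ d.J f ∧ ∃ α < d.ll (d.ty w.i), SL d.T (d.X f ∩ Icc w w') α) := by
  rw [d.icc_same hw hw' h]
  rcases d.mem_X_cases hw with ⟨h5, h6, h7⟩ | ⟨h5, h6⟩ | ⟨h5, h6, h7⟩
  · refine Or.inl ⟨Or.inl h5, ?_⟩
    rw [d.sl_slc d.hkA, h5, Z_zero]
    refine d.slA _ h6 _ ?_
    rcases d.mem_X_cases hw' with ⟨h8, h9, h10⟩ | ⟨h8, h9⟩ | ⟨h8, h9, h10⟩
    · exact h9
    · rw [← h, h5] at h8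
      exact absurd h8.1 (lt_irrefl _)
    · exact h9
  · refine Or.inr ⟨h5, ?_⟩
    rcases d.mem_X_cases hw' with ⟨h8, h9, h10⟩ | ⟨h8, h9⟩ | ⟨h8, h9, h10⟩
    · rw [← h] at h8
      exact absurd h8 h5.1.ne'
    · rw [← h] at h9
      obtain ⟨ρ, hρ, hρ'⟩ := (d.hB (d.ty w.i)).rk _ h6.1 _ h9.1
      refine ⟨ρ, hρ, ?_⟩
      rw [d.sl_slc (hρ.trans (d.hB _).lt), d.Z_J h5]
      exact ((d.hB (d.ty w.i)).sl_iff d.hO hρ h6.1.1 h9.1.1).1 hρ'
    · rw [← h] at h8
      exact absurd h8 h5.2.1.ne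
  · refine Or.inl ⟨Or.inr h5, ?_⟩
    rw [d.sl_slc d.hkA, h5, Z_one]
    refine d.slA _ h6 _ ?_
    rcases d.mem_X_cases hw' with ⟨h8, h9, h10⟩ | ⟨h8, h9⟩ | ⟨h8, h9, h10⟩
    · exact h9
    · rw [← h, h5] at h8
      exact absurd h8.2.1 (lt_irrefl _)
    · exact h9

/-- the decoding property of an element -/
def Q (n : ℕ) (Y : Set (LX ℚ M)) (u : LX ℚ M) : Prop :=
  (∀ v ∈ Y, u ≤ v → (∃ α < d.ll none, SL d.T (Y ∩ Icc u v) α) →
    ∃ α < d.ll (some n), SL d.T (Y ∩ Icc u v) α) ∧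
  ∀ γ < d.ll (some n), ∃ v ∈ Y, u ≤ v ∧ (∃ α < d.ll none, SL d.T (Y ∩ Icc u v) α) ∧
    ¬ SL d.T (Y ∩ Icc u v) γ

theorem index_eq {f : ℕ → Bool} {w w' : LX ℚ M} (hw : w ∈ d.X f) (hw' : w' ∈ d.X f)
    (h : w ≤ w') (hsl : ∃ α < d.ll none, SL d.T (d.X f ∩ Icc w w') α) : w.i = w'.i := by
  rcases h with h | h
  · exact absurd hsl (d.icc_cross hw hw' h)
  · exact h.1

/-- **Decoding.** -/
theorem decode (f : ℕ → Bool) (n : ℕ) : (∃ u ∈ d.X f, d.Q n (d.X f) u) ↔ f n = true := by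
  constructor
  · rintro ⟨u, hu, h1, h2⟩
    have hkey : u.i ∈ d.J f := by
      obtain ⟨v, hv, huv, h3, h4⟩ := h2 _ (d.hkl (some n))
      rcases d.icc_rank hu hv (d.index_eq hu hv huv h3) with ⟨_, h5⟩ | ⟨h5, _⟩
      · exact absurd h5 h4
      · exact h5
    have hua : u.a ∈ upA d.A d.D (d.BB (d.ty u.i)) := by
      rcases d.mem_X_cases hu with ⟨h5, h6, h7⟩ | ⟨h5, h6⟩ | ⟨h5, h6, h7⟩
      · exact absurd h5 hkey.1.ne'
      · exact h6
      · exact absurd h5 hkey.2.1.ne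
    -- the level of the block is at most `ll (some n)`
    have hle : d.ll (d.ty u.i) ≤ d.ll (some n) := by
      by_contra hlt
      rw [not_le] at hlt
      obtain ⟨e', h3, h4, h5⟩ := d.block_unb hkey hua hlt
      have hsl : ∃ α < d.ll none, SL d.T (d.X f ∩ Icc u ⟨u.i, e'⟩) α := by
        rcases d.icc_rank hu h3 rfl with ⟨h6, _⟩ | ⟨_, α, hα, h6⟩
        · rcases h6 with h6 | h6
          · exact absurd h6 hkey.1.ne'
          · exact absurd h6 hkey.2.1.ne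
        · refine ⟨α, lt_of_lt_of_le hα ?_, h6⟩
          cases hc : d.ty u.i with
          | none => exact le_refl _
          | some m => exact (d.hll m).le
      obtain ⟨α, hα, h6⟩ := h1 _ h3 h4 hsl
      exact h5 (h6.mono hα.le)
    have hge : d.ll (some n) ≤ d.ll (d.ty u.i) := by
      by_contra hlt
      rw [not_le] at hlt
      obtain ⟨v, hv, huv, h3, h4⟩ := h2 _ hlt
      rcases d.icc_rank hu hv (d.index_eq hu hv huv h3) with ⟨h6, _⟩ | ⟨_, α, hα, h6⟩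
      · rcases h6 with h6 | h6
        · exact hkey.1.ne' h6
        · exact hkey.2.1.ne h6
      · exact h4 (h6.mono hα.le)
    cases hc : d.ty u.i with
    | none =>
      rw [hc] at hle
      exact absurd (d.hll n) (not_lt.2 hle)
    | some m =>
      rw [hc] at hle hge
      have hmn := d.hinj m n (le_antisymm hle hge)
      rw [← hmn]
      exact hkey.2.2 m hc
  · intro hfn
    obtain ⟨q, hq1, hq2, hq3⟩ := d.hty 0 1 zero_lt_one (some n)
    have hqJ : q ∈ d.J f := ⟨hq1, hq2, by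
      intro m hm
      rw [hq3] at hm
      rw [← Option.some_injective _ hm]
      exact hfn⟩
    obtain ⟨e, he⟩ := d.block_nonempty (d.ty q)
    have hm : (⟨q, e⟩ : LX ℚ M) ∈ d.X f := Or.inl (Or.inr ⟨hqJ, he⟩)
    refine ⟨⟨q, e⟩, hm, ?_, ?_⟩
    · intro v hv huv hsl
      rcases d.icc_rank hm hv (d.index_eq hm hv huv hsl) with ⟨h6, _⟩ | ⟨_, α, hα, h6⟩
      · rcases h6 with h6 | h6
        · exact absurd h6 hqJ.1.ne'
        · exact absurd h6 hqJ.2.1.ne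
      · refine ⟨α, ?_, h6⟩
        have hα' : α < d.ll (d.ty q) := hα
        rwa [hq3] at hα'
    · intro γ hγ
      have hγ' : γ < d.ll (d.ty q) := by rwa [hq3]
      obtain ⟨e', h3, h4, h5⟩ := d.block_unb hqJ he hγ'
      refine ⟨_, h3, h4, ?_, h5⟩
      rcases d.icc_rank hm h3 rfl with ⟨h6, _⟩ | ⟨_, α, hα, h6⟩
      · rcases h6 with h6 | h6
        · exact absurd h6 hqJ.1.ne'
        · exact absurd h6 hqJ.2.1.ne
      · refine ⟨α, ?_, h6⟩
        have hα' : α < d.ll (d.ty q) := hα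
        rw [hq3] at hα'
        exact hα'.trans (d.hll n)

/-- the decoding property is invariant -/
theorem Q_congr {n : ℕ} {Y Y' : Set (LX ℚ M)} {u u' : LX ℚ M}
    (h : BFR d.T d.T Y Y' (d.ll none + 1) {(u, u')}) (hQ : d.Q n Y u) : d.Q n Y' u' := by
  have hlt := lt_add_one_self (d.ll none)
  have hle : d.ll none ≤ om1 := (d.hB none).lt.le
  have hcl : ∀ v v', BFR d.T d.T Y Y' (d.ll none) (insert (v, v') {(u, u')}) →
      BFR d.T d.T (Y ∩ Icc u v) (Y' ∩ Icc u' v') (d.ll none) ∅ := fun v v' h1 =>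
    BFR.anti (empty_subset _) (d.hT.icc d.hT (mem_insert_of_mem _ (mem_singleton _)) (mem_insert _ _) h1)
  constructor
  · intro v' hv' huv' hsl
    obtain ⟨v, hv, h1⟩ := h.back hlt hv'
    have h2 := hcl v v' h1
    have huv : u ≤ v := (d.hT.le_congr d.hT h1.atEq (a := (u, u')) (b := (v, v'))
      (mem_insert_of_mem _ (mem_singleton _)) (mem_insert _ _)).2 huv'
    have h3 := (SL.lt_congr hle (fun α hα => (d.hB none).lt_omega hα) h2).2 hsl
    have h4 := hQ.1 v hv huv h3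
    exact (SL.lt_congr ((d.hB (some n)).lt.le) (fun α hα => (d.hB (some n)).lt_omega hα)
      (h2.mono (d.hll n).le)).1 h4
  · intro γ hγ
    obtain ⟨v, hv, huv, hsl, hnsl⟩ := hQ.2 γ hγ
    obtain ⟨v', hv', h1⟩ := h.forth hlt hv
    have h2 := hcl v v' h1
    have huv' : u' ≤ v' := (d.hT.le_congr d.hT h1.atEq (a := (u, u')) (b := (v, v'))
      (mem_insert_of_mem _ (mem_singleton _)) (mem_insert _ _)).1 huv
    refine ⟨v', hv', huv', (SL.lt_congr hle (fun α hα => (d.hB none).lt_omega hα) h2).1 hsl,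
      fun h3 => hnsl ?_⟩
    refine h3.congr (hγ.trans (d.hB (some n)).lt) ?_
    refine (h2.symm (q := ∅) fun a ha => absurd ha (notMem_empty a)).mono ?_
    exact (((d.hB (some n)).lt_omega hγ).trans (d.hll n)).le

theorem decode_congr {f g : ℕ → Bool}
    (h : BFR d.T d.T (d.X f) (d.X g) (d.ll none + 1 + 1) ∅) : f = g := by
  have key : ∀ f g : ℕ → Bool, BFR d.T d.T (d.X f) (d.X g) (d.ll none + 1 + 1) ∅ →
      ∀ n, f n = true → g n = true := by
    intro f g h n hn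
    obtain ⟨u, hu, hQ⟩ := (d.decode f n).2 hn
    obtain ⟨u', hu', h1⟩ := h.forth (lt_add_one_self _) hu
    rw [insert_empty_eq] at h1
    exact (d.decode g n).1 ⟨u', hu', d.Q_congr h1 hQ⟩
  funext n
  have h1 := key f g h n
  have h2 := key g f (h.symm fun a ha => absurd ha (notMem_empty a)) n
  cases hf : f n
  · cases hg : g n
    · rfl
    · exact absurd (h2 hg) (by rw [hf]; simp)
  · exact (h1 hf).symm

/-- **The coding structures are equivalent to `S`.** -/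
theorem X_equiv (f : ℕ → Bool) : BFR d.T d.S (d.X f) univ d.δ ∅ := by
  have hT := d.hT
  have hem : ∀ {N₁ N₂ : Type} (a : N₁ × N₂), a ∈ (∅ : Set (N₁ × N₂)) → False :=
    fun a ha => notMem_empty a ha
  have hδ : d.δ < d.la := d.hA.dlt
  -- absorption
  have h1 : BFR d.T d.T (slc 0 (d.D ∩ Ioi d.x) ∪ Blk d.A d.D (fun q => d.BB (d.ty q)) (d.J f))
      (slc 0 (d.D ∩ Ioi d.x)) d.δ ∅ :=
    absorb d.hL d.hO d.hlast d.hA.cnt (d.hA.cloD _ hδ)
      (fun i => (d.hB (d.ty i)).cloD _ (d.hB _).dlt) (fun i => d.hAB _) d.δ le_rfl (d.J f) 0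
      (fun j hj => hj.1) d.x d.hx
  have hAx : BFR d.S d.S (d.D ∩ Ioi d.x) (d.A ∩ d.D ∩ Ioi d.x) d.δ ∅ :=
    BFR.anti (empty_subset _) ((d.hA.cloD _ hδ).bfr_ioi d.hO ⟨d.hA.mem, d.hx⟩)
  have h2 : BFR d.T d.T (slc 0 (d.A ∩ d.D ∩ Ioi d.x)) (slc 0 (d.D ∩ Ioi d.x)) d.δ ∅ :=
    slc_congr d.hO 0 0 (hAx.symm (q := ∅) fun a ha => (hem a ha).elim)
      fun a ha => (hem a ha).elim
  have h2' : BFR d.T d.T (slc 0 (d.D ∩ Ioi d.x)) (slc 0 (d.A ∩ d.D ∩ Ioi d.x)) d.δ ∅ :=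
    slc_congr d.hO 0 0 hAx fun a ha => (hem a ha).elim
  have h3 : BFR d.T d.T
      (slc 0 (d.A ∩ d.D ∩ Ioi d.x) ∪ Blk d.A d.D (fun q => d.BB (d.ty q)) (d.J f))
      (slc 0 (d.A ∩ d.D ∩ Ioi d.x)) d.δ ∅ := by
    have h4 := hT.comp2_empty d.hL (U₁ := slc 0 (d.A ∩ d.D ∩ Ioi d.x))
      (V₁ := slc 0 (d.D ∩ Ioi d.x)) (U₂ := Blk d.A d.D (fun q => d.BB (d.ty q)) (d.J f))
      (V₂ := Blk d.A d.D (fun q => d.BB (d.ty q)) (d.J f)) ?_ ?_ h2
      (BFR.refl _ _ d.δ fun a ha => (hem a ha).elim)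
    · exact (h4.trans h1 fun a ha => (hem a ha).elim).trans h2' fun a ha => (hem a ha).elim
    · rintro a ⟨ha1, ha2⟩ b ⟨hb1, hb2⟩
      exact Or.inl (by rw [ha1]; exact hb1.1)
    · rintro a ⟨ha1, ha2⟩ b ⟨hb1, hb2⟩
      exact Or.inl (by rw [ha1]; exact hb1.1)
  -- the bottom part
  have h5 : BFR d.T d.T
      (slc 0 (d.A ∩ Iic d.x) ∪ (slc 0 (d.A ∩ d.D ∩ Ioi d.x) ∪
        Blk d.A d.D (fun q => d.BB (d.ty q)) (d.J f)))
      (slc 0 (d.A ∩ Iic d.x) ∪ slc 0 (d.A ∩ d.D ∩ Ioi d.x)) d.δ ∅ := by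
    refine hT.comp2_empty d.hL ?_ ?_ (BFR.refl _ _ d.δ fun a ha => (hem a ha).elim) h3
    · rintro a ⟨ha1, ha2, ha3⟩ b (⟨hb1, hb2, hb3⟩ | ⟨hb1, hb2⟩)
      · exact Or.inr ⟨ha1.trans hb1.symm, lt_of_le_of_lt ha3 hb3⟩
      · exact Or.inl (by rw [ha1]; exact hb1.1)
    · rintro a ⟨ha1, ha2, ha3⟩ b ⟨hb1, hb2, hb3⟩
      exact Or.inr ⟨ha1.trans hb1.symm, lt_of_le_of_lt ha3 hb3⟩
  have e1 : d.A ∩ Iic d.x ∪ d.A ∩ d.D ∩ Ioi d.x = d.A ∩ d.Low := by
    ext a
    constructor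
    · rintro (⟨h6, h7⟩ | ⟨⟨h6, h7⟩, h8⟩)
      · exact ⟨h6, d.x, d.hx, h7⟩
      · exact ⟨h6, a, h7, le_refl a⟩
    · rintro ⟨h6, e, he, hae⟩
      by_cases h7 : a ≤ d.x
      · exact Or.inl ⟨h6, h7⟩
      · have h8 := d.hO.lt_of_not_le h7
        exact Or.inr ⟨⟨h6, d.hini e he a (le_of_lt h8) hae⟩, h8⟩
  rw [← union_assoc, ← slc_union, e1] at h5
  -- the top part
  have h6 : BFR d.T d.T (slc 1 (d.A ∩ d.Hi)) (slc 0 (d.A ∩ d.Hi)) d.δ ∅ :=
    slc_congr d.hO 1 0 (BFR.refl d.S _ d.δ (p := ∅) fun a ha => (hem a ha).elim)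
      fun a ha => (hem a ha).elim
  have h7 : BFR d.T d.T (d.X f) (slc 0 (d.A ∩ d.Low) ∪ slc 0 (d.A ∩ d.Hi)) d.δ ∅ := by
    refine hT.comp2_empty d.hL ?_ ?_ h5 h6
    · rintro a (⟨ha1, ha2⟩ | ⟨ha1, ha2⟩) b ⟨hb1, hb2⟩
      · exact Or.inl (by rw [ha1, hb1]; exact zero_lt_one)
      · exact Or.inl (by rw [hb1]; exact ha1.2.1)
    · rintro a ⟨ha1, ha2, e, he, hae⟩ b ⟨hb1, hb2, hb3⟩
      exact Or.inr ⟨ha1.trans hb1.symm, lt_of_le_of_lt hae (hb3 e he)⟩
  have e2 : d.A ∩ d.Low ∪ d.A ∩ d.Hi = d.A := by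
    ext a
    constructor
    · rintro (⟨h8, _⟩ | ⟨h8, _⟩)
      · exact h8
      · exact h8
    · intro h8
      rcases d.hi_or_low a with h9 | h9
      · exact Or.inl ⟨h8, h9⟩
      · exact Or.inr ⟨h8, h9⟩
  rw [← slc_union, e2] at h7
  have h8 : BFR d.T d.S (slc 0 d.A) d.A d.δ ∅ :=
    (bfr_slc d.hO 0 d.A d.δ (p := ∅) fun a ha => (hem a ha).elim).symm
      fun a ha => (hem a ha).elim
  have h9 : BFR d.S d.S univ (d.A ∩ univ) d.δ ∅ :=
    BFR.anti (empty_subset _) ((d.hA.clo _ hδ).bfr finite_empty (empty_subset _))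
  rw [inter_univ] at h9
  exact (h7.trans h8 (r := ∅) fun a ha => (hem a ha).elim).trans
    (h9.symm (q := ∅) fun a ha => (hem a ha).elim) fun a ha => (hem a ha).elim

/-- **The contradiction.** -/
theorem false [∀ n, Countable (L.Relations n)] {K : Set (L.Structure ℕ)}
    (hS : VSt K d.δ d.S) : False := by
  have hem : ∀ {N₁ N₂ : Type} (a : N₁ × N₂), a ∈ (∅ : Set (N₁ × N₂)) → False :=
    fun a ha => notMem_empty a ha
  have hpl : ∀ (f : ℕ → Bool) (γ : Ordinal.{0}),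
      BFR (pl d.T (Subtype.val : d.X f → LX ℚ M)) d.T univ (d.X f) γ ∅ := by
    intro f γ
    have h1 := BFR_pl (S := d.T) (f := (Subtype.val : d.X f → LX ℚ M)) Subtype.val_injective γ
      (p := ∅) fun a ha => (hem a ha).elim
    rwa [Subtype.range_val] at h1
  refine hS.false_of_code (fun f => d.X f) (fun f => pl d.T (Subtype.val : d.X f → LX ℚ M))
    (fun f => (d.X_countable f).to_subtype) (fun f => ?_)
    (γ := d.ll none + 1 + 1) (add_one_lt_om1 (add_one_lt_om1 (d.hB none).lt))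
    (fun f g hfg => d.decode_congr ?_)
  · exact (hpl f d.δ).trans (d.X_equiv f) fun a ha => (hem a ha).elim
  · exact (((hpl f _).symm (q := ∅) fun a ha => (hem a ha).elim).trans hfg (r := ∅)
      fun a ha => (hem a ha).elim).trans (hpl g _) fun a ha => (hem a ha).elim

end NBD

/-- **Nested tame intervals of unbounded ranks are impossible.** -/
theorem nb_unbounded [∀ n, Countable (L.Relations n)] {K : Set (L.Structure ℕ)}
    {δ : Ordinal.{0}} {S : L.Structure M} {r : L.Relations 2} {o : Bool} (hL : Ar2 L)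
    (hS : VSt K δ S) (hO : OSt r o S) {x : M} {D : Set M} (hx : x ∈ D) (hge : ∀ y ∈ D, x ≤ y)
    (hini : ∀ y ∈ D, ∀ y', x ≤ y' → y' ≤ y → y' ∈ D) (hlast : ∀ y ∈ D, ∃ z ∈ D, y < z)
    (htame : ∀ u ∈ D, ∀ v ∈ D, TameX S (Icc u v)) (hsmall : Small S D)
    (hunb : ∀ γ < om1, ∃ z ∈ D, ¬ SL S (Icc x z) γ) : False := by
  classical
  obtain ⟨A, la, -, -, hA⟩ := exists_nbp (x := x) hS.lt hS.small hsmall htame hunb
    (B₀ := ∅) countable_empty (Ordinal.omega_pos 1)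
  -- ranks of the intervals of `A`
  have hk : ∃ kA < om1, ∀ u ∈ A, ∀ v ∈ A, SL S (A ∩ Icc u v) kA := by
    have h1 : ∀ p : A × A, ∃ ρ < om1, SL S (A ∩ Icc p.1.1 p.2.1) ρ := fun p =>
      exists_SL_of_countable (hA.cnt.mono inter_subset_left)
    choose ρ hρ1 hρ2 using h1
    have := hA.cnt.to_subtype
    obtain ⟨k, hk1, hk2⟩ := exists_bound hρ1
    exact ⟨k, hk1, fun u hu v hv => (hρ2 (⟨u, hu⟩, ⟨v, hv⟩)).mono (hk2 _)⟩
  obtain ⟨kA, hkA, slA⟩ := hk
  -- the sequence of pairs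
  let W := {w : Set M × Ordinal.{0} // NBP δ S D x w.1 w.2 ∧ A ⊆ w.1 ∧ la < w.2 ∧ kA < w.2}
  have hstep : ∀ μ < om1, ∃ w : W, μ < w.1.2 := by
    intro μ hμ
    obtain ⟨B, lam, hB1, hB2, hB3⟩ := exists_nbp (x := x) hS.lt hS.small hsmall htame hunb
      (B₀ := A) hA.cnt (max_lt (max_lt hμ hA.lt) hkA)
    refine ⟨⟨(B, lam), hB3, hB1, ?_, ?_⟩, ?_⟩
    · exact lt_of_le_of_lt ((le_max_right _ _).trans (le_max_left _ _)) hB2
    · exact lt_of_le_of_lt (le_max_right _ _) hB2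
    · exact lt_of_le_of_lt ((le_max_left _ _).trans (le_max_left _ _)) hB2
  have hnext : ∀ w : W, ∃ w' : W, w.1.2 < w'.1.2 := fun w => hstep w.1.2 w.2.1.lt
  choose nx hnx using hnext
  obtain ⟨w0, _⟩ := hstep 0 (Ordinal.omega_pos 1)
  let s : ℕ → W := fun n => n.rec w0 fun _ w => nx w
  have hs : ∀ n, (s n).1.2 < (s (n + 1)).1.2 := fun n => hnx (s n)
  have hsm : StrictMono fun n => (s n).1.2 := strictMono_nat_of_lt_succ hs
  obtain ⟨μ, hμ, hμ'⟩ := exists_bound (fun n => (s n).2.1.lt)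
  obtain ⟨wt, hwt⟩ := hstep μ hμ
  let P : Option ℕ → W := fun c => match c with
    | none => wt
    | some n => s n
  obtain ⟨ty, hty⟩ := exists_dense_colouring
  let d : NBD L M :=
    { S := S, r := r, o := o, hL := hL, hO := hO, δ := δ, D := D, x := x, hx := hx, hge := hge,
      hini := hini, hlast := hlast, A := A, la := la, hA := hA, kA := kA, hkA := hkA, slA := slA,
      BB := fun c => (P c).1.1, ll := fun c => (P c).1.2, hB := fun c => (P c).2.1,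
      hAB := fun c => (P c).2.2.1, hal := fun c => (P c).2.2.2.1, hkl := fun c => (P c).2.2.2.2,
      hinj := fun m n h => hsm.injective h, hll := fun n => lt_of_le_of_lt (hμ' n) hwt,
      ty := ty, hty := hty }
  exact d.false hS

end Pool.Agent.Helper97.LO

end
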