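import Pool.Agent.VB.B
import Pool.Agent.Helper97.LO.MDDefs

/-!
# Tools for Vaught's conjecture, part 3: links, closure, reflection, large structures

Merged file (to shorten the import chain): contents, unchanged, of
`Pool.Agent.Helper97.VC.Link`, `Pool.Agent.Helper97.VC.Close`, `Pool.Agent.Helper97.VC.Reflect`, `Pool.Agent.Helper97.LO.Core`, `Pool.Agent.Helper97.LO.Defs`.
-/

/-! ### formerly `Pool.Agent.Helper97.VC.Link` -/

section

/-!
# Linked vertices give a subdivision of the infinite complete graph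
-/

set_option autoImplicit false
set_option linter.unusedSectionVars false
set_option linter.unusedVariables false

namespace Pool.Agent.Helper97.VC

open Set Pool.Agent.Helper79.VC

variable {V : Type} {G : SimpleGraph V}

/-! ### basic facts on `Conn` and `cpt` -/

theorem conn_mono {Z Z' : Set V} (h : Z ⊆ Z') {x y : V} (hc : Conn G Z' x y) : Conn G Z x y := by
  induction hc with
  | refl => exact Relation.ReflTransGen.refl
  | tail _ hab ih => exact ih.tail ⟨hab.1, fun h' => hab.2.1 (h h'), fun h' => hab.2.2 (h h')⟩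

theorem conn_symm {Z : Set V} {x y : V} (hc : Conn G Z x y) : Conn G Z y x := by
  induction hc with
  | refl => exact Relation.ReflTransGen.refl
  | tail _ hab ih => exact Relation.ReflTransGen.head ⟨hab.1.symm, hab.2.2, hab.2.1⟩ ih

theorem conn_trans {Z : Set V} {x y z : V} (h : Conn G Z x y) (h' : Conn G Z y z) :
    Conn G Z x z := Relation.ReflTransGen.trans h h'

theorem conn_notMem {Z : Set V} {x y : V} (hx : x ∉ Z) (hc : Conn G Z x y) : y ∉ Z := by
  induction hc with
  | refl => exact hx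
  | tail _ hab _ => exact hab.2.2

theorem mem_cpt_self (Z : Set V) (x : V) : x ∈ cpt G Z x := Relation.ReflTransGen.refl

theorem cpt_eq {Z : Set V} {x y : V} (h : y ∈ cpt G Z x) : cpt G Z y = cpt G Z x := by
  ext z
  exact ⟨fun h' => conn_trans h h', fun h' => conn_trans (conn_symm h) h'⟩

theorem isCpt_eq_cpt {Z C : Set V} (h : IsCpt G Z C) {x : V} (hx : x ∈ C) : C = cpt G Z x := by
  obtain ⟨y, _, rfl⟩ := h
  exact (cpt_eq hx).symm

theorem isCpt_notMem {Z C : Set V} (h : IsCpt G Z C) {x : V} (hx : x ∈ C) : x ∉ Z := by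
  obtain ⟨y, hy, rfl⟩ := h
  exact conn_notMem hy hx

theorem isCpt_nonempty {Z C : Set V} (h : IsCpt G Z C) : C.Nonempty := by
  obtain ⟨y, hy, rfl⟩ := h
  exact ⟨y, mem_cpt_self Z y⟩

theorem isCpt_eq_of_mem {Z C D : Set V} (h : IsCpt G Z C) (h' : IsCpt G Z D) {x : V}
    (hx : x ∈ C) (hx' : x ∈ D) : C = D :=
  (isCpt_eq_cpt h hx).trans (isCpt_eq_cpt h' hx').symm

/-- `f` and `g` are joined by a path all of whose inner vertices lie outside `Z`, with at least
one inner vertex. -/
def Lnk (G : SimpleGraph V) (Z : Set V) (f g : V) : Prop :=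
  ∃ x y, G.Adj f x ∧ G.Adj y g ∧ x ∉ Z ∧ y ∉ Z ∧ Conn G Z x y

theorem lnk_mono {Z Z' : Set V} (h : Z ⊆ Z') {f g : V} (hl : Lnk G Z' f g) : Lnk G Z f g := by
  obtain ⟨x, y, h1, h2, h3, h4, h5⟩ := hl
  exact ⟨x, y, h1, h2, fun h' => h3 (h h'), fun h' => h4 (h h'), conn_mono h h5⟩

/-- a connection gives a path -/
theorem exists_path_of_conn {Z : Set V} {x y : V} (hx : x ∉ Z) (hc : Conn G Z x y) :
    ∃ P : List V, P.Nodup ∧ List.IsChain G.Adj P ∧ (∀ v ∈ P, v ∉ Z) ∧
      P.head? = some x ∧ P.getLast? = some y := by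
  classical
  -- a walk
  obtain ⟨w, hw⟩ : ∃ w : G.Walk x y, ∀ v ∈ w.support, v ∉ Z := by
    induction hc with
    | refl => exact ⟨SimpleGraph.Walk.nil, by simpa using hx⟩
    | tail _ hab ih =>
      obtain ⟨w, hw⟩ := ih
      refine ⟨w.concat hab.1, fun v hv => ?_⟩
      rw [SimpleGraph.Walk.support_concat] at hv
      simp only [List.mem_append, List.mem_singleton] at hv
      rcases hv with hv | rfl
      · exact hw v hv
      · exact hab.2.2
  refine ⟨w.bypass.support, w.bypass_isPath.support_nodup, ?_, ?_, ?_, ?_⟩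
  · exact SimpleGraph.Walk.isChain_adj_support _
  · intro v hv
    exact hw v (w.support_bypass_subset_support hv)
  · rw [← SimpleGraph.Walk.cons_tail_support]
    rfl
  · rw [List.getLast?_eq_some_getLast (by simp), SimpleGraph.Walk.getLast_support]

/-- a link gives a list of inner vertices -/
theorem exists_inner_of_lnk {Z : Set V} {f g : V} (hfg : f ≠ g) (hf : f ∈ Z) (hg : g ∈ Z)
    (hl : Lnk G Z f g) :
    ∃ P : List V, (f :: (P ++ [g])).Nodup ∧ List.IsChain G.Adj (f :: (P ++ [g])) ∧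
      ∀ v ∈ P, v ∉ Z := by
  obtain ⟨x, y, h1, h2, h3, h4, h5⟩ := hl
  obtain ⟨P, hP1, hP2, hP3, hP4, hP5⟩ := exists_path_of_conn h3 h5
  refine ⟨P, ?_, ?_, hP3⟩
  · rw [List.nodup_cons]
    refine ⟨?_, ?_⟩
    · simp only [List.mem_append, List.mem_singleton, not_or]
      exact ⟨fun h => hP3 f h hf, hfg⟩
    · rw [List.nodup_append]
      refine ⟨hP1, by simp, ?_⟩
      intro a ha b hb
      simp only [List.mem_singleton] at hb
      subst hb
      rintro rfl
      exact hP3 _ ha hg
  · rw [List.isChain_cons]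
    refine ⟨?_, ?_⟩
    · intro z hz
      have : (P ++ [g]).head? = some x := by
        cases P with
        | nil => simp at hP4
        | cons a l => simpa using hP4
      rw [this] at hz
      simp only [Option.mem_def, Option.some.injEq] at hz
      subst hz
      exact h1
    · rw [List.isChain_append]
      refine ⟨hP2, by simp, ?_⟩
      intro a ha b hb
      rw [hP5] at ha
      simp only [Option.mem_def, Option.some.injEq, List.head?_cons] at ha hb
      subst ha
      subst hb
      exact h2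

/-- **Greedy construction.** -/
theorem hasTK_of_linked (G : SimpleGraph V) (b : ℕ → V) (hb : Function.Injective b)
    (h : ∀ i j, i < j → ∀ Z : Set V, Z.Countable → Lnk G Z (b i) (b j)) : HasTK G := by
  classical
  -- for every finite list of used vertices and every pair, a path
  have hstep : ∀ (U : Set V) (i j : ℕ), U.Countable → i < j → ∃ P : List V,
      (b i :: (P ++ [b j])).Nodup ∧ List.IsChain G.Adj (b i :: (P ++ [b j])) ∧
      ∀ v ∈ P, v ∉ U ∪ range b := by
    intro U i j hU hij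
    exact exists_inner_of_lnk (fun h' => hij.ne (hb h')) (Or.inr (mem_range_self _))
      (Or.inr (mem_range_self _)) (h i j hij (U ∪ range b) (hU.union (countable_range b)))
  choose! f hf using hstep
  -- enumerate all pairs
  let e : ℕ → ℕ × ℕ := fun n => Nat.unpair n
  -- the recursion: the set used before step n
  let used : ℕ → Set V := fun n => Nat.rec ∅ (fun n U => U ∪ {v | v ∈ f U (e n).1 (e n).2}) n
  have hused0 : used 0 = ∅ := rfl
  have husedS : ∀ n, used (n + 1) = used n ∪ {v | v ∈ f (used n) (e n).1 (e n).2} := fun n => rfl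
  have hcount : ∀ n, (used n).Countable := by
    intro n
    induction n with
    | zero => rw [hused0]; exact countable_empty
    | succ n ih =>
      rw [husedS]
      exact ih.union (List.finite_toSet _).countable
  have hmono : ∀ m n, m ≤ n → used m ⊆ used n := by
    intro m n hmn
    induction n, hmn using Nat.le_induction with
    | base => exact Subset.rfl
    | succ n _ ih => exact ih.trans (by rw [husedS]; exact subset_union_left)
  let P : ℕ → ℕ → List V := fun i j => f (used (Nat.pair i j)) i j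
  have hP : ∀ i j, P i j = f (used (Nat.pair i j)) (e (Nat.pair i j)).1 (e (Nat.pair i j)).2 := by
    intro i j
    simp [P, e]
  have hsub : ∀ i j, {v | v ∈ P i j} ⊆ used (Nat.pair i j + 1) := by
    intro i j
    rw [husedS, ← hP]
    exact subset_union_right
  refine ⟨b, P, hb, fun i j hij => ⟨?_, ?_⟩, fun i j k hij hk => ?_, ?_⟩
  · exact (hf _ i j (hcount _) hij).1
  · exact (hf _ i j (hcount _) hij).2.1
  · exact (hf _ i j (hcount _) hij).2.2 _ hk (Or.inr (mem_range_self _))
  · have key : ∀ i j i' j', i < j → i' < j' → Nat.pair i j < Nat.pair i' j' →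
        List.Disjoint (P i j) (P i' j') := by
      intro i j i' j' hij hij' hlt v hv hv'
      exact (hf _ i' j' (hcount _) hij').2.2 v hv'
        (Or.inl (hmono _ _ (Nat.succ_le_of_lt hlt) (hsub i j hv)))
    intro i j i' j' hij hij' hne
    rcases lt_trichotomy (Nat.pair i j) (Nat.pair i' j') with h1 | h1 | h1
    · exact key _ _ _ _ hij hij' h1
    · have := Nat.pair_eq_pair.mp h1
      exact absurd (Prod.ext this.1 this.2) hne
    · exact (key _ _ _ _ hij' hij h1).symm

/-! ### closing off -/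

/-- Closure of the empty set under countably-valued functions of finite sets. -/
theorem exists_closed (f : Finset V → Set V) (hf : ∀ F, (f F).Countable) :
    ∃ A : Set V, A.Countable ∧ ∀ F : Finset V, (F : Set V) ⊆ A → f F ⊆ A := by
  classical
  let st : ℕ → Set V := fun n => Nat.rec ∅ (fun _ A => A ∪ ⋃ F ∈ {F : Finset V | (F : Set V) ⊆ A}, f F) n
  have hS : ∀ n, st (n + 1) = st n ∪ ⋃ F ∈ {F : Finset V | (F : Set V) ⊆ st n}, f F := fun n => rfl
  have hfin : ∀ A : Set V, A.Countable → {F : Finset V | (F : Set V) ⊆ A}.Countable := by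
    intro A hA
    have h1 : {t : Set V | t.Finite ∧ t ⊆ A}.Countable := countable_ofPred_finite_subset hA
    refine (h1.preimage (f := fun F : Finset V => (F : Set V)) Finset.coe_injective).mono ?_
    intro F hF
    exact ⟨F.finite_toSet, hF⟩
  have hc : ∀ n, (st n).Countable := by
    intro n
    induction n with
    | zero => exact countable_empty
    | succ n ih =>
      rw [hS]
      exact ih.union ((hfin _ ih).biUnion fun F _ => hf F)
  have hmono : ∀ m n, m ≤ n → st m ⊆ st n := by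
    intro m n hmn
    induction n, hmn using Nat.le_induction with
    | base => exact Subset.rfl
    | succ n _ ih => exact ih.trans (by rw [hS]; exact subset_union_left)
  refine ⟨⋃ n, st n, countable_iUnion hc, fun F hF => ?_⟩
  obtain ⟨n, hn⟩ : ∃ n, (F : Set V) ⊆ st n := by
    induction F using Finset.induction_on with
    | empty => exact ⟨0, by simp⟩
    | insert a F _ ih =>
      rw [Finset.coe_insert, insert_subset_iff] at hF
      obtain ⟨n, hn⟩ := ih hF.2
      obtain ⟨m, hm⟩ := mem_iUnion.mp hF.1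
      refine ⟨max m n, ?_⟩
      rw [Finset.coe_insert, insert_subset_iff]
      exact ⟨hmono _ _ (le_max_left _ _) hm, hn.trans (hmono _ _ (le_max_right _ _))⟩
  refine Subset.trans ?_ (subset_iUnion st (n + 1))
  rw [hS]
  refine Subset.trans ?_ subset_union_right
  exact subset_biUnion_of_mem (u := fun F => f F) (show F ∈ {F : Finset V | (F : Set V) ⊆ st n} from hn)

/-- The neighbourhood of a component of the complement of `A`: if it is finite then the component
is a component of the complement of the neighbourhood. -/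
theorem isCpt_of_nbhd {A : Set V} {c : V} (hc : c ∉ A) {Q : Set V}
    (hQ : ∀ a, a ∈ Q ↔ a ∈ A ∧ ∃ x ∈ cpt G A c, G.Adj a x) :
    cpt G A c = cpt G Q c ∧ IsCpt G Q (cpt G A c) := by
  have hQA : Q ⊆ A := fun a ha => ((hQ a).mp ha).1
  have heq : cpt G A c = cpt G Q c := by
    apply Subset.antisymm
    · intro y hy
      exact conn_mono hQA hy
    · intro y hy
      have : Conn G Q c y := hy
      induction this with
      | refl => exact mem_cpt_self A c
      | tail _ hab ih =>
        rename_i a b h1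
        have ha : a ∈ cpt G A c := ih h1
        have haA : a ∉ A := conn_notMem hc ha
        have hbA : b ∉ A := by
          intro hb
          exact hab.2.2 ((hQ b).mpr ⟨hb, a, ha, hab.1.symm⟩)
        exact Relation.ReflTransGen.tail ha ⟨hab.1, haA, hbA⟩
  exact ⟨heq, c, fun h => hc (hQA h), heq⟩

end Pool.Agent.Helper97.VC

end

/-! ### formerly `Pool.Agent.Helper97.VC.Close` -/

section

/-!
# Closing off: if all but countably many kinds of pieces are tame, then the structure has a
subdivision of the infinite complete graph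
-/

set_option autoImplicit false
set_option linter.unusedSectionVars false
set_option linter.unusedVariables false

namespace Pool.Agent.Helper97.VC

open Set Pool.Agent.Helper5.DU Pool.Agent.Helper6.Str Pool.Agent.Helper79.VC

variable {L : FirstOrder.Language.{0, 0}} {M : Type}

/-- the set of pairs `(a, a)`, `a` in `Q` -/
abbrev dg (Q : Set M) : Set (M × M) := (fun a => (a, a)) '' Q

/-- The exchange of two equivalent components. -/
def SwapStatement (S : L.Structure M) : Prop :=
  ∀ (Q C D F : Set M) (c d : M) (γ : Ordinal.{0}), IsCpt (gaif S) Q C → IsCpt (gaif S) Q D →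
    C ≠ D → c ∈ C → d ∈ D → BFR S S (C ∪ Q) (D ∪ Q) γ (insert (c, d) (dg Q)) →
    (∀ a ∈ F, a ∉ C ∧ a ∉ D) → BFR S S univ univ γ (insert (c, d) (dg (F ∪ Q)))

/-- an element of a countable set which works at cofinally many levels works at all levels -/
theorem exists_uniform {B : Set M} (hB : B.Countable) (p : M → Ordinal.{0} → Prop)
    (hp : ∀ d β γ, β ≤ γ → p d γ → p d β) (h : ∀ γ < om1, ∃ d ∈ B, p d γ) :
    ∃ d ∈ B, ∀ γ < om1, p d γ := by
  by_contra hne
  push Not at hne
  have : Countable B := hB.to_subtype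
  have hch : ∀ d : B, ∃ γ, γ < om1 ∧ ¬ p d.1 γ := by
    intro d
    obtain ⟨γ, h1, h2⟩ := hne d.1 d.2
    exact ⟨γ, h1, h2⟩
  choose g hg1 hg2 using hch
  obtain ⟨γ, hγ, hle⟩ := exists_bound hg1
  obtain ⟨d, hd, hpd⟩ := h γ hγ
  exact hg2 ⟨d, hd⟩ (hp d _ _ (hle ⟨d, hd⟩) hpd)

/-- **Closing off.** -/
theorem close_of_swap {S : L.Structure M} (hswap : SwapStatement S) (hNT : NoCtblType S)
    (hD : ∀ Q : Finset M, ∃ DD : Set (Set M), DD.Countable ∧
      (∀ D ∈ DD, IsCpt (gaif S) (Q : Set M) D) ∧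
      ∀ C, IsCpt (gaif S) (Q : Set M) C → C ∉ DD →
        {D ∈ DD | Tame S (Q : Set M) D ∧ ∀ γ < om1,
          BFR S S (C ∪ (Q : Set M)) (D ∪ (Q : Set M)) γ ((fun a => (a, a)) '' (Q : Set M))}.Infinite) :
    HasTK (gaif S) := by
  classical
  set G := gaif S with hG
  choose DD hDDc hDDi hDDe using hD
  -- a countable set which is closed
  obtain ⟨A, hAc, hA⟩ : ∃ A : Set M, A.Countable ∧
      (∀ Q : Finset M, (Q : Set M) ⊆ A → ∀ D ∈ DD Q, ∃ x ∈ D, x ∈ A) ∧
      (∀ Q : Finset M, (Q : Set M) ⊆ A → ∀ x ∈ A, x ∉ Q → Tame S (Q : Set M) (cpt G (Q : Set M) x) →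
        ∃ B : Set M, B ⊆ A ∧ B ⊆ cpt G (Q : Set M) x ∪ Q ∧ B.Countable ∧
          ∀ c ∈ cpt G (Q : Set M) x ∪ Q, ∃ d ∈ B, ∀ γ < om1,
            BFR S S (cpt G (Q : Set M) x ∪ Q) (cpt G (Q : Set M) x ∪ Q) γ
              (insert (c, d) (dg (Q : Set M)))) ∧
      (∀ f ∈ A, ∀ g ∈ A, (∃ Z : Set M, Z.Countable ∧ ¬ Lnk G Z f g) → ¬ Lnk G A f g) := by
    -- the three functions
    let f1 : Finset M → Set M := fun Q =>
      ⋃ D ∈ DD Q, (if h : D.Nonempty then {h.some} else ∅)
    have hTB : ∀ (Q : Finset M) (x : M), ∃ B : Set M, B.Countable ∧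
        (Tame S (Q : Set M) (cpt G (Q : Set M) x) → B ⊆ cpt G (Q : Set M) x ∪ Q ∧
          ∀ c ∈ cpt G (Q : Set M) x ∪ Q, ∃ d ∈ B, ∀ γ < om1,
            BFR S S (cpt G (Q : Set M) x ∪ Q) (cpt G (Q : Set M) x ∪ Q) γ
              (insert (c, d) (dg (Q : Set M)))) := by
      intro Q x
      by_cases h : Tame S (Q : Set M) (cpt G (Q : Set M) x)
      · obtain ⟨B, h1, h2, h3⟩ := h
        exact ⟨B, h2, fun _ => ⟨h1, h3⟩⟩
      · exact ⟨∅, countable_empty, fun h' => absurd h' h⟩
    choose TB hTB1 hTB2 using hTB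
    have hZZ : ∀ f g : M, ∃ Z : Set M, Z.Countable ∧
        ((∃ Z' : Set M, Z'.Countable ∧ ¬ Lnk G Z' f g) → ¬ Lnk G Z f g) := by
      intro f g
      by_cases h : ∃ Z' : Set M, Z'.Countable ∧ ¬ Lnk G Z' f g
      · obtain ⟨Z, h1, h2⟩ := h
        exact ⟨Z, h1, fun _ => h2⟩
      · exact ⟨∅, countable_empty, fun h' => absurd h' h⟩
    choose ZZ hZZ1 hZZ2 using hZZ
    let f2 : Finset M → Set M := fun F => ⋃ x ∈ F, TB (F.erase x) x
    let f3 : Finset M → Set M := fun F => ⋃ f ∈ F, ⋃ g ∈ F, ZZ f g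
    have hc1 : ∀ Q, (f1 Q).Countable := by
      intro Q
      refine (hDDc Q).biUnion fun D hD => ?_
      split_ifs with h
      · exact countable_singleton _
      · exact countable_empty
    have hc2 : ∀ F, (f2 F).Countable := fun F =>
      (F.finite_toSet.countable).biUnion fun x _ => hTB1 _ _
    have hc3 : ∀ F, (f3 F).Countable := fun F =>
      (F.finite_toSet.countable).biUnion fun x _ =>
        (F.finite_toSet.countable).biUnion fun y _ => hZZ1 _ _
    obtain ⟨A, hAc, hA⟩ := exists_closed (fun F => f1 F ∪ f2 F ∪ f3 F)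
      (fun F => ((hc1 F).union (hc2 F)).union (hc3 F))
    refine ⟨A, hAc, fun Q hQ D hD => ?_, fun Q hQ x hx hxQ hT => ?_, fun f hf g hg hZ => ?_⟩
    · have hne : D.Nonempty := isCpt_nonempty (hDDi Q D hD)
      refine ⟨hne.some, hne.some_mem, hA Q hQ (Or.inl (Or.inl ?_))⟩
      simp only [f1, mem_iUnion]
      exact ⟨D, hD, by rw [dif_pos hne]; exact rfl⟩
    · have hF : ((insert x Q : Finset M) : Set M) ⊆ A := by
        rw [Finset.coe_insert, insert_subset_iff]
        exact ⟨hx, hQ⟩
      have he : (insert x Q).erase x = Q := Finset.erase_insert hxQ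
      have hsub : TB Q x ⊆ A := by
        intro y hy
        refine hA _ hF (Or.inl (Or.inr ?_))
        simp only [f2, mem_iUnion]
        refine ⟨x, Finset.mem_insert_self _ _, ?_⟩
        rw [he]
        exact hy
      exact ⟨TB Q x, hsub, (hTB2 Q x hT).1, hTB1 Q x, (hTB2 Q x hT).2⟩
    · have hF : ((insert f (insert g ∅) : Finset M) : Set M) ⊆ A := by
        rw [Finset.coe_insert, Finset.coe_insert, insert_subset_iff, insert_subset_iff]
        exact ⟨hf, hg, by simp⟩
      have hsub : ZZ f g ⊆ A := by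
        intro y hy
        refine hA _ hF (Or.inr ?_)
        simp only [f3, mem_iUnion]
        exact ⟨f, by simp, g, by simp, hy⟩
      intro hl
      exact hZZ2 f g hZ (lnk_mono hsub hl)
  obtain ⟨hA1, hA2, hA3⟩ := hA
  by_contra hTK
  refine hNT ⟨A, hAc, fun F hF c => ?_⟩
  by_cases hcA : c ∈ A
  · refine ⟨c, hcA, fun γ _ => BFR.refl S univ γ ?_⟩
    rintro a (rfl | ⟨x, _, rfl⟩)
    · exact ⟨mem_univ _, rfl⟩
    · exact ⟨mem_univ _, rfl⟩
  set C := cpt G A c with hC
  set N : Set M := {a | a ∈ A ∧ ∃ x ∈ C, G.Adj a x} with hN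
  have hCA : ∀ x ∈ C, x ∉ A := fun x hx => conn_notMem hcA hx
  by_cases hfin : N.Finite
  · -- finitely many neighbours
    obtain ⟨Q, hQN⟩ : ∃ Q : Finset M, (Q : Set M) = N := ⟨hfin.toFinset, hfin.coe_toFinset⟩
    have hQA : (Q : Set M) ⊆ A := by
      rw [hQN]
      exact fun a ha => ha.1
    obtain ⟨hCeq, hCis⟩ := isCpt_of_nbhd (G := G) hcA (Q := (Q : Set M)) (by
      intro a
      rw [hQN]
      exact Iff.rfl)
    have hcQ : c ∉ (Q : Set M) := fun h => hcA (hQA h)
    have hcC : c ∈ C := mem_cpt_self A c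
    have hCDD : C ∉ DD Q := by
      intro h
      obtain ⟨x, hx, hxA⟩ := hA1 Q hQA C h
      exact hCA x hx hxA
    have hinf := hDDe Q C hCis hCDD
    -- a component away from the finite set
    obtain ⟨D, ⟨hDD, hDT, hDE⟩, hDF⟩ : ∃ D, (D ∈ DD Q ∧ Tame S (Q : Set M) D ∧ ∀ γ < om1,
        BFR S S (C ∪ (Q : Set M)) (D ∪ (Q : Set M)) γ (dg (Q : Set M))) ∧ ∀ a ∈ F, a ∉ D := by
      by_contra hcon
      push Not at hcon
      refine hinf ?_
      refine (F.finite_toSet.image (fun a => cpt G (Q : Set M) a)).subset ?_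
      rintro D ⟨hD1, hD2, hD3⟩
      obtain ⟨a, haF, haD⟩ := hcon D ⟨hD1, hD2, hD3⟩
      exact ⟨a, haF, (isCpt_eq_cpt (hDDi Q D hD1) haD).symm⟩
    have hCD : C ≠ D := fun h => hCDD (h ▸ hDD)
    have hDis := hDDi Q D hDD
    obtain ⟨x, hxD, hxA⟩ := hA1 Q hQA D hDD
    have hDx : D = cpt G (Q : Set M) x := isCpt_eq_cpt hDis hxD
    have hxQ : x ∉ (Q : Set M) := isCpt_notMem hDis hxD
    obtain ⟨B, hBA, hBD, hBc, hB⟩ := hA2 Q hQA x hxA (fun h => hxQ h) (hDx ▸ hDT)
    rw [← hDx] at hBD hB
    -- an element realising the type of `c`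
    obtain ⟨d, hdB, hd⟩ := exists_uniform hBc
      (fun d γ => BFR S S (C ∪ (Q : Set M)) (D ∪ (Q : Set M)) γ (insert (c, d) (dg (Q : Set M))))
      (fun d β γ hβ h => h.mono hβ) (by
        intro γ hγ
        have h1 := hDE (γ + 1) (add_one_lt_om1 hγ)
        obtain ⟨d, hd, h2⟩ := h1.forth (Order.lt_add_one_iff.mpr le_rfl) (Or.inl hcC)
        obtain ⟨d', hd', h3⟩ := hB d hd
        refine ⟨d', hd', BFR.trans h2 (h3 γ hγ) ?_⟩
        rintro a (rfl | ⟨q, hq, rfl⟩)
        · exact ⟨d, mem_insert _ _, mem_insert _ _⟩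
        · exact ⟨q, mem_insert_of_mem _ ⟨q, hq, rfl⟩, mem_insert_of_mem _ ⟨q, hq, rfl⟩⟩)
    have hdD : d ∈ D := by
      rcases hBD hdB with h | h
      · exact h
      · exfalso
        have h0 := (hd 0 (Ordinal.omega_pos 1)).atEq
        have h1 := h0.1 (c, d) (mem_insert _ _) (d, d) (mem_insert_of_mem _ ⟨d, h, rfl⟩)
        simp only [iff_true] at h1
        exact hcQ (h1 ▸ h)
    refine ⟨d, hBA hdB, fun γ hγ => ?_⟩
    have h4 := hswap (Q : Set M) C D (F : Set M) c d γ hCis hDis hCD hcC hdD (hd γ hγ)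
      (fun a ha => ⟨fun h => hCA a h (hF ha), fun h => hDF a ha h⟩)
    refine BFR.anti ?_ h4
    exact insert_subset_insert (image_mono subset_union_left)
  · -- infinitely many neighbours
    exfalso
    have hinf : N.Infinite := hfin
    let b : ℕ → M := fun n => (hinf.natEmbedding N n : M)
    have hb : Function.Injective b := fun m n h => (hinf.natEmbedding N).injective (Subtype.ext h)
    have hbN : ∀ n, b n ∈ N := fun n => (hinf.natEmbedding N n).2
    refine hTK (hasTK_of_linked G b hb ?_)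
    intro i j hij Z hZ
    by_contra hl
    refine hA3 (b i) (hbN i).1 (b j) (hbN j).1 ⟨Z, hZ, hl⟩ ?_
    obtain ⟨x, hx, hx'⟩ := (hbN i).2
    obtain ⟨y, hy, hy'⟩ := (hbN j).2
    exact ⟨x, y, hx', hy'.symm, hCA x hx, hCA y hy, conn_trans (conn_symm hx) hy⟩

end Pool.Agent.Helper97.VC

end

/-! ### formerly `Pool.Agent.Helper97.VC.Reflect` -/

section

/-!
# Reflecting a subdivision of the infinite complete graph into a countable model
-/

set_option autoImplicit false
set_option linter.unusedSectionVars false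
set_option linter.unusedVariables false

namespace Pool.Agent.Helper97.VC

open Set Pool.Agent.Helper5.DU Pool.Agent.Helper6.Str Pool.Agent.Helper79.VC

variable {L : FirstOrder.Language.{0, 0}} {M : Type}

/-- over a finite set there are countably many types of level `d` -/
theorem countable_classes {K : Set (L.Structure ℕ)} (hS : Scat K) {d : Ordinal.{0}}
    (hd : d < om1) {S : L.Structure M} (hlev : Lev K S) (F : Finset M) :
    ∃ κ : M → ℕ, ∀ c c', κ c = κ c' →
      BFR S S univ univ d (insert (c, c') ((fun a => (a, a)) '' (F : Set M))) := by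
  classical
  set n := F.card + 1 with hn
  have hlt : d + (n : Ordinal.{0}) < om1 := add_lt_om1 hd (natCast_lt_om1 n)
  obtain ⟨S1, hS1, h1⟩ := hlev _ hlt
  obtain ⟨ρ, hρ⟩ := hS d hd n
  let e := F.equivFin
  let x : M → Fin n → M := fun c => Fin.cons c (fun i => ((e.symm i : F) : M))
  have hy : ∀ c, ∃ y : Fin n → ℕ, BFR S S1 univ univ d (∅ ∪ range fun i => (x c i, y i)) := by
    intro c
    obtain ⟨y, -, hy⟩ := BFR.forth_many n h1 (x c) fun _ => mem_univ _
    exact ⟨y, hy⟩
  choose y hy using hy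
  have hm : ∀ c, ∃ m, (ρ m).1 ∈ K ∧ BFR S1 (ρ m).1 univ univ d (pr (y c) (ρ m).2) :=
    fun c => hρ S1 hS1 (y c)
  choose κ hκ1 hκ2 using hm
  refine ⟨κ, fun c c' hcc => ?_⟩
  have h2 : BFR S (ρ (κ c)).1 univ univ d (range fun i => (x c i, (ρ (κ c)).2 i)) := by
    refine BFR.trans (hy c) (hκ2 c) ?_
    rintro _ ⟨i, rfl⟩
    exact ⟨y c i, Or.inr ⟨i, rfl⟩, ⟨i, rfl⟩⟩
  have h3 : BFR S (ρ (κ c)).1 univ univ d (range fun i => (x c' i, (ρ (κ c)).2 i)) := by
    rw [hcc]
    refine BFR.trans (hy c') (hκ2 c') ?_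
    rintro _ ⟨i, rfl⟩
    exact ⟨y c' i, Or.inr ⟨i, rfl⟩, ⟨i, rfl⟩⟩
  have h4 : BFR (ρ (κ c)).1 S univ univ d (range fun i => ((ρ (κ c)).2 i, x c' i)) := by
    refine BFR.symm h3 ?_
    rintro _ ⟨i, rfl⟩
    exact ⟨i, rfl⟩
  refine BFR.trans h2 h4 ?_
  rintro a (rfl | ⟨a, ha, rfl⟩)
  · exact ⟨(ρ (κ c)).2 0, ⟨0, rfl⟩, ⟨0, rfl⟩⟩
  · have ha' : a ∈ F := ha
    refine ⟨(ρ (κ c)).2 (e ⟨a, ha'⟩).succ, ⟨(e ⟨a, ha'⟩).succ, ?_⟩, ⟨(e ⟨a, ha'⟩).succ, ?_⟩⟩
    · simp [x]
    · simp [x]

/-- the entries of a witnessing tuple for an adjacency -/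
theorem exists_witness {S : L.Structure M} (x y : M) : ∃ W : Set M, W.Countable ∧
    ((gaif S).Adj x y → ∃ (n : ℕ) (R : L.Relations n) (v : Fin n → M),
      S.RelMap R v ∧ x ∈ range v ∧ y ∈ range v ∧ range v ⊆ W) := by
  by_cases h : (gaif S).Adj x y
  · obtain ⟨_, n, R, v, h1, h2, h3⟩ := h
    exact ⟨range v, (finite_range v).countable, fun _ => ⟨n, R, v, h1, h2, h3, Subset.rfl⟩⟩
  · exact ⟨∅, countable_empty, fun h' => absurd h' h⟩

variable [∀ n, IsEmpty (L.Functions n)]

/-- pulling a subdivision back along an enumeration of a set containing its vertices and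
witnesses for its edges -/
theorem hasTK_pl {S : L.Structure M} {f : ℕ → M} (hf : Function.Injective f)
    {W : M → M → Set M} (hW : ∀ x y, (gaif S).Adj x y → ∃ (n : ℕ) (R : L.Relations n)
      (v : Fin n → M), S.RelMap R v ∧ x ∈ range v ∧ y ∈ range v ∧ range v ⊆ W x y)
    {b : ℕ → M} {P : ℕ → ℕ → List M} (hb : Function.Injective b)
    (h1 : ∀ i j, i < j → (b i :: (P i j ++ [b j])).Nodup ∧
      List.IsChain (gaif S).Adj (b i :: (P i j ++ [b j])))
    (h2 : ∀ i j k, i < j → b k ∉ P i j)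
    (h3 : ∀ i j i' j', i < j → i' < j' → (i, j) ≠ (i', j') → List.Disjoint (P i j) (P i' j'))
    (hbr : ∀ i, b i ∈ range f) (hPr : ∀ i j, ∀ x ∈ P i j, x ∈ range f)
    (hWr : ∀ x ∈ range f, ∀ y ∈ range f, W x y ⊆ range f) : HasTK (gaif (pl S f)) := by
  classical
  let g : M → ℕ := Function.invFun f
  have hg : ∀ x ∈ range f, f (g x) = x := fun x hx => Function.invFun_eq hx
  have hgi : ∀ x ∈ range f, ∀ y ∈ range f, g x = g y → x = y := by
    intro x hx y hy hxy
    rw [← hg x hx, ← hg y hy, hxy]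
  have hadj : ∀ x ∈ range f, ∀ y ∈ range f, (gaif S).Adj x y → (gaif (pl S f)).Adj (g x) (g y) := by
    intro x hx y hy hxy
    obtain ⟨n, R, v, hv, hxv, hyv, hvW⟩ := hW x y hxy
    have hvr : ∀ i, v i ∈ range f := fun i => hWr x hx y hy (hvW (mem_range_self i))
    refine ⟨fun h => hxy.ne (hgi x hx y hy h), n, R, fun i => g (v i), ?_, ?_, ?_⟩
    · show S.RelMap R (fun i => f (g (v i)))
      have : (fun i => f (g (v i))) = v := funext fun i => hg _ (hvr i)
      rw [this]
      exact hv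
    · obtain ⟨i, rfl⟩ := hxv
      exact ⟨i, rfl⟩
    · obtain ⟨i, rfl⟩ := hyv
      exact ⟨i, rfl⟩
  have hlist : ∀ i j, ∀ x ∈ b i :: (P i j ++ [b j]), x ∈ range f := by
    intro i j x hx
    simp only [List.mem_cons, List.mem_append, List.not_mem_nil, or_false] at hx
    rcases hx with rfl | hx | rfl
    · exact hbr _
    · exact hPr i j x hx
    · exact hbr _
  have hmap : ∀ i j, g (b i) :: ((P i j).map g ++ [g (b j)]) =
      (b i :: (P i j ++ [b j])).map g := by
    intro i j
    simp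
  refine ⟨fun i => g (b i), fun i j => (P i j).map g,
    fun i j h => hb (hgi _ (hbr i) _ (hbr j) h), fun i j hij => ⟨?_, ?_⟩, ?_, ?_⟩
  · rw [hmap]
    refine List.Nodup.map_on ?_ (h1 i j hij).1
    intro x hx y hy hxy
    exact hgi x (hlist i j x hx) y (hlist i j y hy) hxy
  · rw [hmap, List.isChain_map]
    refine List.IsChain.imp_of_mem_imp ?_ (h1 i j hij).2
    intro x y hx hy hxy
    exact hadj x (hlist i j x hx) y (hlist i j y hy) hxy
  · intro i j k hij hk
    obtain ⟨x, hx, hxk⟩ := List.mem_map.mp hk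
    have := hgi x (hPr i j x hx) (b k) (hbr k) hxk
    subst this
    exact h2 i j k hij hx
  · intro i j i' j' hij hij' hne x hx hx'
    obtain ⟨y, hy, rfl⟩ := List.mem_map.mp hx
    obtain ⟨z, hz, hzy⟩ := List.mem_map.mp hx'
    have := hgi z (hPr i' j' z hz) y (hPr i j y hy) hzy
    subst this
    exact h3 i j i' j' hij hij' hne hy hz

variable [∀ n, Countable (L.Relations n)]

/-- **Reflection.** -/
theorem hasTK_reflect {K : Set (L.Structure ℕ)} (hS : Scat K) {d : Ordinal.{0}} (hd : d < om1)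
    (hcl : ClosedLev K d) {M : Type} {S : L.Structure M} (hlev : Lev K S)
    (hTK : HasTK (gaif S)) : ∃ S' ∈ K, HasTK (gaif S') := by
  classical
  obtain ⟨b, P, hb, h1, h2, h3⟩ := hTK
  have hwit : ∀ x y : M, ∃ W : Set M, W.Countable ∧
      ((gaif S).Adj x y → ∃ (n : ℕ) (R : L.Relations n) (v : Fin n → M),
        S.RelMap R v ∧ x ∈ range v ∧ y ∈ range v ∧ range v ⊆ W) := exists_witness
  choose W hWc hW using hwit
  have hκ : ∀ F : Finset M, ∃ T : Set M, T.Countable ∧ ∀ c : M, ∃ c' ∈ T,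
      BFR S S univ univ d (insert (c, c') ((fun a => (a, a)) '' (F : Set M))) := by
    intro F
    obtain ⟨κ, hκ⟩ := countable_classes hS hd hlev F
    have hrep : ∀ (m : ℕ), ∃ T : Set M, T.Countable ∧
        ((∃ c, κ c = m) → ∃ c ∈ T, κ c = m) := by
      intro m
      by_cases h : ∃ c, κ c = m
      · obtain ⟨c, hc⟩ := h
        exact ⟨{c}, countable_singleton _, fun _ => ⟨c, rfl, hc⟩⟩
      · exact ⟨∅, countable_empty, fun h' => absurd h' h⟩
    choose T hT1 hT2 using hrep
    refine ⟨⋃ m, T m, countable_iUnion hT1, fun c => ?_⟩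
    obtain ⟨c', hc', hcc⟩ := hT2 (κ c) ⟨c, rfl⟩
    exact ⟨c', mem_iUnion.mpr ⟨κ c, hc'⟩, hκ c c' hcc.symm⟩
  choose T hT1 hT2 using hκ
  let B₀ : Set M := range b ∪ ⋃ i, ⋃ j, {x | x ∈ P i j}
  have hB₀ : B₀.Countable := (countable_range b).union
    (countable_iUnion fun i => countable_iUnion fun j => (List.finite_toSet _).countable)
  obtain ⟨B, hBc, hB⟩ := exists_closed
    (fun F => (B₀ ∪ T F) ∪ ⋃ x ∈ F, ⋃ y ∈ F, W x y)
    (fun F => (hB₀.union (hT1 F)).union ((F.finite_toSet.countable).biUnion fun x _ =>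
        (F.finite_toSet.countable).biUnion fun y _ => hWc _ _))
  have hBB₀ : B₀ ⊆ B := fun x hx => hB ∅ (by simp) (Or.inl (Or.inl hx))
  have hBW : ∀ x ∈ B, ∀ y ∈ B, W x y ⊆ B := by
    intro x hx y hy z hz
    refine hB (insert x (insert y ∅)) ?_ (Or.inr ?_)
    · rw [Finset.coe_insert, Finset.coe_insert, insert_subset_iff, insert_subset_iff]
      exact ⟨hx, hy, by simp⟩
    · simp only [mem_iUnion]
      exact ⟨x, by simp, y, by simp, hz⟩
  have hBd : ∀ F : Finset M, (F : Set M) ⊆ B → ∀ c : M, ∃ c' ∈ B,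
      BFR S S univ univ d (insert (c, c') ((fun a => (a, a)) '' (F : Set M))) := by
    intro F hF c
    obtain ⟨c', hc', h⟩ := hT2 F c
    exact ⟨c', hB F hF (Or.inl (Or.inr hc')), h⟩
  have hinf := infinite_of_lev hlev
  obtain ⟨f, hf, hfB⟩ := exists_enum hBc (fun F hF c => by
    obtain ⟨c', hc', h⟩ := hBd F hF c
    exact ⟨c', hc', h.mono (bot_le)⟩)
  have hSB : BFR S (pl S f) univ univ d ∅ := by
    have h4 : BFR S S univ B d ∅ := closed_rel hBd d le_rfl ∅ finite_empty
      (fun a ha => absurd ha (notMem_empty a))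
      (BFR.refl S univ d fun a ha => absurd ha (notMem_empty a))
    rw [← hfB] at h4
    exact BFR_pl' hf h4 fun a ha => absurd ha (notMem_empty a)
  obtain ⟨S1, hS1, h5⟩ := hlev d hd
  have hK : pl S f ∈ K := hcl S1 hS1 _ (by
    refine BFR.trans (h5.symm (q := ∅) fun a ha => absurd ha (notMem_empty a)) hSB ?_
    exact fun a ha => absurd ha (notMem_empty a))
  refine ⟨pl S f, hK, ?_⟩
  refine hasTK_pl hf hW hb h1 h2 h3 ?_ ?_ ?_
  · intro i
    rw [hfB]
    exact hBB₀ (Or.inl (mem_range_self i))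
  · intro i j x hx
    rw [hfB]
    refine hBB₀ (Or.inr ?_)
    simp only [mem_iUnion]
    exact ⟨i, j, hx⟩
  · rw [hfB]
    exact hBW

end Pool.Agent.Helper97.VC

end

/-! ### formerly `Pool.Agent.Helper97.LO.Core` -/

section

/-!
# Composition, restriction and Scott levels of pieces

A piece is a subset `X` of a structure `S : L.Structure M`, considered with the induced structure;
`BFR S S' X Y γ p` is the back-and-forth relation of level `γ` between the pieces `X` and `Y`.
-/

set_option autoImplicit false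
set_option linter.unusedSectionVars false
set_option linter.unusedVariables false

namespace Pool.Agent.Helper97.LO

open Set Pool.Agent.Helper5.DU Pool.Agent.Helper6.Str Pool.Agent.Helper79.VC
  Pool.Agent.Helper97.VC

variable {L : FirstOrder.Language.{0, 0}} {M N P : Type}

/-! ### composition along an index set -/

/-- **Composition.** If the pieces `U`, `V` are divided by `π`, `π'` in parts with the same
indices, if corresponding parts are equivalent and if the atomic facts in different parts are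
determined by those in the parts, then `U` and `V` are equivalent. -/
theorem BFR.comp_index {S : L.Structure M} {S' : L.Structure N} {I : Type} (π : M → I)
    (π' : N → I) {U : Set M} {V : Set N}
    (H : ∀ p : Set (M × N), (∀ a ∈ p, a.1 ∈ U ∧ a.2 ∈ V ∧ π a.1 = π' a.2) →
      (∀ i, AtEq S S' {a ∈ p | π a.1 = i}) → AtEq S S' p) (γ : Ordinal.{0}) :
    ∀ {p : Set (M × N)}, (∀ a ∈ p, a.1 ∈ U ∧ a.2 ∈ V ∧ π a.1 = π' a.2) →
      (∀ i, BFR S S' {a ∈ U | π a = i} {b ∈ V | π' b = i} γ {a ∈ p | π a.1 = i}) →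
      BFR S S' U V γ p := by
  induction γ using WellFoundedLT.induction with
  | _ γ ih =>
    intro p hp h
    rw [BFR.def]
    refine ⟨H p hp fun i => (h i).atEq, fun β hβ => ⟨fun x hx => ?_, fun y hy => ?_⟩⟩
    · obtain ⟨y, ⟨hyV, hyπ⟩, hy⟩ := (h (π x)).forth hβ (x := x) ⟨hx, rfl⟩
      refine ⟨y, hyV, ih β hβ ?_ fun i => ?_⟩
      · rintro a (rfl | ha)
        · exact ⟨hx, hyV, hyπ.symm⟩
        · exact hp a ha
      · by_cases hi : π x = i
        · subst hi
          refine BFR.anti ?_ hy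
          rintro a ⟨rfl | ha, hai⟩
          · exact mem_insert _ _
          · exact mem_insert_of_mem _ ⟨ha, hai⟩
        · refine BFR.anti ?_ ((h i).mono hβ.le)
          rintro a ⟨rfl | ha, hai⟩
          · exact absurd hai hi
          · exact ⟨ha, hai⟩
    · obtain ⟨x, ⟨hxU, hxπ⟩, hx⟩ := (h (π' y)).back hβ (y := y) ⟨hy, rfl⟩
      refine ⟨x, hxU, ih β hβ ?_ fun i => ?_⟩
      · rintro a (rfl | ha)
        · exact ⟨hxU, hy, hxπ⟩
        · exact hp a ha
      · by_cases hi : π' y = i
        · subst hi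
          refine BFR.anti ?_ hx
          rintro a ⟨rfl | ha, hai⟩
          · exact mem_insert _ _
          · exact mem_insert_of_mem _ ⟨ha, hai⟩
        · refine BFR.anti ?_ ((h i).mono hβ.le)
          rintro a ⟨rfl | ha, hai⟩
          · exact absurd (hxπ.symm.trans hai) hi
          · exact ⟨ha, hai⟩

/-! ### restriction to definable pieces -/

/-- **Restriction.** Subpieces which are respected by the equivalence of level `κ` (over the pairs
in `p`) inherit the equivalence. -/
theorem BFR.restr {S : L.Structure M} {S' : L.Structure N} {U U' : Set M} {V V' : Set N}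
    (hU : U' ⊆ U) (hV : V' ⊆ V) (κ γ : Ordinal.{0}) : ∀ {p : Set (M × N)},
    (∀ x ∈ U, ∀ y ∈ V, BFR S S' U V κ (insert (x, y) p) → (x ∈ U' ↔ y ∈ V')) →
    BFR S S' U V (κ + γ) p → BFR S S' U' V' γ p := by
  induction γ using WellFoundedLT.induction with
  | _ γ ih =>
    intro p H h
    rw [BFR.def]
    refine ⟨h.atEq, fun β hβ => ⟨fun x hx => ?_, fun y hy => ?_⟩⟩
    · obtain ⟨y, hyV, hy⟩ := h.forth (add_lt_add_right hβ κ) (hU hx)
      have h1 := hy.mono (le_self_add (a := κ) (b := β))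
      refine ⟨y, (H x (hU hx) y hyV h1).mp hx, ih β hβ ?_ hy⟩
      intro a ha b hb hab
      exact H a ha b hb (BFR.anti (insert_subset_insert (subset_insert _ _)) hab)
    · obtain ⟨x, hxU, hx⟩ := h.back (add_lt_add_right hβ κ) (hV hy)
      have h1 := hx.mono (le_self_add (a := κ) (b := β))
      refine ⟨x, (H x hxU y (hV hy) h1).mpr hy, ih β hβ ?_ hx⟩
      intro a ha b hb hab
      exact H a ha b hb (BFR.anti (insert_subset_insert (subset_insert _ _)) hab)

/-- restriction to subpieces which are respected by atomic equivalence -/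
theorem BFR.restr₀ {S : L.Structure M} {S' : L.Structure N} {U U' : Set M} {V V' : Set N}
    (hU : U' ⊆ U) (hV : V' ⊆ V) {γ : Ordinal.{0}} {p : Set (M × N)}
    (H : ∀ x ∈ U, ∀ y ∈ V, AtEq S S' (insert (x, y) p) → (x ∈ U' ↔ y ∈ V'))
    (h : BFR S S' U V γ p) : BFR S S' U' V' γ p := by
  refine BFR.restr hU hV 0 γ (fun x hx y hy h' => H x hx y hy h'.atEq) ?_
  rwa [zero_add]

/-! ### Scott levels -/

/-- `α` is a Scott level of the piece `X`: finite partial maps of `X` which are equivalences of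
level `α` are equivalences of all countable levels. -/
def SL (S : L.Structure M) (X : Set M) (α : Ordinal.{0}) : Prop :=
  ∀ p : Set (M × M), p.Finite → (∀ a ∈ p, a.1 ∈ X ∧ a.2 ∈ X) → BFR S S X X α p →
    ∀ γ < om1, BFR S S X X γ p

theorem SL.mono {S : L.Structure M} {X : Set M} {α β : Ordinal.{0}} (h : SL S X α)
    (hαβ : α ≤ β) : SL S X β :=
  fun p hp hpX hb => h p hp hpX (hb.mono hαβ)

theorem lt_add_one_self (α : Ordinal.{0}) : α < α + 1 := Order.lt_add_one_iff.mpr le_rfl

/-- one step for a piece with a Scott level -/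
theorem SL.key {S : L.Structure M} {S' : L.Structure N} {X : Set M} {Y : Set N}
    {α : Ordinal.{0}} (hα : α < om1) (h : SL S X α) (hXY : BFR S S' X Y (α + Ordinal.omega0) ∅)
    {p : Set (M × N)} (hp : p.Finite) (hpX : ∀ a ∈ p, a.1 ∈ X ∧ a.2 ∈ Y)
    (hb : BFR S S' X Y α p) : BFR S S' X Y (α + 1) p := by
  let e := hp.toFinset.equivFin
  let a : Fin hp.toFinset.card → M := fun i => (e.symm i).1.1
  let b : Fin hp.toFinset.card → N := fun i => (e.symm i).1.2
  have hpe : ∀ z ∈ p, ∃ i, a i = z.1 ∧ b i = z.2 := by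
    intro z hz
    have hz' : z ∈ hp.toFinset := hp.mem_toFinset.mpr hz
    exact ⟨e ⟨z, hz'⟩, by simp [a], by simp [b]⟩
  have hpe' : ∀ i, (a i, b i) ∈ p := by
    intro i
    have := (e.symm i).2
    rw [hp.mem_toFinset] at this
    exact this
  have h1 : BFR S S' X Y (α + 1 + ((hp.toFinset.card : ℕ) : Ordinal.{0})) ∅ := by
    refine hXY.mono ?_
    rw [add_assoc]
    gcongr
    have : (1 : Ordinal.{0}) + ((hp.toFinset.card : ℕ) : Ordinal.{0}) =
        ((1 + hp.toFinset.card : ℕ) : Ordinal.{0}) := by push_cast; rfl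
    rw [this]
    exact (Ordinal.natCast_lt_omega0 _).le
  obtain ⟨a', ha'X, h2⟩ := BFR.back_many _ h1 b fun i => (hpX _ (hpe' i)).2
  have hlt : α ≤ α + 1 := (lt_add_one_self α).le
  have h3 : BFR S S X X α (range fun i => (a i, a' i)) := by
    have h4 : BFR S' S Y X α (range fun i => (b i, a' i)) := by
      refine (h2.mono hlt).symm ?_
      rintro _ ⟨i, rfl⟩
      exact Or.inr ⟨i, rfl⟩
    refine hb.trans h4 ?_
    rintro _ ⟨i, rfl⟩
    exact ⟨b i, hpe' i, ⟨i, rfl⟩⟩
  have h5 := h _ (finite_range _) (by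
    rintro _ ⟨i, rfl⟩
    exact ⟨(hpX _ (hpe' i)).1, ha'X i⟩) h3 (α + 1) (add_one_lt_om1 hα)
  refine h5.trans h2 ?_
  intro z hz
  obtain ⟨i, hi1, hi2⟩ := hpe z hz
  exact ⟨a' i, ⟨i, by rw [← hi1]⟩, Or.inr ⟨i, by rw [← hi2]⟩⟩

/-- A piece with Scott level `α` is determined by its equivalence class of level `α + ω`. -/
theorem SL.det {S : L.Structure M} {S' : L.Structure N} {X : Set M} {Y : Set N}
    {α : Ordinal.{0}} (hα : α < om1) (h : SL S X α) (hXY : BFR S S' X Y (α + Ordinal.omega0) ∅)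
    (γ : Ordinal.{0}) : ∀ {p : Set (M × N)}, p.Finite → (∀ a ∈ p, a.1 ∈ X ∧ a.2 ∈ Y) →
      BFR S S' X Y α p → BFR S S' X Y γ p := by
  induction γ using WellFoundedLT.induction with
  | _ γ ih =>
    intro p hp hpX hb
    rw [BFR.def]
    have h1 := h.key hα hXY hp hpX hb
    refine ⟨hb.atEq, fun β hβ => ⟨fun x hx => ?_, fun y hy => ?_⟩⟩
    · obtain ⟨y, hyV, hy⟩ := h1.forth (lt_add_one_self α) hx
      refine ⟨y, hyV, ih β hβ (hp.insert _) ?_ hy⟩
      rintro a (rfl | ha)
      · exact ⟨hx, hyV⟩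
      · exact hpX a ha
    · obtain ⟨x, hxV, hx⟩ := h1.back (lt_add_one_self α) hy
      refine ⟨x, hxV, ih β hβ (hp.insert _) ?_ hx⟩
      rintro a (rfl | ha)
      · exact ⟨hxV, hy⟩
      · exact hpX a ha

/-- the same starting from the higher level -/
theorem SL.det' {S : L.Structure M} {S' : L.Structure N} {X : Set M} {Y : Set N}
    {α : Ordinal.{0}} (hα : α < om1) (h : SL S X α) {p : Set (M × N)} (hp : p.Finite)
    (hpX : ∀ a ∈ p, a.1 ∈ X ∧ a.2 ∈ Y)
    (hXY : BFR S S' X Y (α + Ordinal.omega0) p) (γ : Ordinal.{0}) : BFR S S' X Y γ p :=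
  h.det hα (BFR.anti (empty_subset _) hXY) γ hp hpX (hXY.mono le_self_add)

/-- Scott levels are invariant. -/
theorem SL.congr {S : L.Structure M} {S' : L.Structure N} {X : Set M} {Y : Set N}
    {α : Ordinal.{0}} (hα : α < om1) (h : SL S X α)
    (hXY : BFR S S' X Y (α + Ordinal.omega0) ∅) : SL S' Y α := by
  intro q hq hqY hb γ hγ
  let e := hq.toFinset.equivFin
  let a : Fin hq.toFinset.card → N := fun i => (e.symm i).1.1
  let b : Fin hq.toFinset.card → N := fun i => (e.symm i).1.2
  have hqe : ∀ z ∈ q, ∃ i, a i = z.1 ∧ b i = z.2 := by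
    intro z hz
    have hz' : z ∈ hq.toFinset := hq.mem_toFinset.mpr hz
    exact ⟨e ⟨z, hz'⟩, by simp [a], by simp [b]⟩
  have hqe' : ∀ i, (a i, b i) ∈ q := by
    intro i
    have := (e.symm i).2
    rw [hq.mem_toFinset] at this
    exact this
  have h1 : BFR S S' X Y (α + ((hq.toFinset.card : ℕ) : Ordinal.{0})) ∅ := by
    refine hXY.mono ?_
    gcongr
    exact (Ordinal.natCast_lt_omega0 _).le
  obtain ⟨a', ha'X, h2⟩ := BFR.back_many _ h1 a fun i => (hqY _ (hqe' i)).1
  obtain ⟨b', hb'X, h3⟩ := BFR.back_many _ h1 b fun i => (hqY _ (hqe' i)).2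
  have h2' := h.det hα hXY γ (p := range fun i => (a' i, a i)) (finite_range _) (by
    rintro _ ⟨i, rfl⟩
    exact ⟨ha'X i, (hqY _ (hqe' i)).1⟩) (BFR.anti subset_union_right h2)
  have h3' := h.det hα hXY γ (p := range fun i => (b' i, b i)) (finite_range _) (by
    rintro _ ⟨i, rfl⟩
    exact ⟨hb'X i, (hqY _ (hqe' i)).2⟩) (BFR.anti subset_union_right h3)
  have h4 : BFR S S X X α (range fun i => (a' i, b' i)) := by
    have h5 : BFR S S' X Y α (range fun i => (a' i, b i)) := by
      refine (BFR.anti subset_union_right h2).trans hb ?_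
      rintro _ ⟨i, rfl⟩
      exact ⟨a i, ⟨i, rfl⟩, hqe' i⟩
    have h6 : BFR S' S Y X α (range fun i => (b i, b' i)) := by
      refine (BFR.anti subset_union_right h3).symm ?_
      rintro _ ⟨i, rfl⟩
      exact ⟨i, rfl⟩
    refine h5.trans h6 ?_
    rintro _ ⟨i, rfl⟩
    exact ⟨b i, ⟨i, rfl⟩, ⟨i, rfl⟩⟩
  have h7 := h _ (finite_range _) (by
    rintro _ ⟨i, rfl⟩
    exact ⟨ha'X i, hb'X i⟩) h4 γ hγ
  have h8 : BFR S' S Y X γ (range fun i => (a i, b' i)) := by
    refine (h2'.symm (q := range fun i => (a i, a' i)) ?_).trans h7 ?_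
    · rintro _ ⟨i, rfl⟩
      exact ⟨i, rfl⟩
    · rintro _ ⟨i, rfl⟩
      exact ⟨a' i, ⟨i, rfl⟩, ⟨i, rfl⟩⟩
  refine h8.trans h3' ?_
  intro z hz
  obtain ⟨i, hi1, hi2⟩ := hqe z hz
  exact ⟨b' i, ⟨i, by rw [← hi1]⟩, ⟨i, by rw [← hi2]⟩⟩

/-- The property of having a Scott level below `κ` is respected by the equivalence of level `κ`,
if `κ` is closed under adding `ω`. -/
theorem SL.lt_congr {S : L.Structure M} {S' : L.Structure N} {X : Set M} {Y : Set N}
    {κ : Ordinal.{0}} (hκ : κ ≤ om1) (hκω : ∀ α < κ, α + Ordinal.omega0 < κ)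
    (hXY : BFR S S' X Y κ ∅) : (∃ α < κ, SL S X α) ↔ ∃ α < κ, SL S' Y α := by
  constructor
  · rintro ⟨α, hα, h⟩
    exact ⟨α, hα, h.congr (hα.trans_le hκ) (hXY.mono (hκω α hα).le)⟩
  · rintro ⟨α, hα, h⟩
    refine ⟨α, hα, h.congr (hα.trans_le hκ) ?_⟩
    exact (hXY.mono (hκω α hα).le).symm fun a ha => absurd ha (notMem_empty a)

/-- every countable piece has a countable Scott level -/
theorem exists_SL_of_countable {S : L.Structure M} {X : Set M} (hX : X.Countable) :
    ∃ α < om1, SL S X α := by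
  classical
  have hct : {p : Finset (M × M) | (p : Set (M × M)) ⊆ X ×ˢ X}.Countable := by
    have h1 : {t : Set (M × M) | t.Finite ∧ t ⊆ X ×ˢ X}.Countable :=
      countable_ofPred_finite_subset (hX.prod hX)
    refine (h1.preimage (f := fun F : Finset (M × M) => (F : Set (M × M)))
      Finset.coe_injective).mono ?_
    intro F hF
    exact ⟨F.finite_toSet, hF⟩
  have := hct.to_subtype
  have hch : ∀ p : {p : Finset (M × M) | (p : Set (M × M)) ⊆ X ×ˢ X}, ∃ γ < om1,
      BFR S S X X γ (p.1 : Set (M × M)) → ∀ β < om1, BFR S S X X β (p.1 : Set (M × M)) := by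
    intro p
    by_cases h : ∀ β < om1, BFR S S X X β (p.1 : Set (M × M))
    · exact ⟨0, Ordinal.omega_pos 1, fun _ => h⟩
    · push Not at h
      obtain ⟨γ, hγ, hγ'⟩ := h
      exact ⟨γ, hγ, fun h' => absurd h' hγ'⟩
  choose G hG hG' using hch
  obtain ⟨α, hα, hGα⟩ := exists_bound hG
  refine ⟨α, hα, fun p hp hpX hb γ hγ => ?_⟩
  have hmem : ((hp.toFinset : Finset (M × M)) : Set (M × M)) ⊆ X ×ˢ X := by
    rw [hp.coe_toFinset]
    exact fun a ha => hpX a ha
  have := hG' ⟨hp.toFinset, hmem⟩ (by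
    show BFR S S X X _ (hp.toFinset : Set (M × M))
    rw [hp.coe_toFinset]
    exact hb.mono (hGα _)) γ hγ
  have h2 : BFR S S X X γ (hp.toFinset : Set (M × M)) := this
  rwa [hp.coe_toFinset] at h2

/-! ### tame pieces -/

/-- A piece is tame if it is equivalent, at all countable levels, to a countable piece. -/
def TameX (S : L.Structure M) (X : Set M) : Prop :=
  ∃ (N : Type) (S' : L.Structure N) (Y : Set N), Y.Countable ∧ ∀ γ < om1, BFR S S' X Y γ ∅

theorem TameX.exists_SL {S : L.Structure M} {X : Set M} (h : TameX S X) :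
    ∃ α < om1, SL S X α := by
  obtain ⟨N, S', Y, hY, hXY⟩ := h
  obtain ⟨α, hα, hSL⟩ := exists_SL_of_countable (S := S') hY
  refine ⟨α, hα, hSL.congr hα ?_⟩
  exact (hXY _ (add_lt_om1 hα omega_lt_om1)).symm fun a ha => absurd ha (notMem_empty a)

theorem TameX.congr {S : L.Structure M} {S' : L.Structure N} {X : Set M} {Y : Set N}
    (h : TameX S X) (hXY : ∀ γ < om1, BFR S S' X Y γ ∅) : TameX S' Y := by
  obtain ⟨P, T, Z, hZ, hXZ⟩ := h
  refine ⟨P, T, Z, hZ, fun γ hγ => ?_⟩
  have h1 : BFR S' S Y X γ ∅ := (hXY γ hγ).symm fun a ha => absurd ha (notMem_empty a)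
  exact h1.trans (hXZ γ hγ) fun a ha => absurd ha (notMem_empty a)

theorem tameX_of_countable {S : L.Structure M} {X : Set M} (h : X.Countable) : TameX S X :=
  ⟨M, S, X, h, fun γ _ => BFR.refl S X γ fun a ha => absurd ha (notMem_empty a)⟩

/-! ### closed sets for a piece -/

/-- `A` is closed of level `γ` in the piece `X`. -/
def Clo (S : L.Structure M) (X : Set M) (γ : Ordinal.{0}) (A : Set M) : Prop :=
  ∀ F : Finset M, (F : Set M) ⊆ A ∩ X → ∀ c ∈ X, ∃ d ∈ A ∩ X,
    BFR S S X X γ (insert (c, d) (dg (F : Set M)))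

theorem Clo.mono {S : L.Structure M} {X : Set M} {γ β : Ordinal.{0}} {A : Set M}
    (h : Clo S X γ A) (hβ : β ≤ γ) : Clo S X β A := by
  intro F hF c hc
  obtain ⟨d, hd, h'⟩ := h F hF c hc
  exact ⟨d, hd, h'.mono hβ⟩

/-- a closed set is equivalent to the piece -/
theorem Clo.rel {S : L.Structure M} {X : Set M} {γ₀ : Ordinal.{0}} {A : Set M}
    (hA : Clo S X γ₀ A) {S' : L.Structure N} {Y : Set N} (γ : Ordinal.{0}) : γ ≤ γ₀ →
    ∀ p : Set (N × M), p.Finite → (∀ a ∈ p, a.2 ∈ A ∩ X) → BFR S' S Y X γ p →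
      BFR S' S Y (A ∩ X) γ p := by
  classical
  induction γ using WellFoundedLT.induction with
  | _ γ ih =>
    intro hγ p hp hpA h
    rw [BFR.def]
    refine ⟨h.atEq, fun β hβ => ⟨fun c hc => ?_, fun y hy => ?_⟩⟩
    · obtain ⟨y, hyX, hy⟩ := h.forth hβ hc
      have hfin : (Prod.snd '' p).Finite := hp.image _
      obtain ⟨d, hd, hd'⟩ := hA hfin.toFinset (by
        rw [hfin.coe_toFinset]
        rintro _ ⟨a, ha, rfl⟩
        exact hpA a ha) y hyX
      refine ⟨d, hd, ih β hβ (hβ.le.trans hγ) _ (hp.insert _) ?_ ?_⟩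
      · rintro a (rfl | ha)
        · exact hd
        · exact hpA a ha
      · refine hy.trans (hd'.mono (hβ.le.trans hγ)) ?_
        rintro a (rfl | ha)
        · exact ⟨y, mem_insert _ _, mem_insert _ _⟩
        · refine ⟨a.2, mem_insert_of_mem _ ha, mem_insert_of_mem _ ⟨a.2, ?_, rfl⟩⟩
          rw [hfin.coe_toFinset]
          exact mem_image_of_mem _ ha
    · obtain ⟨x, hxY, hx⟩ := h.back hβ hy.2
      refine ⟨x, hxY, ih β hβ (hβ.le.trans hγ) _ (hp.insert _) ?_ hx⟩
      rintro a (rfl | ha)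
      · exact hy
      · exact hpA a ha

theorem Clo.bfr {S : L.Structure M} {X : Set M} {γ : Ordinal.{0}} {A : Set M}
    (hA : Clo S X γ A) {F : Set M} (hF : F.Finite) (hFA : F ⊆ A ∩ X) :
    BFR S S X (A ∩ X) γ (dg F) := by
  refine hA.rel γ le_rfl _ (hF.image _) ?_ (BFR.refl S X γ ?_)
  · rintro _ ⟨a, ha, rfl⟩
    exact hFA ha
  · rintro _ ⟨a, ha, rfl⟩
    exact ⟨(hFA ha).2, rfl⟩

/-- The piece has countably many types of every countable level over its finite subsets. -/
def Small (S : L.Structure M) (X : Set M) : Prop :=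
  ∀ γ < om1, ∀ F : Finset M, (F : Set M) ⊆ X → ∃ κ : M → ℕ, ∀ c ∈ X, ∀ c' ∈ X, κ c = κ c' →
    BFR S S X X γ (insert (c, c') (dg (F : Set M)))

end Pool.Agent.Helper97.LO

end

/-! ### formerly `Pool.Agent.Helper97.LO.Defs` -/

section

/-!
# Large structures of a scattered class, ordered sums, cross rules: definitions
-/

set_option autoImplicit false
set_option linter.unusedSectionVars false
set_option linter.unusedVariables false

namespace Pool.Agent.Helper97.LO

open Set Pool.Agent.Helper5.DU Pool.Agent.Helper6.Str Pool.Agent.Helper79.VC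
  Pool.Agent.Helper97.VC Pool.Agent.Helper97.MD

variable {L : FirstOrder.Language.{0, 0}} {M N P : Type}

/-- all relation symbols are unary or binary -/
def Ar2 (L : FirstOrder.Language.{0, 0}) : Prop := ∀ n, n ≠ 1 → n ≠ 2 → IsEmpty (L.Relations n)

/-- `S` is a (large) structure all of whose countable levels are those of members of `K`, where
`K` is Borel, scattered and closed under the equivalence of level `δ`. -/
structure VSt [∀ n, IsEmpty (L.Functions n)] (K : Set (L.Structure ℕ)) (δ : Ordinal.{0})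
    (S : L.Structure M) : Prop where
  meas : MeasurableSet {c : Code L | toStr c ∈ K}
  scat : Scat K
  lt : δ < om1
  om : Ordinal.omega0 + Ordinal.omega0 ≤ δ
  clos : ClosedLev K δ
  lev : Lev K S

/-- equivalence at all countable levels -/
abbrev BFI (S : L.Structure M) (S' : L.Structure N) (U : Set M) (V : Set N)
    (p : Set (M × N)) : Prop := ∀ γ < om1, BFR S S' U V γ p

/-- **Ordered sums.** The preorder is total and given by the binary symbol `r` (reversed if
`o = false`); the atomic facts about a pair of elements of different classes are determined by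
their order and their unary types. -/
structure OSt [Preorder M] (r : L.Relations 2) (o : Bool) (S : L.Structure M) : Prop where
  total : ∀ a b : M, a ≤ b ∨ b ≤ a
  le_iff : ∀ a b : M, a ≤ b ↔ (if o then S.RelMap r ![a, b] else S.RelMap r ![b, a])
  cross : ∀ a b a' b' : M, a < b → a' < b' → AtEq S S {(a, a')} → AtEq S S {(b, b')} →
    AtEq S S {(a, a'), (b, b')}

/-- The atomic facts about elements of different classes of `E` are determined by those in the
classes. -/
def CrossRule (S : L.Structure M) (E : M → M → Prop) : Prop :=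
  ∀ p : Set (M × M), (∀ a ∈ p, E a.1 a.2) → (∀ x, AtEq S S {a ∈ p | E x a.1}) → AtEq S S p

/-- the infinite primitive subsets are sparse up to a background type -/
def SparsePrim (S : L.Structure M) : Prop :=
  ∀ P : Set M, P.Infinite → IsPrim (bt S) P → ∃ b : Set (L.Relations 2), ¬ HasTK (gr S P b)

end Pool.Agent.Helper97.LO

end
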