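import Pool.Agent.VB.H

/-!
# Tools for Vaught's conjecture, part 14: monotone parts, levels

Merged file (to shorten the import chain): contents, unchanged, of
`Pool.Agent.MON.Defs`, `Pool.Agent.MON.DefsA`, `Pool.Agent.MON.DefsB`, `Pool.Agent.MON.CB`, `Pool.Agent.MON.CI`, `Pool.Agent.MON.CG`, `Pool.Agent.MON.CT`, `Pool.Agent.MON.LEVa`, `Pool.Agent.MON.LEV`, `Pool.Agent.MON.LEVc`, `Pool.Agent.MON.TC`.
-/

/-! ### formerly `Pool.Agent.MON.Defs` -/

section

/-!
# Cluster systems: definitions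

Paper proof: team-store MONC_paper.md.
-/

set_option autoImplicit false
set_option linter.unusedSectionVars false
set_option linter.unusedVariables false

namespace Pool.Agent.MON

open Set Pool.Agent.Helper5 Pool.Agent.Helper5.DU Pool.Agent.Helper6.Str
  Pool.Agent.Helper79.VC Pool.Agent.Helper97.VC Pool.Agent.Helper97.MD Pool.Agent.Helper6.VC
  Pool.Agent.Helper97.LO

open scoped Classical

variable {L : FirstOrder.Language.{0, 0}} {M N : Type}

/-- a family of binary symbols with names for the dual of a relation, for compositions, and for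
the order -/
structure Sig (L : FirstOrder.Language.{0, 0}) where
  ι : Type
  sy : ι → L.Relations 2
  st : ι → ι
  cp : ι → ι → ι
  le : ι

variable (σ : Sig L)

/-- the relation `R_i` -/
def Rl (S : L.Structure M) (i : σ.ι) (x y : M) : Prop := S.RelMap (σ.sy i) ![x, y]

/-- the cut `{y | ¬ R_i x y}` is strictly inside the cell of `u` over `F` -/
def In (S : L.Structure M) (F : Finset M) (i : σ.ι) (x u : M) : Prop :=
  ∀ w ∈ F, ∀ j, (¬ Rl σ S j w u → Rl σ S (σ.cp i (σ.st j)) x w) ∧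
    (Rl σ S j w u → Rl σ S (σ.cp j (σ.st i)) w x)

/-- same piece over `F` -/
def Pc (S : L.Structure M) (F : Finset M) (x u : M) : Prop := x = u ∨ ∃ i, In σ S F i x u

/-- the preorder over `F` -/
def Le (S : L.Structure M) (F : Finset M) (u x : M) : Prop :=
  u = x ∨ ∃ i, ¬ Rl σ S i x u ∧ In σ S F i x u

/-- the cluster of `x` over `F` -/
def Cl (S : L.Structure M) (F : Finset M) (x : M) : Set M := {u | Le σ S F u x ∧ Le σ S F x u}

/-- the piece of `x` over `F` -/
def Vp (S : L.Structure M) (F : Finset M) (x : M) : Set M := {u | Pc σ S F x u}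

/-- same cell over `F` -/
def Ce (S : L.Structure M) (F : Finset M) (u v : M) : Prop :=
  ∀ w ∈ F, ∀ i, Rl σ S i w u ↔ Rl σ S i w v

/-- **Cluster systems.** -/
structure Cx (S : L.Structure M) : Prop where
  star : ∀ i x y, Rl σ S (σ.st i) y x ↔ ¬ Rl σ S i x y
  full : ∀ a b a' b', AtEq S S {(a, a')} → AtEq S S {(b, b')} →
    (∀ i, Rl σ S i a b ↔ Rl σ S i a' b') → AtEq S S {(a, a'), (b, b')}
  irr : ∀ i w, ¬ Rl σ S (σ.cp i (σ.st i)) w w
  cell : ∀ F u v, Ce σ S F u v → Pc σ S F u v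
  symm : ∀ F i x u, In σ S F i x u → In σ S F (σ.st i) u x
  pctr : ∀ F x y z, Pc σ S F x y → Pc σ S F y z → Pc σ S F x z
  letr : ∀ F x y z, Le σ S F x y → Le σ S F y z → Le σ S F x z
  tot : ∀ F x y, Pc σ S F x y → Le σ S F x y ∨ Le σ S F y x
  cross : ∀ F u v u' v', Ce σ S F u u' → Ce σ S F v v' → ¬ Pc σ S F u v →
    ∀ i, Rl σ S i u v ↔ Rl σ S i u' v'
  cross' : ∀ F u v u' v', Ce σ S F u u' → Ce σ S F v v' → Le σ S F u v → ¬ Le σ S F v u →
    Le σ S F u' v' → ¬ Le σ S F v' u' → ∀ i, Rl σ S i u v ↔ Rl σ S i u' v'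
  blk : ∀ F x x' u u', Ce σ S F x x' → u ∈ Cl σ S F x → (∀ i, Rl σ S i x u ↔ Rl σ S i x' u') →
    u' ∈ Cl σ S F x' ∧ Ce σ S F u u'
  w1 : ∀ F z u u', u ∈ Cl σ S F z → Pc σ S {z} u u' → u' ∈ Cl σ S F z
  lam : ∀ F F' x u u', u ∈ Cl σ S F x → u' ∈ Cl σ S F' x → u ∈ Cl σ S F' x ∨ u' ∈ Cl σ S F x
  deep : ∀ F z y y' x' i x, y ∈ Cl σ S F z → y' ∈ Cl σ S F z → x' ∉ Cl σ S F z →
    In σ S {y} i x x' → In σ S {y'} i x x'
  deepc : ∀ F z y y' x x', y ∈ Cl σ S F z → y' ∈ Cl σ S F z → x ∉ Cl σ S F z →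
    x' ∉ Cl σ S F z → Ce σ S {y} x x' → Ce σ S {y'} x x'

/-- **Monotone relations.** The linear order and a family of monotone binary relations closed
under duals and compositions; the atomic facts about pairs are given by this family and by the
unary symbols. -/
structure Mon (S : L.Structure M) : Prop where
  refl : ∀ x, Rl σ S σ.le x x
  anti : ∀ x y, Rl σ S σ.le x y → Rl σ S σ.le y x → x = y
  trans : ∀ x y z, Rl σ S σ.le x y → Rl σ S σ.le y z → Rl σ S σ.le x z
  total : ∀ x y, Rl σ S σ.le x y ∨ Rl σ S σ.le y x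
  mono : ∀ i x' x y y', Rl σ S σ.le x' x → Rl σ S i x y → Rl σ S σ.le y y' → Rl σ S i x' y'
  star : ∀ i x y, Rl σ S (σ.st i) y x ↔ ¬ Rl σ S i x y
  comp : ∀ i j x y, Rl σ S (σ.cp i j) x y ↔ ∃ z, Rl σ S i x z ∧ Rl σ S j z y
  full : ∀ a b a' b', AtEq S S {(a, a')} → AtEq S S {(b, b')} →
    (∀ i, Rl σ S i a b ↔ Rl σ S i a' b') → AtEq S S {(a, a'), (b, b')}

/-! ### matched finite sets, levels, tame classes -/

/-- `F` and `F'` are matched by `p` -/
def Mt (p : Set (M × N)) (F : Finset M) (F' : Finset N) : Prop :=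
  (∀ x ∈ F, ∃ y ∈ F', (x, y) ∈ p) ∧ ∀ y ∈ F', ∃ x ∈ F, (x, y) ∈ p

/-- `α` is a Scott level of `X` with `y` named -/
def Sb (S : L.Structure M) (y : M) (X : Set M) (α : Ordinal.{0}) : Prop :=
  ∀ p : Set (M × M), p.Finite → (∀ a ∈ p, a.1 ∈ X ∧ a.2 ∈ X) →
    BFR S S X X α (insert (y, y) p) → BFI S S X X (insert (y, y) p)

/-- some ordinal below `κ` is a Scott level of `X` -/
def Lt (S : L.Structure M) (X : Set M) (κ : Ordinal.{0}) : Prop := ∃ α < κ, SL S X α

/-- the union of the tame clusters of `x` -/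
def Tm (S : L.Structure M) (x : M) : Set M := {u | ∃ F, TT S (Cl σ S F x) ∧ u ∈ Cl σ S F x}

/-- additively indecomposable countable ordinals above `ω` -/
structure Gd (ζ : Ordinal.{0}) : Prop where
  om : Ordinal.omega0 < ζ
  lt : ζ < om1
  add : ∀ a < ζ, ∀ b < ζ, a + b < ζ

/-- any two wild clusters inside the wild cluster `Cl G z₀` meet -/
structure Uq (S : L.Structure M) (G : Finset M) (z₀ : M) : Prop where
  wild : ¬ TT S (Cl σ S G z₀)
  meet : ∀ F F' x x', Cl σ S F x ⊆ Cl σ S G z₀ → Cl σ S F' x' ⊆ Cl σ S G z₀ →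
    ¬ TT S (Cl σ S F x) → ¬ TT S (Cl σ S F' x') → (Cl σ S F x ∩ Cl σ S F' x').Nonempty

end Pool.Agent.MON

end

/-! ### formerly `Pool.Agent.MON.DefsA` -/

section

/-!
# Case A: infinitely many disjoint wild clusters, bounded levels. Definitions
-/

set_option autoImplicit false
set_option linter.unusedSectionVars false
set_option linter.unusedVariables false

namespace Pool.Agent.MON

open Set Pool.Agent.Helper5 Pool.Agent.Helper5.DU Pool.Agent.Helper6.Str
  Pool.Agent.Helper79.VC Pool.Agent.Helper97.VC Pool.Agent.Helper97.MD Pool.Agent.Helper6.VC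
  Pool.Agent.Helper97.LO

variable {L : FirstOrder.Language.{0, 0}} {M N : Type} {σ : Sig L} {S : L.Structure M}

/-- disjoint wild clusters; their tame subclusters have level `a` -/
structure WA (σ : Sig L) (S : L.Structure M) (a : Ordinal.{0}) (F : ℕ → Finset M) (x : ℕ → M) :
    Prop where
  lt : a < om1
  wild : ∀ n, ¬ TT S (Cl σ S (F n) (x n))
  disj : ∀ m n, m ≠ n → Disjoint (Cl σ S (F m) (x m)) (Cl σ S (F n) (x n))
  bdd : ∀ n F' x', Cl σ S F' x' ⊆ Cl σ S (F n) (x n) → TT S (Cl σ S F' x') →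
    SL S (Cl σ S F' x') a

/-- closed countable sets and ordinals -/
structure CD (σ : Sig L) (S : L.Structure M) (δ a : Ordinal.{0}) (F : ℕ → Finset M) (x : ℕ → M)
    (A : ℕ → Set M) (lam : ℕ → Ordinal.{0}) : Prop where
  ctbl : ∀ n, (A n).Countable
  mono : ∀ n, A n ⊆ A (n + 1)
  gd : ∀ n, Gd (lam n)
  lt : ∀ n, lam n < lam (n + 1)
  a_lt : a < lam 0
  δ_lt : δ < lam 0
  parF : ∀ n, ((F n : Finset M) : Set M) ⊆ A 0
  parx : ∀ n, x n ∈ A 0
  clo : ∀ n, ∀ γ < lam n, Clo S univ γ (A n)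
  cloC : ∀ n, ∀ y ∈ A n, ∀ F', ∀ γ < lam n, Clo S (Cl σ S F' y) γ (A n)
  tame : ∀ n, ∀ y ∈ A n, ∀ F', TT S (Cl σ S F' y) → Lt S (Cl σ S F' y) (lam n)
  next : ∀ n, ∀ y ∈ A n, ∀ F', Lt S (Cl σ S F' y ∩ A n) (lam (n + 1))

/-- the number of the set in which the `j`-th cluster is taken -/
def sA (f : ℕ → Bool) (j : ℕ) : ℕ := if f j then j + 1 else 0

/-- the coding sets -/
def XA (σ : Sig L) (S : L.Structure M) (F : ℕ → Finset M) (x : ℕ → M) (A : ℕ → Set M)
    (f : ℕ → Bool) : Set M := A 0 ∪ ⋃ j, Cl σ S (F j) (x j) ∩ A (sA f j)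

/-- decoding -/
def DA (σ : Sig L) (S : L.Structure M) (lam : ℕ → Ordinal.{0}) (k : ℕ) (X : Set M) : Prop :=
  ∃ (F : Finset M) (y : M), (F : Set M) ⊆ X ∧ y ∈ X ∧ ¬ Lt S (Cl σ S F y ∩ X) (lam 0) ∧
    ∀ (F' : Finset M) (y' : M), (F' : Set M) ⊆ X → y' ∈ X →
      Cl σ S F' y' ∩ X ⊆ Cl σ S F y ∩ X →
      Lt S (Cl σ S F' y' ∩ X) (lam 0) ∨
        (¬ Lt S (Cl σ S F' y' ∩ X) (lam (k + 1)) ∧ Lt S (Cl σ S F' y' ∩ X) (lam (k + 2)))

end Pool.Agent.MON

end

/-! ### formerly `Pool.Agent.MON.DefsB` -/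

section

/-!
# Case B: unbounded levels. Definitions

`A` is a countable closed set, `R₀ ⊆ A` a set of base points in different maximal tame classes. The tame
cluster `Cl (F x) x` of a base point `x` may be replaced by the tame cluster `Cl (F' x) (t x)` of a higher level. For a set
`R ⊆ R₀` the structure `nrS` lives on `NR`: the elements of `A` outside the replaced clusters (index
`none`), and for `x ∈ R` the elements of `A ∩ Cl (F' x) (t x)` (index `some x`). `u x c` is an element of the old cluster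
which has the same atomic type over `x` as `c` over `t x`; relations between elements of different index are
those of their images under `th`.
-/

set_option autoImplicit false
set_option linter.unusedSectionVars false
set_option linter.unusedVariables false

namespace Pool.Agent.MON

open Set Pool.Agent.Helper5 Pool.Agent.Helper5.DU Pool.Agent.Helper6.Str
  Pool.Agent.Helper79.VC Pool.Agent.Helper97.VC Pool.Agent.Helper97.MD Pool.Agent.Helper6.VC
  Pool.Agent.Helper97.LO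

open scoped Classical

variable {L : FirstOrder.Language.{0, 0}} {M N : Type} {σ : Sig L} {S : L.Structure M}

/-- data of the replacement -/
structure RD (M : Type) where
  A : Set M
  R₀ : Set M
  F : M → Finset M
  F' : M → Finset M
  t : M → M
  u : M → M → M

/-- properties of the data -/
structure RD.Ok (D : RD M) (σ : Sig L) (S : L.Structure M) (b lam : Ordinal.{0}) : Prop where
  ctbl : D.A.Countable
  gd : Gd lam
  omb : Ordinal.omega0 ≤ b
  blt : b < lam
  sub : D.R₀ ⊆ D.A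
  sep : ∀ x ∈ D.R₀, ∀ y ∈ D.R₀, x ≠ y → y ∉ Tm σ S x
  tt : ∀ x ∈ D.R₀, TT S (Cl σ S (D.F x) x)
  nin : ∀ x ∈ D.R₀, x ∉ D.F x
  parF : ∀ x ∈ D.R₀, (D.F x : Set M) ⊆ D.A
  part : ∀ x ∈ D.R₀, D.t x ∈ D.A
  lt' : ∀ x ∈ D.R₀, Lt S (Cl σ S (D.F' x) (D.t x)) lam
  bfr : ∀ x ∈ D.R₀, ∃ p : Set (M × M), Mt p (D.F' x) (D.F x) ∧ (D.t x, x) ∈ p ∧
    BFR S S univ univ b p
  ux : ∀ x ∈ D.R₀, D.u x (D.t x) = x
  um : ∀ x ∈ D.R₀, ∀ c ∈ D.A, c ∈ Cl σ S (D.F' x) (D.t x) → D.u x c ∈ D.A ∧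
    D.u x c ∈ Cl σ S (D.F x) x ∧ AtEq S S {(D.t x, x), (c, D.u x c)}
  us : ∀ x ∈ D.R₀, ∀ w ∈ D.A, w ∈ Cl σ S (D.F x) x → ∃ c ∈ D.A,
    c ∈ Cl σ S (D.F' x) (D.t x) ∧ AtEq S S {(D.t x, x), (c, w)}
  clo : ∀ γ < lam, Clo S univ γ D.A
  cloC : ∀ y ∈ D.A, ∀ F, ∀ γ < lam, Clo S (Cl σ S F y) γ D.A
  cloT : ∀ y ∈ D.A, ∀ γ < lam, Clo S (Tm σ S y) γ D.A
  par : ∀ y ∈ D.A, ∀ F, ∃ F₁ : Finset M, (F₁ : Set M) ⊆ D.A ∧ Cl σ S F₁ y = Cl σ S F y
  tame : ∀ y ∈ D.A, ∀ F, TT S (Cl σ S F y) → Lt S (Cl σ S F y) lam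
  wild : ∀ y ∈ D.A, ∀ F, ¬ TT S (Cl σ S F y) → ∀ ξ < lam, ∃ F₁ y₁, y₁ ∈ D.A ∧
    Cl σ S F₁ y₁ ⊆ Cl σ S F y ∧ TT S (Cl σ S F₁ y₁) ∧ ¬ SL S (Cl σ S F₁ y₁) ξ

/-- the thresholds -/
structure RD.Th (D : RD M) (σ : Sig L) (S : L.Structure M) (lam om' : Ordinal.{0})
    (ζ : ℕ → Ordinal.{0}) (idx : M → ℕ) : Prop where
  gd : ∀ n, Gd (ζ n)
  mono : ∀ n, ζ n < ζ (n + 1)
  le : ∀ n, ζ n ≤ om'
  gd' : Gd om'
  lt : om' < lam
  new : ∀ x ∈ D.R₀, ¬ Lt S (Cl σ S (D.F' x) (D.t x)) om'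
  lev : ∀ x ∈ D.R₀, ¬ Lt S (Tm σ S x) (ζ (idx x)) ∧ Lt S (Tm σ S x) (ζ (idx x + 1))
  all : ∀ y ∈ D.A, ∀ n, ¬ Lt S (Tm σ S y) (ζ n) → Lt S (Tm σ S y) (ζ (n + 1)) →
    ∃ x ∈ D.R₀, y ∈ Tm σ S x ∧ idx x = n
  ex : ∀ n, ∃ y ∈ D.A, ¬ Lt S (Tm σ S y) (ζ n) ∧ Lt S (Tm σ S y) (ζ (n + 1))

/-- the new universe -/
def NR (D : RD M) (σ : Sig L) (S : L.Structure M) (R : Set M) : Type :=
  {c : Option M × M // (c.1 = none ∧ c.2 ∈ D.A ∧ ∀ x ∈ R, c.2 ∉ Cl σ S (D.F x) x) ∨
    ∃ x ∈ R, c.1 = some x ∧ c.2 ∈ D.A ∧ c.2 ∈ Cl σ S (D.F' x) (D.t x)}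

/-- the index of an element of the new universe -/
def ix {D : RD M} {R : Set M} (c : NR D σ S R) : Option M := c.1.1

/-- the element of `M` -/
def el {D : RD M} {R : Set M} (c : NR D σ S R) : M := c.1.2

/-- the place of an element of the new universe in the old structure -/
def th {D : RD M} {R : Set M} (c : NR D σ S R) : M :=
  match c.1.1 with
  | none => c.1.2
  | some x => D.u x c.1.2

/-- the new structure -/
noncomputable def nrS [∀ n, IsEmpty (L.Functions n)] (D : RD M) (σ : Sig L)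
    (S : L.Structure M) (R : Set M) : L.Structure (NR D σ S R) where
  funMap {n} f _ := isEmptyElim f
  RelMap {n} r v := if ∀ i j, ix (v i) = ix (v j) then S.RelMap r (fun i => el (v i))
    else S.RelMap r (fun i => th (v i))

/-- the union of the clusters of `y` with levels below `lam` -/
def Tl (σ : Sig L) (S : L.Structure M) (lam : Ordinal.{0}) (y : M) : Set M :=
  {v | ∃ F, Lt S (Cl σ S F y) lam ∧ v ∈ Cl σ S F y}

/-- decoding -/
def QB (σ : Sig L) (S : L.Structure M) (lam : Ordinal.{0}) (ζ : ℕ → Ordinal.{0}) (n : ℕ) : Prop :=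
  ∃ y, ¬ Lt S (Tl σ S lam y) (ζ n) ∧ Lt S (Tl σ S lam y) (ζ (n + 1))

/-- the replaced base points -/
def Rf (D : RD M) (idx : M → ℕ) (f : ℕ → Bool) : Set M := {x ∈ D.R₀ | f (idx x) = false}

/-- base points for `nr_cl`: elements of index `none`, and the base points of the new clusters -/
def Bp {D : RD M} {R : Set M} (y : NR D σ S R) : Prop :=
  ix y = none ∨ ∃ x, ix y = some x ∧ el y = D.t x

/-- the finite set contains no element of the index of `y`, if this is not `none` -/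
def Fr {D : RD M} {R : Set M} (G : Finset (NR D σ S R)) (y : NR D σ S R) : Prop :=
  ix y ≠ none → ∀ w ∈ G, ix w ≠ ix y

end Pool.Agent.MON

end

/-! ### formerly `Pool.Agent.MON.CB` -/

section

/-!
# MON, module CB: first properties of cluster systems
-/

set_option autoImplicit false
set_option linter.unusedSectionVars false
set_option linter.unusedVariables false

namespace Pool.Agent.MON

open Set Pool.Agent.Helper5 Pool.Agent.Helper5.DU Pool.Agent.Helper6.Str
  Pool.Agent.Helper79.VC Pool.Agent.Helper97.VC Pool.Agent.Helper97.MD Pool.Agent.Helper6.VC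
  Pool.Agent.Helper97.LO

variable {L : FirstOrder.Language.{0, 0}} {M N : Type} {σ : Sig L} {S : L.Structure M}
  {F F' G : Finset M} {u u' v w x x' y z : M}

theorem Le.refl (x : M) : Le σ S F x x := Or.inl rfl

theorem cl_refl (x : M) : x ∈ Cl σ S F x := ⟨Or.inl rfl, Or.inl rfl⟩

theorem vp_refl (x : M) : x ∈ Vp σ S F x := Or.inl rfl

theorem Ce.refl (x : M) : Ce σ S F x x := fun _ _ _ => Iff.rfl

theorem Ce.symm (h : Ce σ S F u v) : Ce σ S F v u := fun a ha i => (h a ha i).symm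

theorem Ce.trans (h : Ce σ S F u v) (h' : Ce σ S F v w) : Ce σ S F u w :=
  fun a ha i => (h a ha i).trans (h' a ha i)

theorem Ce.mono (hF : F ⊆ F') (h : Ce σ S F' u v) : Ce σ S F u v := fun a ha => h a (hF ha)

theorem In.mono {i : σ.ι} (hF : F ⊆ F') (h : In σ S F' i x u) : In σ S F i x u :=
  fun a ha => h a (hF ha)

theorem Le.mono (hF : F ⊆ F') (h : Le σ S F' u x) : Le σ S F u x := by
  rcases h with h | ⟨i, h1, h2⟩
  · exact Or.inl h
  · exact Or.inr ⟨i, h1, h2.mono hF⟩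

theorem Pc.mono (hF : F ⊆ F') (h : Pc σ S F' u x) : Pc σ S F u x := by
  rcases h with h | ⟨i, h1⟩
  · exact Or.inl h
  · exact Or.inr ⟨i, h1.mono hF⟩

theorem cl_anti (hF : F ⊆ F') : Cl σ S F' x ⊆ Cl σ S F x :=
  fun u hu => ⟨hu.1.mono hF, hu.2.mono hF⟩

theorem vp_anti (hF : F ⊆ F') : Vp σ S F' x ⊆ Vp σ S F x := fun u hu => Pc.mono hF hu

theorem cl_symm (h : u ∈ Cl σ S F x) : x ∈ Cl σ S F u := ⟨h.2, h.1⟩

theorem mem_cl_iff : u ∈ Cl σ S F x ↔ Le σ S F u x ∧ Le σ S F x u := Iff.rfl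

namespace Cx

variable (hC : Cx σ S)

include hC

theorem pcsymm (h : Pc σ S F x y) : Pc σ S F y x := by
  rcases h with h | ⟨i, hi⟩
  · exact Or.inl h.symm
  · exact Or.inr ⟨_, hC.symm F i x y hi⟩

theorem pc_of_le (h : Le σ S F u x) : Pc σ S F x u := by
  rcases h with h | ⟨i, -, hi⟩
  · exact Or.inl h.symm
  · exact Or.inr ⟨i, hi⟩

theorem cl_trans (h : u ∈ Cl σ S F x) (h' : v ∈ Cl σ S F u) : v ∈ Cl σ S F x :=
  ⟨hC.letr F _ _ _ h'.1 h.1, hC.letr F _ _ _ h.2 h'.2⟩

theorem cl_eq (h : u ∈ Cl σ S F x) : Cl σ S F u = Cl σ S F x :=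
  Subset.antisymm (fun _ hv => hC.cl_trans h hv) fun _ hv => hC.cl_trans (cl_symm h) hv

theorem vp_symm (h : u ∈ Vp σ S F x) : x ∈ Vp σ S F u := hC.pcsymm h

theorem vp_trans (h : u ∈ Vp σ S F x) (h' : v ∈ Vp σ S F u) : v ∈ Vp σ S F x :=
  hC.pctr F _ _ _ h h'

theorem vp_eq (h : u ∈ Vp σ S F x) : Vp σ S F u = Vp σ S F x :=
  Subset.antisymm (fun _ hv => hC.vp_trans h hv) fun _ hv => hC.vp_trans (hC.vp_symm h) hv

theorem cl_sub_vp : Cl σ S F x ⊆ Vp σ S F x := fun _ hu => hC.pc_of_le hu.1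

theorem cl_sub_vp' (h : u ∈ Vp σ S F x) : Cl σ S F u ⊆ Vp σ S F x := by
  rw [← hC.vp_eq h]
  exact hC.cl_sub_vp

theorem ce_mem_vp (h : Ce σ S F u v) : v ∈ Vp σ S F u := hC.cell F u v h

theorem not_in {i : σ.ι} (hw : w ∈ F) : ¬ In σ S F i w u := by
  intro h
  obtain ⟨h1, h2⟩ := h w hw i
  by_cases h3 : Rl σ S i w u
  · exact hC.irr i w (h2 h3)
  · exact hC.irr i w (h1 h3)

theorem not_mem_vp (hw : w ∈ F) (hne : w ≠ x) : w ∉ Vp σ S F x := by
  intro h
  rcases hC.pcsymm h with h1 | ⟨i, hi⟩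
  · exact hne h1
  · exact hC.not_in hw hi

theorem not_mem_cl (hw : w ∈ F) (hne : w ≠ x) : w ∉ Cl σ S F x := fun h =>
  hC.not_mem_vp hw hne (hC.cl_sub_vp h)

theorem cl_of_mem (hw : w ∈ F) : Cl σ S F w = {w} := by
  ext u
  rw [mem_singleton_iff]
  constructor
  · intro hu
    by_contra hne
    rcases hC.pc_of_le hu.1 with h1 | ⟨i, hi⟩
    · exact hne h1.symm
    · exact hC.not_in hw hi
  · rintro rfl
    exact cl_refl u

theorem star' (i : σ.ι) (x y : M) : Rl σ S i x y ↔ ¬ Rl σ S (σ.st i) y x := by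
  rw [hC.star]
  exact not_not.symm

/-- `Rl i · v` for all `i` from `Rl i v ·` for all `i` -/
theorem flip (h : ∀ i, Rl σ S i u v ↔ Rl σ S i u' v) (i : σ.ι) :
    Rl σ S i v u ↔ Rl σ S i v u' := by
  rw [hC.star' i v u, hC.star' i v u', h]

/-- elements outside a cluster do not separate elements of one cell of the cluster -/
theorem auto (hu : u ∈ Cl σ S F z) (hu' : u' ∈ Cl σ S F z) (hc : Ce σ S F u u')
    (hv : v ∉ Cl σ S F z) (i : σ.ι) :
    (Rl σ S i u v ↔ Rl σ S i u' v) ∧ (Rl σ S i v u ↔ Rl σ S i v u') := by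
  have key : ∀ j, Rl σ S j u v ↔ Rl σ S j u' v := by
    by_cases hp : Pc σ S F u v
    · rcases hC.tot F u v hp with h1 | h1
      · have h2 : ¬ Le σ S F v u := fun h3 =>
          hv ⟨hC.letr F _ _ _ h3 hu.1, hC.letr F _ _ _ hu.2 h1⟩
        have h1' : Le σ S F u' v :=
          hC.letr F _ _ _ (hC.letr F _ _ _ hu'.1 hu.2) h1
        have h2' : ¬ Le σ S F v u' := fun h3 =>
          hv ⟨hC.letr F _ _ _ h3 hu'.1, hC.letr F _ _ _ hu.2 h1⟩
        exact hC.cross' F u v u' v hc (Ce.refl v) h1 h2 h1' h2'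
      · have h2 : ¬ Le σ S F u v := fun h3 =>
          hv ⟨hC.letr F _ _ _ h1 hu.1, hC.letr F _ _ _ hu.2 h3⟩
        have h1' : Le σ S F v u' :=
          hC.letr F _ _ _ h1 (hC.letr F _ _ _ hu.1 hu'.2)
        have h2' : ¬ Le σ S F u' v := fun h3 =>
          hv ⟨hC.letr F _ _ _ h1 hu.1, hC.letr F _ _ _ hu'.2 h3⟩
        intro j
        have h4 := hC.cross' F v u v u' (Ce.refl v) hc h1 h2 h1' h2' (σ.st j)
        rw [hC.star' j u v, hC.star' j u' v, h4]
    · exact hC.cross F u v u' v hc (Ce.refl v) hp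
  exact ⟨key i, hC.flip key i⟩

/-- elements outside a piece do not separate elements of one cell of the piece -/
theorem autoV (hc : Ce σ S F u u') (hv : v ∉ Vp σ S F u) (i : σ.ι) :
    (Rl σ S i u v ↔ Rl σ S i u' v) ∧ (Rl σ S i v u ↔ Rl σ S i v u') := by
  have key : ∀ j, Rl σ S j u v ↔ Rl σ S j u' v := hC.cross F u v u' v hc (Ce.refl v) hv
  exact ⟨key i, hC.flip key i⟩

/-- clusters are nested -/
theorem nest (h : z ∈ Cl σ S F x) (h' : z ∈ Cl σ S F' x') :
    Cl σ S F x ⊆ Cl σ S F' x' ∨ Cl σ S F' x' ⊆ Cl σ S F x := by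
  rw [← hC.cl_eq h, ← hC.cl_eq h']
  by_contra hcon
  rw [not_or, not_subset, not_subset] at hcon
  obtain ⟨⟨u, hu, hu'⟩, ⟨v, hv, hv'⟩⟩ := hcon
  rcases hC.lam F F' z u v hu hv with h1 | h1
  · exact hu' h1
  · exact hv' h1

theorem w1' (hz : z ∈ G) (hzx : z ∈ Cl σ S F x) (hu : u ∈ Cl σ S F x) (hp : u' ∈ Vp σ S G u) :
    u' ∈ Cl σ S F x := by
  rw [← hC.cl_eq hzx] at hu ⊢
  exact hC.w1 F z u u' hu (Pc.mono (Finset.singleton_subset_iff.mpr hz) hp)

/-- the atomic type over `x` decides membership in the clusters of `x`, and the cell -/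
theorem blk' (hu : u ∈ Cl σ S F x) (hr : ∀ i, Rl σ S i x u ↔ Rl σ S i x u') :
    u' ∈ Cl σ S F x ∧ Ce σ S F u u' := hC.blk F x x u u' (Ce.refl x) hu hr

end Cx

end Pool.Agent.MON

end

/-! ### formerly `Pool.Agent.MON.CI` -/

section

/-!
# MON, module CI: everything depends on atomic types only
-/

set_option autoImplicit false
set_option linter.unusedSectionVars false
set_option linter.unusedVariables false

namespace Pool.Agent.MON

open Set Pool.Agent.Helper5 Pool.Agent.Helper5.DU Pool.Agent.Helper6.Str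
  Pool.Agent.Helper79.VC Pool.Agent.Helper97.VC Pool.Agent.Helper97.MD Pool.Agent.Helper6.VC
  Pool.Agent.Helper97.LO

variable {L : FirstOrder.Language.{0, 0}} {M N : Type} {σ : Sig L} {S : L.Structure M}
  {S' : L.Structure N} {p q : Set (M × N)} {F : Finset M} {F' : Finset N} {x u v : M} {x' u' v' : N}

theorem Mt.mono (hpq : p ⊆ q) (h : Mt p F F') : Mt q F F' :=
  ⟨fun x hx => (h.1 x hx).imp fun _ hy => ⟨hy.1, hpq hy.2⟩,
    fun y hy => (h.2 y hy).imp fun _ hx => ⟨hx.1, hpq hx.2⟩⟩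

theorem Mt.dg {p : Set (M × M)} {F : Finset M} (h : dg (F : Set M) ⊆ p) : Mt p F F :=
  ⟨fun x hx => ⟨x, hx, h ⟨x, hx, rfl⟩⟩, fun x hx => ⟨x, hx, h ⟨x, hx, rfl⟩⟩⟩

theorem Mt.empty : Mt p ∅ ∅ := ⟨fun _ h => absurd h (Finset.notMem_empty _),
  fun _ h => absurd h (Finset.notMem_empty _)⟩

theorem rl_congr (hp : AtEq S S' p) (hx : (x, x') ∈ p) (hu : (u, u') ∈ p) (i : σ.ι) :
    Rl σ S i x u ↔ Rl σ S' i x' u' := by
  have h := hp.2 2 (σ.sy i) (fun k => if k = 0 then (x, x') else (u, u')) (by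
    intro k
    by_cases hk : k = 0
    · simp [hk, hx]
    · simp [hk, hu])
  have e1 : (fun k : Fin 2 => (if k = 0 then (x, x') else (u, u')).1) = ![x, u] := by
    funext k
    fin_cases k <;> rfl
  have e2 : (fun k : Fin 2 => (if k = 0 then (x, x') else (u, u')).2) = ![x', u'] := by
    funext k
    fin_cases k <;> rfl
  rw [e1, e2] at h
  exact h

theorem in_congr (hp : AtEq S S' p) (hF : Mt p F F') (hx : (x, x') ∈ p) (hu : (u, u') ∈ p)
    (i : σ.ι) : In σ S F i x u ↔ In σ S' F' i x' u' := by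
  constructor
  · intro h w' hw' j
    obtain ⟨w, hw, hww⟩ := hF.2 w' hw'
    obtain ⟨h1, h2⟩ := h w hw j
    rw [← rl_congr hp hww hu, ← rl_congr hp hx hww, ← rl_congr hp hww hx]
    exact ⟨h1, h2⟩
  · intro h w hw j
    obtain ⟨w', hw', hww⟩ := hF.1 w hw
    obtain ⟨h1, h2⟩ := h w' hw' j
    rw [rl_congr hp hww hu, rl_congr hp hx hww, rl_congr hp hww hx]
    exact ⟨h1, h2⟩

theorem pc_congr (hp : AtEq S S' p) (hF : Mt p F F') (hx : (x, x') ∈ p) (hu : (u, u') ∈ p) :
    Pc σ S F x u ↔ Pc σ S' F' x' u' := by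
  unfold Pc
  rw [hp.1 _ hx _ hu]
  simp only [in_congr hp hF hx hu]

theorem le_congr (hp : AtEq S S' p) (hF : Mt p F F') (hx : (x, x') ∈ p) (hu : (u, u') ∈ p) :
    Le σ S F u x ↔ Le σ S' F' u' x' := by
  unfold Le
  rw [hp.1 _ hu _ hx]
  simp only [in_congr hp hF hx hu, rl_congr hp hx hu]

theorem cl_congr (hp : AtEq S S' p) (hF : Mt p F F') (hx : (x, x') ∈ p) (hu : (u, u') ∈ p) :
    u ∈ Cl σ S F x ↔ u' ∈ Cl σ S' F' x' := by
  rw [mem_cl_iff, mem_cl_iff, le_congr hp hF hx hu, le_congr hp hF hu hx]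

theorem vp_congr (hp : AtEq S S' p) (hF : Mt p F F') (hx : (x, x') ∈ p) (hu : (u, u') ∈ p) :
    u ∈ Vp σ S F x ↔ u' ∈ Vp σ S' F' x' := pc_congr hp hF hx hu

theorem ce_congr (hp : AtEq S S' p) (hF : Mt p F F') (hu : (u, u') ∈ p) (hv : (v, v') ∈ p) :
    Ce σ S F u v ↔ Ce σ S' F' u' v' := by
  constructor
  · intro h w' hw' i
    obtain ⟨w, hw, hww⟩ := hF.2 w' hw'
    rw [← rl_congr hp hww hu, ← rl_congr hp hww hv]
    exact h w hw i
  · intro h w hw i
    obtain ⟨w', hw', hww⟩ := hF.1 w hw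
    rw [rl_congr hp hww hu, rl_congr hp hww hv]
    exact h w' hw' i

/-- maps which map the base point into its own block preserve the cluster, and elements
of the cluster stay in their cells -/
theorem Cx.base {S : L.Structure M} (hC : Cx σ S) {p : Set (M × M)} (hp : AtEq S S p)
    {x x' u u' : M} {F : Finset M} (hx : (x, x') ∈ p) (hxx : x' ∈ Cl σ S F x)
    (hce : Ce σ S F x x') (hu : (u, u') ∈ p) :
    (u ∈ Cl σ S F x ↔ u' ∈ Cl σ S F x) ∧ (u ∈ Cl σ S F x → Ce σ S F u u') := by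
  have e := hC.cl_eq hxx
  have hr : ∀ i, Rl σ S i x u ↔ Rl σ S i x' u' := rl_congr hp hx hu
  refine ⟨⟨fun h => ?_, fun h => ?_⟩, fun h => (hC.blk F x x' u u' hce h hr).2⟩
  · rw [← e]
    exact (hC.blk F x x' u u' hce h hr).1
  · rw [← e] at h
    exact (hC.blk F x' x u' u hce.symm h fun i => (hr i).symm).1

/-- the same with the identity at the base point -/
theorem Cx.base' {S : L.Structure M} (hC : Cx σ S) {p : Set (M × M)} (hp : AtEq S S p)
    {x u u' : M} {F : Finset M} (hx : (x, x) ∈ p) (hu : (u, u') ∈ p) :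
    (u ∈ Cl σ S F x ↔ u' ∈ Cl σ S F x) ∧ (u ∈ Cl σ S F x → Ce σ S F u u') :=
  hC.base hp hx (cl_refl x) (Ce.refl x) hu

end Pool.Agent.MON

end

/-! ### formerly `Pool.Agent.MON.CG` -/

section

/-!
# MON, module CG: gluing and restricting

`glue`: copy the proof of `BFR.comp_index` (Helper97/LO/Core.lean), with the named pairs added.
`glueC`: `glue` with `π a = (a ∈ Cl σ S F x₀ : Prop)` (index type `Prop` or `Bool`) and
`q i = r = {(x₀, x₀')}`; the hypothesis `H`: a pair `a ∈ p` inside the cluster, `b ∈ p` outside: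
by `Cx.base` `a.2` is in the cell of `a.1`; so `Rl i a.1 b.1 ↔ Rl i a.2 b.1` by `Cx.auto`; and
`Rl i a.2 b.1 ↔ Rl i a.2 b.2` because `b.1` and `b.2` have the same atomic type over `x₀, x₀'`:
`Rl i x₀ b.1 ↔ Rl i x₀' b.2 ↔ Rl i x₀ b.2` (the last one by `Cx.auto` for `x₀, x₀'`), so
`Ce {x₀} b.1 b.2` and `Ce {a.2} b.1 b.2` by `Cx.deepc`. Then `Cx.full` and `atEq_of_pairs`.
`idOut`: for outside elements `g, h` nothing changes; `Rl i x₀ g ↔ Rl i x₀' g` by `Cx.auto`. `extC`: `glueC` and `idOut`.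
`resC`, `resC1`: `BFR.restr` (or `BFR.restr₀`) with `Cx.base'`, resp. `cl_congr`.
-/

set_option autoImplicit false
set_option linter.unusedSectionVars false
set_option linter.unusedVariables false

namespace Pool.Agent.MON

open Set Pool.Agent.Helper5 Pool.Agent.Helper5.DU Pool.Agent.Helper6.Str
  Pool.Agent.Helper79.VC Pool.Agent.Helper97.VC Pool.Agent.Helper97.MD Pool.Agent.Helper6.VC
  Pool.Agent.Helper97.LO

variable {L : FirstOrder.Language.{0, 0}} {M N : Type} {σ : Sig L} {S : L.Structure M}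
  {S' : L.Structure N}

/-- `q i` is the set of named pairs for the part number `i`, `r` the set of named pairs of the
whole -/
theorem glue {I : Type} (π : M → I) (π' : N → I) {U : Set M} {V : Set N} {q : I → Set (M × N)}
    {r : Set (M × N)}
    (H : ∀ p : Set (M × N), (∀ a ∈ p, π a.1 = π' a.2) →
      (∀ i, AtEq S S' (q i ∪ {a ∈ p | π a.1 = i})) → AtEq S S' (r ∪ p)) (γ : Ordinal.{0}) :
    ∀ {p : Set (M × N)}, (∀ a ∈ p, π a.1 = π' a.2) →
      (∀ i, BFR S S' {a ∈ U | π a = i} {b ∈ V | π' b = i} γ (q i ∪ {a ∈ p | π a.1 = i})) →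
      BFR S S' U V γ (r ∪ p) := by
  induction γ using WellFoundedLT.induction with
  | _ γ ih =>
    intro p hp h
    rw [BFR.def]
    refine ⟨H p hp fun i => (h i).atEq, fun β hβ => ⟨fun x hx => ?_, fun y hy => ?_⟩⟩
    · obtain ⟨y, ⟨hyV, hyπ⟩, hy⟩ := (h (π x)).forth hβ (x := x) ⟨hx, rfl⟩
      refine ⟨y, hyV, ?_⟩
      rw [← union_insert]
      refine ih β hβ ?_ fun i => ?_
      · rintro a (rfl | ha)
        · exact hyπ.symm
        · exact hp a ha
      · by_cases hi : π x = i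
        · subst hi
          refine BFR.anti ?_ hy
          rintro a (ha | ⟨rfl | ha, hai⟩)
          · exact mem_insert_of_mem _ (Or.inl ha)
          · exact mem_insert _ _
          · exact mem_insert_of_mem _ (Or.inr ⟨ha, hai⟩)
        · refine BFR.anti ?_ ((h i).mono hβ.le)
          rintro a (ha | ⟨rfl | ha, hai⟩)
          · exact Or.inl ha
          · exact absurd hai hi
          · exact Or.inr ⟨ha, hai⟩
    · obtain ⟨x, ⟨hxU, hxπ⟩, hx⟩ := (h (π' y)).back hβ (y := y) ⟨hy, rfl⟩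
      refine ⟨x, hxU, ?_⟩
      rw [← union_insert]
      refine ih β hβ ?_ fun i => ?_
      · rintro a (rfl | ha)
        · exact hxπ
        · exact hp a ha
      · by_cases hi : π' y = i
        · subst hi
          refine BFR.anti ?_ hx
          rintro a (ha | ⟨rfl | ha, hai⟩)
          · exact mem_insert_of_mem _ (Or.inl ha)
          · exact mem_insert _ _
          · exact mem_insert_of_mem _ (Or.inr ⟨ha, hai⟩)
        · refine BFR.anti ?_ ((h i).mono hβ.le)
          rintro a (ha | ⟨rfl | ha, hai⟩)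
          · exact Or.inl ha
          · exact absurd (hxπ.symm.trans hai) hi
          · exact Or.inr ⟨ha, hai⟩

/-- atomic equivalence from the two parts of a cluster -/
theorem cg_at (hL : Ar2 L) (hC : Cx σ S) {F : Finset M} {x₀ x₀' : M}
    (hx : x₀' ∈ Cl σ S F x₀) (hce : Ce σ S F x₀ x₀') {p : Set (M × M)}
    (hp : ∀ a ∈ p, a.1 ∈ Cl σ S F x₀ ↔ a.2 ∈ Cl σ S F x₀)
    (h1 : AtEq S S (insert (x₀, x₀') {a ∈ p | a.1 ∈ Cl σ S F x₀}))
    (h2 : AtEq S S (insert (x₀, x₀') {a ∈ p | a.1 ∉ Cl σ S F x₀})) :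
    AtEq S S (insert (x₀, x₀') p) := by
  -- the main case
  have main : ∀ a ∈ p, ∀ b ∈ p, a.1 ∈ Cl σ S F x₀ → b.1 ∉ Cl σ S F x₀ → AtEq S S {a, b} := by
    intro a ha b hb ha1 hb1
    have ha2 : a.2 ∈ Cl σ S F x₀ := (hp a ha).1 ha1
    have hb2 : b.2 ∉ Cl σ S F x₀ := fun h => hb1 ((hp b hb).2 h)
    have hma : (a.1, a.2) ∈ insert (x₀, x₀') {a ∈ p | a.1 ∈ Cl σ S F x₀} :=
      mem_insert_of_mem _ ⟨ha, ha1⟩
    have hmb : (b.1, b.2) ∈ insert (x₀, x₀') {a ∈ p | a.1 ∉ Cl σ S F x₀} :=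
      mem_insert_of_mem _ ⟨hb, hb1⟩
    have hca : Ce σ S F a.1 a.2 := (hC.base h1 (mem_insert _ _) hx hce hma).2 ha1
    have hcb : Ce σ S {x₀} b.1 b.2 := by
      intro w hw i
      rw [Finset.mem_singleton] at hw
      subst hw
      rw [rl_congr h2 (mem_insert _ _) hmb i]
      exact (hC.auto hx (cl_refl _) hce.symm hb2 i).1
    have hcb' : Ce σ S {a.2} b.1 b.2 := hC.deepc F x₀ x₀ a.2 b.1 b.2 (cl_refl _) ha2 hb1 hb2 hcb
    have h3 := hC.full a.1 b.1 a.2 b.2 (h1.anti (singleton_subset_iff.2 hma))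
      (h2.anti (singleton_subset_iff.2 hmb)) (fun i => by
        rw [(hC.auto ha1 ha2 hca hb1 i).1]
        exact hcb' a.2 (Finset.mem_singleton_self _) i)
    exact h3
  refine atEq_of_pairs hL fun a ha b hb => ?_
  by_cases ha1 : a.1 ∈ Cl σ S F x₀
  · by_cases hb1 : b.1 ∈ Cl σ S F x₀
    · refine h1.anti ?_
      rintro c (rfl | rfl)
      · rcases ha with ha | ha
        · exact Or.inl ha
        · exact Or.inr ⟨ha, ha1⟩
      · rcases hb with hb | hb
        · exact Or.inl hb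
        · exact Or.inr ⟨hb, hb1⟩
    · rcases hb with rfl | hb
      · exact absurd (cl_refl _) hb1
      · rcases ha with rfl | ha
        · refine h2.anti ?_
          rintro c (rfl | rfl)
          · exact mem_insert _ _
          · exact Or.inr ⟨hb, hb1⟩
        · exact main a ha b hb ha1 hb1
  · rcases ha with rfl | ha
    · exact absurd (cl_refl _) ha1
    · by_cases hb1 : b.1 ∈ Cl σ S F x₀
      · rcases hb with rfl | hb
        · refine h2.anti ?_
          rintro c (rfl | rfl)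
          · exact Or.inr ⟨ha, ha1⟩
          · exact mem_insert _ _
        · rw [pair_comm]
          exact main b hb a ha hb1 ha1
      · rcases hb with rfl | hb
        · exact absurd (cl_refl _) hb1
        · refine h2.anti ?_
          rintro c (rfl | rfl)
          · exact Or.inr ⟨ha, ha1⟩
          · exact Or.inr ⟨hb, hb1⟩

/-- **Gluing along a cluster.** -/
theorem glueC (hL : Ar2 L) (hC : Cx σ S) {F : Finset M} {x₀ x₀' : M}
    (hx : x₀' ∈ Cl σ S F x₀) (hce : Ce σ S F x₀ x₀') {U U' : Set M} {γ : Ordinal.{0}}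
    {p : Set (M × M)} (hp : ∀ a ∈ p, a.1 ∈ Cl σ S F x₀ ↔ a.2 ∈ Cl σ S F x₀)
    (hp0 : (x₀, x₀') ∈ p)
    (h1 : BFR S S (U ∩ Cl σ S F x₀) (U' ∩ Cl σ S F x₀) γ {a ∈ p | a.1 ∈ Cl σ S F x₀})
    (h2 : BFR S S (U \ Cl σ S F x₀) (U' \ Cl σ S F x₀) γ
      (insert (x₀, x₀') {a ∈ p | a.1 ∉ Cl σ S F x₀})) : BFR S S U U' γ p := by
  classical
  have key := glue (S := S) (S' := S) (fun a => decide (a ∈ Cl σ S F x₀))
    (fun a => decide (a ∈ Cl σ S F x₀)) (U := U) (V := U')
    (q := fun _ : Bool => {(x₀, x₀')}) (r := {(x₀, x₀')}) (by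
      intro p hp h
      have ht := h true
      have hf := h false
      simp only [decide_eq_true_eq, decide_eq_false_iff_not, singleton_union] at ht hf
      rw [singleton_union]
      exact cg_at hL hC hx hce (fun a ha => decide_eq_decide.1 (hp a ha)) ht hf) γ (p := p)
    (fun a ha => decide_eq_decide.2 (hp a ha)) (by
      intro i
      rcases i with _ | _
      · simp only [decide_eq_false_iff_not, singleton_union]
        exact h2
      · simp only [decide_eq_true_eq, singleton_union]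
        refine BFR.anti ?_ h1
        rintro a (rfl | ha)
        · exact ⟨hp0, cl_refl _⟩
        · exact ha)
  rwa [singleton_union, insert_eq_of_mem hp0] at key

/-- the identity outside a cluster -/
theorem idOut (hL : Ar2 L) (hC : Cx σ S) {F : Finset M} {x₀ x₀' : M}
    (hx : x₀' ∈ Cl σ S F x₀) (hce : Ce σ S F x₀ x₀') (hat : AtEq S S {(x₀, x₀')}) {U G : Set M}
    (hU : Disjoint U (Cl σ S F x₀)) (hG : Disjoint G (Cl σ S F x₀)) (γ : Ordinal.{0}) :
    BFR S S U U γ (insert (x₀, x₀') (dg G)) := by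
  induction γ using WellFoundedLT.induction generalizing G with
  | _ γ ih =>
    have hrefl : ∀ Q : Set M, AtEq S S (dg Q) := fun Q =>
      (BFR.refl S univ 0 (p := dg Q) (by
        rintro _ ⟨a, -, rfl⟩
        exact ⟨mem_univ _, rfl⟩)).atEq
    have hst' : ∀ x ∈ U, ∀ β < γ,
        BFR S S U U β (insert (x, x) (insert (x₀, x₀') (dg G))) := by
      intro x hx' β hβ
      have h1 := ih β hβ (G := insert x G) (by
        rw [disjoint_insert_left]
        exact ⟨disjoint_left.1 hU hx', hG⟩)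
      refine BFR.anti ?_ h1
      rintro a (rfl | rfl | ⟨b, hb, rfl⟩)
      · exact Or.inr ⟨x, mem_insert _ _, rfl⟩
      · exact mem_insert _ _
      · exact Or.inr ⟨b, mem_insert_of_mem _ hb, rfl⟩
    rw [BFR.def]
    refine ⟨atEq_of_pairs hL fun a ha b hb => ?_, fun β hβ =>
      ⟨fun x hx' => ⟨x, hx', hst' x hx' β hβ⟩, fun x hx' => ⟨x, hx', hst' x hx' β hβ⟩⟩⟩
    have main : ∀ g ∈ G, AtEq S S {(x₀, x₀'), (g, g)} := by
      intro g hg
      refine hC.full x₀ g x₀' g hat ?_ fun i =>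
        (hC.auto (cl_refl _) hx hce (disjoint_left.1 hG hg) i).1
      exact (hrefl {g}).anti (by rintro _ rfl; exact ⟨g, rfl, rfl⟩)
    rcases ha with rfl | ⟨g, hg, rfl⟩
    · rcases hb with rfl | ⟨g, hg, rfl⟩
      · rw [pair_eq_singleton]
        exact hat
      · exact main g hg
    · rcases hb with rfl | ⟨g', hg', rfl⟩
      · rw [pair_comm]
        exact main g hg
      · refine (hrefl {g, g'}).anti ?_
        rintro _ (rfl | rfl)
        · exact ⟨g, Or.inl rfl, rfl⟩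
        · exact ⟨g', Or.inr rfl, rfl⟩

/-- extension by the identity outside a cluster -/
theorem extC (hL : Ar2 L) (hC : Cx σ S) {F : Finset M} {x₀ x₀' : M}
    (hx : x₀' ∈ Cl σ S F x₀) (hce : Ce σ S F x₀ x₀') {U U' : Set M}
    (hU : U \ Cl σ S F x₀ = U' \ Cl σ S F x₀) {γ : Ordinal.{0}} {p : Set (M × M)} {G : Set M}
    (hp : ∀ a ∈ p, a.1 ∈ Cl σ S F x₀ ∧ a.2 ∈ Cl σ S F x₀) (hp0 : (x₀, x₀') ∈ p)
    (hG : Disjoint G (Cl σ S F x₀))
    (h1 : BFR S S (U ∩ Cl σ S F x₀) (U' ∩ Cl σ S F x₀) γ p) : BFR S S U U' γ (p ∪ dg G) := by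
  refine glueC hL hC hx hce (F := F) (x₀ := x₀) (x₀' := x₀') ?_ (Or.inl hp0) ?_ ?_
  · rintro a (ha | ⟨g, hg, rfl⟩)
    · exact ⟨fun _ => (hp a ha).2, fun _ => (hp a ha).1⟩
    · exact Iff.rfl
  · refine BFR.anti ?_ h1
    rintro a ⟨ha | ⟨g, hg, rfl⟩, ha1⟩
    · exact ha
    · exact absurd ha1 (disjoint_left.1 hG hg)
  · rw [← hU]
    refine BFR.anti ?_ (idOut hL hC hx hce (h1.atEq.anti (singleton_subset_iff.2 hp0))
      (U := U \ Cl σ S F x₀) disjoint_sdiff_left hG γ)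
    rintro a (rfl | ⟨ha | ⟨g, hg, rfl⟩, ha1⟩)
    · exact mem_insert _ _
    · exact absurd (hp a ha).1 ha1
    · exact Or.inr ⟨g, hg, rfl⟩

/-- restriction to a cluster and to its complement -/
theorem resC (hC : Cx σ S) {F : Finset M} {x₀ x₀' : M} (hx : x₀' ∈ Cl σ S F x₀)
    (hce : Ce σ S F x₀ x₀') {U U' : Set M} {γ : Ordinal.{0}} {p : Set (M × M)}
    (hp0 : (x₀, x₀') ∈ p) (h : BFR S S U U' γ p) :
    BFR S S (U ∩ Cl σ S F x₀) (U' ∩ Cl σ S F x₀) γ p ∧
      BFR S S (U \ Cl σ S F x₀) (U' \ Cl σ S F x₀) γ p := by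
  have key : ∀ x y, AtEq S S (insert (x, y) p) → (x ∈ Cl σ S F x₀ ↔ y ∈ Cl σ S F x₀) :=
    fun x y hat => (hC.base hat (mem_insert_of_mem _ hp0) hx hce (mem_insert _ _)).1
  constructor
  · refine BFR.restr₀ inter_subset_left inter_subset_left (fun x hx y hy hat => ?_) h
    simp only [mem_inter_iff, hx, hy, true_and]
    exact key x y hat
  · refine BFR.restr₀ sdiff_subset sdiff_subset (fun x hx y hy hat => ?_) h
    simp only [mem_sdiff, hx, hy, true_and]
    exact not_congr (key x y hat)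

/-- restriction to corresponding clusters, with the parameters of the cluster matched -/
theorem resC1 {F : Finset M} {F' : Finset N} {w : M} {w' : N} {p : Set (M × N)}
    (hF : Mt p F F') (hw : (w, w') ∈ p) {U : Set M} {V : Set N} {γ : Ordinal.{0}}
    (h : BFR S S' U V γ p) :
    BFR S S' (U ∩ Cl σ S F w) (V ∩ Cl σ S' F' w') γ p ∧
      BFR S S' (U \ Cl σ S F w) (V \ Cl σ S' F' w') γ p := by
  have key : ∀ x y, AtEq S S' (insert (x, y) p) → (x ∈ Cl σ S F w ↔ y ∈ Cl σ S' F' w') :=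
    fun x y hat => cl_congr hat (hF.mono (subset_insert _ _)) (mem_insert_of_mem _ hw)
      (mem_insert _ _)
  constructor
  · refine BFR.restr₀ inter_subset_left inter_subset_left (fun x hx y hy hat => ?_) h
    simp only [mem_inter_iff, hx, hy, true_and]
    exact key x y hat
  · refine BFR.restr₀ sdiff_subset sdiff_subset (fun x hx y hy hat => ?_) h
    simp only [mem_sdiff, hx, hy, true_and]
    exact not_congr (key x y hat)

end Pool.Agent.MON

end

/-! ### formerly `Pool.Agent.MON.CT` -/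

section

/-!
# MON, module CT: cluster systems are closed under equivalence of level `ω`

All fields of `Cx` are of the form: for all finite `F`, `F'` and points, a statement which
depends only on the atomic type of the finite set `F ∪ F' ∪ {points}`. Given a counterexample in
`T` choose (`BFR.forth_many` with `n` = number of elements) images in `S` of all elements
with `AtEq T S` for the graph and use `rl_congr`, `in_congr`, `le_congr`, `cl_congr`,
`vp_congr`, `ce_congr` with the images of `F` and `F'`. Use `lift_finite` first.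
-/

set_option autoImplicit false
set_option linter.unusedSectionVars false
set_option linter.unusedVariables false

namespace Pool.Agent.MON

open Set Pool.Agent.Helper5 Pool.Agent.Helper5.DU Pool.Agent.Helper6.Str
  Pool.Agent.Helper79.VC Pool.Agent.Helper97.VC Pool.Agent.Helper97.MD Pool.Agent.Helper6.VC
  Pool.Agent.Helper97.LO

variable {L : FirstOrder.Language.{0, 0}} {M N : Type} {σ : Sig L} {S : L.Structure M}
  {T : L.Structure N}

/-- finite sets have images of the same atomic type -/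
theorem lift_finite (h : BFR T S univ univ Ordinal.omega0 ∅) (G : Finset N) :
    ∃ θ : N → M, AtEq T S ((fun g => (g, θ g)) '' (G : Set N)) := by
  classical
  have h0 : (0 : Ordinal.{0}) < Ordinal.omega0 := Ordinal.omega0_pos
  have hle : (0 : Ordinal.{0}) + (G.card : Ordinal.{0}) ≤ Ordinal.omega0 := by
    rw [zero_add]
    exact (Ordinal.natCast_lt_omega0 _).le
  obtain ⟨y, -, hy⟩ := BFR.forth_many G.card (h.mono hle) (fun i => ((G.equivFin.symm i : G) : N))
    (fun _ => mem_univ _)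
  have hd : ∀ g : N, ∃ m : M, True := fun g => by
    obtain ⟨m, -, -⟩ := h.forth h0 (mem_univ g)
    exact ⟨m, trivial⟩
  choose d _ using hd
  refine ⟨fun g => if hg : g ∈ G then y (G.equivFin ⟨g, hg⟩) else d g, hy.atEq.anti ?_⟩
  rintro _ ⟨g, hg, rfl⟩
  have hg' : g ∈ G := hg
  refine Or.inr ⟨G.equivFin ⟨g, hg'⟩, ?_⟩
  simp [hg']

theorem ct_pack (h : BFR T S univ univ Ordinal.omega0 ∅) (F F' P : Finset N) :
    ∃ (θ : N → M) (p : Set (N × M)) (G G' : Finset M), AtEq T S p ∧ Mt p F G ∧ Mt p F' G' ∧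
      ∀ x ∈ P, (x, θ x) ∈ p := by
  classical
  obtain ⟨θ, hθ⟩ := lift_finite h (F ∪ F' ∪ P)
  have key : ∀ H : Finset N, H ⊆ F ∪ F' ∪ P →
      Mt ((fun g => (g, θ g)) '' ((F ∪ F' ∪ P : Finset N) : Set N)) H (H.image θ) := by
    intro H hH
    refine ⟨fun x hx => ⟨θ x, Finset.mem_image_of_mem θ hx, ⟨x, hH hx, rfl⟩⟩, fun y hy => ?_⟩
    obtain ⟨x, hx, rfl⟩ := Finset.mem_image.mp hy
    exact ⟨x, hx, ⟨x, hH hx, rfl⟩⟩
  refine ⟨θ, _, F.image θ, F'.image θ, hθ, key F ?_, key F' ?_, fun x hx => ⟨x, ?_, rfl⟩⟩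
  · intro x hx
    simp [hx]
  · intro x hx
    simp [hx]
  · simp [hx]

theorem ct_sg {p : Set (N × M)} {y : N} {y' : M} (h : (y, y') ∈ p) :
    Mt p ({y} : Finset N) ({y'} : Finset M) := by
  refine ⟨fun x hx => ⟨y', Finset.mem_singleton_self y', ?_⟩,
    fun x hx => ⟨y, Finset.mem_singleton_self y, ?_⟩⟩
  · rw [Finset.mem_singleton.mp hx]
    exact h
  · rw [Finset.mem_singleton.mp hx]
    exact h

theorem ct_at {p : Set (N × M)} (hp : AtEq T S p) {q : Set (N × N)} {r : Set (M × M)}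
    (hr : ∀ a ∈ r, ∃ b ∈ q, (b.1, a.1) ∈ p ∧ (b.2, a.2) ∈ p) (h : AtEq T T q) : AtEq S S r := by
  refine ⟨fun a ha c hc => ?_, fun n R v hv => ?_⟩
  · obtain ⟨b, hb, hb1, hb2⟩ := hr a ha
    obtain ⟨d, hd, hd1, hd2⟩ := hr c hc
    have e1 : b.1 = d.1 ↔ a.1 = c.1 := hp.1 _ hb1 _ hd1
    have e2 : b.2 = d.2 ↔ a.2 = c.2 := hp.1 _ hb2 _ hd2
    rw [← e1, ← e2]
    exact h.1 _ hb _ hd
  · choose b hb hb1 hb2 using fun i => hr (v i) (hv i)
    have e1 : T.RelMap R (fun i => (b i).1) ↔ S.RelMap R (fun i => (v i).1) :=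
      hp.2 n R (fun i => ((b i).1, (v i).1)) hb1
    have e2 : T.RelMap R (fun i => (b i).2) ↔ S.RelMap R (fun i => (v i).2) :=
      hp.2 n R (fun i => ((b i).2, (v i).2)) hb2
    rw [← e1, ← e2]
    exact h.2 n R b hb

theorem ct_at' {p : Set (N × M)} (hp : AtEq T S p) {q : Set (N × N)} {r : Set (M × M)}
    (hq : ∀ b ∈ q, ∃ a ∈ r, (b.1, a.1) ∈ p ∧ (b.2, a.2) ∈ p) (h : AtEq S S r) : AtEq T T q := by
  refine ⟨fun a ha c hc => ?_, fun n R v hv => ?_⟩
  · obtain ⟨b, hb, hb1, hb2⟩ := hq a ha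
    obtain ⟨d, hd, hd1, hd2⟩ := hq c hc
    have e1 : a.1 = c.1 ↔ b.1 = d.1 := hp.1 _ hb1 _ hd1
    have e2 : a.2 = c.2 ↔ b.2 = d.2 := hp.1 _ hb2 _ hd2
    rw [e1, e2]
    exact h.1 _ hb _ hd
  · choose b hb hb1 hb2 using fun i => hq (v i) (hv i)
    have e1 : T.RelMap R (fun i => (v i).1) ↔ S.RelMap R (fun i => (b i).1) :=
      hp.2 n R (fun i => ((v i).1, (b i).1)) hb1
    have e2 : T.RelMap R (fun i => (v i).2) ↔ S.RelMap R (fun i => (b i).2) :=
      hp.2 n R (fun i => ((v i).2, (b i).2)) hb2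
    rw [e1, e2]
    exact h.2 n R b hb

theorem Cx.transfer (hC : Cx σ S) (h : BFR T S univ univ Ordinal.omega0 ∅) : Cx σ T := by
  classical
  refine { star := ?_, full := ?_, irr := ?_, cell := ?_, symm := ?_, pctr := ?_, letr := ?_, tot := ?_, cross := ?_, cross' := ?_, blk := ?_, w1 := ?_, lam := ?_, deep := ?_, deepc := ?_ }
  · intro i x y
    obtain ⟨θ, p, G, G', hp, -, -, hP⟩ := ct_pack h ∅ ∅ {x, y}
    have hx := hP x (by simp)
    have hy := hP y (by simp)
    rw [rl_congr hp hy hx, rl_congr hp hx hy]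
    exact hC.star i _ _
  · intro a b a' b' h1 h2 h3
    obtain ⟨θ, p, G, G', hp, -, -, hP⟩ := ct_pack h ∅ ∅ {a, b, a', b'}
    have ha := hP a (by simp)
    have hb := hP b (by simp)
    have ha' := hP a' (by simp)
    have hb' := hP b' (by simp)
    refine ct_at' hp (r := {(θ a, θ a'), (θ b, θ b')}) ?_ (hC.full (θ a) (θ b) (θ a') (θ b')
      (ct_at hp ?_ h1) (ct_at hp ?_ h2) fun i => ?_)
    · rintro c (rfl | rfl)
      · exact ⟨_, Or.inl rfl, ha, ha'⟩
      · exact ⟨_, Or.inr rfl, hb, hb'⟩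
    · rintro c rfl
      exact ⟨_, rfl, ha, ha'⟩
    · rintro c rfl
      exact ⟨_, rfl, hb, hb'⟩
    · rw [← rl_congr hp ha hb, ← rl_congr hp ha' hb']
      exact h3 i
  · intro i w
    obtain ⟨θ, p, G, G', hp, -, -, hP⟩ := ct_pack h ∅ ∅ {w}
    have hw := hP w (by simp)
    rw [rl_congr hp hw hw]
    exact hC.irr i _
  · intro F u v
    obtain ⟨θ, p, G, G', hp, hF, -, hP⟩ := ct_pack h F ∅ {u, v}
    have hu := hP u (by simp)
    have hv := hP v (by simp)
    rw [ce_congr hp hF hu hv, pc_congr hp hF hu hv]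
    exact hC.cell _ _ _
  · intro F i x u
    obtain ⟨θ, p, G, G', hp, hF, -, hP⟩ := ct_pack h F ∅ {x, u}
    have hx := hP x (by simp)
    have hu := hP u (by simp)
    rw [in_congr hp hF hx hu, in_congr hp hF hu hx]
    exact hC.symm _ _ _ _
  · intro F x y z
    obtain ⟨θ, p, G, G', hp, hF, -, hP⟩ := ct_pack h F ∅ {x, y, z}
    have hx := hP x (by simp)
    have hy := hP y (by simp)
    have hz := hP z (by simp)
    rw [pc_congr hp hF hx hy, pc_congr hp hF hy hz, pc_congr hp hF hx hz]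
    exact hC.pctr _ _ _ _
  · intro F x y z
    obtain ⟨θ, p, G, G', hp, hF, -, hP⟩ := ct_pack h F ∅ {x, y, z}
    have hx := hP x (by simp)
    have hy := hP y (by simp)
    have hz := hP z (by simp)
    rw [le_congr hp hF hy hx, le_congr hp hF hz hy, le_congr hp hF hz hx]
    exact hC.letr _ _ _ _
  · intro F x y
    obtain ⟨θ, p, G, G', hp, hF, -, hP⟩ := ct_pack h F ∅ {x, y}
    have hx := hP x (by simp)
    have hy := hP y (by simp)
    rw [pc_congr hp hF hx hy, le_congr hp hF hy hx, le_congr hp hF hx hy]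
    exact hC.tot _ _ _
  · intro F u v u' v'
    obtain ⟨θ, p, G, G', hp, hF, -, hP⟩ := ct_pack h F ∅ {u, v, u', v'}
    have hu := hP u (by simp)
    have hv := hP v (by simp)
    have hu' := hP u' (by simp)
    have hv' := hP v' (by simp)
    rw [ce_congr hp hF hu hu', ce_congr hp hF hv hv', pc_congr hp hF hu hv]
    intro h1 h2 h3 i
    rw [rl_congr hp hu hv, rl_congr hp hu' hv']
    exact hC.cross _ _ _ _ _ h1 h2 h3 i
  · intro F u v u' v'
    obtain ⟨θ, p, G, G', hp, hF, -, hP⟩ := ct_pack h F ∅ {u, v, u', v'}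
    have hu := hP u (by simp)
    have hv := hP v (by simp)
    have hu' := hP u' (by simp)
    have hv' := hP v' (by simp)
    rw [ce_congr hp hF hu hu', ce_congr hp hF hv hv', le_congr hp hF hv hu, le_congr hp hF hu hv,
      le_congr hp hF hv' hu', le_congr hp hF hu' hv']
    intro h1 h2 h3 h4 h5 h6 i
    rw [rl_congr hp hu hv, rl_congr hp hu' hv']
    exact hC.cross' _ _ _ _ _ h1 h2 h3 h4 h5 h6 i
  · intro F x x' u u'
    obtain ⟨θ, p, G, G', hp, hF, -, hP⟩ := ct_pack h F ∅ {x, x', u, u'}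
    have hx := hP x (by simp)
    have hx' := hP x' (by simp)
    have hu := hP u (by simp)
    have hu' := hP u' (by simp)
    rw [ce_congr hp hF hx hx', cl_congr hp hF hx hu, cl_congr hp hF hx' hu',
      ce_congr hp hF hu hu']
    intro h1 h2 h3
    refine hC.blk _ _ _ _ _ h1 h2 fun i => ?_
    rw [← rl_congr hp hx hu, ← rl_congr hp hx' hu']
    exact h3 i
  · intro F z u u'
    obtain ⟨θ, p, G, G', hp, hF, -, hP⟩ := ct_pack h F ∅ {z, u, u'}
    have hz := hP z (by simp)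
    have hu := hP u (by simp)
    have hu' := hP u' (by simp)
    rw [cl_congr hp hF hz hu, cl_congr hp hF hz hu', pc_congr hp (ct_sg hz) hu hu']
    exact hC.w1 _ _ _ _
  · intro F F' x u u'
    obtain ⟨θ, p, G, G', hp, hF, hF', hP⟩ := ct_pack h F F' {x, u, u'}
    have hx := hP x (by simp)
    have hu := hP u (by simp)
    have hu' := hP u' (by simp)
    rw [cl_congr hp hF hx hu, cl_congr hp hF' hx hu', cl_congr hp hF' hx hu,
      cl_congr hp hF hx hu']
    exact hC.lam _ _ _ _ _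
  · intro F z y y' x' i x
    obtain ⟨θ, p, G, G', hp, hF, -, hP⟩ := ct_pack h F ∅ {z, y, y', x', x}
    have hz := hP z (by simp)
    have hy := hP y (by simp)
    have hy' := hP y' (by simp)
    have hx' := hP x' (by simp)
    have hx := hP x (by simp)
    rw [cl_congr hp hF hz hy, cl_congr hp hF hz hy', cl_congr hp hF hz hx',
      in_congr hp (ct_sg hy) hx hx', in_congr hp (ct_sg hy') hx hx']
    exact hC.deep _ _ _ _ _ _ _
  · intro F z y y' x x'
    obtain ⟨θ, p, G, G', hp, hF, -, hP⟩ := ct_pack h F ∅ {z, y, y', x, x'}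
    have hz := hP z (by simp)
    have hy := hP y (by simp)
    have hy' := hP y' (by simp)
    have hx := hP x (by simp)
    have hx' := hP x' (by simp)
    rw [cl_congr hp hF hz hy, cl_congr hp hF hz hy', cl_congr hp hF hz hx, cl_congr hp hF hz hx',
      ce_congr hp (ct_sg hy) hx hx', ce_congr hp (ct_sg hy') hx hx']
    exact hC.deepc _ _ _ _ _ _

end Pool.Agent.MON

end

/-! ### formerly `Pool.Agent.MON.LEVa` -/

section

/-!
# MON, module LEVa: Scott levels with a named point (no cluster systems)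

`Sb.key`, `Sb.det`, `Sb.congr`: copy `SL.key`, `SL.det`, `SL.congr` of Helper97/LO/Core.lean
with the pair `(y, y')` kept. Key step: let `insert (y, y') p` be of level `α`, `p = {(a_i, b_i)}`.
From `hXY` find (back) `a_i'` in `X` with `{(y, y')} ∪ {(a_i', b_i)}` of level `α + 1`; compose:
`{(y, y)} ∪ {(a_i, a_i')}` is of level `α`, hence of all levels; compose again.
-/

set_option autoImplicit false
set_option linter.unusedSectionVars false
set_option linter.unusedVariables false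

namespace Pool.Agent.MON

open Set Pool.Agent.Helper5 Pool.Agent.Helper5.DU Pool.Agent.Helper6.Str
  Pool.Agent.Helper79.VC Pool.Agent.Helper97.VC Pool.Agent.Helper97.MD Pool.Agent.Helper6.VC
  Pool.Agent.Helper97.LO

variable {L : FirstOrder.Language.{0, 0}} {M N : Type} {S : L.Structure M} {S' : L.Structure N}

theorem Sb.mono {y : M} {X : Set M} {α β : Ordinal.{0}} (h : Sb S y X α) (hαβ : α ≤ β) :
    Sb S y X β :=
  fun p hp hpX hb => h p hp hpX (hb.mono hαβ)

theorem SL.sb {y : M} {X : Set M} {α : Ordinal.{0}} (h : SL S X α) (hy : y ∈ X) :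
    Sb S y X α := by
  intro p hp hpX hb γ hγ
  refine h _ (hp.insert _) ?_ hb γ hγ
  rintro a (rfl | ha)
  · exact ⟨hy, hy⟩
  · exact hpX a ha

/-- a named pair may be added to the pieces -/
theorem leva_add {X : Set M} {Y : Set N} {y : M} {y' : N} (γ : Ordinal.{0}) :
    ∀ {q : Set (M × N)}, (y, y') ∈ q → BFR S S' X Y γ q →
      BFR S S' (insert y X) (insert y' Y) γ q := by
  induction γ using WellFoundedLT.induction with
  | _ γ ih =>
    intro q hq h
    rw [BFR.def]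
    refine ⟨h.atEq, fun β hβ => ⟨fun x hx => ?_, fun z hz => ?_⟩⟩
    · rcases hx with rfl | hx
      · refine ⟨y', mem_insert _ _, ih β hβ (mem_insert _ _) ?_⟩
        rw [insert_eq_of_mem hq]
        exact h.mono hβ.le
      · obtain ⟨z, hz, h1⟩ := h.forth hβ hx
        exact ⟨z, mem_insert_of_mem _ hz, ih β hβ (mem_insert_of_mem _ hq) h1⟩
    · rcases hz with rfl | hz
      · refine ⟨y, mem_insert _ _, ih β hβ (mem_insert _ _) ?_⟩
        rw [insert_eq_of_mem hq]
        exact h.mono hβ.le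
      · obtain ⟨x, hx, h1⟩ := h.back hβ hz
        exact ⟨x, mem_insert_of_mem _ hx, ih β hβ (mem_insert_of_mem _ hq) h1⟩

/-- a named point may be removed from the piece -/
theorem leva_rem {X : Set M} {y : M} (γ : Ordinal.{0}) :
    ∀ {q : Set (M × M)}, (y, y) ∈ q → BFR S S (insert y X) (insert y X) γ q →
      BFR S S X X γ q := by
  induction γ using WellFoundedLT.induction with
  | _ γ ih =>
    intro q hq h
    rw [BFR.def]
    refine ⟨h.atEq, fun β hβ => ⟨fun x hx => ?_, fun z hz => ?_⟩⟩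
    · obtain ⟨z, hz, h1⟩ := h.forth hβ (mem_insert_of_mem y hx)
      have h2 := (h1.atEq.1 (x, z) (mem_insert _ _) (y, y) (mem_insert_of_mem _ hq))
      refine ⟨z, ?_, ih β hβ (mem_insert_of_mem _ hq) h1⟩
      rcases hz with rfl | hz
      · have h3 : x = z := h2.2 rfl
        rwa [← h3]
      · exact hz
    · obtain ⟨x, hx, h1⟩ := h.back hβ (mem_insert_of_mem y hz)
      have h2 := (h1.atEq.1 (x, z) (mem_insert _ _) (y, y) (mem_insert_of_mem _ hq))
      refine ⟨x, ?_, ih β hβ (mem_insert_of_mem _ hq) h1⟩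
      rcases hx with rfl | hx
      · have h3 : z = x := h2.1 rfl
        rwa [← h3]
      · exact hx

/-- from the level of `insert y X` -/
theorem Sb.of_insert {y : M} {X : Set M} {α : Ordinal.{0}} (h : SL S (insert y X) α) :
    Sb S y X α := by
  intro p hp hpX hb γ hγ
  refine leva_rem γ (mem_insert _ _) ?_
  refine h _ (hp.insert _) ?_ (leva_add α (mem_insert _ _) hb) γ hγ
  rintro a (rfl | ha)
  · exact ⟨mem_insert _ _, mem_insert _ _⟩
  · exact ⟨mem_insert_of_mem _ (hpX a ha).1, mem_insert_of_mem _ (hpX a ha).2⟩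

theorem Sb.key {X : Set M} {Y : Set N} {y : M} {y' : N} {α : Ordinal.{0}} (hα : α < om1)
    (h : Sb S y X α) (hXY : BFR S S' X Y (α + Ordinal.omega0) {(y, y')}) {p : Set (M × N)}
    (hp : p.Finite) (hpX : ∀ a ∈ p, a.1 ∈ X ∧ a.2 ∈ Y)
    (hb : BFR S S' X Y α (insert (y, y') p)) : BFR S S' X Y (α + 1) (insert (y, y') p) := by
  let e := hp.toFinset.equivFin
  let a : Fin hp.toFinset.card → M := fun i => (e.symm i).1.1
  let b : Fin hp.toFinset.card → N := fun i => (e.symm i).1.2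
  have hpe : ∀ z ∈ p, ∃ i, a i = z.1 ∧ b i = z.2 := by
    intro z hz
    have hz' : z ∈ hp.toFinset := hp.mem_toFinset.mpr hz
    exact ⟨e ⟨z, hz'⟩, by simp [a], by simp [b]⟩
  have hpe' : ∀ i, (a i, b i) ∈ p := by
    intro i
    have := (e.symm i).2
    rw [hp.mem_toFinset] at this
    exact this
  have h1 : BFR S S' X Y (α + 1 + ((hp.toFinset.card : ℕ) : Ordinal.{0})) {(y, y')} := by
    refine hXY.mono ?_
    rw [add_assoc]
    gcongr
    have : (1 : Ordinal.{0}) + ((hp.toFinset.card : ℕ) : Ordinal.{0}) =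
        ((1 + hp.toFinset.card : ℕ) : Ordinal.{0}) := by push_cast; rfl
    rw [this]
    exact (Ordinal.natCast_lt_omega0 _).le
  obtain ⟨a', ha'X, h2⟩ := BFR.back_many _ h1 b fun i => (hpX _ (hpe' i)).2
  have hlt : α ≤ α + 1 := (lt_add_one_self α).le
  have h3 : BFR S S X X α (insert (y, y) (range fun i => (a i, a' i))) := by
    have h4 : BFR S' S Y X α (insert (y', y) (range fun i => (b i, a' i))) := by
      refine (h2.mono hlt).symm ?_
      rintro _ (rfl | ⟨i, rfl⟩)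
      · exact Or.inl rfl
      · exact Or.inr ⟨i, rfl⟩
    refine hb.trans h4 ?_
    rintro _ (rfl | ⟨i, rfl⟩)
    · exact ⟨y', mem_insert _ _, mem_insert _ _⟩
    · exact ⟨b i, mem_insert_of_mem _ (hpe' i), mem_insert_of_mem _ ⟨i, rfl⟩⟩
  have h5 := h _ (finite_range _) (by
    rintro _ ⟨i, rfl⟩
    exact ⟨(hpX _ (hpe' i)).1, ha'X i⟩) h3 (α + 1) (add_one_lt_om1 hα)
  refine h5.trans h2 ?_
  rintro z (rfl | hz)
  · exact ⟨y, mem_insert _ _, Or.inl rfl⟩
  · obtain ⟨i, hi1, hi2⟩ := hpe z hz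
    exact ⟨a' i, mem_insert_of_mem _ ⟨i, by rw [← hi1]⟩, Or.inr ⟨i, by rw [← hi2]⟩⟩

theorem Sb.det {X : Set M} {Y : Set N} {y : M} {y' : N} {α : Ordinal.{0}} (hα : α < om1)
    (h : Sb S y X α) (hXY : BFR S S' X Y (α + Ordinal.omega0) {(y, y')}) (γ : Ordinal.{0})
    {p : Set (M × N)} (hp : p.Finite) (hpX : ∀ a ∈ p, a.1 ∈ X ∧ a.2 ∈ Y)
    (hb : BFR S S' X Y α (insert (y, y') p)) : BFR S S' X Y γ (insert (y, y') p) := by
  induction γ using WellFoundedLT.induction generalizing p with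
  | _ γ ih =>
    rw [BFR.def]
    have h1 := h.key hα hXY hp hpX hb
    refine ⟨hb.atEq, fun β hβ => ⟨fun x hx => ?_, fun z hz => ?_⟩⟩
    · obtain ⟨z, hzV, hz⟩ := h1.forth (lt_add_one_self α) hx
      rw [insert_comm] at hz
      refine ⟨z, hzV, ?_⟩
      rw [insert_comm]
      refine ih β hβ (hp.insert _) ?_ hz
      rintro a (rfl | ha)
      · exact ⟨hx, hzV⟩
      · exact hpX a ha
    · obtain ⟨x, hxV, hx⟩ := h1.back (lt_add_one_self α) hz
      rw [insert_comm] at hx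
      refine ⟨x, hxV, ?_⟩
      rw [insert_comm]
      refine ih β hβ (hp.insert _) ?_ hx
      rintro a (rfl | ha)
      · exact ⟨hxV, hz⟩
      · exact hpX a ha

theorem Sb.congr {X : Set M} {Y : Set N} {y : M} {y' : N} {α : Ordinal.{0}} (hα : α < om1)
    (h : Sb S y X α) (hXY : BFR S S' X Y (α + Ordinal.omega0) {(y, y')}) : Sb S' y' Y α := by
  intro q hq hqY hb γ hγ
  let e := hq.toFinset.equivFin
  let a : Fin hq.toFinset.card → N := fun i => (e.symm i).1.1
  let b : Fin hq.toFinset.card → N := fun i => (e.symm i).1.2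
  have hqe : ∀ z ∈ q, ∃ i, a i = z.1 ∧ b i = z.2 := by
    intro z hz
    have hz' : z ∈ hq.toFinset := hq.mem_toFinset.mpr hz
    exact ⟨e ⟨z, hz'⟩, by simp [a], by simp [b]⟩
  have hqe' : ∀ i, (a i, b i) ∈ q := by
    intro i
    have := (e.symm i).2
    rw [hq.mem_toFinset] at this
    exact this
  have h1 : BFR S S' X Y (α + ((hq.toFinset.card : ℕ) : Ordinal.{0})) {(y, y')} := by
    refine hXY.mono ?_
    gcongr
    exact (Ordinal.natCast_lt_omega0 _).le
  have hcv : ∀ (n : ℕ) (f : Fin n → M) (g : Fin n → N),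
      ({(y, y')} ∪ range fun i => (f i, g i)) = insert (y, y') (range fun i => (f i, g i)) :=
    fun n f g => singleton_union
  obtain ⟨a', ha'X, h2⟩ := BFR.back_many _ h1 a fun i => (hqY _ (hqe' i)).1
  obtain ⟨b', hb'X, h3⟩ := BFR.back_many _ h1 b fun i => (hqY _ (hqe' i)).2
  rw [hcv] at h2 h3
  have h2' := h.det hα hXY γ (p := range fun i => (a' i, a i)) (finite_range _) (by
    rintro _ ⟨i, rfl⟩
    exact ⟨ha'X i, (hqY _ (hqe' i)).1⟩) h2
  have h3' := h.det hα hXY γ (p := range fun i => (b' i, b i)) (finite_range _) (by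
    rintro _ ⟨i, rfl⟩
    exact ⟨hb'X i, (hqY _ (hqe' i)).2⟩) h3
  have h4 : BFR S S X X α (insert (y, y) (range fun i => (a' i, b' i))) := by
    have h5 : BFR S S' X Y α (insert (y, y') (range fun i => (a' i, b i))) := by
      refine h2.trans hb ?_
      rintro _ (rfl | ⟨i, rfl⟩)
      · exact ⟨y', mem_insert _ _, mem_insert _ _⟩
      · exact ⟨a i, mem_insert_of_mem _ ⟨i, rfl⟩, mem_insert_of_mem _ (hqe' i)⟩
    have h6 : BFR S' S Y X α (insert (y', y) (range fun i => (b i, b' i))) := by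
      refine h3.symm ?_
      rintro _ (rfl | ⟨i, rfl⟩)
      · exact mem_insert _ _
      · exact mem_insert_of_mem _ ⟨i, rfl⟩
    refine h5.trans h6 ?_
    rintro _ (rfl | ⟨i, rfl⟩)
    · exact ⟨y', mem_insert _ _, mem_insert _ _⟩
    · exact ⟨b i, mem_insert_of_mem _ ⟨i, rfl⟩, mem_insert_of_mem _ ⟨i, rfl⟩⟩
  have h7 := h _ (finite_range _) (by
    rintro _ ⟨i, rfl⟩
    exact ⟨ha'X i, hb'X i⟩) h4 γ hγ
  have h8 : BFR S' S Y X γ (insert (y', y) (range fun i => (a i, b' i))) := by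
    refine (h2'.symm (q := insert (y', y) (range fun i => (a i, a' i))) ?_).trans h7 ?_
    · rintro _ (rfl | ⟨i, rfl⟩)
      · exact mem_insert _ _
      · exact mem_insert_of_mem _ ⟨i, rfl⟩
    · rintro _ (rfl | ⟨i, rfl⟩)
      · exact ⟨y, mem_insert _ _, mem_insert _ _⟩
      · exact ⟨a' i, mem_insert_of_mem _ ⟨i, rfl⟩, mem_insert_of_mem _ ⟨i, rfl⟩⟩
  refine h8.trans h3' ?_
  rintro z (rfl | hz)
  · exact ⟨y, mem_insert _ _, mem_insert _ _⟩
  · obtain ⟨i, hi1, hi2⟩ := hqe z hz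
    exact ⟨b' i, mem_insert_of_mem _ ⟨i, by rw [← hi1]⟩, mem_insert_of_mem _ ⟨i, by rw [← hi2]⟩⟩

/-- a level with a point of `X` named gives a level -/
theorem Sb.sl {x : M} {X : Set M} {α : Ordinal.{0}} (hα : α < om1) (h : Sb S x X α)
    (hx : x ∈ X) : SL S X (α + Ordinal.omega0 + 1) := by
  intro p hp hpX hb γ hγ
  obtain ⟨x', hx', h1⟩ := hb.forth (lt_add_one_self _) hx
  have h2 : BFR S S X X (α + Ordinal.omega0) {(x, x')} :=
    BFR.anti (singleton_subset_iff.2 (mem_insert _ _)) h1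
  exact BFR.anti (subset_insert _ _) (h.det hα h2 γ hp hpX (h1.mono le_self_add))

/-- the level depends only on the atomic types over the named point -/
theorem Sb.base {y y' : M} {X : Set M} {α : Ordinal.{0}} (h : Sb S y X α)
    (H : ∀ p : Set (M × M), p.Finite → (∀ a ∈ p, a.1 ∈ X ∧ a.2 ∈ X) →
      (AtEq S S (insert (y, y) p) ↔ AtEq S S (insert (y', y') p))) : Sb S y' X α := by
  have key : ∀ γ : Ordinal.{0}, ∀ p : Set (M × M), p.Finite → (∀ a ∈ p, a.1 ∈ X ∧ a.2 ∈ X) →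
      (BFR S S X X γ (insert (y, y) p) ↔ BFR S S X X γ (insert (y', y') p)) := by
    intro γ
    induction γ using WellFoundedLT.induction with
    | _ γ ih =>
      intro p hp hpX
      rw [BFR.def, BFR.def, H p hp hpX]
      refine and_congr_right fun _ => forall_congr' fun β => forall_congr' fun hβ => ?_
      have e : ∀ x ∈ X, ∀ z ∈ X, (BFR S S X X β (insert (x, z) (insert (y, y) p)) ↔
          BFR S S X X β (insert (x, z) (insert (y', y') p))) := by
        intro x hx z hz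
        rw [insert_comm, insert_comm (x, z)]
        refine ih β hβ _ (hp.insert _) ?_
        rintro a (rfl | ha)
        · exact ⟨hx, hz⟩
        · exact hpX a ha
      constructor
      · rintro ⟨h1, h2⟩
        refine ⟨fun x hx => ?_, fun z hz => ?_⟩
        · obtain ⟨z, hz, h3⟩ := h1 x hx
          exact ⟨z, hz, (e x hx z hz).1 h3⟩
        · obtain ⟨x, hx, h3⟩ := h2 z hz
          exact ⟨x, hx, (e x hx z hz).1 h3⟩
      · rintro ⟨h1, h2⟩
        refine ⟨fun x hx => ?_, fun z hz => ?_⟩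
        · obtain ⟨z, hz, h3⟩ := h1 x hx
          exact ⟨z, hz, (e x hx z hz).2 h3⟩
        · obtain ⟨x, hx, h3⟩ := h2 z hz
          exact ⟨x, hx, (e x hx z hz).2 h3⟩
  intro p hp hpX hb γ hγ
  exact (key γ p hp hpX).1 (h p hp hpX ((key α p hp hpX).2 hb) γ hγ)

end Pool.Agent.MON

end

/-! ### formerly `Pool.Agent.MON.LEV` -/

section

/-!
# MON, module LEV: Scott levels of clusters, tameness
-/

set_option autoImplicit false
set_option linter.unusedSectionVars false
set_option linter.unusedVariables false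

namespace Pool.Agent.MON

open Set Pool.Agent.Helper5 Pool.Agent.Helper5.DU Pool.Agent.Helper6.Str
  Pool.Agent.Helper79.VC Pool.Agent.Helper97.VC Pool.Agent.Helper97.MD Pool.Agent.Helper6.VC
  Pool.Agent.Helper97.LO

variable {L : FirstOrder.Language.{0, 0}} {M N : Type} {σ : Sig L} {S : L.Structure M}
  {S' : L.Structure N}

/-- from a cluster to a larger set -/
theorem lev_ext (hL : Ar2 L) (hC : Cx σ S) {F : Finset M} {x : M} {T : Set M}
    (hT : Cl σ S F x ⊆ T) {γ : Ordinal.{0}} {q : Set (M × M)} (hx : (x, x) ∈ q)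
    (hq : ∀ a ∈ q, a.1 ∈ Cl σ S F x ∧ a.2 ∈ Cl σ S F x)
    (h : BFR S S (Cl σ S F x) (Cl σ S F x) γ q) : BFR S S T T γ q := by
  have h1 : BFR S S (T ∩ Cl σ S F x) (T ∩ Cl σ S F x) γ q := by
    rw [inter_eq_right.mpr hT]
    exact h
  refine BFR.anti subset_union_left (extC hL hC (U := T) (U' := T) (G := ∅) (cl_refl x) (Ce.refl x)
    rfl hq hx (empty_disjoint _) h1)

/-- from a larger set to a cluster -/
theorem lev_res (hC : Cx σ S) {F : Finset M} {x : M} {T : Set M}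
    (hT : Cl σ S F x ⊆ T) {γ : Ordinal.{0}} {q : Set (M × M)} (hx : (x, x) ∈ q)
    (h : BFR S S T T γ q) : BFR S S (Cl σ S F x) (Cl σ S F x) γ q := by
  have h1 := (resC hC (F := F) (cl_refl x) (Ce.refl x) hx h).1
  rwa [inter_eq_right.mpr hT] at h1

theorem lev_ins {F : Finset M} {x : M} {p : Set (M × M)}
    (hp : ∀ a ∈ p, a.1 ∈ Cl σ S F x ∧ a.2 ∈ Cl σ S F x) :
    ∀ a ∈ insert (x, x) p, a.1 ∈ Cl σ S F x ∧ a.2 ∈ Cl σ S F x := by
  rintro a (rfl | ha)
  · exact ⟨cl_refl x, cl_refl x⟩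
  · exact hp a ha

/-- **Subclusters.** Let `p` be a map of level `α` of `Cl F x` which fixes `x`. Extend it by the
identity to `T` (`extC` with `U = U' = T`), use `h`, restrict (`resC`). -/
theorem sl_sub (hL : Ar2 L) (hC : Cx σ S) {F : Finset M} {x : M} {T : Set M}
    (hT : Cl σ S F x ⊆ T) {α : Ordinal.{0}} (h : SL S T α) : Sb S x (Cl σ S F x) α := by
  intro p hp hpX hb γ hγ
  have h1 := lev_ins hpX
  have h2 := h _ (hp.insert (x, x)) (fun a ha => ⟨hT (h1 a ha).1, hT (h1 a ha).2⟩)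
    (lev_ext hL hC hT (mem_insert _ _) h1 hb) γ hγ
  exact lev_res hC hT (mem_insert _ _) h2

/-- the same if only the level of `T` with some named point of the cluster is known -/
theorem sb_sub (hL : Ar2 L) (hC : Cx σ S) {F : Finset M} {x : M} {T : Set M}
    (hT : Cl σ S F x ⊆ T) {α : Ordinal.{0}} (h : Sb S x T α) : Sb S x (Cl σ S F x) α := by
  intro p hp hpX hb γ hγ
  have h1 := lev_ins hpX
  have h2 := h p hp (fun a ha => ⟨hT (hpX a ha).1, hT (hpX a ha).2⟩)
    (lev_ext hL hC hT (mem_insert _ _) h1 hb) γ hγ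
  exact lev_res hC hT (mem_insert _ _) h2

/-- the components of a finite set of pairs -/
theorem lev_comp {q : Set (M × M)} (hq : q.Finite) {T : Set M}
    (hqT : ∀ a ∈ q, a.1 ∈ T ∧ a.2 ∈ T) : ∃ G : Finset M, (G : Set M) ⊆ T ∧
      ∀ a ∈ q, a.1 ∈ G ∧ a.2 ∈ G := by
  classical
  have hf : (Prod.fst '' q ∪ Prod.snd '' q).Finite := (hq.image _).union (hq.image _)
  refine ⟨hf.toFinset, ?_, fun a ha => ?_⟩
  · rw [hf.coe_toFinset]
    rintro u (⟨a, ha, rfl⟩ | ⟨a, ha, rfl⟩)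
    · exact (hqT a ha).1
    · exact (hqT a ha).2
  · rw [hf.mem_toFinset, hf.mem_toFinset]
    exact ⟨Or.inl (mem_image_of_mem _ ha), Or.inr (mem_image_of_mem _ ha)⟩

/-- a larger cluster containing a given element -/
theorem lev_step (hL : Ar2 L) (hC : Cx σ S) {x : M} {T : Set M} (hx : x ∈ T) {α : Ordinal.{0}}
    (hT : ∀ G : Finset M, (G : Set M) ⊆ T → ∃ F : Finset M,
      (G : Set M) ⊆ Cl σ S F x ∧ Cl σ S F x ⊆ T ∧ SL S (Cl σ S F x) α) {q : Set (M × M)}
    (hxq : (x, x) ∈ q) {F : Finset M} (hF : Cl σ S F x ⊆ T)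
    (hsl : SL S (Cl σ S F x) α) (hq : ∀ a ∈ q, a.1 ∈ Cl σ S F x ∧ a.2 ∈ Cl σ S F x)
    (hb : BFI S S (Cl σ S F x) (Cl σ S F x) q) {c : M} (hc : c ∈ T) :
    ∃ D : Finset M, c ∈ Cl σ S D x ∧ Cl σ S D x ⊆ T ∧ SL S (Cl σ S D x) α ∧
      (∀ a ∈ q, a.1 ∈ Cl σ S D x ∧ a.2 ∈ Cl σ S D x) ∧
      BFI S S (Cl σ S D x) (Cl σ S D x) q := by
  classical
  obtain ⟨F', h1, h2, h3⟩ := hT {c} (by simpa using hc)
  have hcF : c ∈ Cl σ S F' x := h1 (by simp)
  rcases hC.nest (cl_refl (σ := σ) (S := S) (F := F) x) (cl_refl (F := F') x) with h4 | h4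
  · refine ⟨F', hcF, h2, h3, fun a ha => ⟨h4 (hq a ha).1, h4 (hq a ha).2⟩, fun γ hγ => ?_⟩
    exact lev_ext hL hC h4 hxq hq (hb γ hγ)
  · exact ⟨F, h4 hcF, hF, hsl, hq, hb⟩

theorem lev_claim (hL : Ar2 L) (hC : Cx σ S) {x : M} {T : Set M} (hx : x ∈ T) {α : Ordinal.{0}}
    (hα : α < om1) (hT : ∀ G : Finset M, (G : Set M) ⊆ T → ∃ F : Finset M,
      (G : Set M) ⊆ Cl σ S F x ∧ Cl σ S F x ⊆ T ∧ SL S (Cl σ S F x) α) (γ : Ordinal.{0}) :
    ∀ (q : Set (M × M)), q.Finite → (x, x) ∈ q → ∀ F : Finset M, Cl σ S F x ⊆ T →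
      SL S (Cl σ S F x) α → (∀ a ∈ q, a.1 ∈ Cl σ S F x ∧ a.2 ∈ Cl σ S F x) →
      BFI S S (Cl σ S F x) (Cl σ S F x) q → BFR S S T T γ q := by
  induction γ using WellFoundedLT.induction with
  | _ γ ih =>
    intro q hqf hxq F hF hsl hq hb
    rw [BFR.def]
    refine ⟨(hb 0 (Ordinal.omega_pos 1)).atEq, fun β hβ => ⟨fun c hc => ?_, fun c hc => ?_⟩⟩
    · obtain ⟨D, h1, h2, h3, h4, h5⟩ := lev_step hL hC hx hT hxq hF hsl hq hb hc
      obtain ⟨y, hy, h6⟩ := (h5 (α + 1) (add_one_lt_om1 hα)).forth (lt_add_one_self α) h1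
      have h7 : ∀ a ∈ insert (c, y) q, a.1 ∈ Cl σ S D x ∧ a.2 ∈ Cl σ S D x := by
        rintro a (rfl | ha)
        · exact ⟨h1, hy⟩
        · exact h4 a ha
      exact ⟨y, h2 hy, ih β hβ _ (hqf.insert _) (mem_insert_of_mem _ hxq) D h2 h3 h7
        (h3 _ (hqf.insert _) h7 h6)⟩
    · obtain ⟨D, h1, h2, h3, h4, h5⟩ := lev_step hL hC hx hT hxq hF hsl hq hb hc
      obtain ⟨y, hy, h6⟩ := (h5 (α + 1) (add_one_lt_om1 hα)).back (lt_add_one_self α) h1
      have h7 : ∀ a ∈ insert (y, c) q, a.1 ∈ Cl σ S D x ∧ a.2 ∈ Cl σ S D x := by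
        rintro a (rfl | ha)
        · exact ⟨hy, h1⟩
        · exact h4 a ha
      exact ⟨y, h2 hy, ih β hβ _ (hqf.insert _) (mem_insert_of_mem _ hxq) D h2 h3 h7
        (h3 _ (hqf.insert _) h7 h6)⟩

/-- **Unions of chains of clusters.** Claim by induction on `γ`: if `p` is a finite map with
`(x, x) ∈ p`, `p ⊆ C × C` for one of the clusters `C = Cl F x ⊆ T` of level `α`, and `BFI S S C C p`,
then `BFR S S T T γ p`. Forth: `c ∈ T`; take a cluster `C'` of level `α` containing `c` and the elements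
of `p`; `C`, `C'` are nested (`Cx.nest`); `p` is a `BFI` of the larger one (`extC`); take a step of
level `α + 1` there, the new map is of level `α`, hence of all levels. -/
theorem sl_chain (hL : Ar2 L) (hC : Cx σ S) {x : M} {T : Set M} (hx : x ∈ T) {α : Ordinal.{0}}
    (hα : α < om1) (hT : ∀ G : Finset M, (G : Set M) ⊆ T → ∃ F : Finset M,
      (G : Set M) ⊆ Cl σ S F x ∧ Cl σ S F x ⊆ T ∧ SL S (Cl σ S F x) α) : Sb S x T α := by
  intro p hp hpT hb γ hγ
  obtain ⟨G, hG, hGp⟩ := lev_comp hp hpT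
  obtain ⟨F, h1, h2, h3⟩ := hT G hG
  have h4 : ∀ a ∈ insert (x, x) p, a.1 ∈ Cl σ S F x ∧ a.2 ∈ Cl σ S F x :=
    lev_ins fun a ha => ⟨h1 (hGp a ha).1, h1 (hGp a ha).2⟩
  exact lev_claim hL hC hx hα hT γ _ (hp.insert _) (mem_insert _ _) F h2 h3 h4
    (h3 _ (hp.insert _) h4 (lev_res hC h2 (mem_insert _ _) hb))

end Pool.Agent.MON

end

/-! ### formerly `Pool.Agent.MON.LEVc` -/

section

/-!
# MON, module LEVc: definable sets, tameness and Scott levels
-/

set_option autoImplicit false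
set_option linter.unusedSectionVars false
set_option linter.unusedVariables false

namespace Pool.Agent.MON

open Set Pool.Agent.Helper5 Pool.Agent.Helper5.DU Pool.Agent.Helper6.Str
  Pool.Agent.Helper79.VC Pool.Agent.Helper97.VC Pool.Agent.Helper97.MD Pool.Agent.Helper6.VC
  Pool.Agent.Helper97.LO

variable {L : FirstOrder.Language.{0, 0}} {M N : Type} {σ : Sig L} {S : L.Structure M}
  {S' : L.Structure N}

section

variable [∀ n, IsEmpty (L.Functions n)] [∀ n, Countable (L.Relations n)]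
  {K : Set (L.Structure ℕ)} {δ : Ordinal.{0}}

/-- clusters are definable over `x` at level `0` (`Cx.base'`) -/
theorem dfb_cl (hC : Cx σ S) (F : Finset M) (x : M) : Dfb S (Cl σ S F x) := by
  classical
  refine ⟨insert x F, 0, Ordinal.omega_pos 1, fun c c' h => ?_⟩
  have h1 := h.atEq
  refine cl_congr h1 (Mt.dg ?_) (x := x) (x' := x) ?_ (mem_insert _ _)
  · refine (image_mono ?_).trans (subset_insert _ _)
    rw [Finset.coe_insert]
    exact subset_insert _ _
  · exact mem_insert_of_mem _ ⟨x, by simp, rfl⟩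

theorem dfb_vp (hC : Cx σ S) (F : Finset M) (x : M) : Dfb S (Vp σ S F x) := by
  classical
  refine ⟨insert x F, 0, Ordinal.omega_pos 1, fun c c' h => ?_⟩
  have h1 := h.atEq
  refine vp_congr h1 (Mt.dg ?_) (x := x) (x' := x) ?_ (mem_insert _ _)
  · refine (image_mono ?_).trans (subset_insert _ _)
    rw [Finset.coe_insert]
    exact subset_insert _ _
  · exact mem_insert_of_mem _ ⟨x, by simp, rfl⟩

theorem dfb_diff {X Y : Set M} (hX : Dfb S X) (hY : Dfb S Y) : Dfb S (X \ Y) := by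
  classical
  obtain ⟨F, η, hη, h1⟩ := hX
  obtain ⟨G, θ, hθ, h2⟩ := hY
  refine ⟨F ∪ G, max η θ, max_lt hη hθ, fun c c' h => ?_⟩
  have h3 := h1 c c' (BFR.anti (insert_subset_insert (image_mono (by
    rw [Finset.coe_union]
    exact subset_union_left))) (h.mono (le_max_left _ _)))
  have h4 := h2 c c' (BFR.anti (insert_subset_insert (image_mono (by
    rw [Finset.coe_union]
    exact subset_union_right))) (h.mono (le_max_right _ _)))
  rw [mem_sdiff, mem_sdiff, h3, h4]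

/-- **A cluster with a countable Scott level is tame.** For a finite `G` let `κ c` be the code
(`VSt.code`, level `α`) of `c` together with the elements of `G` and `x`. If `κ c = κ c'` then the map is of
level `α` on `univ`, restrict to the cluster (`resC`), it is of all levels there, extend by the
identity (`extC`). -/
theorem tt_of_sl (hL : Ar2 L) (hS : VSt K δ S) (hC : Cx σ S) {F : Finset M} {x : M}
    {α : Ordinal.{0}} (hα : α < om1) (h : SL S (Cl σ S F x) α) : TT S (Cl σ S F x) := by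
  classical
  intro G
  obtain ⟨κ, hκ⟩ := hS.small α hα (insert x G) (subset_univ _)
  refine ⟨κ, fun c hc c' hc' hcc γ hγ => ?_⟩
  have h1 := hκ c (mem_univ _) c' (mem_univ _) hcc
  have hxG : (x, x) ∈ insert (c, c') (dg ((insert x G : Finset M) : Set M)) :=
    mem_insert_of_mem _ ⟨x, by simp, rfl⟩
  have h2 := (resC hC (F := F) (cl_refl x) (Ce.refl x) hxG h1).1
  rw [univ_inter] at h2
  have hfin : (insert (x, x) (insert (c, c') (dg ((G : Set M) ∩ Cl σ S F x)))).Finite :=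
    (((G.finite_toSet.inter_of_left _).image _).insert _).insert _
  have hpX : ∀ a ∈ insert (x, x) (insert (c, c') (dg ((G : Set M) ∩ Cl σ S F x))),
      a.1 ∈ Cl σ S F x ∧ a.2 ∈ Cl σ S F x := by
    rintro a (rfl | rfl | ⟨g, hg, rfl⟩)
    · exact ⟨cl_refl x, cl_refl x⟩
    · exact ⟨hc, hc'⟩
    · exact ⟨hg.2, hg.2⟩
  have h3 : BFR S S (Cl σ S F x) (Cl σ S F x) α
      (insert (x, x) (insert (c, c') (dg ((G : Set M) ∩ Cl σ S F x)))) := by
    refine BFR.anti ?_ h2
    rintro a (rfl | rfl | ⟨g, hg, rfl⟩)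
    · exact hxG
    · exact mem_insert _ _
    · refine mem_insert_of_mem _ ⟨g, ?_, rfl⟩
      rw [Finset.coe_insert]
      exact mem_insert_of_mem _ hg.1
  have h4 := h _ hfin hpX h3 γ hγ
  have h5 := extC hL hC (cl_refl x) (Ce.refl x) (U := univ) (U' := univ) rfl (γ := γ)
    (G := (G : Set M) \ Cl σ S F x) hpX (mem_insert _ _) disjoint_sdiff_left
    (by rwa [univ_inter])
  refine BFR.anti ?_ h5
  rintro a (rfl | ⟨g, hg, rfl⟩)
  · exact Or.inl (mem_insert_of_mem _ (mem_insert _ _))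
  · by_cases hgC : g ∈ Cl σ S F x
    · exact Or.inl (mem_insert_of_mem _ (mem_insert_of_mem _ ⟨g, ⟨hg, hgC⟩, rfl⟩))
    · exact Or.inr ⟨g, ⟨hg, hgC⟩, rfl⟩

/-- tame definable sets have countable Scott levels (`TT.tameX`, `TameX.exists_SL`) -/
theorem sl_of_tt {X : Set M} (hX : Dfb S X) (h : TT S X) : ∃ α < om1, SL S X α :=
  (h.tameX hX).exists_SL

/-- with a named point (`insert y X` is tame and definable, `Sb.of_insert`) -/
theorem sb_of_tt {X : Set M} (hX : Dfb S X) (h : TT S X) (y : M) :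
    ∃ α < om1, Sb S y X α := by
  classical
  have h1 : TT S (insert y X) := by
    rw [insert_eq]
    exact (TT.of_countable (countable_singleton y)).union h
  have h2 : Dfb S (insert y X) := by
    obtain ⟨F, η, hη, h1⟩ := hX
    refine ⟨insert y F, η, hη, fun c c' h => ?_⟩
    have h3 := h1 c c' (BFR.anti (insert_subset_insert (image_mono (by
      rw [Finset.coe_insert]
      exact subset_insert _ _))) h)
    have h4 : c = y ↔ c' = y := h.atEq.1 (c, c') (mem_insert _ _) (y, y)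
      (mem_insert_of_mem _ ⟨y, by simp, rfl⟩)
    rw [mem_insert_iff, mem_insert_iff, h3, h4]
  obtain ⟨α, hα, h3⟩ := sl_of_tt h2 h1
  exact ⟨α, hα, Sb.of_insert h3⟩

end

end Pool.Agent.MON

end

/-! ### formerly `Pool.Agent.MON.TC` -/

section

/-!
# MON, module TC: countably many clusters of a point, the maximal tame classes
-/

set_option autoImplicit false
set_option linter.unusedSectionVars false
set_option linter.unusedVariables false

namespace Pool.Agent.MON

open Set Pool.Agent.Helper5 Pool.Agent.Helper5.DU Pool.Agent.Helper6.Str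
  Pool.Agent.Helper79.VC Pool.Agent.Helper97.VC Pool.Agent.Helper97.MD Pool.Agent.Helper6.VC
  Pool.Agent.Helper97.LO

variable {L : FirstOrder.Language.{0, 0}} {M N : Type} {σ : Sig L} {S : L.Structure M}

/-- if all elements of a cluster ... membership in `Tm` is decided by the atomic type over `x` -/
theorem tm_base (hC : Cx σ S) {p : Set (M × M)} (hp : AtEq S S p) {x u u' : M}
    (hx : (x, x) ∈ p) (hu : (u, u') ∈ p) : u ∈ Tm σ S x ↔ u' ∈ Tm σ S x := by
  constructor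
  · rintro ⟨F, h1, h2⟩
    exact ⟨F, h1, (hC.base' hp hx hu).1.1 h2⟩
  · rintro ⟨F, h1, h2⟩
    exact ⟨F, h1, (hC.base' hp hx hu).1.2 h2⟩

theorem tc_sing (hC : Cx σ S) (x : M) : TT S (Cl σ S {x} x) := by
  rw [hC.cl_of_mem (Finset.mem_singleton_self x)]
  exact TT.of_countable (countable_singleton x)

theorem tm_refl (hC : Cx σ S) (x : M) : x ∈ Tm σ S x := ⟨{x}, tc_sing hC x, cl_refl x⟩

theorem cl_sub_tm {F : Finset M} {x : M} (h : TT S (Cl σ S F x)) : Cl σ S F x ⊆ Tm σ S x :=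
  fun u hu => ⟨F, h, hu⟩

/-- finitely many elements of `Tm x` are in one tame cluster of `x` (`Cx.nest`, induction) -/
theorem tm_dir (hC : Cx σ S) {x : M} (G : Finset M) (hG : (G : Set M) ⊆ Tm σ S x) :
    ∃ F : Finset M, TT S (Cl σ S F x) ∧ (G : Set M) ⊆ Cl σ S F x := by
  classical
  induction G using Finset.induction_on with
  | empty => exact ⟨{x}, tc_sing hC x, by simp⟩
  | insert u G hu ih =>
    rw [Finset.coe_insert, insert_subset_iff] at hG
    obtain ⟨F, h1, h2⟩ := ih hG.2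
    obtain ⟨F', h3, h4⟩ := hG.1
    rcases hC.nest (cl_refl (σ := σ) (S := S) (F := F) x) (cl_refl (F := F') x) with h5 | h5
    · refine ⟨F', h3, ?_⟩
      rw [Finset.coe_insert, insert_subset_iff]
      exact ⟨h4, h2.trans h5⟩
    · refine ⟨F, h1, ?_⟩
      rw [Finset.coe_insert, insert_subset_iff]
      exact ⟨h5 h4, h2⟩

theorem tc_sub (hC : Cx σ S) {x u : M} (hu : u ∈ Tm σ S x) : Tm σ S u ⊆ Tm σ S x := by
  rintro v ⟨F', h1, h2⟩
  obtain ⟨F, h3, h4⟩ := hu
  have e := hC.cl_eq h4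
  rcases hC.nest (cl_refl (σ := σ) (S := S) (F := F') u) h4 with h5 | h5
  · exact ⟨F, h3, h5 h2⟩
  · have h6 : x ∈ Cl σ S F' u := h5 (cl_refl x)
    have e' := hC.cl_eq h6
    exact ⟨F', by rwa [e'], by rwa [e']⟩

theorem tm_eq (hC : Cx σ S) {x u : M} (hu : u ∈ Tm σ S x) : Tm σ S u = Tm σ S x := by
  refine Subset.antisymm (tc_sub hC hu) (tc_sub hC ?_)
  obtain ⟨F, h3, h4⟩ := hu
  exact ⟨F, by rwa [hC.cl_eq h4], cl_symm h4⟩

/-- a wild cluster of `x` contains `Tm x` -/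
theorem tm_sub_wild (hC : Cx σ S) {F : Finset M} {x : M} (h : ¬ TT S (Cl σ S F x)) :
    Tm σ S x ⊆ Cl σ S F x := by
  rintro u ⟨F', h1, h2⟩
  rcases hC.nest (cl_refl (σ := σ) (S := S) (F := F) x) (cl_refl (F := F') x) with h5 | h5
  · exact absurd (h1.mono h5) h
  · exact h5 h2

/-- a tame cluster meets at most one class -/
theorem tm_cl_disj (hC : Cx σ S) {F : Finset M} {x y : M} (h : TT S (Cl σ S F y))
    (hy : y ∉ Tm σ S x) : Disjoint (Cl σ S F y) (Tm σ S x) := by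
  rw [Set.disjoint_left]
  intro z hz hz'
  apply hy
  rw [← tm_eq hC hz', tm_eq hC (cl_sub_tm h hz)]
  exact tm_refl hC y

section

variable [∀ n, IsEmpty (L.Functions n)] [∀ n, Countable (L.Relations n)]
  {K : Set (L.Structure ℕ)} {δ : Ordinal.{0}}

/-- `e` enumerates `x` and `F` -/
def tc_good (x : M) (F : Finset M) (m : ℕ) (e : Fin (m + 1) → M) : Prop :=
  e 0 = x ∧ ∀ w, w ∈ F ↔ ∃ i : Fin m, e i.succ = w

theorem tc_exists (x : M) (F : Finset M) : ∃ (m : ℕ) (e : Fin (m + 1) → M), tc_good x F m e := by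
  refine ⟨F.card, Fin.cons x fun i => (F.equivFin.symm i : M), Fin.cons_zero _ _, fun w => ?_⟩
  constructor
  · intro hw
    refine ⟨F.equivFin ⟨w, hw⟩, ?_⟩
    rw [Fin.cons_succ, Equiv.symm_apply_apply]
  · rintro ⟨i, rfl⟩
    rw [Fin.cons_succ]
    exact (F.equivFin.symm i).2

theorem tc_key (hC : Cx σ S) {x : M} {m : ℕ} {e e' : Fin (m + 1) → M} {F F' : Finset M}
    (h : BFR S S univ univ 1 (pr e e')) (he : tc_good x F m e) (he' : tc_good x F' m e') :
    Cl σ S F x ⊆ Cl σ S F' x := by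
  intro u hu
  obtain ⟨u', -, h1⟩ := h.forth zero_lt_one (mem_univ u)
  have h2 := h1.atEq
  have hx : (x, x) ∈ insert (u, u') (pr e e') := by
    refine mem_insert_of_mem _ ⟨0, ?_⟩
    show (e 0, e' 0) = (x, x)
    rw [he.1, he'.1]
  have hu' : (u, u') ∈ insert (u, u') (pr e e') := mem_insert _ _
  have hm : Mt (insert (u, u') (pr e e')) F F' := by
    refine ⟨fun w hw => ?_, fun w hw => ?_⟩
    · obtain ⟨i, rfl⟩ := (he.2 w).1 hw
      exact ⟨e' i.succ, (he'.2 _).2 ⟨i, rfl⟩, mem_insert_of_mem _ ⟨i.succ, rfl⟩⟩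
    · obtain ⟨i, rfl⟩ := (he'.2 w).1 hw
      exact ⟨e i.succ, (he.2 _).2 ⟨i, rfl⟩, mem_insert_of_mem _ ⟨i.succ, rfl⟩⟩
  have h3 := (cl_congr h2 hm hx hu').1 hu
  exact (hC.blk' h3 fun i => (rl_congr h2 hx hu' i).symm).1

/-- **Every point has only countably many clusters.** For each `n` take `VSt.code` at level `1` for
`n + 1`-tuples (`x` and an enumeration of `F`), and for each value which occurs a representative. If
`(e, x)` and `(e', x)` have the same code then the clusters are equal: let `u` be in the first; it has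
an image `u'` with `AtEq` for `{(e, e'), (x, x), (u, u')}`, so `u'` is in the second one (`cl_congr`) and
`u'`, `u` have the same atomic type over `x`, so `u` is in the second one (`Cx.blk'`). -/
theorem ctbl_cl (hS : VSt K δ S) (hC : Cx σ S) (x : M) :
    ∃ g : ℕ → Finset M, ∀ F : Finset M, ∃ n, Cl σ S F x = Cl σ S (g n) x := by
  classical
  choose κ hκ using fun n : ℕ => hS.code (γ := 1) (by
    have h := add_one_lt_om1 (Ordinal.omega_pos 1)
    rwa [zero_add] at h) (n + 1)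
  have hrep : ∀ m k : ℕ, ∃ F : Finset M, (∃ (F' : Finset M) (e : Fin (m + 1) → M),
      tc_good x F' m e ∧ κ m e = k) → ∃ e : Fin (m + 1) → M, tc_good x F m e ∧ κ m e = k := by
    intro m k
    by_cases h : ∃ (F' : Finset M) (e : Fin (m + 1) → M), tc_good x F' m e ∧ κ m e = k
    · obtain ⟨F', e, h1, h2⟩ := h
      exact ⟨F', fun _ => ⟨e, h1, h2⟩⟩
    · exact ⟨∅, fun h' => absurd h' h⟩
  choose r hr using hrep
  refine ⟨fun n => r n.unpair.1 n.unpair.2, fun F => ?_⟩
  obtain ⟨m, e, he⟩ := tc_exists x F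
  refine ⟨Nat.pair m (κ m e), ?_⟩
  simp only [Nat.unpair_pair]
  obtain ⟨e', he', hk⟩ := hr m (κ m e) ⟨F, e, he, rfl⟩
  exact Subset.antisymm (tc_key hC (hκ m e e' hk.symm) he he')
    (tc_key hC (hκ m e' e hk) he' he)

/-- the maximal tame class is tame (`ctbl_cl`, `TT.iUnion`) -/
theorem tm_tt (hS : VSt K δ S) (hC : Cx σ S) (x : M) : TT S (Tm σ S x) := by
  classical
  obtain ⟨g, hg⟩ := ctbl_cl hS hC x
  have h1 : TT S (⋃ n : ℕ, if TT S (Cl σ S (g n) x) then Cl σ S (g n) x else ∅) := by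
    refine TT.iUnion fun n => ?_
    split_ifs with h
    · exact h
    · exact TT.of_countable countable_empty
  refine h1.mono ?_
  rintro u ⟨F, h2, h3⟩
  obtain ⟨n, hn⟩ := hg F
  rw [hn] at h2 h3
  refine mem_iUnion.2 ⟨n, ?_⟩
  rw [if_pos h2]
  exact h3

theorem dfb_tm (hC : Cx σ S) (x : M) : Dfb S (Tm σ S x) := by
  refine ⟨{x}, 0, Ordinal.omega_pos 1, fun c c' h => ?_⟩
  exact tm_base hC h.atEq (mem_insert_of_mem _ ⟨x, by simp, rfl⟩) (mem_insert _ _)

end

end Pool.Agent.MON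

end
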