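import Pool.Agent.Helper60.VCM.C2a
import Pool.Agent.Helper22.VCM.C2b
import Pool.Agent.Helper35.VCM.OT

/-!
# Tools for Vaught's conjecture, part 4: pairs of classes

Merged file (to shorten the import chain): contents, unchanged, of
`Pool.Agent.Helper6.VCM.PCL1`, `Pool.Agent.Helper6.VCM.PCL2`, `Pool.Agent.Helper6.VCM.PCL3`, `Pool.Agent.Helper6.VCM.PCL4`, `Pool.Agent.Helper6.VCM.PCL5`, `Pool.Agent.Helper6.VCM.PCL6`.
-/

/-! ### formerly `Pool.Agent.Helper6.VCM.PCL1` -/

section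

/-!
# Replacing parts of a structure: the structure with replaced parts
-/

set_option autoImplicit false
set_option linter.unusedSectionVars false
set_option linter.unusedVariables false

namespace Pool.Agent.Helper97.LO

open Set Pool.Agent.Helper5.DU Pool.Agent.Helper6.Str Pool.Agent.Helper79.VC
  Pool.Agent.Helper97.VC Pool.Agent.Helper97.MD

variable {L : FirstOrder.Language.{0, 0}} {M N P : Type} {I : Type}

theorem bfr_zero_iff {S : L.Structure M} {S' : L.Structure N} {X : Set M} {Y : Set N}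
    {p : Set (M × N)} : BFR S S' X Y 0 p ↔ AtEq S S' p := by
  rw [BFR.def]
  exact ⟨fun h => h.1, fun h => ⟨h, fun β hβ => absurd hβ (by simp)⟩⟩

theorem atEq_trans {S : L.Structure M} {S' : L.Structure N} {S'' : L.Structure P}
    {p : Set (M × N)} {q : Set (N × P)} {r : Set (M × P)} (h1 : AtEq S S' p)
    (h2 : AtEq S' S'' q) (hr : ∀ a ∈ r, ∃ b, (a.1, b) ∈ p ∧ (b, a.2) ∈ q) : AtEq S S'' r := by
  rw [← bfr_zero_iff (X := univ) (Y := univ)] at h1 h2 ⊢
  exact h1.trans h2 hr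

theorem atEq_symm {S : L.Structure M} {S' : L.Structure N} {p : Set (M × N)}
    {q : Set (N × M)} (h : AtEq S S' p) (hq : ∀ a ∈ q, (a.2, a.1) ∈ p) : AtEq S' S q := by
  rw [← bfr_zero_iff (X := univ) (Y := univ)] at h ⊢
  exact h.symm hq

/-- The parts of a structure (given by `π`) satisfy the cross rule. -/
def CrossPi (S : L.Structure M) (π : M → I) : Prop :=
  ∀ p : Set (M × M), (∀ a ∈ p, π a.1 = π a.2) → (∀ i, AtEq S S {a ∈ p | π a.1 = i}) →
    AtEq S S p

theorem crossPi_of_rule {S : L.Structure M} {E : M → M → Prop} {π : M → I}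
    (hπ : ∀ x y, π x = π y ↔ E x y) (h : CrossRule S E) : CrossPi S π := by
  intro p hp h'
  refine h p (fun a ha => (hπ _ _).mp (hp a ha)) fun x => ?_
  refine AtEq.anti ?_ (h' (π x))
  rintro a ⟨ha, hxa⟩
  exact ⟨ha, ((hπ _ _).mpr hxa).symm⟩

section NS

variable [∀ n, IsEmpty (L.Functions n)]

/-- the structure in which the part `i` is replaced by `(T i, Y i)` -/
@[instance_reducible]
def NS (S : L.Structure M) (T : I → L.Structure ℕ) (Y : I → Set ℕ) (u : I → ℕ → M) :
    L.Structure {w : I × ℕ // w.2 ∈ Y w.1} where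
  funMap := fun f _ => isEmptyElim f
  RelMap := fun {n} R v =>
    (∃ i, (∀ j, (v j).1.1 = i) ∧ (T i).RelMap R (fun j => (v j).1.2)) ∨
    ((¬ ∃ i, ∀ j, (v j).1.1 = i) ∧ S.RelMap R (fun j => u (v j).1.1 (v j).1.2))

variable {S : L.Structure M} {T : I → L.Structure ℕ} {Y : I → Set ℕ} {u : I → ℕ → M}
  {π : M → I} {A : Set M}

theorem NS_same (hL : Ar2 L) {n : ℕ} (R : L.Relations n) {i : I}
    {v : Fin n → {w : I × ℕ // w.2 ∈ Y w.1}} (hv : ∀ j, (v j).1.1 = i) :
    (NS S T Y u).RelMap R v ↔ (T i).RelMap R (fun j => (v j).1.2) := by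
  constructor
  · rintro (⟨k, hk, h⟩ | ⟨h, _⟩)
    · rcases Nat.eq_zero_or_pos n with hn | hn
      · subst hn
        exact ((hL 0 (by decide) (by decide)).false R).elim
      · have : i = k := (hv ⟨0, hn⟩).symm.trans (hk ⟨0, hn⟩)
        subst this
        exact h
    · exact absurd ⟨i, hv⟩ h
  · intro h
    exact Or.inl ⟨i, hv, h⟩

theorem NS_part (hL : Ar2 L) (i : I) (γ : Ordinal.{0})
    {p : Set ({w : I × ℕ // w.2 ∈ Y w.1} × ℕ)} (hp : ∀ a ∈ p, a.1.1.1 = i ∧ a.2 = a.1.1.2) :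
    BFR (NS S T Y u) (T i) {w | w.1.1 = i} (Y i) γ p := by
  refine BFR.of_map (fun w : {w : I × ℕ // w.2 ∈ Y w.1} => w.1.2) ?_ ?_ ?_ γ hp
  · intro w hw w' hw' h
    exact Subtype.ext (Prod.ext ((show w.1.1 = i from hw).trans
      (show w'.1.1 = i from hw').symm) h)
  · ext k
    constructor
    · intro hk
      exact ⟨⟨(i, k), hk⟩, rfl, rfl⟩
    · rintro ⟨w, hw, rfl⟩
      have h := w.2
      rw [show w.1.1 = i from hw] at h
      exact h
  · intro n R v hv
    exact NS_same hL R hv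

/-- **The cross rule for the structure with replaced parts.** -/
theorem NS_atEq (hL : Ar2 L) (hcr : CrossPi S π)
    (hu : ∀ i, ∀ k ∈ Y i, π (u i k) = i ∧ AtEq (T i) S {(k, u i k)})
    {p : Set ({w : I × ℕ // w.2 ∈ Y w.1} × M)} (hp : ∀ a ∈ p, a.1.1.1 = π a.2)
    (h : ∀ i, AtEq (NS S T Y u) S {a ∈ p | a.1.1.1 = i}) : AtEq (NS S T Y u) S p := by
  have h1 : ∀ a ∈ p, AtEq (NS S T Y u) S {a} := by
    intro a ha
    refine AtEq.anti ?_ (h a.1.1.1)
    rintro _ rfl
    exact ⟨ha, rfl⟩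
  have hu1 : ∀ a ∈ p, AtEq S S {(u a.1.1.1 a.1.1.2, a.2)} := by
    intro a ha
    have h2 : AtEq (NS S T Y u) (T a.1.1.1) {(a.1, a.1.1.2)} := by
      refine (NS_part (S := S) (T := T) (u := u) hL a.1.1.1 0 (p := {(a.1, a.1.1.2)}) ?_).atEq
      rintro _ rfl
      exact ⟨rfl, rfl⟩
    have h3 : AtEq (NS S T Y u) S {(a.1, u a.1.1.1 a.1.1.2)} := by
      refine atEq_trans h2 (hu _ _ a.1.2).2 ?_
      rintro _ rfl
      exact ⟨_, rfl, rfl⟩
    have h4 : AtEq S (NS S T Y u) {(u a.1.1.1 a.1.1.2, a.1)} := by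
      refine atEq_symm h3 ?_
      rintro _ rfl
      rfl
    refine atEq_trans h4 (h1 a ha) ?_
    rintro _ rfl
    exact ⟨_, rfl, rfl⟩
  refine atEq_of_pairs hL fun a ha b hb => ?_
  by_cases hab : a.1.1.1 = b.1.1.1
  · refine AtEq.anti ?_ (h a.1.1.1)
    rintro _ (rfl | rfl)
    · exact ⟨ha, rfl⟩
    · exact ⟨hb, hab.symm⟩
  · have hab' : π a.2 ≠ π b.2 := fun h' => hab ((hp a ha).trans (h'.trans (hp b hb).symm))
    refine atEq_pair hL (h1 a ha) (h1 b hb) ?_ ?_
    · constructor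
      · intro h'
        exact absurd (by rw [h']) hab
      · intro h'
        exact absurd (by rw [h']) hab'
    · -- the binary type
      have hpair : ∀ a ∈ p, ∀ b ∈ p, a.1.1.1 ≠ b.1.1.1 → ∀ R : L.Relations 2,
          (NS S T Y u).RelMap R ![a.1, b.1] ↔ S.RelMap R ![a.2, b.2] := by
        intro a ha b hb hab R
        have hpa := (hu _ _ a.1.2).1
        have hpb := (hu _ _ b.1.2).1
        have h5 : AtEq S S {(u a.1.1.1 a.1.1.2, a.2), (u b.1.1.1 b.1.1.2, b.2)} := by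
          refine hcr _ ?_ fun i => ?_
          · rintro _ (rfl | rfl)
            · exact hpa.trans (hp a ha)
            · exact hpb.trans (hp b hb)
          · by_cases hi : i = a.1.1.1
            · refine AtEq.anti ?_ (hu1 a ha)
              rintro _ ⟨rfl | rfl, hi'⟩
              · rfl
              · exact absurd (hi.symm.trans (hi'.symm.trans hpb)) hab
            · refine AtEq.anti ?_ (hu1 b hb)
              rintro _ ⟨rfl | rfl, hi'⟩
              · exact absurd (hi'.symm.trans hpa) hi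
              · rfl
        have h6 : (NS S T Y u).RelMap R ![a.1, b.1] ↔
            S.RelMap R ![u a.1.1.1 a.1.1.2, u b.1.1.1 b.1.1.2] := by
          have h7 : (fun j => u ((![a.1, b.1] : Fin 2 → _) j).1.1
              ((![a.1, b.1] : Fin 2 → _) j).1.2) =
              ![u a.1.1.1 a.1.1.2, u b.1.1.1 b.1.1.2] := by
            funext j
            refine Fin.cases ?_ (fun j => ?_) j
            · rfl
            · refine Fin.cases ?_ (fun j => j.elim0) j
              rfl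
          have h8 : ¬ ∃ i, ∀ j, ((![a.1, b.1] : Fin 2 → {w : I × ℕ // w.2 ∈ Y w.1}) j).1.1 = i := by
            rintro ⟨i, hi⟩
            exact hab ((hi 0).trans (hi 1).symm)
          constructor
          · rintro (⟨i, hi, _⟩ | ⟨_, h9⟩)
            · exact absurd ⟨i, hi⟩ h8
            · rw [h7] at h9
              exact h9
          · intro h9
            refine Or.inr ⟨h8, ?_⟩
            rw [h7]
            exact h9
        rw [h6]
        have h10 := h5.2 2 R ![(u a.1.1.1 a.1.1.2, a.2), (u b.1.1.1 b.1.1.2, b.2)] (by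
          intro j
          refine Fin.cases ?_ (fun j => ?_) j
          · exact Or.inl rfl
          · refine Fin.cases ?_ (fun j => j.elim0) j
            exact Or.inr rfl)
        have e1 : (fun j => ((![(u a.1.1.1 a.1.1.2, a.2), (u b.1.1.1 b.1.1.2, b.2)] :
            Fin 2 → M × M) j).1) = ![u a.1.1.1 a.1.1.2, u b.1.1.1 b.1.1.2] := by
          funext j
          refine Fin.cases rfl (fun j => ?_) j
          exact Fin.cases rfl (fun j => j.elim0) j
        have e2 : (fun j => ((![(u a.1.1.1 a.1.1.2, a.2), (u b.1.1.1 b.1.1.2, b.2)] :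
            Fin 2 → M × M) j).2) = ![a.2, b.2] := by
          funext j
          refine Fin.cases rfl (fun j => ?_) j
          exact Fin.cases rfl (fun j => j.elim0) j
        rw [e1, e2] at h10
        exact h10
      refine Prod.ext ?_ ?_
      · ext R
        exact hpair a ha b hb hab R
      · ext R
        exact hpair b hb a ha (Ne.symm hab) R

/-- **Key lemma.** Maps which respect the parts and which are equivalences in each part. -/
theorem NS_key (hL : Ar2 L) (hcr : CrossPi S π)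
    (hu : ∀ i, ∀ k ∈ Y i, π (u i k) = i ∧ AtEq (T i) S {(k, u i k)}) {β : Ordinal.{0}}
    (hA : Clo S univ β A) {p : Set ({w : I × ℕ // w.2 ∈ Y w.1} × M)} (hpf : p.Finite)
    (hp : ∀ a ∈ p, a.2 ∈ A ∧ a.1.1.1 = π a.2)
    (h : ∀ i, BFR (NS S T Y u) S {w | w.1.1 = i} {x ∈ A | π x = i} β {a ∈ p | a.1.1.1 = i}) :
    BFR (NS S T Y u) S univ univ β p := by
  have h1 : BFR (NS S T Y u) S univ A β p := by
    refine BFR.comp_index (fun w : {w : I × ℕ // w.2 ∈ Y w.1} => w.1.1) π ?_ β ?_ ?_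
    · intro q hq hq'
      exact NS_atEq hL hcr hu (fun a ha => (hq a ha).2.2) hq'
    · intro a ha
      exact ⟨mem_univ _, (hp a ha).1, (hp a ha).2⟩
    · intro i
      have e : {a : {w : I × ℕ // w.2 ∈ Y w.1} | a ∈ univ ∧ a.1.1 = i} = {w | w.1.1 = i} := by
        ext w
        exact ⟨fun hw => hw.2, fun hw => ⟨mem_univ _, hw⟩⟩
      show BFR (NS S T Y u) S {a : {w : I × ℕ // w.2 ∈ Y w.1} | a ∈ univ ∧ a.1.1 = i} _ β _
      rw [e]
      exact h i
  have hF : (Prod.snd '' p).Finite := hpf.image _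
  have h2 : BFR S S univ (A ∩ univ) β (dg (Prod.snd '' p)) := by
    refine hA.bfr hF ?_
    rintro _ ⟨a, ha, rfl⟩
    exact ⟨(hp a ha).1, mem_univ _⟩
  rw [inter_univ] at h2
  have h3 : BFR S S A univ β (dg (Prod.snd '' p)) := by
    refine h2.symm ?_
    rintro _ ⟨x, hx, rfl⟩
    exact ⟨x, hx, rfl⟩
  refine h1.trans h3 fun a ha => ⟨a.2, ha, a.2, ⟨a, ha, rfl⟩, rfl⟩

end NS

end Pool.Agent.Helper97.LO

end

/-! ### formerly `Pool.Agent.Helper6.VCM.PCL2` -/

section

/-!
# Replacing parts of a structure: existence of the replacement, subsequences, decoding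
-/

set_option autoImplicit false
set_option linter.unusedSectionVars false
set_option linter.unusedVariables false

namespace Pool.Agent.Helper97.LO

open Set Pool.Agent.Helper5.DU Pool.Agent.Helper6.Str Pool.Agent.Helper79.VC
  Pool.Agent.Helper97.VC Pool.Agent.Helper97.MD

variable {L : FirstOrder.Language.{0, 0}} {M N P : Type} {I : Type}

/-- `T` (with the parts given by `w`) is obtained from `S` by replacing parts, up to level `α`. -/
structure Repl (S : L.Structure M) (π : M → I) (A : Set M) (α : Ordinal.{0})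
    (T : L.Structure N) (w : N → I) : Prop where
  key : ∀ β < α, ∀ p : Set (N × M), p.Finite → (∀ a ∈ p, a.2 ∈ A ∧ w a.1 = π a.2) →
    (∀ i, BFR T S {z | w z = i} {x ∈ A | π x = i} β {a ∈ p | w a.1 = i}) →
    BFR T S univ univ β p
  lo : ∀ i, ∀ β < α, BFR T S {z | w z = i} {x ∈ A | π x = i} β ∅

theorem Repl.bfr {S : L.Structure M} {π : M → I} {A : Set M} {α : Ordinal.{0}}
    {T : L.Structure N} {w : N → I} (h : Repl S π A α T w) {β : Ordinal.{0}} (hβ : β < α) :
    BFR T S univ univ β ∅ := by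
  refine h.key β hβ ∅ finite_empty (fun a ha => absurd ha (notMem_empty a)) fun i => ?_
  exact BFR.anti (fun a ha => ha.1) (h.lo i β hβ)

theorem forth_empty {S : L.Structure M} {S' : L.Structure N} {X : Set M} {Y : Set N}
    {γ β : Ordinal.{0}} (h : BFR S S' X Y γ ∅) (hβ : β < γ) {x : M} (hx : x ∈ X) :
    ∃ y ∈ Y, BFR S S' X Y β {(x, y)} := by
  obtain ⟨y, hy, h1⟩ := h.forth hβ hx
  refine ⟨y, hy, BFR.anti ?_ h1⟩
  rintro _ rfl
  exact mem_insert _ _

theorem symm_empty {S : L.Structure M} {S' : L.Structure N} {X : Set M} {Y : Set N}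
    {γ : Ordinal.{0}} (h : BFR S S' X Y γ ∅) : BFR S' S Y X γ ∅ :=
  h.symm fun a ha => absurd ha (notMem_empty a)

theorem trans_empty {S : L.Structure M} {S' : L.Structure N} {S'' : L.Structure P} {X : Set M}
    {Y : Set N} {Z : Set P} {γ : Ordinal.{0}} (h : BFR S S' X Y γ ∅)
    (h' : BFR S' S'' Y Z γ ∅) : BFR S S'' X Z γ ∅ :=
  h.trans h' fun a ha => absurd ha (notMem_empty a)

section

variable [∀ n, IsEmpty (L.Functions n)]

/-- a nonempty tame piece has a countable copy on `ℕ` -/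
theorem TameX.on_nat {S : L.Structure M} {X : Set M} (h : TameX S X) (hne : X.Nonempty) :
    ∃ (T : L.Structure ℕ) (Y : Set ℕ), BFI T S Y X ∅ := by
  obtain ⟨N, S', Y0, hY0, hb⟩ := h
  obtain ⟨x, hx⟩ := hne
  obtain ⟨y, hy, -⟩ := forth_empty (hb 1 one_lt_om1) zero_lt_one hx
  have hN : Nonempty N := ⟨y⟩
  obtain ⟨f, hf⟩ := countable_iff_exists_injOn.mp hY0
  refine ⟨pl S' (Function.invFunOn f Y0), f '' Y0, fun γ hγ => ?_⟩
  have h1 : BFR S' (pl S' (Function.invFunOn f Y0)) Y0 (f '' Y0) γ ∅ := by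
    refine BFR.of_map f hf rfl ?_ γ fun a ha => absurd ha (notMem_empty a)
    intro n R v hv
    have : (fun i => Function.invFunOn f Y0 (f (v i))) = v := by
      funext i
      exact hf.leftInvOn_invFunOn (hv i)
    show _ ↔ S'.RelMap R (fun i => Function.invFunOn f Y0 (f (v i)))
    rw [this]
  exact symm_empty (trans_empty (hb γ hγ) h1)

/-- **Existence of replacements.** -/
theorem exists_repl (hL : Ar2 L) {S : L.Structure M} {π : M → I} (hcr : CrossPi S π) (x₀ : M)
    {A : Set M} (hAc : A.Countable) {α : Ordinal.{0}} (hα : 1 < α)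
    (hA1 : ∀ γ < α, Clo S univ γ A) (hA2 : ∀ x ∈ A, ∀ γ < om1, Clo S {y | π y = π x} γ A)
    (hαo : α < om1) (T : I → L.Structure ℕ) (Y : I → Set ℕ)
    (h : ∀ x ∈ A, ∀ β < α, BFR (T (π x)) S (Y (π x)) {y | π y = π x} β ∅) :
    ∃ (N : Type) (T' : L.Structure N) (w : N → I), Countable N ∧ Repl S π A α T' w ∧
      (∀ z, ∃ x ∈ A, w z = π x) ∧
      ∀ x ∈ A, ∀ γ, BFR T' (T (π x)) {z | w z = π x} (Y (π x)) γ ∅ := by
  classical
  let Y' : I → Set ℕ := fun i => {k | k ∈ Y i ∧ i ∈ π '' A}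
  have hY' : ∀ x ∈ A, Y' (π x) = Y (π x) := by
    intro x hx
    ext k
    exact ⟨fun hk => hk.1, fun hk => ⟨hk, x, hx, rfl⟩⟩
  have hu : ∀ (i : I) (k : ℕ), ∃ x : M, k ∈ Y' i → π x = i ∧ AtEq (T i) S {(k, x)} := by
    intro i k
    by_cases hk : k ∈ Y' i
    · obtain ⟨hk1, x, hx, rfl⟩ := hk
      obtain ⟨y, hy, h1⟩ := forth_empty (h x hx 1 hα) zero_lt_one hk1
      exact ⟨y, fun _ => ⟨hy, h1.atEq⟩⟩
    · exact ⟨x₀, fun h' => absurd h' hk⟩
  choose u hu using hu
  have hcount : Countable {w : I × ℕ // w.2 ∈ Y' w.1} := by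
    have h1 : (π '' A).Countable := hAc.image π
    have h2 : {w : I × ℕ | w.2 ∈ Y' w.1}.Countable := by
      refine (h1.prod (countable_univ (α := ℕ))).mono ?_
      rintro w hw
      exact ⟨hw.2, mem_univ _⟩
    exact h2.to_subtype
  refine ⟨{w : I × ℕ // w.2 ∈ Y' w.1}, NS S T Y' u, fun w => w.1.1, hcount, ⟨?_, ?_⟩, ?_, ?_⟩
  · intro β hβ p hp hpA hpp
    exact NS_key hL hcr (fun i k hk => hu i k hk) (hA1 β hβ) hp hpA hpp
  · intro i β hβ
    have h0 : BFR (NS S T Y' u) (T i) {w | w.1.1 = i} (Y' i) β ∅ :=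
      NS_part hL i β fun a ha => absurd ha (notMem_empty a)
    by_cases hi : i ∈ π '' A
    · obtain ⟨x, hx, rfl⟩ := hi
      rw [hY' x hx] at h0
      have h1 := h x hx β hβ
      have h2 := (hA2 x hx β (hβ.trans hαo)).rel β le_rfl ∅ finite_empty
        (fun a ha => absurd ha (notMem_empty a)) h1
      have e : A ∩ {y | π y = π x} = {y ∈ A | π y = π x} := rfl
      rw [e] at h2
      exact trans_empty h0 h2
    · rw [BFR.def]
      refine ⟨⟨fun a ha => absurd ha (notMem_empty a), fun n R v hv => ?_⟩, fun γ hγ =>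
        ⟨fun z hz => ?_, fun y hy => ?_⟩⟩
      · rcases Nat.eq_zero_or_pos n with hn | hn
        · subst hn
          exact ((hL 0 (by decide) (by decide)).false R).elim
        · exact absurd (hv ⟨0, hn⟩) (notMem_empty _)
      · exact absurd ((show z.1.1 = i from hz) ▸ z.2.2) hi
      · exact absurd ⟨y, hy.1, hy.2⟩ hi
  · intro z
    obtain ⟨-, x, hx, hxz⟩ := z.2
    exact ⟨x, hx, hxz.symm⟩
  · intro x hx γ
    rw [← hY' x hx]
    exact NS_part hL (π x) γ fun a ha => absurd ha (notMem_empty a)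

end

/-- a sequence without relations -/
theorem exists_free_seq (R : ℕ → ℕ → Prop) (h0 : ∀ n, ¬ R n n)
    (h1 : ∀ n m m', R n m → R n m' → m = m') :
    ∃ g : ℕ → ℕ, Function.Injective g ∧ ∀ a b, ¬ R (g a) (g b) := by
  classical
  by_cases hfib : ∃ m, {n | R n m}.Infinite
  · obtain ⟨m, hm⟩ := hfib
    refine ⟨fun k => (hm.natEmbedding _ k : ℕ), fun a b hab => ?_, fun a b hab => ?_⟩
    · exact (hm.natEmbedding _).injective (Subtype.ext hab)
    · have ha : R (hm.natEmbedding _ a : ℕ) m := (hm.natEmbedding _ a).2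
      have hb : R (hm.natEmbedding _ b : ℕ) m := (hm.natEmbedding _ b).2
      have : (hm.natEmbedding _ b : ℕ) = m := h1 _ _ _ hab ha
      rw [this] at hb
      exact h0 m hb
  · push Not at hfib
    obtain ⟨g, -, hg⟩ := exists_seq_of_forall_finset_exists (fun _ : ℕ => True)
      (fun x y => x ≠ y ∧ ¬ R x y ∧ ¬ R y x) (by
        intro s _
        have hbad : ((s : Set ℕ) ∪ (⋃ x ∈ s, {y | R x y}) ∪ ⋃ x ∈ s, {y | R y x}).Finite := by
          refine (s.finite_toSet.union ?_).union ?_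
          · refine s.finite_toSet.biUnion fun x _ => Set.Subsingleton.finite ?_
            intro y hy y' hy'
            exact h1 x y y' hy hy'
          · refine s.finite_toSet.biUnion fun x _ => ?_
            exact hfib x
        obtain ⟨y, hy⟩ := hbad.exists_notMem
        refine ⟨y, trivial, fun x hx => ⟨?_, ?_, ?_⟩⟩
        · rintro rfl
          exact hy (Or.inl (Or.inl hx))
        · intro hxy
          refine hy (Or.inl (Or.inr ?_))
          simp only [mem_iUnion]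
          exact ⟨x, hx, hxy⟩
        · intro hxy
          refine hy (Or.inr ?_)
          simp only [mem_iUnion]
          exact ⟨x, hx, hxy⟩)
    refine ⟨g, fun a b hab => ?_, fun a b => ?_⟩
    · by_contra hne
      rcases lt_or_gt_of_ne hne with h | h
      · exact (hg a b h).1 hab
      · exact (hg b a h).1 hab.symm
    · rcases lt_trichotomy a b with h | h | h
      · exact (hg a b h).2.1
      · subst h
        exact h0 _
      · exact (hg b a h).2.2

/-- **Types omitted in pieces**, for a subsequence of pieces. -/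
theorem exists_omit_seq [∀ n, IsEmpty (L.Functions n)] {S : L.Structure M} (C : ℕ → Set M)
    (hC : ∀ n, TameX S (C n)) {α : Ordinal.{0}} (hα : α < om1) (h0 : 0 < α)
    (hlim : ∀ β < α, β + 1 < α) (hSL : ∀ n, ¬ SL S (C n) α)
    (hne : ∀ m n, m ≠ n → ¬ BFI S S (C m) (C n) ∅) :
    ∃ (g : ℕ → ℕ) (T : ℕ → L.Structure ℕ) (Y : ℕ → Set ℕ), Function.Injective g ∧
      (∀ n, ∀ β < α, BFR (T n) S (Y n) (C (g n)) β ∅) ∧
      ∀ n m, ¬ BFI (T n) S (Y n) (C (g m)) ∅ := by
  choose T Y hTY hTY' using fun n => omit_type S (hC n) hα h0 hlim (hSL n)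
  obtain ⟨g, hg, hg'⟩ := exists_free_seq (fun n m => BFI (T n) S (Y n) (C m) ∅) hTY' (by
    intro n m m' h1 h2
    by_contra hmm
    exact hne m m' hmm fun γ hγ => trans_empty (symm_empty (h1 γ hγ)) (h2 γ hγ))
  exact ⟨g, fun n => T (g n), fun n => Y (g n), hg, fun n => hTY (g n), fun n m => hg' n m⟩

section

variable [∀ n, IsEmpty (L.Functions n)] [∀ n, Countable (L.Relations n)]
  {K : Set (L.Structure ℕ)} {δ : Ordinal.{0}} {S : L.Structure M}

/-- **Decoding.** -/
theorem pcl_decode (hS : VSt K δ S) {π : M → I} {A : Set M} {α lam κ₁ : Ordinal.{0}}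
    (hδα : δ < α) (hlam : lam < om1) (hκ₁ : κ₁ < om1) (C : ℕ → I)
    (hne : ∀ n, {y | π y = C n}.Nonempty)
    (hsl : ∀ n, ∃ ρ, ρ + Ordinal.omega0 ≤ lam ∧ SL S {y | π y = C n} ρ)
    (N : (ℕ → Bool) → Type) (T : ∀ f, L.Structure (N f)) (w : ∀ f, N f → I)
    (hc : ∀ f, Countable (N f)) (hR : ∀ f, Repl S π A α (T f) (w f))
    (D1 : ∀ f, ∀ z : N f, ∀ n,
      BFI (T f) S {z' | w f z' = w f z} {y | π y = C n} ∅ → f n = true)
    (D2 : ∀ f n, f n = true → BFI (T f) S {z | w f z = C n} {y | π y = C n} ∅)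
    (hdef : ∀ f g x y x' y', BFR (T f) (T g) univ univ κ₁ {(x, x'), (y, y')} →
      (w f x = w f y ↔ w g x' = w g y')) : False := by
  have main : ∀ f g, BFR (T f) (T g) univ univ (κ₁ + lam + 1) ∅ → ∀ n, f n = true →
      g n = true := by
    intro f g hfg n hfn
    obtain ⟨ρ, hρ, hSL⟩ := hsl n
    have hρo : ρ < om1 := lt_of_le_of_lt (le_trans (le_self_add (a := ρ) (b := Ordinal.omega0))
      hρ) hlam
    -- an element of the part
    obtain ⟨y, hy⟩ := hne n
    have hb := D2 f n hfn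
    obtain ⟨x, hx, -⟩ := forth_empty (symm_empty (hb 1 one_lt_om1)) zero_lt_one hy
    obtain ⟨x', -, hxx⟩ := forth_empty hfg (lt_add_one_self (κ₁ + lam)) (mem_univ x)
    have h1 : BFR (T f) (T g) {z | w f z = w f x} {z | w g z = w g x'} lam {(x, x')} := by
      refine BFR.restr (subset_univ _) (subset_univ _) κ₁ lam ?_ hxx
      intro z _ z' _ hzz
      exact hdef f g z x z' x' hzz
    have hx' : w f x = C n := hx
    rw [hx'] at h1
    have h2 : BFR S (T g) {y | π y = C n} {z | w g z = w g x'} lam ∅ :=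
      trans_empty (symm_empty (hb lam hlam)) (BFR.anti (empty_subset _) h1)
    have h3 : BFI (T g) S {z | w g z = w g x'} {y | π y = C n} ∅ := fun γ _ =>
      symm_empty (hSL.det' hρo finite_empty (fun a ha => absurd ha (notMem_empty a))
        (h2.mono hρ) γ)
    exact D1 g x' n h3
  refine hS.false_of_code N T hc (fun f => (hR f).bfr hδα)
    (γ := κ₁ + lam + 1) (add_one_lt_om1 (add_lt_om1 hκ₁ hlam)) fun f g hfg => ?_
  funext n
  have h1 := main f g hfg n
  have h2 := main g f (symm_empty hfg) n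
  cases hf : f n <;> cases hg : g n <;> simp_all

end

end Pool.Agent.Helper97.LO

end

/-! ### formerly `Pool.Agent.Helper6.VCM.PCL3` -/

section

/-!
# Replacing parts of a structure: the family of structures
-/

set_option autoImplicit false
set_option linter.unusedSectionVars false
set_option linter.unusedVariables false

namespace Pool.Agent.Helper97.LO

open Set Pool.Agent.Helper5.DU Pool.Agent.Helper6.Str Pool.Agent.Helper79.VC
  Pool.Agent.Helper97.VC Pool.Agent.Helper97.MD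

variable {L : FirstOrder.Language.{0, 0}} {M N P : Type} {I : Type}

/-! ### good maps -/

/-- Maps from a replacement to `S` which respect the parts, are equivalences of level `β` in the
parts, and of all countable levels in the parts in `U`. -/
structure Good (S : L.Structure M) (π : M → I) (A : Set M) (T : L.Structure N) (w : N → I)
    (U : Set I) (β : Ordinal.{0}) (p : Set (N × M)) : Prop where
  fin : p.Finite
  pos : ∀ a ∈ p, a.2 ∈ A ∧ w a.1 = π a.2
  bfr : ∀ i, BFR T S {z | w z = i} {x ∈ A | π x = i} β {a ∈ p | w a.1 = i}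
  bfi : ∀ i ∈ U, BFI T S {z | w z = i} {x ∈ A | π x = i} {a ∈ p | w a.1 = i}

section

variable {S : L.Structure M} {π : M → I} {A : Set M} {T : L.Structure N} {w : N → I}
    {U : Set I} {α β γ : Ordinal.{0}} {p : Set (N × M)}

theorem Good.mono (h : Good S π A T w U γ p) (hβ : β ≤ γ) : Good S π A T w U β p :=
  ⟨h.fin, h.pos, fun i => (h.bfr i).mono hβ, h.bfi⟩

theorem Good.ins (h : Good S π A T w U β p) {x : N} {y : M} (hy : y ∈ A)
    (hxy : w x = π y)
    (h1 : BFR T S {z | w z = w x} {z ∈ A | π z = w x} β (insert (x, y) {a ∈ p | w a.1 = w x}))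
    (h2 : w x ∈ U → BFI T S {z | w z = w x} {z ∈ A | π z = w x}
      (insert (x, y) {a ∈ p | w a.1 = w x})) :
    Good S π A T w U β (insert (x, y) p) := by
  have hi1 : ∀ i, w x = i → {a ∈ insert (x, y) p | w a.1 = i} ⊆
      insert (x, y) {a ∈ p | w a.1 = i} := by
    rintro i hi a ⟨rfl | ha, hai⟩
    · exact mem_insert _ _
    · exact mem_insert_of_mem _ ⟨ha, hai⟩
  have hi2 : ∀ i, w x ≠ i → {a ∈ insert (x, y) p | w a.1 = i} ⊆
      {a ∈ p | w a.1 = i} := by
    rintro i hi a ⟨rfl | ha, hai⟩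
    · exact absurd hai hi
    · exact ⟨ha, hai⟩
  refine ⟨h.fin.insert _, ?_, fun i => ?_, fun i hi => ?_⟩
  · rintro a (rfl | ha)
    · exact ⟨hy, hxy⟩
    · exact h.pos a ha
  · by_cases hxi : w x = i
    · subst hxi
      exact BFR.anti (hi1 _ rfl) h1
    · exact BFR.anti (hi2 i hxi) (h.bfr i)
  · by_cases hxi : w x = i
    · subst hxi
      exact fun γ hγ => BFR.anti (hi1 _ rfl) (h2 hi γ hγ)
    · exact fun γ hγ => BFR.anti (hi2 i hxi) (h.bfi i hi γ hγ)

theorem Good.forth (hAc : A.Countable) (hβo : β < om1) (h : Good S π A T w U γ p) (hβ : β < γ)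
    (x : N) : ∃ y ∈ A, π y = w x ∧ Good S π A T w U β (insert (x, y) p) := by
  by_cases hU : w x ∈ U
  · have hc : {z ∈ A | π z = w x}.Countable := hAc.mono fun z hz => hz.1
    obtain ⟨y, hy, hy'⟩ := exists_uniform hc
      (fun y δ => BFR T S {z | w z = w x} {z ∈ A | π z = w x} δ
        (insert (x, y) {a ∈ p | w a.1 = w x}))
      (fun y δ ε hδ h => h.mono hδ) (by
        intro δ hδ
        exact (h.bfi _ hU (δ + 1) (add_one_lt_om1 hδ)).forth (lt_add_one_self δ)
          (show w x = w x from rfl))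
    exact ⟨y, hy.1, hy.2, (h.mono hβ.le).ins hy.1 hy.2.symm (hy' β hβo) fun _ => hy'⟩
  · obtain ⟨y, hy, h1⟩ := (h.bfr (w x)).forth hβ (show w x = w x from rfl)
    exact ⟨y, hy.1, hy.2, (h.mono hβ.le).ins hy.1 hy.2.symm h1 fun h' => absurd h' hU⟩

theorem Good.back (hN : Countable N) (hβo : β < om1) (h : Good S π A T w U β p) {y : M}
    (hy : y ∈ A) (hU : π y ∈ U) : ∃ x, w x = π y ∧ Good S π A T w U β (insert (x, y) p) := by
  have hc : {z | w z = π y}.Countable := to_countable _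
  obtain ⟨x, hx, hx'⟩ := exists_uniform hc
    (fun x δ => BFR T S {z | w z = π y} {z ∈ A | π z = π y} δ
      (insert (x, y) {a ∈ p | w a.1 = π y}))
    (fun y δ ε hδ h => h.mono hδ) (by
      intro δ hδ
      exact (h.bfi _ hU (δ + 1) (add_one_lt_om1 hδ)).back (lt_add_one_self δ)
        (show y ∈ A ∧ π y = π y from ⟨hy, rfl⟩))
  have hwx : w x = π y := hx
  refine ⟨x, hwx, h.ins hy hwx ?_ fun _ => ?_⟩
  · rw [hwx]
    exact hx' β hβo
  · rw [hwx]
    exact hx'

theorem Repl.good (h : Repl S π A α T w) (hβ : β < α) (hU : ∀ i ∈ U,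
    BFI T S {z | w z = i} {x ∈ A | π x = i} ∅) : Good S π A T w U β ∅ :=
  ⟨finite_empty, fun a ha => absurd ha (notMem_empty a),
    fun i => BFR.anti (fun a ha => ha.1) (h.lo i β hβ),
    fun i hi γ hγ => BFR.anti (fun a ha => ha.1) (hU i hi γ hγ)⟩

theorem Good.key (h : Good S π A T w U β p) (hR : Repl S π A α T w) (hβ : β < α) :
    BFR T S univ univ β p :=
  hR.key β hβ p h.fin h.pos h.bfr

end

section

variable [∀ n, IsEmpty (L.Functions n)]

/-- **The family of replacements.** -/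
theorem exists_family (hL : Ar2 L) {S : L.Structure M} {π : M → I} (hcr : CrossPi S π)
    (ht : ∀ x, TameX S {y | π y = π x})
    {A : Set M} (hAc : A.Countable) {α : Ordinal.{0}} (hα : 1 < α) (hαo : α < om1)
    (hA1 : ∀ γ < α, Clo S univ γ A) (hA2 : ∀ x ∈ A, ∀ γ < om1, Clo S {y | π y = π x} γ A)
    (c : ℕ → M) (hcA : ∀ n, c n ∈ A) (T : ℕ → L.Structure ℕ) (Y : ℕ → Set ℕ)
    (hV : ∀ n, ∀ β < α, BFR (T n) S (Y n) {y | π y = π (c n)} β ∅) :
    ∃ (N : (ℕ → Bool) → Type) (T' : ∀ f, L.Structure (N f)) (w : ∀ f, N f → I),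
      (∀ f, Countable (N f)) ∧ (∀ f, Repl S π A α (T' f) (w f)) ∧
      (∀ f z, ∃ x ∈ A, w f z = π x) ∧
      ∀ f, ∀ x ∈ A, (BFI (T' f) S {z | w f z = π x} {y | π y = π x} ∅ ∧
        ∀ n, f n = false → ¬ BFI S S {y | π y = π x} {y | π y = π (c n)} ∅) ∨
        ∃ n, f n = false ∧ BFI S S {y | π y = π x} {y | π y = π (c n)} ∅ ∧
          ∀ γ, BFR (T' f) (T n) {z | w f z = π x} (Y n) γ ∅ := by
  classical
  have h1 : ∀ (f : ℕ → Bool) (i : I), ∃ (T0 : L.Structure ℕ) (Y0 : Set ℕ), ∀ x, π x = i →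
      (BFI T0 S Y0 {y | π y = π x} ∅ ∧
        ∀ n, f n = false → ¬ BFI S S {y | π y = π x} {y | π y = π (c n)} ∅) ∨
      ∃ n, f n = false ∧ BFI S S {y | π y = π x} {y | π y = π (c n)} ∅ ∧ T0 = T n ∧
        Y0 = Y n := by
    intro f i
    by_cases hi : ∃ x, π x = i
    · obtain ⟨x, rfl⟩ := hi
      by_cases hn : ∃ n, f n = false ∧ BFI S S {y | π y = π x} {y | π y = π (c n)} ∅
      · obtain ⟨n, hn1, hn2⟩ := hn
        refine ⟨T n, Y n, fun y hy => Or.inr ⟨n, hn1, ?_, rfl, rfl⟩⟩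
        rw [hy]
        exact hn2
      · obtain ⟨T0, Y0, h0⟩ := (ht x).on_nat ⟨x, rfl⟩
        refine ⟨T0, Y0, fun y hy => Or.inl ?_⟩
        rw [hy]
        exact ⟨h0, fun n hn1 hn2 => hn ⟨n, hn1, hn2⟩⟩
    · exact ⟨T 0, Y 0, fun x hx => absurd ⟨x, hx⟩ hi⟩
  choose T0 Y0 h0 using h1
  have h2 : ∀ f, ∀ x ∈ A, ∀ β < α,
      BFR (T0 f (π x)) S (Y0 f (π x)) {y | π y = π x} β ∅ := by
    intro f x hx β hβ
    rcases h0 f (π x) x rfl with ⟨h3, -⟩ | ⟨n, -, h3, h4, h5⟩
    · exact h3 β (hβ.trans hαo)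
    · rw [h4, h5]
      exact trans_empty (hV n β hβ) (symm_empty (h3 β (hβ.trans hαo)))
  choose N T' w hN hR hw hb using fun f => exists_repl hL hcr (c 0) hAc hα hA1 hA2 hαo
    (T0 f) (Y0 f) (h2 f)
  refine ⟨N, T', w, hN, hR, hw, fun f x hx => ?_⟩
  rcases h0 f (π x) x rfl with ⟨h3, h4⟩ | ⟨n, h6, h3, h4, h5⟩
  · exact Or.inl ⟨fun γ hγ => trans_empty (hb f x hx γ) (h3 γ hγ), h4⟩
  · refine Or.inr ⟨n, h6, h3, fun γ => ?_⟩
    have := hb f x hx γ
    rwa [h4, h5] at this

end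

section

variable [∀ n, IsEmpty (L.Functions n)] [∀ n, Countable (L.Relations n)]
  {K : Set (L.Structure ℕ)} {δ : Ordinal.{0}} {S : L.Structure M}

/-- closed sets -/
theorem exists_good_set (hS : VSt K δ S) {π : M → I} (ht : ∀ x, TameX S {y | π y = π x})
    (f0 : Finset M → Ordinal.{0} → Set M) (hf0 : ∀ F, ∀ γ < om1, (f0 F γ).Countable)
    (h0 : Finset M → Ordinal.{0} → Ordinal.{0}) (hh0 : ∀ F, ∀ γ < om1, h0 F γ < om1)
    {A₀ : Set M} (hA₀ : A₀.Countable) {μ : Ordinal.{0}} (hμ : μ < om1) :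
    ∃ (A : Set M) (lam : Ordinal.{0}), A.Countable ∧ A₀ ⊆ A ∧ μ < lam ∧ lam < om1 ∧
      (∀ a < lam, ∀ b < lam, a + b < lam) ∧ (∀ γ < lam, Clo S univ γ A) ∧
      (∀ x ∈ A, ∀ γ < om1, Clo S {y | π y = π x} γ A) ∧
      (∀ F : Finset M, (F : Set M) ⊆ A → ∀ γ < lam, f0 F γ ⊆ A ∧ h0 F γ < lam) ∧
      ∀ x ∈ A, ∃ σ < lam, SL S {y | π y = π x} σ := by
  classical
  obtain ⟨f1, hf1, -, hf1c⟩ := hS.small.exists_wit
  choose g hg hgX hgw using fun x => (ht x).exists_wit
  choose σ hσ hσ' using fun x => (ht x).exists_SL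
  obtain ⟨A, lam, hAc, hA₀A, hμl, hlo, hladd, hcl⟩ := exists_pair
    (fun F γ => f0 F γ ∪ f1 F γ ∪ ⋃ x ∈ F, ⋃ G ∈ F.powerset, g x G) (by
      intro F γ hγ
      refine ((hf0 F γ hγ).union (hf1 F γ)).union ?_
      exact F.finite_toSet.countable.biUnion fun x _ =>
        (F.powerset).finite_toSet.countable.biUnion fun G _ => hg x G)
    (fun F γ => max (h0 F γ) (F.sup σ)) (by
      intro F γ hγ
      refine max_lt (hh0 F γ hγ) ?_
      rw [Finset.sup_lt_iff (Ordinal.omega_pos 1)]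
      exact fun x _ => hσ x) hA₀ hμ
  have hl0 : (0 : Ordinal.{0}) < lam := lt_of_le_of_lt (zero_le (a := μ)) hμl
  refine ⟨A, lam, hAc, hA₀A, hμl, hlo, hladd, fun γ hγ => ?_, fun x hx γ hγ => ?_,
    fun F hF γ hγ => ⟨?_, ?_⟩, fun x hx => ?_⟩
  · refine hf1c A γ (hγ.trans hlo) fun F hF => ?_
    have := (hcl F (fun a ha => (hF ha).1) γ hγ).1
    exact fun a ha => this (Or.inl (Or.inr ha))
  · intro F hF d hd
    obtain ⟨e, he, he'⟩ := hgw x F (fun a ha => (hF ha).2) d hd
    refine ⟨e, ⟨?_, hgX x F he⟩, he' γ hγ⟩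
    have h1 : ((insert x F : Finset M) : Set M) ⊆ A := by
      rw [Finset.coe_insert, insert_subset_iff]
      exact ⟨hx, fun a ha => (hF ha).1⟩
    refine (hcl _ h1 0 hl0).1 (Or.inr ?_)
    simp only [mem_iUnion]
    exact ⟨x, Finset.mem_insert_self _ _, F, Finset.mem_powerset.mpr (Finset.subset_insert _ _),
      he⟩
  · exact fun a ha => (hcl F hF γ hγ).1 (Or.inl (Or.inl ha))
  · exact lt_of_le_of_lt (le_max_left _ _) (hcl F hF γ hγ).2
  · have h1 : (({x} : Finset M) : Set M) ⊆ A := by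
      rw [Finset.coe_singleton, singleton_subset_iff]
      exact hx
    refine ⟨σ x, ?_, hσ' x⟩
    have h2 := (hcl _ h1 0 hl0).2
    exact lt_of_le_of_lt ((Finset.le_sup (f := σ) (Finset.mem_singleton_self x)).trans
      (le_max_right _ _)) h2

/-- The two decoding conditions. -/
theorem family_decode {π : M → I} {A : Set M} (c : ℕ → M) (hcA : ∀ n, c n ∈ A)
    (hne : ∀ m n, m ≠ n → ¬ BFI S S {y | π y = π (c m)} {y | π y = π (c n)} ∅)
    (T : ℕ → L.Structure ℕ) (Y : ℕ → Set ℕ)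
    (hV' : ∀ n m, ¬ BFI (T n) S (Y n) {y | π y = π (c m)} ∅)
    {N : (ℕ → Bool) → Type} {T' : ∀ f, L.Structure (N f)} {w : ∀ f, N f → I}
    (hw : ∀ f z, ∃ x ∈ A, w f z = π x)
    (h : ∀ f, ∀ x ∈ A, (BFI (T' f) S {z | w f z = π x} {y | π y = π x} ∅ ∧
        ∀ n, f n = false → ¬ BFI S S {y | π y = π x} {y | π y = π (c n)} ∅) ∨
        ∃ n, f n = false ∧ BFI S S {y | π y = π x} {y | π y = π (c n)} ∅ ∧
          ∀ γ, BFR (T' f) (T n) {z | w f z = π x} (Y n) γ ∅) :
    (∀ f, ∀ z : N f, ∀ n,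
      BFI (T' f) S {z' | w f z' = w f z} {y | π y = π (c n)} ∅ → f n = true) ∧
    ∀ f n, f n = true → BFI (T' f) S {z | w f z = π (c n)} {y | π y = π (c n)} ∅ := by
  constructor
  · intro f z n hb
    obtain ⟨x, hx, hzx⟩ := hw f z
    rw [hzx] at hb
    rcases h f x hx with ⟨h1, h2⟩ | ⟨m, -, -, h3⟩
    · by_contra hf
      refine h2 n (by simpa using hf) fun γ hγ => ?_
      exact trans_empty (symm_empty (h1 γ hγ)) (hb γ hγ)
    · exact absurd (fun γ hγ => trans_empty (symm_empty (h3 γ)) (hb γ hγ)) (hV' m n)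
  · intro f n hf
    rcases h f (c n) (hcA n) with ⟨h1, h2⟩ | ⟨m, h4, h5, h3⟩
    · exact h1
    · exfalso
      refine hne n m ?_ h5
      rintro rfl
      rw [hf] at h4
      exact absurd h4 (by decide)

end

end Pool.Agent.Helper97.LO

end

/-! ### formerly `Pool.Agent.Helper6.VCM.PCL4` -/

section

/-!
# Coding by parts: definable parts
-/

set_option autoImplicit false
set_option linter.unusedSectionVars false
set_option linter.unusedVariables false

namespace Pool.Agent.Helper97.LO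

open Set Pool.Agent.Helper5.DU Pool.Agent.Helper6.Str Pool.Agent.Helper79.VC
  Pool.Agent.Helper97.VC Pool.Agent.Helper97.MD

variable {L : FirstOrder.Language.{0, 0}} {M N P : Type} {I : Type}

theorem lt_add_omega_self (μ : Ordinal.{0}) : μ < μ + Ordinal.omega0 := by
  have h : μ + 0 < μ + Ordinal.omega0 := add_lt_add_right Ordinal.omega0_pos μ
  rwa [add_zero] at h

theorem lim_add_omega (μ : Ordinal.{0}) : ∀ β < μ + Ordinal.omega0,
    β + 1 < μ + Ordinal.omega0 := fun β hβ =>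
  (Ordinal.isSuccLimit_add μ Ordinal.isSuccLimit_omega0).add_one_lt hβ

variable [∀ n, IsEmpty (L.Functions n)] [∀ n, Countable (L.Relations n)]
  {K : Set (L.Structure ℕ)} {δ : Ordinal.{0}} {S : L.Structure M}

/-- No sequence of definable parts which are pairwise different and have no small Scott level. -/
theorem pcl_no_seq (hL : Ar2 L) (hS : VSt K δ S) {π : M → I} (hcr : CrossPi S π)
    (ht : ∀ x, TameX S {y | π y = π x}) {η : Ordinal.{0}} (hη : η < om1)
    (hd : ∀ x y x' y', BFR S S univ univ η {(x, x'), (y, y')} → (π x = π y ↔ π x' = π y'))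
    {α : Ordinal.{0}} (hαo : α < om1) (hδα : δ < α) (hηα : η < α) (hlim : ∀ β < α, β + 1 < α)
    (c : ℕ → M) (hc1 : ∀ n, ¬ SL S {y | π y = π (c n)} α)
    (hc2 : ∀ m n, m ≠ n → ¬ BFI S S {y | π y = π (c m)} {y | π y = π (c n)} ∅) : False := by
  have hα0 : 0 < α := lt_of_le_of_lt (zero_le (a := δ)) hδα
  have hα1 : 1 < α := by
    have := hlim 0 hα0
    rwa [zero_add] at this
  obtain ⟨g, T, Y, hg, hV, hV'⟩ := exists_omit_seq (fun n => {y | π y = π (c n)})
    (fun n => ht (c n)) hαo hα0 hlim hc1 hc2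
  obtain ⟨A, lam, hAc, hcA, hαl, hlo, hladd, hA1, hA2, -, hAσ⟩ := exists_good_set hS ht
    (fun _ _ => ∅) (fun _ _ _ => countable_empty) (fun _ _ => 0) (fun _ _ _ => Ordinal.omega_pos 1)
    (countable_range c) hαo
  have hcA' : ∀ n, c (g n) ∈ A := fun n => hcA ⟨g n, rfl⟩
  have hωl : Ordinal.omega0 < lam := by
    refine lt_of_le_of_lt ?_ (hδα.trans hαl)
    exact (le_self_add (a := Ordinal.omega0) (b := Ordinal.omega0)).trans hS.om
  obtain ⟨N, T', w, hN, hR, hw, hfam⟩ := exists_family hL hcr ht hAc hα1 hαo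
    (fun γ hγ => hA1 γ (hγ.trans hαl)) hA2 (fun n => c (g n)) hcA' T Y hV
  have hne : ∀ m n, m ≠ n → ¬ BFI S S {y | π y = π (c (g m))} {y | π y = π (c (g n))} ∅ :=
    fun m n hmn => hc2 _ _ fun h => hmn (hg h)
  obtain ⟨D1, D2⟩ := family_decode (fun n => c (g n)) hcA' hne T Y hV' hw hfam
  refine pcl_decode hS hδα hlo hη (fun n => π (c (g n))) (fun n => ⟨c (g n), rfl⟩) ?_ N T' w hN
    hR D1 D2 ?_
  · intro n
    obtain ⟨σ, hσ, hσ'⟩ := hAσ _ (hcA' n)
    exact ⟨σ, (hladd σ hσ _ hωl).le, hσ'⟩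
  · -- the parts are respected
    have hη2 : η + 1 + 1 < α := hlim _ (hlim _ hηα)
    have hpair : ∀ f, ∀ x y : N f, ∃ x1 y1, w f x = π x1 ∧ w f y = π y1 ∧
        BFR (T' f) S univ univ η {(x, x1), (y, y1)} := by
      intro f x y
      have h1 := (hR f).good (U := ∅) hη2 (fun i hi => absurd hi (notMem_empty i))
      obtain ⟨y1, -, hy1, h2⟩ := h1.forth hAc (hη2.trans hαo |>.trans_le' (lt_add_one_self _).le)
        (lt_add_one_self _) y
      obtain ⟨x1, -, hx1, h3⟩ := h2.forth hAc hη (lt_add_one_self _) x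
      refine ⟨x1, y1, hx1.symm, hy1.symm, BFR.anti ?_ (h3.key (hR f) hηα)⟩
      rintro _ (rfl | rfl)
      · exact mem_insert _ _
      · exact mem_insert_of_mem _ (mem_insert _ _)
    intro f f' x y x' y' hb
    obtain ⟨x1, y1, h1, h2, h3⟩ := hpair f x y
    obtain ⟨x2, y2, h4, h5, h6⟩ := hpair f' x' y'
    rw [h1, h2, h4, h5]
    refine hd x1 y1 x2 y2 ?_
    have h7 : BFR S (T' f) univ univ η {(x1, x), (y1, y)} := by
      refine h3.symm ?_
      rintro _ (rfl | rfl)
      · exact Or.inl rfl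
      · exact Or.inr rfl
    have h8 : BFR S (T' f') univ univ η {(x1, x'), (y1, y')} := by
      refine h7.trans hb ?_
      rintro _ (rfl | rfl)
      · exact ⟨x, Or.inl rfl, Or.inl rfl⟩
      · exact ⟨y, Or.inr rfl, Or.inr rfl⟩
    refine h8.trans h6 ?_
    rintro _ (rfl | rfl)
    · exact ⟨x', Or.inl rfl, Or.inl rfl⟩
    · exact ⟨y', Or.inr rfl, Or.inr rfl⟩

/-- **Definable parts.** If the parts are definable then they have countably many types. -/
theorem pcl_def (hL : Ar2 L) (hS : VSt K δ S) {E : M → M → Prop} (hE : Equivalence E)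
    (hc : CrossRule S E) (ht : ∀ x, TameX S {y | E x y}) {η : Ordinal.{0}} (hη : η < om1)
    (hd : ∀ x y x' y', BFR S S univ univ η {(x, x'), (y, y')} → (E x y ↔ E x' y')) :
    ∃ κ : M → ℕ, ∀ x y, κ x = κ y → BFI S S {z | E x z} {z | E y z} ∅ := by
  classical
  let s : Setoid M := ⟨E, hE⟩
  let π : M → Quotient s := Quotient.mk s
  have hπ : ∀ x y, π x = π y ↔ E x y := fun x y => Quotient.eq
  have hpart : ∀ x, {z | E x z} = {z | π z = π x} := by
    intro x
    ext z
    rw [mem_ofPred_eq, mem_ofPred_eq, hπ]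
    exact ⟨fun h => hE.symm h, fun h => hE.symm h⟩
  have hcr : CrossPi S π := crossPi_of_rule hπ hc
  have ht' : ∀ x, TameX S {y | π y = π x} := by
    intro x
    rw [← hpart x]
    exact ht x
  have hd' : ∀ x y x' y', BFR S S univ univ η {(x, x'), (y, y')} →
      (π x = π y ↔ π x' = π y') := by
    intro x y x' y' h
    rw [hπ, hπ]
    exact hd x y x' y' h
  have hη' : max δ η < om1 := max_lt hS.lt hη
  set α : Ordinal.{0} := max δ η + Ordinal.omega0 with hα
  have hαo : α < om1 := add_lt_om1 hη' omega_lt_om1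
  have hδα : δ < α := (le_max_left _ _).trans_lt (lt_add_omega_self _)
  have hηα : η < α := (le_max_right _ _).trans_lt (lt_add_omega_self _)
  -- finitely many types of large parts
  obtain ⟨F, hF⟩ : ∃ F : Finset M, ∀ x, ¬ SL S {y | π y = π x} α →
      ∃ y ∈ F, BFI S S {z | π z = π x} {z | π z = π y} ∅ := by
    by_contra hcon
    push Not at hcon
    obtain ⟨c, hc1, hc2⟩ := exists_seq_of_forall_finset_exists
      (fun x => ¬ SL S {y | π y = π x} α)
      (fun x y => ¬ BFI S S {z | π z = π y} {z | π z = π x} ∅) (by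
        intro F _
        obtain ⟨x, hx1, hx2⟩ := hcon F
        exact ⟨x, hx1, fun y hy hb => hx2 y hy hb⟩)
    refine pcl_no_seq hL hS hcr ht' hη hd' hαo hδα hηα (lim_add_omega _) c hc1 ?_
    intro m n hmn hb
    rcases lt_or_gt_of_ne hmn with h | h
    · exact hc2 m n h fun γ hγ => symm_empty (hb γ hγ)
    · exact hc2 n m h hb
  obtain ⟨κ₁, hκ₁⟩ := hS.code (γ := η + (α + Ordinal.omega0))
    (add_lt_om1 hη (add_lt_om1 hαo omega_lt_om1)) 1
  have hsmall : ∀ x y, SL S {z | π z = π x} α → κ₁ (fun _ => x) = κ₁ (fun _ => y) →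
      BFI S S {z | π z = π x} {z | π z = π y} ∅ := by
    intro x y hx hxy
    have h1 := hκ₁ _ _ hxy
    have h2 : BFR S S univ univ (η + (α + Ordinal.omega0)) {(x, y)} := by
      refine BFR.anti ?_ h1
      rintro _ rfl
      exact ⟨0, rfl⟩
    have h3 : BFR S S {z | π z = π x} {z | π z = π y} (α + Ordinal.omega0) {(x, y)} := by
      refine BFR.restr (subset_univ _) (subset_univ _) η _ ?_ h2
      intro z _ z' _ hz
      exact hd' z x z' y hz
    exact fun γ _ => hx.det' hαo finite_empty (fun a ha => absurd ha (notMem_empty a))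
      (BFR.anti (empty_subset _) h3) γ
  choose! k hkF hk using hF
  let enc : M → (ℕ ⊕ {y // y ∈ F}) := fun x =>
    if hx : SL S {z | π z = π x} α then Sum.inl (κ₁ fun _ => x) else Sum.inr ⟨k x, hkF x hx⟩
  obtain ⟨e, he⟩ := exists_injective_nat (ℕ ⊕ {y // y ∈ F})
  refine ⟨fun x => e (enc x), fun x y hxy => ?_⟩
  have hxy' : enc x = enc y := he hxy
  rw [hpart, hpart]
  by_cases hx : SL S {z | π z = π x} α <;> by_cases hy : SL S {z | π z = π y} α
  · simp only [enc, dif_pos hx, dif_pos hy, Sum.inl.injEq] at hxy'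
    exact hsmall x y hx hxy'
  · simp only [enc, dif_pos hx, dif_neg hy] at hxy'
    exact absurd hxy' (by simp)
  · simp only [enc, dif_neg hx, dif_pos hy] at hxy'
    exact absurd hxy' (by simp)
  · simp only [enc, dif_neg hx, dif_neg hy, Sum.inr.injEq, Subtype.mk.injEq] at hxy'
    intro γ hγ
    have h1 := hk x hx γ hγ
    have h2 := hk y hy γ hγ
    rw [hxy'] at h1
    exact trans_empty h1 (symm_empty h2)

end Pool.Agent.Helper97.LO

end

/-! ### formerly `Pool.Agent.Helper6.VCM.PCL5` -/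

section

/-!
# Coding by parts: parts with definable hulls
-/

set_option autoImplicit false
set_option linter.unusedSectionVars false
set_option linter.unusedVariables false

namespace Pool.Agent.Helper97.LO

open Set Pool.Agent.Helper5.DU Pool.Agent.Helper6.Str Pool.Agent.Helper79.VC
  Pool.Agent.Helper97.VC Pool.Agent.Helper97.MD

variable {L : FirstOrder.Language.{0, 0}} {M N P : Type} {I : Type}

/-- the properties of the hulls -/
structure HullD (S : L.Structure M) (H : (N : Type) → L.Structure N → N → N → Set N)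
    (η : Ordinal.{0}) : Prop where
  inv : ∀ (N N' : Type) (T : L.Structure N) (T' : L.Structure N') (x y z : N) (x' y' z' : N'),
    BFR T S univ univ η ∅ → BFR T' S univ univ η ∅ →
    BFR T T' univ univ η {(x, x'), (y, y'), (z, z')} → (z ∈ H N T x y ↔ z' ∈ H N' T' x' y')
  mem : ∀ (N : Type) (T : L.Structure N), BFR T S univ univ η ∅ → ∀ x y,
    x ∈ H N T x y ∧ y ∈ H N T x y
  cv : ∀ (N : Type) (T : L.Structure N), BFR T S univ univ η ∅ → ∀ x y, ∀ u ∈ H N T x y,
    ∀ v ∈ H N T x y, H N T u v ⊆ H N T x y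
  sl : ∀ (N : Type) (T : L.Structure N), BFR T S univ univ η ∅ → ∀ U : Set N,
    (∀ u ∈ U, ∀ v ∈ U, H N T u v ⊆ U) → ∀ x ∈ U, ∀ y ∈ U, ∀ ρ < om1, SL T U ρ →
      SL T (H N T x y) (η + ρ + η)

/-- equivalences of a part are extended by the identity -/
theorem bfr_ext_part {S : L.Structure M} {π : M → I} (hcr : CrossPi S π) {i : I}
    {γ : Ordinal.{0}} {p : Set (M × M)} (hp : ∀ a ∈ p, π a.1 = i ∧ π a.2 = i)
    (h : BFR S S {z | π z = i} {z | π z = i} γ p) : BFR S S univ univ γ p := by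
  refine BFR.comp_index π π (fun q hq hq' => hcr q (fun a ha => (hq a ha).2.2) hq') γ
    (fun a ha => ⟨mem_univ _, mem_univ _, (hp a ha).1.trans (hp a ha).2.symm⟩) fun j => ?_
  have e : ∀ j, {z : M | z ∈ univ ∧ π z = j} = {z | π z = j} := by
    intro j
    ext z
    exact ⟨fun hz => hz.2, fun hz => ⟨mem_univ _, hz⟩⟩
  rw [e j]
  by_cases hj : j = i
  · subst hj
    exact BFR.anti (fun a ha => ha.1) h
  · refine BFR.refl S _ γ ?_
    rintro a ⟨ha, haj⟩
    exact absurd (haj.symm.trans (hp a ha).1) hj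

section

variable {S : L.Structure M} {π : M → I} {A : Set M} {T : L.Structure N} {w : N → I}
    {U : Set I} {α η lam : Ordinal.{0}} {H : (N : Type) → L.Structure N → N → N → Set N}

/-- the parts of a replacement are convex -/
theorem hull_part (hR : Repl S π A α T w) (hAc : A.Countable) (hαo : α < om1)
    (hη : η + 1 + 1 + 1 < α) (hH : HullD S H η)
    (hcl : ∀ x y, π x = π y → H M S x y ⊆ {z | π z = π x}) {z₁ z₂ : N} (hz : w z₁ = w z₂) :
    H N T z₁ z₂ ⊆ {z | w z = w z₁} := by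
  intro z₃ hz₃
  have ha : η + 1 + 1 < α := (lt_add_one_self _).trans hη
  have hb : η + 1 < α := (lt_add_one_self _).trans ha
  have hc : η < α := (lt_add_one_self _).trans hb
  have h0 := hR.good (U := ∅) hη (fun i hi => absurd hi (notMem_empty i))
  obtain ⟨x₃, -, hx₃, h3⟩ := h0.forth hAc (ha.trans hαo) (lt_add_one_self _) z₃
  obtain ⟨x₂, -, hx₂, h2⟩ := h3.forth hAc (hb.trans hαo) (lt_add_one_self _) z₂
  obtain ⟨x₁, -, hx₁, h1⟩ := h2.forth hAc (hc.trans hαo) (lt_add_one_self _) z₁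
  have hk : BFR T S univ univ η {(z₁, x₁), (z₂, x₂), (z₃, x₃)} := by
    refine BFR.anti ?_ (h1.key hR hc)
    rintro _ (rfl | rfl | rfl)
    · exact mem_insert _ _
    · exact mem_insert_of_mem _ (mem_insert _ _)
    · exact mem_insert_of_mem _ (mem_insert_of_mem _ (mem_insert _ _))
  have h4 := (hH.inv N M T S z₁ z₂ z₃ x₁ x₂ x₃ (hR.bfr hc)
    (BFR.refl S univ η fun a ha => absurd ha (notMem_empty a)) hk).mp hz₃
  have h5 : π x₁ = π x₂ := hx₁.trans (hz.trans hx₂.symm)
  have h6 : π x₃ = π x₁ := hcl x₁ x₂ h5 h4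
  show w z₃ = w z₁
  rw [← hx₃, ← hx₁, h6]

/-- hulls inside an unaffected part are equivalent to hulls in `S` -/
theorem hull_copy (hcr : CrossPi S π) (hR : Repl S π A α T w) (hηα : η < α) (hηo : η < om1)
    (hH : HullD S H η) (hcl : ∀ x y, π x = π y → H M S x y ⊆ {z | π z = π x})
    (hconv : ∀ z₁ z₂, w z₁ = w z₂ → H N T z₁ z₂ ⊆ {z | w z = w z₁}) {u v : M}
    (hA2 : ∀ γ < om1, Clo S {y | π y = π u} γ A) (hu : u ∈ A) (hv : v ∈ A) (huv : π u = π v)
    {u' v' : N} (hu' : w u' = π u) (hv' : w v' = π u)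
    (hb : BFI T S {z | w z = π u} {x ∈ A | π x = π u} {(u', u), (v', v)}) :
    BFI T S (H N T u' v') (H M S u v) ∅ := by
  have hrefl : BFR S S univ univ η ∅ := BFR.refl S univ η fun a ha => absurd ha (notMem_empty a)
  intro γ hγ
  have hFA : ({u, v} : Set M) ⊆ A ∩ {y | π y = π u} := by
    rintro _ (rfl | rfl)
    · exact ⟨hu, rfl⟩
    · exact ⟨hv, huv.symm⟩
  have hfin : ({u, v} : Set M).Finite := (finite_singleton v).insert u
  have hγ' : η + γ < om1 := add_lt_om1 hηo hγ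
  have h1 : BFR T S {z | w z = π u} {y | π y = π u} (η + γ) {(u', u), (v', v)} := by
    have h2 : BFR S S (A ∩ {y | π y = π u}) {y | π y = π u} (η + γ) (dg ({u, v} : Set M)) := by
      refine ((hA2 _ hγ').bfr hfin hFA).symm ?_
      rintro _ ⟨x, hx, rfl⟩
      exact ⟨x, hx, rfl⟩
    refine (hb _ hγ').trans h2 ?_
    rintro _ (rfl | rfl)
    · exact ⟨u, Or.inl rfl, u, Or.inl rfl, rfl⟩
    · exact ⟨v, Or.inr rfl, v, Or.inr rfl, rfl⟩
  refine BFR.anti (empty_subset {(u', u), (v', v)}) ?_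
  refine BFR.restr ?_ ?_ η γ ?_ h1
  · have := hconv u' v' (hu'.trans hv'.symm)
    rwa [hu'] at this
  · exact hcl u v huv
  · intro z hz y hy hzy
    -- move `y` to the closed set
    obtain ⟨y₂, ⟨hy₂A, hy₂⟩, hyy⟩ := hA2 η hηo hfin.toFinset (by
      rw [hfin.coe_toFinset]
      exact hFA) y hy
    rw [hfin.coe_toFinset] at hyy
    have hyy' : BFR S S univ univ η (insert (y, y₂) (dg ({u, v} : Set M))) := by
      refine bfr_ext_part hcr ?_ hyy
      rintro a (rfl | ⟨x, hx, rfl⟩)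
      · exact ⟨hy, hy₂⟩
      · exact ⟨(hFA hx).2, (hFA hx).2⟩
    have e1 : y ∈ H M S u v ↔ y₂ ∈ H M S u v := by
      refine hH.inv M M S S u v y u v y₂ hrefl hrefl (BFR.anti ?_ hyy')
      rintro _ (rfl | rfl | rfl)
      · exact Or.inr ⟨u, Or.inl rfl, rfl⟩
      · exact Or.inr ⟨v, Or.inr rfl, rfl⟩
      · exact Or.inl rfl
    have h3 : BFR T S {z | w z = π u} {y | π y = π u} η {(z, y₂), (u', u), (v', v)} := by
      refine hzy.trans hyy ?_
      rintro _ (rfl | rfl | rfl)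
      · exact ⟨y, Or.inl rfl, Or.inl rfl⟩
      · exact ⟨u, Or.inr (Or.inl rfl), Or.inr ⟨u, Or.inl rfl, rfl⟩⟩
      · exact ⟨v, Or.inr (Or.inr rfl), Or.inr ⟨v, Or.inr rfl, rfl⟩⟩
    have hfin3 : ({(z, y₂), (u', u), (v', v)} : Set (N × M)).Finite :=
      ((finite_singleton _).insert _).insert _
    have hpos : ∀ a ∈ ({(z, y₂), (u', u), (v', v)} : Set (N × M)),
        a.2 ∈ A ∧ a.2 ∈ {y | π y = π u} ∧ w a.1 = π u := by
      rintro _ (rfl | rfl | rfl)
      · exact ⟨hy₂A, hy₂, hz⟩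
      · exact ⟨hu, rfl, hu'⟩
      · exact ⟨hv, huv.symm, hv'⟩
    have h4 : BFR T S {z | w z = π u} {x ∈ A | π x = π u} η {(z, y₂), (u', u), (v', v)} :=
      (hA2 η hηo).rel η le_rfl _ hfin3 (fun a ha => ⟨(hpos a ha).1, (hpos a ha).2.1⟩) h3
    have h5 : BFR T S univ univ η {(z, y₂), (u', u), (v', v)} := by
      refine hR.key η hηα _ hfin3 (fun a ha => ⟨(hpos a ha).1, ?_⟩) fun i => ?_
      · rw [(hpos a ha).2.2]
        exact (hpos a ha).2.1.symm
      · by_cases hi : i = π u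
        · subst hi
          exact BFR.anti (fun a ha => ha.1) h4
        · refine BFR.anti ?_ (hR.lo i η hηα)
          rintro a ⟨ha, hai⟩
          exact absurd (hai.symm.trans (hpos a ha).2.2) hi
    have e2 : z ∈ H N T u' v' ↔ y₂ ∈ H M S u v := by
      refine hH.inv N M T S u' v' z u v y₂ (hR.bfr hηα) hrefl (BFR.anti ?_ h5)
      rintro _ (rfl | rfl | rfl)
      · exact Or.inr (Or.inl rfl)
      · exact Or.inr (Or.inr rfl)
      · exact Or.inl rfl
    exact e2.trans e1.symm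

/-- **Elements of different parts have hulls without small Scott level.** -/
theorem hull_cross (hcr : CrossPi S π) (hR : Repl S π A α T w) (hAc : A.Countable)
    (hNc : Countable N) (hαo : α < om1) (hηα : η + 1 + 1 < α)
    (hH : HullD S H η) (hcl : ∀ x y, π x = π y → H M S x y ⊆ {z | π z = π x})
    (hconv : ∀ z₁ z₂, w z₁ = w z₂ → H N T z₁ z₂ ⊆ {z | w z = w z₁})
    (hA2 : ∀ x ∈ A, ∀ γ < om1, Clo S {y | π y = π x} γ A)
    (hU : ∀ i ∈ U, BFI T S {z | w z = i} {x ∈ A | π x = i} ∅)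
    (hlo : lam < om1) (hadd : ∀ a < lam, ∀ b < lam, a + b < lam) (hηl : η < lam)
    {ρs : Ordinal.{0}} (hρs : ρs < lam)
    (hsmall : ∀ x ∈ A, ¬ SL S {y | π y = π x} ρs → π x ∈ U)
    (hwit : ∀ x ∈ A, ∀ y ∈ A, π x ≠ π y → ∀ ρ < lam, ∃ u ∈ A, ∃ v ∈ A, u ∈ H M S x y ∧
      v ∈ H M S x y ∧ π u = π v ∧ ¬ SL S (H M S u v) ρ)
    {z z' : N} (hz : w z ≠ w z') {ρ : Ordinal.{0}} (hρ : ρ < lam) : ¬ SL T (H N T z z') ρ := by
  intro hSL
  have hrefl : BFR S S univ univ η ∅ := BFR.refl S univ η fun a ha => absurd ha (notMem_empty a)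
  have hb1 : η + 1 < α := (lt_add_one_self _).trans hηα
  have hc1 : η < α := (lt_add_one_self _).trans hb1
  have hηo : η < om1 := hc1.trans hαo
  have h0 := hR.good (U := U) hηα hU
  obtain ⟨x', hx'A, hx', h1⟩ := h0.forth hAc (hb1.trans hαo) (lt_add_one_self _) z'
  obtain ⟨x, hxA, hx, h2⟩ := h1.forth hAc (hc1.trans hαo) (lt_add_one_self _) z
  have hxx : π x ≠ π x' := by
    rw [hx, hx']
    exact hz
  have hρ' : max (η + ρ + η) (η + ρs + η) < lam :=
    max_lt (hadd _ (hadd _ hηl _ hρ) _ hηl) (hadd _ (hadd _ hηl _ hρs) _ hηl)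
  obtain ⟨u, huA, v, hvA, hu, hv, huv, hnSL⟩ := hwit x hxA x' hx'A hxx _ hρ'
  have huU : π u ∈ U := by
    refine hsmall u huA fun hs => hnSL ?_
    refine SL.mono ?_ (le_max_right _ _)
    refine hH.sl M S hrefl {y | π y = π u} ?_ u rfl v huv.symm ρs (hρs.trans hlo) hs
    intro a ha b hb
    have ha' : π a = π u := ha
    have hb' : π b = π u := hb
    have := hcl a b (ha'.trans hb'.symm)
    rwa [ha'] at this
  obtain ⟨v', hwv, h3⟩ := h2.back hNc hηo hvA (huv ▸ huU)
  obtain ⟨u', hwu, h4⟩ := h3.back hNc hηo huA huU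
  have h5 := h4.key hR hc1
  have hu' : u' ∈ H N T z z' := by
    refine (hH.inv M N S T x x' u z z' u' hrefl (hR.bfr hc1) (h5.symm ?_)).mp hu
    rintro _ (rfl | rfl | rfl)
    · exact Or.inr (Or.inr (Or.inl rfl))
    · exact Or.inr (Or.inr (Or.inr (Or.inl rfl)))
    · exact Or.inl rfl
  have hv' : v' ∈ H N T z z' := by
    refine (hH.inv M N S T x x' v z z' v' hrefl (hR.bfr hc1) (h5.symm ?_)).mp hv
    rintro _ (rfl | rfl | rfl)
    · exact Or.inr (Or.inr (Or.inl rfl))
    · exact Or.inr (Or.inr (Or.inr (Or.inl rfl)))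
    · exact Or.inr (Or.inl rfl)
  have h6 : SL T (H N T u' v') (η + ρ + η) :=
    hH.sl N T (hR.bfr hc1) (H N T z z') (hH.cv N T (hR.bfr hc1) z z') u' hu' v' hv' ρ
      (hρ.trans hlo) hSL
  have h7 : BFI T S (H N T u' v') (H M S u v) ∅ := by
    refine hull_copy hcr hR hc1 hηo hH hcl hconv (hA2 u huA) huA hvA huv hwu
      (hwv.trans huv.symm) fun γ hγ => BFR.anti ?_ (h4.bfi _ huU γ hγ)
    rintro _ (rfl | rfl)
    · exact ⟨Or.inl rfl, hwu⟩
    · exact ⟨Or.inr (Or.inl rfl), hwv.trans huv.symm⟩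
  refine hnSL (SL.mono ?_ (le_max_left _ _))
  have h8 : η + ρ + η < om1 := (hadd _ (hadd _ hηl _ hρ) _ hηl).trans hlo
  exact h6.congr h8 (h7 _ (add_lt_om1 h8 omega_lt_om1))

end

end Pool.Agent.Helper97.LO

end

/-! ### formerly `Pool.Agent.Helper6.VCM.PCL6` -/

section

/-!
# Coding by parts: parts with definable hulls, the main statement
-/

set_option autoImplicit false
set_option linter.unusedSectionVars false
set_option linter.unusedVariables false

namespace Pool.Agent.Helper97.LO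

open Set Pool.Agent.Helper5.DU Pool.Agent.Helper6.Str Pool.Agent.Helper79.VC
  Pool.Agent.Helper97.VC Pool.Agent.Helper97.MD

variable {L : FirstOrder.Language.{0, 0}} {M N P : Type} {I : Type}

variable [∀ n, IsEmpty (L.Functions n)] [∀ n, Countable (L.Relations n)]
  {K : Set (L.Structure ℕ)} {δ : Ordinal.{0}} {S : L.Structure M}

/-- **Parts with definable hulls**, in terms of the quotient map. -/
theorem pcl_hull_aux (hL : Ar2 L) (hS : VSt K δ S) {π : M → I} (hcr : CrossPi S π)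
    (ht : ∀ x, TameX S {y | π y = π x})
    (H : (N : Type) → L.Structure N → N → N → Set N) {η : Ordinal.{0}} (hη : η < om1)
    (hH : HullD S H η)
    (hcl : ∀ x y, π x = π y → H M S x y ⊆ {z | π z = π x})
    (hub : ∀ x y, π x ≠ π y → ∀ ρ < om1, ∃ u ∈ H M S x y, ∃ v ∈ H M S x y, π u = π v ∧
      ¬ SL S (H M S u v) ρ) (x₀ y₀ : M) (h₀ : π x₀ ≠ π y₀) : False := by
  classical
  have hrefl : BFR S S univ univ η ∅ := BFR.refl S univ η fun a ha => absurd ha (notMem_empty a)
  have hcv : ∀ x, ∀ a ∈ {z | π z = π x}, ∀ b ∈ {z | π z = π x},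
      H M S a b ⊆ {z | π z = π x} := by
    intro x a ha b hb
    have ha' : π a = π x := ha
    have hb' : π b = π x := hb
    have := hcl a b (ha'.trans hb'.symm)
    rwa [ha'] at this
  -- parts without small Scott level
  have hbig : ∀ ρ < om1, ∃ u, ¬ SL S {z | π z = π u} ρ := by
    intro ρ hρ
    obtain ⟨u, hu, v, hv, huv, hn⟩ := hub x₀ y₀ h₀ (η + ρ + η) (add_lt_om1 (add_lt_om1 hη hρ) hη)
    exact ⟨u, fun hs => hn (hH.sl M S hrefl {z | π z = π u} (hcv u) u rfl v huv.symm ρ hρ hs)⟩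
  have hη' : max δ η < om1 := max_lt hS.lt hη
  set α : Ordinal.{0} := max δ η + Ordinal.omega0 with hα
  have hαo : α < om1 := add_lt_om1 hη' omega_lt_om1
  have hδα : δ < α := (le_max_left _ _).trans_lt (lt_add_omega_self _)
  have hηα : η < α := (le_max_right _ _).trans_lt (lt_add_omega_self _)
  have hlim : ∀ β < α, β + 1 < α := lim_add_omega _
  have hα0 : 0 < α := lt_of_le_of_lt (zero_le (a := δ)) hδα
  have hα1 : 1 < α := by
    have := hlim 0 hα0
    rwa [zero_add] at this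
  choose σ hσo hσ using fun x => (ht x).exists_SL
  obtain ⟨c, hc1, hc2⟩ := exists_seq_of_forall_finset_exists
    (fun x => ¬ SL S {y | π y = π x} α)
    (fun x y => ¬ BFI S S {z | π z = π y} {z | π z = π x} ∅) (by
      intro F _
      have hF : max α (F.sup σ) < om1 := by
        refine max_lt hαo ?_
        rw [Finset.sup_lt_iff (Ordinal.omega_pos 1)]
        exact fun x _ => hσo x
      obtain ⟨u, hu⟩ := hbig _ hF
      refine ⟨u, fun hs => hu (hs.mono (le_max_left _ _)), fun x hx hb => hu ?_⟩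
      refine SL.mono ?_ ((Finset.le_sup (f := σ) hx).trans (le_max_right _ _))
      exact (hσ x).congr (hσo x) (symm_empty (hb _ (add_lt_om1 (hσo x) omega_lt_om1))))
  have hc3 : ∀ m n, m ≠ n → ¬ BFI S S {y | π y = π (c m)} {y | π y = π (c n)} ∅ := by
    intro m n hmn hb
    rcases lt_or_gt_of_ne hmn with h | h
    · exact hc2 m n h fun γ hγ => symm_empty (hb γ hγ)
    · exact hc2 n m h hb
  obtain ⟨g, T, Y, hg, hV, hV'⟩ := exists_omit_seq (fun n => {y | π y = π (c n)})
    (fun n => ht (c n)) hαo hα0 hlim hc1 hc3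
  choose τ hτo hτ using fun n => exists_SL_of_countable (S := T n) (to_countable (Y n))
  obtain ⟨μ₁, hμ₁, hμ₁'⟩ := exists_bound hτo
  obtain ⟨ρs, hρs, hρs'⟩ := exists_bound (fun n => hσo (c (g n)))
  -- the closed set
  have hwit : ∀ (x y : M) (γ : Ordinal.{0}), ∃ u v, π x ≠ π y → γ < om1 → u ∈ H M S x y ∧
      v ∈ H M S x y ∧ π u = π v ∧ ¬ SL S (H M S u v) γ := by
    intro x y γ
    by_cases hxy : π x ≠ π y
    · by_cases hγ : γ < om1
      · obtain ⟨u, hu, v, hv, h1, h2⟩ := hub x y hxy γ hγ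
        exact ⟨u, v, fun _ _ => ⟨hu, hv, h1, h2⟩⟩
      · exact ⟨x, x, fun _ h => absurd h hγ⟩
    · exact ⟨x, x, fun h => absurd h hxy⟩
  choose a b hab using hwit
  obtain ⟨A, lam, hAc, hcA, hμl, hlo, hladd, hA1, hA2, hAf, hAσ⟩ := exists_good_set hS ht
    (fun F γ => ⋃ x ∈ F, ⋃ y ∈ F, {a x y γ, b x y γ}) (by
      intro F γ _
      exact F.finite_toSet.countable.biUnion fun x _ => F.finite_toSet.countable.biUnion
        fun y _ => (countable_singleton _).insert _)
    (fun _ _ => 0) (fun _ _ _ => Ordinal.omega_pos 1)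
    (countable_range c) (max_lt (max_lt hαo hμ₁) hρs)
  have hαl : α < lam := ((le_max_left _ _).trans (le_max_left _ _)).trans_lt hμl
  have hμ₁l : μ₁ < lam := ((le_max_right _ _).trans (le_max_left _ _)).trans_lt hμl
  have hρsl : ρs < lam := (le_max_right _ _).trans_lt hμl
  have hηl : η < lam := hηα.trans hαl
  have hcA' : ∀ n, c (g n) ∈ A := fun n => hcA ⟨g n, rfl⟩
  have hωl : Ordinal.omega0 < lam := by
    refine lt_of_le_of_lt ?_ (hδα.trans hαl)
    exact (le_self_add (a := Ordinal.omega0) (b := Ordinal.omega0)).trans hS.om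
  have hwit : ∀ x ∈ A, ∀ y ∈ A, π x ≠ π y → ∀ ρ < lam, ∃ u ∈ A, ∃ v ∈ A, u ∈ H M S x y ∧
      v ∈ H M S x y ∧ π u = π v ∧ ¬ SL S (H M S u v) ρ := by
    intro x hx y hy hxy ρ hρ
    have hF : (({x, y} : Finset M) : Set M) ⊆ A := by
      rw [Finset.coe_insert, Finset.coe_singleton]
      rintro _ (rfl | rfl)
      · exact hx
      · exact hy
    have h1 := (hAf _ hF ρ hρ).1
    have h2 : ∀ z ∈ ({a x y ρ, b x y ρ} : Set M), z ∈ A := by
      intro z hz
      refine h1 ?_
      simp only [mem_iUnion]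
      exact ⟨x, by simp, y, by simp, hz⟩
    obtain ⟨h3, h4, h5, h6⟩ := hab x y ρ hxy (hρ.trans hlo)
    exact ⟨_, h2 _ (Or.inl rfl), _, h2 _ (Or.inr rfl), h3, h4, h5, h6⟩
  obtain ⟨N, T', w, hN, hR, hw, hfam⟩ := exists_family hL hcr ht hAc hα1 hαo
    (fun γ hγ => hA1 γ (hγ.trans hαl)) hA2 (fun n => c (g n)) hcA' T Y hV
  have hne : ∀ m n, m ≠ n → ¬ BFI S S {y | π y = π (c (g m))} {y | π y = π (c (g n))} ∅ :=
    fun m n hmn => hc3 _ _ fun h => hmn (hg h)
  obtain ⟨D1, D2⟩ := family_decode (fun n => c (g n)) hcA' hne T Y hV' hw hfam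
  -- the parts of the replacements
  have hη1 : η + 1 < α := hlim _ hηα
  have hη2 : η + 1 + 1 < α := hlim _ hη1
  have hη3 : η + 1 + 1 + 1 < α := hlim _ hη2
  have hconv : ∀ f, ∀ z₁ z₂ : N f, w f z₁ = w f z₂ →
      H (N f) (T' f) z₁ z₂ ⊆ {z | w f z = w f z₁} := fun f z₁ z₂ hz =>
    hull_part (hR f) hAc hαo hη3 hH hcl hz
  have hsame : ∀ f, ∀ z z' : N f, w f z = w f z' ↔
      ∃ ρ < lam, SL (T' f) (H (N f) (T' f) z z') ρ := by
    intro f z z'
    constructor
    · intro hz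
      -- the part has a small Scott level
      have hpart : ∃ ρ < lam, SL (T' f) {y | w f y = w f z} ρ := by
        obtain ⟨x, hx, hzx⟩ := hw f z
        rw [hzx]
        rcases hfam f x hx with ⟨h1, -⟩ | ⟨n, -, -, h1⟩
        · obtain ⟨ρ, hρ, hρ'⟩ := hAσ x hx
          exact ⟨ρ, hρ, hρ'.congr (hρ.trans hlo)
            (symm_empty (h1 _ (add_lt_om1 (hρ.trans hlo) omega_lt_om1)))⟩
        · exact ⟨τ n, (hμ₁' n).trans_lt hμ₁l, (hτ n).congr (hτo n) (symm_empty (h1 _))⟩
      obtain ⟨ρ, hρ, hρ'⟩ := hpart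
      refine ⟨η + ρ + η, hladd _ (hladd _ hηl _ hρ) _ hηl, ?_⟩
      refine hH.sl (N f) (T' f) ((hR f).bfr hηα) {y | w f y = w f z} ?_ z rfl z' hz.symm ρ
        (hρ.trans hlo) hρ'
      intro u hu v hv
      have hu' : w f u = w f z := hu
      have hv' : w f v = w f z := hv
      have := hconv f u v (hu'.trans hv'.symm)
      rwa [hu'] at this
    · rintro ⟨ρ, hρ, hs⟩
      by_contra hz
      refine hull_cross (U := {i | BFI (T' f) S {z | w f z = i} {x ∈ A | π x = i} ∅}) hcr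
        (hR f) hAc (hN f) hαo hη2 hH hcl (hconv f) hA2 (fun i hi => hi) hlo hladd hηl hρsl ?_
        hwit hz hρ hs
      intro x hx hns γ hγ
      rcases hfam f x hx with ⟨h1, -⟩ | ⟨n, -, h1, -⟩
      · exact (hA2 x hx γ hγ).rel γ le_rfl ∅ finite_empty
          (fun a ha => absurd ha (notMem_empty a)) (h1 γ hγ)
      · exfalso
        refine hns (SL.mono ?_ (hρs' n))
        exact (hσ (c (g n))).congr (hσo _) (symm_empty (h1 _ (add_lt_om1 (hσo _) omega_lt_om1)))
  refine pcl_decode hS hδα hlo (κ₁ := η + lam) (add_lt_om1 hη hlo) (fun n => π (c (g n)))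
    (fun n => ⟨c (g n), rfl⟩) ?_ N T' w hN hR D1 D2 ?_
  · intro n
    obtain ⟨ρ, hρ, hρ'⟩ := hAσ _ (hcA' n)
    exact ⟨ρ, (hladd ρ hρ _ hωl).le, hρ'⟩
  · intro f f' x y x' y' hb
    rw [hsame, hsame]
    refine SL.lt_congr hlo.le (fun ρ hρ => hladd ρ hρ _ hωl)
      (BFR.anti (empty_subset {(x, x'), (y, y')}) ?_)
    refine BFR.restr (subset_univ _) (subset_univ _) η lam ?_ hb
    intro z _ z' _ hz
    refine hH.inv _ _ _ _ _ _ _ _ _ _ ((hR f).bfr hηα) ((hR f').bfr hηα) (BFR.anti ?_ hz)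
    rintro _ (rfl | rfl | rfl)
    · exact Or.inr (Or.inl rfl)
    · exact Or.inr (Or.inr rfl)
    · exact Or.inl rfl

/-- **Parts with definable hulls.** `H N T x y` is the hull of `x` and `y` in the structure `T` on
`N` (an interval or a node). If hulls of elements of different parts contain hulls of elements of
the same part which have no Scott level below any given countable ordinal, then there is only one
part. -/
theorem pcl_hull (hL : Ar2 L) (hS : VSt K δ S) {E : M → M → Prop} (hE : Equivalence E)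
    (hc : CrossRule S E) (ht : ∀ x, TameX S {y | E x y})
    (H : (N : Type) → L.Structure N → N → N → Set N) {η : Ordinal.{0}} (hη : η < om1)
    (h1 : ∀ (N N' : Type) (T : L.Structure N) (T' : L.Structure N') (x y z : N) (x' y' z' : N'),
      BFR T S univ univ η ∅ → BFR T' S univ univ η ∅ →
      BFR T T' univ univ η {(x, x'), (y, y'), (z, z')} → z ∈ H N T x y → z' ∈ H N' T' x' y')
    (hmem : ∀ (N : Type) (T : L.Structure N), BFR T S univ univ η ∅ → ∀ x y,
      x ∈ H N T x y ∧ y ∈ H N T x y)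
    (hcv : ∀ (N : Type) (T : L.Structure N), BFR T S univ univ η ∅ → ∀ x y, ∀ u ∈ H N T x y,
      ∀ v ∈ H N T x y, H N T u v ⊆ H N T x y)
    (hcl : ∀ x y, E x y → H M S x y ⊆ {z | E x z})
    (hsl : ∀ (N : Type) (T : L.Structure N), BFR T S univ univ η ∅ → ∀ U : Set N,
      (∀ u ∈ U, ∀ v ∈ U, H N T u v ⊆ U) → ∀ x ∈ U, ∀ y ∈ U, ∀ ρ < om1, SL T U ρ →
        SL T (H N T x y) (η + ρ + η))
    (hub : ∀ x y, ¬ E x y → ∀ ρ < om1, ∃ u ∈ H M S x y, ∃ v ∈ H M S x y, E u v ∧
      ¬ SL S (H M S u v) ρ) :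
    ∀ x y, E x y := by
  intro x₀ y₀
  by_contra h₀
  let s : Setoid M := ⟨E, hE⟩
  let π : M → Quotient s := Quotient.mk s
  have hπ : ∀ x y, π x = π y ↔ E x y := fun x y => Quotient.eq
  have hpart : ∀ x, {z | E x z} = {z | π z = π x} := by
    intro x
    ext z
    rw [mem_ofPred_eq, mem_ofPred_eq, hπ]
    exact ⟨fun h => hE.symm h, fun h => hE.symm h⟩
  refine pcl_hull_aux hL hS (π := π) (crossPi_of_rule hπ hc) (fun x => ?_) H hη
    ⟨fun N N' T T' x y z x' y' z' hT hT' h => ⟨h1 N N' T T' x y z x' y' z' hT hT' h,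
      h1 N' N T' T x' y' z' x y z hT' hT (h.symm ?_)⟩, hmem, hcv, hsl⟩ ?_ ?_ x₀ y₀
      (fun h => h₀ ((hπ _ _).mp h))
  · rw [← hpart x]
    exact ht x
  · rintro _ (rfl | rfl | rfl)
    · exact Or.inl rfl
    · exact Or.inr (Or.inl rfl)
    · exact Or.inr (Or.inr rfl)
  · intro x y hxy
    rw [← hpart x]
    exact hcl x y ((hπ _ _).mp hxy)
  · intro x y hxy ρ hρ
    obtain ⟨u, hu, v, hv, huv, hn⟩ := hub x y (fun h => hxy ((hπ _ _).mpr h)) ρ hρ
    exact ⟨u, hu, v, hv, (hπ _ _).mpr huv, hn⟩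

end Pool.Agent.Helper97.LO

end
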