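import Pool.Agent.Helper22.VCM.C2bT
import Pool.Agent.Helper4.VCM.CC
import Pool.Agent.Helper52.VCM.VI
import Pool.Agent.Helper68.VCM.VQ
import Pool.Agent.Helper78.VCM.MDdef
import Pool.Agent.Helper79.VCM.SP
import Pool.Agent.VB.D
import Pool.Agent.Helper5.VCM.NB
import Pool.Agent.Helper6.VC.UFinal
import Pool.Agent.Helper6.T2.Defs

/-!
# Tools for Vaught's conjecture, part 7: levels, codes, trees

Merged file (to shorten the import chain): contents, unchanged, of
`Pool.Agent.Helper97.LO.Mods`, `Pool.Agent.Helper79.VCM.LSBasic`, `Pool.Agent.Helper79.VCM.LSCode`, `Pool.Agent.Helper79.VCM.LSCode2`, `Pool.Agent.Helper79.VCM.LS`, `Pool.Agent.Helper97.VCM.Tree1`, `Pool.Agent.Helper97.VCM.Tree2`, `Pool.Agent.Helper97.VCM.Tree3`, `Pool.Agent.Helper97.VCM.Tree4`, `Pool.Agent.Helper97.VCM.Tree5`, `Pool.Agent.Helper97.VCM.Tree6`, `Pool.Agent.Helper97.VCM.Fin`, `Pool.Agent.T2.Exp`, `Pool.Agent.VLin.Defs`.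
-/

/-! ### formerly `Pool.Agent.Helper97.LO.Mods` -/

section

/-!
# The modules used for linear sums and for the modular decomposition
-/

end

/-! ### formerly `Pool.Agent.Helper79.VCM.LSBasic` -/

section

/-!
# Linear sums of tame structures: the equivalence given by tame intervals
-/

set_option autoImplicit false
set_option linter.unusedSectionVars false
set_option linter.unusedVariables false

namespace Pool.Agent.Helper97.LO

open Set Pool.Agent.Helper5.DU Pool.Agent.Helper6.Str Pool.Agent.Helper79.VC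
  Pool.Agent.Helper97.VC Pool.Agent.Helper97.MD

variable {L : FirstOrder.Language.{0, 0}} {M N P : Type}

theorem rel_of_atEq {S : L.Structure M} {S' : L.Structure N} {p : Set (M × N)}
    (h : AtEq S S' p) {R : L.Relations 2} {a b : M} {a' b' : N} (ha : (a, a') ∈ p)
    (hb : (b, b') ∈ p) : S.RelMap R ![a, b] ↔ S'.RelMap R ![a', b'] := by
  have h1 := h.2 2 R ![(a, a'), (b, b')] (by
    intro i
    fin_cases i
    · exact ha
    · exact hb)
  have e1 : (fun i => ((![(a, a'), (b, b')] : Fin 2 → M × N) i).1) = ![a, b] := by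
    funext i
    fin_cases i <;> rfl
  have e2 : (fun i => ((![(a, a'), (b, b')] : Fin 2 → M × N) i).2) = ![a', b'] := by
    funext i
    fin_cases i <;> rfl
  rwa [e1, e2] at h1

section

variable [Preorder M] {r : L.Relations 2} {o : Bool} {S : L.Structure M}

theorem OSt.le_congrLS (hO : OSt r o S) {p : Set (M × M)} (h : AtEq S S p) {a b a' b' : M}
    (ha : (a, a') ∈ p) (hb : (b, b') ∈ p) : a ≤ b ↔ a' ≤ b' := by
  rw [hO.le_iff, hO.le_iff]
  cases o
  · simpa using rel_of_atEq h (R := r) hb ha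
  · simpa using rel_of_atEq h (R := r) ha hb

theorem OSt.lt_congrLS (hO : OSt r o S) {p : Set (M × M)} (h : AtEq S S p) {a b a' b' : M}
    (ha : (a, a') ∈ p) (hb : (b, b') ∈ p) : a < b ↔ a' < b' := by
  rw [lt_iff_le_not_ge, lt_iff_le_not_ge, hO.le_congrLS h ha hb, hO.le_congrLS h hb ha]

theorem OSt.lt_of_not_leLS (hO : OSt r o S) {a b : M} (h : ¬ a ≤ b) : b < a :=
  lt_iff_le_not_ge.mpr ⟨(hO.total a b).resolve_left h, h⟩

/-- **Composition of ordered sums.** -/
theorem OSt.glue (hL : Ar2 L) (hO : OSt r o S) {I : Type} (π : M → I) {U V : Set M}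
    (hUV : ∀ a b a' b', a ∈ U → b ∈ U → a' ∈ V → b' ∈ V → π a = π a' → π b = π b' → π a ≠ π b →
      (a < b ∧ a' < b') ∨ (b < a ∧ b' < a') ∨ (a = a' ∧ b = b')) (γ : Ordinal.{0})
    {p : Set (M × M)} (hp : ∀ a ∈ p, a.1 ∈ U ∧ a.2 ∈ V ∧ π a.1 = π a.2)
    (h : ∀ i, BFR S S {a ∈ U | π a = i} {b ∈ V | π b = i} γ {a ∈ p | π a.1 = i}) :
    BFR S S U V γ p := by
  refine BFR.comp_index π π ?_ γ hp h
  intro q hq hqi
  refine atEq_of_pairs hL fun a ha b hb => ?_
  by_cases hab : π a.1 = π b.1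
  · refine AtEq.anti ?_ (hqi (π a.1))
    rintro c (rfl | rfl)
    · exact ⟨ha, rfl⟩
    · exact ⟨hb, hab.symm⟩
  · have h1 : AtEq S S {a} := AtEq.anti (by
      rintro c rfl
      exact ⟨ha, rfl⟩) (hqi (π a.1))
    have h2 : AtEq S S {b} := AtEq.anti (by
      rintro c rfl
      exact ⟨hb, rfl⟩) (hqi (π b.1))
    obtain ⟨a1, a2⟩ := a
    obtain ⟨b1, b2⟩ := b
    rcases hUV a1 b1 a2 b2 (hq _ ha).1 (hq _ hb).1 (hq _ ha).2.1 (hq _ hb).2.1 (hq _ ha).2.2
      (hq _ hb).2.2 hab with ⟨h3, h4⟩ | ⟨h3, h4⟩ | ⟨h3, h4⟩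
    · exact hO.cross _ _ _ _ h3 h4 h1 h2
    · rw [pair_comm]
      exact hO.cross _ _ _ _ h3 h4 h2 h1
    · have h3' : a1 = a2 := h3
      have h4' : b1 = b2 := h4
      subst h3'
      subst h4'
      refine (BFR.refl S univ 0 ?_).atEq
      rintro c (rfl | rfl)
      · exact ⟨mem_univ _, rfl⟩
      · exact ⟨mem_univ _, rfl⟩

/-- the union of two tame pieces, one below the other -/
theorem OSt.tame_union (hL : Ar2 L) (hO : OSt r o S) {A B : Set M} (hA : TameX S A)
    (hB : TameX S B) (hAB : ∀ a ∈ A, ∀ b ∈ B, a < b) : TameX S (A ∪ B) := by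
  classical
  obtain ⟨CA, hCAc, -, hCAA, hCA⟩ := hA.exists_closed (A₀ := ∅) countable_empty (empty_subset _)
  obtain ⟨CB, hCBc, -, hCBB, hCB⟩ := hB.exists_closed (A₀ := ∅) countable_empty (empty_subset _)
  have hdisj : ∀ x, x ∈ A → x ∉ B := fun x h1 h2 => lt_irrefl x (hAB x h1 x h2)
  let π : M → Bool := fun x => decide (x ∈ A)
  have hπt : ∀ x, π x = true ↔ x ∈ A := fun x => by simp [π]
  have hπf : ∀ x, π x = false ↔ x ∉ A := fun x => by simp [π]
  have hUV : ∀ a b a' b', a ∈ A ∪ B → b ∈ A ∪ B → a' ∈ A ∪ B → b' ∈ A ∪ B → π a = π a' →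
      π b = π b' → π a ≠ π b → (a < b ∧ a' < b') ∨ (b < a ∧ b' < a') ∨ (a = a' ∧ b = b') := by
    intro a b a' b' ha hb ha' hb' h1 h2 h3
    by_cases haA : a ∈ A
    · have hb1 : b ∉ A := fun hbA => h3 (by rw [(hπt a).mpr haA, (hπt b).mpr hbA])
      have ha'1 : a' ∈ A := by rw [← hπt, ← h1, hπt]; exact haA
      have hb'1 : b' ∉ A := by rw [← hπf, ← h2, hπf]; exact hb1
      exact Or.inl ⟨hAB a haA b (hb.resolve_left hb1), hAB a' ha'1 b' (hb'.resolve_left hb'1)⟩
    · have hb1 : b ∈ A := by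
        by_contra hbA
        exact h3 (by rw [(hπf a).mpr haA, (hπf b).mpr hbA])
      have ha'1 : a' ∉ A := by rw [← hπf, ← h1, hπf]; exact haA
      have hb'1 : b' ∈ A := by rw [← hπt, ← h2, hπt]; exact hb1
      exact Or.inr (Or.inl ⟨hAB b hb1 a (ha.resolve_left haA),
        hAB b' hb'1 a' (ha'.resolve_left ha'1)⟩)
  have hpt : {a ∈ A ∪ B | π a = true} = A := by
    ext x
    constructor
    · rintro ⟨_, h⟩
      exact (hπt x).mp h
    · intro h
      exact ⟨Or.inl h, (hπt x).mpr h⟩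
  have hpf : {a ∈ A ∪ B | π a = false} = B := by
    ext x
    constructor
    · rintro ⟨h1, h⟩
      exact h1.resolve_left ((hπf x).mp h)
    · intro h
      exact ⟨Or.inr h, (hπf x).mpr fun h' => hdisj x h' h⟩
  refine tameX_of_closed (B := CA ∪ CB) (hCAc.union hCBc) (union_subset_union hCAA hCBB) ?_
  intro F hF c hc
  have hFmem : ∀ x ∈ F, x ∈ A ∪ B := fun x hx => union_subset_union hCAA hCBB (hF hx)
  rcases hc with hc | hc
  · obtain ⟨d, hd, hcd⟩ := hCA (F.filter (fun x => x ∈ A)) (by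
      intro x hx
      rw [Finset.mem_coe, Finset.mem_filter] at hx
      rcases hF hx.1 with h | h
      · exact h
      · exact absurd (hCBB h) (hdisj x hx.2)) c hc
    refine ⟨d, Or.inl hd, fun γ hγ => OSt.glue hL hO π hUV γ ?_ ?_⟩
    · rintro a (rfl | ⟨x, hx, rfl⟩)
      · exact ⟨Or.inl hc, Or.inl (hCAA hd), by rw [(hπt c).mpr hc, (hπt d).mpr (hCAA hd)]⟩
      · exact ⟨hFmem x hx, hFmem x hx, rfl⟩
    · rintro (_ | _)
      · rw [hpf]
        refine BFR.refl S B γ ?_
        rintro a ⟨rfl | ⟨x, hx, rfl⟩, ha⟩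
        · exact absurd hc ((hπf c).mp ha)
        · exact ⟨(hFmem x hx).resolve_left ((hπf x).mp ha), rfl⟩
      · rw [hpt]
        refine BFR.anti ?_ (hcd γ hγ)
        rintro a ⟨rfl | ⟨x, hx, rfl⟩, ha⟩
        · exact mem_insert _ _
        · refine mem_insert_of_mem _ ⟨x, ?_, rfl⟩
          rw [Finset.mem_coe, Finset.mem_filter]
          exact ⟨hx, (hπt x).mp ha⟩
  · obtain ⟨d, hd, hcd⟩ := hCB (F.filter (fun x => x ∈ B)) (by
      intro x hx
      rw [Finset.mem_coe, Finset.mem_filter] at hx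
      rcases hF hx.1 with h | h
      · exact absurd hx.2 (hdisj x (hCAA h))
      · exact h) c hc
    have hcA : c ∉ A := fun h => hdisj c h hc
    have hdA : d ∉ A := fun h => hdisj d h (hCBB hd)
    refine ⟨d, Or.inr hd, fun γ hγ => OSt.glue hL hO π hUV γ ?_ ?_⟩
    · rintro a (rfl | ⟨x, hx, rfl⟩)
      · exact ⟨Or.inr hc, Or.inr (hCBB hd), by rw [(hπf c).mpr hcA, (hπf d).mpr hdA]⟩
      · exact ⟨hFmem x hx, hFmem x hx, rfl⟩
    · rintro (_ | _)
      · rw [hpf]
        refine BFR.anti ?_ (hcd γ hγ)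
        rintro a ⟨rfl | ⟨x, hx, rfl⟩, ha⟩
        · exact mem_insert _ _
        · refine mem_insert_of_mem _ ⟨x, ?_, rfl⟩
          rw [Finset.mem_coe, Finset.mem_filter]
          exact ⟨hx, (hFmem x hx).resolve_left ((hπf x).mp ha)⟩
      · rw [hpt]
        refine BFR.refl S A γ ?_
        rintro a ⟨rfl | ⟨x, hx, rfl⟩, ha⟩
        · exact absurd ((hπt c).mp ha) hcA
        · exact ⟨(hπt x).mp ha, rfl⟩

/-- subintervals of tame intervals are tame -/
theorem OSt.tame_Icc (hO : OSt r o S) {X : Set M} (h : TameX S X) {u v : M} (hu : u ∈ X)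
    (hv : v ∈ X) (hsub : Icc u v ⊆ X) : TameX S (Icc u v) := by
  classical
  refine h.sub {u, v} ?_ hsub zero_lt_om1 fun c hc c' hc' hcc => ?_
  · intro x hx
    simp only [Finset.coe_insert, Finset.coe_singleton, mem_insert_iff, mem_singleton_iff] at hx
    rcases hx with rfl | rfl
    · exact hu
    · exact hv
  · have h1 : (u, u) ∈ insert (c, c') (dg (({u, v} : Finset M) : Set M)) :=
      mem_insert_of_mem _ ⟨u, by simp, rfl⟩
    have h2 : (v, v) ∈ insert (c, c') (dg (({u, v} : Finset M) : Set M)) :=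
      mem_insert_of_mem _ ⟨v, by simp, rfl⟩
    rw [mem_Icc, mem_Icc, hO.le_congrLS hcc.atEq h1 (mem_insert _ _),
      hO.le_congrLS hcc.atEq (mem_insert _ _) h2]

/-- the part above an element -/
theorem OSt.tame_gt (hO : OSt r o S) {X : Set M} (h : TameX S X) {u : M} (hu : u ∈ X) :
    TameX S {z | z ∈ X ∧ u < z} := by
  classical
  refine h.sub {u} ?_ (fun z hz => hz.1) zero_lt_om1 fun c hc c' hc' hcc => ?_
  · intro x hx
    simp only [Finset.coe_singleton, mem_singleton_iff] at hx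
    subst hx
    exact hu
  · have h1 : (u, u) ∈ insert (c, c') (dg (({u} : Finset M) : Set M)) :=
      mem_insert_of_mem _ ⟨u, by simp, rfl⟩
    show (c ∈ X ∧ u < c) ↔ (c' ∈ X ∧ u < c')
    rw [hO.lt_congrLS hcc.atEq h1 (mem_insert _ _)]
    simp [hc, hc']

/-- `x` and `y` bound a tame interval -/
def TE (S : L.Structure M) (x y : M) : Prop :=
  (x ≤ y ∧ TameX S (Icc x y)) ∨ (y ≤ x ∧ TameX S (Icc y x))

theorem TE.symm {x y : M} (h : TE S x y) : TE S y x := Or.symm h

theorem TE.tame (hO : OSt r o S) {x y : M} (h : TE S x y) (hxy : x ≤ y) : TameX S (Icc x y) := by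
  rcases h with h | h
  · exact h.2
  · have : Icc x y = Icc y x := by
      ext z
      rw [mem_Icc, mem_Icc]
      constructor
      · rintro ⟨h1, h2⟩
        exact ⟨h.1.trans h1, h2.trans h.1⟩
      · rintro ⟨h1, h2⟩
        exact ⟨hxy.trans h1, h2.trans hxy⟩
    rw [this]
    exact h.2

theorem TE.of_le {x y : M} (h : x ≤ y) (h' : TameX S (Icc x y)) : TE S x y := Or.inl ⟨h, h'⟩

theorem TE.refl (h : ∀ y, TameX S {z : M | z ≤ y ∧ y ≤ z}) (x : M) : TE S x x := by
  refine Or.inl ⟨le_rfl, ?_⟩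
  have : Icc x x = {z : M | z ≤ x ∧ x ≤ z} := by
    ext z
    exact and_comm
  rw [this]
  exact h x

theorem TE.left (hO : OSt r o S) {x y z : M} (h : TE S x z) (hxy : x ≤ y) (hyz : y ≤ z) :
    TE S x y :=
  TE.of_le hxy (hO.tame_Icc (h.tame hO (hxy.trans hyz)) ⟨le_rfl, hxy.trans hyz⟩ ⟨hxy, hyz⟩
    (fun w hw => ⟨hw.1, hw.2.trans hyz⟩))

theorem TE.right (hO : OSt r o S) {x y z : M} (h : TE S x z) (hxy : x ≤ y) (hyz : y ≤ z) :
    TE S y z :=
  TE.of_le hyz (hO.tame_Icc (h.tame hO (hxy.trans hyz)) ⟨hxy, hyz⟩ ⟨hxy.trans hyz, le_rfl⟩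
    (fun w hw => ⟨hxy.trans hw.1, hw.2⟩))

theorem TE.append (hL : Ar2 L) (hO : OSt r o S) {x y z : M} (hxy : x ≤ y) (hyz : y ≤ z)
    (h1 : TameX S (Icc x y)) (h2 : TameX S (Icc y z)) : TE S x z := by
  refine TE.of_le (hxy.trans hyz) ?_
  have h3 := hO.tame_gt h2 (u := y) ⟨le_rfl, hyz⟩
  have h4 := OSt.tame_union hL hO h1 h3 (fun a ha b hb => lt_of_le_of_lt ha.2 hb.2)
  have : Icc x z = Icc x y ∪ {w | w ∈ Icc y z ∧ y < w} := by
    ext w
    constructor
    · rintro ⟨h5, h6⟩
      by_cases hw : w ≤ y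
      · exact Or.inl ⟨h5, hw⟩
      · have := hO.lt_of_not_leLS hw
        exact Or.inr ⟨⟨this.le, h6⟩, this⟩
    · rintro (⟨h5, h6⟩ | ⟨⟨h5, h6⟩, _⟩)
      · exact ⟨h5, h6.trans hyz⟩
      · exact ⟨hxy.trans h5, h6⟩
  rwa [this]

theorem TE.trans (hL : Ar2 L) (hO : OSt r o S) {x y z : M} (h1 : TE S x y) (h2 : TE S y z) :
    TE S x z := by
  rcases h1 with ⟨hxy, h1⟩ | ⟨hyx, h1⟩ <;> rcases h2 with ⟨hyz, h2⟩ | ⟨hzy, h2⟩
  · exact TE.append hL hO hxy hyz h1 h2
  · rcases hO.total x z with hxz | hzx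
    · exact (TE.of_le hxy h1).left hO hxz hzy
    · exact ((TE.of_le hzy h2).left hO hzx hxy).symm
  · rcases hO.total x z with hxz | hzx
    · exact (TE.of_le hyz h2).right hO hyx hxz
    · exact ((TE.of_le hyx h1).right hO hyz hzx).symm
  · exact (TE.append hL hO hzy hyx h2 h1).symm

theorem TE.lt_of (hL : Ar2 L) (hO : OSt r o S) (h : ∀ y, TameX S {z : M | z ≤ y ∧ y ≤ z})
    {a b a' b' : M} (hab : a ≤ b) (hne : ¬ TE S a b) (ha : TE S a a') (hb : TE S b b') :
    a' < b' := by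
  by_contra hcon
  have h1 : b' ≤ a' := by
    by_contra h'
    exact hcon (hO.lt_of_not_leLS h')
  rcases hO.total a b' with h2 | h2
  · exact hne ((ha.left hO h2 h1).trans hL hO hb.symm)
  · exact hne (hb.symm.right hO h2 hab)

theorem TE.lt (hL : Ar2 L) (hO : OSt r o S) (h : ∀ y, TameX S {z : M | z ≤ y ∧ y ≤ z})
    {a b : M} (hab : a ≤ b) (hne : ¬ TE S a b) : a < b :=
  TE.lt_of hL hO h hab hne (TE.refl h a) (TE.refl h b)

end

section

variable [∀ n, IsEmpty (L.Functions n)] [∀ n, Countable (L.Relations n)]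
  {K : Set (L.Structure ℕ)} {δ : Ordinal.{0}} {S : L.Structure M} [Preorder M]
  {r : L.Relations 2} {o : Bool}

/-- the classes are tame -/
theorem TE.tame_class (hL : Ar2 L) (hS : VSt K δ S) (hO : OSt r o S)
    (h : ∀ y, TameX S {z : M | z ≤ y ∧ y ≤ z}) (x : M) : TameX S {y | TE S x y} := by
  have h1 := nb hL hS hO x
  have h2 := nb_dual hL hS hO x
  have hx : x ∈ {y | x ≤ y ∧ TameX S (Icc x y)} := ⟨le_rfl, (TE.refl h x).tame hO le_rfl⟩
  have h3 := hO.tame_gt h1 hx
  have h4 := OSt.tame_union hL hO h2 h3 (fun a ha b hb => lt_of_le_of_lt ha.1 hb.2)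
  have : {y | TE S x y} = {y | y ≤ x ∧ TameX S (Icc y x)} ∪
      {z | z ∈ {y | x ≤ y ∧ TameX S (Icc x y)} ∧ x < z} := by
    ext y
    constructor
    · intro hy
      by_cases hyx : y ≤ x
      · exact Or.inl ⟨hyx, hy.symm.tame hO hyx⟩
      · have := hO.lt_of_not_leLS hyx
        exact Or.inr ⟨⟨this.le, hy.tame hO this.le⟩, this⟩
    · rintro (⟨h5, h6⟩ | ⟨⟨h5, h6⟩, _⟩)
      · exact Or.inr ⟨h5, h6⟩
      · exact Or.inl ⟨h5, h6⟩
  rwa [this]

/-- the quotient is dense -/
theorem TE.dense (hL : Ar2 L) (hS : VSt K δ S) (hO : OSt r o S)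
    (h : ∀ y, TameX S {z : M | z ≤ y ∧ y ≤ z}) {x y : M} (hxy : x ≤ y) (hne : ¬ TE S x y) :
    ∃ z, x ≤ z ∧ z ≤ y ∧ ¬ TE S x z ∧ ¬ TE S z y := by
  by_contra hcon
  push Not at hcon
  apply hne
  refine TE.of_le hxy ?_
  have h1 := nb hL hS hO x
  have h2 := nb_dual hL hS hO y
  have hA : ∀ a, x ≤ a → TameX S (Icc x a) → a ≤ y := by
    intro a ha ha'
    by_contra hay
    have hya : y ≤ a := (hO.total a y).resolve_left hay
    exact hne ((TE.of_le ha ha').left hO hxy hya)
  have hB : ∀ b, b ≤ y → TameX S (Icc b y) → x ≤ b := by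
    intro b hb hb'
    by_contra hxb
    have hbx : b ≤ x := (hO.total x b).resolve_left hxb
    exact hne ((TE.of_le hb hb').right hO hbx hxy)
  have h4 := OSt.tame_union hL hO h1 h2 (by
    rintro a ⟨ha, ha'⟩ b ⟨hb, hb'⟩
    by_contra hcon2
    have hba : b ≤ a := by
      by_contra h'
      exact hcon2 (hO.lt_of_not_leLS h')
    exact hne (((TE.of_le ha ha').left hO (hB b hb hb') hba).trans hL hO (TE.of_le hb hb')))
  have : Icc x y = {y | x ≤ y ∧ TameX S (Icc x y)} ∪ {x | x ≤ y ∧ TameX S (Icc x y)} := by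
    ext z
    constructor
    · rintro ⟨h5, h6⟩
      by_cases hz : TE S x z
      · exact Or.inl ⟨h5, hz.tame hO h5⟩
      · exact Or.inr ⟨h6, (hcon z h5 h6 hz).tame hO h6⟩
    · rintro (⟨h5, h6⟩ | ⟨h5, h6⟩)
      · exact ⟨h5, hA z h5 h6⟩
      · exact ⟨hB z h5 h6, h5⟩
  rwa [this]

end

end Pool.Agent.Helper97.LO

end

/-! ### formerly `Pool.Agent.Helper79.VCM.LSCode` -/

section

/-!
# Linear sums: coding by cells when the tame intervals have bounded Scott level
-/

set_option autoImplicit false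
set_option linter.unusedSectionVars false
set_option linter.unusedVariables false

namespace Pool.Agent.Helper97.LO

open Set Pool.Agent.Helper5.DU Pool.Agent.Helper6.Str Pool.Agent.Helper79.VC
  Pool.Agent.Helper97.VC Pool.Agent.Helper97.MD

variable {L : FirstOrder.Language.{0, 0}} {M N P : Type}

/-! ### closed sets and intervals -/

section

variable [Preorder M] {r : L.Relations 2} {o : Bool} {S : L.Structure M}

/-- restriction to intervals -/
theorem OSt.icc_bfr (hO : OSt r o S) {U V : Set M} {γ : Ordinal.{0}} {p : Set (M × M)}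
    (h : BFR S S U V γ p) {u v u' v' : M} (hu : (u, u') ∈ p) (hv : (v, v') ∈ p) :
    BFR S S (U ∩ Icc u v) (V ∩ Icc u' v') γ p := by
  refine BFR.restr₀ inter_subset_left inter_subset_left (fun x hx y hy hxy => ?_) h
  have h1 := hO.le_congrLS hxy (mem_insert_of_mem _ hu) (mem_insert _ _)
  have h2 := hO.le_congrLS hxy (mem_insert _ _) (mem_insert_of_mem _ hv)
  simp only [mem_inter_iff, mem_Icc, hx, hy, true_and, h1, h2]

/-- the coding property -/
def DD (l : ℕ → Ordinal.{0}) (S : L.Structure M) (X : Set M) (k : ℕ) : Prop :=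
  ∃ u ∈ X, ∃ v ∈ X, u ≤ v ∧ (¬ ∃ β < l 0, SL S (X ∩ Icc u v) β) ∧
    ∀ u' ∈ X, ∀ v' ∈ X, u ≤ u' → u' ≤ v' → v' ≤ v →
      (∃ β < l 0, SL S (X ∩ Icc u' v') β) ∨
      ((∃ β < l (k + 2), SL S (X ∩ Icc u' v') β) ∧ ¬ ∃ β < l (k + 1), SL S (X ∩ Icc u' v') β)

theorem DD.congr (hO : OSt r o S) {l : ℕ → Ordinal.{0}} {Λ : Ordinal.{0}}
    (hl : ∀ n, l n ≤ Λ) (hl1 : ∀ n, l n ≤ om1) (hl2 : ∀ n, ∀ a < l n, a + Ordinal.omega0 < l n)
    {X Y : Set M} (h : BFR S S X Y (Λ + 4) ∅) {k : ℕ} (hD : DD l S X k) : DD l S Y k := by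
  have key : ∀ {p : Set (M × M)}, BFR S S X Y Λ p → ∀ {u v u' v' : M}, (u, u') ∈ p →
      (v, v') ∈ p → ∀ n, (∃ β < l n, SL S (X ∩ Icc u v) β) ↔ ∃ β < l n, SL S (Y ∩ Icc u' v') β := by
    intro p hp u v u' v' hu hv n
    exact SL.lt_congr (hl1 n) (hl2 n) (BFR.anti (empty_subset _) ((hO.icc_bfr hp hu hv).mono (hl n)))
  obtain ⟨u, hu, v, hv, huv, h1, h2⟩ := hD
  have e3 : (Λ : Ordinal.{0}) + 3 < Λ + 4 := by
    gcongr
    norm_num
  have e2 : (Λ : Ordinal.{0}) + 2 < Λ + 3 := by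
    gcongr
    norm_num
  have e1 : (Λ : Ordinal.{0}) + 1 < Λ + 2 := by
    gcongr
    norm_num
  obtain ⟨u0, hu0, h3⟩ := h.forth e3 hu
  obtain ⟨v0, hv0, h4⟩ := h3.forth e2 hv
  have hu4 : (u, u0) ∈ (insert (v, v0) (insert (u, u0) ∅) : Set (M × M)) := by simp
  have hv4 : (v, v0) ∈ (insert (v, v0) (insert (u, u0) ∅) : Set (M × M)) := by simp
  have h4' := h4.mono (show Λ ≤ Λ + 2 from le_self_add)
  refine ⟨u0, hu0, v0, hv0, ?_, ?_, ?_⟩
  · exact (hO.le_congrLS h4.atEq hu4 hv4).mp huv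
  · intro h5
    exact h1 ((key h4' hu4 hv4 0).mpr h5)
  · intro u1 hu1 v1 hv1 hle1 hle2 hle3
    obtain ⟨u', hu', h5⟩ := h4.back e1 hu1
    obtain ⟨v', hv', h6⟩ := h5.back (lt_add_one_self Λ) hv1
    have m1 : (u', u1) ∈ (insert (v', v1) (insert (u', u1) (insert (v, v0) (insert (u, u0) ∅))) :
      Set (M × M)) := by simp
    have m2 : (v', v1) ∈ (insert (v', v1) (insert (u', u1) (insert (v, v0) (insert (u, u0) ∅))) :
      Set (M × M)) := by simp
    have m3 : (u, u0) ∈ (insert (v', v1) (insert (u', u1) (insert (v, v0) (insert (u, u0) ∅))) :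
      Set (M × M)) := by simp
    have m4 : (v, v0) ∈ (insert (v', v1) (insert (u', u1) (insert (v, v0) (insert (u, u0) ∅))) :
      Set (M × M)) := by simp
    have := h2 u' hu' v' hv' ((hO.le_congrLS h6.atEq m3 m1).mpr hle1)
      ((hO.le_congrLS h6.atEq m1 m2).mpr hle2) ((hO.le_congrLS h6.atEq m2 m4).mpr hle3)
    rw [key h6 m1 m2 0, key h6 m1 m2 (k + 1), key h6 m1 m2 (k + 2)] at this
    exact this

end

/-! ### cells -/

/-- the sequence of cut points -/
structure Cuts [Preorder M] (S : L.Structure M) (x₀ y₀ : M) (ρ : Ordinal.{0}) (e : ℕ → M) :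
    Prop where
  lt : ρ < om1
  sl : ∀ u v, x₀ ≤ u → u ≤ v → v ≤ y₀ → TameX S (Icc u v) → SL S (Icc u v) ρ
  lo : ∀ n, x₀ ≤ e n
  hi : ∀ n, e n ≤ y₀
  mono : ∀ n, e n ≤ e (n + 1)
  wild : ∀ n, ¬ TE S (e n) (e (n + 1))

/-- the cells -/
def cell [Preorder M] (S : L.Structure M) (e : ℕ → M) (n : ℕ) : Set M :=
  {z | e n ≤ z ∧ z ≤ e (n + 1) ∧ ¬ TE S (e n) z ∧ ¬ TE S z (e (n + 1))}

section

variable [Preorder M] {r : L.Relations 2} {o : Bool} {S : L.Structure M} {x₀ y₀ : M}
  {ρ : Ordinal.{0}} {e : ℕ → M}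

theorem Cuts.le (hC : Cuts S x₀ y₀ ρ e) {n m : ℕ} (h : n ≤ m) : e n ≤ e m := by
  induction m, h using Nat.le_induction with
  | base => exact le_rfl
  | succ m _ ih => exact ih.trans (hC.mono m)

theorem cell_convex (hO : OSt r o S) {n : ℕ} {z w z' : M} (hz : z ∈ cell S e n)
    (hz' : z' ∈ cell S e n) (h1 : z ≤ w) (h2 : w ≤ z') : w ∈ cell S e n :=
  ⟨hz.1.trans h1, h2.trans hz'.2.1, fun h => hz.2.2.1 (h.left hO hz.1 h1),
    fun h => hz'.2.2.2 (h.right hO h2 hz'.2.1)⟩

theorem cell_closed (hL : Ar2 L) (hO : OSt r o S) (h : ∀ y, TameX S {z : M | z ≤ y ∧ y ≤ z})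
    {n : ℕ} {z w : M} (hz : z ∈ cell S e n) (hw : TE S z w) : w ∈ cell S e n := by
  refine ⟨(TE.lt_of hL hO h hz.1 hz.2.2.1 (TE.refl h _) hw).le,
    (TE.lt_of hL hO h hz.2.1 hz.2.2.2 hw (TE.refl h _)).le,
    fun h' => hz.2.2.1 (h'.trans hL hO hw.symm), fun h' => hz.2.2.2 (hw.trans hL hO h')⟩

theorem cell_lt (hL : Ar2 L) (hO : OSt r o S) (h : ∀ y, TameX S {z : M | z ≤ y ∧ y ≤ z})
    (hC : Cuts S x₀ y₀ ρ e) {n m : ℕ} (hnm : n < m) {z w : M} (hz : z ∈ cell S e n)
    (hw : w ∈ cell S e m) : z < w :=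
  lt_of_lt_of_le (TE.lt hL hO h hz.2.1 hz.2.2.2) ((hC.le hnm).trans hw.1)

theorem cell_disj (hL : Ar2 L) (hO : OSt r o S) (h : ∀ y, TameX S {z : M | z ≤ y ∧ y ≤ z})
    (hC : Cuts S x₀ y₀ ρ e) {n m : ℕ} {z : M} (hz : z ∈ cell S e n) (hw : z ∈ cell S e m) :
    n = m := by
  rcases lt_trichotomy n m with h1 | h1 | h1
  · exact absurd (cell_lt hL hO h hC h1 hz hw) (lt_irrefl _)
  · exact h1
  · exact absurd (cell_lt hL hO h hC h1 hw hz) (lt_irrefl _)

theorem cell_sub (hC : Cuts S x₀ y₀ ρ e) {n : ℕ} {z : M} (hz : z ∈ cell S e n) :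
    x₀ ≤ z ∧ z ≤ y₀ := ⟨(hC.lo n).trans hz.1, hz.2.1.trans (hC.hi (n + 1))⟩

/-- an element outside a cell lies below or above the cell -/
theorem cell_side (hO : OSt r o S) {n : ℕ} {w z z' : M} (hw : w ∉ cell S e n)
    (hz : z ∈ cell S e n) (hz' : z' ∈ cell S e n) :
    (w < z ∧ w < z') ∨ (z < w ∧ z' < w) := by
  by_cases h1 : w ≤ z
  · left
    have h2 : ¬ z ≤ w := fun h => hw (cell_convex hO hz hz h h1)
    refine ⟨lt_iff_le_not_ge.mpr ⟨h1, h2⟩, ?_⟩
    have h3 : ¬ z' ≤ w := fun h => hw (cell_convex hO hz' hz h h1)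
    exact hO.lt_of_not_leLS h3
  · right
    have h2 := hO.lt_of_not_leLS h1
    refine ⟨h2, ?_⟩
    have h3 : ¬ w ≤ z' := fun h => hw (cell_convex hO hz hz' h2.le h)
    exact hO.lt_of_not_leLS h3

end

section

variable [∀ n, IsEmpty (L.Functions n)] [∀ n, Countable (L.Relations n)]
  {K : Set (L.Structure ℕ)} {δ : Ordinal.{0}} {S : L.Structure M} [Preorder M]
  {r : L.Relations 2} {o : Bool} {x₀ y₀ : M} {ρ : Ordinal.{0}} {e : ℕ → M}

theorem exists_cuts (hL : Ar2 L) (hS : VSt K δ S) (hO : OSt r o S)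
    (h : ∀ y, TameX S {z : M | z ≤ y ∧ y ≤ z}) (hρ : ρ < om1) (hxy : x₀ ≤ y₀)
    (hne : ¬ TE S x₀ y₀)
    (hsl : ∀ u v, x₀ ≤ u → u ≤ v → v ≤ y₀ → TameX S (Icc u v) → SL S (Icc u v) ρ) :
    ∃ e, Cuts S x₀ y₀ ρ e := by
  let St := {z : M // x₀ ≤ z ∧ z ≤ y₀ ∧ ¬ TE S z y₀}
  have hstep : ∀ z : St, ∃ w : St, z.1 ≤ w.1 ∧ ¬ TE S z.1 w.1 := by
    rintro ⟨z, h1, h2, h3⟩
    obtain ⟨w, h4, h5, h6, h7⟩ := TE.dense hL hS hO h h2 h3
    exact ⟨⟨w, h1.trans h4, h5, h7⟩, h4, h6⟩
  choose nx hnx1 hnx2 using hstep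
  let t : ℕ → St := fun n => n.rec ⟨x₀, le_rfl, hxy, hne⟩ (fun _ z => nx z)
  have ht : ∀ n, t (n + 1) = nx (t n) := fun n => rfl
  refine ⟨fun n => (t n).1, hρ, hsl, fun n => (t n).2.1, fun n => (t n).2.2.1, fun n => ?_,
    fun n => ?_⟩
  · rw [ht]
    exact hnx1 _
  · rw [ht]
    exact hnx2 _

theorem small_Icc (hS : VSt K δ S) (hO : OSt r o S) (u v : M) : Small S (Icc u v) := by
  classical
  refine hS.small_sub {u, v} zero_lt_om1 fun c c' hcc => ?_
  have h1 : (u, u) ∈ insert (c, c') (dg (({u, v} : Finset M) : Set M)) :=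
    mem_insert_of_mem _ ⟨u, by simp, rfl⟩
  have h2 : (v, v) ∈ insert (c, c') (dg (({u, v} : Finset M) : Set M)) :=
    mem_insert_of_mem _ ⟨v, by simp, rfl⟩
  rw [mem_Icc, mem_Icc, hO.le_congrLS hcc.atEq h1 (mem_insert _ _),
    hO.le_congrLS hcc.atEq (mem_insert _ _) h2]

/-- inside `[x₀, y₀]` tameness is definable -/
theorem Cuts.te_iff (hS : VSt K δ S) (hO : OSt r o S) (hC : Cuts S x₀ y₀ ρ e) {u v : M}
    (h1 : x₀ ≤ u) (h2 : u ≤ v) (h3 : v ≤ y₀) : TE S u v ↔ SL S (Icc u v) ρ :=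
  ⟨fun h => hC.sl u v h1 h2 h3 (h.tame hO h2),
    fun h => TE.of_le h2 (SL.tame (small_Icc hS hO u v) hC.lt h)⟩

theorem sl_icc_congr (hO : OSt r o S) (hC : Cuts S x₀ y₀ ρ e) {U V : Set M} {p : Set (M × M)}
    (hp : BFR S S U V (ρ + Ordinal.omega0) p) {u v u' v' : M} (hu : (u, u') ∈ p)
    (hv : (v, v') ∈ p) (hU : Icc u v ⊆ U) (hV : Icc u' v' ⊆ V) :
    SL S (Icc u v) ρ ↔ SL S (Icc u' v') ρ := by
  have h1 := hO.icc_bfr hp hu hv
  rw [inter_eq_self_of_subset_right hU, inter_eq_self_of_subset_right hV] at h1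
  have h2 := BFR.anti (empty_subset _) h1
  constructor
  · intro h
    exact h.congr hC.lt h2
  · intro h
    exact h.congr hC.lt (h2.symm fun a ha => absurd ha (notMem_empty a))

theorem small_cell (hS : VSt K δ S) (hO : OSt r o S) (hC : Cuts S x₀ y₀ ρ e) (n : ℕ) :
    Small S (cell S e n) := by
  classical
  refine hS.small_sub {e n, e (n + 1)} (add_lt_om1 hC.lt omega_lt_om1) fun c c' hcc => ?_
  have h1 : (e n, e n) ∈ insert (c, c') (dg (({e n, e (n + 1)} : Finset M) : Set M)) :=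
    mem_insert_of_mem _ ⟨e n, by simp, rfl⟩
  have h2 : (e (n + 1), e (n + 1)) ∈ insert (c, c') (dg (({e n, e (n + 1)} : Finset M) : Set M)) :=
    mem_insert_of_mem _ ⟨e (n + 1), by simp, rfl⟩
  have h3 : (c, c') ∈ insert (c, c') (dg (({e n, e (n + 1)} : Finset M) : Set M)) :=
    mem_insert _ _
  have h4 := hO.le_congrLS hcc.atEq h1 h3
  have h5 := hO.le_congrLS hcc.atEq h3 h2
  have h6 := sl_icc_congr hO hC hcc h1 h3 (subset_univ _) (subset_univ _)
  have h7 := sl_icc_congr hO hC hcc h3 h2 (subset_univ _) (subset_univ _)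
  unfold cell
  simp only [mem_ofPred_eq]
  constructor
  · rintro ⟨a1, a2, a3, a4⟩
    refine ⟨h4.mp a1, h5.mp a2, fun h => a3 ?_, fun h => a4 ?_⟩
    · rw [hC.te_iff hS hO (hC.lo n) a1 (a2.trans (hC.hi _)), h6]
      rwa [hC.te_iff hS hO (hC.lo n) (h4.mp a1) ((h5.mp a2).trans (hC.hi _))] at h
    · rw [hC.te_iff hS hO ((hC.lo n).trans a1) a2 (hC.hi _), h7]
      rwa [hC.te_iff hS hO ((hC.lo n).trans (h4.mp a1)) (h5.mp a2) (hC.hi _)] at h
  · rintro ⟨a1, a2, a3, a4⟩
    refine ⟨h4.mpr a1, h5.mpr a2, fun h => a3 ?_, fun h => a4 ?_⟩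
    · rw [hC.te_iff hS hO (hC.lo n) a1 (a2.trans (hC.hi _)), ← h6]
      rwa [hC.te_iff hS hO (hC.lo n) (h4.mpr a1) ((h5.mpr a2).trans (hC.hi _))] at h
    · rw [hC.te_iff hS hO ((hC.lo n).trans a1) a2 (hC.hi _), ← h7]
      rwa [hC.te_iff hS hO ((hC.lo n).trans (h4.mpr a1)) (h5.mpr a2) (hC.hi _)] at h

theorem cell_nonempty (hL : Ar2 L) (hS : VSt K δ S) (hO : OSt r o S)
    (h : ∀ y, TameX S {z : M | z ≤ y ∧ y ≤ z}) (hC : Cuts S x₀ y₀ ρ e) (n : ℕ) :
    (cell S e n).Nonempty := by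
  obtain ⟨z, h1, h2, h3, h4⟩ := TE.dense hL hS hO h (hC.mono n) (hC.wild n)
  exact ⟨z, h1, h2, h3, h4⟩

theorem cell_up (hL : Ar2 L) (hS : VSt K δ S) (hO : OSt r o S)
    (h : ∀ y, TameX S {z : M | z ≤ y ∧ y ≤ z}) {n : ℕ} {z : M}
    (hz : z ∈ cell S e n) : ∃ w ∈ cell S e n, z ≤ w ∧ ¬ TE S z w := by
  obtain ⟨w, h1, h2, h3, h4⟩ := TE.dense hL hS hO h hz.2.1 hz.2.2.2
  exact ⟨w, ⟨hz.1.trans h1, h2, fun h' => hz.2.2.1 (h'.left hO hz.1 h1), h4⟩, h1, h3⟩

theorem cell_down (hL : Ar2 L) (hS : VSt K δ S) (hO : OSt r o S)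
    (h : ∀ y, TameX S {z : M | z ≤ y ∧ y ≤ z}) {n : ℕ} {z : M}
    (hz : z ∈ cell S e n) : ∃ w ∈ cell S e n, w ≤ z ∧ ¬ TE S w z := by
  obtain ⟨w, h1, h2, h3, h4⟩ := TE.dense hL hS hO h hz.1 hz.2.2.1
  exact ⟨w, ⟨h1, h2.trans hz.2.1, h3, fun h' => hz.2.2.2 (h'.right hO h2 hz.2.1)⟩, h2, h4⟩

/-! ### closed sets with a level -/

/-- a closed set with its level -/
structure Lv (δ : Ordinal.{0}) (S : L.Structure M) (ρ : Ordinal.{0}) (e : ℕ → M) (A : Set M)
    (lam : Ordinal.{0}) : Prop where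
  ctbl : A.Countable
  lt : lam < om1
  add : ∀ a < lam, ∀ b < lam, a + b < lam
  big : δ < lam
  bigρ : ρ + Ordinal.omega0 < lam
  clo : ∀ γ < lam, Clo S univ γ A
  cell : ∀ n, ∀ γ < lam, Clo S (cell S e n) γ A
  icc : ∀ u ∈ A, ∀ v ∈ A, ∀ γ < lam, Clo S (Icc u v) γ A
  tame : ∀ u ∈ A, ∀ v ∈ A, TameX S (Icc u v) → ∃ β < lam, SL S (Icc u v) β

theorem exists_lv (hS : VSt K δ S) (hO : OSt r o S) (hC : Cuts S x₀ y₀ ρ e) {μ : Ordinal.{0}}
    (hμ : μ < om1) : ∃ A lam, μ < lam ∧ Lv δ S ρ e A lam := by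
  classical
  obtain ⟨f0, hf0, -, hf0'⟩ := hS.small.exists_wit
  have hc := fun n => (small_cell hS hO hC n).exists_wit
  choose fc hfc _ hfc' using hc
  have hi := fun u v => (small_Icc hS hO u v).exists_wit
  choose fi hfi _ hfi' using hi
  have hβ : ∀ u v : M, ∃ β < om1, TameX S (Icc u v) → SL S (Icc u v) β := by
    intro u v
    by_cases h : TameX S (Icc u v)
    · obtain ⟨β, h1, h2⟩ := h.exists_SL
      exact ⟨β, h1, fun _ => h2⟩
    · exact ⟨0, zero_lt_om1, fun h' => absurd h' h⟩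
  choose β hβ1 hβ2 using hβ
  have hh : ∀ F : Finset M, ∃ γ < om1, ∀ u ∈ F, ∀ v ∈ F, β u v ≤ γ := by
    intro F
    obtain ⟨γ, h1, h2⟩ := exists_bound (ι := F × F) (f := fun p => β p.1.1 p.2.1)
      (fun p => hβ1 _ _)
    exact ⟨γ, h1, fun u hu v hv => h2 ⟨⟨u, hu⟩, ⟨v, hv⟩⟩⟩
  choose hb hb1 hb2 using hh
  obtain ⟨A, lam, hA1, -, hA3, hA4, hA5, hA6⟩ := exists_pair
    (fun F γ => (f0 F γ ∪ ⋃ n, fc n F γ) ∪ ⋃ u ∈ F, ⋃ v ∈ F, ⋃ F' ∈ F.powerset, fi u v F' γ)
    (fun F γ hγ => ((hf0 F γ).union (countable_iUnion fun n => hfc n F γ)).union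
      ((F.finite_toSet.countable).biUnion fun u _ => (F.finite_toSet.countable).biUnion fun v _ =>
        (F.powerset.finite_toSet.countable).biUnion fun F' _ => hfi u v F' γ))
    (fun F _ => hb F) (fun F _ _ => hb1 F) (A₀ := ∅) countable_empty
    (μ := max μ (max δ (ρ + Ordinal.omega0)))
    (max_lt hμ (max_lt hS.lt (add_lt_om1 hC.lt omega_lt_om1)))
  refine ⟨A, lam, (le_max_left _ _).trans_lt hA3, hA1, hA4, hA5,
    ((le_max_left _ _).trans (le_max_right _ _)).trans_lt hA3,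
    ((le_max_right _ _).trans (le_max_right _ _)).trans_lt hA3, ?_, ?_, ?_, ?_⟩
  · intro γ hγ
    refine hf0' A γ (hγ.trans hA4) fun F hF => ?_
    have h1 := (hA6 F (fun x hx => (hF hx).1) γ hγ).1
    exact fun x hx => h1 (Or.inl (Or.inl hx))
  · intro n γ hγ
    refine hfc' n A γ (hγ.trans hA4) fun F hF => ?_
    have h1 := (hA6 F (fun x hx => (hF hx).1) γ hγ).1
    exact fun x hx => h1 (Or.inl (Or.inr (mem_iUnion.mpr ⟨n, hx⟩)))
  · intro u hu v hv γ hγ
    refine hfi' u v A γ (hγ.trans hA4) fun F hF => ?_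
    have h1 := (hA6 (insert u (insert v F)) (by
      rw [Finset.coe_insert, Finset.coe_insert, insert_subset_iff, insert_subset_iff]
      exact ⟨hu, hv, fun x hx => (hF hx).1⟩) γ hγ).1
    intro x hx
    refine h1 (Or.inr ?_)
    simp only [mem_iUnion]
    refine ⟨u, by simp, v, by simp, F, ?_, hx⟩
    rw [Finset.mem_powerset]
    intro y hy
    simp [hy]
  · intro u hu v hv ht
    have h1 := (hA6 {u, v} (by
      intro x hx
      simp only [Finset.coe_insert, Finset.coe_singleton, mem_insert_iff,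
        mem_singleton_iff] at hx
      rcases hx with rfl | rfl
      · exact hu
      · exact hv) 0 (lt_of_le_of_lt (by exact bot_le) hA3)).2
    exact ⟨β u v, (hb2 {u, v} u (by simp) v (by simp)).trans_lt h1, hβ2 u v ht⟩

namespace Lv

variable {A : Set M} {lam : Ordinal.{0}}

theorem om (hA : Lv δ S ρ e A lam) : Ordinal.omega0 < lam :=
  (le_add_self).trans_lt hA.bigρ

theorem bfr_icc (hA : Lv δ S ρ e A lam) {u v : M} (hu : u ∈ A) (hv : v ∈ A) {γ : Ordinal.{0}}
    (hγ : γ < lam) : BFR S S (Icc u v) (A ∩ Icc u v) γ ∅ :=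
  BFR.anti (empty_subset _) ((hA.icc u hu v hv γ hγ).bfr finite_empty (empty_subset _))

theorem sl_of (hA : Lv δ S ρ e A lam) {u v : M} (hu : u ∈ A) (hv : v ∈ A) {β : Ordinal.{0}}
    (hβ : β < lam) (h : SL S (Icc u v) β) : SL S (A ∩ Icc u v) β :=
  h.congr (hβ.trans hA.lt) (hA.bfr_icc hu hv (hA.add _ hβ _ hA.om))

theorem sl_to (hA : Lv δ S ρ e A lam) {u v : M} (hu : u ∈ A) (hv : v ∈ A) {β : Ordinal.{0}}
    (hβ : β < lam) (h : SL S (A ∩ Icc u v) β) : SL S (Icc u v) β :=
  h.congr (hβ.trans hA.lt) ((hA.bfr_icc hu hv (hA.add _ hβ _ hA.om)).symm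
    fun a ha => absurd ha (notMem_empty a))

theorem tame_sl (hO : OSt r o S) (hA : Lv δ S ρ e A lam) {u v : M} (hu : u ∈ A) (hv : v ∈ A)
    (huv : u ≤ v) (h : TE S u v) : ∃ β < lam, SL S (A ∩ Icc u v) β := by
  obtain ⟨β, hβ, h1⟩ := hA.tame u hu v hv (h.tame hO huv)
  exact ⟨β, hβ, hA.sl_of hu hv hβ h1⟩

theorem wild_sl (hS : VSt K δ S) (hO : OSt r o S) (hA : Lv δ S ρ e A lam) {u v : M}
    (hu : u ∈ A) (hv : v ∈ A) (huv : u ≤ v) (h : ¬ TE S u v) :
    ¬ ∃ β < lam, SL S (A ∩ Icc u v) β := by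
  rintro ⟨β, hβ, h1⟩
  exact h (TE.of_le huv (SL.tame (small_Icc hS hO u v) (hβ.trans hA.lt) (hA.sl_to hu hv hβ h1)))

theorem nonempty (hL : Ar2 L) (hS : VSt K δ S) (hO : OSt r o S)
    (h : ∀ y, TameX S {z : M | z ≤ y ∧ y ≤ z}) (hC : Cuts S x₀ y₀ ρ e) (hA : Lv δ S ρ e A lam)
    (n : ℕ) : ∃ z ∈ A, z ∈ LO.cell S e n := by
  obtain ⟨z, hz⟩ := cell_nonempty hL hS hO h hC n
  obtain ⟨d, hd, -⟩ := hA.cell n 0 (Ordinal.omega0_pos.trans hA.om) ∅ (by simp) z hz
  exact ⟨d, hd.1, hd.2⟩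

theorem up (hL : Ar2 L) (hS : VSt K δ S) (hO : OSt r o S)
    (h : ∀ y, TameX S {z : M | z ≤ y ∧ y ≤ z}) (hC : Cuts S x₀ y₀ ρ e) (hA : Lv δ S ρ e A lam)
    {n : ℕ} {z : M} (hzA : z ∈ A) (hz : z ∈ LO.cell S e n) :
    ∃ w ∈ A, w ∈ LO.cell S e n ∧ z ≤ w ∧ ¬ TE S z w := by
  obtain ⟨w, hw, hzw, hne⟩ := cell_up hL hS hO h hz
  obtain ⟨d, hd, hwd⟩ := hA.cell n _ hA.bigρ {z} (by
    intro x hx
    simp only [Finset.coe_singleton, mem_singleton_iff] at hx
    subst hx
    exact ⟨hzA, hz⟩) w hw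
  have m1 : (z, z) ∈ insert (w, d) (dg (({z} : Finset M) : Set M)) :=
    mem_insert_of_mem _ ⟨z, by simp, rfl⟩
  have m2 : (w, d) ∈ insert (w, d) (dg (({z} : Finset M) : Set M)) := mem_insert _ _
  have hzd := (hO.le_congrLS hwd.atEq m1 m2).mp hzw
  refine ⟨d, hd.1, hd.2, hzd, fun h' => hne ?_⟩
  rw [hC.te_iff hS hO (cell_sub hC hz).1 hzd (cell_sub hC hd.2).2] at h'
  rw [hC.te_iff hS hO (cell_sub hC hz).1 hzw (cell_sub hC hw).2]
  refine (sl_icc_congr hO hC hwd m1 m2 ?_ ?_).mpr h'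
  · exact fun x hx => cell_convex hO hz hw hx.1 hx.2
  · exact fun x hx => cell_convex hO hz hd.2 hx.1 hx.2

theorem down (hL : Ar2 L) (hS : VSt K δ S) (hO : OSt r o S)
    (h : ∀ y, TameX S {z : M | z ≤ y ∧ y ≤ z}) (hC : Cuts S x₀ y₀ ρ e) (hA : Lv δ S ρ e A lam)
    {n : ℕ} {z : M} (hzA : z ∈ A) (hz : z ∈ LO.cell S e n) :
    ∃ w ∈ A, w ∈ LO.cell S e n ∧ w ≤ z ∧ ¬ TE S w z := by
  obtain ⟨w, hw, hzw, hne⟩ := cell_down hL hS hO h hz
  obtain ⟨d, hd, hwd⟩ := hA.cell n _ hA.bigρ {z} (by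
    intro x hx
    simp only [Finset.coe_singleton, mem_singleton_iff] at hx
    subst hx
    exact ⟨hzA, hz⟩) w hw
  have m1 : (z, z) ∈ insert (w, d) (dg (({z} : Finset M) : Set M)) :=
    mem_insert_of_mem _ ⟨z, by simp, rfl⟩
  have m2 : (w, d) ∈ insert (w, d) (dg (({z} : Finset M) : Set M)) := mem_insert _ _
  have hzd := (hO.le_congrLS hwd.atEq m2 m1).mp hzw
  refine ⟨d, hd.1, hd.2, hzd, fun h' => hne ?_⟩
  rw [hC.te_iff hS hO (cell_sub hC hd.2).1 hzd (cell_sub hC hz).2] at h'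
  rw [hC.te_iff hS hO (cell_sub hC hw).1 hzw (cell_sub hC hz).2]
  refine (sl_icc_congr hO hC hwd m2 m1 ?_ ?_).mpr h'
  · exact fun x hx => cell_convex hO hw hz hx.1 hx.2
  · exact fun x hx => cell_convex hO hd.2 hz hx.1 hx.2

end Lv

/-- the sequence of closed sets -/
structure Sq (δ : Ordinal.{0}) (S : L.Structure M) (ρ : Ordinal.{0}) (e : ℕ → M)
    (B : ℕ → Set M) (l : ℕ → Ordinal.{0}) : Prop where
  lv : ∀ n, Lv δ S ρ e (B n) (l n)
  mono : ∀ n, l n < l (n + 1)
  sl : ∀ n, ∀ u ∈ B n, ∀ v ∈ B n, ∃ β < l (n + 1), SL S (B n ∩ Icc u v) β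

theorem exists_sq (hS : VSt K δ S) (hO : OSt r o S) (hC : Cuts S x₀ y₀ ρ e) :
    ∃ B l, Sq δ S ρ e B l := by
  let St := {p : Set M × Ordinal.{0} // Lv δ S ρ e p.1 p.2}
  have hstep : ∀ p : St, ∃ q : St, p.1.2 < q.1.2 ∧
      ∀ u ∈ p.1.1, ∀ v ∈ p.1.1, ∃ β < q.1.2, SL S (p.1.1 ∩ Icc u v) β := by
    rintro ⟨⟨A, lam⟩, hA⟩
    have hct : Countable A := hA.ctbl.to_subtype
    have h1 : ∀ q : A × A, ∃ β < om1, SL S (A ∩ Icc q.1.1 q.2.1) β := fun q =>
      exists_SL_of_countable (hA.ctbl.mono inter_subset_left)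
    choose β hβ1 hβ2 using h1
    obtain ⟨μ, hμ, hle⟩ := exists_bound hβ1
    obtain ⟨A', lam', h2, hA'⟩ := exists_lv hS hO hC (max_lt hμ hA.lt)
    exact ⟨⟨⟨A', lam'⟩, hA'⟩, (le_max_right _ _).trans_lt h2, fun u hu v hv =>
      ⟨β ⟨⟨u, hu⟩, ⟨v, hv⟩⟩, ((hle _).trans (le_max_left _ _)).trans_lt h2,
        hβ2 ⟨⟨u, hu⟩, ⟨v, hv⟩⟩⟩⟩
  choose nx hnx1 hnx2 using hstep
  obtain ⟨A, lam, -, hA⟩ := exists_lv hS hO hC zero_lt_om1
  let t : ℕ → St := fun n => n.rec ⟨⟨A, lam⟩, hA⟩ (fun _ z => nx z)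
  have ht : ∀ n, t (n + 1) = nx (t n) := fun n => rfl
  refine ⟨fun n => (t n).1.1, fun n => (t n).1.2, fun n => (t n).2, fun n => ?_, fun n => ?_⟩
  · rw [ht]
    exact hnx1 _
  · rw [ht]
    exact hnx2 _

theorem Sq.le {B : ℕ → Set M} {l : ℕ → Ordinal.{0}} (h : Sq δ S ρ e B l) {n m : ℕ}
    (hnm : n ≤ m) : l n ≤ l m := by
  induction m, hnm using Nat.le_induction with
  | base => exact le_rfl
  | succ m _ ih => exact ih.trans (h.mono m).le

end

end Pool.Agent.Helper97.LO

end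

/-! ### formerly `Pool.Agent.Helper79.VCM.LSCode2` -/

section

/-!
# Linear sums: coding by cells, the family of structures
-/

set_option autoImplicit false
set_option linter.unusedSectionVars false
set_option linter.unusedVariables false

namespace Pool.Agent.Helper97.LO

open Set Pool.Agent.Helper5.DU Pool.Agent.Helper6.Str Pool.Agent.Helper79.VC
  Pool.Agent.Helper97.VC Pool.Agent.Helper97.MD

variable {L : FirstOrder.Language.{0, 0}} {M N P : Type}

section

variable [Preorder M] {r : L.Relations 2} {o : Bool} {S : L.Structure M} {x₀ y₀ : M}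
  {ρ : Ordinal.{0}} {e : ℕ → M}

open Classical in
/-- the index of an element: its cell, or the element itself -/
noncomputable def idx (S : L.Structure M) (e : ℕ → M) (z : M) : M ⊕ ℕ :=
  if h : ∃ n, z ∈ cell S e n then Sum.inr h.choose else Sum.inl z

theorem idx_cell (hL : Ar2 L) (hO : OSt r o S) (h : ∀ y, TameX S {z : M | z ≤ y ∧ y ≤ z})
    (hC : Cuts S x₀ y₀ ρ e) {n : ℕ} {z : M} : idx S e z = Sum.inr n ↔ z ∈ cell S e n := by
  unfold idx
  constructor
  · intro h'
    split_ifs at h' with h1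
    · have h2 := h1.choose_spec
      have h3 : h1.choose = n := Sum.inr.inj h'
      rwa [h3] at h2
  · intro hz
    have h1 : ∃ n, z ∈ cell S e n := ⟨n, hz⟩
    rw [dif_pos h1]
    exact congrArg Sum.inr (cell_disj hL hO h hC h1.choose_spec hz)

theorem idx_inl {z w : M} (h : idx S e z = Sum.inl w) : z = w ∧ ∀ n, z ∉ cell S e n := by
  unfold idx at h
  split_ifs at h with h1
  · push Not at h1
    exact ⟨Sum.inl.inj h, h1⟩

theorem idx_of_not {z : M} (h : ∀ n, z ∉ cell S e n) : idx S e z = Sum.inl z := by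
  unfold idx
  rw [dif_neg]
  push Not
  exact h

/-- the closed set used for an index -/
def sel (f : ℕ → Bool) : M ⊕ ℕ → ℕ
  | Sum.inl _ => 0
  | Sum.inr n => if f n then n + 1 else 0

/-- the coding piece -/
def XF (S : L.Structure M) (e : ℕ → M) (B : ℕ → Set M) (f : ℕ → Bool) : Set M :=
  {z | z ∈ B (sel f (idx S e z))}

/-- elements of different parts are strictly ordered, in the same way as others in these parts -/
theorem idx_order (hL : Ar2 L) (hO : OSt r o S) (h : ∀ y, TameX S {z : M | z ≤ y ∧ y ≤ z})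
    (hC : Cuts S x₀ y₀ ρ e) {a b a' b' : M} (h1 : idx S e a = idx S e a')
    (h2 : idx S e b = idx S e b') (hne : idx S e a ≠ idx S e b) :
    (a < b ∧ a' < b') ∨ (b < a ∧ b' < a') ∨ (a = a' ∧ b = b') := by
  rcases ha : idx S e a with w | n
  · have ha' : idx S e a' = Sum.inl w := h1 ▸ ha
    obtain ⟨e1, e2⟩ := idx_inl ha
    obtain ⟨e3, -⟩ := idx_inl ha'
    rcases hb : idx S e b with w' | m
    · have hb' : idx S e b' = Sum.inl w' := h2 ▸ hb
      obtain ⟨e4, -⟩ := idx_inl hb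
      obtain ⟨e5, -⟩ := idx_inl hb'
      exact Or.inr (Or.inr ⟨e1.trans e3.symm, e4.trans e5.symm⟩)
    · have hb' : idx S e b' = Sum.inr m := h2 ▸ hb
      rw [idx_cell hL hO h hC] at hb hb'
      have haa : a' = a := e3.trans e1.symm
      rw [haa]
      rcases cell_side hO (e2 m) hb hb' with ⟨h3, h4⟩ | ⟨h3, h4⟩
      · exact Or.inl ⟨h3, h4⟩
      · exact Or.inr (Or.inl ⟨h3, h4⟩)
  · have ha' : idx S e a' = Sum.inr n := h1 ▸ ha
    rw [idx_cell hL hO h hC] at ha ha'
    rcases hb : idx S e b with w' | m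
    · have hb' : idx S e b' = Sum.inl w' := h2 ▸ hb
      obtain ⟨e4, e6⟩ := idx_inl hb
      obtain ⟨e5, -⟩ := idx_inl hb'
      have hbb : b' = b := e5.trans e4.symm
      rw [hbb]
      rcases cell_side hO (e6 n) ha ha' with ⟨h3, h4⟩ | ⟨h3, h4⟩
      · exact Or.inr (Or.inl ⟨h3, h4⟩)
      · exact Or.inl ⟨h3, h4⟩
    · have hb' : idx S e b' = Sum.inr m := h2 ▸ hb
      rw [idx_cell hL hO h hC] at hb hb'
      rcases lt_trichotomy n m with h3 | h3 | h3
      · exact Or.inl ⟨cell_lt hL hO h hC h3 ha hb, cell_lt hL hO h hC h3 ha' hb'⟩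
      · subst h3
        exfalso
        apply hne
        rw [(idx_cell hL hO h hC).mpr ha, (idx_cell hL hO h hC).mpr hb]
      · exact Or.inr (Or.inl ⟨cell_lt hL hO h hC h3 hb ha, cell_lt hL hO h hC h3 hb' ha'⟩)

/-- the interval between equivalent elements lies in one part -/
theorem icc_eq_of_te (hL : Ar2 L) (hO : OSt r o S) (h : ∀ y, TameX S {z : M | z ≤ y ∧ y ≤ z})
    (hC : Cuts S x₀ y₀ ρ e) {B : ℕ → Set M} {f : ℕ → Bool} {u v : M} {i : ℕ}
    (hi : ∀ w, u ≤ w → w ≤ v → sel f (idx S e w) = i) :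
    XF S e B f ∩ Icc u v = B i ∩ Icc u v := by
  ext w
  constructor
  · rintro ⟨h1, h2⟩
    refine ⟨?_, h2⟩
    have h3 : w ∈ B (sel f (idx S e w)) := h1
    rwa [hi w h2.1 h2.2] at h3
  · rintro ⟨h1, h2⟩
    refine ⟨?_, h2⟩
    show w ∈ B (sel f (idx S e w))
    rwa [hi w h2.1 h2.2]

theorem sel_of_te (hL : Ar2 L) (hO : OSt r o S) (h : ∀ y, TameX S {z : M | z ≤ y ∧ y ≤ z})
    (hC : Cuts S x₀ y₀ ρ e) {f : ℕ → Bool} {u w : M} (huw : TE S u w) :
    sel f (idx S e w) = sel f (idx S e u) := by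
  by_cases hu : ∃ n, u ∈ cell S e n
  · obtain ⟨n, hn⟩ := hu
    have h1 := cell_closed hL hO h hn huw
    rw [(idx_cell hL hO h hC).mpr hn, (idx_cell hL hO h hC).mpr h1]
  · push Not at hu
    have h1 : ∀ n, w ∉ cell S e n := fun n hn => hu n (cell_closed hL hO h hn huw.symm)
    rw [idx_of_not hu, idx_of_not h1]
    rfl

end

section

variable [∀ n, IsEmpty (L.Functions n)] [∀ n, Countable (L.Relations n)]
  {K : Set (L.Structure ℕ)} {δ : Ordinal.{0}} {S : L.Structure M} [Preorder M]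
  {r : L.Relations 2} {o : Bool} {x₀ y₀ : M} {ρ : Ordinal.{0}} {e : ℕ → M}
  {B : ℕ → Set M} {l : ℕ → Ordinal.{0}}

theorem xf_countable (hB : Sq δ S ρ e B l) (f : ℕ → Bool) : (XF S e B f).Countable := by
  refine (countable_iUnion fun n => (hB.lv n).ctbl).mono ?_
  intro z hz
  exact mem_iUnion.mpr ⟨_, hz⟩

theorem xf_bfr (hL : Ar2 L) (hS : VSt K δ S) (hO : OSt r o S)
    (h : ∀ y, TameX S {z : M | z ≤ y ∧ y ≤ z}) (hC : Cuts S x₀ y₀ ρ e)
    (hB : Sq δ S ρ e B l) (f : ℕ → Bool) : BFR S S (XF S e B f) univ δ ∅ := by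
  have h1 : BFR S S (XF S e B f) (B 0) δ ∅ := by
    refine OSt.glue hL hO (idx S e) (fun a b a' b' _ _ _ _ h1 h2 hne =>
      idx_order hL hO h hC h1 h2 hne) δ (fun a ha => absurd ha (notMem_empty a)) ?_
    rintro (w | n)
    · have e1 : {a ∈ XF S e B f | idx S e a = Sum.inl w} = {b ∈ B 0 | idx S e b = Sum.inl w} := by
        ext a
        constructor
        · rintro ⟨h1, h2⟩
          have h3 : a ∈ B (sel f (idx S e a)) := h1
          rw [h2] at h3
          exact ⟨h3, h2⟩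
        · rintro ⟨h1, h2⟩
          refine ⟨?_, h2⟩
          show a ∈ B (sel f (idx S e a))
          rw [h2]
          exact h1
      rw [e1]
      exact BFR.refl S _ δ (fun a ha => absurd ha.1 (notMem_empty a))
    · have e1 : {a ∈ XF S e B f | idx S e a = Sum.inr n} =
          B (sel f (Sum.inr n : M ⊕ ℕ)) ∩ cell S e n := by
        ext a
        constructor
        · rintro ⟨h1, h2⟩
          have h3 : a ∈ B (sel f (idx S e a)) := h1
          rw [h2] at h3
          exact ⟨h3, (idx_cell hL hO h hC).mp h2⟩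
        · rintro ⟨h1, h2⟩
          have h3 := (idx_cell hL hO h hC).mpr h2
          refine ⟨?_, h3⟩
          show a ∈ B (sel f (idx S e a))
          rw [h3]
          exact h1
      have e2 : {b ∈ B 0 | idx S e b = Sum.inr n} = B 0 ∩ cell S e n := by
        ext a
        constructor
        · rintro ⟨h1, h2⟩
          exact ⟨h1, (idx_cell hL hO h hC).mp h2⟩
        · rintro ⟨h1, h2⟩
          exact ⟨h1, (idx_cell hL hO h hC).mpr h2⟩
      rw [e1, e2]
      have h2 : ∀ i, BFR S S (cell S e n) (B i ∩ cell S e n) δ ∅ := by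
        intro i
        exact BFR.anti (empty_subset _) (((hB.lv i).cell n δ (hB.lv i).big).bfr finite_empty
          (empty_subset _))
      refine BFR.anti (q := ∅) (fun a ha => absurd ha.1 (notMem_empty a)) ?_
      exact ((h2 _).symm (q := ∅) fun a ha => absurd ha (notMem_empty a)).trans (h2 0)
        fun a ha => absurd ha (notMem_empty a)
  have h2 : BFR S S univ (B 0 ∩ univ) δ ∅ :=
    BFR.anti (empty_subset _) (((hB.lv 0).clo δ (hB.lv 0).big).bfr finite_empty (empty_subset _))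
  rw [inter_univ] at h2
  exact h1.trans (h2.symm (q := ∅) fun a ha => absurd ha (notMem_empty a))
    fun a ha => absurd ha (notMem_empty a)

/-- intervals between equivalent elements of the coding piece have small level -/
theorem xf_tame (hL : Ar2 L) (hS : VSt K δ S) (hO : OSt r o S)
    (h : ∀ y, TameX S {z : M | z ≤ y ∧ y ≤ z}) (hC : Cuts S x₀ y₀ ρ e)
    (hB : Sq δ S ρ e B l) {f : ℕ → Bool} {u v : M} (hu : u ∈ XF S e B f)
    (hv : v ∈ XF S e B f) (huv : u ≤ v) (hte : TE S u v) :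
    ∃ β < l 0, SL S (XF S e B f ∩ Icc u v) β := by
  have hsel : ∀ w, u ≤ w → w ≤ v → sel f (idx S e w) = sel f (idx S e u) := fun w h1 h2 =>
    sel_of_te hL hO h hC (hte.left hO h1 h2)
  rw [icc_eq_of_te hL hO h hC hsel]
  have hu' : u ∈ B (sel f (idx S e u)) := hu
  have hv' : v ∈ B (sel f (idx S e u)) := by
    have h1 : v ∈ B (sel f (idx S e v)) := hv
    rwa [hsel v huv le_rfl] at h1
  by_cases hc : ∃ n, u ∈ cell S e n
  · obtain ⟨n, hn⟩ := hc
    have hvn := cell_closed hL hO h hn hte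
    have h1 : SL S (Icc u v) ρ :=
      (hC.te_iff hS hO (cell_sub hC hn).1 huv (cell_sub hC hvn).2).mp hte
    have h2 : ρ < l (sel f (idx S e u)) := le_self_add.trans_lt (hB.lv _).bigρ
    exact ⟨ρ, le_self_add.trans_lt (hB.lv 0).bigρ, (hB.lv _).sl_of hu' hv' h2 h1⟩
  · push Not at hc
    rw [idx_of_not hc] at hu' hv' ⊢
    exact (hB.lv 0).tame_sl hO hu' hv' huv hte

/-- intervals inside one part between elements which are not equivalent -/
theorem xf_wild (hL : Ar2 L) (hS : VSt K δ S) (hO : OSt r o S)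
    (h : ∀ y, TameX S {z : M | z ≤ y ∧ y ≤ z}) (hC : Cuts S x₀ y₀ ρ e)
    (hB : Sq δ S ρ e B l) {f : ℕ → Bool} {u v : M} (hu : u ∈ XF S e B f)
    (hv : v ∈ XF S e B f) (huv : u ≤ v) (hte : ¬ TE S u v) {i : ℕ}
    (hi : ∀ w, u ≤ w → w ≤ v → sel f (idx S e w) = i) :
    (¬ ∃ β < l i, SL S (XF S e B f ∩ Icc u v) β) ∧
      ∃ β < l (i + 1), SL S (XF S e B f ∩ Icc u v) β := by
  rw [icc_eq_of_te hL hO h hC hi]
  have hu' : u ∈ B i := by
    have h1 : u ∈ B (sel f (idx S e u)) := hu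
    rwa [hi u le_rfl huv] at h1
  have hv' : v ∈ B i := by
    have h1 : v ∈ B (sel f (idx S e v)) := hv
    rwa [hi v huv le_rfl] at h1
  exact ⟨(hB.lv i).wild_sl hS hO hu' hv' huv hte, hB.sl i u hu' v hv'⟩

theorem sel_cell (hL : Ar2 L) (hO : OSt r o S)
    (h : ∀ y, TameX S {z : M | z ≤ y ∧ y ≤ z}) (hC : Cuts S x₀ y₀ ρ e) {f : ℕ → Bool} {u v : M}
    {n : ℕ} (hu : u ∈ cell S e n) (hv : v ∈ cell S e n) :
    ∀ w, u ≤ w → w ≤ v → sel f (idx S e w) = sel f (Sum.inr n : M ⊕ ℕ) := by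
  intro w h1 h2
  rw [(idx_cell hL hO h hC).mpr (cell_convex hO hu hv h1 h2)]

theorem mem_xf_cell (hL : Ar2 L) (hO : OSt r o S)
    (h : ∀ y, TameX S {z : M | z ≤ y ∧ y ≤ z}) (hC : Cuts S x₀ y₀ ρ e) {f : ℕ → Bool} {u : M}
    {n : ℕ} (hu : u ∈ cell S e n) : u ∈ XF S e B f ↔ u ∈ B (sel f (Sum.inr n : M ⊕ ℕ)) := by
  show u ∈ B (sel f (idx S e u)) ↔ _
  rw [(idx_cell hL hO h hC).mpr hu]

theorem dd_true (hL : Ar2 L) (hS : VSt K δ S) (hO : OSt r o S)
    (h : ∀ y, TameX S {z : M | z ≤ y ∧ y ≤ z}) (hC : Cuts S x₀ y₀ ρ e)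
    (hB : Sq δ S ρ e B l) {f : ℕ → Bool} {k : ℕ} (hk : f k = true) :
    DD l S (XF S e B f) k := by
  have hsk : sel f (Sum.inr k : M ⊕ ℕ) = k + 1 := by simp [sel, hk]
  obtain ⟨u, huB, huc⟩ := (hB.lv (k + 1)).nonempty hL hS hO h hC k
  obtain ⟨v, hvB, hvc, huv, hne⟩ := (hB.lv (k + 1)).up hL hS hO h hC huB huc
  have hu : u ∈ XF S e B f := by
    rw [mem_xf_cell hL hO h hC huc, hsk]
    exact huB
  have hv : v ∈ XF S e B f := by
    rw [mem_xf_cell hL hO h hC hvc, hsk]
    exact hvB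
  have hw := xf_wild hL hS hO h hC hB hu hv huv hne (sel_cell hL hO h hC huc hvc)
  rw [hsk] at hw
  refine ⟨u, hu, v, hv, huv, ?_, ?_⟩
  · rintro ⟨β, hβ, h1⟩
    exact hw.1 ⟨β, hβ.trans_le (hB.le (Nat.zero_le _)), h1⟩
  · intro u' hu' v' hv' h1 h2 h3
    by_cases hte : TE S u' v'
    · exact Or.inl (xf_tame hL hS hO h hC hB hu' hv' h2 hte)
    · right
      have hu'c := cell_convex hO huc hvc h1 (h2.trans h3)
      have hv'c := cell_convex hO huc hvc (h1.trans h2) h3
      have hw' := xf_wild hL hS hO h hC hB hu' hv' h2 hte (sel_cell hL hO h hC hu'c hv'c)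
      rw [hsk] at hw'
      exact ⟨hw'.2, hw'.1⟩

theorem dd_false (hL : Ar2 L) (hS : VSt K δ S) (hO : OSt r o S)
    (h : ∀ y, TameX S {z : M | z ≤ y ∧ y ≤ z}) (hC : Cuts S x₀ y₀ ρ e)
    (hB : Sq δ S ρ e B l) {f : ℕ → Bool} {k : ℕ} (hk : f k = false) :
    ¬ DD l S (XF S e B f) k := by
  rintro ⟨u, hu, v, hv, huv, h1, h2⟩
  have hne : ¬ TE S u v := fun hte => h1 (xf_tame hL hS hO h hC hB hu hv huv hte)
  -- a wild interval inside one part
  obtain ⟨z1, hz1, z2, hz2, hle1, hle2, hle3, hne', i, hi, hik⟩ : ∃ z1 ∈ XF S e B f,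
      ∃ z2 ∈ XF S e B f, u ≤ z1 ∧ z1 ≤ z2 ∧ z2 ≤ v ∧ ¬ TE S z1 z2 ∧
      ∃ i, (∀ w, z1 ≤ w → w ≤ z2 → sel f (idx S e w) = i) ∧ i ≠ k + 1 := by
    have hselne : ∀ n, sel f (Sum.inr n : M ⊕ ℕ) ≠ k + 1 := by
      intro n
      by_cases hn : f n = true
      · simp only [sel, hn, if_true]
        intro h3
        have : n = k := by omega
        subst this
        rw [hk] at hn
        exact absurd hn (by simp)
      · simp [sel, hn]
    by_cases hmeet : ∃ n, ∃ z ∈ cell S e n, u ≤ z ∧ z ≤ v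
    · obtain ⟨n, z, hz, huz, hzv⟩ := hmeet
      by_cases huc : u ∈ cell S e n
      · by_cases hvc : v ∈ cell S e n
        · exact ⟨u, hu, v, hv, le_rfl, huv, le_rfl, hne, _, sel_cell hL hO h hC huc hvc,
            hselne n⟩
        · -- go up from `u`
          obtain ⟨w, hwB, hwc, huw, hwn⟩ := (hB.lv (sel f (Sum.inr n : M ⊕ ℕ))).up hL hS hO h hC
            ((mem_xf_cell hL hO h hC huc).mp hu) huc
          have hwv : w < v := by
            rcases cell_side hO hvc hz hwc with h3 | h3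
            · exact absurd (h3.1.trans_le hzv) (lt_irrefl _)
            · exact h3.2
          exact ⟨u, hu, w, (mem_xf_cell hL hO h hC hwc).mpr hwB, le_rfl, huw, hwv.le, hwn, _,
            sel_cell hL hO h hC huc hwc, hselne n⟩
      · -- `u` is below the cell
        by_cases hvc : v ∈ cell S e n
        · obtain ⟨w, hwB, hwc, huw, hwn⟩ := (hB.lv (sel f (Sum.inr n : M ⊕ ℕ))).down hL hS hO h
            hC ((mem_xf_cell hL hO h hC hvc).mp hv) hvc
          have huw' : u < w := by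
            rcases cell_side hO huc hz hwc with h3 | h3
            · exact h3.2
            · exact absurd (h3.1.trans_le huz) (lt_irrefl _)
          exact ⟨w, (mem_xf_cell hL hO h hC hwc).mpr hwB, v, hv, huw'.le, huw, le_rfl, hwn, _,
            sel_cell hL hO h hC hwc hvc, hselne n⟩
        · obtain ⟨w1, hw1B, hw1c⟩ := (hB.lv (sel f (Sum.inr n : M ⊕ ℕ))).nonempty hL hS hO h hC n
          obtain ⟨w2, hw2B, hw2c, hw12, hwn⟩ :=
            (hB.lv (sel f (Sum.inr n : M ⊕ ℕ))).up hL hS hO h hC hw1B hw1c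
          have huw1 : u < w1 := by
            rcases cell_side hO huc hz hw1c with h3 | h3
            · exact h3.2
            · exact absurd (h3.1.trans_le huz) (lt_irrefl _)
          have hw2v : w2 < v := by
            rcases cell_side hO hvc hz hw2c with h3 | h3
            · exact absurd (h3.1.trans_le hzv) (lt_irrefl _)
            · exact h3.2
          exact ⟨w1, (mem_xf_cell hL hO h hC hw1c).mpr hw1B, w2,
            (mem_xf_cell hL hO h hC hw2c).mpr hw2B, huw1.le, hw12, hw2v.le, hwn, _,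
            sel_cell hL hO h hC hw1c hw2c, hselne n⟩
    · push Not at hmeet
      refine ⟨u, hu, v, hv, le_rfl, huv, le_rfl, hne, 0, fun w h3 h4 => ?_, by omega⟩
      have : ∀ n, w ∉ cell S e n := fun n hn => hmeet n w hn h3 h4
      rw [idx_of_not this]
      rfl
  obtain ⟨h3, h4⟩ := xf_wild hL hS hO h hC hB hz1 hz2 hle2 hne' hi
  rcases h2 z1 hz1 z2 hz2 hle1 hle2 hle3 with ⟨β, hβ, h5⟩ | ⟨⟨β, hβ, h5⟩, h6⟩
  · exact h3 ⟨β, hβ.trans_le (hB.le (Nat.zero_le _)), h5⟩
  · rcases Nat.lt_or_ge i (k + 1) with h7 | h7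
    · obtain ⟨β', hβ', h8⟩ := h4
      exact h6 ⟨β', hβ'.trans_le (hB.le (by omega)), h8⟩
    · have h8 : k + 2 ≤ i := by omega
      exact h3 ⟨β, hβ.trans_le (hB.le h8), h5⟩

/-- **Case (2a) is impossible.** -/
theorem ls_bounded (hL : Ar2 L) (hS : VSt K δ S) (hO : OSt r o S)
    (h : ∀ y, TameX S {z : M | z ≤ y ∧ y ≤ z}) {ρ : Ordinal.{0}} (hρ : ρ < om1) {x₀ y₀ : M}
    (hxy : x₀ ≤ y₀) (hne : ¬ TE S x₀ y₀)
    (hsl : ∀ u v, x₀ ≤ u → u ≤ v → v ≤ y₀ → TameX S (Icc u v) → SL S (Icc u v) ρ) : False := by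
  obtain ⟨e, hC⟩ := exists_cuts hL hS hO h hρ hxy hne hsl
  obtain ⟨B, l, hB⟩ := exists_sq hS hO hC
  obtain ⟨Λ, hΛ, hle⟩ := exists_bound (fun n => (hB.lv n).lt)
  have h4 : (4 : Ordinal.{0}) < om1 := by
    have := natCast_lt_om1 4
    exact_mod_cast this
  refine hS.false_of_code' (XF S e B) (xf_countable hB) (xf_bfr hL hS hO h hC hB)
    (add_lt_om1 hΛ h4) fun f g hfg => ?_
  have hc : ∀ f g k, BFR S S (XF S e B f) (XF S e B g) (Λ + 4) ∅ → f k = true → g k = true := by
    intro f g k hfg hf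
    by_contra hg
    have hg' : g k = false := by simpa using hg
    refine dd_false hL hS hO h hC hB hg' (DD.congr hO hle (fun n => (hB.lv n).lt.le)
      (fun n a ha => (hB.lv n).add a ha _ (hB.lv n).om) hfg (dd_true hL hS hO h hC hB hf))
  funext k
  have h1 := hc f g k hfg
  have h2 := hc g f k (hfg.symm fun a ha => absurd ha (notMem_empty a))
  cases hf : f k <;> cases hg : g k
  · rfl
  · exact absurd (h2 hg) (by simp [hf])
  · exact absurd (h1 hf) (by simp [hg])
  · rfl

end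

end Pool.Agent.Helper97.LO

end

/-! ### formerly `Pool.Agent.Helper79.VCM.LS` -/

section

/-!
# Linear sums of tame structures are tame
-/

set_option autoImplicit false
set_option linter.unusedSectionVars false
set_option linter.unusedVariables false

namespace Pool.Agent.Helper97.LO

open Set Pool.Agent.Helper5.DU Pool.Agent.Helper6.Str Pool.Agent.Helper79.VC
  Pool.Agent.Helper97.VC Pool.Agent.Helper97.MD

variable {L : FirstOrder.Language.{0, 0}} {M N P : Type}

/-- the hull of two elements in the order given by `r` -/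
def hullr (r : L.Relations 2) (N : Type) (T : L.Structure N) (x y : N) : Set N :=
  {z | (T.RelMap r ![x, z] ∧ T.RelMap r ![z, y]) ∨ (T.RelMap r ![y, z] ∧ T.RelMap r ![z, x])}

theorem hullr_comm {r : L.Relations 2} {T : L.Structure N} {x y : N} :
    hullr r N T x y = hullr r N T y x := by
  ext z
  exact or_comm

theorem bfr0 {S : L.Structure M} {S' : L.Structure N} {U : Set M} {V : Set N}
    {p : Set (M × N)} (h : AtEq S S' p) : BFR S S' U V 0 p := by
  rw [BFR.def]
  exact ⟨h, fun β hβ => absurd hβ (not_lt_bot (a := β))⟩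

theorem atEq_transLS {S : L.Structure M} {S' : L.Structure N} {S'' : L.Structure P}
    {p : Set (M × N)} {q : Set (N × P)} {s : Set (M × P)} (h : AtEq S S' p) (h' : AtEq S' S'' q)
    (hs : ∀ a ∈ s, ∃ z, (a.1, z) ∈ p ∧ (z, a.2) ∈ q) : AtEq S S'' s :=
  (BFR.trans (U := ∅) (V := ∅) (W := ∅) (bfr0 h) (bfr0 h') hs).atEq

theorem atEq_symmLS {S : L.Structure M} {S' : L.Structure N}
    {p : Set (M × N)} {q : Set (N × M)} (h : AtEq S S' p) (hq : ∀ a ∈ q, (a.2, a.1) ∈ p) :
    AtEq S' S q :=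
  (BFR.symm (U := ∅) (V := ∅) (bfr0 h) hq).atEq

section

variable [Preorder M] {r : L.Relations 2} {o : Bool} {S : L.Structure M}

theorem hullr_eq (hO : OSt r o S) {x y : M} : hullr r M S x y = Icc x y ∪ Icc y x := by
  ext z
  show (_ ∨ _) ↔ (_ ∨ _)
  have h := fun a b => hO.le_iff a b
  cases o
  · simp only [mem_Icc, h]
    simp only [Bool.false_eq_true, if_false]
    tauto
  · simp only [mem_Icc, h]
    simp only [if_true]

/-- four elements of a structure equivalent to `S` -/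
theorem pull4 {T : L.Structure N} (h : BFR T S univ univ Ordinal.omega0 ∅) (a b c d : N) :
    ∃ a' b' c' d' : M, AtEq T S {(a, a'), (b, b'), (c, c'), (d, d')} := by
  have h1 : BFR T S univ univ (0 + ((4 : ℕ) : Ordinal.{0})) ∅ := by
    refine h.mono ?_
    rw [zero_add]
    exact (Ordinal.natCast_lt_omega0 4).le
  obtain ⟨y, -, hy⟩ := BFR.forth_many 4 h1 ![a, b, c, d] fun _ => mem_univ _
  refine ⟨y 0, y 1, y 2, y 3, AtEq.anti ?_ hy.atEq⟩
  rintro z (rfl | rfl | rfl | rfl)
  · exact Or.inr ⟨0, rfl⟩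
  · exact Or.inr ⟨1, rfl⟩
  · exact Or.inr ⟨2, rfl⟩
  · exact Or.inr ⟨3, rfl⟩

/-- the order facts in a structure equivalent to `S` -/
structure TOrd (r : L.Relations 2) (T : L.Structure N) : Prop where
  refl : ∀ a, T.RelMap r ![a, a]
  total : ∀ a b, T.RelMap r ![a, b] ∨ T.RelMap r ![b, a]
  trans : ∀ a b c, T.RelMap r ![a, b] → T.RelMap r ![b, c] → T.RelMap r ![a, c]
  cross : ∀ a b a' b', T.RelMap r ![a, b] → ¬ T.RelMap r ![b, a] → T.RelMap r ![a', b'] →
    ¬ T.RelMap r ![b', a'] → AtEq T T {(a, a')} → AtEq T T {(b, b')} →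
    AtEq T T {(a, a'), (b, b')}

theorem tOrd_of (hO : OSt r o S) {T : L.Structure N}
    (h : BFR T S univ univ Ordinal.omega0 ∅) : TOrd r T := by
  have hS : ∀ a b : M, S.RelMap r ![a, b] ↔ (if o then a ≤ b else b ≤ a) := by
    intro a b
    cases o
    · simpa using (hO.le_iff b a).symm
    · simpa using (hO.le_iff a b).symm
  refine ⟨fun a => ?_, fun a b => ?_, fun a b c h1 h2 => ?_, fun a b c d h1 h2 h3 h4 h5 h6 => ?_⟩
  · obtain ⟨a', b', c', d', h1⟩ := pull4 h a a a a
    rw [rel_of_atEq h1 (R := r) (a := a) (b := a) (a' := a') (b' := a') (by simp) (by simp), hS]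
    split_ifs <;> exact le_rfl
  · obtain ⟨a', b', c', d', h1⟩ := pull4 h a b a a
    rw [rel_of_atEq h1 (R := r) (a := a) (b := b) (a' := a') (b' := b') (by simp) (by simp),
      rel_of_atEq h1 (R := r) (a := b) (b := a) (a' := b') (b' := a') (by simp) (by simp), hS, hS]
    have := hO.total a' b'
    split_ifs <;> tauto
  · obtain ⟨a', b', c', d', h3⟩ := pull4 h a b c a
    rw [rel_of_atEq h3 (R := r) (a := a) (b := b) (a' := a') (b' := b') (by simp) (by simp), hS] at h1
    rw [rel_of_atEq h3 (R := r) (a := b) (b := c) (a' := b') (b' := c') (by simp) (by simp), hS] at h2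
    rw [rel_of_atEq h3 (R := r) (a := a) (b := c) (a' := a') (b' := c') (by simp) (by simp), hS]
    split_ifs at h1 h2 ⊢
    · exact h1.trans h2
    · exact h2.trans h1
  · obtain ⟨a', b', c', d', h7⟩ := pull4 h a b c d
    rw [rel_of_atEq h7 (R := r) (a := a) (b := b) (a' := a') (b' := b') (by simp) (by simp), hS] at h1
    rw [rel_of_atEq h7 (R := r) (a := b) (b := a) (a' := b') (b' := a') (by simp) (by simp), hS] at h2
    rw [rel_of_atEq h7 (R := r) (a := c) (b := d) (a' := c') (b' := d') (by simp) (by simp), hS] at h3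
    rw [rel_of_atEq h7 (R := r) (a := d) (b := c) (a' := d') (b' := c') (by simp) (by simp), hS] at h4
    have h8 : AtEq S T {(a', a), (b', b), (c', c), (d', d)} := by
      refine atEq_symmLS h7 ?_
      rintro z (rfl | rfl | rfl | rfl) <;> simp
    have h9 : AtEq S S {(a', c')} := by
      refine atEq_transLS (atEq_transLS (s := {(a', c)}) h8 h5 ?_) h7 ?_
      · rintro z rfl
        exact ⟨a, by simp, by simp⟩
      · rintro z rfl
        exact ⟨c, by simp, by simp⟩
    have h10 : AtEq S S {(b', d')} := by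
      refine atEq_transLS (atEq_transLS (s := {(b', d)}) h8 h6 ?_) h7 ?_
      · rintro z rfl
        exact ⟨b, by simp, by simp⟩
      · rintro z rfl
        exact ⟨d, by simp, by simp⟩
    have h11 : AtEq S S {(a', c'), (b', d')} := by
      split_ifs at h1 h2 h3 h4
      · exact hO.cross _ _ _ _ (lt_iff_le_not_ge.mpr ⟨h1, h2⟩)
          (lt_iff_le_not_ge.mpr ⟨h3, h4⟩) h9 h10
      · rw [pair_comm]
        exact hO.cross _ _ _ _ (lt_iff_le_not_ge.mpr ⟨h1, h2⟩)
          (lt_iff_le_not_ge.mpr ⟨h3, h4⟩) h10 h9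
    refine atEq_transLS (atEq_transLS (s := {(a, c'), (b, d')}) h7 h11 ?_) h8 ?_
    · rintro z (rfl | rfl)
      · exact ⟨a', by simp, by simp⟩
      · exact ⟨b', by simp, by simp⟩
    · rintro z (rfl | rfl)
      · exact ⟨c', by simp, by simp⟩
      · exact ⟨d', by simp, by simp⟩

theorem hullr_of_le {T : L.Structure N} (hT : TOrd r T) {x y : N} (hxy : T.RelMap r ![x, y]) :
    hullr r N T x y = {z | T.RelMap r ![x, z] ∧ T.RelMap r ![z, y]} := by
  ext z
  constructor
  · rintro (h | ⟨h1, h2⟩)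
    · exact h
    · exact ⟨hT.trans _ _ _ hxy h1, hT.trans _ _ _ h2 hxy⟩
  · intro h
    exact Or.inl h

/-- Scott levels of hulls -/
theorem sl_hullr (hL : Ar2 L) {T : L.Structure N} (hT : TOrd r T) {U : Set N} {x y : N}
    (hx : x ∈ U) (hy : y ∈ U) (hU : hullr r N T x y ⊆ U) {ρ : Ordinal.{0}} (hρ : ρ < om1)
    (h : SL T U ρ) : SL T (hullr r N T x y) (Ordinal.omega0 + ρ + Ordinal.omega0) := by
  classical
  wlog hxy : T.RelMap r ![x, y] generalizing x y
  · have hyx := (hT.total x y).resolve_left hxy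
    rw [hullr_comm] at hU ⊢
    exact this hy hx hU hyx
  have hH := hullr_of_le hT hxy
  rw [hH] at hU ⊢
  set H : Set N := {z | T.RelMap r ![x, z] ∧ T.RelMap r ![z, y]} with hHdef
  have hxH : x ∈ H := ⟨hT.refl x, hxy⟩
  have hyH : y ∈ H := ⟨hxy, hT.refl y⟩
  intro p hp hpH hb
  have hle : ρ + 4 ≤ Ordinal.omega0 + ρ + Ordinal.omega0 := by
    have h1 : ρ ≤ Ordinal.omega0 + ρ := le_add_self
    have h2 : (4 : Ordinal.{0}) ≤ Ordinal.omega0 := by
      have := (Ordinal.natCast_lt_omega0 4).le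
      exact_mod_cast this
    gcongr
  have e3 : (ρ : Ordinal.{0}) + 3 < ρ + 4 := by
    gcongr
    norm_num
  have e2 : (ρ : Ordinal.{0}) + 2 < ρ + 3 := by
    gcongr
    norm_num
  have e1 : (ρ : Ordinal.{0}) + 1 < ρ + 2 := by
    gcongr
    norm_num
  obtain ⟨x1, hx1, h3⟩ := (hb.mono hle).forth e3 hxH
  obtain ⟨y1, hy1, h4⟩ := h3.forth e2 hyH
  set q : Set (N × N) := insert (y, y1) (insert (x, x1) p) with hq
  have hxq : (x, x1) ∈ q := by simp [hq]
  have hyq : (y, y1) ∈ q := by simp [hq]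
  have hx1x : T.RelMap r ![x1, x] := by
    obtain ⟨z, hz, h5⟩ := h4.back e1 hxH
    exact (rel_of_atEq h5.atEq (mem_insert_of_mem _ hxq) (mem_insert _ _)).mp hz.1
  have hyy1 : T.RelMap r ![y, y1] := by
    obtain ⟨z, hz, h5⟩ := h4.back e1 hyH
    exact (rel_of_atEq h5.atEq (mem_insert _ _) (mem_insert_of_mem _ hyq)).mp hz.2
  have hqH : ∀ a ∈ q, a.1 ∈ H ∧ a.2 ∈ H := by
    rintro a (rfl | rfl | ha)
    · exact ⟨hyH, hy1⟩
    · exact ⟨hxH, hx1⟩
    · exact hpH a ha
  have hqfin : q.Finite := (hp.insert _).insert _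
  -- extension by the identity
  let π : N → Option N := fun z => if z ∈ H then none else some z
  have hπH : ∀ z, z ∈ H → π z = none := fun z hz => by simp [π, hz]
  have hπn : ∀ z, z ∉ H → π z = some z := fun z hz => by simp [π, hz]
  have hπH' : ∀ z, π z = none → z ∈ H := fun z hz => by
    by_contra h'
    rw [hπn z h'] at hz
    exact absurd hz (by simp)
  have hcross : ∀ w a a', w ∈ U → w ∉ H → a ∈ H → a' ∈ H → AtEq T T {(a, a')} →
      AtEq T T {(w, w), (a, a')} := by
    intro w a a' hwU hwH ha ha' haa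
    have hww : AtEq T T {(w, w)} := by
      refine (BFR.refl T univ 0 ?_).atEq
      rintro c rfl
      exact ⟨mem_univ _, rfl⟩
    by_cases h6 : T.RelMap r ![x, w]
    · have h7 : ¬ T.RelMap r ![w, y] := fun h' => hwH ⟨h6, h'⟩
      have h8 : T.RelMap r ![y, w] := (hT.total w y).resolve_left h7
      rw [pair_comm]
      exact hT.cross _ _ _ _ (hT.trans _ _ _ ha.2 h8) (fun h' => h7 (hT.trans _ _ _ h' ha.2))
        (hT.trans _ _ _ ha'.2 h8) (fun h' => h7 (hT.trans _ _ _ h' ha'.2)) haa hww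
    · have h8 : T.RelMap r ![w, x] := (hT.total x w).resolve_left h6
      exact hT.cross _ _ _ _ (hT.trans _ _ _ h8 ha.1) (fun h' => h6 (hT.trans _ _ _ ha.1 h'))
        (hT.trans _ _ _ h8 ha'.1) (fun h' => h6 (hT.trans _ _ _ ha'.1 h')) hww haa
  have h9 : BFR T T U U ρ q := by
    refine BFR.comp_index π π ?_ ρ ?_ ?_
    · intro s hs hsi
      refine atEq_of_pairs hL fun a ha b hb => ?_
      by_cases haH : a.1 ∈ H <;> by_cases hbH : b.1 ∈ H
      · refine AtEq.anti ?_ (hsi none)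
        rintro c (rfl | rfl)
        · exact ⟨ha, hπH _ haH⟩
        · exact ⟨hb, hπH _ hbH⟩
      · have ha2 : a.2 ∈ H := hπH' _ (by rw [← (hs a ha).2.2, hπH _ haH])
        have hb2 : b.2 = b.1 := by
          have h10 := (hs b hb).2.2
          rw [hπn _ hbH] at h10
          by_cases h11 : b.2 ∈ H
          · rw [hπH _ h11] at h10
            exact absurd h10 (by simp)
          · rw [hπn _ h11] at h10
            exact (Option.some.inj h10).symm
        have h10 : AtEq T T {(a.1, a.2)} := AtEq.anti (by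
          rintro c rfl
          exact ⟨ha, hπH _ haH⟩) (hsi none)
        have h11 := hcross b.1 a.1 a.2 (hs b hb).1 hbH haH ha2 h10
        rw [pair_comm]
        have h12 : b = (b.1, b.1) := Prod.ext rfl hb2
        rw [h12]
        exact h11
      · have hb2 : b.2 ∈ H := hπH' _ (by rw [← (hs b hb).2.2, hπH _ hbH])
        have ha2 : a.2 = a.1 := by
          have h10 := (hs a ha).2.2
          rw [hπn _ haH] at h10
          by_cases h11 : a.2 ∈ H
          · rw [hπH _ h11] at h10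
            exact absurd h10 (by simp)
          · rw [hπn _ h11] at h10
            exact (Option.some.inj h10).symm
        have h10 : AtEq T T {(b.1, b.2)} := AtEq.anti (by
          rintro c rfl
          exact ⟨hb, hπH _ hbH⟩) (hsi none)
        have h11 := hcross a.1 b.1 b.2 (hs a ha).1 haH hbH hb2 h10
        have h12 : a = (a.1, a.1) := Prod.ext rfl ha2
        rw [h12]
        exact h11
      · have key : ∀ c ∈ s, c.1 ∉ H → c.1 = c.2 := by
          intro c hc hcH
          have h10 := (hs c hc).2.2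
          rw [hπn _ hcH] at h10
          by_cases h11 : c.2 ∈ H
          · rw [hπH _ h11] at h10
            exact absurd h10 (by simp)
          · rw [hπn _ h11] at h10
            exact Option.some.inj h10
        refine (BFR.refl T univ 0 ?_).atEq
        rintro c (rfl | rfl)
        · exact ⟨mem_univ _, (key _ ha haH).symm⟩
        · exact ⟨mem_univ _, (key _ hb hbH).symm⟩
    · intro a ha
      have h10 := hqH a ha
      exact ⟨hU h10.1, hU h10.2, by rw [hπH _ h10.1, hπH _ h10.2]⟩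
    · rintro (_ | w)
      · have e : {a ∈ U | π a = none} = H := by
          ext z
          constructor
          · rintro ⟨_, h10⟩
            exact hπH' z h10
          · intro h10
            exact ⟨hU h10, hπH z h10⟩
        rw [e]
        refine BFR.anti ?_ (h4.mono (show ρ ≤ ρ + 2 from le_self_add))
        exact fun a ha => ha.1
      · refine BFR.refl T _ ρ ?_
        rintro a ⟨ha, ha'⟩
        rw [hπH _ (hqH a ha).1] at ha'
        exact absurd ha' (by simp)
  intro γ hγ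
  have h10 := h q hqfin (fun a ha => ⟨hU (hqH a ha).1, hU (hqH a ha).2⟩) h9 γ hγ
  have h11 : BFR T T H H γ q := by
    refine BFR.restr₀ hU hU (fun z hz z' hz' hzz => ?_) h10
    have m1 : (x, x1) ∈ insert (z, z') q := mem_insert_of_mem _ hxq
    have m2 : (y, y1) ∈ insert (z, z') q := mem_insert_of_mem _ hyq
    have m3 : (z, z') ∈ insert (z, z') q := mem_insert _ _
    have h12 := rel_of_atEq hzz (R := r) m1 m3
    have h13 := rel_of_atEq hzz (R := r) m3 m2
    show (T.RelMap r ![x, z] ∧ T.RelMap r ![z, y]) ↔ (T.RelMap r ![x, z'] ∧ T.RelMap r ![z', y])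
    rw [h12, h13]
    constructor
    · rintro ⟨a1, a2⟩
      exact ⟨hT.trans _ _ _ hx1.1 a1, hT.trans _ _ _ a2 hy1.2⟩
    · rintro ⟨a1, a2⟩
      exact ⟨hT.trans _ _ _ hx1x a1, hT.trans _ _ _ a2 hyy1⟩
  refine BFR.anti ?_ h11
  intro a ha
  exact mem_insert_of_mem _ (mem_insert_of_mem _ ha)

end

section

variable [∀ n, IsEmpty (L.Functions n)] [∀ n, Countable (L.Relations n)]
  {K : Set (L.Structure ℕ)} {δ : Ordinal.{0}} {S : L.Structure M} [Preorder M]
  {r : L.Relations 2} {o : Bool}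

/-- the cross rule for ordered sums -/
theorem crossRule_te (hL : Ar2 L) (hO : OSt r o S) (h : ∀ y, TameX S {z : M | z ≤ y ∧ y ≤ z}) :
    CrossRule S (TE S) := by
  intro p hp hpx
  refine atEq_of_pairs hL fun a ha b hb => ?_
  by_cases hab : TE S a.1 b.1
  · refine AtEq.anti ?_ (hpx a.1)
    rintro c (rfl | rfl)
    · exact ⟨ha, TE.refl h _⟩
    · exact ⟨hb, hab⟩
  · have h1 : AtEq S S {(a.1, a.2)} := AtEq.anti (by
      rintro c rfl
      exact ⟨ha, TE.refl h _⟩) (hpx a.1)
    have h2 : AtEq S S {(b.1, b.2)} := AtEq.anti (by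
      rintro c rfl
      exact ⟨hb, TE.refl h _⟩) (hpx b.1)
    rcases hO.total a.1 b.1 with h3 | h3
    · exact hO.cross _ _ _ _ (TE.lt hL hO h h3 hab) (TE.lt_of hL hO h h3 hab (hp a ha) (hp b hb))
        h1 h2
    · rw [pair_comm]
      have hba : ¬ TE S b.1 a.1 := fun h' => hab h'.symm
      exact hO.cross _ _ _ _ (TE.lt hL hO h h3 hba) (TE.lt_of hL hO h h3 hba (hp b hb) (hp a ha))
        h2 h1

/-- **Linear sums of tame structures.** -/
theorem ls (hL : Ar2 L) (hS : VSt K δ S)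
    (hO : OSt r o S) (h : ∀ y, TameX S {z | z ≤ y ∧ y ≤ z}) : TameX S univ := by
  by_cases hcase : ∃ (x₀ y₀ : M) (ρ : Ordinal.{0}), ρ < om1 ∧ x₀ ≤ y₀ ∧ ¬ TE S x₀ y₀ ∧
      ∀ u v, x₀ ≤ u → u ≤ v → v ≤ y₀ → TameX S (Icc u v) → SL S (Icc u v) ρ
  · obtain ⟨x₀, y₀, ρ, h1, h2, h3, h4⟩ := hcase
    exact (ls_bounded hL hS hO h h1 h2 h3 h4).elim
  · push Not at hcase
    have hE : Equivalence (TE S) := ⟨TE.refl h, fun h' => h'.symm, fun h1 h2 => h1.trans hL hO h2⟩
    have hub' : ∀ x y, x ≤ y → ¬ TE S x y → ∀ ρ < om1, ∃ u ∈ hullr r M S x y,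
        ∃ v ∈ hullr r M S x y, TE S u v ∧ ¬ SL S (hullr r M S u v) ρ := by
      intro x y hxy hne ρ hρ
      obtain ⟨u, v, h1, h2, h3, h4, h5⟩ := hcase x y ρ hρ hxy hne
      refine ⟨u, ?_, v, ?_, TE.of_le h2 h4, ?_⟩
      · rw [hullr_eq hO]
        exact Or.inl ⟨h1, h2.trans h3⟩
      · rw [hullr_eq hO]
        exact Or.inl ⟨h1.trans h2, h3⟩
      · have : hullr r M S u v = Icc u v := by
          rw [hullr_eq hO]
          refine union_eq_self_of_subset_right ?_
          rintro z ⟨h6, h7⟩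
          exact ⟨h2.trans h6, h7.trans h2⟩
        rwa [this]
    have hall := pcl_hull hL hS hE (crossRule_te hL hO h) (TE.tame_class hL hS hO h)
      (fun N T x y => hullr r N T x y) omega_lt_om1
      (by
        intro N N' T T' x y z x' y' z' _ _ hb hz
        have m1 : (x, x') ∈ ({(x, x'), (y, y'), (z, z')} : Set (N × N')) := by simp
        have m2 : (y, y') ∈ ({(x, x'), (y, y'), (z, z')} : Set (N × N')) := by simp
        have m3 : (z, z') ∈ ({(x, x'), (y, y'), (z, z')} : Set (N × N')) := by simp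
        rcases hz with ⟨h1, h2⟩ | ⟨h1, h2⟩
        · exact Or.inl ⟨(rel_of_atEq hb.atEq m1 m3).mp h1, (rel_of_atEq hb.atEq m3 m2).mp h2⟩
        · exact Or.inr ⟨(rel_of_atEq hb.atEq m2 m3).mp h1, (rel_of_atEq hb.atEq m3 m1).mp h2⟩)
      (by
        intro N T hT x y
        have hT' := tOrd_of hO hT
        rcases hT'.total x y with h1 | h1
        · exact ⟨Or.inl ⟨hT'.refl _, h1⟩, Or.inl ⟨h1, hT'.refl _⟩⟩
        · exact ⟨Or.inr ⟨h1, hT'.refl _⟩, Or.inr ⟨hT'.refl _, h1⟩⟩)
      (by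
        intro N T hT x y u hu v hv z hz
        have hT' := tOrd_of hO hT
        have tr := hT'.trans
        rcases hT'.total x y with h1 | h1
        · rw [hullr_of_le hT' h1] at hu hv ⊢
          rcases hz with ⟨h2, h3⟩ | ⟨h2, h3⟩
          · exact ⟨tr _ _ _ hu.1 h2, tr _ _ _ h3 hv.2⟩
          · exact ⟨tr _ _ _ hv.1 h2, tr _ _ _ h3 hu.2⟩
        · rw [hullr_comm, hullr_of_le hT' h1] at hu hv ⊢
          rcases hz with ⟨h2, h3⟩ | ⟨h2, h3⟩
          · exact ⟨tr _ _ _ hu.1 h2, tr _ _ _ h3 hv.2⟩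
          · exact ⟨tr _ _ _ hv.1 h2, tr _ _ _ h3 hu.2⟩)
      (by
        intro x y hxy z hz
        rw [hullr_eq hO] at hz
        rcases hz with ⟨h1, h2⟩ | ⟨h1, h2⟩
        · exact hxy.left hO h1 h2
        · exact (hxy.symm.right hO h1 h2).symm)
      (by
        intro N T hT U hU x hx y hy ρ hρ hSL
        exact sl_hullr hL (tOrd_of hO hT) hx hy (hU x hx y hy) hρ hSL)
      (by
        intro x y hne ρ hρ
        rcases hO.total x y with h1 | h1
        · exact hub' x y h1 hne ρ hρ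
        · show ∃ u ∈ hullr r M S x y, ∃ v ∈ hullr r M S x y, TE S u v ∧ ¬ SL S (hullr r M S u v) ρ
          rw [hullr_comm (x := x) (y := y)]
          exact hub' y x h1 (fun h' => hne h'.symm) ρ hρ)
    have := hS.infinite
    obtain ⟨x⟩ : Nonempty M := inferInstance
    have h1 := TE.tame_class hL hS hO h x
    have h2 : {y | TE S x y} = univ := eq_univ_of_forall fun y => hall x y
    rwa [h2] at h1

end

end Pool.Agent.Helper97.LO

end

/-! ### formerly `Pool.Agent.Helper97.VCM.Tree1` -/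

section

/-!
# Composition along modules, inheritance of Scott levels by nodes
-/

set_option autoImplicit false
set_option linter.unusedSectionVars false
set_option linter.unusedVariables false

namespace Pool.Agent.Helper97.LO.TR

open Set Pool.Agent.Helper5.DU Pool.Agent.Helper6.Str Pool.Agent.Helper79.VC
  Pool.Agent.Helper97.VC Pool.Agent.Helper97.MD

variable {L : FirstOrder.Language.{0, 0}} {M N P : Type}

/-- the level at which nodes are definable -/
noncomputable abbrev om2 : Ordinal.{0} := Ordinal.omega0 + Ordinal.omega0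

theorem om2_lt : om2 < om1 := add_lt_om1 omega_lt_om1 omega_lt_om1

theorem one_le_om2 : (1 : Ordinal.{0}) ≤ om2 :=
  (Ordinal.one_lt_omega0).le.trans le_self_add

theorem nat_lt_om2 (n : ℕ) : (n : Ordinal.{0}) < om2 :=
  (Ordinal.natCast_lt_omega0 n).trans_le le_self_add

theorem atEq_refl (S : L.Structure M) {p : Set (M × M)} (hp : ∀ a ∈ p, a.2 = a.1) :
    AtEq S S p := by
  refine ⟨fun a ha b hb => ?_, fun n R v hv => ?_⟩
  · rw [hp a ha, hp b hb]
  · have : (fun i => (v i).2) = fun i => (v i).1 := funext fun i => hp _ (hv i)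
    rw [this]

theorem bt_swap {S : L.Structure M} {S' : L.Structure N} {x y : M} {x' y' : N}
    (h : bt S x y = bt S' x' y') : bt S y x = bt S' y' x' := by
  have h1 := congrArg Prod.fst h
  have h2 := congrArg Prod.snd h
  exact Prod.ext h2 h1

/-- composition along an index when the binary types between different parts agree -/
theorem comp_bt (hL : Ar2 L) {S : L.Structure M} {S' : L.Structure N} {I : Type} (π : M → I)
    (π' : N → I) {U : Set M} {V : Set N}
    (H : ∀ u ∈ U, ∀ u' ∈ U, ∀ v ∈ V, ∀ v' ∈ V, π u = π' v → π u' = π' v' → π u ≠ π u' →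
      bt S u u' = bt S' v v') (γ : Ordinal.{0}) {p : Set (M × N)}
    (hp : ∀ a ∈ p, a.1 ∈ U ∧ a.2 ∈ V ∧ π a.1 = π' a.2)
    (h : ∀ i, BFR S S' {a ∈ U | π a = i} {b ∈ V | π' b = i} γ {a ∈ p | π a.1 = i}) :
    BFR S S' U V γ p := by
  refine BFR.comp_index π π' (fun q hq hi => atEq_of_pairs hL fun a ha b hb => ?_) γ hp h
  by_cases hab : π a.1 = π b.1
  · refine AtEq.anti ?_ (hi (π a.1))
    rintro c (rfl | rfl)
    · exact ⟨ha, rfl⟩
    · exact ⟨hb, hab.symm⟩
  · have hne : π' a.2 ≠ π' b.2 := by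
      rw [← (hq a ha).2.2, ← (hq b hb).2.2]
      exact hab
    refine atEq_pair hL (AtEq.anti ?_ (hi (π a.1))) (AtEq.anti ?_ (hi (π b.1))) ?_ ?_
    · rintro c rfl
      exact ⟨ha, rfl⟩
    · rintro c rfl
      exact ⟨hb, rfl⟩
    · exact ⟨fun h => absurd (congrArg π h) hab, fun h => absurd (congrArg π' h) hne⟩
    · exact H _ (hq a ha).1 _ (hq b hb).1 _ (hq a ha).2.1 _ (hq b hb).2.1 (hq a ha).2.2
        (hq b hb).2.2 hab

theorem module_bt {S : L.Structure M} {Q : Set M} (hQ : IsModule (bt S) Q) {z x x' : M}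
    (hz : z ∉ Q) (hx : x ∈ Q) (hx' : x' ∈ Q) : bt S z x = bt S z x' := hQ z hz x hx x' hx'

theorem module_bt' {S : L.Structure M} {Q : Set M} (hQ : IsModule (bt S) Q) {z x x' : M}
    (hz : z ∉ Q) (hx : x ∈ Q) (hx' : x' ∈ Q) : bt S x z = bt S x' z :=
  bt_swap (hQ z hz x hx x' hx')

open Classical in
/-- **Extension by the identity outside a module.** -/
theorem mod_ext (hL : Ar2 L) {S : L.Structure M} {Q U : Set M} (hQ : IsModule (bt S) Q)
    (hQU : Q ⊆ U) {γ : Ordinal.{0}} {p : Set (M × M)} (hp : ∀ a ∈ p, a.1 ∈ Q ∧ a.2 ∈ Q)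
    (h : BFR S S Q Q γ p) {G : Set M} (hG : ∀ g ∈ G, g ∈ U ∧ g ∉ Q) :
    BFR S S U U γ (p ∪ dg G) := by
  let π : M → Option M := fun z => if z ∈ Q then none else some z
  have hπ1 : ∀ z, z ∈ Q → π z = none := fun z hz => if_pos hz
  have hπ2 : ∀ z, z ∉ Q → π z = some z := fun z hz => if_neg hz
  have hπ3 : ∀ z, π z = none → z ∈ Q := by
    intro z hz
    by_contra h
    rw [hπ2 z h] at hz
    cases hz
  have hπ4 : ∀ z w, π z = some w → z = w ∧ z ∉ Q := by
    intro z w hz
    by_cases h : z ∈ Q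
    · rw [hπ1 z h] at hz
      cases hz
    · rw [hπ2 z h] at hz
      exact ⟨Option.some.inj hz, h⟩
  refine comp_bt hL π π ?_ γ ?_ ?_
  · intro u hu u' hu' v hv v' hv' h1 h2 hne
    by_cases huQ : u ∈ Q
    · have hvQ : v ∈ Q := hπ3 v (h1 ▸ hπ1 u huQ)
      by_cases huQ' : u' ∈ Q
      · exact absurd ((hπ1 u huQ).trans (hπ1 u' huQ').symm) hne
      · obtain ⟨rfl, -⟩ := hπ4 v' u' (h2 ▸ hπ2 u' huQ')
        exact module_bt' hQ huQ' huQ hvQ
    · obtain ⟨rfl, -⟩ := hπ4 v u (h1 ▸ hπ2 u huQ)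
      by_cases huQ' : u' ∈ Q
      · have hvQ : v' ∈ Q := hπ3 v' (h2 ▸ hπ1 u' huQ')
        exact module_bt hQ huQ huQ' hvQ
      · obtain ⟨rfl, -⟩ := hπ4 v' u' (h2 ▸ hπ2 u' huQ')
        rfl
  · rintro a (ha | ⟨g, hg, rfl⟩)
    · exact ⟨hQU (hp a ha).1, hQU (hp a ha).2, by rw [hπ1 _ (hp a ha).1, hπ1 _ (hp a ha).2]⟩
    · exact ⟨(hG g hg).1, (hG g hg).1, rfl⟩
  · rintro (_ | w)
    · have e1 : {a ∈ U | π a = none} = Q := by
        ext z
        exact ⟨fun hz => hπ3 z hz.2, fun hz => ⟨hQU hz, hπ1 z hz⟩⟩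
      rw [e1]
      refine BFR.anti ?_ h
      rintro a ⟨ha | ⟨g, hg, rfl⟩, hn⟩
      · exact ha
      · exact absurd (hπ3 g hn) (hG g hg).2
    · have e2 : ∀ a ∈ {a ∈ p ∪ dg G | π a.1 = some w}, a.1 ∈ {a ∈ U | π a = some w} ∧
          a.2 = a.1 := by
        rintro a ⟨ha | ⟨g, hg, rfl⟩, hn⟩
        · exact absurd (hp a ha).1 (hπ4 _ _ hn).2
        · exact ⟨⟨(hG g hg).1, hn⟩, rfl⟩
      exact BFR.refl S _ γ e2

/-- convex for nodes -/
def NConv (S : L.Structure M) (U : Set M) : Prop := ∀ u ∈ U, ∀ v ∈ U, node (bt S) u v ⊆ U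

theorem NConv.isModule {S : L.Structure M} {U : Set M} (h : NConv S U) : IsModule (bt S) U := by
  intro z hz x hx x' hx'
  exact (isStrong_node (τ := bt S) x x').1 z (fun h' => hz (h x hx x' hx' h')) x
    (left_mem_node x x') x' (right_mem_node x x')

theorem nconv_node (S : L.Structure M) (x y : M) : NConv S (node (bt S) x y) :=
  fun u hu v hv => node_subset (isStrong_node x y) hu hv

theorem nconv_of_strong {S : L.Structure M} {X : Set M} (h : IsStrong (bt S) X) : NConv S X :=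
  fun u hu v hv => node_subset h hu hv

theorem nconv_univ (S : L.Structure M) : NConv S univ := fun _ _ _ _ => subset_univ _

/-- nodes inside convex pieces are definable in the piece -/
theorem node_congr_conv (hL : Ar2 L) {S : L.Structure M} {U : Set M} (hU : NConv S U)
    {p : Set (M × M)} (hp : ∀ a ∈ p, a.1 ∈ U ∧ a.2 ∈ U) (h : BFR S S U U om2 p)
    {x y z x' y' z' : M} (hx : (x, x') ∈ p) (hy : (y, y') ∈ p) (hz : (z, z') ∈ p) :
    z ∈ node (bt S) x y ↔ z' ∈ node (bt S) x' y' := by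
  have h1 := mod_ext hL hU.isModule (subset_univ U) hp h (G := ∅)
    (fun g hg => absurd hg (notMem_empty g))
  exact node_congr h1 (Or.inl hx) (Or.inl hy) (Or.inl hz)

/-- the same for arbitrary pairs of structures, the sets being the whole structures -/
theorem SL.node (hL : Ar2 L) {S : L.Structure M} {U : Set M} (hU : NConv S U) {x y : M}
    (hx : x ∈ U) (hy : y ∈ U) {ρ : Ordinal.{0}} (h : SL S U ρ) :
    SL S (MD.node (bt S) x y) (om2 + ρ + om2) := by
  set Q := MD.node (bt S) x y with hQ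
  have hQm : IsModule (bt S) Q := (isStrong_node x y).1
  have hQU : Q ⊆ U := hU x hx y hy
  have hxQ : x ∈ Q := left_mem_node x y
  have hyQ : y ∈ Q := right_mem_node x y
  intro p hp hpQ hb γ hγ
  have hlt1 : om2 + ρ + 1 < om2 + ρ + om2 :=
    add_lt_add_right (by exact_mod_cast nat_lt_om2 1) _
  have hlt2 : om2 + ρ + 2 < om2 + ρ + om2 :=
    add_lt_add_right (by exact_mod_cast nat_lt_om2 2) _
  have hlt12 : om2 + ρ + 1 < om2 + ρ + 2 := by
    refine add_lt_add_right ?_ _
    exact_mod_cast Nat.lt_succ_self 1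
  obtain ⟨x1, hx1, h1⟩ := hb.forth hlt2 hxQ
  obtain ⟨y1, hy1, h2⟩ := h1.forth hlt12 hyQ
  set p' : Set (M × M) := insert (y, y1) (insert (x, x1) p) with hp'
  have hp'Q : ∀ a ∈ p', a.1 ∈ Q ∧ a.2 ∈ Q := by
    rintro a (rfl | rfl | ha)
    · exact ⟨hyQ, hy1⟩
    · exact ⟨hxQ, hx1⟩
    · exact hpQ a ha
  have hp'fin : p'.Finite := (hp.insert _).insert _
  have hxp : (x, x1) ∈ p' := mem_insert_of_mem _ (mem_insert _ _)
  have hyp : (y, y1) ∈ p' := mem_insert _ _
  have hQconv : NConv S Q := nconv_node S x y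
  -- the node of the images
  have hnode : MD.node (bt S) x1 y1 = Q := by
    apply Subset.antisymm
    · exact node_subset (isStrong_node x y) hx1 hy1
    · intro z hz
      have hlt3 : om2 < om2 + ρ + 1 := by
        rw [add_assoc]
        exact lt_add_of_pos_right _ (lt_of_lt_of_le zero_lt_one le_add_self)
      obtain ⟨z', hz', h3⟩ := h2.back hlt3 hz
      have := node_congr_conv hL hQconv (p := insert (z', z) p') (by
        rintro a (rfl | ha)
        · exact ⟨hz', hz⟩
        · exact hp'Q a ha) h3 (x := x) (y := y) (z := z')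
          (mem_insert_of_mem _ hxp) (mem_insert_of_mem _ hyp) (mem_insert _ _)
      exact this.mp hz'
  -- extension to `U`
  have hρ : ρ ≤ om2 + ρ + 1 := le_add_self.trans le_self_add
  have h4 : BFR S S U U ρ p' := by
    have := mod_ext hL hQm hQU hp'Q (h2.mono hρ) (G := ∅) (fun g hg => absurd hg (notMem_empty g))
    exact BFR.anti subset_union_left this
  have h5 := h p' hp'fin (fun a ha => ⟨hQU (hp'Q a ha).1, hQU (hp'Q a ha).2⟩) h4 (om2 + γ)
    (add_lt_om1 om2_lt hγ)
  have h6 : BFR S S Q Q γ p' := by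
    refine BFR.restr hQU hQU om2 γ (fun z hz z' hz' hzz => ?_) h5
    have := node_congr_conv hL hU (p := insert (z, z') p') (by
        rintro a (rfl | ha)
        · exact ⟨hz, hz'⟩
        · exact ⟨hQU (hp'Q a ha).1, hQU (hp'Q a ha).2⟩) hzz (x := x) (y := y) (z := z)
          (mem_insert_of_mem _ hxp) (mem_insert_of_mem _ hyp) (mem_insert _ _)
    rw [hnode] at this
    exact this
  exact BFR.anti (fun a ha => mem_insert_of_mem _ (mem_insert_of_mem _ ha)) h6

theorem TameX.node (hL : Ar2 L) {S : L.Structure M} {U : Set M} (hU : NConv S U) {x y : M}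
    (hx : x ∈ U) (hy : y ∈ U) (h : TameX S U) : TameX S (MD.node (bt S) x y) := by
  classical
  refine h.sub {x, y} ?_ (hU x hx y hy) om2_lt fun c hc c' hc' hcc => ?_
  · intro z hz
    simp only [Finset.coe_insert, Finset.coe_singleton] at hz
    rcases hz with rfl | rfl
    · exact hx
    · exact hy
  · refine node_congr_conv hL hU ?_ hcc (x := x) (y := y) (x' := x) (y' := y) ?_ ?_
      (mem_insert _ _)
    · rintro a (rfl | ⟨z, hz, rfl⟩)
      · exact ⟨hc, hc'⟩
      · simp only [Finset.coe_insert, Finset.coe_singleton] at hz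
        rcases hz with rfl | rfl
        · exact ⟨hx, hx⟩
        · exact ⟨hy, hy⟩
    · exact mem_insert_of_mem _ ⟨x, by simp, rfl⟩
    · exact mem_insert_of_mem _ ⟨y, by simp, rfl⟩

end Pool.Agent.Helper97.LO.TR

end

/-! ### formerly `Pool.Agent.Helper97.VCM.Tree2` -/

section

/-!
# Expansions by unary predicates and a preorder; the union of the tame nodes of an element
-/

set_option autoImplicit false
set_option linter.unusedSectionVars false
set_option linter.unusedVariables false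

namespace Pool.Agent.Helper97.LO.TR

open Set Pool.Agent.Helper5.DU Pool.Agent.Helper6.Str Pool.Agent.Helper79.VC
  Pool.Agent.Helper97.VC Pool.Agent.Helper97.MD

variable {L : FirstOrder.Language.{0, 0}} {M N P : Type}

/-- the relation symbols of the expansion -/
def expR (L : FirstOrder.Language.{0, 0}) : ℕ → Type
  | 1 => L.Relations 1 ⊕ (L.Relations 2 ⊕ L.Relations 2)
  | 2 => L.Relations 2 ⊕ Unit
  | _ => Empty

/-- expansion by two unary copies of the binary symbols and one more binary symbol -/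
def expL (L : FirstOrder.Language.{0, 0}) : FirstOrder.Language.{0, 0} where
  Functions _ := Empty
  Relations := expR L

instance (n : ℕ) : IsEmpty ((expL L).Functions n) := inferInstanceAs (IsEmpty Empty)

instance [∀ n, Countable (L.Relations n)] (n : ℕ) : Countable ((expL L).Relations n) := by
  match n with
  | 0 => exact inferInstanceAs (Countable Empty)
  | 1 => exact inferInstanceAs (Countable (L.Relations 1 ⊕ (L.Relations 2 ⊕ L.Relations 2)))
  | 2 => exact inferInstanceAs (Countable (L.Relations 2 ⊕ Unit))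
  | (n + 3) => exact inferInstanceAs (Countable Empty)

theorem ar2_expL : Ar2 (expL L) := by
  intro n h1 h2
  match n with
  | 0 => exact inferInstanceAs (IsEmpty Empty)
  | 1 => exact absurd rfl h1
  | 2 => exact absurd rfl h2
  | (n + 3) => exact inferInstanceAs (IsEmpty Empty)

/-- the relations of the expansion -/
def expRel (S : L.Structure M) (A B : L.Relations 2 → M → Prop) (le : M → M → Prop) :
    ∀ n : ℕ, expR L n → (Fin n → M) → Prop
  | 1, Sum.inl R, v => S.RelMap R v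
  | 1, Sum.inr (Sum.inl R), v => A R (v 0)
  | 1, Sum.inr (Sum.inr R), v => B R (v 0)
  | 2, Sum.inl R, v => S.RelMap R v
  | 2, Sum.inr _, v => le (v 0) (v 1)
  | 0, R, _ => nomatch R
  | (_ + 3), R, _ => nomatch R

/-- the expansion -/
def expS (S : L.Structure M) (A B : L.Relations 2 → M → Prop) (le : M → M → Prop) :
    (expL L).Structure M where
  funMap f := nomatch f
  RelMap {n} R v := expRel S A B le n R v

theorem atEq_expS (hL : Ar2 L) {S : L.Structure M} {S' : L.Structure N}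
    {A B : L.Relations 2 → M → Prop} {A' B' : L.Relations 2 → N → Prop} {le : M → M → Prop}
    {le' : N → N → Prop} {p : Set (M × N)} :
    AtEq (expS S A B le) (expS S' A' B' le') p ↔ AtEq S S' p ∧
      (∀ a ∈ p, ∀ R, (A R a.1 ↔ A' R a.2)) ∧ (∀ a ∈ p, ∀ R, (B R a.1 ↔ B' R a.2)) ∧
      ∀ a ∈ p, ∀ b ∈ p, (le a.1 b.1 ↔ le' a.2 b.2) := by
  constructor
  · rintro ⟨h1, h2⟩
    refine ⟨⟨h1, fun n R v hv => ?_⟩, fun a ha R => ?_, fun a ha R => ?_, fun a ha b hb => ?_⟩
    · by_cases hn1 : n = 1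
      · subst hn1
        exact h2 1 (Sum.inl R) v hv
      · by_cases hn2 : n = 2
        · subst hn2
          exact h2 2 (Sum.inl R) v hv
        · exact (hL n hn1 hn2).elim R
    · exact h2 1 (Sum.inr (Sum.inl R)) ![a] fun i => by
        rw [Subsingleton.elim i 0]
        exact ha
    · exact h2 1 (Sum.inr (Sum.inr R)) ![a] fun i => by
        rw [Subsingleton.elim i 0]
        exact ha
    · exact h2 2 (Sum.inr ()) ![a, b] fun i => by
        fin_cases i
        · exact ha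
        · exact hb
  · rintro ⟨⟨h1, h2⟩, h3, h4, h5⟩
    refine ⟨h1, fun n R v hv => ?_⟩
    match n, R, v, hv with
    | 1, Sum.inl R, v, hv => exact h2 1 R v hv
    | 1, Sum.inr (Sum.inl R), v, hv => exact h3 (v 0) (hv 0) R
    | 1, Sum.inr (Sum.inr R), v, hv => exact h4 (v 0) (hv 0) R
    | 2, Sum.inl R, v, hv => exact h2 2 R v hv
    | 2, Sum.inr _, v, hv => exact h5 (v 0) (hv 0) (v 1) (hv 1)
    | 0, R, _, _ => exact nomatch R
    | (_ + 3), R, _, _ => exact nomatch R

theorem ost_expS (hL : Ar2 L) [Preorder M] {S : L.Structure M} {A B : L.Relations 2 → M → Prop}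
    (ht : ∀ a b : M, a ≤ b ∨ b ≤ a)
    (hX : ∀ a b a' b' : M, a < b → a' < b' → (∀ R, A R b ↔ A R b') → (∀ R, B R b ↔ B R b') →
      (∀ R, A R a ↔ A R a') → (∀ R, B R a ↔ B R a') → bt S a b = bt S a' b') :
    OSt (L := expL L) (Sum.inr () : expR L 2) true (expS S A B (fun a b => a ≤ b)) := by
  refine ⟨ht, fun a b => ?_, fun a b a' b' hab hab' ha hb => ?_⟩
  · simp only [if_true]
    exact Iff.rfl
  · rw [atEq_expS hL] at ha hb ⊢
    obtain ⟨ha1, ha2, ha3, ha4⟩ := ha
    obtain ⟨hb1, hb2, hb3, hb4⟩ := hb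
    have hbt : bt S a b = bt S a' b' := hX a b a' b' hab hab' (hb2 _ rfl) (hb3 _ rfl)
      (ha2 _ rfl) (ha3 _ rfl)
    refine ⟨atEq_pair hL (a := (a, a')) (b := (b, b')) ha1 hb1 ?_ hbt, ?_, ?_, ?_⟩
    · exact ⟨fun h => absurd h (ne_of_lt hab), fun h => absurd h (ne_of_lt hab')⟩
    · rintro c (rfl | rfl)
      · exact ha2 _ rfl
      · exact hb2 _ rfl
    · rintro c (rfl | rfl)
      · exact ha3 _ rfl
      · exact hb3 _ rfl
    · rintro c (rfl | rfl) d (rfl | rfl)
      · exact ha4 _ rfl _ rfl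
      · exact ⟨fun _ => hab'.le, fun _ => hab.le⟩
      · exact ⟨fun h => absurd h (not_le_of_gt hab), fun h => absurd h (not_le_of_gt hab')⟩
      · exact hb4 _ rfl _ rfl

theorem bt_ext {S : L.Structure M} {x y x' y' : M}
    (h1 : ∀ R : L.Relations 2, S.RelMap R ![x, y] ↔ S.RelMap R ![x', y'])
    (h2 : ∀ R : L.Relations 2, S.RelMap R ![y, x] ↔ S.RelMap R ![y', x']) :
    bt S x y = bt S x' y' :=
  Prod.ext (Set.ext h1) (Set.ext h2)

theorem relT_of_atEq {S : L.Structure M} {S' : L.Structure N} {p : Set (M × N)}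
    (h : AtEq S S' p) {x y : M} {x' y' : N} (hx : (x, x') ∈ p) (hy : (y, y') ∈ p)
    (R : L.Relations 2) : S.RelMap R ![x, y] ↔ S'.RelMap R ![x', y'] := by
  have h1 := h.2 2 R ![(x, x'), (y, y')] (fun i => by
    fin_cases i
    · exact hx
    · exact hy)
  have e1 : (fun i => (![(x, x'), (y, y')] i).1) = ![x, y] := by
    funext i; fin_cases i <;> rfl
  have e2 : (fun i => (![(x, x'), (y, y')] i).2) = ![x', y'] := by
    funext i; fin_cases i <;> rfl
  rwa [e1, e2] at h1

/-! ### the preorder of the nodes of an element -/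

/-- `a ≤ b` when `a` lies in the node of `x` and `b` -/
@[reducible] def nodePre (S : L.Structure M) (x : M) : Preorder M where
  le a b := a ∈ MD.node (bt S) x b
  le_refl a := right_mem_node x a
  le_trans a b c hab hbc := node_subset (isStrong_node x c) (left_mem_node x c) hbc hab

/-- the expansion by the nodes of `x` -/
def nodeExp (S : L.Structure M) (x : M) : (expL L).Structure M :=
  expS S (fun R b => S.RelMap R ![x, b]) (fun R b => S.RelMap R ![b, x])
    (fun a b => a ∈ MD.node (bt S) x b)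

theorem nodeExp_ost (hL : Ar2 L) (S : L.Structure M) (x : M) :
    @OSt (expL L) M (nodePre S x) (Sum.inr () : expR L 2) true (nodeExp S x) := by
  let _ := nodePre S x
  refine ost_expS hL (fun a b => ?_) ?_
  · rcases node_total (τ := bt S) x a b with h | h
    · exact Or.inl (h (right_mem_node x a))
    · exact Or.inr (h (right_mem_node x b))
  · intro a b a' b' hab hab' h1 h2 _ _
    have key : ∀ a b : M, a < b → bt S b a = bt S b x := by
      intro a b hab
      have hb : b ∉ MD.node (bt S) x a := fun h => not_le_of_gt hab h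
      exact module_bt (isStrong_node x a).1 hb (right_mem_node x a) (left_mem_node x a)
    refine bt_swap ?_
    rw [key a b hab, key a' b' hab']
    exact bt_ext h2 h1

theorem atEq_nodeExp (hL : Ar2 L) {S : L.Structure M} {U : Set M} (hU : NConv S U) {x : M}
    {p : Set (M × M)} (hp : ∀ a ∈ p, a.1 ∈ U ∧ a.2 ∈ U) (hx : (x, x) ∈ p)
    (h : BFR S S U U om2 p) : AtEq (nodeExp S x) (nodeExp S x) p := by
  unfold nodeExp
  rw [atEq_expS hL]
  refine ⟨h.atEq, fun a ha R => relT_of_atEq h.atEq hx ha R, fun a ha R =>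
    relT_of_atEq h.atEq ha hx R, fun a ha b hb => ?_⟩
  exact node_congr_conv hL hU hp h hx hb ha

section

variable [∀ n, IsEmpty (L.Functions n)] [∀ n, Countable (L.Relations n)]
  {K : Set (L.Structure ℕ)} {δ : Ordinal.{0}} {S : L.Structure M}

theorem nodeExp_vst (hL : Ar2 L) (hS : VSt K δ S) (x : M) :
    ∃ (K' : Set ((expL L).Structure ℕ)) (δ' : Ordinal.{0}), VSt K' δ' (nodeExp S x) := by
  have := hS.infinite
  refine hS.interp (S' := nodeExp S x) (e := id) Function.injective_id {x} om2_lt ?_ ?_ ?_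
  · intro c c' _
    simp
  · intro p hp h
    have h' : BFR S S univ univ om2 (p ∪ dg (({x} : Finset M) : Set M)) := by
      simpa using h
    have hx : (x, x) ∈ p ∪ dg (({x} : Finset M) : Set M) := Or.inr ⟨x, by simp, rfl⟩
    exact AtEq.anti subset_union_left (atEq_nodeExp hL (nconv_univ S)
      (fun a _ => ⟨mem_univ _, mem_univ _⟩) hx h')
  · intro p hp h G hG
    have hG' : G = ∅ := by
      ext g
      simp only [mem_empty_iff_false, iff_false]
      exact fun hg => hG g hg (by simp)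
    subst hG'
    have := ((atEq_expS hL).mp h).1
    simpa using this

/-- **The union of the tame nodes containing an element is tame.** -/
theorem class_tame (hL : Ar2 L) (hS : VSt K δ S) (x : M) :
    TameX S {y | TameX S (MD.node (bt S) x y)} := by
  obtain ⟨K', δ', hV⟩ := nodeExp_vst hL hS x
  let _ := nodePre S x
  have h1 := nb (M := M) (ar2_expL (L := L)) hV (nodeExp_ost hL S x) x
  have hx : ∀ y : M, x ≤ y := fun y => left_mem_node x y
  have hIcc : ∀ y : M, Icc x y = MD.node (bt S) x y := by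
    intro y
    ext z
    exact ⟨fun h => h.2, fun h => ⟨hx z, h⟩⟩
  have hred : ∀ X : Set M, TameX (nodeExp S x) X → TameX S X := by
    intro X hX
    refine hX.reduct fun p _ _ hp => ?_
    exact ((atEq_expS hL).mp hp).1
  have hset : {y | x ≤ y ∧ TameX (nodeExp S x) (Icc x y)} =
      {y | TameX S (MD.node (bt S) x y)} := by
    ext y
    constructor
    · rintro ⟨-, h⟩
      rw [hIcc] at h
      exact hred _ h
    · intro h
      refine ⟨hx y, ?_⟩
      rw [hIcc]
      refine h.expand {x} ?_ om2_lt fun p hp hpX hxp hb => ?_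
      · intro z hz
        simp only [Finset.coe_singleton, mem_singleton_iff] at hz
        rw [hz]
        exact left_mem_node x y
      · exact atEq_nodeExp hL (nconv_node S x y) hpX (hxp ⟨x, by simp, rfl⟩) hb
  rw [hset] at h1
  exact hred _ h1

end

end Pool.Agent.Helper97.LO.TR

end

/-! ### formerly `Pool.Agent.Helper97.VCM.Tree3` -/

section

/-!
# Tame nodes: the case of unbounded Scott levels; restriction to a node
-/

set_option autoImplicit false
set_option linter.unusedSectionVars false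
set_option linter.unusedVariables false

namespace Pool.Agent.Helper97.MD

open Set

variable {M A : Type} {τ : M → M → A}

theorem isModule_restrict {P : Set M} (hP : IsModule τ P) {X : Set P} :
    IsModule (fun u v : P => τ u v) X ↔ IsModule τ (Subtype.val '' X) := by
  constructor
  · rintro h z hz _ ⟨x, hx, rfl⟩ _ ⟨x', hx', rfl⟩
    by_cases hzP : z ∈ P
    · exact h ⟨z, hzP⟩ (fun h' => hz ⟨_, h', rfl⟩) x hx x' hx'
    · exact hP z hzP _ x.2 _ x'.2
  · intro h z hz x hx x' hx'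
    refine h z.1 ?_ _ ⟨x, hx, rfl⟩ _ ⟨x', hx', rfl⟩
    rintro ⟨w, hw, hwz⟩
    exact hz (Subtype.ext hwz ▸ hw)

theorem isStrong_restrict {P : Set M} (hP : IsStrong τ P) {X : Set P} :
    IsStrong (fun u v : P => τ u v) X ↔ IsStrong τ (Subtype.val '' X) := by
  constructor
  · rintro ⟨h1, h2⟩
    refine ⟨(isModule_restrict hP.1).mp h1, fun Y hY hne => ?_⟩
    obtain ⟨_, ⟨x, hx, rfl⟩, hxY⟩ := hne
    rcases hP.2 Y hY ⟨x, x.2, hxY⟩ with h | h
    · left
      rintro _ ⟨y, hy, rfl⟩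
      exact h y.2
    · have hYe : Subtype.val '' (Subtype.val ⁻¹' Y : Set P) = Y := by
        rw [Subtype.image_preimage_coe, inter_eq_right.mpr h]
      have hY' : IsModule (fun u v : P => τ u v) (Subtype.val ⁻¹' Y : Set P) := by
        rw [isModule_restrict hP.1, hYe]
        exact hY
      rcases h2 _ hY' ⟨x, hx, hxY⟩ with h3 | h3
      · left
        rintro _ ⟨y, hy, rfl⟩
        exact h3 hy
      · right
        intro y hy
        exact ⟨⟨y, h hy⟩, h3 hy, rfl⟩
  · rintro ⟨h1, h2⟩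
    refine ⟨(isModule_restrict hP.1).mpr h1, fun Y hY hne => ?_⟩
    obtain ⟨x, hx, hxY⟩ := hne
    rcases h2 _ ((isModule_restrict hP.1).mp hY) ⟨x, ⟨x, hx, rfl⟩, ⟨x, hxY, rfl⟩⟩ with h | h
    · left
      intro y hy
      obtain ⟨w, hw, hwy⟩ := h ⟨y, hy, rfl⟩
      exact Subtype.ext hwy ▸ hw
    · right
      intro y hy
      obtain ⟨w, hw, hwy⟩ := h ⟨y, hy, rfl⟩
      exact Subtype.ext hwy ▸ hw

theorem node_restrict {P : Set M} (hP : IsStrong τ P) (u v : P) :
    Subtype.val '' node (fun u v : P => τ u v) u v = node τ u v := by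
  apply Subset.antisymm
  · have h : IsStrong (fun u v : P => τ u v) (Subtype.val ⁻¹' node τ u v : Set P) := by
      rw [isStrong_restrict hP, Subtype.image_preimage_coe,
        inter_eq_right.mpr (node_subset hP u.2 v.2)]
      exact isStrong_node _ _
    rintro _ ⟨z, hz, rfl⟩
    exact node_subset h (left_mem_node (τ := τ) u.1 v.1) (right_mem_node (τ := τ) u.1 v.1) hz
  · exact node_subset ((isStrong_restrict hP).mp (isStrong_node _ _))
      ⟨u, left_mem_node _ _, rfl⟩ ⟨v, right_mem_node _ _, rfl⟩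

end Pool.Agent.Helper97.MD

namespace Pool.Agent.Helper97.LO.TR

open Set Pool.Agent.Helper5.DU Pool.Agent.Helper6.Str Pool.Agent.Helper79.VC
  Pool.Agent.Helper97.VC Pool.Agent.Helper97.MD

variable {L : FirstOrder.Language.{0, 0}} {M N P : Type}

/-! ### tame nodes -/

/-- the node of `x` and `y` is tame -/
def TN (S : L.Structure M) (x y : M) : Prop := TameX S (MD.node (bt S) x y)

theorem TN.of_mem (hL : Ar2 L) {S : L.Structure M} {x y u v : M} (h : TN S x y)
    (hu : u ∈ MD.node (bt S) x y) (hv : v ∈ MD.node (bt S) x y) : TN S u v :=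
  TameX.node hL (nconv_node S x y) hu hv h

theorem tn_refl (S : L.Structure M) (x : M) : TN S x x := by
  unfold TN
  rw [node_self]
  exact tameX_of_countable (countable_singleton x)

theorem TN.symm {S : L.Structure M} {x y : M} (h : TN S x y) : TN S y x := by
  unfold TN at h ⊢
  rwa [node_comm]

theorem TN.trans (hL : Ar2 L) {S : L.Structure M} {x y z : M} (h : TN S x y) (h' : TN S y z) :
    TN S x z := by
  rcases node_total (τ := bt S) y x z with h1 | h1
  · exact h'.of_mem hL (h1 (right_mem_node y x)) (right_mem_node y z)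
  · exact h.symm.of_mem hL (right_mem_node y x) (h1 (right_mem_node y z))

theorem tn_equiv (hL : Ar2 L) (S : L.Structure M) : Equivalence (TN S) :=
  ⟨tn_refl S, fun h => h.symm, fun h h' => h.trans hL h'⟩

theorem nconv_class (hL : Ar2 L) (S : L.Structure M) (x : M) : NConv S {y | TN S x y} := by
  intro u hu v hv w hw
  have h1 : TN S u v := TN.trans hL (TN.symm hu) hv
  exact TN.trans hL hu (h1.of_mem hL (left_mem_node u v) hw)

theorem crossRule_tn (hL : Ar2 L) (S : L.Structure M) : CrossRule S (TN S) := by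
  intro p hp h
  refine atEq_of_pairs hL fun a ha b hb => ?_
  by_cases hab : TN S a.1 b.1
  · refine AtEq.anti ?_ (h a.1)
    rintro c (rfl | rfl)
    · exact ⟨ha, tn_refl S _⟩
    · exact ⟨hb, hab⟩
  · refine atEq_pair hL (AtEq.anti ?_ (h a.1)) (AtEq.anti ?_ (h b.1)) ?_ ?_
    · rintro c rfl
      exact ⟨ha, tn_refl S _⟩
    · rintro c rfl
      exact ⟨hb, tn_refl S _⟩
    · constructor
      · intro h'
        rw [h'] at hab
        exact absurd (tn_refl S _) hab
      · intro h'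
        exact absurd (TN.trans hL (hp a ha) (h' ▸ (hp b hb).symm)) hab
    · have h1 : bt S a.1 b.1 = bt S a.2 b.1 :=
        module_bt' (nconv_class hL S a.1).isModule (z := b.1) hab (tn_refl S a.1) (hp a ha)
      have h2 : bt S a.2 b.1 = bt S a.2 b.2 := by
        refine module_bt (nconv_class hL S b.1).isModule (z := a.2) ?_ (tn_refl S b.1) (hp b hb)
        intro h'
        exact hab (TN.trans hL (hp a ha) (TN.symm h'))
      exact h1.trans h2

section

variable [∀ n, IsEmpty (L.Functions n)] [∀ n, Countable (L.Relations n)]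
  {K : Set (L.Structure ℕ)} {δ : Ordinal.{0}} {S : L.Structure M}

/-- **Case of unbounded Scott levels.** -/
theorem tame_of_unbounded (hL : Ar2 L) (hS : VSt K δ S)
    (hub : ∀ x y, ¬ TN S x y → ∀ ρ < om1, ∃ u ∈ MD.node (bt S) x y,
      ∃ v ∈ MD.node (bt S) x y, TN S u v ∧ ¬ SL S (MD.node (bt S) u v) ρ) :
    TameX S univ := by
  have hE := pcl_hull hL hS (tn_equiv hL S) (crossRule_tn hL S) (class_tame hL hS)
    (fun N T x y => MD.node (bt T) x y) om2_lt
    (fun N N' T T' x y z x' y' z' _ _ h hz => by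
      refine (node_congr h (x := x) (y := y) (z := z) (x' := x') (y' := y') (z' := z')
        (by simp) (by simp) (by simp)).mp hz)
    (fun N T _ x y => ⟨left_mem_node x y, right_mem_node x y⟩)
    (fun N T _ x y u hu v hv => node_subset (isStrong_node x y) hu hv)
    (fun x y h => nconv_class hL S x x (tn_refl S x) y h)
    (fun N T _ U hU x hx y hy ρ _ h => SL.node hL hU hx hy h) hub
  have := hS.infinite
  obtain ⟨x⟩ : Nonempty M := inferInstance
  have h1 := class_tame hL hS x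
  have h2 : {y | TameX S (MD.node (bt S) x y)} = univ := eq_univ_of_forall fun y => hE x y
  rwa [h2] at h1

/-! ### restriction to a node -/

theorem bt_pl (S : L.Structure M) (e : N → M) (x y : N) : bt (pl S e) x y = bt S (e x) (e y) := by
  have h : ∀ x y : N, (fun i => e (![x, y] i)) = ![e x, e y] := by
    intro x y
    funext i
    fin_cases i <;> rfl
  refine Prod.ext (Set.ext fun R => ?_) (Set.ext fun R => ?_)
  · show S.RelMap R (fun i => e (![x, y] i)) ↔ S.RelMap R ![e x, e y]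
    rw [h]
  · show S.RelMap R (fun i => e (![y, x] i)) ↔ S.RelMap R ![e y, e x]
    rw [h]

theorem bt_pl_val (S : L.Structure M) (P : Set M) :
    bt (pl S (Subtype.val : P → M)) = fun u v : P => bt S u v := by
  funext u v
  exact bt_pl S _ u v

theorem node_pl {P : Set M} (hP : IsStrong (bt S) P) (u v : P) :
    Subtype.val '' MD.node (bt (pl S (Subtype.val : P → M))) u v = MD.node (bt S) u v := by
  rw [bt_pl_val]
  exact node_restrict hP u v

theorem atEq_pl {S : L.Structure M} {e : N → M} (he : Function.Injective e)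
    {p : Set (N × N)} : AtEq (pl S e) (pl S e) p ↔
      AtEq S S ((fun a => (e a.1, e a.2)) '' p) := by
  constructor
  · rintro ⟨h1, h2⟩
    refine ⟨?_, fun n R v hv => ?_⟩
    · rintro _ ⟨a, ha, rfl⟩ _ ⟨b, hb, rfl⟩
      simp only [he.eq_iff]
      exact h1 a ha b hb
    · choose w hw hwv using hv
      have := h2 n R w hw
      have e1 : (fun i => (v i).1) = fun i => e (w i).1 := by
        funext i; rw [← hwv i]
      have e2 : (fun i => (v i).2) = fun i => e (w i).2 := by
        funext i; rw [← hwv i]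
      rw [e1, e2]
      exact this
  · rintro ⟨h1, h2⟩
    refine ⟨fun a ha b hb => ?_, fun n R v hv => ?_⟩
    · have := h1 _ ⟨a, ha, rfl⟩ _ ⟨b, hb, rfl⟩
      simp only [he.eq_iff] at this
      exact this
    · exact h2 n R (fun i => (e (v i).1, e (v i).2)) fun i => ⟨v i, hv i, rfl⟩

/-- atomic equivalence of a module together with elements outside -/
theorem atEq_module (hL : Ar2 L) {S : L.Structure M} {P : Set M} (hP : IsModule (bt S) P)
    {p : Set (M × M)} (hp : ∀ a ∈ p, a.1 ∈ P ∧ a.2 ∈ P) (h : AtEq S S p) {G : Set M}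
    (hG : ∀ g ∈ G, g ∉ P) : AtEq S S (p ∪ dg G) := by
  refine atEq_of_pairs hL fun a ha b hb => ?_
  have hone : ∀ c ∈ p ∪ dg G, AtEq S S {c} := by
    rintro c (hc | ⟨g, hg, rfl⟩)
    · exact AtEq.anti (by rintro d rfl; exact hc) h
    · exact atEq_refl S (by rintro d rfl; rfl)
  rcases ha with ha | ⟨g, hg, rfl⟩ <;> rcases hb with hb | ⟨g', hg', rfl⟩
  · exact AtEq.anti (by rintro d (rfl | rfl) <;> assumption) h
  · refine atEq_pair hL (hone _ (Or.inl ha)) (hone _ (Or.inr ⟨g', hg', rfl⟩)) ?_ ?_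
    · exact ⟨fun (h' : a.1 = g') => absurd (h' ▸ (hp a ha).1) (hG g' hg'),
        fun (h' : a.2 = g') => absurd (h' ▸ (hp a ha).2) (hG g' hg')⟩
    · exact module_bt' hP (hG g' hg') (hp a ha).1 (hp a ha).2
  · refine atEq_pair hL (hone _ (Or.inr ⟨g, hg, rfl⟩)) (hone _ (Or.inl hb)) ?_ ?_
    · exact ⟨fun (h' : g = b.1) => absurd (h' ▸ (hp b hb).1) (hG g hg),
        fun (h' : g = b.2) => absurd (h' ▸ (hp b hb).2) (hG g hg)⟩
    · exact module_bt hP (hG g hg) (hp b hb).1 (hp b hb).2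
  · refine atEq_refl S ?_
    rintro d (rfl | rfl) <;> rfl

theorem infinite_of_not_tame {P : Set M} (hP : ¬ TameX S P) : P.Infinite :=
  fun hfin => hP (tameX_of_countable hfin.countable)

/-- the restriction to a node which is not tame -/
theorem vst_node (hL : Ar2 L) (hS : VSt K δ S) {x y : M} (h : ¬ TN S x y) :
    ∃ (K' : Set (L.Structure ℕ)) (δ' : Ordinal.{0}),
      VSt K' δ' (pl S (Subtype.val : MD.node (bt S) x y → M)) := by
  classical
  set P := MD.node (bt S) x y with hPdef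
  have hinf : Infinite P := (infinite_of_not_tame h).to_subtype
  have hPm : IsModule (bt S) P := (isStrong_node x y).1
  refine hS.interp (S' := pl S (Subtype.val : P → M)) Subtype.val Subtype.val_injective
    {x, y} om2_lt ?_ ?_ ?_
  · intro c c' h
    rw [Subtype.range_val]
    exact node_congr h (x := x) (y := y) (x' := x) (y' := y)
      (mem_insert_of_mem _ ⟨x, by simp, rfl⟩) (mem_insert_of_mem _ ⟨y, by simp, rfl⟩)
      (mem_insert _ _)
  · intro p hp h
    rw [atEq_pl Subtype.val_injective]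
    exact AtEq.anti subset_union_left h.atEq
  · intro p hp h G hG
    rw [atEq_pl Subtype.val_injective] at h
    refine atEq_module hL hPm ?_ h ?_
    · rintro _ ⟨a, ha, rfl⟩
      exact ⟨a.1.2, a.2.2⟩
    · intro g hg
      have := hG g hg
      rwa [Subtype.range_val] at this

/-! ### sparse labellings -/

/-- a subdivision of the complete graph is preserved by injective homomorphisms -/
theorem hasTK_map {V W : Type} {G : SimpleGraph V} {G' : SimpleGraph W} {f : V → W}
    (hf : Function.Injective f) (hG : ∀ x y, G.Adj x y → G'.Adj (f x) (f y))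
    (h : HasTK G) : HasTK G' := by
  obtain ⟨b, P, hb, h1, h2, h3⟩ := h
  have hmap : ∀ i j, f (b i) :: ((P i j).map f ++ [f (b j)]) =
      (b i :: (P i j ++ [b j])).map f := by
    intro i j
    simp
  refine ⟨fun i => f (b i), fun i j => (P i j).map f, hf.comp hb, fun i j hij => ⟨?_, ?_⟩,
    ?_, ?_⟩
  · rw [hmap]
    exact (h1 i j hij).1.map hf
  · rw [hmap, List.isChain_map]
    exact (h1 i j hij).2.imp fun x y hxy => hG x y hxy
  · intro i j k hij hk
    obtain ⟨x, hx, hxk⟩ := List.mem_map.mp hk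
    exact h2 i j k hij (hf hxk ▸ hx)
  · intro i j i' j' hij hij' hne x hx hx'
    obtain ⟨y, hy, rfl⟩ := List.mem_map.mp hx
    obtain ⟨z, hz, hzy⟩ := List.mem_map.mp hx'
    exact h3 i j i' j' hij hij' hne hy (hf hzy ▸ hz)

/-- primitivity is preserved by images -/
theorem isPrim_image {M' A : Type} {τ : M → M → A} {τ' : M' → M' → A} {e : M' → M}
    (he : Function.Injective e) (h : ∀ x y, x ≠ y → τ' x y = τ (e x) (e y)) {P : Set M'}
    (hP : IsPrim τ' P) : IsPrim τ (e '' P) := by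
  intro X hX hmod
  have hXe : e '' (e ⁻¹' X) = X := by
    apply Subset.antisymm (image_preimage_subset _ _)
    intro x hx
    obtain ⟨y, -, rfl⟩ := hX hx
    exact ⟨y, hx, rfl⟩
  have hsub : e ⁻¹' X ⊆ P := by
    intro y hy
    obtain ⟨z, hz, hzy⟩ := hX hy
    exact he hzy ▸ hz
  rcases hP (e ⁻¹' X) hsub (fun z hz hzX x hx x' hx' => by
    rw [h z x (fun h' => hzX (h' ▸ hx)), h z x' (fun h' => hzX (h' ▸ hx'))]
    exact hmod (e z) ⟨z, hz, rfl⟩ hzX (e x) hx (e x') hx') with h1 | h1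
  · left
    rw [← hXe]
    exact h1.image e
  · right
    rw [← hXe, h1]

/-- sparseness for labellings with values in pairs of sets -/
def SparseT {R : Type} (τ : M → M → Set R × Set R) : Prop :=
  ∀ P : Set M, P.Infinite → IsPrim τ P → ∃ b : Set R, ∀ G : SimpleGraph M,
    (∀ x y, G.Adj x y → x ≠ y ∧ x ∈ P ∧ y ∈ P ∧ τ x y ≠ (b, b)) → ¬ HasTK G

theorem sparsePrim_iff : SparsePrim S ↔ SparseT (bt S) := by
  constructor
  · intro h P hP hp
    obtain ⟨b, hb⟩ := h P hP hp
    refine ⟨b, fun G hG hTK => hb ?_⟩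
    exact hasTK_map (f := id) Function.injective_id (fun x y hxy => hG x y hxy) hTK
  · intro h P hP hp
    obtain ⟨b, hb⟩ := h P hP hp
    exact ⟨b, hb _ fun x y hxy => hxy⟩

theorem SparseT.of_inj {M' R : Type} {τ : M → M → Set R × Set R} {τ' : M' → M' → Set R × Set R}
    (hτ : SparseT τ) {e : M' → M} (he : Function.Injective e)
    (h : ∀ x y, x ≠ y → τ' x y = τ (e x) (e y)) : SparseT τ' := by
  intro P hP hp
  obtain ⟨b, hb⟩ := hτ (e '' P) (hP.image he.injOn) (isPrim_image he h hp)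
  refine ⟨b, fun G hG hTK => ?_⟩
  let G' : SimpleGraph M :=
    { Adj := fun x y => ∃ u v, G.Adj u v ∧ e u = x ∧ e v = y
      symm := ⟨fun x y ⟨u, v, h1, h2, h3⟩ => ⟨v, u, h1.symm, h3, h2⟩⟩
      loopless := ⟨fun x ⟨u, v, h1, h2, h3⟩ => h1.ne (he (h2.trans h3.symm))⟩ }
  refine hb G' ?_ (hasTK_map (f := e) he (fun x y hxy => ?_) hTK)
  · intro x y hxy
    obtain ⟨u, v, huv, rfl, rfl⟩ := hxy
    obtain ⟨h1, h2, h3, h4⟩ := hG u v huv
    refine ⟨fun h' => h1 (he h'), ⟨u, h2, rfl⟩, ⟨v, h3, rfl⟩, ?_⟩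
    rw [h u v h1] at h4
    exact h4
  · exact ⟨x, y, hxy, rfl, rfl⟩

theorem SparsePrim.pl (h : SparsePrim S) {e : N → M} (he : Function.Injective e) :
    SparsePrim (Pool.Agent.Helper79.VC.pl S e) := by
  rw [sparsePrim_iff] at h ⊢
  exact h.of_inj he fun x y _ => bt_pl S e x y

end

end Pool.Agent.Helper97.LO.TR

end

/-! ### formerly `Pool.Agent.Helper97.VCM.Tree4` -/

section

/-!
# The quotient by the maximal tame strong modules
-/

set_option autoImplicit false
set_option linter.unusedSectionVars false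
set_option linter.unusedVariables false

namespace Pool.Agent.Helper97.LO.TR

open Set Pool.Agent.Helper5.DU Pool.Agent.Helper6.Str Pool.Agent.Helper79.VC
  Pool.Agent.Helper97.VC Pool.Agent.Helper97.MD

variable {L : FirstOrder.Language.{0, 0}} {M N P : Type}

/-! ### the language of the quotient -/

/-- the relation symbols of the quotient -/
def quoR (L : FirstOrder.Language.{0, 0}) : ℕ → Type
  | 1 => ℕ
  | 2 => L.Relations 2
  | _ => Empty

/-- the language of the quotient: colours and the binary symbols -/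
def quoL (L : FirstOrder.Language.{0, 0}) : FirstOrder.Language.{0, 0} where
  Functions _ := Empty
  Relations := quoR L

instance (n : ℕ) : IsEmpty ((quoL L).Functions n) := inferInstanceAs (IsEmpty Empty)

instance [∀ n, Countable (L.Relations n)] (n : ℕ) : Countable ((quoL L).Relations n) := by
  match n with
  | 0 => exact inferInstanceAs (Countable Empty)
  | 1 => exact inferInstanceAs (Countable ℕ)
  | 2 => exact inferInstanceAs (Countable (L.Relations 2))
  | (n + 3) => exact inferInstanceAs (Countable Empty)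

theorem ar2_quoL : Ar2 (quoL L) := by
  intro n h1 h2
  match n with
  | 0 => exact inferInstanceAs (IsEmpty Empty)
  | 1 => exact absurd rfl h1
  | 2 => exact absurd rfl h2
  | (n + 3) => exact inferInstanceAs (IsEmpty Empty)

/-- the relations of the quotient -/
def quoRel (bin : L.Relations 2 → M → M → Prop) (col : M → ℕ) :
    ∀ n : ℕ, quoR L n → (Fin n → M) → Prop
  | 1, n, v => col (v 0) = n
  | 2, R, v => bin R (v 0) (v 1)
  | 0, R, _ => nomatch R
  | (_ + 3), R, _ => nomatch R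

/-- the coloured structure -/
def quoS (bin : L.Relations 2 → M → M → Prop) (col : M → ℕ) : (quoL L).Structure M where
  funMap f := nomatch f
  RelMap {n} R v := quoRel bin col n R v

theorem atEq_quoS {bin : L.Relations 2 → M → M → Prop} {col : M → ℕ} {p : Set (M × M)} :
    AtEq (quoS bin col) (quoS bin col) p ↔ (∀ a ∈ p, ∀ b ∈ p, (a.1 = b.1 ↔ a.2 = b.2)) ∧
      (∀ a ∈ p, col a.1 = col a.2) ∧
      ∀ a ∈ p, ∀ b ∈ p, ∀ R, (bin R a.1 b.1 ↔ bin R a.2 b.2) := by
  constructor
  · rintro ⟨h1, h2⟩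
    refine ⟨h1, fun a ha => ?_, fun a ha b hb R => ?_⟩
    · have := h2 1 (col a.1 : ℕ) ![a] fun i => by
        rw [Subsingleton.elim i 0]
        exact ha
      have h3 : col a.1 = col a.1 ↔ col a.2 = col a.1 := this
      exact (h3.mp rfl).symm
    · exact h2 2 (R : L.Relations 2) ![a, b] fun i => by
        fin_cases i
        · exact ha
        · exact hb
  · rintro ⟨h1, h2, h3⟩
    refine ⟨h1, fun n R v hv => ?_⟩
    match n, R, v, hv with
    | 1, n, v, hv =>
      show col (v 0).1 = n ↔ col (v 0).2 = n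
      rw [h2 _ (hv 0)]
    | 2, R, v, hv => exact h3 _ (hv 0) _ (hv 1) R
    | 0, R, _, _ => exact nomatch R
    | (_ + 3), R, _, _ => exact nomatch R

section

variable [∀ n, IsEmpty (L.Functions n)] [∀ n, Countable (L.Relations n)]
  {K : Set (L.Structure ℕ)} {δ : Ordinal.{0}} {S : L.Structure M}

/-- nodes are small -/
theorem small_node (hS : VSt K δ S) (x y : M) : Small S (MD.node (bt S) x y) := by
  classical
  refine hS.small_sub {x, y} om2_lt fun c c' h => ?_
  exact node_congr h (x := x) (y := y) (x' := x) (y' := y)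
    (mem_insert_of_mem _ ⟨x, by simp, rfl⟩) (mem_insert_of_mem _ ⟨y, by simp, rfl⟩)
    (mem_insert _ _)

theorem bfr_node {T : L.Structure N} {γ : Ordinal.{0}} {p : Set (M × N)} {x y : M} {x' y' : N}
    (hx : (x, x') ∈ p) (hy : (y, y') ∈ p) (h : BFR S T univ univ (om2 + γ) p) :
    BFR S T (MD.node (bt S) x y) (MD.node (bt T) x' y') γ p := by
  refine BFR.restr (subset_univ _) (subset_univ _) om2 γ (fun z _ z' _ hz => ?_) h
  exact node_congr hz (mem_insert_of_mem _ hx) (mem_insert_of_mem _ hy) (mem_insert _ _)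

/-- when the tame nodes have bounded Scott levels, being tame is definable -/
theorem tn_congr (hS : VSt K δ S) {ρ₀ : Ordinal.{0}} (hρ₀ : ρ₀ < om1)
    (hA : ∀ u v, TN S u v → SL S (MD.node (bt S) u v) ρ₀) {x y x' y' : M}
    (h : BFR S S univ univ (om2 + (ρ₀ + Ordinal.omega0)) {(x, x'), (y, y')}) :
    TN S x y ↔ TN S x' y' := by
  have key : ∀ {x y x' y' : M},
      BFR S S univ univ (om2 + (ρ₀ + Ordinal.omega0)) {(x, x'), (y, y')} →
      TN S x y → TN S x' y' := by
    intro x y x' y' h hT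
    have h1 := bfr_node (x := x) (y := y) (x' := x') (y' := y') (by simp) (by simp) h
    exact SL.tame (small_node hS x' y') hρ₀
      ((hA x y hT).congr hρ₀ (BFR.anti (empty_subset _) h1))
  refine ⟨key h, key (h.symm ?_)⟩
  rintro a (rfl | rfl)
  · simp
  · simp

theorem bfi_symm {S : L.Structure M} {T : L.Structure N} {U : Set M} {V : Set N}
    (h : BFI S T U V ∅) : BFI T S V U ∅ :=
  fun γ hγ => (h γ hγ).symm fun a ha => absurd ha (notMem_empty a)

theorem bfi_trans {S : L.Structure M} {T : L.Structure N} {Q : L.Structure P} {U : Set M}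
    {V : Set N} {W : Set P} (h : BFI S T U V ∅) (h' : BFI T Q V W ∅) : BFI S Q U W ∅ :=
  fun γ hγ => (h γ hγ).trans (h' γ hγ) fun a ha => absurd ha (notMem_empty a)

theorem bfi_refl {S : L.Structure M} {U : Set M} : BFI S S U U ∅ :=
  fun γ hγ => BFR.refl S U γ fun a ha => absurd ha (notMem_empty a)

theorem isStrong_class (hL : Ar2 L) (S : L.Structure M) (x : M) :
    IsStrong (bt S) {y | TN S x y} := by
  have h1 : {y | TN S x y} = ⋃₀ {X | ∃ y, TN S x y ∧ X = MD.node (bt S) x y} := by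
    ext z
    constructor
    · intro hz
      exact ⟨_, ⟨z, hz, rfl⟩, right_mem_node x z⟩
    · rintro ⟨_, ⟨y, hy, rfl⟩, hz⟩
      exact hy.of_mem hL (left_mem_node x y) hz
  rw [h1]
  refine IsStrong.sUnion (x := x) ?_ ?_
  · rintro _ ⟨y, _, rfl⟩
    exact isStrong_node x y
  · rintro _ ⟨y, _, rfl⟩
    exact left_mem_node x y

/-- **The quotient.** -/
theorem exists_quotient (hL : Ar2 L) (hS : VSt K δ S) {ρ₀ : Ordinal.{0}} (hρ₀ : ρ₀ < om1)
    (hA : ∀ u v, TN S u v → SL S (MD.node (bt S) u v) ρ₀) (hsp : SparsePrim S)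
    (hnt : ¬ TameX S univ) :
    ∃ (M' : Type) (S' : (quoL L).Structure M') (K' : Set ((quoL L).Structure ℕ))
      (δ' : Ordinal.{0}), VSt K' δ' S' ∧ SparsePrim S' ∧ ¬ TameX S' univ ∧
        ∀ a b, a ≠ b → ¬ TN S' a b := by
  classical
  have hη : om2 + (ρ₀ + Ordinal.omega0) < om1 :=
    add_lt_om1 om2_lt (add_lt_om1 hρ₀ omega_lt_om1)
  obtain ⟨κ, hκ⟩ := pcl_def hL hS (tn_equiv hL S) (crossRule_tn hL S) (class_tame hL hS) hη
    (fun x y x' y' h => tn_congr hS hρ₀ hA h)
  let s : Setoid M := ⟨TN S, tn_equiv hL S⟩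
  let M' : Type := Quotient s
  let π : M → M' := fun x => Quotient.mk s x
  have hπe : ∀ x y, π x = π y ↔ TN S x y := fun x y => Quotient.eq
  let out : M' → M := fun a => a.out
  have hout : ∀ a, π (out a) = a := fun a => Quotient.out_eq a
  let Cl : M' → Set M := fun a => {z | π z = a}
  have hCl : ∀ x, {z | TN S x z} = Cl (π x) := by
    intro x
    ext z
    exact ((hπe z x).trans ⟨TN.symm, TN.symm⟩).symm
  have hκ' : ∀ x y, κ x = κ y → BFI S S (Cl (π x)) (Cl (π y)) ∅ := by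
    intro x y hxy
    have := hκ x y hxy
    rw [hCl, hCl] at this
    exact this
  -- colours
  let col : M' → ℕ := fun a => sInf {n | ∃ y, κ y = n ∧ BFI S S (Cl a) (Cl (π y)) ∅}
  have hcol0 : ∀ a, ∃ y, κ y = col a ∧ BFI S S (Cl a) (Cl (π y)) ∅ := by
    intro a
    have hne : {n | ∃ y, κ y = n ∧ BFI S S (Cl a) (Cl (π y)) ∅}.Nonempty :=
      ⟨κ (out a), out a, rfl, by rw [hout]; exact bfi_refl⟩
    exact Nat.sInf_mem hne
  have hcol : ∀ a b, col a = col b ↔ BFI S S (Cl a) (Cl b) ∅ := by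
    intro a b
    constructor
    · intro h
      obtain ⟨y, hy1, hy2⟩ := hcol0 a
      obtain ⟨z, hz1, hz2⟩ := hcol0 b
      exact bfi_trans hy2 (bfi_trans (hκ' y z (by rw [hy1, hz1, h])) (bfi_symm hz2))
    · intro h
      have : {n | ∃ y, κ y = n ∧ BFI S S (Cl a) (Cl (π y)) ∅} =
          {n | ∃ y, κ y = n ∧ BFI S S (Cl b) (Cl (π y)) ∅} := by
        ext n
        constructor
        · rintro ⟨y, hy1, hy2⟩
          exact ⟨y, hy1, bfi_trans (bfi_symm h) hy2⟩
        · rintro ⟨y, hy1, hy2⟩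
          exact ⟨y, hy1, bfi_trans h hy2⟩
      show sInf _ = sInf _
      rw [this]
  let bin : L.Relations 2 → M' → M' → Prop := fun R a b => a ≠ b ∧ S.RelMap R ![out a, out b]
  let S' : (quoL L).Structure M' := quoS bin col
  -- cross facts
  have hm : ∀ z x x', π x = π x' → π z ≠ π x → bt S z x = bt S z x' := by
    intro z x x' hxx hzx
    refine module_bt (isStrong_class hL S x).1 (z := z) ?_ (tn_refl S x) ((hπe x x').mp hxx)
    intro h
    exact hzx ((hπe z x).mpr (TN.symm h))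
  have hbt : ∀ x y, π x ≠ π y → bt S x y = bt S (out (π x)) (out (π y)) := by
    intro x y hxy
    have h1 : bt S x y = bt S x (out (π y)) := hm x y _ (hout _).symm hxy
    have h2 : bt S (out (π y)) x = bt S (out (π y)) (out (π x)) :=
      hm _ x _ (hout _).symm (by rw [hout]; exact hxy.symm)
    exact h1.trans (bt_swap h2)
  have hbt' : ∀ a b : M', a ≠ b → bt S' a b = bt S (out a) (out b) := by
    intro a b hab
    refine Prod.ext (Set.ext fun R => ?_) (Set.ext fun R => ?_)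
    · show (a ≠ b ∧ S.RelMap R ![out a, out b]) ↔ S.RelMap R ![out a, out b]
      exact ⟨fun h => h.2, fun h => ⟨hab, h⟩⟩
    · show (b ≠ a ∧ S.RelMap R ![out b, out a]) ↔ S.RelMap R ![out b, out a]
      exact ⟨fun h => h.2, fun h => ⟨hab.symm, h⟩⟩
  have hH : ∀ p : Set (M' × M'), p.Finite → (AtEq S' S' p ↔
      (∀ a ∈ p, ∀ b ∈ p, a.1 = b.1 ↔ a.2 = b.2) ∧
      (∀ a ∈ p, BFI S S {z | π z = a.1} {z | π z = a.2} ∅) ∧
      (∀ x y x' y', (π x, π x') ∈ p → (π y, π y') ∈ p → π x ≠ π y → bt S x y = bt S x' y')) := by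
    intro p _
    show AtEq (quoS bin col) (quoS bin col) p ↔ _
    rw [atEq_quoS]
    refine and_congr_right fun hinj => and_congr ?_ ?_
    · exact forall₂_congr fun a _ => hcol a.1 a.2
    · constructor
      · intro h x y x' y' hx hy hxy
        have hxy' : π x' ≠ π y' := fun h' => hxy ((hinj _ hx _ hy).mpr h')
        rw [hbt x y hxy, hbt x' y' hxy']
        refine bt_ext (fun R => ?_) (fun R => ?_)
        · have := h _ hx _ hy R
          constructor
          · intro h1
            exact (this.mp ⟨hxy, h1⟩).2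
          · intro h1
            exact (this.mpr ⟨hxy', h1⟩).2
        · have := h _ hy _ hx R
          constructor
          · intro h1
            exact (this.mp ⟨hxy.symm, h1⟩).2
          · intro h1
            exact (this.mpr ⟨hxy'.symm, h1⟩).2
      · intro h a ha b hb R
        by_cases hab : a.1 = b.1
        · have hab' := (hinj a ha b hb).mp hab
          exact ⟨fun h1 => absurd hab h1.1, fun h1 => absurd hab' h1.1⟩
        · have hab' : a.2 ≠ b.2 := fun h' => hab ((hinj a ha b hb).mpr h')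
          have h1 := h (out a.1) (out b.1) (out a.2) (out b.2)
            (by rw [hout, hout]; exact ha) (by rw [hout, hout]; exact hb)
            (by rw [hout, hout]; exact hab)
          have h2 : S.RelMap R ![out a.1, out b.1] ↔ S.RelMap R ![out a.2, out b.2] :=
            Set.ext_iff.mp (congrArg Prod.fst h1) R
          exact ⟨fun h3 => ⟨hab', h2.mp h3.2⟩, fun h3 => ⟨hab, h2.mpr h3.2⟩⟩
  have ht : ∀ x, TameX S {y | π y = π x} := by
    intro x
    have := class_tame hL hS x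
    have h1 : {y | TameX S (MD.node (bt S) x y)} = {y | π y = π x} := hCl x
    rwa [h1] at this
  have hnt' : ¬ TameX S' univ := by
    intro h
    have := tameX_of_quot hL π hm ht (fun p hp h => (hH p hp).mp h) h
    refine hnt ?_
    have h1 : {z | π z ∈ (univ : Set M')} = univ := eq_univ_of_forall fun z => mem_univ _
    rwa [h1] at this
  have hinf : Infinite M' := by
    by_contra hcon
    rw [not_infinite_iff_finite] at hcon
    exact hnt' (tameX_of_countable (Set.toFinite univ).countable)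
  have hπs : Function.Surjective π := fun a => ⟨out a, hout a⟩
  obtain ⟨K', δ', hV⟩ := hS.quot hL (S' := S') π hπs hη
    (fun x y x' y' h => by
      rw [hπe, hπe]
      exact tn_congr hS hρ₀ hA h) hm ht ⟨κ, hκ'⟩ hH
  refine ⟨M', S', K', δ', hV, ?_, hnt', ?_⟩
  · have h1 : SparseT (bt S) := sparsePrim_iff.mp hsp
    let τ' : M' → M' → Set (L.Relations 2) × Set (L.Relations 2) :=
      fun a b => bt (L := quoL L) S' a b
    have h2 : SparseT τ' :=
      h1.of_inj (e := out) (fun a b hab => by rw [← hout a, ← hout b, hab])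
        fun a b hab => hbt' a b hab
    exact sparsePrim_iff.mpr h2
  · intro a b hab hT
    have hZ := tameX_of_quot hL π hm ht (fun p hp h => (hH p hp).mp h) hT
    set X' := MD.node (bt S') a b with hX'
    have hX's : IsStrong (bt S') X' := isStrong_node a b
    have hstr : IsStrong (bt S) {z | π z ∈ X'} := by
      refine ⟨fun z hz x hx x' hx' => ?_, fun Y hY hne => ?_⟩
      · have hz' : π z ∉ X' := hz
        have h1 : π z ≠ π x := fun h => hz' (by rw [h]; exact hx)
        have h2 : π z ≠ π x' := fun h => hz' (by rw [h]; exact hx')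
        rw [hbt z x h1, hbt z x' h2, ← hbt' _ _ h1, ← hbt' _ _ h2]
        exact hX's.1 _ hz' _ hx _ hx'
      · obtain ⟨y0, hy0, hy0Y⟩ := hne
        by_cases hsub : ∀ y ∈ Y, TN S y0 y
        · right
          intro y hy
          have : π y = π y0 := (hπe y y0).mpr (TN.symm (hsub y hy))
          show π y ∈ X'
          rw [this]
          exact hy0
        · push Not at hsub
          obtain ⟨y1, hy1, hy1'⟩ := hsub
          have hcl : ∀ y ∈ Y, ∀ z, TN S y z → z ∈ Y := by
            intro y hy z hz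
            rcases (isStrong_class hL S y).2 Y hY ⟨y, tn_refl S y, hy⟩ with h | h
            · exact h hz
            · exact absurd (TN.trans hL (TN.symm (h hy0Y)) (h hy1)) hy1'
          have hYm : IsModule (bt S') (π '' Y) := by
            rintro c hc _ ⟨x, hx, rfl⟩ _ ⟨x', hx', rfl⟩
            have hcY : out c ∉ Y := fun h => hc ⟨out c, h, hout c⟩
            have h1 : c ≠ π x := fun h => hc ⟨x, hx, h.symm⟩
            have h2 : c ≠ π x' := fun h => hc ⟨x', hx', h.symm⟩
            rw [hbt' _ _ h1, hbt' _ _ h2]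
            refine hY (out c) hcY _ (hcl x hx _ ?_) _ (hcl x' hx' _ ?_)
            · exact (hπe _ _).mp (hout _).symm
            · exact (hπe _ _).mp (hout _).symm
          rcases hX's.2 _ hYm ⟨π y0, hy0, ⟨y0, hy0Y, rfl⟩⟩ with h | h
          · left
            intro z hz
            obtain ⟨y, hy, hyz⟩ := h hz
            exact hcl y hy z ((hπe y z).mp hyz)
          · right
            intro y hy
            exact h ⟨y, hy, rfl⟩
    have hxa : out a ∈ {z | π z ∈ X'} := by
      show π (out a) ∈ X'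
      rw [hout]
      exact left_mem_node a b
    have hxb : out b ∈ {z | π z ∈ X'} := by
      show π (out b) ∈ X'
      rw [hout]
      exact right_mem_node a b
    have h3 : TN S (out a) (out b) := TameX.node hL (nconv_of_strong hstr) hxa hxb hZ
    have h4 := (hπe _ _).mpr h3
    rw [hout, hout] at h4
    exact hab h4

end

end Pool.Agent.Helper97.LO.TR

end

/-! ### formerly `Pool.Agent.Helper97.VCM.Tree5` -/

section

/-!
# Disjoint nodes which are not tame: coding
-/

set_option autoImplicit false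
set_option linter.unusedSectionVars false
set_option linter.unusedVariables false

namespace Pool.Agent.Helper97.LO.TR

open Set Pool.Agent.Helper5.DU Pool.Agent.Helper6.Str Pool.Agent.Helper79.VC
  Pool.Agent.Helper97.VC Pool.Agent.Helper97.MD

variable {L : FirstOrder.Language.{0, 0}} {M N P : Type}

/-- **Replacing points by modules.** -/
theorem subst_modules (hL : Ar2 L) {S : L.Structure M} (N₀ : Finset ℕ) (W : ℕ → Set M)
    (hm : ∀ n ∈ N₀, IsModule (bt S) (W n)) (a : ℕ → M) (ha : ∀ n ∈ N₀, a n ∈ W n)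
    (γ : Ordinal.{0}) : ∀ {p : Set (M × M)} {F : Set M},
      (∀ c ∈ p, (∀ n ∈ N₀, c.1 ∈ W n → c.1 = a n) ∧ (∀ n ∈ N₀, c.2 ∈ W n → c.2 = a n)) →
      (∀ n ∈ N₀, (a n, a n) ∈ p) → (∀ x ∈ F, ∃ n ∈ N₀, x ∈ W n) →
      BFR S S {z | ∀ n ∈ N₀, z ∈ W n → z = a n} {z | ∀ n ∈ N₀, z ∈ W n → z = a n} γ p →
      BFR S S univ univ γ ({c ∈ p | ∀ n ∈ N₀, c.1 ∉ W n} ∪ dg F) := by
  induction γ using WellFoundedLT.induction with
  | _ γ ih =>
    intro p F hp hap hF h
    have hcross : ∀ c ∈ p, (∀ n ∈ N₀, c.1 ∉ W n) → ∀ n ∈ N₀, c.2 ∉ W n := by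
      intro c hc hc1 n hn hc2
      have h1 : c.2 = a n := (hp c hc).2 n hn hc2
      have h2 := (h.atEq.1 c hc (a n, a n) (hap n hn)).mpr h1
      exact hc1 n hn (h2 ▸ ha n hn)
    rw [BFR.def]
    refine ⟨atEq_of_pairs hL ?_, fun β hβ => ⟨fun z _ => ?_, fun z _ => ?_⟩⟩
    · have hone : ∀ c ∈ {c ∈ p | ∀ n ∈ N₀, c.1 ∉ W n} ∪ dg F, AtEq S S {c} := by
        rintro c (hc | ⟨g, hg, rfl⟩)
        · exact AtEq.anti (by rintro d rfl; exact hc.1) h.atEq
        · exact atEq_refl S (by rintro d rfl; rfl)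
      rintro c (hc | ⟨g, hg, rfl⟩) d (hd | ⟨g', hg', rfl⟩)
      · refine AtEq.anti ?_ h.atEq
        rintro e (rfl | rfl)
        · exact hc.1
        · exact hd.1
      · obtain ⟨n, hn, hgn⟩ := hF g' hg'
        have hc2 := hcross c hc.1 hc.2 n hn
        refine atEq_pair hL (hone _ (Or.inl hc)) (hone _ (Or.inr ⟨g', hg', rfl⟩)) ?_ ?_
        · exact ⟨fun (h' : c.1 = g') => absurd (h' ▸ hgn) (hc.2 n hn),
            fun (h' : c.2 = g') => absurd (h' ▸ hgn) hc2⟩
        · show bt S c.1 g' = bt S c.2 g'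
          rw [module_bt (hm n hn) (hc.2 n hn) hgn (ha n hn),
            module_bt (hm n hn) hc2 hgn (ha n hn)]
          exact bt_eq_of_atEq h.atEq hc.1 (hap n hn)
      · obtain ⟨n, hn, hgn⟩ := hF g hg
        have hd2 := hcross d hd.1 hd.2 n hn
        refine atEq_pair hL (hone _ (Or.inr ⟨g, hg, rfl⟩)) (hone _ (Or.inl hd)) ?_ ?_
        · exact ⟨fun (h' : g = d.1) => absurd (h' ▸ hgn) (hd.2 n hn),
            fun (h' : g = d.2) => absurd (h' ▸ hgn) hd2⟩
        · show bt S g d.1 = bt S g d.2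
          rw [module_bt' (hm n hn) (hd.2 n hn) hgn (ha n hn),
            module_bt' (hm n hn) hd2 hgn (ha n hn)]
          exact bt_eq_of_atEq h.atEq (hap n hn) hd.1
      · refine atEq_refl S ?_
        rintro d (rfl | rfl) <;> rfl
    · by_cases hz : ∃ n ∈ N₀, z ∈ W n
      · refine ⟨z, mem_univ z, BFR.anti ?_ (ih β hβ (F := insert z F) hp hap ?_ (h.mono hβ.le))⟩
        · rintro c (rfl | hc | ⟨g, hg, rfl⟩)
          · exact Or.inr ⟨z, mem_insert _ _, rfl⟩
          · exact Or.inl hc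
          · exact Or.inr ⟨g, mem_insert_of_mem _ hg, rfl⟩
        · rintro x (rfl | hx)
          · exact hz
          · exact hF x hx
      · push Not at hz
        obtain ⟨z', hz', h1⟩ := h.forth hβ (x := z) (fun n hn h' => absurd h' (hz n hn))
        refine ⟨z', mem_univ z', BFR.anti ?_ (ih β hβ (F := F) ?_
          (fun n hn => mem_insert_of_mem _ (hap n hn)) hF h1)⟩
        · rintro c (rfl | hc | hc)
          · exact Or.inl ⟨mem_insert _ _, hz⟩
          · exact Or.inl ⟨mem_insert_of_mem _ hc.1, hc.2⟩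
          · exact Or.inr hc
        · rintro c (rfl | hc)
          · exact ⟨fun n hn h' => absurd h' (hz n hn), hz'⟩
          · exact hp c hc
    · by_cases hz : ∃ n ∈ N₀, z ∈ W n
      · refine ⟨z, mem_univ z, BFR.anti ?_ (ih β hβ (F := insert z F) hp hap ?_ (h.mono hβ.le))⟩
        · rintro c (rfl | hc | ⟨g, hg, rfl⟩)
          · exact Or.inr ⟨z, mem_insert _ _, rfl⟩
          · exact Or.inl hc
          · exact Or.inr ⟨g, mem_insert_of_mem _ hg, rfl⟩
        · rintro x (rfl | hx)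
          · exact hz
          · exact hF x hx
      · push Not at hz
        obtain ⟨z', hz', h1⟩ := h.back hβ (y := z) (fun n hn h' => absurd h' (hz n hn))
        have hz'W : ∀ n ∈ N₀, z' ∉ W n := by
          intro n hn hz'n
          have h2 : z' = a n := hz' n hn hz'n
          have h3 := (h1.atEq.1 (z', z) (mem_insert _ _) (a n, a n)
            (mem_insert_of_mem _ (hap n hn))).mp h2
          have h4 : z = a n := h3
          exact hz n hn (h4 ▸ ha n hn)
        refine ⟨z', mem_univ z', BFR.anti ?_ (ih β hβ (F := F) ?_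
          (fun n hn => mem_insert_of_mem _ (hap n hn)) hF h1)⟩
        · rintro c (rfl | hc | hc)
          · exact Or.inl ⟨mem_insert _ _, hz'W⟩
          · exact Or.inl ⟨mem_insert_of_mem _ hc.1, hc.2⟩
          · exact Or.inr hc
        · rintro c (rfl | hc)
          · exact ⟨hz', fun n hn h' => absurd h' (hz n hn)⟩
          · exact hp c hc

theorem sl_singleton (S : L.Structure M) (x : M) : SL S {x} 0 := by
  intro p _ hp _ γ _
  refine BFR.refl S {x} γ fun a ha => ⟨(hp a ha).1, ?_⟩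
  have h1 : a.1 = x := (hp a ha).1
  have h2 : a.2 = x := (hp a ha).2
  rw [h1, h2]

section

variable [∀ n, IsEmpty (L.Functions n)] [∀ n, Countable (L.Relations n)]
  {K : Set (L.Structure ℕ)} {δ : Ordinal.{0}} {S : L.Structure M}

/-- **No tree of disjoint nodes.** -/
theorem exists_meeting (hL : Ar2 L) (hS : VSt K δ S) (hT : ∀ x y, x ≠ y → ¬ TN S x y) :
    ∃ x y, x ≠ y ∧ ∀ u v u' v', u ∈ MD.node (bt S) x y → v ∈ MD.node (bt S) x y →
      u' ∈ MD.node (bt S) x y → v' ∈ MD.node (bt S) x y → u ≠ v → u' ≠ v' →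
      (MD.node (bt S) u v ∩ MD.node (bt S) u' v').Nonempty := by
  classical
  by_contra hcon
  push Not at hcon
  have := hS.infinite
  obtain ⟨x₀, y₀, hxy₀⟩ := exists_pair_ne M
  -- a sequence of disjoint nodes
  have hch : ∀ z : {z : M × M // z.1 ≠ z.2}, ∃ (c : M × M) (z' : {z : M × M // z.1 ≠ z.2}),
      c.1 ≠ c.2 ∧ MD.node (bt S) c.1 c.2 ⊆ MD.node (bt S) z.1.1 z.1.2 ∧
      MD.node (bt S) z'.1.1 z'.1.2 ⊆ MD.node (bt S) z.1.1 z.1.2 ∧
      Disjoint (MD.node (bt S) c.1 c.2) (MD.node (bt S) z'.1.1 z'.1.2) := by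
    rintro ⟨⟨x, y⟩, hxy⟩
    obtain ⟨u, v, u', v', hu, hv, hu', hv', huv, huv', hd⟩ := hcon x y hxy
    exact ⟨(u, v), ⟨(u', v'), huv'⟩, huv, node_subset (isStrong_node x y) hu hv,
      node_subset (isStrong_node x y) hu' hv', disjoint_iff_inter_eq_empty.mpr hd⟩
  choose c nx hc1 hc2 hc3 hc4 using hch
  let s : ℕ → {z : M × M // z.1 ≠ z.2} := fun n => n.rec ⟨(x₀, y₀), hxy₀⟩ (fun _ z => nx z)
  have hs : ∀ n, s (n + 1) = nx (s n) := fun n => rfl
  let a : ℕ → M := fun n => (c (s n)).1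
  let b : ℕ → M := fun n => (c (s n)).2
  let W : ℕ → Set M := fun n => MD.node (bt S) (a n) (b n)
  have hsub : ∀ m n, m ≤ n → MD.node (bt S) (s n).1.1 (s n).1.2 ⊆
      MD.node (bt S) (s m).1.1 (s m).1.2 := by
    intro m n hmn
    induction n, hmn using Nat.le_induction with
    | base => exact Subset.rfl
    | succ n _ ih =>
      rw [hs]
      exact (hc3 (s n)).trans ih
  have hlt : ∀ m n, m < n → Disjoint (W m) (W n) := by
    intro m n hmn
    refine (hc4 (s m)).mono_right ?_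
    refine (hc2 (s n)).trans ?_
    have := hsub (m + 1) n hmn
    rwa [hs] at this
  have hW : Pairwise fun m n => Disjoint (W m) (W n) := by
    intro m n hmn
    rcases lt_or_gt_of_ne hmn with h | h
    · exact hlt m n h
    · exact (hlt n m h).symm
  have haW : ∀ n, a n ∈ W n := fun n => left_mem_node _ _
  have hbW : ∀ n, b n ∈ W n := fun n => right_mem_node _ _
  have hWm : ∀ n, IsModule (bt S) (W n) := fun n => (isStrong_node _ _).1
  refine cell_code hS (fun N T x y => MD.node (bt T) x y) om2_lt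
    (fun N N' T T' x y z x' y' z' _ _ h hz => by
      refine (node_congr h (x := x) (y := y) (z := z) (x' := x') (y' := y') (z' := z')
        (by simp) (by simp) (by simp)).mp hz)
    (fun x y => ⟨left_mem_node x y, right_mem_node x y⟩)
    (fun x y => x ≠ y) zero_lt_om1 (fun x y hxy => hT x y hxy)
    (fun x y hxy => ?_) W hW (fun n => {a n, b n}) a b haW hbW (fun n => hc1 (s n))
    (fun n z z' h => ?_) (fun n u hu v hv => node_subset (isStrong_node _ _) hu hv)
    (fun n γ p G hp hG h => ?_) (fun N₀ γ c d F₀ F₁ _ _ h0 h1 h => ?_)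
    (fun X _ _ hab u hu v hv huv => ?_)
  · have hxy' : x = y := not_not.mp hxy
    subst hxy'
    have := sl_singleton S x
    rw [← node_self (τ := bt S) x] at this
    exact this
  · exact node_congr h (x := a n) (y := b n) (x' := a n) (y' := b n)
      (mem_insert_of_mem _ ⟨a n, by simp, rfl⟩) (mem_insert_of_mem _ ⟨b n, by simp, rfl⟩)
      (mem_insert _ _)
  · exact mod_ext hL (hWm n) (subset_univ _) hp h fun g hg => ⟨mem_univ _, hG g hg⟩
  · -- gluing outside the cells
    set q : Set (M × M) := insert (c, d) (dg (F₀ ∪ ⋃ n ∈ N₀, (({a n, b n} : Finset M) : Set M)))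
      with hq
    have haq : ∀ n ∈ N₀, (a n, a n) ∈ q := fun n hn =>
      mem_insert_of_mem _ ⟨a n, Or.inr (mem_biUnion hn (by simp)), rfl⟩
    have hbq : ∀ n ∈ N₀, (b n, b n) ∈ q := fun n hn =>
      mem_insert_of_mem _ ⟨b n, Or.inr (mem_biUnion hn (by simp)), rfl⟩
    have h2 : BFR S S {z | ∀ n ∈ N₀, z ∈ W n → z = a n} {z | ∀ n ∈ N₀, z ∈ W n → z = a n} γ
        q := by
      refine BFR.restr (subset_univ _) (subset_univ _) om2 γ (fun x _ y _ hxy => ?_) h
      have h3 : ∀ n ∈ N₀, (x ∈ W n ↔ y ∈ W n) := fun n hn =>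
        node_congr hxy (mem_insert_of_mem _ (haq n hn)) (mem_insert_of_mem _ (hbq n hn))
          (mem_insert _ _)
      have h4 : ∀ n ∈ N₀, (x = a n ↔ y = a n) := fun n hn =>
        hxy.atEq.1 (x, y) (mem_insert _ _) (a n, a n) (mem_insert_of_mem _ (haq n hn))
      exact forall₂_congr fun n hn => by rw [h3 n hn, h4 n hn]
    have h5 : BFR S S {z | ∀ n ∈ N₀, z ∈ W n → z = a n} {z | ∀ n ∈ N₀, z ∈ W n → z = a n} γ
        (insert (c, d) (dg (F₀ ∪ {x | ∃ n ∈ N₀, x = a n}))) := by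
      refine BFR.anti ?_ h2
      rintro e (rfl | ⟨x, hx | ⟨n, hn, rfl⟩, rfl⟩)
      · exact mem_insert _ _
      · exact mem_insert_of_mem _ ⟨x, Or.inl hx, rfl⟩
      · exact haq n hn
    have hself : ∀ x ∈ F₀ ∪ {x | ∃ n ∈ N₀, x = a n}, ∀ n ∈ N₀, x ∈ W n → x = a n := by
      rintro x (hx | ⟨m, hm, rfl⟩) n hn hxn
      · exact absurd hxn ((h0 n hn).2.2 x hx)
      · by_cases hmn : m = n
        · rw [hmn]
        · exact absurd hxn (fun h' => (disjoint_left.mp (hW hmn)) (haW m) h')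
    have h6 := subst_modules hL N₀ W (fun n _ => hWm n) a (fun n _ => haW n) γ
      (p := insert (c, d) (dg (F₀ ∪ {x | ∃ n ∈ N₀, x = a n}))) (F := F₁) (by
        rintro e (rfl | ⟨x, hx, rfl⟩)
        · exact ⟨fun n hn h' => absurd h' (h0 n hn).1, fun n hn h' => absurd h' (h0 n hn).2.1⟩
        · exact ⟨hself x hx, hself x hx⟩)
      (fun n hn => mem_insert_of_mem _ ⟨a n, Or.inr ⟨n, hn, rfl⟩, rfl⟩) h1 h5
    refine BFR.anti ?_ h6
    rintro e (rfl | ⟨x, hx | hx, rfl⟩)
    · exact Or.inl ⟨mem_insert _ _, fun n hn => (h0 n hn).1⟩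
    · exact Or.inl ⟨mem_insert_of_mem _ ⟨x, Or.inl hx, rfl⟩, fun n hn => (h0 n hn).2.2 x hx⟩
    · exact Or.inr ⟨x, hx, rfl⟩
  · by_cases h1 : ∃ n, u ∈ W n ∧ v ∈ W n
    · exact ⟨u, ⟨hu, left_mem_node _ _⟩, v, ⟨hv, right_mem_node _ _⟩, huv, Or.inl h1⟩
    by_cases h2 : ∀ n, Disjoint (MD.node (bt S) u v) (W n)
    · exact ⟨u, ⟨hu, left_mem_node _ _⟩, v, ⟨hv, right_mem_node _ _⟩, huv, Or.inr h2⟩
    push Not at h2
    obtain ⟨n, hn⟩ := h2
    rw [not_disjoint_iff_nonempty_inter] at hn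
    rcases (isStrong_node (τ := bt S) u v).total (isStrong_node (a n) (b n)) hn with h3 | h3
    · exact absurd ⟨n, h3 (left_mem_node _ _), h3 (right_mem_node _ _)⟩ h1
    · exact ⟨a n, ⟨(hab n).1, h3 (haW n)⟩, b n, ⟨(hab n).2, h3 (hbW n)⟩, hc1 (s n),
        Or.inl ⟨n, haW n, hbW n⟩⟩

end

end Pool.Agent.Helper97.LO.TR

end

/-! ### formerly `Pool.Agent.Helper97.VCM.Tree6` -/

section

/-!
# Structures whose nodes form a chain
-/

set_option autoImplicit false
set_option linter.unusedSectionVars false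
set_option linter.unusedVariables false

namespace Pool.Agent.Helper97.LO.TR

open Set Pool.Agent.Helper5.DU Pool.Agent.Helper6.Str Pool.Agent.Helper79.VC
  Pool.Agent.Helper97.VC Pool.Agent.Helper97.MD

variable {L : FirstOrder.Language.{0, 0}} {M N P : Type}

/-- every nontrivial node which contains `z` contains `y` -/
def cle (S : L.Structure M) (y z : M) : Prop :=
  ∀ u v, u ≠ v → z ∈ MD.node (bt S) u v → y ∈ MD.node (bt S) u v

/-- the preorder of the chain of nodes -/
@[reducible] def chainPre (S : L.Structure M) : Preorder M where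
  le := cle S
  le_refl _ _ _ _ h := h
  le_trans _ _ _ hab hbc u v huv h := hab u v huv (hbc u v huv h)

/-- any two nontrivial nodes meet -/
def Meets (S : L.Structure M) : Prop :=
  ∀ u v u' v', u ≠ v → u' ≠ v' → (MD.node (bt S) u v ∩ MD.node (bt S) u' v').Nonempty

theorem Meets.total {S : L.Structure M} (h : Meets S) {u v u' v' : M} (h1 : u ≠ v)
    (h2 : u' ≠ v') : MD.node (bt S) u v ⊆ MD.node (bt S) u' v' ∨
      MD.node (bt S) u' v' ⊆ MD.node (bt S) u v :=
  (isStrong_node u v).total (isStrong_node u' v') (h u v u' v' h1 h2)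

theorem cle_total {S : L.Structure M} (h : Meets S) (a b : M) : cle S a b ∨ cle S b a := by
  by_contra hcon
  unfold cle at hcon
  push Not at hcon
  obtain ⟨⟨u, v, huv, hb, ha⟩, u', v', huv', ha', hb'⟩ := hcon
  rcases h.total huv huv' with h1 | h1
  · exact hb' (h1 hb)
  · exact ha (h1 ha')

theorem cle_congr {S : L.Structure M} {p : Set (M × M)} (h : BFR S S univ univ (om2 + 2) p)
    {y z y' z' : M} (hy : (y, y') ∈ p) (hz : (z, z') ∈ p) : cle S y z ↔ cle S y' z' := by
  have h12 : om2 + 1 < om2 + 2 := add_lt_add_right (by exact_mod_cast Nat.lt_succ_self 1) _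
  have h01 : om2 < om2 + 1 := lt_add_one_self _
  constructor
  · intro hyz u' v' huv hz'
    obtain ⟨u, -, h1⟩ := h.back h12 (mem_univ u')
    obtain ⟨v, -, h2⟩ := h1.back h01 (mem_univ v')
    have hu : (u, u') ∈ insert (v, v') (insert (u, u') p) :=
      mem_insert_of_mem _ (mem_insert _ _)
    have hv : (v, v') ∈ insert (v, v') (insert (u, u') p) := mem_insert _ _
    have hp : p ⊆ insert (v, v') (insert (u, u') p) :=
      (subset_insert _ _).trans (subset_insert _ _)
    have huv0 : u ≠ v := fun h' => huv ((h2.atEq.1 _ hu _ hv).mp h')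
    exact (node_congr h2 hu hv (hp hy)).mp
      (hyz u v huv0 ((node_congr h2 hu hv (hp hz)).mpr hz'))
  · intro hyz u v huv hz'
    obtain ⟨u', -, h1⟩ := h.forth h12 (mem_univ u)
    obtain ⟨v', -, h2⟩ := h1.forth h01 (mem_univ v)
    have hu : (u, u') ∈ insert (v, v') (insert (u, u') p) :=
      mem_insert_of_mem _ (mem_insert _ _)
    have hv : (v, v') ∈ insert (v, v') (insert (u, u') p) := mem_insert _ _
    have hp : p ⊆ insert (v, v') (insert (u, u') p) :=
      (subset_insert _ _).trans (subset_insert _ _)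
    have huv0 : u' ≠ v' := fun h' => huv ((h2.atEq.1 _ hu _ hv).mpr h')
    exact (node_congr h2 hu hv (hp hy)).mpr
      (hyz u' v' huv0 ((node_congr h2 hu hv (hp hz)).mp hz'))

/-- strictly below -/
def clt (S : L.Structure M) (a b : M) : Prop := cle S a b ∧ ¬ cle S b a

theorem bt_clt {S : L.Structure M} (h : Meets S) {a a' b : M} (ha : clt S a b)
    (ha' : clt S a' b) : bt S b a = bt S b a' := by
  obtain ⟨-, ha2⟩ := ha
  obtain ⟨-, ha2'⟩ := ha'
  unfold cle at ha2 ha2'
  push Not at ha2 ha2'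
  obtain ⟨u, v, huv, h1, h2⟩ := ha2
  obtain ⟨u', v', huv', h1', h2'⟩ := ha2'
  rcases h.total huv huv' with h3 | h3
  · exact module_bt (isStrong_node u' v').1 h2' (h3 h1) h1'
  · exact module_bt (isStrong_node u v).1 h2 h1 (h3 h1')

/-- the expansion by the chain of nodes -/
def chainExp (S : L.Structure M) : (expL L).Structure M :=
  expS S (fun R b => ∃ a, clt S a b ∧ S.RelMap R ![a, b])
    (fun R b => ∃ a, clt S a b ∧ S.RelMap R ![b, a]) (cle S)

theorem chainExp_left {S : L.Structure M} (h : Meets S) {a b : M} (hab : clt S a b)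
    (R : L.Relations 2) : (∃ a, clt S a b ∧ S.RelMap R ![a, b]) ↔ S.RelMap R ![a, b] := by
  constructor
  · rintro ⟨a', ha', hR⟩
    have h1 := bt_swap (bt_clt h ha' hab)
    exact (Set.ext_iff.mp (congrArg Prod.fst h1) R).mp hR
  · intro hR
    exact ⟨a, hab, hR⟩

theorem chainExp_right {S : L.Structure M} (h : Meets S) {a b : M} (hab : clt S a b)
    (R : L.Relations 2) : (∃ a, clt S a b ∧ S.RelMap R ![b, a]) ↔ S.RelMap R ![b, a] := by
  constructor
  · rintro ⟨a', ha', hR⟩
    have h1 := bt_clt h ha' hab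
    exact (Set.ext_iff.mp (congrArg Prod.fst h1) R).mp hR
  · intro hR
    exact ⟨a, hab, hR⟩

theorem chainExp_ost (hL : Ar2 L) {S : L.Structure M} (h : Meets S) :
    @OSt (expL L) M (chainPre S) (Sum.inr () : expR L 2) true (chainExp S) := by
  let _ := chainPre S
  refine ost_expS hL (fun a b => cle_total h a b) ?_
  intro a b a' b' hab hab' h1 h2 _ _
  have hab1 : clt S a b := ⟨hab.le, not_le_of_gt hab⟩
  have hab2 : clt S a' b' := ⟨hab'.le, not_le_of_gt hab'⟩
  refine bt_ext (fun R => ?_) (fun R => ?_)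
  · exact (chainExp_left h hab1 R).symm.trans ((h1 R).trans (chainExp_left h hab2 R))
  · exact (chainExp_right h hab1 R).symm.trans ((h2 R).trans (chainExp_right h hab2 R))

section

variable [∀ n, IsEmpty (L.Functions n)] [∀ n, Countable (L.Relations n)]
  {K : Set (L.Structure ℕ)} {δ : Ordinal.{0}} {S : L.Structure M}

theorem om2_add_three : om2 + 3 ≤ om2 + om2 := by
  gcongr
  exact_mod_cast (nat_lt_om2 3).le

theorem chainExp_vst (hL : Ar2 L) (hS : VSt K δ S) :
    ∃ (K' : Set ((expL L).Structure ℕ)) (δ' : Ordinal.{0}), VSt K' δ' (chainExp S) := by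
  have := hS.infinite
  refine hS.interp (S' := chainExp S) (e := id) Function.injective_id ∅
    (add_lt_om1 om2_lt om2_lt) ?_ ?_ ?_
  · intro c c' _
    simp
  · intro p hp h
    have h' : BFR S S univ univ (om2 + om2) p := by
      simpa using h
    have h3 : BFR S S univ univ (om2 + 3) p := h'.mono om2_add_three
    have h23 : om2 + 2 < om2 + 3 := add_lt_add_right (by exact_mod_cast Nat.lt_succ_self 2) _
    have hclt : ∀ {q : Set (M × M)}, BFR S S univ univ (om2 + 2) q → ∀ {y z y' z' : M},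
        (y, y') ∈ q → (z, z') ∈ q → (clt S y z ↔ clt S y' z') := by
      intro q hq y z y' z' hy hz
      unfold clt
      rw [cle_congr hq hy hz, cle_congr hq hz hy]
    unfold chainExp
    rw [atEq_expS hL]
    refine ⟨h3.atEq, fun a ha R => ?_, fun a ha R => ?_, fun a ha b hb =>
      cle_congr (h3.mono h23.le) ha hb⟩
    · constructor
      · rintro ⟨c, hc, hR⟩
        obtain ⟨c', -, h4⟩ := h3.forth h23 (mem_univ c)
        exact ⟨c', (hclt h4 (mem_insert _ _) (mem_insert_of_mem _ ha)).mp hc,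
          (relT_of_atEq h4.atEq (mem_insert _ _) (mem_insert_of_mem _ ha) R).mp hR⟩
      · rintro ⟨c, hc, hR⟩
        obtain ⟨c', -, h4⟩ := h3.back h23 (mem_univ c)
        exact ⟨c', (hclt h4 (mem_insert _ _) (mem_insert_of_mem _ ha)).mpr hc,
          (relT_of_atEq h4.atEq (mem_insert _ _) (mem_insert_of_mem _ ha) R).mpr hR⟩
    · constructor
      · rintro ⟨c, hc, hR⟩
        obtain ⟨c', -, h4⟩ := h3.forth h23 (mem_univ c)
        exact ⟨c', (hclt h4 (mem_insert _ _) (mem_insert_of_mem _ ha)).mp hc,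
          (relT_of_atEq h4.atEq (mem_insert_of_mem _ ha) (mem_insert _ _) R).mp hR⟩
      · rintro ⟨c, hc, hR⟩
        obtain ⟨c', -, h4⟩ := h3.back h23 (mem_univ c)
        exact ⟨c', (hclt h4 (mem_insert _ _) (mem_insert_of_mem _ ha)).mpr hc,
          (relT_of_atEq h4.atEq (mem_insert_of_mem _ ha) (mem_insert _ _) R).mpr hR⟩
  · intro p hp h G hG
    have hG' : G = ∅ := by
      ext g
      simp only [mem_empty_iff_false, iff_false]
      exact fun hg => hG g hg (by simp)
    subst hG'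
    have := ((atEq_expS hL).mp h).1
    simpa using this

/-- a graph without edges does not contain a subdivision -/
theorem not_hasTK_of_empty {V : Type} {G : SimpleGraph V} (hG : ∀ x y, ¬ G.Adj x y) :
    ¬ HasTK G := by
  rintro ⟨b, P, -, h1, -, -⟩
  have h2 := (h1 0 1 zero_lt_one).2
  rcases hP : P 0 1 with _ | ⟨x, l⟩
  · rw [hP] at h2
    simp only [List.nil_append, List.isChain_cons_cons] at h2
    exact hG _ _ h2.1
  · rw [hP] at h2
    simp only [List.cons_append, List.isChain_cons_cons] at h2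
    exact hG _ _ h2.1

/-- **The classes of the chain preorder are tame.** -/
theorem chain_class_tame (hL : Ar2 L) (hS : VSt K δ S) (hsp : SparsePrim S) (hM : Meets S)
    (y : M) : TameX (chainExp S) {z | cle S z y ∧ cle S y z} := by
  classical
  set X : Set M := {z | cle S z y ∧ cle S y z} with hX
  by_cases hXc : X.Countable
  · exact tameX_of_countable hXc
  have hXinf : X.Infinite := fun h => hXc h.countable
  have hyX : y ∈ X := ⟨fun _ _ _ h => h, fun _ _ _ h => h⟩
  obtain ⟨z, hzX, hzy⟩ : ∃ z ∈ X, z ≠ y := by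
    by_contra hcon
    push Not at hcon
    exact hXinf ((finite_singleton y).subset fun z hz => hcon z hz)
  set Q := MD.node (bt S) y z with hQ
  have hyz : y ≠ z := hzy.symm
  have hQs : IsStrong (bt S) Q := isStrong_node y z
  have hyQ : y ∈ Q := left_mem_node y z
  have hzQ : z ∈ Q := right_mem_node y z
  have hXQ : X ⊆ Q := fun w hw => hw.1 y z hyz hyQ
  -- nodes containing an element of `X`
  have hbig : ∀ w ∈ X, ∀ u v, u ≠ v → w ∈ MD.node (bt S) u v → Q ⊆ MD.node (bt S) u v := by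
    intro w hw u v huv hwn
    have h1 : y ∈ MD.node (bt S) u v := hw.2 u v huv hwn
    exact node_subset (isStrong_node u v) h1 (hzX.1 u v huv h1)
  have hQle : ∀ w ∈ Q, cle S w y := fun w hw u v huv h => hbig y hyX u v huv h hw
  have hXX : ∀ u ∈ X, ∀ v ∈ Q, u ≠ v → MD.node (bt S) u v = Q := by
    intro u hu v hv huv
    apply Subset.antisymm
    · exact node_subset hQs (hXQ hu) hv
    · exact hbig u hu u v huv (left_mem_node u v)
  have hCC : ∀ c ∈ Q, c ∉ X → ∀ c' ∈ Q, c' ∉ X → ∀ x ∈ X, x ∉ MD.node (bt S) c c' := by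
    intro c hc hcX c' hc' hcX' x hx hxn
    have h1 : ∀ c ∈ Q, c ∉ X → ∃ u v, u ≠ v ∧ c ∈ MD.node (bt S) u v ∧
        y ∉ MD.node (bt S) u v := by
      intro c hc hcX
      by_contra hcon
      push Not at hcon
      exact hcX ⟨hQle c hc, fun u v huv h => hcon u v huv h⟩
    obtain ⟨u, v, huv, hcu, hyu⟩ := h1 c hc hcX
    obtain ⟨u', v', huv', hcu', hyu'⟩ := h1 c' hc' hcX'
    rcases hM.total huv huv' with h3 | h3
    · have h4 : x ∈ MD.node (bt S) u' v' :=
        node_subset (isStrong_node u' v') (h3 hcu) hcu' hxn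
      exact hyu' (hbig x hx u' v' huv' h4 hyQ)
    · have h4 : x ∈ MD.node (bt S) u v :=
        node_subset (isStrong_node u v) hcu (h3 hcu') hxn
      exact hyu (hbig x hx u v huv h4 hyQ)
  -- the base point
  obtain ⟨c₀, hc₀⟩ : ∃ c₀ : M, (∃ c ∈ Q, c ∉ X) → c₀ ∈ Q ∧ c₀ ∉ X := by
    by_cases h : ∃ c ∈ Q, c ∉ X
    · obtain ⟨c, hc⟩ := h
      exact ⟨c, fun _ => hc⟩
    · exact ⟨y, fun h' => absurd h' h⟩
  have hbtC : ∀ g ∈ Q, g ∉ X → ∀ x ∈ X, bt S x g = bt S x c₀ := by
    intro g hg hgX x hx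
    obtain ⟨h1, h2⟩ := hc₀ ⟨g, hg, hgX⟩
    exact module_bt (isStrong_node g c₀).1 (hCC g hg hgX c₀ h1 h2 x hx) (left_mem_node g c₀)
      (right_mem_node g c₀)
  have hinfX : Infinite X := hXinf.to_subtype
  let E : (X → X → Prop) → (expL L).Structure X := fun le =>
    expS (pl S (Subtype.val : X → M)) (fun R x => S.RelMap R ![c₀, x.1])
      (fun R x => S.RelMap R ![x.1, c₀]) le
  have hη : om2 + om2 < om1 := add_lt_om1 om2_lt om2_lt
  have h2η : om2 + 2 ≤ om2 + om2 := by
    gcongr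
    exact_mod_cast (nat_lt_om2 2).le
  -- the expansions of `X`
  have hE1 : ∀ le : X → X → Prop, (∀ p : Set (X × X),
      AtEq S S ((fun a => (a.1.1, a.2.1)) '' p) → ∀ a ∈ p, ∀ b ∈ p, (le a.1 b.1 ↔ le a.2 b.2)) →
      ∃ (K' : Set ((expL L).Structure ℕ)) (δ' : Ordinal.{0}), VSt K' δ' (E le) := by
    intro le hle
    refine hS.interp (S' := E le) (e := Subtype.val) Subtype.val_injective {y, c₀} hη ?_ ?_ ?_
    · intro c c' h
      rw [Subtype.range_val]
      have hyp : (y, y) ∈ insert (c, c') (dg (({y, c₀} : Finset M) : Set M)) :=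
        mem_insert_of_mem _ ⟨y, by simp, rfl⟩
      have h' := h.mono h2η
      exact and_congr (cle_congr h' (mem_insert _ _) hyp) (cle_congr h' hyp (mem_insert _ _))
    · intro p hp h
      have h1 : AtEq S S ((fun a : X × X => (a.1.1, a.2.1)) '' p) :=
        AtEq.anti subset_union_left h.atEq
      have hcp : (c₀, c₀) ∈ (fun a : X × X => (a.1.1, a.2.1)) '' p ∪
          dg (({y, c₀} : Finset M) : Set M) := Or.inr ⟨c₀, by simp, rfl⟩
      show AtEq (expS _ _ _ _) (expS _ _ _ _) p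
      rw [atEq_expS hL]
      refine ⟨(atEq_pl Subtype.val_injective).mpr h1, fun a ha R => ?_, fun a ha R => ?_,
        hle p h1⟩
      · exact relT_of_atEq h.atEq hcp (Or.inl ⟨a, ha, rfl⟩) R
      · exact relT_of_atEq h.atEq (Or.inl ⟨a, ha, rfl⟩) hcp R
    · intro p hp h G hG
      have h0 := (atEq_expS hL).mp h
      obtain ⟨h1, h2, h3, -⟩ := h0
      rw [atEq_pl Subtype.val_injective] at h1
      refine atEq_of_pairs hL fun a ha b hb => ?_
      have hone : ∀ c ∈ (fun a : X × X => (a.1.1, a.2.1)) '' p ∪ dg G, AtEq S S {c} := by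
        rintro c (hc | ⟨g, hg, rfl⟩)
        · exact AtEq.anti (by rintro d rfl; exact hc) h1
        · exact atEq_refl S (by rintro d rfl; rfl)
      have hGX : ∀ g ∈ G, g ∉ X := by
        intro g hg
        have := hG g hg
        rwa [Subtype.range_val] at this
      have hcr : ∀ a ∈ p, ∀ g ∈ G, bt S a.1.1 g = bt S a.2.1 g := by
        intro a ha g hg
        by_cases hgQ : g ∈ Q
        · rw [hbtC g hgQ (hGX g hg) _ a.1.2, hbtC g hgQ (hGX g hg) _ a.2.2]
          exact bt_ext (h3 a ha) (h2 a ha)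
        · exact module_bt' hQs.1 hgQ (hXQ a.1.2) (hXQ a.2.2)
      rcases ha with ⟨a, ha, rfl⟩ | ⟨g, hg, rfl⟩ <;> rcases hb with ⟨b, hb, rfl⟩ | ⟨g', hg', rfl⟩
      · refine AtEq.anti ?_ h1
        rintro d (rfl | rfl)
        · exact ⟨a, ha, rfl⟩
        · exact ⟨b, hb, rfl⟩
      · refine atEq_pair hL (hone _ (Or.inl ⟨a, ha, rfl⟩)) (hone _ (Or.inr ⟨g', hg', rfl⟩)) ?_
          (hcr a ha g' hg')
        exact ⟨fun (h' : a.1.1 = g') => absurd (h' ▸ a.1.2) (hGX g' hg'),
          fun (h' : a.2.1 = g') => absurd (h' ▸ a.2.2) (hGX g' hg')⟩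
      · refine atEq_pair hL (hone _ (Or.inr ⟨g, hg, rfl⟩)) (hone _ (Or.inl ⟨b, hb, rfl⟩)) ?_
          (bt_swap (hcr b hb g hg))
        exact ⟨fun (h' : g = b.1.1) => absurd (h' ▸ b.1.2) (hGX g hg),
          fun (h' : g = b.2.1) => absurd (h' ▸ b.2.2) (hGX g hg)⟩
      · refine atEq_refl S ?_
        rintro d (rfl | rfl) <;> rfl
  -- tameness of an expansion suffices
  have hlow : ∀ b ∈ X, ∀ a, clt S a b ↔ a ∈ Q ∧ a ∉ X := by
    intro b hb a
    constructor
    · rintro ⟨h1, h2⟩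
      refine ⟨h1 y z hyz (hXQ hb), fun ha => h2 ?_⟩
      intro u v huv h3
      exact hb.1 u v huv (ha.2 u v huv h3)
    · rintro ⟨h1, h2⟩
      refine ⟨fun u v huv h3 => hQle a h1 u v huv (hb.2 u v huv h3), fun h3 => h2
        ⟨hQle a h1, fun u v huv h4 => hb.2 u v huv (h3 u v huv h4)⟩⟩
  have hE2 : ∀ le : X → X → Prop, TameX (E le) univ → TameX (chainExp S) X := by
    intro le hT
    have hT' : TameX (pl (chainExp S) (Subtype.val : X → M)) univ := by
      refine hT.reduct fun p hp _ h => ?_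
      obtain ⟨h1, h2, h3, -⟩ := (atEq_expS hL).mp h
      rw [atEq_pl Subtype.val_injective] at h1 ⊢
      unfold chainExp
      rw [atEq_expS hL]
      refine ⟨h1, ?_, ?_, ?_⟩
      · rintro _ ⟨a, ha, rfl⟩ R
        by_cases hC : ∃ c ∈ Q, c ∉ X
        · obtain ⟨hc1, hc2⟩ := hc₀ hC
          have e1 := chainExp_left hM ((hlow _ a.1.2 c₀).mpr ⟨hc1, hc2⟩) R
          have e2 := chainExp_left hM ((hlow _ a.2.2 c₀).mpr ⟨hc1, hc2⟩) R
          exact e1.trans ((h2 a ha R).trans e2.symm)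
        · constructor
          · rintro ⟨c, hc, -⟩
            exact absurd ⟨c, (hlow _ a.1.2 c).mp hc⟩ hC
          · rintro ⟨c, hc, -⟩
            exact absurd ⟨c, (hlow _ a.2.2 c).mp hc⟩ hC
      · rintro _ ⟨a, ha, rfl⟩ R
        by_cases hC : ∃ c ∈ Q, c ∉ X
        · obtain ⟨hc1, hc2⟩ := hc₀ hC
          have e1 := chainExp_right hM ((hlow _ a.1.2 c₀).mpr ⟨hc1, hc2⟩) R
          have e2 := chainExp_right hM ((hlow _ a.2.2 c₀).mpr ⟨hc1, hc2⟩) R
          exact e1.trans ((h3 a ha R).trans e2.symm)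
        · constructor
          · rintro ⟨c, hc, -⟩
            exact absurd ⟨c, (hlow _ a.1.2 c).mp hc⟩ hC
          · rintro ⟨c, hc, -⟩
            exact absurd ⟨c, (hlow _ a.2.2 c).mp hc⟩ hC
      · have hall : ∀ u ∈ X, ∀ v ∈ X, cle S u v := fun u hu v hv s t hst h =>
          hu.1 s t hst (hv.2 s t hst h)
        rintro _ ⟨a, ha, rfl⟩ _ ⟨b, hb, rfl⟩
        exact ⟨fun _ => hall _ a.2.2 _ b.2.2, fun _ => hall _ a.1.2 _ b.1.2⟩
    rw [tameX_pl Subtype.val_injective, image_univ, Subtype.range_val] at hT'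
    exact hT'
  -- the sparse case
  have hsparse : ∀ b : Set (L.Relations 2), ¬ HasTK (gr S X b) → TameX (chainExp S) X := by
    intro b hb
    refine hE2 (fun _ _ => True) ?_
    obtain ⟨K', δ', hV⟩ := hE1 (fun _ _ => True) (fun _ _ _ _ _ _ => Iff.rfl)
    let b' : Set (expR L 2) := {R | match R with
      | Sum.inl R => R ∈ b
      | Sum.inr _ => True}
    refine sp (ar2_expL (L := L)) hV b' fun hTK => hb ?_
    refine hasTK_map (f := Subtype.val) Subtype.val_injective (fun u v huv => ?_) hTK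
    obtain ⟨h1, -, -, h2⟩ := huv
    refine ⟨fun h => h1 (Subtype.ext h), u.2, v.2, fun h3 => h2 ?_⟩
    have h4 : ∀ R, S.RelMap R ![u.1, v.1] ↔ R ∈ b :=
      fun R => Set.ext_iff.mp (congrArg Prod.fst h3) R
    have h5 : ∀ R, S.RelMap R ![v.1, u.1] ↔ R ∈ b :=
      fun R => Set.ext_iff.mp (congrArg Prod.snd h3) R
    have key : ∀ u v : X, (∀ R, S.RelMap R ![u.1, v.1] ↔ R ∈ b) →
        ∀ R : expR L 2, (E fun _ _ => True).RelMap (n := 2) R ![u, v] ↔ R ∈ b' := by
      intro u v huv R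
      match R with
      | Sum.inl R =>
        have e1 : (fun i => (![u, v] i).1) = ![u.1, v.1] := by
          funext i; fin_cases i <;> rfl
        show S.RelMap R (fun i => (![u, v] i).1) ↔ R ∈ b
        rw [e1]
        exact huv R
      | Sum.inr _ => exact Iff.rfl
    exact Prod.ext (Set.ext (key u v h4)) (Set.ext (key v u h5))
  rcases trichotomy (rev_bt S) hyz with ⟨a, ha⟩ | ⟨a, ha1, ha2⟩ | hprim
  · -- complete
    refine hsparse a.1 (not_hasTK_of_empty ?_)
    rintro u v ⟨h1, h2, h3, h4⟩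
    have h5 := ha u v (hXX u h2 v (hXQ h3) h1)
    have h6 := ha v u (hXX v h3 u (hXQ h2) h1.symm)
    apply h4
    have h7 : bt S v u = ((bt S u v).2, (bt S u v).1) := rfl
    rw [h6, h5] at h7
    rw [h5]
    exact Prod.ext rfl (congrArg Prod.fst h7).symm
  · -- linear
    refine hE2 (fun u v => u = v ∨ bt S u.1 v.1 = a) ?_
    obtain ⟨K', δ', hV⟩ := hE1 (fun u v => u = v ∨ bt S u.1 v.1 = a) (fun p hp c hc d hd => by
      have h1 : c.1 = d.1 ↔ c.2 = d.2 := by
        have := hp.1 _ ⟨c, hc, rfl⟩ _ ⟨d, hd, rfl⟩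
        simpa [Subtype.ext_iff] using this
      have h2 : bt S c.1.1 d.1.1 = bt S c.2.1 d.2.1 :=
        bt_eq_of_atEq hp ⟨c, hc, rfl⟩ ⟨d, hd, rfl⟩
      simp only [h1, h2])
    let _ : Preorder X :=
      { le := fun u v => u = v ∨ bt S u.1 v.1 = a
        le_refl := fun u => Or.inl rfl
        le_trans := by
          rintro u v w (rfl | huv) (rfl | hvw)
          · exact Or.inl rfl
          · exact Or.inr hvw
          · exact Or.inr huv
          · by_cases h1 : u = v
            · rw [h1]; exact Or.inr hvw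
            by_cases h2 : v = w
            · rw [← h2]; exact Or.inr huv
            exact Or.inr (ha2 u.1 v.1 w.1
              (hXX u.1 u.2 v.1 (hXQ v.2) (fun h => h1 (Subtype.ext h)))
              (hXX v.1 v.2 w.1 (hXQ w.2) (fun h => h2 (Subtype.ext h))) huv hvw).2 }
    have hle : ∀ u v : X, u ≤ v ↔ (u = v ∨ bt S u.1 v.1 = a) := fun u v => Iff.rfl
    have hlt : ∀ u v : X, u < v → bt S u.1 v.1 = a := by
      intro u v huv
      rcases (hle u v).mp huv.le with h | h
      · exact absurd h (ne_of_lt huv)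
      · exact h
    refine ls (ar2_expL (L := L)) hV (r := (Sum.inr () : expR L 2)) (o := true) ?_ ?_
    · refine ost_expS hL (fun u v => ?_) ?_
      · by_cases h1 : u = v
        · exact Or.inl (Or.inl h1)
        · rcases ha1 u.1 v.1 (hXX u.1 u.2 v.1 (hXQ v.2) (fun h => h1 (Subtype.ext h))) with h | h
          · exact Or.inl (Or.inr h.1)
          · exact Or.inr (Or.inr h.1)
      · intro u v u' v' huv huv' _ _ _ _
        rw [bt_pl, bt_pl, hlt u v huv, hlt u' v' huv']
    · intro u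
      refine tameX_of_countable ((countable_singleton u).mono ?_)
      rintro v ⟨h1, h2⟩
      by_contra hne
      have hne' : v.1 ≠ u.1 := fun h => hne (Subtype.ext h)
      rcases (hle v u).mp h1 with h3 | h3
      · exact hne h3
      rcases (hle u v).mp h2 with h4 | h4
      · exact hne h4.symm
      rcases ha1 v.1 u.1 (hXX v.1 v.2 u.1 (hXQ u.2) hne') with h5 | h5
      · exact h5.2 h4
      · exact h5.2 h3
  · -- primitive
    have hself : ∀ x ∈ X, MD.node (bt S) x x ≠ Q := by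
      intro x hx h
      rw [node_self] at h
      have h1 : y ∈ ({x} : Set M) := h ▸ hyQ
      have h2 : z ∈ ({x} : Set M) := h ▸ hzQ
      exact hyz ((show y = x from h1).trans (show z = x from h2).symm)
    obtain ⟨R, hXR, hRt⟩ : ∃ R, X ⊆ R ∧ IsTransversal (bt S) Q R := by
      by_cases hC : ∃ c ∈ Q, c ∉ X
      · obtain ⟨hc1, hc2⟩ := hc₀ hC
        refine ⟨insert c₀ X, subset_insert _ _, ?_, ?_⟩
        · rintro w (rfl | hw)
          · exact hc1
          · exact hXQ hw
        · intro w hw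
          by_cases hwX : w ∈ X
          · refine ⟨w, mem_insert_of_mem _ hwX, hself w hwX, ?_⟩
            rintro r' (rfl | hr') hne
            · exact absurd (hXX w hwX _ hc1 (fun h => hc2 (h ▸ hwX))) hne
            · by_contra hcon
              exact hne (hXX w hwX r' (hXQ hr') (fun h => hcon h.symm))
          · refine ⟨c₀, mem_insert _ _, ?_, ?_⟩
            · intro h
              exact hCC w hw hwX c₀ hc1 hc2 y hyX (h ▸ hyQ)
            · rintro r' (rfl | hr') hne
              · rfl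
              · refine absurd ?_ hne
                rw [node_comm]
                exact hXX r' hr' w hw (fun h => hwX (h ▸ hr'))
      · push Not at hC
        refine ⟨X, Subset.rfl, hXQ, fun w hw => ⟨w, hC w hw, hself w (hC w hw), ?_⟩⟩
        intro r' hr' hne
        by_contra hcon
        exact hne (hXX w (hC w hw) r' (hXQ hr') (fun h => hcon h.symm))
    obtain ⟨b, hb⟩ := hsp R (hXinf.mono hXR) (hprim R hRt)
    refine hsparse b fun hTK => hb ?_
    refine hasTK_map (G := gr S X b) (G' := gr S R b) (f := id) Function.injective_id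
      (fun u v huv => ?_) hTK
    exact ⟨huv.1, hXR huv.2.1, hXR huv.2.2.1, huv.2.2.2⟩

/-- **Chains of nodes.** -/
theorem tame_of_meets (hL : Ar2 L) (hS : VSt K δ S) (hsp : SparsePrim S) (hM : Meets S) :
    TameX S univ := by
  obtain ⟨K', δ', hV⟩ := chainExp_vst hL hS
  let _ := chainPre S
  have h1 : TameX (chainExp S) univ := ls (ar2_expL (L := L)) hV (chainExp_ost hL hM)
    fun y => chain_class_tame hL hS hsp hM y
  refine h1.reduct fun p _ _ hp => ?_
  exact ((atEq_expS hL).mp hp).1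

/-- **Main theorem on large structures.** -/
theorem tree' (hL : Ar2 L) (hS : VSt K δ S) (hsp : SparsePrim S) : TameX S univ := by
  by_contra hnt
  -- the case of unbounded Scott levels
  have h1 : ¬ ∀ x y, ¬ TN S x y → ∀ ρ < om1, ∃ u ∈ MD.node (bt S) x y,
      ∃ v ∈ MD.node (bt S) x y, TN S u v ∧ ¬ SL S (MD.node (bt S) u v) ρ :=
    fun h => hnt (tame_of_unbounded hL hS h)
  push Not at h1
  obtain ⟨x, y, hxy, ρ, hρ, h2⟩ := h1
  -- restriction to a node
  obtain ⟨K1, δ1, hV1⟩ := vst_node hL hS hxy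
  set Q := MD.node (bt S) x y with hQ
  have hQs : IsStrong (bt S) Q := isStrong_node x y
  let S1 := pl S (Subtype.val : Q → M)
  have hsp1 : SparsePrim S1 := SparsePrim.pl hsp Subtype.val_injective
  have hnt1 : ¬ TameX S1 univ := by
    intro h
    have h3 : TameX S (Subtype.val '' (univ : Set Q)) := (tameX_pl Subtype.val_injective).mp h
    rw [image_univ, Subtype.range_val] at h3
    exact hxy h3
  have hA : ∀ u v : Q, TN S1 u v → SL S1 (MD.node (bt S1) u v) ρ := by
    intro u v huv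
    have h3 : TameX S (Subtype.val '' MD.node (bt S1) u v) :=
      (tameX_pl Subtype.val_injective).mp huv
    rw [node_pl hQs] at h3
    have h4 := h2 u.1 u.2 v.1 v.2 h3
    rw [SL_pl Subtype.val_injective, node_pl hQs]
    exact h4
  -- the quotient
  obtain ⟨M2, S2, K2, δ2, hV2, hsp2, hnt2, hT2⟩ := exists_quotient hL hV1 hρ hA hsp1 hnt1
  -- a chain of nodes
  obtain ⟨a, b, hab, hmeet⟩ := exists_meeting (ar2_quoL (L := L)) hV2 hT2
  obtain ⟨K3, δ3, hV3⟩ := vst_node (ar2_quoL (L := L)) hV2 (hT2 a b hab)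
  set Q2 := MD.node (bt S2) a b with hQ2
  have hQ2s : IsStrong (bt S2) Q2 := isStrong_node a b
  have hsp3 : SparsePrim (pl S2 (Subtype.val : Q2 → M2)) :=
    SparsePrim.pl hsp2 Subtype.val_injective
  have hM3 : Meets (pl S2 (Subtype.val : Q2 → M2)) := by
    intro u v u' v' huv huv'
    obtain ⟨w, hw1, hw2⟩ := hmeet u.1 v.1 u'.1 v'.1 u.2 v.2 u'.2 v'.2
      (fun h => huv (Subtype.ext h)) (fun h => huv' (Subtype.ext h))
    rw [← node_pl hQ2s u v] at hw1
    rw [← node_pl hQ2s u' v'] at hw2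
    obtain ⟨c, hc, rfl⟩ := hw1
    obtain ⟨c', hc', hcc⟩ := hw2
    exact ⟨c, hc, Subtype.ext hcc ▸ hc'⟩
  have h5 := tame_of_meets (ar2_quoL (L := L)) hV3 hsp3 hM3
  have h6 : TameX S2 (Subtype.val '' (univ : Set Q2)) := (tameX_pl Subtype.val_injective).mp h5
  rw [image_univ, Subtype.range_val] at h6
  exact hT2 a b hab h6

end

end Pool.Agent.Helper97.LO.TR

end

/-! ### formerly `Pool.Agent.Helper97.VCM.Fin` -/

section

/-!
# The dichotomy for classes with sparse primitive substructures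
-/

set_option autoImplicit false
set_option linter.unusedSectionVars false
set_option linter.unusedVariables false

namespace Pool.Agent.Helper97.LO.TR

open Set Pool.Agent.Helper5 Pool.Agent.Helper5.DU Pool.Agent.Helper6.Str
  Pool.Agent.Helper79.VC Pool.Agent.Helper97.VC Pool.Agent.Helper97.MD Pool.Agent.Helper6.VC

variable {L : FirstOrder.Language.{0, 0}}

theorem ClosedLev.mono' {K : Set (L.Structure ℕ)} {d d' : Ordinal.{0}} (h : ClosedLev K d)
    (hd : d ≤ d') : ClosedLev K d' :=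
  fun S hS S' hSS => h S hS S' (hSS.mono hd)

/-- the main theorem for classes of structures on the natural numbers -/
theorem main_sparsePrim [∀ n, IsEmpty (L.Functions n)] [∀ n, Countable (L.Relations n)]
    (hL : Ar2 L) (K : Set (L.Structure ℕ)) (hK : MeasurableSet {c : Code L | toStr c ∈ K})
    (d : Ordinal.{0}) (hd : d < om1) (hcl : ClosedLev K d) (hsp : ∀ S ∈ K, SparsePrim S)
    (hP : ¬ PerfK K) : CtblK K := by
  by_contra hC
  have hS := scat_of_not_perf hK hP
  obtain ⟨M, S, hlev, hNT⟩ := exists_model hK hS hd hcl hC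
  have hV : VSt K (max d om2) S :=
    ⟨hK, hS, max_lt hd om2_lt, le_max_right _ _, ClosedLev.mono' hcl (le_max_left _ _), hlev⟩
  exact not_noCtblType (tree' hL hV (sparsePrim_reflect hL hV hsp)) hNT

/-- **The main dichotomy.** -/
theorem dichotomy_of_sparsePrim (hc : Countable L.Symbols) (hrel : ∀ n, IsEmpty (L.Functions n))
    (hL : ∀ n, n ≠ 1 → n ≠ 2 → IsEmpty (L.Relations n)) (T : L.Theory) (φ : FmI L 0)
    (h : ∀ S : L.Structure ℕ, IsMod T φ S → SparsePrim S) :
    (∃ g : ℕ → L.Structure ℕ, ∀ S : L.Structure ℕ, IsMod T φ S →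
        ∃ n : ℕ, Nonempty (@FirstOrder.Language.Equiv L ℕ ℕ S (g n))) ∨
    (∃ f : (ℕ → Bool) → L.Structure ℕ, (∀ x : ℕ → Bool, IsMod T φ (f x)) ∧
        (∀ x y : ℕ → Bool,
            Nonempty (@FirstOrder.Language.Equiv L ℕ ℕ (f x) (f y)) → x = y) ∧
        (∀ (n : ℕ) (R : L.Relations n) (a : Fin n → ℕ),
            IsClopen {x : ℕ → Bool | @FirstOrder.Language.Structure.RelMap L ℕ (f x) n R a})) := by
  have hcr : ∀ n, Countable (L.Relations n) := countable_relations hc
  let K : Set (L.Structure ℕ) := {S | IsMod T φ S}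
  obtain ⟨hK, d, hd, hcl⟩ := exists_level hc T φ (K := K) fun S => Iff.rfl
  by_cases hP : PerfK K
  · obtain ⟨f, hf1, hf2, hf3⟩ := hP
    exact Or.inr ⟨f, hf1, fun x y h => hf2 x y ((nonempty_equiv_iff _ _).mp h), hf3⟩
  · obtain ⟨g, hg⟩ := main_sparsePrim hL K hK d hd hcl (fun S hS => h S hS) hP
    refine Or.inl ⟨g, fun S h1 => ?_⟩
    obtain ⟨n, hn⟩ := hg S h1
    exact ⟨n, (nonempty_equiv_iff S (g n)).mpr hn⟩

end Pool.Agent.Helper97.LO.TR

end

/-! ### formerly `Pool.Agent.T2.Exp` -/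

section

/-!
# T2, module EXP: expansions of definable pieces by unary predicates and a binary relation
-/

set_option autoImplicit false
set_option linter.unusedSectionVars false
set_option linter.unusedVariables false

namespace Pool.Agent.Helper97.LO

open Set Pool.Agent.Helper5.DU Pool.Agent.Helper6.Str Pool.Agent.Helper79.VC
  Pool.Agent.Helper97.VC Pool.Agent.Helper97.MD

variable {L : FirstOrder.Language.{0, 0}} {M N P : Type}

/-- atomic equivalence of a pulled back structure -/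
theorem Exp.atEq_pl' [∀ n, IsEmpty (L.Functions n)] {S : L.Structure M} {e : N → M}
    (he : Function.Injective e) {p : Set (N × N)} : AtEq (pl S e) (pl S e) p ↔
      AtEq S S ((fun a => (e a.1, e a.2)) '' p) := by
  constructor
  · rintro ⟨h1, h2⟩
    refine ⟨?_, fun n R v hv => ?_⟩
    · rintro _ ⟨a, ha, rfl⟩ _ ⟨b, hb, rfl⟩
      simp only [he.eq_iff]
      exact h1 a ha b hb
    · choose w hw hwv using hv
      have := h2 n R w hw
      have e1 : (fun i => (v i).1) = fun i => e (w i).1 := by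
        funext i; rw [← hwv i]
      have e2 : (fun i => (v i).2) = fun i => e (w i).2 := by
        funext i; rw [← hwv i]
      rw [e1, e2]
      exact this
  · rintro ⟨h1, h2⟩
    refine ⟨fun a ha b hb => ?_, fun n R v hv => ?_⟩
    · have := h1 _ ⟨a, ha, rfl⟩ _ ⟨b, hb, rfl⟩
      simp only [he.eq_iff] at this
      exact this
    · exact h2 n R (fun i => (e (v i).1, e (v i).2)) fun i => ⟨v i, hv i, rfl⟩

section

variable [∀ n, IsEmpty (L.Functions n)] [∀ n, Countable (L.Relations n)]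
  {K : Set (L.Structure ℕ)} {δ : Ordinal.{0}} {S : L.Structure M}
  {G : Type} [Monoid G] [Preorder M] {r : L.Relations 2} {o : Bool} {lab : M → M → G}

/-! ## MODULE EXP: expansions of definable pieces -/

/-- **Expansions of definable pieces.** -/
theorem VSt.piece {C : Type} [Countable C] (hL : Ar2 L) (hS : VSt K δ S) (X : Set M)
    [Infinite X] (dat : M → C) (rel : M → M → Prop) (F : Finset M) {η : Ordinal.{0}}
    (hη : η < om1)
    (hX : ∀ c c', BFR S S univ univ η (insert (c, c') (dg (F : Set M))) → (c ∈ X ↔ c' ∈ X))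
    (hdat : ∀ z ∈ X, ∀ z' ∈ X, BFR S S univ univ η (insert (z, z') (dg (F : Set M))) →
      dat z = dat z')
    (hrel : ∀ z ∈ X, ∀ w ∈ X, ∀ z' ∈ X, ∀ w' ∈ X,
      BFR S S univ univ η (insert (z, z') (insert (w, w') (dg (F : Set M)))) →
      (rel z w ↔ rel z' w'))
    (hout : ∀ g, g ∉ X → ∀ z ∈ X, ∀ z' ∈ X, dat z = dat z' → AtEq S S {(z, z')} →
      AtEq S S {(g, g), (z, z')}) :
    ∃ (K' : Set ((EL L C).Structure ℕ)) (δ' : Ordinal.{0}),
      VSt K' δ' (exS (pl S (Subtype.val : X → M)) (fun z => dat z.1) fun z w => rel z.1 w.1) := by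
  refine hS.interp (S' := exS (pl S (Subtype.val : X → M)) (fun z => dat z.1)
    fun z w => rel z.1 w.1) (e := Subtype.val) Subtype.val_injective F hη ?_ ?_ ?_
  · intro c c' h
    rw [Subtype.range_val]
    exact hX c c' h
  · intro p hp h
    have h1 : AtEq S S ((fun a : X × X => (a.1.1, a.2.1)) '' p) :=
      AtEq.anti subset_union_left h.atEq
    rw [atEq_exS]
    refine ⟨(Exp.atEq_pl' Subtype.val_injective).mpr h1, fun a ha => ?_, fun a ha b hb => ?_⟩
    · refine hdat _ a.1.2 _ a.2.2 (BFR.anti ?_ h)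
      rintro c (rfl | hc)
      · exact Or.inl ⟨a, ha, rfl⟩
      · exact Or.inr hc
    · refine hrel _ a.1.2 _ b.1.2 _ a.2.2 _ b.2.2 (BFR.anti ?_ h)
      rintro c (rfl | rfl | hc)
      · exact Or.inl ⟨a, ha, rfl⟩
      · exact Or.inl ⟨b, hb, rfl⟩
      · exact Or.inr hc
  · intro p hp h Q hQ
    obtain ⟨h1, h2, h3⟩ := atEq_exS.mp h
    rw [Exp.atEq_pl' Subtype.val_injective] at h1
    have hQX : ∀ g ∈ Q, g ∉ X := by
      intro g hg
      have := hQ g hg
      rwa [Subtype.range_val] at this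
    have hcr : ∀ a ∈ p, ∀ g ∈ Q, AtEq S S {(g, g), (a.1.1, a.2.1)} := by
      intro a ha g hg
      refine hout g (hQX g hg) _ a.1.2 _ a.2.2 (h2 a ha) (AtEq.anti ?_ h1)
      rintro d rfl
      exact ⟨a, ha, rfl⟩
    refine atEq_of_pairs hL fun a ha b hb => ?_
    rcases ha with ⟨a, ha, rfl⟩ | ⟨g, hg, rfl⟩ <;> rcases hb with ⟨b, hb, rfl⟩ | ⟨g', hg', rfl⟩
    · refine AtEq.anti ?_ h1
      rintro d (rfl | rfl)
      · exact ⟨a, ha, rfl⟩
      · exact ⟨b, hb, rfl⟩
    · refine AtEq.anti ?_ (hcr a ha g' hg')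
      rintro d (rfl | rfl)
      · exact Or.inr rfl
      · exact Or.inl rfl
    · refine AtEq.anti ?_ (hcr b hb g hg)
      rintro d (rfl | rfl)
      · exact Or.inl rfl
      · exact Or.inr rfl
    · refine TR.atEq_refl S ?_
      rintro d (rfl | rfl) <;> rfl

/-- **Expansions by definable unary predicates and a definable binary relation.** -/
theorem VSt.expandAll {C : Type} [Countable C] (hL : Ar2 L) (hS : VSt K δ S) (dat : M → C)
    (rel : M → M → Prop) (F : Finset M) {η : Ordinal.{0}} (hη : η < om1)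
    (hdat : ∀ z z', BFR S S univ univ η (insert (z, z') (dg (F : Set M))) → dat z = dat z')
    (hrel : ∀ z w z' w', BFR S S univ univ η (insert (z, z') (insert (w, w') (dg (F : Set M)))) →
      (rel z w ↔ rel z' w')) :
    ∃ (K' : Set ((EL L C).Structure ℕ)) (δ' : Ordinal.{0}), VSt K' δ' (exS S dat rel) := by
  have := hS.infinite
  refine hS.interp (S' := exS S dat rel) (e := id) Function.injective_id F hη ?_ ?_ ?_
  · intro c c' _
    simp
  · intro p hp h
    have h' : BFR S S univ univ η (p ∪ dg (F : Set M)) := by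
      simpa using h
    rw [atEq_exS]
    refine ⟨AtEq.anti subset_union_left h'.atEq, fun a ha => ?_, fun a ha b hb => ?_⟩
    · refine hdat _ _ (BFR.anti ?_ h')
      rintro c (rfl | hc)
      · exact Or.inl ha
      · exact Or.inr hc
    · refine hrel _ _ _ _ (BFR.anti ?_ h')
      rintro c (rfl | rfl | hc)
      · exact Or.inl ha
      · exact Or.inl hb
      · exact Or.inr hc
  · intro p hp h Q hQ
    have hQ' : Q = ∅ := by
      ext g
      simp only [mem_empty_iff_false, iff_false]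
      exact fun hg => hQ g hg (by simp)
    subst hQ'
    have := (atEq_exS.mp h).1
    simpa using this

omit [∀ n, Countable (L.Relations n)] in
/-- the restriction of a labelled sum to a piece, with expansions -/
theorem LSt.piece {C : Type} (hL : Ar2 L) (hO : LSt r o lab S) (X : Set M) (dat : M → C)
    (rel : M → M → Prop) (hrel : ∀ a b a' b' : M, a < b → a' < b' → AtEq S S {(a, a'), (b, b')} →
      dat a = dat a' → dat b = dat b' → (rel a b ↔ rel a' b') ∧ (rel b a ↔ rel b' a')) :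
    LSt (old (C := C) r) o (fun a b : X => lab a.1 b.1)
      (exS (pl S (Subtype.val : X → M)) (fun z => dat z.1) fun z w => rel z.1 w.1) := by
  have key : ∀ a b : X, (exS (pl S (Subtype.val : X → M)) (fun z => dat z.1)
      fun z w => rel z.1 w.1).RelMap (old (C := C) r) ![a, b] ↔ S.RelMap r ![a.1, b.1] := by
    intro a b
    have e1 : (fun i => ((![a, b] : Fin 2 → X) i).1) = ![a.1, b.1] := by
      funext i
      fin_cases i <;> rfl
    show S.RelMap r (fun i => ((![a, b] : Fin 2 → X) i).1) ↔ _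
    rw [e1]
  have hpl1 : ∀ a a' : X, AtEq (exS (pl S (Subtype.val : X → M)) (fun z => dat z.1)
      fun z w => rel z.1 w.1) (exS (pl S (Subtype.val : X → M)) (fun z => dat z.1)
      fun z w => rel z.1 w.1) {(a, a')} → AtEq S S {(a.1, a'.1)} := by
    intro a a' h
    have h1 := (atEq_exS.mp h).1
    rw [Exp.atEq_pl' Subtype.val_injective] at h1
    refine AtEq.anti ?_ h1
    rintro d rfl
    exact ⟨(a, a'), rfl, rfl⟩
  refine ⟨fun a b => hO.total a.1 b.1, fun a b => ?_, fun a b h1 h2 => hO.one a.1 b.1 h1 h2,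
    fun a b c h1 h2 => hO.mul a.1 b.1 c.1 h1 h2, fun a b a' b' hab h => ?_,
    fun a b a' b' hab hab' hl ha hb => ?_⟩
  · have h1 := hO.le_iff a.1 b.1
    refine (show a ≤ b ↔ a.1 ≤ b.1 from Iff.rfl).trans (h1.trans ?_)
    cases o
    · exact (key b a).symm
    · exact (key a b).symm
  · refine hO.inv a.1 b.1 a'.1 b'.1 hab ?_
    have h1 := (atEq_exS.mp h).1
    rw [Exp.atEq_pl' Subtype.val_injective] at h1
    refine AtEq.anti ?_ h1
    rintro d (rfl | rfl)
    · exact ⟨(a, a'), Or.inl rfl, rfl⟩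
    · exact ⟨(b, b'), Or.inr rfl, rfl⟩
  · have h1 : AtEq S S {(a.1, a'.1), (b.1, b'.1)} :=
      hO.cross a.1 b.1 a'.1 b'.1 hab hab' hl (hpl1 a a' ha) (hpl1 b b' hb)
    obtain ⟨-, da, ra⟩ := atEq_exS.mp ha
    obtain ⟨-, db, rb⟩ := atEq_exS.mp hb
    have da' : dat a.1 = dat a'.1 := da (a, a') rfl
    have db' : dat b.1 = dat b'.1 := db (b, b') rfl
    obtain ⟨r1, r2⟩ := hrel a.1 b.1 a'.1 b'.1 hab hab' h1 da' db'
    rw [atEq_exS, Exp.atEq_pl' Subtype.val_injective]
    refine ⟨?_, ?_, ?_⟩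
    · rwa [image_pair]
    · rintro c (rfl | rfl)
      · exact da'
      · exact db'
    · rintro c (rfl | rfl) d (rfl | rfl)
      · exact ra (a, a') rfl (a, a') rfl
      · exact r1
      · exact r2
      · exact rb (b, b') rfl (b, b') rfl

end

end Pool.Agent.Helper97.LO

end

/-! ### formerly `Pool.Agent.VLin.Defs` -/

section

/-!
# Linear clique-width: definitions
-/

set_option autoImplicit false
set_option linter.unusedSectionVars false
set_option linter.unusedVariables false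

namespace Pool.Agent.Helper97.LO

open Set Pool.Agent.Helper5.DU Pool.Agent.Helper6.Str Pool.Agent.Helper79.VC
  Pool.Agent.Helper97.VC Pool.Agent.Helper97.MD

variable {L : FirstOrder.Language.{0, 0}} {M N P : Type} {A Γ : Type}

/-! ### definable sets, countably many types -/

/-- `X` has countably many full types over every finite set. -/
def TT (S : L.Structure M) (X : Set M) : Prop :=
  ∀ F : Finset M, ∃ κ : M → ℕ, ∀ c ∈ X, ∀ c' ∈ X, κ c = κ c' →
    BFI S S univ univ (insert (c, c') (dg (F : Set M)))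

/-- definable subsets (over a finite set, at a countable level) -/
def Dfb (S : L.Structure M) (X : Set M) : Prop :=
  ∃ (F : Finset M) (η : Ordinal.{0}), η < om1 ∧ ∀ c c',
    BFR S S univ univ η (insert (c, c') (dg (F : Set M))) → (c ∈ X ↔ c' ∈ X)

/-- definable functions on `M` -/
def DfbC {C : Type} (S : L.Structure M) (dat : M → C) : Prop :=
  ∃ (F : Finset M) (η : Ordinal.{0}), η < om1 ∧ ∀ c c',
    BFR S S univ univ η (insert (c, c') (dg (F : Set M))) → dat c = dat c'

/-- definable binary relations -/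
def Dfb2 (S : L.Structure M) (R : M → M → Prop) : Prop :=
  ∃ (F : Finset M) (η : Ordinal.{0}), η < om1 ∧ ∀ x y x' y',
    BFR S S univ univ η (insert (x, x') (insert (y, y') (dg (F : Set M)))) → (R x y ↔ R x' y')

/-- The relations of elements of `X` to elements outside `X` are given by the unary types. -/
def Auto (S : L.Structure M) (X : Set M) : Prop :=
  ∀ g, g ∉ X → ∀ z ∈ X, ∀ z' ∈ X, AtEq S S {(z, z')} → AtEq S S {(g, g), (z, z')}

/-- The labelling `τ` of the pairs is determined by the atomic type, and the atomic type of a pair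
is determined by its label and the unary types. -/
structure Lbl (S : L.Structure M) (τ : M → M → A) (rv : A → A) : Prop where
  rev : ∀ x y, τ y x = rv (τ x y)
  inv : ∀ x y x' y', AtEq S S {(x, x'), (y, y')} → τ x y = τ x' y'
  det : ∀ x y x' y', x ≠ y → x' ≠ y' → AtEq S S {(x, x')} → AtEq S S {(y, y')} →
    τ x y = τ x' y' → AtEq S S {(x, x'), (y, y')}

/-- `X` and its complement have at most `k` different rows over each other -/
def CutK (τ : M → M → A) (X : Set M) (k : ℕ) : Prop :=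
  (∃ r : M → Fin k, ∀ x ∈ X, ∀ x' ∈ X, r x = r x' → ∀ g, g ∉ X → τ x g = τ x' g) ∧
  ∃ r : M → Fin k, ∀ g, g ∉ X → ∀ g', g' ∉ X → r g = r g' → ∀ x ∈ X, τ x g = τ x g'

/-! ### closures -/

namespace PS

variable (τ : M → M → A) (c : M → Γ) (m : Γ → Γ → A)

/-- the pair `x`, `y` does not follow the matrix -/
def Arr (x y : M) : Prop := x ≠ y ∧ τ x y ≠ m (c x) (c y)

/-- the closure of `x` -/
def Cl (x : M) : Set M := {y | Relation.ReflTransGen (Arr τ c m) x y}

/-- the strong component of `x` -/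
def Scc (x : M) : Set M := {y | y ∈ Cl τ c m x ∧ x ∈ Cl τ c m y}

/-- closed sets -/
def Cld (X : Set M) : Prop := ∀ x ∈ X, ∀ y, Arr τ c m x y → y ∈ X

/-- closures inside `X` -/
def ClX (X : Set M) (x : M) : Set M :=
  {y | Relation.ReflTransGen (fun u v => u ∈ X ∧ v ∈ X ∧ Arr τ c m u v) x y}

/-- `u` and `w` have the colours `a` and `b` -/
def Opp (a b : Γ) (u w : M) : Prop := (c u = a ∧ c w = b) ∨ (c u = b ∧ c w = a)

/-- the set `E_u` -/
def Eu (a b : Γ) (u : M) : Set M :=
  {z | ∃ w, Opp c a b u w ∧ w ∈ Cl τ c m u ∧ u ∉ Cl τ c m w ∧ z ∈ Cl τ c m w}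

/-- the preorder given by the sets `E_u` -/
def Ple (a b : Γ) (z z' : M) : Prop := ∀ u, z' ∈ Eu τ c m a b u → z ∈ Eu τ c m a b u

/-- strict version -/
def Plt (a b : Γ) (z z' : M) : Prop := ¬ Ple τ c m a b z' z

/-- the fibre of `x` -/
def Fib (a b : Γ) (x : M) : Set M := {z | Ple τ c m a b z x ∧ Ple τ c m a b x z}

/-- bad pairs of colours -/
def Bad (rv : A → A) : Set (Γ × Γ) :=
  {p | m p.1 p.2 ≠ rv (m p.2 p.1) ∧ ∃ x y, c x = p.1 ∧ c y = p.2 ∧ y ∉ Scc τ c m x}

end PS

/-! ### linear width -/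

/-- every finite subset of `P` has a linear order all of whose cuts have at most `k` different
rows and at most `k` different columns -/
def FinLin (τ : M → M → A) (P : Set M) (k : ℕ) : Prop :=
  ∀ F : Finset M, (F : Set M) ⊆ P → ∃ l : List M, l.Nodup ∧ (∀ x, x ∈ l ↔ x ∈ F) ∧
    ∀ l₁ l₂, l = l₁ ++ l₂ →
      ((fun (x : M) (y : {y // y ∈ l₂}) => τ x y.1) '' {x | x ∈ l₁}).ncard ≤ k ∧
      ((fun (y : M) (x : {x // x ∈ l₁}) => τ x.1 y) '' {y | y ∈ l₂}).ncard ≤ k

/-- the infinite primitive subsets are sparse up to a background type, or of finite linear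
width -/
def SpLinPrim (S : L.Structure M) : Prop :=
  ∀ P : Set M, P.Infinite → IsPrim (bt S) P →
    (∃ b : Set (L.Relations 2), ¬ HasTK (gr S P b)) ∨ ∃ k, FinLin (bt S) P k

end Pool.Agent.Helper97.LO

end
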