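import Pool.Agent.VB.N
import Pool.Agent.VB.H
import Pool.Agent.VB.G
import Pool.Agent.VLin.RT

/-!
# Tools for Vaught's conjecture, part 16: monotone parts, kernels

Merged file (to shorten the import chain): contents, unchanged, of
`Pool.Agent.MON.LSH`, `Pool.Agent.MON.PCE`, `Pool.Agent.MON.K1`, `Pool.Agent.MON.K2`, `Pool.Agent.MON.CGb`, `Pool.Agent.MON.K3`, `Pool.Agent.MON.K4`.
-/

/-! ### formerly `Pool.Agent.MON.LSH` -/

section

/-!
# MON, module LSH: pieces are ordered sums of clusters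

`lsh`: apply `ls` (Helper97, ordered sums) to the structure `exS (pl S (Subtype.val : X → M)) dat rel`
on `X = Vp σ S F x`, where `rel u v = Le σ S F u v` and `dat : M → ℕ` is a code of the cell over `F`:
by `VSt.code` at level `0` for the tuples consisting of an enumeration of `F` and `u`; it has to satisfy
`dat u = dat v → Ce σ S F u v`, and to be invariant (`hdat`) take `dat u` = the code of a chosen
representative of the class of `u` under: same atomic type over `F` (so that `dat u = dat v` iff `u`, `v`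
have the same atomic type over `F`). The preorder on `X` is `Le σ S F`. `OSt`: totality by `Cx.tot`, the cross
rule by `Cx.cross'` (both directions with `Cx.star`) and `Cx.full`. `VSt.piece` and `tt_piece` need:
`hX` : `vp_congr`; `hrel` : `le_congr`; `hout` : `Cx.autoV`, `Cx.full`. Classes of the preorder are clusters.
Finite pieces: `TT.of_countable`. Compare `lq_piece` in VLin/PIE.lean.
-/

set_option autoImplicit false
set_option linter.unusedSectionVars false
set_option linter.unusedVariables false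

namespace Pool.Agent.MON

open Set Pool.Agent.Helper5 Pool.Agent.Helper5.DU Pool.Agent.Helper6.Str
  Pool.Agent.Helper79.VC Pool.Agent.Helper97.VC Pool.Agent.Helper97.MD Pool.Agent.Helper6.VC
  Pool.Agent.Helper97.LO

variable {L : FirstOrder.Language.{0, 0}} {M N : Type} {σ : Sig L} {S : L.Structure M}
variable [∀ n, IsEmpty (L.Functions n)] [∀ n, Countable (L.Relations n)]
  {K : Set (L.Structure ℕ)} {δ : Ordinal.{0}}

/-- a code of the atomic types over a finite set -/
theorem lsh_code (hS : VSt K δ S) (G : Finset M) :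
    ∃ κ : M → ℕ, ∀ z z', κ z = κ z' →
      BFR S S univ univ 0 (insert (z, z') (dg (G : Set M))) := by
  classical
  have h0 : (0 : Ordinal.{0}) < om1 := by
    simpa using natCast_lt_om1 0
  obtain ⟨κ, hκ⟩ := hS.code h0 (G.card + 1)
  let e := G.equivFin
  refine ⟨fun z => κ (Fin.cons z fun i => (e.symm i).1), fun z z' h => BFR.anti ?_ (hκ _ _ h)⟩
  rintro a (rfl | ⟨x, hx, rfl⟩)
  · exact ⟨0, rfl⟩
  · refine ⟨(e ⟨x, hx⟩).succ, ?_⟩
    simp

/-- same atomic type over a finite set -/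
private def lshSetoid (S : L.Structure M) (G : Finset M) : Setoid M where
  r z z' := BFR S S univ univ 0 (insert (z, z') (dg (G : Set M)))
  iseqv :=
    { refl := fun z => BFR.refl S univ 0 (by
        rintro a (rfl | ⟨x, hx, rfl⟩)
        · exact ⟨mem_univ _, rfl⟩
        · exact ⟨mem_univ _, rfl⟩)
      symm := fun {z z'} h => BFR.symm h (by
        rintro a (rfl | ⟨x, hx, rfl⟩)
        · exact Or.inl rfl
        · exact Or.inr ⟨x, hx, rfl⟩)
      trans := fun {z z' z''} h h' => BFR.trans h h' (by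
        rintro a (rfl | ⟨x, hx, rfl⟩)
        · exact ⟨z', Or.inl rfl, Or.inl rfl⟩
        · exact ⟨x, Or.inr ⟨x, hx, rfl⟩, Or.inr ⟨x, hx, rfl⟩⟩) }

private theorem lsh_countable (hS : VSt K δ S) (G : Finset M) :
    Countable (Quotient (lshSetoid S G)) := by
  obtain ⟨κ, hκ⟩ := lsh_code hS G
  refine Function.Injective.countable (f := fun q : Quotient (lshSetoid S G) => κ q.out) ?_
  intro q q' h
  have h1 : (lshSetoid S G).r q.out q'.out := hκ _ _ h
  have h2 := Quotient.sound h1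
  rwa [Quotient.out_eq, Quotient.out_eq] at h2

/-- the discrete preorder -/
@[instance_reducible] private def lshDisc (M : Type) : Preorder M where
  le a b := a = b
  le_refl _ := rfl
  le_trans _ _ _ := Eq.trans

/-- the preorder of a piece -/
@[instance_reducible]
private def lshPre (hC : Cx σ S) (F : Finset M) (X : Set M) : Preorder X where
  le u v := Le σ S F u.1 v.1
  le_refl u := Le.refl u.1
  le_trans u v w h h' := hC.letr F _ _ _ h h'

/-- **Pieces all of whose clusters are tame are tame.** -/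
theorem lsh (hL : Ar2 L) (hS : VSt K δ S) (hC : Cx σ S) (F : Finset M) (x : M)
    (h : ∀ z ∈ Vp σ S F x, TT S (Cl σ S F z)) : TT S (Vp σ S F x) := by
  classical
  rcases (Vp σ S F x).finite_or_infinite with hfin | hinf
  · exact TT.of_countable hfin.countable
  have h0 : (0 : Ordinal.{0}) < om1 := by
    simpa using natCast_lt_om1 0
  have : Infinite (Vp σ S F x) := hinf.to_subtype
  set X : Set M := Vp σ S F x with hXdef
  let G : Finset M := insert x F
  have hGF : (F : Set M) ⊆ (G : Set M) := by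
    intro y hy
    rw [Finset.coe_insert]
    exact Or.inr hy
  have hGx : x ∈ (G : Set M) := by
    rw [Finset.coe_insert]
    exact Or.inl rfl
  let s : Setoid M := lshSetoid S G
  let C : Type := Quotient s
  have : Countable C := lsh_countable hS G
  let dat : M → C := fun z => Quotient.mk s z
  let rel : M → M → Prop := fun u v => Le σ S F u v
  have hdg : ∀ {p : Set (M × M)}, dg (G : Set M) ⊆ p → Mt p F F := fun {p} hp =>
    Mt.dg ((image_mono hGF).trans hp)
  have hX : ∀ c c', BFR S S univ univ 0 (insert (c, c') (dg (G : Set M))) →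
      (c ∈ X ↔ c' ∈ X) := by
    intro c c' hb
    exact vp_congr hb.atEq (hdg (subset_insert _ _)) (Or.inr ⟨x, hGx, rfl⟩) (Or.inl rfl)
  have hdat : ∀ z ∈ X, ∀ z' ∈ X, BFR S S univ univ 0 (insert (z, z') (dg (G : Set M))) →
      dat z = dat z' := fun z _ z' _ hb => Quotient.sound hb
  have hrel : ∀ z ∈ X, ∀ w ∈ X, ∀ z' ∈ X, ∀ w' ∈ X,
      BFR S S univ univ 0 (insert (z, z') (insert (w, w') (dg (G : Set M)))) →
      (rel z w ↔ rel z' w') := by
    intro z _ w _ z' _ w' _ hb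
    exact le_congr hb.atEq (hdg ((subset_insert _ _).trans (subset_insert _ _)))
      (Or.inr (Or.inl rfl)) (Or.inl rfl)
  have hce : ∀ z z', dat z = dat z' → Ce σ S F z z' := by
    intro z z' hd w hw i
    have hb : BFR S S univ univ 0 (insert (z, z') (dg (G : Set M))) := Quotient.exact hd
    exact rl_congr hb.atEq (Or.inr ⟨w, hGF hw, rfl⟩) (Or.inl rfl) i
  have hout : ∀ g, g ∉ X → ∀ z ∈ X, ∀ z' ∈ X, dat z = dat z' → AtEq S S {(z, z')} →
      AtEq S S {(g, g), (z, z')} := by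
    intro g hg z hz z' hz' hd hzz
    refine hC.full g z g z' ?_ hzz ?_
    · refine TR.atEq_refl S ?_
      rintro a rfl
      rfl
    · intro i
      have hgz : g ∉ Vp σ S F z := by
        rw [hC.vp_eq hz]
        exact hg
      exact (hC.autoV (hce z z' hd) hgz i).2
  obtain ⟨K', δ', hV⟩ : ∃ (K' : Set ((EL L C).Structure ℕ)) (δ' : Ordinal.{0}),
      VSt K' δ' (exS (pl S (Subtype.val : X → M)) (fun z => dat z.1) fun z w => rel z.1 w.1) := by
    let _ : Preorder M := lshDisc M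
    exact hS.piece hL X dat rel G h0 hX hdat hrel hout
  have htt : ∀ Y : Set X,
      TT (exS (pl S (Subtype.val : X → M)) (fun z => dat z.1) fun z w => rel z.1 w.1) Y ↔
        TT S (Subtype.val '' Y) := tt_piece hL X dat rel G h0 hX hdat hrel hout
  let _ : Preorder X := lshPre hC F X
  have hO : OSt (nb2 L C) true
      (exS (pl S (Subtype.val : X → M)) (fun z => dat z.1) fun z w => rel z.1 w.1) := by
    refine ⟨fun a b => ?_, fun a b => Iff.rfl, ?_⟩
    · exact hC.tot F a.1 b.1 (hC.pctr F _ _ _ (hC.pcsymm a.2) b.2)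
    · intro a b a' b' hab hab' ha hb
      obtain ⟨ha1, ha2, -⟩ := atEq_exS.mp ha
      obtain ⟨hb1, hb2, -⟩ := atEq_exS.mp hb
      rw [Exp.atEq_pl' Subtype.val_injective, image_singleton] at ha1 hb1
      have hda : dat a.1 = dat a'.1 := ha2 _ rfl
      have hdb : dat b.1 = dat b'.1 := hb2 _ rfl
      obtain ⟨h1, h2⟩ := lt_iff_le_not_ge.1 hab
      obtain ⟨h1', h2'⟩ := lt_iff_le_not_ge.1 hab'
      have h3 := hC.cross' F a.1 b.1 a'.1 b'.1 (hce _ _ hda) (hce _ _ hdb) h1 h2 h1' h2'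
      have h4 := hC.full a.1 b.1 a'.1 b'.1 ha1 hb1 h3
      rw [atEq_exS, Exp.atEq_pl' Subtype.val_injective]
      refine ⟨?_, ?_, ?_⟩
      · rw [image_pair]
        exact h4
      · rintro c (rfl | rfl)
        · exact hda
        · exact hdb
      · rintro c (rfl | rfl) d (rfl | rfl)
        · exact ⟨fun _ => Le.refl _, fun _ => Le.refl _⟩
        · exact ⟨fun _ => h1', fun _ => h1⟩
        · exact ⟨fun h => absurd h h2, fun h => absurd h h2'⟩
        · exact ⟨fun _ => Le.refl _, fun _ => Le.refl _⟩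
  have hcl : ∀ y : X, TameX (exS (pl S (Subtype.val : X → M)) (fun z => dat z.1)
      fun z w => rel z.1 w.1) {z | z ≤ y ∧ y ≤ z} := by
    intro y
    refine TT.tameX ?_ ?_
    · rw [htt]
      refine (h y.1 y.2).mono ?_
      rintro _ ⟨z, hz, rfl⟩
      exact hz
    · refine ⟨{y}, 0, h0, fun c c' hb => ?_⟩
      have h5 := (atEq_exS.mp hb.atEq).2.2
      have m1 : (c, c') ∈ insert (c, c') (dg ((({y} : Finset X)) : Set X)) := Or.inl rfl
      have m2 : (y, y) ∈ insert (c, c') (dg ((({y} : Finset X)) : Set X)) :=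
        Or.inr ⟨y, by simp, rfl⟩
      exact and_congr (h5 _ m1 _ m2) (h5 _ m2 _ m1)
  have hfin := ls (ar2_EL hL) hV hO hcl
  have h6 := (htt univ).1 (tt_univ_iff.2 hfin)
  rw [image_univ, Subtype.range_coe] at h6
  exact h6

end Pool.Agent.MON

end

/-! ### formerly `Pool.Agent.MON.PCE` -/

section

/-!
# MON, module PCE: countably many pieces
-/

set_option autoImplicit false
set_option linter.unusedSectionVars false
set_option linter.unusedVariables false

namespace Pool.Agent.MON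

open Set Pool.Agent.Helper5 Pool.Agent.Helper5.DU Pool.Agent.Helper6.Str
  Pool.Agent.Helper79.VC Pool.Agent.Helper97.VC Pool.Agent.Helper97.MD Pool.Agent.Helper6.VC
  Pool.Agent.Helper97.LO

variable {L : FirstOrder.Language.{0, 0}} {M N : Type} {σ : Sig L} {S : L.Structure M}
variable [∀ n, IsEmpty (L.Functions n)] [∀ n, Countable (L.Relations n)]
  {K : Set (L.Structure ℕ)} {δ : Ordinal.{0}}

/-- there are countably many pieces over `F`: `VSt.code` at level `0` for `F` and a point; points with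
the same code are in the same cell over `F`, hence in the same piece (`Cx.cell`) -/
theorem ctbl_vp (hS : VSt K δ S) (hC : Cx σ S) (F : Finset M) :
    ∃ g : ℕ → M, ∀ x, ∃ n, Vp σ S F x = Vp σ S F (g n) := by
  classical
  have hinf : Infinite M := hS.infinite
  obtain ⟨κ, hκ⟩ := hS.small 0 (Ordinal.omega0_pos.trans omega_lt_om1) F (subset_univ _)
  have hg : ∀ n : ℕ, ∃ y : M, (∃ x, κ x = n) → κ y = n := by
    intro n
    by_cases h : ∃ x, κ x = n
    · obtain ⟨x, hx⟩ := h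
      exact ⟨x, fun _ => hx⟩
    · obtain ⟨y⟩ := (inferInstance : Nonempty M)
      exact ⟨y, fun h' => absurd h' h⟩
  choose g hg using hg
  refine ⟨g, fun x => ⟨κ x, ?_⟩⟩
  have h1 : κ x = κ (g (κ x)) := (hg (κ x) ⟨x, rfl⟩).symm
  have h2 := (hκ x (mem_univ _) (g (κ x)) (mem_univ _) h1).atEq
  have h3 : Ce σ S F x (g (κ x)) := by
    intro w hw i
    exact rl_congr h2 (mem_insert_of_mem _ ⟨w, hw, rfl⟩) (mem_insert _ _) i
  exact (hC.vp_eq (hC.ce_mem_vp h3)).symm

theorem tt_of_pieces (hS : VSt K δ S) (hC : Cx σ S) (F : Finset M) {Z : Set M}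
    (hZ : ∀ z ∈ Z, TT S (Vp σ S F z)) : TT S Z := by
  obtain ⟨g, hg⟩ := ctbl_vp hS hC F
  have h1 : TT S (⋃ n : {n // TT S (Vp σ S F (g n))}, Vp σ S F (g n.1)) :=
    TT.iUnion fun n => n.2
  refine h1.mono fun z hz => ?_
  obtain ⟨n, hn⟩ := hg z
  have h2 := hZ z hz
  rw [hn] at h2
  refine mem_iUnion.2 ⟨⟨n, h2⟩, ?_⟩
  change z ∈ Vp σ S F (g n)
  rw [← hn]
  exact vp_refl z

/-- **Wild sets contain wild clusters over any finite set.** (`tt_of_pieces`, `lsh`) -/
theorem exists_wild (hL : Ar2 L) (hS : VSt K δ S) (hC : Cx σ S) (F : Finset M) {Z : Set M}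
    (hZ : ∀ z ∈ Z, Vp σ S F z ⊆ Z) (h : ¬ TT S Z) :
    ∃ z ∈ Z, ¬ TT S (Cl σ S F z) ∧ Cl σ S F z ⊆ Z := by
  by_contra hcon
  refine h (tt_of_pieces hS hC F fun z hz => lsh hL hS hC F z fun z' hz' => ?_)
  by_contra h1
  exact hcon ⟨z', hZ z hz hz', h1, hC.cl_sub_vp.trans (hZ z' (hZ z hz hz'))⟩

/-- the same for a set which is a union of pieces over the point `y` -/
theorem exists_wild_cl (hL : Ar2 L) (hS : VSt K δ S) (hC : Cx σ S) {G : Finset M} {z₀ : M}
    (h : ¬ TT S (Cl σ S G z₀)) {y : M} (hy : y ∈ Cl σ S G z₀) :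
    ∃ z, ¬ TT S (Cl σ S {y} z) ∧ Cl σ S {y} z ⊆ Cl σ S G z₀ ∧ y ∉ Cl σ S {y} z := by
  obtain ⟨z, hz, h1, h2⟩ := exists_wild hL hS hC {y} (Z := Cl σ S G z₀)
    (fun z hz u' hu' => hC.w1' (Finset.mem_singleton_self y) hy hz hu') h
  refine ⟨z, h1, h2, fun h3 => h1 ?_⟩
  rw [← hC.cl_eq h3, hC.cl_of_mem (Finset.mem_singleton_self y)]
  exact TT.of_countable (countable_singleton y)

end Pool.Agent.MON

end

/-! ### formerly `Pool.Agent.MON.K1` -/

section

/-!
# MON, module K1: chains of wild clusters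

`P = Cl σ S G z₀` is wild and any two wild clusters inside `P` meet.
`compl`: let `B = Cl F x ⊆ P` be wild. `P` and `B` are unions of pieces over `x` (`Cx.w1'`), so `P \ B` is;
if it were wild then `exists_wild` (over `{x}`, `Z = P \ B`) gives a wild cluster disjoint from `B`.
`inter`: `D = ⋂ B n`; `P \ D` is tame by `compl` and `TT.iUnion`, so `D` is not tame; take `y ∈ D`; `D` is a union of
pieces over `y`; `exists_wild` over `{y}` gives `x' ∈ D` with `Cl {y} x'` wild and inside `D`.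
`avoid`: for `a ∈ A ∩ P` take a wild cluster over `{a}` inside `P` (`exists_wild_cl`), it does not contain
`a`; for other `a` take `P`; apply `inter` to this countable family.
-/

set_option autoImplicit false
set_option linter.unusedSectionVars false
set_option linter.unusedVariables false

namespace Pool.Agent.MON

open Set Pool.Agent.Helper5 Pool.Agent.Helper5.DU Pool.Agent.Helper6.Str
  Pool.Agent.Helper79.VC Pool.Agent.Helper97.VC Pool.Agent.Helper97.MD Pool.Agent.Helper6.VC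
  Pool.Agent.Helper97.LO

variable {L : FirstOrder.Language.{0, 0}} {M N : Type} {σ : Sig L} {S : L.Structure M}
variable [∀ n, IsEmpty (L.Functions n)] [∀ n, Countable (L.Relations n)]
  {K : Set (L.Structure ℕ)} {δ : Ordinal.{0}}

theorem Uq.compl (hL : Ar2 L) (hS : VSt K δ S) (hC : Cx σ S) {G : Finset M} {z₀ : M}
    (hU : Uq σ S G z₀) {F : Finset M} {x : M} (h1 : Cl σ S F x ⊆ Cl σ S G z₀)
    (h2 : ¬ TT S (Cl σ S F x)) : TT S (Cl σ S G z₀ \ Cl σ S F x) := by
  by_contra h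
  have hx := Finset.mem_singleton_self x
  obtain ⟨z, hz, h3, h4⟩ := exists_wild hL hS hC {x} (Z := Cl σ S G z₀ \ Cl σ S F x)
    (fun z hz u' hu' => ⟨hC.w1' hx (h1 (cl_refl x)) hz.1 hu', fun h5 =>
      hz.2 (hC.w1' hx (cl_refl x) h5 (hC.vp_symm hu'))⟩) h
  obtain ⟨w, hw1, hw2⟩ := hU.meet {x} F z x (h4.trans sdiff_subset) h1 h3 h2
  exact (h4 hw1).2 hw2

theorem Uq.inter (hL : Ar2 L) (hS : VSt K δ S) (hC : Cx σ S) {G : Finset M} {z₀ : M}
    (hU : Uq σ S G z₀) {ι : Type} [Countable ι] (F : ι → Finset M) (x : ι → M)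
    (h1 : ∀ n, Cl σ S (F n) (x n) ⊆ Cl σ S G z₀) (h2 : ∀ n, ¬ TT S (Cl σ S (F n) (x n))) :
    ∃ y x', y ∈ Cl σ S G z₀ ∧ (∀ n, y ∈ Cl σ S (F n) (x n)) ∧ ¬ TT S (Cl σ S {y} x') ∧
      Cl σ S {y} x' ⊆ Cl σ S G z₀ ∧ ∀ n, Cl σ S {y} x' ⊆ Cl σ S (F n) (x n) := by
  have h3 : TT S (⋃ n, (Cl σ S G z₀ \ Cl σ S (F n) (x n))) :=
    TT.iUnion fun n => hU.compl hL hS hC (h1 n) (h2 n)
  have h4 : ¬ TT S {z | z ∈ Cl σ S G z₀ ∧ ∀ n, z ∈ Cl σ S (F n) (x n)} := by
    intro h
    refine hU.wild ((TT.union h h3).mono fun z hz => ?_)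
    by_cases h5 : ∀ n, z ∈ Cl σ S (F n) (x n)
    · exact Or.inl ⟨hz, h5⟩
    · push Not at h5
      obtain ⟨n, hn⟩ := h5
      exact Or.inr (mem_iUnion.2 ⟨n, hz, hn⟩)
  have h5 : {z | z ∈ Cl σ S G z₀ ∧ ∀ n, z ∈ Cl σ S (F n) (x n)}.Nonempty := by
    rw [nonempty_iff_ne_empty]
    intro h
    rw [h] at h4
    exact h4 (TT.of_countable countable_empty)
  obtain ⟨y, hy1, hy2⟩ := h5
  have hy := Finset.mem_singleton_self y
  obtain ⟨x', hx', h6, h7⟩ := exists_wild hL hS hC {y}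
    (Z := {z | z ∈ Cl σ S G z₀ ∧ ∀ n, z ∈ Cl σ S (F n) (x n)})
    (fun z hz u' hu' => ⟨hC.w1' hy hy1 hz.1 hu', fun n => hC.w1' hy (hy2 n) (hz.2 n) hu'⟩) h4
  exact ⟨y, x', hy1, hy2, h6, fun z hz => (h7 hz).1, fun n z hz => (h7 hz).2 n⟩

theorem Uq.avoid (hL : Ar2 L) (hS : VSt K δ S) (hC : Cx σ S) {G : Finset M} {z₀ : M}
    (hU : Uq σ S G z₀) {A : Set M} (hA : A.Countable) :
    ∃ y w, y ∈ Cl σ S G z₀ ∧ ¬ TT S (Cl σ S {y} w) ∧ Cl σ S {y} w ⊆ Cl σ S G z₀ ∧
      Disjoint A (Cl σ S {y} w) := by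
  have := hA.to_subtype
  have h1 : ∀ a : A, ∃ (F : Finset M) (x : M), Cl σ S F x ⊆ Cl σ S G z₀ ∧
      ¬ TT S (Cl σ S F x) ∧ a.1 ∉ Cl σ S F x := by
    intro a
    by_cases ha : a.1 ∈ Cl σ S G z₀
    · obtain ⟨z, h2, h3, h4⟩ := exists_wild_cl hL hS hC hU.wild ha
      exact ⟨{a.1}, z, h3, h2, h4⟩
    · exact ⟨G, z₀, Subset.rfl, hU.wild, ha⟩
  choose F x h2 h3 h4 using h1
  obtain ⟨y, x', h5, -, h6, h7, h8⟩ := hU.inter hL hS hC F x h2 h3
  refine ⟨y, x', h5, h6, h7, ?_⟩
  rw [Set.disjoint_left]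
  intro a ha ha'
  exact h4 ⟨a, ha⟩ (h8 ⟨a, ha⟩ ha')

end Pool.Agent.MON

end

/-! ### formerly `Pool.Agent.MON.K2` -/

section

/-!
# MON, module K2: a common Scott level for the complements of the wild clusters

`Uq.base`: for `y, y'` in the wild cluster `B ⊆ P` the sets `AtEq (insert (y, y) p)` and
`AtEq (insert (y', y') p)`, `p ⊆ (P \ B)²`, agree: `Ce {y} a.1 a.2 ↔ Ce {y'} a.1 a.2` by `Cx.deepc` (use
`Cx.full`, `Cx.star`, `atEq_of_pairs`); then `Sb.base`.
`Uq.level`: otherwise for every `l : Om` there are `F l, x l` with `B l = Cl (F l) (x l) ⊆ P` wild and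
`Sb S (x l) (P \ B l) (od l)` false, while `Sb S (x l) (P \ B l) (s l)` for some `s l < om1` (`Uq.compl`, `dfb_diff`,
`sb_of_tt`). For `r : Om` choose `y r` in all `B l`, `od l < od r`, and in `P` (`Uq.inter`); so `P = Cl G (y r)`,
`B l = Cl (F l) (y r)`, and the named point can be `y r` (`Uq.base`). Apply `VSt.limit` to the tuples (`y r`, enumeration of `G`):
`T` on `N`, `b`, `V`. `T` is `VSt` and `Cx` (`Cx.transfer`). Let `b₀` be the first entry, `G'` the finite set of the others.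
For every `l` take `γ` large (`s l + ω + ω`) and `r ∈ V` good for `γ + n`, `n` the size of `F l`, `od r > od l`, and images `F'` of `F l` in `N`
(`BFR.forth_many`). By `resC1` twice `Cl G' b₀ \ Cl F' b₀` in `T` corresponds to `P \ B l` at level `γ` over `(b₀, y r)`, so
(`Sb.congr` in both directions) it has level `s l` and not level `od l` over `b₀`. By `ctbl_cl` for `T`, `b₀` there are only countably
many sets `Cl F' b₀`, so one of them occurs for `l` and `l'` with `s l < od l'`: contradiction with `Sb.mono`.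
-/

set_option autoImplicit false
set_option linter.unusedSectionVars false
set_option linter.unusedVariables false

namespace Pool.Agent.MON

open Set Pool.Agent.Helper5 Pool.Agent.Helper5.DU Pool.Agent.Helper6.Str
  Pool.Agent.Helper79.VC Pool.Agent.Helper97.VC Pool.Agent.Helper97.MD Pool.Agent.Helper6.VC
  Pool.Agent.Helper97.LO

variable {L : FirstOrder.Language.{0, 0}} {M N : Type} {σ : Sig L} {S : L.Structure M}
variable [∀ n, IsEmpty (L.Functions n)] [∀ n, Countable (L.Relations n)]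
  {K : Set (L.Structure ℕ)} {δ : Ordinal.{0}}

theorem k2_half (hL : Ar2 L) (hC : Cx σ S) {F : Finset M} {z x y : M} {p : Set (M × M)}
    (hx : x ∈ Cl σ S F z) (hy : y ∈ Cl σ S F z)
    (hp : ∀ a ∈ p, a.1 ∉ Cl σ S F z ∧ a.2 ∉ Cl σ S F z)
    (h : AtEq S S (insert (x, x) p)) : AtEq S S (insert (y, y) p) := by
  have hyy : AtEq S S {(y, y)} :=
    (BFR.refl S univ 0 (p := {(y, y)}) fun a ha => by
      rw [mem_singleton_iff] at ha
      subst ha
      exact ⟨mem_univ _, rfl⟩).atEq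
  have key : ∀ a ∈ p, AtEq S S {(y, y), a} := by
    intro a ha
    have h1 : AtEq S S {(a.1, a.2)} := by
      refine AtEq.anti ?_ h
      intro c hc
      rw [mem_singleton_iff] at hc
      subst hc
      exact mem_insert_of_mem _ ha
    have h2 : Ce σ S {x} a.1 a.2 := by
      intro w hw i
      rw [Finset.mem_singleton] at hw
      subst hw
      exact rl_congr h (mem_insert _ _) (mem_insert_of_mem _ ha) i
    have h3 : Ce σ S {y} a.1 a.2 := hC.deepc F z x y a.1 a.2 hx hy (hp a ha).1 (hp a ha).2 h2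
    exact hC.full y a.1 y a.2 hyy h1 fun i => h3 y (Finset.mem_singleton_self y) i
  refine atEq_of_pairs hL ?_
  rintro a (rfl | ha) b (rfl | hb)
  · rw [pair_eq_singleton]
    exact hyy
  · exact key b hb
  · rw [pair_comm]
    exact key a ha
  · refine AtEq.anti ?_ h
    rintro c (rfl | hc)
    · exact mem_insert_of_mem _ ha
    · rw [mem_singleton_iff] at hc
      subst hc
      exact mem_insert_of_mem _ hb

theorem Uq.base (hL : Ar2 L) (hC : Cx σ S) {F : Finset M} {x y : M} {P : Set M}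
    {α : Ordinal.{0}} (hy : y ∈ Cl σ S F x) (h : Sb S x (P \ Cl σ S F x) α) :
    Sb S y (P \ Cl σ S F x) α := by
  refine h.base fun p _ hp => ⟨fun h1 => ?_, fun h1 => ?_⟩
  · exact k2_half hL hC (cl_refl x) hy (fun a ha => ⟨(hp a ha).1.2, (hp a ha).2.2⟩) h1
  · exact k2_half hL hC hy (cl_refl x) (fun a ha => ⟨(hp a ha).1.2, (hp a ha).2.2⟩) h1

theorem Uq.level (hL : Ar2 L) (hS : VSt K δ S) (hC : Cx σ S) {G : Finset M} {z₀ : M}
    (hU : Uq σ S G z₀) : ∃ r < om1, ∀ F x, Cl σ S F x ⊆ Cl σ S G z₀ → ¬ TT S (Cl σ S F x) →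
      Sb S x (Cl σ S G z₀ \ Cl σ S F x) r := by
  classical
  by_contra hcon
  push Not at hcon
  have h1 : ∀ l : Om, ∃ (F : Finset M) (x : M), Cl σ S F x ⊆ Cl σ S G z₀ ∧
      ¬ TT S (Cl σ S F x) ∧ ¬ Sb S x (Cl σ S G z₀ \ Cl σ S F x) (od l) := by
    intro l
    obtain ⟨F, x, h1, h2, h3⟩ := hcon (od l) (od_lt l)
    exact ⟨F, x, h1, h2, h3⟩
  choose F x hFP hFW hFn using h1
  have h2 : ∀ l : Om, ∃ α < om1, Sb S (x l) (Cl σ S G z₀ \ Cl σ S (F l) (x l)) α := fun l =>
    sb_of_tt (dfb_diff (dfb_cl hC G z₀) (dfb_cl hC (F l) (x l)))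
      (hU.compl hL hS hC (hFP l) (hFW l)) (x l)
  choose s hs hsb using h2
  -- the points `y r`
  have h3 : ∀ r : Om, ∃ y, y ∈ Cl σ S G z₀ ∧ ∀ l : Om, od l < od r →
      y ∈ Cl σ S (F l) (x l) := by
    intro r
    have : Countable {l : Om | od l < od r} := (countable_od_lt (od_lt r)).to_subtype
    obtain ⟨y, x', hy, hyl, -⟩ := hU.inter hL hS hC (ι := {l : Om | od l < od r})
      (fun l => F l.1) (fun l => x l.1) (fun l => hFP l.1) (fun l => hFW l.1)
    exact ⟨y, hy, fun l hl => hyl ⟨l, hl⟩⟩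
  choose y hyP hyl using h3
  -- the limit
  let e := G.equivFin
  let a : Om → Fin (G.card + 1) → M := fun r => Fin.cons (y r) (fun i => (e.symm i : M))
  obtain ⟨N, T, b, V, hV, hT, hlim⟩ := hS.limit a
  have hCT : Cx σ T := by
    refine hC.transfer ?_
    obtain ⟨C, hCc, h⟩ := hlim Ordinal.omega0 omega_lt_om1
    obtain ⟨r, hr, hrC⟩ := nonempty_of_large (not_countable_diff hV hCc)
    exact BFR.anti (empty_subset _) (h r hr hrC)
  let G' : Finset N := Finset.univ.image fun i : Fin G.card => b i.succ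
  have h4 : ∀ l : Om, ∃ F' : Finset N,
      Sb T (b 0) (Cl σ T G' (b 0) \ Cl σ T F' (b 0)) (s l) ∧
      ¬ Sb T (b 0) (Cl σ T G' (b 0) \ Cl σ T F' (b 0)) (od l) := by
    intro l
    let γ : Ordinal.{0} := max (s l) (od l) + Ordinal.omega0
    have hγ : γ < om1 := add_lt_om1 (max_lt (hs l) (od_lt l)) omega_lt_om1
    obtain ⟨C, hCc, h⟩ := hlim (γ + (F l).card) (add_lt_om1 hγ (natCast_lt_om1 _))
    have hA : (C ∪ {r : Om | od r < od l + 1}).Countable :=
      hCc.union (countable_od_lt (add_one_lt_om1 (od_lt l)))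
    obtain ⟨r, hr, hrC⟩ := nonempty_of_large (not_countable_diff hV hA)
    have hrC' : r ∉ C := fun h' => hrC (Or.inl h')
    have hlr : od l < od r := by
      by_contra h'
      push Not at h'
      exact hrC (Or.inr (Order.lt_add_one_iff.mpr h'))
    have hb := h r hr hrC'
    let f := (F l).equivFin
    obtain ⟨c, -, hc⟩ := BFR.back_many (F l).card hb (fun i => (f.symm i : M))
      (fun _ => mem_univ _)
    let F' : Finset N := Finset.univ.image c
    obtain ⟨p, hp⟩ : ∃ p : Set (N × M), p = (range fun i => (b i, a r i)) ∪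
        range fun i => (c i, ((f.symm i : {m // m ∈ F l}) : M)) := ⟨_, rfl⟩
    rw [← hp] at hc
    have hp0 : (b 0, y r) ∈ p := by
      rw [hp]
      exact Or.inl ⟨0, rfl⟩
    have hMG : Mt p G' G := by
      constructor
      · intro u hu
        rw [Finset.mem_image] at hu
        obtain ⟨i, -, rfl⟩ := hu
        refine ⟨(e.symm i : M), (e.symm i).2, ?_⟩
        rw [hp]
        exact Or.inl ⟨i.succ, rfl⟩
      · intro u hu
        refine ⟨b (e ⟨u, hu⟩).succ, Finset.mem_image.mpr ⟨_, Finset.mem_univ _, rfl⟩, ?_⟩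
        rw [hp]
        refine Or.inl ⟨(e ⟨u, hu⟩).succ, ?_⟩
        show (b (e ⟨u, hu⟩).succ, ((e.symm (e ⟨u, hu⟩) : {m // m ∈ G}) : M)) = _
        rw [e.symm_apply_apply]
    have hMF : Mt p F' (F l) := by
      constructor
      · intro u hu
        rw [Finset.mem_image] at hu
        obtain ⟨i, -, rfl⟩ := hu
        refine ⟨(f.symm i : M), (f.symm i).2, ?_⟩
        rw [hp]
        exact Or.inr ⟨i, rfl⟩
      · intro u hu
        refine ⟨c (f ⟨u, hu⟩), Finset.mem_image.mpr ⟨_, Finset.mem_univ _, rfl⟩, ?_⟩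
        rw [hp]
        refine Or.inr ⟨f ⟨u, hu⟩, ?_⟩
        show (c (f ⟨u, hu⟩), ((f.symm (f ⟨u, hu⟩) : {m // m ∈ F l}) : M)) = _
        rw [f.symm_apply_apply]
    have h5 := (resC1 (σ := σ) hMF hp0 (resC1 (σ := σ) hMG hp0 hc).1).2
    rw [univ_inter, univ_inter, hC.cl_eq (hyP r)] at h5
    have hyx : y r ∈ Cl σ S (F l) (x l) := hyl r l hlr
    rw [hC.cl_eq hyx] at h5
    refine ⟨F', ?_, ?_⟩
    · have h6 : BFR S T (Cl σ S G z₀ \ Cl σ S (F l) (x l))
          (Cl σ T G' (b 0) \ Cl σ T F' (b 0)) (s l + Ordinal.omega0) {(y r, b 0)} := by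
        refine (h5.mono ?_).symm ?_
        · show s l + Ordinal.omega0 ≤ max (s l) (od l) + Ordinal.omega0
          gcongr
          exact le_max_left _ _
        · intro q hq
          rw [mem_singleton_iff] at hq
          subst hq
          exact hp0
      exact (Uq.base hL hC hyx (hsb l)).congr (hs l) h6
    · intro hneg
      have h6 : BFR T S (Cl σ T G' (b 0) \ Cl σ T F' (b 0))
          (Cl σ S G z₀ \ Cl σ S (F l) (x l)) (od l + Ordinal.omega0) {(b 0, y r)} := by
        refine BFR.anti ?_ (h5.mono ?_)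
        · intro q hq
          rw [mem_singleton_iff] at hq
          subst hq
          exact hp0
        · show od l + Ordinal.omega0 ≤ max (s l) (od l) + Ordinal.omega0
          gcongr
          exact le_max_right _ _
      have h7 := hneg.congr (od_lt l) h6
      rw [← hC.cl_eq hyx] at h7
      have h8 := Uq.base hL hC (cl_symm hyx) h7
      rw [hC.cl_eq hyx] at h8
      exact hFn l h8
  choose F' hF's hF'n using h4
  obtain ⟨g, hg⟩ := ctbl_cl hT hCT (b 0)
  choose n hn using hg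
  obtain ⟨k, hk⟩ := exists_large_fiber not_countable_om (fun l => n (F' l))
  obtain ⟨l, -, hl⟩ := nonempty_of_large hk
  obtain ⟨l', ⟨-, hl'⟩, hl'2⟩ := nonempty_of_large
    (not_countable_diff hk (countable_od_lt (hs l)))
  have hlt : s l ≤ od l' := by
    by_contra h'
    push Not at h'
    exact hl'2 h'
  have heq : Cl σ T (F' l) (b 0) = Cl σ T (F' l') (b 0) := by
    have e1 : n (F' l) = n (F' l') := by
      have e2 : n (F' l) = k := hl
      have e3 : n (F' l') = k := hl'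
      rw [e2, e3]
    rw [hn (F' l), hn (F' l'), e1]
  apply hF'n l'
  rw [← heq]
  exact (hF's l).mono hlt

end Pool.Agent.MON

end

/-! ### formerly `Pool.Agent.MON.CGb` -/

section

/-!
# MON, module CGb: gluing along corresponding clusters

`mem2`, `cross2`: with `hq` choose images `u₀, v₀` of `u, v` with `AtEq` over `q` (two forth steps); `u'` and
`u₀` have the same atomic type over `w'`, so `Ce F' u₀ u'` (`Cx.blk'` in `S'`); then
`Rl i u v ↔ Rl i u₀ v₀ ↔ Rl i u' v₀` (`Cx.auto`) `↔ Rl i u' v'` (`Cx.deepc`: `v₀` and `v'` have the same atomic type over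
`w'`, so they are in the same cell over `{w'}`, hence over `{u'}`).
`resC2`: `BFR.restr` with `mem2`. `glueC2`: `glue` (module CG) with `π a = (a ∈ Cl σ S F w)`, `π' b = (b ∈ Cl σ S' F' w')` (index type `Prop`)
and `q i = r = {(w, w')}`; the hypothesis `H` by `cross2` and `Cx.full`, `atEq_of_pairs` as in `glueC`; note that `Cx.full` is for one structure: pull back with `hq`.
-/

set_option autoImplicit false
set_option linter.unusedSectionVars false
set_option linter.unusedVariables false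

namespace Pool.Agent.MON

open Set Pool.Agent.Helper5 Pool.Agent.Helper5.DU Pool.Agent.Helper6.Str
  Pool.Agent.Helper79.VC Pool.Agent.Helper97.VC Pool.Agent.Helper97.MD Pool.Agent.Helper6.VC
  Pool.Agent.Helper97.LO

variable {L : FirstOrder.Language.{0, 0}} {M N : Type} {σ : Sig L} {S : L.Structure M}
  {S' : L.Structure N}

/-- two elements have images over `q` -/
private theorem cgb_two {q : Set (M × N)} (hq : BFR S S' univ univ 2 q) (u v : M) :
    ∃ u₀ v₀ : N, AtEq S S' (insert (v, v₀) (insert (u, u₀) q)) := by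
  obtain ⟨u₀, -, h1⟩ := hq.forth (β := 1) (by norm_num) (mem_univ u)
  obtain ⟨v₀, -, h2⟩ := h1.forth (β := 0) (by norm_num) (mem_univ v)
  exact ⟨u₀, v₀, h2.atEq⟩

private theorem cgb_mem1 (hC' : Cx σ S') {F : Finset M} {F' : Finset N} {w u : M}
    {w' u' : N} {q p : Set (M × N)} (hq : BFR S S' univ univ 2 q) (hF : Mt q F F')
    (hw : (w, w') ∈ q) (hp : AtEq S S' p) (hwp : (w, w') ∈ p) (hu : (u, u') ∈ p)
    (h : u ∈ Cl σ S F w) : u' ∈ Cl σ S' F' w' := by
  obtain ⟨u₀, -, h1⟩ := hq.forth (β := 1) (by norm_num) (mem_univ u)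
  have hat := h1.atEq
  have hw1 : (w, w') ∈ insert (u, u₀) q := mem_insert_of_mem _ hw
  have hu1 : (u, u₀) ∈ insert (u, u₀) q := mem_insert _ _
  have h2 : u₀ ∈ Cl σ S' F' w' := (cl_congr hat (hF.mono (subset_insert _ _)) hw1 hu1).mp h
  refine (hC'.blk' h2 fun i => ?_).1
  rw [← rl_congr hat hw1 hu1 i, rl_congr hp hwp hu i]

theorem mem2 (hC : Cx σ S) (hC' : Cx σ S') {F : Finset M} {F' : Finset N} {w u : M}
    {w' u' : N} {q p : Set (M × N)} (hq : BFR S S' univ univ 2 q) (hF : Mt q F F')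
    (hw : (w, w') ∈ q) (hp : AtEq S S' p) (hwp : (w, w') ∈ p) (hu : (u, u') ∈ p) :
    u ∈ Cl σ S F w ↔ u' ∈ Cl σ S' F' w' := by
  refine ⟨cgb_mem1 hC' hq hF hw hp hwp hu, fun h => ?_⟩
  obtain ⟨u₀, -, h1⟩ := hq.back (β := 1) (by norm_num) (mem_univ u')
  have hat := h1.atEq
  have hw1 : (w, w') ∈ insert (u₀, u') q := mem_insert_of_mem _ hw
  have hu1 : (u₀, u') ∈ insert (u₀, u') q := mem_insert _ _
  have h2 : u₀ ∈ Cl σ S F w := (cl_congr hat (hF.mono (subset_insert _ _)) hw1 hu1).mpr h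
  refine (hC.blk' h2 fun i => ?_).1
  rw [rl_congr hat hw1 hu1 i, rl_congr hp hwp hu i]

theorem cross2 (hC : Cx σ S) (hC' : Cx σ S') {F : Finset M} {F' : Finset N} {w u v : M}
    {w' u' v' : N} {q p : Set (M × N)} (hq : BFR S S' univ univ 2 q) (hF : Mt q F F')
    (hw : (w, w') ∈ q) (hu : AtEq S S' {(w, w'), (u, u')}) (hv : AtEq S S' {(w, w'), (v, v')})
    (h1 : u ∈ Cl σ S F w) (h2 : v ∉ Cl σ S F w) (i : σ.ι) :
    (Rl σ S i u v ↔ Rl σ S' i u' v') ∧ (Rl σ S i v u ↔ Rl σ S' i v' u') := by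
  obtain ⟨u₀, v₀, hat⟩ := cgb_two hq u v
  have hFm : Mt (insert (v, v₀) (insert (u, u₀) q)) F F' :=
    hF.mono ((subset_insert _ _).trans (subset_insert _ _))
  have mw : (w, w') ∈ insert (v, v₀) (insert (u, u₀) q) :=
    mem_insert_of_mem _ (mem_insert_of_mem _ hw)
  have mu : (u, u₀) ∈ insert (v, v₀) (insert (u, u₀) q) := mem_insert_of_mem _ (mem_insert _ _)
  have mv : (v, v₀) ∈ insert (v, v₀) (insert (u, u₀) q) := mem_insert _ _
  have pw : (w, w') ∈ ({(w, w'), (u, u')} : Set (M × N)) := mem_insert _ _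
  have pu : (u, u') ∈ ({(w, w'), (u, u')} : Set (M × N)) :=
    mem_insert_of_mem _ (mem_singleton _)
  have rw' : (w, w') ∈ ({(w, w'), (v, v')} : Set (M × N)) := mem_insert _ _
  have rv : (v, v') ∈ ({(w, w'), (v, v')} : Set (M × N)) :=
    mem_insert_of_mem _ (mem_singleton _)
  have a1 : u₀ ∈ Cl σ S' F' w' := (cl_congr hat hFm mw mu).mp h1
  have a2 : v₀ ∉ Cl σ S' F' w' := fun h => h2 ((cl_congr hat hFm mw mv).mpr h)
  have a3 : v' ∉ Cl σ S' F' w' := fun h => h2 ((mem2 hC hC' hq hF hw hv rw' rv).mpr h)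
  obtain ⟨a4, a5⟩ := hC'.blk' a1 (u' := u') fun j => by
    rw [← rl_congr hat mw mu j, rl_congr hu pw pu j]
  have a6 : Ce σ S' {w'} v₀ v' := by
    intro x hx j
    rw [Finset.mem_singleton] at hx
    subst hx
    rw [← rl_congr hat mw mv j, rl_congr hv rw' rv j]
  have a7 : Ce σ S' {u'} v₀ v' :=
    hC'.deepc F' w' w' u' v₀ v' (cl_refl w') a4 a2 a3 a6
  have key : ∀ j, Rl σ S j u v ↔ Rl σ S' j u' v' := by
    intro j
    rw [rl_congr hat mu mv j, (hC'.auto a1 a4 a5 a2 j).1]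
    exact a7 u' (Finset.mem_singleton_self _) j
  refine ⟨key i, ?_⟩
  rw [hC.star' i v u, hC'.star' i v' u', key]

/-- restriction to corresponding clusters over base points of the same type -/
theorem resC2 (hC : Cx σ S) (hC' : Cx σ S') {F : Finset M} {F' : Finset N} {w : M} {w' : N}
    {q p : Set (M × N)} (hq : BFR S S' univ univ 2 q) (hF : Mt q F F') (hw : (w, w') ∈ q)
    (hwp : (w, w') ∈ p) {U : Set M} {V : Set N} {γ : Ordinal.{0}} (h : BFR S S' U V γ p) :
    BFR S S' (U ∩ Cl σ S F w) (V ∩ Cl σ S' F' w') γ p ∧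
      BFR S S' (U \ Cl σ S F w) (V \ Cl σ S' F' w') γ p := by
  have key : ∀ x y, AtEq S S' (insert (x, y) p) → (x ∈ Cl σ S F w ↔ y ∈ Cl σ S' F' w') :=
    fun x y hxy => mem2 hC hC' hq hF hw hxy (mem_insert_of_mem _ hwp) (mem_insert _ _)
  constructor
  · refine BFR.restr₀ inter_subset_left inter_subset_left (fun x hx y hy hxy => ?_) h
    exact ⟨fun h1 => ⟨hy, (key x y hxy).mp h1.2⟩, fun h1 => ⟨hx, (key x y hxy).mpr h1.2⟩⟩
  · refine BFR.restr₀ sdiff_subset sdiff_subset (fun x hx y hy hxy => ?_) h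
    exact ⟨fun h1 => ⟨hy, fun h2 => h1.2 ((key x y hxy).mpr h2)⟩,
      fun h1 => ⟨hx, fun h2 => h1.2 ((key x y hxy).mp h2)⟩⟩

private theorem cgb_swap {p : Set (M × N)} (h : AtEq S S' p) : AtEq S' S (Prod.swap ⁻¹' p) :=
  ⟨fun a ha b hb => (h.1 _ ha _ hb).symm, fun n R v hv => (h.2 n R (fun i => (v i).swap) hv).symm⟩

private theorem cgb_comp {P : Type} {S'' : L.Structure P} {p : Set (M × N)} {q : Set (N × P)}
    {r : Set (M × P)} (h1 : AtEq S S' p) (h2 : AtEq S' S'' q)
    (hr : ∀ a ∈ r, ∃ b, (a.1, b) ∈ p ∧ (b, a.2) ∈ q) : AtEq S S'' r := by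
  refine ⟨fun a ha b hb => ?_, fun n R v hv => ?_⟩
  · obtain ⟨c, hc1, hc2⟩ := hr a ha
    obtain ⟨d, hd1, hd2⟩ := hr b hb
    rw [h1.1 _ hc1 _ hd1]
    exact h2.1 _ hc2 _ hd2
  · choose b hb1 hb2 using fun i => hr _ (hv i)
    rw [h1.2 n R (fun i => ((v i).1, b i)) hb1]
    exact h2.2 n R (fun i => (b i, (v i).2)) hb2

private theorem cgb_cross (hC : Cx σ S) (hC' : Cx σ S') {F : Finset M} {F' : Finset N} {w : M}
    {w' : N} {q : Set (M × N)} (hq : BFR S S' univ univ 2 q) (hF : Mt q F F')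
    (hw : (w, w') ∈ q) {a b : M × N} (ha : AtEq S S' {(w, w'), a}) (hb : AtEq S S' {(w, w'), b})
    (h1 : a.1 ∈ Cl σ S F w) (h2 : b.1 ∉ Cl σ S F w) : AtEq S S' {a, b} := by
  obtain ⟨u₀, v₀, hat⟩ := cgb_two hq a.1 b.1
  have mu : (a.1, u₀) ∈ insert (b.1, v₀) (insert (a.1, u₀) q) :=
    mem_insert_of_mem _ (mem_insert _ _)
  have mv : (b.1, v₀) ∈ insert (b.1, v₀) (insert (a.1, u₀) q) := mem_insert _ _
  have hbk := cgb_swap hat
  have e1 : AtEq S' S' {(u₀, a.2)} := by
    refine cgb_comp hbk ha ?_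
    rintro _ rfl
    exact ⟨a.1, mu, mem_insert_of_mem _ rfl⟩
  have e2 : AtEq S' S' {(v₀, b.2)} := by
    refine cgb_comp hbk hb ?_
    rintro _ rfl
    exact ⟨b.1, mv, mem_insert_of_mem _ rfl⟩
  have e3 : AtEq S' S' {(u₀, a.2), (v₀, b.2)} := by
    refine hC'.full _ _ _ _ e1 e2 fun i => ?_
    rw [← rl_congr hat mu mv i]
    exact (cross2 (p := ∅) hC hC' hq hF hw (u := a.1) (u' := a.2) (v := b.1) (v' := b.2) ha hb
      h1 h2 i).1
  refine cgb_comp hat e3 ?_
  rintro _ (rfl | rfl)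
  · exact ⟨u₀, mu, mem_insert _ _⟩
  · exact ⟨v₀, mv, mem_insert_of_mem _ rfl⟩

/-- **Gluing along corresponding clusters.** -/
theorem glueC2 (hL : Ar2 L) (hC : Cx σ S) (hC' : Cx σ S') {F : Finset M} {F' : Finset N} {w : M}
    {w' : N} {q : Set (M × N)} (hq : BFR S S' univ univ 2 q) (hF : Mt q F F')
    (hw : (w, w') ∈ q) {U : Set M} {V : Set N} {γ : Ordinal.{0}} {p : Set (M × N)}
    (hp : ∀ a ∈ p, a.1 ∈ Cl σ S F w ↔ a.2 ∈ Cl σ S' F' w') (hp0 : (w, w') ∈ p)
    (h1 : BFR S S' (U ∩ Cl σ S F w) (V ∩ Cl σ S' F' w') γ {a ∈ p | a.1 ∈ Cl σ S F w})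
    (h2 : BFR S S' (U \ Cl σ S F w) (V \ Cl σ S' F' w') γ
      (insert (w, w') {a ∈ p | a.1 ∉ Cl σ S F w})) : BFR S S' U V γ p := by
  have hr : ({(w, w')} : Set (M × N)) ∪ p = p :=
    union_eq_right.mpr (singleton_subset_iff.mpr hp0)
  rw [← hr]
  refine glue (I := Prop) (fun a => a ∈ Cl σ S F w) (fun b => b ∈ Cl σ S' F' w')
    (q := fun _ => {(w, w')}) (r := {(w, w')}) ?_ γ ?_ ?_
  · intro p' hp' hi
    have hin : AtEq S S' ({(w, w')} ∪ {a ∈ p' | (a.1 ∈ Cl σ S F w) = True}) := hi True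
    have hout : AtEq S S' ({(w, w')} ∪ {a ∈ p' | (a.1 ∈ Cl σ S F w) = False}) := hi False
    have mi : ∀ a ∈ p', a.1 ∈ Cl σ S F w →
        a ∈ ({(w, w')} ∪ {a ∈ p' | (a.1 ∈ Cl σ S F w) = True} : Set (M × N)) :=
      fun a ha h => Or.inr ⟨ha, eq_true h⟩
    have mo : ∀ a ∈ p', a.1 ∉ Cl σ S F w →
        a ∈ ({(w, w')} ∪ {a ∈ p' | (a.1 ∈ Cl σ S F w) = False} : Set (M × N)) :=
      fun a ha h => Or.inr ⟨ha, eq_false h⟩
    have hcr : ∀ a ∈ p', ∀ b ∈ p', a.1 ∈ Cl σ S F w → b.1 ∉ Cl σ S F w → AtEq S S' {a, b} := by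
      intro a ha b hb h3 h4
      refine cgb_cross hC hC' hq hF hw (AtEq.anti ?_ hin) (AtEq.anti ?_ hout) h3 h4
      · rintro _ (rfl | rfl)
        · exact Or.inl rfl
        · exact mi _ ha h3
      · rintro _ (rfl | rfl)
        · exact Or.inl rfl
        · exact mo _ hb h4
    refine atEq_of_pairs hL fun a ha b hb => ?_
    rcases ha with ha | ha <;> rcases hb with hb | hb
    · refine AtEq.anti ?_ hin
      rintro _ (rfl | rfl)
      · exact Or.inl ha
      · exact Or.inl hb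
    · by_cases h3 : b.1 ∈ Cl σ S F w
      · refine AtEq.anti ?_ hin
        rintro _ (rfl | rfl)
        · exact Or.inl ha
        · exact mi _ hb h3
      · refine AtEq.anti ?_ hout
        rintro _ (rfl | rfl)
        · exact Or.inl ha
        · exact mo _ hb h3
    · by_cases h3 : a.1 ∈ Cl σ S F w
      · refine AtEq.anti ?_ hin
        rintro _ (rfl | rfl)
        · exact mi _ ha h3
        · exact Or.inl hb
      · refine AtEq.anti ?_ hout
        rintro _ (rfl | rfl)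
        · exact mo _ ha h3
        · exact Or.inl hb
    · by_cases h3 : a.1 ∈ Cl σ S F w <;> by_cases h4 : b.1 ∈ Cl σ S F w
      · refine AtEq.anti ?_ hin
        rintro _ (rfl | rfl)
        · exact mi _ ha h3
        · exact mi _ hb h4
      · exact hcr a ha b hb h3 h4
      · rw [pair_comm]
        exact hcr b hb a ha h4 h3
      · refine AtEq.anti ?_ hout
        rintro _ (rfl | rfl)
        · exact mo _ ha h3
        · exact mo _ hb h4
  · intro a ha
    exact propext (hp a ha)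
  · intro i
    by_cases hi : i
    · have hi' : i = True := eq_true hi
      subst hi'
      have e1 : {a ∈ U | (a ∈ Cl σ S F w) = True} = U ∩ Cl σ S F w := by
        ext a
        exact ⟨fun h => ⟨h.1, of_eq_true h.2⟩, fun h => ⟨h.1, eq_true h.2⟩⟩
      have e2 : {b ∈ V | (b ∈ Cl σ S' F' w') = True} = V ∩ Cl σ S' F' w' := by
        ext a
        exact ⟨fun h => ⟨h.1, of_eq_true h.2⟩, fun h => ⟨h.1, eq_true h.2⟩⟩
      show BFR S S' {a ∈ U | (a ∈ Cl σ S F w) = True} {b ∈ V | (b ∈ Cl σ S' F' w') = True} γ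
        ({(w, w')} ∪ {a ∈ p | (a.1 ∈ Cl σ S F w) = True})
      rw [e1, e2]
      refine BFR.anti ?_ h1
      rintro a (ha | ha)
      · rw [mem_singleton_iff] at ha
        subst ha
        exact ⟨hp0, cl_refl w⟩
      · exact ⟨ha.1, of_eq_true ha.2⟩
    · have hi' : i = False := eq_false hi
      subst hi'
      have e1 : {a ∈ U | (a ∈ Cl σ S F w) = False} = U \ Cl σ S F w := by
        ext a
        exact ⟨fun h => ⟨h.1, of_eq_false h.2⟩, fun h => ⟨h.1, eq_false h.2⟩⟩
      have e2 : {b ∈ V | (b ∈ Cl σ S' F' w') = False} = V \ Cl σ S' F' w' := by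
        ext a
        exact ⟨fun h => ⟨h.1, of_eq_false h.2⟩, fun h => ⟨h.1, eq_false h.2⟩⟩
      show BFR S S' {a ∈ U | (a ∈ Cl σ S F w) = False} {b ∈ V | (b ∈ Cl σ S' F' w') = False} γ
        ({(w, w')} ∪ {a ∈ p | (a.1 ∈ Cl σ S F w) = False})
      rw [e1, e2]
      refine BFR.anti ?_ h2
      rintro a (ha | ha)
      · exact Or.inl ha
      · exact Or.inr ⟨ha.1, of_eq_false ha.2⟩

end Pool.Agent.MON

end

/-! ### formerly `Pool.Agent.MON.K3` -/

section

/-!
# MON, module K3: wild clusters inside a wild cluster cannot all meet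

`Uq.false`. `P = Cl G z₀` is not tame: there are a finite `F₁` and points `c i ∈ P` (`i : Om`), `c i` and `c i'` not
`BFI`-equivalent over `F₁` on `univ` for `i ≠ i'` (otherwise there are only countably many classes and a code `κ`;
see `exists_inj` below). For `j : Om` let `B j = Cl {y j} (w j) ⊆ P` be wild and disjoint from `F₁ ∪ {c i : od i < od j}`
(`Uq.avoid`). Let `a j` be the tuple (`w j, y j`, enumeration of `G`), `V` the set given by `VSt.limit`: for
`γ < om1`, all but countably many `j, j' ∈ V` satisfy `BFR S S univ univ γ` of the pairing of `a j` and `a j'`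
(compose through the limit). Let `r` be the level of `Uq.level`, `β = r + ω + ω`. For `i < j` let `κ j i` be the
`VSt.code` at level `β` of the tuple (`a j`, `c i`, enumeration of `F₁`). For every `i` some value `k i` is taken for uncountably many
`j ∈ V`, and `k i = k i'` for some `i ≠ i'`. CLAIM: `BFI S S univ univ (insert (c i, c i') (dg F₁))`, a contradiction.
Let `γ < om1`, `γ ≥ 2`; choose `j > i`, `j' > i'` in `V` with the value `k i`, both good for `γ`. Put `p = {(w j, w j'), (c i, c i')} ∪ dg F₁`.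
(1) on `P \ B j → P \ B j'`: the map `p` without the pairs outside `P` is of level `β` (restrict the map of level `β` given by the codes:
`resC1` for `B j`, `resC` or `resC1` for `P = Cl G (w j) = Cl G (w j')`), hence of all levels by `Sb.det` with `Uq.level`, base `w j`.
(2) on `B j → B j'`: `{(w j, w j')}` is of level `γ` (restrict the map of `a j, a j'`: `resC1`).
(3) `glueC2` with `q` = the map of `a j, a j'` (level `γ ≥ 2`), `F = {y j}`, `F' = {y j'}`, `U = V = P`: `P → P` is of level `γ`.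
(4) `glueC` for `P = Cl G (w j)`, base `(w j, w j')` (`Ce G (w j) (w j')` because the map of `a j, a j'` fixes `G` pointwise)
and the identity outside `P` (`idOut`): `univ → univ` is of level `γ`, for `p`.
-/

set_option autoImplicit false
set_option linter.unusedSectionVars false
set_option linter.unusedVariables false

namespace Pool.Agent.MON

open Set Pool.Agent.Helper5 Pool.Agent.Helper5.DU Pool.Agent.Helper6.Str
  Pool.Agent.Helper79.VC Pool.Agent.Helper97.VC Pool.Agent.Helper97.MD Pool.Agent.Helper6.VC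
  Pool.Agent.Helper97.LO

variable {L : FirstOrder.Language.{0, 0}} {M N : Type} {σ : Sig L} {S : L.Structure M}
variable [∀ n, IsEmpty (L.Functions n)] [∀ n, Countable (L.Relations n)]
  {K : Set (L.Structure ℕ)} {δ : Ordinal.{0}}

theorem k3_pig {V : Set Om} (hV : ¬ V.Countable) (f : Om → ℕ) :
    ∃ k, ¬ {j | j ∈ V ∧ f j = k}.Countable := by
  by_contra hcon
  push Not at hcon
  refine hV ((countable_iUnion hcon).mono ?_)
  intro j hj
  exact mem_iUnion.mpr ⟨f j, hj, rfl⟩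

theorem k3_mt {p : Set (M × N)} {y : M} {y' : N} (h : (y, y') ∈ p) :
    Mt p ({y} : Finset M) ({y'} : Finset N) := by
  refine ⟨fun x hx => ⟨y', Finset.mem_singleton_self _, ?_⟩,
    fun x hx => ⟨y, Finset.mem_singleton_self _, ?_⟩⟩
  · rw [Finset.mem_singleton.mp hx]
    exact h
  · rw [Finset.mem_singleton.mp hx]
    exact h

theorem k3_enum (F : Finset M) : ∃ (n : ℕ) (e : Fin n → M), ∀ x ∈ F, ∃ k, e k = x := by
  refine ⟨F.card, fun k => (F.equivFin.symm k).1, fun x hx => ⟨F.equivFin ⟨x, hx⟩, ?_⟩⟩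
  simp

theorem exists_inj {X : Set M} (h : ¬ TT S X) : ∃ (F : Finset M) (c : Om → M), (∀ i, c i ∈ X) ∧
    ∀ i i', i ≠ i' → ¬ BFI S S univ univ (insert (c i, c i') (dg (F : Set M))) := by
  classical
  unfold TT at h
  push Not at h
  obtain ⟨F, hF⟩ := h
  have hrefl : ∀ a : M, BFI S S univ univ (insert (a, a) (dg (F : Set M))) := by
    intro a γ _
    refine BFR.refl S univ γ ?_
    rintro _ (rfl | ⟨b, -, rfl⟩)
    · exact ⟨mem_univ _, rfl⟩
    · exact ⟨mem_univ _, rfl⟩
  have hsymm : ∀ a b : M, BFI S S univ univ (insert (a, b) (dg (F : Set M))) →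
      BFI S S univ univ (insert (b, a) (dg (F : Set M))) := by
    intro a b hab γ hγ
    refine (hab γ hγ).symm ?_
    rintro _ (rfl | ⟨x, hx, rfl⟩)
    · exact mem_insert _ _
    · exact mem_insert_of_mem _ ⟨x, hx, rfl⟩
  have htrans : ∀ a b c : M, BFI S S univ univ (insert (a, b) (dg (F : Set M))) →
      BFI S S univ univ (insert (b, c) (dg (F : Set M))) →
      BFI S S univ univ (insert (a, c) (dg (F : Set M))) := by
    intro a b c hab hbc γ hγ
    refine (hab γ hγ).trans (hbc γ hγ) ?_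
    rintro _ (rfl | ⟨x, hx, rfl⟩)
    · exact ⟨b, mem_insert _ _, mem_insert _ _⟩
    · exact ⟨x, mem_insert_of_mem _ ⟨x, hx, rfl⟩, mem_insert_of_mem _ ⟨x, hx, rfl⟩⟩
  let s : Setoid X := {
    r := fun a b => BFI S S univ univ (insert (a.1, b.1) (dg (F : Set M)))
    iseqv := ⟨fun a => hrefl a.1, fun {a b} h => hsymm _ _ h, fun {a b c} h h' => htrans _ _ _ h h'⟩ }
  have hunc : Uncountable (Quotient s) := by
    rw [← not_countable_iff]
    intro hc
    obtain ⟨e, he⟩ := exists_injective_nat (Quotient s)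
    obtain ⟨c, hc, c', hc', hκ, hn⟩ := hF fun m => if hm : m ∈ X then e (Quotient.mk s ⟨m, hm⟩) else 0
    simp only [dif_pos hc, dif_pos hc'] at hκ
    exact hn (Quotient.exact (he hκ))
  have hcard : Cardinal.mk Om ≤ Cardinal.mk (Quotient s) := by
    have h1 : Cardinal.mk Om = Cardinal.aleph 1 := by
      rw [Cardinal.mk_toType, Ordinal.card_omega]
    rw [h1, ← Cardinal.succ_aleph0]
    exact Order.succ_le_of_lt (Cardinal.aleph0_lt_mk_iff.mpr hunc)
  obtain ⟨f⟩ := hcard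
  refine ⟨F, fun i => (f i).out.1, fun i => (f i).out.2, fun i i' hne hb => hne (f.injective ?_)⟩
  rw [← Quotient.out_eq (f i), ← Quotient.out_eq (f i')]
  exact Quotient.sound hb

theorem Uq.false (hL : Ar2 L) (hS : VSt K δ S) (hC : Cx σ S) {G : Finset M} {z₀ : M}
    (hU : Uq σ S G z₀) : False := by
  classical
  obtain ⟨F₁, c, hcP, hc⟩ := exists_inj hU.wild
  -- the small clusters
  have hch : ∀ j : Om, ∃ y w, y ∈ Cl σ S G z₀ ∧ ¬ TT S (Cl σ S {y} w) ∧
      Cl σ S {y} w ⊆ Cl σ S G z₀ ∧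
      Disjoint ((F₁ : Set M) ∪ c '' {i | od i < od j}) (Cl σ S {y} w) := fun j =>
    hU.avoid hL hS hC (F₁.finite_toSet.countable.union ((countable_od_lt (od_lt j)).image c))
  choose y w hyP hBw hBP hdis using hch
  have hwB : ∀ j, w j ∈ Cl σ S {y j} (w j) := fun j => cl_refl _
  have hwP : ∀ j, w j ∈ Cl σ S G z₀ := fun j => hBP j (hwB j)
  have hPe : ∀ j, Cl σ S G (w j) = Cl σ S G z₀ := fun j => hC.cl_eq (hwP j)
  have hF1 : ∀ j, ∀ x ∈ F₁, x ∉ Cl σ S {y j} (w j) := fun j x hx hx' =>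
    disjoint_left.mp (hdis j) (Or.inl (Finset.mem_coe.mpr hx)) hx'
  have hcB : ∀ i j, od i < od j → c i ∉ Cl σ S {y j} (w j) := fun i j hij hx' =>
    disjoint_left.mp (hdis j) (Or.inr ⟨i, hij, rfl⟩) hx'
  -- the tuples
  obtain ⟨n, e, he⟩ := k3_enum (G ∪ F₁)
  let a : Om → Fin (n + 2) → M := fun j => Fin.cons (w j) (Fin.cons (y j) e)
  obtain ⟨N, T, b, V, hV, -, hlim⟩ := hS.limit a
  have haw : ∀ j j', (w j, w j') ∈ range fun k => (a j k, a j' k) := fun j j' => ⟨0, rfl⟩
  have hay : ∀ j j', (y j, y j') ∈ range fun k => (a j k, a j' k) := fun j j' => ⟨1, rfl⟩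
  have hae : ∀ j j', ∀ x ∈ G ∪ F₁, (x, x) ∈ range fun k => (a j k, a j' k) := by
    intro j j' x hx
    obtain ⟨k, rfl⟩ := he x hx
    exact ⟨k.succ.succ, rfl⟩
  have hgood : ∀ γ < om1, ∃ C : Set Om, C.Countable ∧ ∀ j ∈ V, j ∉ C → ∀ j' ∈ V, j' ∉ C →
      BFR S S univ univ γ (range fun k => (a j k, a j' k)) := by
    intro γ hγ
    obtain ⟨C, hCc, h1⟩ := hlim γ hγ
    refine ⟨C, hCc, fun j hj hjC j' hj' hjC' => ?_⟩
    have h2 : BFR S T univ univ γ (range fun k => (a j k, b k)) := by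
      refine (h1 j hj hjC).symm ?_
      rintro _ ⟨k, rfl⟩
      exact ⟨k, rfl⟩
    refine h2.trans (h1 j' hj' hjC') ?_
    rintro _ ⟨k, rfl⟩
    exact ⟨b k, ⟨k, rfl⟩, ⟨k, rfl⟩⟩
  -- the level of the complements and the codes
  obtain ⟨r, hr, hlev⟩ := hU.level hL hS hC
  have hβ : r + Ordinal.omega0 < om1 := add_lt_om1 hr omega_lt_om1
  obtain ⟨κ, hκ⟩ := hS.code hβ (n + 3)
  let t : Om → Om → Fin (n + 3) → M := fun j i => Fin.cons (c i) (a j)
  have hk : ∀ i, ∃ k, ¬ {j | j ∈ V ∧ κ (t j i) = k}.Countable := fun i =>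
    k3_pig hV fun j => κ (t j i)
  choose k hk using hk
  have hkn : ¬ Function.Injective k := by
    intro hinj
    have h1 : Countable Om := hinj.countable
    exact not_countable_om (countable_univ_iff.mpr h1)
  have hkn' : ∃ i i', k i = k i' ∧ i ≠ i' := by
    by_contra hcon
    refine hkn fun i i' h => ?_
    by_contra hne
    exact hcon ⟨i, i', h, hne⟩
  obtain ⟨i, i', hkk, hne⟩ := hkn'
  refine hc i i' hne fun γ₀ hγ₀ => ?_
  -- the level at which we work
  obtain ⟨γ, hγ, hγγ, hγ2⟩ : ∃ γ < om1, γ₀ ≤ γ ∧ (2 : Ordinal.{0}) ≤ γ :=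
    ⟨γ₀ + 2, add_lt_om1 hγ₀ (by exact_mod_cast natCast_lt_om1 2), le_self_add, le_add_self⟩
  obtain ⟨C, hCc, hgd⟩ := hgood γ hγ
  have hpick : ∀ i, ∃ j, j ∈ V ∧ κ (t j i) = k i ∧ j ∉ C ∧ od i < od j := by
    intro i
    by_contra hcon
    push Not at hcon
    have hle : {j : Om | od j ≤ od i}.Countable := by
      refine (countable_od_lt (add_one_lt_om1 (od_lt i))).mono ?_
      intro j hj
      exact Order.lt_add_one_iff.mpr (show od j ≤ od i from hj)
    refine hk i ((hCc.union hle).mono ?_)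
    rintro j ⟨h1, h2⟩
    by_cases h3 : j ∈ C
    · exact Or.inl h3
    · exact Or.inr (hcon j h1 h2 h3)
  obtain ⟨j, hjV, hjk, hjC, hij⟩ := hpick i
  obtain ⟨j', hjV', hjk', hjC', hij'⟩ := hpick i'
  -- the two maps
  have hq := hgd j hjV hjC j' hjV' hjC'
  have hq2 := hq.mono hγ2
  have hcode : BFR S S univ univ (r + Ordinal.omega0) (Pool.Agent.Helper5.DU.pr (t j i) (t j' i')) :=
    hκ _ _ (by rw [hjk, hjk', hkk])
  have htc : (c i, c i') ∈ Pool.Agent.Helper5.DU.pr (t j i) (t j' i') := ⟨0, rfl⟩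
  have htw : (w j, w j') ∈ Pool.Agent.Helper5.DU.pr (t j i) (t j' i') := ⟨1, rfl⟩
  have hty : (y j, y j') ∈ Pool.Agent.Helper5.DU.pr (t j i) (t j' i') := ⟨2, rfl⟩
  have hte : ∀ x ∈ G ∪ F₁, (x, x) ∈ Pool.Agent.Helper5.DU.pr (t j i) (t j' i') := by
    intro x hx
    obtain ⟨l, rfl⟩ := he x hx
    exact ⟨l.succ.succ.succ, rfl⟩
  let p₁ : Set (M × M) := {z | z ∈ insert (c i, c i') (dg (F₁ : Set M)) ∧ z.1 ∈ Cl σ S G z₀}
  have hp₁f : p₁.Finite := by
    have h0 : (insert (c i, c i') (dg (F₁ : Set M))).Finite :=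
      (F₁.finite_toSet.image _).insert _
    exact h0.subset fun z hz => hz.1
  have hp₁1 : ∀ z ∈ p₁, z.1 ∈ Cl σ S G z₀ \ Cl σ S {y j} (w j) ∧
      z.2 ∈ Cl σ S G z₀ \ Cl σ S {y j'} (w j') := by
    rintro z ⟨rfl | ⟨x, hx, rfl⟩, hz⟩
    · exact ⟨⟨hcP i, hcB i j hij⟩, ⟨hcP i', hcB i' j' hij'⟩⟩
    · exact ⟨⟨hz, hF1 j x hx⟩, ⟨hz, hF1 j' x hx⟩⟩
  -- (1)
  have hA : BFR S S (Cl σ S G z₀ \ Cl σ S {y j} (w j)) (Cl σ S G z₀ \ Cl σ S {y j'} (w j'))
      (r + Ordinal.omega0) (Pool.Agent.Helper5.DU.pr (t j i) (t j' i')) := by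
    have hMG : Mt (Pool.Agent.Helper5.DU.pr (t j i) (t j' i')) G G :=
      ⟨fun x hx => ⟨x, hx, hte x (Finset.mem_union_left _ hx)⟩,
        fun x hx => ⟨x, hx, hte x (Finset.mem_union_left _ hx)⟩⟩
    have h1 := (resC1 (σ := σ) hMG htw hcode).1
    rw [univ_inter, univ_inter, hPe j, hPe j'] at h1
    exact (resC1 (σ := σ) (k3_mt hty) htw h1).2
  have h1 : BFR S S (Cl σ S G z₀ \ Cl σ S {y j} (w j)) (Cl σ S G z₀ \ Cl σ S {y j'} (w j'))
      γ (insert (w j, w j') p₁) := by
    refine Sb.det hr (hlev {y j} (w j) (hBP j) (hBw j)) (BFR.anti ?_ hA) γ hp₁f hp₁1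
      (BFR.anti ?_ (hA.mono le_self_add))
    · intro z hz
      rw [mem_singleton_iff.mp hz]
      exact htw
    · rintro z (rfl | ⟨rfl | ⟨x, hx, rfl⟩, -⟩)
      · exact htw
      · exact htc
      · exact hte x (Finset.mem_union_right _ hx)
  -- (2)
  have hMG : Mt (range fun k => (a j k, a j' k)) G G :=
    ⟨fun x hx => ⟨x, hx, hae j j' x (Finset.mem_union_left _ hx)⟩,
      fun x hx => ⟨x, hx, hae j j' x (Finset.mem_union_left _ hx)⟩⟩
  have h2 : BFR S S (Cl σ S G z₀ ∩ Cl σ S {y j} (w j)) (Cl σ S G z₀ ∩ Cl σ S {y j'} (w j'))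
      γ (range fun k => (a j k, a j' k)) := by
    have h3 := (resC1 (σ := σ) hMG (haw j j') hq).1
    rw [univ_inter, univ_inter, hPe j, hPe j'] at h3
    exact (resC1 (σ := σ) (k3_mt (hay j j')) (haw j j') h3).1
  -- (3)
  have h3 : BFR S S (Cl σ S G z₀) (Cl σ S G z₀) γ (insert (w j, w j') p₁) := by
    refine glueC2 (F := {y j}) (F' := {y j'}) hL hC hC hq2 (k3_mt (hay j j')) (haw j j') ?_
      (mem_insert _ _) (BFR.anti ?_ h2) (BFR.anti ?_ h1)
    · rintro z (rfl | hz)
      · exact ⟨fun _ => hwB j', fun _ => hwB j⟩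
      · exact ⟨fun h => absurd h (hp₁1 z hz).1.2, fun h => absurd h (hp₁1 z hz).2.2⟩
    · rintro z ⟨rfl | hz, hzB⟩
      · exact haw j j'
      · exact absurd hzB (hp₁1 z hz).1.2
    · rintro z (rfl | ⟨hz, -⟩)
      · exact mem_insert _ _
      · exact hz
  -- (4)
  have hx : w j' ∈ Cl σ S G (w j) := by
    rw [hPe j]
    exact hwP j'
  have hce : Ce σ S G (w j) (w j') := by
    intro g hg l
    exact rl_congr hq.atEq (hae j j' g (Finset.mem_union_left _ hg)) (haw j j') l
  have hat : AtEq S S {(w j, w j')} := by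
    refine AtEq.anti ?_ hq.atEq
    intro z hz
    rw [mem_singleton_iff.mp hz]
    exact haw j j'
  have h4 : BFR S S univ univ γ (insert (w j, w j') (insert (c i, c i') (dg (F₁ : Set M)))) := by
    refine glueC (F := G) hL hC hx hce ?_ (mem_insert _ _) ?_ ?_
    · rw [hPe j]
      rintro z (rfl | rfl | ⟨x, hx, rfl⟩)
      · exact ⟨fun _ => hwP j', fun _ => hwP j⟩
      · exact ⟨fun _ => hcP i', fun _ => hcP i⟩
      · exact Iff.rfl
    · rw [hPe j, univ_inter]
      refine BFR.anti ?_ h3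
      rintro z ⟨rfl | hz, hzP⟩
      · exact mem_insert _ _
      · exact mem_insert_of_mem _ ⟨hz, hzP⟩
    · have h5 := idOut (G := {x | x ∈ F₁ ∧ x ∉ Cl σ S G (w j)}) hL hC hx hce hat
        (U := univ \ Cl σ S G (w j)) disjoint_sdiff_left (by
          rw [disjoint_left]
          exact fun x hx => hx.2) γ
      refine BFR.anti ?_ h5
      rw [hPe j]
      rintro z (rfl | ⟨rfl | rfl | ⟨x, hx, rfl⟩, hz⟩)
      · exact mem_insert _ _
      · exact mem_insert _ _
      · exact absurd (hcP i) hz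
      · exact mem_insert_of_mem _ ⟨x, ⟨hx, hz⟩, rfl⟩
  exact BFR.anti (subset_insert _ _) (h4.mono hγγ)

end Pool.Agent.MON

end

/-! ### formerly `Pool.Agent.MON.K4` -/

section

/-!
# MON, module K4: infinitely many disjoint wild clusters

`exists_two`: otherwise `Uq σ S G z₀` holds, contradiction with `Uq.false`.
`exists_seq`: recursion: state = a wild cluster `Cl G z` inside the first one; `exists_two` gives two disjoint wild clusters inside
it, the first is output, the second is the next state. So the outputs are pairwise disjoint.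
-/

set_option autoImplicit false
set_option linter.unusedSectionVars false
set_option linter.unusedVariables false

namespace Pool.Agent.MON

open Set Pool.Agent.Helper5 Pool.Agent.Helper5.DU Pool.Agent.Helper6.Str
  Pool.Agent.Helper79.VC Pool.Agent.Helper97.VC Pool.Agent.Helper97.MD Pool.Agent.Helper6.VC
  Pool.Agent.Helper97.LO

variable {L : FirstOrder.Language.{0, 0}} {M N : Type} {σ : Sig L} {S : L.Structure M}
variable [∀ n, IsEmpty (L.Functions n)] [∀ n, Countable (L.Relations n)]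
  {K : Set (L.Structure ℕ)} {δ : Ordinal.{0}}

/-- **Two disjoint wild clusters.** -/
theorem exists_two (hL : Ar2 L) (hS : VSt K δ S) (hC : Cx σ S) {G : Finset M} {z₀ : M}
    (h : ¬ TT S (Cl σ S G z₀)) : ∃ F F' x x', Cl σ S F x ⊆ Cl σ S G z₀ ∧
      Cl σ S F' x' ⊆ Cl σ S G z₀ ∧ ¬ TT S (Cl σ S F x) ∧ ¬ TT S (Cl σ S F' x') ∧
      Disjoint (Cl σ S F x) (Cl σ S F' x') := by
  by_contra hcon
  refine Uq.false hL hS hC (G := G) (z₀ := z₀) ⟨h, fun F F' x x' h1 h2 h3 h4 => ?_⟩
  by_contra hne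
  exact hcon ⟨F, F', x, x', h1, h2, h3, h4,
    Set.disjoint_iff_inter_eq_empty.mpr (Set.not_nonempty_iff_eq_empty.mp hne)⟩

/-- **Infinitely many disjoint wild clusters.** -/
theorem exists_seq (hL : Ar2 L) (hS : VSt K δ S) (hC : Cx σ S) {G : Finset M} {z₀ : M}
    (h : ¬ TT S (Cl σ S G z₀)) : ∃ (F : ℕ → Finset M) (x : ℕ → M),
      (∀ n, Cl σ S (F n) (x n) ⊆ Cl σ S G z₀) ∧ (∀ n, ¬ TT S (Cl σ S (F n) (x n))) ∧
      ∀ m n, m ≠ n → Disjoint (Cl σ S (F m) (x m)) (Cl σ S (F n) (x n)) := by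
  have hst : ∀ s : {p : Finset M × M // ¬ TT S (Cl σ S p.1 p.2)},
      ∃ o s' : {p : Finset M × M // ¬ TT S (Cl σ S p.1 p.2)},
        Cl σ S o.1.1 o.1.2 ⊆ Cl σ S s.1.1 s.1.2 ∧ Cl σ S s'.1.1 s'.1.2 ⊆ Cl σ S s.1.1 s.1.2 ∧
        Disjoint (Cl σ S o.1.1 o.1.2) (Cl σ S s'.1.1 s'.1.2) := by
    rintro ⟨⟨F, x⟩, hx⟩
    obtain ⟨F₁, F₂, x₁, x₂, h1, h2, h3, h4, h5⟩ := exists_two hL hS hC hx
    exact ⟨⟨⟨F₁, x₁⟩, h3⟩, ⟨⟨F₂, x₂⟩, h4⟩, h1, h2, h5⟩
  choose o nx h1 h2 h3 using hst
  let st : ℕ → {p : Finset M × M // ¬ TT S (Cl σ S p.1 p.2)} :=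
    fun n => Nat.rec ⟨(G, z₀), h⟩ (fun _ s => nx s) n
  have hst : ∀ n, st (n + 1) = nx (st n) := fun n => rfl
  have hmono : ∀ m k, Cl σ S (st (m + k)).1.1 (st (m + k)).1.2 ⊆
      Cl σ S (st m).1.1 (st m).1.2 := by
    intro m k
    induction k with
    | zero => exact Subset.rfl
    | succ k ih =>
      have e : st (m + (k + 1)) = nx (st (m + k)) := rfl
      rw [e]
      exact (h2 _).trans ih
  have hlt : ∀ m n, m < n →
      Disjoint (Cl σ S (o (st m)).1.1 (o (st m)).1.2) (Cl σ S (o (st n)).1.1 (o (st n)).1.2) := by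
    intro m n hmn
    obtain ⟨k, rfl⟩ : ∃ k, n = m + 1 + k := ⟨n - (m + 1), by omega⟩
    exact (h3 (st m)).mono_right ((h1 _).trans (hmono (m + 1) k))
  refine ⟨fun n => (o (st n)).1.1, fun n => (o (st n)).1.2, fun n => ?_,
    fun n => (o (st n)).2, fun m n hmn => ?_⟩
  · have h4 := hmono 0 n
    rw [Nat.zero_add] at h4
    exact (h1 _).trans h4
  · rcases lt_or_gt_of_ne hmn with h4 | h4
    · exact hlt m n h4
    · exact (hlt n m h4).symm

end Pool.Agent.MON

end
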