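import Pool.Agent.VB.O
import Pool.Agent.VB.P
import Pool.Agent.MON.FINc
import Pool.Agent.MOP.Defs
import Pool.Agent.VB.G

/-!
# Tools for Vaught's conjecture, part 17: monotone parts, main theorem

Merged file (to shorten the import chain): contents, unchanged, of
`Pool.Agent.MON.MAIN`, `Pool.Agent.MON.FINd`, `Pool.Agent.MOP.SAT`, `Pool.Agent.MOP.PMT`.
-/

/-! ### formerly `Pool.Agent.MON.MAIN` -/

section

/-!
# MON: the main theorem
-/

set_option autoImplicit false
set_option linter.unusedSectionVars false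
set_option linter.unusedVariables false

namespace Pool.Agent.MON

open Set Pool.Agent.Helper5 Pool.Agent.Helper5.DU Pool.Agent.Helper6.Str
  Pool.Agent.Helper79.VC Pool.Agent.Helper97.VC Pool.Agent.Helper97.MD Pool.Agent.Helper6.VC
  Pool.Agent.Helper97.LO

variable {L : FirstOrder.Language.{0, 0}} {M N : Type} {σ : Sig L} {S : L.Structure M}
variable [∀ n, IsEmpty (L.Functions n)] [∀ n, Countable (L.Relations n)]
  {K : Set (L.Structure ℕ)} {δ : Ordinal.{0}}

theorem main_cx (hL : Ar2 L) (hS : VSt K δ S) (hC : Cx σ S) : TT S univ := by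
  by_contra hcon
  obtain ⟨z, -, hz, -⟩ := exists_wild hL hS hC ∅ (fun _ _ _ _ => mem_univ _) hcon
  by_cases hU : Unb σ S
  · exact case_b hL hS hC hU ⟨∅, z, hz⟩
  · unfold Unb at hU
    push Not at hU
    obtain ⟨G, z₀, h0, a, ha, hb⟩ := hU
    obtain ⟨F, x, h1, h2, h3⟩ := exists_seq hL hS hC h0
    refine case_a hL hS hC (a := a) (F := F) (x := x) ⟨ha, h2, h3, fun n F' x' h4 h5 => ?_⟩
    exact hb F' x' (h4.trans (h1 n)) h5

/-- **Large structures with monotone relations are tame.** -/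
theorem main (hL : Ar2 L) (hS : VSt K δ S) (hM : Mon σ S) : TT S univ :=
  main_cx hL hS hM.cx

end Pool.Agent.MON

end

/-! ### formerly `Pool.Agent.MON.FINd` -/

section

/-!
# Convex relations with monotone ends: the unconditional dichotomy
-/

set_option autoImplicit false
set_option linter.unusedSectionVars false
set_option linter.unusedVariables false

namespace Pool.Agent.MON

open Set Pool.Agent.Helper5 Pool.Agent.Helper5.DU Pool.Agent.Helper6.Str
  Pool.Agent.Helper79.VC Pool.Agent.Helper97.VC Pool.Agent.Helper97.MD Pool.Agent.Helper6.VC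
  Pool.Agent.Helper97.LO

theorem mainStatement : MainStatement := fun _ _ _ _ hS hM => main lw_ar2 hS hM

end Pool.Agent.MON

end

/-! ### formerly `Pool.Agent.MOP.SAT` -/

section

/-!
# Schemes and injections
-/

set_option autoImplicit false
set_option linter.unusedSectionVars false
set_option linter.unusedVariables false

namespace Pool.Agent.MOP

open Set Pool.Agent.Helper5 Pool.Agent.Helper5.DU Pool.Agent.Helper6.Str
  Pool.Agent.Helper79.VC Pool.Agent.Helper97.VC Pool.Agent.Helper97.MD Pool.Agent.Helper6.VC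
  Pool.Agent.Helper97.LO

variable {L : FirstOrder.Language.{0, 0}} {M N P : Type}

/-- isomorphisms preserve satisfaction -/
theorem sat_equiv {A B : Type} {S : L.Structure A} {S' : L.Structure B} {f : A → B}
    (hf : Function.Surjective f) (hfi : Function.Injective f)
    (h : ∀ (n : ℕ) (r : L.Relations n) (v : Fin n → A),
      S.RelMap r v ↔ S'.RelMap r (fun i => f (v i))) {n : ℕ} (ψ : FmI L n) :
    ∀ v : Fin n → A, Sat S ψ v ↔ Sat S' ψ (f ∘ v) := by
  induction ψ with
  | eq i j => exact fun v => hfi.eq_iff.symm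
  | rel r w => exact fun v => h _ r _
  | neg ψ ih => exact fun v => not_congr (ih v)
  | conj ψ ih => exact fun v => forall_congr' fun k => ih k v
  | ex ψ ih =>
    intro v
    constructor
    · rintro ⟨a, ha⟩
      refine ⟨f a, ?_⟩
      rw [← Fin.comp_snoc]
      exact (ih _).mp ha
    · rintro ⟨b, hb⟩
      obtain ⟨a, rfl⟩ := hf b
      refine ⟨a, (ih _).mpr ?_⟩
      rw [Fin.comp_snoc]
      exact hb

theorem offd_rel {R : Type} {τ : M → M → Set R × Set R} {P : Set M} {r : R} {v : Fin 2 → P} :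
    (offd τ P).RelMap (n := 2) r v ↔ v 0 ≠ v 1 ∧ r ∈ (τ (v 0) (v 1)).1 := Iff.rfl

/-- the restriction of an injection -/
theorem sat_offd {R : Type} {τ : M → M → Set R × Set R} {τ' : N → N → Set R × Set R} {e : N → M}
    (he : Function.Injective e) (h : ∀ x y, x ≠ y → τ' x y = τ (e x) (e y)) {P : Set N}
    {Q : Set M} (hQ : ∀ x, x ∈ P → e x ∈ Q) (hQ' : ∀ y ∈ Q, ∃ x ∈ P, e x = y) {n : ℕ}
    (ψ : FmI (binL R) n) (v : Fin n → P) :
    Sat (offd τ' P) ψ v ↔ Sat (offd τ Q) ψ (fun i => ⟨e (v i), hQ _ (v i).2⟩) := by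
  refine sat_equiv (f := fun x : P => (⟨e x, hQ _ x.2⟩ : Q)) ?_ ?_ ?_ ψ v
  · rintro ⟨y, hy⟩
    obtain ⟨x, hx, rfl⟩ := hQ' y hy
    exact ⟨⟨x, hx⟩, rfl⟩
  · intro x y hxy
    exact Subtype.ext (he (congrArg Subtype.val hxy))
  · intro n r v
    match n, r with
    | 0, r => exact nomatch r
    | 1, r => exact nomatch r
    | 2, r =>
      show (v 0 ≠ v 1 ∧ r ∈ (τ' (v 0) (v 1)).1) ↔ ((⟨e (v 0), _⟩ : Q) ≠ ⟨e (v 1), _⟩ ∧
        r ∈ (τ (e (v 0)) (e (v 1))).1)
      have h1 : v 0 ≠ v 1 ↔ (⟨e (v 0), hQ _ (v 0).2⟩ : Q) ≠ ⟨e (v 1), hQ _ (v 1).2⟩ := by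
        refine not_congr ⟨fun h2 => by rw [h2], fun h2 => ?_⟩
        exact Subtype.ext (he (congrArg Subtype.val h2))
      constructor
      · rintro ⟨h2, h3⟩
        refine ⟨h1.mp h2, ?_⟩
        rwa [← h _ _ fun h4 => h2 (Subtype.ext h4)]
      · rintro ⟨h2, h3⟩
        refine ⟨h1.mpr h2, ?_⟩
        rwa [h _ _ fun h4 => h1.mpr h2 (Subtype.ext h4)]
    | (n + 3), r => exact nomatch r

/-- transfer along an injection -/
theorem MonOver.comap {R : Type} {τ : M → M → Set R × Set R} {τ' : N → N → Set R × Set R}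
    {e : N → M} (he : Function.Injective e) (h : ∀ x y, x ≠ y → τ' x y = τ (e x) (e y))
    {P : Set N} {θ : Sch R} (hM : MonOver τ θ (e '' P)) : MonOver τ' θ P := by
  obtain ⟨c, hc⟩ := hM
  choose d hd hdc using fun i => (c i).2
  have hQ : ∀ x, x ∈ P → e x ∈ e '' P := fun x hx => ⟨x, hx, rfl⟩
  have hQ' : ∀ y ∈ e '' P, ∃ x ∈ P, e x = y := fun y hy => hy
  let c' : Fin θ.n → P := fun i => ⟨d i, hd i⟩
  let f : P → (e '' P : Set M) := fun x => ⟨e x, hQ _ x.2⟩
  have hfc : f ∘ c' = c := by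
    funext i
    exact Subtype.ext (hdc i)
  have hr : ∀ j x y, θ.rel τ' P c' j x y ↔ θ.rel τ (e '' P) c j (f x) (f y) := by
    intro j x y
    unfold Sch.rel
    rw [sat_offd he h hQ hQ']
    have e1 : (fun i => (⟨e ((Fin.snoc (Fin.snoc c' x : Fin (θ.n + 1) → P) y :
        Fin (θ.n + 1 + 1) → P) i), hQ _ (Subtype.prop _)⟩ : (e '' P : Set M))) =
        (Fin.snoc (Fin.snoc c (f x) : Fin (θ.n + 1) → (e '' P : Set M)) (f y) :
        Fin (θ.n + 1 + 1) → (e '' P : Set M)) := by
      show f ∘ _ = _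
      rw [Fin.comp_snoc, Fin.comp_snoc, hfc]
    rw [e1]
  have hu : ∀ j x, θ.un τ' P c' j x ↔ θ.un τ (e '' P) c j (f x) := by
    intro j x
    unfold Sch.un
    rw [sat_offd he h hQ hQ']
    have e1 : (fun i => (⟨e ((Fin.snoc c' x : Fin (θ.n + 1) → P) i),
        hQ _ (Subtype.prop _)⟩ : (e '' P : Set M))) =
        (Fin.snoc c (f x) : Fin (θ.n + 1) → (e '' P : Set M)) := by
      show f ∘ _ = _
      rw [Fin.comp_snoc, hfc]
    rw [e1]
  have hfi : Function.Injective f := fun x y hxy => Subtype.ext (he (congrArg Subtype.val hxy))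
  refine ⟨c', ?_, ?_, ?_, ?_, ?_, ?_⟩
  · exact fun x => (hr _ _ _).mpr (hc.refl _)
  · exact fun x y h1 h2 => hfi (hc.anti _ _ ((hr _ _ _).mp h1) ((hr _ _ _).mp h2))
  · exact fun x y z h1 h2 => (hr _ _ _).mpr (hc.trans _ _ _ ((hr _ _ _).mp h1) ((hr _ _ _).mp h2))
  · exact fun x y => (hc.total (f x) (f y)).imp (hr _ _ _).mpr (hr _ _ _).mpr
  · exact fun j x' x y y' h1 h2 h3 => (hr _ _ _).mpr (hc.mono _ _ _ _ _ ((hr _ _ _).mp h1)
      ((hr _ _ _).mp h2) ((hr _ _ _).mp h3))
  · intro x y x' y' h1 h2 h3 h4 h5 h6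
    have h7 := hc.det (f x) (f y) (f x') (f y') (fun h => h1 (hfi h)) (fun h => h2 (hfi h))
      (fun j => by rw [← hu, ← hu]; exact h3 j) (fun j => by rw [← hu, ← hu]; exact h4 j)
      (fun j => by rw [← hr, ← hr]; exact h5 j) (fun j => by rw [← hr, ← hr]; exact h6 j)
    rw [h _ _ fun h => h1 (Subtype.ext h), h _ _ fun h => h2 (Subtype.ext h)]
    exact h7

end Pool.Agent.MOP

end

/-! ### formerly `Pool.Agent.MOP.PMT` -/

section

/-!
# The class of a chain of nodes: the monotone case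
-/

set_option autoImplicit false
set_option linter.unusedSectionVars false
set_option linter.unusedVariables false

namespace Pool.Agent.MOP

open Set Pool.Agent.Helper5 Pool.Agent.Helper5.DU Pool.Agent.Helper6.Str
  Pool.Agent.Helper79.VC Pool.Agent.Helper97.VC Pool.Agent.Helper97.MD Pool.Agent.Helper6.VC
  Pool.Agent.Helper97.LO Pool.Agent.Helper97.LO.TR Pool.Agent.MON

variable {L : FirstOrder.Language.{0, 0}} {M N P : Type}

theorem convMono_of_mono {le R : M → M → Prop} (ht : ∀ x y, le x y ∨ le y x)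
    (h : ∀ x' x y y', le x' x → R x y → le y y' → R x' y') (hr : ∀ x, le x x) :
    ConvMono le R := by
  refine ⟨fun x y z t h1 _ h2 _ => h x x y z (hr x) h1 h2, fun x x' y y' hx h1 h2 => ⟨?_, ?_⟩⟩
  · rcases ht y y' with h3 | h3
    · exact ⟨y', h2, h3⟩
    · exact ⟨y, h x' x' y' y (hr _) h2 h3, hr y⟩
  · exact ⟨y', h x x' y' y' hx h2 (hr _), hr _⟩

theorem exists_schLev {R : Type} (θ : Sch R) :
    ∃ γ < om1, (∀ j, ordOf (rk (θ.D j)) ≤ γ) ∧ ∀ j, ordOf (rk (θ.U j)) ≤ γ := by
  let r : Rk := .sup fun n => rk (θ.D n)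
  let s : Rk := .sup fun n => rk (θ.U n)
  refine ⟨max (ordOf r) (ordOf s), max_lt (ordOf_lt _) (ordOf_lt _), fun j => ?_, fun j => ?_⟩
  · refine le_trans ?_ (le_max_left _ _)
    exact Ordinal.le_iSup (fun n => ordOf (rk (θ.D n))) j
  · refine le_trans ?_ (le_max_right _ _)
    exact Ordinal.le_iSup (fun n => ordOf (rk (θ.U n))) j

section

variable [∀ n, IsEmpty (L.Functions n)] [∀ n, Countable (L.Relations n)]
  {K : Set (L.Structure ℕ)} {δ : Ordinal.{0}} {S : L.Structure M}

theorem atEq_offd {S' : L.Structure N} {P : Set M} {Q : Set N} {q : Set (P × Q)}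
    (h : AtEq S S' ((fun a : P × Q => ((a.1 : M), (a.2 : N))) '' q)) :
    AtEq (offd (bt S) P) (offd (bt S') Q) q := by
  have hinj : ∀ a ∈ q, ∀ b ∈ q, (a.1 = b.1 ↔ a.2 = b.2) := by
    intro a ha b hb
    have := h.1 _ ⟨a, ha, rfl⟩ _ ⟨b, hb, rfl⟩
    simpa [Subtype.ext_iff] using this
  refine ⟨hinj, fun n r v hv => ?_⟩
  match n, r with
  | 0, r => exact nomatch r
  | 1, r => exact nomatch r
  | 2, r =>
    show ((v 0).1 ≠ (v 1).1 ∧ S.RelMap r ![((v 0).1 : M), ((v 1).1 : M)]) ↔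
      ((v 0).2 ≠ (v 1).2 ∧ S'.RelMap r ![((v 0).2 : N), ((v 1).2 : N)])
    refine and_congr (not_congr (hinj _ (hv 0) _ (hv 1))) ?_
    exact relT_of_atEq h ⟨v 0, hv 0, rfl⟩ ⟨v 1, hv 1, rfl⟩ r
  | (n + 3), r => exact nomatch r

/-- **The monotone case.** -/
theorem mono_tame (hL : Ar2 L) (hS : VSt K δ S) {X R : Set M} [Infinite X] {F : Finset M}
    {η : Ordinal.{0}} (hη : η < om1)
    (hX : ∀ c c', BFR S S univ univ η (insert (c, c') (dg (F : Set M))) → (c ∈ X ↔ c' ∈ X))
    (hR : ∀ c c', BFR S S univ univ η (insert (c, c') (dg (F : Set M))) → (c ∈ R ↔ c' ∈ R))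
    (hXR : X ⊆ R) {c₀ : M} (hc₀ : c₀ ∈ F)
    (hout : ∀ x ∈ X, ∀ x' ∈ X,
      (∀ Q : L.Relations 2, S.RelMap Q ![c₀, x] ↔ S.RelMap Q ![c₀, x']) →
      (∀ Q : L.Relations 2, S.RelMap Q ![x, c₀] ↔ S.RelMap Q ![x', c₀]) →
      ∀ g, g ∉ X → bt S x g = bt S x' g)
    {θ : Sch (L.Relations 2)} (hM : MonOver (bt S) θ R) :
    TameX (expS (pl S (Subtype.val : X → M)) (fun Q x => S.RelMap Q ![c₀, x.1])
      (fun Q x => S.RelMap Q ![x.1, c₀]) (fun _ _ => True)) univ := by
  classical
  obtain ⟨c, hc⟩ := hM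
  obtain ⟨γ, hγ, hγD, hγU⟩ := exists_schLev θ
  let ι : X → R := fun x => ⟨x.1, hXR x.2⟩
  have hι : Function.Injective ι := fun x y h => by
    have h1 : ((ι x : R) : M) = (ι y : R) := by rw [h]
    exact Subtype.ext h1
  let F' : Finset M := F ∪ Finset.univ.image fun i => (c i : M)
  -- unary predicates
  let I : Type := L.Relations 1 ⊕ (L.Relations 2 ⊕ (L.Relations 2 ⊕ (L.Relations 2 ⊕ ℕ)))
  have hIne : Nonempty I := ⟨Sum.inr (Sum.inr (Sum.inr (Sum.inr 0)))⟩
  obtain ⟨en, hen⟩ := exists_surjective_nat I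
  let un : I → X → Prop := fun i x => match i with
    | Sum.inl Q => S.RelMap Q ![x.1]
    | Sum.inr (Sum.inl Q) => S.RelMap Q ![x.1, x.1]
    | Sum.inr (Sum.inr (Sum.inl Q)) => S.RelMap Q ![c₀, x.1]
    | Sum.inr (Sum.inr (Sum.inr (Sum.inl Q))) => S.RelMap Q ![x.1, c₀]
    | Sum.inr (Sum.inr (Sum.inr (Sum.inr j))) => θ.un (bt S) R c j (ι x)
  let le : X → X → Prop := fun x y => θ.rel (bt S) R c 0 (ι x) (ι y)
  let D : ℕ → X → X → Prop := fun j x y => θ.rel (bt S) R c j (ι x) (ι y)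
  let S3 : LT.Structure X := tS le D fun k => un (en k)
  have hS3 : ∀ p : Set (X × X), AtEq S3 S3 p ↔ (∀ a ∈ p, ∀ b ∈ p, a.1 = b.1 ↔ a.2 = b.2) ∧
      (∀ a ∈ p, ∀ i, un i a.1 ↔ un i a.2) ∧ ∀ a ∈ p, ∀ b ∈ p, ∀ j, D j a.1 b.1 ↔ D j a.2 b.2 := by
    intro p
    show AtEq (tS le D fun k => un (en k)) (tS le D fun k => un (en k)) p ↔ _
    rw [atEq_tS]
    refine and_congr_right fun _ => ⟨fun ⟨h1, h2, h3⟩ => ⟨fun a ha i => ?_, h3⟩,
      fun ⟨h1, h3⟩ => ⟨fun a ha k => h1 a ha (en k), fun a ha b hb => h3 a ha b hb 0, h3⟩⟩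
    obtain ⟨k, rfl⟩ := hen i
    exact h1 a ha k
  -- the atomic facts of `S` are given by those of `S3`
  have hdown : ∀ p : Set (X × X), AtEq S3 S3 p →
      AtEq S S ((fun a : X × X => (a.1.1, a.2.1)) '' p) := by
    intro p hp
    obtain ⟨h1, h2, h3⟩ := (hS3 p).mp hp
    have hinj : ∀ a ∈ p, ∀ b ∈ p, (a.1.1 = b.1.1 ↔ a.2.1 = b.2.1) := by
      intro a ha b hb
      have := h1 a ha b hb
      simpa [Subtype.ext_iff] using this
    have hone : ∀ d ∈ (fun a : X × X => (a.1.1, a.2.1)) '' p, AtEq S S {d} := by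
      rintro _ ⟨a, ha, rfl⟩
      refine ⟨?_, fun n Q v hv => ?_⟩
      · rintro _ rfl _ rfl
        simp
      · have hv' : ∀ i, v i = (a.1.1, a.2.1) := fun i => hv i
        by_cases hn1 : n = 1
        · subst hn1
          have e1 : (fun i => (v i).1) = ![a.1.1] := by
            funext i
            rw [hv']
            match i with
            | 0 => rfl
          have e2 : (fun i => (v i).2) = ![a.2.1] := by
            funext i
            rw [hv']
            match i with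
            | 0 => rfl
          rw [e1, e2]
          exact h2 a ha (Sum.inl Q)
        by_cases hn2 : n = 2
        · subst hn2
          have e1 : (fun i => (v i).1) = ![a.1.1, a.1.1] := by
            funext i
            rw [hv']
            match i with
            | 0 => rfl
            | 1 => rfl
          have e2 : (fun i => (v i).2) = ![a.2.1, a.2.1] := by
            funext i
            rw [hv']
            match i with
            | 0 => rfl
            | 1 => rfl
          rw [e1, e2]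
          exact h2 a ha (Sum.inr (Sum.inl Q))
        exact ((hL n hn1 hn2).false Q).elim
    refine atEq_of_pairs hL fun d hd e he => ?_
    obtain ⟨a, ha, rfl⟩ := hd
    obtain ⟨b, hb, rfl⟩ := he
    by_cases hab : a.1 = b.1
    · have hab' : a.2 = b.2 := (h1 a ha b hb).mp hab
      have : b = a := Prod.ext hab.symm hab'.symm
      subst this
      refine AtEq.anti ?_ (hone _ ⟨b, hb, rfl⟩)
      rintro d (rfl | rfl) <;> rfl
    · have hab' : a.2 ≠ b.2 := fun h => hab ((h1 a ha b hb).mpr h)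
      refine atEq_pair hL (hone _ ⟨a, ha, rfl⟩) (hone _ ⟨b, hb, rfl⟩) (hinj a ha b hb) ?_
      have h4 := hc.det (ι a.1) (ι b.1) (ι a.2) (ι b.2) (fun h => hab (hι h))
        (fun h => hab' (hι h))
        (fun j => h2 a ha (Sum.inr (Sum.inr (Sum.inr (Sum.inr j)))))
        (fun j => h2 b hb (Sum.inr (Sum.inr (Sum.inr (Sum.inr j)))))
        (fun j => h3 a ha b hb j) (fun j => h3 b hb a ha j)
      exact h4
  -- the structure `S3` is scattered
  have hV : ∃ (K' : Set (LT.Structure ℕ)) (δ' : Ordinal.{0}), VSt K' δ' S3 := by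
    refine VSt.interp hS (e := (Subtype.val : X → M)) Subtype.val_injective F'
      (η := η + γ) (add_lt_om1 hη hγ) ?_ ?_ ?_
    · intro d d' h
      rw [Subtype.range_val]
      refine hX d d' (BFR.anti ?_ (h.mono le_self_add))
      refine insert_subset_insert ?_
      rintro _ ⟨g, hg, rfl⟩
      exact ⟨g, by simp only [F', Finset.coe_union]; exact Or.inl hg, rfl⟩
    · intro p hpf h
      have h0 : AtEq S S ((fun a : X × X => (a.1.1, a.2.1)) '' p ∪ dg (F' : Set M)) := h.atEq
      have hc₀' : (c₀, c₀) ∈ (fun a : X × X => (a.1.1, a.2.1)) '' p ∪ dg (F' : Set M) := by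
        refine Or.inr ⟨c₀, ?_, rfl⟩
        simp only [F', Finset.coe_union]
        exact Or.inl hc₀
      -- the structure on `R`
      let q : Set (R × R) := (fun a : X × X => (ι a.1, ι a.2)) '' p ∪
        range fun i => (c i, c i)
      have hqf : q.Finite := (hpf.image _).union (finite_range _)
      have hq : BFR (offd (bt S) R) (offd (bt S) R) univ univ γ q := by
        refine VI.restr (S := S) (S' := offd (bt S) R) (e := (Subtype.val : R → M))
          (F := (F' : Set M)) (η := η) ?_ ?_ γ hqf ?_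
        · intro d d' h
          rw [Subtype.range_val]
          refine hR d d' (BFR.anti ?_ h)
          refine insert_subset_insert ?_
          rintro _ ⟨g, hg, rfl⟩
          exact ⟨g, by simp only [F', Finset.coe_union]; exact Or.inl hg, rfl⟩
        · intro r _ h
          exact atEq_offd (AtEq.anti subset_union_left h.atEq)
        · refine BFR.anti ?_ h
          rintro _ (⟨_, (⟨a, ha, rfl⟩ | ⟨i, rfl⟩), rfl⟩ | hd)
          · exact Or.inl ⟨a, ha, rfl⟩
          · refine Or.inr ⟨(c i : M), ?_, rfl⟩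
            simp only [F', Finset.coe_union]
            exact Or.inr (by simp)
          · exact Or.inr hd
      have hci : ∀ i, (c i, c i) ∈ q := fun i => Or.inr ⟨i, rfl⟩
      have hai : ∀ a ∈ p, (ι a.1, ι a.2) ∈ q := fun a ha => Or.inl ⟨a, ha, rfl⟩
      rw [hS3]
      refine ⟨fun a ha b hb => ?_, fun a ha i => ?_, fun a ha b hb j => ?_⟩
      · have := h0.1 _ (Or.inl ⟨a, ha, rfl⟩) _ (Or.inl ⟨b, hb, rfl⟩)
        simpa [Subtype.ext_iff] using this
      · match i with
        | Sum.inl Q =>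
          have := h0.2 1 Q (fun _ => (a.1.1, a.2.1)) fun _ => Or.inl ⟨a, ha, rfl⟩
          have e1 : (fun _ : Fin 1 => a.1.1) = ![a.1.1] := by
            funext i
            match i with
            | 0 => rfl
          have e2 : (fun _ : Fin 1 => a.2.1) = ![a.2.1] := by
            funext i
            match i with
            | 0 => rfl
          show S.RelMap Q ![a.1.1] ↔ S.RelMap Q ![a.2.1]
          rw [← e1, ← e2]
          exact this
        | Sum.inr (Sum.inl Q) =>
          exact relT_of_atEq h0 (Or.inl ⟨a, ha, rfl⟩) (Or.inl ⟨a, ha, rfl⟩) Q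
        | Sum.inr (Sum.inr (Sum.inl Q)) => exact relT_of_atEq h0 hc₀' (Or.inl ⟨a, ha, rfl⟩) Q
        | Sum.inr (Sum.inr (Sum.inr (Sum.inl Q))) =>
          exact relT_of_atEq h0 (Or.inl ⟨a, ha, rfl⟩) hc₀' Q
        | Sum.inr (Sum.inr (Sum.inr (Sum.inr j))) =>
          show Sat _ (θ.U j) _ ↔ Sat _ (θ.U j) _
          refine sat_of_bfr (θ.U j) (hγU j) hq _ _ fun i => ?_
          refine Fin.lastCases ?_ (fun i => ?_) i
          · rw [Fin.snoc_last, Fin.snoc_last]
            exact hai a ha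
          · rw [Fin.snoc_castSucc, Fin.snoc_castSucc]
            exact hci i
      · show Sat _ (θ.D j) _ ↔ Sat _ (θ.D j) _
        refine sat_of_bfr (θ.D j) (hγD j) hq _ _ fun i => ?_
        refine Fin.lastCases ?_ (fun i => ?_) i
        · rw [Fin.snoc_last, Fin.snoc_last]
          exact hai b hb
        · rw [Fin.snoc_castSucc, Fin.snoc_castSucc]
          refine Fin.lastCases ?_ (fun i => ?_) i
          · rw [Fin.snoc_last, Fin.snoc_last]
            exact hai a ha
          · rw [Fin.snoc_castSucc, Fin.snoc_castSucc]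
            exact hci i
    · intro p hpf hp G hG
      have h1 := hdown p hp
      obtain ⟨-, h2, -⟩ := (hS3 p).mp hp
      have hone : ∀ d ∈ (fun a : X × X => (a.1.1, a.2.1)) '' p ∪ dg G, AtEq S S {d} := by
        rintro d (hd | ⟨g, hg, rfl⟩)
        · exact AtEq.anti (by rintro e rfl; exact hd) h1
        · exact atEq_refl S (by rintro e rfl; rfl)
      have hGX : ∀ g ∈ G, g ∉ X := by
        intro g hg
        have := hG g hg
        rwa [Subtype.range_val] at this
      have hcr : ∀ a ∈ p, ∀ g ∈ G, bt S a.1.1 g = bt S a.2.1 g := fun a ha g hg =>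
        hout _ a.1.2 _ a.2.2 (fun Q => h2 a ha (Sum.inr (Sum.inr (Sum.inl Q))))
          (fun Q => h2 a ha (Sum.inr (Sum.inr (Sum.inr (Sum.inl Q))))) g (hGX g hg)
      refine atEq_of_pairs hL fun a ha b hb => ?_
      rcases ha with ⟨a, ha, rfl⟩ | ⟨g, hg, rfl⟩ <;> rcases hb with ⟨b, hb, rfl⟩ | ⟨g', hg', rfl⟩
      · refine AtEq.anti ?_ h1
        rintro d (rfl | rfl)
        · exact ⟨a, ha, rfl⟩
        · exact ⟨b, hb, rfl⟩
      · refine atEq_pair hL (hone _ (Or.inl ⟨a, ha, rfl⟩)) (hone _ (Or.inr ⟨g', hg', rfl⟩)) ?_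
          (hcr a ha g' hg')
        exact ⟨fun (h' : a.1.1 = g') => absurd (h' ▸ a.1.2) (hGX g' hg'),
          fun (h' : a.2.1 = g') => absurd (h' ▸ a.2.2) (hGX g' hg')⟩
      · refine atEq_pair hL (hone _ (Or.inr ⟨g, hg, rfl⟩)) (hone _ (Or.inl ⟨b, hb, rfl⟩)) ?_
          (bt_swap (hcr b hb g hg))
        exact ⟨fun (h' : g = b.1.1) => absurd (h' ▸ b.1.2) (hGX g hg),
          fun (h' : g = b.2.1) => absurd (h' ▸ b.2.2) (hGX g hg)⟩
      · refine atEq_refl S ?_
        rintro d (rfl | rfl) <;> rfl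
  obtain ⟨K', δ', hV'⟩ := hV
  have htt : TT S3 univ := by
    refine tt_of_convMono mainStatement lt_ar2 hV' (none : Option ℕ) ?_ ?_ ?_ ?_ ?_
    · exact fun x => hc.refl (ι x)
    · exact fun x y h1 h2 => hι (hc.anti (ι x) (ι y) h1 h2)
    · exact fun x y z h1 h2 => hc.trans (ι x) (ι y) (ι z) h1 h2
    · exact fun x y => hc.total (ι x) (ι y)
    · intro Q
      refine convMono_of_mono (fun x y => hc.total (ι x) (ι y)) ?_ fun x => hc.refl (ι x)
      match Q with
      | none => exact fun x' x y y' h1 h2 h3 => hc.mono 0 _ _ _ _ h1 h2 h3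
      | some j => exact fun x' x y y' h1 h2 h3 => hc.mono j _ _ _ _ h1 h2 h3
  have htm : TameX S3 univ := htt.tameX MON.dfb_univ
  refine htm.reduct fun p _ _ hp => ?_
  obtain ⟨-, h2, -⟩ := (hS3 p).mp hp
  rw [atEq_expS hL]
  refine ⟨(atEq_pl Subtype.val_injective).mpr (hdown p hp), fun a ha Q => ?_, fun a ha Q => ?_,
    fun _ _ _ _ => Iff.rfl⟩
  · exact h2 a ha (Sum.inr (Sum.inr (Sum.inl Q)))
  · exact h2 a ha (Sum.inr (Sum.inr (Sum.inr (Sum.inl Q))))

end

end Pool.Agent.MOP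

end
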