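import Pool.Agent.VB.H
import Pool.Agent.VLin.PCLp

/-!
# Tools for Vaught's conjecture, part 9: linear parts, quotients

Merged file (to shorten the import chain): contents, unchanged, of
`Pool.Agent.VLin.PTS`, `Pool.Agent.VLin.LQ`, `Pool.Agent.VLin.NBQa`, `Pool.Agent.VLin.NBQ`, `Pool.Agent.VLin.PIE`.
-/

/-! ### formerly `Pool.Agent.VLin.PTS` -/

section

/-!
# VLIN, module PTS: the union of the tame parts
-/

set_option autoImplicit false
set_option linter.unusedSectionVars false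
set_option linter.unusedVariables false

namespace Pool.Agent.Helper97.LO

open Set Pool.Agent.Helper5 Pool.Agent.Helper5.DU Pool.Agent.Helper6.Str
  Pool.Agent.Helper79.VC Pool.Agent.Helper97.VC Pool.Agent.Helper97.MD Pool.Agent.Helper6.VC

variable {L : FirstOrder.Language.{0, 0}} {M N P : Type} {A Γ : Type}

section VS

variable [∀ n, IsEmpty (L.Functions n)] [∀ n, Countable (L.Relations n)]
  {K : Set (L.Structure ℕ)} {δ : Ordinal.{0}} {S : L.Structure M} {τ : M → M → A} {rv : A → A}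
  {c : M → Γ} {m : Γ → Γ → A}

private theorem PTS_eq {E : M → M → Prop} (hE : Equivalence E) {x y : M} :
    ({z | E x z} : Set M) = {z | E y z} ↔ E x y := by
  constructor
  · intro h
    have : y ∈ {z | E y z} := hE.refl y
    rw [← h] at this
    exact this
  · intro h
    ext z
    exact ⟨fun hz => hE.trans (hE.symm h) hz, fun hz => hE.trans h hz⟩

private theorem PTS_H (hL : Ar2 L) {E : M → M → Prop} (hE : Equivalence E)
    (hx : ∀ x y x' y', ¬ E x y → ¬ E x' y' → AtEq S S {(x, x')} → AtEq S S {(y, y')} →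
      AtEq S S {(x, x'), (y, y')}) {π' : M → Set M} (hπ' : ∀ b b', π' b ≠ π' b' → ¬ E b b')
    (p : Set (M × M)) (hp : ∀ a ∈ p, a.1 ∈ (univ : Set M) ∧ a.2 ∈ (univ : Set M) ∧
      (fun x => ({z | E x z} : Set M)) a.1 = π' a.2)
    (h : ∀ i, AtEq S S {a ∈ p | (fun x => ({z | E x z} : Set M)) a.1 = i}) : AtEq S S p := by
  refine atEq_of_pairs hL fun a ha b hb => ?_
  by_cases hab : ({z | E a.1 z} : Set M) = {z | E b.1 z}
  · refine AtEq.anti ?_ (h {z | E a.1 z})
    rintro c (rfl | rfl)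
    · exact ⟨ha, rfl⟩
    · exact ⟨hb, hab.symm⟩
  · have h1 : AtEq S S {(a.1, a.2)} := by
      refine AtEq.anti ?_ (h {z | E a.1 z})
      rintro c rfl
      exact ⟨ha, rfl⟩
    have h2 : AtEq S S {(b.1, b.2)} := by
      refine AtEq.anti ?_ (h {z | E b.1 z})
      rintro c rfl
      exact ⟨hb, rfl⟩
    refine hx a.1 b.1 a.2 b.2 (fun h3 => hab ((PTS_eq hE).2 h3)) (hπ' _ _ ?_) h1 h2
    rw [← (hp a ha).2.2, ← (hp b hb).2.2]
    exact hab

/-- equivalences of two parts are extended by the identity -/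
private theorem PTS_glue (hL : Ar2 L) {E : M → M → Prop} (hE : Equivalence E)
    (hx : ∀ x y x' y', ¬ E x y → ¬ E x' y' → AtEq S S {(x, x')} → AtEq S S {(y, y')} →
      AtEq S S {(x, x'), (y, y')}) {c c' : M} {F : Finset M} {γ : Ordinal.{0}}
    (h1 : E c c' ∨ ∀ f ∈ F, ¬ E c f ∧ ¬ E c' f)
    (h : BFR S S {z | E c z} {z | E c' z} γ (insert (c, c') (dg {f | f ∈ F ∧ E c f}))) :
    BFR S S univ univ γ (insert (c, c') (dg (F : Set M))) := by
  classical
  by_cases hcc : E c c'
  · -- the same part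
    refine BFR.comp_index (fun x => ({z | E x z} : Set M)) (fun x => ({z | E x z} : Set M))
      (PTS_H hL hE hx fun b b' hb h' => hb ((PTS_eq hE).2 h')) γ ?_ ?_
    · rintro a (rfl | ⟨f, hf, rfl⟩)
      · exact ⟨mem_univ _, mem_univ _, (PTS_eq hE).2 hcc⟩
      · exact ⟨mem_univ _, mem_univ _, rfl⟩
    · intro i
      by_cases hi : ({z | E c z} : Set M) = i
      · subst hi
        have e1 : {a ∈ (univ : Set M) | ({z | E a z} : Set M) = {z | E c z}} = {z | E c z} := by
          ext a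
          exact ⟨fun ha => hE.symm ((PTS_eq hE).1 ha.2),
            fun ha => ⟨mem_univ _, (PTS_eq hE).2 (hE.symm ha)⟩⟩
        have e2 : ({z | E c' z} : Set M) = {z | E c z} := (PTS_eq hE).2 (hE.symm hcc)
        rw [e2] at h
        show BFR S S {a ∈ (univ : Set M) | ({z | E a z} : Set M) = {z | E c z}}
          {a ∈ (univ : Set M) | ({z | E a z} : Set M) = {z | E c z}} γ _
        rw [e1]
        refine BFR.anti ?_ h
        rintro a ⟨rfl | ⟨f, hf, rfl⟩, ha⟩
        · exact mem_insert _ _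
        · exact mem_insert_of_mem _ ⟨f, ⟨hf, hE.symm ((PTS_eq hE).1 ha)⟩, rfl⟩
      · refine BFR.refl S _ γ ?_
        rintro a ⟨rfl | ⟨f, hf, rfl⟩, ha⟩
        · exact absurd ha hi
        · exact ⟨⟨mem_univ _, ha⟩, rfl⟩
  · -- two different parts disjoint from `F` are exchanged
    have hF : ∀ f ∈ F, ¬ E c f ∧ ¬ E c' f := h1.resolve_left hcc
    have hne : ({z | E c z} : Set M) ≠ {z | E c' z} := fun h' => hcc ((PTS_eq hE).1 h')
    let σ : Set M → Set M := fun i => if i = {z | E c z} then {z | E c' z} else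
      if i = {z | E c' z} then {z | E c z} else i
    have s1 : σ {z | E c z} = {z | E c' z} := if_pos rfl
    have s2 : σ {z | E c' z} = {z | E c z} := by
      show (if ({z | E c' z} : Set M) = {z | E c z} then ({z | E c' z} : Set M) else
        if ({z | E c' z} : Set M) = {z | E c' z} then {z | E c z} else {z | E c' z}) = _
      rw [if_neg hne.symm, if_pos rfl]
    have s3 : ∀ i, i ≠ {z | E c z} → i ≠ {z | E c' z} → σ i = i := by
      intro i h2 h3
      simp only [σ]
      rw [if_neg h2, if_neg h3]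
    have s4 : ∀ i, σ (σ i) = i := by
      intro i
      by_cases h2 : i = {z | E c z}
      · rw [h2, s1, s2]
      · by_cases h3 : i = {z | E c' z}
        · rw [h3, s2, s1]
        · rw [s3 i h2 h3, s3 i h2 h3]
    have s5 : ∀ i j, σ i = j ↔ i = σ j := by
      intro i j
      constructor
      · intro h'
        rw [← h', s4]
      · intro h'
        rw [h', s4]
    refine BFR.comp_index (fun x => ({z | E x z} : Set M)) (fun x => σ {z | E x z})
      (PTS_H hL hE hx fun b b' hb h' => hb (congrArg σ ((PTS_eq hE).2 h'))) γ ?_ ?_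
    · rintro a (rfl | ⟨f, hf, rfl⟩)
      · exact ⟨mem_univ _, mem_univ _, s2.symm⟩
      · refine ⟨mem_univ _, mem_univ _, (s3 _ ?_ ?_).symm⟩
        · exact fun h' => (hF f hf).1 (hE.symm ((PTS_eq hE).1 h'))
        · exact fun h' => (hF f hf).2 (hE.symm ((PTS_eq hE).1 h'))
    · intro i
      have e1 : ∀ x : M, {a ∈ (univ : Set M) | ({z | E a z} : Set M) = {z | E x z}} =
          {z | E x z} := by
        intro x
        ext a
        exact ⟨fun ha => hE.symm ((PTS_eq hE).1 ha.2),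
          fun ha => ⟨mem_univ _, (PTS_eq hE).2 (hE.symm ha)⟩⟩
      have e2 : {b ∈ (univ : Set M) | σ {z | E b z} = i} =
          {b ∈ (univ : Set M) | ({z | E b z} : Set M) = σ i} := by
        ext b
        exact ⟨fun hb => ⟨mem_univ _, (s5 _ _).1 hb.2⟩, fun hb => ⟨mem_univ _, (s5 _ _).2 hb.2⟩⟩
      show BFR S S {a ∈ (univ : Set M) | ({z | E a z} : Set M) = i}
        {b ∈ (univ : Set M) | σ {z | E b z} = i} γ _
      rw [e2]
      by_cases hi : i = {z | E c z}
      · subst hi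
        rw [s1, e1, e1]
        refine BFR.anti ?_ h
        rintro a ⟨rfl | ⟨f, hf, rfl⟩, ha⟩
        · exact mem_insert _ _
        · exact absurd (hE.symm ((PTS_eq hE).1 ha)) (hF f hf).1
      · by_cases hi' : i = {z | E c' z}
        · subst hi'
          rw [s2, e1, e1]
          refine h.symm ?_
          rintro a ⟨rfl | ⟨f, hf, rfl⟩, ha⟩
          · exact absurd ha hne
          · exact absurd (hE.symm ((PTS_eq hE).1 ha)) (hF f hf).2
        · rw [s3 i hi hi']
          refine BFR.refl S _ γ ?_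
          rintro a ⟨rfl | ⟨f, hf, rfl⟩, ha⟩
          · exact absurd ha.symm hi
          · exact ⟨⟨mem_univ _, ha⟩, rfl⟩

/-- one step between a tame piece and an equivalent one -/
private theorem PTS_forth {X Y : Set M} (hX : TameX S X) (h : BFI S S X Y ∅) {c : M}
    (hc : c ∈ X) : ∃ d ∈ Y, BFI S S X Y {(c, d)} := by
  obtain ⟨α, hα, hSL⟩ := hX.exists_SL
  obtain ⟨d, hd, h1⟩ := (h (α + 1) (add_one_lt_om1 hα)).forth (lt_add_one_self α) hc
  refine ⟨d, hd, fun γ _ => ?_⟩
  have h2 := hSL.det hα (h _ (add_lt_om1 hα omega_lt_om1)) γ (p := insert (c, d) ∅)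
    (finite_empty.insert _) (by
      rintro a (rfl | ha)
      · exact ⟨hc, hd⟩
      · exact absurd ha (notMem_empty a)) h1
  rwa [insert_empty_eq] at h2

theorem pts (hL : Ar2 L) {E : M → M → Prop} (hE : Equivalence E)
    (hx : ∀ x y x' y', ¬ E x y → ¬ E x' y' → AtEq S S {(x, x')} → AtEq S S {(y, y')} →
      AtEq S S {(x, x'), (y, y')}) (κ : M → ℕ) (hκ : ∀ x y, TameX S {z | E x z} →
      TameX S {z | E y z} → κ x = κ y → BFI S S {z | E x z} {z | E y z} ∅) :
    TT S {x | TameX S {z | E x z}} := by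
  classical
  intro F
  -- types over `F` inside the parts
  have hA : ∀ f : M, ∃ kf : M → ℕ, TameX S {z | E f z} → ∀ c, E f c → ∀ c', E f c' →
      kf c = kf c' → BFI S S {z | E f z} {z | E f z} (insert (c, c') (dg {x | x ∈ F ∧ E f x})) := by
    intro f
    by_cases hf : TameX S {z | E f z}
    · obtain ⟨kf, hkf⟩ := hf.types (F.filter fun x => E f x) (by
        intro x hx
        rw [Finset.mem_coe, Finset.mem_filter] at hx
        exact hx.2)
      refine ⟨kf, fun _ c hc c' hc' hcc => ?_⟩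
      have h1 := hkf c hc c' hc' hcc
      have e : ((F.filter fun x => E f x : Finset M) : Set M) = {x | x ∈ F ∧ E f x} := by
        ext x
        simp
      rwa [e] at h1
    · exact ⟨fun _ => 0, fun h' => absurd h' hf⟩
  choose kf hkf using hA
  rcases isEmpty_or_nonempty M with hM | hM
  · exact ⟨fun _ => 0, fun c => hM.elim c⟩
  -- representatives of the parts with the same colour
  have hB : ∀ n : ℕ, ∃ x : M, (∃ y, TameX S {z | E y z} ∧ κ y = n) →
      TameX S {z | E x z} ∧ κ x = n := by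
    intro n
    by_cases hn : ∃ y, TameX S {z | E y z} ∧ κ y = n
    · obtain ⟨y, hy⟩ := hn
      exact ⟨y, fun _ => hy⟩
    · exact ⟨hM.some, fun h' => absurd h' hn⟩
  choose xr hxr using hB
  have hC : ∀ n : ℕ, ∃ kn : M → ℕ, TameX S {z | E (xr n) z} → ∀ c, E (xr n) c → ∀ c',
      E (xr n) c' → kn c = kn c' → BFI S S {z | E (xr n) z} {z | E (xr n) z} {(c, c')} := by
    intro n
    by_cases hn : TameX S {z | E (xr n) z}
    · obtain ⟨kn, hkn⟩ := hn.types ∅ (by simp)
      refine ⟨kn, fun _ c hc c' hc' hcc γ hγ => ?_⟩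
      refine BFR.anti ?_ (hkn c hc c' hc' hcc γ hγ)
      rintro a rfl
      exact mem_insert _ _
    · exact ⟨fun _ => 0, fun h' => absurd h' hn⟩
  choose kn hkn using hC
  -- the corresponding element of the representative
  have hD : ∀ c : M, ∃ d : M, TameX S {z | E c z} → E (xr (κ c)) d ∧
      BFI S S {z | E c z} {z | E (xr (κ c)) z} {(c, d)} := by
    intro c
    by_cases hc : TameX S {z | E c z}
    · have h1 := hxr (κ c) ⟨c, hc, rfl⟩
      obtain ⟨d, hd, h2⟩ := PTS_forth hc (hκ c (xr (κ c)) hc h1.1 h1.2.symm) (c := c) (hE.refl c)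
      exact ⟨d, fun _ => ⟨hd, h2⟩⟩
    · exact ⟨c, fun h' => absurd h' hc⟩
  choose dr hdr using hD
  -- the element of `F` in the same part
  have hG : ∀ c : M, ∃ o : Option F, (∀ f : F, o = some f → E c f.1) ∧
      (o = none → ∀ f ∈ F, ¬ E c f) := by
    intro c
    by_cases hc : ∃ f ∈ F, E c f
    · obtain ⟨f, hf, hcf⟩ := hc
      refine ⟨some ⟨f, hf⟩, fun g hg => ?_, fun h' => ?_⟩
      · rw [← Option.some.inj hg]
        exact hcf
      · exact absurd h' (by simp)
    · push Not at hc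
      exact ⟨none, fun g hg => absurd hg (by simp), fun _ f hf => hc f hf⟩
  choose fr hfr1 hfr2 using hG
  obtain ⟨g, hg⟩ := exists_injective_nat (Option F × ℕ × ℕ)
  refine ⟨fun c => g (fr c, (match fr c with
    | some f => kf f.1 c
    | none => kn (κ c) (dr c)), κ c), fun c hc c' hc' hcc => ?_⟩
  have h1 := hg hcc
  simp only [Prod.mk.injEq] at h1
  obtain ⟨h2, h3, h4⟩ := h1
  intro γ hγ
  rcases hf : fr c with _ | f
  · -- the part does not meet `F`
    have hf' : fr c' = none := by rw [← h2, hf]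
    simp only [hf, hf'] at h3
    refine PTS_glue hL hE hx (Or.inr fun f hfF => ⟨hfr2 c hf f hfF, hfr2 c' hf' f hfF⟩) ?_
    have e1 := hdr c hc
    have e2 := hdr c' hc'
    rw [← h4] at e2 h3
    have e3 := hkn (κ c) (hxr (κ c) ⟨c, hc, rfl⟩).1 (dr c) e1.1 (dr c') e2.1 h3
    have e4 : BFR S S {z | E (xr (κ c)) z} {z | E c' z} γ {(dr c', c')} := by
      refine (e2.2 γ hγ).symm ?_
      rintro a rfl
      exact rfl
    have e5 : BFR S S {z | E c z} {z | E (xr (κ c)) z} γ {(c, dr c')} := by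
      refine (e1.2 γ hγ).trans (e3 γ hγ) ?_
      rintro a rfl
      exact ⟨dr c, rfl, rfl⟩
    refine e5.trans e4 ?_
    rintro a (rfl | ⟨f, hfF, rfl⟩)
    · exact ⟨dr c', rfl, rfl⟩
    · exact absurd hfF.2 (hfr2 c hf f hfF.1)
  · -- the part contains `f`
    have hf' : fr c' = some f := by rw [← h2, hf]
    simp only [hf, hf'] at h3
    have a1 : E c f.1 := hfr1 c f hf
    have a2 : E c' f.1 := hfr1 c' f hf'
    have a3 : E c c' := hE.trans a1 (hE.symm a2)
    refine PTS_glue hL hE hx (Or.inl a3) ?_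
    have b1 : ({z | E f.1 z} : Set M) = {z | E c z} := (PTS_eq hE).2 (hE.symm a1)
    have b2 : ({z | E c' z} : Set M) = {z | E c z} := (PTS_eq hE).2 (hE.symm a3)
    have ht : TameX S {z | E f.1 z} := by
      rw [b1]
      exact hc
    have h5 := hkf f.1 ht c (hE.symm a1) c' (hE.symm a2) h3 γ hγ
    rw [b1] at h5
    rw [b2]
    refine BFR.anti (insert_subset_insert (image_mono ?_)) h5
    intro x hx'
    exact ⟨hx'.1, hE.trans (hE.symm a1) hx'.2⟩

end VS

end Pool.Agent.Helper97.LO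

end

/-! ### formerly `Pool.Agent.VLin.LQ` -/

section

/-!
# VLIN, module LQ
-/

set_option autoImplicit false
set_option linter.unusedSectionVars false
set_option linter.unusedVariables false

namespace Pool.Agent.Helper97.LO

open Set Pool.Agent.Helper5 Pool.Agent.Helper5.DU Pool.Agent.Helper6.Str
  Pool.Agent.Helper79.VC Pool.Agent.Helper97.VC Pool.Agent.Helper97.MD Pool.Agent.Helper6.VC

variable {L : FirstOrder.Language.{0, 0}} {M N P : Type} {A Γ : Type}

/-! ### the ideal and expansions -/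

section EXP

variable {S : L.Structure M} {C : Type}

/-- definable expansions do not change the ideal -/
theorem TT.toExS {Y : Set M} (h : TT S Y) {dat : M → C} {rel : M → M → Prop} (hd : DfbC S dat)
    (hr : Dfb2 S rel) : TT (exS S dat rel) Y := by
  classical
  obtain ⟨F₁, η₁, hη₁, hd⟩ := hd
  obtain ⟨F₂, η₂, hη₂, hr⟩ := hr
  intro F
  obtain ⟨κ, hκ⟩ := h (F ∪ (F₁ ∪ F₂))
  refine ⟨κ, fun c hc c' hc' hcc γ hγ => ?_⟩
  have h1 := hκ c hc c' hc' hcc (max η₁ η₂ + γ) (add_lt_om1 (max_lt hη₁ hη₂) hγ)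
  have h2 : BFR (exS S dat rel) (exS S dat rel) univ univ γ (insert (c, c') (dg ((F ∪ (F₁ ∪ F₂) : Finset M) : Set M))) := by
    refine BFR.expand (q := dg ((F₁ ∪ F₂ : Finset M) : Set M)) ?_ γ ?_ ?_ h1
    · intro p hp hq hb
      rw [atEq_exS]
      refine ⟨hb.atEq, fun a ha => ?_, fun a ha b hb' => ?_⟩
      · refine hd _ _ (BFR.anti ?_ (hb.mono (le_max_left _ _)))
        rintro e (rfl | ⟨f, hf, rfl⟩)
        · exact ha
        · exact hq ⟨f, by simp [Finset.mem_coe.mp hf], rfl⟩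
      · refine hr _ _ _ _ (BFR.anti ?_ (hb.mono (le_max_right _ _)))
        rintro e (rfl | rfl | ⟨f, hf, rfl⟩)
        · exact ha
        · exact hb'
        · exact hq ⟨f, by simp [Finset.mem_coe.mp hf], rfl⟩
    · exact ((Finset.finite_toSet _).image _).insert _
    · rintro e ⟨f, hf, rfl⟩
      refine mem_insert_of_mem _ ⟨f, ?_, rfl⟩
      simp only [Finset.coe_union, mem_union, Finset.mem_coe] at hf ⊢
      exact Or.inr hf
  refine BFR.anti ?_ h2
  refine insert_subset_insert ?_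
  rintro e ⟨f, hf, rfl⟩
  exact ⟨f, by simp [Finset.mem_coe.mp hf], rfl⟩

theorem TT.ofExS {Y : Set M} {dat : M → C} {rel : M → M → Prop}
    (h : TT (exS S dat rel) Y) : TT S Y := by
  intro F
  obtain ⟨κ, hκ⟩ := h F
  refine ⟨κ, fun c hc c' hc' hcc γ hγ => ?_⟩
  refine BFR.reduct (fun p _ _ hp => (atEq_exS.mp hp).1) γ ?_ (fun _ _ => ⟨mem_univ _, mem_univ _⟩)
    (hκ c hc c' hc' hcc γ hγ)
  exact ((Finset.finite_toSet _).image _).insert _

theorem Dfb.toExS {X : Set M} (h : Dfb S X) (dat : M → C) (rel : M → M → Prop) :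
    Dfb (exS S dat rel) X := by
  obtain ⟨F, η, hη, h⟩ := h
  refine ⟨F, η, hη, fun c c' hb => h c c' ?_⟩
  refine BFR.reduct (fun p _ _ hp => (atEq_exS.mp hp).1) η ?_ (fun _ _ => ⟨mem_univ _, mem_univ _⟩)
    hb
  exact ((Finset.finite_toSet _).image _).insert _

end EXP

/-! ### the ordered sum given by an asymmetric pair -/

section ORD

variable [∀ n, IsEmpty (L.Functions n)] {S : L.Structure M} {τ : M → M → A} {rv : A → A}
  {c : M → Γ} {m : Γ → Γ → A} {a b : Γ}

/-- the preorder -/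
@[reducible]
def plePre (τ : M → M → A) (c : M → Γ) (m : Γ → Γ → A) (a b : Γ) : Preorder M where
  le x y := PS.Ple τ c m a b x y
  le_refl x := PS.ple_refl x
  le_trans _ _ _ h1 h2 := PS.ple_trans h1 h2

theorem ple_ost (hL : Ar2 L) (hτ : Lbl S τ rv)
    (hc : ∀ x x', AtEq S S {(x, x')} → c x = c x') (hab : m a b ≠ rv (m b a)) :
    @OSt (EL L Γ) M (plePre τ c m a b) (nb2 L Γ) true (exS S c (PS.Ple τ c m a b)) := by
  let _ := plePre τ c m a b
  refine ⟨fun x y => PS.ple_total hτ.rev hab x y, fun x y => Iff.rfl, ?_⟩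
  intro x y x' y' hxy hxy' hx hy
  obtain ⟨hx1, hx2, -⟩ := atEq_exS.mp hx
  obtain ⟨hy1, hy2, -⟩ := atEq_exS.mp hy
  have ex : c x = c x' := hx2 (x, x') rfl
  have ey : c y = c y' := hy2 (y, y') rfl
  have hlt : PS.Ple τ c m a b x y ∧ ¬ PS.Ple τ c m a b y x := lt_iff_le_not_ge.mp hxy
  have hlt' : PS.Ple τ c m a b x' y' ∧ ¬ PS.Ple τ c m a b y' x' := lt_iff_le_not_ge.mp hxy'
  have hne : x ≠ y := fun h => hlt.2 (h ▸ PS.ple_refl _)
  have hne' : x' ≠ y' := fun h => hlt'.2 (h ▸ PS.ple_refl _)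
  rw [atEq_exS]
  refine ⟨?_, ?_, ?_⟩
  · refine hτ.det x y x' y' hne hne' hx1 hy1 ?_
    rw [PS.tau_of_plt hlt.2, PS.tau_of_plt hlt'.2, ex, ey]
  · rintro e (rfl | rfl)
    · exact ex
    · exact ey
  · rintro e (rfl | rfl) f (rfl | rfl)
    · exact ⟨fun _ => PS.ple_refl _, fun _ => PS.ple_refl _⟩
    · exact ⟨fun _ => hlt'.1, fun _ => hlt.1⟩
    · exact ⟨fun h => absurd h hlt.2, fun h => absurd h hlt'.2⟩
    · exact ⟨fun _ => PS.ple_refl _, fun _ => PS.ple_refl _⟩

/-- the parts in the case without bad pairs -/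
theorem scc_cross (hτ : Lbl S τ rv) (hc : ∀ x x', AtEq S S {(x, x')} → c x = c x')
    (hb : PS.Bad τ c m rv = ∅) (x y x' y' : M) (h : y ∉ PS.Scc τ c m x)
    (h' : y' ∉ PS.Scc τ c m x') (hx : AtEq S S {(x, x')}) (hy : AtEq S S {(y, y')}) :
    AtEq S S {(x, x'), (y, y')} := by
  refine hτ.det x y x' y' ?_ ?_ hx hy ?_
  · rintro rfl
    exact h (PS.scc_self _)
  · rintro rfl
    exact h' (PS.scc_self _)
  · rw [PS.tau_of_bad_empty hτ.rev hb h, PS.tau_of_bad_empty hτ.rev hb h', hc _ _ hx, hc _ _ hy]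

theorem scc_crossRule (hL : Ar2 L) (hτ : Lbl S τ rv)
    (hc : ∀ x x', AtEq S S {(x, x')} → c x = c x') (hb : PS.Bad τ c m rv = ∅) :
    CrossRule S fun x y => y ∈ PS.Scc τ c m x := by
  intro p hp h
  refine atEq_of_pairs hL fun a ha b hb' => ?_
  by_cases hab : b.1 ∈ PS.Scc τ c m a.1
  · refine AtEq.anti ?_ (h a.1)
    rintro e (rfl | rfl)
    · exact ⟨ha, PS.scc_self _⟩
    · exact ⟨hb', hab⟩
  · have h1 : AtEq S S {(a.1, a.2)} := by
      refine AtEq.anti ?_ (h a.1)
      rintro e rfl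
      exact ⟨ha, PS.scc_self _⟩
    have h2 : AtEq S S {(b.1, b.2)} := by
      refine AtEq.anti ?_ (h b.1)
      rintro e rfl
      exact ⟨hb', PS.scc_self _⟩
    have h3 : b.2 ∉ PS.Scc τ c m a.2 := by
      intro h3
      apply hab
      exact PS.scc_trans (PS.scc_trans (hp a ha) h3) (PS.scc_symm (hp b hb'))
    exact scc_cross hτ hc hb a.1 b.1 a.2 b.2 hab h3 h1 h2

theorem scc_equiv : Equivalence fun x y => y ∈ PS.Scc τ c m x :=
  ⟨fun x => PS.scc_self x, fun h => PS.scc_symm h, fun h h' => PS.scc_trans h h'⟩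

theorem scc_def (hτ : Lbl S τ rv) (hc : ∀ x x', AtEq S S {(x, x')} → c x = c x')
    (x y x' y' : M) (h : BFR S S univ univ Ordinal.omega0 {(x, x'), (y, y')}) :
    y ∈ PS.Scc τ c m x ↔ y' ∈ PS.Scc τ c m x' := by
  have hc' : ∀ u u', BFR S S univ univ 0 (insert (u, u') (∅ : Set (M × M))) → c u = c u' := by
    intro u u' h
    refine hc u u' ?_
    have := h.atEq
    rwa [insert_empty_eq] at this
  have h1 : y ∈ PS.Cl τ c m x ↔ y' ∈ PS.Cl τ c m x' := by
    refine cl_congr hτ.inv (q := ∅) (κ := 0) hc' ?_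
    rw [zero_add, insert_empty_eq]
    exact h
  have h2 : x ∈ PS.Cl τ c m y ↔ x' ∈ PS.Cl τ c m y' := by
    refine cl_congr hτ.inv (q := ∅) (κ := 0) hc' ?_
    rw [zero_add, insert_empty_eq]
    rw [pair_comm]
    exact h
  exact and_congr h1 h2

end ORD

section VS

variable [∀ n, IsEmpty (L.Functions n)] [∀ n, Countable (L.Relations n)]
  {K : Set (L.Structure ℕ)} {δ : Ordinal.{0}} {S : L.Structure M} {τ : M → M → A} {rv : A → A}
  {c : M → Γ} {m : Γ → Γ → A} {a b : Γ}

/-- **Expansions**, without a preorder -/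
theorem VSt.expandA {C : Type} [Countable C] (hL : Ar2 L) (hS : VSt K δ S) {dat : M → C}
    {rel : M → M → Prop} (hd : DfbC S dat) (hr : Dfb2 S rel) :
    ∃ (K' : Set ((EL L C).Structure ℕ)) (δ' : Ordinal.{0}), VSt K' δ' (exS S dat rel) := by
  classical
  obtain ⟨F₁, η₁, hη₁, hd⟩ := hd
  obtain ⟨F₂, η₂, hη₂, hr⟩ := hr
  let P : Preorder M :=
    { le := Eq
      le_refl := fun _ => rfl
      le_trans := fun _ _ _ h1 h2 => h1.trans h2 }
  refine @VSt.expandAll L M _ _ K δ S P C _ hL hS dat rel (F₁ ∪ F₂) (max η₁ η₂)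
    (max_lt hη₁ hη₂) (fun z z' h => hd _ _ (BFR.anti ?_ (h.mono (le_max_left _ _))))
    fun z w z' w' h => hr _ _ _ _ (BFR.anti ?_ (h.mono (le_max_right _ _)))
  · refine insert_subset_insert ?_
    rintro e ⟨f, hf, rfl⟩
    exact ⟨f, by simp [Finset.mem_coe.mp hf], rfl⟩
  · refine insert_subset_insert (insert_subset_insert ?_)
    rintro e ⟨f, hf, rfl⟩
    exact ⟨f, by simp [Finset.mem_coe.mp hf], rfl⟩

/-- the ordered structure is large -/
theorem ple_vst (hL : Ar2 L) (hS : VSt K δ S) (hτ : Lbl S τ rv) [Countable Γ]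
    (hc : ∀ x x', AtEq S S {(x, x')} → c x = c x') :
    ∃ (K' : Set ((EL L Γ).Structure ℕ)) (δ' : Ordinal.{0}),
      VSt K' δ' (exS S c (PS.Ple τ c m a b)) := by
  exact VSt.expandA hL hS (DfbC.of_atEq hc) (dfb2_ple (m := m) hτ (DfbC.of_atEq hc) a b)

/-- the case without bad pairs -/
theorem tt_scc_base (hL : Ar2 L) (hS : VSt K δ S) (hτ : Lbl S τ rv)
    (hc : ∀ x x', AtEq S S {(x, x')} → c x = c x') (hb : PS.Bad τ c m rv = ∅) :
    TT S {x | TameX S (PS.Scc τ c m x)} := by
  obtain ⟨κ, hκ⟩ := pcl_def' hL hS scc_equiv (scc_crossRule hL hτ hc hb)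
    omega_lt_om1 (scc_def (m := m) hτ hc)
  exact pts hL scc_equiv (fun x y x' y' h1 h2 h3 h4 => scc_cross hτ hc hb x y x' y' h1 h2 h3 h4)
    κ hκ

theorem dfb_scc (hτ : Lbl S τ rv) (hc : DfbC S c) (x : M) :
    Dfb S (PS.Scc τ c m x) :=
  ((dfb2_cl hτ hc).and (dfb2_cl hτ hc).swap).fiber x

/-- **Induction step**: a piece with fewer bad pairs. -/
theorem piece_data (hL : Ar2 L) (hS : VSt K δ S) (hτ : Lbl S τ rv)
    (hc : ∀ x x', AtEq S S {(x, x')} → c x = c x') {X Y Z : Set M} (hXYZ : X = Y \ Z)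
    (hY : PS.Cld τ c m Y) (hZ : PS.Cld τ c m Z) (hX : Dfb S X) [Infinite X] :
    (∃ (K' : Set (L.Structure ℕ)) (δ' : Ordinal.{0}),
      VSt K' δ' (pl S (Subtype.val : X → M))) ∧
    Lbl (pl S (Subtype.val : X → M)) (fun u v : X => τ u.1 v.1) rv ∧
    (∀ x x' : X, AtEq (pl S (Subtype.val : X → M)) (pl S (Subtype.val : X → M)) {(x, x')} →
      c x.1 = c x'.1) ∧ Auto S X := by
  have hA : Auto S X := by
    rw [hXYZ]
    exact auto_diff hL hτ hc hY hZ
  refine ⟨VSt.pl' hL hS hX hA, lbl_pl hτ X, fun x x' h => hc _ _ ?_, hA⟩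
  rw [Exp.atEq_pl' Subtype.val_injective, image_singleton] at h
  exact h

theorem lq [Finite Γ] (hL : Ar2 L) (hS : VSt K δ S) (hτ : Lbl S τ rv)
    (hc : ∀ x x', AtEq S S {(x, x')} → c x = c x')
    (h : ∀ x, TT S (PS.Scc τ c m x)) : TT S univ := by
  classical
  obtain ⟨n, hn⟩ : ∃ n, (PS.Bad τ c m rv).ncard = n := ⟨_, rfl⟩
  induction n using Nat.strong_induction_on generalizing M K δ with
  | _ n ih =>
    have hcd : DfbC S c := DfbC.of_atEq hc
    by_cases hb : PS.Bad τ c m rv = ∅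
    · refine (tt_scc_base (m := m) hL hS hτ hc hb).mono fun x _ => ?_
      exact (h x).tameX (dfb_scc hτ hcd x)
    · obtain ⟨⟨a, b⟩, hab⟩ := nonempty_iff_ne_empty.mpr hb
      have hab1 : m a b ≠ rv (m b a) := hab.1
      -- the fibres
      have hfib : ∀ y, TT S (PS.Fib τ c m a b y) := by
        intro y
        have e := PS.fib_eq (c := c) (m := m) hτ.rev hab1 y
        have hple := dfb2_ple (m := m) hτ hcd a b
        have hdf : Dfb S (PS.Fib τ c m a b y) := (hple.swap.and hple).fiber y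
        set X := PS.Fib τ c m a b y with hX
        rcases finite_or_infinite X with hf | hf
        · exact TT.of_countable (Set.toFinite X).countable
        · have hY := PS.cld_ple (τ := τ) (c := c) (m := m) (a := a) (b := b) y
          have hZ := PS.cld_plt (τ := τ) (c := c) (m := m) (a := a) (b := b) y
          obtain ⟨⟨K', δ', hS'⟩, hτ', hc', hA⟩ := piece_data hL hS hτ hc e hY hZ hdf
          have hlt : (PS.Bad (fun u v : X => τ u.1 v.1) (fun u => c u.1) m rv).ncard < n := by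
            rw [← hn]
            refine ncard_lt_ncard ⟨?_, fun hsub => ?_⟩ (toFinite _)
            · have := PS.bad_sub (rv := rv) hY hZ
              rw [← e] at this
              exact this
            · have h1 := PS.bad_fib (rv := rv) hτ.rev hab1 y _ _ hY hZ (by rw [← e])
              rw [← e] at h1
              exact h1 (hsub hab)
          have h1 := ih _ hlt hS' hτ' hc' (fun x => ?_) rfl
          · rw [tt_pl hL hdf hA, image_univ, Subtype.range_val] at h1
            exact h1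
          · rw [tt_pl hL hdf hA]
            have h2 := PS.scc_sub hY hZ (τ := τ) (c := c) (m := m)
            rw [← e] at h2
            rw [h2 x]
            exact (h x.1).mono inter_subset_left
      obtain ⟨K', δ', hS'⟩ := ple_vst (m := m) (a := a) (b := b) hL hS hτ hc
      have hO := ple_ost (m := m) (a := a) (b := b) hL hτ hc hab1
      have hple := dfb2_ple (m := m) hτ hcd a b
      have h1 : TameX (exS S c (PS.Ple τ c m a b)) univ := by
        refine @ls (EL L Γ) M _ _ K' δ' (exS S c (PS.Ple τ c m a b)) (plePre τ c m a b) (nb2 L Γ)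
          true (ar2_EL hL) hS' hO fun y => ?_
        exact ((hfib y).toExS hcd hple).tameX (((hple.swap.and hple).fiber y).toExS _ _)
      exact TT.ofExS (tt_univ_iff.mpr h1)

end VS

end Pool.Agent.Helper97.LO

end

/-! ### formerly `Pool.Agent.VLin.NBQa` -/

section

/-!
# VLIN, module NBQa: the case without bad pairs, and the set `J`
-/

set_option autoImplicit false
set_option linter.unusedSectionVars false
set_option linter.unusedVariables false

namespace Pool.Agent.Helper97.LO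

open Set Pool.Agent.Helper5 Pool.Agent.Helper5.DU Pool.Agent.Helper6.Str
  Pool.Agent.Helper79.VC Pool.Agent.Helper97.VC Pool.Agent.Helper97.MD Pool.Agent.Helper6.VC

variable {L : FirstOrder.Language.{0, 0}} {M N P : Type} {A Γ : Type}

/-- definable sets of definable expansions are definable -/
theorem Dfb.ofExS {S : L.Structure M} {C : Type} {X : Set M} {dat : M → C} {rel : M → M → Prop}
    (h : Dfb (exS S dat rel) X) (hd : DfbC S dat) (hr : Dfb2 S rel) : Dfb S X := by
  classical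
  obtain ⟨F, η, hη, h⟩ := h
  obtain ⟨F₁, η₁, hη₁, hd⟩ := hd
  obtain ⟨F₂, η₂, hη₂, hr⟩ := hr
  refine ⟨F ∪ (F₁ ∪ F₂), max η₁ η₂ + η, add_lt_om1 (max_lt hη₁ hη₂) hη, fun c c' hb =>
    h c c' ?_⟩
  have h2 : BFR (exS S dat rel) (exS S dat rel) univ univ η
      (insert (c, c') (dg ((F ∪ (F₁ ∪ F₂) : Finset M) : Set M))) := by
    refine BFR.expand (q := dg ((F₁ ∪ F₂ : Finset M) : Set M)) ?_ η ?_ ?_ hb
    · intro p hp hq hb
      rw [atEq_exS]
      refine ⟨hb.atEq, fun a ha => ?_, fun a ha b hb' => ?_⟩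
      · refine hd _ _ (BFR.anti ?_ (hb.mono (le_max_left _ _)))
        rintro e (rfl | ⟨f, hf, rfl⟩)
        · exact ha
        · exact hq ⟨f, by simp [Finset.mem_coe.mp hf], rfl⟩
      · refine hr _ _ _ _ (BFR.anti ?_ (hb.mono (le_max_right _ _)))
        rintro e (rfl | rfl | ⟨f, hf, rfl⟩)
        · exact ha
        · exact hb'
        · exact hq ⟨f, by simp [Finset.mem_coe.mp hf], rfl⟩
    · exact ((Finset.finite_toSet _).image _).insert _
    · rintro e ⟨f, hf, rfl⟩
      refine mem_insert_of_mem _ ⟨f, ?_, rfl⟩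
      simp only [Finset.coe_union, mem_union, Finset.mem_coe] at hf ⊢
      exact Or.inr hf
  refine BFR.anti ?_ h2
  refine insert_subset_insert ?_
  rintro e ⟨f, hf, rfl⟩
  exact ⟨f, by simp [Finset.mem_coe.mp hf], rfl⟩

section VS

variable [∀ n, IsEmpty (L.Functions n)] [∀ n, Countable (L.Relations n)]
  {K : Set (L.Structure ℕ)} {δ : Ordinal.{0}} {S : L.Structure M} {τ : M → M → A} {rv : A → A}
  {c : M → Γ} {m : Γ → Γ → A}


theorem nbq_base (hL : Ar2 L) (hS : VSt K δ S) (hτ : Lbl S τ rv)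
    (hc : ∀ x x', AtEq S S {(x, x')} → c x = c x') (hb : PS.Bad τ c m rv = ∅) :
    TT S {x | TT S (PS.Cl τ c m x)} := by
  refine (tt_scc_base (m := m) hL hS hτ hc hb).mono fun x hx => ?_
  have hx' : TT S (PS.Cl τ c m x) := hx
  rw [PS.cl_eq_scc_of_bad_empty hτ.rev hb x] at hx'
  exact hx'.tameX (dfb_scc hτ (DfbC.of_atEq hc) x)

/-- (b1) the union of the initial segments in the ideal -/
theorem nbq_J [Finite Γ] (hL : Ar2 L) (hS : VSt K δ S) (hτ : Lbl S τ rv)
    (hc : ∀ x x', AtEq S S {(x, x')} → c x = c x') {a b : Γ} (hab : m a b ≠ rv (m b a)) :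
    Dfb S {z | ∃ u, (c u = a ∨ c u = b) ∧ TT S {w | PS.Plt τ c m a b w u} ∧
      PS.Plt τ c m a b z u} ∧
    TT S {z | ∃ u, (c u = a ∨ c u = b) ∧ TT S {w | PS.Plt τ c m a b w u} ∧
      PS.Plt τ c m a b z u} := by
  have hcd : DfbC S c := DfbC.of_atEq hc
  have hple := dfb2_ple (m := m) hτ hcd a b
  have hplt : Dfb2 S fun x y => PS.Plt τ c m a b x y := hple.swap.not
  obtain ⟨K', δ', hS'⟩ := ple_vst (m := m) (a := a) (b := b) hL hS hτ hc
  have hO := ple_ost (m := m) (a := a) (b := b) hL hτ hc hab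
  set J := {z | ∃ u, (c u = a ∨ c u = b) ∧ TT S {w | PS.Plt τ c m a b w u} ∧
      PS.Plt τ c m a b z u} with hJ
  rcases J.eq_empty_or_nonempty with h0 | ⟨x, u₀, hu₀, ht₀, hx₀⟩
  · rw [h0]
    exact ⟨dfb_of_finite finite_empty, TT.of_countable countable_empty⟩
  -- transitivity
  have tot : ∀ x y, PS.Ple τ c m a b x y ∨ PS.Ple τ c m a b y x := PS.ple_total hτ.rev hab
  have lt_of_le_of_lt' : ∀ {u v w : M}, PS.Ple τ c m a b u v → PS.Plt τ c m a b v w →
      PS.Plt τ c m a b u w := fun h1 h2 h3 => h2 (PS.ple_trans h3 h1)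
  have lt_of_lt_of_le' : ∀ {u v w : M}, PS.Plt τ c m a b u v → PS.Ple τ c m a b v w →
      PS.Plt τ c m a b u w := fun h1 h2 h3 => h1 (PS.ple_trans h2 h3)
  have le_of_lt' : ∀ {u v : M}, PS.Plt τ c m a b u v → PS.Ple τ c m a b u v := by
    intro u v h
    rcases tot u v with h1 | h1
    · exact h1
    · exact absurd h1 h
  obtain ⟨hN1, hN2⟩ := @dfb_nb (EL L Γ) M _ _ K' δ' (exS S c (PS.Ple τ c m a b))
    (plePre τ c m a b) (nb2 L Γ) true (ar2_EL hL) hS' hO x
  let N : Set M := {y | PS.Ple τ c m a b x y ∧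
    TameX (exS S c (PS.Ple τ c m a b)) {z | PS.Ple τ c m a b x z ∧ PS.Ple τ c m a b z y}}
  have hNd : Dfb S N := Dfb.ofExS (S := S) hN1 hcd hple
  have hNt : TT S N := TT.ofExS (S := S) hN2
  let U : Set M := {u | (c u = a ∨ c u = b) ∧ PS.Plt τ c m a b x u ∧
    ∀ z, ¬ (PS.Ple τ c m a b x z ∧ PS.Plt τ c m a b z u ∧ z ∉ N)}
  have hU1 : ∀ u, (c u = a ∨ c u = b) → TT S {w | PS.Plt τ c m a b w u} →
      PS.Plt τ c m a b x u → u ∈ U := by
    rintro u h1 h2 h3
    refine ⟨h1, h3, ?_⟩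
    rintro z ⟨hz1, hz2, hz3⟩
    apply hz3
    refine ⟨hz1, ?_⟩
    have h4 : TT S {w | PS.Ple τ c m a b x w ∧ PS.Ple τ c m a b w z} :=
      h2.mono fun w hw => lt_of_le_of_lt' hw.2 hz2
    exact (h4.toExS hcd hple).tameX (((hple.fiber x).inter (hple.swap.fiber z)).toExS _ _)
  have hcov : ∀ u ∈ U, {w | PS.Plt τ c m a b w u} ⊆ {w | PS.Plt τ c m a b w u₀} ∪ N := by
    rintro u ⟨h1, h2, h3⟩ w hw
    by_cases hxw : PS.Ple τ c m a b x w
    · right
      by_contra hN
      exact h3 w ⟨hxw, hw, hN⟩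
    · left
      have h4 : PS.Plt τ c m a b w x := hxw
      exact lt_of_lt_of_le' h4 (le_of_lt' hx₀)
  have hJU : J = {z | ∃ u, u ∈ U ∧ PS.Plt τ c m a b z u} := by
    ext z
    constructor
    · rintro ⟨u, h1, h2, h3⟩
      by_cases hxu : PS.Plt τ c m a b x u
      · exact ⟨u, hU1 u h1 h2 hxu, h3⟩
      · have hux : PS.Ple τ c m a b u x := not_not.mp hxu
        exact ⟨u₀, hU1 u₀ hu₀ ht₀ hx₀, lt_of_lt_of_le' h3 (PS.ple_trans hux (le_of_lt' hx₀))⟩
    · rintro ⟨u, hu, hz⟩
      exact ⟨u, hu.1, (ht₀.union hNt).mono (hcov u hu), hz⟩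
  have hUd : Dfb S U := by
    have d1 : Dfb S {u | c u = a ∨ c u = b} := by
      have := hcd.dfb {a, b}
      simpa using this
    have d3 : Dfb S {u | ∀ z, ¬ (PS.Ple τ c m a b x z ∧ PS.Plt τ c m a b z u ∧ z ∉ N)} := by
      have h1 : Dfb2 S fun z u => ¬ (z ∈ {z | PS.Ple τ c m a b x z} ∧
          (PS.Plt τ c m a b z u ∧ z ∈ Nᶜ)) :=
        ((hple.fiber x).left.and (hplt.and hNd.compl.left)).not
      exact h1.all
    exact (d1.inter ((hplt.fiber x).inter d3))
  refine ⟨?_, ?_⟩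
  · rw [hJU]
    have h1 : Dfb2 S fun u z => u ∈ U ∧ PS.Plt τ c m a b z u := hUd.left.and hplt.swap
    exact h1.ex
  · refine (ht₀.union hNt).mono ?_
    rw [hJU]
    rintro z ⟨u, hu, hz⟩
    exact hcov u hu hz

end VS

end Pool.Agent.Helper97.LO

end

/-! ### formerly `Pool.Agent.VLin.NBQ` -/

section

/-!
# VLIN, module NBQ
-/

set_option autoImplicit false
set_option linter.unusedSectionVars false
set_option linter.unusedVariables false

namespace Pool.Agent.Helper97.LO

open Set Pool.Agent.Helper5 Pool.Agent.Helper5.DU Pool.Agent.Helper6.Str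
  Pool.Agent.Helper79.VC Pool.Agent.Helper97.VC Pool.Agent.Helper97.MD Pool.Agent.Helper6.VC

variable {L : FirstOrder.Language.{0, 0}} {M N P : Type} {A Γ : Type}

/-- the union of the closures inside `X` which are in the ideal -/
def DP (S : L.Structure M) (τ : M → M → A) (c : M → Γ) (m : Γ → Γ → A) (X : Set M) : Set M :=
  {x | x ∈ X ∧ TT S (PS.Cl τ c m x ∩ X)}

section VS

variable [∀ n, IsEmpty (L.Functions n)] [∀ n, Countable (L.Relations n)]
  {K : Set (L.Structure ℕ)} {δ : Ordinal.{0}} {S : L.Structure M} {τ : M → M → A} {rv : A → A}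
  {c : M → Γ} {m : Γ → Γ → A}

/-- the pieces -/
theorem dp_piece (hL : Ar2 L) (hS : VSt K δ S) (hτ : Lbl S τ rv)
    (hc : ∀ x x', AtEq S S {(x, x')} → c x = c x') {n : ℕ}
    (ih : ∀ (M : Type) (K : Set (L.Structure ℕ)) (δ : Ordinal.{0}) (S : L.Structure M)
      (τ : M → M → A) (c : M → Γ), VSt K δ S → Lbl S τ rv →
      (∀ x x', AtEq S S {(x, x')} → c x = c x') → (PS.Bad τ c m rv).ncard < n →
      TT S {x | TT S (PS.Cl τ c m x)})
    {X Y Z : Set M} (e : X = Y \ Z) (hY : PS.Cld τ c m Y) (hZ : PS.Cld τ c m Z) (hX : Dfb S X)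
    (hlt : (PS.Bad (fun u v : X => τ u.1 v.1) (fun u => c u.1) m rv).ncard < n) :
    Dfb S (DP S τ c m X) ∧ TT S (DP S τ c m X) := by
  rcases finite_or_infinite X with hf | hf
  · have h1 : (DP S τ c m X).Finite := (Set.toFinite X).subset fun x hx => hx.1
    exact ⟨dfb_of_finite h1, TT.of_countable h1.countable⟩
  · obtain ⟨⟨K', δ', hS'⟩, hτ', hc', hA⟩ := piece_data hL hS hτ hc e hY hZ hX
    have h1 := ih X K' δ' _ _ _ hS' hτ' hc' hlt
    have h2 : Subtype.val '' {x : X | TT (pl S (Subtype.val : X → M))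
        (PS.Cl (fun u v : X => τ u.1 v.1) (fun u => c u.1) m x)} = DP S τ c m X := by
      have h3 := PS.cl_sub hY hZ (τ := τ) (c := c) (m := m)
      rw [← e] at h3
      ext x
      constructor
      · rintro ⟨x, hx, rfl⟩
        have hx' : TT (pl S (Subtype.val : X → M))
          (PS.Cl (fun u v : X => τ u.1 v.1) (fun u => c u.1) m x) := hx
        rw [tt_pl hL hX hA, h3] at hx'
        exact ⟨x.2, hx'⟩
      · rintro ⟨hx, hx'⟩
        refine ⟨⟨x, hx⟩, ?_, rfl⟩
        show TT (pl S (Subtype.val : X → M)) _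
        rw [tt_pl hL hX hA, h3]
        exact hx'
    refine ⟨?_, ?_⟩
    · rw [← h2]
      exact dfb_of_pl hX (dfb_d0 hL hS' hτ' hc' h1)
    · rw [← h2, ← tt_pl hL hX hA]
      exact h1

theorem nbq [Finite Γ] (hL : Ar2 L) (hS : VSt K δ S) (hτ : Lbl S τ rv)
    (hc : ∀ x x', AtEq S S {(x, x')} → c x = c x') : TT S {x | TT S (PS.Cl τ c m x)} := by
  classical
  obtain ⟨n, hn⟩ : ∃ n, (PS.Bad τ c m rv).ncard = n := ⟨_, rfl⟩
  induction n using Nat.strong_induction_on generalizing M K δ with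
  | _ n ih =>
    have hcd : DfbC S c := DfbC.of_atEq hc
    by_cases hb : PS.Bad τ c m rv = ∅
    · exact nbq_base hL hS hτ hc hb
    obtain ⟨⟨a, b⟩, hab⟩ := nonempty_iff_ne_empty.mpr hb
    have hab1 : m a b ≠ rv (m b a) := hab.1
    have ih' : ∀ (M : Type) (K : Set (L.Structure ℕ)) (δ : Ordinal.{0}) (S : L.Structure M)
        (τ : M → M → A) (c : M → Γ), VSt K δ S → Lbl S τ rv →
        (∀ x x', AtEq S S {(x, x')} → c x = c x') → (PS.Bad τ c m rv).ncard < n →
        TT S {x | TT S (PS.Cl τ c m x)} := fun M K δ S τ c h1 h2 h3 h4 => ih _ h4 h1 h2 h3 rfl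
    have hple := dfb2_ple (m := m) hτ hcd a b
    have hplt : Dfb2 S fun x y => PS.Plt τ c m a b x y := hple.swap.not
    have hcl := dfb2_cl (m := m) hτ hcd
    have tot : ∀ x y, PS.Ple τ c m a b x y ∨ PS.Ple τ c m a b y x := PS.ple_total hτ.rev hab1
    -- the number of bad pairs decreases
    have hbad : ∀ Y Z : Set M, PS.Cld τ c m Y → PS.Cld τ c m Z →
        (a, b) ∉ PS.Bad (fun u v : (Y \ Z : Set M) => τ u.1 v.1) (fun u => c u.1) m rv →
        (PS.Bad (fun u v : (Y \ Z : Set M) => τ u.1 v.1) (fun u => c u.1) m rv).ncard < n := by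
      intro Y Z hY hZ h
      rw [← hn]
      exact ncard_lt_ncard ⟨PS.bad_sub (rv := rv) hY hZ, fun hsub => h (hsub hab)⟩ (toFinite _)
    obtain ⟨hJd, hJt⟩ := nbq_J (m := m) hL hS hτ hc hab1
    set J := {z | ∃ u, (c u = a ∨ c u = b) ∧ TT S {w | PS.Plt τ c m a b w u} ∧
      PS.Plt τ c m a b z u} with hJ
    have hJc : PS.Cld τ c m J := by
      rintro x ⟨u, h1, h2, h3⟩ y hxy
      exact ⟨u, h1, h2, PS.cld_plt u x h3 y hxy⟩
    let D := {x | TT S (PS.Cl τ c m x)}
    have hDc : ∀ x ∈ D, PS.Cl τ c m x ⊆ D := fun x hx y hy =>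
      TT.mono (show TT S (PS.Cl τ c m x) from hx) (PS.cl_subset_cl hy)
    let U : Set M := {u | (c u = a ∨ c u = b) ∧ TT S {w | PS.Plt τ c m a b w u}}
    have hDU : ∀ x ∈ D, (c x = a ∨ c x = b) → x ∈ U := fun x hx h =>
      ⟨h, TT.mono (show TT S (PS.Cl τ c m x) from hx) (PS.plt_subset_cl hτ.rev hab1 h)⟩
    -- the fibre above `J`
    obtain ⟨T, hTd, hTt, hTU, hTcl⟩ : ∃ T : Set M, Dfb S T ∧
        (Dfb S (DP S τ c m T) ∧ TT S (DP S τ c m T)) ∧ U ⊆ J ∪ T ∧ PS.Cld τ c m (J ∪ T) := by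
      by_cases hT : ∃ t ∈ U, t ∉ J
      · obtain ⟨t, ht, htJ⟩ := hT
        have hUt : ∀ u ∈ U, PS.Ple τ c m a b u t := by
          intro u hu
          by_contra h
          exact htJ ⟨u, hu.1, hu.2, h⟩
        have eJ : J = {z | PS.Plt τ c m a b z t} := by
          ext z
          constructor
          · rintro ⟨u, h1, h2, h3⟩ h4
            exact h3 (PS.ple_trans (hUt u ⟨h1, h2⟩) h4)
          · intro h
            exact ⟨t, ht.1, ht.2, h⟩
        have e := PS.fib_eq (c := c) (m := m) hτ.rev hab1 t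
        have hY := PS.cld_ple (τ := τ) (c := c) (m := m) (a := a) (b := b) t
        have hZ := PS.cld_plt (τ := τ) (c := c) (m := m) (a := a) (b := b) t
        have hFd : Dfb S (PS.Fib τ c m a b t) := (hple.swap.and hple).fiber t
        refine ⟨PS.Fib τ c m a b t, hFd, dp_piece hL hS hτ hc ih' e hY hZ hFd ?_, ?_, ?_⟩
        · have h1 := hbad _ _ hY hZ (PS.bad_fib (rv := rv) hτ.rev hab1 t _ _ hY hZ (by rw [← e]))
          rw [← e] at h1
          exact h1
        · intro u hu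
          by_cases huJ : u ∈ J
          · exact Or.inl huJ
          · refine Or.inr ⟨hUt u hu, ?_⟩
            by_contra h
            exact huJ ⟨t, ht.1, ht.2, h⟩
        · have : J ∪ PS.Fib τ c m a b t = {z | PS.Ple τ c m a b z t} := by
            rw [eJ, e]
            ext z
            constructor
            · rintro (h | h)
              · rcases tot z t with h1 | h1
                · exact h1
                · exact absurd h1 h
              · exact h.1
            · intro h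
              by_cases h1 : PS.Plt τ c m a b z t
              · exact Or.inl h1
              · exact Or.inr ⟨h, h1⟩
          rw [this]
          exact hY
      · push Not at hT
        refine ⟨∅, dfb_of_finite finite_empty, ?_, ?_, ?_⟩
        · have : DP S τ c m ∅ = ∅ := by
            ext x
            exact ⟨fun h => h.1, fun h => absurd h (notMem_empty x)⟩
          rw [this]
          exact ⟨dfb_of_finite finite_empty, TT.of_countable countable_empty⟩
        · intro u hu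
          exact Or.inl (hT u hu)
        · rwa [union_empty]
    -- the closed set `J ∪ D₁`
    set D₁ := DP S τ c m T with hD₁
    have hJD : PS.Cld τ c m (J ∪ D₁) := by
      rintro x (hx | hx) y hxy
      · exact Or.inl (hJc x hx y hxy)
      · have h1 : y ∈ J ∪ T := hTcl x (Or.inr hx.1) y hxy
        rcases h1 with h1 | h1
        · exact Or.inl h1
        · refine Or.inr ⟨h1, hx.2.mono (inter_subset_inter_left _ ?_)⟩
          exact PS.cl_subset_cl (Relation.ReflTransGen.single hxy)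
    let W : Set M := ({x | c x = a ∨ c x = b} ∪ T)ᶜ ∪ (J ∪ D₁)
    let Q : Set M := {z | PS.Cl τ c m z ⊆ W}
    have hab2 : Dfb S {x | c x = a ∨ c x = b} := by
      have := hcd.dfb {a, b}
      simpa using this
    have hWd : Dfb S W := (hab2.union hTd).compl.union (hJd.union hTt.1)
    have hQd : Dfb S Q := by
      have h1 : Dfb2 S fun z y => ¬ (z ∈ Wᶜ ∧ z ∈ PS.Cl τ c m y) :=
        (hWd.compl.left.and hcl.swap).not
      have h2 := h1.all
      have h3 : {y | ∀ z, ¬ (z ∈ Wᶜ ∧ z ∈ PS.Cl τ c m y)} = Q := by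
        ext y
        constructor
        · intro h z hz
          by_contra hzW
          exact h z ⟨hzW, hz⟩
        · rintro h z ⟨h1, h2⟩
          exact h1 (h h2)
      rwa [h3] at h2
    have hQc : PS.Cld τ c m Q := fun x hx y hxy =>
      (PS.cl_subset_cl (Relation.ReflTransGen.single hxy)).trans hx
    have hDQ : D ⊆ Q := by
      intro x hx z hz
      have hzD : z ∈ D := hDc x hx hz
      by_cases hzW : z ∈ {x | c x = a ∨ c x = b} ∪ T
      · right
        have h1 : z ∈ J ∪ T := by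
          rcases hzW with h | h
          · exact hTU (hDU z hzD h)
          · exact Or.inr h
        rcases h1 with h1 | h1
        · exact Or.inl h1
        · exact Or.inr ⟨h1, TT.mono (show TT S (PS.Cl τ c m z) from hzD) inter_subset_left⟩
      · exact Or.inl hzW
    have hQ2d : Dfb S (Q \ (J ∪ D₁)) := hQd.diff (hJd.union hTt.1)
    have hQ2 := dp_piece hL hS hτ hc ih' rfl hQc hJD hQ2d (hbad _ _ hQc hJD ?_)
    · refine ((hJt.union hTt.2).union hQ2.2).mono ?_
      intro x hx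
      by_cases h1 : x ∈ J ∪ D₁
      · exact Or.inl h1
      · exact Or.inr ⟨⟨hDQ hx, h1⟩, TT.mono (show TT S (PS.Cl τ c m x) from hx)
          inter_subset_left⟩
    · rintro ⟨-, x, y, hx, hy, -⟩
      have h1 : x.1 ∈ W := x.2.1 (PS.mem_cl_self _)
      rcases h1 with h1 | h1
      · exact h1 (Or.inl (Or.inl hx))
      · exact x.2.2 h1

end VS

end Pool.Agent.Helper97.LO

end

/-! ### formerly `Pool.Agent.VLin.PIE` -/

section

/-!
# VLIN, module PIE: LQ and NBQ in a definable piece with a definable colouring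
-/

set_option autoImplicit false
set_option linter.unusedSectionVars false
set_option linter.unusedVariables false

namespace Pool.Agent.Helper97.LO

open Set Pool.Agent.Helper5 Pool.Agent.Helper5.DU Pool.Agent.Helper6.Str
  Pool.Agent.Helper79.VC Pool.Agent.Helper97.VC Pool.Agent.Helper97.MD Pool.Agent.Helper6.VC

variable {L : FirstOrder.Language.{0, 0}} {M N P : Type} {A Γ : Type}

/-- the discrete preorder -/
@[instance_reducible] private def piePre (M : Type) : Preorder M where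
  le a b := a = b
  le_refl _ := rfl
  le_trans _ _ _ := Eq.trans

section VS

variable [∀ n, IsEmpty (L.Functions n)] [∀ n, Countable (L.Relations n)]
  {K : Set (L.Structure ℕ)} {δ : Ordinal.{0}} {S : L.Structure M} {τ : M → M → A} {rv : A → A}
  {c : M → Γ} {m : Γ → Γ → A}

private theorem pie_anti {F G : Set M} (h : F ⊆ G) {η ζ : Ordinal.{0}} (hη : η ≤ ζ)
    {a : M × M} (hb : BFR S S univ univ ζ (insert a (dg G))) :
    BFR S S univ univ η (insert a (dg F)) :=
  (BFR.anti (insert_subset_insert (image_mono h)) hb).mono hη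

private theorem pie_par {X : Set M} (hX : Dfb S X) (hc : DfbC S c) :
    ∃ (F : Finset M) (η : Ordinal.{0}), η < om1 ∧
      (∀ z z', BFR S S univ univ η (insert (z, z') (dg (F : Set M))) → (z ∈ X ↔ z' ∈ X)) ∧
      ∀ z z', BFR S S univ univ η (insert (z, z') (dg (F : Set M))) → c z = c z' := by
  classical
  obtain ⟨F1, η1, h1, hX⟩ := hX
  obtain ⟨F2, η2, h2, hc⟩ := hc
  refine ⟨F1 ∪ F2, max η1 η2, max_lt h1 h2, fun z z' h => ?_, fun z z' h => ?_⟩
  · refine hX z z' (pie_anti ?_ (le_max_left _ _) h)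
    rw [Finset.coe_union]
    exact subset_union_left
  · refine hc z z' (pie_anti ?_ (le_max_right _ _) h)
    rw [Finset.coe_union]
    exact subset_union_right

private theorem pie_out (hτ : Lbl S τ rv) {X : Set M}
    (hout : ∀ g, g ∉ X → ∀ z ∈ X, ∀ z' ∈ X, c z = c z' → τ z g = τ z' g) :
    ∀ g, g ∉ X → ∀ z ∈ X, ∀ z' ∈ X, c z = c z' → AtEq S S {(z, z')} →
      AtEq S S {(g, g), (z, z')} := by
  intro g hg z hz z' hz' hcc hzz
  refine hτ.det g z g z' (fun h => hg (h ▸ hz)) (fun h => hg (h ▸ hz')) ?_ hzz ?_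
  · refine TR.atEq_refl S ?_
    rintro a rfl
    rfl
  · rw [hτ.rev z g, hτ.rev z' g, hout g hg z hz z' hz' hcc]

/-- the piece -/
private abbrev pieS (S : L.Structure M) (c : M → Γ) (X : Set M) : (EL L Γ).Structure X :=
  exS (pl S (Subtype.val : X → M)) (fun z => c z.1) fun z w => (fun _ _ : M => False) z.1 w.1

private theorem pie_lbl (hτ : Lbl S τ rv) (X : Set M) :
    Lbl (pieS S c X) (fun u v : X => τ u.1 v.1) rv :=
  lbl_exS (lbl_pl hτ X) (fun z : X => c z.1)

private theorem pie_hc (X : Set M) (x x' : X) (h : AtEq (pieS S c X) (pieS S c X) {(x, x')}) :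
    c x.1 = c x'.1 :=
  (atEq_exS.mp h).2.1 (x, x') rfl

theorem lq_piece [Finite Γ] (hL : Ar2 L) (hS : VSt K δ S) (hτ : Lbl S τ rv) {X : Set M}
    (hX : Dfb S X) (hc : DfbC S c)
    (hout : ∀ g, g ∉ X → ∀ z ∈ X, ∀ z' ∈ X, c z = c z' → τ z g = τ z' g)
    (h : ∀ x ∈ X, TT S {y | y ∈ PS.ClX τ c m X x ∧ x ∈ PS.ClX τ c m X y}) : TT S X := by
  classical
  rcases X.finite_or_infinite with hfin | hinf
  · exact TT.of_countable hfin.countable
  have : Infinite X := hinf.to_subtype
  have : Countable Γ := Finite.to_countable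
  obtain ⟨F, η, hη, hX', hc'⟩ := pie_par hX hc
  have ho := pie_out hτ hout
  let _ : Preorder M := piePre M
  obtain ⟨K', δ', hV⟩ := hS.piece hL X c (fun _ _ => False) F hη hX'
    (fun z _ z' _ h => hc' z z' h) (fun _ _ _ _ _ _ _ _ _ => Iff.rfl) ho
  have htt : ∀ Y : Set X, TT (pieS S c X) Y ↔ TT S (Subtype.val '' Y) :=
    tt_piece hL X c (fun _ _ => False) F hη hX' (fun z _ z' _ h => hc' z z' h)
      (fun _ _ _ _ _ _ _ _ _ => Iff.rfl) ho
  have h1 : TT (pieS S c X) (univ : Set X) := by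
    refine lq (m := m) (c := fun z : X => c z.1) (ar2_EL hL) hV (pie_lbl hτ X)
      (pie_hc X) fun x => ?_
    rw [htt]
    refine (h x.1 x.2).mono ?_
    rintro _ ⟨y, ⟨hy1, hy2⟩, rfl⟩
    constructor
    · rw [← PS.image_cl_subtype]
      exact ⟨y, hy1, rfl⟩
    · rw [← PS.image_cl_subtype]
      exact ⟨x, hy2, rfl⟩
  rw [htt, image_univ, Subtype.range_coe] at h1
  exact h1

theorem nbq_piece [Finite Γ] (hL : Ar2 L) (hS : VSt K δ S) (hτ : Lbl S τ rv) {X : Set M}
    (hX : Dfb S X) (hc : DfbC S c)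
    (hout : ∀ g, g ∉ X → ∀ z ∈ X, ∀ z' ∈ X, c z = c z' → τ z g = τ z' g) :
    TT S {x | x ∈ X ∧ TT S (PS.ClX τ c m X x)} := by
  classical
  rcases X.finite_or_infinite with hfin | hinf
  · exact TT.of_countable (hfin.countable.mono fun x hx => hx.1)
  have : Infinite X := hinf.to_subtype
  have : Countable Γ := Finite.to_countable
  obtain ⟨F, η, hη, hX', hc'⟩ := pie_par hX hc
  have ho := pie_out hτ hout
  let _ : Preorder M := piePre M
  obtain ⟨K', δ', hV⟩ := hS.piece hL X c (fun _ _ => False) F hη hX'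
    (fun z _ z' _ h => hc' z z' h) (fun _ _ _ _ _ _ _ _ _ => Iff.rfl) ho
  have htt : ∀ Y : Set X, TT (pieS S c X) Y ↔ TT S (Subtype.val '' Y) :=
    tt_piece hL X c (fun _ _ => False) F hη hX' (fun z _ z' _ h => hc' z z' h)
      (fun _ _ _ _ _ _ _ _ _ => Iff.rfl) ho
  have h1 := nbq (m := m) (c := fun z : X => c z.1) (ar2_EL hL) hV (pie_lbl hτ X) (pie_hc X)
  rw [htt] at h1
  refine h1.mono ?_
  rintro x ⟨hx, hx'⟩
  refine ⟨⟨x, hx⟩, ?_, rfl⟩
  show TT (pieS S c X) _
  rw [htt, PS.image_cl_subtype]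
  exact hx'

end VS

end Pool.Agent.Helper97.LO

end
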