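import Pool.Agent.VB.H
import Pool.Agent.VLin.RT
import Pool.Agent.VB.I
import Pool.Agent.VCw.FDefs

/-!
# Tools for Vaught's conjecture, part 10: linear parts, automorphisms

Merged file (to shorten the import chain): contents, unchanged, of
`Pool.Agent.VLin.ATa`, `Pool.Agent.VLin.ATb`, `Pool.Agent.VLin.ATc`, `Pool.Agent.VLin.ATd`, `Pool.Agent.VLin.AT`, `Pool.Agent.VLin.LNa`, `Pool.Agent.VLin.LNb`, `Pool.Agent.VCw.ATP`, `Pool.Agent.VCw.TWO`.
-/

/-! ### formerly `Pool.Agent.VLin.ATa` -/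

section

/-!
# VLIN, module ATa: thin sets
-/

set_option autoImplicit false
set_option linter.unusedSectionVars false
set_option linter.unusedVariables false

namespace Pool.Agent.Helper97.LO

open Set Pool.Agent.Helper5 Pool.Agent.Helper5.DU Pool.Agent.Helper6.Str
  Pool.Agent.Helper79.VC Pool.Agent.Helper97.VC Pool.Agent.Helper97.MD Pool.Agent.Helper6.VC

variable {L : FirstOrder.Language.{0, 0}} {M N P : Type} {A Γ : Type}

/-- thin sets: covered by countably many cuts in the ideal -/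
def Thin (S : L.Structure M) (τ : M → M → A) (X : Set M) : Prop :=
  ∃ V : ℕ → Set M, (∀ n, TT S (V n) ∧ ∃ k, CutK τ (V n) k) ∧ X ⊆ ⋃ n, V n

/-- the elements which distinguish `x` and `x'` -/
def Dl (τ : M → M → A) (x x' : M) : Set M := {w | τ x w ≠ τ x' w}

section ATa

variable {S : L.Structure M} {τ : M → M → A}

theorem Thin.mono {X Y : Set M} (h : Thin S τ Y) (hXY : X ⊆ Y) : Thin S τ X := by
  obtain ⟨V, hV, hY⟩ := h
  exact ⟨V, hV, hXY.trans hY⟩

theorem Thin.iUnion {X : ℕ → Set M} (h : ∀ n, Thin S τ (X n)) : Thin S τ (⋃ n, X n) := by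
  choose V hV hX using h
  refine ⟨fun i => V i.unpair.1 i.unpair.2, fun i => hV _ _, ?_⟩
  refine iUnion_subset fun n x hx => ?_
  obtain ⟨j, hj⟩ := mem_iUnion.1 (hX n hx)
  refine mem_iUnion.2 ⟨Nat.pair n j, ?_⟩
  simpa only [Nat.unpair_pair] using hj

/-- countable unions, any nonempty countable index type -/
theorem ata_iUnion {ι : Type} [Countable ι] [Nonempty ι] {X : ι → Set M}
    (h : ∀ i, Thin S τ (X i)) : Thin S τ (⋃ i, X i) := by
  obtain ⟨f, hf⟩ := exists_surjective_nat ι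
  refine (Thin.iUnion fun n => h (f n)).mono ?_
  refine iUnion_subset fun i x hx => ?_
  obtain ⟨n, rfl⟩ := hf i
  exact mem_iUnion.2 ⟨n, hx⟩

theorem Thin.union {X Y : Set M} (h : Thin S τ X) (h' : Thin S τ Y) : Thin S τ (X ∪ Y) := by
  have h1 : ∀ b : Bool, Thin S τ (if b = true then X else Y) := by
    intro b
    cases b
    · simpa using h'
    · simpa using h
  refine (ata_iUnion h1).mono ?_
  rintro x (hx | hx)
  · exact mem_iUnion.2 ⟨true, by simpa using hx⟩
  · exact mem_iUnion.2 ⟨false, by simpa using hx⟩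

theorem Thin.of_cut {X : Set M} (h : TT S X) {k : ℕ} (h' : CutK τ X k) : Thin S τ X :=
  ⟨fun _ => X, fun _ => ⟨h, k, h'⟩, fun _ hx => mem_iUnion.2 ⟨0, hx⟩⟩

theorem Thin.tt {X : Set M} (h : Thin S τ X) : TT S X := by
  obtain ⟨V, hV, hX⟩ := h
  exact (TT.iUnion fun n => (hV n).1).mono hX

theorem ata_dl_symm (x x' : M) : Dl τ x x' = Dl τ x' x := by
  ext w
  exact ⟨fun h => Ne.symm h, fun h => Ne.symm h⟩

theorem ata_dl_trans (x x' x'' : M) : Dl τ x x'' ⊆ Dl τ x x' ∪ Dl τ x' x'' := by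
  intro w hw
  by_contra hcon
  simp only [mem_union, not_or] at hcon
  obtain ⟨h1, h2⟩ := hcon
  simp only [Dl, mem_ofPred_eq, not_not] at h1 h2
  exact hw (h1.trans h2)

theorem ata_dl_self (x : M) : Dl τ x x = ∅ := by
  ext w
  simp [Dl]

/-- **Representatives of the generic rows.** -/
theorem exists_zreps {k : ℕ}
    (H : ∀ F : Finset M, ∃ V, (F : Set M) ⊆ V ∧ TT S V ∧ CutK τ V k)
    (hM : ¬ Thin S τ univ) :
    ∃ (n : ℕ) (z : Fin n → M) (γ : M → Fin n) (V₀ : Set M) (d : Fin k → Fin n → A),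
      TT S V₀ ∧ CutK τ V₀ k ∧ (∀ i, z i ∈ V₀) ∧ (∀ x, Thin S τ (Dl τ x (z (γ x)))) ∧
      (∀ i j, i ≠ j → ¬ Thin S τ (Dl τ (z i) (z j))) ∧
      ∀ w, w ∉ V₀ → ∃ l, ∀ i, τ (z i) w = d l i := by
  classical
  have hemp : Thin S τ ∅ := by
    obtain ⟨V, -, hV, hV'⟩ := H ∅
    exact (Thin.of_cut hV hV').mono (empty_subset _)
  have hne : Nonempty M := by
    by_contra hcon
    rw [not_nonempty_iff] at hcon
    exact hM (hemp.mono fun x _ => (hcon.false x).elim)
  let s : Setoid M :=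
    { r := fun x x' => Thin S τ (Dl τ x x')
      iseqv :=
        { refl := fun x => by rw [ata_dl_self]; exact hemp
          symm := fun {x y} h => by rw [ata_dl_symm]; exact h
          trans := fun {x y z} h h' => (h.union h').mono (ata_dl_trans x y z) } }
  have key : ∀ f : Fin (k + 1) → M, ∃ i j, i ≠ j ∧ Thin S τ (Dl τ (f i) (f j)) := by
    intro f
    obtain ⟨V, hV', hVT, hVc⟩ := H (Finset.univ.image f)
    have hV : range f ⊆ V := by
      rintro _ ⟨i, rfl⟩
      exact hV' (by simp)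
    obtain ⟨⟨r, hr⟩, -⟩ := id hVc
    obtain ⟨i, j, hij, hrij⟩ := Fintype.exists_ne_map_eq_of_card_lt (fun i => r (f i)) (by simp)
    refine ⟨i, j, hij, (Thin.of_cut hVT hVc).mono ?_⟩
    intro w hw
    by_contra hwV
    exact hw (hr (f i) (hV ⟨i, rfl⟩) (f j) (hV ⟨j, rfl⟩) hrij w hwV)
  have hfin : Finite (Quotient s) := by
    by_contra hcon
    rw [not_finite_iff_infinite] at hcon
    let e := Infinite.natEmbedding (Quotient s)
    obtain ⟨i, j, hij, h⟩ := key fun i => (e i.1).out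
    have h1 : (⟦(e i.1).out⟧ : Quotient s) = ⟦(e j.1).out⟧ := Quotient.sound h
    rw [Quotient.out_eq, Quotient.out_eq] at h1
    exact hij (Fin.ext (e.injective h1))
  let n := Nat.card (Quotient s)
  let e : Quotient s ≃ Fin n := Finite.equivFin (Quotient s)
  let z : Fin n → M := fun i => (e.symm i).out
  let γ : M → Fin n := fun x => e ⟦x⟧
  obtain ⟨V₀, hV₀', hT, hC⟩ := H (Finset.univ.image z)
  have hV₀ : range z ⊆ V₀ := by
    rintro _ ⟨i, rfl⟩
    exact hV₀' (by simp)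
  obtain ⟨-, r, hr⟩ := id hC
  let x₀ : M := Classical.choice hne
  let rep : Fin k → M := fun l => if h : ∃ w, w ∉ V₀ ∧ r w = l then h.choose else x₀
  refine ⟨n, z, γ, V₀, fun l i => τ (z i) (rep l), hT, hC, fun i => hV₀ ⟨i, rfl⟩, ?_, ?_, ?_⟩
  · intro x
    have h1 : (⟦x⟧ : Quotient s) = ⟦z (γ x)⟧ := by
      simp only [z, γ, Equiv.symm_apply_apply, Quotient.out_eq]
    exact Quotient.exact h1
  · intro i j hij hthin
    have h1 : (⟦z i⟧ : Quotient s) = ⟦z j⟧ := Quotient.sound hthin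
    simp only [z, Quotient.out_eq] at h1
    exact hij (e.symm.injective h1)
  · intro w hw
    refine ⟨r w, fun i => ?_⟩
    have hex : ∃ w', w' ∉ V₀ ∧ r w' = r w := ⟨w, hw, rfl⟩
    have hrep : rep (r w) = hex.choose := dif_pos hex
    show τ (z i) w = τ (z i) (rep (r w))
    rw [hrep]
    exact hr w hw hex.choose hex.choose_spec.1 hex.choose_spec.2.symm (z i) (hV₀ ⟨i, rfl⟩)

/-- closing off one step, one cut -/
theorem ata_step_cut {n : ℕ} (z : Fin n → M) (γ : M → Fin n)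
    (h1 : ∀ x, Thin S τ (Dl τ x (z (γ x))))
    (h2 : ∀ i j, i ≠ j → ¬ Thin S τ (Dl τ (z i) (z j))) {V : Set M} (hV : TT S V) {k : ℕ}
    (hc : CutK τ V k) : Thin S τ (⋃ x ∈ V, Dl τ x (z (γ x))) := by
  classical
  have hVt : Thin S τ V := Thin.of_cut hV hc
  obtain ⟨⟨r, hr⟩, -⟩ := hc
  rcases V.eq_empty_or_nonempty with rfl | ⟨x₀, hx₀⟩
  · refine hVt.mono ?_
    simp
  · let rep : Fin k → M := fun l => if h : ∃ x, x ∈ V ∧ r x = l then h.choose else x₀
    have hrep : ∀ x ∈ V, rep (r x) ∈ V ∧ r (rep (r x)) = r x := by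
      intro x hx
      have hex : ∃ x', x' ∈ V ∧ r x' = r x := ⟨x, hx, rfl⟩
      have : rep (r x) = hex.choose := dif_pos hex
      rw [this]
      exact hex.choose_spec
    have hU : Thin S τ (⋃ o : Option (Fin k), (match o with
        | none => V
        | some l => Dl τ (rep l) (z (γ (rep l))) : Set M)) := by
      refine ata_iUnion fun o => ?_
      cases o with
      | none => exact hVt
      | some l => exact h1 _
    refine hU.mono ?_
    refine iUnion₂_subset fun x hx => ?_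
    obtain ⟨hx1, hx2⟩ := hrep x hx
    have hD : Dl τ x (rep (r x)) ⊆ V := by
      intro w hw
      by_contra hwV
      exact hw (hr x hx _ hx1 hx2.symm w hwV)
    have hγ : γ x = γ (rep (r x)) := by
      by_contra hne
      refine h2 _ _ hne ?_
      refine (((h1 x).union (hVt.mono hD)).union (h1 (rep (r x)))).mono ?_
      refine (ata_dl_trans _ (rep (r x)) _).trans (union_subset_union ?_ subset_rfl)
      refine (ata_dl_trans _ x _).trans (union_subset_union ?_ subset_rfl)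
      rw [ata_dl_symm]
    intro w hw
    rcases ata_dl_trans x (rep (r x)) (z (γ x)) hw with hw | hw
    · exact mem_iUnion.2 ⟨none, hD hw⟩
    · rw [hγ] at hw
      exact mem_iUnion.2 ⟨some (r x), hw⟩

/-- closing off one step -/
theorem ata_step {n : ℕ} (z : Fin n → M) (γ : M → Fin n)
    (h1 : ∀ x, Thin S τ (Dl τ x (z (γ x))))
    (h2 : ∀ i j, i ≠ j → ¬ Thin S τ (Dl τ (z i) (z j))) {X : Set M} (hX : Thin S τ X) :
    Thin S τ (⋃ x ∈ X, Dl τ x (z (γ x))) := by
  obtain ⟨V, hV, hXV⟩ := hX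
  have h3 : ∀ i, Thin S τ (⋃ x ∈ V i, Dl τ x (z (γ x))) := by
    intro i
    obtain ⟨hT, k, hk⟩ := hV i
    exact ata_step_cut z γ h1 h2 hT hk
  refine (Thin.iUnion h3).mono ?_
  refine iUnion₂_subset fun x hx w hw => ?_
  obtain ⟨i, hi⟩ := mem_iUnion.1 (hXV hx)
  exact mem_iUnion.2 ⟨i, mem_iUnion₂.2 ⟨x, hi, hw⟩⟩

/-- closing off thin sets -/
theorem exists_thin_closed {n : ℕ} (z : Fin n → M) (γ : M → Fin n) (h1 : ∀ x, Thin S τ (Dl τ x (z (γ x))))
    (h2 : ∀ i j, i ≠ j → ¬ Thin S τ (Dl τ (z i) (z j))) {X : Set M} (hX : Thin S τ X) :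
    ∃ G, X ⊆ G ∧ Thin S τ G ∧ ∀ x ∈ G, Dl τ x (z (γ x)) ⊆ G := by
  let G : ℕ → Set M := fun i => Nat.rec X (fun _ Y => ⋃ x ∈ Y, Dl τ x (z (γ x))) i
  have hG : ∀ i, Thin S τ (G i) := by
    intro i
    induction i with
    | zero => exact hX
    | succ i ih => exact ata_step z γ h1 h2 ih
  refine ⟨⋃ i, G i, fun x hx => mem_iUnion.2 ⟨0, hx⟩, Thin.iUnion hG, ?_⟩
  intro x hx w hw
  obtain ⟨i, hi⟩ := mem_iUnion.1 hx
  refine mem_iUnion.2 ⟨i + 1, ?_⟩
  exact mem_iUnion₂.2 ⟨x, hi, hw⟩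

/-- elements beyond a thin set -/
theorem exists_beyond' {n : ℕ} (z : Fin n → M) (hM : ¬ Thin S τ univ)
    (h2 : ∀ i j, i ≠ j → ¬ Thin S τ (Dl τ (z i) (z j))) {G : Set M} (hG : Thin S τ G) :
    ∃ v : Fin n × Fin n → M, (∀ i, v i ∉ G) ∧
      ∀ i j, i ≠ j → τ (z i) (v (i, j)) ≠ τ (z j) (v (i, j)) := by
  have key : ∀ p : Fin n × Fin n, ∃ v, v ∉ G ∧ (p.1 ≠ p.2 → τ (z p.1) v ≠ τ (z p.2) v) := by
    intro p
    by_cases hp : p.1 = p.2
    · by_contra hcon
      push Not at hcon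
      refine hM (hG.mono fun x _ => ?_)
      by_contra hx
      exact (hcon x hx).1 hp
    · by_contra hcon
      push Not at hcon
      refine h2 _ _ hp (hG.mono fun x hx => ?_)
      by_contra hxG
      exact hx ((hcon x hxG).2)
  choose v hv1 hv2 using key
  exact ⟨v, hv1, fun i j hij => hv2 (i, j) hij⟩

end ATa

end Pool.Agent.Helper97.LO

end

/-! ### formerly `Pool.Agent.VLin.ATb` -/

section

/-!
# VLIN, module ATb: the closures given by elements beyond a thin set
-/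

set_option autoImplicit false
set_option linter.unusedSectionVars false
set_option linter.unusedVariables false

namespace Pool.Agent.Helper97.LO

open Set Pool.Agent.Helper5 Pool.Agent.Helper5.DU Pool.Agent.Helper6.Str
  Pool.Agent.Helper79.VC Pool.Agent.Helper97.VC Pool.Agent.Helper97.MD Pool.Agent.Helper6.VC

variable {L : FirstOrder.Language.{0, 0}} {M N P : Type} {A Γ : Type}

/-- some element satisfying `p` -/
noncomputable def pick {n : ℕ} (p : Fin n → Prop) : Option (Fin n) := by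
  classical exact if h : ∃ i, p i then some h.choose else none

/-- the row of `x` over the tuple `v` -/
noncomputable def bet {n : ℕ} {J : Type} (τ : M → M → A) (z : Fin n → M) (v : J → M) (x : M) :
    Option (Fin n) := pick fun i => ∀ j, τ x (v j) = τ (z i) (v j)

/-- the column of `w` over the tuple `z` -/
noncomputable def del {n k : ℕ} (τ : M → M → A) (z : Fin n → M) (d : Fin k → Fin n → A) (w : M) :
    Option (Fin k) := pick fun l => ∀ i, τ (z i) w = d l i

/-- the matrix -/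
def mtx {n k : ℕ} (a₀ : A) (d : Fin k → Fin n → A) :
    Option (Fin n) × Option (Fin k) → Option (Fin n) × Option (Fin k) → A
  | (some i, _), (_, some l) => d l i
  | _, _ => a₀

/-- the colouring -/
noncomputable def colr {n k : ℕ} {J : Type} (τ : M → M → A) (z : Fin n → M) (v : J → M)
    (d : Fin k → Fin n → A) (x : M) : Option (Fin n) × Option (Fin k) :=
  (bet τ z v x, del τ z d x)

section ATb

variable {S : L.Structure M} {τ : M → M → A} {n k : ℕ} {z : Fin n → M} {γ : M → Fin n}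
  {V₀ G : Set M} {d : Fin k → Fin n → A} {v : Fin n × Fin n → M} {a₀ : A}

theorem atb_pick_spec {n : ℕ} {p : Fin n → Prop} (h : ∃ i, p i) : ∃ i, pick p = some i ∧ p i := by
  classical
  refine ⟨h.choose, ?_, h.choose_spec⟩
  unfold pick
  rw [dif_pos h]

theorem del_isSome (hd : ∀ w, w ∉ V₀ → ∃ l, ∀ i, τ (z i) w = d l i) {w : M} (hw : w ∉ V₀) :
    ∃ l, del τ z d w = some l ∧ ∀ i, τ (z i) w = d l i :=
  atb_pick_spec (hd w hw)

theorem bet_eq (hG : ∀ x ∈ G, Dl τ x (z (γ x)) ⊆ G) (hv : ∀ i, v i ∉ G)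
    (hs : ∀ i j, i ≠ j → τ (z i) (v (i, j)) ≠ τ (z j) (v (i, j))) {x : M} (hx : x ∈ G) :
    bet τ z v x = some (γ x) := by
  have h1 : ∀ j, τ x (v j) = τ (z (γ x)) (v j) := by
    intro j
    by_contra h
    exact hv j (hG x hx h)
  obtain ⟨i, h2, h3⟩ := atb_pick_spec (p := fun i => ∀ j, τ x (v j) = τ (z i) (v j)) ⟨γ x, h1⟩
  have h4 : i = γ x := by
    by_contra hne
    exact hs i (γ x) hne ((h3 (i, γ x)).symm.trans (h1 (i, γ x)))
  unfold bet
  rw [h2, h4]

/-- the value of the matrix for an element outside a set containing `V₀` -/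
theorem atb_mtx (hV : V₀ ⊆ G) (hd : ∀ w, w ∉ V₀ → ∃ l, ∀ i, τ (z i) w = d l i)
    (i : Fin n) (o : Option (Fin k)) (o' : Option (Fin n)) {w : M} (hw : w ∉ G) :
    mtx a₀ d (some i, o) (o', del τ z d w) = τ (z i) w := by
  obtain ⟨l, h1, h2⟩ := del_isSome hd (fun h => hw (hV h))
  rw [h1, h2 i]
  rfl

/-- the value of the matrix depends on the row of the first and the column of the second -/
theorem atb_mtx_congr (p : Option (Fin n)) (o o' : Option (Fin k)) (q q' : Option (Fin n))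
    (e : Option (Fin k)) : mtx a₀ d (p, o) (q, e) = mtx a₀ d (p, o') (q', e) := by
  cases p <;> cases e <;> rfl

/-- `G` is closed for the generic colouring -/
theorem cld_gen (hV : V₀ ⊆ G) (hd : ∀ w, w ∉ V₀ → ∃ l, ∀ i, τ (z i) w = d l i)
    (hG : ∀ x ∈ G, Dl τ x (z (γ x)) ⊆ G) :
    PS.Cld τ (fun x => ((some (γ x), del τ z d x) : Option (Fin n) × Option (Fin k)))
      (mtx a₀ d) G := by
  intro x hx y hxy
  by_contra hy
  refine hxy.2 ?_
  have h1 : τ x y = τ (z (γ x)) y := by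
    by_contra h
    exact hy (hG x hx h)
  rw [h1]
  exact (atb_mtx hV hd (γ x) _ _ hy).symm

theorem cld_colr (hV : V₀ ⊆ G) (hd : ∀ w, w ∉ V₀ → ∃ l, ∀ i, τ (z i) w = d l i)
    (hG : ∀ x ∈ G, Dl τ x (z (γ x)) ⊆ G) (hv : ∀ i, v i ∉ G)
    (hs : ∀ i j, i ≠ j → τ (z i) (v (i, j)) ≠ τ (z j) (v (i, j))) :
    PS.Cld τ (colr τ z v d) (mtx a₀ d) G := by
  intro x hx y hxy
  by_contra hy
  refine hxy.2 ?_
  have h1 : τ x y = τ (z (γ x)) y := by
    by_contra h
    exact hy (hG x hx h)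
  unfold colr
  rw [h1, bet_eq hG hv hs hx]
  exact (atb_mtx hV hd (γ x) _ _ hy).symm

/-- on `G` the two colourings have the same arrows -/
theorem atb_arr (hG : ∀ x ∈ G, Dl τ x (z (γ x)) ⊆ G) (hv : ∀ i, v i ∉ G)
    (hs : ∀ i j, i ≠ j → τ (z i) (v (i, j)) ≠ τ (z j) (v (i, j))) {x : M} (hx : x ∈ G) (y : M) :
    PS.Arr τ (colr τ z v d) (mtx a₀ d) x y ↔
      PS.Arr τ (fun x => ((some (γ x), del τ z d x) : Option (Fin n) × Option (Fin k)))
        (mtx a₀ d) x y := by
  unfold PS.Arr colr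
  rw [bet_eq hG hv hs hx, atb_mtx_congr (some (γ x)) (del τ z d x) (del τ z d x) (bet τ z v y)
    (some (γ y)) (del τ z d y)]

theorem cl_colr_eq (hV : V₀ ⊆ G) (hd : ∀ w, w ∉ V₀ → ∃ l, ∀ i, τ (z i) w = d l i)
    (hG : ∀ x ∈ G, Dl τ x (z (γ x)) ⊆ G) (hv : ∀ i, v i ∉ G)
    (hs : ∀ i j, i ≠ j → τ (z i) (v (i, j)) ≠ τ (z j) (v (i, j))) {x : M} (hx : x ∈ G) :
    PS.Cl τ (colr τ z v d) (mtx a₀ d) x =
      PS.Cl τ (fun x => ((some (γ x), del τ z d x) : Option (Fin n) × Option (Fin k)))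
        (mtx a₀ d) x := by
  have hc1 := cld_colr (a₀ := a₀) hV hd hG hv hs
  have hc2 := cld_gen (a₀ := a₀) hV hd hG
  ext y
  constructor
  · intro hy
    have : y ∈ G ∧ Relation.ReflTransGen (PS.Arr τ (fun x => ((some (γ x), del τ z d x) :
        Option (Fin n) × Option (Fin k))) (mtx a₀ d)) x y := by
      induction hy with
      | refl => exact ⟨hx, Relation.ReflTransGen.refl⟩
      | tail _ h ih =>
        exact ⟨hc1 _ ih.1 _ h, ih.2.tail ((atb_arr hG hv hs ih.1 _).1 h)⟩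
    exact this.2
  · intro hy
    have : y ∈ G ∧ Relation.ReflTransGen (PS.Arr τ (colr τ z v d) (mtx a₀ d)) x y := by
      induction hy with
      | refl => exact ⟨hx, Relation.ReflTransGen.refl⟩
      | tail _ h ih =>
        exact ⟨hc2 _ ih.1 _ h, ih.2.tail ((atb_arr hG hv hs ih.1 _).2 h)⟩
    exact this.2

/-- closed sets are cuts -/
theorem cutK_of_cld {C : Type} [Finite C] {c : M → C} {m : C → C → A} {X : Set M}
    (h : PS.Cld τ c m X) : ∃ k, CutK τ X k := by
  have ht : ∀ x ∈ X, ∀ y, y ∉ X → τ x y = m (c x) (c y) := by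
    intro x hx y hy
    by_contra hne
    exact hy (h x hx y ⟨fun e => hy (e ▸ hx), hne⟩)
  obtain ⟨k, ⟨e⟩⟩ := Finite.exists_equiv_fin C
  refine ⟨k, ⟨fun x => e (c x), fun x hx x' hx' hr g hg => ?_⟩,
    ⟨fun x => e (c x), fun g hg g' hg' hr x hx => ?_⟩⟩
  · rw [ht x hx g hg, ht x' hx' g hg, e.injective hr]
  · rw [ht x hx g hg, ht x hx g' hg', e.injective hr]

/-- a thin closure determines the generic row -/
theorem gen_of_cl (hτV : TT S V₀) {k' : ℕ} (hcV : CutK τ V₀ k')
    (hd : ∀ w, w ∉ V₀ → ∃ l, ∀ i, τ (z i) w = d l i)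
    (h1 : ∀ x, Thin S τ (Dl τ x (z (γ x)))) (h2 : ∀ i j, i ≠ j → ¬ Thin S τ (Dl τ (z i) (z j)))
    {x : M} {g : Fin n} (hg : bet τ z v x = some g)
    (ht : TT S (PS.Cl τ (colr τ z v d) (mtx a₀ d) x)) : γ x = g := by
  by_contra hne
  have hcl : PS.Cld τ (colr τ z v d) (mtx a₀ d) (PS.Cl τ (colr τ z v d) (mtx a₀ d) x) :=
    fun y hy w hyw => Relation.ReflTransGen.tail hy hyw
  obtain ⟨k1, hk1⟩ := cutK_of_cld hcl
  have hsub : Dl τ x (z g) ⊆ PS.Cl τ (colr τ z v d) (mtx a₀ d) x ∪ V₀ := by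
    intro w hw
    by_cases hwV : w ∈ V₀
    · exact Or.inr hwV
    · left
      by_cases hxw : x = w
      · subst hxw
        exact Relation.ReflTransGen.refl
      · refine Relation.ReflTransGen.single ⟨hxw, ?_⟩
        have h3 : mtx a₀ d (colr τ z v d x) (colr τ z v d w) = τ (z g) w := by
          unfold colr
          rw [hg]
          exact atb_mtx (Subset.refl V₀) hd g _ _ hwV
        rw [h3]
        exact hw
  have h4 : Thin S τ (Dl τ x (z g)) :=
    ((Thin.of_cut ht hk1).union (Thin.of_cut hτV hcV)).mono hsub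
  refine h2 (γ x) g hne (((h1 x).union h4).mono ?_)
  intro w hw
  by_cases h5 : τ x w = τ (z (γ x)) w
  · right
    intro h6
    exact hw (h5.symm.trans h6)
  · exact Or.inl h5

end ATb

section

variable {S : L.Structure M}

/-- the coloured structure -/
@[instance_reducible]
def colS {C : Type} (S : L.Structure M) (c : M → C) : (EL L C).Structure M :=
  exS S c fun _ _ => False

end

end Pool.Agent.Helper97.LO

end

/-! ### formerly `Pool.Agent.VLin.ATc` -/

section

/-!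
# VLIN, module ATc: the Scott levels of the closures are bounded
-/

set_option autoImplicit false
set_option linter.unusedSectionVars false
set_option linter.unusedVariables false

namespace Pool.Agent.Helper97.LO

open Set Pool.Agent.Helper5 Pool.Agent.Helper5.DU Pool.Agent.Helper6.Str
  Pool.Agent.Helper79.VC Pool.Agent.Helper97.VC Pool.Agent.Helper97.MD Pool.Agent.Helper6.VC

variable {L : FirstOrder.Language.{0, 0}} {M N P : Type} {A Γ : Type}

/-! ### coloured structures -/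

/-- equivalences respect definable colours -/
theorem bfr_colS {C : Type} {S : L.Structure M} {T : L.Structure N} {c : M → C} {c' : N → C}
    {η : Ordinal.{0}} {q : Set (M × N)}
    (hc : ∀ x x', BFR S T univ univ η (insert (x, x') q) → c x = c' x') (γ : Ordinal.{0}) :
    ∀ {p : Set (M × N)}, q ⊆ p → BFR S T univ univ (η + γ) p →
      BFR (colS S c) (colS T c') univ univ γ p := by
  induction γ using WellFoundedLT.induction with
  | _ γ ih =>
    intro p hq h
    rw [BFR.def]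
    refine ⟨?_, fun β hβ => ⟨fun x _ => ?_, fun y _ => ?_⟩⟩
    · show AtEq (exS S c fun _ _ => False) (exS T c' fun _ _ => False) p
      rw [atEq_exS]
      refine ⟨h.atEq, fun a ha => hc _ _ ?_, fun _ _ _ _ => Iff.rfl⟩
      refine BFR.anti ?_ (h.mono le_self_add)
      exact insert_subset ha hq
    · obtain ⟨y, hy, h1⟩ := h.forth (add_lt_add_right hβ η) (mem_univ x)
      exact ⟨y, hy, ih β hβ (hq.trans (subset_insert _ _)) h1⟩
    · obtain ⟨x, hx, h1⟩ := h.back (add_lt_add_right hβ η) (mem_univ y)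
      exact ⟨x, hx, ih β hβ (hq.trans (subset_insert _ _)) h1⟩

/-- the Scott levels of a piece depend only on the colours in the piece -/
theorem SL.col_congr {C : Type} [∀ n, IsEmpty (L.Functions n)] {S : L.Structure M} {X : Set M}
    {c c' : M → C} (h : ∀ x ∈ X, c x = c' x) {α : Ordinal.{0}} (hα : α < om1)
    (hS : SL (colS S c) X α) : SL (colS S c') X α := by
  refine hS.congr hα (BFR.of_map id (injOn_id _) (image_id _).symm ?_ _
    fun a ha => absurd ha (notMem_empty a))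
  intro n R v hv
  rcases R with R | e
  · exact Iff.rfl
  · match n, e, v, hv with
    | 0, e, _, _ => exact Empty.elim e
    | 1, e, v, hv =>
      show c (v 0) = e ↔ c' (v 0) = e
      rw [h _ (hv 0)]
    | 2, _, _, _ => exact Iff.rfl
    | (n + 3), e, _, _ => exact Empty.elim e

/-- the colours given by tuples are respected -/
theorem colr_congr {n k : ℕ} {J : Type} {S : L.Structure M} {T : L.Structure N}
    {τ : M → M → A} {τ' : N → N → A}
    (h : ∀ x y x' y', AtEq S T {(x, x'), (y, y')} → τ x y = τ' x' y')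
    {z : Fin n → M} {z' : Fin n → N} {v : J → M} {v' : J → N} {d : Fin k → Fin n → A} {x : M}
    {x' : N} {q : Set (M × N)} (hz : ∀ i, (z i, z' i) ∈ q) (hv : ∀ j, (v j, v' j) ∈ q)
    (hx : AtEq S T (insert (x, x') q)) : colr τ z v d x = colr τ' z' v' d x' := by
  have key : ∀ a ∈ insert (x, x') q, ∀ b ∈ insert (x, x') q, τ a.1 b.1 = τ' a.2 b.2 := by
    intro a ha b hb
    refine h _ _ _ _ (AtEq.anti ?_ hx)
    rintro e (rfl | rfl)
    · exact ha
    · exact hb
  have e1 : (fun i => ∀ j, τ x (v j) = τ (z i) (v j)) =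
      fun i => ∀ j, τ' x' (v' j) = τ' (z' i) (v' j) := by
    funext i
    refine propext (forall_congr' fun j => ?_)
    have h1 := key _ (mem_insert _ _) _ (mem_insert_of_mem _ (hv j))
    have h2 := key _ (mem_insert_of_mem _ (hz i)) _ (mem_insert_of_mem _ (hv j))
    dsimp only at h1 h2
    rw [h1, h2]
  have e2 : (fun l => ∀ i, τ (z i) x = d l i) = fun l => ∀ i, τ' (z' i) x' = d l i := by
    funext l
    refine propext (forall_congr' fun i => ?_)
    have h1 := key _ (mem_insert_of_mem _ (hz i)) _ (mem_insert _ _)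
    dsimp only at h1
    rw [h1]
  show (pick _, pick _) = (pick _, pick _)
  rw [e1, e2]

section ATc

variable [∀ n, IsEmpty (L.Functions n)] [∀ n, Countable (L.Relations n)]
  {K : Set (L.Structure ℕ)} {δ : Ordinal.{0}} {S : L.Structure M} {τ : M → M → A} {rv : A → A}
  {n k : ℕ} {z : Fin n → M} {γ : M → Fin n}
  {V₀ : Set M} {d : Fin k → Fin n → A} {a₀ : A}

/-- colours given by tuples are definable -/
theorem dfbC_colr {J : Type} [Finite J] (hτ : Lbl S τ rv) (z : Fin n → M) (v : J → M)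
    (d : Fin k → Fin n → A) : ∃ F : Finset M, ∀ x x',
      BFR S S univ univ 0 (insert (x, x') (dg (F : Set M))) → colr τ z v d x = colr τ z v d x' := by
  classical
  have hf : (range z ∪ range v).Finite := (finite_range z).union (finite_range v)
  refine ⟨hf.toFinset, fun x x' h => colr_congr hτ.inv (q := dg (hf.toFinset : Set M)) ?_ ?_
    h.atEq⟩
  · intro i
    refine ⟨z i, ?_, rfl⟩
    rw [hf.coe_toFinset]
    exact Or.inl ⟨i, rfl⟩
  · intro j
    refine ⟨v j, ?_, rfl⟩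
    rw [hf.coe_toFinset]
    exact Or.inr ⟨j, rfl⟩

theorem at_bound (hL : Ar2 L) (hS : VSt K δ S) (hτ : Lbl S τ rv)
    (H : ∀ X : Set M, X.Countable → Thin S τ X)
    (hM : ¬ Thin S τ univ) (hτV : TT S V₀) (hcV : CutK τ V₀ k)
    (hd : ∀ w, w ∉ V₀ → ∃ l, ∀ i, τ (z i) w = d l i)
    (h1 : ∀ x, Thin S τ (Dl τ x (z (γ x)))) (h2 : ∀ i j, i ≠ j → ¬ Thin S τ (Dl τ (z i) (z j))) :
    ∃ ρ < om1, ∀ x, SL (colS S fun x => ((some (γ x), del τ z d x) :
        Option (Fin n) × Option (Fin k)))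
      (PS.Cl τ (fun x => ((some (γ x), del τ z d x) : Option (Fin n) × Option (Fin k)))
        (mtx a₀ d) x) ρ := by
  classical
  obtain ⟨cg, hcg⟩ : ∃ cg : M → Option (Fin n) × Option (Fin k),
    cg = fun x => (some (γ x), del τ z d x) := ⟨_, rfl⟩
  rw [← hcg]
  by_contra hcon
  push Not at hcon
  -- counterexamples of all levels
  choose x hx using fun l : Om => hcon (od l) (od_lt l)
  -- closed thin sets
  have hG : ∀ r : Om, ∃ G, V₀ ⊆ G ∧ (∀ l < r, x l ∈ G) ∧ Thin S τ G ∧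
      ∀ y ∈ G, Dl τ y (z (γ y)) ⊆ G := by
    intro r
    obtain ⟨G, hG1, hG2, hG3⟩ := exists_thin_closed z γ h1 h2
      ((Thin.of_cut hτV hcV).union (H (x '' (Iio r)) ((countable_Iio_om r).image x)))
    exact ⟨G, fun y hy => hG1 (Or.inl hy), fun l hl => hG1 (Or.inr ⟨l, hl, rfl⟩), hG2, hG3⟩
  choose G hGV hGx hGt hGc using hG
  choose v hvG hvs using fun r => exists_beyond' z hM h2 (hGt r)
  -- the limit
  let e : Fin n ⊕ (Fin n × Fin n) ≃ Fin (n + n * n) :=
    (Equiv.sumCongr (Equiv.refl _) finProdFinEquiv).trans finSumFinEquiv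
  obtain ⟨N, T, b, V, hV, hT, hlim⟩ :=
    hS.limit (fun (r : Om) (i : Fin (n + n * n)) => Sum.elim z (v r) (e.symm i))
  obtain ⟨zs, hzs⟩ : ∃ zs : Fin n → N, zs = fun i => b (e (Sum.inl i)) := ⟨_, rfl⟩
  obtain ⟨vs, hvs'⟩ : ∃ vs : Fin n × Fin n → N, vs = fun i => b (e (Sum.inr i)) := ⟨_, rfl⟩
  obtain ⟨q, hq⟩ : ∃ q : Om → Set (N × M),
    q = fun r => range fun i => (b i, Sum.elim z (v r) (e.symm i)) := ⟨_, rfl⟩
  have hqz : ∀ r i, (zs i, z i) ∈ q r := by
    intro r i
    rw [hq, hzs]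
    exact ⟨e (Sum.inl i), by simp⟩
  have hqv : ∀ r i, (vs i, v r i) ∈ q r := by
    intro r i
    rw [hq, hvs']
    exact ⟨e (Sum.inr i), by simp⟩
  have hex : ∀ D : Set Om, D.Countable → ∃ r ∈ V, r ∉ D := by
    intro D hD
    by_contra h
    push Not at h
    exact hV (hD.mono h)
  have hT0 : BFR T S univ univ Ordinal.omega0 ∅ := by
    obtain ⟨D, hD, h⟩ := hlim Ordinal.omega0 omega_lt_om1
    obtain ⟨r, hr, hrD⟩ := hex D hD
    exact BFR.anti (empty_subset _) (h r hr hrD)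
  obtain ⟨τ', hτ', hττ⟩ := hτ.transfer hT0
  -- the coloured limit
  obtain ⟨cs, hcs⟩ : ∃ cs : N → Option (Fin n) × Option (Fin k), cs = colr τ' zs vs d := ⟨_, rfl⟩
  obtain ⟨cr, hcr⟩ : ∃ cr : Om → M → Option (Fin n) × Option (Fin k),
    cr = fun r => colr τ z (v r) d := ⟨_, rfl⟩
  obtain ⟨F, hF⟩ := dfbC_colr hτ' zs vs d
  rw [← hcs] at hF
  obtain ⟨K', δ', hT'⟩ := VSt.expandA hL hT (dat := cs) (rel := fun _ _ => False)
    ⟨F, 0, Ordinal.omega_pos 1, hF⟩ ⟨∅, 0, Ordinal.omega_pos 1, fun _ _ _ _ _ => Iff.rfl⟩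
  have hL' : Ar2 (EL L (Option (Fin n) × Option (Fin k))) := ar2_EL hL
  have hτT : Lbl (exS T cs fun _ _ => False) τ' rv := lbl_exS hτ' cs
  have hcT : ∀ y y', AtEq (exS T cs fun _ _ => False) (exS T cs fun _ _ => False) {(y, y')} →
      cs y = cs y' := fun y y' h => (atEq_exS.mp h).2.1 _ rfl
  have hn := nbq (m := mtx a₀ d) hL' hT' hτT hcT
  obtain ⟨α, hα, hαe⟩ := d0 hL' hT' hτT hcT hn
  obtain ⟨l, hl⟩ := od_surj hα
  -- the closures of the counterexample
  have hcl : ∀ r, l < r → PS.Cl τ (cr r) (mtx a₀ d) (x l) = PS.Cl τ cg (mtx a₀ d) (x l) := by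
    intro r hr
    rw [hcr, hcg]
    exact cl_colr_eq (hGV r) hd (hGc r) (hvG r) (hvs r) (hGx r l hr)
  have hsub : ∀ r, l < r → PS.Cl τ cg (mtx a₀ d) (x l) ⊆ G r := by
    intro r hr
    rw [hcg]
    exact (cld_gen (hGV r) hd (hGc r)).cl_subset (hGx r l hr)
  have hcol : ∀ r, ∀ y ∈ G r, cr r y = cg y := by
    intro r y hy
    rw [hcr, hcg]
    show (bet τ z (v r) y, del τ z d y) = _
    rw [bet_eq (hGc r) (hvG r) (hvs r) hy]
  have hSL : ∀ r, l < r → ∀ ρ < om1, SL (colS S (cr r)) (PS.Cl τ (cr r) (mtx a₀ d) (x l)) ρ ↔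
      SL (colS S cg) (PS.Cl τ cg (mtx a₀ d) (x l)) ρ := by
    intro r hr ρ hρ
    rw [hcl r hr]
    exact ⟨fun h => h.col_congr (fun y hy => hcol r y (hsub r hr hy)) hρ,
      fun h => h.col_congr (fun y hy => (hcol r y (hsub r hr hy)).symm) hρ⟩
  have hcount : (Iic l).Countable := by
    have h3 : Iic l = insert l (Iio l) := by
      ext y
      simp [le_iff_eq_or_lt]
    rw [h3]
    exact (countable_Iio_om l).insert l
  -- some Scott level
  obtain ⟨ρ, hρ, hρSL⟩ : ∃ ρ < om1, SL (colS S cg) (PS.Cl τ cg (mtx a₀ d) (x l)) ρ := by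
    obtain ⟨r, hrV, hr⟩ := hex _ hcount
    have hr' : l < r := lt_of_not_ge hr
    have h3 : TT S (PS.Cl τ (cr r) (mtx a₀ d) (x l)) := by
      rw [hcl r hr']
      exact (hGt r).tt.mono (hsub r hr')
    obtain ⟨F', hF'⟩ := dfbC_colr hτ z (v r) d
    have hFr : (cr r) = colr τ z (v r) d := by rw [hcr]
    have h4 : DfbC S (cr r) := by
      rw [hFr]
      exact ⟨F', 0, Ordinal.omega_pos 1, hF'⟩
    have h5 : TT (colS S (cr r)) (PS.Cl τ (cr r) (mtx a₀ d) (x l)) :=
      h3.toExS h4 ⟨∅, 0, Ordinal.omega_pos 1, fun _ _ _ _ _ => Iff.rfl⟩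
    have h6 : Dfb S (PS.Cl τ (cr r) (mtx a₀ d) (x l)) := (dfb2_cl hτ h4).fiber (x l)
    have h7 : Dfb (colS S (cr r)) (PS.Cl τ (cr r) (mtx a₀ d) (x l)) := h6.toExS _ _
    obtain ⟨ρ, hρ, h8⟩ := (h5.tameX h7).exists_SL
    exact ⟨ρ, hρ, (hSL r hr' ρ hρ).mp h8⟩
  -- the element of the limit structure
  obtain ⟨μ, hμ⟩ : ∃ μ : Ordinal.{0}, μ = max α ρ + Ordinal.omega0 := ⟨_, rfl⟩
  have hμ1 : μ < om1 := by
    rw [hμ]
    exact add_lt_om1 (max_lt hα hρ) omega_lt_om1
  have hαμ : α + Ordinal.omega0 ≤ μ := by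
    rw [hμ]
    exact add_le_add_left (le_max_left _ _) _
  have hρμ : ρ + Ordinal.omega0 ≤ μ := by
    rw [hμ]
    exact add_le_add_left (le_max_right _ _) _
  have hωμ : Ordinal.omega0 + μ < om1 := add_lt_om1 omega_lt_om1 hμ1
  obtain ⟨D, hD, hlim'⟩ := hlim (Ordinal.omega0 + μ + 1) (add_one_lt_om1 hωμ)
  obtain ⟨r, hrV, hr⟩ := hex (D ∪ Iic l) (hD.union hcount)
  have hrD : r ∉ D := fun h => hr (Or.inl h)
  have hr' : l < r := lt_of_not_ge fun h => hr (Or.inr h)
  have h3 : BFR T S univ univ (Ordinal.omega0 + μ + 1) (q r) := by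
    rw [hq]
    exact hlim' r hrV hrD
  obtain ⟨xs, -, h4⟩ := h3.back (lt_add_one_self _) (mem_univ (x l))
  have h5 : BFR (colS T cs) (colS S (cr r)) univ univ (Ordinal.omega0 + μ)
      (insert (xs, x l) (q r)) := by
    refine bfr_colS (η := 0) (q := q r) ?_ _ (subset_insert _ _) ?_
    · intro y y' hy
      rw [hcs, hcr]
      exact colr_congr hττ (hqz r) (hqv r) hy.atEq
    · rwa [zero_add]
  have h6 : BFR (colS T cs) (colS S (cr r)) univ univ (Ordinal.omega0 + μ) {(xs, x l)} := by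
    refine BFR.anti ?_ h5
    rintro a rfl
    exact mem_insert _ _
  have h7 : BFR (colS T cs) (colS S (cr r)) (PS.Cl τ' cs (mtx a₀ d) xs)
      (PS.Cl τ (cr r) (mtx a₀ d) (x l)) μ {(xs, x l)} := by
    refine BFR.restr (subset_univ _) (subset_univ _) Ordinal.omega0 μ ?_ h6
    intro y _ y' _ hy
    refine cl_congr (S := colS T cs) (T := colS S (cr r)) (κ := 0) (q := ∅) ?_ ?_ ?_
    · intro a b a' b' h
      exact hττ _ _ _ _ (atEq_exS.mp h).1
    · intro a a' h
      exact (atEq_exS.mp h.atEq).2.1 _ (mem_insert _ _)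
    · rw [zero_add]
      refine BFR.anti ?_ hy
      rintro a (rfl | rfl | ha)
      · exact Or.inr rfl
      · exact Or.inl rfl
      · exact absurd ha (notMem_empty _)
  have h8 : BFR (colS T cs) (colS S (cr r)) (PS.Cl τ' cs (mtx a₀ d) xs)
      (PS.Cl τ (cr r) (mtx a₀ d) (x l)) μ ∅ := BFR.anti (empty_subset _) h7
  -- the closure in the limit is tame
  have h9 : SL (colS T cs) (PS.Cl τ' cs (mtx a₀ d) xs) ρ :=
    ((hSL r hr' ρ hρ).mpr hρSL).congr hρ
      ((h8.mono hρμ).symm fun a ha => absurd ha (notMem_empty a))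
  have h10 : Dfb (colS T cs) (PS.Cl τ' cs (mtx a₀ d) xs) :=
    (dfb2_cl hτT (DfbC.of_atEq hcT)).fiber xs
  have h11 : TameX (colS T cs) (PS.Cl τ' cs (mtx a₀ d) xs) := VSt.tame_of_SL hT' h10 hρ h9
  have h12 : Auto (colS T cs) (PS.Cl τ' cs (mtx a₀ d) xs) := by
    have h13 := auto_diff hL' hτT hcT (PS.cld_cl (τ := τ') (c := cs) (m := mtx a₀ d) xs)
      (Z := ∅) (fun y hy => absurd hy (notMem_empty y))
    rwa [sdiff_empty] at h13
  have h14 : xs ∈ {y | TT (exS T cs fun _ _ => False) (PS.Cl τ' cs (mtx a₀ d) y)} :=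
    h12.tt hL' h11
  rw [hαe] at h14
  have h15 : SL (colS S (cr r)) (PS.Cl τ (cr r) (mtx a₀ d) (x l)) α :=
    SL.congr hα h14 (h8.mono hαμ)
  refine hx l ?_
  rw [hl]
  exact (hSL r hr' α hα).mp h15

end ATc

end Pool.Agent.Helper97.LO

end

/-! ### formerly `Pool.Agent.VLin.ATd` -/

section

/-!
# VLIN, module ATd: the generic row is definable
-/

set_option autoImplicit false
set_option linter.unusedSectionVars false
set_option linter.unusedVariables false

namespace Pool.Agent.Helper97.LO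

open Set Pool.Agent.Helper5 Pool.Agent.Helper5.DU Pool.Agent.Helper6.Str
  Pool.Agent.Helper79.VC Pool.Agent.Helper97.VC Pool.Agent.Helper97.MD Pool.Agent.Helper6.VC

variable {L : FirstOrder.Language.{0, 0}} {M N P : Type} {A Γ : Type}

section ATc

variable [∀ n, IsEmpty (L.Functions n)] [∀ n, Countable (L.Relations n)]
  {K : Set (L.Structure ℕ)} {δ : Ordinal.{0}} {S : L.Structure M} {τ : M → M → A} {rv : A → A}
  {n k : ℕ} {z : Fin n → M} {γ : M → Fin n}
  {V₀ : Set M} {d : Fin k → Fin n → A} {a₀ : A}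

omit [∀ n, IsEmpty (L.Functions n)] [∀ n, Countable (L.Relations n)] in
/-- equivalences respect colourings which are respected by atomic equivalence over `q` -/
theorem atd_col {C : Type} {c c' : M → C} {q : Set (M × M)}
    (hc : ∀ y y', AtEq S S (insert (y, y') q) → c y = c' y') (η : Ordinal.{0}) :
    ∀ p : Set (M × M), q ⊆ p → BFR S S univ univ η p →
      BFR (colS S c) (colS S c') univ univ η p := by
  induction η using WellFoundedLT.induction with
  | _ η ih =>
    intro p hqp h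
    rw [BFR.def]
    refine ⟨?_, fun β hβ => ⟨fun x hx => ?_, fun y hy => ?_⟩⟩
    · refine atEq_exS.mpr ⟨h.atEq, fun a ha => ?_, fun _ _ _ _ => Iff.rfl⟩
      refine hc _ _ (AtEq.anti ?_ h.atEq)
      rintro b (rfl | hb)
      · exact ha
      · exact hqp hb
    · obtain ⟨y, hyV, hy⟩ := h.forth hβ hx
      exact ⟨y, hyV, ih β hβ _ (hqp.trans (subset_insert _ _)) hy⟩
    · obtain ⟨x, hxV, hx⟩ := h.back hβ hy
      exact ⟨x, hxV, ih β hβ _ (hqp.trans (subset_insert _ _)) hx⟩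

omit [∀ n, IsEmpty (L.Functions n)] [∀ n, Countable (L.Relations n)] in
/-- colourings which agree on a piece -/
theorem atd_same {C : Type} {c c' : M → C} {Y : Set M} (h : ∀ y ∈ Y, c y = c' y)
    (η : Ordinal.{0}) : BFR (colS S c) (colS S c') Y Y η ∅ := by
  refine BFR.of_map id (injOn_id _) (image_id _).symm (fun m R v hv => ?_) η
    fun a ha => absurd ha (notMem_empty a)
  rcases R with R | R
  · exact Iff.rfl
  · match m, R, v, hv with
    | 0, R, _, _ => exact Empty.elim R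
    | 1, R, v, hv =>
      show c (v 0) = R ↔ c' (id (v 0)) = R
      rw [h _ (hv 0)]
      rfl
    | 2, _, v, hv => exact Iff.rfl
    | (_ + 3), R, _, _ => exact Empty.elim R

omit [∀ n, IsEmpty (L.Functions n)] [∀ n, Countable (L.Relations n)] in
theorem atd_bet (hτ : Lbl S τ rv) {J : Type} {v v' : J → M} {q : Set (M × M)}
    (hz : ∀ i, (z i, z i) ∈ q) (hv : ∀ j, (v j, v' j) ∈ q) {y y' : M}
    (h : AtEq S S (insert (y, y') q)) : bet τ z v y = bet τ z v' y' := by
  unfold bet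
  have e : (fun i => ∀ j, τ y (v j) = τ (z i) (v j)) =
      fun i => ∀ j, τ y' (v' j) = τ (z i) (v' j) := by
    funext i
    refine propext (forall_congr' fun j => ?_)
    have h1 : τ y (v j) = τ y' (v' j) := by
      refine hτ.inv _ _ _ _ (AtEq.anti ?_ h)
      rintro a (rfl | rfl)
      · exact mem_insert _ _
      · exact mem_insert_of_mem _ (hv j)
    have h2 : τ (z i) (v j) = τ (z i) (v' j) := by
      refine hτ.inv _ _ _ _ (AtEq.anti ?_ h)
      rintro a (rfl | rfl)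
      · exact mem_insert_of_mem _ (hz i)
      · exact mem_insert_of_mem _ (hv j)
    rw [h1, h2]
  rw [e]

omit [∀ n, IsEmpty (L.Functions n)] [∀ n, Countable (L.Relations n)] in
theorem atd_del (hτ : Lbl S τ rv) {q : Set (M × M)}
    (hz : ∀ i, (z i, z i) ∈ q) {y y' : M}
    (h : AtEq S S (insert (y, y') q)) : del τ z d y = del τ z d y' := by
  unfold del
  have e : (fun l => ∀ i, τ (z i) y = d l i) = fun l => ∀ i, τ (z i) y' = d l i := by
    funext l
    refine propext (forall_congr' fun i => ?_)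
    have h1 : τ (z i) y = τ (z i) y' := by
      refine hτ.inv _ _ _ _ (AtEq.anti ?_ h)
      rintro a (rfl | rfl)
      · exact mem_insert_of_mem _ (hz i)
      · exact mem_insert _ _
    rw [h1]
  rw [e]

omit [∀ n, IsEmpty (L.Functions n)] [∀ n, Countable (L.Relations n)] in
theorem atd_colr (hτ : Lbl S τ rv) {J : Type} {v v' : J → M} {q : Set (M × M)}
    (hz : ∀ i, (z i, z i) ∈ q) (hv : ∀ j, (v j, v' j) ∈ q) {y y' : M}
    (h : AtEq S S (insert (y, y') q)) : colr τ z v d y = colr τ z v' d y' := by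
  unfold colr
  rw [atd_bet hτ hz hv h, atd_del hτ hz h]

omit [∀ n, Countable (L.Relations n)] in
/-- the closures for two tuples of parameters are equivalent -/
theorem atd_restr (hτ : Lbl S τ rv) {J : Type} {v v' : J → M} {q : Set (M × M)}
    (hz : ∀ i, (z i, z i) ∈ q) (hv : ∀ j, (v j, v' j) ∈ q) {x x' : M} (hx : (x, x') ∈ q)
    {η : Ordinal.{0}} (h : BFR S S univ univ (Ordinal.omega0 + η) q) :
    BFR (colS S (colr τ z v d)) (colS S (colr τ z v' d))
      (PS.Cl τ (colr τ z v d) (mtx a₀ d) x) (PS.Cl τ (colr τ z v' d) (mtx a₀ d) x') η ∅ := by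
  have h1 := atd_col (c := colr τ z v d) (c' := colr τ z v' d) (q := q)
    (fun y y' hy => atd_colr hτ hz hv hy) (Ordinal.omega0 + η) q subset_rfl h
  refine BFR.anti (empty_subset _) (BFR.restr (subset_univ _) (subset_univ _) Ordinal.omega0 η
    (fun y _ y' _ hy => ?_) h1)
  refine cl_congr (S := colS S (colr τ z v d)) (T := colS S (colr τ z v' d)) (q := ∅) (κ := 0)
    (fun a b a' b' hab => hτ.inv _ _ _ _ (atEq_exS.mp hab).1)
    (fun a a' ha => (atEq_exS.mp ha.atEq).2.1 (a, a') (mem_insert _ _)) ?_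
  rw [zero_add]
  refine BFR.anti ?_ hy
  rintro a (rfl | rfl | ha)
  · exact mem_insert_of_mem _ hx
  · exact mem_insert _ _
  · exact absurd ha (notMem_empty a)

/-- a closure with a Scott level is in the ideal -/
theorem atd_tt (hL : Ar2 L) (hS : VSt K δ S) (hτ : Lbl S τ rv) {J : Type} [Finite J]
    (v : J → M) {x : M} {ρ : Ordinal.{0}} (hρ : ρ < om1)
    (h : SL (colS S (colr τ z v d)) (PS.Cl τ (colr τ z v d) (mtx a₀ d) x) ρ) :
    TT S (PS.Cl τ (colr τ z v d) (mtx a₀ d) x) := by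
  classical
  have : Fintype J := Fintype.ofFinite J
  have hfin : ((Set.range z) ∪ (Set.range v)).Finite := (finite_range z).union (finite_range v)
  have hz : ∀ i, (z i, z i) ∈ dg (hfin.toFinset : Set M) := by
    intro i
    exact ⟨z i, by simp, rfl⟩
  have hv : ∀ j, (v j, v j) ∈ dg (hfin.toFinset : Set M) := by
    intro j
    exact ⟨v j, by simp, rfl⟩
  let _ : Preorder M :=
    { le := Eq
      le_refl := fun _ => rfl
      le_trans := fun _ _ _ h1 h2 => h1.trans h2 }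
  obtain ⟨K', δ', hS'⟩ := VSt.expandAll hL hS (colr τ z v d) (fun _ _ => False) hfin.toFinset
    (η := 0) (Ordinal.omega_pos 1)
    (fun y y' hy => atd_colr hτ hz hv hy.atEq) (fun _ _ _ _ _ => Iff.rfl)
  have hL' : Ar2 (EL L (Option (Fin n) × Option (Fin k))) := ar2_EL hL
  have hτ' : Lbl (exS S (colr τ z v d) fun _ _ => False) τ rv := lbl_exS hτ _
  have hc' : ∀ y y', AtEq (exS S (colr τ z v d) fun _ _ => False)
      (exS S (colr τ z v d) fun _ _ => False) {(y, y')} → colr τ z v d y = colr τ z v d y' :=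
    fun y y' hy => (atEq_exS.mp hy).2.1 (y, y') rfl
  have h1 := hS'.tame_of_SL (d0_dfb_cl (m := mtx a₀ d) hτ' hc' x) hρ h
  exact TT.ofExS ((d0_auto_cl hL' hτ' hc' x).tt hL' h1)

theorem at_dfb (hL : Ar2 L) (hS : VSt K δ S) (hτ : Lbl S τ rv)
    (H : ∀ X : Set M, X.Countable → Thin S τ X)
    (hM : ¬ Thin S τ univ) (hτV : TT S V₀) (hcV : CutK τ V₀ k)
    (hd : ∀ w, w ∉ V₀ → ∃ l, ∀ i, τ (z i) w = d l i)
    (h1 : ∀ x, Thin S τ (Dl τ x (z (γ x)))) (h2 : ∀ i j, i ≠ j → ¬ Thin S τ (Dl τ (z i) (z j)))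
    {ρ : Ordinal.{0}} (hρ : ρ < om1)
    (h : ∀ x, SL (colS S fun x => ((some (γ x), del τ z d x) :
        Option (Fin n) × Option (Fin k)))
      (PS.Cl τ (fun x => ((some (γ x), del τ z d x) : Option (Fin n) × Option (Fin k)))
        (mtx a₀ d) x) ρ) : DfbC S γ := by
  classical
  refine ⟨(finite_range z).toFinset, Ordinal.omega0 + (ρ + Ordinal.omega0) + ((n * n : ℕ) :
    Ordinal.{0}), add_lt_om1 (add_lt_om1 omega_lt_om1 (add_lt_om1 hρ omega_lt_om1))
      (natCast_lt_om1 _), fun x x' hxx => ?_⟩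
  -- a thin set containing `x`
  have hX : Thin S τ (V₀ ∪ {x}) :=
    (Thin.of_cut hτV hcV).union (H {x} (countable_singleton x))
  obtain ⟨G, hXG, hG, hGc⟩ := exists_thin_closed z γ h1 h2 hX
  obtain ⟨v, hv, hs⟩ := exists_beyond' z hM h2 hG
  have hxG : x ∈ G := hXG (Or.inr rfl)
  have hVG : V₀ ⊆ G := subset_union_left.trans hXG
  have hbet : bet τ z v x = some (γ x) := bet_eq hGc hv hs hxG
  have hcl := cl_colr_eq (a₀ := a₀) hVG hd hGc hv hs hxG
  -- the Scott level
  have hsub : PS.Cl τ (fun x => ((some (γ x), del τ z d x) :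
      Option (Fin n) × Option (Fin k))) (mtx a₀ d) x ⊆ G :=
    (cld_gen hVG hd hGc).cl_subset hxG
  have hSL : SL (colS S (colr τ z v d)) (PS.Cl τ (colr τ z v d) (mtx a₀ d) x) ρ := by
    rw [hcl]
    refine (h x).congr hρ (atd_same (fun y hy => ?_) _)
    show (some (γ y), del τ z d y) = (bet τ z v y, del τ z d y)
    rw [bet_eq hGc hv hs (hsub hy)]
  -- forth
  let e : Fin (n * n) ≃ Fin n × Fin n := finProdFinEquiv.symm
  obtain ⟨w, -, hw⟩ := BFR.forth_many (n * n) hxx (fun i => v (e i)) fun _ => mem_univ _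
  set q : Set (M × M) := insert (x, x') (dg ((finite_range z).toFinset : Set M)) ∪
    range fun i => (v (e i), w i) with hq
  have hqz : ∀ i, (z i, z i) ∈ q := by
    intro i
    exact Or.inl (Or.inr ⟨z i, by simp, rfl⟩)
  have hqv : ∀ j, (v j, w (e.symm j)) ∈ q := by
    intro j
    refine Or.inr ⟨e.symm j, ?_⟩
    simp
  have hqx : (x, x') ∈ q := Or.inl (mem_insert _ _)
  have hres := atd_restr (d := d) (a₀ := a₀) (v := v) (v' := fun j => w (e.symm j)) hτ hqz hqv hqx hw
  have hSL' := hSL.congr hρ hres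
  have htt := atd_tt hL hS hτ _ hρ hSL'
  have hbet' : bet τ z (fun j => w (e.symm j)) x' = some (γ x) := by
    rw [← hbet]
    refine (atd_bet hτ hqz hqv (AtEq.anti ?_ hw.atEq)).symm
    exact insert_subset hqx subset_rfl
  exact (gen_of_cl hτV hcV hd h1 h2 hbet' htt).symm

end ATc

end Pool.Agent.Helper97.LO

end

/-! ### formerly `Pool.Agent.VLin.AT` -/

section

/-!
# VLIN, module AT
-/

set_option autoImplicit false
set_option linter.unusedSectionVars false
set_option linter.unusedVariables false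

namespace Pool.Agent.Helper97.LO

open Set Pool.Agent.Helper5 Pool.Agent.Helper5.DU Pool.Agent.Helper6.Str
  Pool.Agent.Helper79.VC Pool.Agent.Helper97.VC Pool.Agent.Helper97.MD Pool.Agent.Helper6.VC

variable {L : FirstOrder.Language.{0, 0}} {M N P : Type} {A Γ : Type}

section ATc

variable [∀ n, IsEmpty (L.Functions n)] [∀ n, Countable (L.Relations n)]
  {K : Set (L.Structure ℕ)} {δ : Ordinal.{0}} {S : L.Structure M} {τ : M → M → A} {rv : A → A}
  {n k : ℕ} {z : Fin n → M} {γ : M → Fin n}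
  {V₀ : Set M} {d : Fin k → Fin n → A} {a₀ : A}

/-- the column of an element over the representatives is definable -/
theorem at_del_dfb (hτ : Lbl S τ rv) (z : Fin n → M) (d : Fin k → Fin n → A) :
    DfbC S (del τ z d) := by
  classical
  refine ⟨Finset.univ.image z, 0, zero_lt_om1, fun w w' h => ?_⟩
  have h1 : ∀ i, τ (z i) w = τ (z i) w' := by
    intro i
    refine hτ.inv (z i) w (z i) w' ?_
    refine AtEq.anti ?_ h.atEq
    rintro e (rfl | rfl)
    · exact mem_insert_of_mem _ ⟨z i, by simp, rfl⟩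
    · exact mem_insert _ _
  unfold del
  simp only [h1]

omit [∀ n, IsEmpty (L.Functions n)] [∀ n, Countable (L.Relations n)] in
/-- if the finite sets are contained in cuts in the ideal then countable sets are thin -/
theorem thin_of_countable (H : ∀ F : Finset M, ∃ V, (F : Set M) ⊆ V ∧ TT S V ∧ CutK τ V k)
    {X : Set M} (hX : X.Countable) : Thin S τ X := by
  classical
  choose V hV1 hV2 hV3 using H
  rcases X.eq_empty_or_nonempty with rfl | hne
  · exact ⟨fun _ => V ∅, fun _ => ⟨hV2 _, k, hV3 _⟩, empty_subset _⟩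
  · obtain ⟨f, rfl⟩ := hX.exists_eq_range hne
    refine ⟨fun i => V {f i}, fun i => ⟨hV2 _, k, hV3 _⟩, ?_⟩
    rintro _ ⟨i, rfl⟩
    exact mem_iUnion.2 ⟨i, hV1 {f i} (by simp)⟩

/-- **If every finite set is contained in a cut of bounded width in the ideal then the
structure is tame.** -/
theorem at_main' (hL : Ar2 L) (hS : VSt K δ S) (hτ : Lbl S τ rv) (k : ℕ)
    (H0 : ∀ F : Finset M, ∃ V, (F : Set M) ⊆ V ∧ TT S V ∧ CutK τ V k) : TT S univ := by
  classical
  by_contra hcon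
  have H : ∀ X : Set M, X.Countable → Thin S τ X := fun X hX => thin_of_countable H0 hX
  have hM : ¬ Thin S τ univ := fun h => hcon h.tt
  obtain ⟨n, z, γ, V₀, d, hτV, hcV, hzV, h1, h2, hd⟩ := exists_zreps H0 hM
  have hinf : Infinite (univ : Set M) := infinite_of_not_tt hcon
  obtain ⟨x₀⟩ : Nonempty M := ⟨(Classical.arbitrary (univ : Set M)).1⟩
  obtain ⟨ρ, hρ, hSL⟩ := at_bound (a₀ := τ x₀ x₀) hL hS hτ H hM hτV hcV hd h1 h2
  have hγ := at_dfb (a₀ := τ x₀ x₀) hL hS hτ H hM hτV hcV hd h1 h2 hρ hSL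
  set c : M → Option (Fin n) × Option (Fin k) := fun x => (some (γ x), del τ z d x) with hc
  have hcd : DfbC S c := by
    have h3 : DfbC S (fun x => some (γ x)) := by
      obtain ⟨F, η, hη, h⟩ := hγ
      exact ⟨F, η, hη, fun x x' hb => congrArg some (h x x' hb)⟩
    exact h3.prod (at_del_dfb hτ z d)
  have hfalse : Dfb2 S (fun _ _ => False) := ⟨∅, 0, zero_lt_om1, fun _ _ _ _ _ => Iff.rfl⟩
  obtain ⟨K', δ', hS'⟩ := VSt.expandA hL hS hcd hfalse
  have hL' : Ar2 (EL L (Option (Fin n) × Option (Fin k))) := ar2_EL hL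
  have hτ' : Lbl (exS S c fun _ _ => False) τ rv := lbl_exS hτ c
  have hc' : ∀ x x', AtEq (exS S c fun _ _ => False) (exS S c fun _ _ => False) {(x, x')} →
      c x = c x' := fun x x' h => (atEq_exS.mp h).2.1 (x, x') rfl
  have hcd' := DfbC.of_atEq hc'
  have hscc : ∀ x, TT (exS S c fun _ _ => False) (PS.Scc τ c (mtx (τ x₀ x₀) d) x) := by
    intro x
    have hdf : Dfb (exS S c fun _ _ => False) (PS.Cl τ c (mtx (τ x₀ x₀) d) x) :=
      (dfb2_cl hτ' hcd').fiber x
    have htame : TameX (exS S c fun _ _ => False) (PS.Cl τ c (mtx (τ x₀ x₀) d) x) :=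
      VSt.tame_of_SL hS' hdf hρ (hSL x)
    have hauto : Auto (exS S c fun _ _ => False) (PS.Cl τ c (mtx (τ x₀ x₀) d) x) := by
      have hemp : PS.Cld τ c (mtx (τ x₀ x₀) d) (∅ : Set M) := fun y hy => absurd hy (by simp)
      have h5 := auto_diff hL' hτ' hc' (PS.cld_cl (τ := τ) (c := c) (m := mtx (τ x₀ x₀) d) x) hemp
      rwa [sdiff_empty] at h5
    exact (hauto.tt hL' htame).mono fun y hy => hy.1
  exact hcon (TT.ofExS (lq (m := mtx (τ x₀ x₀) d) hL' hS' hτ' hc' hscc))

/-- **If every countable set is contained in a cut of bounded width in the ideal then the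
structure is tame.** -/
theorem at_main (hL : Ar2 L) (hS : VSt K δ S) (hτ : Lbl S τ rv) (k : ℕ)
    (H : ∀ X : Set M, X.Countable → ∃ V, X ⊆ V ∧ TT S V ∧ CutK τ V k) : TT S univ :=
  at_main' hL hS hτ k fun F => H F F.countable_toSet

end ATc

end Pool.Agent.Helper97.LO

end

/-! ### formerly `Pool.Agent.VLin.LNa` -/

section

/-!
# VLIN, module LNa: wild sets, representatives, cuts
-/

set_option autoImplicit false
set_option linter.unusedSectionVars false
set_option linter.unusedVariables false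

namespace Pool.Agent.Helper97.LO

open Set Pool.Agent.Helper5 Pool.Agent.Helper5.DU Pool.Agent.Helper6.Str
  Pool.Agent.Helper79.VC Pool.Agent.Helper97.VC Pool.Agent.Helper97.MD Pool.Agent.Helper6.VC

variable {L : FirstOrder.Language.{0, 0}} {M N P : Type} {A Γ : Type}

/-- `Y` contains a definable cut which is not in the ideal. -/
def Wd (S : L.Structure M) (τ : M → M → A) (Y : Set M) : Prop :=
  ∃ Z ⊆ Y, Dfb S Z ∧ (∃ k, CutK τ Z k) ∧ ¬ TT S Z

section LNa

variable {S : L.Structure M} {τ : M → M → A} {rv : A → A} {c : M → Γ} {m : Γ → Γ → A}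

theorem Wd.mono {X Y : Set M} (h : Wd S τ X) (hXY : X ⊆ Y) : Wd S τ Y := by
  obtain ⟨Z, hZ, h1⟩ := h
  exact ⟨Z, hZ.trans hXY, h1⟩

theorem CutK.compl (hrv : ∀ x y, τ y x = rv (τ x y)) {X : Set M} {k : ℕ} (h : CutK τ X k) :
    CutK τ Xᶜ k := by
  obtain ⟨⟨r, hr⟩, s, hs⟩ := h
  refine ⟨⟨s, fun x hx x' hx' hxx g hg => ?_⟩, r, fun g hg g' hg' hgg x hx => ?_⟩
  · have hgX : g ∈ X := by
      by_contra h
      exact hg h
    rw [hrv g x, hrv g x', hs x hx x' hx' hxx g hgX]
  · have hgX : g ∈ X := by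
      by_contra h
      exact hg h
    have hgX' : g' ∈ X := by
      by_contra h
      exact hg' h
    rw [hrv g x, hrv g' x, hr g hgX g' hgX' hgg x hx]

/-- representatives -/
private theorem lna_rep {X : Set M} (hX : X.Nonempty) {k : ℕ} (r : M → Fin k) :
    ∃ u : Fin k → M, (∀ i, u i ∈ X) ∧ ∀ x ∈ X, r (u (r x)) = r x := by
  classical
  obtain ⟨u0, hu0⟩ := hX
  refine ⟨fun i => if h : ∃ x ∈ X, r x = i then h.choose else u0, fun i => ?_, fun x hx => ?_⟩
  · by_cases h : ∃ x ∈ X, r x = i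
    · simp only [dif_pos h]
      exact h.choose_spec.1
    · simp only [dif_neg h]
      exact hu0
  · have h : ∃ y ∈ X, r y = r x := ⟨x, hx, rfl⟩
    simp only [dif_pos h]
    exact h.choose_spec.2

private theorem lna_zero_lt : (0 : Ordinal.{0}) < om1 := Ordinal.omega_pos 1

/-- the rows over finitely many parameters are definable -/
private theorem lna_dfbC (hτ : Lbl S τ rv) {k : ℕ} (u v : Fin k → M) :
    DfbC S fun x => ((fun j => τ x (v j)), fun i => τ (u i) x) := by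
  classical
  refine ⟨Finset.univ.image u ∪ Finset.univ.image v, 0, lna_zero_lt, fun x x' h => ?_⟩
  have hat := h.atEq
  have hu : ∀ i, (u i, u i) ∈ insert (x, x')
      (dg ((Finset.univ.image u ∪ Finset.univ.image v : Finset M) : Set M)) := fun i =>
    mem_insert_of_mem _ ⟨u i, by simp, rfl⟩
  have hv : ∀ i, (v i, v i) ∈ insert (x, x')
      (dg ((Finset.univ.image u ∪ Finset.univ.image v : Finset M) : Set M)) := fun i =>
    mem_insert_of_mem _ ⟨v i, by simp, rfl⟩
  refine Prod.ext (funext fun j => ?_) (funext fun i => ?_)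
  · refine hτ.inv _ _ _ _ (AtEq.anti ?_ hat)
    rintro p (rfl | rfl)
    · exact mem_insert _ _
    · exact hv j
  · refine hτ.inv _ _ _ _ (AtEq.anti ?_ hat)
    rintro p (rfl | rfl)
    · exact hu i
    · exact mem_insert _ _

private theorem lna_comp {C D : Type} {dat : M → C} (h : DfbC S dat) (f : C → D) :
    DfbC S fun x => f (dat x) := by
  obtain ⟨F, η, hη, h⟩ := h
  exact ⟨F, η, hη, fun x x' hx => congrArg f (h x x' hx)⟩

private theorem lna_iInter {ι : Type} (s : Finset ι) (Z : ι → Set M) (h : ∀ i, Dfb S (Z i)) :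
    Dfb S (⋂ i ∈ s, Z i) := by
  classical
  induction s using Finset.induction_on with
  | empty =>
    have : (⋂ i ∈ (∅ : Finset ι), Z i) = univ := by simp
    rw [this]
    exact dfb_univ
  | insert a s _ ih =>
    rw [Finset.set_biInter_insert]
    exact (h a).inter ih

private theorem lna_fam {k : ℕ} (Z : Fin k → Set M) (h : ∀ i, Dfb S (Z i)) :
    DfbC S fun x => fun i => x ∈ Z i := by
  classical
  refine DfbC.of_dfb fun a => ?_
  have e : {x | (fun i => x ∈ Z i) = a} =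
      ⋂ i ∈ (Finset.univ : Finset (Fin k)), {x | (x ∈ Z i) = a i} := by
    ext x
    simp only [mem_ofPred_eq, Finset.mem_univ, iInter_true, mem_iInter, funext_iff]
  rw [e]
  refine lna_iInter _ _ fun i => ?_
  by_cases hi : a i
  · have : {x | (x ∈ Z i) = a i} = Z i := by
      ext x
      simp only [mem_ofPred_eq, hi, eq_iff_iff, iff_true]
    rw [this]
    exact h i
  · have : {x | (x ∈ Z i) = a i} = (Z i)ᶜ := by
      ext x
      simp only [mem_ofPred_eq, hi, eq_iff_iff, iff_false, mem_compl_iff]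
    rw [this]
    exact (h i).compl

/-- the set of elements with the same row as `u` outside `X` is definable -/
private theorem lna_same (hτ : Lbl S τ rv) {X : Set M} (hX : Dfb S X) (u : M) :
    Dfb S {z | ∀ g, g ∈ X ∨ τ z g = τ u g} := by
  have h1 : Dfb2 S fun g z => τ z g = τ u g := by
    refine ⟨{u}, 0, lna_zero_lt, fun g z g' z' h => ?_⟩
    have hat := h.atEq
    have e1 : τ z g = τ z' g' := by
      refine hτ.inv _ _ _ _ (AtEq.anti ?_ hat)
      rintro p (rfl | rfl)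
      · exact mem_insert_of_mem _ (mem_insert _ _)
      · exact mem_insert _ _
    have e2 : τ u g = τ u g' := by
      refine hτ.inv _ _ _ _ (AtEq.anti ?_ hat)
      rintro p (rfl | rfl)
      · exact mem_insert_of_mem _ (mem_insert_of_mem _ ⟨u, by simp, rfl⟩)
      · exact mem_insert _ _
    simp only [e1, e2]
  exact (hX.left.or h1).all

/-- definable labels for the rows of a definable cut -/
theorem exists_rowdat (hτ : Lbl S τ rv) {X : Set M} (hX : Dfb S X) {k : ℕ} (h : CutK τ X k) :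
    ∃ dat : M → Option (Fin k), DfbC S dat ∧
      ∀ g, g ∉ X → ∀ z ∈ X, ∀ z' ∈ X, dat z = dat z' → τ z g = τ z' g := by
  classical
  rcases X.eq_empty_or_nonempty with rfl | hne
  · refine ⟨fun _ => none, ⟨∅, 0, lna_zero_lt, fun _ _ _ => rfl⟩, fun g _ z hz => ?_⟩
    exact absurd hz (notMem_empty z)
  · obtain ⟨⟨r, hr⟩, -⟩ := h
    obtain ⟨u, hu, hru⟩ := lna_rep hne r
    let f : (Fin k → Prop) → Option (Fin k) := fun s =>
      if h : ∃ i, s i then some h.choose else none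
    have hf : ∀ s : Fin k → Prop, (∃ i, s i) → ∃ i, f s = some i ∧ s i := by
      intro s hs
      refine ⟨hs.choose, ?_, hs.choose_spec⟩
      simp only [f, dif_pos hs]
    let Z : Fin k → Set M := fun i => {z | ∀ g, g ∈ X ∨ τ z g = τ (u i) g}
    refine ⟨fun x => f fun i => x ∈ Z i,
      lna_comp (lna_fam Z fun i => lna_same hτ hX (u i)) f, ?_⟩
    intro g hg z hz z' hz' hzz
    have key : ∀ z ∈ X, ∃ i, z ∈ Z i := fun z hz =>
      ⟨r z, fun g => by
        by_cases hgX : g ∈ X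
        · exact Or.inl hgX
        · exact Or.inr (hr z hz (u (r z)) (hu _) (hru z hz).symm g hgX)⟩
    obtain ⟨i, hi1, hi2⟩ := hf _ (key z hz)
    obtain ⟨j, hj1, hj2⟩ := hf _ (key z' hz')
    have hij : i = j := by
      have : some i = some j := by rw [← hi1, ← hj1]; exact hzz
      exact Option.some.inj this
    subst hij
    rcases hi2 g with h | h
    · exact absurd h hg
    · rcases hj2 g with h' | h'
      · exact absurd h' hg
      · rw [h, h']

private theorem lna_cut {α β : Type} [Finite α] [Finite β] {Y : Set M} (r : M → α) (s : M → β)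
    (h1 : ∀ x ∈ Y, ∀ x' ∈ Y, r x = r x' → ∀ g, g ∉ Y → τ x g = τ x' g)
    (h2 : ∀ g, g ∉ Y → ∀ g', g' ∉ Y → s g = s g' → ∀ x ∈ Y, τ x g = τ x g') :
    ∃ k, CutK τ Y k := by
  obtain ⟨n, ⟨e⟩⟩ := Finite.exists_equiv_fin (α ⊕ β)
  refine ⟨n, ⟨fun x => e (Sum.inl (r x)), fun x hx x' hx' h => h1 x hx x' hx' ?_⟩,
    fun x => e (Sum.inr (s x)), fun g hg g' hg' h => h2 g hg g' hg' ?_⟩
  · exact Sum.inl_injective (e.injective h)
  · exact Sum.inr_injective (e.injective h)

private theorem lna_clX_sub {X : Set M} {x : M} (hx : x ∈ X) : PS.ClX τ c m X x ⊆ X := by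
  intro y hy
  have hy' : Relation.ReflTransGen (fun u v => u ∈ X ∧ v ∈ X ∧ PS.Arr τ c m u v) x y := hy
  induction hy' with
  | refl => exact hx
  | tail _ h _ => exact h.2.1

/-- closures and strong components inside a cut are cuts -/
theorem cutK_clX [Finite Γ] (hrv : ∀ x y, τ y x = rv (τ x y)) {X : Set M} {k : ℕ}
    (h : CutK τ X k)
    (hc : ∀ g, g ∉ X → ∀ z ∈ X, ∀ z' ∈ X, c z = c z' → τ z g = τ z' g) {x : M} (hx : x ∈ X) :
    ∃ k, CutK τ (PS.ClX τ c m X x) k := by
  classical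
  have hsub : PS.ClX τ c m X x ⊆ X := lna_clX_sub hx
  have key : ∀ y ∈ PS.ClX τ c m X x, ∀ g, g ∉ PS.ClX τ c m X x → g ∈ X →
      τ y g = m (c y) (c g) := by
    intro y hy g hg hgX
    by_contra hne
    refine hg (Relation.ReflTransGen.tail hy ⟨hsub hy, hgX, ?_, hne⟩)
    rintro rfl
    exact hg hy
  obtain ⟨-, s, hs⟩ := h
  refine lna_cut c (fun g => if g ∈ X then Sum.inl (c g) else Sum.inr (s g)) ?_ ?_
  · intro y hy y' hy' hyy g hg
    by_cases hgX : g ∈ X
    · rw [key y hy g hg hgX, key y' hy' g hg hgX, hyy]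
    · exact hc g hgX y (hsub hy) y' (hsub hy') hyy
  · intro g hg g' hg' hgg y hy
    by_cases hgX : g ∈ X
    · by_cases hgX' : g' ∈ X
      · simp only [if_pos hgX, if_pos hgX', Sum.inl.injEq] at hgg
        rw [key y hy g hg hgX, key y hy g' hg' hgX', hgg]
      · simp only [if_pos hgX, if_neg hgX', reduceCtorEq] at hgg
    · by_cases hgX' : g' ∈ X
      · simp only [if_neg hgX, if_pos hgX', reduceCtorEq] at hgg
      · simp only [if_neg hgX, if_neg hgX', Sum.inr.injEq] at hgg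
        exact hs g hgX g' hgX' hgg y (hsub hy)

theorem cutK_sccX [Finite Γ] (hrv : ∀ x y, τ y x = rv (τ x y)) {X : Set M} {k : ℕ}
    (h : CutK τ X k)
    (hc : ∀ g, g ∉ X → ∀ z ∈ X, ∀ z' ∈ X, c z = c z' → τ z g = τ z' g) {x : M} (hx : x ∈ X) :
    ∃ k, CutK τ {y | y ∈ PS.ClX τ c m X x ∧ x ∈ PS.ClX τ c m X y} k := by
  classical
  have hsub : PS.ClX τ c m X x ⊆ X := lna_clX_sub hx
  set Y : Set M := {y | y ∈ PS.ClX τ c m X x ∧ x ∈ PS.ClX τ c m X y} with hY
  have hYX : Y ⊆ X := fun y hy => hsub hy.1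
  let F : Γ → Γ → Bool → A := fun a b t => if t then rv (m b a) else m a b
  have key : ∀ y ∈ Y, ∀ g, g ∉ Y → g ∈ X →
      τ y g = F (c y) (c g) (decide (g ∈ PS.ClX τ c m X x)) := by
    intro y hy g hg hgX
    have hgy : g ≠ y := by
      rintro rfl
      exact hg hy
    by_cases hgx : g ∈ PS.ClX τ c m X x
    · simp only [F, hgx, decide_true, if_true]
      rw [hrv g y]
      congr 1
      by_contra hne
      refine hg ⟨hgx, ?_⟩
      exact Relation.ReflTransGen.head ⟨hgX, hYX hy, hgy, hne⟩ hy.2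
    · have hd : decide (g ∈ PS.ClX τ c m X x) = false := decide_eq_false hgx
      simp only [F, hd, Bool.false_eq_true, if_false]
      by_contra hne
      exact hgx (Relation.ReflTransGen.tail hy.1 ⟨hYX hy, hgX, hgy.symm, hne⟩)
  obtain ⟨-, s, hs⟩ := h
  refine lna_cut c (fun g => if g ∈ X then Sum.inl (c g, decide (g ∈ PS.ClX τ c m X x))
    else Sum.inr (s g)) ?_ ?_
  · intro y hy y' hy' hyy g hg
    by_cases hgX : g ∈ X
    · rw [key y hy g hg hgX, key y' hy' g hg hgX, hyy]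
    · exact hc g hgX y (hYX hy) y' (hYX hy') hyy
  · intro g hg g' hg' hgg y hy
    by_cases hgX : g ∈ X
    · by_cases hgX' : g' ∈ X
      · simp only [if_pos hgX, if_pos hgX', Sum.inl.injEq, Prod.mk.injEq] at hgg
        rw [key y hy g hg hgX, key y hy g' hg' hgX', hgg.1, hgg.2]
      · simp only [if_pos hgX, if_neg hgX', reduceCtorEq] at hgg
    · by_cases hgX' : g' ∈ X
      · simp only [if_neg hgX, if_pos hgX', reduceCtorEq] at hgg
      · simp only [if_neg hgX, if_neg hgX', Sum.inr.injEq] at hgg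
        exact hs g hgX g' hgX' hgg y (hYX hy)

/-- a cut is closed for the colouring given by representatives of its rows and columns -/
theorem exists_split (hτ : Lbl S τ rv) {I : Set M} (h1 : I.Nonempty) (h2 : Iᶜ.Nonempty) {k : ℕ}
    (h : CutK τ I k) : ∃ (c : M → Option (Fin k) × Option (Fin k))
      (m : Option (Fin k) × Option (Fin k) → Option (Fin k) × Option (Fin k) → A),
      DfbC S c ∧ ∀ x ∈ I, ∀ w, w ∉ I → τ x w = m (c x) (c w) := by
  classical
  obtain ⟨⟨r, hr⟩, s, hs⟩ := h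
  obtain ⟨u, hu, hru⟩ := lna_rep h1 r
  obtain ⟨v, hv, hsv⟩ := lna_rep h2 s
  obtain ⟨u0, -⟩ := h1
  obtain ⟨v0, -⟩ := h2
  -- choice of the representative
  let fb : (Fin k → A) → Option (Fin k) := fun a =>
    if h : ∃ i, ∀ j, a j = τ (u i) (v j) then some h.choose else none
  let fd : (Fin k → A) → Option (Fin k) := fun a =>
    if h : ∃ j, ∀ i, a i = τ (u i) (v j) then some h.choose else none
  have hfb : ∀ a, (∃ i, ∀ j, a j = τ (u i) (v j)) → ∃ i, fb a = some i ∧
      ∀ j, a j = τ (u i) (v j) := by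
    intro a ha
    exact ⟨ha.choose, by simp only [fb, dif_pos ha], ha.choose_spec⟩
  have hfd : ∀ a, (∃ j, ∀ i, a i = τ (u i) (v j)) → ∃ j, fd a = some j ∧
      ∀ i, a i = τ (u i) (v j) := by
    intro a ha
    exact ⟨ha.choose, by simp only [fd, dif_pos ha], ha.choose_spec⟩
  refine ⟨fun x => (fb fun j => τ x (v j), fd fun i => τ (u i) x),
    fun p q => τ (u (p.1.getD (r u0))) (v (q.2.getD (s v0))),
    lna_comp (lna_dfbC hτ u v) fun p => (fb p.1, fd p.2), ?_⟩
  intro x hx w hw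
  obtain ⟨i, hi1, hi2⟩ := hfb (fun j => τ x (v j)) ⟨r x, fun j =>
    hr x hx (u (r x)) (hu _) (hru x hx).symm (v j) (hv j)⟩
  obtain ⟨j, hj1, hj2⟩ := hfd (fun i => τ (u i) w) ⟨s w, fun i =>
    hs w hw (v (s w)) (hv _) (hsv w hw).symm (u i) (hu i)⟩
  simp only [hi1, hj1, Option.getD_some]
  have e1 : τ x w = τ x (v (s w)) := hs w hw (v (s w)) (hv _) (hsv w hw).symm x hx
  have e2 : τ (u i) w = τ (u i) (v (s w)) :=
    hs w hw (v (s w)) (hv _) (hsv w hw).symm (u i) (hu i)
  rw [e1, hi2 (s w), ← e2, hj2 i]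

end LNa

end Pool.Agent.Helper97.LO

end

/-! ### formerly `Pool.Agent.VLin.LNb` -/

section

/-!
# VLIN, module LNb: cuts of the layout split definable cuts
-/

set_option autoImplicit false
set_option linter.unusedSectionVars false
set_option linter.unusedVariables false

namespace Pool.Agent.Helper97.LO

open Set Pool.Agent.Helper5 Pool.Agent.Helper5.DU Pool.Agent.Helper6.Str
  Pool.Agent.Helper79.VC Pool.Agent.Helper97.VC Pool.Agent.Helper97.MD Pool.Agent.Helper6.VC

variable {L : FirstOrder.Language.{0, 0}} {M N P : Type} {A Γ : Type}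

section LN

variable [∀ n, IsEmpty (L.Functions n)] [∀ n, Countable (L.Relations n)] [LinearOrder M]
  {K : Set (L.Structure ℕ)} {δ : Ordinal.{0}} {S : L.Structure M} {τ : M → M → A} {rv : A → A}
  {k : ℕ}

omit [LinearOrder M] in
theorem nw (hL : Ar2 L) (hS : VSt K δ S) (hτ : Lbl S τ rv)
    {X : Set M} (hX : Dfb S X) {k' : ℕ} (hXc : CutK τ X k') {I : Set M} (hI : CutK τ I k)
    (hW : ¬ Wd S τ (X ∩ I)) : TT S (X ∩ I) := by
  rcases I.eq_empty_or_nonempty with rfl | hI1
  · rw [inter_empty]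
    exact TT.of_countable countable_empty
  rcases (Iᶜ).eq_empty_or_nonempty with hI2 | hI2
  · have hI3 : I = univ := by
      rw [← compl_compl I, hI2, compl_empty]
    subst hI3
    by_contra hn
    exact hW ⟨X, by simp, hX, ⟨k', hXc⟩, by simpa using hn⟩
  obtain ⟨dat, hdat, hrow⟩ := exists_rowdat hτ hX hXc
  obtain ⟨c, m, hc, hcm⟩ := exists_split hτ hI1 hI2 hI
  have hC : DfbC S (fun x => (dat x, c x)) := hdat.prod hc
  have hrow' : ∀ g, g ∉ X → ∀ z ∈ X, ∀ z' ∈ X, (dat z, c z) = (dat z', c z') →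
      τ z g = τ z' g := by
    intro g hg z hz z' hz' h
    exact hrow g hg z hz z' hz' (congrArg Prod.fst h)
  have h1 := nbq_piece (m := fun p q => m p.2 q.2) hL hS hτ hX hC hrow'
  refine h1.mono ?_
  intro x hx
  refine ⟨hx.1, ?_⟩
  by_contra hn
  apply hW
  refine ⟨PS.ClX τ (fun x => (dat x, c x)) (fun p q => m p.2 q.2) X x, ?_, ?_, ?_, hn⟩
  · refine subset_inter (PS.clX_subset hx.1) (PS.clX_subset_of_closed ?_ hx)
    intro u hu w hw hwI
    exact hcm u hu.2 w hwI
  · exact (dfb2_clX hτ hC hX).fiber x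
  · exact cutK_clX hτ.rev hXc hrow' hx.1

omit [LinearOrder M] in
theorem wd_split (hL : Ar2 L) (hS : VSt K δ S) (hτ : Lbl S τ rv)
    {Y : Set M} (h : Wd S τ Y) {I : Set M} (hI : CutK τ I k) :
    Wd S τ (Y ∩ I) ∨ Wd S τ (Y \ I) := by
  by_contra hn
  rw [not_or] at hn
  obtain ⟨Z, hZY, hZ, ⟨k', hZc⟩, hZt⟩ := h
  apply hZt
  have h1 : TT S (Z ∩ I) := nw hL hS hτ hZ hZc hI
    (fun hw => hn.1 (hw.mono (inter_subset_inter_left _ hZY)))
  have h2 : TT S (Z ∩ Iᶜ) := nw hL hS hτ hZ hZc (CutK.compl hτ.rev hI)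
    (fun hw => hn.2 (hw.mono (inter_subset_inter_left _ hZY)))
  refine (h1.union h2).mono ?_
  intro x hx
  by_cases hxI : x ∈ I
  · exact Or.inl ⟨hx, hxI⟩
  · exact Or.inr ⟨hx, hxI⟩

/-- wild sets and finitely many points -/
theorem wd_cover (hL : Ar2 L) (hS : VSt K δ S) (hτ : Lbl S τ rv)
    (hlay : ∀ I : Set M, IsLowerSet I → CutK τ I k) {Y : Set M} (h : Wd S τ Y) (F : Finset M) :
    ∃ Y' ⊆ Y, Wd S τ Y' ∧ ∀ p ∈ F, (∀ y ∈ Y', y < p) ∨ ∀ y ∈ Y', p < y := by
  classical
  induction F using Finset.induction_on with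
  | empty => exact ⟨Y, subset_rfl, h, by simp⟩
  | insert q F hq ih =>
    obtain ⟨Y', hY', hw, hF⟩ := ih
    have hlo : IsLowerSet {y : M | y < q} := fun a b hba ha => lt_of_le_of_lt hba ha
    have hlo' : IsLowerSet {y : M | y ≤ q} := fun a b hba ha => le_trans hba ha
    rcases wd_split hL hS hτ hw (hlay _ hlo) with h1 | h1
    · refine ⟨Y' ∩ {y | y < q}, inter_subset_left.trans hY', h1, ?_⟩
      intro p hp
      rw [Finset.mem_insert] at hp
      rcases hp with rfl | hp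
      · exact Or.inl fun y hy => hy.2
      · rcases hF p hp with h2 | h2
        · exact Or.inl fun y hy => h2 y hy.1
        · exact Or.inr fun y hy => h2 y hy.1
    · rcases wd_split hL hS hτ h1 (hlay _ hlo') with h3 | h3
      · exfalso
        obtain ⟨Z, hZ1, _, _, hZ2⟩ := h3
        apply hZ2
        apply TT.of_countable
        refine (countable_singleton q).mono ?_
        intro z hz
        obtain ⟨⟨_, z2⟩, z3⟩ := hZ1 hz
        exact le_antisymm z3 (not_lt.1 z2)
      · refine ⟨(Y' \ {y | y < q}) \ {y | y ≤ q}, (sdiff_subset.trans sdiff_subset).trans hY', h3, ?_⟩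
        intro p hp
        rw [Finset.mem_insert] at hp
        rcases hp with rfl | hp
        · exact Or.inr fun y hy => not_le.1 hy.2
        · rcases hF p hp with h2 | h2
          · exact Or.inl fun y hy => h2 y hy.1.1
          · exact Or.inr fun y hy => h2 y hy.1.1

end LN

end Pool.Agent.Helper97.LO

end

/-! ### formerly `Pool.Agent.VCw.ATP` -/

section

/-!
# VCW, module ATP: the theorem AT in a definable cut
-/

set_option autoImplicit false
set_option linter.unusedSectionVars false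
set_option linter.unusedVariables false

namespace Pool.Agent.Helper97.LO

open Set Pool.Agent.Helper5 Pool.Agent.Helper5.DU Pool.Agent.Helper6.Str
  Pool.Agent.Helper79.VC Pool.Agent.Helper97.VC Pool.Agent.Helper97.MD Pool.Agent.Helper6.VC

variable {L : FirstOrder.Language.{0, 0}} {M N P : Type} {A Γ : Type}

section

variable [∀ n, IsEmpty (L.Functions n)] [∀ n, Countable (L.Relations n)]
  {K : Set (L.Structure ℕ)} {δ : Ordinal.{0}} {S : L.Structure M} {τ : M → M → A} {rv : A → A}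
  {k : ℕ}

theorem CutK.cutIn {V : Set M} (h : CutK τ V k) (X : Set M) : CutIn τ X V k := by
  obtain ⟨⟨r, hr⟩, r', hr'⟩ := h
  exact ⟨⟨r, fun x _ hx x' _ hx' h g _ hg => hr x hx x' hx' h g hg⟩,
    r', fun g _ hg g' _ hg' h x _ hx => hr' g hg g' hg' h x hx⟩

/-- **AT in a definable cut.** -/
theorem at_piece (hL : Ar2 L) (hS : VSt K δ S) (hτ : Lbl S τ rv) {Z : Set M} (hZ : Dfb S Z)
    {k' : ℕ} (hZc : CutK τ Z k')
    (H : ∀ F : Finset M, (F : Set M) ⊆ Z → ∃ V : Set M, (F : Set M) ⊆ V ∧ TT S (Z ∩ V) ∧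
      CutIn τ Z V k) : TT S Z := by
  classical
  by_contra hn
  have hinf : Infinite Z := infinite_of_not_tt hn
  obtain ⟨dat, hdat, hrow⟩ := exists_rowdat hτ hZ hZc
  obtain ⟨F₁, η₁, hη₁, h1⟩ := hZ
  obtain ⟨F₂, η₂, hη₂, h2⟩ := hdat
  have hη : max η₁ η₂ < om1 := max_lt hη₁ hη₂
  have a1 : dg (F₁ : Set M) ⊆ dg ((F₁ ∪ F₂ : Finset M) : Set M) := by
    rintro _ ⟨a, ha, rfl⟩
    refine ⟨a, ?_, rfl⟩
    rw [Finset.coe_union]
    exact Or.inl ha
  have a2 : dg (F₂ : Set M) ⊆ dg ((F₁ ∪ F₂ : Finset M) : Set M) := by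
    rintro _ ⟨a, ha, rfl⟩
    refine ⟨a, ?_, rfl⟩
    rw [Finset.coe_union]
    exact Or.inr ha
  have hX' : ∀ c c', BFR S S univ univ (max η₁ η₂)
      (insert (c, c') (dg ((F₁ ∪ F₂ : Finset M) : Set M))) → (c ∈ Z ↔ c' ∈ Z) := by
    intro c c' hb
    exact h1 c c' (BFR.anti (insert_subset_insert a1) (hb.mono (le_max_left _ _)))
  have hd' : ∀ z ∈ Z, ∀ z' ∈ Z, BFR S S univ univ (max η₁ η₂)
      (insert (z, z') (dg ((F₁ ∪ F₂ : Finset M) : Set M))) → dat z = dat z' := by
    intro c _ c' _ hb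
    exact h2 c c' (BFR.anti (insert_subset_insert a2) (hb.mono (le_max_right _ _)))
  have hr' : ∀ z ∈ Z, ∀ w ∈ Z, ∀ z' ∈ Z, ∀ w' ∈ Z,
      BFR S S univ univ (max η₁ η₂)
        (insert (z, z') (insert (w, w') (dg ((F₁ ∪ F₂ : Finset M) : Set M)))) →
      ((fun _ _ : M => False) z w ↔ (fun _ _ : M => False) z' w') := by
    intro _ _ _ _ _ _ _ _ _
    exact Iff.rfl
  have hout : ∀ g, g ∉ Z → ∀ z ∈ Z, ∀ z' ∈ Z, dat z = dat z' → AtEq S S {(z, z')} →
      AtEq S S {(g, g), (z, z')} := by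
    intro g hg z hz z' hz' hzz hat
    refine hτ.det g z g z' ?_ ?_ ?_ hat ?_
    · rintro rfl
      exact hg hz
    · rintro rfl
      exact hg hz'
    · refine TR.atEq_refl S ?_
      rintro d rfl
      rfl
    · rw [hτ.rev z g, hτ.rev z' g, hrow g hg z hz z' hz' hzz]
  let _ : Preorder M :=
    { le := Eq
      le_refl := fun _ => rfl
      le_trans := fun _ _ _ h1 h2 => h1.trans h2 }
  obtain ⟨K', δ', hS'⟩ := VSt.piece hL hS Z dat (fun _ _ => False) (F₁ ∪ F₂) hη hX' hd' hr' hout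
  have hTP := tt_piece hL Z dat (fun _ _ => False) (F₁ ∪ F₂) hη hX' hd' hr' hout
  have hLbl := lbl_exS (lbl_pl hτ Z) (fun z : Z => dat z.1)
  have hfin := at_main' (ar2_EL hL) hS' hLbl k ?_
  · rw [hTP, image_univ, Subtype.range_val] at hfin
    exact hn hfin
  · intro F
    obtain ⟨V, hV1, hV2, hV3, hV4⟩ := H (F.image Subtype.val) (by
      intro x hx
      rw [Finset.mem_coe, Finset.mem_image] at hx
      obtain ⟨y, _, rfl⟩ := hx
      exact y.2)
    refine ⟨{y | y.1 ∈ V}, ?_, ?_, ?_⟩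
    · intro x hx
      exact hV1 (Finset.mem_coe.2 (Finset.mem_image_of_mem _ hx))
    · rw [hTP]
      refine hV2.mono ?_
      rintro _ ⟨x, hx, rfl⟩
      exact ⟨x.2, hx⟩
    · obtain ⟨r, hr⟩ := hV3
      obtain ⟨r', hr''⟩ := hV4
      refine ⟨⟨fun x => r x.1, ?_⟩, fun x => r' x.1, ?_⟩
      · intro x hx x' hx' hrr g hg
        exact hr x.1 x.2 hx x'.1 x'.2 hx' hrr g.1 g.2 hg
      · intro g hg g' hg' hrr x hx
        exact hr'' g.1 g.2 hg g'.1 g'.2 hg' hrr x.1 x.2 hx

end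

end Pool.Agent.Helper97.LO

end

/-! ### formerly `Pool.Agent.VCw.TWO` -/

section

/-!
# VCW, module TWO: wild cuts split into wild cuts
-/

set_option autoImplicit false
set_option linter.unusedSectionVars false
set_option linter.unusedVariables false

namespace Pool.Agent.Helper97.LO

open Set Pool.Agent.Helper5 Pool.Agent.Helper5.DU Pool.Agent.Helper6.Str
  Pool.Agent.Helper79.VC Pool.Agent.Helper97.VC Pool.Agent.Helper97.MD Pool.Agent.Helper6.VC

variable {L : FirstOrder.Language.{0, 0}} {M N P : Type} {A Γ : Type}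

section

variable [∀ n, IsEmpty (L.Functions n)] [∀ n, Countable (L.Relations n)]
  {K : Set (L.Structure ℕ)} {δ : Ordinal.{0}} {S : L.Structure M} {τ : M → M → A} {rv : A → A}
  {k : ℕ}

theorem CutK.union {X Y : Set M} {k k' : ℕ} (h : CutK τ X k) (h' : CutK τ Y k') :
    CutK τ (X ∪ Y) (k + k' + k * k') := by
  classical
  obtain ⟨⟨r, hr⟩, s, hs⟩ := h
  obtain ⟨⟨r', hr'⟩, s', hs'⟩ := h'
  let i : Fin (k + k') → Fin (k + k' + k * k') := Fin.castLE (by omega)
  let i' : Fin (k * k') → Fin (k + k' + k * k') := Fin.castLE (by omega)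
  have hi : Function.Injective i := Fin.castLE_injective _
  have hi' : Function.Injective i' := Fin.castLE_injective _
  refine ⟨⟨fun x => i (finSumFinEquiv (if x ∈ X then Sum.inl (r x) else Sum.inr (r' x))),
    fun x hx x' hx' h g hg => ?_⟩, fun x => i' (finProdFinEquiv (s x, s' x)),
    fun g hg g' hg' h x hx => ?_⟩
  · have h1 := finSumFinEquiv.injective (hi h)
    have hgX : g ∉ X := fun h => hg (Or.inl h)
    have hgY : g ∉ Y := fun h => hg (Or.inr h)
    by_cases hxX : x ∈ X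
    · by_cases hxX' : x' ∈ X
      · simp only [if_pos hxX, if_pos hxX', Sum.inl.injEq] at h1
        exact hr x hxX x' hxX' h1 g hgX
      · simp only [if_pos hxX, if_neg hxX', reduceCtorEq] at h1
    · by_cases hxX' : x' ∈ X
      · simp only [if_neg hxX, if_pos hxX', reduceCtorEq] at h1
      · simp only [if_neg hxX, if_neg hxX', Sum.inr.injEq] at h1
        exact hr' x (hx.resolve_left hxX) x' (hx'.resolve_left hxX') h1 g hgY
  · have h1 := finProdFinEquiv.injective (hi' h)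
    rw [Prod.mk.injEq] at h1
    have hgX : g ∉ X := fun h => hg (Or.inl h)
    have hgY : g ∉ Y := fun h => hg (Or.inr h)
    have hgX' : g' ∉ X := fun h => hg' (Or.inl h)
    have hgY' : g' ∉ Y := fun h => hg' (Or.inr h)
    rcases hx with hx | hx
    · exact hs g hgX g' hgX' h1.1 x hx
    · exact hs' g hgY g' hgY' h1.2 x hx

/-- the number of rows of a union of three `k`-cuts -/
def k3 (k : ℕ) : ℕ := (k + k + k * k) + k + (k + k + k * k) * k

/-- the cover given by a sink of the tree -/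
theorem ctree_cover (hrv : ∀ x y, τ y x = rv (τ x y)) (hT : CTree τ k) {p : Set M → Prop}
    (hmono : ∀ C C', C ⊆ C' → p C' → p C) (hun : ∀ C C', p C → p C' → p (C ∪ C'))
    (hsing : ∀ y, p {y})
    (hp : ∀ C, CutK τ C k → p C ∨ p Cᶜ) {F : Finset M}
    (hF : F.Nonempty) : ∃ V : Set M, (F : Set M) ⊆ V ∧ p V ∧ CutK τ V (k3 k) := by
  classical
  obtain ⟨hT0, hT⟩ := hT
  obtain ⟨T, hFT, hC, hB⟩ := hT F hF
  have hle : ∀ {V : Set M} {n n' : ℕ}, n ≤ n' → CutK τ V n → CutK τ V n' := by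
    rintro V n n' hn ⟨⟨r, hr⟩, s, hs⟩
    exact ⟨⟨fun x => Fin.castLE hn (r x), fun x hx x' hx' h => hr x hx x' hx'
      (Fin.castLE_injective _ h)⟩, fun x => Fin.castLE hn (s x), fun x hx x' hx' h =>
      hs x hx x' hx' (Fin.castLE_injective _ h)⟩
  have hk1 : k ≤ k + k + k * k := by omega
  have hk3 : k + k + k * k ≤ k3 k := by
    unfold k3
    omega
  -- the big members
  let big : Finset M → Prop := fun Y => Y ∈ T ∧ ∃ C : Set M, CutK τ C k ∧
    (∀ x ∈ F, x ∈ C ↔ x ∈ Y) ∧ p Cᶜ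
  obtain ⟨C, hCk, hCF⟩ := hC F hFT
  rcases hp C hCk with h | h
  · exact ⟨C, fun x hx => (hCF x hx).2 hx, h, hle (hk1.trans hk3) hCk⟩
  have hbig : ∃ Y, big Y := ⟨F, hFT, C, hCk, hCF, h⟩
  obtain ⟨Y, hY, hmin⟩ : ∃ Y, big Y ∧ ∀ Y', big Y' → Y.card ≤ Y'.card := by
    obtain ⟨Y, hY, hm⟩ := WellFounded.has_min (measure (Finset.card (α := M))).wf {Y | big Y} hbig
    exact ⟨Y, hY, fun Y' hY' => not_lt.1 fun hlt => hm Y' hY' hlt⟩
  obtain ⟨hYT, D, hD, hDY, hDp⟩ := hY
  obtain ⟨hne, hYF, hdec⟩ := hB Y hYT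
  have hDc : CutK τ Dᶜ k := CutK.compl hrv hD
  by_cases hcard : 2 ≤ Y.card
  · obtain ⟨Y₁, hY₁, Y₂, hY₂, hdis, hun''⟩ := hdec hcard
    have hun' : Y₁ ∪ Y₂ = Y := by
      ext x
      rw [Finset.mem_union, hun'']
    have hsm : ∀ Z ∈ T, Z.card < Y.card → ∃ C : Set M, CutK τ C k ∧
        (∀ x ∈ F, x ∈ C ↔ x ∈ Z) ∧ p C := by
      intro Z hZ hlt
      obtain ⟨C, hCk, hCZ⟩ := hC Z hZ
      refine ⟨C, hCk, hCZ, ?_⟩
      rcases hp C hCk with h | h
      · exact h
      · exact absurd (hmin Z ⟨hZ, C, hCk, hCZ, h⟩) (not_le.2 hlt)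
    have hc : Y₁.card + Y₂.card = Y.card := by
      rw [← hun', Finset.card_union_of_disjoint hdis]
    have h1 := (hB Y₁ hY₁).1.card_pos
    have h2 := (hB Y₂ hY₂).1.card_pos
    obtain ⟨C₁, hC₁, hC₁Y, hp₁⟩ := hsm Y₁ hY₁ (by omega)
    obtain ⟨C₂, hC₂, hC₂Y, hp₂⟩ := hsm Y₂ hY₂ (by omega)
    refine ⟨(Dᶜ ∪ C₁) ∪ C₂, ?_, hun _ _ (hun _ _ hDp hp₁) hp₂, (hDc.union hC₁).union hC₂⟩
    intro x hx
    by_cases hxY : x ∈ Y
    · rw [← hun', Finset.mem_union] at hxY
      rcases hxY with h | h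
      · exact Or.inl (Or.inr ((hC₁Y x hx).2 h))
      · exact Or.inr ((hC₂Y x hx).2 h)
    · exact Or.inl (Or.inl fun h => hxY ((hDY x hx).1 h))
  · have hc1 : Y.card = 1 := by
      have := hne.card_pos
      omega
    obtain ⟨y, rfl⟩ := Finset.card_eq_one.1 hc1
    refine ⟨Dᶜ ∪ {y}, ?_, hun _ _ hDp (hsing y), hle hk3 (hDc.union (hT0 y))⟩
    intro x hx
    by_cases hxY : x = y
    · exact Or.inr hxY
    · refine Or.inl fun h => hxY ?_
      simpa using (hDY x hx).1 h

/-- **A wild definable cut contains two disjoint wild definable cuts.** -/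
theorem two_wild (hL : Ar2 L) (hS : VSt K δ S) (hτ : Lbl S τ rv) (hT : CTree τ k) {X : Set M}
    (hX : Dfb S X) {k' : ℕ} (hXc : CutK τ X k') (hXT : ¬ TT S X) :
    ∃ Y Z : Set M, Y ⊆ X ∧ Z ⊆ X ∧ Disjoint Y Z ∧
      (Dfb S Y ∧ (∃ k, CutK τ Y k) ∧ ¬ TT S Y) ∧ Dfb S Z ∧ (∃ k, CutK τ Z k) ∧ ¬ TT S Z := by
  classical
  by_contra hcon
  have hp : ∀ C, CutK τ C k → TT S (X ∩ C) ∨ TT S (X ∩ Cᶜ) := by
    intro C hC
    by_contra hn
    rw [not_or] at hn
    have h1 : Wd S τ (X ∩ C) := by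
      by_contra h
      exact hn.1 (nw hL hS hτ hX hXc hC h)
    have h2 : Wd S τ (X ∩ Cᶜ) := by
      by_contra h
      exact hn.2 (nw hL hS hτ hX hXc (CutK.compl hτ.rev hC) h)
    obtain ⟨Y, hY1, hY2, hY3, hY4⟩ := h1
    obtain ⟨Z, hZ1, hZ2, hZ3, hZ4⟩ := h2
    refine hcon ⟨Y, Z, hY1.trans inter_subset_left, hZ1.trans inter_subset_left, ?_,
      ⟨hY2, hY3, hY4⟩, hZ2, hZ3, hZ4⟩
    exact Set.disjoint_of_subset (hY1.trans inter_subset_right) (hZ1.trans inter_subset_right)
      disjoint_compl_right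
  obtain ⟨x₀⟩ : Nonempty M := by
    by_contra hne
    rw [not_nonempty_iff] at hne
    exact hXT (TT.of_countable ((countable_empty (α := M)).mono fun x _ => (hne.false x).elim))
  refine hXT (at_piece (k := k3 k) hL hS hτ hX hXc fun F hF => ?_)
  obtain ⟨V, hV1, hV2, hV3⟩ := ctree_cover (p := fun C => TT S (X ∩ C)) hτ.rev hT
    (fun C C' h h' => h'.mono (inter_subset_inter_right _ h))
    (fun C C' h h' => by
      rw [inter_union_distrib_left]
      exact h.union h')
    (fun y => TT.of_countable ((countable_singleton y).mono inter_subset_right)) hp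
    (Finset.insert_nonempty x₀ F)
  refine ⟨V, fun x hx => hV1 ?_, hV2, hV3.cutIn X⟩
  rw [Finset.coe_insert]
  exact Or.inr hx

end

end Pool.Agent.Helper97.LO

end
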