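import Pool.Agent.CW.GB
import Pool.Agent.VB.I
import Pool.Agent.VB.J

/-!
# Tools for Vaught's conjecture, part 11: clique-width, unions

Merged file (to shorten the import chain): contents, unchanged, of
`Pool.Agent.CW.LVT`, `Pool.Agent.CW.TTV`, `Pool.Agent.CW.UNI`, `Pool.Agent.CW.WBS`, `Pool.Agent.CW.S3`.
-/

/-! ### formerly `Pool.Agent.CW.LVT` -/

section

/-!
# CW, module LVT
-/

set_option autoImplicit false
set_option linter.unusedSectionVars false
set_option linter.unusedVariables false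

namespace Pool.Agent.CW

open Set Pool.Agent.Helper5 Pool.Agent.Helper5.DU Pool.Agent.Helper6.Str
  Pool.Agent.Helper79.VC Pool.Agent.Helper97.VC Pool.Agent.Helper97.MD Pool.Agent.Helper6.VC
  Pool.Agent.Helper97.LO

open scoped Classical

variable {L : FirstOrder.Language.{0, 0}} [∀ n, IsEmpty (L.Functions n)]
  [∀ n, Countable (L.Relations n)] {M N : Type} {K : Set (L.Structure ℕ)} {δ : Ordinal.{0}}
  {S : L.Structure M}

/-- definable sets with a countable level have countably many types -/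
theorem tt_of_lv (hL : Ar2 L) (hS : VSt K δ S) {X : Set M} (hX : Dfb S X) {ζ : Ordinal.{0}}
    (hζ : ζ < om1) (h : Lv S univ X ζ) : TT S X := by
  obtain ⟨F₀, η, hη, hF₀⟩ := hX
  obtain ⟨G, hG, hlv⟩ := h
  intro F
  obtain ⟨κ, hκ⟩ := hS.small (η + ζ) (add_lt_om1 hη hζ) (F₀ ∪ (G ∪ F)) (subset_univ _)
  refine ⟨κ, fun c hc c' hc' hcc γ hγ => ?_⟩
  have h1 := hκ c (mem_univ _) c' (mem_univ _) hcc
  have h2 := BFR.restr (subset_univ X) (subset_univ X) η ζ
    (p := insert (c, c') (dg ((F₀ ∪ (G ∪ F) : Finset M) : Set M)))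
    (fun x _ y _ hxy => hF₀ x y (BFR.anti (insert_subset_insert (by
      refine (image_mono ?_).trans (subset_insert _ _)
      rw [Finset.coe_union]
      exact subset_union_left)) hxy)) h1
  have hp0 : ∀ a ∈ (insert (c, c') (dg ((F : Set M) ∩ X)) : Set (M × M)), a.1 ∈ X ∧ a.2 ∈ X := by
    rintro a (rfl | ⟨x, hx, rfl⟩)
    · exact ⟨hc, hc'⟩
    · exact ⟨hx.2, hx.2⟩
  have hpf : (insert (c, c') (dg ((F : Set M) ∩ X)) : Set (M × M)).Finite :=
    ((F.finite_toSet.subset inter_subset_left).image _).insert _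
  have h3 := hlv _ hpf hp0 (BFR.anti (by
    rintro a ((rfl | ⟨x, hx, rfl⟩) | ⟨x, hx, rfl⟩)
    · exact mem_insert _ _
    · refine mem_insert_of_mem _ ⟨x, ?_, rfl⟩
      rw [Finset.coe_union, Finset.coe_union]
      exact Or.inr (Or.inr hx.1)
    · refine mem_insert_of_mem _ ⟨x, ?_, rfl⟩
      rw [Finset.coe_union, Finset.coe_union]
      exact Or.inr (Or.inl hx)) h2) γ hγ
  have h4 := bfr_ext hL hG (subset_univ X) (subset_univ _) hp0 h3 (H := (F : Set M) \ X)
    (fun x hx => ⟨mem_univ _, hx.2⟩)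
  refine BFR.anti ?_ h4
  rintro a (rfl | ⟨x, hx, rfl⟩)
  · exact Or.inl (mem_insert _ _)
  · by_cases hxX : x ∈ X
    · exact Or.inl (mem_insert_of_mem _ ⟨x, ⟨hx, hxX⟩, rfl⟩)
    · exact Or.inr ⟨x, ⟨hx, hxX⟩, rfl⟩

/-- the rows of the elements over `G` -/
private def LVT_dat (S : L.Structure M) (G : Finset M) (x : M) :
    {g // g ∈ G} → Set (L.Relations 2) × Set (L.Relations 2) := fun g => bt S x g.1

private theorem LVT_pair (hL : Ar2 L) {a : M × M} {g : M} (h : AtEq S S {(a.1, a.2), (g, g)}) :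
    bt S a.1 g = bt S a.2 g := (lbl_bt hL S).inv a.1 g a.2 g h

private theorem LVT_iff (hL : Ar2 L) {X : Set M} {G : Finset M} (hG : RC S univ X G)
    (γ : Ordinal.{0}) : ∀ {p : Set (M × M)}, (∀ a ∈ p, a.1 ∈ X ∧ a.2 ∈ X) →
      (BFR S S X X γ (p ∪ dg (G : Set M)) ↔ BFR (exS S (LVT_dat S G) fun _ _ => False)
        (exS S (LVT_dat S G) fun _ _ => False) X X γ p) := by
  induction γ using WellFoundedLT.induction with
  | _ γ ih =>
    intro p hp
    have hat : AtEq S S (p ∪ dg (G : Set M)) ↔ AtEq (exS S (LVT_dat S G) fun _ _ => False)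
        (exS S (LVT_dat S G) fun _ _ => False) p := by
      rw [atEq_exS]
      constructor
      · intro h
        refine ⟨AtEq.anti subset_union_left h, fun a ha => ?_, fun _ _ _ _ => Iff.rfl⟩
        funext g
        refine LVT_pair hL (AtEq.anti ?_ h)
        rintro d (rfl | rfl)
        · exact Or.inl ha
        · exact Or.inr ⟨g.1, g.2, rfl⟩
      · rintro ⟨h1, h2, -⟩
        have hx : ∀ a ∈ p, ∀ g ∈ G, AtEq S S {(a.1, a.2), (g, g)} := by
          intro a ha g hg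
          have hgX : g ∉ X := (hG.1 (Finset.mem_coe.mpr hg)).2
          refine (lbl_bt hL S).det a.1 g a.2 g ?_ ?_ ?_ (df_single S g) ?_
          · rintro rfl
            exact hgX (hp a ha).1
          · rintro rfl
            exact hgX (hp a ha).2
          · refine AtEq.anti ?_ h1
            rintro d rfl
            exact ha
          · exact congrFun (h2 a ha) ⟨g, hg⟩
        refine atEq_of_pairs hL fun a ha b hb => ?_
        rcases ha with ha | ⟨y, hy, rfl⟩ <;> rcases hb with hb | ⟨z, hz, rfl⟩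
        · refine AtEq.anti ?_ h1
          rintro d (rfl | rfl)
          · exact ha
          · exact hb
        · exact hx a ha z hz
        · refine AtEq.anti ?_ (hx b hb y hy)
          rintro d (rfl | rfl)
          · exact Or.inr rfl
          · exact Or.inl rfl
        · refine TR.atEq_refl S ?_
          rintro d (rfl | rfl) <;> rfl
    rw [BFR.def, BFR.def, hat]
    refine and_congr_right fun _ => forall_congr' fun β => forall_congr' fun hβ =>
      and_congr ?_ ?_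
    · refine forall_congr' fun x => forall_congr' fun hx => exists_congr fun y =>
        and_congr_right fun hy => ?_
      rw [← insert_union]
      refine ih β hβ ?_
      rintro a (rfl | ha)
      · exact ⟨hx, hy⟩
      · exact hp a ha
    · refine forall_congr' fun y => forall_congr' fun hy => exists_congr fun x =>
        and_congr_right fun hx => ?_
      rw [← insert_union]
      refine ih β hβ ?_
      rintro a (rfl | ha)
      · exact ⟨hx, hy⟩
      · exact hp a ha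

/-- definable cuts with countably many types have a countable level -/
theorem lv_of_tt (hL : Ar2 L) {X : Set M} (hX : Dfb S X)
    (hr : rk (bt S) univ X ≠ ⊤) (h : TT S X) : ∃ ζ < om1, Lv S univ X ζ := by
  obtain ⟨G, hG⟩ := exists_rc hr
  have hd : DfbC S (LVT_dat S G) := by
    refine ⟨G, 0, Ordinal.omega_pos 1, fun c c' hb => ?_⟩
    funext g
    refine LVT_pair (a := (c, c')) hL (AtEq.anti ?_ hb.atEq)
    rintro d (rfl | rfl)
    · exact mem_insert _ _
    · exact mem_insert_of_mem _ ⟨g.1, g.2, rfl⟩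
  have h2 : Dfb2 S fun _ _ => False := ⟨∅, 0, Ordinal.omega_pos 1, fun _ _ _ _ _ => Iff.rfl⟩
  obtain ⟨α, hα, hSL⟩ := ((h.toExS hd h2).tameX (hX.toExS _ _)).exists_SL
  refine ⟨α, hα, G, hG, fun p hpf hp hb γ hγ => ?_⟩
  exact (LVT_iff hL hG γ hp).mpr (hSL p hpf hp ((LVT_iff hL hG α hp).mp hb) γ hγ)

/-- countable cuts have a countable level -/
theorem lv_of_countable {U X : Set M} (hX : X.Countable) (hr : rk (bt S) U X ≠ ⊤) :
    ∃ ζ < om1, Lv S U X ζ := by
  obtain ⟨G, hG⟩ := exists_rc hr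
  have hct : {p : Finset (M × M) | (p : Set (M × M)) ⊆ X ×ˢ X}.Countable := by
    have h1 : {t : Set (M × M) | t.Finite ∧ t ⊆ X ×ˢ X}.Countable :=
      countable_ofPred_finite_subset (hX.prod hX)
    refine (h1.preimage (f := fun F : Finset (M × M) => (F : Set (M × M)))
      Finset.coe_injective).mono ?_
    intro F hF
    exact ⟨F.finite_toSet, hF⟩
  have := hct.to_subtype
  have hch : ∀ p : {p : Finset (M × M) | (p : Set (M × M)) ⊆ X ×ˢ X}, ∃ γ < om1,
      BFR S S X X γ ((p.1 : Set (M × M)) ∪ dg (G : Set M)) →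
        ∀ β < om1, BFR S S X X β ((p.1 : Set (M × M)) ∪ dg (G : Set M)) := by
    intro p
    by_cases h : ∀ β < om1, BFR S S X X β ((p.1 : Set (M × M)) ∪ dg (G : Set M))
    · exact ⟨0, Ordinal.omega_pos 1, fun _ => h⟩
    · push Not at h
      obtain ⟨γ, hγ, hγ'⟩ := h
      exact ⟨γ, hγ, fun h' => absurd h' hγ'⟩
  choose g hg hg' using hch
  obtain ⟨α, hα, hgα⟩ := exists_bound hg
  refine ⟨α, hα, G, hG, fun p hp hpX hb γ hγ => ?_⟩
  have hmem : ((hp.toFinset : Finset (M × M)) : Set (M × M)) ⊆ X ×ˢ X := by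
    rw [hp.coe_toFinset]
    exact fun a ha => hpX a ha
  have h1 := hg' ⟨hp.toFinset, hmem⟩ (by
    show BFR S S X X _ ((hp.toFinset : Set (M × M)) ∪ dg (G : Set M))
    rw [hp.coe_toFinset]
    exact hb.mono (hgα _)) γ hγ
  have h2 : BFR S S X X γ ((hp.toFinset : Set (M × M)) ∪ dg (G : Set M)) := h1
  rwa [hp.coe_toFinset] at h2

end Pool.Agent.CW

end

/-! ### formerly `Pool.Agent.CW.TTV` -/

section

/-!
# CW, module TTV
-/

set_option autoImplicit false
set_option linter.unusedSectionVars false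
set_option linter.unusedVariables false

namespace Pool.Agent.CW

open Set Pool.Agent.Helper5 Pool.Agent.Helper5.DU Pool.Agent.Helper6.Str
  Pool.Agent.Helper79.VC Pool.Agent.Helper97.VC Pool.Agent.Helper97.MD Pool.Agent.Helper6.VC
  Pool.Agent.Helper97.LO

open scoped Classical

variable {L : FirstOrder.Language.{0, 0}} [∀ n, IsEmpty (L.Functions n)]
  [∀ n, Countable (L.Relations n)] {M N : Type} {K : Set (L.Structure ℕ)} {δ : Ordinal.{0}}
  {S : L.Structure M}

theorem TTV_univ {A : Type} (τ : M → M → A) : CutK τ (univ : Set M) 1 :=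
  ⟨⟨fun _ => 0, fun _ _ _ _ _ g hg => absurd (mem_univ g) hg⟩,
    fun _ => 0, fun g hg => absurd (mem_univ g) hg⟩

theorem TTV_cutK (hL : Ar2 L) (S : L.Structure M) {Z : Set M} (hr : rk (bt S) univ Z ≠ ⊤) :
    ∃ k, CutK (bt S) Z k := by
  obtain ⟨n, hn⟩ := ENat.ne_top_iff_exists.mp hr
  exact ⟨2 ^ n, cutK_of_rk_le (lbl_bt hL S).rev hn.symm.le⟩

theorem TTV_rk (hL : Ar2 L) (S : L.Structure M) {Z : Set M} {k : ℕ} (h : CutK (bt S) Z k) :
    rk (bt S) univ Z ≠ ⊤ :=
  ne_top_of_le_ne_top (ENat.natCast_ne_top _) (rk_le_of_cutK (lbl_bt hL S).rev h)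

theorem TTV_biUnion {A ι : Type} (τ : M → M → A) (U : Set M) (X : ι → Set M) (k : ℕ)
    (h : ∀ i, rk τ U (X i) ≤ k) (s : Finset ι) :
    rk τ U (⋃ i ∈ s, X i) ≤ ((s.card * k : ℕ) : ℕ∞) := by
  induction s using Finset.induction_on with
  | empty =>
    simp only [Finset.notMem_empty, iUnion_of_empty, iUnion_empty]
    rw [rk_empty]
    exact zero_le
  | insert a s ha ih =>
    rw [Finset.set_biUnion_insert, Finset.card_insert_of_notMem ha]
    refine (rk_union_le τ U _ _).trans ((add_le_add (h a) ih).trans (le_of_eq ?_))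
    push_cast
    ring

/-- (AT'p) -/
theorem cov_tt (hL : Ar2 L) (hS : VSt K δ S) {Z : Set M} (hZ : Dfb S Z)
    (hr : rk (bt S) univ Z ≠ ⊤) {k : ℕ}
    (H : ∀ F : Finset M, (F : Set M) ⊆ Z → ∃ V : Set M, (F : Set M) ⊆ V ∧ TT S V ∧
      rk (bt S) univ V ≤ k) : TT S Z := by
  obtain ⟨k', hk'⟩ := TTV_cutK hL S hr
  refine at_piece (k := 2 ^ k) hL hS (lbl_bt hL S) hZ hk' fun F hF => ?_
  obtain ⟨V, h1, h2, h3⟩ := H F hF
  exact ⟨V, h1, h2.mono inter_subset_right,
    (cutK_of_rk_le (lbl_bt hL S).rev h3).cutIn Z⟩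

/-- (DIR) -/
theorem dir_tt (hL : Ar2 L) (hS : VSt K δ S) {Z : Set M} (hr : rk (bt S) univ Z ≠ ⊤) {k : ℕ}
    (H : ∀ F : Finset M, (F : Set M) ⊆ Z → ∃ V : Set M, (F : Set M) ⊆ V ∧ TT S V ∧
      rk (bt S) univ V ≤ k) : TT S Z := by
  obtain ⟨k', hk'⟩ := TTV_cutK hL S hr
  by_contra hn
  have h1 : Wd S (bt S) (univ ∩ Z) := by
    by_contra hW
    have h2 := nw hL hS (lbl_bt hL S) (dfb_univ (S := S)) (TTV_univ (bt S)) hk' hW
    rw [univ_inter] at h2
    exact hn h2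
  obtain ⟨Z', hZ', hd, ⟨k₂, hk₂⟩, hnt⟩ := h1
  rw [univ_inter] at hZ'
  exact hnt (cov_tt hL hS hd (TTV_rk hL S hk₂) fun F hF => H F (hF.trans hZ'))

theorem tt_of_covS (hL : Ar2 L) (hS : VSt K δ S) {Z : Set M} (hr : rk (bt S) univ Z ≠ ⊤) {k : ℕ}
    {ζ : Ordinal.{0}} (hζ : ζ < om1) (h : CovS S univ Z k ζ) : TT S Z := by
  refine dir_tt (k := k * k) hL hS hr fun F hF => ?_
  obtain ⟨P, Q, h1, h2⟩ := h F hF
  refine ⟨⋃ i, Bs (bt S) univ (P i) (Q i), ?_, ?_, ?_⟩
  · intro x hx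
    obtain ⟨i, hi⟩ := h2 x hx
    exact mem_iUnion.2 ⟨i, hi⟩
  · exact TT.iUnion fun i => tt_of_lv hL hS (dfb_bs S (P i) (Q i)) hζ (h1 i).2.2
  · have h3 := TTV_biUnion (bt S) univ (fun i => Bs (bt S) univ (P i) (Q i)) k (fun i => by
      rw [rk_bs (h1 i).1]
      exact_mod_cast (h1 i).2.1) Finset.univ
    simp only [Finset.mem_univ, iUnion_true] at h3
    rw [Finset.card_univ, Fintype.card_fin] at h3
    exact h3

theorem tt_of_jd (hL : Ar2 L) (hS : VSt K δ S) {Z : Set M} (hr : rk (bt S) univ Z ≠ ⊤)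
    {μ : Ordinal.{0}} (hμ : μ ≤ om1) (h : Jd S univ μ Z) : TT S Z := by
  obtain ⟨ζ, hζ, k, h1⟩ := h
  exact tt_of_covS hL hS hr (hζ.trans_le hμ) h1

/-- a cut with countably many types, all of whose basic subsets have level `r`, is covered -/
theorem covS_of_tt (hL : Ar2 L) {Y X : Set M} (hr : rk (bt S) univ Y ≠ ⊤)
    (hY : TT S Y) (hYX : Y ⊆ X) {r : Ordinal.{0}}
    (H : ∀ P Q : Finset M, Ok (bt S) univ P Q → Bs (bt S) univ P Q ⊆ X →
      TT S (Bs (bt S) univ P Q) → Lv S univ (Bs (bt S) univ P Q) r) :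
    ∃ k, CovS S univ Y k r := by
  obtain ⟨P, Q, hR⟩ := exists_refs hr
  refine ⟨max 1 (rho (bt S) P Q), covS_of_refs (subset_univ Y) hR (le_max_right _ _)
    (lt_of_lt_of_le one_pos (le_max_left _ _)) fun F hF => ?_⟩
  obtain ⟨h1, h2, -, -, -⟩ := hR.bs (subset_univ Y) hF
  exact H _ _ h1 (h2.trans hYX) (hY.mono h2)

end Pool.Agent.CW

end

/-! ### formerly `Pool.Agent.CW.UNI` -/

section

/-!
# CW, module UNI
-/

set_option autoImplicit false
set_option linter.unusedSectionVars false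
set_option linter.unusedVariables false

namespace Pool.Agent.CW

open Set Pool.Agent.Helper5 Pool.Agent.Helper5.DU Pool.Agent.Helper6.Str
  Pool.Agent.Helper79.VC Pool.Agent.Helper97.VC Pool.Agent.Helper97.MD Pool.Agent.Helper6.VC
  Pool.Agent.Helper97.LO

open scoped Classical

variable {L : FirstOrder.Language.{0, 0}} [∀ n, IsEmpty (L.Functions n)]
  [∀ n, Countable (L.Relations n)] {M N : Type} {K : Set (L.Structure ℕ)} {δ : Ordinal.{0}}
  {S : L.Structure M}

private theorem UNI_mt {n : ℕ} (b : Fin n → N) (a : Fin n → M) (s : Finset (Fin n)) :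
    Mt (range fun i => (b i, a i)) (s.image b) (s.image a) := by
  constructor
  · intro x hx
    obtain ⟨i, hi, rfl⟩ := Finset.mem_image.1 hx
    exact ⟨a i, Finset.mem_image_of_mem _ hi, i, rfl⟩
  · intro y hy
    obtain ⟨i, hi, rfl⟩ := Finset.mem_image.1 hy
    exact ⟨b i, Finset.mem_image_of_mem _ hi, i, rfl⟩

private theorem UNI_rk {A : Type} {τ : M → M → A} {P Q P' Q' : Finset M} (h : Ok τ univ P Q)
    (h' : Ok τ univ P' Q') : rk τ univ (Bs τ univ P Q ∩ Bs τ univ P' Q') ≠ ⊤ := by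
  have h1 := rk_inter_le τ univ (Bs τ univ P Q) (Bs τ univ P' Q')
  rw [rk_bs h, rk_bs h'] at h1
  have h2 : (rho τ P Q : ℕ∞) + (rho τ P' Q' : ℕ∞) = ((rho τ P Q + rho τ P' Q' : ℕ) : ℕ∞) := by
    push_cast
    rfl
  rw [h2] at h1
  exact ne_top_of_le_ne_top (ENat.natCast_ne_top _) h1

private theorem UNI_pat (hL : Ar2 L) (hS : VSt K δ S) (k : ℕ) {ζ : Ordinal.{0}} (hζ : ζ < om1)
    (n : ℕ) (s1 s2 s3 s4 s5 : Finset (Fin n)) :
    ∃ Φ < om1, ∀ a : Fin n → M, Ok (bt S) univ (s1.image a) (s2.image a) →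
      Ok (bt S) univ (s3.image a) (s4.image a) →
      CovS S univ (Bs (bt S) univ (s1.image a) (s2.image a) ∩
        Bs (bt S) univ (s3.image a) (s4.image a)) k ζ →
      RC S univ (Bs (bt S) univ (s1.image a) (s2.image a) ∩
        Bs (bt S) univ (s3.image a) (s4.image a)) (s5.image a) →
      Lv S univ (Bs (bt S) univ (s1.image a) (s2.image a) ∩
        Bs (bt S) univ (s3.image a) (s4.image a)) Φ := by
  by_contra hcon
  push Not at hcon
  choose a ha1 ha2 ha3 ha4 ha5 using fun r : Om => hcon (od r) (od_lt r)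
  obtain ⟨N, T, b, V, hV, hT, H⟩ := hS.limit a
  -- elements in the large levels
  have hex : ∀ C : Set Om, C.Countable → ∃ r ∈ V, r ∉ C := by
    intro C hC
    by_contra hcon
    push Not at hcon
    exact hV (hC.mono fun r hr => hcon r hr)
  -- the intersection is respected
  have hmem : ∀ r : Om, ∀ x ∈ (univ : Set N), ∀ x' ∈ (univ : Set M),
      BFR T S univ univ Ordinal.omega0 (insert (x, x') (range fun i => (b i, a r i))) →
      (x ∈ Bs (bt T) univ (s1.image b) (s2.image b) ∩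
        Bs (bt T) univ (s3.image b) (s4.image b) ↔
      x' ∈ Bs (bt S) univ (s1.image (a r)) (s2.image (a r)) ∩
        Bs (bt S) univ (s3.image (a r)) (s4.image (a r))) := by
    intro r x hx x' hx' h
    exact and_congr (mem_bs_iff hx hx' h (UNI_mt b (a r) s1) (UNI_mt b (a r) s2))
      (mem_bs_iff hx hx' h (UNI_mt b (a r) s3) (UNI_mt b (a r) s4))
  -- facts about the limit
  obtain ⟨C0, hC0, hC0'⟩ := H _ (up_lt_om1 hζ)
  obtain ⟨r0, hr0V, hr0C⟩ := hex C0 hC0
  have h0 := hC0' r0 hr0V hr0C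
  have hle : Ordinal.omega0 + 2 ≤ up ζ + Ordinal.omega0 + Ordinal.omega0 := by
    have h1 : Ordinal.omega0 ≤ up ζ + Ordinal.omega0 := le_add_self
    exact add_le_add h1 (Ordinal.natCast_lt_omega0 2).le
  have hle1 : Ordinal.omega0 + 1 ≤ Ordinal.omega0 + (2 : Ordinal.{0}) :=
    add_le_add le_rfl (by exact_mod_cast Nat.le_succ 1)
  have hok : ∀ s s' : Finset (Fin n), Ok (bt S) univ (s.image (a r0)) (s'.image (a r0)) →
      Ok (bt T) univ (s.image b) (s'.image b) := by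
    intro s s' h
    exact (ok_iff (h0.mono (hle1.trans hle)) (UNI_mt b (a r0) s) (UNI_mt b (a r0) s')
      (subset_univ _) (subset_univ _) (subset_univ _) (subset_univ _)).2 h
  have hT1 := hok s1 s2 (ha1 r0)
  have hT2 := hok s3 s4 (ha2 r0)
  have hcov : CovS T univ (Bs (bt T) univ (s1.image b) (s2.image b) ∩
      Bs (bt T) univ (s3.image b) (s4.image b)) k ζ :=
    (covS_iff hL hζ (subset_univ _) (subset_univ _) (le_add_self) (hmem r0) h0).2 (ha3 r0)
  have hrk := UNI_rk hT1 hT2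
  have htt := tt_of_covS hL hT hrk hζ hcov
  obtain ⟨α, hα, hlv⟩ := lv_of_tt hL ((dfb_bs T _ _).inter (dfb_bs T _ _)) hrk htt
  have hrc : RC T univ (Bs (bt T) univ (s1.image b) (s2.image b) ∩
      Bs (bt T) univ (s3.image b) (s4.image b)) (s5.image b) := by
    refine rc_of (fun x hx x' hx' h => (hmem r0 x' hx' x hx (h.symm ?_)).symm) (subset_univ _)
      (subset_univ _) (subset_univ _) (h0.swap.mono hle) (mt_swap (UNI_mt b (a r0) s5)) (ha4 r0)
    rintro w (rfl | hw)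
    · exact mem_insert _ _
    · exact mem_insert_of_mem _ hw
  -- the level at the members
  obtain ⟨C1, hC1, hC1'⟩ := H (Ordinal.omega0 + (α + Ordinal.omega0))
    (add_lt_om1 omega_lt_om1 (add_lt_om1 hα omega_lt_om1))
  obtain ⟨r, hrV, hrC⟩ := hex (C1 ∪ {r | od r < α}) (hC1.union (countable_od_lt hα))
  have h1 := hC1' r hrV fun h => hrC (Or.inl h)
  have h2 : α ≤ od r := not_lt.1 fun h => hrC (Or.inr h)
  have h3 := BFR.restr (subset_univ _) (subset_univ _) Ordinal.omega0 (α + Ordinal.omega0)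
    (hmem r) h1
  refine ha5 r (Lv.mono ?_ h2)
  refine Lv.congr (q := (fun i => (b i, a r i)) '' (s5 : Set (Fin n))) hL hα (subset_univ _)
    (subset_univ _) hrc (ha4 r) hlv (s5.finite_toSet.image _) ⟨?_, ?_⟩ ?_
    (h3.anti (image_subset_range _ _))
  · intro x hx
    obtain ⟨i, hi, rfl⟩ := Finset.mem_image.1 hx
    exact ⟨a r i, Finset.mem_image_of_mem _ hi, i, hi, rfl⟩
  · intro y hy
    obtain ⟨i, hi, rfl⟩ := Finset.mem_image.1 hy
    exact ⟨b i, Finset.mem_image_of_mem _ hi, i, hi, rfl⟩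
  · rintro _ ⟨i, hi, rfl⟩
    exact ⟨Finset.mem_image_of_mem _ hi, Finset.mem_image_of_mem _ hi⟩

private theorem UNI_img (F : Finset M) {A : Finset M} (hA : A ⊆ F) :
    (Finset.univ.filter fun i => ((F.equivFin.symm i : F) : M) ∈ A).image
      (fun i => ((F.equivFin.symm i : F) : M)) = A := by
  ext x
  rw [Finset.mem_image]
  constructor
  · rintro ⟨i, hi, rfl⟩
    exact (Finset.mem_filter.1 hi).2
  · intro hx
    refine ⟨F.equivFin ⟨x, hA hx⟩, Finset.mem_filter.2 ⟨Finset.mem_univ _, ?_⟩, ?_⟩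
    · simpa using hx
    · simp

/-- (UNI) uniform bounds for levels -/
theorem uni (hL : Ar2 L) (hS : VSt K δ S) (k : ℕ) {ζ : Ordinal.{0}} (hζ : ζ < om1) :
    ∃ Φ < om1, ∀ P Q P' Q' : Finset M, Ok (bt S) univ P Q → Ok (bt S) univ P' Q' →
      CovS S univ (Bs (bt S) univ P Q ∩ Bs (bt S) univ P' Q') k ζ →
      Lv S univ (Bs (bt S) univ P Q ∩ Bs (bt S) univ P' Q') Φ := by
  have key := fun w : (Σ n : ℕ, Finset (Fin n) × Finset (Fin n) × Finset (Fin n) ×
      Finset (Fin n) × Finset (Fin n)) =>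
    UNI_pat hL hS k hζ w.1 w.2.1 w.2.2.1 w.2.2.2.1 w.2.2.2.2.1 w.2.2.2.2.2
  choose Ψ hΨ hΨ' using key
  obtain ⟨Φ, hΦ, hle⟩ := exists_bound hΨ
  refine ⟨Φ, hΦ, fun P Q P' Q' h1 h2 h3 => ?_⟩
  obtain ⟨G, hG⟩ := exists_rc (UNI_rk h1 h2)
  set F : Finset M := P ∪ (Q ∪ (P' ∪ (Q' ∪ G))) with hF
  have e1 : P ⊆ F := Finset.subset_union_left
  have e2 : Q ⊆ F := Finset.subset_union_left.trans Finset.subset_union_right
  have e3 : P' ⊆ F := (Finset.subset_union_left.trans Finset.subset_union_right).trans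
    Finset.subset_union_right
  have e4 : Q' ⊆ F := ((Finset.subset_union_left.trans Finset.subset_union_right).trans
    Finset.subset_union_right).trans Finset.subset_union_right
  have e5 : G ⊆ F := ((Finset.subset_union_right.trans Finset.subset_union_right).trans
    Finset.subset_union_right).trans Finset.subset_union_right
  have h4 := hΨ' ⟨F.card, Finset.univ.filter fun i => ((F.equivFin.symm i : F) : M) ∈ P,
    Finset.univ.filter fun i => ((F.equivFin.symm i : F) : M) ∈ Q,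
    Finset.univ.filter fun i => ((F.equivFin.symm i : F) : M) ∈ P',
    Finset.univ.filter fun i => ((F.equivFin.symm i : F) : M) ∈ Q',
    Finset.univ.filter fun i => ((F.equivFin.symm i : F) : M) ∈ G⟩
    fun i => ((F.equivFin.symm i : F) : M)
  simp only [UNI_img F e1, UNI_img F e2, UNI_img F e3, UNI_img F e4, UNI_img F e5] at h4
  exact (h4 h1 h2 h3 hG).mono (hle _)

end Pool.Agent.CW

end

/-! ### formerly `Pool.Agent.CW.WBS` -/

section

/-!
# CW, module WBS
-/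

set_option autoImplicit false
set_option linter.unusedSectionVars false
set_option linter.unusedVariables false

namespace Pool.Agent.CW

open Set Pool.Agent.Helper5 Pool.Agent.Helper5.DU Pool.Agent.Helper6.Str
  Pool.Agent.Helper79.VC Pool.Agent.Helper97.VC Pool.Agent.Helper97.MD Pool.Agent.Helper6.VC
  Pool.Agent.Helper97.LO

open scoped Classical

variable {L : FirstOrder.Language.{0, 0}} [∀ n, IsEmpty (L.Functions n)]
  [∀ n, Countable (L.Relations n)] {M N : Type} {K : Set (L.Structure ℕ)} {δ : Ordinal.{0}}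
  {S : L.Structure M}

/-- dependent choices -/
private theorem wbs_exists_seq {α : Type*} (P : α → Prop) (R : α → α → Prop) (h0 : ∃ x, P x)
    (h : ∀ x, P x → ∃ y, P y ∧ R x y) :
    ∃ s : ℕ → α, (∀ n, P (s n)) ∧ ∀ n, R (s n) (s (n + 1)) := by
  obtain ⟨x0, hx0⟩ := h0
  choose! g hg1 hg2 using h
  let s : ℕ → α := fun n => n.rec x0 fun _ x => g x
  have hs : ∀ n, P (s n) := by
    intro n
    induction n with
    | zero => exact hx0
    | succ n ih => exact hg1 (s n) ih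
  exact ⟨s, hs, fun n => hg2 (s n) (hs n)⟩

/-- (WB) wild sets contain wild basic sets -/
theorem wild_bs (hL : Ar2 L) (hS : VSt K δ S) {X : Set M} (hX : Wil S X) :
    ∃ P Q : Finset M, Ok (bt S) univ P Q ∧ Bs (bt S) univ P Q ⊆ X ∧
      Wil S (Bs (bt S) univ P Q) := by
  by_contra hcon
  obtain ⟨P, Q, hR⟩ := exists_refs hX.cut
  refine hX.not_tt (cov_tt hL hS hX.dfb hX.cut (k := rho (bt S) P Q) fun F hF => ?_)
  obtain ⟨hOk, hsub, hrho, hFB, -⟩ := hR.bs (subset_univ _) hF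
  refine ⟨Bs (bt S) univ (P ∪ F) Q, hFB, ?_, ?_⟩
  · by_contra hTT
    refine hcon ⟨P ∪ F, Q, hOk, hsub, dfb_bs S _ _, ?_, hTT⟩
    rw [rk_bs hOk]
    exact ENat.natCast_ne_top _
  · rw [rk_bs hOk, hrho]

/-- (C) wild sets contain two disjoint wild basic sets -/
theorem two_wild_bs (hL : Ar2 L) (hS : VSt K δ S) {k : ℕ} (hT : CTree (bt S) k) {X : Set M}
    (hX : Wil S X) : ∃ P Q P' Q' : Finset M, Ok (bt S) univ P Q ∧ Ok (bt S) univ P' Q' ∧
      Bs (bt S) univ P Q ⊆ X ∧ Bs (bt S) univ P' Q' ⊆ X ∧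
      Disjoint (Bs (bt S) univ P Q) (Bs (bt S) univ P' Q') ∧
      Wil S (Bs (bt S) univ P Q) ∧ Wil S (Bs (bt S) univ P' Q') := by
  have hrv := (lbl_bt hL S).rev
  obtain ⟨r, hr⟩ := ENat.ne_top_iff_exists.mp hX.cut
  obtain ⟨Y, Z, hYX, hZX, hdis, ⟨hY1, ⟨kY, hY2⟩, hY3⟩, hZ1, ⟨kZ, hZ2⟩, hZ3⟩ :=
    two_wild hL hS (lbl_bt hL S) hT hX.dfb (cutK_of_rk_le hrv hr.ge) hX.not_tt
  have hYW : Wil S Y := ⟨hY1, ne_top_of_le_ne_top (ENat.natCast_ne_top _)
    (rk_le_of_cutK hrv hY2), hY3⟩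
  have hZW : Wil S Z := ⟨hZ1, ne_top_of_le_ne_top (ENat.natCast_ne_top _)
    (rk_le_of_cutK hrv hZ2), hZ3⟩
  obtain ⟨P, Q, h1, h2, h3⟩ := wild_bs hL hS hYW
  obtain ⟨P', Q', h1', h2', h3'⟩ := wild_bs hL hS hZW
  exact ⟨P, Q, P', Q', h1, h1', h2.trans hYX, h2'.trans hZX, hdis.mono h2 h2', h3, h3'⟩

/-- infinitely many disjoint wild basic sets -/
theorem seq_wild_bs (hL : Ar2 L) (hS : VSt K δ S) {k : ℕ} (hT : CTree (bt S) k) {X : Set M}
    (hX : Wil S X) : ∃ P Q : ℕ → Finset M, (∀ m, Ok (bt S) univ (P m) (Q m) ∧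
      Bs (bt S) univ (P m) (Q m) ⊆ X ∧ Wil S (Bs (bt S) univ (P m) (Q m))) ∧
      ∀ m m', m ≠ m' → Disjoint (Bs (bt S) univ (P m) (Q m)) (Bs (bt S) univ (P m') (Q m')) := by
  let B : Finset M × Finset M → Set M := fun a => Bs (bt S) univ a.1 a.2
  obtain ⟨s, hs, hR⟩ := wbs_exists_seq
    (fun a : (Finset M × Finset M) × (Finset M × Finset M) =>
      (Ok (bt S) univ a.1.1 a.1.2 ∧ B a.1 ⊆ X ∧ Wil S (B a.1)) ∧ B a.2 ⊆ X ∧ Wil S (B a.2) ∧
        Disjoint (B a.1) (B a.2))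
    (fun a b => B b.1 ⊆ B a.2 ∧ B b.2 ⊆ B a.2) (by
      obtain ⟨P, Q, P', Q', h1, h1', h2, h2', h3, h4, h4'⟩ := two_wild_bs hL hS hT hX
      exact ⟨((P, Q), (P', Q')), ⟨h1, h2, h4⟩, h2', h4', h3⟩) (by
      rintro a ⟨-, h5, h6, -⟩
      obtain ⟨P, Q, P', Q', h1, h1', h2, h2', h3, h4, h4'⟩ := two_wild_bs hL hS hT h6
      exact ⟨((P, Q), (P', Q')), ⟨⟨h1, h2.trans h5, h4⟩, h2'.trans h5, h4', h3⟩, h2, h2'⟩)
  have hanti : Antitone fun n => B (s n).2 := antitone_nat_of_succ_le fun n => (hR n).2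
  have key : ∀ m m', m < m' → Disjoint (B (s m).1) (B (s m').1) := by
    intro m m' h
    obtain ⟨n, rfl⟩ : ∃ n, m' = n + 1 := ⟨m' - 1, by omega⟩
    exact (hs m).2.2.2.mono_right ((hR n).1.trans (hanti (by omega)))
  refine ⟨fun n => (s n).1.1, fun n => (s n).1.2, fun m => (hs m).1, fun m m' hne => ?_⟩
  rcases lt_or_gt_of_ne hne with h | h
  · exact key m m' h
  · exact (key m' m h).symm

end Pool.Agent.CW

end

/-! ### formerly `Pool.Agent.CW.S3` -/

section

/-!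
# CW, module S3: section 3 of the paper
-/

set_option autoImplicit false
set_option linter.unusedSectionVars false
set_option linter.unusedVariables false

namespace Pool.Agent.CW

open Set Pool.Agent.Helper5 Pool.Agent.Helper5.DU Pool.Agent.Helper6.Str
  Pool.Agent.Helper79.VC Pool.Agent.Helper97.VC Pool.Agent.Helper97.MD Pool.Agent.Helper6.VC
  Pool.Agent.Helper97.LO

open scoped Classical

variable {L : FirstOrder.Language.{0, 0}} [∀ n, IsEmpty (L.Functions n)]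
  [∀ n, Countable (L.Relations n)] {M : Type} {K : Set (L.Structure ℕ)} {δ : Ordinal.{0}}
  {S : L.Structure M} {X Y : Set M} {P Q : Finset M}

/-- (DIR) -/
theorem tt_of_finite (hL : Ar2 L) (hS : VSt K δ S) (hX : rk (bt S) univ X ≠ ⊤) (r : ℕ)
    (H : ∀ F : Finset M, (F : Set M) ⊆ X → ∃ V, (F : Set M) ⊆ V ∧ TT S V ∧
      rk (bt S) univ V ≤ r) : TT S X := dir_tt hL hS hX H

theorem exists_lv (hL : Ar2 L) (hS : VSt K δ S) (hX : Dfb S X)
    (hc : rk (bt S) univ X ≠ ⊤) (h : TT S X) : ∃ ζ < om1, Lv S univ X ζ := lv_of_tt hL hX hc h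

/-- (WB) -/
theorem wil_bs (hL : Ar2 L) (hS : VSt K δ S) (h : Wil S X) :
    ∃ P Q : Finset M, Ok (bt S) univ P Q ∧ Bs (bt S) univ P Q ⊆ X ∧
      Wil S (Bs (bt S) univ P Q) := wild_bs hL hS h

/-- (SINK) for the traces of the cuts of rank at most `2k`. -/
theorem sink (hL : Ar2 L) {k : ℕ} (hT : CTree (bt S) k) {F : Finset M} (hF : F.Nonempty)
    (Sm : Finset M → Prop) (hmono : ∀ A B, A ⊆ B → B ⊆ F → Sm B → Sm A)
    (hsing : ∀ x ∈ F, Sm {x})
    (H : ∀ C : Set M, rk (bt S) univ C ≤ (2 * k : ℕ) →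
      Sm (F.filter (· ∈ C)) ∨ Sm (F.filter (· ∉ C))) :
    ∃ A B C : Finset M, Sm A ∧ Sm B ∧ Sm C ∧ F ⊆ A ∪ (B ∪ C) := by
  obtain ⟨hT0, hT⟩ := hT
  obtain ⟨T, hFT, hC, hB⟩ := hT F hF
  obtain ⟨x₀, hx₀⟩ := hF
  have hem : Sm ∅ := hmono ∅ {x₀} (Finset.empty_subset _)
    (Finset.singleton_subset_iff.2 hx₀) (hsing x₀ hx₀)
  have hcut : ∀ Y ∈ T, Sm Y ∨ Sm (F \ Y) := by
    intro Y hY
    obtain ⟨C, hCk, hCY⟩ := hC Y hY
    have hYF : Y ⊆ F := (hB Y hY).2.1
    have h1 := H C (rk_le_of_cutK (lbl_bt hL S).rev hCk)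
    have e1 : F.filter (· ∈ C) = Y := by
      ext x
      rw [Finset.mem_filter]
      exact ⟨fun h => (hCY x h.1).1 h.2, fun h => ⟨hYF h, (hCY x (hYF h)).2 h⟩⟩
    have e2 : F.filter (· ∉ C) = F \ Y := by
      ext x
      rw [Finset.mem_filter, Finset.mem_sdiff]
      exact ⟨fun h => ⟨h.1, fun h' => h.2 ((hCY x h.1).2 h')⟩,
        fun h => ⟨h.1, fun h' => h.2 ((hCY x h.1).1 h')⟩⟩
    rwa [e1, e2] at h1
  obtain ⟨Y, ⟨hYT, hYs⟩, hmin⟩ : ∃ Y, (Y ∈ T ∧ Sm (F \ Y)) ∧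
      ∀ Y', (Y' ∈ T ∧ Sm (F \ Y')) → Y.card ≤ Y'.card := by
    obtain ⟨Y, hY, hm⟩ := WellFounded.has_min (measure (Finset.card (α := M))).wf
      {Y | Y ∈ T ∧ Sm (F \ Y)} ⟨F, hFT, by rwa [Finset.sdiff_self]⟩
    exact ⟨Y, hY, fun Y' hY' => not_lt.1 fun hlt => hm Y' hY' hlt⟩
  obtain ⟨hne, hYF, hdec⟩ := hB Y hYT
  by_cases hcard : 2 ≤ Y.card
  · obtain ⟨Y₁, hY₁, Y₂, hY₂, hdis, hun⟩ := hdec hcard
    have hun' : Y₁ ∪ Y₂ = Y := by
      ext x
      rw [Finset.mem_union, hun]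
    have hc : Y₁.card + Y₂.card = Y.card := by
      rw [← hun', Finset.card_union_of_disjoint hdis]
    have h1 := (hB Y₁ hY₁).1.card_pos
    have h2 := (hB Y₂ hY₂).1.card_pos
    have k1 : Sm Y₁ := (hcut Y₁ hY₁).resolve_right fun h => by
      have := hmin Y₁ ⟨hY₁, h⟩
      omega
    have k2 : Sm Y₂ := (hcut Y₂ hY₂).resolve_right fun h => by
      have := hmin Y₂ ⟨hY₂, h⟩
      omega
    refine ⟨F \ Y, Y₁, Y₂, hYs, k1, k2, fun x hx => ?_⟩
    rw [hun', Finset.mem_union, Finset.mem_sdiff]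
    by_cases hxY : x ∈ Y
    · exact Or.inr hxY
    · exact Or.inl ⟨hx, hxY⟩
  · have hc1 : Y.card = 1 := by
      have := hne.card_pos
      omega
    obtain ⟨y, rfl⟩ := Finset.card_eq_one.1 hc1
    have hy : y ∈ F := hYF (Finset.mem_singleton_self y)
    refine ⟨F \ {y}, {y}, {y}, hYs, hsing y hy, hsing y hy, fun x hx => ?_⟩
    rw [Finset.union_self, Finset.mem_union, Finset.mem_sdiff]
    by_cases hxY : x ∈ ({y} : Finset M)
    · exact Or.inr hxY
    · exact Or.inl ⟨hx, hxY⟩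

/-- points are cuts of bounded rank -/
theorem rk_singleton (hL : Ar2 L) {k : ℕ} (hT : CTree (bt S) k) (x : M) :
    rk (bt S) univ {x} ≤ (2 * k : ℕ) := rk_le_of_cutK (lbl_bt hL S).rev (hT.1 x)

end Pool.Agent.CW

end
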