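import Pool.Agent.CW.NEb
import Pool.Agent.CW.CLB
import Pool.Agent.VB.K

/-!
# Tools for Vaught's conjecture, part 12: clique-width, case A

Merged file (to shorten the import chain): contents, unchanged, of
`Pool.Agent.CW.CAD`, `Pool.Agent.CW.CAn`, `Pool.Agent.CW.CAa`, `Pool.Agent.CW.CAb`, `Pool.Agent.CW.CAc`, `Pool.Agent.CW.CAd`, `Pool.Agent.CW.CAe`, `Pool.Agent.CW.CAx`, `Pool.Agent.CW.CaseA`.
-/

/-! ### formerly `Pool.Agent.CW.CAD` -/

section

/-!
# CW, module CAD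
-/

set_option autoImplicit false
set_option linter.unusedSectionVars false
set_option linter.unusedVariables false

namespace Pool.Agent.CW

open Set Pool.Agent.Helper5 Pool.Agent.Helper5.DU Pool.Agent.Helper6.Str
  Pool.Agent.Helper79.VC Pool.Agent.Helper97.VC Pool.Agent.Helper97.MD Pool.Agent.Helper6.VC
  Pool.Agent.Helper97.LO

open scoped Classical

variable {L : FirstOrder.Language.{0, 0}} [∀ n, IsEmpty (L.Functions n)]
  [∀ n, Countable (L.Relations n)] {M N : Type} {K : Set (L.Structure ℕ)} {δ : Ordinal.{0}}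
  {S : L.Structure M}

/-- data for case A -/
structure CAD (S : L.Structure M) (δ : Ordinal.{0}) (P Q G : ℕ → Finset M) (X B : ℕ → Set M)
    (lam : ℕ → Ordinal.{0}) : Prop where
  ok : ∀ m, Ok (bt S) univ (P m) (Q m)
  eq : ∀ m, X m = Bs (bt S) univ (P m) (Q m)
  disj : ∀ m m', m ≠ m' → ∀ x ∈ X m, x ∉ X m'
  wild : ∀ m, ¬ TT S (X m)
  rc : ∀ m, RC S univ (X m) (G m)
  parP : ∀ m, (P m : Set M) ⊆ B 0
  parQ : ∀ m, (Q m : Set M) ⊆ B 0
  parG : ∀ m, (G m : Set M) ⊆ B 0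
  mono : ∀ n, B n ⊆ B (n + 1)
  ctb : ∀ n, (B n).Countable
  gd : ∀ n, Gd (lam n)
  lt : ∀ n, lam n < lam (n + 1)
  clo : ∀ n, CloA S (lam n) (B n)
  del : δ < lam 0
  lvY : ∀ (P' Q' : Finset M) (m : ℕ), Ok (bt S) univ P' Q' →
    TT S (Bs (bt S) univ P' Q' ∩ X m) →
      ∃ ζ < lam 0, Lv S univ (Bs (bt S) univ P' Q' ∩ X m) ζ
  lvB : ∀ (n : ℕ) (P' Q' : Finset M), Ok (bt S) (B n) P' Q' →
    ∃ ζ < lam (n + 1), Lv S (B n) (Bs (bt S) (B n) P' Q') ζ
  lvN : ∀ (n : ℕ) (g : ℕ → Bool) (P' Q' : Finset M), Ok (bt S) (NE X B (ee g n)) P' Q' →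
    ∃ ζ < lam (n + 1), Lv S (NE X B (ee g n)) (Bs (bt S) (NE X B (ee g n)) P' Q') ζ

variable {P Q G : ℕ → Finset M} {X B : ℕ → Set M} {lam : ℕ → Ordinal.{0}}

theorem CAD.lam_mono (h : CAD S δ P Q G X B lam) {n m : ℕ} (hnm : n ≤ m) : lam n ≤ lam m :=
  monotone_nat_of_le_succ (fun k => (h.lt k).le) hnm

theorem CAD.B_mono (h : CAD S δ P Q G X B lam) {n m : ℕ} (hnm : n ≤ m) : B n ⊆ B m :=
  monotone_nat_of_le_succ h.mono hnm

theorem CAD.rkX (h : CAD S δ P Q G X B lam) (m : ℕ) : rk (bt S) univ (X m) ≠ ⊤ := by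
  rw [h.eq m, rk_bs (h.ok m)]
  exact ENat.natCast_ne_top _

theorem CAD.cloX (h : CAD S δ P Q G X B lam) (m n : ℕ) {γ : Ordinal.{0}} (hγ : γ < lam n) :
    CloC S (X m) (G m : Set M) γ (B n) := by
  have h0 : B 0 ⊆ B n := h.B_mono (Nat.zero_le n)
  rw [h.eq m]
  refine cloC_bs ((h.parP m).trans h0) ((h.parQ m).trans h0) ((h.parG m).trans h0)
    (h.clo n _ ((h.gd n).add _ (h.gd n).om _ hγ))

end Pool.Agent.CW

end

/-! ### formerly `Pool.Agent.CW.CAn` -/

section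

/-!
# CW, module CAn
-/

set_option autoImplicit false
set_option linter.unusedSectionVars false
set_option linter.unusedVariables false

namespace Pool.Agent.CW

open Set Pool.Agent.Helper5 Pool.Agent.Helper5.DU Pool.Agent.Helper6.Str
  Pool.Agent.Helper79.VC Pool.Agent.Helper97.VC Pool.Agent.Helper97.MD Pool.Agent.Helper6.VC
  Pool.Agent.Helper97.LO

open scoped Classical

variable {L : FirstOrder.Language.{0, 0}} [∀ n, IsEmpty (L.Functions n)]
  [∀ n, Countable (L.Relations n)] {M N : Type} {K : Set (L.Structure ℕ)} {δ : Ordinal.{0}}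
  {S : L.Structure M}

variable {P Q G : ℕ → Finset M} {X B : ℕ → Set M} {lam : ℕ → Ordinal.{0}}

/-- the case of a point in a piece -/
private theorem CAn_in (hL : Ar2 L) (h : CAD S δ P Q G X B lam) (e : ℕ → ℕ)
    {γ : Ordinal.{0}} (hγ : γ < lam 0) (F : Finset M) (hF : (F : Set M) ⊆ NE X B e) {c : M}
    {m : ℕ} (hc : c ∈ X m) :
    ∃ d ∈ NE X B e, BFR S S univ univ γ (insert (c, d) (dg (F : Set M))) := by
  obtain ⟨d, hd, hb⟩ := h.cloX m (e m) (hγ.trans_le (h.lam_mono (Nat.zero_le _)))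
    (F.filter fun x => x ∈ X m) (by
      intro x hx
      have hx' := Finset.mem_filter.1 hx
      rw [← ne_inter h.disj e m]
      exact ⟨hx'.2, hF hx'.1⟩) c hc
  refine ⟨d, Or.inr ⟨m, hd⟩, ?_⟩
  have h1 := bfr_ext hL (h.rc m) (subset_univ (X m)) (subset_univ univ)
    (p := insert (c, d) (dg ((F.filter fun x => x ∈ X m : Finset M) : Set M)))
    (by
      rintro a (rfl | ⟨x, hx, rfl⟩)
      · exact ⟨hc, hd.1⟩
      · exact ⟨(Finset.mem_filter.1 hx).2, (Finset.mem_filter.1 hx).2⟩) hb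
    (H := {x | x ∈ F ∧ x ∉ X m}) (fun x hx => ⟨mem_univ _, hx.2⟩)
  refine BFR.anti ?_ h1
  rintro a (rfl | ⟨x, hx, rfl⟩)
  · exact Or.inl (mem_insert _ _)
  · by_cases hxm : x ∈ X m
    · exact Or.inl (mem_insert_of_mem _ ⟨x, Finset.mem_filter.2 ⟨hx, hxm⟩, rfl⟩)
    · exact Or.inr ⟨x, ⟨hx, hxm⟩, rfl⟩

/-- the case of a point outside of the pieces -/
private theorem CAn_out (hL : Ar2 L) (h : CAD S δ P Q G X B lam) (e : ℕ → ℕ)
    {γ : Ordinal.{0}} (hγ : γ < lam 0) (F : Finset M) (hF : (F : Set M) ⊆ NE X B e) {c : M}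
    (hc : ∀ m, c ∉ X m) :
    ∃ d ∈ NE X B e, BFR S S univ univ γ (insert (c, d) (dg (F : Set M))) := by
  set g : Ordinal.{0} := max γ Ordinal.omega0 with hg
  have hgl : g < lam 0 := max_lt hγ (h.gd 0).om
  have hgl2 : g + Ordinal.omega0 < lam 0 := (h.gd 0).add _ hgl _ (h.gd 0).om
  -- the pieces which meet `F`
  set I : Set ℕ := {m | ∃ x ∈ F, x ∈ X m} with hI
  have hIf : I.Finite := by
    have h1 : I = ⋃ x ∈ (F : Set M), {m | x ∈ X m} := by
      ext m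
      simp [hI]
    rw [h1]
    refine F.finite_toSet.biUnion fun x _ => ?_
    refine Set.Subsingleton.finite fun m hm m' hm' => ?_
    by_contra hne
    exact h.disj m m' hne x hm hm'
  -- the moves in the pieces
  have hmv : ∀ m, ∃ (q : Set (M × M)) (F' : Finset M), (F' : Set M) ⊆ X m ∩ B 0 ∧
      Mt q (F.filter fun x => x ∈ X m) F' ∧
      (∀ a ∈ q, a.1 ∈ (F.filter fun x => x ∈ X m) ∧ a.2 ∈ F') ∧
      BFR S S (X m) (X m) g (q ∪ dg (G m : Set M)) := by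
    intro m
    obtain ⟨q, F', -, h1, h2, h3, h4⟩ := (h.cloX m 0 hgl2).move ∅
      (F.filter fun x => x ∈ X m) (by simp) (fun x hx => (Finset.mem_filter.1 hx).2)
    refine ⟨q, F', h1, h2, h3, BFR.anti ?_ h4⟩
    exact union_subset_union_left _ subset_union_left
  choose q F' h1 h2 h3 h4 using hmv
  set s : Set (M × M) := {a | (∃ m, a ∈ q m) ∨ (a.1 ∈ F ∧ a.2 = a.1 ∧ ∀ m, a.1 ∉ X m)} with hs
  have hqX : ∀ m, ∀ a ∈ q m, a.1 ∈ F ∧ a.1 ∈ X m ∧ a.2 ∈ X m := fun m a ha =>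
    ⟨(Finset.mem_filter.1 (h3 m a ha).1).1, (Finset.mem_filter.1 (h3 m a ha).1).2,
      (h1 m (h3 m a ha).2).1⟩
  -- the composed moves
  have hcomp : ∀ c' : M, (∀ m ∈ I, c' ∉ X m) → BFR S S univ univ g (insert (c', c') s) := by
    intro c' hc'
    refine ne_comp hL h.disj h.rc I (U := univ) (V := univ) (fun x _ => Iff.rfl) ?_
      (fun a _ => ⟨fun _ => mem_univ _, fun _ => mem_univ _⟩) ?_
    · rintro a (rfl | ⟨m, ha⟩ | ha)
      · exact Or.inl ⟨rfl, hc'⟩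
      · obtain ⟨ha1, ha2, ha3⟩ := hqX m a ha
        exact Or.inr ⟨m, ⟨a.1, ha1, ha2⟩, ha2, ha3⟩
      · exact Or.inl ⟨ha.2.1, fun m _ => ha.2.2 m⟩
    · intro m hm
      rw [inter_univ]
      refine BFR.anti (union_subset_union_left _ ?_) (h4 m)
      rintro a ⟨rfl | ⟨m', ha⟩ | ha, ham⟩
      · exact absurd ham (hc' m hm)
      · by_cases hmm : m = m'
        · rw [hmm]
          exact ha
        · exact absurd (hqX m' a ha).2.1 (h.disj m m' hmm a.1 ham)
      · exact absurd ham (ha.2.2 m)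
  -- the closure point
  set Fs : Finset M := (hIf.toFinset.biUnion fun m => F' m ∪ P m ∪ Q m) ∪
    F.filter (fun x => ∀ m, x ∉ X m) with hFs
  have hFsB : (Fs : Set M) ⊆ B 0 ∩ univ := by
    intro x hx
    refine ⟨?_, mem_univ _⟩
    rw [hFs, Finset.coe_union] at hx
    rcases hx with hx | hx
    · obtain ⟨m, -, hx'⟩ := Finset.mem_biUnion.1 hx
      rw [Finset.mem_union, Finset.mem_union] at hx'
      rcases hx' with (hx' | hx') | hx'
      · exact (h1 m hx').2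
      · exact h.parP m hx'
      · exact h.parQ m hx'
    · have hx' := Finset.mem_filter.1 hx
      rcases hF hx'.1 with h5 | ⟨m, h5, -⟩
      · exact h5.2
      · exact absurd h5 (hx'.2 m)
  obtain ⟨d, hd, hb⟩ := h.clo 0 g hgl Fs hFsB c (mem_univ _)
  have hdX : ∀ m ∈ I, d ∉ X m := by
    intro m hm hdm
    have hmf : m ∈ hIf.toFinset := hIf.mem_toFinset.2 hm
    have hP : Mt (dg (Fs : Set M)) (P m) (P m) := by
      refine ⟨fun x hx => ⟨x, hx, x, ?_, rfl⟩, fun x hx => ⟨x, hx, x, ?_, rfl⟩⟩ <;>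
      · refine Finset.mem_union_left _ (Finset.mem_biUnion.2 ⟨m, hmf, ?_⟩)
        exact Finset.mem_union_left _ (Finset.mem_union_right _ hx)
    have hQ : Mt (dg (Fs : Set M)) (Q m) (Q m) := by
      refine ⟨fun x hx => ⟨x, hx, x, ?_, rfl⟩, fun x hx => ⟨x, hx, x, ?_, rfl⟩⟩ <;>
      · refine Finset.mem_union_left _ (Finset.mem_biUnion.2 ⟨m, hmf, ?_⟩)
        exact Finset.mem_union_right _ hx
    have h5 := mem_bs_iff (mem_univ c) (mem_univ d) (hb.mono (le_max_right _ _)) hP hQ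
    rw [← h.eq m] at h5
    exact hc m (h5.2 hdm)
  refine ⟨d, subset_ne h.mono e hd.1, ?_⟩
  have hA := hcomp c fun m _ => hc m
  have hB := hcomp d hdX
  have hsF : ∀ x ∈ F, ∃ x' ∈ Fs, (x, x') ∈ s := by
    intro x hx
    by_cases hxX : ∃ m, x ∈ X m
    · obtain ⟨m, hm⟩ := hxX
      obtain ⟨x', hx', hxx⟩ := (h2 m).1 x (Finset.mem_filter.2 ⟨hx, hm⟩)
      refine ⟨x', Finset.mem_union_left _ (Finset.mem_biUnion.2 ⟨m, ?_, ?_⟩), Or.inl ⟨m, hxx⟩⟩
      · exact hIf.mem_toFinset.2 ⟨x, hx, hm⟩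
      · exact Finset.mem_union_left _ (Finset.mem_union_left _ hx')
    · push Not at hxX
      exact ⟨x, Finset.mem_union_right _ (Finset.mem_filter.2 ⟨hx, hxX⟩),
        Or.inr ⟨hx, rfl, hxX⟩⟩
  have hAB : BFR S S univ univ g
      {a | a = (c, d) ∨ ∃ b ∈ Fs, (a.1, b) ∈ s ∧ a.2 = b} := by
    refine hA.trans hb ?_
    rintro a (rfl | ⟨b, hb1, hb2, hb3⟩)
    · exact ⟨c, mem_insert _ _, mem_insert _ _⟩
    · refine ⟨b, mem_insert_of_mem _ hb2, mem_insert_of_mem _ ⟨b, hb1, ?_⟩⟩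
      exact Prod.ext rfl hb3.symm
  refine BFR.mono (le_max_left γ Ordinal.omega0) (hAB.trans hB.swap ?_)
  rintro a (rfl | ⟨x, hx, rfl⟩)
  · exact ⟨d, Or.inl rfl, mem_insert _ _⟩
  · obtain ⟨x', hx', hxx⟩ := hsF x hx
    exact ⟨x', Or.inr ⟨x', hx', hxx, rfl⟩, mem_insert_of_mem _ hxx⟩

/-- (A1) -/
theorem CAD.ne_clo (hL : Ar2 L) (h : CAD S δ P Q G X B lam) (e : ℕ → ℕ) :
    CloA S (lam 0) (NE X B e) := by
  intro γ hγ F hF c _
  have hF' : (F : Set M) ⊆ NE X B e := fun x hx => (hF hx).1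
  by_cases hc : ∃ m, c ∈ X m
  · obtain ⟨m, hm⟩ := hc
    obtain ⟨d, hd, hb⟩ := CAn_in hL h e hγ F hF' hm
    exact ⟨d, ⟨hd, mem_univ _⟩, hb⟩
  · push Not at hc
    obtain ⟨d, hd, hb⟩ := CAn_out hL h e hγ F hF' hc
    exact ⟨d, ⟨hd, mem_univ _⟩, hb⟩

end Pool.Agent.CW

end

/-! ### formerly `Pool.Agent.CW.CAa` -/

section

/-!
# CW, module CAa
-/

set_option autoImplicit false
set_option linter.unusedSectionVars false
set_option linter.unusedVariables false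

namespace Pool.Agent.CW

open Set Pool.Agent.Helper5 Pool.Agent.Helper5.DU Pool.Agent.Helper6.Str
  Pool.Agent.Helper79.VC Pool.Agent.Helper97.VC Pool.Agent.Helper97.MD Pool.Agent.Helper6.VC
  Pool.Agent.Helper97.LO

open scoped Classical

variable {L : FirstOrder.Language.{0, 0}} [∀ n, IsEmpty (L.Functions n)]
  [∀ n, Countable (L.Relations n)] {M N : Type} {K : Set (L.Structure ℕ)} {δ : Ordinal.{0}}
  {S : L.Structure M}

variable {P Q G : ℕ → Finset M} {X B : ℕ → Set M} {lam : ℕ → Ordinal.{0}}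

/-- (A2) -/
theorem CAD.a2 (hL : Ar2 L) (hS : VSt K δ S) (h : CAD S δ P Q G X B lam) {g : ℕ → Bool} {n : ℕ}
    (hg : g n = true) : Ok (bt S) (NE X B (ef g)) (P n) (Q n) ∧
      Jd S (NE X B (ef g)) (lam (n + 2)) (Bs (bt S) (NE X B (ef g)) (P n) (Q n)) ∧
      ¬ Jd S (NE X B (ef g)) (lam (n + 1)) (Bs (bt S) (NE X B (ef g)) (P n) (Q n)) := by
  have hN := h.ne_clo hL (ef g)
  have h0N : B 0 ⊆ NE X B (ef g) := subset_ne h.mono (ef g)
  have h0B : B 0 ⊆ B (n + 1) := h.B_mono (Nat.zero_le _)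
  have hPN := (h.parP n).trans h0N
  have hQN := (h.parQ n).trans h0N
  have hGN := (h.parG n).trans h0N
  have hPB := (h.parP n).trans h0B
  have hQB := (h.parQ n).trans h0B
  have hGB := (h.parG n).trans h0B
  have he : ef g n = n + 1 := by simp [ef, hg]
  have hXN : X n ∩ NE X B (ef g) = X n ∩ B (n + 1) := by
    rw [ne_inter h.disj, he]
  have e1 : Bs (bt S) (NE X B (ef g)) (P n) (Q n) = X n ∩ NE X B (ef g) := by
    rw [hN.bs (h.gd 0) hPN hQN, ← h.eq n]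
  have e2 : Bs (bt S) (B (n + 1)) (P n) (Q n) = X n ∩ NE X B (ef g) := by
    rw [(h.clo (n + 1)).bs (h.gd (n + 1)) hPB hQB, ← h.eq n, hXN]
  have okN : Ok (bt S) (NE X B (ef g)) (P n) (Q n) := (hN.ok (h.gd 0) hPN hQN).2 (h.ok n)
  have okB : Ok (bt S) (B (n + 1)) (P n) (Q n) :=
    ((h.clo (n + 1)).ok (h.gd (n + 1)) hPB hQB).2 (h.ok n)
  have key : ∀ {μ : Ordinal.{0}}, Gd μ → (Jd S (NE X B (ef g)) μ (X n ∩ NE X B (ef g)) ↔
      Jd S (B (n + 1)) μ (X n ∩ NE X B (ef g))) := fun hμ =>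
    jd_id (h.rc n) (h.rkX n) hGN hGB hXN hL subset_rfl hμ
  refine ⟨okN, ?_, ?_⟩
  · rw [e1, key (h.gd (n + 2)), ← e2]
    obtain ⟨ζ, hζ, hlv⟩ := h.lvB (n + 1) (P n) (Q n) okB
    refine jd_of_lv hL (h.gd (n + 2)) hζ (bs_subset hPB) hlv ?_
    rw [rk_bs okB]
    exact ENat.natCast_ne_top _
  · rw [e1, key (h.gd (n + 1)), ← e2, (h.clo (n + 1)).jd hL (h.gd (n + 1)) hPB hQB, ← h.eq n]
    exact fun hJ => h.wild n (tt_of_jd hL hS (h.rkX n) (h.gd (n + 1)).lt.le hJ)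

end Pool.Agent.CW

end

/-! ### formerly `Pool.Agent.CW.CAb` -/

section

/-!
# CW, module CAb
-/

set_option autoImplicit false
set_option linter.unusedSectionVars false
set_option linter.unusedVariables false

namespace Pool.Agent.CW

open Set Pool.Agent.Helper5 Pool.Agent.Helper5.DU Pool.Agent.Helper6.Str
  Pool.Agent.Helper79.VC Pool.Agent.Helper97.VC Pool.Agent.Helper97.MD Pool.Agent.Helper6.VC
  Pool.Agent.Helper97.LO

open scoped Classical

variable {L : FirstOrder.Language.{0, 0}} [∀ n, IsEmpty (L.Functions n)]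
  [∀ n, Countable (L.Relations n)] {M N : Type} {K : Set (L.Structure ℕ)} {δ : Ordinal.{0}}
  {S : L.Structure M}

variable {P Q G : ℕ → Finset M} {X B : ℕ → Set M} {lam : ℕ → Ordinal.{0}}

/-- (A3), first part -/
theorem CAD.a3a (hL : Ar2 L) (hS : VSt K δ S) (h : CAD S δ P Q G X B lam) {g : ℕ → Bool} {n : ℕ}
    {P' Q' : Finset M} (hOk : Ok (bt S) (NE X B (ef g)) P' Q')
    (hJ : Jd S (NE X B (ef g)) (lam (n + 2)) (Bs (bt S) (NE X B (ef g)) P' Q')) {m : ℕ}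
    (hm : n < m) (hg : g m = true) : TT S (Bs (bt S) univ P' Q' ∩ X m) := by
  have hN := h.ne_clo hL (ef g)
  have h0N : B 0 ⊆ NE X B (ef g) := subset_ne h.mono (ef g)
  have h0B : B 0 ⊆ B (m + 1) := h.B_mono (Nat.zero_le _)
  have hGN := (h.parG m).trans h0N
  have hGB := (h.parG m).trans h0B
  have he : ef g m = m + 1 := by simp [ef, hg]
  have hXN : X m ∩ NE X B (ef g) = X m ∩ B (m + 1) := by
    rw [ne_inter h.disj, he]
  have okU : Ok (bt S) univ P' Q' := (hN.ok (h.gd 0) hOk.left hOk.right).1 hOk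
  have hBs : Bs (bt S) (NE X B (ef g)) P' Q' = Bs (bt S) univ P' Q' ∩ NE X B (ef g) :=
    hN.bs (h.gd 0) hOk.left hOk.right
  have hrk : rk (bt S) univ (Bs (bt S) univ P' Q' ∩ X m) ≠ ⊤ := by
    refine ne_top_of_le_ne_top ?_ (rk_inter_le _ _ _ _)
    rw [rk_bs okU]
    exact WithTop.add_ne_top.mpr ⟨ENat.natCast_ne_top _, h.rkX m⟩
  -- the piece in `B (m + 1)`
  have hJ1 : Jd S (NE X B (ef g)) (lam (m + 1))
      (X m ∩ Bs (bt S) (NE X B (ef g)) P' Q') :=
    hJ.mono inter_subset_right (h.lam_mono (by omega))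
  have hsub : X m ∩ Bs (bt S) (NE X B (ef g)) P' Q' ⊆ X m ∩ NE X B (ef g) :=
    inter_subset_inter_right _ (bs_subset hOk.left)
  have hJ2 : Jd S (B (m + 1)) (lam (m + 1)) (X m ∩ Bs (bt S) (NE X B (ef g)) P' Q') :=
    (jd_id (h.rc m) (h.rkX m) hGN hGB hXN hL hsub (h.gd (m + 1))).1 hJ1
  obtain ⟨z, hz, k, hcov⟩ := hJ2
  have hzo : z < om1 := hz.trans (h.gd (m + 1)).lt
  refine tt_of_covS hL hS hrk (k := k) hzo ?_
  intro F hF
  -- the finite set is moved in the piece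
  let F₀ : Finset M := (P' ∪ Q').filter (· ∈ X m)
  have hF₀ : (F₀ : Set M) ⊆ X m ∩ B (m + 1) := by
    intro x hx
    have h1 := Finset.mem_filter.mp (Finset.mem_coe.mp hx)
    rw [← hXN]
    refine ⟨h1.2, ?_⟩
    rcases Finset.mem_union.mp h1.1 with h2 | h2
    · exact hOk.left h2
    · exact hOk.right h2
  have hγ : up z + Ordinal.omega0 + Ordinal.omega0 < lam (m + 1) := gd_up (h.gd (m + 1)) hz
  obtain ⟨q, F', hqf, hF', hMt, hqF, hb⟩ := (h.cloX m (m + 1) hγ).move F₀ F hF₀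
    (fun x hx => (hF hx).2)
  have hFX : (F : Set M) ⊆ X m := fun x hx => (hF hx).2
  have hp : ∀ a ∈ q ∪ dg (F₀ : Set M), a.1 ∈ X m ∧ a.2 ∈ X m := by
    rintro a (ha | ⟨x, hx, rfl⟩)
    · exact ⟨hFX (hqF a ha).1, (hF' (hqF a ha).2).1⟩
    · exact ⟨(hF₀ hx).1, (hF₀ hx).1⟩
  have hb1 : BFR S S univ univ (up z + Ordinal.omega0)
      ((q ∪ dg (F₀ : Set M)) ∪ dg (univ \ X m)) :=
    bfr_ext hL (h.rc m) (subset_univ _) subset_rfl hp hb subset_rfl
  have hdgPQ : dg ((P' ∪ Q' : Finset M) : Set M) ⊆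
      (q ∪ dg (F₀ : Set M)) ∪ dg (univ \ X m) := by
    rintro _ ⟨x, hx, rfl⟩
    by_cases hxX : x ∈ X m
    · exact Or.inl (Or.inr ⟨x, Finset.mem_coe.mpr (Finset.mem_filter.mpr ⟨hx, hxX⟩), rfl⟩)
    · exact Or.inr ⟨x, ⟨mem_univ _, hxX⟩, rfl⟩
  have hF'V : (F' : Set M) ⊆ X m ∩ Bs (bt S) (NE X B (ef g)) P' Q' := by
    intro x' hx'
    obtain ⟨x, hx, hxx⟩ := hMt.2 x' hx'
    have h1 : x ∈ Bs (bt S) univ P' Q' := (hF hx).1
    have hb2 : BFR S S univ univ Ordinal.omega0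
        (insert (x, x') ((q ∪ dg (F₀ : Set M)) ∪ dg (univ \ X m))) := by
      refine BFR.anti ?_ (hb1.mono le_add_self)
      rintro a (rfl | ha)
      · exact Or.inl (Or.inl hxx)
      · exact ha
    have h2 : x' ∈ Bs (bt S) univ P' Q' :=
      (mem_bs_iff (mem_univ x) (mem_univ x') hb2
        (mt_dg P' ((image_mono (by
          intro y hy
          exact Finset.mem_coe.mpr (Finset.mem_union_left _ hy))).trans hdgPQ))
        (mt_dg Q' ((image_mono (by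
          intro y hy
          exact Finset.mem_coe.mpr (Finset.mem_union_right _ hy))).trans hdgPQ))).1 h1
    have h3 := hF' hx'
    have h4 : x' ∈ X m ∩ NE X B (ef g) := by
      rw [hXN]
      exact h3
    rw [hBs]
    exact ⟨h3.1, h2, h4.2⟩
  have hc1 : Cov S (B (m + 1)) F' k z := hcov F' hF'V
  have hc2 : Cov S univ F' k z :=
    ((h.clo (m + 1)).cov hL (h.gd (m + 1)) hz (fun x hx => (hF' hx).2)).1 hc1
  exact (cov_iff hL hzo hb1 (subset_univ _) (subset_univ _)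
    (hMt.mono (subset_union_left.trans subset_union_left))).2 hc2

theorem CAD.a3b (hL : Ar2 L) (hS : VSt K δ S) (h : CAD S δ P Q G X B lam) {g : ℕ → Bool} {n : ℕ}
    {P' Q' : Finset M} (hOk : Ok (bt S) (NE X B (ef g)) P' Q')
    (hJ : Jd S (NE X B (ef g)) (lam (n + 2)) (Bs (bt S) (NE X B (ef g)) P' Q')) {m : ℕ}
    (hm : n < m) (hg : g m = true) :
    ∃ ζ < lam 0, Lv S (NE X B (ef g)) (X m ∩ Bs (bt S) (NE X B (ef g)) P' Q') ζ := by
  have hN := h.ne_clo hL (ef g)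
  have h0N : B 0 ⊆ NE X B (ef g) := subset_ne h.mono (ef g)
  have hPN := (h.parP m).trans h0N
  have hQN := (h.parQ m).trans h0N
  have okU : Ok (bt S) univ P' Q' := (hN.ok (h.gd 0) hOk.left hOk.right).1 hOk
  obtain ⟨ζ, hζ, hlv⟩ := h.lvY P' Q' m okU (h.a3a hL hS hOk hJ hm hg)
  refine ⟨ζ, hζ, ?_⟩
  have okN : Ok (bt S) (NE X B (ef g)) (P m) (Q m) := (hN.ok (h.gd 0) hPN hQN).2 (h.ok m)
  rw [h.eq m] at hlv
  have h1 := hN.lv hL (h.gd 0) hζ hOk okN hlv
  have h2 : Bs (bt S) (NE X B (ef g)) (P m) (Q m) = X m ∩ NE X B (ef g) := by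
    rw [hN.bs (h.gd 0) hPN hQN, ← h.eq m]
  rw [h2] at h1
  have h3 : X m ∩ Bs (bt S) (NE X B (ef g)) P' Q' =
      Bs (bt S) (NE X B (ef g)) P' Q' ∩ (X m ∩ NE X B (ef g)) := by
    ext x
    constructor
    · rintro ⟨hx1, hx2⟩
      exact ⟨hx2, hx1, bs_subset hOk.left hx2⟩
    · rintro ⟨hx1, hx2, hx3⟩
      exact ⟨hx2, hx1⟩
  rw [h3]
  exact h1

end Pool.Agent.CW

end

/-! ### formerly `Pool.Agent.CW.CAc` -/

section

/-!
# CW, module CAc
-/

set_option autoImplicit false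
set_option linter.unusedSectionVars false
set_option linter.unusedVariables false

namespace Pool.Agent.CW

open Set Pool.Agent.Helper5 Pool.Agent.Helper5.DU Pool.Agent.Helper6.Str
  Pool.Agent.Helper79.VC Pool.Agent.Helper97.VC Pool.Agent.Helper97.MD Pool.Agent.Helper6.VC
  Pool.Agent.Helper97.LO

open scoped Classical

variable {L : FirstOrder.Language.{0, 0}} [∀ n, IsEmpty (L.Functions n)] {M N : Type}
  {S : L.Structure M}

/-- representatives for a subset of a piece -/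
private theorem CAc_rc {X N W : Set M} {G G0 E : Finset M} (hG : RC S univ X G)
    (hG0 : RC S N W G0) (hGN : (G : Set M) ⊆ N) (hWX : W ⊆ X)
    (hE : (E : Set M) ⊆ N \ W) (hG0E : ∀ g ∈ G0, g ∈ X → g ∈ E) : RC S N W (E ∪ G) := by
  refine ⟨?_, fun y hyN hyW => ?_⟩
  · intro g hg
    rw [Finset.coe_union] at hg
    rcases hg with hg | hg
    · exact hE hg
    · exact ⟨hGN hg, fun h => (hG.1 hg).2 (hWX h)⟩
  · obtain ⟨g0, hg0, h0⟩ := hG0.2 y hyN hyW
    by_cases hX : g0 ∈ X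
    · exact ⟨g0, Finset.mem_union_left _ (hG0E g0 hg0 hX), h0⟩
    · obtain ⟨g, hg, h1⟩ := hG.2 g0 (mem_univ _) hX
      exact ⟨g, Finset.mem_union_right _ hg, fun x hx => (h0 x hx).trans (h1 x (hWX hx))⟩

/-- (A3), moving a finite set in one piece -/
theorem piece_move (hL : Ar2 L) {X A A' N : Set M} {G : Finset M} (hG : RC S univ X G)
    {lam : Ordinal.{0}} (hlam : Gd lam) (hA : ∀ γ < lam, CloC S X (G : Set M) γ A)
    (hA' : ∀ γ < lam, CloC S X (G : Set M) γ A') (hNA : X ∩ N = X ∩ A)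
    (hGN : (G : Set M) ⊆ N) {W : Set M} (hW : W ⊆ X ∩ A) (hrW : rk (bt S) N W ≠ ⊤)
    {ζ : Ordinal.{0}} (hζ : ζ < lam) (hlv : Lv S N W ζ) {γ₀ : Ordinal.{0}} (hγ₀ : γ₀ < lam)
    (D : Finset M) (hD : (D : Set M) ⊆ X ∩ A) :
    ∃ q : Set (M × M), q.Finite ∧ (∀ a ∈ q, a.1 ∈ X ∩ A ∧ a.2 ∈ X ∩ A') ∧
      (∀ d ∈ D, ∃ d', (d, d') ∈ q) ∧
      BFR S S (X ∩ A) (X ∩ A') γ₀ (q ∪ dg (G : Set M)) ∧
      ∀ W' ⊆ X ∩ A', (∀ x ∈ X ∩ A, ∀ x' ∈ X ∩ A', BFR S S (X ∩ A) (X ∩ A') Ordinal.omega0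
        (insert (x, x') (q ∪ dg (G : Set M))) → (x ∈ W ↔ x' ∈ W')) →
      ∀ γ, BFR S S W W' γ (q ∪ dg (G : Set M)) := by
  have hWN : W ⊆ N := fun x hx => by
    have h1 := hW hx
    rw [← hNA] at h1
    exact h1.2
  have hWX : W ⊆ X := fun x hx => (hW hx).1
  obtain ⟨G0, hG0⟩ := exists_rc hrW
  set E : Finset M := (G0.filter fun g => g ∈ X) ∪ (D.filter fun d => d ∉ W) with hE
  have hDN : ∀ d ∈ D, d ∈ X ∧ d ∈ N := fun d hd => by
    have h1 := hD hd
    rw [← hNA] at h1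
    exact h1
  have hEs : (E : Set M) ⊆ N \ W := by
    intro g hg
    rw [hE, Finset.coe_union] at hg
    rcases hg with hg | hg
    · exact hG0.1 (Finset.mem_filter.1 hg).1
    · exact ⟨(hDN g (Finset.mem_filter.1 hg).1).2, (Finset.mem_filter.1 hg).2⟩
  have hEXA : (E : Set M) ⊆ X ∩ A := by
    intro g hg
    rw [← hNA]
    refine ⟨?_, (hEs hg).1⟩
    rw [hE, Finset.coe_union] at hg
    rcases hg with hg | hg
    · exact (Finset.mem_filter.1 hg).2
    · exact (hDN g (Finset.mem_filter.1 hg).1).1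
  have hRC : RC S N W (E ∪ G) := CAc_rc hG hG0 hGN hWX hEs fun g hg hgX =>
    Finset.mem_union_left _ (Finset.mem_filter.2 ⟨hg, hgX⟩)
  set g1 : Ordinal.{0} := max γ₀ (Ordinal.omega0 + (ζ + Ordinal.omega0)) with hg1
  have hg1l : g1 < lam := max_lt hγ₀ (hlam.add _ hlam.om _ (hlam.add _ hζ _ hlam.om))
  obtain ⟨q, F', hqf, hF', hMt, hqF, hb⟩ := (hA' (g1 + Ordinal.omega0)
    (hlam.add _ hg1l _ hlam.om)).move ∅ (D ∪ E) (by simp) (by
      intro x hx
      rw [Finset.coe_union] at hx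
      rcases hx with hx | hx
      · exact (hD hx).1
      · exact (hEXA hx).1)
  have hqX : ∀ a ∈ q, a.1 ∈ X ∩ A ∧ a.2 ∈ X ∩ A' := by
    intro a ha
    refine ⟨?_, hF' (hqF a ha).2⟩
    have h1 := (hqF a ha).1
    rw [Finset.mem_union] at h1
    rcases h1 with h1 | h1
    · exact hD h1
    · exact hEXA h1
  have hb1 : BFR S S X X g1 (q ∪ dg (G : Set M)) :=
    BFR.anti (union_subset_union_left _ subset_union_left) hb
  have hb2 : BFR S S X (X ∩ A') g1 (q ∪ dg (G : Set M)) := by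
    refine ((hA' g1 hg1l).rel hqf (fun a ha => (hqX a ha).2) ?_ hb1)
    rintro _ ⟨g, hg, rfl⟩
    exact hg
  have hb3 : BFR S S (X ∩ A) (X ∩ A') g1 (q ∪ dg (G : Set M)) := by
    refine ((hA g1 hg1l).rel' hqf (fun a ha => (hqX a ha).1) ?_ hb2)
    rintro _ ⟨g, hg, rfl⟩
    exact hg
  refine ⟨q, hqf, hqX, ?_, hb3.mono (le_max_left _ _), ?_⟩
  · intro d hd
    obtain ⟨d', -, hdd⟩ := hMt.1 d (Finset.mem_union_left _ hd)
    exact ⟨d', hdd⟩
  · intro W' hW' H γ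
    have hζ1 : ζ < om1 := hζ.trans hlam.lt
    have hb4 : BFR S S W W' (ζ + Ordinal.omega0) (q ∪ dg (G : Set M)) :=
      BFR.restr hW hW' Ordinal.omega0 (ζ + Ordinal.omega0) H
        (hb3.mono (le_max_right _ _))
    have hom : Ordinal.omega0 ≤ g1 := by
      refine le_trans ?_ (le_max_right _ _)
      exact le_self_add
    set q1 : Set (M × M) := {a | a ∈ q ∧ a.1 ∈ E} ∪ dg (G : Set M) with hq1
    set p1 : Set (M × M) := {a | a ∈ q ∧ a.1 ∈ W} with hp1
    have hq1s : q1 ⊆ q ∪ dg (G : Set M) := by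
      rintro a (ha | ha)
      · exact Or.inl ha.1
      · exact Or.inr ha
    have hp1s : p1 ⊆ q := fun a ha => ha.1
    have hq1f : q1.Finite :=
      (hqf.subset fun a ha => ha.1).union ((Finset.finite_toSet G).image _)
    have hcov : q ∪ dg (G : Set M) ⊆ p1 ∪ q1 := by
      rintro a (ha | ha)
      · by_cases hE' : a.1 ∈ E
        · exact Or.inr (Or.inl ⟨ha, hE'⟩)
        · have h1 := (hqF a ha).1
          rw [Finset.mem_union] at h1
          rcases h1 with h1 | h1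
          · refine Or.inl ⟨ha, ?_⟩
            by_contra hcon
            exact hE' (Finset.mem_union_right _ (Finset.mem_filter.2 ⟨h1, hcon⟩))
          · exact absurd h1 hE'
      · exact Or.inr (Or.inr ha)
    have hMt1 : Mt q1 (E ∪ G) (hq1f.toFinset.image Prod.snd) := by
      refine ⟨fun x hx => ?_, fun y hy => ?_⟩
      · rw [Finset.mem_union] at hx
        rcases hx with hx | hx
        · obtain ⟨y, -, hxy⟩ := hMt.1 x (Finset.mem_union_right _ hx)
          have hm : (x, y) ∈ q1 := Or.inl ⟨hxy, hx⟩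
          exact ⟨y, Finset.mem_image.2 ⟨(x, y), hq1f.mem_toFinset.2 hm, rfl⟩, hm⟩
        · have hm : (x, x) ∈ q1 := Or.inr ⟨x, hx, rfl⟩
          exact ⟨x, Finset.mem_image.2 ⟨(x, x), hq1f.mem_toFinset.2 hm, rfl⟩, hm⟩
      · obtain ⟨a, ha, rfl⟩ := Finset.mem_image.1 hy
        have ha' := hq1f.mem_toFinset.1 ha
        refine ⟨a.1, ?_, ha'⟩
        rcases ha' with ha' | ⟨g, hg, rfl⟩
        · exact Finset.mem_union_left _ ha'.2
        · exact Finset.mem_union_right _ hg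
    have hqG1 : ∀ a ∈ q1, a.1 ∈ E ∪ G ∧ a.2 ∈ hq1f.toFinset.image Prod.snd := by
      intro a ha
      refine ⟨?_, Finset.mem_image.2 ⟨a, hq1f.mem_toFinset.2 ha, rfl⟩⟩
      rcases ha with ha | ⟨g, hg, rfl⟩
      · exact Finset.mem_union_left _ ha.2
      · exact Finset.mem_union_right _ hg
    have hpX : ∀ a ∈ p1, a.1 ∈ W ∧ a.2 ∈ W' := by
      intro a ha
      refine ⟨ha.2, (H a.1 (hqX a ha.1).1 a.2 (hqX a ha.1).2 ?_).1 ha.2⟩
      refine BFR.anti ?_ (hb3.mono hom)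
      rintro b (rfl | hb)
      · exact Or.inl ha.1
      · exact hb
    have hfin := Lv.det hL hζ1 hWN hRC hlv hq1f hMt1 hqG1
      (BFR.anti hq1s hb4) (hqf.subset hp1s) hpX
      (BFR.anti (union_subset (hp1s.trans subset_union_left) hq1s)
        (hb4.mono le_self_add)) γ
    exact BFR.anti hcov hfin

end Pool.Agent.CW

end

/-! ### formerly `Pool.Agent.CW.CAd` -/

section

/-!
# CW, module CAd
-/

set_option autoImplicit false
set_option linter.unusedSectionVars false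
set_option linter.unusedVariables false

namespace Pool.Agent.CW

open Set Pool.Agent.Helper5 Pool.Agent.Helper5.DU Pool.Agent.Helper6.Str
  Pool.Agent.Helper79.VC Pool.Agent.Helper97.VC Pool.Agent.Helper97.MD Pool.Agent.Helper6.VC
  Pool.Agent.Helper97.LO

open scoped Classical

variable {L : FirstOrder.Language.{0, 0}} [∀ n, IsEmpty (L.Functions n)]
  [∀ n, Countable (L.Relations n)] {M N : Type} {K : Set (L.Structure ℕ)} {δ : Ordinal.{0}}
  {S : L.Structure M}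

variable {P Q G : ℕ → Finset M} {X B : ℕ → Set M} {lam : ℕ → Ordinal.{0}}

/-- (A3), second part -/
theorem CAD.a3d (hL : Ar2 L) (h : CAD S δ P Q G X B lam) {g : ℕ → Bool} {n : ℕ}
    (hg : g n = false) {P' Q' : Finset M} (hOk : Ok (bt S) (NE X B (ef g)) P' Q')
    (H : ∀ m, n < m → g m = true →
      ∃ ζ < lam 0, Lv S (NE X B (ef g)) (X m ∩ Bs (bt S) (NE X B (ef g)) P' Q') ζ) :
    ∃ ζ < lam (n + 1), Lv S (NE X B (ef g)) (Bs (bt S) (NE X B (ef g)) P' Q') ζ := by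
  set N₁ : Set M := NE X B (ef g) with hN
  set N₂ : Set M := NE X B (ee g n) with hN'
  set V : Set M := Bs (bt S) N₁ P' Q' with hV
  set I : Set ℕ := {m | n < m ∧ g m = true} with hI
  have hVN : V ⊆ N₁ := bs_subset hOk.left
  have hB0N : B 0 ⊆ N₁ := subset_ne h.mono _
  have hB0N' : B 0 ⊆ N₂ := subset_ne h.mono _
  have hXN : ∀ m ∈ I, X m ∩ N₁ = X m ∩ B (m + 1) := by
    intro m hm
    have h1 : ef g m = m + 1 := by
      unfold ef
      rw [if_pos hm.2]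
    rw [hN, ne_inter h.disj, h1]
  have hXN' : ∀ m ∈ I, X m ∩ N₂ = X m ∩ B 0 := by
    intro m hm
    have h1 : ee g n m = 0 := by
      unfold ee
      rw [if_neg (not_lt.2 hm.1.le)]
    rw [hN', ne_inter h.disj, h1]
  have hout : ∀ x, (∀ m ∈ I, x ∉ X m) → (x ∈ N₁ ↔ x ∈ N₂) := by
    intro x hx
    refine mem_ne_iff h.disj fun m hm => ?_
    have hmI : m ∉ I := fun hmI => hx m hmI hm
    unfold ee
    split_ifs with h1
    · rfl
    · unfold ef
      rcases eq_or_lt_of_le (not_lt.1 h1) with h2 | h2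
      · rw [← h2, hg]
        rfl
      · have h3 : ¬ g m = true := fun h3 => hmI ⟨h2, h3⟩
        rw [if_neg h3]
  have hrV : rk (bt S) N₁ V ≠ ⊤ := by
    rw [hV, rk_bs hOk]
    exact ENat.natCast_ne_top _
  obtain ⟨G1, hG1⟩ := exists_rc hrV
  set D0 : Finset M := P' ∪ Q' ∪ G1 with hD0
  have hD0N : ∀ d ∈ D0, d ∈ N₁ := by
    intro d hd
    rw [hD0, Finset.mem_union, Finset.mem_union] at hd
    rcases hd with (hd | hd) | hd
    · exact hOk.left hd
    · exact hOk.right hd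
    · exact (hG1.1 hd).1
  have hlam0 := h.gd 0
  have hww : Ordinal.omega0 + Ordinal.omega0 < lam 0 := hlam0.add _ hlam0.om _ hlam0.om
  -- the pieces
  have hpiece : ∀ m, ∃ q : Set (M × M), m ∈ I → q.Finite ∧
      (∀ a ∈ q, a.1 ∈ X m ∩ B (m + 1) ∧ a.2 ∈ X m ∩ B 0) ∧
      (∀ d ∈ D0, d ∈ X m → ∃ d', (d, d') ∈ q) ∧
      BFR S S (X m ∩ B (m + 1)) (X m ∩ B 0) (Ordinal.omega0 + Ordinal.omega0)
        (q ∪ dg (G m : Set M)) ∧
      ∀ W' ⊆ X m ∩ B 0, (∀ x ∈ X m ∩ B (m + 1), ∀ x' ∈ X m ∩ B 0,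
        BFR S S (X m ∩ B (m + 1)) (X m ∩ B 0) Ordinal.omega0
          (insert (x, x') (q ∪ dg (G m : Set M))) → (x ∈ X m ∩ V ↔ x' ∈ W')) →
      ∀ γ, BFR S S (X m ∩ V) W' γ (q ∪ dg (G m : Set M)) := by
    intro m
    by_cases hm : m ∈ I
    · obtain ⟨ζ, hζ, hlv⟩ := H m hm.1 hm.2
      have hW : X m ∩ V ⊆ X m ∩ B (m + 1) := by
        rw [← hXN m hm]
        exact inter_subset_inter_right _ hVN
      have hrW : rk (bt S) N₁ (X m ∩ V) ≠ ⊤ := by
        have h1 : X m ∩ V = (X m ∩ N₁) ∩ V := by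
          ext x
          constructor
          · rintro ⟨h1, h2⟩
            exact ⟨⟨h1, hVN h2⟩, h2⟩
          · rintro ⟨⟨h1, -⟩, h2⟩
            exact ⟨h1, h2⟩
        rw [h1]
        refine ne_top_of_le_ne_top ?_ (rk_inter_le _ _ _ _)
        exact WithTop.add_ne_top.2 ⟨rk_inter_univ (h.rkX m), hrV⟩
      obtain ⟨q, h1, h2, h3, h4, h5⟩ := piece_move hL (h.rc m) hlam0 (A := B (m + 1)) (A' := B 0)
        (fun γ hγ => h.cloX m (m + 1) (hγ.trans_le (h.lam_mono (Nat.zero_le _))))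
        (fun γ hγ => h.cloX m 0 hγ) (hXN m hm) ((h.parG m).trans hB0N) hW hrW hζ hlv hww
        (D0.filter (fun d => d ∈ X m)) (by
          intro d hd
          rw [Finset.mem_coe, Finset.mem_filter] at hd
          rw [← hXN m hm]
          exact ⟨hd.2, hD0N d hd.1⟩)
      refine ⟨q, fun _ => ⟨h1, h2, fun d hd hdX => h3 d (Finset.mem_filter.2 ⟨hd, hdX⟩), h4, h5⟩⟩
    · exact ⟨∅, fun hm' => (hm hm').elim⟩
  choose q hq using hpiece
  -- the map on the parameters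
  have hu : ∀ d : M, ∃ d' : M, d ∈ D0 → ((∀ m ∈ I, d ∉ X m) ∧ d' = d) ∨
      ∃ m ∈ I, d ∈ X m ∧ (d, d') ∈ q m := by
    intro d
    by_cases hd : d ∈ D0
    · by_cases hm : ∃ m ∈ I, d ∈ X m
      · obtain ⟨m, hm, hdm⟩ := hm
        obtain ⟨d', hd'⟩ := (hq m hm).2.2.1 d hd hdm
        exact ⟨d', fun _ => Or.inr ⟨m, hm, hdm, hd'⟩⟩
      · push Not at hm
        exact ⟨d, fun _ => Or.inl ⟨hm, rfl⟩⟩
    · exact ⟨d, fun h' => (hd h').elim⟩
  choose u hu using hu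
  set s : Set (M × M) := {a | a.1 ∈ D0 ∧ a.2 = u a.1} with hs
  have hsq : ∀ m ∈ I, {a ∈ s | a.1 ∈ X m} ⊆ q m := by
    rintro m hm a ⟨⟨ha1, ha2⟩, haX⟩
    rcases hu a.1 ha1 with ⟨h1, -⟩ | ⟨m', hm', h1, h2⟩
    · exact (h1 m hm haX).elim
    · have h3 : m = m' := by
        by_contra hne
        exact h.disj m m' hne _ haX h1
      rw [← h3, ← ha2] at h2
      exact h2
  have hs1 : ∀ a ∈ s, (a.2 = a.1 ∧ ∀ m ∈ I, a.1 ∉ X m) ∨ ∃ m ∈ I, a.1 ∈ X m ∧ a.2 ∈ X m := by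
    rintro a ⟨ha1, ha2⟩
    rcases hu a.1 ha1 with ⟨h1, h2⟩ | ⟨m, hm, h1, h2⟩
    · exact Or.inl ⟨ha2.trans h2, h1⟩
    · refine Or.inr ⟨m, hm, h1, ?_⟩
      have h3 := ((hq m hm).2.1 _ h2).2.1
      rw [ha2]
      exact h3
  have hs2 : ∀ a ∈ s, a.1 ∈ N₁ := fun a ha => hD0N _ ha.1
  have hs3 : ∀ a ∈ s, a.2 ∈ N₂ := by
    rintro a ⟨ha1, ha2⟩
    rcases hu a.1 ha1 with ⟨h1, h2⟩ | ⟨m, hm, h1, h2⟩
    · rw [ha2, h2]
      exact (hout _ h1).1 (hD0N _ ha1)
    · have h3 := ((hq m hm).2.1 _ h2).2.2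
      rw [ha2]
      exact hB0N' h3
  -- composition with one more pair
  have hcomp0 : BFR S S N₁ N₂ (Ordinal.omega0 + Ordinal.omega0) s := by
    refine ne_comp hL h.disj h.rc I hout hs1
      (fun a ha => ⟨fun _ => hs3 a ha, fun _ => hs2 a ha⟩) fun m hm => ?_
    rw [hXN m hm, hXN' m hm]
    exact (hq m hm).2.2.2.1.anti (union_subset_union_left _ (hsq m hm))
  have hom : Ordinal.omega0 ≤ Ordinal.omega0 + Ordinal.omega0 := le_self_add
  have hcomp1 : ∀ m ∈ I, ∀ x ∈ X m ∩ B (m + 1), ∀ x' ∈ X m ∩ B 0,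
      BFR S S (X m ∩ B (m + 1)) (X m ∩ B 0) Ordinal.omega0
        (insert (x, x') (q m ∪ dg (G m : Set M))) →
      BFR S S N₁ N₂ Ordinal.omega0 (insert (x, x') s) := by
    intro m hm x hx x' hx' hb
    refine ne_comp hL h.disj h.rc I hout ?_ ?_ fun m' hm' => ?_
    · rintro a (rfl | ha)
      · exact Or.inr ⟨m, hm, hx.1, hx'.1⟩
      · exact hs1 a ha
    · rintro a (rfl | ha)
      · refine ⟨fun _ => hB0N' hx'.2, fun _ => ?_⟩
        have h1 : x ∈ X m ∩ N₁ := by rw [hXN m hm]; exact hx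
        exact h1.2
      · exact ⟨fun _ => hs3 a ha, fun _ => hs2 a ha⟩
    · rw [hXN m' hm', hXN' m' hm']
      by_cases hmm : m' = m
      · subst hmm
        refine hb.anti ?_
        rw [← insert_union]
        refine union_subset_union_left _ ?_
        rintro a ⟨rfl | ha, haX⟩
        · exact mem_insert _ _
        · exact mem_insert_of_mem _ (hsq m' hm ⟨ha, haX⟩)
      · refine ((hq m' hm').2.2.2.1.mono hom).anti ?_
        refine union_subset_union_left _ ?_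
        rintro a ⟨rfl | ha, haX⟩
        · exact (h.disj m' m hmm _ haX hx.1).elim
        · exact hsq m' hm' ⟨ha, haX⟩
  have hcomp2 : ∀ x, (∀ m ∈ I, x ∉ X m) → BFR S S N₁ N₂ Ordinal.omega0 (insert (x, x) s) := by
    intro x hx
    refine ne_comp hL h.disj h.rc I hout ?_ ?_ fun m hm => ?_
    · rintro a (rfl | ha)
      · exact Or.inl ⟨rfl, hx⟩
      · exact hs1 a ha
    · rintro a (rfl | ha)
      · exact hout x hx
      · exact ⟨fun _ => hs3 a ha, fun _ => hs2 a ha⟩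
    · rw [hXN m hm, hXN' m hm]
      refine ((hq m hm).2.2.2.1.mono hom).anti ?_
      refine union_subset_union_left _ ?_
      rintro a ⟨rfl | ha, haX⟩
      · exact (hx m hm haX).elim
      · exact hsq m hm ⟨ha, haX⟩
  -- the images
  have hMt : ∀ R : Finset M, R ⊆ D0 → Mt s R (R.image u) := by
    intro R hR
    constructor
    · intro x hx
      exact ⟨u x, Finset.mem_image_of_mem u hx, hR hx, rfl⟩
    · intro y hy
      obtain ⟨x, hx, rfl⟩ := Finset.mem_image.1 hy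
      exact ⟨x, hx, hR hx, rfl⟩
  have hMN : ∀ R : Finset M, R ⊆ D0 → ((R.image u : Finset M) : Set M) ⊆ N₂ := by
    intro R hR y hy
    obtain ⟨x, hx, rfl⟩ := Finset.mem_image.1 (Finset.mem_coe.1 hy)
    exact hs3 (x, u x) ⟨hR hx, rfl⟩
  have hPD : P' ⊆ D0 := fun x hx => Finset.mem_union_left _ (Finset.mem_union_left _ hx)
  have hQD : Q' ⊆ D0 := fun x hx => Finset.mem_union_left _ (Finset.mem_union_right _ hx)
  have hGD : G1 ⊆ D0 := fun x hx => Finset.mem_union_right _ hx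
  set V' : Set M := Bs (bt S) N₂ (P'.image u) (Q'.image u) with hV'
  have hV'N : V' ⊆ N₂ := bs_subset (hMN P' hPD)
  have hiff : ∀ x ∈ N₁, ∀ x' ∈ N₂, BFR S S N₁ N₂ Ordinal.omega0 (insert (x, x') s) →
      (x ∈ V ↔ x' ∈ V') := fun x hx x' hx' hb => mem_bs_iff hx hx' hb (hMt P' hPD) (hMt Q' hQD)
  have hOk' : Ok (bt S) N₂ (P'.image u) (Q'.image u) := by
    refine (ok_iff (hcomp0.mono ?_) (hMt P' hPD) (hMt Q' hQD) hOk.left hOk.right (hMN P' hPD)
      (hMN Q' hQD)).1 hOk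
    gcongr
    exact Ordinal.one_lt_omega0.le
  -- all levels
  have hall : ∀ γ, BFR S S V V' γ s := by
    intro γ
    refine ne_comp hL h.disj h.rc I ?_ hs1 ?_ fun m hm => ?_
    · intro x hx
      by_cases hxN : x ∈ N₁
      · exact hiff x hxN x ((hout x hx).1 hxN) (hcomp2 x hx)
      · have hxN' : x ∉ N₂ := fun h' => hxN ((hout x hx).2 h')
        exact ⟨fun h' => (hxN (hVN h')).elim, fun h' => (hxN' (hV'N h')).elim⟩
    · intro a ha
      refine hiff a.1 (hs2 a ha) a.2 (hs3 a ha) ?_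
      have h1 : insert (a.1, a.2) s = s := insert_eq_of_mem ha
      rw [h1]
      exact hcomp0.mono hom
    · have hW' : X m ∩ V' ⊆ X m ∩ B 0 := by
        rw [← hXN' m hm]
        exact inter_subset_inter_right _ hV'N
      refine ((hq m hm).2.2.2.2 (X m ∩ V') hW' ?_ γ).anti
        (union_subset_union_left _ (hsq m hm))
      intro x hx x' hx' hb
      have h1 : x ∈ X m ∩ N₁ := by rw [hXN m hm]; exact hx
      have h2 := hiff x h1.2 x' (hB0N' hx'.2) (hcomp1 m hm x hx x' hx' hb)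
      exact ⟨fun h' => ⟨hx'.1, h2.1 h'.2⟩, fun h' => ⟨hx.1, h2.2 h'.2⟩⟩
  -- the level of the image
  obtain ⟨ζ, hζ, hlv⟩ := h.lvN n g _ _ hOk'
  refine ⟨ζ, hζ, ?_⟩
  have hRC : RC S N₂ V' (G1.image u) := by
    refine rc_of hiff hVN hV'N (hMN G1 hGD) (hcomp0.mono ?_) (hMt G1 hGD) hG1
    gcongr
    exact (Ordinal.natCast_lt_omega0 2).le
  have hsf : ({a ∈ s | a.1 ∈ G1}).Finite := by
    refine ((G1.finite_toSet).image (fun d => (d, u d))).subset ?_
    rintro a ⟨⟨-, ha⟩, haG⟩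
    exact ⟨a.1, haG, Prod.ext rfl ha.symm⟩
  have hqf : (Prod.swap ⁻¹' {a ∈ s | a.1 ∈ G1}).Finite :=
    hsf.preimage (Prod.swap_injective.injOn)
  refine Lv.congr hL (hζ.trans (h.gd (n + 1)).lt) hV'N hVN hRC hG1 hlv hqf ?_ ?_
    (((hall (ζ + Ordinal.omega0)).anti (fun a ha => ha.1)).swap)
  · refine mt_swap ⟨fun x hx => ⟨u x, Finset.mem_image_of_mem u hx, ⟨hGD hx, rfl⟩, hx⟩, ?_⟩
    intro y hy
    obtain ⟨x, hx, rfl⟩ := Finset.mem_image.1 hy
    exact ⟨x, hx, ⟨hGD hx, rfl⟩, hx⟩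
  · rintro a ⟨⟨h1, h2⟩, h3⟩
    refine ⟨?_, h3⟩
    have h4 : a.1 = u a.2 := h2
    rw [h4]
    exact Finset.mem_image_of_mem u h3

end Pool.Agent.CW

end

/-! ### formerly `Pool.Agent.CW.CAe` -/

section

/-!
# CW, module CAe
-/

set_option autoImplicit false
set_option linter.unusedSectionVars false
set_option linter.unusedVariables false

namespace Pool.Agent.CW

open Set Pool.Agent.Helper5 Pool.Agent.Helper5.DU Pool.Agent.Helper6.Str
  Pool.Agent.Helper79.VC Pool.Agent.Helper97.VC Pool.Agent.Helper97.MD Pool.Agent.Helper6.VC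
  Pool.Agent.Helper97.LO

open scoped Classical

variable {L : FirstOrder.Language.{0, 0}} [∀ n, IsEmpty (L.Functions n)]
  [∀ n, Countable (L.Relations n)] {M N : Type} {K : Set (L.Structure ℕ)} {δ : Ordinal.{0}}
  {S : L.Structure M}

variable {P Q G : ℕ → Finset M} {X B : ℕ → Set M} {lam : ℕ → Ordinal.{0}}

private theorem CAe_key (hL : Ar2 L) (hS : VSt K δ S) (h : CAD S δ P Q G X B lam)
    {μ : Ordinal.{0}} (hμ : Gd μ) (hlam : ∀ n, lam n ≤ μ) {f g : ℕ → Bool} {n : ℕ}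
    (hf : f n = true) (hg : g n = false)
    (hb : BFR S S (NE X B (ef f)) (NE X B (ef g)) (μ + Ordinal.omega0) ∅) : False := by
  obtain ⟨okf, hJ, hnJ⟩ := h.a2 hL hS (g := f) hf
  obtain ⟨q, F', hq, hF', hMt, -, h1⟩ := forth_fin hb (P n ∪ Q n) (by
    rw [Finset.coe_union]
    exact union_subset okf.left okf.right)
  rw [empty_union] at h1
  obtain ⟨P', hP', hMP⟩ := hMt.sub (Finset.subset_union_left (s₁ := P n) (s₂ := Q n))
  obtain ⟨Q', hQ', hMQ⟩ := hMt.sub (Finset.subset_union_right (s₁ := P n) (s₂ := Q n))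
  have hPN : (P' : Set M) ⊆ NE X B (ef g) := (Finset.coe_subset.mpr hP').trans hF'
  have hQN : (Q' : Set M) ⊆ NE X B (ef g) := (Finset.coe_subset.mpr hQ').trans hF'
  have h01 : Ordinal.omega0 + 1 ≤ μ := by
    refine (hμ.add _ hμ.om 1 ?_).le
    exact Ordinal.one_lt_omega0.trans hμ.om
  have hOk : Ok (bt S) (NE X B (ef g)) P' Q' :=
    (ok_iff (h1.mono h01) hMP hMQ okf.left okf.right hPN hQN).mp okf
  have key : ∀ m, Jd S (NE X B (ef f)) (lam m) (Bs (bt S) (NE X B (ef f)) (P n) (Q n)) ↔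
      Jd S (NE X B (ef g)) (lam m) (Bs (bt S) (NE X B (ef g)) P' Q') := by
    intro m
    refine jd_iff hL (h.gd m) (bs_subset okf.left) (bs_subset hPN) (h.gd m).om (p := q) ?_ ?_
    · intro x hx x' hx' hxx
      exact mem_bs_iff hx hx' hxx hMP hMQ
    · intro γ hγ
      exact h1.mono (hγ.le.trans (hlam m))
  have hJ' := (key (n + 2)).mp hJ
  have hnJ' := fun h' => hnJ ((key (n + 1)).mpr h')
  obtain ⟨ζ, hζ, hlv⟩ := h.a3d hL (g := g) hg hOk fun m hm hgm => h.a3b hL hS hOk hJ' hm hgm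
  refine hnJ' (jd_of_lv hL (h.gd (n + 1)) hζ (bs_subset hPN) hlv ?_)
  rw [rk_bs hOk]
  exact ENat.natCast_ne_top _

/-- (A4) -/
theorem CAD.false (hL : Ar2 L) (hS : VSt K δ S) (h : CAD S δ P Q G X B lam) : False := by
  obtain ⟨μ₀, hμ₀, hb⟩ := exists_bound fun n => (h.gd n).lt
  obtain ⟨μ, hμ1, hμ⟩ := exists_gd μ₀ hμ₀
  have hlam : ∀ n, lam n ≤ μ := fun n => (hb n).trans hμ1.le
  refine hS.false_of_code' (fun f => NE X B (ef f)) (fun f => ne_countable h.ctb (ef f))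
    (fun f => ?_) (add_lt_om1 hμ.lt omega_lt_om1) fun f g hfg => ?_
  · refine BFR.anti (empty_subset _) ((h.ne_clo hL (ef f)).bfr h.del finite_empty
      (empty_subset _))
  · funext n
    rcases hf : f n with _ | _ <;> rcases hg : g n with _ | _
    · rfl
    · refine (CAe_key hL hS h hμ hlam hg hf (hfg.symm ?_)).elim
      intro a ha
      exact absurd ha (notMem_empty a)
    · exact (CAe_key hL hS h hμ hlam hf hg hfg).elim
    · rfl

end Pool.Agent.CW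

end

/-! ### formerly `Pool.Agent.CW.CAx` -/

section

/-!
# CW, module CAx

The closure construction of case A: an increasing sequence of countable sets, closed for all
levels below an increasing sequence of ordinals which bound the levels of the basic sets.
-/

set_option autoImplicit false
set_option linter.unusedSectionVars false
set_option linter.unusedVariables false

namespace Pool.Agent.CW

open Set Pool.Agent.Helper5 Pool.Agent.Helper5.DU Pool.Agent.Helper6.Str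
  Pool.Agent.Helper79.VC Pool.Agent.Helper97.VC Pool.Agent.Helper97.MD Pool.Agent.Helper6.VC
  Pool.Agent.Helper97.LO

open scoped Classical

variable {L : FirstOrder.Language.{0, 0}} [∀ n, IsEmpty (L.Functions n)]
  [∀ n, Countable (L.Relations n)] {M N : Type} {K : Set (L.Structure ℕ)} {δ : Ordinal.{0}}
  {S : L.Structure M}

/-- dependent choices with an index -/
theorem cax_seq {α : Type*} (P : ℕ → α → Prop) (R : ℕ → α → α → Prop) (h0 : ∃ x, P 0 x)
    (h : ∀ n x, P n x → ∃ y, P (n + 1) y ∧ R n x y) :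
    ∃ s : ℕ → α, (∀ n, P n (s n)) ∧ ∀ n, R n (s n) (s (n + 1)) := by
  obtain ⟨x0, hx0⟩ := h0
  choose! g hg1 hg2 using h
  let s : ℕ → α := fun n => n.rec x0 fun n x => g n x
  have hs : ∀ n, P n (s n) := by
    intro n
    induction n with
    | zero => exact hx0
    | succ n ih => exact hg1 n (s n) ih
  exact ⟨s, hs, fun n => hg2 n (s n) (hs n)⟩

/-- the levels of the basic sets of a countable universe are bounded -/
theorem cax_bound {Y : Set M} (hY : Y.Countable) : ∃ β < om1, ∀ P Q : Finset M,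
    Ok (bt S) Y P Q → ∃ ζ ≤ β, Lv S Y (Bs (bt S) Y P Q) ζ := by
  have hF := countable_finset_subset hY
  have hct : ({F : Finset M | (F : Set M) ⊆ Y} ×ˢ {F : Finset M | (F : Set M) ⊆ Y}).Countable :=
    hF.prod hF
  have := hct.to_subtype
  have hex : ∀ x : ({F : Finset M | (F : Set M) ⊆ Y} ×ˢ {F : Finset M | (F : Set M) ⊆ Y} :
      Set (Finset M × Finset M)), ∃ ζ < om1, Ok (bt S) Y x.1.1 x.1.2 →
      Lv S Y (Bs (bt S) Y x.1.1 x.1.2) ζ := by
    intro x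
    by_cases h : Ok (bt S) Y x.1.1 x.1.2
    · obtain ⟨ζ, hζ, h1⟩ := lv_of_countable (S := S) (U := Y)
        (X := Bs (bt S) Y x.1.1 x.1.2) (hY.mono (bs_subset h.left)) (by
          rw [rk_bs h]
          exact ENat.natCast_ne_top _)
      exact ⟨ζ, hζ, fun _ => h1⟩
    · exact ⟨0, Ordinal.omega_pos 1, fun h' => absurd h' h⟩
  choose z hz1 hz2 using hex
  obtain ⟨β, hβ, hle⟩ := exists_bound hz1
  exact ⟨β, hβ, fun P Q h => ⟨z ⟨(P, Q), h.left, h.right⟩, hle _, hz2 ⟨(P, Q), h.left, h.right⟩ h⟩⟩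

/-- the exponents are bounded -/
theorem cax_ee_le (g : ℕ → Bool) (n m : ℕ) : ee g n m ≤ n := by
  unfold ee ef
  split_ifs <;> omega

/-- the set only depends on the first members of the sequence -/
theorem cax_ne_congr {X B B' : ℕ → Set M} {n : ℕ} (h : ∀ i ≤ n, B i = B' i) {e : ℕ → ℕ}
    (he : ∀ m, e m ≤ n) : NE X B e = NE X B' e := by
  ext x
  constructor
  · rintro (⟨h1, h2⟩ | ⟨m, h1, h2⟩)
    · left
      refine ⟨h1, ?_⟩
      rw [← h 0 (Nat.zero_le n)]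
      exact h2
    · right
      refine ⟨m, h1, ?_⟩
      rw [← h _ (he m)]
      exact h2
  · rintro (⟨h1, h2⟩ | ⟨m, h1, h2⟩)
    · left
      refine ⟨h1, ?_⟩
      rw [h 0 (Nat.zero_le n)]
      exact h2
    · right
      refine ⟨m, h1, ?_⟩
      rw [h _ (he m)]
      exact h2

/-- the levels of the basic sets of the sets `NE X B (ee g n)` are bounded -/
theorem cax_bound_ne {X B : ℕ → Set M} (hB : ∀ n, (B n).Countable) (n : ℕ) :
    ∃ β < om1, ∀ (g : ℕ → Bool) (P Q : Finset M), Ok (bt S) (NE X B (ee g n)) P Q →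
      ∃ ζ ≤ β, Lv S (NE X B (ee g n)) (Bs (bt S) (NE X B (ee g n)) P Q) ζ := by
  let ex : (Fin n → Bool) → ℕ → Bool := fun h i => if hi : i < n then h ⟨i, hi⟩ else false
  have h1 : ∀ h : Fin n → Bool, ∃ β < om1, ∀ P Q : Finset M,
      Ok (bt S) (NE X B (ee (ex h) n)) P Q →
      ∃ ζ ≤ β, Lv S (NE X B (ee (ex h) n)) (Bs (bt S) (NE X B (ee (ex h) n)) P Q) ζ :=
    fun h => cax_bound (ne_countable hB _)
  choose z hz1 hz2 using h1
  obtain ⟨β, hβ, hle⟩ := exists_bound hz1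
  refine ⟨β, hβ, fun g P Q hOk => ?_⟩
  have h2 : ee g n = ee (ex fun i => g i) n := by
    funext m
    unfold ee
    split_ifs with hm
    · unfold ef
      have h3 : ex (fun i => g i) m = g m := by
        simp only [ex]
        rw [dif_pos hm]
      rw [h3]
    · rfl
  rw [h2] at hOk ⊢
  obtain ⟨ζ, hζ, h3⟩ := hz2 (fun i => g i) P Q hOk
  exact ⟨ζ, hζ.trans (hle _), h3⟩

/-- the closure construction of case A -/
theorem exists_cad (hL : Ar2 L) (hS : VSt K δ S) {P Q : ℕ → Finset M} {X₀ : Set M}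
    (hPQ : ∀ m, Ok (bt S) univ (P m) (Q m) ∧ Bs (bt S) univ (P m) (Q m) ⊆ X₀ ∧
      Wil S (Bs (bt S) univ (P m) (Q m)))
    (hd : ∀ m m', m ≠ m' → Disjoint (Bs (bt S) univ (P m) (Q m)) (Bs (bt S) univ (P m') (Q m')))
    {r : Ordinal.{0}} (hr : r < om1)
    (H : ∀ P Q : Finset M, Ok (bt S) univ P Q → Bs (bt S) univ P Q ⊆ X₀ →
      TT S (Bs (bt S) univ P Q) → Lv S univ (Bs (bt S) univ P Q) r) :
    ∃ (G : ℕ → Finset M) (X B : ℕ → Set M) (lam : ℕ → Ordinal.{0}), CAD S δ P Q G X B lam := by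
  -- the pieces
  obtain ⟨X, hX⟩ : ∃ X : ℕ → Set M, ∀ m, X m = Bs (bt S) univ (P m) (Q m) := ⟨_, fun _ => rfl⟩
  have hG : ∀ m, ∃ G, RC S univ (X m) G := by
    intro m
    rw [hX]
    exact exists_rc (hPQ m).2.2.cut
  choose G hG using hG
  -- the bound
  have hk : ∀ k : ℕ, ∃ Φ < om1, ∀ P Q P' Q' : Finset M, Ok (bt S) univ P Q →
      Ok (bt S) univ P' Q' → CovS S univ (Bs (bt S) univ P Q ∩ Bs (bt S) univ P' Q') k r →
      Lv S univ (Bs (bt S) univ P Q ∩ Bs (bt S) univ P' Q') Φ := fun k => uni hL hS k hr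
  choose Φ hΦ1 hΦ2 using hk
  obtain ⟨Φs, hΦs, hΦle⟩ := exists_bound hΦ1
  let κ₀ : Ordinal.{0} := δ + Φs + Ordinal.omega0
  have hκ1 : κ₀ < om1 := add_lt_om1 (add_lt_om1 hS.lt hΦs) omega_lt_om1
  have hκδ : δ ≤ κ₀ := le_self_add.trans le_self_add
  have hκΦ : Φs ≤ κ₀ := le_add_self.trans le_self_add
  have hκω : Ordinal.omega0 ≤ κ₀ := le_add_self
  -- witnesses
  obtain ⟨fu, hfu1, hfu2, hfu3⟩ := hS.small.exists_wit
  -- one step
  have hstep : ∀ (A₀ : Set M) (μ : Ordinal.{0}), A₀.Countable → κ₀ ≤ μ → μ < om1 →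
      ∃ (A : Set M) (l : Ordinal.{0}), A.Countable ∧ A₀ ⊆ A ∧ μ < l ∧ Gd l ∧ CloA S l A := by
    intro A₀ μ hA₀ hμ hμ1
    obtain ⟨A, l, hA, hA₀A, hμl, hl1, hl, hcl⟩ := exists_pair
      (fun F γ => fu F γ) (fun F γ _ => hfu1 F γ) (fun _ _ => 0)
      (fun _ _ _ => Ordinal.omega_pos 1) hA₀ hμ1
    refine ⟨A, l, hA, hA₀A, hμl, ⟨(hκω.trans hμ).trans_lt hμl, hl1, hl⟩, ?_⟩
    intro γ hγ
    exact hfu3 A γ (hγ.trans hl1) fun F hF => (hcl F (hF.trans inter_subset_left) γ hγ).1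
  -- the recursion
  let Pp : ℕ → (ℕ → Set M) × Ordinal.{0} → Prop := fun n q => (∀ i, (q.1 i).Countable) ∧
    (∀ m, (P m : Set M) ⊆ q.1 0) ∧ (∀ m, (Q m : Set M) ⊆ q.1 0) ∧
    (∀ m, (G m : Set M) ⊆ q.1 0) ∧ κ₀ < q.2 ∧ Gd q.2 ∧ CloA S q.2 (q.1 n)
  let Rr : ℕ → (ℕ → Set M) × Ordinal.{0} → (ℕ → Set M) × Ordinal.{0} → Prop := fun n q q' =>
    (∀ i ≤ n, q.1 i = q'.1 i) ∧ q.1 n ⊆ q'.1 (n + 1) ∧ q.2 < q'.2 ∧
    (∀ P' Q' : Finset M, Ok (bt S) (q.1 n) P' Q' →
      ∃ ζ < q'.2, Lv S (q.1 n) (Bs (bt S) (q.1 n) P' Q') ζ) ∧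
    ∀ (g : ℕ → Bool) (P' Q' : Finset M), Ok (bt S) (NE X q.1 (ee g n)) P' Q' →
      ∃ ζ < q'.2, Lv S (NE X q.1 (ee g n)) (Bs (bt S) (NE X q.1 (ee g n)) P' Q') ζ
  have hbase : ∃ q, Pp 0 q := by
    obtain ⟨A, l, hA, hA₀, hl, hGd, hcl⟩ := hstep
      ((⋃ k, (P k : Set M)) ∪ ((⋃ k, (Q k : Set M)) ∪ ⋃ k, (G k : Set M))) κ₀
      ((countable_iUnion fun k => (P k).countable_toSet).union
        ((countable_iUnion fun k => (Q k).countable_toSet).union
          (countable_iUnion fun k => (G k).countable_toSet))) le_rfl hκ1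
    refine ⟨(fun _ => A, l), fun _ => hA, fun m => ?_, fun m => ?_, fun m => ?_, hl, hGd, hcl⟩
    · exact ((subset_iUnion (fun k => (P k : Set M)) m).trans subset_union_left).trans hA₀
    · exact (((subset_iUnion (fun k => (Q k : Set M)) m).trans subset_union_left).trans
        subset_union_right).trans hA₀
    · exact (((subset_iUnion (fun k => (G k : Set M)) m).trans subset_union_right).trans
        subset_union_right).trans hA₀
  have hnext : ∀ n q, Pp n q → ∃ q', Pp (n + 1) q' ∧ Rr n q q' := by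
    rintro n ⟨Bf, l⟩ ⟨hc, hP, hQ, hG', hκl, hl, hcl⟩
    obtain ⟨β₁, hβ₁, hb1⟩ := cax_bound (S := S) (hc n)
    obtain ⟨β₂, hβ₂, hb2⟩ := cax_bound_ne (S := S) (X := X) hc n
    obtain ⟨A, l', hA, hA₀, hl', hGd, hcl'⟩ := hstep (Bf n) (max l (max β₁ β₂)) (hc n)
      (hκl.le.trans (le_max_left _ _)) (max_lt hl.lt (max_lt hβ₁ hβ₂))
    have e0 : ∀ i ≤ n, (fun i => if i ≤ n then Bf i else A) i = Bf i := fun i hi => if_pos hi
    have e1 : (fun i => if i ≤ n then Bf i else A) (n + 1) = A := if_neg (by omega)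
    refine ⟨(fun i => if i ≤ n then Bf i else A, l'), ⟨?_, ?_, ?_, ?_, ?_, hGd, ?_⟩,
      ⟨?_, ?_, ?_, ?_, ?_⟩⟩
    · intro i
      show (if i ≤ n then Bf i else A).Countable
      split_ifs
      · exact hc i
      · exact hA
    · intro m
      show (P m : Set M) ⊆ (fun i => if i ≤ n then Bf i else A) 0
      rw [e0 0 (Nat.zero_le n)]
      exact hP m
    · intro m
      show (Q m : Set M) ⊆ (fun i => if i ≤ n then Bf i else A) 0
      rw [e0 0 (Nat.zero_le n)]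
      exact hQ m
    · intro m
      show (G m : Set M) ⊆ (fun i => if i ≤ n then Bf i else A) 0
      rw [e0 0 (Nat.zero_le n)]
      exact hG' m
    · exact (hκl.trans_le (le_max_left _ _)).trans hl'
    · show CloA S l' ((fun i => if i ≤ n then Bf i else A) (n + 1))
      rw [e1]
      exact hcl'
    · exact fun i hi => (e0 i hi).symm
    · show Bf n ⊆ (fun i => if i ≤ n then Bf i else A) (n + 1)
      rw [e1]
      exact hA₀
    · exact (le_max_left _ _).trans_lt hl'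
    · intro P' Q' h
      obtain ⟨ζ, hζ, h1⟩ := hb1 P' Q' h
      exact ⟨ζ, (hζ.trans ((le_max_left _ _).trans (le_max_right _ _))).trans_lt hl', h1⟩
    · intro g P' Q' h
      obtain ⟨ζ, hζ, h1⟩ := hb2 g P' Q' h
      exact ⟨ζ, (hζ.trans ((le_max_right _ _).trans (le_max_right _ _))).trans_lt hl', h1⟩
  obtain ⟨s, hs, hs'⟩ := cax_seq Pp Rr hbase hnext
  have hst : ∀ k, ∀ i ≤ k, (s k).1 i = (s i).1 i := by
    intro k
    induction k with
    | zero =>
      intro i hi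
      rw [Nat.le_zero.1 hi]
    | succ k ih =>
      intro i hi
      rcases Nat.lt_or_ge k i with h | h
      · have : i = k + 1 := by omega
        rw [this]
      · rw [← (hs' k).1 i h]
        exact ih i h
  have hNE : ∀ (n : ℕ) (g : ℕ → Bool),
      NE X (fun n => (s n).1 n) (ee g n) = NE X (s n).1 (ee g n) := fun n g =>
    cax_ne_congr (fun i hi => (hst n i hi).symm) (cax_ee_le g n)
  refine ⟨G, X, fun n => (s n).1 n, fun n => (s n).2, ?_⟩
  refine
    { ok := fun m => (hPQ m).1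
      eq := hX
      disj := ?_
      wild := ?_
      rc := hG
      parP := (hs 0).2.1
      parQ := (hs 0).2.2.1
      parG := (hs 0).2.2.2.1
      mono := fun n => (hs' n).2.1
      ctb := fun n => (hs n).1 n
      gd := fun n => (hs n).2.2.2.2.2.1
      lt := fun n => (hs' n).2.2.1
      clo := fun n => (hs n).2.2.2.2.2.2
      del := hκδ.trans_lt (hs 0).2.2.2.2.1
      lvY := ?_
      lvB := fun n => (hs' n).2.2.2.1
      lvN := ?_ }
  · intro m m' hmm x hx hx'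
    rw [hX] at hx hx'
    exact Set.disjoint_left.1 (hd m m' hmm) hx hx'
  · intro m
    rw [hX]
    exact (hPQ m).2.2.not_tt
  · intro P' Q' m hOk hTT
    rw [hX] at hTT ⊢
    have hrk : rk (bt S) univ (Bs (bt S) univ P' Q' ∩ Bs (bt S) univ (P m) (Q m)) ≠ ⊤ := by
      refine ne_top_of_le_ne_top ?_ (rk_inter_le (bt S) univ _ _)
      rw [rk_bs hOk, rk_bs (hPQ m).1]
      exact WithTop.add_ne_top.2 ⟨ENat.natCast_ne_top _, ENat.natCast_ne_top _⟩
    obtain ⟨k, hk⟩ := covS_of_tt hL hrk hTT (inter_subset_right.trans (hPQ m).2.1) H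
    exact ⟨Φ k, ((hΦle k).trans hκΦ).trans_lt (hs 0).2.2.2.2.1,
      hΦ2 k P' Q' (P m) (Q m) hOk (hPQ m).1 hk⟩
  · intro n g P' Q' hOk
    rw [hNE] at hOk ⊢
    exact (hs' n).2.2.2.2 g P' Q' hOk

end Pool.Agent.CW

end

/-! ### formerly `Pool.Agent.CW.CaseA` -/

section

/-!
# CW, module CaseA
-/

set_option autoImplicit false
set_option linter.unusedSectionVars false
set_option linter.unusedVariables false

namespace Pool.Agent.CW

open Set Pool.Agent.Helper5 Pool.Agent.Helper5.DU Pool.Agent.Helper6.Str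
  Pool.Agent.Helper79.VC Pool.Agent.Helper97.VC Pool.Agent.Helper97.MD Pool.Agent.Helper6.VC
  Pool.Agent.Helper97.LO

open scoped Classical

variable {L : FirstOrder.Language.{0, 0}} [∀ n, IsEmpty (L.Functions n)]
  [∀ n, Countable (L.Relations n)] {M N : Type} {K : Set (L.Structure ℕ)} {δ : Ordinal.{0}}
  {S : L.Structure M}

/-- **Case A.** -/
theorem case_a (hL : Ar2 L) (hS : VSt K δ S) {k : ℕ} (hT : CTree (bt S) k) {X₀ : Set M}
    (hX₀ : Wil S X₀) {r : Ordinal.{0}} (hr : r < om1)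
    (H : ∀ P Q : Finset M, Ok (bt S) univ P Q → Bs (bt S) univ P Q ⊆ X₀ →
      TT S (Bs (bt S) univ P Q) → Lv S univ (Bs (bt S) univ P Q) r) : False := by
  obtain ⟨P, Q, hPQ, hd⟩ := seq_wild_bs hL hS hT hX₀
  obtain ⟨G, X, B, lam, h⟩ := exists_cad hL hS hPQ hd hr H
  exact h.false hL hS

end Pool.Agent.CW

end
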