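import Pool.Agent.Helper60.VCM.C2a
import Pool.Agent.Helper22.VCM.C2b

/-!
# Tools for Vaught's conjecture, part 5: neighbourhoods, first half

Merged file (to shorten the import chain): contents, unchanged, of
`Pool.Agent.Helper68.VCM.NBA1`, `Pool.Agent.Helper68.VCM.NBA2`, `Pool.Agent.Helper68.VCM.NBA3`, `Pool.Agent.Helper68.VCM.NBA4`, `Pool.Agent.Helper68.VCM.NBA5`.
-/

/-! ### formerly `Pool.Agent.Helper68.VCM.NBA1` -/

section

/-!
# Convex pieces of ordered sums
-/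

set_option autoImplicit false
set_option linter.unusedSectionVars false
set_option linter.unusedVariables false

namespace Pool.Agent.Helper97.LO

open Set Pool.Agent.Helper5.DU Pool.Agent.Helper6.Str Pool.Agent.Helper79.VC
  Pool.Agent.Helper97.VC Pool.Agent.Helper97.MD

namespace NBA

variable {L : FirstOrder.Language.{0, 0}} {M N P : Type}

theorem rel2_of_atEq {S : L.Structure M} {T : L.Structure N} {p : Set (M × N)}
    (h : AtEq S T p) {a b : M × N} (ha : a ∈ p) (hb : b ∈ p) (R : L.Relations 2) :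
    S.RelMap R ![a.1, b.1] ↔ T.RelMap R ![a.2, b.2] := by
  have h1 := h.2 2 R ![a, b] (by
    intro i
    fin_cases i
    · exact ha
    · exact hb)
  have e1 : (fun i => (![a, b] i).1) = ![a.1, b.1] := by
    funext i
    fin_cases i <;> rfl
  have e2 : (fun i => (![a, b] i).2) = ![a.2, b.2] := by
    funext i
    fin_cases i <;> rfl
  rwa [e1, e2] at h1

variable [Preorder M] {r : L.Relations 2} {o : Bool} {S : L.Structure M}

theorem not_le (hO : OSt r o S) {a b : M} : ¬ a ≤ b ↔ b < a := by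
  rw [lt_iff_le_not_ge]
  constructor
  · intro h
    rcases hO.total a b with h1 | h1
    · exact absurd h1 h
    · exact ⟨h1, h⟩
  · exact fun h => h.2

/-- atomic equivalence respects the order -/
theorem le_at (hO : OSt r o S) {p : Set (M × M)} (h : AtEq S S p) {a b : M × M} (ha : a ∈ p)
    (hb : b ∈ p) : a.1 ≤ b.1 ↔ a.2 ≤ b.2 := by
  rw [hO.le_iff, hO.le_iff a.2 b.2]
  by_cases ho : o = true
  · subst ho
    simpa using rel2_of_atEq h ha hb r
  · have ho' : o = false := by simpa using ho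
    subst ho'
    simpa using rel2_of_atEq h hb ha r

theorem lt_at (hO : OSt r o S) {p : Set (M × M)} (h : AtEq S S p) {a b : M × M} (ha : a ∈ p)
    (hb : b ∈ p) : a.1 < b.1 ↔ a.2 < b.2 := by
  rw [lt_iff_le_not_ge, lt_iff_le_not_ge, le_at hO h ha hb, le_at hO h hb ha]

/-- **Composition along a linear order.** -/
theorem comp_lin (hL : Ar2 L) (hO : OSt r o S) {I : Type} [LinearOrder I] (π π' : M → I)
    {U V : Set M} (hπ : ∀ a ∈ U, ∀ b ∈ U, π a < π b → a < b)
    (hπ' : ∀ a ∈ V, ∀ b ∈ V, π' a < π' b → a < b) (γ : Ordinal.{0}) {p : Set (M × M)}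
    (hp : ∀ a ∈ p, a.1 ∈ U ∧ a.2 ∈ V ∧ π a.1 = π' a.2)
    (h : ∀ i, BFR S S {a ∈ U | π a = i} {b ∈ V | π' b = i} γ {a ∈ p | π a.1 = i}) :
    BFR S S U V γ p := by
  refine BFR.comp_index π π' ?_ γ hp h
  intro q hq hparts
  have key : ∀ a ∈ q, ∀ b ∈ q, π a.1 < π b.1 → AtEq S S {a, b} := by
    intro a ha b hb hab
    have h1 : a.1 < b.1 := hπ _ (hq a ha).1 _ (hq b hb).1 hab
    have h2 : a.2 < b.2 := by
      refine hπ' _ (hq a ha).2.1 _ (hq b hb).2.1 ?_
      rw [← (hq a ha).2.2, ← (hq b hb).2.2]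
      exact hab
    refine hO.cross a.1 b.1 a.2 b.2 h1 h2 ?_ ?_
    · refine AtEq.anti ?_ (hparts (π a.1))
      rintro c rfl
      exact ⟨ha, rfl⟩
    · refine AtEq.anti ?_ (hparts (π b.1))
      rintro c rfl
      exact ⟨hb, rfl⟩
  refine atEq_of_pairs hL fun a ha b hb => ?_
  rcases lt_trichotomy (π a.1) (π b.1) with hab | hab | hab
  · exact key a ha b hb hab
  · refine AtEq.anti ?_ (hparts (π a.1))
    rintro c (rfl | rfl)
    · exact ⟨ha, rfl⟩
    · exact ⟨hb, hab.symm⟩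
  · have := key b hb a ha hab
    rwa [pair_comm] at this

/-- **Composition of two pieces.** -/
theorem comp2 (hL : Ar2 L) (hO : OSt r o S) {U1 U2 V1 V2 : Set M}
    (hU : ∀ a ∈ U1, ∀ b ∈ U2, a < b) (hV : ∀ a ∈ V1, ∀ b ∈ V2, a < b) {γ : Ordinal.{0}}
    {p1 p2 : Set (M × M)} (hp1 : ∀ a ∈ p1, a.1 ∈ U1 ∧ a.2 ∈ V1)
    (hp2 : ∀ a ∈ p2, a.1 ∈ U2 ∧ a.2 ∈ V2) (h1 : BFR S S U1 V1 γ p1)
    (h2 : BFR S S U2 V2 γ p2) : BFR S S (U1 ∪ U2) (V1 ∪ V2) γ (p1 ∪ p2) := by
  classical
  have hU' : ∀ a ∈ U2, a ∉ U1 := fun a ha ha' => lt_irrefl a (hU a ha' a ha)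
  have hV' : ∀ a ∈ V2, a ∉ V1 := fun a ha ha' => lt_irrefl a (hV a ha' a ha)
  let π : M → ℕ := fun a => if a ∈ U1 then 0 else 1
  let π' : M → ℕ := fun a => if a ∈ V1 then 0 else 1
  have e0 : ∀ a, a ∈ U1 → π a = 0 := fun a ha => if_pos ha
  have e1 : ∀ a, a ∈ U2 → π a = 1 := fun a ha => if_neg (hU' a ha)
  have e0' : ∀ a, a ∈ V1 → π' a = 0 := fun a ha => if_pos ha
  have e1' : ∀ a, a ∈ V2 → π' a = 1 := fun a ha => if_neg (hV' a ha)
  refine comp_lin hL hO π π' ?_ ?_ γ ?_ ?_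
  · rintro a (ha | ha) b (hb | hb) hab
    · rw [e0 a ha, e0 b hb] at hab
      exact absurd hab (lt_irrefl _)
    · exact hU a ha b hb
    · rw [e1 a ha, e0 b hb] at hab
      exact absurd hab (by norm_num)
    · rw [e1 a ha, e1 b hb] at hab
      exact absurd hab (lt_irrefl _)
  · rintro a (ha | ha) b (hb | hb) hab
    · rw [e0' a ha, e0' b hb] at hab
      exact absurd hab (lt_irrefl _)
    · exact hV a ha b hb
    · rw [e1' a ha, e0' b hb] at hab
      exact absurd hab (by norm_num)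
    · rw [e1' a ha, e1' b hb] at hab
      exact absurd hab (lt_irrefl _)
  · rintro a (ha | ha)
    · exact ⟨Or.inl (hp1 a ha).1, Or.inl (hp1 a ha).2, by
        rw [e0 _ (hp1 a ha).1, e0' _ (hp1 a ha).2]⟩
    · exact ⟨Or.inr (hp2 a ha).1, Or.inr (hp2 a ha).2, by
        rw [e1 _ (hp2 a ha).1, e1' _ (hp2 a ha).2]⟩
  · intro i
    by_cases hi0 : i = 0
    · subst hi0
      have eU : {a ∈ U1 ∪ U2 | π a = 0} = U1 := by
        ext a
        constructor
        · rintro ⟨ha | ha, h0⟩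
          · exact ha
          · rw [e1 a ha] at h0
            exact absurd h0 (by norm_num)
        · exact fun ha => ⟨Or.inl ha, e0 a ha⟩
      have eV : {a ∈ V1 ∪ V2 | π' a = 0} = V1 := by
        ext a
        constructor
        · rintro ⟨ha | ha, h0⟩
          · exact ha
          · rw [e1' a ha] at h0
            exact absurd h0 (by norm_num)
        · exact fun ha => ⟨Or.inl ha, e0' a ha⟩
      rw [eU, eV]
      refine BFR.anti ?_ h1
      rintro a ⟨ha | ha, h0⟩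
      · exact ha
      · rw [e1 _ (hp2 a ha).1] at h0
        exact absurd h0 (by norm_num)
    · by_cases hi1 : i = 1
      · subst hi1
        have eU : {a ∈ U1 ∪ U2 | π a = 1} = U2 := by
          ext a
          constructor
          · rintro ⟨ha | ha, h0⟩
            · rw [e0 a ha] at h0
              exact absurd h0 (by norm_num)
            · exact ha
          · exact fun ha => ⟨Or.inr ha, e1 a ha⟩
        have eV : {a ∈ V1 ∪ V2 | π' a = 1} = V2 := by
          ext a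
          constructor
          · rintro ⟨ha | ha, h0⟩
            · rw [e0' a ha] at h0
              exact absurd h0 (by norm_num)
            · exact ha
          · exact fun ha => ⟨Or.inr ha, e1' a ha⟩
        rw [eU, eV]
        refine BFR.anti ?_ h2
        rintro a ⟨ha | ha, h0⟩
        · rw [e0 _ (hp1 a ha).1] at h0
          exact absurd h0 (by norm_num)
        · exact ha
      · have eU : {a ∈ U1 ∪ U2 | π a = i} = (∅ : Set M) := by
          ext a
          constructor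
          · rintro ⟨ha | ha, h0⟩
            · exact hi0 ((e0 a ha).symm.trans h0).symm
            · exact hi1 ((e1 a ha).symm.trans h0).symm
          · exact fun ha => absurd ha (notMem_empty a)
        have eV : {a ∈ V1 ∪ V2 | π' a = i} = (∅ : Set M) := by
          ext a
          constructor
          · rintro ⟨ha | ha, h0⟩
            · exact hi0 ((e0' a ha).symm.trans h0).symm
            · exact hi1 ((e1' a ha).symm.trans h0).symm
          · exact fun ha => absurd ha (notMem_empty a)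
        rw [eU, eV]
        refine BFR.refl S ∅ γ ?_
        rintro a ⟨ha | ha, h0⟩
        · exact absurd ((e0 _ (hp1 a ha).1).symm.trans h0).symm hi0
        · exact absurd ((e1 _ (hp2 a ha).1).symm.trans h0).symm hi1

end NBA

end Pool.Agent.Helper97.LO

end

/-! ### formerly `Pool.Agent.Helper68.VCM.NBA2` -/

section

/-!
# Scott levels and tameness of convex pieces
-/

set_option autoImplicit false
set_option linter.unusedSectionVars false
set_option linter.unusedVariables false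

namespace Pool.Agent.Helper97.LO

open Set Pool.Agent.Helper5.DU Pool.Agent.Helper6.Str Pool.Agent.Helper79.VC
  Pool.Agent.Helper97.VC Pool.Agent.Helper97.MD

namespace NBA

variable {L : FirstOrder.Language.{0, 0}} {M N P : Type}
variable [Preorder M] {r : L.Relations 2} {o : Bool} {S : L.Structure M}

/-- the identity on a piece -/
theorem bfr_id (S : L.Structure M) (U : Set M) (γ : Ordinal.{0}) : BFR S S U U γ ∅ :=
  BFR.refl S U γ fun a ha => absurd ha (notMem_empty a)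

/-- upper parts inherit Scott levels -/
theorem SL_upper (hL : Ar2 L) (hO : OSt r o S) {X : Set M} {α : Ordinal.{0}} (h : SL S X α)
    {u : M} (hu : u ∈ X) : SL S {z ∈ X | u < z} α := by
  intro p hp hpX hb γ hγ
  have hsplit : X = {z ∈ X | z ≤ u} ∪ {z ∈ X | u < z} := by
    ext z
    constructor
    · intro hz
      by_cases hzu : z ≤ u
      · exact Or.inl ⟨hz, hzu⟩
      · exact Or.inr ⟨hz, (not_le hO).mp hzu⟩
    · rintro (hz | hz)
      · exact hz.1
      · exact hz.1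
  have hlt : ∀ a ∈ {z ∈ X | z ≤ u}, ∀ b ∈ {z ∈ X | u < z}, a < b :=
    fun a ha b hb => lt_of_le_of_lt ha.2 hb.2
  have h1 : BFR S S {z ∈ X | z ≤ u} {z ∈ X | z ≤ u} α {(u, u)} := by
    refine BFR.refl S _ α ?_
    rintro a rfl
    exact ⟨⟨hu, le_rfl⟩, rfl⟩
  have h2 := comp2 hL hO hlt hlt (p1 := {(u, u)}) (p2 := p) (by
    rintro a rfl
    exact ⟨⟨hu, le_rfl⟩, ⟨hu, le_rfl⟩⟩) hpX h1 hb
  rw [← hsplit] at h2
  have h3 := h _ ((finite_singleton _).union hp) (by
    rintro a (rfl | ha)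
    · exact ⟨hu, hu⟩
    · exact ⟨(hpX a ha).1.1, (hpX a ha).2.1⟩) h2 γ hγ
  have h4 : BFR S S {z ∈ X | u < z} {z ∈ X | u < z} γ ({(u, u)} ∪ p) := by
    refine BFR.restr₀ (fun z hz => hz.1) (fun z hz => hz.1) ?_ h3
    intro a ha b hb hab
    have := lt_at hO hab (a := (u, u)) (b := (a, b)) (Or.inr (Or.inl rfl)) (Or.inl rfl)
    constructor
    · exact fun h' => ⟨hb, this.mp h'.2⟩
    · exact fun h' => ⟨ha, this.mpr h'.2⟩
  exact BFR.anti subset_union_right h4

/-- closed intervals inherit Scott levels, up to three steps -/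
theorem SL_Icc (hL : Ar2 L) (hO : OSt r o S) {X : Set M} {α : Ordinal.{0}} (h : SL S X α)
    {u v : M} (hu : u ∈ X) (hv : v ∈ X) (huv : u ≤ v) :
    SL S (X ∩ Icc u v) (α + 1 + 1 + 1) := by
  intro p hp hpX hb γ hγ
  set X' : Set M := X ∩ Icc u v with hX'
  have huX' : u ∈ X' := ⟨hu, le_rfl, huv⟩
  have hvX' : v ∈ X' := ⟨hv, huv, le_rfl⟩
  obtain ⟨u', hu', h1⟩ := hb.forth (lt_add_one_self _) huX'
  obtain ⟨v', hv', h2⟩ := h1.forth (lt_add_one_self _) hvX'
  have hmemu : (u, u') ∈ insert (v, v') (insert (u, u') p) := Or.inr (Or.inl rfl)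
  have hmemv : (v, v') ∈ insert (v, v') (insert (u, u') p) := Or.inl rfl
  have hlow : ∀ z ∈ X', u' ≤ z := by
    intro z hz
    obtain ⟨w, hw, h3⟩ := h2.back (lt_add_one_self _) hz
    have := le_at hO h3.atEq (a := (u, u')) (b := (w, z)) (Or.inr hmemu) (Or.inl rfl)
    exact this.mp hw.2.1
  have hupp : ∀ z ∈ X', z ≤ v' := by
    intro z hz
    obtain ⟨w, hw, h3⟩ := h2.back (lt_add_one_self _) hz
    have := le_at hO h3.atEq (a := (w, z)) (b := (v, v')) (Or.inl rfl) (Or.inr hmemv)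
    exact this.mp hw.2.2
  have h3 := h2.mono (lt_add_one_self α).le
  -- extend to all of `X`
  have hsplit : X = ({z ∈ X | z < u} ∪ X') ∪ {z ∈ X | v < z} := by
    ext z
    constructor
    · intro hz
      by_cases hzu : u ≤ z
      · by_cases hzv : z ≤ v
        · exact Or.inl (Or.inr ⟨hz, hzu, hzv⟩)
        · exact Or.inr ⟨hz, (not_le hO).mp hzv⟩
      · exact Or.inl (Or.inl ⟨hz, (not_le hO).mp hzu⟩)
    · rintro ((hz | hz) | hz)
      · exact hz.1
      · exact hz.1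
      · exact hz.1
  have hlt1 : ∀ a ∈ {z ∈ X | z < u}, ∀ b ∈ X', a < b :=
    fun a ha b hb => lt_of_lt_of_le ha.2 hb.2.1
  have hlt2 : ∀ a ∈ {z ∈ X | z < u} ∪ X', ∀ b ∈ {z ∈ X | v < z}, a < b := by
    rintro a (ha | ha) b hb
    · exact (lt_of_lt_of_le ha.2 huv).trans hb.2
    · exact lt_of_le_of_lt ha.2.2 hb.2
  have hpX' : ∀ a ∈ insert (v, v') (insert (u, u') p), a.1 ∈ X' ∧ a.2 ∈ X' := by
    rintro a (rfl | rfl | ha)
    · exact ⟨hvX', hv'⟩
    · exact ⟨huX', hu'⟩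
    · exact hpX a ha
  have h4 := comp2 hL hO hlt1 hlt1 (p1 := ∅) (fun a ha => absurd ha (notMem_empty a)) hpX'
    (bfr_id S _ α) h3
  have h5 := comp2 hL hO hlt2 hlt2 (p2 := ∅) (by
    rintro a (ha | ha)
    · exact absurd ha (notMem_empty a)
    · exact ⟨Or.inr (hpX' a ha).1, Or.inr (hpX' a ha).2⟩)
    (fun a ha => absurd ha (notMem_empty a)) h4 (bfr_id S _ α)
  rw [← hsplit] at h5
  have h6 := h _ (by
    simp only [empty_union, union_empty]
    exact (hp.insert _).insert _) (by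
    rintro a ((ha | ha) | ha)
    · exact absurd ha (notMem_empty a)
    · exact ⟨(hpX' a ha).1.1, (hpX' a ha).2.1⟩
    · exact absurd ha (notMem_empty a)) h5 γ hγ
  simp only [empty_union, union_empty] at h6
  have h7 : BFR S S X' X' γ (insert (v, v') (insert (u, u') p)) := by
    refine BFR.restr₀ (fun z hz => hz.1) (fun z hz => hz.1) ?_ h6
    intro a ha b hb hab
    have hu1 := le_at hO hab (a := (u, u')) (b := (a, b)) (Or.inr hmemu) (Or.inl rfl)
    have hv1 := le_at hO hab (a := (a, b)) (b := (v, v')) (Or.inl rfl) (Or.inr hmemv)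
    constructor
    · intro h'
      exact ⟨hb, hu'.2.1.trans (hu1.mp h'.2.1), (hv1.mp h'.2.2).trans hv'.2.2⟩
    · intro h'
      exact ⟨ha, hu1.mpr (hlow b h'), hv1.mpr (hupp b h')⟩
  exact BFR.anti ((subset_insert _ _).trans (subset_insert _ _)) h7

/-- convex pieces definable by finitely many cuts -/
theorem tame_Icc (hO : OSt r o S) {X : Set M} (h : TameX S X) {u v : M} (hu : u ∈ X)
    (hv : v ∈ X) : TameX S (X ∩ Icc u v) := by
  classical
  refine h.sub {u, v} ?_ inter_subset_left (κ := 0) (Ordinal.omega_pos 1) ?_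
  · intro z hz
    simp only [Finset.coe_insert, Finset.coe_singleton, mem_insert_iff, mem_singleton_iff] at hz
    rcases hz with rfl | rfl
    · exact hu
    · exact hv
  · intro c hc c' hc' hcc
    have hmu : (u, u) ∈ insert (c, c') (dg (({u, v} : Finset M) : Set M)) :=
      Or.inr ⟨u, by simp, rfl⟩
    have hmv : (v, v) ∈ insert (c, c') (dg (({u, v} : Finset M) : Set M)) :=
      Or.inr ⟨v, by simp, rfl⟩
    have h1 := le_at hO hcc.atEq (a := (u, u)) (b := (c, c')) hmu (Or.inl rfl)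
    have h2 := le_at hO hcc.atEq (a := (c, c')) (b := (v, v)) (Or.inl rfl) hmv
    constructor
    · exact fun h' => ⟨hc', h1.mp h'.2.1, h2.mp h'.2.2⟩
    · exact fun h' => ⟨hc, h1.mpr h'.2.1, h2.mpr h'.2.2⟩

/-- **Sums of tame pieces along a countable linear order.** -/
theorem tame_sum (hL : Ar2 L) (hO : OSt r o S) {I : Type} [LinearOrder I] [Countable I]
    (π : M → I) {D : Set M} (hπ : ∀ a ∈ D, ∀ b ∈ D, π a < π b → a < b)
    (h : ∀ i, TameX S {a ∈ D | π a = i}) : TameX S D := by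
  have h1 : ∀ i, ∃ B : Set M, B.Countable ∧ B ⊆ {a ∈ D | π a = i} ∧
      BFI S S {a ∈ D | π a = i} B ∅ := by
    intro i
    obtain ⟨B, hB1, -, hB2, hB3⟩ := (h i).exists_closed countable_empty (empty_subset _)
    refine ⟨B, hB1, hB2, fun γ hγ => ?_⟩
    have hclo : Clo S {a ∈ D | π a = i} γ B := by
      intro F hF c hc
      obtain ⟨d, hd, hcd⟩ := hB3 F (hF.trans inter_subset_left) c hc
      exact ⟨d, ⟨hd, hB2 hd⟩, hcd γ hγ⟩
    have h2 := hclo.bfr finite_empty (empty_subset _)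
    rw [inter_eq_left.2 hB2] at h2
    exact BFR.anti (empty_subset _) h2
  choose B hB1 hB2 hB3 using h1
  refine ⟨M, S, ⋃ i, B i, countable_iUnion hB1, fun γ hγ => ?_⟩
  have hsub : ∀ b ∈ ⋃ i, B i, b ∈ D ∧ b ∈ B (π b) := by
    intro b hb
    obtain ⟨i, hi⟩ := mem_iUnion.mp hb
    have h2 := hB2 i hi
    refine ⟨h2.1, ?_⟩
    have h3 : π b = i := h2.2
    rw [h3]
    exact hi
  refine comp_lin hL hO π π hπ (fun a ha b hb => hπ a (hsub a ha).1 b (hsub b hb).1) γ
    (fun a ha => absurd ha (notMem_empty a)) fun i => ?_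
  have e : {b ∈ ⋃ i, B i | π b = i} = B i := by
    ext b
    constructor
    · rintro ⟨hb, rfl⟩
      exact (hsub b hb).2
    · intro hb
      exact ⟨mem_iUnion.mpr ⟨i, hb⟩, (hB2 i hb).2⟩
  rw [e]
  refine BFR.anti ?_ (hB3 i γ hγ)
  rintro a ⟨ha, -⟩
  exact ha

/-- the elements above `x` whose interval is tame -/
abbrev DD (S : L.Structure M) (x : M) : Set M := {y | x ≤ y ∧ TameX S (Icc x y)}

/-- the elements above `x` whose interval has a Scott level below `lam` -/
abbrev PP (S : L.Structure M) (x : M) (lam : Ordinal.{0}) : Set M :=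
  {z | x ≤ z ∧ ∃ a < lam, SL S (Icc x z) a}

/-- subintervals of tame intervals are tame -/
theorem tame_Icc_mono (hO : OSt r o S) {x y u v : M} (h : TameX S (Icc x y)) (hxu : x ≤ u)
    (hvy : v ≤ y) : TameX S (Icc u v) := by
  by_cases huv : u ≤ v
  · have h1 := tame_Icc hO h (u := u) (v := v) ⟨hxu, huv.trans hvy⟩ ⟨hxu.trans huv, hvy⟩
    have e : Icc x y ∩ Icc u v = Icc u v :=
      inter_eq_right.mpr (Icc_subset_Icc hxu hvy)
    rwa [e] at h1
  · rw [Icc_eq_empty huv]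
    exact tameX_of_countable countable_empty

/-- (A1) -/
theorem DD_init (hO : OSt r o S) {x y z : M} (hy : y ∈ DD S x) (hxz : x ≤ z) (hzy : z ≤ y) :
    z ∈ DD S x := ⟨hxz, tame_Icc_mono hO hy.2 le_rfl hzy⟩

theorem DD_tame (hO : OSt r o S) {x u v : M} (hu : u ∈ DD S x) (hv : v ∈ DD S x) :
    TameX S (Icc u v) := tame_Icc_mono hO hv.2 hu.1 le_rfl

/-- (A2) with a countable cofinal subset -/
theorem tame_of_cofinal (hL : Ar2 L) (hO : OSt r o S) {x : M} {C : Set M} (hC : C.Countable)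
    (hCD : C ⊆ DD S x) (hcof : ∀ y ∈ DD S x, ∃ c ∈ C, y ≤ c) : TameX S (DD S x) := by
  classical
  rcases C.eq_empty_or_nonempty with hCe | hCn
  · have hD : DD S x = ∅ := by
      ext y
      constructor
      · intro hy
        obtain ⟨c, hc, -⟩ := hcof y hy
        rw [hCe] at hc
        exact absurd hc (notMem_empty c)
      · exact fun hy => absurd hy (notMem_empty y)
    rw [hD]
    exact tameX_of_countable countable_empty
  obtain ⟨e, he⟩ := hC.exists_eq_range hCn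
  have heD : ∀ n, e n ∈ DD S x := fun n => hCD (he ▸ mem_range_self n)
  have hex : ∀ z ∈ DD S x, ∃ n, z ≤ e n := by
    intro z hz
    obtain ⟨c, hc, hzc⟩ := hcof z hz
    rw [he] at hc
    obtain ⟨n, rfl⟩ := hc
    exact ⟨n, hzc⟩
  let π : M → ℕ := fun z => sInf {n | z ≤ e n}
  have hπ1 : ∀ z ∈ DD S x, z ≤ e (π z) := fun z hz => Nat.sInf_mem (hex z hz)
  have hπ2 : ∀ z n, n < π z → ¬ z ≤ e n := fun z n hn => Nat.notMem_of_lt_sInf hn
  refine tame_sum hL hO π ?_ fun n => ?_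
  · intro a ha b hb hab
    exact lt_of_le_of_lt (hπ1 a ha) ((not_le hO).mp (hπ2 b _ hab))
  · by_cases hn : ∃ k < n, e n ≤ e k
    · obtain ⟨k, hk, hek⟩ := hn
      have : {a ∈ DD S x | π a = n} = ∅ := by
        ext a
        constructor
        · rintro ⟨ha, hπa⟩
          refine hπ2 a k (hπa ▸ hk) ?_
          exact (hπa ▸ hπ1 a ha : a ≤ e n).trans hek
        · exact fun ha => absurd ha (notMem_empty a)
      rw [this]
      exact tameX_of_countable countable_empty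
    · push Not at hn
      have hlt : ∀ k < n, e k < e n := fun k hk => (not_le hO).mp (hn k hk)
      refine (heD n).2.sub ((Finset.range n).image e) ?_ ?_ (κ := 0) (Ordinal.omega_pos 1) ?_
      · intro z hz
        rw [Finset.coe_image] at hz
        obtain ⟨k, hk, rfl⟩ := hz
        exact ⟨(heD k).1, (hlt k (by simpa using hk)).le⟩
      · rintro a ⟨ha, hπa⟩
        exact ⟨ha.1, hπa ▸ hπ1 a ha⟩
      · intro c hc c' hc' hcc
        have key : ∀ k < n, (c ≤ e k ↔ c' ≤ e k) := by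
          intro k hk
          exact le_at hO hcc.atEq (a := (c, c')) (b := (e k, e k)) (Or.inl rfl)
            (Or.inr ⟨e k, by rw [Finset.coe_image]; exact ⟨k, by simpa using hk, rfl⟩, rfl⟩)
        have hiff : ∀ c ∈ Icc x (e n), (c ∈ {a ∈ DD S x | π a = n} ↔ ∀ k < n, ¬ c ≤ e k) := by
          intro c hc
          constructor
          · rintro ⟨hcD, hπc⟩ k hk
            exact hπ2 c k (hπc ▸ hk)
          · intro h
            have hcD : c ∈ DD S x := DD_init hO (heD n) hc.1 hc.2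
            refine ⟨hcD, le_antisymm (Nat.sInf_le hc.2) ?_⟩
            by_contra hlt'
            push Not at hlt'
            exact h _ hlt' (hπ1 c hcD)
        rw [hiff c hc, hiff c' hc']
        exact forall₂_congr fun k hk => by rw [key k hk]

/-- (A3) the cut `PP` is an initial segment -/
theorem PP_init (hL : Ar2 L) (hO : OSt r o S) {x y z : M} {lam : Ordinal.{0}}
    (hlam : ∀ a < lam, a + Ordinal.omega0 < lam) (hy : y ∈ PP S x lam) (hxz : x ≤ z)
    (hzy : z ≤ y) : z ∈ PP S x lam := by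
  obtain ⟨hxy, a, ha, hSL⟩ := hy
  refine ⟨hxz, a + 1 + 1 + 1, ?_, ?_⟩
  · refine lt_of_le_of_lt ?_ (hlam a ha)
    have : a + 1 + 1 + 1 = a + ((3 : ℕ) : Ordinal.{0}) := by
      rw [add_assoc, add_assoc]
      norm_num
    rw [this]
    gcongr
    exact (Ordinal.natCast_lt_omega0 3).le
  · have h1 := SL_Icc hL hO hSL (u := x) (v := z) ⟨le_rfl, hxy⟩ ⟨hxz, hzy⟩ hxz
    have e : Icc x y ∩ Icc x z = Icc x z := inter_eq_right.mpr (Icc_subset_Icc le_rfl hzy)
    rwa [e] at h1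

/-- (A3) the cut `PP` is definable over `x` -/
theorem PP_def (hO : OSt r o S) {x z x' z' : M} {lam : Ordinal.{0}} (h1 : lam ≤ om1)
    (hlam : ∀ a < lam, a + Ordinal.omega0 < lam)
    (h : BFR S S univ univ lam {(z, z'), (x, x')}) : z ∈ PP S x lam ↔ z' ∈ PP S x' lam := by
  have hle : x ≤ z ↔ x' ≤ z' :=
    le_at hO h.atEq (a := (x, x')) (b := (z, z')) (Or.inr rfl) (Or.inl rfl)
  have h2 : BFR S S (Icc x z) (Icc x' z') lam {(z, z'), (x, x')} := by
    refine BFR.restr₀ (subset_univ _) (subset_univ _) ?_ h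
    intro c _ c' _ hcc
    have e1 := le_at hO hcc (a := (x, x')) (b := (c, c')) (Or.inr (Or.inr rfl)) (Or.inl rfl)
    have e2 := le_at hO hcc (a := (c, c')) (b := (z, z')) (Or.inl rfl) (Or.inr (Or.inl rfl))
    exact and_congr e1 e2
  have h3 := SL.lt_congr h1 hlam (BFR.anti (empty_subset _) h2)
  exact and_congr hle h3

end NBA

end Pool.Agent.Helper97.LO

end

/-! ### formerly `Pool.Agent.Helper68.VCM.NBA3` -/

section

/-!
# The bounded case of nested tame intervals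
-/

set_option autoImplicit false
set_option linter.unusedSectionVars false
set_option linter.unusedVariables false

namespace Pool.Agent.Helper97.LO

open Set Pool.Agent.Helper5.DU Pool.Agent.Helper6.Str Pool.Agent.Helper79.VC
  Pool.Agent.Helper97.VC Pool.Agent.Helper97.MD

namespace NBA

variable {L : FirstOrder.Language.{0, 0}} {M N P : Type}

/-- closed sets are closed in definable pieces -/
theorem clo_sub {S : L.Structure M} {X X' : Set M} {γ : Ordinal.{0}} {A : Set M}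
    (h : Clo S X γ A) (hX' : X' ⊆ X) (F0 : Finset M) (hF0 : (F0 : Set M) ⊆ A ∩ X)
    (H : ∀ c ∈ X, ∀ c' ∈ X, AtEq S S (insert (c, c') (dg (F0 : Set M))) →
      (c ∈ X' ↔ c' ∈ X')) : Clo S X' γ A := by
  classical
  intro F hF c hc
  obtain ⟨d, hd, hcd⟩ := h (F ∪ F0) (by
    rw [Finset.coe_union]
    exact union_subset (fun z hz => ⟨(hF hz).1, hX' (hF hz).2⟩) hF0) c (hX' hc)
  have hsub : insert (c, d) (dg (F0 : Set M)) ⊆ insert (c, d) (dg ((F ∪ F0 : Finset M) : Set M)) := by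
    refine insert_subset_insert (image_mono ?_)
    rw [Finset.coe_union]
    exact subset_union_right
  have hdX' : d ∈ X' := (H c (hX' hc) d hd.2 (AtEq.anti hsub hcd.atEq)).mp hc
  refine ⟨d, ⟨hd.1, hdX'⟩, ?_⟩
  have h1 : BFR S S X' X' γ (insert (c, d) (dg ((F ∪ F0 : Finset M) : Set M))) := by
    refine BFR.restr₀ hX' hX' ?_ hcd
    intro a ha b hb hab
    refine H a ha b hb (AtEq.anti ?_ hab)
    refine insert_subset_insert ?_
    exact (subset_insert _ _).trans hsub |>.trans Subset.rfl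
  refine BFR.anti (insert_subset_insert (image_mono ?_)) h1
  rw [Finset.coe_union]
  exact subset_union_left

/-- a countable ordinal closed under addition above a given one -/
theorem exists_addClosed {lam : Ordinal.{0}} (h : lam < om1) :
    ∃ μ < om1, lam ≤ μ ∧ ∀ a < μ, a + Ordinal.omega0 < μ := by
  obtain ⟨A, μ, -, -, h1, h2, h3, -⟩ := exists_pair (M := ℕ) (fun _ _ => ∅)
    (fun _ _ _ => countable_empty) (fun _ _ => 0) (fun _ _ _ => Ordinal.omega_pos 1)
    (A₀ := ∅) countable_empty (μ := max lam Ordinal.omega0) (max_lt h omega_lt_om1)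
  exact ⟨μ, h2, (le_max_left _ _).trans h1.le, fun a ha =>
    h3 a ha _ ((le_max_right _ _).trans_lt h1)⟩

variable [Preorder M] {r : L.Relations 2} {o : Bool} {S : L.Structure M}

theorem PP_mono {x : M} {lam μ : Ordinal.{0}} (h : lam ≤ μ) : PP S x lam ⊆ PP S x μ := by
  rintro z ⟨hz, a, ha, hSL⟩
  exact ⟨hz, a, ha.trans_le h, hSL⟩

/-- the elements of `D` above `u` -/
abbrev Dgt (S : L.Structure M) (x u : M) : Set M := {z ∈ DD S x | u < z}

/-- the elements above `u` and below some element of `A` -/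
abbrev low (A : Set M) (u : M) : Set M := {z | u < z ∧ ∃ a ∈ A, z ≤ a}

/-- the part of `D` between `u` and the supremum of a closed set -/
theorem low_bfr (hL : Ar2 L) (hO : OSt r o S) {x : M} {A : Set M} {ρ : Ordinal.{0}}
    (hAc : A.Countable) (hAD : A ⊆ DD S x) (hA : Clo S (DD S x) ρ A) {u : M} (hu : u ∈ A) :
    BFR S S (low A u) (A ∩ Dgt S x u) ρ ∅ := by
  classical
  obtain ⟨e, he⟩ := hAc.exists_eq_range ⟨u, hu⟩
  have heA : ∀ n, e n ∈ A := fun n => he ▸ mem_range_self n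
  have hlowD : ∀ z ∈ low A u, z ∈ DD S x := by
    rintro z ⟨hz, a, ha, hza⟩
    exact DD_init hO (hAD ha) ((hAD hu).1.trans hz.le) hza
  have hex : ∀ z, (∃ a ∈ A, z ≤ a) → ∃ n, z ≤ e n := by
    rintro z ⟨a, ha, hza⟩
    rw [he] at ha
    obtain ⟨n, rfl⟩ := ha
    exact ⟨n, hza⟩
  let π : M → ℕ := fun z => sInf {n | z ≤ e n}
  have hπ1 : ∀ z, (∃ a ∈ A, z ≤ a) → z ≤ e (π z) := fun z hz => Nat.sInf_mem (hex z hz)
  have hπ2 : ∀ z n, n < π z → ¬ z ≤ e n := fun z n hn => Nat.notMem_of_lt_sInf hn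
  have hmon : ∀ a b, (∃ c ∈ A, a ≤ c) → π a < π b → a < b := by
    intro a b ha hab
    exact lt_of_le_of_lt (hπ1 a ha) ((not_le hO).mp (hπ2 b _ hab))
  refine comp_lin hL hO π π (fun a ha b hb => hmon a b ha.2)
    (fun a ha b hb => hmon a b ⟨a, ha.1, le_rfl⟩) ρ
    (fun a ha => absurd ha (notMem_empty a)) fun n => ?_
  -- the part of index `n`
  set X' : Set M := {z ∈ low A u | π z = n} with hX'
  have hchar : ∀ z ∈ DD S x, (z ∈ X' ↔ u < z ∧ z ≤ e n ∧ ∀ k < n, ¬ z ≤ e k) := by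
    intro z hz
    constructor
    · rintro ⟨hz1, hz2⟩
      refine ⟨hz1.1, hz2 ▸ hπ1 z hz1.2, fun k hk => hπ2 z k (hz2 ▸ hk)⟩
    · rintro ⟨hz1, hz2, hz3⟩
      have hz4 : ∃ a ∈ A, z ≤ a := ⟨e n, heA n, hz2⟩
      refine ⟨⟨hz1, hz4⟩, le_antisymm (Nat.sInf_le hz2) ?_⟩
      by_contra hlt'
      push Not at hlt'
      exact hz3 _ hlt' (hπ1 z hz4)
  have hclo : Clo S X' ρ A := by
    refine clo_sub hA (fun z hz => hlowD z hz.1) (insert u ((Finset.range (n + 1)).image e)) ?_ ?_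
    · intro z hz
      rw [Finset.coe_insert, Finset.coe_image] at hz
      rcases hz with rfl | ⟨k, -, rfl⟩
      · exact ⟨hu, hAD hu⟩
      · exact ⟨heA k, hAD (heA k)⟩
    · intro c hc c' hc' hcc
      have key : ∀ k ≤ n, (c ≤ e k ↔ c' ≤ e k) := by
        intro k hk
        refine le_at hO hcc (a := (c, c')) (b := (e k, e k)) (Or.inl rfl) (Or.inr ⟨e k, ?_, rfl⟩)
        rw [Finset.coe_insert, Finset.coe_image]
        refine Or.inr ⟨k, ?_, rfl⟩
        simp only [Finset.coe_range, mem_Iio]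
        omega
      have keyu : u < c ↔ u < c' := by
        refine lt_at hO hcc (a := (u, u)) (b := (c, c')) (Or.inr ⟨u, ?_, rfl⟩) (Or.inl rfl)
        rw [Finset.coe_insert]
        exact mem_insert _ _
      rw [hchar c hc, hchar c' hc', keyu, key n le_rfl]
      refine and_congr_right fun _ => and_congr_right fun _ => ?_
      exact forall₂_congr fun k hk => by rw [key k hk.le]
  have h1 := hclo.bfr finite_empty (empty_subset _)
  have e2 : A ∩ X' = {b ∈ A ∩ Dgt S x u | π b = n} := by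
    ext z
    constructor
    · rintro ⟨hzA, hz⟩
      exact ⟨⟨hzA, hAD hzA, hz.1.1⟩, hz.2⟩
    · rintro ⟨⟨hzA, -, hz⟩, hz2⟩
      exact ⟨hzA, ⟨hz, z, hzA, le_rfl⟩, hz2⟩
  rw [e2] at h1
  refine BFR.anti ?_ h1
  rintro a ⟨ha, -⟩
  exact absurd ha (notMem_empty a)

/-- the rest of `D` above `u` is determined at level `μ + ω` -/
theorem tail_inf (hL : Ar2 L) (hO : OSt r o S) {x : M} {μ : Ordinal.{0}} (hμ : μ < om1)
    (hSm : Small S (DD S x)) (hSL : ∀ v ∈ DD S x, SL S (Icc x v) μ)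
    (hnc : ∀ C : Set M, C.Countable → C ⊆ DD S x → ∃ v ∈ DD S x, ∀ c ∈ C, c < v)
    {u u' : M} (hu : u ∈ DD S x) (hu' : u' ∈ DD S x)
    (h : BFR S S (Dgt S x u) (Dgt S x u') (μ + Ordinal.omega0) ∅) :
    BFI S S (Dgt S x u) (Dgt S x u') ∅ := by
  classical
  set ρ : Ordinal.{0} := μ + Ordinal.omega0 with hρ
  have hρ1 : ρ < om1 := add_lt_om1 hμ omega_lt_om1
  obtain ⟨f, hf1, hf2, hf3⟩ := hSm.exists_wit
  obtain ⟨A0, hA0c, hA0⟩ := exists_closed (fun F => f F ρ ∪ {u, u'})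
    (fun F => (hf1 F ρ).union ((countable_singleton _).insert _))
  set A : Set M := A0 ∩ DD S x with hA
  have hAc : A.Countable := hA0c.mono inter_subset_left
  have hAD : A ⊆ DD S x := inter_subset_right
  have huA : u ∈ A := ⟨hA0 ∅ (by simp) (Or.inr (Or.inl rfl)), hu⟩
  have huA' : u' ∈ A := ⟨hA0 ∅ (by simp) (Or.inr (Or.inr rfl)), hu'⟩
  have hclo : Clo S (DD S x) ρ A := by
    refine hf3 A ρ hρ1 fun F hF => ?_
    intro z hz
    exact ⟨hA0 F (fun w hw => (hF hw).1.1) (Or.inl hz), hf2 F ρ hz⟩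
  obtain ⟨v, hv, hvA⟩ := hnc A hAc hAD
  -- the parts above `u` of the closed set
  have htail : ∀ w ∈ A, BFR S S (Dgt S x w) (A ∩ Dgt S x w) ρ ∅ := by
    intro w hw
    have h1 : Clo S (Dgt S x w) ρ A := by
      refine clo_sub hclo (fun z hz => hz.1) {w} ?_ ?_
      · intro z hz
        rw [Finset.coe_singleton] at hz
        rw [mem_singleton_iff.mp hz]
        exact ⟨hw, hAD hw⟩
      · intro c hc c' hc' hcc
        have h2 := lt_at hO hcc (a := (w, w)) (b := (c, c')) (Or.inr ⟨w, by simp, rfl⟩)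
          (Or.inl rfl)
        constructor
        · exact fun h' => ⟨hc', h2.mp h'.2⟩
        · exact fun h' => ⟨hc, h2.mpr h'.2⟩
    exact BFR.anti (empty_subset _) (h1.bfr finite_empty (empty_subset _))
  have hno : ∀ {X Y : Type} (a : X × Y), a ∈ (∅ : Set (X × Y)) → False :=
    fun a ha => notMem_empty a ha
  have hlow : BFR S S (low A u) (low A u') ρ ∅ := by
    have h1 := low_bfr hL hO hAc hAD hclo huA
    have h2 : BFR S S (A ∩ Dgt S x u) (Dgt S x u) ρ ∅ := (htail u huA).symm fun a ha => (hno a ha).elim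
    have h3 := htail u' huA'
    have h4 : BFR S S (A ∩ Dgt S x u') (low A u') ρ ∅ :=
      (low_bfr hL hO hAc hAD hclo huA').symm fun a ha => (hno a ha).elim
    have h5 : BFR S S (low A u) (Dgt S x u) ρ ∅ := h1.trans h2 fun a ha => (hno a ha).elim
    have h6 : BFR S S (low A u) (Dgt S x u') ρ ∅ := h5.trans h fun a ha => (hno a ha).elim
    have h7 : BFR S S (low A u) (A ∩ Dgt S x u') ρ ∅ := h6.trans h3 fun a ha => (hno a ha).elim
    exact h7.trans h4 fun a ha => (hno a ha).elim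
  have hsplit : ∀ w ∈ A, Ioc w v = low A w ∪ {z | (∀ a ∈ A, a < z) ∧ z ≤ v} := by
    intro w hw
    ext z
    constructor
    · rintro ⟨h1, h2⟩
      by_cases h3 : ∃ a ∈ A, z ≤ a
      · exact Or.inl ⟨h1, h3⟩
      · push Not at h3
        exact Or.inr ⟨fun a ha => (not_le hO).mp (h3 a ha), h2⟩
    · rintro (⟨h1, a, ha, h2⟩ | ⟨h1, h2⟩)
      · exact ⟨h1, h2.trans (hvA a ha).le⟩
      · exact ⟨h1 w hw, h2⟩
  have hlt : ∀ w, ∀ a ∈ low A w, ∀ b ∈ {z | (∀ a ∈ A, a < z) ∧ z ≤ v}, a < b := by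
    rintro w a ⟨-, c, hc, hac⟩ b ⟨hb, -⟩
    exact lt_of_le_of_lt hac (hb c hc)
  have h1 : BFR S S (Ioc u v) (Ioc u' v) ρ ∅ := by
    have h2 := comp2 hL hO (hlt u) (hlt u') (p1 := ∅) (p2 := ∅) (fun a ha => (hno a ha).elim)
      (fun a ha => (hno a ha).elim) hlow (bfr_id S _ ρ)
    rw [← hsplit u huA, ← hsplit u' huA'] at h2
    simpa using h2
  have hSLu : SL S (Ioc u v) μ := by
    have h2 := SL_upper hL hO (hSL v hv) (u := u) ⟨hu.1, (hvA u huA).le⟩
    have e : {z ∈ Icc x v | u < z} = Ioc u v := by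
      ext z
      constructor
      · rintro ⟨⟨-, h3⟩, h4⟩
        exact ⟨h4, h3⟩
      · rintro ⟨h3, h4⟩
        exact ⟨⟨hu.1.trans h3.le, h4⟩, h3⟩
    rwa [e] at h2
  have h3 : BFI S S (Ioc u v) (Ioc u' v) ∅ := fun γ _ =>
    hSLu.det' hμ finite_empty (fun a ha => (hno a ha).elim) h1 γ
  have hD : ∀ w ∈ A, Dgt S x w = Ioc w v ∪ Dgt S x v := by
    intro w hw
    ext z
    constructor
    · rintro ⟨hz1, hz2⟩
      by_cases hzv : z ≤ v
      · exact Or.inl ⟨hz2, hzv⟩
      · exact Or.inr ⟨hz1, (not_le hO).mp hzv⟩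
    · rintro (⟨hz1, hz2⟩ | ⟨hz1, hz2⟩)
      · exact ⟨DD_init hO hv ((hAD hw).1.trans hz1.le) hz2, hz1⟩
      · exact ⟨hz1, (hvA w hw).trans hz2⟩
  have hlt2 : ∀ w, ∀ a ∈ Ioc w v, ∀ b ∈ Dgt S x v, a < b :=
    fun w a ha b hb => lt_of_le_of_lt ha.2 hb.2
  intro γ hγ
  have h4 := comp2 hL hO (hlt2 u) (hlt2 u') (p1 := ∅) (p2 := ∅) (fun a ha => (hno a ha).elim)
    (fun a ha => (hno a ha).elim) (h3 γ hγ) (bfr_id S _ γ)
  rw [← hD u huA, ← hD u' huA'] at h4
  simpa using h4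

end NBA

end Pool.Agent.Helper97.LO

end

/-! ### formerly `Pool.Agent.Helper68.VCM.NBA4` -/

section

/-!
# The bounded case of nested tame intervals: conclusion
-/

set_option autoImplicit false
set_option linter.unusedSectionVars false
set_option linter.unusedVariables false

namespace Pool.Agent.Helper97.LO

open Set Pool.Agent.Helper5.DU Pool.Agent.Helper6.Str Pool.Agent.Helper79.VC
  Pool.Agent.Helper97.VC Pool.Agent.Helper97.MD

namespace NBA

section

variable {L : FirstOrder.Language.{0, 0}} {M N P : Type}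
variable [∀ n, IsEmpty (L.Functions n)] [∀ n, Countable (L.Relations n)]
  {K : Set (L.Structure ℕ)} {δ : Ordinal.{0}} {S : L.Structure M}
variable [Preorder M] {r : L.Relations 2} {o : Bool}

/-- intervals are small -/
theorem Icc_small (hS : VSt K δ S) (hO : OSt r o S) (x y : M) : Small S (Icc x y) := by
  classical
  refine hS.small_sub {x, y} (κ := 0) (Ordinal.omega_pos 1) ?_
  intro c c' hcc
  have h1 := le_at hO hcc.atEq (a := (x, x)) (b := (c, c')) (Or.inr ⟨x, by simp, rfl⟩)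
    (Or.inl rfl)
  have h2 := le_at hO hcc.atEq (a := (c, c')) (b := (y, y)) (Or.inl rfl)
    (Or.inr ⟨y, by simp, rfl⟩)
  exact and_congr h1 h2

theorem PP_subset (hS : VSt K δ S) (hO : OSt r o S) {x : M} {lam : Ordinal.{0}}
    (hlam : lam ≤ om1) : PP S x lam ⊆ DD S x := by
  rintro z ⟨hz, a, ha, hSL⟩
  exact ⟨hz, hSL.tame (Icc_small hS hO x z) (ha.trans_le hlam)⟩

/-- every element of `D` lies in some cut -/
theorem DD_mem_PP {x z : M} (hz : z ∈ DD S x) : ∃ lam < om1, z ∈ PP S x lam := by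
  obtain ⟨a, ha, hSL⟩ := hz.2.exists_SL
  exact ⟨a + 1, add_one_lt_om1 ha, hz.1, a, lt_add_one_self a, hSL⟩

/-- (A4) **The bounded case.** -/
theorem bounded (hL : Ar2 L) (hS : VSt K δ S) (hO : OSt r o S) (x : M) {lam : Ordinal.{0}}
    (hlam : lam < om1) (hb : DD S x ⊆ PP S x lam) : TameX S (DD S x) := by
  classical
  rcases (DD S x).eq_empty_or_nonempty with hDe | ⟨y0, hy0⟩
  · rw [hDe]
    exact tameX_of_countable countable_empty
  by_cases hnc : ∃ C : Set M, C.Countable ∧ C ⊆ DD S x ∧ ∀ y ∈ DD S x, ∃ c ∈ C, y ≤ c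
  · obtain ⟨C, h1, h2, h3⟩ := hnc
    exact tame_of_cofinal hL hO h1 h2 h3
  have hnc' : ∀ C : Set M, C.Countable → C ⊆ DD S x → ∃ v ∈ DD S x, ∀ c ∈ C, c < v := by
    intro C hC hCD
    push Not at hnc
    obtain ⟨v, hv, hvC⟩ := hnc C hC hCD
    exact ⟨v, hv, fun c hc => (not_le hO).mp (hvC c hc)⟩
  obtain ⟨μ, hμ, hlμ, hadd⟩ := exists_addClosed hlam
  have hDP : DD S x = PP S x μ :=
    Subset.antisymm (hb.trans (PP_mono hlμ)) (PP_subset hS hO hμ.le)
  have hSL : ∀ v ∈ DD S x, SL S (Icc x v) μ := by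
    intro v hv
    rw [hDP] at hv
    obtain ⟨-, a, ha, h⟩ := hv
    exact h.mono ha.le
  have hdef : ∀ z z', BFR S S univ univ μ {(z, z'), (x, x)} → (z ∈ DD S x ↔ z' ∈ DD S x) := by
    intro z z' h
    rw [hDP]
    exact PP_def hO hμ.le hadd h
  have hSm : Small S (DD S x) := by
    refine hS.small_sub {x} hμ fun c c' hcc => hdef c c' (BFR.anti ?_ hcc)
    rintro a (rfl | rfl)
    · exact Or.inl rfl
    · exact Or.inr ⟨x, by simp, rfl⟩
  have hno : ∀ {X Y : Type} (a : X × Y), a ∈ (∅ : Set (X × Y)) → False :=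
    fun a ha => notMem_empty a ha
  refine tameX_of_inf fun F hF => ?_
  -- an upper bound of `F`
  obtain ⟨m, hm, hFm⟩ : ∃ m ∈ DD S x, ∀ f ∈ F, f ≤ m := by
    obtain ⟨v, hv, hvF⟩ := hnc' (F : Set M) F.countable_toSet hF
    exact ⟨v, hv, fun f hf => (hvF f hf).le⟩
  have hFI : (F : Set M) ⊆ Icc x m := fun f hf => ⟨(hF hf).1, hFm f hf⟩
  obtain ⟨κ₁, hκ₁⟩ := hm.2.types F hFI
  set γ₀ : Ordinal.{0} := μ + (μ + Ordinal.omega0) with hγ₀
  have hγ₀' : γ₀ < om1 := add_lt_om1 hμ (add_lt_om1 hμ omega_lt_om1)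
  obtain ⟨κ₂, hκ₂⟩ := hS.code hγ₀' 3
  have hsplit : DD S x = Icc x m ∪ Dgt S x m := by
    ext z
    constructor
    · intro hz
      by_cases hzm : z ≤ m
      · exact Or.inl ⟨hz.1, hzm⟩
      · exact Or.inr ⟨hz, (not_le hO).mp hzm⟩
    · rintro (hz | hz)
      · exact DD_init hO hm hz.1 hz.2
      · exact hz.1
  have hlt0 : ∀ a ∈ Icc x m, ∀ b ∈ Dgt S x m, a < b := fun a ha b hb =>
    lt_of_le_of_lt ha.2 hb.2
  refine ⟨fun c => if c ≤ m then 2 * κ₁ c else 2 * κ₂ ![x, m, c] + 1, fun c hc c' hc' hcc => ?_⟩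
  by_cases h1 : c ≤ m
  · have h2 : c' ≤ m := by
      by_contra h2
      simp only [if_pos h1, if_neg h2] at hcc
      omega
    simp only [if_pos h1, if_pos h2] at hcc
    have h3 := hκ₁ c ⟨hc.1, h1⟩ c' ⟨hc'.1, h2⟩ (by omega)
    intro γ hγ
    have h4 := comp2 hL hO hlt0 hlt0 (p2 := ∅) (by
      rintro a (rfl | ⟨f, hf, rfl⟩)
      · exact ⟨⟨hc.1, h1⟩, ⟨hc'.1, h2⟩⟩
      · exact ⟨hFI hf, hFI hf⟩) (fun a ha => (hno a ha).elim) (h3 γ hγ) (bfr_id S _ γ)
    rw [← hsplit] at h4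
    simpa using h4
  · have h2 : ¬ c' ≤ m := by
      intro h2
      simp only [if_neg h1, if_pos h2] at hcc
      omega
    simp only [if_neg h1, if_neg h2] at hcc
    have h1' := (not_le hO).mp h1
    have h2' := (not_le hO).mp h2
    have h3 := hκ₂ ![x, m, c] ![x, m, c'] (by omega)
    have hpx : (x, x) ∈ pr ![x, m, c] ![x, m, c'] := ⟨0, rfl⟩
    have hpm : (m, m) ∈ pr ![x, m, c] ![x, m, c'] := ⟨1, rfl⟩
    have hpc : (c, c') ∈ pr ![x, m, c] ![x, m, c'] := ⟨2, rfl⟩
    -- the interval between `m` and `c`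
    have h4 : BFR S S (Ioc m c) (Ioc m c') (μ + Ordinal.omega0) {(c, c')} := by
      have h5 : BFR S S (Ioc m c) (Ioc m c') γ₀ (pr ![x, m, c] ![x, m, c']) := by
        refine BFR.restr₀ (subset_univ _) (subset_univ _) ?_ h3
        intro a _ b _ hab
        exact and_congr (lt_at hO hab (a := (m, m)) (b := (a, b)) (Or.inr hpm) (Or.inl rfl))
          (le_at hO hab (a := (a, b)) (b := (c, c')) (Or.inl rfl) (Or.inr hpc))
      refine BFR.anti ?_ (h5.mono (le_add_self))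
      rintro a rfl
      exact hpc
    have hSLc : SL S (Ioc m c) μ := by
      have h5 := SL_upper hL hO (hSL c hc) (u := m) ⟨hm.1, h1'.le⟩
      have e : {z ∈ Icc x c | m < z} = Ioc m c := by
        ext z
        constructor
        · rintro ⟨⟨-, h6⟩, h7⟩
          exact ⟨h7, h6⟩
        · rintro ⟨h6, h7⟩
          exact ⟨⟨hm.1.trans h6.le, h7⟩, h6⟩
      rwa [e] at h5
    have h5 : ∀ γ, BFR S S (Ioc m c) (Ioc m c') γ {(c, c')} := fun γ =>
      hSLc.det' hμ (finite_singleton _) (by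
        rintro a rfl
        exact ⟨⟨h1', le_rfl⟩, ⟨h2', le_rfl⟩⟩) h4 γ
    -- the rest above `c`
    have h6 : BFR S S (Dgt S x c) (Dgt S x c') (μ + Ordinal.omega0) ∅ := by
      have h7 : BFR S S (Dgt S x c) (Dgt S x c') (μ + Ordinal.omega0)
          (pr ![x, m, c] ![x, m, c']) := by
        refine BFR.restr (subset_univ _) (subset_univ _) μ _ ?_ h3
        intro a _ b _ hab
        refine and_congr (hdef a b (BFR.anti ?_ hab))
          (lt_at hO hab.atEq (a := (c, c')) (b := (a, b)) (Or.inr hpc) (Or.inl rfl))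
        rintro d (rfl | rfl)
        · exact Or.inl rfl
        · exact Or.inr hpx
      exact BFR.anti (empty_subset _) h7
    have h7 := tail_inf hL hO hμ hSm hSL hnc' hc hc' h6
    have hD : ∀ w ∈ DD S x, m < w → DD S x = (Icc x m ∪ Ioc m w) ∪ Dgt S x w := by
      intro w hw hmw
      ext z
      constructor
      · intro hz
        by_cases hzm : z ≤ m
        · exact Or.inl (Or.inl ⟨hz.1, hzm⟩)
        · by_cases hzw : z ≤ w
          · exact Or.inl (Or.inr ⟨(not_le hO).mp hzm, hzw⟩)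
          · exact Or.inr ⟨hz, (not_le hO).mp hzw⟩
      · rintro ((hz | hz) | hz)
        · exact DD_init hO hm hz.1 hz.2
        · exact DD_init hO hw (hm.1.trans hz.1.le) hz.2
        · exact hz.1
    have hlt1 : ∀ w, ∀ a ∈ Icc x m, ∀ b ∈ Ioc m w, a < b := fun w a ha b hb =>
      lt_of_le_of_lt ha.2 hb.1
    have hlt2 : ∀ w, m < w → ∀ a ∈ Icc x m ∪ Ioc m w, ∀ b ∈ Dgt S x w, a < b := by
      rintro w hmw a (ha | ha) b hb
      · exact (lt_of_le_of_lt ha.2 hmw).trans hb.2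
      · exact lt_of_le_of_lt ha.2 hb.2
    intro γ hγ
    have h8 : BFR S S (Icc x m) (Icc x m) γ (dg (F : Set M)) := by
      refine BFR.refl S _ γ ?_
      rintro _ ⟨f, hf, rfl⟩
      exact ⟨hFI hf, rfl⟩
    have h9 := comp2 hL hO (hlt1 c) (hlt1 c') (by
      rintro _ ⟨f, hf, rfl⟩
      exact ⟨hFI hf, hFI hf⟩) (by
      rintro a rfl
      exact ⟨⟨h1', le_rfl⟩, ⟨h2', le_rfl⟩⟩) h8 (h5 γ)
    have h10 := comp2 hL hO (hlt2 c h1') (hlt2 c' h2') (p2 := ∅) (by
      rintro a (⟨f, hf, rfl⟩ | rfl)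
      · exact ⟨Or.inl (hFI hf), Or.inl (hFI hf)⟩
      · exact ⟨Or.inr ⟨h1', le_rfl⟩, Or.inr ⟨h2', le_rfl⟩⟩) (fun a ha => (hno a ha).elim) h9
      (h7 γ hγ)
    rw [← hD c hc h1', ← hD c' hc' h2'] at h10
    refine BFR.anti ?_ h10
    rintro a (rfl | ha)
    · exact Or.inl (Or.inr rfl)
    · exact Or.inl (Or.inl ha)

end

end NBA

end Pool.Agent.Helper97.LO

end

/-! ### formerly `Pool.Agent.Helper68.VCM.NBA5` -/

section

/-!
# The unbounded case of nested tame intervals: countably many types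
-/

set_option autoImplicit false
set_option linter.unusedSectionVars false
set_option linter.unusedVariables false

namespace Pool.Agent.Helper97.LO

open Set Pool.Agent.Helper5.DU Pool.Agent.Helper6.Str Pool.Agent.Helper79.VC
  Pool.Agent.Helper97.VC Pool.Agent.Helper97.MD

namespace NBA

section

variable {L : FirstOrder.Language.{0, 0}} {M N P : Type}
variable [∀ n, IsEmpty (L.Functions n)] [∀ n, Countable (L.Relations n)]
  {K : Set (L.Structure ℕ)} {δ : Ordinal.{0}} {S : L.Structure M}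
variable [Preorder M] {r : L.Relations 2} {o : Bool}

/-- an element of a large set outside a countable set -/
theorem exists_notMem {V C : Set Om} (hV : ¬ V.Countable) (hC : C.Countable) :
    ∃ i ∈ V, i ∉ C := by
  by_contra h
  push Not at h
  exact hV (hC.mono h)

/-- (A5) **Countably many types of final segments.** -/
theorem ct (hL : Ar2 L) (hS : VSt K δ S) (hO : OSt r o S) (x : M)
    (hunb : ∀ lam < om1, ∃ z ∈ DD S x, z ∉ PP S x lam) {b : Ordinal.{0}} (hb : b < om1) :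
    ∃ κ : M → ℕ, ∀ y ∈ DD S x, ∀ y' ∈ DD S x, κ y = κ y' → ∃ v ∈ DD S x, y < v ∧ y' < v ∧
      BFR S S (Ico y v) (Ico y' v) b {(y, y')} := by
  classical
  have hch : ∀ i : Om, ∃ z, z ∈ DD S x ∧ z ∉ PP S x (od i) := fun i => hunb _ (od_lt i)
  choose v hvD hvP using hch
  obtain ⟨V, hV, hVb⟩ := hS.branch v ![x]
  have key : ∀ y ∈ DD S x, ∃ C : Set Om, C.Countable ∧ ∀ i ∈ V, i ∉ C → y < v i ∧
      ∀ j ∈ V, j ∉ C → BFR S S (Ico y (v i)) (Ico y (v j)) b {(y, y)} := by
    intro y hy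
    obtain ⟨lam0, hlam0, hy0⟩ := DD_mem_PP hy
    obtain ⟨lam, hlam, hle, hadd⟩ := exists_addClosed hlam0
    have hyP : y ∈ PP S x lam := PP_mono hle hy0
    obtain ⟨C1, hC1, hC1'⟩ := hVb (lam + b) (add_lt_om1 hlam hb)
    have habove : ∀ i, i ∉ C1 ∪ {w | od w < lam} → ∀ w ∈ PP S x lam, w < v i := by
      intro i hi w hw
      rw [← not_le hO]
      intro h'
      refine hvP i (PP_mono ?_ (PP_init hL hO hadd hw (hvD i).1 h'))
      by_contra h''
      exact hi (Or.inr (lt_of_not_ge h''))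
    have hinit : ∀ w ∈ PP S x lam, ∀ z, x ≤ z → z ∉ PP S x lam → w < z := by
      intro w hw z hxz hz
      rw [← not_le hO]
      exact fun h' => hz (PP_init hL hO hadd hw hxz h')
    have hsplit : ∀ i, i ∉ C1 ∪ {w | od w < lam} → Ico y (v i) =
        {z | z ∈ PP S x lam ∧ y ≤ z} ∪ {z | x ≤ z ∧ z ∉ PP S x lam ∧ z < v i} := by
      intro i hi
      ext z
      constructor
      · rintro ⟨h1, h2⟩
        by_cases hz : z ∈ PP S x lam
        · exact Or.inl ⟨hz, h1⟩
        · exact Or.inr ⟨hy.1.trans h1, hz, h2⟩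
      · rintro (⟨h1, h2⟩ | ⟨h1, h2, h3⟩)
        · exact ⟨h2, habove i hi z h1⟩
        · exact ⟨(hinit y hyP z h1 h2).le, h3⟩
    have hlt : ∀ i, ∀ a ∈ {z | z ∈ PP S x lam ∧ y ≤ z},
        ∀ c ∈ {z | x ≤ z ∧ z ∉ PP S x lam ∧ z < v i}, a < c :=
      fun i a ha c hc => hinit a ha.1 c hc.1 hc.2.1
    refine ⟨C1 ∪ {w | od w < lam}, hC1.union (countable_od_lt hlam), fun i hi hiC =>
      ⟨habove i hiC y hyP, fun j hj hjC => ?_⟩⟩
    have h1 := hC1' i hi (fun h => hiC (Or.inl h)) j hj (fun h => hjC (Or.inl h))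
    have hmv : (v i, v j) ∈ insert (v i, v j) (range fun k => ((![x] : Fin 1 → M) k,
        (![x] : Fin 1 → M) k)) := Or.inl rfl
    have hmx : (x, x) ∈ insert (v i, v j) (range fun k => ((![x] : Fin 1 → M) k,
        (![x] : Fin 1 → M) k)) := Or.inr ⟨0, rfl⟩
    have h2 : BFR S S {z | x ≤ z ∧ z ∉ PP S x lam ∧ z < v i}
        {z | x ≤ z ∧ z ∉ PP S x lam ∧ z < v j} b ∅ := by
      have h3 := BFR.restr (U' := {z | x ≤ z ∧ z ∉ PP S x lam ∧ z < v i})
        (V' := {z | x ≤ z ∧ z ∉ PP S x lam ∧ z < v j}) (subset_univ _) (subset_univ _) lam b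
        (fun c _ c' _ hcc => by
          refine and_congr (le_at hO hcc.atEq (a := (x, x)) (b := (c, c')) (Or.inr hmx)
            (Or.inl rfl)) (and_congr (not_congr ?_) (lt_at hO hcc.atEq (a := (c, c'))
            (b := (v i, v j)) (Or.inl rfl) (Or.inr hmv)))
          refine PP_def hO hlam.le hadd (BFR.anti ?_ hcc)
          rintro a (rfl | rfl)
          · exact Or.inl rfl
          · exact Or.inr hmx) h1
      exact BFR.anti (empty_subset _) h3
    have h3 : BFR S S {z | z ∈ PP S x lam ∧ y ≤ z} {z | z ∈ PP S x lam ∧ y ≤ z} b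
        {(y, y)} := by
      refine BFR.refl S _ b ?_
      rintro a rfl
      exact ⟨⟨hyP, le_rfl⟩, rfl⟩
    have h4 := comp2 hL hO (hlt i) (hlt j) (p2 := ∅) (by
      rintro a rfl
      exact ⟨⟨hyP, le_rfl⟩, ⟨hyP, le_rfl⟩⟩) (fun a ha => absurd ha (notMem_empty a)) h3 h2
    rw [← hsplit i hiC, ← hsplit j hjC] at h4
    simpa using h4
  have hch2 : ∀ y, ∃ (C : Set Om) (i : Om), C.Countable ∧ (y ∈ DD S x → i ∈ V ∧ i ∉ C ∧
      ∀ i ∈ V, i ∉ C → y < v i ∧ ∀ j ∈ V, j ∉ C →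
        BFR S S (Ico y (v i)) (Ico y (v j)) b {(y, y)}) := by
    intro y
    by_cases hy : y ∈ DD S x
    · obtain ⟨C, hC, h⟩ := key y hy
      obtain ⟨i, hi, hiC⟩ := exists_notMem hV hC
      exact ⟨C, i, hC, fun _ => ⟨hi, hiC, h⟩⟩
    · obtain ⟨i, -, -⟩ := exists_notMem hV countable_empty
      exact ⟨∅, i, countable_empty, fun h => absurd h hy⟩
  choose C I hC hI using hch2
  obtain ⟨κ₂, hκ₂⟩ := hS.code hb 2
  refine ⟨fun y => κ₂ ![y, v (I y)], fun y hy y' hy' hyy => ?_⟩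
  obtain ⟨h1, h2, h3⟩ := hI y hy
  obtain ⟨h1', h2', h3'⟩ := hI y' hy'
  obtain ⟨j, hj, hjC⟩ := exists_notMem hV ((hC y).union (hC y'))
  have hj1 : j ∉ C y := fun h => hjC (Or.inl h)
  have hj2 : j ∉ C y' := fun h => hjC (Or.inr h)
  refine ⟨v j, hvD j, (h3 j hj hj1).1, (h3' j hj hj2).1, ?_⟩
  have h4 := hκ₂ _ _ hyy
  have hmy : (y, y') ∈ pr ![y, v (I y)] ![y', v (I y')] := ⟨0, rfl⟩
  have hmv : (v (I y), v (I y')) ∈ pr ![y, v (I y)] ![y', v (I y')] := ⟨1, rfl⟩
  have h5 : BFR S S (Ico y (v (I y))) (Ico y' (v (I y'))) b {(y, y')} := by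
    have h6 : BFR S S (Ico y (v (I y))) (Ico y' (v (I y'))) b
        (pr ![y, v (I y)] ![y', v (I y')]) := by
      refine BFR.restr₀ (subset_univ _) (subset_univ _) ?_ h4
      intro a _ c _ hac
      exact and_congr (le_at hO hac (a := (y, y')) (b := (a, c)) (Or.inr hmy) (Or.inl rfl))
        (lt_at hO hac (a := (a, c)) (b := (v (I y), v (I y'))) (Or.inl rfl) (Or.inr hmv))
    refine BFR.anti ?_ h6
    rintro a rfl
    exact hmy
  have h6 := (h3 j hj hj1).2 (I y) h1 h2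
  have h7 := (h3' (I y') h1' h2').2 j hj hj2
  have h8 : BFR S S (Ico y (v j)) (Ico y' (v (I y'))) b {(y, y')} := by
    refine h6.trans h5 ?_
    rintro a rfl
    exact ⟨y, rfl, rfl⟩
  refine h8.trans h7 ?_
  rintro a rfl
  exact ⟨y', rfl, rfl⟩

/-- there is no greatest part in the unbounded case -/
theorem exists_gt_of_unb (hL : Ar2 L) (hO : OSt r o S) (x : M)
    (hunb : ∀ lam < om1, ∃ z ∈ DD S x, z ∉ PP S x lam) :
    ∀ y ∈ DD S x, ∃ z ∈ DD S x, y < z := by
  intro y hy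
  obtain ⟨lam0, hlam0, hy0⟩ := DD_mem_PP hy
  obtain ⟨lam, hlam, hle, hadd⟩ := exists_addClosed hlam0
  obtain ⟨z, hz, hzP⟩ := hunb lam hlam
  refine ⟨z, hz, ?_⟩
  rw [← not_le hO]
  exact fun h' => hzP (PP_init hL hO hadd (PP_mono hle hy0) hz.1 h')

/-- (A6) **Smallness in the unbounded case.** -/
theorem small_of_unb (hL : Ar2 L) (hS : VSt K δ S) (hO : OSt r o S) (x : M)
    (hunb : ∀ lam < om1, ∃ z ∈ DD S x, z ∉ PP S x lam) : Small S (DD S x) := by
  classical
  intro b hb F hF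
  have hno : ∀ {X Y : Type} (a : X × Y), a ∈ (∅ : Set (X × Y)) → False :=
    fun a ha => notMem_empty a ha
  obtain ⟨m, hm, hFm⟩ : ∃ m ∈ DD S x, ∀ f ∈ F, f ≤ m := by
    obtain ⟨y0, hy0, -⟩ := hunb 0 (Ordinal.omega_pos 1)
    induction F using Finset.induction_on with
    | empty => exact ⟨y0, hy0, fun f hf => absurd hf (Finset.notMem_empty f)⟩
    | insert a F _ ih =>
      rw [Finset.coe_insert, insert_subset_iff] at hF
      obtain ⟨m, hm, hFm⟩ := ih hF.2
      rcases hO.total a m with h1 | h1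
      · refine ⟨m, hm, fun f hf => ?_⟩
        rcases Finset.mem_insert.mp hf with rfl | hf
        · exact h1
        · exact hFm f hf
      · refine ⟨a, hF.1, fun f hf => ?_⟩
        rcases Finset.mem_insert.mp hf with rfl | hf
        · exact le_rfl
        · exact (hFm f hf).trans h1
  have hFI : (F : Set M) ⊆ Icc x m := fun f hf => ⟨(hF hf).1, hFm f hf⟩
  obtain ⟨κ₁, hκ₁⟩ := hm.2.types F hFI
  obtain ⟨κ₂, hκ₂⟩ := hS.code hb 2
  obtain ⟨κ₃, hκ₃⟩ := ct hL hS hO x hunb hb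
  have hsplit : DD S x = Icc x m ∪ Dgt S x m := by
    ext z
    constructor
    · intro hz
      by_cases hzm : z ≤ m
      · exact Or.inl ⟨hz.1, hzm⟩
      · exact Or.inr ⟨hz, (not_le hO).mp hzm⟩
    · rintro (hz | hz)
      · exact DD_init hO hm hz.1 hz.2
      · exact hz.1
  have hlt0 : ∀ a ∈ Icc x m, ∀ b ∈ Dgt S x m, a < b := fun a ha b hb =>
    lt_of_le_of_lt ha.2 hb.2
  refine ⟨fun c => if c ≤ m then 2 * κ₁ c else 2 * (Nat.pair (κ₂ ![m, c]) (κ₃ c)) + 1,
    fun c hc c' hc' hcc => ?_⟩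
  by_cases h1 : c ≤ m
  · have h2 : c' ≤ m := by
      by_contra h2
      simp only [if_pos h1, if_neg h2] at hcc
      omega
    simp only [if_pos h1, if_pos h2] at hcc
    have h3 := hκ₁ c ⟨hc.1, h1⟩ c' ⟨hc'.1, h2⟩ (by omega)
    have h4 := comp2 hL hO hlt0 hlt0 (p2 := ∅) (by
      rintro a (rfl | ⟨f, hf, rfl⟩)
      · exact ⟨⟨hc.1, h1⟩, ⟨hc'.1, h2⟩⟩
      · exact ⟨hFI hf, hFI hf⟩) (fun a ha => (hno a ha).elim) (h3 b hb) (bfr_id S _ b)
    rw [← hsplit] at h4
    simpa using h4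
  · have h2 : ¬ c' ≤ m := by
      intro h2
      simp only [if_neg h1, if_pos h2] at hcc
      omega
    simp only [if_neg h1, if_neg h2] at hcc
    have h1' := (not_le hO).mp h1
    have h2' := (not_le hO).mp h2
    have hpair : Nat.pair (κ₂ ![m, c]) (κ₃ c) = Nat.pair (κ₂ ![m, c']) (κ₃ c') := by omega
    obtain ⟨hp1, hp2⟩ := Nat.pair_eq_pair.mp hpair
    have h3 := hκ₂ _ _ hp1
    have hpm : (m, m) ∈ pr ![m, c] ![m, c'] := ⟨0, rfl⟩
    have hpc : (c, c') ∈ pr ![m, c] ![m, c'] := ⟨1, rfl⟩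
    -- the interval between `m` and `c`
    have h4 : BFR S S (Ioo m c) (Ioo m c') b ∅ := by
      have h5 : BFR S S (Ioo m c) (Ioo m c') b (pr ![m, c] ![m, c']) := by
        refine BFR.restr₀ (subset_univ _) (subset_univ _) ?_ h3
        intro a _ d _ hab
        exact and_congr (lt_at hO hab (a := (m, m)) (b := (a, d)) (Or.inr hpm) (Or.inl rfl))
          (lt_at hO hab (a := (a, d)) (b := (c, c')) (Or.inl rfl) (Or.inr hpc))
      exact BFR.anti (empty_subset _) h5
    -- the rest from `c` on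
    obtain ⟨v, hv, hcv, hcv', h5⟩ := hκ₃ c hc c' hc' hp2
    have htail : ∀ w ∈ DD S x, w < v → {z ∈ DD S x | w ≤ z} = Ico w v ∪ {z ∈ DD S x | v ≤ z} := by
      intro w hw hwv
      ext z
      constructor
      · rintro ⟨hz1, hz2⟩
        by_cases hzv : v ≤ z
        · exact Or.inr ⟨hz1, hzv⟩
        · exact Or.inl ⟨hz2, (not_le hO).mp hzv⟩
      · rintro (⟨hz1, hz2⟩ | ⟨hz1, hz2⟩)
        · exact ⟨DD_init hO hv (hw.1.trans hz1) hz2.le, hz1⟩
        · exact ⟨hz1, hwv.le.trans hz2⟩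
    have hlt3 : ∀ w, ∀ a ∈ Ico w v, ∀ b ∈ {z ∈ DD S x | v ≤ z}, a < b :=
      fun w a ha b hb => lt_of_lt_of_le ha.2 hb.2
    have h6 : BFR S S {z ∈ DD S x | c ≤ z} {z ∈ DD S x | c' ≤ z} b {(c, c')} := by
      have h7 := comp2 hL hO (hlt3 c) (hlt3 c') (p2 := ∅) (by
        rintro a rfl
        exact ⟨⟨le_rfl, hcv⟩, ⟨le_rfl, hcv'⟩⟩) (fun a ha => (hno a ha).elim) h5 (bfr_id S _ b)
      rw [← htail c hc hcv, ← htail c' hc' hcv'] at h7
      simpa using h7
    have hD : ∀ w ∈ DD S x, m < w → DD S x = (Icc x m ∪ Ioo m w) ∪ {z ∈ DD S x | w ≤ z} := by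
      intro w hw hmw
      ext z
      constructor
      · intro hz
        by_cases hzm : z ≤ m
        · exact Or.inl (Or.inl ⟨hz.1, hzm⟩)
        · by_cases hzw : w ≤ z
          · exact Or.inr ⟨hz, hzw⟩
          · exact Or.inl (Or.inr ⟨(not_le hO).mp hzm, (not_le hO).mp hzw⟩)
      · rintro ((hz | hz) | hz)
        · exact DD_init hO hm hz.1 hz.2
        · exact DD_init hO hw (hm.1.trans hz.1.le) hz.2.le
        · exact hz.1
    have hlt1 : ∀ w, ∀ a ∈ Icc x m, ∀ b ∈ Ioo m w, a < b := fun w a ha b hb =>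
      lt_of_le_of_lt ha.2 hb.1
    have hlt2 : ∀ w, m < w → ∀ a ∈ Icc x m ∪ Ioo m w, ∀ b ∈ {z ∈ DD S x | w ≤ z}, a < b := by
      rintro w hmw a (ha | ha) b hb
      · exact (lt_of_le_of_lt ha.2 hmw).trans_le hb.2
      · exact lt_of_lt_of_le ha.2 hb.2
    have h8 : BFR S S (Icc x m) (Icc x m) b (dg (F : Set M)) := by
      refine BFR.refl S _ b ?_
      rintro _ ⟨f, hf, rfl⟩
      exact ⟨hFI hf, rfl⟩
    have h9 := comp2 hL hO (hlt1 c) (hlt1 c') (p2 := ∅) (by
      rintro _ ⟨f, hf, rfl⟩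
      exact ⟨hFI hf, hFI hf⟩) (fun a ha => (hno a ha).elim) h8 h4
    have h10 := comp2 hL hO (hlt2 c h1') (hlt2 c' h2') (by
      rintro a (⟨f, hf, rfl⟩ | ha)
      · exact ⟨Or.inl (hFI hf), Or.inl (hFI hf)⟩
      · exact (hno a ha).elim) (by
      rintro a rfl
      exact ⟨⟨hc, le_rfl⟩, ⟨hc', le_rfl⟩⟩) h9 h6
    rw [← hD c hc h1', ← hD c' hc' h2'] at h10
    refine BFR.anti ?_ h10
    rintro a (rfl | ha)
    · exact Or.inr rfl
    · exact Or.inl (Or.inl ha)

/-- **The two cases.** -/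
theorem cases (hL : Ar2 L) (hS : VSt K δ S) (hO : OSt r o S) (x : M) :
    TameX S (DD S x) ∨ (Small S (DD S x) ∧
      (∀ a < om1, ∃ z ∈ DD S x, ¬ ∃ a' < a, SL S (Icc x z) a') ∧
      (∀ y ∈ DD S x, ∃ z ∈ DD S x, y < z)) := by
  by_cases hb : ∃ lam < om1, DD S x ⊆ PP S x lam
  · obtain ⟨lam, hlam, hb⟩ := hb
    exact Or.inl (bounded hL hS hO x hlam hb)
  · right
    have hunb : ∀ lam < om1, ∃ z ∈ DD S x, z ∉ PP S x lam := by
      intro lam hlam
      by_contra h
      push Not at h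
      exact hb ⟨lam, hlam, h⟩
    refine ⟨small_of_unb hL hS hO x hunb, fun a ha => ?_, exists_gt_of_unb hL hO x hunb⟩
    obtain ⟨z, hz, hzP⟩ := hunb a ha
    exact ⟨z, hz, fun h => hzP ⟨hz.1, h⟩⟩

end

end NBA

end Pool.Agent.Helper97.LO

end
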