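import Pool.Agent.VB.K
import Pool.Agent.CW6.GC

/-!
# Tools for Vaught's conjecture, part 13: clique-width, case B

Merged file (to shorten the import chain): contents, unchanged, of
`Pool.Agent.CW6.CL1`, `Pool.Agent.CW6.DEC`, `Pool.Agent.CW6.CHO`, `Pool.Agent.CW6.BCL`, `Pool.Agent.CW6.HA1`, `Pool.Agent.CW6.HA2`, `Pool.Agent.CW6.CLO`, `Pool.Agent.CW6.COR`, `Pool.Agent.CW6.COR2`, `Pool.Agent.CW6.THR`, `Pool.Agent.CW6.VKK`, `Pool.Agent.CW6.DATX`.
-/

/-! ### formerly `Pool.Agent.CW6.CL1` -/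

section

/-!
# CW, module CL1
-/

set_option autoImplicit false
set_option linter.unusedSectionVars false
set_option linter.unusedVariables false

namespace Pool.Agent.CW

open Set Pool.Agent.Helper5 Pool.Agent.Helper5.DU Pool.Agent.Helper6.Str
  Pool.Agent.Helper79.VC Pool.Agent.Helper97.VC Pool.Agent.Helper97.MD Pool.Agent.Helper6.VC
  Pool.Agent.Helper97.LO

open scoped Classical

variable {L : FirstOrder.Language.{0, 0}} [∀ n, IsEmpty (L.Functions n)]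
  [∀ n, Countable (L.Relations n)] {M : Type} {K : Set (L.Structure ℕ)} {δ : Ordinal.{0}}
  {S : L.Structure M}

private theorem CL1_step (f : Ordinal.{0} → Ordinal.{0}) (hf : ∀ ζ < om1, f ζ < om1)
    (α : Ordinal.{0}) (hα : α < om1) : ∃ μ, (α < μ ∧ Gd μ) ∧ ∀ z < α, f z < μ := by
  have hc : Countable (Iio α) := (countable_Iio hα).to_subtype
  obtain ⟨γ, hγ, hb⟩ := exists_bound (ι := Iio α) (f := fun z => f z.1)
    (fun z => hf z.1 (z.2.trans hα))
  obtain ⟨μ, h1, h2⟩ := exists_gd (max α γ) (max_lt hα hγ)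
  exact ⟨μ, ⟨(le_max_left _ _).trans_lt h1, h2⟩, fun z hz =>
    (hb ⟨z, hz⟩).trans_lt ((le_max_right _ _).trans_lt h1)⟩

theorem exists_gd_closed (f : Ordinal.{0} → Ordinal.{0}) (hf : ∀ ζ < om1, f ζ < om1)
    {ζ : Ordinal.{0}} (hζ : ζ < om1) : ∃ μ, ζ < μ ∧ Gd μ ∧ ∀ ζ' < μ, f ζ' < μ := by
  have key : ∀ α : {α : Ordinal.{0} // α < om1}, ∃ μ : {α : Ordinal.{0} // α < om1},
      (α.1 < μ.1 ∧ Gd μ.1) ∧ ∀ z < α.1, f z < μ.1 := by
    intro α
    obtain ⟨μ, h1, h2⟩ := CL1_step f hf α.1 α.2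
    exact ⟨⟨μ, h1.2.lt⟩, h1, h2⟩
  choose g hg1 hg2 using key
  let s : ℕ → {α : Ordinal.{0} // α < om1} := fun n => Nat.rec ⟨ζ, hζ⟩ (fun _ a => g a) n
  have hs : ∀ n, s (n + 1) = g (s n) := fun n => rfl
  have hlt : ∀ n, (s n).1 < (s (n + 1)).1 := fun n => by rw [hs]; exact (hg1 (s n)).1
  have hle : ∀ n, (s n).1 ≤ ⨆ n, (s n).1 := fun n =>
    Ordinal.le_iSup (fun n => (s n).1) n
  have hmono : ∀ m n, m ≤ n → (s m).1 ≤ (s n).1 := by
    intro m n h
    induction n, h using Nat.le_induction with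
    | base => exact le_rfl
    | succ n _ ih => exact ih.trans (hlt n).le
  have hgd : ∀ n, Gd (s (n + 1)).1 := fun n => by rw [hs]; exact (hg1 (s n)).2
  refine ⟨⨆ n, (s n).1, (hlt 0).trans_le (hle 1), ⟨?_, ?_, ?_⟩, ?_⟩
  · exact (hgd 0).om.trans_le (hle 1)
  · exact iSup_lt_om1 fun n => (s n).2
  · intro a ha b hb
    obtain ⟨m, hm⟩ := (Ordinal.lt_iSup_iff).1 ha
    obtain ⟨n, hn⟩ := (Ordinal.lt_iSup_iff).1 hb
    have h1 : a < (s (max m n + 1)).1 := hm.trans_le (hmono m (max m n + 1) (by omega))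
    have h2 : b < (s (max m n + 1)).1 := hn.trans_le (hmono n (max m n + 1) (by omega))
    exact ((hgd (max m n)).add a h1 b h2).trans_le (hle (max m n + 1))
  · intro z hz
    obtain ⟨n, hn⟩ := (Ordinal.lt_iSup_iff).1 hz
    have h1 : f z < (s (n + 1)).1 := by rw [hs]; exact hg2 (s n) z hn
    exact h1.trans_le (hle (n + 1))

theorem jd_bs_lt (hL : Ar2 L) (hS : VSt K δ S) {ζ : Ordinal.{0}} (hζ : ζ < om1) :
    ∃ Ψ < om1, ∀ P Q : Finset M, Ok (bt S) univ P Q → Jd S univ ζ (Bs (bt S) univ P Q) →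
      Lv S univ (Bs (bt S) univ P Q) Ψ := by
  choose Φ hΦ1 hΦ2 using fun k => uni hL hS k hζ
  obtain ⟨Ψ, hΨ, hb⟩ := exists_bound hΦ1
  refine ⟨Ψ, hΨ, fun P Q hOk hJ => ?_⟩
  obtain ⟨ζ', h1, k, h2⟩ := hJ
  have h3 : CovS S univ (Bs (bt S) univ P Q ∩ Bs (bt S) univ P Q) k ζ :=
    h2.mono inter_subset_left le_rfl h1.le
  have h4 := hΦ2 k P Q P Q hOk hOk h3
  rw [inter_self] at h4
  exact h4.mono (hb k)

theorem exists_cls (hL : Ar2 L) (hS : VSt K δ S) {ζ : Ordinal.{0}} (hζ : ζ < om1) :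
    ∃ μ, ζ < μ ∧ Cls S μ := by
  have key : ∀ z : Ordinal.{0}, ∃ Ψ : Ordinal.{0}, z < om1 → Ψ < om1 ∧
      ∀ P Q : Finset M, Ok (bt S) univ P Q → Jd S univ (z + 1) (Bs (bt S) univ P Q) →
        Lv S univ (Bs (bt S) univ P Q) Ψ := by
    intro z
    by_cases hz : z < om1
    · obtain ⟨Ψ, h1, h2⟩ := jd_bs_lt hL hS (add_one_lt_om1 hz)
      exact ⟨Ψ, fun _ => ⟨h1, h2⟩⟩
    · exact ⟨0, fun h => absurd h hz⟩
  choose Ψ hΨ using key
  obtain ⟨μ, h1, h2, h3⟩ := exists_gd_closed Ψ (fun z hz => (hΨ z hz).1) hζ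
  refine ⟨μ, h1, h2, fun P Q hOk hJ => ?_⟩
  obtain ⟨ζ', hζ', k, hc⟩ := hJ
  refine ⟨Ψ ζ', h3 ζ' hζ', (hΨ ζ' (hζ'.trans h2.lt)).2 P Q hOk ?_⟩
  exact ⟨ζ', Order.lt_add_one_iff.2 le_rfl, k, hc⟩

end Pool.Agent.CW

end

/-! ### formerly `Pool.Agent.CW6.DEC` -/

section

/-!
# CW, module DEC
-/

set_option autoImplicit false
set_option linter.unusedSectionVars false
set_option linter.unusedVariables false

namespace Pool.Agent.CW

open Set Pool.Agent.Helper5 Pool.Agent.Helper5.DU Pool.Agent.Helper6.Str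
  Pool.Agent.Helper79.VC Pool.Agent.Helper97.VC Pool.Agent.Helper97.MD Pool.Agent.Helper6.VC
  Pool.Agent.Helper97.LO

open scoped Classical

variable {L : FirstOrder.Language.{0, 0}} [∀ n, IsEmpty (L.Functions n)]
  [∀ n, Countable (L.Relations n)] {M : Type} {K : Set (L.Structure ℕ)} {δ : Ordinal.{0}}
  {S : L.Structure M}

/-- subsets of small rank are covered -/
private theorem DEC_cov {W Z : Set M} {t : ℕ} {a : Ordinal.{0}}
    (ha : ∀ P Q : Finset M, Ok (bt S) univ P Q → Bs (bt S) univ P Q ⊆ W →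
      TT S (Bs (bt S) univ P Q) → rho (bt S) P Q < t → Lv S univ (Bs (bt S) univ P Q) a)
    (hZW : Z ⊆ W) (hZ : TT S Z) (hr : rk (bt S) univ Z < (t : ℕ∞)) {F : Finset M}
    (hF : (F : Set M) ⊆ Z) : Cov S univ F t a := by
  obtain ⟨P, Q, hR⟩ := exists_refs (ne_top_of_lt hr)
  obtain ⟨h1, h2, h3, h4, -⟩ := hR.bs (subset_univ Z) hF
  have h6 : rho (bt S) (P ∪ F) Q < t := by
    rw [h3]
    rw [hR.eq] at hr
    exact_mod_cast hr
  exact cov_of_bs h1 h6.le (by omega) (ha _ _ h1 (h2.trans hZW) (hZ.mono h2) h6) h4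

/-- (DEC) -/
theorem dec (hL : Ar2 L) (hS : VSt K δ S) {k : ℕ} (hT : CTree (bt S) k) {W : Set M} {t : ℕ}
    (hU : Unb S W t) (hmin : ∀ r < t, ¬ Unb S W r) : t ≤ 4 * k := by
  by_contra hcon
  have htk : 4 * k < t := not_le.1 hcon
  have hm := hmin (t - 1) (by omega)
  unfold Unb at hm
  push Not at hm
  obtain ⟨a, ha1, ha⟩ := hm
  have ha' : ∀ P Q : Finset M, Ok (bt S) univ P Q → Bs (bt S) univ P Q ⊆ W →
      TT S (Bs (bt S) univ P Q) → rho (bt S) P Q < t → Lv S univ (Bs (bt S) univ P Q) a :=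
    fun P Q h1 h2 h3 h4 => ha P Q h1 h2 h3 (by omega)
  obtain ⟨Φ, hΦ1, hΦ⟩ := uni hL hS (t + (t + t)) ha1
  obtain ⟨P, Q, hOk, hYW, hYT, hYr, hYl⟩ := hU Φ hΦ1
  have hYc : ¬ CovS S univ (Bs (bt S) univ P Q) (t + (t + t)) a := by
    intro h
    have h1 := hΦ P Q P Q hOk hOk (by rwa [inter_self])
    rw [inter_self] at h1
    exact hYl h1
  unfold CovS at hYc
  push Not at hYc
  obtain ⟨F, hFY, hFc⟩ := hYc
  have hrY : rk (bt S) univ (Bs (bt S) univ P Q) ≤ (t : ℕ∞) := by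
    rw [rk_bs hOk]
    exact_mod_cast hYr
  have hsub : ∀ Z : Set M, Z ⊆ Bs (bt S) univ P Q → rk (bt S) univ Z < (t : ℕ∞) →
      ∀ F' : Finset M, (F' : Set M) ⊆ Z → Cov S univ F' t a := fun Z hZ hr F' hF' =>
    DEC_cov ha' (hZ.trans hYW) (hYT.mono hZ) hr hF'
  have hFne : F.Nonempty := by
    rw [Finset.nonempty_iff_ne_empty]
    rintro rfl
    refine hFc ((hsub ∅ (empty_subset _) ?_ ∅ (by simp)).mono subset_rfl (by omega) le_rfl)
    rw [rk_empty]
    exact_mod_cast (by omega : 0 < t)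
  obtain ⟨A, B, C, hA, hB, hC, hF⟩ := sink hL hT hFne (fun F' => Cov S univ F' t a)
    (fun A B hAB _ hB => hB.mono hAB le_rfl le_rfl)
    (fun x hx => hsub {x} (singleton_subset_iff.2 (hFY hx))
      (lt_of_le_of_lt (rk_singleton hL hT x) (by exact_mod_cast (by omega : 2 * k < t)))
      {x} (by simp))
    (fun C hC => by
      have h1 := rk_inter_add_diff (bt S) (subset_univ (Bs (bt S) univ P Q)) (subset_univ C)
      by_cases h2 : rk (bt S) univ (Bs (bt S) univ P Q ∩ C) < (t : ℕ∞)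
      · left
        refine hsub _ inter_subset_left h2 _ fun x hx => ?_
        have hx' := Finset.mem_filter.1 (Finset.mem_coe.1 hx)
        exact ⟨hFY hx'.1, hx'.2⟩
      by_cases h3 : rk (bt S) univ (Bs (bt S) univ P Q \ C) < (t : ℕ∞)
      · right
        refine hsub _ sdiff_subset h3 _ fun x hx => ?_
        have hx' := Finset.mem_filter.1 (Finset.mem_coe.1 hx)
        exact ⟨hFY hx'.1, hx'.2⟩
      exfalso
      rw [not_lt] at h2 h3
      have h4 : (t : ℕ∞) + t ≤ t + 2 * (2 * k : ℕ) :=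
        (add_le_add h2 h3).trans (h1.trans (add_le_add hrY (mul_le_mul_right hC 2)))
      have h5 : t + t ≤ t + 2 * (2 * k) := by exact_mod_cast h4
      omega)
  exact hFc ((hA.union (hB.union hC)).mono hF le_rfl le_rfl)

end Pool.Agent.CW

end

/-! ### formerly `Pool.Agent.CW6.CHO` -/

section

/-!
# CW, module CHO
-/

set_option autoImplicit false
set_option linter.unusedSectionVars false
set_option linter.unusedVariables false

namespace Pool.Agent.CW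

open Set Pool.Agent.Helper5 Pool.Agent.Helper5.DU Pool.Agent.Helper6.Str
  Pool.Agent.Helper79.VC Pool.Agent.Helper97.VC Pool.Agent.Helper97.MD Pool.Agent.Helper6.VC
  Pool.Agent.Helper97.LO

open scoped Classical

variable {L : FirstOrder.Language.{0, 0}} [∀ n, IsEmpty (L.Functions n)]
  [∀ n, Countable (L.Relations n)] {M : Type} {K : Set (L.Structure ℕ)} {δ : Ordinal.{0}}
  {S : L.Structure M}

/-- the levels of the basic subsets of bounded rank are unbounded for some rank -/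
private theorem CHO_unb {W : Set M}
    (h : ∀ ζ < om1, ∃ P' Q' : Finset M, Ok (bt S) univ P' Q' ∧ Bs (bt S) univ P' Q' ⊆ W ∧
      TT S (Bs (bt S) univ P' Q') ∧ ¬ Lv S univ (Bs (bt S) univ P' Q') ζ) :
    ∃ r, Unb S W r := by
  by_contra hcon
  push Not at hcon
  have h1 : ∀ r : ℕ, ∃ ζ < om1, ∀ P Q : Finset M, Ok (bt S) univ P Q →
      Bs (bt S) univ P Q ⊆ W → TT S (Bs (bt S) univ P Q) → rho (bt S) P Q ≤ r →
      Lv S univ (Bs (bt S) univ P Q) ζ := by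
    intro r
    have h2 := hcon r
    unfold Unb at h2
    push Not at h2
    exact h2
  choose z hz hz' using h1
  obtain ⟨P', Q', hOk, hs, ht, hl⟩ := h (⨆ n, z n) (iSup_lt_om1 hz)
  exact hl ((hz' _ P' Q' hOk hs ht le_rfl).mono (Ordinal.le_iSup z _))

theorem exists_cb (hL : Ar2 L) (hS : VSt K δ S) {k : ℕ} (hT : CTree (bt S) k)
    (hM : ¬ TT S univ)
    (hB : ∀ P Q : Finset M, Ok (bt S) univ P Q → Wil S (Bs (bt S) univ P Q) → ∀ ζ < om1,
      ∃ P' Q' : Finset M, Ok (bt S) univ P' Q' ∧ Bs (bt S) univ P' Q' ⊆ Bs (bt S) univ P Q ∧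
        TT S (Bs (bt S) univ P' Q') ∧ ¬ Lv S univ (Bs (bt S) univ P' Q') ζ) :
    ∃ (PX QX : Finset M) (t : ℕ) (a : Ordinal.{0}), CB S PX QX t a := by
  have hex : ∀ P Q : Finset M, Ok (bt S) univ P Q → Wil S (Bs (bt S) univ P Q) →
      ∃ t, Unb S (Bs (bt S) univ P Q) t ∧ (∀ r < t, ¬ Unb S (Bs (bt S) univ P Q) r) ∧
        t ≤ 4 * k := by
    intro P Q hOk hW
    have h1 := CHO_unb (hB P Q hOk hW)
    exact ⟨Nat.find h1, Nat.find_spec h1, fun r hr => Nat.find_min h1 hr,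
      dec hL hS hT (Nat.find_spec h1) fun r hr => Nat.find_min h1 hr⟩
  have huniv : Wil S (univ : Set M) :=
    ⟨dfb_univ, by rw [rk_univ]; exact ENat.zero_ne_top, hM⟩
  obtain ⟨P₀, Q₀, hOk₀, -, hW₀⟩ := wil_bs hL hS huniv
  let E : Set ℕ := {t | ∃ P Q : Finset M, Ok (bt S) univ P Q ∧ Wil S (Bs (bt S) univ P Q) ∧
    Unb S (Bs (bt S) univ P Q) t ∧ (∀ r < t, ¬ Unb S (Bs (bt S) univ P Q) r) ∧ t ≤ 4 * k}
  have hE : E.Nonempty := by
    obtain ⟨t, ht⟩ := hex P₀ Q₀ hOk₀ hW₀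
    exact ⟨t, P₀, Q₀, hOk₀, hW₀, ht⟩
  have hEb : BddAbove E := ⟨4 * k, fun t ht => by
    obtain ⟨P, Q, -, -, -, -, h⟩ := ht
    exact h⟩
  obtain ⟨PX, QX, hOk, hW, hU, hmin, -⟩ := Nat.sSup_mem hE hEb
  have hmax : ∀ t ∈ E, t ≤ sSup E := fun t ht => le_csSup hEb ht
  generalize sSup E = t at hU hmin hmax
  obtain ⟨a, ha1, ha⟩ : ∃ a < om1, ∀ P Q : Finset M, Ok (bt S) univ P Q →
      Bs (bt S) univ P Q ⊆ Bs (bt S) univ PX QX → TT S (Bs (bt S) univ P Q) →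
      rho (bt S) P Q < t → Lv S univ (Bs (bt S) univ P Q) a := by
    rcases Nat.eq_zero_or_pos t with rfl | ht
    · exact ⟨Ordinal.omega0, omega_lt_om1, fun P Q _ _ _ h => absurd h (Nat.not_lt_zero _)⟩
    · have h1 := hmin (t - 1) (by omega)
      unfold Unb at h1
      push Not at h1
      obtain ⟨a, ha1, ha⟩ := h1
      exact ⟨a, ha1, fun P Q h1 h2 h3 h4 => ha P Q h1 h2 h3 (by omega)⟩
  refine ⟨PX, QX, t, a, hOk, hW, ha1, ha, fun P Q hOk' hsub hW' ζ hζ => ?_⟩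
  obtain ⟨s, hs1, hs2, hs3⟩ := hex P Q hOk' hW'
  have hst : s ≤ t := hmax s ⟨P, Q, hOk', hW', hs1, hs2, hs3⟩
  obtain ⟨Ψ, hΨ, hΨ'⟩ := jd_bs_lt hL hS hζ
  obtain ⟨P', Q', h1, h2, h3, h4, h5⟩ := hs1 (max Ψ a) (max_lt hΨ ha1)
  refine ⟨P', Q', h1, h2, h3, ?_, fun h => h5 ((hΨ' P' Q' h1 h).mono (le_max_left _ _))⟩
  by_contra h6
  exact h5 ((ha P' Q' h1 (h2.trans hsub) h3 (by omega)).mono (le_max_right _ _))

end Pool.Agent.CW

end

/-! ### formerly `Pool.Agent.CW6.BCL` -/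

section

/-!
# CW, module BCL
-/

set_option autoImplicit false
set_option linter.unusedSectionVars false
set_option linter.unusedVariables false

namespace Pool.Agent.CW

open Set Pool.Agent.Helper5 Pool.Agent.Helper5.DU Pool.Agent.Helper6.Str
  Pool.Agent.Helper79.VC Pool.Agent.Helper97.VC Pool.Agent.Helper97.MD Pool.Agent.Helper6.VC
  Pool.Agent.Helper97.LO

open scoped Classical

variable {L : FirstOrder.Language.{0, 0}} [∀ n, IsEmpty (L.Functions n)]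
  [∀ n, Countable (L.Relations n)] {M : Type} {K : Set (L.Structure ℕ)} {δ : Ordinal.{0}}
  {S : L.Structure M}

/-- countably many types of `n`-tuples -/
theorem exists_tuple_types (hS : VSt K δ S) {γ : Ordinal.{0}} (hγ : γ < om1) (n : ℕ) :
    ∃ κ : (Fin n → M) → ℕ, ∀ v w, κ v = κ w →
      BFR S S univ univ γ (range fun i => (v i, w i)) := hS.code hγ n

theorem BCl.mono {t : ℕ} {b z z' : Ordinal.{0}} (h : BCl S t b z) (hz : z ≤ z') :
    BCl S t b z' := fun P Q G h1 h2 h3 h4 h5 =>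
  h P Q G h1 h2 h3 h4 fun h6 => h5 (Jd.mono h6 le_rfl hz)

/-- the indices of the classes -/
abbrev BCL_Idx : Type :=
  Σ n : ℕ, (Finset (Fin n) × Finset (Fin n) × Finset (Fin n)) × ℕ

/-- three finite sets are given by one tuple -/
theorem BCL_enum (P Q G : Finset M) : ∃ (n : ℕ) (v : Fin n → M) (A B C : Finset (Fin n)),
    P = A.image v ∧ Q = B.image v ∧ G = C.image v := by
  set F : Finset M := P ∪ (Q ∪ G) with hF
  set e := F.equivFin with he
  have key : ∀ A : Finset M, A ⊆ F → A = (Finset.univ.filter fun i => ((e.symm i : F) : M) ∈ A).image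
      fun i => ((e.symm i : F) : M) := by
    intro A hA
    ext x
    simp only [Finset.mem_image, Finset.mem_filter, Finset.mem_univ, true_and]
    constructor
    · intro hx
      exact ⟨e ⟨x, hA hx⟩, by simpa using hx, by simp⟩
    · rintro ⟨i, hi, rfl⟩
      exact hi
  exact ⟨F.card, fun i => ((e.symm i : F) : M), _, _, _,
    key P Finset.subset_union_left,
    key Q (Finset.subset_union_left.trans Finset.subset_union_right),
    key G (Finset.subset_union_right.trans Finset.subset_union_right)⟩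

theorem BCL_mt {n : ℕ} (v v' : Fin n → M) (A : Finset (Fin n)) {r : Set (M × M)}
    (hr : ∀ i ∈ A, (v' i, v i) ∈ r) : Mt r (A.image v') (A.image v) := by
  constructor
  · intro x hx
    obtain ⟨i, hi, rfl⟩ := Finset.mem_image.1 hx
    exact ⟨v i, Finset.mem_image_of_mem _ hi, hr i hi⟩
  · intro x hx
    obtain ⟨i, hi, rfl⟩ := Finset.mem_image.1 hx
    exact ⟨v' i, Finset.mem_image_of_mem _ hi, hr i hi⟩

theorem exists_bcl (hL : Ar2 L) (hS : VSt K δ S) {b : Ordinal.{0}} (hb : b < om1) (t : ℕ) :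
    ∃ z < om1, BCl S t b z := by
  have hγ : Ordinal.omega0 + b < om1 := add_lt_om1 omega_lt_om1 hb
  choose κ hκ using fun n => exists_tuple_types hS hγ n
  let Cl : BCL_Idx → Finset M → Finset M → Finset M → Prop := fun i P Q G =>
    ∃ v : Fin i.1 → M, κ i.1 v = i.2.2 ∧ P = i.2.1.1.image v ∧ Q = i.2.1.2.1.image v ∧
      G = i.2.1.2.2.image v
  let Gt : Finset M → Finset M → Finset M → Prop := fun P Q G =>
    Ok (bt S) univ P Q ∧ TT S (Bs (bt S) univ P Q) ∧ rho (bt S) P Q = t ∧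
      RC S univ (Bs (bt S) univ P Q) G
  have hz : ∀ i, ∃ ζ < om1, (∃ ζ₁ < om1, ∀ P Q G, Cl i P Q G → Gt P Q G →
      Jd S univ ζ₁ (Bs (bt S) univ P Q)) → ∀ P Q G, Cl i P Q G → Gt P Q G →
      Jd S univ ζ (Bs (bt S) univ P Q) := by
    intro i
    by_cases h : ∃ ζ₁ < om1, ∀ P Q G, Cl i P Q G → Gt P Q G →
      Jd S univ ζ₁ (Bs (bt S) univ P Q)
    · obtain ⟨ζ₁, h1, h2⟩ := h
      exact ⟨ζ₁, h1, fun _ => h2⟩
    · exact ⟨0, Ordinal.omega_pos 1, fun h' => absurd h' h⟩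
  choose z hz1 hz2 using hz
  obtain ⟨γ, hγ', hle⟩ := exists_bound hz1
  refine ⟨γ, hγ', ?_⟩
  intro P Q G hOk hTT hrho hRC hnJ ζ hζ
  obtain ⟨n, v, A, B, C, hA, hB, hC⟩ := BCL_enum P Q G
  have hnb : ¬ ∃ ζ₁ < om1, ∀ P Q G, Cl ⟨n, (A, B, C), κ n v⟩ P Q G → Gt P Q G →
      Jd S univ ζ₁ (Bs (bt S) univ P Q) := fun h =>
    hnJ (Jd.mono (hz2 _ h P Q G ⟨v, rfl, hA, hB, hC⟩ ⟨hOk, hTT, hrho, hRC⟩) le_rfl (hle _))
  have hex : ∃ P' Q' G', Cl ⟨n, (A, B, C), κ n v⟩ P' Q' G' ∧ Gt P' Q' G' ∧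
      ¬ Jd S univ ζ (Bs (bt S) univ P' Q') := by
    by_contra hcon
    apply hnb
    refine ⟨ζ, hζ, fun P' Q' G' h1 h2 => ?_⟩
    by_contra h3
    exact hcon ⟨P', Q', G', h1, h2, h3⟩
  obtain ⟨P', Q', G', ⟨v', hv', hP', hQ', hG'⟩, ⟨hOk', hTT', -, hRC'⟩, hnJ'⟩ := hex
  have hb1 : BFR S S univ univ (Ordinal.omega0 + b) (range fun i => (v' i, v i)) :=
    hκ n v' v hv'
  have hmtP : Mt (range fun i => (v' i, v i)) P' P := by
    rw [hP', hA]
    exact BCL_mt v v' A fun i _ => ⟨i, rfl⟩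
  have hmtQ : Mt (range fun i => (v' i, v i)) Q' Q := by
    rw [hQ', hB]
    exact BCL_mt v v' B fun i _ => ⟨i, rfl⟩
  have hb2 : BFR S S (Bs (bt S) univ P' Q') (Bs (bt S) univ P Q) b
      (range fun i => (v' i, v i)) := by
    refine BFR.restr (subset_univ _) (subset_univ _) Ordinal.omega0 b ?_ hb1
    intro x hx y hy hxy
    exact mem_bs_iff hx hy hxy hmtP hmtQ
  refine ⟨P', Q', G', (fun i => (v' i, v i)) '' (C : Set (Fin n)), hOk', hTT', hRC',
    C.finite_toSet.image _, ?_, ?_, ?_, hnJ'⟩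
  · rw [hG', hC]
    exact BCL_mt v v' C fun i hi => ⟨i, hi, rfl⟩
  · rintro _ ⟨i, hi, rfl⟩
    rw [hG', hC]
    exact ⟨Finset.mem_image_of_mem _ hi, Finset.mem_image_of_mem _ hi⟩
  · exact BFR.anti (image_subset_range _ _) hb2

end Pool.Agent.CW

end

/-! ### formerly `Pool.Agent.CW6.HA1` -/

section

/-!
# CW, module HA1
-/

set_option autoImplicit false
set_option linter.unusedSectionVars false
set_option linter.unusedVariables false

namespace Pool.Agent.CW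

open Set Pool.Agent.Helper5 Pool.Agent.Helper5.DU Pool.Agent.Helper6.Str
  Pool.Agent.Helper79.VC Pool.Agent.Helper97.VC Pool.Agent.Helper97.MD Pool.Agent.Helper6.VC
  Pool.Agent.Helper97.LO

open scoped Classical

variable {L : FirstOrder.Language.{0, 0}} [∀ n, IsEmpty (L.Functions n)]
  [∀ n, Countable (L.Relations n)] {M : Type} {K : Set (L.Structure ℕ)} {δ : Ordinal.{0}}
  {S : L.Structure M} {PX QX P Q P' Q' : Finset M} {t : ℕ} {a a₁ : Ordinal.{0}}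
  {X V Z : Set M}

theorem CB.covS_of_low (hc : CB S PX QX t a) (hZ : Z ⊆ Bs (bt S) univ PX QX) (ht : TT S Z)
    (hr : rk (bt S) univ Z < t) : CovS S univ Z (max 1 t) a := by
  obtain ⟨P, Q, hR⟩ := exists_refs (ne_top_of_lt hr)
  have hrho : rho (bt S) P Q < t := by
    have h1 := hR.eq
    rw [h1] at hr
    exact_mod_cast hr
  refine covS_of_refs (subset_univ _) hR (hrho.le.trans (le_max_right _ _))
    (lt_of_lt_of_le one_pos (le_max_left _ _)) fun F hF => ?_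
  obtain ⟨h1, h2, h3, -, -⟩ := hR.bs (subset_univ _) hF
  exact hc.low _ _ h1 (h2.trans hZ) (ht.mono h2) (h3.trans_lt hrho)

theorem CB.le_rk (hc : CB S PX QX t a) (haa : a < a₁) (hZ : Z ⊆ Bs (bt S) univ PX QX)
    (ht : TT S Z) (hn : ¬ Jd S univ a₁ Z) : (t : ℕ∞) ≤ rk (bt S) univ Z := by
  by_contra h
  exact hn (jd_of_covS (hc.covS_of_low hZ ht (not_le.1 h)) haa)

theorem hat_sub : Hat S X t V ⊆ X := sUnion_subset fun _ hT => hT.1

theorem Big.sub_hat (h : Big S X t a₁ P Q) :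
    Bs (bt S) univ P Q ⊆ Hat S X t (Bs (bt S) univ P Q) := by
  refine subset_sUnion_of_mem ⟨h.sub, h.tt, ?_, subset_rfl⟩
  rw [rk_bs h.ok, h.rho]

theorem hat_max {T : Set M} (hT : T ⊆ X) (ht : TT S T) (hr : rk (bt S) univ T ≤ t)
    (hV : V ⊆ T) : T ⊆ Hat S X t V := subset_sUnion_of_mem ⟨hT, ht, hr, hV⟩

/-- the family of the cuts in the definition of the hat is closed under unions -/
theorem HA1_union (hc : CB S PX QX t a) (haa : a < a₁)
    (hV : Big S (Bs (bt S) univ PX QX) t a₁ P Q) {T T' : Set M}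
    (hT : T ⊆ Bs (bt S) univ PX QX ∧ TT S T ∧ rk (bt S) univ T ≤ t ∧ Bs (bt S) univ P Q ⊆ T)
    (hT' : T' ⊆ Bs (bt S) univ PX QX ∧ TT S T' ∧ rk (bt S) univ T' ≤ t ∧
      Bs (bt S) univ P Q ⊆ T') :
    T ∪ T' ⊆ Bs (bt S) univ PX QX ∧ TT S (T ∪ T') ∧ rk (bt S) univ (T ∪ T') ≤ t ∧
      Bs (bt S) univ P Q ⊆ T ∪ T' := by
  refine ⟨union_subset hT.1 hT'.1, hT.2.1.union hT'.2.1, ?_,
    hT.2.2.2.trans subset_union_left⟩
  refine rk_union_le_of hT.2.2.1 hT'.2.2.1 ?_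
  refine hc.le_rk haa (inter_subset_left.trans hT.1) (hT.2.1.mono inter_subset_left) fun h => ?_
  exact hV.not_small (h.mono (subset_inter hT.2.2.2 hT'.2.2.2) le_rfl)

theorem HA1_base (hV : Big S (Bs (bt S) univ PX QX) t a₁ P Q) :
    Bs (bt S) univ P Q ⊆ Bs (bt S) univ PX QX ∧ TT S (Bs (bt S) univ P Q) ∧
      rk (bt S) univ (Bs (bt S) univ P Q) ≤ t ∧ Bs (bt S) univ P Q ⊆ Bs (bt S) univ P Q :=
  ⟨hV.sub, hV.tt, by rw [rk_bs hV.ok, hV.rho], subset_rfl⟩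

theorem CB.hat_finite (hc : CB S PX QX t a) (haa : a < a₁)
    (hV : Big S (Bs (bt S) univ PX QX) t a₁ P Q) (F : Finset M)
    (hF : (F : Set M) ⊆ Hat S (Bs (bt S) univ PX QX) t (Bs (bt S) univ P Q)) :
    ∃ T ⊆ Bs (bt S) univ PX QX, TT S T ∧ rk (bt S) univ T ≤ t ∧ Bs (bt S) univ P Q ⊆ T ∧
      (F : Set M) ⊆ T := by
  induction F using Finset.induction_on with
  | empty =>
    obtain ⟨h1, h2, h3, h4⟩ := HA1_base hV
    exact ⟨_, h1, h2, h3, h4, by simp⟩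
  | insert x F _ ih =>
    rw [Finset.coe_insert, insert_subset_iff] at hF
    obtain ⟨T, h1, h2, h3, h4, h5⟩ := ih hF.2
    obtain ⟨T', hT', hx⟩ := hF.1
    obtain ⟨k1, k2, k3, k4⟩ := HA1_union hc haa hV ⟨h1, h2, h3, h4⟩ hT'
    refine ⟨T ∪ T', k1, k2, k3, k4, ?_⟩
    rw [Finset.coe_insert, insert_subset_iff]
    exact ⟨Or.inr hx, h5.trans subset_union_left⟩

theorem CB.rk_hat (hc : CB S PX QX t a) (haa : a < a₁)
    (hV : Big S (Bs (bt S) univ PX QX) t a₁ P Q) :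
    rk (bt S) univ (Hat S (Bs (bt S) univ PX QX) t (Bs (bt S) univ P Q)) ≤ t := by
  unfold Hat
  rw [sUnion_eq_iUnion]
  have hne : Nonempty {T : Set M // T ∈ {T | T ⊆ Bs (bt S) univ PX QX ∧ TT S T ∧
      rk (bt S) univ T ≤ t ∧ Bs (bt S) univ P Q ⊆ T}} := ⟨⟨_, HA1_base hV⟩⟩
  refine @rk_iUnion_le _ _ _ _ _ hne _ ?_ _ fun i => i.2.2.2.1
  intro i j
  exact ⟨⟨i.1 ∪ j.1, HA1_union hc haa hV i.2 j.2⟩, subset_union_left, subset_union_right⟩

theorem CB.tt_hat (hL : Ar2 L) (hS : VSt K δ S) (hc : CB S PX QX t a) (haa : a < a₁)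
    (hV : Big S (Bs (bt S) univ PX QX) t a₁ P Q) :
    TT S (Hat S (Bs (bt S) univ PX QX) t (Bs (bt S) univ P Q)) := by
  refine tt_of_finite hL hS (ne_top_of_le_ne_top (ENat.natCast_ne_top t) (hc.rk_hat haa hV)) t
    fun F hF => ?_
  obtain ⟨T, -, h2, h3, -, h5⟩ := hc.hat_finite haa hV F hF
  exact ⟨T, h5, h2, h3⟩

theorem CB.covS_hat_inter (hL : Ar2 L) (hS : VSt K δ S) (hc : CB S PX QX t a) (haa : a < a₁)
    (hV : Big S (Bs (bt S) univ PX QX) t a₁ P Q)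
    (hV' : Big S (Bs (bt S) univ PX QX) t a₁ P' Q')
    (hne : Hat S (Bs (bt S) univ PX QX) t (Bs (bt S) univ P Q) ≠
      Hat S (Bs (bt S) univ PX QX) t (Bs (bt S) univ P' Q')) :
    CovS S univ (Hat S (Bs (bt S) univ PX QX) t (Bs (bt S) univ P Q) ∩
      Hat S (Bs (bt S) univ PX QX) t (Bs (bt S) univ P' Q')) (max 1 t) a := by
  have h1 := hc.tt_hat hL hS haa hV
  have h2 := hc.tt_hat hL hS haa hV'
  refine hc.covS_of_low (inter_subset_left.trans hat_sub) (h1.mono inter_subset_left) ?_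
  by_contra h
  have h3 := rk_union_le_of (hc.rk_hat haa hV) (hc.rk_hat haa hV') (not_lt.1 h)
  have h4 := hat_max (S := S) (union_subset hat_sub hat_sub) (h1.union h2) h3
    (hV.sub_hat.trans subset_union_left)
  have h5 := hat_max (S := S) (union_subset hat_sub hat_sub) (h1.union h2) h3
    (hV'.sub_hat.trans subset_union_right)
  exact hne (Subset.antisymm (subset_union_left.trans h5) (subset_union_right.trans h4))

/-- finite subsets of the hat are in basic subsets of the hat -/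
theorem CB.hat_ext (hL : Ar2 L) (hS : VSt K δ S) (hc : CB S PX QX t a) (haa : a < a₁)
    (hV : Big S (Bs (bt S) univ PX QX) t a₁ P Q) (F : Finset M)
    (hF : (F : Set M) ⊆ Hat S (Bs (bt S) univ PX QX) t (Bs (bt S) univ P Q)) :
    ∃ P₁ Q₁ : Finset M, Ok (bt S) univ P₁ Q₁ ∧ rho (bt S) P₁ Q₁ = t ∧
      Bs (bt S) univ P Q ⊆ Bs (bt S) univ P₁ Q₁ ∧ (F : Set M) ⊆ Bs (bt S) univ P₁ Q₁ ∧
      Bs (bt S) univ P₁ Q₁ ⊆ Hat S (Bs (bt S) univ PX QX) t (Bs (bt S) univ P Q) := by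
  have hr := hc.rk_hat haa hV
  obtain ⟨P₀, Q₀, hR⟩ := exists_refs (ne_top_of_le_ne_top (ENat.natCast_ne_top t) hr)
  exact ⟨_, _, ext0 hV.ok hV.rho (subset_univ _) hV.sub_hat hr (fun Z h1 h2 _ =>
    hc.le_rk haa (h2.trans hat_sub) ((hc.tt_hat hL hS haa hV).mono h2) fun h =>
      hV.not_small (h.mono h1 le_rfl)) hR hF⟩

end Pool.Agent.CW

end

/-! ### formerly `Pool.Agent.CW6.HA2` -/

section

/-!
# CW, module HA2
-/

set_option autoImplicit false
set_option linter.unusedSectionVars false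
set_option linter.unusedVariables false

namespace Pool.Agent.CW

open Set Pool.Agent.Helper5 Pool.Agent.Helper5.DU Pool.Agent.Helper6.Str
  Pool.Agent.Helper79.VC Pool.Agent.Helper97.VC Pool.Agent.Helper97.MD Pool.Agent.Helper6.VC
  Pool.Agent.Helper97.LO

open scoped Classical

variable {L : FirstOrder.Language.{0, 0}} [∀ n, IsEmpty (L.Functions n)]
  [∀ n, Countable (L.Relations n)] {M : Type} {K : Set (L.Structure ℕ)} {δ : Ordinal.{0}}
  {S : L.Structure M} {PX QX P Q : Finset M} {t : ℕ} {a a₁ : Ordinal.{0}}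

private theorem HA2_up (ζ : Ordinal.{0}) : Ordinal.omega0 + 1 ≤ up ζ := by
  unfold up
  rw [add_assoc, add_assoc]
  gcongr
  exact Ordinal.one_lt_omega0.le.trans ((le_self_add (a := Ordinal.omega0)
    (b := Ordinal.omega0)).trans le_add_self)

/-- `x` is in a basic set of rank `t` and level `α` between `V(P,Q)` and `X` -/
private def HA2_c (S : L.Structure M) (PX QX P Q : Finset M) (t : ℕ) (α : Ordinal.{0})
    (x : M) : Prop :=
  ∃ P₁ Q₁ : Finset M, Ok (bt S) univ P₁ Q₁ ∧ rho (bt S) P₁ Q₁ = t ∧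
    Bs (bt S) univ P Q ⊆ Bs (bt S) univ P₁ Q₁ ∧
    Bs (bt S) univ P₁ Q₁ ⊆ Bs (bt S) univ PX QX ∧ x ∈ Bs (bt S) univ P₁ Q₁ ∧
    Lv S univ (Bs (bt S) univ P₁ Q₁) α

private theorem HA2_tr (hL : Ar2 L) {α : Ordinal.{0}} (hα : α < om1) {c c' : M}
    (h : BFR S S univ univ (up α + Ordinal.omega0)
      (insert (c, c') (dg ((P ∪ Q ∪ (PX ∪ QX) : Finset M) : Set M))))
    (hc : HA2_c S PX QX P Q t α c) : HA2_c S PX QX P Q t α c' := by
  obtain ⟨P₁, Q₁, ok, hr, h1, h2, hx, hl⟩ := hc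
  obtain ⟨p', P', Q', hpp, hpf, -, -, hP, hQ, hb⟩ := forth2 (P := P₁) (Q := Q₁) h
    (((P ∪ Q ∪ (PX ∪ QX) : Finset M).finite_toSet.image _).insert _)
    (subset_univ _) (subset_univ _)
  have hd : ∀ F : Finset M, F ⊆ P ∪ Q ∪ (PX ∪ QX) → Mt p' F F := fun F hF =>
    mt_dg F (((image_mono (Finset.coe_subset.2 hF)).trans (subset_insert _ _)).trans hpp)
  have hPm : Mt p' P P := hd P fun x hx =>
    Finset.mem_union_left _ (Finset.mem_union_left _ hx)
  have hQm : Mt p' Q Q := hd Q fun x hx =>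
    Finset.mem_union_left _ (Finset.mem_union_right _ hx)
  have hPXm : Mt p' PX PX := hd PX fun x hx =>
    Finset.mem_union_right _ (Finset.mem_union_left _ hx)
  have hQXm : Mt p' QX QX := hd QX fun x hx =>
    Finset.mem_union_right _ (Finset.mem_union_right _ hx)
  have hb1 := hb.mono (HA2_up α)
  have ok' : Ok (bt S) univ P' Q' := (ok_iff hb1 hP hQ (subset_univ _) (subset_univ _)
    (subset_univ _) (subset_univ _)).1 ok
  refine ⟨P', Q', ok', ?_, ?_, ?_, ?_, ?_⟩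
  · rw [← rho_of_atEq hb.atEq hP hQ]
    exact hr
  · exact (bs_subset_iff hb1 hPm hQm hP hQ (subset_univ _) (subset_univ _)).1 h1
  · exact (bs_subset_iff hb1 hP hQ hPXm hQXm (subset_univ _) (subset_univ _)).1 h2
  · refine (mem_bs_iff (mem_univ c) (mem_univ c') ?_ hP hQ).1 hx
    rw [insert_eq_of_mem (hpp (mem_insert _ _))]
    exact hb1.mono le_self_add
  · exact (lv_iff hL hα hb ok ok' hP hQ).1 hl

theorem CB.hat_dfAt (hL : Ar2 L) (hS : VSt K δ S) (hc : CB S PX QX t a) (haa : a < a₁)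
    (hV : Big S (Bs (bt S) univ PX QX) t a₁ P Q) :
    ∃ η < om1, DfAt S (P ∪ Q ∪ (PX ∪ QX)) η
      (Hat S (Bs (bt S) univ PX QX) t (Bs (bt S) univ P Q)) := by
  have htt := CB.tt_hat hL hS hc haa hV
  obtain ⟨κ, hκ⟩ := htt (P ∪ Q ∪ (PX ∪ QX))
  have h1 : ∀ x ∈ Hat S (Bs (bt S) univ PX QX) t (Bs (bt S) univ P Q), ∃ ζ < om1,
      HA2_c S PX QX P Q t ζ x := by
    intro x hx
    obtain ⟨P₁, Q₁, ok, hr, h1, h2, h3⟩ := CB.hat_ext hL hS hc haa hV {x} (by
      rw [Finset.coe_singleton, singleton_subset_iff]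
      exact hx)
    have h4 : TT S (Bs (bt S) univ P₁ Q₁) := fun F => by
      obtain ⟨κ', hκ'⟩ := htt F
      exact ⟨κ', fun c hc c' hc' hcc => hκ' c (h3 hc) c' (h3 hc') hcc⟩
    obtain ⟨ζ, hζ, hl⟩ := exists_lv hL hS (dfb_bs S P₁ Q₁) (by
      rw [rk_bs ok]
      exact ENat.natCast_ne_top _) h4
    exact ⟨ζ, hζ, P₁, Q₁, ok, hr, h1, h3.trans hat_sub,
      h2 (Finset.mem_coe.2 (Finset.mem_singleton_self x)), hl⟩
  have h2 : ∀ n : ℕ, ∃ ζ < om1,
      (∃ x ∈ Hat S (Bs (bt S) univ PX QX) t (Bs (bt S) univ P Q), κ x = n) →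
      ∃ x ∈ Hat S (Bs (bt S) univ PX QX) t (Bs (bt S) univ P Q), κ x = n ∧
        HA2_c S PX QX P Q t ζ x := by
    intro n
    by_cases h : ∃ x ∈ Hat S (Bs (bt S) univ PX QX) t (Bs (bt S) univ P Q), κ x = n
    · obtain ⟨x, hx, hn⟩ := h
      obtain ⟨ζ, hζ, hz⟩ := h1 x hx
      exact ⟨ζ, hζ, fun _ => ⟨x, hx, hn, hz⟩⟩
    · exact ⟨0, Ordinal.omega_pos 1, fun h' => absurd h' h⟩
  choose g hg hg' using h2
  obtain ⟨α, hα, hgα⟩ := exists_bound hg
  have hη : up α + Ordinal.omega0 < om1 :=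
    (le_self_add (a := up α + Ordinal.omega0) (b := Ordinal.omega0)).trans_lt (up_lt_om1 hα)
  have h3 : ∀ x ∈ Hat S (Bs (bt S) univ PX QX) t (Bs (bt S) univ P Q),
      HA2_c S PX QX P Q t α x := by
    intro x hx
    obtain ⟨y, hy, hyn, P₁, Q₁, ok, hr, e1, e2, e3, hl⟩ := hg' (κ x) ⟨x, hx, rfl⟩
    exact HA2_tr hL hα (hκ y hy x hx hyn _ hη)
      ⟨P₁, Q₁, ok, hr, e1, e2, e3, hl.mono (hgα _)⟩
  have h4 : ∀ x, HA2_c S PX QX P Q t α x →
      x ∈ Hat S (Bs (bt S) univ PX QX) t (Bs (bt S) univ P Q) := by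
    rintro x ⟨P₁, Q₁, ok, hr, e1, e2, e3, hl⟩
    refine hat_max e2 (tt_of_lv hL hS (dfb_bs S P₁ Q₁) hα hl) ?_ e1 e3
    rw [rk_bs ok, hr]
  refine ⟨up α + Ordinal.omega0, hη, fun c c' hb => ⟨fun h => ?_, fun h => ?_⟩⟩
  · exact h4 c' (HA2_tr hL hα hb (h3 c h))
  · refine h4 c (HA2_tr hL hα (hb.symm ?_) (h3 c' h))
    rintro w (rfl | ⟨x, hx, rfl⟩)
    · exact mem_insert _ _
    · exact mem_insert_of_mem _ ⟨x, hx, rfl⟩

theorem CB.hat_lv (hL : Ar2 L) (hS : VSt K δ S) (hc : CB S PX QX t a) (haa : a < a₁)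
    (hV : Big S (Bs (bt S) univ PX QX) t a₁ P Q) :
    ∃ ζ < om1, Lv S univ (Hat S (Bs (bt S) univ PX QX) t (Bs (bt S) univ P Q)) ζ := by
  obtain ⟨η, hη, hd⟩ := CB.hat_dfAt hL hS hc haa hV
  exact exists_lv hL hS (hd.dfb hη)
    (ne_top_of_le_ne_top (ENat.natCast_ne_top t) (CB.rk_hat hc haa hV))
    (CB.tt_hat hL hS hc haa hV)

end Pool.Agent.CW

end

/-! ### formerly `Pool.Agent.CW6.CLO` -/

section

/-!
# CW, module CLO
-/

set_option autoImplicit false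
set_option linter.unusedSectionVars false
set_option linter.unusedVariables false

namespace Pool.Agent.CW

open Set Pool.Agent.Helper5 Pool.Agent.Helper5.DU Pool.Agent.Helper6.Str
  Pool.Agent.Helper79.VC Pool.Agent.Helper97.VC Pool.Agent.Helper97.MD Pool.Agent.Helper6.VC
  Pool.Agent.Helper97.LO

open scoped Classical

variable {L : FirstOrder.Language.{0, 0}} [∀ n, IsEmpty (L.Functions n)]
  [∀ n, Countable (L.Relations n)] {M : Type} {K : Set (L.Structure ℕ)} {δ : Ordinal.{0}}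
  {S : L.Structure M} {PX QX : Finset M} {t : ℕ} {a a₁ b z ω' : Ordinal.{0}}

/-- countably many types of a countable level over a finite set -/
theorem exists_types (hS : VSt K δ S) {γ : Ordinal.{0}} (hγ : γ < om1) (F : Finset M) :
    ∃ A : Set M, A.Countable ∧ ∀ c, ∃ d ∈ A,
      BFR S S univ univ γ (insert (c, d) (dg (F : Set M))) := by
  obtain ⟨κ, hκ⟩ := hS.small γ hγ F (subset_univ _)
  obtain ⟨R, hR1, hR2, hR3⟩ := exists_reps (X := (univ : Set M)) κ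
  refine ⟨R, hR1, fun c => ?_⟩
  obtain ⟨d, hd, hcd⟩ := hR3 c (mem_univ c)
  exact ⟨d, hd, hκ c (mem_univ c) d (mem_univ d) hcd⟩

private theorem CLO_lv (hL : Ar2 L) (hS : VSt K δ S) (P Q : Finset M) :
    ∃ ζ < om1, Ok (bt S) univ P Q → TT S (Bs (bt S) univ P Q) →
      Lv S univ (Bs (bt S) univ P Q) ζ := by
  by_cases h : Ok (bt S) univ P Q ∧ TT S (Bs (bt S) univ P Q)
  · obtain ⟨ζ, h1, h2⟩ := exists_lv hL hS ((dfAt_bs S P Q).dfb omega_lt_om1)
      (by rw [rk_bs h.1]; exact ENat.natCast_ne_top _) h.2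
    exact ⟨ζ, h1, fun _ _ => h2⟩
  · exact ⟨0, Ordinal.omega_pos 1, fun h1 h2 => absurd ⟨h1, h2⟩ h⟩

private theorem CLO_hat (hL : Ar2 L) (hS : VSt K δ S) (hc : CB S PX QX t a) (haa : a < a₁)
    (P Q : Finset M) :
    ∃ μ < om1, Big S (Bs (bt S) univ PX QX) t a₁ P Q →
      (∃ η ≤ μ, DfAt S (P ∪ Q ∪ (PX ∪ QX)) η
        (Hat S (Bs (bt S) univ PX QX) t (Bs (bt S) univ P Q))) ∧
      ∃ ζ ≤ μ, Lv S univ (Hat S (Bs (bt S) univ PX QX) t (Bs (bt S) univ P Q)) ζ := by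
  by_cases h : Big S (Bs (bt S) univ PX QX) t a₁ P Q
  · obtain ⟨η, h1, h2⟩ := hc.hat_dfAt hL hS haa h
    obtain ⟨ζ, h3, h4⟩ := hc.hat_lv hL hS haa h
    exact ⟨max η ζ, max_lt h1 h3, fun _ => ⟨⟨η, le_max_left _ _, h2⟩, ζ, le_max_right _ _, h4⟩⟩
  · exact ⟨0, Ordinal.omega_pos 1, fun h1 => absurd h1 h⟩

private theorem CLO_wild (hc : CB S PX QX t a) (ha₁ : a₁ < om1) (P Q : Finset M)
    (ζ : Ordinal.{0}) :
    ∃ P' Q' : Finset M, ζ < om1 → Ok (bt S) univ P Q →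
      Bs (bt S) univ P Q ⊆ Bs (bt S) univ PX QX → Wil S (Bs (bt S) univ P Q) →
      Big S (Bs (bt S) univ PX QX) t a₁ P' Q' ∧
      Bs (bt S) univ P' Q' ⊆ Bs (bt S) univ P Q ∧ ¬ Jd S univ ζ (Bs (bt S) univ P' Q') := by
  by_cases h : ζ < om1 ∧ Ok (bt S) univ P Q ∧ Bs (bt S) univ P Q ⊆ Bs (bt S) univ PX QX ∧
      Wil S (Bs (bt S) univ P Q)
  · obtain ⟨h1, h2, h3, h4⟩ := h
    obtain ⟨P', Q', k1, k2, k3, k4, k5⟩ := hc.high P Q h2 h3 h4 (max ζ a₁) (max_lt h1 ha₁)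
    refine ⟨P', Q', fun _ _ _ _ => ⟨⟨k1, k2.trans h3, k3, k4, fun h => ?_⟩, k2, fun h => ?_⟩⟩
    · exact k5 (h.mono subset_rfl (le_max_right _ _))
    · exact k5 (h.mono subset_rfl (le_max_left _ _))
  · exact ⟨∅, ∅, fun h1 h2 h3 h4 => absurd ⟨h1, h2, h3, h4⟩ h⟩

private theorem CLO_rep (hω : ω' < om1) (hz : BCl S t b z) (P Q G : Finset M) :
    ∃ (P' Q' G' : Finset M) (q : Set (M × M)), Ok (bt S) univ P Q →
      TT S (Bs (bt S) univ P Q) → rho (bt S) P Q = t →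
      RC S univ (Bs (bt S) univ P Q) G → ¬ Jd S univ z (Bs (bt S) univ P Q) →
      (Ok (bt S) univ P' Q' ∧
      TT S (Bs (bt S) univ P' Q') ∧ RC S univ (Bs (bt S) univ P' Q') G' ∧ q.Finite ∧
      Mt q G' G ∧ (∀ c ∈ q, c.1 ∈ G' ∧ c.2 ∈ G) ∧
      BFR S S (Bs (bt S) univ P' Q') (Bs (bt S) univ P Q) b q ∧
      ¬ Jd S univ ω' (Bs (bt S) univ P' Q')) := by
  by_cases h : Ok (bt S) univ P Q ∧ TT S (Bs (bt S) univ P Q) ∧ rho (bt S) P Q = t ∧
      RC S univ (Bs (bt S) univ P Q) G ∧ ¬ Jd S univ z (Bs (bt S) univ P Q)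
  · obtain ⟨h1, h2, h3, h4, h5⟩ := h
    obtain ⟨P', Q', G', q, k⟩ := hz P Q G h1 h2 h3 h4 h5 ω' hω
    exact ⟨P', Q', G', q, fun _ _ _ _ _ => k⟩
  · exact ⟨∅, ∅, ∅, ∅, fun h1 h2 h3 h4 h5 => absurd ⟨h1, h2, h3, h4, h5⟩ h⟩

theorem exists_cloD (hL : Ar2 L) (hS : VSt K δ S) (hc : CB S PX QX t a) (haa : a < a₁)
    (ha₁ : a₁ < om1) (hω : ω' < om1) (hz : BCl S t b z) {A₀ : Set M} (hA : A₀.Countable) :
    ∃ (B : Set M) (lam : Ordinal.{0}), A₀ ⊆ B ∧ CloD S PX QX t a₁ b z ω' B lam := by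
  classical
  choose l1 hl1 hl1' using CLO_lv (S := S) hL hS
  choose l2 hl2 hl2' using CLO_hat hL hS hc haa
  choose wP wQ hw using CLO_wild hc ha₁
  choose rP rQ rG rq hr using CLO_rep (S := S) hω hz
  obtain ⟨fu, hfu1, hfu2, hfu3⟩ := hS.small.exists_wit
  have hpw : ∀ F : Finset M, {P : Finset M | P ∈ F.powerset}.Countable := fun F =>
    (Finset.finite_toSet F.powerset).countable
  obtain ⟨B, lam, hB, hA₀B, hμl, hlo, hladd, hcl⟩ := exists_pair
    (fun F γ => fu F γ ∪ ⋃ P ∈ {P : Finset M | P ∈ F.powerset},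
      ⋃ Q ∈ {Q : Finset M | Q ∈ F.powerset}, (((wP P Q γ : Set M) ∪ (wQ P Q γ : Set M)) ∪
        ⋃ G ∈ {G : Finset M | G ∈ F.powerset},
          (((rP P Q G : Set M) ∪ (rQ P Q G : Set M)) ∪ (rG P Q G : Set M))))
    (fun F γ _ => (hfu1 F γ).union ((hpw F).biUnion fun P _ => (hpw F).biUnion fun Q _ =>
      ((wP P Q γ).countable_toSet.union (wQ P Q γ).countable_toSet).union
        ((hpw F).biUnion fun G _ => ((rP P Q G).countable_toSet.union
          (rQ P Q G).countable_toSet).union (rG P Q G).countable_toSet)))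
    (fun F _ => F.powerset.sup fun P => F.powerset.sup fun Q => max (l1 P Q) (l2 P Q))
    (fun F _ _ => by
      rw [Finset.sup_lt_iff (Ordinal.omega_pos 1)]
      intro P _
      rw [Finset.sup_lt_iff (Ordinal.omega_pos 1)]
      intro Q _
      exact max_lt (hl1 P Q) (hl2 P Q)) hA (μ := max ω' Ordinal.omega0)
    (max_lt hω omega_lt_om1)
  have hGd : Gd lam := ⟨(le_max_right _ _).trans_lt hμl, hlo, hladd⟩
  have h0 : (0 : Ordinal.{0}) < lam := lt_of_le_of_lt bot_le hμl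
  -- levels
  have hlev : ∀ P Q : Finset M, (P : Set M) ⊆ B → (Q : Set M) ⊆ B →
      l1 P Q < lam ∧ l2 P Q < lam := by
    intro P Q hP hQ
    have h1 := (hcl (P ∪ Q) (by rw [Finset.coe_union]; exact union_subset hP hQ) 0 h0).2
    rw [Finset.sup_lt_iff h0] at h1
    have h2 := h1 P (Finset.mem_powerset.2 Finset.subset_union_left)
    rw [Finset.sup_lt_iff h0] at h2
    have h3 := h2 Q (Finset.mem_powerset.2 Finset.subset_union_right)
    exact ⟨(le_max_left _ _).trans_lt h3, (le_max_right _ _).trans_lt h3⟩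
  -- witnesses
  have hwit : ∀ P Q : Finset M, (P : Set M) ⊆ B → (Q : Set M) ⊆ B → ∀ γ < lam,
      (wP P Q γ : Set M) ⊆ B ∧ (wQ P Q γ : Set M) ⊆ B := by
    intro P Q hP hQ γ hγ
    have h1 := (hcl (P ∪ Q) (by rw [Finset.coe_union]; exact union_subset hP hQ) γ hγ).1
    have h2 : ((wP P Q γ : Set M) ∪ (wQ P Q γ : Set M)) ⊆ B := by
      refine Subset.trans ?_ h1
      refine Subset.trans ?_ subset_union_right
      intro x hx
      rw [mem_iUnion₂]
      refine ⟨P, Finset.mem_powerset.2 Finset.subset_union_left, ?_⟩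
      rw [mem_iUnion₂]
      exact ⟨Q, Finset.mem_powerset.2 Finset.subset_union_right, Or.inl hx⟩
    exact union_subset_iff.1 h2
  have hrep : ∀ P Q G : Finset M, (P : Set M) ⊆ B → (Q : Set M) ⊆ B → (G : Set M) ⊆ B →
      ((rP P Q G : Set M) ⊆ B ∧ (rQ P Q G : Set M) ⊆ B) ∧ (rG P Q G : Set M) ⊆ B := by
    intro P Q G hP hQ hG
    have h1 := (hcl (P ∪ Q ∪ G) (by
      rw [Finset.coe_union, Finset.coe_union]
      exact union_subset (union_subset hP hQ) hG) 0 h0).1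
    have h2 : ((rP P Q G : Set M) ∪ (rQ P Q G : Set M)) ∪ (rG P Q G : Set M) ⊆ B := by
      refine Subset.trans ?_ h1
      refine Subset.trans ?_ subset_union_right
      intro x hx
      rw [mem_iUnion₂]
      refine ⟨P, Finset.mem_powerset.2
        (Finset.subset_union_left.trans Finset.subset_union_left), ?_⟩
      rw [mem_iUnion₂]
      refine ⟨Q, Finset.mem_powerset.2
        (Finset.subset_union_right.trans Finset.subset_union_left), Or.inr ?_⟩
      rw [mem_iUnion₂]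
      exact ⟨G, Finset.mem_powerset.2 Finset.subset_union_right, hx⟩
    rw [union_subset_iff, union_subset_iff] at h2
    exact h2
  have hLV : ∀ P Q : Finset M, (P : Set M) ⊆ B → (Q : Set M) ⊆ B → Ok (bt S) univ P Q →
      TT S (Bs (bt S) univ P Q) → ∃ ζ < lam, Lv S univ (Bs (bt S) univ P Q) ζ :=
    fun P Q hP hQ h1 h2 => ⟨l1 P Q, (hlev P Q hP hQ).1, hl1' P Q h1 h2⟩
  refine ⟨B, lam, hA₀B,
    { ctb := hB
      gd := hGd
      lt := (le_max_left _ _).trans_lt hμl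
      clo := ?_
      lv := hLV
      hat := ?_
      wild := ?_
      rep := ?_ }⟩
  · intro γ hγ
    refine hfu3 B γ (hγ.trans hlo) ?_
    intro F hF
    exact subset_union_left.trans (hcl F (hF.trans inter_subset_left) γ hγ).1
  · intro P Q hP hQ h
    obtain ⟨⟨η, h1, h2⟩, ζ, h3, h4⟩ := hl2' P Q h
    have h5 := (hlev P Q hP hQ).2
    exact ⟨⟨η, h1.trans_lt h5, h2⟩, ζ, h3.trans_lt h5, h4⟩
  · intro P Q hP hQ h1 h2 h3 ζ hζ
    obtain ⟨k1, k2⟩ := hwit P Q hP hQ ζ hζ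
    obtain ⟨k3, k4, k5⟩ := hw P Q ζ (hζ.trans hlo) h1 h2 h3
    exact ⟨_, _, k1, k2, k3, k4, k5⟩
  · intro P Q G hP hQ hG h1 h2 h3 h4 h5
    obtain ⟨⟨k1, k2⟩, k3⟩ := hrep P Q G hP hQ hG
    obtain ⟨m1, m2, m3, m4, m5, m6, m7, m8⟩ := hr P Q G h1 h2 h3 h4 h5
    refine ⟨_, _, _, _,
      { ok := h1
        sub := subset_rfl
        inB := ⟨hP, hQ, hG⟩
        inB' := ⟨k1, k2, k3⟩
        rc := h4
        ok' := m1
        rc' := m3
        fin := m4
        mt := m5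
        mem := m6
        bfr := m7
        lv' := hLV _ _ k1 k2 m1 m2
        big' := m8 }⟩

end Pool.Agent.CW

end

/-! ### formerly `Pool.Agent.CW6.COR` -/

section

/-!
# CW, module COR
-/

set_option autoImplicit false
set_option linter.unusedSectionVars false
set_option linter.unusedVariables false

namespace Pool.Agent.CW

open Set Pool.Agent.Helper5 Pool.Agent.Helper5.DU Pool.Agent.Helper6.Str
  Pool.Agent.Helper79.VC Pool.Agent.Helper97.VC Pool.Agent.Helper97.MD Pool.Agent.Helper6.VC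
  Pool.Agent.Helper97.LO

open scoped Classical

variable {L : FirstOrder.Language.{0, 0}} [∀ n, IsEmpty (L.Functions n)]
  [∀ n, Countable (L.Relations n)] {M : Type} {K : Set (L.Structure ℕ)} {δ : Ordinal.{0}}
  {S : L.Structure M} {PX QX : Finset M} {t : ℕ} {a a₁ b z ω' lam : Ordinal.{0}} {B : Set M}
  {ζ : ℕ → Ordinal.{0}} {PV QV : ℕ → Finset M}

theorem exists_hatD (hth : ThrD S PX QX t a₁ z ζ ω' PV QV) (hB : B.Countable)
    (hV : ∀ n, ((PV n : Finset M) : Set M) ⊆ B ∧ ((QV n : Finset M) : Set M) ⊆ B) :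
    ∃ T : ℕ → Set M, HatD S PX QX t a₁ B T := by
  let I : Set (Finset M × Finset M) := {c | (c.1 : Set M) ⊆ B ∧ (c.2 : Set M) ⊆ B ∧
    Big S (Bs (bt S) univ PX QX) t a₁ c.1 c.2}
  let h : Finset M × Finset M → Set M := fun c =>
    Hat S (Bs (bt S) univ PX QX) t (Bs (bt S) univ c.1 c.2)
  let H : Set (Set M) := h '' I
  have hI : I.Countable := by
    have h1 : {F : Finset M | (F : Set M) ⊆ B}.Countable := by
      have h2 : Set.Countable {F : Set M | F.Finite ∧ F ⊆ B} := by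
        exact Set.countable_ofPred_finite_subset hB
      refine (h2.preimage_of_injOn (f := fun F : Finset M => (F : Set M)) ?_).mono ?_
      · exact fun x _ y _ hxy => Finset.coe_injective hxy
      · exact fun F hF => ⟨F.finite_toSet, hF⟩
    exact (h1.prod h1).mono fun c hc => Set.mem_prod.2 ⟨hc.1, hc.2.1⟩
  have hH : H.Countable := hI.image _
  have hζm : StrictMono ζ := strictMono_nat_of_lt_succ hth.lt
  have hinj : Function.Injective fun n => h (PV n, QV n) := by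
    have key : ∀ m n, m < n → h (PV m, QV m) ≠ h (PV n, QV n) := by
      intro m n hmn he
      have h1 := hth.jd m
      have h2 := hth.not_jd n
      apply h2
      have h3 : Hat S (Bs (bt S) univ PX QX) t (Bs (bt S) univ (PV m) (QV m)) =
        Hat S (Bs (bt S) univ PX QX) t (Bs (bt S) univ (PV n) (QV n)) := he
      rw [← h3]
      exact h1.mono subset_rfl (hζm.monotone hmn)
    intro m n hmn
    rcases lt_trichotomy m n with h1 | h1 | h1
    · exact absurd hmn (key m n h1)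
    · exact h1
    · exact absurd hmn.symm (key n m h1)
  have hHi : H.Infinite := by
    refine Set.infinite_of_injective_forall_mem hinj fun n => ?_
    exact ⟨(PV n, QV n), ⟨(hV n).1, (hV n).2, hth.big n⟩, rfl⟩
  have : Infinite H := hHi.to_subtype
  have : Countable H := hH.to_subtype
  obtain ⟨e⟩ : Nonempty (H ≃ ℕ) := nonempty_equiv_of_countable
  refine ⟨fun n => (e.symm n).1, ?_, ?_, ?_⟩
  · exact Subtype.val_injective.comp e.symm.injective
  · intro k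
    obtain ⟨c, hc, he⟩ := (e.symm k).2
    exact ⟨c.1, c.2, hc.1, hc.2.1, hc.2.2, he.symm⟩
  · intro P Q hP hQ hb
    refine ⟨e ⟨h (P, Q), (P, Q), ⟨hP, hQ, hb⟩, rfl⟩, ?_⟩
    simp only [Equiv.symm_apply_apply]
    rfl

end Pool.Agent.CW

end

/-! ### formerly `Pool.Agent.CW6.COR2` -/

section

/-!
# CW, module COR2
-/

set_option autoImplicit false
set_option linter.unusedSectionVars false
set_option linter.unusedVariables false

namespace Pool.Agent.CW

open Set Pool.Agent.Helper5 Pool.Agent.Helper5.DU Pool.Agent.Helper6.Str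
  Pool.Agent.Helper79.VC Pool.Agent.Helper97.VC Pool.Agent.Helper97.MD Pool.Agent.Helper6.VC
  Pool.Agent.Helper97.LO

open scoped Classical

variable {L : FirstOrder.Language.{0, 0}} [∀ n, IsEmpty (L.Functions n)]
  [∀ n, Countable (L.Relations n)] {M : Type} {K : Set (L.Structure ℕ)} {δ : Ordinal.{0}}
  {S : L.Structure M} {PX QX : Finset M} {t : ℕ} {a a₁ b z ω' lam : Ordinal.{0}} {B : Set M}
  {T : ℕ → Set M} {ζ : ℕ → Ordinal.{0}} {PV QV : ℕ → Finset M}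

private theorem COR2_iU (T : ℕ → Set M) (n : ℕ) : (⋃ i < n + 1, T i) = (⋃ i < n, T i) ∪ T n := by
  ext x
  simp only [mem_iUnion, mem_union, exists_prop]
  constructor
  · rintro ⟨i, hi, hx⟩
    rcases Nat.lt_succ_iff_lt_or_eq.1 hi with h | h
    · exact Or.inl ⟨i, h, hx⟩
    · exact Or.inr (h ▸ hx)
  · rintro (⟨i, hi, hx⟩ | hx)
    · exact ⟨i, hi.trans (Nat.lt_succ_self n), hx⟩
    · exact ⟨n, Nat.lt_succ_self n, hx⟩

private theorem COR2_i0 (T : ℕ → Set M) : (⋃ i < 0, T i) = ∅ := by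
  ext x
  simp

theorem HatD.covS_inter (hT : HatD S PX QX t a₁ B T) (hL : Ar2 L) (hS : VSt K δ S)
    (hc : CB S PX QX t a) (haa : a < a₁) {i j : ℕ} (hij : i ≠ j) :
    CovS S univ (T i ∩ T j) (max 1 t) a := by
  obtain ⟨P, Q, -, -, h1, e1⟩ := hT.hat i
  obtain ⟨P', Q', -, -, h2, e2⟩ := hT.hat j
  have hne : T i ≠ T j := fun h => hij (hT.inj h)
  rw [e1, e2] at hne ⊢
  exact hc.covS_hat_inter hL hS haa h1 h2 hne

private theorem COR2_cov (hT : HatD S PX QX t a₁ B T) (hL : Ar2 L) (hS : VSt K δ S)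
    (hc : CB S PX QX t a) (haa : a < a₁) (k n : ℕ) (hn : n ≤ k) :
    CovS S univ (T k ∩ ⋃ i < n, T i) (max 1 t * n) a := by
  induction n with
  | zero =>
    intro F hF
    rw [COR2_i0, inter_empty] at hF
    refine ⟨fun _ => ∅, fun _ => ∅, fun i => ?_, fun x hx => absurd (hF hx) (notMem_empty x)⟩
    rw [mul_zero] at i
    exact i.elim0
  | succ n ih =>
    rw [COR2_iU, inter_union_distrib_left, Nat.mul_succ]
    exact (ih (by omega)).union (hT.covS_inter hL hS hc haa (by omega))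

theorem HatD.covS_diff (hT : HatD S PX QX t a₁ B T) (hL : Ar2 L) (hS : VSt K δ S)
    (hc : CB S PX QX t a) (haa : a < a₁) (k : ℕ) :
    CovS S univ (T k \ (T k \ ⋃ i < k, T i)) (max 1 t * k) a := by
  rw [sdiff_sdiff_right_self]
  exact COR2_cov hT hL hS hc haa k k le_rfl

theorem HatD.tt (hT : HatD S PX QX t a₁ B T) (hL : Ar2 L) (hS : VSt K δ S)
    (hc : CB S PX QX t a) (haa : a < a₁) (k : ℕ) :
    TT S (T k) ∧ rk (bt S) univ (T k) ≤ t ∧ T k ⊆ Bs (bt S) univ PX QX ∧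
      ¬ Jd S univ a₁ (T k) := by
  obtain ⟨P, Q, -, -, h1, e1⟩ := hT.hat k
  rw [e1]
  exact ⟨hc.tt_hat hL hS haa h1, hc.rk_hat haa h1, hat_sub,
    fun h => h1.not_small (h.mono h1.sub_hat le_rfl)⟩

private theorem COR2_rk (hT : HatD S PX QX t a₁ B T) (hL : Ar2 L) (hS : VSt K δ S)
    (hc : CB S PX QX t a) (haa : a < a₁) (k n : ℕ) (hn : n ≤ k) :
    rk (bt S) univ (T k \ ⋃ i < n, T i) ≤ t := by
  induction n with
  | zero =>
    rw [COR2_i0, sdiff_empty]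
    exact (hT.tt hL hS hc haa k).2.1
  | succ n ih =>
    rw [COR2_iU, ← sdiff_sdiff]
    obtain ⟨h1, h2, h3, h4⟩ := hT.tt hL hS hc haa n
    refine rk_diff_le_of (subset_univ _) (subset_univ _) (ih (by omega)) h2 ?_
    refine hc.le_rk haa (sdiff_subset.trans h3) (h1.mono sdiff_subset) fun h5 => ?_
    have h6 : CovS S univ (T n ∩ (T k \ ⋃ i < n, T i)) (max 1 t) a :=
      (hT.covS_inter hL hS hc haa (show n ≠ k by omega)).mono
        (inter_subset_inter_right _ sdiff_subset) le_rfl le_rfl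
    have h7 := h5.union (jd_of_covS h6 haa)
    rw [sdiff_union_inter] at h7
    exact h4 h7

theorem HatD.rk_core (hT : HatD S PX QX t a₁ B T) (hL : Ar2 L) (hS : VSt K δ S)
    (hc : CB S PX QX t a) (haa : a < a₁) (k : ℕ) :
    rk (bt S) univ (T k \ ⋃ i < k, T i) ≤ t := COR2_rk hT hL hS hc haa k k le_rfl

private theorem COR2_df (hT : HatD S PX QX t a₁ B T) (hX : (PX : Set M) ⊆ B ∧ (QX : Set M) ⊆ B)
    (hC : CloD S PX QX t a₁ b z ω' B lam) (k : ℕ) :
    ∃ F : Finset M, (F : Set M) ⊆ B ∧ ∃ η < lam, DfAt S F η (T k) := by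
  obtain ⟨P, Q, h2, h3, h1, e1⟩ := hT.hat k
  obtain ⟨⟨η, h4, h5⟩, -⟩ := hC.hat P Q h2 h3 h1
  refine ⟨P ∪ Q ∪ (PX ∪ QX), ?_, η, h4, e1 ▸ h5⟩
  rw [Finset.coe_union, Finset.coe_union, Finset.coe_union]
  exact union_subset (union_subset h2 h3) (union_subset hX.1 hX.2)

private theorem COR2_dfn (hT : HatD S PX QX t a₁ B T) (hX : (PX : Set M) ⊆ B ∧ (QX : Set M) ⊆ B)
    (hC : CloD S PX QX t a₁ b z ω' B lam) (k n : ℕ) :
    ∃ F : Finset M, (F : Set M) ⊆ B ∧ ∃ η < lam, DfAt S F η (T k \ ⋃ i < n, T i) := by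
  induction n with
  | zero =>
    rw [COR2_i0, sdiff_empty]
    exact COR2_df hT hX hC k
  | succ n ih =>
    obtain ⟨F, h1, η, h2, h3⟩ := ih
    obtain ⟨F', h1', η', h2', h3'⟩ := COR2_df hT hX hC n
    rw [COR2_iU, ← sdiff_sdiff]
    refine ⟨F ∪ F', ?_, max η η', max_lt h2 h2', ?_⟩
    · rw [Finset.coe_union]
      exact union_subset h1 h1'
    · exact (h3.mono Finset.subset_union_left (le_max_left _ _)).diff
        (h3'.mono Finset.subset_union_right (le_max_right _ _))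

theorem HatD.dfAt (hT : HatD S PX QX t a₁ B T) (hX : (PX : Set M) ⊆ B ∧ (QX : Set M) ⊆ B)
    (hC : CloD S PX QX t a₁ b z ω' B lam) (k : ℕ) :
    ∃ F : Finset M, (F : Set M) ⊆ B ∧ ∃ η < lam, DfAt S F η (T k \ ⋃ i < k, T i) :=
  COR2_dfn hT hX hC k k

theorem HatD.jd_lam (hT : HatD S PX QX t a₁ B T) (hL : Ar2 L) (hS : VSt K δ S)
    (hc : CB S PX QX t a) (haa : a < a₁) (hC : CloD S PX QX t a₁ b z ω' B lam) (k : ℕ) :
    Jd S univ lam (T k \ ⋃ i < k, T i) := by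
  obtain ⟨P, Q, h2, h3, h1, e1⟩ := hT.hat k
  obtain ⟨-, ζ', h4, h5⟩ := hC.hat P Q h2 h3 h1
  rw [← e1] at h5
  have h6 := (hT.tt hL hS hc haa k).2.1
  have h7 : rk (bt S) univ (T k) ≠ ⊤ := ne_top_of_le_ne_top (ENat.natCast_ne_top t) h6
  exact (jd_of_lv hL hC.gd h4 (subset_univ _) h5 h7).mono sdiff_subset le_rfl

theorem HatD.idx (hT : HatD S PX QX t a₁ B T) (hL : Ar2 L) (hS : VSt K δ S)
    (hc : CB S PX QX t a) (haa : a < a₁) (haz : a₁ ≤ z)
    (hth : ThrD S PX QX t a₁ z ζ ω' PV QV)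
    (hV : ∀ n, ((PV n : Finset M) : Set M) ⊆ B ∧ ((QV n : Finset M) : Set M) ⊆ B) (n : ℕ) :
    ∃ k, Jd S univ (ζ (n + 1)) (T k \ ⋃ i < k, T i) ∧
      ¬ Jd S univ (ζ n) (T k \ ⋃ i < k, T i) := by
  obtain ⟨k, hk⟩ := hT.all (PV n) (QV n) (hV n).1 (hV n).2 (hth.big n)
  have h1 := hth.jd n
  have h2 := hth.not_jd n
  rw [← hk] at h1 h2
  have h3 : ∀ n, z < ζ n := by
    intro n
    induction n with
    | zero => exact hth.zlt
    | succ n ih => exact ih.trans (hth.lt n)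
  refine ⟨k, h1.mono sdiff_subset le_rfl, fun h4 => h2 ?_⟩
  have h5 := h4.union (jd_of_covS (hT.covS_diff hL hS hc haa k)
    (haa.trans_le (haz.trans (h3 n).le)))
  refine h5.mono (fun x hx => ?_) le_rfl
  by_cases h6 : x ∈ T k \ ⋃ i < k, T i
  · exact Or.inl h6
  · exact Or.inr ⟨hx, h6⟩

end Pool.Agent.CW

end

/-! ### formerly `Pool.Agent.CW6.THR` -/

section

/-!
# CW, module THR
-/

set_option autoImplicit false
set_option linter.unusedSectionVars false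
set_option linter.unusedVariables false

namespace Pool.Agent.CW

open Set Pool.Agent.Helper5 Pool.Agent.Helper5.DU Pool.Agent.Helper6.Str
  Pool.Agent.Helper79.VC Pool.Agent.Helper97.VC Pool.Agent.Helper97.MD Pool.Agent.Helper6.VC
  Pool.Agent.Helper97.LO

open scoped Classical

variable {L : FirstOrder.Language.{0, 0}} [∀ n, IsEmpty (L.Functions n)]
  [∀ n, Countable (L.Relations n)] {M : Type} {K : Set (L.Structure ℕ)} {δ : Ordinal.{0}}
  {S : L.Structure M} {PX QX : Finset M} {t : ℕ} {a a₁ z : Ordinal.{0}}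

private theorem thr_step (hL : Ar2 L) (hS : VSt K δ S) (hc : CB S PX QX t a) (haa : a < a₁)
    (ha₁ : a₁ < om1) (ζ : Ordinal.{0}) (hζ : ζ < om1) :
    ∃ (P Q : Finset M) (ζ' : Ordinal.{0}), Big S (Bs (bt S) univ PX QX) t a₁ P Q ∧
      Gd ζ' ∧ ζ < ζ' ∧
      ¬ Jd S univ ζ (Hat S (Bs (bt S) univ PX QX) t (Bs (bt S) univ P Q)) ∧
      Jd S univ ζ' (Hat S (Bs (bt S) univ PX QX) t (Bs (bt S) univ P Q)) := by
  obtain ⟨P, Q, h1, h2, h3, h4, h5⟩ := hc.high PX QX hc.ok subset_rfl hc.wil (max ζ a₁)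
    (max_lt hζ ha₁)
  have hb : Big S (Bs (bt S) univ PX QX) t a₁ P Q :=
    ⟨h1, h2, h3, h4, fun h => h5 (h.mono subset_rfl (le_max_right _ _))⟩
  obtain ⟨ξ, hξ, hlv⟩ := CB.hat_lv hL hS hc haa hb
  obtain ⟨μ, hμ, hgd⟩ := exists_gd (max ζ ξ) (max_lt hζ hξ)
  refine ⟨P, Q, μ, hb, hgd, (le_max_left _ _).trans_lt hμ, fun h => ?_, ?_⟩
  · exact h5 (h.mono hb.sub_hat (le_max_left _ _))
  · refine jd_of_lv hL hgd ((le_max_right _ _).trans_lt hμ) (subset_univ _) hlv ?_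
    exact ne_top_of_le_ne_top (ENat.natCast_ne_top t) (CB.rk_hat hc haa hb)

theorem exists_thr (hL : Ar2 L) (hS : VSt K δ S) (hc : CB S PX QX t a) (haa : a < a₁)
    (ha₁ : a₁ < om1) (hz : z < om1) :
    ∃ (PV QV : ℕ → Finset M) (ζ : ℕ → Ordinal.{0}) (ω' : Ordinal.{0}),
      ThrD S PX QX t a₁ z ζ ω' PV QV := by
  obtain ⟨ζ₀, hζ₀, hgd₀⟩ := exists_gd z hz
  choose P Q nx hbig hgd hlt hnj hj using
    fun x : {x : Ordinal.{0} // x < om1} => thr_step hL hS hc haa ha₁ x.1 x.2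
  let s : ℕ → {x : Ordinal.{0} // x < om1} := fun n =>
    Nat.rec ⟨ζ₀, hgd₀.lt⟩ (fun _ x => ⟨nx x, (hgd x).lt⟩) n
  have hs : ∀ n, (s (n + 1)).1 = nx (s n) := fun n => rfl
  obtain ⟨ω', hω, hgdω⟩ := exists_gd (⨆ n, (s n).1) (iSup_lt_om1 fun n => (s n).2)
  refine ⟨fun n => P (s n), fun n => Q (s n), fun n => (s n).1, ω', ?_⟩
  refine ⟨fun n => hbig (s n), fun n => ?_, hζ₀, fun n => ?_, fun n => hnj (s n), fun n => ?_,
    hgdω, fun n => ?_⟩
  · cases n with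
    | zero => exact hgd₀
    | succ n => exact hgd (s n)
  · exact hlt (s n)
  · exact hj (s n)
  · exact (Ordinal.le_iSup (fun n => (s n).1) n).trans_lt hω

end Pool.Agent.CW

end

/-! ### formerly `Pool.Agent.CW6.VKK` -/

section

/-!
# CW, module VKK
-/

set_option autoImplicit false
set_option linter.unusedSectionVars false
set_option linter.unusedVariables false

namespace Pool.Agent.CW

open Set Pool.Agent.Helper5 Pool.Agent.Helper5.DU Pool.Agent.Helper6.Str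
  Pool.Agent.Helper79.VC Pool.Agent.Helper97.VC Pool.Agent.Helper97.MD Pool.Agent.Helper6.VC
  Pool.Agent.Helper97.LO

open scoped Classical

variable {L : FirstOrder.Language.{0, 0}} [∀ n, IsEmpty (L.Functions n)]
  [∀ n, Countable (L.Relations n)] {M : Type} {K : Set (L.Structure ℕ)} {δ : Ordinal.{0}}
  {S : L.Structure M} {PX QX : Finset M} {t : ℕ} {a a₁ b z ω' lam : Ordinal.{0}}
  {B W : Set M}

/-- the choice of the basic set `V(P,Q)` in the core `W` and of its replacement -/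
theorem exists_repD (hL : Ar2 L) (hc : CB S PX QX t a) (haa : a < a₁) (haz : a₁ ≤ z)
    (hz : Cls S z) (hzω : z < ω')
    (hC : CloD S PX QX t a₁ b z ω' B lam) {F : Finset M} (hF : (F : Set M) ⊆ B)
    {η : Ordinal.{0}} (hη : η < lam) (hW : DfAt S F η W) (hWX : W ⊆ Bs (bt S) univ PX QX)
    (hWt : TT S W) (hWr : rk (bt S) univ W ≤ t) (hn : ¬ Jd S univ (z + 1) W) :
    ∃ (P Q G P' Q' G' : Finset M) (q : Set (M × M)),
      RepD S B b ω' lam W P Q G P' Q' G' q := by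
  have hWne : rk (bt S) univ W ≠ ⊤ := ne_top_of_le_ne_top (ENat.natCast_ne_top t) hWr
  obtain ⟨P0, Q0, hP0, hQ0, hR⟩ := exists_refs_B hC.gd hC.clo hF hη hW hWne
  have hzlam : z < lam := hzω.trans hC.lt
  have h1 : ∃ F1 : Finset M, (F1 : Set M) ⊆ W ∧
      ¬ Jd S univ z (Bs (bt S) univ (P0 ∪ F1) Q0) := by
    by_contra hcon
    apply hn
    have hcov : CovS S univ W (rho (bt S) P0 Q0 + 1) z := by
      refine covS_of_refs (subset_univ W) hR (Nat.le_succ _) (Nat.succ_pos _) fun F1 hF1 => ?_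
      have h2 : Jd S univ z (Bs (bt S) univ (P0 ∪ F1) Q0) := by
        by_contra h3
        exact hcon ⟨F1, hF1, h3⟩
      obtain ⟨ζ', h4, h5⟩ := hz.lv _ _ (hR.bs (subset_univ _) hF1).1 h2
      exact h5.mono h4.le
    exact jd_of_covS hcov (lt_add_one z)
  obtain ⟨F1, hF1, hnj⟩ := h1
  have hγ : max z η < lam := max_lt hzlam hη
  have hF₀ : ((F ∪ P0 ∪ Q0 : Finset M) : Set M) ⊆ B := by
    rw [Finset.coe_union, Finset.coe_union]
    exact Set.union_subset (Set.union_subset hF hP0) hQ0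
  obtain ⟨q, F2, hqf, hF2B, hq, hqm, hb⟩ := move_B hC.gd hC.clo hγ (F ∪ P0 ∪ Q0) F1 hF₀
  have hF2 : (F2 : Set M) ⊆ W := by
    intro y hy
    obtain ⟨x, hx, hxy⟩ := hq.2 y hy
    have hW' : DfAt S (F ∪ P0 ∪ Q0) η W :=
      hW.mono (Finset.subset_union_left.trans Finset.subset_union_left) le_rfl
    exact (hW'.mem_iff (le_max_right z η) hb hxy).1 (hF1 hx)
  obtain ⟨hok, hsub, hrho, -, -⟩ := hR.bs (subset_univ W) hF2
  have hPm : Mt (q ∪ dg ((F ∪ P0 ∪ Q0 : Finset M) : Set M)) P0 P0 :=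
    mt_dg P0 (by
      rintro c ⟨x, hx, hxc⟩
      exact Or.inr ⟨x, Finset.mem_union_left _ (Finset.mem_union_right _ hx), hxc⟩)
  have hQm : Mt (q ∪ dg ((F ∪ P0 ∪ Q0 : Finset M) : Set M)) Q0 Q0 :=
    mt_dg Q0 (by
      rintro c ⟨x, hx, hxc⟩
      exact Or.inr ⟨x, Finset.mem_union_right _ hx, hxc⟩)
  have hFm : Mt (q ∪ dg ((F ∪ P0 ∪ Q0 : Finset M) : Set M)) F1 F2 :=
    hq.mono Set.subset_union_left
  have hnj2 : ¬ Jd S univ z (Bs (bt S) univ (P0 ∪ F2) Q0) := by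
    intro h6
    exact hnj ((jd_bs_iff hL hz.gd (hb.mono (le_max_left z η)) (hPm.union hFm) hQm
      (subset_univ _) (subset_univ _)).2 h6)
  have htt : TT S (Bs (bt S) univ (P0 ∪ F2) Q0) := hWt.mono hsub
  have hle := hc.le_rk haa (hsub.trans hWX) htt fun h => hnj2 (h.mono subset_rfl haz)
  have hrk : rk (bt S) univ (Bs (bt S) univ (P0 ∪ F2) Q0) = rho (bt S) (P0 ∪ F2) Q0 := rk_bs hok
  have hrt : rho (bt S) (P0 ∪ F2) Q0 = t := by
    rw [hrk] at hle
    have h7 : t ≤ rho (bt S) (P0 ∪ F2) Q0 := by exact_mod_cast hle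
    have h8 : rho (bt S) P0 Q0 ≤ t := by
      rw [hR.eq] at hWr
      exact_mod_cast hWr
    exact le_antisymm (hrho.trans_le h8) h7
  have hP2B : ((P0 ∪ F2 : Finset M) : Set M) ⊆ B := by
    rw [Finset.coe_union]
    exact Set.union_subset hP0 hF2B
  have hPQB : (((P0 ∪ F2) ∪ Q0 : Finset M) : Set M) ⊆ B := by
    rw [Finset.coe_union]
    exact Set.union_subset hP2B hQ0
  have hne : rk (bt S) univ (Bs (bt S) univ (P0 ∪ F2) Q0) ≠ ⊤ := by
    rw [hrk]
    exact ENat.natCast_ne_top _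
  obtain ⟨G, hGB, hG⟩ := exists_rc_B hC.gd hC.clo hPQB hC.gd.om
    (dfAt_bs S (P0 ∪ F2) Q0) hne
  obtain ⟨P', Q', G', q', hrep⟩ := hC.rep (P0 ∪ F2) Q0 G hP2B hQ0 hGB hok htt hrt hG hnj2
  exact ⟨P0 ∪ F2, Q0, G, P', Q', G', q', { hrep with sub := hsub }⟩

end Pool.Agent.CW

end

/-! ### formerly `Pool.Agent.CW6.DATX` -/

section

/-!
# CW, module DATX
-/

set_option autoImplicit false
set_option linter.unusedSectionVars false
set_option linter.unusedVariables false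

namespace Pool.Agent.CW

open Set Pool.Agent.Helper5 Pool.Agent.Helper5.DU Pool.Agent.Helper6.Str
  Pool.Agent.Helper79.VC Pool.Agent.Helper97.VC Pool.Agent.Helper97.MD Pool.Agent.Helper6.VC
  Pool.Agent.Helper97.LO

open scoped Classical

variable {L : FirstOrder.Language.{0, 0}} [∀ n, IsEmpty (L.Functions n)]
  [∀ n, Countable (L.Relations n)] {M : Type} {K : Set (L.Structure ℕ)} {δ : Ordinal.{0}}
  {S : L.Structure M}

private theorem datx_tt_mono {X Y : Set M} (h : TT S Y) (hXY : X ⊆ Y) : TT S X := by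
  intro F
  obtain ⟨κ, hκ⟩ := h F
  exact ⟨κ, fun c hc c' hc' => hκ c (hXY hc) c' (hXY hc')⟩

theorem exists_dat (hL : Ar2 L) (hS : VSt K δ S) {PX QX : Finset M} {t : ℕ}
    {a : Ordinal.{0}} (hc : CB S PX QX t a) : Nonempty (Dat S δ) := by
  obtain ⟨a₁, haa, hcls⟩ := exists_cls hL hS hc.a_lt
  obtain ⟨b, hmb, hb⟩ := exists_gd (max a₁ δ) (max_lt hcls.gd.lt hS.lt)
  have hab : a₁ < b := lt_of_le_of_lt (le_max_left _ _) hmb
  have hδ : δ < b := lt_of_le_of_lt (le_max_right _ _) hmb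
  obtain ⟨z₀, hz₀, hbc₀⟩ := exists_bcl hL hS hb.lt t
  obtain ⟨z, hmz, hz⟩ := exists_cls hL hS (max_lt hz₀ hb.lt)
  have hz₀z : z₀ < z := lt_of_le_of_lt (le_max_left _ _) hmz
  have hbz : b < z := lt_of_le_of_lt (le_max_right _ _) hmz
  have hbc : BCl S t b z := hbc₀.mono hz₀z.le
  have haz : a₁ ≤ z := (hab.trans hbz).le
  obtain ⟨PV, QV, ζ, ω', hth⟩ := exists_thr (z := z) hL hS hc haa hcls.gd.lt hz.gd.lt
  have hzω : z < ω' := (hth.zlt).trans (hth.ltω 0)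
  have hA : (((PX : Set M) ∪ (QX : Set M)) ∪
      ⋃ n, (((PV n : Finset M) : Set M) ∪ ((QV n : Finset M) : Set M))).Countable := by
    refine Set.Countable.union ?_ ?_
    · exact (PX.countable_toSet).union (QX.countable_toSet)
    · exact Set.countable_iUnion fun n => ((PV n).countable_toSet).union ((QV n).countable_toSet)
  obtain ⟨B, lam, hAB, hC⟩ := exists_cloD hL hS hc haa hcls.gd.lt hth.gdω.lt hbc hA
  have hX : (PX : Set M) ⊆ B ∧ (QX : Set M) ⊆ B :=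
    ⟨fun x hx => hAB (Or.inl (Or.inl hx)), fun x hx => hAB (Or.inl (Or.inr hx))⟩
  have hV : ∀ n, ((PV n : Finset M) : Set M) ⊆ B ∧ ((QV n : Finset M) : Set M) ⊆ B :=
    fun n => ⟨fun x hx => hAB (Or.inr (mem_iUnion.2 ⟨n, Or.inl hx⟩)),
      fun x hx => hAB (Or.inr (mem_iUnion.2 ⟨n, Or.inr hx⟩))⟩
  obtain ⟨T, hT⟩ := exists_hatD hth hC.ctb hV
  have htt := hT.tt hL hS hc haa
  have hcs : ∀ k, T k \ ⋃ i < k, T i ⊆ T k := fun k => Set.sdiff_subset
  have hζ0 : ∀ n, ζ 0 ≤ ζ n := by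
    intro n
    induction n with
    | zero => exact le_rfl
    | succ n ih => exact ih.trans (hth.lt n).le
  have hrep : ∀ k, ∃ (P Q G P' Q' G' : Finset M) (q : Set (M × M)), ∀ n,
      Jd S univ (ζ (n + 1)) (T k \ ⋃ i < k, T i) →
      ¬ Jd S univ (ζ n) (T k \ ⋃ i < k, T i) →
      RepD S B b ω' lam (T k \ ⋃ i < k, T i) P Q G P' Q' G' q := by
    intro k
    by_cases hk : ∃ n, Jd S univ (ζ (n + 1)) (T k \ ⋃ i < k, T i) ∧
        ¬ Jd S univ (ζ n) (T k \ ⋃ i < k, T i)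
    · obtain ⟨n, -, hn⟩ := hk
      obtain ⟨F, hF, η, hη, hW⟩ := hT.dfAt hX hC k
      have hn1 : ¬ Jd S univ (z + 1) (T k \ ⋃ i < k, T i) := by
        intro h
        refine hn (h.mono subset_rfl ?_)
        have h1 : z < ζ n := lt_of_lt_of_le hth.zlt (hζ0 n)
        exact Order.add_one_le_of_lt h1
      obtain ⟨P, Q, G, P', Q', G', q, hR⟩ := exists_repD hL hc haa haz hz hzω hC hF hη hW
        ((hcs k).trans (htt k).2.2.1) (datx_tt_mono (htt k).1 (hcs k))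
        (hT.rk_core hL hS hc haa k) hn1
      exact ⟨P, Q, G, P', Q', G', q, fun _ _ _ => hR⟩
    · exact ⟨∅, ∅, ∅, ∅, ∅, ∅, ∅, fun n h1 h2 => absurd ⟨n, h1, h2⟩ hk⟩
  choose P Q G P' Q' G' q hR using hrep
  exact ⟨{
    PX := PX
    QX := QX
    t := t
    a := a
    a₁ := a₁
    b := b
    z := z
    ζ := ζ
    ω' := ω'
    lam := lam
    B := B
    T := T
    n := fun k => max 1 t * k
    P := P
    Q := Q
    G := G
    P' := P'
    Q' := Q'
    G' := G'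
    q := q
    cb := hc
    cls₁ := hcls
    haa := haa
    hb := hb
    hab := hab
    hδ := hδ
    hbz := hbz
    hζ := hth.gd
    hzζ := hth.zlt
    hζs := hth.lt
    hω := hth.gdω
    hζω := hth.ltω
    hlam := hC.gd
    hωl := hC.lt
    ctb := hC.ctb
    hX := hX
    clo := hC.clo
    wild := hC.wild
    T_sub := fun k => (htt k).2.2.1
    T_tt := fun k => (htt k).1
    T_rk := fun k => (htt k).2.1
    T_max := by
      intro P Q hP hQ hB
      obtain ⟨k, hk⟩ := hT.all P Q hP hQ hB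
      refine ⟨k, ?_⟩
      rw [hk]
      exact hB.sub_hat
    T_inter := fun i j hij => hT.covS_inter hL hS hc haa hij
    T_cov := fun k => hT.covS_diff hL hS hc haa k
    U_df := fun k => hT.dfAt hX hC k
    U_rk := fun k => hT.rk_core hL hS hc haa k
    U_lam := fun k => hT.jd_lam hL hS hc haa hC k
    idx := fun n => hT.idx hL hS hc haa haz hth hV n
    rep := fun k n h1 h2 => hR k n h1 h2 }⟩

end Pool.Agent.CW

end
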