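import Pool.Agent.VB.N
import Pool.Agent.VB.G

/-!
# Tools for Vaught's conjecture, part 15: monotone parts, components

Merged file (to shorten the import chain): contents, unchanged, of
`Pool.Agent.MON.CA1`, `Pool.Agent.MON.CA2`, `Pool.Agent.MON.CA3`, `Pool.Agent.MON.CA4`, `Pool.Agent.MON.NRa`, `Pool.Agent.MON.NRe`, `Pool.Agent.MON.NRb`, `Pool.Agent.MON.NRc`, `Pool.Agent.MON.NRd`, `Pool.Agent.MON.CLV`, `Pool.Agent.MON.TFa`, `Pool.Agent.MON.TFb`, `Pool.Agent.MON.DEC`, `Pool.Agent.MON.BCL`, `Pool.Agent.MON.BDa`, `Pool.Agent.MON.BDb`, `Pool.Agent.MON.BDc`, `Pool.Agent.MON.CSB`.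
-/

/-! ### formerly `Pool.Agent.MON.CA1` -/

section

/-!
# MON, module CA1: existence of the closed sets of case A

One step: given a countable `A₀` and `μ < om1` apply `exists_pair` (Helper97) to
`f G γ = f₀ G γ ∪ ⋃ y ∈ G, ⋃ n, ⋃ F ⊆ G, f_{y,n} F γ`, where `f₀` are witnesses (`Small.exists_wit`) for `univ`
(`VSt.small`) and `f_{y,n}` for the cluster `Cl (g y n) y`, `g y` the enumeration of `ctbl_cl`
(`VSt.small_sub` with the parameter `y`: clusters are definable over `y` at level `0`, `Cx.base'`), and to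
`h G γ` = a common bound, plus one, of Scott levels of the tame clusters `Cl (g y n) y`, `y ∈ G` (`sl_of_tt`).
The step number `n + 1` starts with `A n` and an ordinal above `lam n` and above Scott levels of all
`Cl (g y m) y ∩ A n`, `y ∈ A n` (`exists_SL_of_countable`).
-/

set_option autoImplicit false
set_option linter.unusedSectionVars false
set_option linter.unusedVariables false

namespace Pool.Agent.MON

open Set Pool.Agent.Helper5 Pool.Agent.Helper5.DU Pool.Agent.Helper6.Str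
  Pool.Agent.Helper79.VC Pool.Agent.Helper97.VC Pool.Agent.Helper97.MD Pool.Agent.Helper6.VC
  Pool.Agent.Helper97.LO

variable {L : FirstOrder.Language.{0, 0}} {M N : Type} {σ : Sig L} {S : L.Structure M}
variable [∀ n, IsEmpty (L.Functions n)] [∀ n, Countable (L.Relations n)]
  {K : Set (L.Structure ℕ)} {δ : Ordinal.{0}}

/-- clusters are small -/
theorem ca1_small (hS : VSt K δ S) (hC : Cx σ S) (F : Finset M) (y : M) :
    Small S (Cl σ S F y) := by
  refine hS.small_sub {y} (κ := 0) (Ordinal.omega_pos 1) fun c c' h => ?_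
  refine (hC.base' h.atEq (x := y) ?_ (mem_insert _ _)).1
  refine mem_insert_of_mem _ ⟨y, ?_, rfl⟩
  simp

theorem exists_step (hS : VSt K δ S) (hC : Cx σ S) {A₀ : Set M} (hA₀ : A₀.Countable)
    {μ : Ordinal.{0}} (hμ : μ < om1) : ∃ (A : Set M) (lam : Ordinal.{0}), A.Countable ∧ A₀ ⊆ A ∧
      μ < lam ∧ Gd lam ∧ (∀ γ < lam, Clo S univ γ A) ∧
      (∀ y ∈ A, ∀ F', ∀ γ < lam, Clo S (Cl σ S F' y) γ A) ∧
      ∀ y ∈ A, ∀ F', TT S (Cl σ S F' y) → Lt S (Cl σ S F' y) lam := by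
  classical
  obtain ⟨f0, hf0, -, hf0c⟩ := hS.small.exists_wit
  choose g hg using fun x : M => ctbl_cl hS hC x
  choose w hw hwX hwc using fun (x : M) (n : ℕ) => (ca1_small hS hC (g x n) x).exists_wit
  have hτ0 : ∀ (x : M) (n : ℕ), ∃ τ : Ordinal.{0}, τ < om1 ∧ (TT S (Cl σ S (g x n) x) →
      SL S (Cl σ S (g x n) x) τ) := by
    intro x n
    by_cases ht : TT S (Cl σ S (g x n) x)
    · obtain ⟨τ, hτ, hτ'⟩ := sl_of_tt (dfb_cl hC (g x n) x) ht
      exact ⟨τ, hτ, fun _ => hτ'⟩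
    · exact ⟨0, Ordinal.omega_pos 1, fun h => absurd h ht⟩
  choose τ hτ hτ' using hτ0
  choose B hB hBle using fun x : M => exists_bound (hτ x)
  obtain ⟨A, lam, hAc, hA₀A, hμl, hlo, hladd, hcl⟩ := exists_pair
    (fun F γ => f0 F γ ∪ ⋃ x ∈ F, ⋃ n, ⋃ G ∈ F.powerset, w x n G γ) (by
      intro F γ hγ
      refine (hf0 F γ).union ?_
      exact F.finite_toSet.countable.biUnion fun x _ => countable_iUnion fun n =>
        (F.powerset).finite_toSet.countable.biUnion fun G _ => hw x n G γ)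
    (fun F γ => F.sup B) (by
      intro F γ hγ
      show F.sup B < om1
      rw [Finset.sup_lt_iff (Ordinal.omega_pos 1)]
      exact fun x _ => hB x) hA₀ (max_lt hμ omega_lt_om1)
  have hl0 : (0 : Ordinal.{0}) < lam := lt_of_le_of_lt (zero_le (a := _)) hμl
  refine ⟨A, lam, hAc, hA₀A, (le_max_left _ _).trans_lt hμl,
    ⟨(le_max_right _ _).trans_lt hμl, hlo, hladd⟩, fun γ hγ => ?_, fun y hy F' γ hγ => ?_,
    fun y hy F' ht => ?_⟩
  · refine hf0c A γ (hγ.trans hlo) fun F hF => ?_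
    have := (hcl F (fun a ha => (hF ha).1) γ hγ).1
    exact fun a ha => this (Or.inl ha)
  · obtain ⟨n, hn⟩ := hg y F'
    rw [hn]
    refine hwc y n A γ (hγ.trans hlo) fun F hF => ?_
    have h1 : ((insert y F : Finset M) : Set M) ⊆ A := by
      rw [Finset.coe_insert, insert_subset_iff]
      exact ⟨hy, fun a ha => (hF ha).1⟩
    intro e he
    refine (hcl _ h1 γ hγ).1 (Or.inr ?_)
    simp only [mem_iUnion]
    exact ⟨y, Finset.mem_insert_self _ _, n, F,
      Finset.mem_powerset.mpr (Finset.subset_insert _ _), he⟩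
  · obtain ⟨n, hn⟩ := hg y F'
    rw [hn] at ht ⊢
    have h1 : (({y} : Finset M) : Set M) ⊆ A := by
      rw [Finset.coe_singleton, singleton_subset_iff]
      exact hy
    have h2 := (hcl _ h1 0 hl0).2
    exact ⟨τ y n, lt_of_le_of_lt ((hBle y n).trans
      (Finset.le_sup (f := B) (Finset.mem_singleton_self y))) h2, hτ' y n ht⟩

/-- the step of the construction -/
theorem ca1_next (hS : VSt K δ S) (hC : Cx σ S) {A₀ : Set M} (hA₀ : A₀.Countable)
    {μ : Ordinal.{0}} (hμ : μ < om1) : ∃ (A : Set M) (lam : Ordinal.{0}), A.Countable ∧ A₀ ⊆ A ∧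
      μ < lam ∧ Gd lam ∧ (∀ γ < lam, Clo S univ γ A) ∧
      (∀ y ∈ A, ∀ F', ∀ γ < lam, Clo S (Cl σ S F' y) γ A) ∧
      (∀ y ∈ A, ∀ F', TT S (Cl σ S F' y) → Lt S (Cl σ S F' y) lam) ∧
      ∀ y ∈ A₀, ∀ F', Lt S (Cl σ S F' y ∩ A₀) lam := by
  classical
  choose g hg using fun x : M => ctbl_cl hS hC x
  choose τ hτ hτ' using fun (x : M) (n : ℕ) =>
    exists_SL_of_countable (S := S) (X := Cl σ S (g x n) x ∩ A₀) (hA₀.mono inter_subset_right)
  have := hA₀.to_subtype
  obtain ⟨B, hB, hBle⟩ := exists_bound (ι := A₀ × ℕ) (f := fun p => τ p.1.1 p.2)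
    (fun p => hτ _ _)
  obtain ⟨A, lam, h1, h2, h3, h4, h5, h6, h7⟩ := exists_step hS hC hA₀ (max_lt hμ hB)
  refine ⟨A, lam, h1, h2, (le_max_left _ _).trans_lt h3, h4, h5, h6, h7, fun y hy F' => ?_⟩
  obtain ⟨n, hn⟩ := hg y F'
  rw [hn]
  exact ⟨τ y n, (hBle (⟨y, hy⟩, n)).trans_lt ((le_max_right _ _).trans_lt h3), hτ' y n⟩

theorem exists_cd (hS : VSt K δ S) (hC : Cx σ S) {a : Ordinal.{0}} (ha : a < om1)
    (F : ℕ → Finset M) (x : ℕ → M) : ∃ A lam, CD σ S δ a F x A lam := by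
  classical
  let W := {w : Set M × Ordinal.{0} // w.1.Countable ∧ w.2 < om1}
  have hstep : ∀ w : W, ∃ w' : W, w.1.1 ⊆ w'.1.1 ∧ w.1.2 < w'.1.2 ∧ Gd w'.1.2 ∧
      (∀ γ < w'.1.2, Clo S univ γ w'.1.1) ∧
      (∀ y ∈ w'.1.1, ∀ F', ∀ γ < w'.1.2, Clo S (Cl σ S F' y) γ w'.1.1) ∧
      (∀ y ∈ w'.1.1, ∀ F', TT S (Cl σ S F' y) → Lt S (Cl σ S F' y) w'.1.2) ∧
      ∀ y ∈ w.1.1, ∀ F', Lt S (Cl σ S F' y ∩ w.1.1) w'.1.2 := by
    rintro ⟨⟨A, l⟩, hA, hl⟩
    obtain ⟨A', l', h1, h2, h3, h4, h5, h6, h7, h8⟩ := ca1_next hS hC hA hl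
    exact ⟨⟨(A', l'), h1, h4.lt⟩, h2, h3, h4, h5, h6, h7, h8⟩
  choose st s1 s2 s3 s4 s5 s6 s7 using hstep
  have hpar : (⋃ n, (((F n : Finset M) : Set M) ∪ {x n})).Countable :=
    countable_iUnion fun n => ((F n).finite_toSet.countable).union (countable_singleton _)
  let w₀ : W := ⟨(⋃ n, (((F n : Finset M) : Set M) ∪ {x n}), max a δ), hpar, max_lt ha hS.lt⟩
  let s : ℕ → W := fun n => Nat.rec (st w₀) (fun _ w => st w) n
  have hs : ∀ n, s (n + 1) = st (s n) := fun _ => rfl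
  have hs0 : s 0 = st w₀ := rfl
  have hpre : ∀ n, ∃ w, s n = st w := by
    intro n
    cases n with
    | zero => exact ⟨w₀, rfl⟩
    | succ n => exact ⟨s n, rfl⟩
  refine ⟨fun n => (s n).1.1, fun n => (s n).1.2, ?_⟩
  constructor
  · exact fun n => (s n).2.1
  · intro n
    show (s n).1.1 ⊆ (s (n + 1)).1.1
    rw [hs]
    exact s1 _
  · intro n
    obtain ⟨w, hw⟩ := hpre n
    show Gd (s n).1.2
    rw [hw]
    exact s3 _
  · intro n
    show (s n).1.2 < (s (n + 1)).1.2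
    rw [hs]
    exact s2 _
  · show a < (s 0).1.2
    rw [hs0]
    exact (le_max_left a δ).trans_lt (s2 w₀)
  · show δ < (s 0).1.2
    rw [hs0]
    exact (le_max_right a δ).trans_lt (s2 w₀)
  · intro n
    show _ ⊆ (s 0).1.1
    rw [hs0]
    refine Subset.trans ?_ (s1 w₀)
    exact Subset.trans subset_union_left (subset_iUnion (fun n => ((F n : Finset M) : Set M) ∪
      {x n}) n)
  · intro n
    show _ ∈ (s 0).1.1
    rw [hs0]
    refine s1 w₀ ?_
    exact subset_iUnion (fun n => ((F n : Finset M) : Set M) ∪ {x n}) n (Or.inr rfl)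
  · intro n
    obtain ⟨w, hw⟩ := hpre n
    show ∀ γ < (s n).1.2, Clo S univ γ (s n).1.1
    rw [hw]
    exact s4 _
  · intro n
    obtain ⟨w, hw⟩ := hpre n
    show ∀ y ∈ (s n).1.1, ∀ F', ∀ γ < (s n).1.2, Clo S (Cl σ S F' y) γ (s n).1.1
    rw [hw]
    exact s5 _
  · intro n
    obtain ⟨w, hw⟩ := hpre n
    show ∀ y ∈ (s n).1.1, ∀ F', TT S (Cl σ S F' y) → Lt S (Cl σ S F' y) (s n).1.2
    rw [hw]
    exact s6 _
  · intro n
    show ∀ y ∈ (s n).1.1, ∀ F', Lt S (Cl σ S F' y ∩ (s n).1.1) (s (n + 1)).1.2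
    rw [hs]
    exact s7 _

end Pool.Agent.MON

end

/-! ### formerly `Pool.Agent.MON.CA2` -/

section

/-!
# MON, module CA2: the coding sets are closed

`W j = Cl (F j) (x j)`, `X = XA σ S F x A f`. `clo_xa`: let `G ⊆ X` be finite, `c ∈ univ`. (1) If `c ∈ W j` for some `j`: `CD.cloC`
(`n = sA f j`, `y = x j`) for `(G ∩ W j) ∪ {x j}` gives `d ∈ W j ∩ A (sA f j)` with `BFR S S (W j) (W j) γ`; extend by the identity outside
`W j` (`extC`, `U = U' = univ`). (2) If `c` is in no `W j`: let `J` be the finite set of the `j` with `G ∩ W j ≠ ∅`, `G⁰` the elements of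
`G` in no `W j` (they are in `A 0`). `CD.clo` at level `γ` for `G⁰ ∪ ⋃ j ∈ J, (F j ∪ {x j})` gives `d ∈ A 0 ⊆ X` with `BFR S S univ univ γ`. CLAIM: then
`BFR S S univ univ γ (insert (c, d) (dg G))`. Induction over the finite set `J` (for all `c, d` and `G`): `c ∉ W j` and `d ∉ W j`
(`Cx.base'`, `x j` is fixed); restrict the map to the complement of `W j` (`resC`) and glue with the identity on `W j`
(`glueC`, `BFR.refl`): now `G ∩ W j` can be added to the fixed points.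
-/

set_option autoImplicit false
set_option linter.unusedSectionVars false
set_option linter.unusedVariables false

namespace Pool.Agent.MON

open Set Pool.Agent.Helper5 Pool.Agent.Helper5.DU Pool.Agent.Helper6.Str
  Pool.Agent.Helper79.VC Pool.Agent.Helper97.VC Pool.Agent.Helper97.MD Pool.Agent.Helper6.VC
  Pool.Agent.Helper97.LO

variable {L : FirstOrder.Language.{0, 0}} {M N : Type} {σ : Sig L} {S : L.Structure M}
variable [∀ n, IsEmpty (L.Functions n)] [∀ n, Countable (L.Relations n)]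
  {K : Set (L.Structure ℕ)} {δ : Ordinal.{0}}

theorem CD.A_mono {a : Ordinal.{0}} {F : ℕ → Finset M} {x : ℕ → M} {A : ℕ → Set M}
    {lam : ℕ → Ordinal.{0}} (h : CD σ S δ a F x A lam) {m n : ℕ} (hmn : m ≤ n) : A m ⊆ A n :=
  monotone_nat_of_le_succ (f := A) h.mono hmn

theorem CD.lam_mono {a : Ordinal.{0}} {F : ℕ → Finset M} {x : ℕ → M} {A : ℕ → Set M}
    {lam : ℕ → Ordinal.{0}} (h : CD σ S δ a F x A lam) {m n : ℕ} (hmn : m ≤ n) :
    lam m ≤ lam n :=
  monotone_nat_of_le_succ (f := lam) (fun n => (h.lt n).le) hmn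

theorem xa_inter {a : Ordinal.{0}} {F : ℕ → Finset M} {x : ℕ → M} {A : ℕ → Set M}
    {lam : ℕ → Ordinal.{0}} (hW : WA σ S a F x) (h : CD σ S δ a F x A lam) (f : ℕ → Bool)
    (j : ℕ) : XA σ S F x A f ∩ Cl σ S (F j) (x j) = Cl σ S (F j) (x j) ∩ A (sA f j) := by
  ext u
  constructor
  · rintro ⟨h1, h2⟩
    refine ⟨h2, ?_⟩
    rcases h1 with h1 | h1
    · exact h.A_mono (Nat.zero_le _) h1
    · rw [mem_iUnion] at h1
      obtain ⟨i, hi1, hi2⟩ := h1
      by_cases hij : i = j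
      · rw [← hij]
        exact hi2
      · exact absurd h2 (Set.disjoint_left.mp (hW.disj i j hij) hi1)
  · rintro ⟨h1, h2⟩
    exact ⟨Or.inr (mem_iUnion.mpr ⟨j, h1, h2⟩), h1⟩

theorem xa_out {F : ℕ → Finset M} {x : ℕ → M} {A : ℕ → Set M} (f : ℕ → Bool) {C : Set M}
    (hC : ∀ j, Disjoint C (Cl σ S (F j) (x j))) : C ∩ XA σ S F x A f = C ∩ A 0 := by
  ext u
  constructor
  · rintro ⟨h1, h2 | h2⟩
    · exact ⟨h1, h2⟩
    · rw [mem_iUnion] at h2
      obtain ⟨i, hi1, hi2⟩ := h2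
      exact absurd hi1 (Set.disjoint_left.mp (hC i) h1)
  · rintro ⟨h1, h2⟩
    exact ⟨h1, Or.inl h2⟩

/-- a cluster of a fixed point, not containing the moved point, can be fixed pointwise -/
theorem ca2_add (hL : Ar2 L) (hC : Cx σ S) {F : Finset M} {x : M} {Q : Set M} {c d : M}
    {γ : Ordinal.{0}} (hx : x ∈ Q) (hc : c ∉ Cl σ S F x)
    (h : BFR S S univ univ γ (insert (c, d) (dg Q))) :
    BFR S S univ univ γ (insert (c, d) (dg (Q ∪ Cl σ S F x))) := by
  have hxx : ((x, x) : M × M) ∈ insert (c, d) (dg Q) := mem_insert_of_mem _ ⟨x, hx, rfl⟩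
  have hd : d ∉ Cl σ S F x := fun hd =>
    hc ((hC.base' (F := F) h.atEq hxx (mem_insert (c, d) (dg Q))).1.mpr hd)
  refine glueC hL hC (F := F) (x₀ := x) (x₀' := x) (cl_refl x) (Ce.refl x) ?_ ?_ ?_ ?_
  · rintro a (rfl | ⟨q, hq, rfl⟩)
    · exact ⟨fun h' => absurd h' hc, fun h' => absurd h' hd⟩
    · exact Iff.rfl
  · exact mem_insert_of_mem _ ⟨x, Or.inl hx, rfl⟩
  · refine BFR.refl S _ γ ?_
    rintro a ⟨rfl | ⟨q, hq, rfl⟩, h2⟩
    · exact absurd h2 hc
    · exact ⟨⟨mem_univ _, h2⟩, rfl⟩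
  · have h2 := (resC hC (F := F) (x₀ := x) (x₀' := x) (cl_refl x) (Ce.refl x) hxx h).2
    refine BFR.anti ?_ h2
    rintro a (rfl | ⟨rfl | ⟨q, hq, rfl⟩, h3⟩)
    · exact hxx
    · exact mem_insert _ _
    · rcases hq with hq | hq
      · exact mem_insert_of_mem _ ⟨q, hq, rfl⟩
      · exact absurd hq h3

theorem ca2_addJ (hL : Ar2 L) (hC : Cx σ S) {F : ℕ → Finset M} {x : ℕ → M} {Q : Set M} {c d : M}
    {γ : Ordinal.{0}} (hc : ∀ j, c ∉ Cl σ S (F j) (x j))
    (h : BFR S S univ univ γ (insert (c, d) (dg Q))) (J : Finset ℕ) : (∀ j ∈ J, x j ∈ Q) →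
    BFR S S univ univ γ (insert (c, d) (dg (Q ∪ ⋃ j ∈ J, Cl σ S (F j) (x j)))) := by
  classical
  induction J using Finset.induction_on with
  | empty =>
    intro _
    refine BFR.anti ?_ h
    refine insert_subset_insert ?_
    rintro a ⟨q, hq | hq, rfl⟩
    · exact ⟨q, hq, rfl⟩
    · simp only [Finset.notMem_empty, iUnion_of_empty, iUnion_empty] at hq
      exact absurd hq (notMem_empty q)
  | insert j J hj ih =>
    intro hJ
    have h1 := ih fun i hi => hJ i (Finset.mem_insert_of_mem hi)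
    have h2 := ca2_add hL hC (F := F j) (x := x j)
      (Or.inl (hJ j (Finset.mem_insert_self j J))) (hc j) h1
    refine BFR.anti ?_ h2
    refine insert_subset_insert ?_
    rintro a ⟨q, hq, rfl⟩
    refine ⟨q, ?_, rfl⟩
    rcases hq with hq | hq
    · exact Or.inl (Or.inl hq)
    · rw [mem_iUnion₂] at hq
      obtain ⟨i, hi, hq⟩ := hq
      rcases Finset.mem_insert.mp hi with rfl | hi
      · exact Or.inr hq
      · exact Or.inl (Or.inr (mem_iUnion₂.mpr ⟨i, hi, hq⟩))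

theorem clo_xa (hL : Ar2 L) (hC : Cx σ S) {a : Ordinal.{0}} {F : ℕ → Finset M} {x : ℕ → M}
    {A : ℕ → Set M} {lam : ℕ → Ordinal.{0}} (hW : WA σ S a F x) (h : CD σ S δ a F x A lam)
    (f : ℕ → Bool) {γ : Ordinal.{0}} (hγ : γ < lam 0) : Clo S univ γ (XA σ S F x A f) := by
  classical
  intro G hG c _
  have hGX : ∀ u ∈ G, u ∈ XA σ S F x A f := fun u hu => (hG (Finset.mem_coe.mpr hu)).1
  by_cases hc : ∃ j, c ∈ Cl σ S (F j) (x j)
  · obtain ⟨j, hj⟩ := hc
    have hA0 : A 0 ⊆ A (sA f j) := h.A_mono (Nat.zero_le _)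
    have hclo := h.cloC (sA f j) (x j) (hA0 (h.parx j)) (F j) γ
      (hγ.trans_le (h.lam_mono (Nat.zero_le _)))
    obtain ⟨d, hd, hb⟩ := hclo (insert (x j) (G.filter fun u => u ∈ Cl σ S (F j) (x j))) (by
      intro u hu
      rw [Finset.mem_coe, Finset.mem_insert, Finset.mem_filter] at hu
      rcases hu with rfl | ⟨hu1, hu2⟩
      · exact ⟨hA0 (h.parx j), cl_refl _⟩
      · have := (xa_inter hW h f j).subset ⟨hGX u hu1, hu2⟩
        exact ⟨this.2, this.1⟩) c hj
    refine ⟨d, ⟨((xa_inter hW h f j).symm.subset ⟨hd.2, hd.1⟩).1, mem_univ _⟩, ?_⟩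
    have h2 := extC hL hC (F := F j) (x₀ := x j) (x₀' := x j) (cl_refl _) (Ce.refl _)
      (U := univ) (U' := univ) rfl (γ := γ)
      (p := insert (c, d) (dg ((insert (x j) (G.filter fun u => u ∈ Cl σ S (F j) (x j)) :
        Finset M) : Set M)))
      (G := (G : Set M) \ Cl σ S (F j) (x j)) (by
        rintro a (rfl | ⟨q, hq, rfl⟩)
        · exact ⟨hj, hd.2⟩
        · rw [Finset.mem_coe, Finset.mem_insert, Finset.mem_filter] at hq
          rcases hq with rfl | ⟨_, hq⟩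
          · exact ⟨cl_refl _, cl_refl _⟩
          · exact ⟨hq, hq⟩)
      (mem_insert_of_mem _ ⟨x j, by
        rw [Finset.mem_coe]
        exact Finset.mem_insert_self _ _, rfl⟩)
      (Set.disjoint_left.mpr fun u hu hu' => hu.2 hu') (by
        rw [univ_inter]
        exact hb)
    refine BFR.anti ?_ h2
    rintro a (rfl | ⟨q, hq, rfl⟩)
    · exact Or.inl (mem_insert _ _)
    · by_cases hqW : q ∈ Cl σ S (F j) (x j)
      · refine Or.inl (mem_insert_of_mem _ ⟨q, ?_, rfl⟩)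
        rw [Finset.mem_coe, Finset.mem_insert, Finset.mem_filter]
        exact Or.inr ⟨hq, hqW⟩
      · exact Or.inr ⟨q, ⟨hq, hqW⟩, rfl⟩
  · push Not at hc
    have hj : ∀ u : M, ∃ j, (∃ i, u ∈ Cl σ S (F i) (x i)) → u ∈ Cl σ S (F j) (x j) := by
      intro u
      by_cases hu : ∃ i, u ∈ Cl σ S (F i) (x i)
      · obtain ⟨i, hi⟩ := hu
        exact ⟨i, fun _ => hi⟩
      · exact ⟨0, fun h' => absurd h' hu⟩
    choose jf hjf using hj
    obtain ⟨d, hd, hb⟩ := h.clo 0 γ hγ ((G.filter fun u => ∀ j, u ∉ Cl σ S (F j) (x j)) ∪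
      (G.image jf).image x) (by
      intro u hu
      rw [Finset.mem_coe, Finset.mem_union, Finset.mem_filter, Finset.mem_image] at hu
      refine ⟨?_, mem_univ _⟩
      rcases hu with ⟨hu1, hu2⟩ | ⟨j, _, rfl⟩
      · rcases hGX u hu1 with h1 | h1
        · exact h1
        · rw [mem_iUnion] at h1
          obtain ⟨i, hi, _⟩ := h1
          exact absurd hi (hu2 i)
      · exact h.parx j) c (mem_univ _)
    refine ⟨d, ⟨Or.inl hd.1, mem_univ _⟩, ?_⟩
    have h2 := ca2_addJ hL hC hc hb (G.image jf) (by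
      intro j hj
      rw [Finset.mem_coe, Finset.mem_union]
      exact Or.inr (Finset.mem_image_of_mem _ hj))
    refine BFR.anti (insert_subset_insert ?_) h2
    rintro a ⟨q, hq, rfl⟩
    refine ⟨q, ?_, rfl⟩
    by_cases hqW : ∃ i, q ∈ Cl σ S (F i) (x i)
    · exact Or.inr (mem_iUnion₂.mpr ⟨jf q, Finset.mem_image_of_mem _ hq, hjf q hqW⟩)
    · push Not at hqW
      left
      rw [Finset.mem_coe, Finset.mem_union, Finset.mem_filter]
      exact Or.inl ⟨hq, hqW⟩

end Pool.Agent.MON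

end

/-! ### formerly `Pool.Agent.MON.CA3` -/

section

/-!
# MON, module CA3: the levels of the clusters of the coding sets

`C = Cl F' y`, `y ∈ X = XA ..`. If `C ⊆ W k` then `C ∩ X = C ∩ A n`, `n = sA f k`, `y ∈ A n` (`xa_inter`); by `CD.cloC` and `Clo.bfr`
`C` and `C ∩ A n` are equivalent at all levels below `lam n`, so by `SL.congr` they have the same levels `ξ < lam n`. If `C` is
disjoint from all `W j` then `C ∩ X = C ∩ A 0`, `y ∈ A 0`. Wild clusters have no levels (`tt_of_sl`). Upper bounds: `CD.next`.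
-/

set_option autoImplicit false
set_option linter.unusedSectionVars false
set_option linter.unusedVariables false

namespace Pool.Agent.MON

open Set Pool.Agent.Helper5 Pool.Agent.Helper5.DU Pool.Agent.Helper6.Str
  Pool.Agent.Helper79.VC Pool.Agent.Helper97.VC Pool.Agent.Helper97.MD Pool.Agent.Helper6.VC
  Pool.Agent.Helper97.LO

variable {L : FirstOrder.Language.{0, 0}} {M N : Type} {σ : Sig L} {S : L.Structure M}
variable [∀ n, IsEmpty (L.Functions n)] [∀ n, Countable (L.Relations n)]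
  {K : Set (L.Structure ℕ)} {δ : Ordinal.{0}}

/-- closed sets are equivalent to the piece -/
theorem ca3_bfr {C A : Set M} {γ : Ordinal.{0}} (h : Clo S C γ A) :
    BFR S S C (C ∩ A) γ ∅ ∧ BFR S S (C ∩ A) C γ ∅ := by
  have h1 := h.bfr (F := ∅) finite_empty (empty_subset _)
  rw [inter_comm] at h1
  have h2 : BFR S S C (C ∩ A) γ ∅ := BFR.anti (empty_subset _) h1
  exact ⟨h2, h2.symm fun a ha => absurd ha (notMem_empty a)⟩

/-- levels in closed sets -/
theorem lt_inter (hC : Cx σ S) {y : M} {F' : Finset M} {A : Set M} {lam : Ordinal.{0}}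
    (hlam : Gd lam) (h : ∀ γ < lam, Clo S (Cl σ S F' y) γ A) :
    Lt S (Cl σ S F' y ∩ A) lam ↔ Lt S (Cl σ S F' y) lam := by
  constructor
  · rintro ⟨α, hα, hS⟩
    exact ⟨α, hα, hS.congr (hα.trans hlam.lt) (ca3_bfr (h _ (hlam.add α hα _ hlam.om))).2⟩
  · rintro ⟨α, hα, hS⟩
    exact ⟨α, hα, hS.congr (hα.trans hlam.lt) (ca3_bfr (h _ (hlam.add α hα _ hlam.om))).1⟩

/-- the part of a cluster inside `W k` -/
theorem ca3_in {a : Ordinal.{0}} {F : ℕ → Finset M} {x : ℕ → M} {A : ℕ → Set M}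
    {lam : ℕ → Ordinal.{0}} (hW : WA σ S a F x) (h : CD σ S δ a F x A lam) (f : ℕ → Bool)
    {F' : Finset M} {y : M} (hy : y ∈ XA σ S F x A f) {k : ℕ}
    (hk : Cl σ S F' y ⊆ Cl σ S (F k) (x k)) :
    Cl σ S F' y ∩ XA σ S F x A f = Cl σ S F' y ∩ A (sA f k) ∧ y ∈ A (sA f k) := by
  have h1 := xa_inter hW h f k
  constructor
  · ext u
    constructor
    · rintro ⟨hu1, hu2⟩
      have h2 : u ∈ XA σ S F x A f ∩ Cl σ S (F k) (x k) := ⟨hu2, hk hu1⟩
      rw [h1] at h2
      exact ⟨hu1, h2.2⟩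
    · rintro ⟨hu1, hu2⟩
      have h2 : u ∈ Cl σ S (F k) (x k) ∩ A (sA f k) := ⟨hk hu1, hu2⟩
      rw [← h1] at h2
      exact ⟨hu1, h2.1⟩
  · have h2 : y ∈ XA σ S F x A f ∩ Cl σ S (F k) (x k) := ⟨hy, hk (cl_refl y)⟩
    rw [h1] at h2
    exact h2.2

/-- elements of the coding set outside of the `W k` -/
theorem ca3_out {F : ℕ → Finset M} {x : ℕ → M} {A : ℕ → Set M} (f : ℕ → Bool) {y : M}
    (hy : y ∈ XA σ S F x A f) (hk : ∀ k, y ∉ Cl σ S (F k) (x k)) : y ∈ A 0 := by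
  rcases hy with h | h
  · exact h
  · obtain ⟨j, hj⟩ := mem_iUnion.1 h
    exact absurd hj.1 (hk j)

theorem level_tame (hL : Ar2 L) (hS : VSt K δ S) (hC : Cx σ S) {a : Ordinal.{0}}
    {F : ℕ → Finset M} {x : ℕ → M} {A : ℕ → Set M} {lam : ℕ → Ordinal.{0}}
    (hW : WA σ S a F x) (h : CD σ S δ a F x A lam) (f : ℕ → Bool) {F' : Finset M} {y : M}
    (hy : y ∈ XA σ S F x A f) (ht : TT S (Cl σ S F' y)) :
    Lt S (Cl σ S F' y ∩ XA σ S F x A f) (lam 0) := by
  by_cases hk : ∃ k, Cl σ S F' y ⊆ Cl σ S (F k) (x k)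
  · obtain ⟨k, hk⟩ := hk
    obtain ⟨h1, h2⟩ := ca3_in hW h f hy hk
    rw [h1]
    have h3 : SL S (Cl σ S F' y) a := hW.bdd k F' y hk ht
    have h4 : a + Ordinal.omega0 < lam 0 := (h.gd 0).add a h.a_lt _ (h.gd 0).om
    have h5 : a + Ordinal.omega0 < lam (sA f k) := h4.trans_le (h.lam_mono (Nat.zero_le _))
    exact ⟨a, h.a_lt, h3.congr hW.lt (ca3_bfr (h.cloC _ y h2 F' _ h5)).1⟩
  · have hdis : ∀ k, Disjoint (Cl σ S F' y) (Cl σ S (F k) (x k)) := by
      intro k
      rw [Set.disjoint_iff]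
      rintro z ⟨hz1, hz2⟩
      rcases hC.nest hz1 hz2 with h1 | h1
      · exact hk ⟨k, h1⟩
      · exfalso
        apply hW.wild k
        intro G
        obtain ⟨κ, hκ⟩ := ht G
        exact ⟨κ, fun c hc c' hc' => hκ c (h1 hc) c' (h1 hc')⟩
    have h0 : y ∈ A 0 := ca3_out f hy fun k hk' =>
      (Set.disjoint_left.1 (hdis k)) (cl_refl y) hk'
    rw [xa_out f hdis]
    exact (lt_inter hC (h.gd 0) (h.cloC 0 y h0 F')).2 (h.tame 0 y h0 F' ht)

theorem level_in (hL : Ar2 L) (hS : VSt K δ S) (hC : Cx σ S) {a : Ordinal.{0}}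
    {F : ℕ → Finset M} {x : ℕ → M} {A : ℕ → Set M} {lam : ℕ → Ordinal.{0}}
    (hW : WA σ S a F x) (h : CD σ S δ a F x A lam) (f : ℕ → Bool) {F' : Finset M} {y : M}
    (hy : y ∈ XA σ S F x A f) (ht : ¬ TT S (Cl σ S F' y)) {k : ℕ}
    (hk : Cl σ S F' y ⊆ Cl σ S (F k) (x k)) :
    ¬ Lt S (Cl σ S F' y ∩ XA σ S F x A f) (lam (sA f k)) ∧
      Lt S (Cl σ S F' y ∩ XA σ S F x A f) (lam (sA f k + 1)) := by
  obtain ⟨h1, h2⟩ := ca3_in hW h f hy hk
  rw [h1]
  refine ⟨fun h3 => ?_, h.next _ y h2 F'⟩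
  obtain ⟨α, hα, h4⟩ := (lt_inter hC (h.gd _) (h.cloC _ y h2 F')).1 h3
  exact ht (tt_of_sl hL hS hC (hα.trans (h.gd _).lt) h4)

theorem level_out (hL : Ar2 L) (hS : VSt K δ S) (hC : Cx σ S) {a : Ordinal.{0}}
    {F : ℕ → Finset M} {x : ℕ → M} {A : ℕ → Set M} {lam : ℕ → Ordinal.{0}}
    (hW : WA σ S a F x) (h : CD σ S δ a F x A lam) (f : ℕ → Bool) {F' : Finset M} {y : M}
    (hy : y ∈ XA σ S F x A f) (ht : ¬ TT S (Cl σ S F' y))
    (hk : ∀ k, Disjoint (Cl σ S F' y) (Cl σ S (F k) (x k))) :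
    Lt S (Cl σ S F' y ∩ XA σ S F x A f) (lam 1) := by
  have h0 : y ∈ A 0 := ca3_out f hy fun k hk' => (Set.disjoint_left.1 (hk k)) (cl_refl y) hk'
  rw [xa_out f hk]
  exact h.next 0 y h0 F'

end Pool.Agent.MON

end

/-! ### formerly `Pool.Agent.MON.CA4` -/

section

/-!
# MON, module CA4: case A

`decode`: `f k = true`: take `F k`, `x k`; `Cl .. ∩ X = W k ∩ A (k + 1)` (`level_in`). A cluster `C' = Cl F' y'`, `y' ∈ X`, with
`C' ∩ X ⊆ W k ∩ X` meets `W k` in `y'`, so `C' ⊆ W k` or `W k ⊆ C'` (`Cx.nest`); in the second case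
`C' ∩ X = W k ∩ X`. `level_tame`, `level_in`. Conversely let `F', y` be as in `DA`, `C = Cl F' y`; by `level_tame` `C` is wild. If
`C ⊆ W j` for some `j`: use the second part for `C` itself: by `level_in` and monotonicity of `lam`
`sA f j = k + 1`, so `j = k` and `f k = true`. If `W j ⊆ C` for some `j`: the same with `F j, x j`. Otherwise `C` is disjoint
from all `W j` (`Cx.nest`) and `level_out` contradicts `¬ Lt (lam (k + 1))`.
`da_congr` (`lam` increasing): clusters over `F ⊆ X`, `y ∈ X` correspond to clusters over the images (`cl_congr`, `BFR.restr₀`), `SL.lt_congr`; `γ` = `lam (k + 2) + ω` or more.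
`case_a`: `VSt.false_of_code'` with the sets `XA`; `γ` = a bound of all `lam n + ω`.
-/

set_option autoImplicit false
set_option linter.unusedSectionVars false
set_option linter.unusedVariables false

namespace Pool.Agent.MON

open Set Pool.Agent.Helper5 Pool.Agent.Helper5.DU Pool.Agent.Helper6.Str
  Pool.Agent.Helper79.VC Pool.Agent.Helper97.VC Pool.Agent.Helper97.MD Pool.Agent.Helper6.VC
  Pool.Agent.Helper97.LO

variable {L : FirstOrder.Language.{0, 0}} {M N : Type} {σ : Sig L} {S : L.Structure M}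

theorem ca4_lt_mono {X : Set M} {κ κ' : Ordinal.{0}} (h : Lt S X κ) (hκ : κ ≤ κ') :
    Lt S X κ' := by
  obtain ⟨α, h1, h2⟩ := h
  exact ⟨α, h1.trans_le hκ, h2⟩

/-- a finite set and a point are mapped -/
theorem ca4_forth {S' : L.Structure N} {X : Set M} {Y : Set N} {β : Ordinal.{0}}
    {p : Set (M × N)} (h : BFR S S' X Y (β + Ordinal.omega0) p) (G : Finset M)
    (hG : (G : Set M) ⊆ X) {y : M} (hy : y ∈ X) : ∃ (G' : Finset N) (y' : N) (q : Set (M × N)),
      (G' : Set N) ⊆ Y ∧ y' ∈ Y ∧ p ⊆ q ∧ Mt q G G' ∧ (y, y') ∈ q ∧ BFR S S' X Y β q := by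
  classical
  have h1 : BFR S S' X Y (β + ((G.card + 1 : ℕ) : Ordinal.{0})) p := by
    refine h.mono ?_
    gcongr
    exact (Ordinal.natCast_lt_omega0 _).le
  let e := G.equivFin
  let a : Fin (G.card + 1) → M := Fin.cons y fun i => (e.symm i).1
  have ha : ∀ i, a i ∈ X := by
    intro i
    refine Fin.cases ?_ (fun i => ?_) i
    · exact hy
    · exact hG (e.symm i).2
  obtain ⟨b, hb, h2⟩ := BFR.forth_many _ h1 a ha
  refine ⟨Finset.univ.image fun i : Fin G.card => b i.succ, b 0,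
    p ∪ range fun i => (a i, b i), ?_, hb 0, subset_union_left, ⟨?_, ?_⟩,
    Or.inr ⟨0, rfl⟩, h2⟩
  · intro z hz
    rw [Finset.coe_image] at hz
    obtain ⟨i, -, rfl⟩ := hz
    exact hb _
  · intro z hz
    refine ⟨b (e ⟨z, hz⟩).succ, Finset.mem_image.mpr ⟨e ⟨z, hz⟩, Finset.mem_univ _, rfl⟩,
      Or.inr ⟨(e ⟨z, hz⟩).succ, ?_⟩⟩
    have : a (e ⟨z, hz⟩).succ = z := by simp [a]
    simp only [this]
  · intro z hz
    obtain ⟨i, -, rfl⟩ := Finset.mem_image.mp hz
    exact ⟨(e.symm i).1, (e.symm i).2, Or.inr ⟨i.succ, by simp [a]⟩⟩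

theorem ca4_back {S' : L.Structure N} {X : Set M} {Y : Set N} {β : Ordinal.{0}}
    {p : Set (M × N)} (h : BFR S S' X Y (β + Ordinal.omega0) p) (G : Finset N)
    (hG : (G : Set N) ⊆ Y) {y : N} (hy : y ∈ Y) : ∃ (G' : Finset M) (y' : M) (q : Set (M × N)),
      (G' : Set M) ⊆ X ∧ y' ∈ X ∧ p ⊆ q ∧ Mt q G' G ∧ (y', y) ∈ q ∧ BFR S S' X Y β q := by
  obtain ⟨G', y', q, h1, h2, h3, h4, h5, h6⟩ := ca4_forth (h.symm (q := Prod.swap ⁻¹' p)
    fun a ha => ha) G hG hy
  refine ⟨G', y', Prod.swap ⁻¹' q, h1, h2, ?_, ⟨?_, ?_⟩, h5, h6.symm fun a ha => ha⟩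
  · intro a ha
    exact h3 ha
  · exact fun x hx => h4.2 x hx
  · exact fun x hx => h4.1 x hx

/-- clusters over matched sets are equivalent -/
theorem ca4_cl {S' : L.Structure N} {X : Set M} {Y : Set N} {β : Ordinal.{0}}
    {p : Set (M × N)} (h : BFR S S' X Y β p) {F : Finset M} {F' : Finset N} {y : M} {y' : N}
    (hF : Mt p F F') (hy : (y, y') ∈ p) :
    BFR S S' (Cl σ S F y ∩ X) (Cl σ S' F' y' ∩ Y) β ∅ := by
  refine BFR.anti (empty_subset _) (BFR.restr₀ inter_subset_right inter_subset_right ?_ h)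
  intro u hu v hv huv
  have h1 : u ∈ Cl σ S F y ↔ v ∈ Cl σ S' F' y' :=
    cl_congr huv (hF.mono (subset_insert _ _)) (mem_insert_of_mem _ hy) (mem_insert _ _)
  exact ⟨fun h2 => ⟨h1.mp h2.1, hv⟩, fun h2 => ⟨h1.mpr h2.1, hu⟩⟩

/-- inclusions are preserved -/
theorem ca4_sub {S' : L.Structure N} {X : Set M} {Y : Set N} {β : Ordinal.{0}} (hβ : 0 < β)
    {p : Set (M × N)} (h : BFR S S' X Y β p) {F G : Finset M} {F' G' : Finset N} {y z : M}
    {y' z' : N} (hF : Mt p F F') (hy : (y, y') ∈ p) (hG : Mt p G G') (hz : (z, z') ∈ p)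
    (hs : Cl σ S' G' z' ∩ Y ⊆ Cl σ S' F' y' ∩ Y) :
    Cl σ S G z ∩ X ⊆ Cl σ S F y ∩ X := by
  rintro u ⟨hu, huX⟩
  obtain ⟨w, hw, hb⟩ := h.forth hβ huX
  have hat := hb.atEq
  have h1 : w ∈ Cl σ S' G' z' := (cl_congr hat (hG.mono (subset_insert _ _))
    (mem_insert_of_mem _ hz) (mem_insert _ _)).mp hu
  have h2 := (hs ⟨h1, hw⟩).1
  exact ⟨(cl_congr hat (hF.mono (subset_insert _ _))
    (mem_insert_of_mem _ hy) (mem_insert _ _)).mpr h2, huX⟩

theorem ca4_lt_congr {S' : L.Structure N} {X : Set M} {Y : Set N} {κ : Ordinal.{0}}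
    (hκ : Gd κ) (h : BFR S S' X Y κ ∅) : Lt S X κ ↔ Lt S' Y κ :=
  SL.lt_congr hκ.lt.le (fun α hα => hκ.add α hα _ hκ.om) h

variable [∀ n, IsEmpty (L.Functions n)] [∀ n, Countable (L.Relations n)]
  {K : Set (L.Structure ℕ)} {δ : Ordinal.{0}}

theorem ca4_sA {f : ℕ → Bool} {j k : ℕ} (h : sA f j = k + 1) : f k = true := by
  unfold sA at h
  split_ifs at h with h1
  · have : j = k := by omega
    subst this
    exact h1

theorem decode (hL : Ar2 L) (hS : VSt K δ S) (hC : Cx σ S) {a : Ordinal.{0}}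
    {F : ℕ → Finset M} {x : ℕ → M} {A : ℕ → Set M} {lam : ℕ → Ordinal.{0}}
    (hW : WA σ S a F x) (h : CD σ S δ a F x A lam) (f : ℕ → Bool) (k : ℕ) :
    DA σ S lam k (XA σ S F x A f) ↔ f k = true := by
  have hF : ∀ j, ((F j : Finset M) : Set M) ⊆ XA σ S F x A f := fun j =>
    (h.parF j).trans subset_union_left
  have hx : ∀ j, x j ∈ XA σ S F x A f := fun j => Or.inl (h.parx j)
  constructor
  · rintro ⟨F', y, h1, h2, h3, h4⟩
    have hw : ¬ TT S (Cl σ S F' y) := fun ht => h3 (level_tame hL hS hC hW h f h2 ht)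
    -- the decoding from a cluster inside `W j`
    have key : ∀ (G : Finset M) (z : M) (j : ℕ), z ∈ XA σ S F x A f → ¬ TT S (Cl σ S G z) →
        Cl σ S G z ⊆ Cl σ S (F j) (x j) →
        (Lt S (Cl σ S G z ∩ XA σ S F x A f) (lam 0) ∨
        (¬ Lt S (Cl σ S G z ∩ XA σ S F x A f) (lam (k + 1)) ∧
          Lt S (Cl σ S G z ∩ XA σ S F x A f) (lam (k + 2)))) → f k = true := by
      intro G z j hz hGz hj hor
      obtain ⟨h5, h6⟩ := level_in hL hS hC hW h f hz hGz hj
      rcases hor with h7 | ⟨h7, h8⟩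
      · exact absurd (ca4_lt_mono h7 (h.lam_mono (Nat.zero_le _))) h5
      · refine ca4_sA (j := j) (le_antisymm ?_ ?_)
        · by_contra hcon
          exact h5 (ca4_lt_mono h8 (h.lam_mono (by omega)))
        · by_contra hcon
          exact h7 (ca4_lt_mono h6 (h.lam_mono (by omega)))
    by_cases hin : ∃ j, (Cl σ S F' y ∩ Cl σ S (F j) (x j)).Nonempty
    · obtain ⟨j, z, hz1, hz2⟩ := hin
      rcases hC.nest hz1 hz2 with h5 | h5
      · exact key F' y j h2 hw h5 (h4 F' y h1 h2 Subset.rfl)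
      · exact key (F j) (x j) j (hx j) (hW.wild j) Subset.rfl
          (h4 (F j) (x j) (hF j) (hx j) (inter_subset_inter_left _ h5))
    · push Not at hin
      have hd : ∀ j, Disjoint (Cl σ S F' y) (Cl σ S (F j) (x j)) := fun j =>
        Set.disjoint_iff_inter_eq_empty.mpr (hin j)
      have h5 := level_out hL hS hC hW h f h2 hw hd
      rcases h4 F' y h1 h2 Subset.rfl with h6 | ⟨h6, -⟩
      · exact absurd h6 h3
      · exact absurd (ca4_lt_mono h5 (h.lam_mono (by omega))) h6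
  · intro hk
    have hs : sA f k = k + 1 := by simp [sA, hk]
    obtain ⟨h1, h2⟩ := level_in hL hS hC hW h f (hx k) (hW.wild k) (Subset.refl _)
    rw [hs] at h1 h2
    refine ⟨F k, x k, hF k, hx k, fun h3 => h1 (ca4_lt_mono h3 (h.lam_mono (Nat.zero_le _))),
      fun F' y' hF' hy' hsub => ?_⟩
    by_cases ht : TT S (Cl σ S F' y')
    · exact Or.inl (level_tame hL hS hC hW h f hy' ht)
    · refine Or.inr ?_
      have hyW : y' ∈ Cl σ S (F k) (x k) := (hsub ⟨cl_refl y', hy'⟩).1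
      rcases hC.nest (cl_refl y') hyW with h3 | h3
      · have h4 := level_in hL hS hC hW h f hy' ht h3
        rw [hs] at h4
        exact h4
      · have h4 : Cl σ S F' y' ∩ XA σ S F x A f = Cl σ S (F k) (x k) ∩ XA σ S F x A f :=
          Subset.antisymm hsub (inter_subset_inter_left _ h3)
        rw [h4]
        exact ⟨h1, h2⟩

/-- the levels `lam n` are increasing in the application -/
theorem da_congr {lam : ℕ → Ordinal.{0}} (hlam : ∀ n, Gd (lam n))
    (hlt : ∀ n, lam n < lam (n + 1)) {γ : Ordinal.{0}}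
    (hγ : ∀ n, lam n + Ordinal.omega0 < γ) {X Y : Set M} (h : BFR S S X Y γ ∅) (k : ℕ)
    (hX : DA σ S lam k X) : DA σ S lam k Y := by
  obtain ⟨F, y, h1, h2, h3, h4⟩ := hX
  have hmono : StrictMono lam := strictMono_nat_of_lt_succ hlt
  have hle : lam (k + 2) + Ordinal.omega0 + Ordinal.omega0 ≤ γ := by
    have g := hlam (k + 3)
    have h5 := g.add _ (g.add _ (hmono (by omega : k + 2 < k + 3)) _ g.om) _ g.om
    have h6 : lam (k + 3) ≤ lam (k + 3) + Ordinal.omega0 := le_self_add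
    exact h5.le.trans (h6.trans (hγ (k + 3)).le)
  obtain ⟨F', y', p, g1, g2, -, g3, g4, g5⟩ := ca4_forth (h.mono hle) F h1 h2
  have g6 : BFR S S X Y (lam (k + 2)) p := g5.mono le_self_add
  have hpos : 0 < lam (k + 2) := Ordinal.omega0_pos.trans (hlam (k + 2)).om
  refine ⟨F', y', g1, g2, ?_, ?_⟩
  · have h5 := ca4_cl (σ := σ) (g6.mono (hmono.monotone (Nat.zero_le (k + 2)))) g3 g4
    exact fun h6 => h3 ((ca4_lt_congr (hlam 0) h5).mpr h6)
  · intro G z hG hz hsub
    obtain ⟨G', z', q, j1, j2, j3, j4, j5, j6⟩ := ca4_back g5 G hG hz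
    have h5 := ca4_sub (σ := σ) hpos j6 (g3.mono j3) (j3 g4) j4 j5 hsub
    have h6 := ca4_cl (σ := σ) j6 j4 j5
    have e0 := ca4_lt_congr (hlam 0) (h6.mono (hmono.monotone (Nat.zero_le (k + 2))))
    have e1 := ca4_lt_congr (hlam (k + 1)) (h6.mono (hmono.monotone (by omega)))
    have e2 := ca4_lt_congr (hlam (k + 2)) h6
    rw [← e0, ← e1, ← e2]
    exact h4 G' z' j1 j2 h5

/-- **Case A.** -/
theorem case_a (hL : Ar2 L) (hS : VSt K δ S) (hC : Cx σ S) {a : Ordinal.{0}}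
    {F : ℕ → Finset M} {x : ℕ → M} (hW : WA σ S a F x) : False := by
  obtain ⟨A, lam, hcd⟩ := exists_cd hS hC hW.lt F x
  obtain ⟨Γ, hΓ, hle⟩ := exists_bound (f := fun n => lam n + Ordinal.omega0)
    fun n => add_lt_om1 (hcd.gd n).lt omega_lt_om1
  refine hS.false_of_code' (XA σ S F x A) (fun f => ?_) (fun f => ?_)
    (add_one_lt_om1 hΓ) fun f g hfg => ?_
  · refine (hcd.ctbl 0).union (countable_iUnion fun j => (hcd.ctbl _).mono inter_subset_right)
  · have h1 := (clo_xa hL hC hW hcd f hcd.δ_lt).bfr (F := ∅) finite_empty (empty_subset _)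
    rw [inter_univ] at h1
    exact h1.symm fun a ha => absurd ha (notMem_empty a)
  · have hc : ∀ f g k, BFR S S (XA σ S F x A f) (XA σ S F x A g) (Γ + 1) ∅ → f k = true →
        g k = true := by
      intro f g k hfg hf
      rw [← decode hL hS hC hW hcd] at hf ⊢
      exact da_congr hcd.gd hcd.lt (fun n => (hle n).trans_lt (lt_add_one_self Γ)) hfg k hf
    funext k
    have h1 := hc f g k hfg
    have h2 := hc g f k (hfg.symm fun a ha => absurd ha (notMem_empty a))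
    cases hf : f k <;> cases hg : g k
    · rfl
    · exact absurd (h2 hg) (by simp [hf])
    · exact absurd (h1 hf) (by simp [hg])
    · rfl

end Pool.Agent.MON

end

/-! ### formerly `Pool.Agent.MON.NRa` -/

section

/-!
# MON, module NRa: basic facts about the new structure

`nr_rl`: unfold `nrS`, `Rl`. `nr_rl_ne`: for index `none` `th = el`. `nr_base`: same index `some x`, `el y = t x`: `th y = u x (t x) = x` (`RD.Ok.ux`), and
`RD.Ok.um` for `el c`; different index or index `none`: `nr_rl_ne`. `th_mem`: unfold `th`, `NR`; `RD.Ok.um`.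
`nr_th`: on `W = {c | Bp c}` the map `th` is injective and preserves all atomic facts (`nr_base`, `Cx.full`; unary facts: `RD.Ok.um`; `th` of a base
point of index `x` is `x ∈ Cl (D.F x) x`, `th` of an element of index `none` is in no `Cl (D.F x) x`). `BFR.of_map` on `W`, then restrict (`BFR.restr`) to `X`.
-/

set_option autoImplicit false
set_option linter.unusedSectionVars false
set_option linter.unusedVariables false

namespace Pool.Agent.MON

open Set Pool.Agent.Helper5 Pool.Agent.Helper5.DU Pool.Agent.Helper6.Str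
  Pool.Agent.Helper79.VC Pool.Agent.Helper97.VC Pool.Agent.Helper97.MD Pool.Agent.Helper6.VC
  Pool.Agent.Helper97.LO

open scoped Classical

variable {L : FirstOrder.Language.{0, 0}} {M N : Type} {σ : Sig L} {S : L.Structure M}
variable [∀ n, IsEmpty (L.Functions n)] [∀ n, Countable (L.Relations n)]
  {K : Set (L.Structure ℕ)} {δ : Ordinal.{0}}

/-- elements of index `none` -/
theorem nra_none {D : RD M} {R : Set M} {c : NR D σ S R} (h : ix c = none) :
    el c ∈ D.A ∧ (∀ x ∈ R, el c ∉ Cl σ S (D.F x) x) ∧ th c = el c := by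
  obtain ⟨⟨o, m⟩, hc⟩ := c
  have ho : o = none := h
  subst ho
  rcases hc with h1 | ⟨x, -, h1, -⟩
  · exact ⟨h1.2.1, h1.2.2, rfl⟩
  · exact absurd h1 (by simp)

/-- elements of index `some x` -/
theorem nra_some {D : RD M} {R : Set M} {c : NR D σ S R} {x : M} (h : ix c = some x) :
    x ∈ R ∧ el c ∈ D.A ∧ el c ∈ Cl σ S (D.F' x) (D.t x) ∧ th c = D.u x (el c) := by
  obtain ⟨⟨o, m⟩, hc⟩ := c
  have ho : o = some x := h
  subst ho
  rcases hc with h1 | ⟨x', hx', h1, h2, h3⟩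
  · exact absurd h1.1 (by simp)
  · have h4 : x = x' := Option.some.inj h1
    subst h4
    exact ⟨hx', h2, h3, rfl⟩

theorem nr_rl {D : RD M} {R : Set M} (i : σ.ι) (c d : NR D σ S R) :
    Rl σ (nrS D σ S R) i c d ↔
      if ix c = ix d then Rl σ S i (el c) (el d) else Rl σ S i (th c) (th d) := by
  have e1 : (fun k : Fin 2 => el (![c, d] k)) = ![el c, el d] := by
    funext k
    fin_cases k <;> rfl
  have e2 : (fun k : Fin 2 => th (![c, d] k)) = ![th c, th d] := by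
    funext k
    fin_cases k <;> rfl
  have e3 : (∀ k l : Fin 2, ix (![c, d] k) = ix (![c, d] l)) ↔ ix c = ix d := by
    constructor
    · intro h
      exact h 0 1
    · intro h k l
      fin_cases k <;> fin_cases l
      · rfl
      · exact h
      · exact h.symm
      · rfl
  show (if ∀ k l : Fin 2, ix (![c, d] k) = ix (![c, d] l) then
    S.RelMap (σ.sy i) (fun k => el (![c, d] k)) else
    S.RelMap (σ.sy i) (fun k => th (![c, d] k))) ↔ _
  rw [e1, e2]
  by_cases h : ix c = ix d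
  · rw [if_pos (e3.mpr h), if_pos h]
    exact Iff.rfl
  · rw [if_neg (fun h' => h (e3.mp h')), if_neg h]
    exact Iff.rfl

/-- relations with elements of another index, or between elements of index `none` -/
theorem nr_rl_ne {D : RD M} {R : Set M} (i : σ.ι) {c d : NR D σ S R}
    (h : ix c ≠ ix d ∨ ix c = none) : Rl σ (nrS D σ S R) i c d ↔ Rl σ S i (th c) (th d) := by
  rw [nr_rl]
  by_cases h1 : ix c = ix d
  · rw [if_pos h1]
    have h2 : ix c = none := h.resolve_left (fun h3 => h3 h1)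
    rw [(nra_none h2).2.2, (nra_none (h1.symm.trans h2)).2.2]
  · rw [if_neg h1]

/-- relations with base points -/
theorem nr_base {D : RD M} {b lam : Ordinal.{0}} (hD : D.Ok σ S b lam) {R : Set M}
    (hR : R ⊆ D.R₀) (i : σ.ι) {y : NR D σ S R} (hy : Bp y) (c : NR D σ S R) :
    (Rl σ (nrS D σ S R) i y c ↔ Rl σ S i (th y) (th c)) ∧
      (Rl σ (nrS D σ S R) i c y ↔ Rl σ S i (th c) (th y)) := by
  by_cases hne : ix c = ix y
  · rcases hy with h | ⟨x, h1, h2⟩
    · exact ⟨nr_rl_ne i (Or.inr h), nr_rl_ne i (Or.inr (hne.trans h))⟩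
    · obtain ⟨hx, hyA, hyC, hyt⟩ := nra_some h1
      obtain ⟨-, hcA, hcC, hct⟩ := nra_some (hne.trans h1)
      have h3 : th y = x := by
        rw [hyt, h2]
        exact hD.ux x (hR hx)
      have h4 := (hD.um x (hR hx) (el c) hcA hcC).2.2
      rw [nr_rl, nr_rl, if_pos hne, if_pos hne.symm, h3, hct, h2]
      exact ⟨rl_congr h4 (mem_insert _ _) (mem_insert_of_mem _ (mem_singleton _)) i,
        rl_congr h4 (mem_insert_of_mem _ (mem_singleton _)) (mem_insert _ _) i⟩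
  · exact ⟨nr_rl_ne i (Or.inl fun h => hne h.symm), nr_rl_ne i (Or.inl hne)⟩

theorem th_mem {D : RD M} {b lam : Ordinal.{0}} (hD : D.Ok σ S b lam) {R : Set M}
    (hR : R ⊆ D.R₀) (c : NR D σ S R) : th c ∈ D.A ∧ (∀ x, ix c = some x → th c ∈ Cl σ S (D.F x) x) ∧
      (ix c = none → th c = el c ∧ ∀ x ∈ R, th c ∉ Cl σ S (D.F x) x) := by
  refine ⟨?_, fun x hx => ?_, fun h => ?_⟩
  · rcases hi : ix c with _ | x
    · rw [(nra_none hi).2.2]
      exact (nra_none hi).1
    · obtain ⟨hx, hcA, hcC, hct⟩ := nra_some hi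
      rw [hct]
      exact (hD.um x (hR hx) (el c) hcA hcC).1
  · obtain ⟨hxR, hcA, hcC, hct⟩ := nra_some hx
    rw [hct]
    exact (hD.um x (hR hxR) (el c) hcA hcC).2.1
  · have h1 := nra_none h
    rw [h1.2.2]
    exact ⟨rfl, h1.2.1⟩

/-- base points are determined by their images -/
theorem nra_inj {D : RD M} {b lam : Ordinal.{0}} (hD : D.Ok σ S b lam) {R : Set M}
    (hR : R ⊆ D.R₀) : InjOn (th : NR D σ S R → M) {c | Bp c} := by
  have key : ∀ c d : NR D σ S R, ix c = none → Bp d → th c = th d → c = d := by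
    intro c d hc hd h
    rcases hd with hd | ⟨x, h1, h2⟩
    · apply Subtype.ext
      apply Prod.ext
      · exact hc.trans hd.symm
      · show el c = el d
        rw [← (nra_none hc).2.2, ← (nra_none hd).2.2, h]
    · obtain ⟨hx, -, -, hdt⟩ := nra_some h1
      have h3 : th d = x := by
        rw [hdt, h2]
        exact hD.ux x (hR hx)
      have h4 := (nra_none hc).2.1 x hx
      rw [← (nra_none hc).2.2, h, h3] at h4
      exact absurd (cl_refl x) h4
  intro c hc d hd h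
  rcases hc with hc | ⟨x, h1, h2⟩
  · exact key c d hc hd h
  · rcases hd with hd | ⟨x', h1', h2'⟩
    · exact (key d c hd (Or.inr ⟨x, h1, h2⟩) h.symm).symm
    · obtain ⟨hx, -, -, hct⟩ := nra_some h1
      obtain ⟨hx', -, -, hdt⟩ := nra_some h1'
      have h3 : th c = x := by
        rw [hct, h2]
        exact hD.ux x (hR hx)
      have h3' : th d = x' := by
        rw [hdt, h2']
        exact hD.ux x' (hR hx')
      have h4 : x = x' := by rw [← h3, h, h3']
      subst h4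
      apply Subtype.ext
      apply Prod.ext
      · exact h1.trans h1'.symm
      · exact h2.trans h2'.symm

/-- the map `th` preserves all atomic facts about base points -/
theorem nra_rel {D : RD M} {b lam : Ordinal.{0}} (hD : D.Ok σ S b lam) {R : Set M}
    (hR : R ⊆ D.R₀) (n : ℕ) (r : L.Relations n) (v : Fin n → NR D σ S R) (hv : ∀ k, Bp (v k)) :
    (nrS D σ S R).RelMap r v ↔ S.RelMap r (fun k => th (v k)) := by
  show (if ∀ k l, ix (v k) = ix (v l) then S.RelMap r (fun k => el (v k)) else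
    S.RelMap r (fun k => th (v k))) ↔ _
  by_cases h : ∀ k l, ix (v k) = ix (v l)
  · rw [if_pos h]
    rcases Nat.eq_zero_or_pos n with hn | hn
    · subst hn
      have e : (fun k => el (v k)) = fun k => th (v k) := Subsingleton.elim _ _
      rw [e]
    · rcases hi : ix (v ⟨0, hn⟩) with _ | x
      · have e : (fun k => el (v k)) = fun k => th (v k) := by
          funext k
          exact (nra_none ((h k _).trans hi)).2.2.symm
        rw [e]
      · have hxR : x ∈ R := (nra_some hi).1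
        have hx : x ∈ D.R₀ := hR hxR
        have h1 : ∀ k, el (v k) = D.t x := by
          intro k
          have hk : ix (v k) = some x := (h k _).trans hi
          rcases hv k with h2 | ⟨x', h2, h3⟩
          · rw [hk] at h2
            exact absurd h2 (by simp)
          · have h4 : x = x' := Option.some.inj (hk.symm.trans h2)
            subst h4
            exact h3
        have h2 : ∀ k, th (v k) = x := by
          intro k
          have hk : ix (v k) = some x := (h k _).trans hi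
          rw [(nra_some hk).2.2.2, h1 k]
          exact hD.ux x hx
        have h3 := (hD.um x hx (D.t x) (hD.part x hx) (cl_refl _)).2.2
        have h4 := h3.2 n r (fun _ => (D.t x, x)) (fun _ => mem_insert _ _)
        have e1 : (fun k => el (v k)) = fun _ => D.t x := by
          funext k
          exact h1 k
        have e2 : (fun k => th (v k)) = fun _ => x := by
          funext k
          exact h2 k
        rw [e1, e2]
        exact h4
  · rw [if_neg h]

/-- the map `th` on elements of index `none` and base points -/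
theorem nr_th (hL : Ar2 L) (hC : Cx σ S) {D : RD M} {b lam : Ordinal.{0}}
    (hD : D.Ok σ S b lam) {R : Set M} (hR : R ⊆ D.R₀) {X B : Set (NR D σ S R)}
    (hX : ∀ c ∈ X, ix c = none) (hB : ∀ c ∈ B, Bp c) (γ : Ordinal.{0}) :
    BFR (nrS D σ S R) S X (th '' X) γ ((fun c => (c, th c)) '' (X ∪ B)) := by
  have hXW : X ⊆ {c | Bp c} := fun c hc => Or.inl (hX c hc)
  have h1 : BFR (nrS D σ S R) S {c | Bp c} (th '' {c : NR D σ S R | Bp c}) γ
      ((fun c => (c, th c)) '' (X ∪ B)) := by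
    refine BFR.of_map th (nra_inj hD hR) rfl
      (fun n r v hv => nra_rel hD hR n r v hv) γ ?_
    rintro _ ⟨c, hc, rfl⟩
    rcases hc with hc | hc
    · exact ⟨hXW hc, rfl⟩
    · exact ⟨hB c hc, rfl⟩
  refine BFR.restr₀ hXW (image_mono hXW) (fun x hx y hy hat => ⟨fun hxX => ?_, ?_⟩) h1
  · have h2 : ((x, th x) : NR D σ S R × M) ∈
        insert (x, y) ((fun c => (c, th c)) '' (X ∪ B)) :=
      mem_insert_of_mem _ ⟨x, Or.inl hxX, rfl⟩
    have h3 : y = th x := (hat.1 _ (mem_insert _ _) _ h2).mp rfl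
    rw [h3]
    exact ⟨x, hxX, rfl⟩
  · rintro ⟨x', hx', rfl⟩
    have h2 : ((x', th x') : NR D σ S R × M) ∈
        insert (x, th x') ((fun c => (c, th c)) '' (X ∪ B)) :=
      mem_insert_of_mem _ ⟨x', Or.inl hx', rfl⟩
    have h3 : x = x' := (hat.1 _ (mem_insert _ _) _ h2).mpr rfl
    rw [h3]
    exact hx'

end Pool.Agent.MON

end

/-! ### formerly `Pool.Agent.MON.NRe` -/

section

/-!
# MON, module NRe: the new structure is equivalent to the old one

`nr_bfr`: `glue` (module CG) for `U = univ` (in `NR`), `V = D.A` (in `S`), index `ix` on `NR`; on `M`: the `x ∈ R` with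
`v ∈ Cl (D.F x) x` (unique by `RD.Ok.sep`: clusters of `x` which are tame are contained in `Tm x`), `none` if there is none. Named pairs:
`e x` = base point of index `x` (`el = t x`); `q (some x) = {(e x, x)}` for `x ∈ R` (`∅` for other `x`), `q none = r = {(e x, x) | x ∈ R}`, `p = ∅`. Parts: `none`: `nr_th`.
`some x`: `BFR S S (Cl (F' x) (t x)) (Cl (F x) x) b {(t x, x)}` by `RD.Ok.bfr` and `resC1`, then the intersections with the closed set `A` on both
sides (`Clo.rel`, `Clo.bfr`, `RD.Ok.cloC`, `b < lam`), then `NR` (`BFR.of_map` with `el`). `H`: pairs `(c, m)`, `(d, v)` of `p` of different index (or one of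
them named). If `c` has index `some x` then `m` and `th c` have the same atomic type over `x` (`nr_base` for `e x`), both are in `Cl (F x) x`, so
`Ce (F x) m (th c)` (`Cx.blk'`), and elements outside the cluster do not distinguish them (`Cx.auto`); unary facts: `RD.Ok.um`. If `d` has index
`none`, `c` index `some x`: `Rl i x (th d) ↔ Rl i x v` by the named pair `(e x, x) ∈ q none`, so `Ce {x} (th d) v`, so `Ce {m} (th d) v` (`Cx.deepc`).
Then `Clo.bfr` for `univ` and `D.A`. `nr_cx`: `Cx.transfer` and `nr_bfr` (`ω ≤ b`).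
-/

set_option autoImplicit false
set_option linter.unusedSectionVars false
set_option linter.unusedVariables false

namespace Pool.Agent.MON

open Set Pool.Agent.Helper5 Pool.Agent.Helper5.DU Pool.Agent.Helper6.Str
  Pool.Agent.Helper79.VC Pool.Agent.Helper97.VC Pool.Agent.Helper97.MD Pool.Agent.Helper6.VC
  Pool.Agent.Helper97.LO

open scoped Classical

variable {L : FirstOrder.Language.{0, 0}} {M N : Type} {σ : Sig L} {S : L.Structure M}
variable [∀ n, IsEmpty (L.Functions n)] [∀ n, Countable (L.Relations n)]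
  {K : Set (L.Structure ℕ)} {δ : Ordinal.{0}}

/-- the clusters of different base points are disjoint -/
theorem nre_uniq (hC : Cx σ S) {D : RD M} {b lam : Ordinal.{0}} (hD : D.Ok σ S b lam)
    {x y z : M} (hx : x ∈ D.R₀) (hy : y ∈ D.R₀) (h1 : z ∈ Cl σ S (D.F x) x)
    (h2 : z ∈ Cl σ S (D.F y) y) : x = y := by
  by_contra hne
  rcases hC.nest h1 h2 with h | h
  · exact hD.sep y hy x hx (Ne.symm hne) ⟨D.F y, hD.tt y hy, h (cl_refl x)⟩
  · exact hD.sep x hx y hy hne ⟨D.F x, hD.tt x hx, h (cl_refl y)⟩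

/-- the index of an element of the old structure -/
noncomputable def nre_pi (D : RD M) (σ : Sig L) (S : L.Structure M) (R : Set M) (v : M) :
    Option M :=
  if h : ∃ x ∈ R, v ∈ Cl σ S (D.F x) x then some h.choose else none

theorem nre_pi_none {D : RD M} {R : Set M} {v : M} :
    nre_pi D σ S R v = none ↔ ∀ x ∈ R, v ∉ Cl σ S (D.F x) x := by
  unfold nre_pi
  constructor
  · intro h x hx hv
    rw [dif_pos ⟨x, hx, hv⟩] at h
    cases h
  · intro h
    rw [dif_neg]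
    rintro ⟨x, hx, hv⟩
    exact h x hx hv

theorem nre_pi_some (hC : Cx σ S) {D : RD M} {b lam : Ordinal.{0}} (hD : D.Ok σ S b lam)
    {R : Set M} (hR : R ⊆ D.R₀) {v x : M} :
    nre_pi D σ S R v = some x ↔ x ∈ R ∧ v ∈ Cl σ S (D.F x) x := by
  constructor
  · intro h
    by_cases hex : ∃ x ∈ R, v ∈ Cl σ S (D.F x) x
    · unfold nre_pi at h
      rw [dif_pos hex] at h
      have h1 := hex.choose_spec
      rw [Option.some.inj h] at h1
      exact h1
    · unfold nre_pi at h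
      rw [dif_neg hex] at h
      cases h
  · rintro ⟨hx, hv⟩
    have hex : ∃ x ∈ R, v ∈ Cl σ S (D.F x) x := ⟨x, hx, hv⟩
    unfold nre_pi
    rw [dif_pos hex]
    have h1 := hex.choose_spec
    rw [nre_uniq hC hD (hR h1.1) (hR hx) h1.2 hv]

theorem nre_th_some {D : RD M} {R : Set M} {c : NR D σ S R} {x : M} (h : ix c = some x) :
    th c = D.u x (el c) := by
  obtain ⟨⟨i, m⟩, hc⟩ := c
  have h' : i = some x := h
  subst h'
  rfl

theorem nre_mem {D : RD M} {R : Set M} {c : NR D σ S R} {x : M} (h : ix c = some x) :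
    x ∈ R ∧ el c ∈ D.A ∧ el c ∈ Cl σ S (D.F' x) (D.t x) := by
  obtain ⟨⟨i, m⟩, hc⟩ := c
  have h' : i = some x := h
  subst h'
  rcases hc with ⟨h1, -⟩ | ⟨y, hy, h1, h2, h3⟩
  · cases h1
  · have h4 : x = y := Option.some.inj h1
    subst h4
    exact ⟨hy, h2, h3⟩

theorem nre_ext {D : RD M} {R : Set M} {c d : NR D σ S R} (h : ix c = ix d)
    (h' : el c = el d) : c = d := Subtype.ext (Prod.ext h h')

/-- the base point of index `some x` -/
theorem nre_bp {D : RD M} {b lam : Ordinal.{0}} (hD : D.Ok σ S b lam) {R : Set M}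
    (hR : R ⊆ D.R₀) {x : M} (hx : x ∈ R) : ∃ e : NR D σ S R, ix e = some x ∧ el e = D.t x :=
  ⟨⟨(some x, D.t x), Or.inr ⟨x, hx, rfl, hD.part x (hR hx), cl_refl _⟩⟩, rfl, rfl⟩

/-- atomic facts in one index -/
theorem nre_rel {D : RD M} {R : Set M} {n : ℕ} (r : L.Relations n) {v : Fin n → NR D σ S R}
    (h : ∀ i j, ix (v i) = ix (v j)) :
    (nrS D σ S R).RelMap r v ↔ S.RelMap r (fun i => el (v i)) := by
  show (if ∀ i j, ix (v i) = ix (v j) then S.RelMap r (fun i => el (v i))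
    else S.RelMap r (fun i => th (v i))) ↔ _
  rw [if_pos h]

theorem nre_rel' {D : RD M} {R : Set M} {n : ℕ} (r : L.Relations n) {v : Fin n → NR D σ S R}
    (h : ¬ ∀ i j, ix (v i) = ix (v j)) :
    (nrS D σ S R).RelMap r v ↔ S.RelMap r (fun i => th (v i)) := by
  show (if ∀ i j, ix (v i) = ix (v j) then S.RelMap r (fun i => el (v i))
    else S.RelMap r (fun i => th (v i))) ↔ _
  rw [if_neg h]

theorem nre_el {D : RD M} {R : Set M} (c : NR D σ S R) :
    AtEq (nrS D σ S R) S {(c, el c)} := by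
  refine ⟨?_, fun n r v hv => ?_⟩
  · rintro a (rfl : a = (c, el c)) a' (rfl : a' = (c, el c))
    exact ⟨fun _ => rfl, fun _ => rfl⟩
  · have h1 : ∀ i, v i = (c, el c) := fun i => hv i
    rw [nre_rel r (fun i j => by rw [h1 i, h1 j])]
    have e : (fun i => el (v i).1) = fun i => (v i).2 := by
      funext i
      rw [h1 i]
    rw [e]

/-- unary facts for `th` -/
theorem nre_un {D : RD M} {b lam : Ordinal.{0}} (hD : D.Ok σ S b lam) {R : Set M}
    (hR : R ⊆ D.R₀) (c : NR D σ S R) : AtEq (nrS D σ S R) S {(c, th c)} := by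
  have h1 : AtEq S S {(el c, th c)} := by
    rcases hc : ix c with _ | x
    · rw [((th_mem hD hR c).2.2 hc).1]
      exact TR.atEq_refl S (by
        rintro a rfl
        rfl)
    · obtain ⟨h2, h3, h4⟩ := nre_mem hc
      rw [nre_th_some hc]
      exact (AtEq.anti (by
        rintro a rfl
        exact Or.inr rfl) (hD.um x (hR h2) _ h3 h4).2.2)
  refine atEq_trans (nre_el c) h1 ?_
  rintro a rfl
  exact ⟨el c, rfl, rfl⟩

/-- pairs of elements of different index -/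
theorem nre_pair (hL : Ar2 L) (hC : Cx σ S) {D : RD M} {b lam : Ordinal.{0}}
    (hD : D.Ok σ S b lam) {R : Set M} (hR : R ⊆ D.R₀) {c d : NR D σ S R} (h : ix c ≠ ix d) :
    AtEq (nrS D σ S R) S {(c, th c), (d, th d)} := by
  have key : ∀ c d : NR D σ S R, ∀ x, ix c = some x → ix c ≠ ix d → th c ≠ th d := by
    intro c d x hx hcd heq
    have h1 := (th_mem hD hR c).2.1 x hx
    rcases hd : ix d with _ | y
    · exact ((th_mem hD hR d).2.2 hd).2 x (nre_mem hx).1 (heq ▸ h1)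
    · have h2 := (th_mem hD hR d).2.1 y hd
      rw [← heq] at h2
      have h3 := nre_uniq hC hD (hR (nre_mem hx).1) (hR (nre_mem hd).1) h1 h2
      exact hcd (by rw [hx, hd, h3])
  have hne : th c ≠ th d := by
    rcases hc : ix c with _ | x
    · rcases hd : ix d with _ | y
      · exact absurd (hc.trans hd.symm) h
      · exact (key d c y hd (Ne.symm h)).symm
    · exact key c d x hc h
  have hne' : c ≠ d := fun e => h (by rw [e])
  refine ⟨?_, fun n r v hv => ?_⟩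
  · rintro a (rfl | rfl) a' (rfl | rfl)
    · exact ⟨fun _ => rfl, fun _ => rfl⟩
    · exact ⟨fun e => absurd e hne', fun e => absurd e hne⟩
    · exact ⟨fun e => absurd e.symm hne', fun e => absurd e.symm hne⟩
    · exact ⟨fun _ => rfl, fun _ => rfl⟩
  · have hth : (fun i => th (v i).1) = fun i => (v i).2 := by
      funext i
      rcases hv i with e | e
      · rw [e]
      · rw [e]
    by_cases hall : ∀ i j, ix (v i).1 = ix (v j).1
    · have hn : n ≠ 0 := by
        rintro rfl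
        exact (hL 0 (by norm_num) (by norm_num)).false r
      obtain ⟨m, rfl⟩ := Nat.exists_eq_succ_of_ne_zero hn
      rcases hv 0 with e0 | e0
      · refine (nre_un hD hR c).2 _ r v fun i => ?_
        rcases hv i with e | e
        · exact e
        · have := hall 0 i
          rw [e0, e] at this
          exact absurd this h
      · refine (nre_un hD hR d).2 _ r v fun i => ?_
        rcases hv i with e | e
        · have := hall 0 i
          rw [e0, e] at this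
          exact absurd this.symm h
        · exact e
    · rw [nre_rel' r hall, hth]

/-- relations with a pair of index `some x` -/
theorem nre_rl (hC : Cx σ S) {D : RD M} {b lam : Ordinal.{0}} (hD : D.Ok σ S b lam)
    {R : Set M} (hR : R ⊆ D.R₀) {c d : NR D σ S R} {m v : M} (h : ix c ≠ ix d)
    (hm : nre_pi D σ S R m = ix c) (hv : nre_pi D σ S R v = ix d)
    (hPc : ∀ x, ix c = some x → Ce σ S (D.F x) (th c) m)
    (hPd : ∀ x, ix d = some x → Ce σ S (D.F x) (th d) v)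
    (hQd : ix d = none → ∀ x ∈ R, Ce σ S {x} (th d) v) {x : M} (hx : ix c = some x) (i : σ.ι) :
    (Rl σ S i (th c) (th d) ↔ Rl σ S i m v) ∧ (Rl σ S i (th d) (th c) ↔ Rl σ S i v m) := by
  have hc1 := (th_mem hD hR c).2.1 x hx
  have hm1 : m ∈ Cl σ S (D.F x) x := ((nre_pi_some hC hD hR).1 (hm.trans hx)).2
  have hxR := (nre_mem hx).1
  rcases hd : ix d with _ | y
  · have hd1 := ((th_mem hD hR d).2.2 hd).2 x hxR
    have hv1 := nre_pi_none.1 (hv.trans hd) x hxR
    have h1 := hC.auto hc1 hm1 (hPc x hx) hd1 i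
    have h2 : Ce σ S {m} (th d) v :=
      hC.deepc (D.F x) x x m (th d) v (cl_refl x) hm1 hd1 hv1 (hQd hd x hxR)
    have h3 : ∀ j, Rl σ S j m (th d) ↔ Rl σ S j m v := h2 m (Finset.mem_singleton_self m)
    have h4 : Rl σ S i (th d) m ↔ Rl σ S i v m := by
      rw [hC.star' i (th d) m, hC.star' i v m, h3]
    exact ⟨h1.1.trans (h3 i), h1.2.trans h4⟩
  · have hd1 := (th_mem hD hR d).2.1 y hd
    have hv1 : v ∈ Cl σ S (D.F y) y := ((nre_pi_some hC hD hR).1 (hv.trans hd)).2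
    have hyR := (nre_mem hd).1
    have hxy : x ≠ y := fun e => h (by rw [hx, hd, e])
    have hd2 : th d ∉ Cl σ S (D.F x) x := fun e => hxy (nre_uniq hC hD (hR hxR) (hR hyR) e hd1)
    have hm2 : m ∉ Cl σ S (D.F y) y := fun e => hxy (nre_uniq hC hD (hR hxR) (hR hyR) hm1 e)
    have h1 := hC.auto hc1 hm1 (hPc x hx) hd2 i
    have h2 := hC.auto hd1 hv1 (hPd y hd) hm2 i
    exact ⟨h1.1.trans h2.2, h1.2.trans h2.1⟩

/-- pairs of different index -/
theorem nre_main (hL : Ar2 L) (hC : Cx σ S) {D : RD M} {b lam : Ordinal.{0}}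
    (hD : D.Ok σ S b lam) {R : Set M} (hR : R ⊆ D.R₀) {c d : NR D σ S R} {m v : M}
    (h : ix c ≠ ix d) (hm : nre_pi D σ S R m = ix c) (hv : nre_pi D σ S R v = ix d)
    (hPc : ∀ x, ix c = some x → Ce σ S (D.F x) (th c) m)
    (hPd : ∀ x, ix d = some x → Ce σ S (D.F x) (th d) v)
    (hQc : ix c = none → ∀ x ∈ R, Ce σ S {x} (th c) m)
    (hQd : ix d = none → ∀ x ∈ R, Ce σ S {x} (th d) v)
    (hc : AtEq (nrS D σ S R) S {(c, m)}) (hd : AtEq (nrS D σ S R) S {(d, v)}) :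
    AtEq (nrS D σ S R) S {(c, m), (d, v)} := by
  have un : ∀ (c : NR D σ S R) (m : M), AtEq (nrS D σ S R) S {(c, m)} →
      AtEq S S {(th c, m)} := by
    intro c m hc
    have h1 : AtEq S (nrS D σ S R) {(th c, c)} := atEq_symm (nre_un hD hR c) (by
      rintro a rfl
      rfl)
    refine atEq_trans h1 hc ?_
    rintro a rfl
    exact ⟨c, rfl, rfl⟩
  have h1 : AtEq S S {(th c, m), (th d, v)} := by
    refine hC.full _ _ _ _ (un c m hc) (un d v hd) fun i => ?_
    rcases hci : ix c with _ | x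
    · rcases hdi : ix d with _ | y
      · exact absurd (hci.trans hdi.symm) h
      · exact (nre_rl hC hD hR (Ne.symm h) hv hm hPd hPc hQc hdi i).2
    · exact (nre_rl hC hD hR h hm hv hPc hPd hQd hci i).1
  refine atEq_trans (nre_pair hL hC hD hR h) h1 ?_
  rintro a (rfl | rfl)
  · exact ⟨th c, Or.inl rfl, Or.inl rfl⟩
  · exact ⟨th d, Or.inr rfl, Or.inr rfl⟩

/-- the named pairs -/
def nre_r (D : RD M) (σ : Sig L) (S : L.Structure M) (R : Set M) : Set (NR D σ S R × M) :=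
  {a | ix a.1 = some a.2 ∧ el a.1 = D.t a.2}

theorem nre_r_th {D : RD M} {b lam : Ordinal.{0}} (hD : D.Ok σ S b lam) {R : Set M}
    (hR : R ⊆ D.R₀) {a : NR D σ S R × M} (ha : a ∈ nre_r D σ S R) :
    a.2 ∈ R ∧ th a.1 = a.2 ∧ Bp a.1 := by
  have h1 := (nre_mem ha.1).1
  refine ⟨h1, ?_, Or.inr ⟨a.2, ha.1, ha.2⟩⟩
  rw [nre_th_some ha.1, ha.2]
  exact hD.ux _ (hR h1)

/-- the named pairs of a part -/
def nre_q (D : RD M) (σ : Sig L) (S : L.Structure M) (R : Set M) (i : Option M) :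
    Set (NR D σ S R × M) :=
  {a ∈ nre_r D σ S R | i = none ∨ i = some a.2}

/-- gluing hypothesis -/
theorem nre_H (hL : Ar2 L) (hC : Cx σ S) {D : RD M} {b lam : Ordinal.{0}}
    (hD : D.Ok σ S b lam) {R : Set M} (hR : R ⊆ D.R₀) (p : Set (NR D σ S R × M))
    (hp : ∀ a ∈ p, ix a.1 = nre_pi D σ S R a.2)
    (h : ∀ i, AtEq (nrS D σ S R) S (nre_q D σ S R i ∪ {a ∈ p | ix a.1 = i})) :
    AtEq (nrS D σ S R) S (nre_r D σ S R ∪ p) := by
  have hpi : ∀ a ∈ nre_r D σ S R ∪ p, nre_pi D σ S R a.2 = ix a.1 := by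
    rintro a (ha | ha)
    · rw [ha.1]
      exact (nre_pi_some hC hD hR).2 ⟨(nre_mem ha.1).1, cl_refl _⟩
    · exact (hp a ha).symm
  have hmem : ∀ a ∈ nre_r D σ S R ∪ p,
      a ∈ nre_q D σ S R (ix a.1) ∪ {a' ∈ p | ix a'.1 = ix a.1} := by
    rintro a (ha | ha)
    · exact Or.inl ⟨ha, Or.inr ha.1⟩
    · exact Or.inr ⟨ha, rfl⟩
  have hbase : ∀ a ∈ nre_r D σ S R ∪ p, ∀ x ∈ R, (ix a.1 = none ∨ ix a.1 = some x) →
      ∀ i, Rl σ S i x (th a.1) ↔ Rl σ S i x a.2 := by
    intro a ha x hx hax i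
    obtain ⟨e, he1, he2⟩ := nre_bp hD hR hx
    have her : (e, x) ∈ nre_r D σ S R := ⟨he1, he2⟩
    have h1 : (e, x) ∈ nre_q D σ S R (ix a.1) ∪ {a' ∈ p | ix a'.1 = ix a.1} :=
      Or.inl ⟨her, hax⟩
    have h2 := rl_congr (h (ix a.1)) h1 (hmem a ha) i
    have h3 := (nr_base hD hR i (nre_r_th hD hR her).2.2 a.1).1
    rw [(nre_r_th hD hR her).2.1] at h3
    exact h3.symm.trans h2
  have hP : ∀ a ∈ nre_r D σ S R ∪ p, ∀ x, ix a.1 = some x →
      Ce σ S (D.F x) (th a.1) a.2 := by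
    intro a ha x hx
    exact (hC.blk' ((th_mem hD hR a.1).2.1 x hx)
      (hbase a ha x (nre_mem hx).1 (Or.inr hx))).2
  have hQ : ∀ a ∈ nre_r D σ S R ∪ p, ix a.1 = none → ∀ x ∈ R,
      Ce σ S {x} (th a.1) a.2 := by
    intro a ha hn x hx w hw i
    rw [Finset.mem_singleton] at hw
    subst hw
    exact hbase a ha w hx (Or.inl hn) i
  have hU : ∀ a ∈ nre_r D σ S R ∪ p, AtEq (nrS D σ S R) S {(a.1, a.2)} := by
    intro a ha
    refine AtEq.anti ?_ (h (ix a.1))
    rintro a' rfl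
    exact hmem a ha
  refine atEq_of_pairs hL fun a ha a' ha' => ?_
  by_cases hi : ix a.1 = ix a'.1
  · refine AtEq.anti ?_ (h (ix a.1))
    rintro a'' (rfl | rfl)
    · exact hmem _ ha
    · rw [hi]
      exact hmem _ ha'
  · exact nre_main hL hC hD hR hi (hpi a ha) (hpi a' ha') (hP a ha) (hP a' ha') (hQ a ha)
      (hQ a' ha') (hU a ha) (hU a' ha')

/-- the part of index `some x` -/
theorem nre_part (hL : Ar2 L) (hC : Cx σ S) {D : RD M} {b lam : Ordinal.{0}}
    (hD : D.Ok σ S b lam) {R : Set M} (hR : R ⊆ D.R₀) {x : M} (hx : x ∈ R) :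
    BFR (nrS D σ S R) S {c : NR D σ S R | ix c = some x} (D.A ∩ Cl σ S (D.F x) x) b
      (nre_q D σ S R (some x)) := by
  have hxR := hR hx
  have h1 : BFR (nrS D σ S R) S {c : NR D σ S R | ix c = some x}
      (D.A ∩ Cl σ S (D.F' x) (D.t x)) b ((fun c => (c, el c)) '' {c | ix c = some x}) := by
    refine BFR.of_map (fun c => el c) ?_ ?_ ?_ b ?_
    · intro c hc d hd hcd
      exact nre_ext ((hc : ix c = some x).trans (hd : ix d = some x).symm) hcd
    · ext v
      constructor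
      · rintro ⟨hvA, hv⟩
        exact ⟨⟨(some x, v), Or.inr ⟨x, hx, rfl, hvA, hv⟩⟩, rfl, rfl⟩
      · rintro ⟨c, hc, rfl⟩
        obtain ⟨-, h2, h3⟩ := nre_mem (hc : ix c = some x)
        exact ⟨h2, h3⟩
    · intro n r v hv
      exact nre_rel r fun i j => (hv i : ix (v i) = some x).trans (hv j : ix (v j) = some x).symm
    · rintro _ ⟨c, hc, rfl⟩
      exact ⟨hc, rfl⟩
  obtain ⟨p, hp1, hp2, hp3⟩ := hD.bfr x hxR
  have h2 := (resC1 (σ := σ) hp1 hp2 hp3).1
  rw [univ_inter, univ_inter] at h2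
  have hb : b < lam := hD.blt
  have h3 : BFR S S (Cl σ S (D.F' x) (D.t x)) (D.A ∩ Cl σ S (D.F' x) (D.t x)) b
      (dg {D.t x}) := by
    refine (hD.cloC (D.t x) (hD.part x hxR) (D.F' x) b hb).bfr (finite_singleton _) ?_
    rintro a rfl
    exact ⟨hD.part x hxR, cl_refl _⟩
  have h4 : BFR S S (Cl σ S (D.F x) x) (D.A ∩ Cl σ S (D.F x) x) b (dg {x}) := by
    refine (hD.cloC x (hD.sub hxR) (D.F x) b hb).bfr (finite_singleton _) ?_
    rintro a rfl
    exact ⟨hD.sub hxR, cl_refl _⟩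
  have h5 : BFR S S (D.A ∩ Cl σ S (D.F' x) (D.t x)) (Cl σ S (D.F' x) (D.t x)) b
      {(D.t x, D.t x)} := h3.symm (by
    rintro a rfl
    exact ⟨D.t x, rfl, rfl⟩)
  have h6 : BFR S S (D.A ∩ Cl σ S (D.F' x) (D.t x)) (Cl σ S (D.F x) x) b {(D.t x, x)} :=
    h5.trans h2 (by
      rintro a rfl
      exact ⟨D.t x, rfl, hp2⟩)
  have h7 : BFR S S (D.A ∩ Cl σ S (D.F' x) (D.t x)) (D.A ∩ Cl σ S (D.F x) x) b {(D.t x, x)} :=
    h6.trans h4 (by
      rintro a rfl
      exact ⟨x, rfl, ⟨x, rfl, rfl⟩⟩)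
  refine h1.trans h7 ?_
  rintro ⟨c, y⟩ ⟨⟨hc1, hc2⟩, hc3⟩
  have hy : x = y := by
    rcases hc3 with h | h
    · cases h
    · exact Option.some.inj h
  subst hy
  exact ⟨el c, ⟨c, hc1, rfl⟩, by
    show (el c, x) = (D.t x, x)
    rw [show el c = D.t x from hc2]⟩

theorem nr_bfr (hL : Ar2 L) (hC : Cx σ S) {D : RD M} {b lam : Ordinal.{0}}
    (hD : D.Ok σ S b lam) {R : Set M} (hR : R ⊆ D.R₀) :
    BFR (nrS D σ S R) S univ univ b ∅ := by
  have h1 : BFR (nrS D σ S R) S univ D.A b (nre_r D σ S R ∪ ∅) := by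
    refine glue (fun c => ix c) (nre_pi D σ S R) (q := nre_q D σ S R) (fun p hp h => ?_) b
      (fun a ha => absurd ha (notMem_empty a)) fun i => ?_
    · exact nre_H hL hC hD hR p hp h
    · rcases i with _ | x
      · have hV : {v ∈ D.A | nre_pi D σ S R v = none} =
            th '' {c : NR D σ S R | ix c = none} := by
          ext v
          constructor
          · rintro ⟨hvA, hv⟩
            exact ⟨⟨(none, v), Or.inl ⟨rfl, hvA, nre_pi_none.1 hv⟩⟩, rfl, rfl⟩
          · rintro ⟨c, hc, rfl⟩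
            exact ⟨(th_mem hD hR c).1, nre_pi_none.2 ((th_mem hD hR c).2.2 hc).2⟩
        have hU : {a ∈ (univ : Set (NR D σ S R)) | ix a = none} =
            {c : NR D σ S R | ix c = none} := by
          ext c
          exact ⟨fun h => h.2, fun h => ⟨trivial, h⟩⟩
        rw [hV, hU]
        refine BFR.anti ?_ (nr_th hL hC hD hR (X := {c : NR D σ S R | ix c = none})
          (B := {c | Bp c}) (fun c hc => hc) (fun c hc => hc) b)
        rintro a (ha | ha)
        · obtain ⟨h2, h3, h4⟩ := nre_r_th hD hR ha.1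
          exact ⟨a.1, Or.inr h4, Prod.ext rfl h3⟩
        · exact absurd ha.1 (notMem_empty a)
      · have hU : {a ∈ (univ : Set (NR D σ S R)) | ix a = some x} =
            {c : NR D σ S R | ix c = some x} := by
          ext c
          exact ⟨fun h => h.2, fun h => ⟨trivial, h⟩⟩
        have hE : {a ∈ (∅ : Set (NR D σ S R × M)) | ix a.1 = some x} = ∅ := by
          ext c
          exact ⟨fun h => h.1, fun h => absurd h (notMem_empty c)⟩
        rw [hU, hE, union_empty]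
        by_cases hx : x ∈ R
        · have hV : {v ∈ D.A | nre_pi D σ S R v = some x} = D.A ∩ Cl σ S (D.F x) x := by
            ext v
            constructor
            · rintro ⟨hvA, hv⟩
              exact ⟨hvA, ((nre_pi_some hC hD hR).1 hv).2⟩
            · rintro ⟨hvA, hv⟩
              exact ⟨hvA, (nre_pi_some hC hD hR).2 ⟨hx, hv⟩⟩
          rw [hV]
          exact nre_part hL hC hD hR hx
        · refine BFR.of_map (fun c => el c) ?_ ?_ ?_ b ?_
          · intro c hc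
            exact absurd (nre_mem (hc : ix c = some x)).1 hx
          · ext v
            constructor
            · rintro ⟨hvA, hv⟩
              exact absurd ((nre_pi_some hC hD hR).1 hv).1 hx
            · rintro ⟨c, hc, rfl⟩
              exact absurd (nre_mem (hc : ix c = some x)).1 hx
          · intro n r v hv
            exact nre_rel r fun i j =>
              (hv i : ix (v i) = some x).trans (hv j : ix (v j) = some x).symm
          · rintro a ⟨ha, ha'⟩
            rcases ha' with h | h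
            · cases h
            · exact absurd ((Option.some.inj h : x = a.2) ▸ (nre_r_th hD hR ha).1) hx
  have h2 : BFR S S univ D.A b (dg (∅ : Set M)) := by
    have h3 := (hD.clo b hD.blt).bfr finite_empty (empty_subset _)
    rwa [inter_univ] at h3
  have h3 : BFR S S D.A univ b (∅ : Set (M × M)) :=
    h2.symm fun a ha => absurd ha (notMem_empty a)
  exact h1.trans h3 fun a ha => absurd ha (notMem_empty a)

theorem nr_cx (hL : Ar2 L) (hC : Cx σ S) {D : RD M} {b lam : Ordinal.{0}}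
    (hD : D.Ok σ S b lam) {R : Set M} (hR : R ⊆ D.R₀) : Cx σ (nrS D σ S R) :=
  hC.transfer ((nr_bfr hL hC hD hR).mono hD.omb)

end Pool.Agent.MON

end

/-! ### formerly `Pool.Agent.MON.NRb` -/

section

/-!
# MON, module NRb: finite sets of the new structure have images in the old one

For every `x ∈ R` apply `BFR S S (Cl (F' x) (t x)) (Cl (F x) x) b {(t x, x)}` (`RD.Ok.bfr`, `resC1`, `ω ≤ b`, `BFR.forth_many`) to the finitely
many `el g`, `g ∈ G` of index `x`: images `θ g` in `Cl (F x) x` with `AtEq S S` of the map together with `(t x, x)`. For index `none` put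
`θ g = el g`. Pairs of different index: `θ g` and `th g` have the same atomic type over `x` (`RD.Ok.um`), so they are in the same cell over
`F x` (`Cx.blk'`), and elements outside `Cl (F x) x` do not distinguish them (`Cx.auto`).
-/

set_option autoImplicit false
set_option linter.unusedSectionVars false
set_option linter.unusedVariables false

namespace Pool.Agent.MON

open Set Pool.Agent.Helper5 Pool.Agent.Helper5.DU Pool.Agent.Helper6.Str
  Pool.Agent.Helper79.VC Pool.Agent.Helper97.VC Pool.Agent.Helper97.MD Pool.Agent.Helper6.VC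
  Pool.Agent.Helper97.LO

open scoped Classical

variable {L : FirstOrder.Language.{0, 0}} {M N : Type} {σ : Sig L} {S : L.Structure M}
variable [∀ n, IsEmpty (L.Functions n)] [∀ n, Countable (L.Relations n)]
  {K : Set (L.Structure ℕ)} {δ : Ordinal.{0}}

/-- finite sets have images over named pairs -/
theorem nrb_lift {U V : Set M} {p : Set (M × M)} (h : BFR S S U V Ordinal.omega0 p)
    (G : Finset M) (hG : (G : Set M) ⊆ U) : ∃ θ : M → M, (∀ g ∈ G, θ g ∈ V) ∧
      AtEq S S (p ∪ (fun g => (g, θ g)) '' (G : Set M)) := by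
  have hle : (0 : Ordinal.{0}) + (G.card : Ordinal.{0}) ≤ Ordinal.omega0 := by
    rw [zero_add]
    exact (Ordinal.natCast_lt_omega0 _).le
  obtain ⟨y, hyV, hy⟩ := BFR.forth_many G.card (h.mono hle)
    (fun i => ((G.equivFin.symm i : G) : M)) (fun i => hG (G.equivFin.symm i).2)
  refine ⟨fun g => if hg : g ∈ G then y (G.equivFin ⟨g, hg⟩) else g, fun g hg => ?_,
    hy.atEq.anti ?_⟩
  · simp only [dif_pos hg]
    exact hyV _
  · rintro a (ha | ⟨g, hg, rfl⟩)
    · exact Or.inl ha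
    · have hg' : g ∈ G := hg
      refine Or.inr ⟨G.equivFin ⟨g, hg'⟩, ?_⟩
      simp [hg']

/-- the lift for one index -/
theorem nrb_one {D : RD M} {b lam : Ordinal.{0}} (hD : D.Ok σ S b lam) {R : Set M}
    (hR : R ⊆ D.R₀) (G : Finset (NR D σ S R)) (x : M) : ∃ θ : M → M,
      ∀ g ∈ G, ix g = some x → θ (el g) ∈ Cl σ S (D.F x) x ∧
        AtEq S S (insert (D.t x, x) ((fun g => (el g, θ (el g))) '' {g | g ∈ G ∧ ix g = some x}))
        := by
  by_cases hx : x ∈ R
  · obtain ⟨p, hp1, hp2, hp3⟩ := hD.bfr x (hR hx)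
    have h2 := (resC1 (σ := σ) hp1 hp2 hp3).1
    rw [univ_inter, univ_inter] at h2
    have h3 := h2.mono hD.omb
    have h4 : BFR S S (Cl σ S (D.F' x) (D.t x)) (Cl σ S (D.F x) x) Ordinal.omega0
        {(D.t x, x)} := BFR.anti (by
      rintro a rfl
      exact hp2) h3
    obtain ⟨θ, h5, h6⟩ := nrb_lift h4 ((G.filter fun g => ix g = some x).image el) (by
      intro v hv
      rw [Finset.coe_image] at hv
      obtain ⟨g, hg, rfl⟩ := hv
      exact (nra_some (Finset.mem_filter.mp hg).2).2.2.1)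
    refine ⟨θ, fun g hg hgx => ⟨h5 _ ?_, h6.anti ?_⟩⟩
    · exact Finset.mem_image_of_mem el (Finset.mem_filter.mpr ⟨hg, hgx⟩)
    · rintro a (rfl | ⟨g', ⟨hg', hgx'⟩, rfl⟩)
      · exact Or.inl rfl
      · refine Or.inr ⟨el g', ?_, rfl⟩
        rw [Finset.coe_image]
        exact ⟨g', Finset.mem_filter.mpr ⟨hg', hgx'⟩, rfl⟩
  · exact ⟨id, fun g hg hgx => absurd (nra_some hgx).1 hx⟩

/-- pairs of the same index -/
theorem nrb_same {D : RD M} {R : Set M} {c d : NR D σ S R} (h : ix c = ix d) :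
    AtEq (nrS D σ S R) S {(c, el c), (d, el d)} := by
  refine ⟨?_, fun n r v hv => ?_⟩
  · rintro a (rfl | rfl) a' (rfl | rfl)
    · exact ⟨fun _ => rfl, fun _ => rfl⟩
    · exact ⟨fun e => by
        show el c = el d
        rw [show c = d from e], fun e => nre_ext h e⟩
    · exact ⟨fun e => by
        show el d = el c
        rw [show d = c from e], fun e => nre_ext h.symm e⟩
    · exact ⟨fun _ => rfl, fun _ => rfl⟩
  · have h1 : ∀ i, ix (v i).1 = ix c := by
      intro i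
      rcases hv i with e | e
      · rw [e]
      · rw [e, h]
    have h2 : (fun i => el (v i).1) = fun i => (v i).2 := by
      funext i
      rcases hv i with e | e
      · rw [e]
      · rw [e]
    rw [nre_rel r (fun i j => by rw [h1 i, h1 j]), h2]

theorem nr_lift (hL : Ar2 L) (hC : Cx σ S) {D : RD M} {b lam : Ordinal.{0}}
    (hD : D.Ok σ S b lam) {R : Set M} (hR : R ⊆ D.R₀) (G : Finset (NR D σ S R)) :
    ∃ θ : NR D σ S R → M, AtEq (nrS D σ S R) S ((fun g => (g, θ g)) '' (G : Set (NR D σ S R))) ∧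
      (∀ g ∈ G, ix g = none → θ g = el g) ∧
      (∀ g ∈ G, ∀ x, ix g = some x → θ g ∈ Cl σ S (D.F x) x) ∧
      ∀ g ∈ G, ∀ x, ix g = some x → el g = D.t x → θ g = x := by
  choose Θ hΘ using nrb_one hD hR G
  let θ : NR D σ S R → M := fun g => (ix g).elim (el g) (fun x => Θ x (el g))
  have e1 : ∀ g, ix g = none → θ g = el g := fun g hg => by
    show (ix g).elim (el g) (fun x => Θ x (el g)) = el g
    rw [hg]
    rfl
  have e2 : ∀ g x, ix g = some x → θ g = Θ x (el g) := fun g x hg => by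
    show (ix g).elim (el g) (fun x => Θ x (el g)) = Θ x (el g)
    rw [hg]
    rfl
  have hbase : ∀ g ∈ G, ∀ x, ix g = some x → AtEq S S {(D.t x, x), (el g, θ g)} := by
    intro g hg x hx
    refine (hΘ x g hg hx).2.anti ?_
    rintro a (rfl | rfl)
    · exact Or.inl rfl
    · exact Or.inr ⟨g, ⟨hg, hx⟩, by rw [e2 g x hx]⟩
  have hmem : ∀ g ∈ G, ∀ x, ix g = some x → θ g ∈ Cl σ S (D.F x) x := by
    intro g hg x hx
    rw [e2 g x hx]
    exact (hΘ x g hg hx).1
  have hpi : ∀ g ∈ G, nre_pi D σ S R (θ g) = ix g := by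
    intro g hg
    rcases hg' : ix g with _ | x
    · rw [e1 g hg']
      exact nre_pi_none.2 (nra_none hg').2.1
    · exact (nre_pi_some hC hD hR).2 ⟨(nra_some hg').1, hmem g hg x hg'⟩
  have hP : ∀ g ∈ G, ∀ x, ix g = some x → Ce σ S (D.F x) (th g) (θ g) := by
    intro g hg x hx
    obtain ⟨hxR, hgA, hgC, hgt⟩ := nra_some hx
    refine (hC.blk' ((th_mem hD hR g).2.1 x hx) fun i => ?_).2
    have h1 := rl_congr (hbase g hg x hx) (mem_insert _ _)
      (mem_insert_of_mem _ (mem_singleton _)) i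
    have h2 := rl_congr (hD.um x (hR hxR) (el g) hgA hgC).2.2 (mem_insert _ _)
      (mem_insert_of_mem _ (mem_singleton _)) i
    rw [hgt]
    exact h2.symm.trans h1
  have hQ : ∀ g ∈ G, ix g = none → ∀ x ∈ R, Ce σ S {x} (th g) (θ g) := by
    intro g hg hn x hx w hw i
    rw [e1 g hn, (nra_none hn).2.2]
  have hU : ∀ g ∈ G, AtEq (nrS D σ S R) S {(g, θ g)} := by
    intro g hg
    rcases hg' : ix g with _ | x
    · rw [e1 g hg']
      exact nre_el g
    · refine atEq_trans (nre_el g) ((hbase g hg x hg').anti (Γ := {(el g, θ g)}) ?_) ?_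
      · rintro a rfl
        exact Or.inr rfl
      · rintro a rfl
        exact ⟨el g, rfl, rfl⟩
  refine ⟨θ, ?_, fun g _ hg => e1 g hg, hmem, fun g hg x hx ht => ?_⟩
  · refine atEq_of_pairs hL ?_
    rintro _ ⟨g, hg, rfl⟩ _ ⟨g', hg', rfl⟩
    by_cases hi : ix g = ix g'
    · rcases hx : ix g with _ | x
      · have := nrb_same hi
        rw [← e1 g hx, ← e1 g' (hi.symm.trans hx)] at this
        exact this
      · refine atEq_trans (nrb_same hi) ((hΘ x g hg hx).2.anti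
          (Γ := {(el g, θ g), (el g', θ g')}) ?_) ?_
        · rintro a (rfl | rfl)
          · exact Or.inr ⟨g, ⟨hg, hx⟩, by rw [e2 g x hx]⟩
          · exact Or.inr ⟨g', ⟨hg', hi.symm.trans hx⟩, by rw [e2 g' x (hi.symm.trans hx)]⟩
        · rintro a (rfl | rfl)
          · exact ⟨el g, Or.inl rfl, Or.inl rfl⟩
          · exact ⟨el g', Or.inr rfl, Or.inr rfl⟩
    · exact nre_main hL hC hD hR hi (hpi g hg) (hpi g' hg') (hP g hg) (hP g' hg') (hQ g hg)
        (hQ g' hg') (hU g hg) (hU g' hg')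
  · have h1 := (hbase g hg x hx).1 _ (mem_insert _ _) _
      (mem_insert_of_mem _ (mem_singleton _))
    exact (h1.mp ht.symm).symm

end Pool.Agent.MON

end

/-! ### formerly `Pool.Agent.MON.NRc` -/

section

/-!
# MON, module NRc: clusters of the new structure

`nr_cl`: let `F = G.image th`, `y₀ = th y`. (a) If `c` has index `none`, or no element of `G` has the index of `c`: all pairs among `c, y, w`
(`w ∈ G`) which occur in `In` are preserved by `th` (`nr_rl_ne`, `nr_base`; `Fr G y`), so the claim holds by definition of `Cl`.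
(b) `c` has index `some x` and some `w ∈ G` has index `some x` (then `x` is not the index of `y`). Both sides are false. Right side: if
`th c ∈ C = Cl F y₀` then `C` and `P = Cl (D.F x) x` are nested (`Cx.nest`); `y₀ ∉ P` (`th_mem`, `RD.Ok.sep`), so `P ⊆ C ∋ th w`, but `th w ∈ F`, so
`th w = y₀ ∈ P` (`Cx.not_mem_cl`), contradiction. Left side: the same with images `θ` (`nr_lift`) of the finite set
`insert y (insert c G)`, `cl_congr`, and `F = G.image θ`.
`nr_real`: `w ∈ F` outside all `Cl (D.F x) x`, `x ∈ R`: take the element of index `none`; `w ∈ Cl (D.F x) x`: take `(some x, c)` with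
`AtEq {(t x, x), (c, w)}` (`RD.Ok.us`). Let `F₁ = G.image th`. Then `v ∈ Cl F y₀ ↔ v ∈ Cl F₁ y₀` for all `v`: `w` and its replacement `w₁` are in
the same cell over `D.F x` (`Cx.blk'`) and `y₀ ∉ P`; if `v ∉ P` they are not distinguished (`Cx.auto`); if `v ∈ P` for some `x` with
`w ∈ F ∩ P` then `v` is in none of the two clusters, as in (b). Finish with `nr_cl`.
-/

set_option autoImplicit false
set_option linter.unusedSectionVars false
set_option linter.unusedVariables false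

namespace Pool.Agent.MON

open Set Pool.Agent.Helper5 Pool.Agent.Helper5.DU Pool.Agent.Helper6.Str
  Pool.Agent.Helper79.VC Pool.Agent.Helper97.VC Pool.Agent.Helper97.MD Pool.Agent.Helper6.VC
  Pool.Agent.Helper97.LO

open scoped Classical

variable {L : FirstOrder.Language.{0, 0}} {M N : Type} {σ : Sig L} {S : L.Structure M}
variable [∀ n, IsEmpty (L.Functions n)] [∀ n, Countable (L.Relations n)]
  {K : Set (L.Structure ℕ)} {δ : Ordinal.{0}}

theorem nrc_ix {D : RD M} {R : Set M} {c : NR D σ S R} {x : M} (h : ix c = some x) :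
    x ∈ R ∧ el c ∈ D.A ∧ el c ∈ Cl σ S (D.F' x) (D.t x) := by
  rcases c.2 with ⟨h1, -, -⟩ | ⟨x', hx', h1, h2, h3⟩
  · exact absurd (h1.symm.trans h) (by simp)
  · have e : x' = x := by
      have := h1.symm.trans h
      exact Option.some.inj this
    subst e
    exact ⟨hx', h2, h3⟩

theorem nrc_none {D : RD M} {R : Set M} {c : NR D σ S R} (h : ix c = none) :
    el c ∈ D.A ∧ ∀ x ∈ R, el c ∉ Cl σ S (D.F x) x := by
  rcases c.2 with ⟨-, h2, h3⟩ | ⟨x', hx', h1, h2, h3⟩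
  · exact ⟨h2, h3⟩
  · exact absurd (h1.symm.trans h) (by simp)

theorem nrc_ext {D : RD M} {R : Set M} {c d : NR D σ S R} (h : ix c = ix d)
    (h' : el c = el d) : c = d := Subtype.ext (Prod.ext h h')

theorem nrc_th_some {D : RD M} {R : Set M} {c : NR D σ S R} {x : M} (h : ix c = some x) :
    th c = D.u x (el c) := by
  unfold th
  unfold ix at h
  rw [h]
  rfl

theorem nrc_thy {D : RD M} {b lam : Ordinal.{0}} (hD : D.Ok σ S b lam) {R : Set M}
    (hR : R ⊆ D.R₀) {y : NR D σ S R} (hy : Bp y) {x : M} (hx : ix y = some x) :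
    el y = D.t x ∧ th y = x := by
  rcases hy with h | ⟨x', h1, h2⟩
  · rw [h] at hx
    exact absurd hx (by simp)
  · have e : x' = x := Option.some.inj (h1.symm.trans hx)
    subst e
    refine ⟨h2, ?_⟩
    rw [nrc_th_some hx, h2]
    exact hD.ux x' (hR (nrc_ix hx).1)

/-- base points are outside the other replaced clusters -/
theorem nrc_out {D : RD M} {b lam : Ordinal.{0}} (hD : D.Ok σ S b lam) {R : Set M}
    (hR : R ⊆ D.R₀) {y : NR D σ S R} (hy : Bp y) {x : M} (hx : x ∈ R) (hne : ix y ≠ some x) :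
    th y ∉ Cl σ S (D.F x) x := by
  intro h
  rcases hix : ix y with _ | x'
  · exact ((th_mem hD hR y).2.2 hix).2 x hx h
  · have e := (nrc_thy hD hR hy hix).2
    rw [e] at h
    have hx' : x' ∈ R := (nrc_ix hix).1
    have hxx : x ≠ x' := by
      rintro rfl
      exact hne hix
    exact hD.sep x (hR hx) x' (hR hx') hxx ⟨D.F x, hD.tt x (hR hx), h⟩

theorem nrc_inj {D : RD M} {b lam : Ordinal.{0}} (hD : D.Ok σ S b lam) {R : Set M}
    (hR : R ⊆ D.R₀) {y : NR D σ S R} (hy : Bp y) {c : NR D σ S R} (h : th c = th y) : c = y := by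
  rcases hc : ix c with _ | x
  · obtain ⟨h1, h2⟩ := (th_mem hD hR c).2.2 hc
    rcases hiy : ix y with _ | x'
    · obtain ⟨h3, -⟩ := (th_mem hD hR y).2.2 hiy
      exact nrc_ext (hc.trans hiy.symm) (by rw [← h1, ← h3, h])
    · exfalso
      have h3 := (nrc_thy hD hR hy hiy).2
      have h4 := h2 x' (nrc_ix hiy).1
      rw [h, h3] at h4
      exact h4 (cl_refl x')
  · have hx : x ∈ R := (nrc_ix hc).1
    have h1 := (th_mem hD hR c).2.1 x hc
    have h2 : ix y = some x := by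
      by_contra hne
      apply nrc_out hD hR hy hx hne
      rw [← h]
      exact h1
    obtain ⟨h3, h4⟩ := nrc_thy hD hR hy h2
    refine nrc_ext (hc.trans h2.symm) ?_
    obtain ⟨-, -, h6⟩ := hD.um x (hR hx) (el c) (nrc_ix hc).2.1 (nrc_ix hc).2.2
    have h7 : D.u x (el c) = x := by
      rw [← nrc_th_some hc, h, h4]
    have h8 := (h6.1 (D.t x, x) (by simp) (el c, D.u x (el c)) (by simp)).2 h7.symm
    rw [h3]
    exact h8.symm

/-- a cluster which meets `P` and whose base point is outside `P` contains no point of `P` of the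
index set -/
theorem nrc_false (hC : Cx σ S) {F G : Finset M} {x y v w : M} (hy : y ∉ Cl σ S F x)
    (hv : v ∈ Cl σ S F x) (hvy : v ∈ Cl σ S G y) (hw : w ∈ G) (hwx : w ∈ Cl σ S F x) : False := by
  rcases hC.nest hvy hv with h | h
  · exact hy (h (cl_refl y))
  · refine hC.not_mem_cl hw ?_ (h hwx)
    rintro rfl
    exact hy hwx

theorem nrc_cl_iff {T : L.Structure N} {G : Finset N} {F : Finset M} {y c : N} {y₀ c₀ : M}
    {τ : N → M} (hF : F = G.image τ) (heq : c = y ↔ c₀ = y₀)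
    (hyc : ∀ i, Rl σ T i y c ↔ Rl σ S i y₀ c₀) (hcy : ∀ i, Rl σ T i c y ↔ Rl σ S i c₀ y₀)
    (hwc : ∀ w ∈ G, ∀ i, Rl σ T i w c ↔ Rl σ S i (τ w) c₀)
    (hcw : ∀ w ∈ G, ∀ i, Rl σ T i c w ↔ Rl σ S i c₀ (τ w))
    (hwy : ∀ w ∈ G, ∀ i, Rl σ T i w y ↔ Rl σ S i (τ w) y₀)
    (hyw : ∀ w ∈ G, ∀ i, Rl σ T i y w ↔ Rl σ S i y₀ (τ w)) :
    c ∈ Cl σ T G y ↔ c₀ ∈ Cl σ S F y₀ := by
  have h1 : ∀ i, In σ T G i y c ↔ In σ S F i y₀ c₀ := by
    intro i
    subst hF
    unfold In
    constructor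
    · intro h w' hw' j
      obtain ⟨w, hw, rfl⟩ := Finset.mem_image.1 hw'
      rw [← hwc w hw, ← hyw w hw, ← hwy w hw]
      exact h w hw j
    · intro h w hw j
      rw [hwc w hw, hyw w hw, hwy w hw]
      exact h (τ w) (Finset.mem_image_of_mem _ hw) j
  have h2 : ∀ i, In σ T G i c y ↔ In σ S F i c₀ y₀ := by
    intro i
    subst hF
    unfold In
    constructor
    · intro h w' hw' j
      obtain ⟨w, hw, rfl⟩ := Finset.mem_image.1 hw'
      rw [← hwy w hw, ← hcw w hw, ← hwc w hw]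
      exact h w hw j
    · intro h w hw j
      rw [hwy w hw, hcw w hw, hwc w hw]
      exact h (τ w) (Finset.mem_image_of_mem _ hw) j
  rw [mem_cl_iff, mem_cl_iff]
  unfold Le
  have h3 : y = c ↔ y₀ = c₀ := ⟨fun h => (heq.1 h.symm).symm, fun h => (heq.2 h.symm).symm⟩
  simp only [heq, h3, hyc, hcy, h1, h2]

theorem nr_cl (hL : Ar2 L) (hC : Cx σ S) {D : RD M} {b lam : Ordinal.{0}}
    (hD : D.Ok σ S b lam) {R : Set M} (hR : R ⊆ D.R₀) {y : NR D σ S R} (hy : Bp y)
    {G : Finset (NR D σ S R)} (hG : Fr G y) (c : NR D σ S R) :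
    c ∈ Cl σ (nrS D σ S R) G y ↔ th c ∈ Cl σ S (G.image th) (th y) := by
  by_cases hb : ∃ x, ix c = some x ∧ ∃ w ∈ G, ix w = some x
  · obtain ⟨x, hcx, w, hw, hwx⟩ := hb
    have hx : x ∈ R := (nrc_ix hcx).1
    have hyx : ix y ≠ some x := by
      intro h
      refine hG ?_ w hw ?_
      · rw [h]
        simp
      · rw [hwx, h]
    have hy0 := nrc_out hD hR hy hx hyx
    refine iff_of_false ?_ ?_
    · intro h
      obtain ⟨θ, h1, h2, h3, h4⟩ := nr_lift hL hC hD hR (insert y (insert c G))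
      have hθy : θ y = th y := by
        rcases hiy : ix y with _ | x'
        · rw [h2 y (Finset.mem_insert_self _ _) hiy, ((th_mem hD hR y).2.2 hiy).1]
        · obtain ⟨h5, h6⟩ := nrc_thy hD hR hy hiy
          rw [h4 y (Finset.mem_insert_self _ _) x' hiy h5, h6]
      have hmem : ∀ g ∈ insert y (insert c G), (g, θ g) ∈ (fun g => (g, θ g)) ''
          ((insert y (insert c G) : Finset (NR D σ S R)) : Set (NR D σ S R)) :=
        fun g hg => ⟨g, hg, rfl⟩
      have hF : Mt ((fun g => (g, θ g)) ''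
          ((insert y (insert c G) : Finset (NR D σ S R)) : Set (NR D σ S R))) G (G.image θ) := by
        constructor
        · intro g hg
          exact ⟨θ g, Finset.mem_image_of_mem _ hg, hmem g (by simp [hg])⟩
        · intro g' hg'
          obtain ⟨g, hg, rfl⟩ := Finset.mem_image.1 hg'
          exact ⟨g, hg, hmem g (by simp [hg])⟩
      have h7 := (cl_congr h1 hF (hmem y (by simp)) (hmem c (by simp))).1 h
      refine nrc_false hC (F := D.F x) (x := x) (G := G.image θ) (y := θ y) (v := θ c) (w := θ w)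
        ?_ ?_ h7 (Finset.mem_image_of_mem _ hw) ?_
      · rw [hθy]
        exact hy0
      · exact h3 c (by simp) x hcx
      · exact h3 w (by simp [hw]) x hwx
    · intro h
      exact nrc_false hC hy0 ((th_mem hD hR c).2.1 x hcx) h (Finset.mem_image_of_mem _ hw)
        ((th_mem hD hR w).2.1 x hwx)
  · push Not at hb
    have hne : ∀ w ∈ G, (ix w ≠ ix c ∨ ix w = none) ∧ (ix c ≠ ix w ∨ ix c = none) := by
      intro w hw
      rcases hc : ix c with _ | x
      · refine ⟨?_, Or.inr rfl⟩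
        rcases hiw : ix w with _ | x'
        · exact Or.inr rfl
        · exact Or.inl (by simp)
      · have h1 := hb x hc w hw
        exact ⟨Or.inl h1, Or.inl fun h => h1 h.symm⟩
    refine nrc_cl_iff rfl ⟨fun h => by rw [h], fun h => nrc_inj hD hR hy h⟩ ?_ ?_ ?_ ?_ ?_ ?_
    · exact fun i => (nr_base hD hR i hy c).1
    · exact fun i => (nr_base hD hR i hy c).2
    · exact fun w hw i => nr_rl_ne i (hne w hw).1
    · exact fun w hw i => nr_rl_ne i (hne w hw).2
    · exact fun w hw i => (nr_base hD hR i hy w).2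
    · exact fun w hw i => (nr_base hD hR i hy w).1

theorem nrc_repl (hC : Cx σ S) {D : RD M} {b lam : Ordinal.{0}} (hD : D.Ok σ S b lam)
    {R : Set M} (hR : R ⊆ D.R₀) {w : M} (hw : w ∈ D.A) : ∃ c : NR D σ S R,
      (ix c = none → th c = w) ∧ ∀ x, ix c = some x → w ∈ Cl σ S (D.F x) x ∧
        th c ∈ Cl σ S (D.F x) x ∧ Ce σ S (D.F x) w (th c) := by
  by_cases h : ∃ x ∈ R, w ∈ Cl σ S (D.F x) x
  · obtain ⟨x, hx, hwx⟩ := h
    obtain ⟨c, hcA, hc1, hc2⟩ := hD.us x (hR hx) w hw hwx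
    refine ⟨⟨(some x, c), Or.inr ⟨x, hx, rfl, hcA, hc1⟩⟩, fun h => ?_, fun x' hx' => ?_⟩
    · exact absurd h (by simp [ix])
    · have e : x = x' := Option.some.inj hx'
      subst e
      obtain ⟨h1, h2, h3⟩ := hD.um x (hR hx) c hcA hc1
      have h4 : ∀ i, Rl σ S i x w ↔ Rl σ S i x (D.u x c) := by
        intro i
        have e1 := rl_congr hc2 (x := D.t x) (x' := x) (u := c) (u' := w) (by simp) (by simp) i
        have e2 := rl_congr h3 (x := D.t x) (x' := x) (u := c) (u' := D.u x c) (by simp)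
          (by simp) i
        exact e1.symm.trans e2
      have h5 := hC.blk' hwx h4
      exact ⟨hwx, h5.1, h5.2⟩
  · push Not at h
    refine ⟨⟨(none, w), Or.inl ⟨rfl, hw, h⟩⟩, fun _ => rfl, fun x hx => ?_⟩
    exact absurd hx (by simp [ix])

theorem nr_real (hL : Ar2 L) (hC : Cx σ S) {D : RD M} {b lam : Ordinal.{0}}
    (hD : D.Ok σ S b lam) {R : Set M} (hR : R ⊆ D.R₀) {y : NR D σ S R} (hy : Bp y)
    {F : Finset M} (hF : (F : Set M) ⊆ D.A)
    (hFy : ∀ x, ix y = some x → ∀ w ∈ F, w ∉ Cl σ S (D.F x) x) :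
    ∃ G : Finset (NR D σ S R), Fr G y ∧ ∀ c, c ∈ Cl σ (nrS D σ S R) G y ↔
      th c ∈ Cl σ S F (th y) := by
  have hex : ∀ w : M, ∃ c : NR D σ S R, w ∈ F → (ix c = none → th c = w) ∧
      ∀ x, ix c = some x → w ∈ Cl σ S (D.F x) x ∧ th c ∈ Cl σ S (D.F x) x ∧
        Ce σ S (D.F x) w (th c) := by
    intro w
    by_cases hw : w ∈ F
    · obtain ⟨c, hc⟩ := nrc_repl hC hD hR (hF hw)
      exact ⟨c, fun _ => hc⟩
    · exact ⟨y, fun h => absurd h hw⟩
  choose g hg using hex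
  have hFr : Fr (F.image g) y := by
    intro hne w' hw' he
    obtain ⟨w, hw, rfl⟩ := Finset.mem_image.1 hw'
    obtain ⟨x, hx⟩ := Option.ne_none_iff_exists'.1 hne
    rw [hx] at he
    exact hFy x hx w hw ((hg w hw).2 x he).1
  refine ⟨F.image g, hFr, fun c => ?_⟩
  rw [nr_cl hL hC hD hR hy hFr c, Finset.image_image]
  have hout : ∀ w ∈ F, ∀ x, ix (g w) = some x → th y ∉ Cl σ S (D.F x) x := by
    intro w hw x hx
    refine nrc_out hD hR hy (nrc_ix hx).1 fun h => ?_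
    exact hFy x h w hw ((hg w hw).2 x hx).1
  by_cases hb : ∃ w ∈ F, ∃ x, ix (g w) = some x ∧ th c ∈ Cl σ S (D.F x) x
  · obtain ⟨w, hw, x, hx, hcx⟩ := hb
    obtain ⟨h1, h2, h3⟩ := (hg w hw).2 x hx
    refine iff_of_false (fun h => ?_) (fun h => ?_)
    · exact nrc_false hC (hout w hw x hx) hcx h
        (Finset.mem_image.2 ⟨w, hw, rfl⟩ : (th ∘ g) w ∈ F.image (th ∘ g)) h2
    · exact nrc_false hC (hout w hw x hx) hcx h hw h1
  · push Not at hb
    have key : ∀ w ∈ F, ∀ v, (∀ x, ix (g w) = some x → v ∉ Cl σ S (D.F x) x) → ∀ i,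
        (Rl σ S i w v ↔ Rl σ S i ((th ∘ g) w) v) ∧
          (Rl σ S i v w ↔ Rl σ S i v ((th ∘ g) w)) := by
      intro w hw v hv i
      rcases hgw : ix (g w) with _ | x
      · have e : th (g w) = w := (hg w hw).1 hgw
        simp only [Function.comp, e, and_self]
      · obtain ⟨h1, h2, h3⟩ := (hg w hw).2 x hgw
        exact hC.auto h1 h2 h3 (hv x hgw) i
    symm
    refine nrc_cl_iff (τ := th ∘ g) rfl Iff.rfl (fun i => Iff.rfl) (fun i => Iff.rfl) ?_ ?_ ?_ ?_
    · exact fun w hw i => (key w hw (th c) (fun x hx => hb w hw x hx) i).1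
    · exact fun w hw i => (key w hw (th c) (fun x hx => hb w hw x hx) i).2
    · exact fun w hw i => (key w hw (th y) (fun x hx => hout w hw x hx) i).1
    · exact fun w hw i => (key w hw (th y) (fun x hx => hout w hw x hx) i).2

end Pool.Agent.MON

end

/-! ### formerly `Pool.Agent.MON.NRd` -/

section

/-!
# MON, module NRd: levels of sets of the new structure

`nr_sl`: on a set of elements of the same index `el` is injective and preserves all atomic facts (`nrS`), so it is an isomorphism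
onto its image (`BFR.of_map` or a direct induction: `BFR (nrS ..) (nrS ..) X X γ p ↔ BFR S S (el '' X) (el '' X) γ (image of p)`).
`nr_part`: the elements of index `x₀` form the cluster of the base point `e₀` over a finite set: `nr_real` for `F = D.F x₀`
(`RD.Ok.parF`, `RD.Ok.nin` and `Cx.not_mem_cl`: no element of `D.F x₀` is in `Cl (D.F x₀) x₀`); if `th c ∈ Cl (D.F x₀) x₀` then `ix c = some x₀`
(`th_mem`, `RD.Ok.sep`).
-/

set_option autoImplicit false
set_option linter.unusedSectionVars false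
set_option linter.unusedVariables false

namespace Pool.Agent.MON

open Set Pool.Agent.Helper5 Pool.Agent.Helper5.DU Pool.Agent.Helper6.Str
  Pool.Agent.Helper79.VC Pool.Agent.Helper97.VC Pool.Agent.Helper97.MD Pool.Agent.Helper6.VC
  Pool.Agent.Helper97.LO

open scoped Classical

variable {L : FirstOrder.Language.{0, 0}} {M N : Type} {σ : Sig L} {S : L.Structure M}
variable [∀ n, IsEmpty (L.Functions n)] [∀ n, Countable (L.Relations n)]
  {K : Set (L.Structure ℕ)} {δ : Ordinal.{0}}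

theorem nrd_ix {D : RD M} {R : Set M} {c : NR D σ S R} {x : M} (h : ix c = some x) :
    x ∈ R ∧ el c ∈ D.A ∧ el c ∈ Cl σ S (D.F' x) (D.t x) := by
  rcases c.2 with ⟨h1, -⟩ | ⟨y, hy, h1, h2, h3⟩
  · have h4 : c.1.1 = some x := h
    rw [h1] at h4
    exact absurd h4 (by simp)
  · have h4 : c.1.1 = some x := h
    rw [h1] at h4
    have h5 : y = x := Option.some.inj h4
    subst h5
    exact ⟨hy, h2, h3⟩

theorem nrd_bfr {D : RD M} {R : Set M} {X : Set (NR D σ S R)}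
    (hX : ∀ c ∈ X, ∀ d ∈ X, ix c = ix d) (γ : Ordinal.{0}) :
    BFR (nrS D σ S R) S X (el '' X) γ ∅ := by
  refine BFR.of_map el ?_ rfl ?_ γ (fun a ha => absurd ha (notMem_empty a))
  · intro c hc d hd h
    apply Subtype.ext
    apply Prod.ext
    · exact hX c hc d hd
    · exact h
  · intro n r v hv
    have h : ∀ i j, ix (v i) = ix (v j) := fun i j => hX _ (hv i) _ (hv j)
    show (if ∀ i j, ix (v i) = ix (v j) then S.RelMap r (fun i => el (v i))
      else S.RelMap r (fun i => th (v i))) ↔ _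
    rw [if_pos h]

theorem nr_sl {D : RD M} {R : Set M} {X : Set (NR D σ S R)}
    (hX : ∀ c ∈ X, ∀ d ∈ X, ix c = ix d) (α : Ordinal.{0}) :
    SL (nrS D σ S R) X α ↔ SL S (el '' X) α := by
  by_cases hα : α < om1
  · constructor
    · intro h
      exact h.congr hα (nrd_bfr hX _)
    · intro h
      exact h.congr hα ((nrd_bfr hX _).symm fun a ha => absurd ha (notMem_empty a))
  · constructor
    · intro _ p _ _ hb γ hγ
      exact hb.mono (hγ.le.trans (not_lt.1 hα))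
    · intro _ p _ _ hb γ hγ
      exact hb.mono (hγ.le.trans (not_lt.1 hα))

theorem nr_part (hL : Ar2 L) (hC : Cx σ S) {D : RD M} {b lam : Ordinal.{0}}
    (hD : D.Ok σ S b lam) {R : Set M} (hR : R ⊆ D.R₀) {x₀ : M} (hx : x₀ ∈ R)
    {e₀ : NR D σ S R} (he : ix e₀ = some x₀) (he' : el e₀ = D.t x₀) :
    ∃ G : Finset (NR D σ S R), Cl σ (nrS D σ S R) G e₀ = {c | ix c = some x₀} := by
  have hth : th e₀ = x₀ := by
    have h1 : th e₀ = D.u x₀ (el e₀) := by
      have h2 : e₀.1.1 = some x₀ := he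
      unfold th
      rw [h2]
      rfl
    rw [h1, he']
    exact hD.ux x₀ (hR hx)
  obtain ⟨G, -, hG⟩ := nr_real hL hC hD hR (y := e₀) (Or.inr ⟨x₀, he, he'⟩) (F := D.F x₀)
    (hD.parF x₀ (hR hx)) (by
      intro x h w hw
      have hxx : x₀ = x := by
        rw [he] at h
        exact Option.some.inj h
      subst hxx
      refine hC.not_mem_cl hw ?_
      rintro rfl
      exact hD.nin _ (hR hx) hw)
  refine ⟨G, ?_⟩
  ext c
  rw [hG c, hth]
  have hm := th_mem hD hR c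
  constructor
  · intro hc
    show ix c = some x₀
    cases hcx : ix c with
    | none => exact absurd hc ((hm.2.2 hcx).2 x₀ hx)
    | some x =>
      by_contra hne
      have hne' : x ≠ x₀ := fun h => hne (by rw [h])
      have hxR : x ∈ R := (nrd_ix hcx).1
      have hcx' := hm.2.1 x hcx
      rcases hC.nest hc hcx' with h | h
      · exact hD.sep x (hR hxR) x₀ (hR hx) hne' ⟨D.F x, hD.tt x (hR hxR), h (cl_refl x₀)⟩
      · exact hD.sep x₀ (hR hx) x (hR hxR) hne'.symm ⟨D.F x₀, hD.tt x₀ (hR hx), h (cl_refl x)⟩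
  · intro hc
    exact hm.2.1 x₀ hc

/-- the elements of index `x₀` -/
theorem nr_part_el {D : RD M} {R : Set M} {x₀ : M} (hx : x₀ ∈ R) :
    el '' {c : NR D σ S R | ix c = some x₀} = Cl σ S (D.F' x₀) (D.t x₀) ∩ D.A := by
  ext v
  constructor
  · rintro ⟨c, hc, rfl⟩
    obtain ⟨-, h2, h3⟩ := nrd_ix (x := x₀) hc
    exact ⟨h3, h2⟩
  · rintro ⟨h1, h2⟩
    exact ⟨⟨(some x₀, v), Or.inr ⟨x₀, hx, rfl, h2, h1⟩⟩, rfl, rfl⟩

end Pool.Agent.MON

end

/-! ### formerly `Pool.Agent.MON.CLV` -/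

section

/-!
# MON, module CLV: the level of a tame cluster after the replacement

`C = Cl F x₀ ⊇ P = Cl (D.F x₀) x₀`, `C` tame. Wlog `F ⊆ A` and `x₀ ∉ F`: if `C = P` take `F = D.F x₀` (`RD.Ok.parF`, `RD.Ok.nin`), otherwise `RD.Ok.par`; `x₀ ∉ F` because
`C` has more than one element (`Cx.cl_of_mem`); so `F` is disjoint from `C` (`Cx.not_mem_cl`). `C ⊆ Tm x₀`, so `C` contains no other replaced cluster. `X = {c | th c ∈ C}` is a cluster of the base point `e₀`
(`nr_real`), `N₀ = {c | ix c = some x₀} ⊆ X` is a cluster of `e₀` (`nr_part`), the other elements of `X` have index `none` and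
`el '' (X \ N₀) = (C \ P) ∩ A`. Let `SL S (C ∩ A) ρ`, `SL S (Cl (F' x₀) (t x₀) ∩ A) ρ'` (`lt_inter`, `RD.Ok.tame`, `RD.Ok.lt'`), `μ = max ρ ρ'`. CLAIM: `Sb (nrS ..) e₀ X μ`; then
`Sb.sl`. Let `p` be a finite map of `X` with `(e₀, e₀)` of level `μ`. `resC` for the cluster `N₀`: (1) on `N₀` the map is of level `μ`, hence of
all levels (`nr_sl`, `nr_part_el`). (2) on `X \ N₀`: the pairs are of index `none`; push forward by `th` (`nr_th`, `B = {e₀}`): `BFR S S ((C \ P) ∩ A) ((C \ P) ∩ A) μ` of the image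
together with `(x₀, x₀)` (`nr_base`); glue with the identity on `P ∩ A` (`glueC` for `P`, `U = U' = C ∩ A`, `BFR.refl`): level `μ` on `C ∩ A`, hence all
levels; restrict again (`resC`) and pull back. (3) `glueC` in the new structure (`nr_cx`) for the cluster `N₀` of `e₀`.
-/

set_option autoImplicit false
set_option linter.unusedSectionVars false
set_option linter.unusedVariables false

namespace Pool.Agent.MON

open Set Pool.Agent.Helper5 Pool.Agent.Helper5.DU Pool.Agent.Helper6.Str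
  Pool.Agent.Helper79.VC Pool.Agent.Helper97.VC Pool.Agent.Helper97.MD Pool.Agent.Helper6.VC
  Pool.Agent.Helper97.LO

open scoped Classical

variable {L : FirstOrder.Language.{0, 0}} {M N : Type} {σ : Sig L} {S : L.Structure M}
variable [∀ n, IsEmpty (L.Functions n)] [∀ n, Countable (L.Relations n)]
  {K : Set (L.Structure ℕ)} {δ : Ordinal.{0}}

/-- push forward to the old structure -/
theorem clv_push (hL : Ar2 L) (hC : Cx σ S) {D : RD M} {b lam : Ordinal.{0}}
    (hD : D.Ok σ S b lam) {R : Set M} (hR : R ⊆ D.R₀) {Z : Set (NR D σ S R)}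
    (hZ : ∀ c ∈ Z, ix c = none) {e : NR D σ S R} (he : Bp e)
    {p : Set (NR D σ S R × NR D σ S R)}
    (hp : ∀ a ∈ p, a.1 ∈ Z ∪ {e} ∧ a.2 ∈ Z ∪ {e}) (γ : Ordinal.{0}) :
    BFR (nrS D σ S R) (nrS D σ S R) Z Z γ p ↔
      BFR S S (th '' Z) (th '' Z) γ ((fun a : NR D σ S R × NR D σ S R => (th a.1, th a.2)) '' p) := by
  have h1 := nr_th hL hC hD hR (X := Z) (B := {e}) hZ (by
    rintro c rfl
    exact he) γ
  have h2 : BFR S (nrS D σ S R) (th '' Z) Z γ
      ((fun c : NR D σ S R => (th c, c)) '' (Z ∪ {e})) := h1.symm (by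
    rintro _ ⟨c, hc, rfl⟩
    exact ⟨c, hc, rfl⟩)
  constructor
  · intro h
    have h3 : BFR S (nrS D σ S R) (th '' Z) Z γ
        ((fun a : NR D σ S R × NR D σ S R => (th a.1, a.2)) '' p) := h2.trans h (by
      rintro _ ⟨a, ha, rfl⟩
      exact ⟨a.1, ⟨a.1, (hp a ha).1, rfl⟩, ha⟩)
    refine h3.trans h1 ?_
    rintro _ ⟨a, ha, rfl⟩
    exact ⟨a.2, ⟨a, ha, rfl⟩, ⟨a.2, (hp a ha).2, rfl⟩⟩
  · intro h
    have h3 : BFR (nrS D σ S R) S Z (th '' Z) γ
        ((fun a : NR D σ S R × NR D σ S R => (a.1, th a.2)) '' p) := h1.trans h (by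
      rintro _ ⟨a, ha, rfl⟩
      exact ⟨th a.1, ⟨a.1, (hp a ha).1, rfl⟩, ⟨a, ha, rfl⟩⟩)
    refine h3.trans h2 ?_
    intro a ha
    exact ⟨th a.2, ⟨a, ha, rfl⟩, ⟨a.2, (hp a ha).2, rfl⟩⟩

/-- parameters in the closed set, outside of the cluster -/
theorem clv_par (hC : Cx σ S) {D : RD M} {b lam : Ordinal.{0}} (hD : D.Ok σ S b lam) {x₀ : M}
    (hx : x₀ ∈ D.R₀) {F : Finset M} (hP : Cl σ S (D.F x₀) x₀ ⊆ Cl σ S F x₀) :
    ∃ F₁ : Finset M, (F₁ : Set M) ⊆ D.A ∧ x₀ ∉ F₁ ∧ Cl σ S F₁ x₀ = Cl σ S F x₀ := by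
  by_cases h : Cl σ S F x₀ = Cl σ S (D.F x₀) x₀
  · exact ⟨D.F x₀, hD.parF x₀ hx, hD.nin x₀ hx, h.symm⟩
  · obtain ⟨F₁, h1, h2⟩ := hD.par x₀ (hD.sub hx) F
    refine ⟨F₁, h1, fun h3 => h ?_, h2⟩
    rw [← h2, hC.cl_of_mem h3]
    refine Subset.antisymm ?_ ?_
    · rintro _ rfl
      exact cl_refl _
    · rw [← hC.cl_of_mem h3, h2]
      exact hP

/-- the cluster meets no other replaced cluster -/
theorem clv_out (hC : Cx σ S) {D : RD M} {b lam : Ordinal.{0}} (hD : D.Ok σ S b lam) {x₀ x v : M}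
    (hx₀ : x₀ ∈ D.R₀) (hx : x ∈ D.R₀) (hne : x ≠ x₀) {F : Finset M}
    (ht : TT S (Cl σ S F x₀)) (hv : v ∈ Cl σ S F x₀) : v ∉ Cl σ S (D.F x) x := by
  intro hv'
  rcases hC.nest hv hv' with h | h
  · exact hD.sep x hx x₀ hx₀ hne ⟨D.F x, hD.tt x hx, h (cl_refl x₀)⟩
  · exact hD.sep x₀ hx₀ x hx hne.symm ⟨F, ht, h (cl_refl x)⟩

theorem clv (hL : Ar2 L) (hS : VSt K δ S) (hC : Cx σ S) {D : RD M} {b lam : Ordinal.{0}}
    (hD : D.Ok σ S b lam) {R : Set M} (hR : R ⊆ D.R₀) {x₀ : M} (hx : x₀ ∈ R) {F : Finset M}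
    (ht : TT S (Cl σ S F x₀)) (hP : Cl σ S (D.F x₀) x₀ ⊆ Cl σ S F x₀) :
    Lt (nrS D σ S R) {c | th c ∈ Cl σ S F x₀} lam := by
  obtain ⟨F₁, hF₁A, hF₁x, hF₁⟩ := clv_par hC hD (hR hx) hP
  rw [← hF₁] at ht hP ⊢
  clear hF₁
  obtain ⟨e₀, he, he'⟩ := nre_bp hD hR hx
  have hB : Bp e₀ := Or.inr ⟨x₀, he, he'⟩
  have hth : th e₀ = x₀ := (nrc_thy hD hR hB he).2
  have hFout : ∀ w ∈ F₁, w ∉ Cl σ S F₁ x₀ := fun w hw => hC.not_mem_cl hw (by
    rintro rfl
    exact hF₁x hw)
  obtain ⟨G, -, hG⟩ := nr_real hL hC hD hR hB hF₁A (by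
    intro x h w hw hwx
    have hxx : x₀ = x := Option.some.inj (he.symm.trans h)
    subst hxx
    exact hFout w hw (hP hwx))
  obtain ⟨G₀, hG₀⟩ := nr_part hL hC hD hR hx he he'
  have hCT : Cx σ (nrS D σ S R) := nr_cx hL hC hD hR
  set T := nrS D σ S R with hT
  set X : Set (NR D σ S R) := {c | th c ∈ Cl σ S F₁ x₀} with hX
  have heX : e₀ ∈ X := by
    show th e₀ ∈ Cl σ S F₁ x₀
    rw [hth]
    exact cl_refl x₀
  have heN : e₀ ∈ Cl σ T G₀ e₀ := cl_refl e₀
  have hN : ∀ c, c ∈ Cl σ T G₀ e₀ ↔ ix c = some x₀ := fun c => by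
    rw [hG₀]
    exact Iff.rfl
  have hNX : Cl σ T G₀ e₀ ⊆ X := by
    intro c hc
    exact hP ((th_mem hD hR c).2.1 x₀ ((hN c).1 hc))
  -- elements of `X` outside of the cluster of index `x₀`
  have hZ : ∀ c ∈ X \ Cl σ T G₀ e₀, ix c = none := by
    rintro c ⟨hc, hc'⟩
    rcases hi : ix c with _ | x
    · rfl
    · exfalso
      have hxR : x ∈ R := (nrc_ix hi).1
      have hne : x ≠ x₀ := by
        rintro rfl
        exact hc' ((hN c).2 hi)
      exact clv_out hC hD (hR hx) (hR hxR) hne ht hc ((th_mem hD hR c).2.1 x hi)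
  have hY : th '' (X \ Cl σ T G₀ e₀) = (Cl σ S F₁ x₀ ∩ D.A) \ Cl σ S (D.F x₀) x₀ := by
    ext v
    constructor
    · rintro ⟨c, hc, rfl⟩
      have h1 := hZ c hc
      exact ⟨⟨hc.1, (th_mem hD hR c).1⟩, ((th_mem hD hR c).2.2 h1).2 x₀ hx⟩
    · rintro ⟨⟨h1, h2⟩, h3⟩
      have h4 : ∀ x ∈ R, v ∉ Cl σ S (D.F x) x := by
        intro x hxR
        by_cases hne : x = x₀
        · subst hne
          exact h3
        · exact clv_out hC hD (hR hx) (hR hxR) hne ht h1
      refine ⟨⟨(none, v), Or.inl ⟨rfl, h2, h4⟩⟩, ⟨h1, fun h5 => ?_⟩, rfl⟩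
      have h6 := (hN _).1 h5
      exact absurd h6 (by simp [ix])
  -- the levels
  have hx₀A : x₀ ∈ D.A := hD.sub (hR hx)
  obtain ⟨ρ, hρ, hSρ⟩ := (lt_inter hC hD.gd (hD.cloC x₀ hx₀A F₁)).2 (hD.tame x₀ hx₀A F₁ ht)
  obtain ⟨ρ', hρ', hSρ'⟩ := (lt_inter hC hD.gd
    (hD.cloC (D.t x₀) (hD.part x₀ (hR hx)) (D.F' x₀))).2 (hD.lt' x₀ (hR hx))
  have hμ : max ρ ρ' < lam := max_lt hρ hρ'
  have hS1 : SL S (Cl σ S F₁ x₀ ∩ D.A) (max ρ ρ') := hSρ.mono (le_max_left _ _)
  have hS2 : SL T (Cl σ T G₀ e₀) (max ρ ρ') := by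
    rw [hG₀]
    refine (nr_sl (fun c hc d hd => ?_) _).2 ?_
    · exact (show ix c = some x₀ from hc).trans (show ix d = some x₀ from hd).symm
    · rw [nr_part_el hx]
      exact hSρ'.mono (le_max_right _ _)
  have key : Sb T e₀ X (max ρ ρ') := by
    intro p hp hpX hb γ hγ
    have he0 : (e₀, e₀) ∈ insert (e₀, e₀) p := mem_insert _ _
    have hbase : ∀ a ∈ insert (e₀, e₀) p, a.1 ∈ Cl σ T G₀ e₀ ↔ a.2 ∈ Cl σ T G₀ e₀ :=
      fun a ha => (hCT.base' hb.atEq he0 (show (a.1, a.2) ∈ insert (e₀, e₀) p from ha)).1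
    have hpX' : ∀ a ∈ insert (e₀, e₀) p, a.1 ∈ X ∧ a.2 ∈ X := by
      rintro a (rfl | ha)
      · exact ⟨heX, heX⟩
      · exact hpX a ha
    obtain ⟨h1, h2⟩ := resC hCT (F := G₀) (cl_refl e₀) (Ce.refl e₀) he0 hb
    refine glueC hL hCT (F := G₀) (cl_refl e₀) (Ce.refl e₀) hbase he0 ?_ ?_
    · rw [inter_eq_self_of_subset_right hNX] at h1 ⊢
      refine hS2 _ ((hp.insert _).subset (sep_subset _ _)) ?_ (BFR.anti (sep_subset _ _) h1) γ hγ
      rintro a ⟨ha, ha1⟩
      exact ⟨ha1, (hbase a ha).1 ha1⟩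
    · have hm : ∀ a ∈ insert (e₀, e₀) {a ∈ insert (e₀, e₀) p | a.1 ∉ Cl σ T G₀ e₀},
          a.1 ∈ (X \ Cl σ T G₀ e₀) ∪ {e₀} ∧ a.2 ∈ (X \ Cl σ T G₀ e₀) ∪ {e₀} := by
        rintro a (rfl | ⟨ha, ha1⟩)
        · exact ⟨Or.inr rfl, Or.inr rfl⟩
        · exact ⟨Or.inl ⟨(hpX' a ha).1, ha1⟩,
            Or.inl ⟨(hpX' a ha).2, fun h => ha1 ((hbase a ha).2 h)⟩⟩
      have hsub : insert (e₀, e₀) {a ∈ insert (e₀, e₀) p | a.1 ∉ Cl σ T G₀ e₀} ⊆
          insert (e₀, e₀) p := by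
        rintro a (rfl | ⟨ha, -⟩)
        · exact he0
        · exact ha
      have h3 := (clv_push hL hC hD hR hZ hB hm _).1 (BFR.anti hsub h2)
      refine (clv_push hL hC hD hR hZ hB hm _).2 ?_
      rw [hY] at h3 ⊢
      set q : Set (M × M) := (fun a : NR D σ S R × NR D σ S R => (th a.1, th a.2)) ''
        (insert (e₀, e₀) {a ∈ insert (e₀, e₀) p | a.1 ∉ Cl σ T G₀ e₀}) with hq
      have hq0 : (x₀, x₀) ∈ q := ⟨(e₀, e₀), mem_insert _ _, by simp only [hth]⟩
      have hqm : ∀ a ∈ q, a = (x₀, x₀) ∨ (a.1 ∈ (Cl σ S F₁ x₀ ∩ D.A) \ Cl σ S (D.F x₀) x₀ ∧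
          a.2 ∈ (Cl σ S F₁ x₀ ∩ D.A) \ Cl σ S (D.F x₀) x₀) := by
        rintro _ ⟨a, ha | ⟨ha, ha1⟩, rfl⟩
        · left
          rw [ha]
          simp only [hth]
        · right
          rw [← hY]
          exact ⟨⟨a.1, ⟨(hpX' a ha).1, ha1⟩, rfl⟩,
            ⟨a.2, ⟨(hpX' a ha).2, fun h => ha1 ((hbase a ha).2 h)⟩, rfl⟩⟩
      have hx₀P : x₀ ∈ Cl σ S (D.F x₀) x₀ := cl_refl x₀
      have h4 : BFR S S (Cl σ S F₁ x₀ ∩ D.A) (Cl σ S F₁ x₀ ∩ D.A) (max ρ ρ') q := by
        refine glueC hL hC (F := D.F x₀) (cl_refl x₀) (Ce.refl x₀) ?_ hq0 ?_ ?_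
        · intro a ha
          rcases hqm a ha with h | h
          · rw [h]
          · exact ⟨fun h' => absurd h' h.1.2, fun h' => absurd h' h.2.2⟩
        · refine BFR.refl S _ _ ?_
          rintro a ⟨ha, ha1⟩
          rcases hqm a ha with h | h
          · rw [h]
            exact ⟨⟨⟨cl_refl x₀, hx₀A⟩, hx₀P⟩, rfl⟩
          · exact absurd ha1 h.1.2
        · refine BFR.anti ?_ h3
          rintro a (rfl | ⟨ha, -⟩)
          · exact hq0
          · exact ha
      have h5 : BFR S S (Cl σ S F₁ x₀ ∩ D.A) (Cl σ S F₁ x₀ ∩ D.A) γ q := by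
        refine hS1 q ?_ ?_ h4 γ hγ
        · exact (((hp.insert _).subset (sep_subset _ _)).insert _).image _
        · intro a ha
          rcases hqm a ha with h | h
          · rw [h]
            exact ⟨⟨cl_refl x₀, hx₀A⟩, ⟨cl_refl x₀, hx₀A⟩⟩
          · exact ⟨h.1.1, h.2.1⟩
      exact (resC hC (F := D.F x₀) (cl_refl x₀) (Ce.refl x₀) hq0 h5).2
  refine ⟨max ρ ρ' + Ordinal.omega0 + 1, ?_, key.sl (hμ.trans hD.gd.lt) heX⟩
  exact hD.gd.add _ (hD.gd.add _ hμ _ hD.gd.om) _ (Ordinal.one_lt_omega0.trans hD.gd.om)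

end Pool.Agent.MON

end

/-! ### formerly `Pool.Agent.MON.TFa` -/

section

/-!
# MON, module TFa: maximal tame classes of the new structure, unreplaced classes

`y` of index `none`, `y₀ = el y = th y`, `y₀ ∉ Tm x` for all `x ∈ R`.
`tl_none`, ⊇: `v = el c ∈ Tm y₀`: a tame cluster `C = Cl F y₀ ∋ v`, `F ⊆ A` (`RD.Ok.par`); `nr_real`: `G`; `X = {c | th c ∈ C}`; its elements have index `none` (otherwise
`th c ∈ Tm x ∩ Tm y₀`, `tm_eq`), `el '' X = C ∩ A`; `nr_sl`, `lt_inter`, `RD.Ok.tame`: `Lt X lam`.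
⊆: `v ∈ Cl G y`, `Lt (nrS ..) (Cl G y) lam`, say level `α`. `C = Cl (G.image th) y₀` (`nr_cl`). If `C` is tame then `th v ∈ Tm y₀`, so `v` has index
`none`. If `C` is wild: `ξ` = max of `α + ω + 1 + ω` and `om'`; `RD.Ok.wild`: `C' = Cl F₁ y₁ ⊆ C` tame, not of level `ξ`, `y₁ ∈ A`, wlog `F₁ ⊆ A` (`RD.Ok.par`). `y₁` is in no `Tm x`, `x ∈ R₀`:
otherwise `Lt (Tm x) (ζ (idx x + 1))` (`RD.Th.lev`) and `sl_sub`, `Sb.sl` (`Tm x = Tm y₁ ⊇ C'`) give a level of `C'` below `om' ≤ ξ`. So `y₁` is the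
element `e` of index `none`; `nr_real` for `F₁`: `G₁`, `Cl G₁ e = {c | th c ∈ C'} ⊆ Cl G y`, elements of index `none`. `sl_sub` in the new structure (`nr_cx`; `Cl G y = Cl G e`), `Sb.sl`, `nr_sl`:
`SL S (C' ∩ A) (α + ω + 1)`, so `SL S C' (α + ω + 1)` (`Clo.bfr`, `SL.congr`), contradiction.
`lt_none`: `nr_sl` and `el '' .. = Tm y₀ ∩ A`, `RD.Ok.cloT`, `SL.lt_congr`, `κ ≤ lam`.
-/

set_option autoImplicit false
set_option linter.unusedSectionVars false
set_option linter.unusedVariables false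

namespace Pool.Agent.MON

open Set Pool.Agent.Helper5 Pool.Agent.Helper5.DU Pool.Agent.Helper6.Str
  Pool.Agent.Helper79.VC Pool.Agent.Helper97.VC Pool.Agent.Helper97.MD Pool.Agent.Helper6.VC
  Pool.Agent.Helper97.LO

open scoped Classical

variable {L : FirstOrder.Language.{0, 0}} {M N : Type} {σ : Sig L} {S : L.Structure M}
variable [∀ n, IsEmpty (L.Functions n)] [∀ n, Countable (L.Relations n)]
  {K : Set (L.Structure ℕ)} {δ : Ordinal.{0}}

theorem tfa_ixR {D : RD M} {R : Set M} {c : NR D σ S R} {x : M} (h : ix c = some x) : x ∈ R := by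
  rcases c.2 with ⟨h1, -⟩ | ⟨x', hx', h1, -⟩
  · have h2 : (some x : Option M) = none := h.symm.trans h1
    exact absurd h2 (Option.some_ne_none x)
  · have h2 : some x = some x' := h.symm.trans h1
    rw [Option.some.inj h2]
    exact hx'

/-- elements with place in the class of `y₁` have index `none` -/
theorem tfa_none (hC : Cx σ S) {D : RD M} {b lam : Ordinal.{0}} (hD : D.Ok σ S b lam) {R : Set M}
    (hR : R ⊆ D.R₀) {y₁ : M} (hy : ∀ x ∈ R, y₁ ∉ Tm σ S x) {c : NR D σ S R}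
    (hc : th c ∈ Tm σ S y₁) : ix c = none := by
  by_contra h
  obtain ⟨x, hx⟩ := Option.ne_none_iff_exists'.mp h
  have hxR := tfa_ixR hx
  have h1 := (th_mem hD hR c).2.1 x hx
  have h2 : th c ∈ Tm σ S x := cl_sub_tm (hD.tt x (hR hxR)) h1
  have h3 := tm_eq hC h2
  have h4 := tm_eq hC hc
  refine hy x hxR ?_
  rw [← h3, h4]
  exact tm_refl hC y₁

/-- elements of `Tm y₁ ∩ A` are in the new structure -/
theorem tfa_mk (hC : Cx σ S) {D : RD M} {b lam : Ordinal.{0}} (hD : D.Ok σ S b lam) {R : Set M}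
    (hR : R ⊆ D.R₀) {y₁ : M} (hy : ∀ x ∈ R, y₁ ∉ Tm σ S x) {w : M} (hw : w ∈ Tm σ S y₁)
    (hwA : w ∈ D.A) : ∃ e : NR D σ S R, ix e = none ∧ el e = w ∧ th e = w := by
  have hn : ∀ x ∈ R, w ∉ Cl σ S (D.F x) x := by
    intro x hxR h1
    have h2 : w ∈ Tm σ S x := cl_sub_tm (hD.tt x (hR hxR)) h1
    have h3 := tm_eq hC h2
    have h4 := tm_eq hC hw
    refine hy x hxR ?_
    rw [← h3, h4]
    exact tm_refl hC y₁
  exact ⟨⟨(none, w), Or.inl ⟨rfl, hwA, hn⟩⟩, rfl, rfl, rfl⟩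

theorem tfa_img (hC : Cx σ S) {D : RD M} {b lam : Ordinal.{0}} (hD : D.Ok σ S b lam) {R : Set M}
    (hR : R ⊆ D.R₀) {y₁ : M} (hy : ∀ x ∈ R, y₁ ∉ Tm σ S x) {T : Set M} (hT : T ⊆ Tm σ S y₁)
    {X : Set (NR D σ S R)} (hX : ∀ c, c ∈ X ↔ th c ∈ T) :
    (∀ c ∈ X, ix c = none) ∧ el '' X = T ∩ D.A := by
  have h0 : ∀ c ∈ X, ix c = none := fun c hc => tfa_none hC hD hR hy (hT ((hX c).mp hc))
  refine ⟨h0, ?_⟩
  ext w
  constructor
  · rintro ⟨c, hc, rfl⟩
    have h1 := th_mem hD hR c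
    have h2 := (h1.2.2 (h0 c hc)).1
    rw [← h2]
    exact ⟨(hX c).mp hc, h1.1⟩
  · rintro ⟨hw, hwA⟩
    obtain ⟨e, he1, he2, he3⟩ := tfa_mk hC hD hR hy (hT hw) hwA
    refine ⟨e, (hX e).mpr ?_, he2⟩
    rw [he3]
    exact hw

theorem tfa_add {κ α : Ordinal.{0}} (h : Gd κ) (hα : α < κ) : α + Ordinal.omega0 + 1 < κ := by
  have h1 : (1 : Ordinal.{0}) < κ := lt_trans Ordinal.one_lt_omega0 h.om
  exact h.add _ (h.add _ hα _ h.om) _ h1

/-- levels in closed sets -/
theorem tfa_lt {X A : Set M} {κ lam : Ordinal.{0}} (hκ : Gd κ) (hκl : κ ≤ lam)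
    (h : ∀ γ < lam, Clo S X γ A) : Lt S (X ∩ A) κ ↔ Lt S X κ := by
  have key : ∀ γ < κ, BFR S S X (X ∩ A) γ ∅ := by
    intro γ hγ
    have h1 := (h γ (lt_of_lt_of_le hγ hκl)).bfr (F := (∅ : Set M)) finite_empty (empty_subset _)
    rw [inter_comm]
    exact BFR.anti (empty_subset _) h1
  constructor
  · rintro ⟨α, hα, h1⟩
    refine ⟨α, hα, h1.congr (hα.trans hκ.lt) ?_⟩
    exact (key _ (hκ.add _ hα _ hκ.om)).symm fun a ha => absurd ha (notMem_empty a)
  · rintro ⟨α, hα, h1⟩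
    exact ⟨α, hα, h1.congr (hα.trans hκ.lt) (key _ (hκ.add _ hα _ hκ.om))⟩

/-- levels of sets of the new structure -/
theorem tfa_nr_lt {D : RD M} {R : Set M} {X : Set (NR D σ S R)} (hX : ∀ c ∈ X, ix c = none)
    (κ : Ordinal.{0}) : Lt (nrS D σ S R) X κ ↔ Lt S (el '' X) κ := by
  have h : ∀ c ∈ X, ∀ d ∈ X, ix c = ix d := fun c hc d hd => (hX c hc).trans (hX d hd).symm
  constructor
  · rintro ⟨α, hα, h1⟩
    exact ⟨α, hα, (nr_sl h α).mp h1⟩
  · rintro ⟨α, hα, h1⟩
    exact ⟨α, hα, (nr_sl h α).mpr h1⟩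

theorem tfa_bp {D : RD M} {R : Set M} {y : NR D σ S R} (hy : ix y = none) : Bp y := Or.inl hy

theorem tl_none (hL : Ar2 L) (hS : VSt K δ S) (hC : Cx σ S) {D : RD M}
    {b lam om' : Ordinal.{0}} {ζ : ℕ → Ordinal.{0}} {idx : M → ℕ} (hD : D.Ok σ S b lam)
    (hT : D.Th σ S lam om' ζ idx) {R : Set M} (hR : R ⊆ D.R₀) {y : NR D σ S R}
    (hy : ix y = none) (hyR : ∀ x ∈ R, el y ∉ Tm σ S x) :
    Tl σ (nrS D σ S R) lam y = {c | ix c = none ∧ el c ∈ Tm σ S (el y)} := by
  have hty : th y = el y := ((th_mem hD hR y).2.2 hy).1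
  have hyA : el y ∈ D.A := by rw [← hty]; exact (th_mem hD hR y).1
  have hlam := hD.gd
  apply Subset.antisymm
  · rintro v ⟨G, ⟨α, hα, hsl⟩, hv⟩
    -- the cluster of the old structure
    have hcl : ∀ c, c ∈ Cl σ (nrS D σ S R) G y ↔ th c ∈ Cl σ S (G.image th) (el y) := by
      intro c
      rw [← hty]
      exact nr_cl hL hC hD hR (tfa_bp hy) (fun h => absurd hy h) c
    have hgoal : th v ∈ Tm σ S (el y) → v ∈ {c : NR D σ S R | ix c = none ∧ el c ∈ Tm σ S (el y)} := by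
      intro h1
      have h2 := tfa_none hC hD hR hyR h1
      refine ⟨h2, ?_⟩
      rw [← ((th_mem hD hR v).2.2 h2).1]
      exact h1
    by_cases htt : TT S (Cl σ S (G.image th) (el y))
    · exact hgoal (cl_sub_tm htt ((hcl v).mp hv))
    · exfalso
      -- the level
      have hα1 : α + Ordinal.omega0 + 1 < lam := tfa_add hlam hα
      have hα2 : α + Ordinal.omega0 + 1 + Ordinal.omega0 < lam := hlam.add _ hα1 _ hlam.om
      have hξ : max (α + Ordinal.omega0 + 1 + Ordinal.omega0) om' < lam := max_lt hα2 hT.lt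
      obtain ⟨F₁', y₁, hy₁A, hsub', htt', hnsl'⟩ := hD.wild (el y) hyA (G.image th) htt _ hξ
      obtain ⟨F₁, hF₁A, hF₁⟩ := hD.par y₁ hy₁A F₁'
      rw [← hF₁] at hsub' htt' hnsl'
      -- `y₁` is in no class of a base point
      have hy₁ : ∀ x ∈ D.R₀, y₁ ∉ Tm σ S x := by
        intro x hx h1
        have h2 : Tm σ S y₁ = Tm σ S x := tm_eq hC h1
        obtain ⟨α₁, hα₁, h3⟩ := (hT.lev x hx).2
        have hα₁' : α₁ < om' := lt_of_lt_of_le hα₁ (hT.le _)
        have h4 : Cl σ S F₁ y₁ ⊆ Tm σ S x := by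
          rw [← h2]
          exact cl_sub_tm htt'
        have h5 := sl_sub hL hC h4 h3
        have h6 := h5.sl (hα₁'.trans hT.gd'.lt) (cl_refl y₁)
        exact hnsl' (h6.mono ((tfa_add hT.gd' hα₁').le.trans (le_max_right _ _)))
      have hy₁R : ∀ x ∈ R, y₁ ∉ Tm σ S x := fun x hx => hy₁ x (hR hx)
      obtain ⟨e, he1, he2, he3⟩ := tfa_mk hC hD hR hy₁R (tm_refl hC y₁) hy₁A
      obtain ⟨G₁, -, hG₁⟩ := nr_real hL hC hD hR (tfa_bp he1) hF₁A (fun x hx => by
        rw [he1] at hx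
        exact absurd hx.symm (Option.some_ne_none x))
      rw [he3] at hG₁
      obtain ⟨hnone, himg⟩ := tfa_img hC hD hR hy₁R (cl_sub_tm htt') hG₁
      have hsub : Cl σ (nrS D σ S R) G₁ e ⊆ Cl σ (nrS D σ S R) G y := by
        intro c hc
        exact (hcl c).mpr (hsub' ((hG₁ c).mp hc))
      have h7 := sl_sub hL (nr_cx hL hC hD hR) hsub hsl
      have h8 := h7.sl (hα.trans hlam.lt) (cl_refl e)
      have h9 := (nr_sl (fun c hc d hd => (hnone c hc).trans (hnone d hd).symm) _).mp h8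
      rw [himg] at h9
      have h10 : BFR S S (Cl σ S F₁ y₁ ∩ D.A) (Cl σ S F₁ y₁)
          (α + Ordinal.omega0 + 1 + Ordinal.omega0) ∅ := by
        have h11 := (hD.cloC y₁ hy₁A F₁ _ hα2).bfr (F := (∅ : Set M)) finite_empty
          (empty_subset _)
        rw [inter_comm]
        exact (BFR.anti (empty_subset _) h11).symm fun a ha => absurd ha (notMem_empty a)
      have h12 := h9.congr (hα1.trans hlam.lt) h10
      exact hnsl' (h12.mono (le_self_add.trans (le_max_left _ _)))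
  · rintro v ⟨hv1, hv2⟩
    obtain ⟨F, hF, hvF⟩ := hv2
    obtain ⟨F₁, hF₁A, hF₁⟩ := hD.par (el y) hyA F
    rw [← hF₁] at hF hvF
    obtain ⟨G, -, hG⟩ := nr_real hL hC hD hR (tfa_bp hy) hF₁A (fun x hx => by
      rw [hy] at hx
      exact absurd hx.symm (Option.some_ne_none x))
    rw [hty] at hG
    obtain ⟨hnone, himg⟩ := tfa_img hC hD hR hyR (cl_sub_tm hF) hG
    refine ⟨G, ?_, ?_⟩
    · rw [tfa_nr_lt hnone, himg, tfa_lt hlam le_rfl (hD.cloC (el y) hyA F₁)]
      exact hD.tame (el y) hyA F₁ hF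
    · refine (hG v).mpr ?_
      rw [((th_mem hD hR v).2.2 hv1).1]
      exact hvF

theorem lt_none (hL : Ar2 L) (hS : VSt K δ S) (hC : Cx σ S) {D : RD M}
    {b lam om' : Ordinal.{0}} {ζ : ℕ → Ordinal.{0}} {idx : M → ℕ} (hD : D.Ok σ S b lam)
    (hT : D.Th σ S lam om' ζ idx) {R : Set M} (hR : R ⊆ D.R₀) {y : NR D σ S R}
    (hy : ix y = none) (hyR : ∀ x ∈ R, el y ∉ Tm σ S x) {κ : Ordinal.{0}} (hκ : Gd κ)
    (hκl : κ ≤ lam) :
    Lt (nrS D σ S R) (Tl σ (nrS D σ S R) lam y) κ ↔ Lt S (Tm σ S (el y)) κ := by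
  have hty : th y = el y := ((th_mem hD hR y).2.2 hy).1
  have hyA : el y ∈ D.A := by rw [← hty]; exact (th_mem hD hR y).1
  have hX : ∀ c, c ∈ Tl σ (nrS D σ S R) lam y ↔ th c ∈ Tm σ S (el y) := by
    intro c
    rw [tl_none hL hS hC hD hT hR hy hyR]
    constructor
    · rintro ⟨h1, h2⟩
      rw [((th_mem hD hR c).2.2 h1).1]
      exact h2
    · intro h1
      have h2 := tfa_none hC hD hR hyR h1
      refine ⟨h2, ?_⟩
      rw [← ((th_mem hD hR c).2.2 h2).1]
      exact h1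
  obtain ⟨hnone, himg⟩ := tfa_img hC hD hR hyR (Subset.refl _) hX
  rw [tfa_nr_lt hnone, himg, tfa_lt hκ hκl (hD.cloT (el y) hyA)]

end Pool.Agent.MON

end

/-! ### formerly `Pool.Agent.MON.TFb` -/

section

/-!
# MON, module TFb: maximal tame classes of the new structure, replaced classes

`th y ∈ Tm x₀`, `x₀ ∈ R`. Take a tame cluster `C = Cl F x₀` containing `th y` and `P = Cl (D.F x₀) x₀` (nested clusters of `x₀`; `tm_dir`), `F ⊆ A`: if `C = P` take
`F = D.F x₀` (`RD.Ok.nin`), otherwise `RD.Ok.par`; `x₀ ∉ F` because `C` has more than one element (`Cx.cl_of_mem`), so `F` is disjoint from `C`. Let `e₀` be the base point of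
index `x₀` (`RD.Ok.part`). `nr_real`: `G` with `Cl G e₀ = {c | th c ∈ C} ∋ y`, level below `lam` (`clv`); so it is contained in `Tl y`, and it contains `N₀ = {c | ix c = some x₀}`. If `Tl y` had a level `α < om'`:
`N₀` is a cluster of `e₀` (`nr_part`), `sl_sub` in the new structure (`nr_cx`), `Sb.sl`, `nr_sl`, `nr_part_el`: `SL S (Cl (F' x₀) (t x₀) ∩ A) (α + ω + 1)`, so (`RD.Ok.cloC`, `Clo.bfr`, `SL.congr`) a level of
`Cl (F' x₀) (t x₀)` below `om'`, contradiction with `RD.Th.new`.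
-/

set_option autoImplicit false
set_option linter.unusedSectionVars false
set_option linter.unusedVariables false

namespace Pool.Agent.MON

open Set Pool.Agent.Helper5 Pool.Agent.Helper5.DU Pool.Agent.Helper6.Str
  Pool.Agent.Helper79.VC Pool.Agent.Helper97.VC Pool.Agent.Helper97.MD Pool.Agent.Helper6.VC
  Pool.Agent.Helper97.LO

open scoped Classical

variable {L : FirstOrder.Language.{0, 0}} {M N : Type} {σ : Sig L} {S : L.Structure M}
variable [∀ n, IsEmpty (L.Functions n)] [∀ n, Countable (L.Relations n)]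
  {K : Set (L.Structure ℕ)} {δ : Ordinal.{0}}

/-- a tame cluster which contains a given point of `Tm x₀` and the replaced cluster -/
theorem tfb_par (hC : Cx σ S) {D : RD M} {b lam : Ordinal.{0}} (hD : D.Ok σ S b lam) {x₀ : M}
    (hx : x₀ ∈ D.R₀) {v : M} (hv : v ∈ Tm σ S x₀) :
    ∃ F : Finset M, (F : Set M) ⊆ D.A ∧ x₀ ∉ F ∧ TT S (Cl σ S F x₀) ∧
      Cl σ S (D.F x₀) x₀ ⊆ Cl σ S F x₀ ∧ v ∈ Cl σ S F x₀ := by
  obtain ⟨F₁, h1, h2⟩ := hv
  have h0 : ∀ w ∈ Cl σ S (D.F x₀) x₀, ∃ F : Finset M, (F : Set M) ⊆ D.A ∧ x₀ ∉ F ∧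
      TT S (Cl σ S F x₀) ∧ Cl σ S (D.F x₀) x₀ ⊆ Cl σ S F x₀ ∧ w ∈ Cl σ S F x₀ := fun w hw =>
    ⟨D.F x₀, hD.parF x₀ hx, hD.nin x₀ hx, hD.tt x₀ hx, Subset.rfl, hw⟩
  rcases hC.nest (cl_refl (σ := σ) (S := S) (F := D.F x₀) x₀) (cl_refl (F := F₁) x₀) with h3 | h3
  · obtain ⟨F₂, h4, h5⟩ := hD.par x₀ (hD.sub hx) F₁
    by_cases h6 : x₀ ∈ F₂
    · have h7 : Cl σ S F₁ x₀ = {x₀} := by
        rw [← h5]
        exact hC.cl_of_mem h6
      refine h0 v ?_
      rw [h7, mem_singleton_iff] at h2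
      rw [h2]
      exact cl_refl x₀
    · refine ⟨F₂, h4, h6, ?_, ?_, ?_⟩
      · rw [h5]
        exact h1
      · rw [h5]
        exact h3
      · rw [h5]
        exact h2
  · exact h0 v (h3 h2)

theorem not_lt_rep (hL : Ar2 L) (hS : VSt K δ S) (hC : Cx σ S) {D : RD M}
    {b lam om' : Ordinal.{0}} {ζ : ℕ → Ordinal.{0}} {idx : M → ℕ} (hD : D.Ok σ S b lam)
    (hT : D.Th σ S lam om' ζ idx) {R : Set M} (hR : R ⊆ D.R₀) {y : NR D σ S R} {x₀ : M}
    (hx : x₀ ∈ R) (hy : th y ∈ Tm σ S x₀) :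
    ¬ Lt (nrS D σ S R) (Tl σ (nrS D σ S R) lam y) om' := by
  have hC' : Cx σ (nrS D σ S R) := nr_cx hL hC hD hR
  obtain ⟨F, hF, hxF, ht, hP, hyF⟩ := tfb_par hC hD (hR hx) hy
  let e₀ : NR D σ S R := ⟨(some x₀, D.t x₀), Or.inr ⟨x₀, hx, rfl, hD.part x₀ (hR hx),
    cl_refl _⟩⟩
  have he : ix e₀ = some x₀ := rfl
  have he' : el e₀ = D.t x₀ := rfl
  have hth : th e₀ = x₀ := hD.ux x₀ (hR hx)
  have hnot : ∀ w ∈ F, w ∉ Cl σ S F x₀ := fun w hw => hC.not_mem_cl hw (by
    rintro rfl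
    exact hxF hw)
  obtain ⟨G, -, hG⟩ := nr_real hL hC hD hR (y := e₀) (Or.inr ⟨x₀, he, he'⟩) hF (by
    intro x hxx w hw hwP
    rw [he] at hxx
    obtain rfl : x₀ = x := Option.some.inj hxx
    exact hnot w hw (hP hwP))
  rw [hth] at hG
  have hX : Cl σ (nrS D σ S R) G e₀ = {c | th c ∈ Cl σ S F x₀} := by
    ext c
    exact hG c
  have hlt : Lt (nrS D σ S R) (Cl σ (nrS D σ S R) G e₀) lam := by
    rw [hX]
    exact clv hL hS hC hD hR hx ht hP
  have hyX : y ∈ Cl σ (nrS D σ S R) G e₀ := (hG y).2 hyF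
  have hsub : Cl σ (nrS D σ S R) G e₀ ⊆ Tl σ (nrS D σ S R) lam y := by
    intro v hv
    refine ⟨G, ?_, ?_⟩
    · rw [hC'.cl_eq hyX]
      exact hlt
    · rw [hC'.cl_eq hyX]
      exact hv
  rintro ⟨α, hα, hSL⟩
  obtain ⟨G', hG'⟩ := nr_part hL hC hD hR hx he he'
  have hN : Cl σ (nrS D σ S R) G' e₀ ⊆ Tl σ (nrS D σ S R) lam y := by
    intro c hc
    rw [hG'] at hc
    refine hsub ((hG c).2 (hP ((th_mem hD hR c).2.1 x₀ hc)))
  have hα1 : α < om1 := hα.trans (hT.lt.trans hD.gd.lt)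
  have h1 := (sl_sub hL hC' hN hSL).sl hα1 (cl_refl e₀)
  rw [hG', nr_sl (fun c hc d hd => by
    rw [mem_setOf_eq] at hc hd
    rw [hc, hd]), nr_part_el hx] at h1
  have hone : (1 : Ordinal.{0}) < om' := Ordinal.one_lt_omega0.trans hT.gd'.om
  have hβ : α + Ordinal.omega0 + 1 < om' :=
    hT.gd'.add _ (hT.gd'.add α hα _ hT.gd'.om) _ hone
  have hβ2 : α + Ordinal.omega0 + 1 + Ordinal.omega0 < lam :=
    (hT.gd'.add _ hβ _ hT.gd'.om).trans hT.lt
  have h2 := (hD.cloC (D.t x₀) (hD.part x₀ (hR hx)) (D.F' x₀) _ hβ2).bfr finite_empty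
    (empty_subset _)
  have h3 : BFR S S (Cl σ S (D.F' x₀) (D.t x₀) ∩ D.A) (Cl σ S (D.F' x₀) (D.t x₀))
      (α + Ordinal.omega0 + 1 + Ordinal.omega0) ∅ := by
    rw [inter_comm]
    exact h2.symm fun a ha => absurd ha (notMem_empty a)
  exact hT.new x₀ (hR hx) ⟨_, hβ, h1.congr (hβ.trans (hT.lt.trans hD.gd.lt)) h3⟩

end Pool.Agent.MON

end

/-! ### formerly `Pool.Agent.MON.DEC` -/

section

/-!
# MON, module DEC: decoding in case B

`qb_iff`, `R = Rf D idx f`. ⇐: `f n = true`; `y₀ ∈ A` with the level of `Tm y₀` in the `n`-th interval (`RD.Th.ex`); `RD.Th.all`: `x ∈ R₀`, `y₀ ∈ Tm x`, `idx x = n`, `x ∉ R`. If `y₀ ∈ Tm x'`, `x' ∈ R`,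
then `Tm x = Tm x'`, `x = x'` (`RD.Ok.sep`), contradiction. So `y₀` gives an element of index `none` (`Cl (F x') x' ⊆ Tm x'`), and `lt_none`. ⇒: let `y` be as in `QB`. If `th y ∈ Tm x` for some `x ∈ R`: `not_lt_rep` contradicts `Lt (ζ (n + 1))`,
`ζ (n + 1) ≤ om'`. So `y` has index `none` (`th_mem`), `lt_none`, `RD.Th.all`: `x ∈ R₀` with `el y ∈ Tm x`, `idx x = n`; if `f n = false` then `x ∈ R`, contradiction.
`qb_congr`: `γ` at least `lam + ω + ω`. For images `v ↦ v'`, `y ↦ y'` of level `lam + ω`: `v ∈ Tl y ↔ v' ∈ Tl y'` (choose images of `F`, `cl_congr`, `resC1`, `SL.lt_congr`); restrict to `Tl` (`BFR.restr`), `SL.lt_congr` with `ζ n`.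
-/

set_option autoImplicit false
set_option linter.unusedSectionVars false
set_option linter.unusedVariables false

namespace Pool.Agent.MON

open Set Pool.Agent.Helper5 Pool.Agent.Helper5.DU Pool.Agent.Helper6.Str
  Pool.Agent.Helper79.VC Pool.Agent.Helper97.VC Pool.Agent.Helper97.MD Pool.Agent.Helper6.VC
  Pool.Agent.Helper97.LO

open scoped Classical

variable {L : FirstOrder.Language.{0, 0}} {M N : Type} {σ : Sig L} {S : L.Structure M}
variable [∀ n, IsEmpty (L.Functions n)] [∀ n, Countable (L.Relations n)]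
  {K : Set (L.Structure ℕ)} {δ : Ordinal.{0}}

theorem dec_lt_mono {X : Set M} {κ κ' : Ordinal.{0}} (h : Lt S X κ) (hκ : κ ≤ κ') :
    Lt S X κ' := by
  obtain ⟨α, hα, h1⟩ := h
  exact ⟨α, hα.trans_le hκ, h1⟩

theorem qb_iff (hL : Ar2 L) (hS : VSt K δ S) (hC : Cx σ S) {D : RD M}
    {b lam om' : Ordinal.{0}} {ζ : ℕ → Ordinal.{0}} {idx : M → ℕ} (hD : D.Ok σ S b lam)
    (hT : D.Th σ S lam om' ζ idx) (f : ℕ → Bool) (n : ℕ) :
    QB σ (nrS D σ S (Rf D idx f)) lam ζ n ↔ f n = true := by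
  have hR : Rf D idx f ⊆ D.R₀ := fun x hx => hx.1
  have hle : ∀ m, ζ m ≤ lam := fun m => (hT.le m).trans hT.lt.le
  constructor
  · rintro ⟨y, hy1, hy2⟩
    have h1 : ∀ x ∈ Rf D idx f, th y ∉ Tm σ S x := by
      intro x hx hxy
      exact not_lt_rep hL hS hC hD hT hR hx hxy (dec_lt_mono hy2 (hT.le _))
    have h2 : ix y = none := by
      rcases y.2 with h | ⟨x, hx, h3, -⟩
      · exact h.1
      · exfalso
        exact h1 x hx (cl_sub_tm (hD.tt x (hR hx)) ((th_mem hD hR y).2.1 x h3))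
    have h3 : th y = el y := ((th_mem hD hR y).2.2 h2).1
    have h4 : ∀ x ∈ Rf D idx f, el y ∉ Tm σ S x := by
      intro x hx
      rw [← h3]
      exact h1 x hx
    have h5 : el y ∈ D.A := by
      rw [← h3]
      exact (th_mem hD hR y).1
    rw [lt_none hL hS hC hD hT hR h2 h4 (hT.gd n) (hle n)] at hy1
    rw [lt_none hL hS hC hD hT hR h2 h4 (hT.gd (n + 1)) (hle (n + 1))] at hy2
    obtain ⟨x, hx, hxy, hxn⟩ := hT.all _ h5 n hy1 hy2
    by_contra hf
    rw [Bool.not_eq_true] at hf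
    refine h4 x ⟨hx, ?_⟩ hxy
    rw [hxn]
    exact hf
  · intro hf
    obtain ⟨y₀, hy₀, h1, h2⟩ := hT.ex n
    obtain ⟨x, hx, hxy, hxn⟩ := hT.all y₀ hy₀ n h1 h2
    have h3 : ∀ x' ∈ Rf D idx f, y₀ ∉ Tm σ S x' := by
      intro x' hx' h4
      have h5 : Tm σ S x = Tm σ S x' := (tm_eq hC hxy).symm.trans (tm_eq hC h4)
      have h6 : x' ∈ Tm σ S x := by
        rw [h5]
        exact tm_refl hC x'
      by_cases h7 : x = x'
      · subst h7
        have h8 := hx'.2
        rw [hxn, hf] at h8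
        exact Bool.noConfusion h8
      · exact hD.sep x hx x' (hR hx') h7 h6
    let y : NR D σ S (Rf D idx f) := ⟨(none, y₀), Or.inl ⟨rfl, hy₀, fun x' hx' h4 =>
      h3 x' hx' (cl_sub_tm (hD.tt x' (hR hx')) h4)⟩⟩
    have hy : ix y = none := rfl
    have hy' : ∀ x ∈ Rf D idx f, el y ∉ Tm σ S x := h3
    refine ⟨y, ?_, ?_⟩
    · rw [lt_none hL hS hC hD hT hR hy hy' (hT.gd n) (hle n)]
      exact h1
    · rw [lt_none hL hS hC hD hT hR hy hy' (hT.gd (n + 1)) (hle (n + 1))]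
      exact h2

theorem dec_gd {κ : Ordinal.{0}} (h : Gd κ) : ∀ α < κ, α + Ordinal.omega0 < κ :=
  fun α hα => h.add α hα _ h.om

/-- membership in `Tl` -/
theorem dec_tl {M N : Type} {S : L.Structure M} {S' : L.Structure N} {lam : Ordinal.{0}}
    (hlam : Gd lam) {y v : M} {y' v' : N}
    (h : BFR S S' univ univ (lam + Ordinal.omega0) {(v, v'), (y, y')})
    (hv : v ∈ Tl σ S lam y) : v' ∈ Tl σ S' lam y' := by
  classical
  obtain ⟨F, hF, hvF⟩ := hv
  let e := F.equivFin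
  have h1 : BFR S S' univ univ (lam + ((F.card : ℕ) : Ordinal.{0})) {(v, v'), (y, y')} := by
    refine h.mono ?_
    gcongr
    exact (Ordinal.natCast_lt_omega0 _).le
  obtain ⟨g, -, h2⟩ := BFR.forth_many _ h1 (fun i => ((e.symm i : F) : M)) fun i => mem_univ _
  have hMt : Mt ({(v, v'), (y, y')} ∪ range fun i => (((e.symm i : F) : M), g i)) F
      (Finset.univ.image g) := by
    constructor
    · intro x hx
      refine ⟨g (e ⟨x, hx⟩), Finset.mem_image_of_mem _ (Finset.mem_univ _), Or.inr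
        ⟨e ⟨x, hx⟩, ?_⟩⟩
      simp
    · intro z hz
      obtain ⟨i, -, rfl⟩ := Finset.mem_image.1 hz
      exact ⟨((e.symm i : F) : M), (e.symm i).2, Or.inr ⟨i, rfl⟩⟩
  have hy : (y, y') ∈ ({(v, v'), (y, y')} : Set (M × N)) ∪
      range fun i => (((e.symm i : F) : M), g i) := Or.inl (Or.inr rfl)
  have hv : (v, v') ∈ ({(v, v'), (y, y')} : Set (M × N)) ∪
      range fun i => (((e.symm i : F) : M), g i) := Or.inl (Or.inl rfl)
  have h3 := (resC1 (σ := σ) hMt hy h2).1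
  rw [univ_inter, univ_inter] at h3
  have h4 := BFR.anti (empty_subset _) h3
  refine ⟨Finset.univ.image g, ?_, (cl_congr h2.atEq hMt hy hv).1 hvF⟩
  exact (SL.lt_congr hlam.lt.le (dec_gd hlam) h4).1 hF

theorem qb_congr {S' : L.Structure N} {lam : Ordinal.{0}} (hlam : Gd lam)
    {ζ : ℕ → Ordinal.{0}} (hζ : ∀ n, Gd (ζ n)) (hle : ∀ n, ζ n ≤ lam) {γ : Ordinal.{0}}
    (hγ : lam + Ordinal.omega0 + lam + Ordinal.omega0 ≤ γ) (h : BFR S S' univ univ γ ∅) {n : ℕ}
    (hq : QB σ S lam ζ n) : QB σ S' lam ζ n := by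
  obtain ⟨y, hy1, hy2⟩ := hq
  have hlt : lam + Ordinal.omega0 + lam < γ :=
    lt_of_lt_of_le (lt_add_of_pos_right _ Ordinal.omega0_pos) hγ
  obtain ⟨y', -, h1⟩ := h.forth hlt (mem_univ y)
  have h2 : BFR S S' (Tl σ S lam y) (Tl σ S' lam y') lam (insert (y, y') ∅) := by
    refine BFR.restr (subset_univ _) (subset_univ _) (lam + Ordinal.omega0) lam ?_ h1
    intro v _ v' _ hv
    constructor
    · exact dec_tl hlam (BFR.anti (by
        rintro a (rfl | rfl)
        · exact mem_insert _ _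
        · exact mem_insert_of_mem _ (mem_insert _ _)) hv)
    · exact dec_tl hlam (hv.symm (by
        rintro a (rfl | rfl)
        · exact mem_insert _ _
        · exact mem_insert_of_mem _ (mem_insert _ _)))
  have h3 : ∀ m, Lt S (Tl σ S lam y) (ζ m) ↔ Lt S' (Tl σ S' lam y') (ζ m) := fun m =>
    SL.lt_congr (hζ m).lt.le (dec_gd (hζ m)) ((BFR.anti (empty_subset _) h2).mono (hle m))
  exact ⟨y', fun h4 => hy1 ((h3 n).2 h4), (h3 (n + 1)).1 hy2⟩

end Pool.Agent.MON

end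

/-! ### formerly `Pool.Agent.MON.BCL` -/

section

/-!
# MON, module BCL: replacements

For every `n` let `κ n` be the `VSt.code` at level `b` for `n + 1`-tuples (`x`, enumeration of `F`), `n` the number of elements of `F`. A pair
`(n, k)` is bounded if there is `a < om1` such that `SL S (Cl σ S F x) a` for all `F`, `x` with code `(n, k)` and `Cl σ S F x` tame. Let `z` be
a bound of the countably many chosen bounds `a` (`exists_bound`). If `Cl F x` is tame and not of level `z` then its pair is not bounded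
(`SL.mono`), so there are `F'`, `x'` with the same code, tame, not of level `ζ`; `p` = the pairs of the two enumerations.
-/

set_option autoImplicit false
set_option linter.unusedSectionVars false
set_option linter.unusedVariables false

namespace Pool.Agent.MON

open Set Pool.Agent.Helper5 Pool.Agent.Helper5.DU Pool.Agent.Helper6.Str
  Pool.Agent.Helper79.VC Pool.Agent.Helper97.VC Pool.Agent.Helper97.MD Pool.Agent.Helper6.VC
  Pool.Agent.Helper97.LO

variable {L : FirstOrder.Language.{0, 0}} {M N : Type} {σ : Sig L} {S : L.Structure M}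
variable [∀ n, IsEmpty (L.Functions n)] [∀ n, Countable (L.Relations n)]
  {K : Set (L.Structure ℕ)} {δ : Ordinal.{0}}

/-- the enumeration of a finite set -/
noncomputable def bcl_e {M : Type} (F : Finset M) {n : ℕ} (h : F.card = n) (i : Fin n) : M :=
  ((F.equivFinOfCardEq h).symm i).1

theorem bcl_e_mem {M : Type} (F : Finset M) {n : ℕ} (h : F.card = n) (i : Fin n) :
    bcl_e F h i ∈ F := ((F.equivFinOfCardEq h).symm i).2

theorem bcl_e_surj {M : Type} (F : Finset M) {n : ℕ} (h : F.card = n) (y : M) (hy : y ∈ F) :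
    ∃ i, bcl_e F h i = y :=
  ⟨F.equivFinOfCardEq h ⟨y, hy⟩, by simp [bcl_e]⟩

theorem bcl (hS : VSt K δ S) {b : Ordinal.{0}} (hb : b < om1) :
    ∃ z < om1, ∀ (F : Finset M) (x : M), TT S (Cl σ S F x) → ¬ SL S (Cl σ S F x) z →
      ∀ ζ < om1, ∃ (F' : Finset M) (x' : M) (p : Set (M × M)), Mt p F' F ∧ (x', x) ∈ p ∧
        BFR S S univ univ b p ∧ TT S (Cl σ S F' x') ∧ ¬ SL S (Cl σ S F' x') ζ := by
  classical
  choose κ hκ using fun n : ℕ => hS.code hb (n + 1)
  let cd : Finset M → M → ℕ × ℕ := fun F x =>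
    (F.card, κ F.card (Fin.cons x (bcl_e F (rfl : F.card = F.card))))
  let B : ℕ × ℕ → Prop := fun c => ∃ a < om1, ∀ F x, cd F x = c → TT S (Cl σ S F x) →
    SL S (Cl σ S F x) a
  let f : ℕ × ℕ → Ordinal.{0} := fun c => if h : B c then h.choose else 0
  have hf : ∀ c, f c < om1 := by
    intro c
    by_cases h : B c
    · simp only [f, dif_pos h]
      exact h.choose_spec.1
    · simp only [f, dif_neg h]
      exact Ordinal.omega_pos 1
  obtain ⟨z, hz, hfz⟩ := exists_bound hf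
  refine ⟨z, hz, fun F x hT hn ζ hζ => ?_⟩
  have hB : ¬ B (cd F x) := by
    intro h
    apply hn
    have h1 := h.choose_spec.2 F x rfl hT
    have h2 : f (cd F x) = h.choose := by simp only [f, dif_pos h]
    exact h1.mono (h2 ▸ hfz (cd F x))
  have h3 : ∃ F' x', cd F' x' = cd F x ∧ TT S (Cl σ S F' x') ∧ ¬ SL S (Cl σ S F' x') ζ := by
    by_contra hcon
    apply hB
    refine ⟨ζ, hζ, fun F' x' h4 h5 => ?_⟩
    by_contra h6
    exact hcon ⟨F', x', h4, h5, h6⟩
  obtain ⟨F', x', hcd, hT', hn'⟩ := h3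
  have hcard : F'.card = F.card := congrArg Prod.fst hcd
  have hcode : κ F.card (Fin.cons x' (bcl_e F' hcard)) =
      κ F.card (Fin.cons x (bcl_e F (rfl : F.card = F.card))) := by
    have h4 : ∀ n (h : F'.card = n), κ F'.card (Fin.cons x' (bcl_e F' rfl)) =
        κ n (Fin.cons x' (bcl_e F' h)) := by
      intro n h
      subst h
      rfl
    rw [← h4]
    exact congrArg Prod.snd hcd
  have hb' := hκ F.card _ _ hcode
  refine ⟨F', x', pr (Fin.cons x' (bcl_e F' hcard) : Fin (F.card + 1) → M)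
    (Fin.cons x (bcl_e F (rfl : F.card = F.card)) : Fin (F.card + 1) → M),
    ⟨fun y hy => ?_, fun y hy => ?_⟩, ⟨0, rfl⟩, hb', hT', hn'⟩
  · obtain ⟨i, hi⟩ := bcl_e_surj F' hcard y hy
    exact ⟨bcl_e F rfl i, bcl_e_mem F rfl i, ⟨i.succ, by rw [← hi]; rfl⟩⟩
  · obtain ⟨i, hi⟩ := bcl_e_surj F rfl y hy
    exact ⟨bcl_e F' hcard i, bcl_e_mem F' hcard i, ⟨i.succ, by rw [← hi]; rfl⟩⟩

end Pool.Agent.MON

end

/-! ### formerly `Pool.Agent.MON.BDa` -/

section

/-!
# MON, module BDa: thresholds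

`exists_gd`: iterate `x ↦ ` a bound of sums, or use `exists_pair` with trivial `f`, `h` (it gives `lam` closed under addition).
`tm_unb`: a wild cluster contains a tame cluster `Cl F' y` which is not of level `a + ω + 1` (`Unb`); if `Lt (Tm y) a` then
`sl_sub` and `Sb.sl` (`cl_sub_tm`) give the level `a + ω + 1` for `Cl F' y`, contradiction.
`exists_thr`: recursion on `n`: `ζ n` given, `y n` by `tm_unb`, a level of `Tm (y n)` by `tm_tt`, `dfb_tm`, `sl_of_tt`, then `ζ (n + 1)` by `exists_gd`;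
`om'`: `exists_bound` and `exists_gd`.
`exists_base`: otherwise all tame clusters of `x` have level `z`, so by `sl_chain` (`tm_dir`) and `Sb.sl` `Tm x` has the level `z + ω + 1 < ζ₀`.
-/

set_option autoImplicit false
set_option linter.unusedSectionVars false
set_option linter.unusedVariables false

namespace Pool.Agent.MON

open Set Pool.Agent.Helper5 Pool.Agent.Helper5.DU Pool.Agent.Helper6.Str
  Pool.Agent.Helper79.VC Pool.Agent.Helper97.VC Pool.Agent.Helper97.MD Pool.Agent.Helper6.VC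
  Pool.Agent.Helper97.LO

variable {L : FirstOrder.Language.{0, 0}} {M N : Type} {σ : Sig L} {S : L.Structure M}
variable [∀ n, IsEmpty (L.Functions n)] [∀ n, Countable (L.Relations n)]
  {K : Set (L.Structure ℕ)} {δ : Ordinal.{0}}

/-- wild clusters have tame subclusters of arbitrarily large levels -/
def Unb (σ : Sig L) (S : L.Structure M) : Prop :=
  ∀ (F : Finset M) (x : M), ¬ TT S (Cl σ S F x) → ∀ a < om1, ∃ (F' : Finset M) (x' : M),
    Cl σ S F' x' ⊆ Cl σ S F x ∧ TT S (Cl σ S F' x') ∧ ¬ SL S (Cl σ S F' x') a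

theorem exists_gd {a : Ordinal.{0}} (ha : a < om1) : ∃ b, a < b ∧ Gd b := by
  obtain ⟨A, lam, -, -, h1, h2, h3, -⟩ := exists_pair (M := Empty) (fun _ _ => ∅)
    (fun _ _ _ => countable_empty) (fun _ _ => 0) (fun _ _ _ => Ordinal.omega_pos 1)
    (A₀ := ∅) countable_empty (max_lt ha omega_lt_om1)
  exact ⟨lam, (le_max_left _ _).trans_lt h1, (le_max_right _ _).trans_lt h1, h2, h3⟩

theorem tm_unb (hL : Ar2 L) (hS : VSt K δ S) (hC : Cx σ S) (hU : Unb σ S)
    (hw : ∃ (F : Finset M) (x : M), ¬ TT S (Cl σ S F x)) {a : Ordinal.{0}} (ha : a < om1) :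
    ∃ y, ¬ Lt S (Tm σ S y) a := by
  obtain ⟨F, x, hF⟩ := hw
  obtain ⟨F', y, -, h2, h3⟩ := hU F x hF (a + Ordinal.omega0 + 1)
    (add_one_lt_om1 (add_lt_om1 ha omega_lt_om1))
  refine ⟨y, ?_⟩
  rintro ⟨α, hα, h4⟩
  have h5 := (sl_sub hL hC (cl_sub_tm h2) h4).sl (hα.trans ha) (cl_refl y)
  refine h3 (h5.mono ?_)
  gcongr

theorem exists_thr (hL : Ar2 L) (hS : VSt K δ S) (hC : Cx σ S) (hU : Unb σ S)
    (hw : ∃ (F : Finset M) (x : M), ¬ TT S (Cl σ S F x)) {z : Ordinal.{0}} (hz : z < om1) :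
    ∃ (ζ : ℕ → Ordinal.{0}) (om' : Ordinal.{0}) (y : ℕ → M), (∀ n, Gd (ζ n)) ∧
      (∀ n, ζ n < ζ (n + 1)) ∧ (∀ n, ζ n ≤ om') ∧ Gd om' ∧ z < ζ 0 ∧
      ∀ n, ¬ Lt S (Tm σ S (y n)) (ζ n) ∧ Lt S (Tm σ S (y n)) (ζ (n + 1)) := by
  have hstep : ∀ a : {a : Ordinal.{0} // Gd a}, ∃ (b : {a : Ordinal.{0} // Gd a}) (y : M),
      a.1 < b.1 ∧ ¬ Lt S (Tm σ S y) a.1 ∧ Lt S (Tm σ S y) b.1 := by
    rintro ⟨a, ha⟩
    obtain ⟨y, hy⟩ := tm_unb hL hS hC hU hw ha.lt
    obtain ⟨α, hα, h1⟩ := sl_of_tt (dfb_tm hC y) (tm_tt hS hC y)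
    obtain ⟨b, hb, h2⟩ := exists_gd (max_lt ha.lt hα)
    exact ⟨⟨b, h2⟩, y, (le_max_left _ _).trans_lt hb, hy, α, (le_max_right _ _).trans_lt hb, h1⟩
  choose nx y h1 h2 h3 using hstep
  obtain ⟨ζ₀, h4, h5⟩ := exists_gd hz
  have hlt : ∀ n, (nx^[n] ⟨ζ₀, h5⟩).1 < (nx^[n + 1] ⟨ζ₀, h5⟩).1 := by
    intro n
    rw [Function.iterate_succ_apply']
    exact h1 _
  obtain ⟨γ, hγ, h6⟩ := exists_bound (f := fun n : ℕ => (nx^[n] ⟨ζ₀, h5⟩).1)
    (fun n => (nx^[n] ⟨ζ₀, h5⟩).2.lt)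
  obtain ⟨om', h7, h8⟩ := exists_gd hγ
  refine ⟨fun n => (nx^[n] ⟨ζ₀, h5⟩).1, om', fun n => y (nx^[n] ⟨ζ₀, h5⟩),
    fun n => (nx^[n] ⟨ζ₀, h5⟩).2, hlt, fun n => (h6 n).trans h7.le, h8, h4, fun n => ⟨h2 _, ?_⟩⟩
  show Lt S (Tm σ S (y (nx^[n] ⟨ζ₀, h5⟩))) (nx^[n + 1] ⟨ζ₀, h5⟩).1
  rw [Function.iterate_succ_apply']
  exact h3 _

theorem exists_base (hL : Ar2 L) (hS : VSt K δ S) (hC : Cx σ S) {z ζ₀ : Ordinal.{0}}
    (hζ : Gd ζ₀) (hz : z < ζ₀) {x : M} (hx : ¬ Lt S (Tm σ S x) ζ₀) :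
    ∃ F : Finset M, TT S (Cl σ S F x) ∧ ¬ SL S (Cl σ S F x) z := by
  by_contra h
  push Not at h
  have h1 : Sb S x (Tm σ S x) z := by
    refine sl_chain hL hC (tm_refl hC x) (hz.trans hζ.lt) fun G hG => ?_
    obtain ⟨F, h2, h3⟩ := tm_dir hC G hG
    exact ⟨F, h3, cl_sub_tm h2, h F h2⟩
  exact hx ⟨_, hζ.add _ (hζ.add _ hz _ hζ.om) _ (Ordinal.one_lt_omega0.trans hζ.om),
    h1.sl (hz.trans hζ.lt) (tm_refl hC x)⟩

end Pool.Agent.MON

end

/-! ### formerly `Pool.Agent.MON.BDb` -/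

section

/-!
# MON, module BDb: closed sets of case B

`exists_pair` (Helper97.LO) with `f G γ = f₀ G γ ∪ ⋃ y ∈ G, (⋃ n, (g y n ∪ ⋃ F ⊆ G, f_{y,n} F γ) ∪ ⋃ F ⊆ G, f_y F γ ∪ ⋃ n, {w y n γ} ∪ ⋃ n, {s y n})`, `g y` the
enumeration of `ctbl_cl`, `f₀` witnesses (`Small.exists_wit`) for `univ` (`VSt.small`), `f_{y,n}` for `Cl (g y n) y`, `f_y` for `Tm y` (`VSt.small_sub`, both are
definable over `y` at level `0`: `Cx.base'`, `tm_base`), `w y n γ` = the point `x'` of `Unb` for the wild cluster `Cl (g y n) y` and `a = γ` (anything if the cluster is tame); `h G γ` = a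
bound, plus one, of levels of the tame `Cl (g y n) y` (`sl_of_tt`, `dfb_cl`) and of `ℓ y`, `y ∈ G`. Compare the module CA1.
-/

set_option autoImplicit false
set_option linter.unusedSectionVars false
set_option linter.unusedVariables false

namespace Pool.Agent.MON

open Set Pool.Agent.Helper5 Pool.Agent.Helper5.DU Pool.Agent.Helper6.Str
  Pool.Agent.Helper79.VC Pool.Agent.Helper97.VC Pool.Agent.Helper97.MD Pool.Agent.Helper6.VC
  Pool.Agent.Helper97.LO

variable {L : FirstOrder.Language.{0, 0}} {M N : Type} {σ : Sig L} {S : L.Structure M}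
variable [∀ n, IsEmpty (L.Functions n)] [∀ n, Countable (L.Relations n)]
  {K : Set (L.Structure ℕ)} {δ : Ordinal.{0}}

/-- closed pairs -/
structure RCl (σ : Sig L) (S : L.Structure M) (A : Set M) (lam : Ordinal.{0}) : Prop where
  ctbl : A.Countable
  gd : Gd lam
  clo : ∀ γ < lam, Clo S univ γ A
  cloC : ∀ y ∈ A, ∀ F, ∀ γ < lam, Clo S (Cl σ S F y) γ A
  cloT : ∀ y ∈ A, ∀ γ < lam, Clo S (Tm σ S y) γ A
  par : ∀ y ∈ A, ∀ F, ∃ F₁ : Finset M, (F₁ : Set M) ⊆ A ∧ Cl σ S F₁ y = Cl σ S F y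
  tame : ∀ y ∈ A, ∀ F, TT S (Cl σ S F y) → Lt S (Cl σ S F y) lam
  wild : ∀ y ∈ A, ∀ F, ¬ TT S (Cl σ S F y) → ∀ ξ < lam, ∃ F₁ y₁, y₁ ∈ A ∧
    Cl σ S F₁ y₁ ⊆ Cl σ S F y ∧ TT S (Cl σ S F₁ y₁) ∧ ¬ SL S (Cl σ S F₁ y₁) ξ

theorem exists_rcl (hS : VSt K δ S) (hC : Cx σ S) (hU : Unb σ S) {A₀ : Set M}
    (hA₀ : A₀.Countable) {μ : Ordinal.{0}} (hμ : μ < om1) (s : M → ℕ → M) (ℓ : M → Ordinal.{0})
    (hℓ : ∀ x, ℓ x < om1) : ∃ (A : Set M) (lam : Ordinal.{0}), RCl σ S A lam ∧ A₀ ⊆ A ∧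
      μ < lam ∧ (∀ x ∈ A, ∀ n, s x n ∈ A) ∧ ∀ x ∈ A, ℓ x < lam := by
  classical
  have hg := fun y => ctbl_cl hS hC y
  choose g hg using hg
  obtain ⟨f0, hf0, -, hf0'⟩ := hS.small.exists_wit
  have hsc : ∀ y n, Small S (Cl σ S (g y n) y) := fun y n =>
    hS.small_sub {y} zero_lt_om1 fun c c' h =>
      (hC.base' h.atEq (mem_insert_of_mem _ ⟨y, by simp, rfl⟩) (mem_insert _ _)).1
  have hst : ∀ y, Small S (Tm σ S y) := fun y =>
    hS.small_sub {y} zero_lt_om1 fun c c' h =>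
      tm_base hC h.atEq (mem_insert_of_mem _ ⟨y, by simp, rfl⟩) (mem_insert _ _)
  have hc := fun y n => (hsc y n).exists_wit
  choose fc hfc _ hfc' using hc
  have ht := fun y => (hst y).exists_wit
  choose ft hft _ hft' using ht
  have hβ : ∀ (y : M) (n : ℕ), ∃ β < om1, TT S (Cl σ S (g y n) y) → SL S (Cl σ S (g y n) y) β := by
    intro y n
    by_cases h : TT S (Cl σ S (g y n) y)
    · obtain ⟨β, h1, h2⟩ := sl_of_tt (dfb_cl hC _ _) h
      exact ⟨β, h1, fun _ => h2⟩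
    · exact ⟨0, zero_lt_om1, fun h' => absurd h' h⟩
  choose β hβ1 hβ2 using hβ
  have hw : ∀ (y : M) (n : ℕ) (γ : Ordinal.{0}), ∃ x' : M, ¬ TT S (Cl σ S (g y n) y) → γ < om1 →
      ∃ F' : Finset M, Cl σ S F' x' ⊆ Cl σ S (g y n) y ∧ TT S (Cl σ S F' x') ∧
        ¬ SL S (Cl σ S F' x') γ := by
    intro y n γ
    by_cases h : ¬ TT S (Cl σ S (g y n) y) ∧ γ < om1
    · obtain ⟨F', x', h1, h2, h3⟩ := hU (g y n) y h.1 γ h.2
      exact ⟨x', fun _ _ => ⟨F', h1, h2, h3⟩⟩
    · exact ⟨y, fun h1 h2 => absurd ⟨h1, h2⟩ h⟩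
  choose w hw using hw
  have hh : ∀ F : Finset M, ∃ γ < om1, (∀ y ∈ F, ∀ n, β y n ≤ γ) ∧ ∀ y ∈ F, ℓ y ≤ γ := by
    intro F
    obtain ⟨γ, h1, h2⟩ := exists_bound (ι := F × ℕ) (f := fun p => β p.1.1 p.2)
      (fun p => hβ1 _ _)
    obtain ⟨γ', h1', h2'⟩ := exists_bound (ι := F) (f := fun p => ℓ p.1) (fun p => hℓ _)
    exact ⟨max γ γ', max_lt h1 h1', fun y hy n => (h2 ⟨⟨y, hy⟩, n⟩).trans (le_max_left _ _),
      fun y hy => (h2' ⟨y, hy⟩).trans (le_max_right _ _)⟩
  choose hb hb1 hb2 hb3 using hh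
  let P : M → Finset M → Ordinal.{0} → Set M := fun y G γ =>
    ((⋃ n, ((g y n : Set M) ∪ ⋃ F ∈ G.powerset, fc y n F γ)) ∪ ⋃ F ∈ G.powerset, ft y F γ) ∪
      (range (fun n => w y n γ) ∪ range (s y))
  have hPc : ∀ y G γ, (P y G γ).Countable := by
    intro y G γ
    refine Countable.union (Countable.union (countable_iUnion fun n => ?_)
      ((G.powerset.finite_toSet.countable).biUnion fun F _ => hft y F γ))
      ((countable_range _).union (countable_range _))
    exact ((g y n).finite_toSet.countable).union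
      ((G.powerset.finite_toSet.countable).biUnion fun F _ => hfc y n F γ)
  obtain ⟨A, lam, hA1, hA2, hA3, hA4, hA5, hA6⟩ := exists_pair
    (fun F γ => f0 F γ ∪ ⋃ y ∈ F, P y F γ)
    (fun F γ hγ => (hf0 F γ).union
      ((F.finite_toSet.countable).biUnion fun y _ => hPc y F γ))
    (fun F _ => hb F) (fun F _ _ => hb1 F) hA₀ (μ := max μ Ordinal.omega0)
    (max_lt hμ omega_lt_om1)
  have h0 : (0 : Ordinal.{0}) < lam := lt_of_le_of_lt (by exact bot_le) hA3
  have hP : ∀ y ∈ A, ∀ G : Finset M, (G : Set M) ⊆ A → ∀ γ < lam, P y (insert y G) γ ⊆ A := by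
    intro y hy G hG γ hγ x hx
    have h1 := (hA6 (insert y G) (by
      rw [Finset.coe_insert, insert_subset_iff]
      exact ⟨hy, hG⟩) γ hγ).1
    exact h1 (Or.inr (mem_biUnion (Finset.mem_coe.mpr (Finset.mem_insert_self y G)) hx))
  have hs1 : ∀ y ∈ A, (({y} : Finset M) : Set M) ⊆ A := by
    intro y hy x hx
    simp only [Finset.coe_singleton, mem_singleton_iff] at hx
    subst hx
    exact hy
  refine ⟨A, lam, ⟨hA1, ⟨(le_max_right _ _).trans_lt hA3, hA4, hA5⟩, ?_, ?_, ?_, ?_, ?_, ?_⟩, hA2,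
    (le_max_left _ _).trans_lt hA3, ?_, ?_⟩
  · intro γ hγ
    refine hf0' A γ (hγ.trans hA4) fun F hF => ?_
    have h1 := (hA6 F (fun x hx => (hF hx).1) γ hγ).1
    exact fun x hx => h1 (Or.inl hx)
  · intro y hy F γ hγ
    obtain ⟨n, hn⟩ := hg y F
    rw [hn]
    refine hfc' y n A γ (hγ.trans hA4) fun G hG x hx => ?_
    refine hP y hy G (fun x hx => (hG hx).1) γ hγ (Or.inl (Or.inl (mem_iUnion.mpr ⟨n, Or.inr ?_⟩)))
    simp only [mem_iUnion]
    refine ⟨G, ?_, hx⟩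
    rw [Finset.mem_powerset]
    exact Finset.subset_insert _ _
  · intro y hy γ hγ
    refine hft' y A γ (hγ.trans hA4) fun G hG x hx => ?_
    refine hP y hy G (fun x hx => (hG hx).1) γ hγ (Or.inl (Or.inr ?_))
    simp only [mem_iUnion]
    refine ⟨G, ?_, hx⟩
    rw [Finset.mem_powerset]
    exact Finset.subset_insert _ _
  · intro y hy F
    obtain ⟨n, hn⟩ := hg y F
    refine ⟨g y n, fun x hx => ?_, hn.symm⟩
    exact hP y hy ∅ (by simp) 0 h0 (Or.inl (Or.inl (mem_iUnion.mpr ⟨n, Or.inl hx⟩)))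
  · intro y hy F hF
    obtain ⟨n, hn⟩ := hg y F
    rw [hn] at hF ⊢
    have h1 := (hA6 {y} (hs1 y hy) 0 h0).2
    exact ⟨β y n, (hb2 {y} y (by simp) n).trans_lt h1, hβ2 y n hF⟩
  · intro y hy F hF ξ hξ
    obtain ⟨n, hn⟩ := hg y F
    rw [hn] at hF ⊢
    obtain ⟨F', h1, h2, h3⟩ := hw y n ξ hF (hξ.trans hA4)
    exact ⟨F', w y n ξ, hP y hy ∅ (by simp) ξ hξ (Or.inr (Or.inl ⟨n, rfl⟩)), h1, h2, h3⟩
  · intro y hy n
    exact hP y hy ∅ (by simp) 0 h0 (Or.inr (Or.inr ⟨n, rfl⟩))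
  · intro y hy
    have h1 := (hA6 {y} (hs1 y hy) 0 h0).2
    exact (hb3 {y} y (by simp)).trans_lt h1

end Pool.Agent.MON

end

/-! ### formerly `Pool.Agent.MON.BDc` -/

section

/-!
# MON, module BDc: existence of the data of case B

`b = δ` (`ω ≤ δ` by `VSt.om`), `z` by `bcl`, `ζ`, `om'`, `y n` by `exists_thr`. Call `x` big if `¬ Lt S (Tm σ S x) (ζ 0)`. For big `x` choose `F x` by `exists_base`, then `F' x`, `t x` and
`p` by `bcl` with `ζ = om'`. `s x n` enumerates `t x` and the elements of `F x` (for big `x`; otherwise `x`). `exists_rcl` with `A₀ = range y`, `μ = max δ om'` gives `A`, `lam`.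
`R₀` = the big `x ∈ A` which have an index `n` (`¬ Lt (Tm x) (ζ n)`, `Lt (Tm x) (ζ (n + 1))`; `n` is unique because `ζ` is increasing) and are the chosen
representative in `A` of the class `Tm x`: for a function `rep : Set M → M` with `rep (Tm y) ∈ A ∩ Tm y` for `y ∈ A`, `x = rep (Tm x)`; (`tm_eq`; if `y ∈ Tm x` then `Tm y = Tm x`). `u x c`: `u x (t x) = x`; for other `c ∈ A`
in `Cl (F' x) (t x)`: by `resC1` (module CG) the map `p` is of level `b` from `Cl (F' x) (t x)` to `Cl (F x) x`, a forth step gives `d`, and `RCl.cloC` for `{x}` gives `d' ∈ A` (compose);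
the same for `us` with a back step. `nin`: if `x ∈ F x` then `Cl (F x) x = {x}` (`Cx.cl_of_mem`) which has all levels. `lt'`: `RCl.tame` for `t x ∈ A`. `new`: `¬ SL om'` and `SL.mono`.
-/

set_option autoImplicit false
set_option linter.unusedSectionVars false
set_option linter.unusedVariables false

namespace Pool.Agent.MON

open Set Pool.Agent.Helper5 Pool.Agent.Helper5.DU Pool.Agent.Helper6.Str
  Pool.Agent.Helper79.VC Pool.Agent.Helper97.VC Pool.Agent.Helper97.MD Pool.Agent.Helper6.VC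
  Pool.Agent.Helper97.LO

variable {L : FirstOrder.Language.{0, 0}} {M N : Type} {σ : Sig L} {S : L.Structure M}
variable [∀ n, IsEmpty (L.Functions n)] [∀ n, Countable (L.Relations n)]
  {K : Set (L.Structure ℕ)} {δ : Ordinal.{0}}

/-- a one-point piece has all levels -/
theorem bdc_sl_single (x : M) (a : Ordinal.{0}) : SL S ({x} : Set M) a := by
  intro p hp hpX hb γ hγ
  refine BFR.refl S _ γ fun a ha => ⟨(hpX a ha).1, ?_⟩
  rw [(hpX a ha).1, (hpX a ha).2]

theorem bdc_lt_mono {X : Set M} {a b : Ordinal.{0}} (hab : a ≤ b) (h : Lt S X a) : Lt S X b :=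
  h.imp fun _ hc => ⟨hc.1.trans_le hab, hc.2⟩

/-- the image in the old cluster of an element of the new cluster -/
theorem bdc_um {A : Set M} {F F' : Finset M} {x t c : M} {p : Set (M × M)} (hA : Clo S (Cl σ S F x) 0 A)
    (hx : x ∈ A) (hδ : (0 : Ordinal.{0}) < δ)
    (hF : Mt p F' F) (htx : (t, x) ∈ p) (hb : BFR S S univ univ δ p) (hc : c ∈ Cl σ S F' t) :
    ∃ d ∈ A, d ∈ Cl σ S F x ∧ AtEq S S {(t, x), (c, d)} := by
  obtain ⟨d, -, hd⟩ := hb.forth hδ (mem_univ c)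
  have hd1 : d ∈ Cl σ S F x := (cl_congr hd.atEq (hF.mono (subset_insert _ _))
    (mem_insert_of_mem _ htx) (mem_insert _ _)).mp hc
  obtain ⟨d', hd', h1⟩ := hA {x} (by
    rw [Finset.coe_singleton, singleton_subset_iff]
    exact ⟨hx, cl_refl x⟩) d hd1
  refine ⟨d', hd'.1, hd'.2, ?_⟩
  have h2 : BFR S S univ univ 0 (insert (c, d) p) := hd
  have h3 : AtEq S S (cmp (insert (c, d) p) (insert (d, d') (dg (({x} : Finset M) : Set M)))) := by
    have h4 : BFR S S (∅ : Set M) (∅ : Set M) 0 (insert (c, d) p) := by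
      rw [BFR.def]
      exact ⟨h2.atEq, fun β hβ => absurd hβ (not_lt.mpr zero_le)⟩
    have h5 : BFR S S (∅ : Set M) (∅ : Set M) 0 (insert (d, d') (dg (({x} : Finset M) : Set M))) := by
      rw [BFR.def]
      exact ⟨h1.atEq, fun β hβ => absurd hβ (not_lt.mpr zero_le)⟩
    exact (h4.comp h5).atEq
  refine AtEq.anti ?_ h3
  rintro a (rfl | rfl)
  · exact ⟨x, mem_insert_of_mem _ htx, mem_insert_of_mem _ ⟨x, by simp, rfl⟩⟩
  · exact ⟨d, mem_insert _ _, mem_insert _ _⟩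

theorem bdc_us {A : Set M} {F F' : Finset M} {x t w : M} {p : Set (M × M)}
    (hA : Clo S (Cl σ S F' t) 0 A)
    (ht : t ∈ A) (hδ : (0 : Ordinal.{0}) < δ)
    (hF : Mt p F' F) (htx : (t, x) ∈ p) (hb : BFR S S univ univ δ p) (hw : w ∈ Cl σ S F x) :
    ∃ c ∈ A, c ∈ Cl σ S F' t ∧ AtEq S S {(t, x), (c, w)} := by
  obtain ⟨c₀, -, hc₀⟩ := hb.back hδ (mem_univ w)
  have hc1 : c₀ ∈ Cl σ S F' t := (cl_congr hc₀.atEq (hF.mono (subset_insert _ _))
    (mem_insert_of_mem _ htx) (mem_insert _ _)).mpr hw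
  obtain ⟨c, hc, h1⟩ := hA {t} (by
    rw [Finset.coe_singleton, singleton_subset_iff]
    exact ⟨ht, cl_refl t⟩) c₀ hc1
  refine ⟨c, hc.1, hc.2, ?_⟩
  have h3 : AtEq S S (cmp (Prod.swap ⁻¹' (insert (c₀, c) (dg (({t} : Finset M) : Set M))))
      (insert (c₀, w) p)) := by
    have h4 : BFR S S (∅ : Set M) (∅ : Set M) 0 (insert (c₀, w) p) := by
      rw [BFR.def]
      exact ⟨hc₀.atEq, fun β hβ => absurd hβ (not_lt.mpr zero_le)⟩
    have h5 : BFR S S (∅ : Set M) (∅ : Set M) 0 (insert (c₀, c) (dg (({t} : Finset M) : Set M))) := by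
      rw [BFR.def]
      exact ⟨h1.atEq, fun β hβ => absurd hβ (not_lt.mpr zero_le)⟩
    exact (h5.swap.comp h4).atEq
  refine AtEq.anti ?_ h3
  rintro a (rfl | rfl)
  · exact ⟨t, mem_insert_of_mem _ ⟨t, by simp, rfl⟩, mem_insert_of_mem _ htx⟩
  · exact ⟨c₀, mem_insert _ _, mem_insert _ _⟩

theorem exists_rd (hL : Ar2 L) (hS : VSt K δ S) (hC : Cx σ S) (hU : Unb σ S)
    (hw : ∃ (F : Finset M) (x : M), ¬ TT S (Cl σ S F x)) :
    ∃ (D : RD M) (lam om' : Ordinal.{0}) (ζ : ℕ → Ordinal.{0}) (idx : M → ℕ),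
      D.Ok σ S δ lam ∧ D.Th σ S lam om' ζ idx := by
  classical
  have hω : Ordinal.omega0 ≤ δ := le_self_add.trans hS.om
  have h0 : (0 : Ordinal.{0}) < δ := Ordinal.omega0_pos.trans_le hω
  obtain ⟨z, hz, hbcl⟩ := bcl (σ := σ) hS hS.lt
  obtain ⟨ζ, om', y, hgd, hmono, hle, hgd', hz0, hy⟩ := exists_thr hL hS hC hU hw hz
  have hmon : ∀ m n, m ≤ n → ζ m ≤ ζ n := fun m n h =>
    monotone_nat_of_le_succ (fun n => (hmono n).le) h
  have hdat : ∀ x, ∃ (F F' : Finset M) (t : M) (p : Set (M × M)), ¬ Lt S (Tm σ S x) (ζ 0) →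
      TT S (Cl σ S F x) ∧ ¬ SL S (Cl σ S F x) z ∧ Mt p F' F ∧ (t, x) ∈ p ∧
      BFR S S univ univ δ p ∧ TT S (Cl σ S F' t) ∧ ¬ SL S (Cl σ S F' t) om' := by
    intro x
    by_cases hx : Lt S (Tm σ S x) (ζ 0)
    · exact ⟨∅, ∅, x, ∅, fun h => absurd hx h⟩
    · obtain ⟨F, hF, hF'⟩ := exists_base hL hS hC (hgd 0) hz0 hx
      obtain ⟨F', t, p, h1, h2, h3, h4, h5⟩ := hbcl F x hF hF' om' hgd'.lt
      exact ⟨F, F', t, p, fun _ => ⟨hF, hF', h1, h2, h3, h4, h5⟩⟩
  choose F F' t p hp using hdat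
  have hs : ∀ x, ∃ s : ℕ → M, insert (t x) (F x : Set M) = range s := fun x =>
    (((F x).countable_toSet).insert (t x)).exists_eq_range ⟨t x, mem_insert _ _⟩
  choose s hs using hs
  obtain ⟨A, lam, hA, hyA, hμ, hsA, -⟩ := exists_rcl hS hC hU (countable_range y)
    (μ := max δ om') (max_lt hS.lt hgd'.lt) s (fun _ => 0)
    (fun _ => zero_le.trans_lt hS.lt)
  have hδl : δ < lam := (le_max_left _ _).trans_lt hμ
  have hol : om' < lam := (le_max_right _ _).trans_lt hμ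
  have h0l : (0 : Ordinal.{0}) < lam := h0.trans hδl
  have htA : ∀ x ∈ A, t x ∈ A := by
    intro x hx
    obtain ⟨n, hn⟩ : t x ∈ range (s x) := by
      rw [← hs x]
      exact mem_insert _ _
    rw [← hn]
    exact hsA x hx n
  have hFA : ∀ x ∈ A, (F x : Set M) ⊆ A := by
    intro x hx w hw'
    obtain ⟨n, hn⟩ : w ∈ range (s x) := by
      rw [← hs x]
      exact mem_insert_of_mem _ hw'
    rw [← hn]
    exact hsA x hx n
  -- representatives of the classes
  have hrep : ∃ rep : Set M → M, ∀ y ∈ A, rep (Tm σ S y) ∈ A ∧ rep (Tm σ S y) ∈ Tm σ S y := by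
    have h1 : ∀ X : Set M, ∃ w : M, (X ∩ A).Nonempty → w ∈ A ∧ w ∈ X := by
      intro X
      by_cases h : (X ∩ A).Nonempty
      · obtain ⟨w, hw1, hw2⟩ := h
        exact ⟨w, fun _ => ⟨hw2, hw1⟩⟩
      · exact ⟨y 0, fun h' => absurd h' h⟩
    choose rep hrep using h1
    exact ⟨rep, fun y hy => hrep _ ⟨y, tm_refl hC y, hy⟩⟩
  obtain ⟨rep, hrep⟩ := hrep
  let hasI : M → ℕ → Prop := fun x n => ¬ Lt S (Tm σ S x) (ζ n) ∧ Lt S (Tm σ S x) (ζ (n + 1))
  have huniq : ∀ x m n, hasI x m → hasI x n → m = n := by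
    intro x m n hm hn
    by_contra hne
    rcases lt_or_gt_of_ne hne with h | h
    · exact hn.1 (bdc_lt_mono (hmon _ _ h) hm.2)
    · exact hm.1 (bdc_lt_mono (hmon _ _ h) hn.2)
  have hidx : ∀ x, ∃ n, (∃ n, hasI x n) → hasI x n := by
    intro x
    by_cases h : ∃ n, hasI x n
    · obtain ⟨n, hn⟩ := h
      exact ⟨n, fun _ => hn⟩
    · exact ⟨0, fun h' => absurd h' h⟩
  choose idx hidx using hidx
  have hbig : ∀ x n, hasI x n → ¬ Lt S (Tm σ S x) (ζ 0) := fun x n h h' =>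
    h.1 (bdc_lt_mono (hmon _ _ (Nat.zero_le n)) h')
  let R₀ : Set M := {x | x ∈ A ∧ (∃ n, hasI x n) ∧ rep (Tm σ S x) = x}
  have hR : ∀ x ∈ R₀, x ∈ A ∧ (∃ n, hasI x n) ∧ rep (Tm σ S x) = x := fun x hx => hx
  have hRb : ∀ x ∈ R₀, TT S (Cl σ S (F x) x) ∧ ¬ SL S (Cl σ S (F x) x) z ∧
      Mt (p x) (F' x) (F x) ∧ (t x, x) ∈ p x ∧
      BFR S S univ univ δ (p x) ∧ TT S (Cl σ S (F' x) (t x)) ∧
      ¬ SL S (Cl σ S (F' x) (t x)) om' := by
    intro x hx
    obtain ⟨n, hn⟩ := (hR x hx).2.1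
    exact hp x (hbig x n hn)
  -- the map `u`
  have hu : ∀ x c, ∃ d, x ∈ R₀ → c ∈ Cl σ S (F' x) (t x) → d ∈ A ∧ d ∈ Cl σ S (F x) x ∧
      AtEq S S {(t x, x), (c, d)} := by
    intro x c
    by_cases hx : x ∈ R₀
    · by_cases hc : c ∈ Cl σ S (F' x) (t x)
      · obtain ⟨h1, h2, h3, h4, h5, h6, h7⟩ := hRb x hx
        obtain ⟨d, hd⟩ := bdc_um (hA.cloC x (hR x hx).1 (F x) 0 h0l) (hR x hx).1 h0 h3 h4 h5 hc
        exact ⟨d, fun _ _ => hd⟩
      · exact ⟨x, fun _ h => absurd h hc⟩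
    · exact ⟨x, fun h => absurd h hx⟩
  choose u hu using hu
  refine ⟨⟨A, R₀, F, F', t, fun x c => if c = t x then x else u x c⟩, lam, om', ζ, idx,
    { ctbl := hA.ctbl
      gd := hA.gd
      omb := hω
      blt := hδl
      sub := fun x hx => hx.1
      sep := ?_
      tt := fun x hx => (hRb x hx).1
      nin := ?_
      parF := fun x hx => hFA x hx.1
      part := fun x hx => htA x hx.1
      lt' := fun x hx => hA.tame _ (htA x hx.1) _ (hRb x hx).2.2.2.2.2.1
      bfr := fun x hx => ⟨p x, (hRb x hx).2.2.1, (hRb x hx).2.2.2.1, (hRb x hx).2.2.2.2.1⟩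
      ux := fun x hx => if_pos rfl
      um := ?_
      us := ?_
      clo := hA.clo
      cloC := hA.cloC
      cloT := hA.cloT
      par := hA.par
      tame := hA.tame
      wild := hA.wild },
    { gd := hgd
      mono := hmono
      le := hle
      gd' := hgd'
      lt := hol
      new := ?_
      lev := fun x hx => hidx x hx.2.1
      all := ?_
      ex := fun n => ⟨y n, hyA ⟨n, rfl⟩, hy n⟩ }⟩
  · intro x hx x' hx' hne hmem
    have h1 := tm_eq hC hmem
    apply hne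
    rw [← hx.2.2, ← hx'.2.2, h1]
  · intro x hx hmem
    apply (hRb x hx).2.1
    show SL S (Cl σ S (F x) x) z
    rw [hC.cl_of_mem (show x ∈ F x from hmem)]
    exact bdc_sl_single x z
  · intro x hx c hc hcc
    show (if c = t x then x else u x c) ∈ A ∧ (if c = t x then x else u x c) ∈ Cl σ S (F x) x ∧
      AtEq S S {(t x, x), (c, if c = t x then x else u x c)}
    by_cases h : c = t x
    · rw [if_pos h]
      refine ⟨hx.1, cl_refl x, ?_⟩
      subst h
      refine AtEq.anti ?_ (hRb x hx).2.2.2.2.1.atEq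
      rintro a (rfl | rfl)
      · exact (hRb x hx).2.2.2.1
      · exact (hRb x hx).2.2.2.1
    · rw [if_neg h]
      exact hu x c hx hcc
  · intro x hx w hwA hwc
    obtain ⟨h1, h2, h3, h4, h5, h6, h7⟩ := hRb x hx
    exact bdc_us (hA.cloC _ (htA x hx.1) (F' x) 0 h0l) (htA x hx.1) h0 h3 h4 h5 hwc
  · intro x hx h
    obtain ⟨a, ha, ha'⟩ := h
    exact (hRb x hx).2.2.2.2.2.2 (ha'.mono ha.le)
  · intro y' hy' n h1 h2
    have h3 := hrep y' hy'
    have h4 := tm_eq hC h3.2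
    have h5 : hasI (rep (Tm σ S y')) n := by
      show ¬ Lt S (Tm σ S (rep (Tm σ S y'))) (ζ n) ∧ Lt S (Tm σ S (rep (Tm σ S y'))) (ζ (n + 1))
      rw [h4]
      exact ⟨h1, h2⟩
    refine ⟨rep (Tm σ S y'), ⟨h3.1, ⟨n, h5⟩, ?_⟩, ?_, ?_⟩
    · rw [h4]
    · rw [h4]
      exact tm_refl hC y'
    · exact huniq _ _ _ (hidx _ ⟨n, h5⟩) h5

end Pool.Agent.MON

end

/-! ### formerly `Pool.Agent.MON.CSB` -/

section

/-!
# MON, module CSB: case B

`exists_rd`; `VSt.false_of_code` (Helper22/VCM/C2b.lean) with `N f = NR D σ S (Rf D idx f)`, `T f = nrS D σ S (Rf D idx f)`: countable because `D.A` is;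
`nr_bfr`; decoding: `qb_iff` for `f` and `g` and `qb_congr` in both directions.
-/

set_option autoImplicit false
set_option linter.unusedSectionVars false
set_option linter.unusedVariables false

namespace Pool.Agent.MON

open Set Pool.Agent.Helper5 Pool.Agent.Helper5.DU Pool.Agent.Helper6.Str
  Pool.Agent.Helper79.VC Pool.Agent.Helper97.VC Pool.Agent.Helper97.MD Pool.Agent.Helper6.VC
  Pool.Agent.Helper97.LO

variable {L : FirstOrder.Language.{0, 0}} {M N : Type} {σ : Sig L} {S : L.Structure M}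
variable [∀ n, IsEmpty (L.Functions n)] [∀ n, Countable (L.Relations n)]
  {K : Set (L.Structure ℕ)} {δ : Ordinal.{0}}

theorem csb_gamma {lam : Ordinal.{0}} (h : Gd lam) :
    lam + Ordinal.omega0 + lam + Ordinal.omega0 < om1 :=
  add_lt_om1 (add_lt_om1 (add_lt_om1 h.lt omega_lt_om1) h.lt) omega_lt_om1

theorem case_b (hL : Ar2 L) (hS : VSt K δ S) (hC : Cx σ S) (hU : Unb σ S)
    (hw : ∃ (F : Finset M) (x : M), ¬ TT S (Cl σ S F x)) : False := by
  obtain ⟨D, lam, om', ζ, idx, hD, hT⟩ := exists_rd hL hS hC hU hw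
  have hsub : ∀ f, Rf D idx f ⊆ D.R₀ := fun f x hx => hx.1
  refine hS.false_of_code (fun f => NR D σ S (Rf D idx f)) (fun f => nrS D σ S (Rf D idx f))
    (fun f => ?_) (fun f => nr_bfr hL hC hD (hsub f)) (csb_gamma hD.gd) (fun f g hfg => ?_)
  · have hc := hD.ctbl
    have h1 : {c : Option M × M | (c.1 = none ∨ ∃ x ∈ D.A, c.1 = some x) ∧ c.2 ∈ D.A}.Countable := by
      have h2 : ({none} ∪ some '' D.A : Set (Option M)).Countable :=
        (countable_singleton _).union (hc.image _)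
      refine (h2.prod hc).mono ?_
      rintro ⟨c, d⟩ ⟨h3 | ⟨x, hx, h3⟩, h4⟩
      · exact ⟨Or.inl h3, h4⟩
      · exact ⟨Or.inr ⟨x, hx, h3.symm⟩, h4⟩
    have h2 : {c : Option M × M | (c.1 = none ∧ c.2 ∈ D.A ∧ ∀ x ∈ Rf D idx f,
        c.2 ∉ Cl σ S (D.F x) x) ∨ ∃ x ∈ Rf D idx f, c.1 = some x ∧ c.2 ∈ D.A ∧
          c.2 ∈ Cl σ S (D.F' x) (D.t x)}.Countable := by
      refine h1.mono ?_
      rintro c (⟨h3, h4, -⟩ | ⟨x, hx, h3, h4, -⟩)
      · exact ⟨Or.inl h3, h4⟩
      · exact ⟨Or.inr ⟨x, hD.sub (hsub f hx), h3⟩, h4⟩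
    exact h2.to_subtype
  · have hle : ∀ n, ζ n ≤ lam := fun n => (hT.le n).trans hT.lt.le
    funext n
    have h1 := qb_iff hL hS hC hD hT f n
    have h2 := qb_iff hL hS hC hD hT g n
    have h3 : QB σ (nrS D σ S (Rf D idx f)) lam ζ n ↔ QB σ (nrS D σ S (Rf D idx g)) lam ζ n :=
      ⟨qb_congr hD.gd hT.gd hle le_rfl hfg,
        qb_congr hD.gd hT.gd hle le_rfl (hfg.symm fun a ha => absurd ha (notMem_empty a))⟩
    have h4 : f n = true ↔ g n = true := h1.symm.trans (h3.trans h2)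
    cases hf : f n <;> cases hg : g n <;> simp_all

end Pool.Agent.MON

end
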